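import Pool.Agent.Q138.PS.VU

set_option autoImplicit false

/-!
# Sets of dimension zero outside of which points are not close to exceptional points
-/

namespace Pool.Agent.Q138.PS

open Filter MeasureTheory Topology

/-- a compact subset of `Ω` -/
def inner (Ω : Set ℂ) (k : ℕ) : Set ℂ := {z | ‖z‖ ≤ k ∧ ∀ w, w ∉ Ω → ((k : ℝ) + 1)⁻¹ ≤ dist z w}

theorem inner_compact (Ω : Set ℂ) (k : ℕ) : IsCompact (inner Ω k) := by
  have h1 : IsClosed (inner Ω k) := by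
    have e : inner Ω k = {z | ‖z‖ ≤ k} ∩ ⋂ w, ⋂ (_ : w ∉ Ω), {z | ((k : ℝ) + 1)⁻¹ ≤ dist z w} := by
      ext z
      simp [inner]
    rw [e]
    refine IsClosed.inter (isClosed_le continuous_norm continuous_const) ?_
    refine isClosed_iInter fun w => isClosed_iInter fun _ => ?_
    exact isClosed_le continuous_const (continuous_id.dist continuous_const)
  refine (isCompact_closedBall (0 : ℂ) k).of_isClosed_subset h1 fun z hz => ?_
  rw [mem_closedBall_zero_iff]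
  exact hz.1

theorem inner_sub (Ω : Set ℂ) (k : ℕ) : inner Ω k ⊆ Ω := by
  intro z hz
  by_contra h
  have h1 := hz.2 z h
  rw [dist_self] at h1
  have : (0 : ℝ) < ((k : ℝ) + 1)⁻¹ := by positivity
  linarith

theorem inner_mono (Ω : Set ℂ) {k k' : ℕ} (h : k ≤ k') : inner Ω k ⊆ inner Ω k' := by
  intro z hz
  refine ⟨hz.1.trans (by exact_mod_cast h), fun w hw => le_trans ?_ (hz.2 w hw)⟩
  have : (k : ℝ) ≤ k' := by exact_mod_cast h
  gcongr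

theorem inner_nhds {Ω : Set ℂ} (hΩ : IsOpen Ω) {z : ℂ} (hz : z ∈ Ω) : ∃ (k : ℕ) (r : ℝ), 0 < r ∧
    ∀ y, dist y z ≤ r → y ∈ inner Ω k := by
  obtain ⟨ρ, hρ, hb⟩ := Metric.isOpen_iff.1 hΩ z hz
  obtain ⟨k₁, hk₁⟩ := exists_nat_ge (‖z‖ + ρ)
  obtain ⟨k₂, hk₂⟩ := exists_nat_ge (2 / ρ)
  refine ⟨max k₁ k₂, ρ / 2, by positivity, fun y hy => ⟨?_, fun w hw => ?_⟩⟩
  · have h1 : ‖y‖ ≤ ‖z‖ + dist y z := by
      rw [dist_eq_norm]
      calc ‖y‖ = ‖z + (y - z)‖ := by congr 1; ring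
        _ ≤ _ := norm_add_le _ _
    have h2 : (k₁ : ℝ) ≤ (max k₁ k₂ : ℕ) := by exact_mod_cast le_max_left _ _
    linarith
  · have h1 : ρ ≤ dist w z := by
      by_contra h
      exact hw (hb (Metric.mem_ball.2 (not_le.1 h)))
    have h2 : dist w z ≤ dist y w + dist y z := by
      rw [dist_comm y w]
      exact dist_triangle _ _ _
    have h3 : ((max k₁ k₂ : ℕ) + 1 : ℝ)⁻¹ ≤ ρ / 2 := by
      have h4 : (2 : ℝ) / ρ ≤ (max k₁ k₂ : ℕ) + 1 := by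
        have : (k₂ : ℝ) ≤ (max k₁ k₂ : ℕ) := by exact_mod_cast le_max_right _ _
        linarith
      rw [inv_le_comm₀ (by positivity) (by positivity), inv_div]
      exact h4
    linarith

theorem zero_dim {J Y : Type} [Countable J] [MetricSpace Y] (Z : J → ℕ → Set Y) (c : J → ℝ)
    (h : ∀ i m, dimH (Z i m) ≤ ENNReal.ofReal (c i / ((m : ℝ) + 1))) : dimH (⋃ i, ⋂ m, Z i m) = 0 := by
  rw [dimH_iUnion]
  refine le_antisymm (iSup_le fun i => ?_) bot_le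
  have h1 : ∀ m : ℕ, dimH (⋂ m, Z i m) ≤ ENNReal.ofReal (c i / ((m : ℝ) + 1)) := fun m =>
    (dimH_mono (Set.iInter_subset _ m)).trans (h i m)
  have h2 : Tendsto (fun m : ℕ => ENNReal.ofReal (c i / ((m : ℝ) + 1))) atTop (𝓝 0) := by
    rw [← ENNReal.ofReal_zero]
    refine ENNReal.tendsto_ofReal ?_
    refine Tendsto.div_atTop tendsto_const_nhds ?_
    exact tendsto_atTop_add_const_right _ _ tendsto_natCast_atTop_atTop
  exact ge_of_tendsto' h2 h1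

/-- a set of dimension zero for countably many kinds of exceptional points at once, in an open set -/
theorem near_open {n : ℕ} (Ω : Fin n → Set ℂ) (hΩ : ∀ j, IsOpen (Ω j)) {J : Type} [Countable J]
    (F : J → Type) [∀ i, Field (F i)] (σ : ∀ i, F i →+* ℂ) (Bad : ∀ i, ℝ → ℝ → Set (Fin n → F i))
    (h : ∀ (i : J) (k : ℕ), ∃ B c : ℝ, ∀ θ : ℝ, 0 < θ →
      dimH (Close (σ i) (fun T => {s | s ∈ Bad i B T ∧ ∀ j, σ i (s j) ∈ inner (Ω j) k}) θ) ≤ ENNReal.ofReal (c / θ)) :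
    ∃ Z : Set (Fin n → ℂ), dimH Z = 0 ∧ ∀ z, z ∉ Z → (∀ j, z j ∈ Ω j) → ∀ i, ∃ B θ : ℝ, 0 < θ ∧
      ∀ᶠ T : ℝ in atTop, ∀ s ∈ Bad i B T, ∃ j, T ^ (-θ) < ‖σ i (s j) - z j‖ := by
  choose B c hc using h
  refine ⟨⋃ i : J × ℕ, ⋂ m : ℕ, Close (σ i.1) (fun T => {s | s ∈ Bad i.1 (B i.1 i.2) T ∧ ∀ j, σ i.1 (s j) ∈ inner (Ω j) i.2})
    ((m : ℝ) + 1), zero_dim _ (fun i => c i.1 i.2) fun i m => hc i.1 i.2 _ (by positivity), ?_⟩
  intro z hz hzΩ i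
  choose k₀ r hr hk using fun j => inner_nhds (hΩ j) (hzΩ j)
  set k : ℕ := ∑ j, k₀ j with hkdef
  have hkj : ∀ j, k₀ j ≤ k := fun j => Finset.single_le_sum (f := k₀) (fun _ _ => Nat.zero_le _) (Finset.mem_univ j)
  have h1 : ∃ m : ℕ, z ∉ Close (σ i) (fun T => {s | s ∈ Bad i (B i k) T ∧ ∀ j, σ i (s j) ∈ inner (Ω j) k}) ((m : ℝ) + 1) := by
    by_contra hcon
    push Not at hcon
    exact hz (Set.mem_iUnion.2 ⟨(i, k), Set.mem_iInter.2 hcon⟩)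
  obtain ⟨m, hm⟩ := h1
  refine ⟨B i k, (m : ℝ) + 1, by positivity, ?_⟩
  have h3 : ¬ ∃ᶠ T : ℝ in atTop, ∃ s ∈ {s | s ∈ Bad i (B i k) T ∧ ∀ j, σ i (s j) ∈ inner (Ω j) k},
    ∀ j, ‖σ i (s j) - z j‖ ≤ T ^ (-((m : ℝ) + 1)) := hm
  rw [not_frequently] at h3
  have h4 : ∀ᶠ T : ℝ in atTop, ∀ j, T ^ (-((m : ℝ) + 1)) ≤ r j := by
    rw [eventually_all]
    intro j
    have h5 : Tendsto (fun T : ℝ => T ^ (-((m : ℝ) + 1))) atTop (𝓝 0) := tendsto_rpow_neg_atTop (by positivity)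
    exact (h5.eventually_lt_const (hr j)).mono fun T hT => hT.le
  filter_upwards [h3, h4] with T hT hT4
  intro s hs
  by_contra hcon
  push Not at hcon
  refine hT ⟨s, ⟨hs, fun j => inner_mono _ (hkj j) (hk j _ ?_)⟩, hcon⟩
  rw [dist_eq_norm]
  exact (hcon j).trans (hT4 j)

end Pool.Agent.Q138.PS
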