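import Pool.Agent.Q138.PS.PO

set_option autoImplicit false

/-!
# General polynomials, limits of dimension bounds
-/

namespace Pool.Agent.Q138.PS

open Finset MeasureTheory Filter Topology
open scoped ENNReal NNReal
open Pool.Agent.Q138.GS

/-- **polynomials are admissible**, general form -/
theorem adS_gen {ι : Type} {h : ι → ℕ → ℂ} (hh : ∀ ω (m : ℕ), ‖h ω m‖ ≤ Real.log ((m : ℝ) + 3)) (hU : UCan h)
    (q d : ℕ) (hq : 1 ≤ q) (k A : ℕ) (b : ℝ) {θ δ ε : ℝ} (hδ1 : δ < 1) (hθ0 : 0 ≤ θ) (hε : 0 < ε) :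
    ∀ᶠ N : ℕ in atTop, ∀ ω (P : Polynomial ℝ), P.natDegree = q → P ≠ 0 →
      (∀ ρ ∈ (P.map (algebraMap ℝ ℂ)).roots, ‖ρ‖ ≤ (N : ℝ) ^ δ) → (∀ x : ℝ, (cut k N : ℝ) ≤ x → 0 < P.eval x) →
      (N : ℝ) ^ ε ≤ P.eval (cut k N : ℝ) → (∀ n : ℕ, n ≤ N → P.eval (n : ℝ) ≤ (N : ℝ) ^ θ) →
      AdS (1 / 2) (2 * q * ((d + 1).factorial : ℝ)) d k A b θ ε N (fun n => P.eval (n : ℝ)) (h ω) := by
  obtain ⟨M, hM2, hreg⟩ := reg_roots q (d + 1) hq
  have he1 : 0 < 1 - δ := by linarith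
  filter_upwards [eventually_ge_atTop 1, can_ev hh hU k A b θ ε hθ0 hε, cut_size k,
    pw (2 * M) k he1] with N hN hcan hcut h1
  intro ω P hdeg hP0 hroots hpos' hεJ' hup
  obtain ⟨hl, hJ1, hJ2, hJ3, hJ4⟩ := hcut
  have hN0 : (0 : ℝ) < N := by exact_mod_cast hN
  have hN1 : (1 : ℝ) ≤ N := by exact_mod_cast hN
  set H : ℝ := (N : ℝ) ^ δ with hH
  have hH0 : 0 < H := by positivity
  have hU' := hreg P hdeg hP0 H (M * H) hH0 hroots le_rfl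
  have hlk : 0 < (Real.log N) ^ k := by positivity
  have hJr : (0 : ℝ) < (⌊(N : ℝ) / (Real.log N) ^ k⌋₊ : ℝ) := by exact_mod_cast hJ1
  have hx0J : M * H ≤ (cut k N : ℝ) := by
    have e1 : (N : ℝ) = (N : ℝ) ^ (1 - δ) * H := by
      rw [hH, ← Real.rpow_add hN0]
      norm_num
    have e2 : 2 * M * (Real.log N) ^ k * H ≤ 2 * (Real.log N) ^ k * (cut k N : ℝ) := by
      calc 2 * M * (Real.log N) ^ k * H ≤ (N : ℝ) ^ (1 - δ) * H := by gcongr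
        _ = N := e1.symm
        _ ≤ _ := hJ2
    have e3 : (2 * (Real.log N) ^ k) * (M * H) ≤ (2 * (Real.log N) ^ k) * (cut k N : ℝ) := by
      calc _ = 2 * M * (Real.log N) ^ k * H := by ring
        _ ≤ _ := e2
    exact le_of_mul_le_mul_left e3 (by positivity)
  have hpos : ∀ x : ℝ, (cut k N : ℝ) ≤ x → Real.exp (pol P 0 x) = P.eval x := by
    intro x hx
    have e4 : pol P 0 x = Real.log (P.eval x) := by simp [pol]
    rw [e4, Real.exp_log (hpos' x hx)]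
  have hcutN : (cut k N : ℝ) ≤ N := by exact_mod_cast hJ4
  have hεJ : (N : ℝ) ^ ε ≤ Real.exp (pol P 0 (cut k N)) := by
    rw [hpos _ le_rfl]
    exact hεJ'
  refine ⟨⟨pol P, ⟨M * H, by positivity, hU', hx0J, ?_, hεJ⟩, fun n hn _ => ?_, hcan ω _ hεJ⟩, hup⟩
  · rw [hpos _ hcutN]
    exact hup N le_rfl
  · exact (hpos n (by exact_mod_cast hn.le)).symm

/-- limits of dimension bounds -/
theorem dim_lim {S : Set ℝ} {f : ℝ → ℝ} {η0 : ℝ} (hη0 : 0 < η0) (hf : ContinuousAt f 0)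
    (h : ∀ η : ℝ, 0 < η → η < η0 → dimH S ≤ ENNReal.ofReal (f η)) : dimH S ≤ ENNReal.ofReal (f 0) := by
  have hlim : Tendsto (fun η : ℝ => ENNReal.ofReal (f η)) (𝓝[>] 0) (𝓝 (ENNReal.ofReal (f 0))) :=
    (ENNReal.continuous_ofReal.tendsto _).comp (hf.tendsto.mono_left nhdsWithin_le_nhds)
  refine ge_of_tendsto hlim ?_
  have h1 : Set.Ioo (0 : ℝ) η0 ∈ 𝓝[>] (0 : ℝ) := Ioo_mem_nhdsGT hη0
  filter_upwards [h1] with η hη using h η hη.1 hη.2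

end Pool.Agent.Q138.PS
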