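import Pool.Agent.Q138.GS.Kd

set_option autoImplicit false

/-!
# Power saving: exponential sums with explicit exponents, uniformly in the phase
-/

namespace Pool.Agent.Q138.PS

open Finset
open Pool.Agent.H469R2.NK (e norm_e Cq Cq_pos)
open Pool.Agent.Q138.GS

/-- the exponent of the saving in the square -/
noncomputable def kp (d : ℕ) : ℝ := 1 / ((d : ℝ) * 2 ^ (d - 1))

theorem kp_pos {d : ℕ} (hd : 2 ≤ d) : 0 < kp d := by
  unfold kp
  have : (0 : ℝ) < d := by exact_mod_cast (by omega : 0 < d)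
  positivity

theorem kp_le {d : ℕ} (hd : 2 ≤ d) : kp d ≤ 1 / 4 := by
  unfold kp
  have h1 : (2 : ℝ) ≤ d := by exact_mod_cast hd
  have h2 : (2 : ℝ) ≤ 2 ^ (d - 1) := by
    calc (2 : ℝ) = 2 ^ 1 := by norm_num
      _ ≤ 2 ^ (d - 1) := pow_le_pow_right₀ (by norm_num) (by omega)
  rw [div_le_div_iff₀ (by positivity) (by norm_num)]
  nlinarith

/-- exponential sums over short blocks, uniformly in the phase -/
theorem ps_exp (c C : ℝ) (hc : 0 < c) (hC : 0 < C) (d : ℕ) (hd : 2 ≤ d) :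
    ∃ K : ℝ, 0 ≤ K ∧ ∃ N0 : ℕ, ∀ (φ : ℕ → ℝ → ℝ) (x0 : ℝ), RegU φ (d + 1) x0 c C →
      ∀ (N L : ℕ) (u Z : ℝ), N0 ≤ N → x0 ≤ N → (N : ℝ) ≤ u → L ≤ N → u + L ≤ 3 * N →
      (N : ℝ) ^ (1 / 2 : ℝ) ≤ Z →
      ‖∑ n ∈ range L, e (Z * φ 0 (u + n))‖ ^ 2 ≤
        K * (Real.log N) ^ d * (N : ℝ) ^ (2 - kp d) * (1 + Z / (N : ℝ) ^ d) := by
  have hd' : (2 : ℝ) ≤ d := by exact_mod_cast hd
  have hd0 : (0 : ℝ) < d := by linarith
  have hkp := kp_pos hd
  have hkp4 := kp_le hd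
  set K0 : ℝ := Cq d * (2 * (1 + 2 * C) + 2 + (2 * 3 ^ (d + 1) / c) * 2 ^ d * (2 * C + 1)) with hK0
  have hCq := Cq_pos d
  have hK00 : 0 < K0 := by rw [hK0]; positivity
  set K1 : ℝ := (K0 * 2 ^ d) ^ ((1 : ℝ) / 2 ^ (d - 1)) with hK1
  have hK10 : 0 ≤ K1 := by positivity
  refine ⟨K1 + 1, by positivity, max 16 ⌈(4 ^ d * (2 * C)) ^ 2⌉₊, ?_⟩
  intro φ x0 hU N L u Z hN hx hu hL huL hZ1
  have hN16 : 16 ≤ N := (le_max_left _ _).trans hN
  have hN16r : (16 : ℝ) ≤ N := by exact_mod_cast hN16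
  have hN1 : (1 : ℝ) ≤ N := by linarith
  have hNp : (0 : ℝ) < N := by linarith
  have hNC : (4 ^ d * (2 * C)) ^ 2 ≤ (N : ℝ) := (Nat.le_ceil _).trans (by exact_mod_cast (le_max_right _ _).trans hN)
  have hlog : 1 ≤ Real.log N := by
    rw [Real.le_log_iff_exp_le hNp]
    have := Real.exp_one_lt_d9
    linarith
  have hlogd : 1 ≤ (Real.log N) ^ d := one_le_pow₀ hlog
  have hZ : 0 < Z := lt_of_lt_of_le (by positivity) hZ1
  have hsq : (N : ℝ) ^ (1 / 2 : ℝ) * (N : ℝ) ^ (1 / 2 : ℝ) = N := by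
    rw [← Real.rpow_add hNp]
    norm_num
  set s : ℝ := (N : ℝ) ^ (1 / 2 : ℝ) with hs
  have hs0 : 0 < s := by positivity
  have hs4 : 4 ^ d * (2 * C) ≤ s := by
    rw [hs, ← Real.sqrt_eq_rpow]
    exact Real.le_sqrt_of_sq_le hNC
  set W : ℝ := 1 + Z / (N : ℝ) ^ d with hW
  have hW1 : 1 ≤ W := by
    have : 0 ≤ Z / (N : ℝ) ^ d := by positivity
    linarith
  have hSS : ∑ n ∈ range L, e (Z * φ 0 (u + n)) = SL φ Z u L [] := by
    unfold SL
    simp only [List.sum_nil, Nat.sub_zero]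
    rfl
  rw [hSS]
  have htriv : ‖SL φ Z u L []‖ ≤ N := by
    unfold SL
    refine (norm_sum_le _ _).trans ?_
    simp only [norm_e, sum_const, card_range, nsmul_eq_mul, mul_one, List.sum_nil, Nat.sub_zero]
    exact_mod_cast hL
  rcases le_or_gt Z ((N : ℝ) ^ d * s) with hcase | hcase
  swap
  · -- large frequencies
    have h1 : s ≤ W := by
      have : s ≤ Z / (N : ℝ) ^ d := by
        rw [le_div_iff₀ (by positivity), mul_comm]
        exact hcase.le
      linarith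
    calc ‖SL φ Z u L []‖ ^ 2 ≤ (N : ℝ) ^ 2 := pow_le_pow_left₀ (norm_nonneg _) htriv 2
      _ = (N : ℝ) ^ (3 / 2 : ℝ) * s := by
          rw [hs, ← Real.rpow_add hNp, ← Real.rpow_natCast]
          norm_num
      _ ≤ (N : ℝ) ^ (2 - kp d) * W := by
          refine mul_le_mul ?_ h1 hs0.le (by positivity)
          exact Real.rpow_le_rpow_of_exponent_le hN1 (by linarith)
      _ = 1 * 1 * (N : ℝ) ^ (2 - kp d) * W := by ring
      _ ≤ (K1 + 1) * (Real.log N) ^ d * (N : ℝ) ^ (2 - kp d) * W := by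
          gcongr
          linarith
  set g : ℝ := (N : ℝ) ^ (d + 1) / (2 * C * Z) with hg
  have hg0 : 0 < g := by positivity
  set h : ℝ := g ^ ((1 : ℝ) / d) with hh
  have hh0 : 0 < h := by positivity
  have hhd : h ^ d = g := by
    rw [hh, ← Real.rpow_natCast, ← Real.rpow_mul hg0.le, one_div_mul_cancel hd0.ne', Real.rpow_one]
  have hglow : 4 ^ d ≤ g := by
    rw [hg, le_div_iff₀ (by positivity)]
    calc 4 ^ d * (2 * C * Z) = (4 ^ d * (2 * C)) * Z := by ring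
      _ ≤ s * ((N : ℝ) ^ d * s) := by gcongr
      _ = (N : ℝ) ^ d * (s * s) := by ring
      _ = (N : ℝ) ^ (d + 1) := by rw [hsq, pow_succ]
  have hh4 : 4 ≤ h := by
    by_contra hlt
    rw [not_le] at hlt
    have : h ^ d < 4 ^ d := pow_lt_pow_left₀ hlt hh0.le (by omega)
    linarith
  set m : ℝ := min h N with hm
  have hm4 : 4 ≤ m := le_min hh4 (by linarith)
  set H : ℕ := ⌊m⌋₊ with hH
  have hHle : (H : ℝ) ≤ m := Nat.floor_le (by linarith)
  have hHh : (H : ℝ) ≤ h := hHle.trans (min_le_left _ _)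
  have hHN : H ≤ N := by exact_mod_cast hHle.trans (min_le_right _ _)
  have hH1 : 1 ≤ H := (Nat.one_le_floor_iff _).mpr (by linarith)
  have hHge : m / 2 ≤ H := by
    have h1 : m < H + 1 := Nat.lt_floor_add_one m
    have h2 : (1 : ℝ) ≤ H := by exact_mod_cast hH1
    linarith
  have hH0 : (0 : ℝ) < H := by exact_mod_cast hH1
  have hm0 : 0 < m := by linarith
  have hcond : 2 * (Z * (C / (N : ℝ) ^ (d + 1) * (H : ℝ) ^ d)) ≤ 1 := by
    have e1 : 2 * (Z * (C / (N : ℝ) ^ (d + 1) * (H : ℝ) ^ d)) = (H : ℝ) ^ d / g := by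
      rw [hg]
      field_simp
    rw [e1, div_le_one hg0, ← hhd]
    exact pow_le_pow_left₀ hH0.le hHh d
  have hb := exp_boundL hU hc hC d le_rfl Z hZ N u L H (by omega) hx hu hL huL hH1 hHN hcond
  -- first term
  have hinv : 1 / m ≤ 1 / h + 1 / N := by
    rcases le_total h N with h1 | h1
    · rw [hm, min_eq_left h1]
      have : 0 ≤ 1 / (N : ℝ) := by positivity
      linarith
    · rw [hm, min_eq_right h1]
      have : 0 ≤ 1 / h := by positivity
      linarith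
  have hinvd : 1 / m ^ d ≤ 1 / h ^ d + 1 / (N : ℝ) ^ d := by
    rcases le_total h N with h1 | h1
    · rw [hm, min_eq_left h1]
      have : 0 ≤ 1 / (N : ℝ) ^ d := by positivity
      linarith
    · rw [hm, min_eq_right h1]
      have : 0 ≤ 1 / h ^ d := by positivity
      linarith
  set ν : ℝ := (N : ℝ) ^ (-(1 : ℝ) / d) with hν
  have hν0 : 0 < ν := by positivity
  have hνs : 1 / s ≤ ν := by
    rw [hs, hν, one_div, ← Real.rpow_neg hNp.le]
    apply Real.rpow_le_rpow_of_exponent_le hN1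
    rw [neg_div, neg_le_neg_iff, div_le_div_iff₀ hd0 (by norm_num)]
    linarith
  have hNν : 1 / (N : ℝ) ≤ ν := by
    refine le_trans ?_ hνs
    rw [div_le_div_iff₀ hNp hs0]
    nlinarith
  have h1h : 1 / h ≤ (1 + 2 * C) * ν * W := by
    have e1 : 1 / h = (2 * C * (Z / (N : ℝ) ^ d)) ^ ((1 : ℝ) / d) * ν := by
      have e2 : 1 / h = (1 / g) ^ ((1 : ℝ) / d) := by
        rw [hh, Real.div_rpow zero_le_one hg0.le, Real.one_rpow]
      have e3 : 1 / g = (2 * C * (Z / (N : ℝ) ^ d)) * (1 / N) := by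
        rw [hg, pow_succ]
        field_simp
      rw [e2, e3, Real.mul_rpow (by positivity) (by positivity), hν]
      congr 1
      rw [one_div, Real.inv_rpow hNp.le, ← Real.rpow_neg hNp.le]
      congr 1
      ring
    rw [e1]
    have h2 : (2 * C * (Z / (N : ℝ) ^ d)) ^ ((1 : ℝ) / d) ≤ (1 + 2 * C) * W := by
      have h3 : 2 * C * (Z / (N : ℝ) ^ d) ≤ (1 + 2 * C) * W := by
        have : 0 ≤ Z / (N : ℝ) ^ d := by positivity
        rw [hW]
        nlinarith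
      have h4 : 1 ≤ (1 + 2 * C) * W := by nlinarith
      calc (2 * C * (Z / (N : ℝ) ^ d)) ^ ((1 : ℝ) / d) ≤ ((1 + 2 * C) * W) ^ ((1 : ℝ) / d) := by
            apply Real.rpow_le_rpow (by positivity) h3 (by positivity)
        _ ≤ ((1 + 2 * C) * W) ^ (1 : ℝ) := by
            apply Real.rpow_le_rpow_of_exponent_le h4
            rw [div_le_one hd0]
            linarith
        _ = _ := Real.rpow_one _
    calc _ ≤ ((1 + 2 * C) * W) * ν := by gcongr
      _ = _ := by ring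
  have ht1 : 1 / (H : ℝ) ≤ (2 * (1 + 2 * C) + 2) * ν * W := by
    have h2 : 1 / (H : ℝ) ≤ 2 / m := by
      rw [div_le_div_iff₀ hH0 hm0]
      linarith
    have h3 : 2 / m = 2 * (1 / m) := by ring
    have h4 : ν ≤ ν * W := by nlinarith
    calc 1 / (H : ℝ) ≤ 2 * (1 / m) := by rw [← h3]; exact h2
      _ ≤ 2 * ((1 + 2 * C) * ν * W + ν * W) := by
          have := hinv.trans (add_le_add h1h (hNν.trans h4))
          linarith
      _ = _ := by ring
  -- second term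
  have hlogN : 1 + Real.log H ≤ 2 * Real.log N := by
    have h1 : Real.log H ≤ Real.log N := Real.log_le_log hH0 (by exact_mod_cast hHN)
    linarith
  have ht2 : (2 * (3 * N) ^ (d + 1) / (Z * c) / N) * ((∑ l ∈ Ico 1 H, (1 : ℝ) / l) / H) ^ d ≤
      (2 * 3 ^ (d + 1) / c) * 2 ^ d * (2 * C + 1) * (2 * Real.log N) ^ d * ν := by
    have hs' : 0 ≤ ∑ l ∈ Ico 1 H, (1 : ℝ) / l := sum_nonneg fun _ _ => by positivity
    have h1 : ((∑ l ∈ Ico 1 H, (1 : ℝ) / l) / H) ^ d ≤ ((2 * Real.log N) / (m / 2)) ^ d := by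
      gcongr
      exact (Pool.Agent.H469R2.NK.harm_le H).trans hlogN
    have h2 : ((2 * Real.log N) / (m / 2)) ^ d = (2 * Real.log N) ^ d * 2 ^ d * (1 / m ^ d) := by
      rw [div_pow, div_pow]
      field_simp
    have h3 : (N : ℝ) ^ d / Z * (1 / m ^ d) ≤ (2 * C + 1) * ν := by
      have h4 : (N : ℝ) ^ d / Z * (1 / m ^ d) ≤ (N : ℝ) ^ d / Z * (1 / h ^ d + 1 / (N : ℝ) ^ d) := by gcongr
      refine h4.trans ?_
      have e1 : (N : ℝ) ^ d / Z * (1 / h ^ d + 1 / (N : ℝ) ^ d) = 2 * C * (1 / N) + 1 / Z := by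
        rw [hhd, hg, pow_succ]
        field_simp
      rw [e1]
      have h5 : 1 / Z ≤ ν := le_trans (one_div_le_one_div_of_le hs0 hZ1) hνs
      have h6 : 2 * C * (1 / (N : ℝ)) ≤ 2 * C * ν := by gcongr
      linarith
    calc _ ≤ (2 * (3 * N) ^ (d + 1) / (Z * c) / N) * ((2 * Real.log N) ^ d * 2 ^ d * (1 / m ^ d)) := by
          rw [← h2]
          gcongr
      _ = (2 * 3 ^ (d + 1) / c) * 2 ^ d * (2 * Real.log N) ^ d * ((N : ℝ) ^ d / Z * (1 / m ^ d)) := by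
          rw [mul_pow, pow_succ (N : ℝ) d]
          field_simp
      _ ≤ (2 * 3 ^ (d + 1) / c) * 2 ^ d * (2 * Real.log N) ^ d * ((2 * C + 1) * ν) := by gcongr
      _ = _ := by ring
  set X : ℝ := ‖SL φ Z u L []‖ / N with hX
  have hX0 : 0 ≤ X := by positivity
  have hfin : X ^ (2 ^ d) ≤ (K0 * 2 ^ d) * ((Real.log N) ^ d * ν * W) := by
    refine hb.trans ?_
    have h5 : (1 : ℝ) ≤ 2 ^ d * (Real.log N) ^ d := by
      have : (1 : ℝ) ≤ 2 ^ d := one_le_pow₀ (by norm_num)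
      nlinarith
    have h6 : ν * W ≤ 2 ^ d * (Real.log N) ^ d * (ν * W) := by
      have : 0 ≤ ν * W := by positivity
      nlinarith
    have h7 : ν ≤ ν * W := by nlinarith
    calc Cq d * (1 / (H : ℝ) + (2 * (3 * N) ^ (d + 1) / (Z * c) / N) * ((∑ l ∈ Ico 1 H, (1 : ℝ) / l) / H) ^ d)
        ≤ Cq d * ((2 * (1 + 2 * C) + 2) * ν * W +
          (2 * 3 ^ (d + 1) / c) * 2 ^ d * (2 * C + 1) * (2 * Real.log N) ^ d * ν) := by gcongr
      _ ≤ Cq d * ((2 * (1 + 2 * C) + 2) * (2 ^ d * (Real.log N) ^ d * (ν * W)) +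
          (2 * 3 ^ (d + 1) / c) * 2 ^ d * (2 * C + 1) * (2 * Real.log N) ^ d * (ν * W)) := by
          rw [mul_assoc (2 * (1 + 2 * C) + 2)]
          gcongr
      _ = _ := by
          rw [hK0, mul_pow 2 (Real.log N) d]
          ring
  set r : ℝ := (1 : ℝ) / 2 ^ (d - 1) with hr
  have hr0 : 0 < r := by positivity
  have hr1 : r ≤ 1 := by
    rw [hr, div_le_one (by positivity)]
    exact one_le_pow₀ (by norm_num)
  have hXr : X ^ 2 = (X ^ (2 ^ d)) ^ r := by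
    rw [← Real.rpow_natCast, ← Real.rpow_natCast, ← Real.rpow_mul hX0]
    congr 1
    have e0 : (2 : ℝ) ^ d = 2 ^ (d - 1) * 2 := by
      rw [← pow_succ]
      congr 1
      omega
    rw [hr]
    push_cast
    rw [e0]
    field_simp
  have hX2 : X ^ 2 ≤ K1 * ((Real.log N) ^ d * (N : ℝ) ^ (-kp d) * W) := by
    rw [hXr]
    refine (Real.rpow_le_rpow (by positivity) hfin hr0.le).trans ?_
    rw [Real.mul_rpow (by positivity) (by positivity), ← hK1]
    refine mul_le_mul_of_nonneg_left ?_ hK10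
    rw [Real.mul_rpow (by positivity) (by positivity), Real.mul_rpow (by positivity) (by positivity)]
    have h1 : ((Real.log N) ^ d) ^ r ≤ (Real.log N) ^ d := by
      calc ((Real.log N) ^ d) ^ r ≤ ((Real.log N) ^ d) ^ (1 : ℝ) := Real.rpow_le_rpow_of_exponent_le hlogd hr1
        _ = _ := Real.rpow_one _
    have h2 : W ^ r ≤ W := by
      calc W ^ r ≤ W ^ (1 : ℝ) := Real.rpow_le_rpow_of_exponent_le hW1 hr1
        _ = _ := Real.rpow_one _
    have h3 : ν ^ r = (N : ℝ) ^ (-kp d) := by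
      rw [hν, ← Real.rpow_mul hNp.le]
      congr 1
      rw [hr]
      unfold kp
      field_simp
    rw [h3]
    gcongr
  have e1 : ‖SL φ Z u L []‖ ^ 2 = X ^ 2 * (N : ℝ) ^ 2 := by
    rw [hX, div_pow]
    field_simp
  rw [e1]
  have e2 : (N : ℝ) ^ (2 - kp d) = (N : ℝ) ^ (-kp d) * (N : ℝ) ^ 2 := by
    rw [sub_eq_neg_add, Real.rpow_add hNp, Real.rpow_two]
  calc X ^ 2 * (N : ℝ) ^ 2 ≤ (K1 * ((Real.log N) ^ d * (N : ℝ) ^ (-kp d) * W)) * (N : ℝ) ^ 2 := by gcongr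
    _ = K1 * (Real.log N) ^ d * (N : ℝ) ^ (2 - kp d) * W := by
        rw [e2]
        ring
    _ ≤ _ := by
        gcongr
        linarith

end Pool.Agent.Q138.PS
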