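import Pool.Agent.Q138.PS.PA

set_option autoImplicit false

/-!
# The difference between the exponential sum and the exponential integral
-/

namespace Pool.Agent.Q138.PS

open Finset MeasureTheory
open Pool.Agent.H469R2.NK (e norm_e)
open Pool.Agent.H376R2.MR (er)
open Pool.Agent.Y957.AD (er_norm er_add)
open Pool.Agent.Q138.GS

theorem er_deriv (τ : ℝ) {f : ℝ → ℝ} {f' x : ℝ} (hf : HasDerivAt f f' x) :
    HasDerivAt (fun y => er τ (f y)) (((τ * f' : ℝ) : ℂ) * Complex.I * er τ (f x)) x := by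
  have h1 : HasDerivAt (fun y : ℝ => (((τ * f y : ℝ) : ℂ)) * Complex.I) (((τ * f' : ℝ) : ℂ) * Complex.I) x :=
    ((hf.const_mul τ).ofReal_comp).mul_const Complex.I
  have h2 := h1.cexp
  unfold er
  convert h2 using 1
  ring

theorem phi_cont {φ : ℕ → ℝ → ℝ} {R : ℕ} {x0 c C : ℝ} (hU : RegU φ R x0 c C) {r : ℕ} (hr : r ≤ R) {a b : ℝ}
    (hx : x0 ≤ a) : ContinuousOn (φ r) (Set.Icc a b) := fun x hxx =>
  (hU r hr x (hx.trans hxx.1)).1.continuousAt.continuousWithinAt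

theorem int_bound {φ : ℕ → ℝ → ℝ} {R : ℕ} {x0 c C : ℝ} (hU : RegU φ R x0 c C) (hR : 2 ≤ R) (hc : 0 < c)
    (hC : 0 < C) {a b : ℝ} (ha0 : 0 < a) (hx : x0 ≤ a) (hab : a ≤ b) {ξ : ℝ} (hξ : ξ ≠ 0) :
    ‖∫ x in a..b, er (2 * Real.pi * ξ) (φ 0 x)‖ ≤ (2 * b / c + C * (b - a) / c ^ 2) / (2 * Real.pi * |ξ|) := by
  have hpi := Real.pi_pos
  have hξ0 : 0 < |ξ| := abs_pos.2 hξ
  set τ : ℝ := 2 * Real.pi * ξ with hτ
  have hτ0 : τ ≠ 0 := by rw [hτ]; positivity
  have hτa : |τ| = 2 * Real.pi * |ξ| := by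
    rw [hτ, abs_mul, abs_of_pos (by positivity)]
  have hp1 : ∀ x ∈ Set.Icc a b, 0 < φ 1 x ∧ c / x ≤ φ 1 x ∧ φ 1 x ≤ C / x := by
    intro x hxx
    have h := hU 0 (by omega) x (hx.trans hxx.1)
    simp only [zero_add, pow_one, pow_zero, one_mul] at h
    have hx0 : 0 < x := lt_of_lt_of_le ha0 hxx.1
    exact ⟨lt_of_lt_of_le (by positivity) h.2.1, h.2.1, h.2.2⟩
  have hu : ∀ x ∈ Set.uIcc a b, HasDerivAt (fun x => ((1 / φ 1 x : ℝ) : ℂ)) (((-φ 2 x / φ 1 x ^ 2 : ℝ)) : ℂ) x := by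
    intro x hxx
    rw [Set.uIcc_of_le hab] at hxx
    have h1 := (hU 1 (by omega) x (hx.trans hxx.1)).1
    have h2 := (hp1 x hxx).1
    have h3 := h1.inv h2.ne'
    have h4 := h3.ofReal_comp
    simp only [one_div]
    exact h4
  have hv : ∀ x ∈ Set.uIcc a b, HasDerivAt (fun x => er τ (φ 0 x))
      (((τ * φ 1 x : ℝ) : ℂ) * Complex.I * er τ (φ 0 x)) x := by
    intro x hxx
    rw [Set.uIcc_of_le hab] at hxx
    exact er_deriv τ (hU 0 (by omega) x (hx.trans hxx.1)).1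
  have c0 : ContinuousOn (φ 0) (Set.uIcc a b) := by rw [Set.uIcc_of_le hab]; exact phi_cont hU (by omega) hx
  have c1 : ContinuousOn (φ 1) (Set.uIcc a b) := by rw [Set.uIcc_of_le hab]; exact phi_cont hU (by omega) hx
  have c2 : ContinuousOn (φ 2) (Set.uIcc a b) := by rw [Set.uIcc_of_le hab]; exact phi_cont hU (by omega) hx
  have hne : ∀ x ∈ Set.uIcc a b, φ 1 x ≠ 0 := fun x hxx => by
    rw [Set.uIcc_of_le hab] at hxx
    exact (hp1 x hxx).1.ne'
  have cu' : ContinuousOn (fun x => (((-φ 2 x / φ 1 x ^ 2 : ℝ)) : ℂ)) (Set.uIcc a b) := by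
    refine Complex.continuous_ofReal.comp_continuousOn ?_
    exact (c2.neg).div (c1.pow 2) fun x hxx => pow_ne_zero 2 (hne x hxx)
  have cer : ContinuousOn (fun x => er τ (φ 0 x)) (Set.uIcc a b) := by
    unfold er
    refine Complex.continuous_exp.comp_continuousOn ?_
    exact (Complex.continuous_ofReal.comp_continuousOn (continuousOn_const.mul c0)).mul continuousOn_const
  have cv' : ContinuousOn (fun x => (((τ * φ 1 x : ℝ) : ℂ) * Complex.I * er τ (φ 0 x))) (Set.uIcc a b) := by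
    refine ContinuousOn.mul (ContinuousOn.mul ?_ continuousOn_const) cer
    exact Complex.continuous_ofReal.comp_continuousOn (continuousOn_const.mul c1)
  have hip := intervalIntegral.integral_mul_deriv_eq_deriv_mul hu hv cu'.intervalIntegrable cv'.intervalIntegrable
  have hl : ∫ x in a..b, ((1 / φ 1 x : ℝ) : ℂ) * (((τ * φ 1 x : ℝ) : ℂ) * Complex.I * er τ (φ 0 x)) =
      ((τ : ℂ) * Complex.I) * ∫ x in a..b, er τ (φ 0 x) := by
    rw [← intervalIntegral.integral_const_mul]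
    refine intervalIntegral.integral_congr fun x hxx => ?_
    have h1 := hne x hxx
    have h2 : ((1 / φ 1 x : ℝ) : ℂ) * ((φ 1 x : ℝ) : ℂ) = 1 := by
      rw [← Complex.ofReal_mul, one_div_mul_cancel h1, Complex.ofReal_one]
    push_cast at h2 ⊢
    linear_combination ((τ : ℂ) * Complex.I * er τ (φ 0 x)) * h2
  rw [hl] at hip
  have hb0 : 0 < b := lt_of_lt_of_le ha0 hab
  have hB : ∀ x ∈ Set.Icc a b, ‖((1 / φ 1 x : ℝ) : ℂ) * er τ (φ 0 x)‖ ≤ b / c := by
    intro x hxx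
    obtain ⟨h1, h2, h3⟩ := hp1 x hxx
    have hx0 : 0 < x := lt_of_lt_of_le ha0 hxx.1
    rw [norm_mul, er_norm, mul_one, Complex.norm_real, Real.norm_eq_abs, abs_of_pos (by positivity)]
    rw [div_le_div_iff₀ h1 hc]
    rw [div_le_iff₀ hx0] at h2
    nlinarith [hxx.2]
  have hI : ‖∫ x in a..b, (((-φ 2 x / φ 1 x ^ 2 : ℝ)) : ℂ) * er τ (φ 0 x)‖ ≤ C / c ^ 2 * |b - a| := by
    refine intervalIntegral.norm_integral_le_of_norm_le_const fun x hxx => ?_
    rw [Set.uIoc_of_le hab] at hxx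
    have hxI : x ∈ Set.Icc a b := ⟨hxx.1.le, hxx.2⟩
    obtain ⟨h1, h2, h3⟩ := hp1 x hxI
    have hx0 : 0 < x := lt_of_lt_of_le ha0 hxI.1
    have h4 := hU 1 (by omega) x (hx.trans hxI.1)
    norm_num at h4
    obtain ⟨-, h5, h6⟩ := h4
    rw [norm_mul, er_norm, mul_one, Complex.norm_real, Real.norm_eq_abs, abs_div, abs_neg,
      abs_of_pos (show 0 < φ 1 x ^ 2 by positivity)]
    have h7 : |φ 2 x| ≤ C / x ^ 2 := by
      rw [abs_le]
      have : 0 ≤ c / x ^ 2 := by positivity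
      have : 0 ≤ C / x ^ 2 := by positivity
      constructor <;> linarith
    rw [div_le_div_iff₀ (by positivity) (by positivity)]
    have h8 : (c / x) ^ 2 ≤ φ 1 x ^ 2 := pow_le_pow_left₀ (by positivity) h2 2
    calc |φ 2 x| * c ^ 2 ≤ C / x ^ 2 * c ^ 2 := by gcongr
      _ = C * (c / x) ^ 2 := by
          field_simp
      _ ≤ C * φ 1 x ^ 2 := by gcongr
  have hnorm : ‖((τ : ℂ) * Complex.I) * ∫ x in a..b, er τ (φ 0 x)‖ ≤ b / c + b / c + C / c ^ 2 * |b - a| := by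
    rw [hip]
    refine (norm_sub_le _ _).trans (add_le_add ((norm_sub_le _ _).trans (add_le_add ?_ ?_)) hI)
    · exact hB b ⟨hab, le_rfl⟩
    · exact hB a ⟨le_rfl, hab⟩
  rw [norm_mul, norm_mul, Complex.norm_I, mul_one, Complex.norm_real, Real.norm_eq_abs, hτa,
    abs_of_nonneg (sub_nonneg.2 hab)] at hnorm
  rw [le_div_iff₀ (by positivity), mul_comm]
  refine hnorm.trans (le_of_eq ?_)
  ring

theorem er_lip (τ : ℝ) (x y : ℝ) : ‖er τ x - er τ y‖ ≤ |τ| * |x - y| := er_sub_le τ x y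

/-- small frequencies -/
theorem small_diff {φ : ℕ → ℝ → ℝ} {R : ℕ} {x0 c C : ℝ} (hU : RegU φ R x0 c C) (hc : 0 < c)
    (hC : 0 < C) {J : ℕ} (hJ1 : 1 ≤ J) (hx : x0 ≤ J) {n1 : ℕ} (hn1 : J ≤ n1) (ξ : ℝ) (L : ℕ) :
    ‖∑ n ∈ Ioc n1 (n1 + L), er (2 * Real.pi * ξ) (φ 0 n) -
      ∫ x in (n1 : ℝ)..((n1 + L : ℕ) : ℝ), er (2 * Real.pi * ξ) (φ 0 x)‖ ≤
        L * (2 * Real.pi * |ξ| * (C / J)) := by
  have hpi := Real.pi_pos
  have hJ0 : (0 : ℝ) < J := by exact_mod_cast hJ1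
  have hτa : |2 * Real.pi * ξ| = 2 * Real.pi * |ξ| := by
    rw [abs_mul, abs_of_pos (by positivity)]
  have hcont : ∀ a b : ℝ, (J : ℝ) ≤ a → a ≤ b → IntervalIntegrable (fun x => er (2 * Real.pi * ξ) (φ 0 x)) volume a b := by
    intro a b ha hab
    refine ContinuousOn.intervalIntegrable ?_
    have c0 : ContinuousOn (φ 0) (Set.uIcc a b) := by
      rw [Set.uIcc_of_le hab]
      exact phi_cont hU (by omega) (hx.trans ha)
    unfold er
    refine Complex.continuous_exp.comp_continuousOn ?_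
    exact (Complex.continuous_ofReal.comp_continuousOn (continuousOn_const.mul c0)).mul continuousOn_const
  induction L with
  | zero => simp
  | succ L ih =>
    have hnJ : (J : ℝ) ≤ ((n1 + L : ℕ) : ℝ) := by exact_mod_cast (by omega : J ≤ n1 + L)
    have e1 : Ioc n1 (n1 + (L + 1)) = insert (n1 + L + 1) (Ioc n1 (n1 + L)) := by
      ext n
      simp only [mem_insert, mem_Ioc]
      omega
    have e2 : ∫ x in (n1 : ℝ)..((n1 + (L + 1) : ℕ) : ℝ), er (2 * Real.pi * ξ) (φ 0 x) =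
        (∫ x in (n1 : ℝ)..((n1 + L : ℕ) : ℝ), er (2 * Real.pi * ξ) (φ 0 x)) +
          ∫ x in ((n1 + L : ℕ) : ℝ)..((n1 + (L + 1) : ℕ) : ℝ), er (2 * Real.pi * ξ) (φ 0 x) := by
      rw [intervalIntegral.integral_add_adjacent_intervals]
      · exact hcont _ _ (by exact_mod_cast hn1) (by push_cast; linarith [(Nat.cast_nonneg L : (0 : ℝ) ≤ L)])
      · exact hcont _ _ hnJ (by push_cast; linarith)
    rw [e1, sum_insert (by simp), e2]
    have hstep : ‖er (2 * Real.pi * ξ) (φ 0 ((n1 + L + 1 : ℕ) : ℝ)) -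
        ∫ x in ((n1 + L : ℕ) : ℝ)..((n1 + (L + 1) : ℕ) : ℝ), er (2 * Real.pi * ξ) (φ 0 x)‖ ≤
        2 * Real.pi * |ξ| * (C / J) := by
      set A : ℝ := ((n1 + L : ℕ) : ℝ) with hA
      have hA1 : ((n1 + (L + 1) : ℕ) : ℝ) = A + 1 := by rw [hA]; push_cast; ring
      have hA2 : ((n1 + L + 1 : ℕ) : ℝ) = A + 1 := by rw [hA]; push_cast; ring
      rw [hA1, hA2]
      have e3 : er (2 * Real.pi * ξ) (φ 0 (A + 1)) = ∫ x in A..(A + 1), er (2 * Real.pi * ξ) (φ 0 (A + 1)) := by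
        rw [intervalIntegral.integral_const]
        simp
      have hsub : er (2 * Real.pi * ξ) (φ 0 (A + 1)) - ∫ x in A..(A + 1), er (2 * Real.pi * ξ) (φ 0 x) =
          ∫ x in A..(A + 1), (er (2 * Real.pi * ξ) (φ 0 (A + 1)) - er (2 * Real.pi * ξ) (φ 0 x)) := by
        rw [intervalIntegral.integral_sub intervalIntegrable_const (hcont _ _ hnJ (by linarith)), ← e3]
      rw [hsub]
      have hb : ‖∫ x in A..(A + 1), (er (2 * Real.pi * ξ) (φ 0 (A + 1)) - er (2 * Real.pi * ξ) (φ 0 x))‖ ≤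
          (2 * Real.pi * |ξ| * (C / J)) * |A + 1 - A| := by
        refine intervalIntegral.norm_integral_le_of_norm_le_const fun x hxx => ?_
        rw [Set.uIoc_of_le (by linarith)] at hxx
        refine (er_lip _ _ _).trans ?_
        rw [hτa]
        refine mul_le_mul_of_nonneg_left ?_ (by positivity)
        have hmv : ‖φ 0 (A + 1) - φ 0 x‖ ≤ (C / J) * ‖(A + 1) - x‖ := by
          refine Convex.norm_image_sub_le_of_norm_hasDerivWithin_le (f := φ 0) (f' := φ 1) (s := Set.Icc A (A + 1)) ?_ ?_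
            (convex_Icc _ _) ⟨hxx.1.le, hxx.2⟩ ⟨by linarith, le_rfl⟩
          · intro y hy
            exact (hU 0 (by omega) y ((hx.trans hnJ).trans hy.1)).1.hasDerivWithinAt
          · intro y hy
            have h := hU 0 (by omega) y ((hx.trans hnJ).trans hy.1)
            simp only [zero_add, pow_one, pow_zero, one_mul] at h
            have hy0 : 0 < y := by linarith [hy.1]
            have h1 : 0 ≤ c / y := by positivity
            rw [Real.norm_eq_abs, abs_of_nonneg (h1.trans h.2.1)]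
            refine h.2.2.trans ?_
            exact div_le_div_of_nonneg_left hC.le hJ0 (by linarith [hy.1])
        rw [Real.norm_eq_abs, Real.norm_eq_abs] at hmv
        refine hmv.trans ?_
        have h2 : |A + 1 - x| ≤ 1 := by
          rw [abs_le]
          constructor <;> linarith [hxx.1, hxx.2]
        calc C / (J : ℝ) * |A + 1 - x| ≤ C / J * 1 := by gcongr
          _ = C / J := mul_one _
      refine hb.trans (le_of_eq ?_)
      rw [show A + 1 - A = 1 by ring, abs_one, mul_one]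
    have e4 : er (2 * Real.pi * ξ) (φ 0 ((n1 + L + 1 : ℕ) : ℝ)) + ∑ n ∈ Ioc n1 (n1 + L), er (2 * Real.pi * ξ) (φ 0 n) -
        ((∫ x in (n1 : ℝ)..((n1 + L : ℕ) : ℝ), er (2 * Real.pi * ξ) (φ 0 x)) +
          ∫ x in ((n1 + L : ℕ) : ℝ)..((n1 + (L + 1) : ℕ) : ℝ), er (2 * Real.pi * ξ) (φ 0 x)) =
        (∑ n ∈ Ioc n1 (n1 + L), er (2 * Real.pi * ξ) (φ 0 n) -
          ∫ x in (n1 : ℝ)..((n1 + L : ℕ) : ℝ), er (2 * Real.pi * ξ) (φ 0 x)) +
        (er (2 * Real.pi * ξ) (φ 0 ((n1 + L + 1 : ℕ) : ℝ)) -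
          ∫ x in ((n1 + L : ℕ) : ℝ)..((n1 + (L + 1) : ℕ) : ℝ), er (2 * Real.pi * ξ) (φ 0 x)) := by ring
    rw [e4]
    refine (norm_add_le _ _).trans ((add_le_add ih hstep).trans (le_of_eq ?_))
    push_cast
    ring

end Pool.Agent.Q138.PS
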