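import Pool.Agent.Q138.PS.PB

set_option autoImplicit false

/-!
# The difference between the exponential sum and the exponential integral: all frequencies
-/

namespace Pool.Agent.Q138.PS

open Finset MeasureTheory Filter
open Pool.Agent.H469R2.NK (e norm_e)
open Pool.Agent.H376R2.MR (er)
open Pool.Agent.Y957.AD (er_norm er_add)
open Pool.Agent.Q138.GS

/-- the difference of the sum and the integral -/
noncomputable def Dl (φ : ℕ → ℝ → ℝ) (n1 n2 : ℕ) (ξ : ℝ) : ℂ :=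
  ∑ n ∈ Ioc n1 n2, er (2 * Real.pi * ξ) (φ 0 n) - ∫ x in (n1 : ℝ)..(n2 : ℝ), er (2 * Real.pi * ξ) (φ 0 x)

theorem sum_abs (φ : ℕ → ℝ → ℝ) (n1 n2 : ℕ) (ξ : ℝ) :
    ‖∑ n ∈ Ioc n1 n2, er (2 * Real.pi * ξ) (φ 0 n)‖ = ‖∑ n ∈ Ioc n1 n2, er (2 * Real.pi * |ξ|) (φ 0 n)‖ :=
  Kf_abs (fun n => φ 0 n) (Ioc n1 n2) ξ

theorem dl_bound (c C : ℝ) (hc : 0 < c) (hC : 0 < C) (d : ℕ) (hd : 2 ≤ d) (k : ℕ) :
    ∃ K : ℝ, 0 ≤ K ∧ ∃ N0 : ℕ, ∀ (φ : ℕ → ℝ → ℝ) (x0 : ℝ), RegU φ (d + 1) x0 c C →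
      ∀ (N J n1 n2 : ℕ), N0 ≤ N → x0 ≤ J → (N : ℝ) ≤ J * (Real.log N) ^ k → J ≤ n1 → n1 ≤ n2 → n2 ≤ N →
      ∀ ξ : ℝ, ‖Dl φ n1 n2 ξ‖ ^ 2 ≤
        K * (Real.log N) ^ (d + (d + 2) * k) * (N : ℝ) ^ (2 - kp d) * (1 + |ξ| / (N : ℝ) ^ d) := by
  obtain ⟨K1, hK1, N1, hexp⟩ := ps_exp c C hc hC d hd
  have hkp := kp_pos hd
  have hkp4 := kp_le hd
  have hpi := Real.pi_pos
  set KA : ℝ := (2 * Real.pi * C) ^ 2 with hKA
  set KB : ℝ := 2 * (2 / c + C / c ^ 2) ^ 2 with hKB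
  have hlarge : ∀ᶠ N : ℕ in atTop, 1 ≤ Real.log N ∧ (1 : ℝ) * (Real.log N) ^ k ≤ (N : ℝ) ^ (1 / 2 : ℝ) ∧
      ((N1 : ℝ) + 1) ^ 2 ≤ N ∧ 1 ≤ N := by
    filter_upwards [lg1, pw 1 k (show (0 : ℝ) < 1 / 2 by norm_num),
      tendsto_natCast_atTop_atTop.eventually_ge_atTop (((N1 : ℝ) + 1) ^ 2), eventually_ge_atTop 1] with N h1 h2 h3 h4
    exact ⟨h1, h2, h3, h4⟩
  obtain ⟨N0, hN0⟩ := eventually_atTop.1 hlarge
  refine ⟨KA + KB + 8 * K1, by positivity, N0, ?_⟩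
  intro φ x0 hU N J n1 n2 hN hx hJN hJn1 hn12 hn2 ξ
  obtain ⟨hl, hls, hN1s, hN1'⟩ := hN0 N hN
  rw [one_mul] at hls
  set ℓ := Real.log N with hℓ
  have hN1r : (1 : ℝ) ≤ N := by exact_mod_cast hN1'
  have hNp : (0 : ℝ) < N := by linarith
  have hsq : (N : ℝ) ^ (1 / 2 : ℝ) * (N : ℝ) ^ (1 / 2 : ℝ) = N := by
    rw [← Real.rpow_add hNp]
    norm_num
  set s : ℝ := (N : ℝ) ^ (1 / 2 : ℝ) with hs
  have hs0 : 0 < s := by positivity
  have hlk : 1 ≤ ℓ ^ k := one_le_pow₀ hl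
  have hsJ : s ≤ J := by
    have h1 : s * s ≤ s * J := by
      calc s * s = N := hsq
        _ ≤ J * ℓ ^ k := hJN
        _ ≤ J * s := by gcongr
        _ = s * J := mul_comm _ _
    exact le_of_mul_le_mul_left h1 hs0
  have hN1J : N1 ≤ J := by
    have h1 : ((N1 : ℝ) + 1) ≤ s := by
      rw [hs, ← Real.sqrt_eq_rpow]
      exact Real.le_sqrt_of_sq_le hN1s
    have h2 : (N1 : ℝ) ≤ J := by linarith
    exact_mod_cast h2
  have hJ0 : (0 : ℝ) < J := by linarith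
  have hJ1 : 1 ≤ J := by
    have : (0 : ℝ) < J := hJ0
    exact_mod_cast this
  have hn2r : (n2 : ℝ) ≤ N := by exact_mod_cast hn2
  have hn12r : (n1 : ℝ) ≤ n2 := by exact_mod_cast hn12
  have hn1r : (J : ℝ) ≤ n1 := by exact_mod_cast hJn1
  have hW : 1 ≤ 1 + |ξ| / (N : ℝ) ^ d := by
    have : 0 ≤ |ξ| / (N : ℝ) ^ d := by positivity
    linarith
  have hNN : (N : ℝ) ≤ (N : ℝ) ^ (2 - kp d) := by
    calc (N : ℝ) = (N : ℝ) ^ (1 : ℝ) := (Real.rpow_one _).symm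
      _ ≤ _ := Real.rpow_le_rpow_of_exponent_le hN1r (by linarith)
  set E : ℕ := d + (d + 2) * k with hE
  have hlE : ℓ ^ (2 * k) ≤ ℓ ^ E := pow_le_pow_right₀ hl (by rw [hE]; nlinarith)
  have hlE0 : 1 ≤ ℓ ^ E := one_le_pow₀ hl
  set R := ℓ ^ E * (N : ℝ) ^ (2 - kp d) * (1 + |ξ| / (N : ℝ) ^ d) with hR
  have hR0 : 0 ≤ R := by positivity
  have hNR : ℓ ^ (2 * k) * N ≤ R := by
    calc ℓ ^ (2 * k) * N ≤ ℓ ^ E * (N : ℝ) ^ (2 - kp d) := by gcongr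
      _ = ℓ ^ E * (N : ℝ) ^ (2 - kp d) * 1 := (mul_one _).symm
      _ ≤ R := by rw [hR]; gcongr
  have hNR' : (N : ℝ) ≤ R := by
    refine le_trans ?_ hNR
    have : 1 ≤ ℓ ^ (2 * k) := one_le_pow₀ hl
    nlinarith
  have hgoal : (KA + KB + 8 * K1) * ℓ ^ E * (N : ℝ) ^ (2 - kp d) * (1 + |ξ| / (N : ℝ) ^ d) =
      KA * R + KB * R + 8 * K1 * R := by
    rw [hR]
    ring
  rw [hgoal]
  have hKAR : 0 ≤ KA * R := by positivity
  have hKBR : 0 ≤ KB * R := by positivity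
  have hK1R : 0 ≤ 8 * K1 * R := by positivity
  rcases le_or_gt |ξ| s with hξ | hξ
  · -- small frequencies
    have h1 := small_diff hU hc hC hJ1 hx hJn1 ξ (n2 - n1)
    rw [show n1 + (n2 - n1) = n2 by omega] at h1
    have h2 : ((n2 - n1 : ℕ) : ℝ) * (2 * Real.pi * |ξ| * (C / J)) ≤ 2 * Real.pi * C * (ℓ ^ k * s) := by
      have h3 : ((n2 - n1 : ℕ) : ℝ) ≤ N := by exact_mod_cast (by omega : n2 - n1 ≤ N)
      calc ((n2 - n1 : ℕ) : ℝ) * (2 * Real.pi * |ξ| * (C / J)) ≤ N * (2 * Real.pi * s * (C / J)) := by gcongr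
        _ = 2 * Real.pi * C * ((N / J) * s) := by ring
        _ ≤ 2 * Real.pi * C * (ℓ ^ k * s) := by
            have : (N : ℝ) / J ≤ ℓ ^ k := by
              rw [div_le_iff₀ hJ0, mul_comm]
              exact hJN
            gcongr
    have h4 : ‖Dl φ n1 n2 ξ‖ ≤ 2 * Real.pi * C * (ℓ ^ k * s) := h1.trans h2
    have h5 : ‖Dl φ n1 n2 ξ‖ ^ 2 ≤ KA * R := by
      calc ‖Dl φ n1 n2 ξ‖ ^ 2 ≤ (2 * Real.pi * C * (ℓ ^ k * s)) ^ 2 := pow_le_pow_left₀ (norm_nonneg _) h4 2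
        _ = KA * (ℓ ^ (2 * k) * (s * s)) := by
            rw [hKA]
            ring
        _ = KA * (ℓ ^ (2 * k) * N) := by rw [hsq]
        _ ≤ _ := by gcongr
    linarith
  · have hξ0 : ξ ≠ 0 := by
      intro h
      rw [h, abs_zero] at hξ
      linarith
    have hξp : 0 < |ξ| := abs_pos.2 hξ0
    have hint : ‖∫ x in (n1 : ℝ)..(n2 : ℝ), er (2 * Real.pi * ξ) (φ 0 x)‖ ≤ (2 / c + C / c ^ 2) * s := by
      refine (int_bound hU (by omega) hc hC (by linarith) (hx.trans hn1r) hn12r hξ0).trans ?_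
      rw [div_le_iff₀ (by positivity)]
      have h1 : 2 * (n2 : ℝ) / c + C * (n2 - n1) / c ^ 2 ≤ (2 / c + C / c ^ 2) * N := by
        have h2 : (n2 : ℝ) - n1 ≤ N := by linarith
        calc 2 * (n2 : ℝ) / c + C * (n2 - n1) / c ^ 2 ≤ 2 * N / c + C * N / c ^ 2 := by gcongr
          _ = _ := by ring
      refine h1.trans ?_
      have h3 : (N : ℝ) ≤ s * (2 * Real.pi * |ξ|) := by
        have h4 : 1 ≤ 2 * Real.pi := by linarith [Real.pi_gt_three]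
        calc (N : ℝ) = s * s := hsq.symm
          _ ≤ s * (1 * |ξ|) := by rw [one_mul]; gcongr
          _ ≤ s * (2 * Real.pi * |ξ|) := by gcongr
      calc (2 / c + C / c ^ 2) * N ≤ (2 / c + C / c ^ 2) * (s * (2 * Real.pi * |ξ|)) := by gcongr
        _ = _ := by ring
    set b2 : ℝ := K1 * ℓ ^ d * (N : ℝ) ^ (2 - kp d) * (ℓ ^ (d * k) * (1 + |ξ| / (N : ℝ) ^ d)) with hb2
    have hb20 : 0 ≤ b2 := by positivity
    have hb : ∀ a L, J ≤ a → L ≤ J → a + L ≤ N →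
        ‖∑ n ∈ Ioc a (a + L), er (2 * Real.pi * |ξ|) (φ 0 n)‖ ≤ Real.sqrt b2 := by
      intro a L ha hL haN
      apply Real.le_sqrt_of_sq_le
      rw [block_eq φ (fun n => φ 0 n) 0 (fun n _ => rfl) a L (Nat.zero_le a)]
      have haJ : (J : ℝ) ≤ a := by exact_mod_cast ha
      have hLJ : (L : ℝ) ≤ J := by exact_mod_cast hL
      have ha0 : (0 : ℝ) < a := by linarith
      have haN' : (a : ℝ) ≤ N := by exact_mod_cast (by omega : a ≤ N)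
      have ha1 : (1 : ℝ) ≤ a := by
        have : (1 : ℝ) ≤ J := by exact_mod_cast hJ1
        linarith
      have h5 := hexp φ x0 hU a L ((a + 1 : ℕ) : ℝ) |ξ| (by omega) (hx.trans haJ) (by push_cast; linarith)
        (by omega) (by push_cast; linarith)
        (by
          refine le_trans ?_ hξ.le
          exact Real.rpow_le_rpow ha0.le haN' (by norm_num))
      refine h5.trans ?_
      have h6 : Real.log a ≤ ℓ := Real.log_le_log ha0 haN'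
      have h60 : 0 ≤ Real.log a := Real.log_nonneg ha1
      have h7 : (a : ℝ) ^ (2 - kp d) ≤ (N : ℝ) ^ (2 - kp d) := Real.rpow_le_rpow ha0.le haN' (by linarith)
      have h8 : 1 + |ξ| / (a : ℝ) ^ d ≤ ℓ ^ (d * k) * (1 + |ξ| / (N : ℝ) ^ d) := by
        have h9 : 1 ≤ ℓ ^ (d * k) := one_le_pow₀ hl
        have h10 : |ξ| / (a : ℝ) ^ d ≤ ℓ ^ (d * k) * (|ξ| / (N : ℝ) ^ d) := by
          have h11 : (N : ℝ) ^ d ≤ (a : ℝ) ^ d * ℓ ^ (d * k) := by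
            calc (N : ℝ) ^ d ≤ (J * ℓ ^ k) ^ d := by gcongr
              _ ≤ (a * ℓ ^ k) ^ d := by gcongr
              _ = _ := by rw [mul_pow, ← pow_mul, mul_comm k d]
          rw [← mul_div_assoc, div_le_div_iff₀ (by positivity) (by positivity)]
          calc |ξ| * (N : ℝ) ^ d ≤ |ξ| * ((a : ℝ) ^ d * ℓ ^ (d * k)) := by gcongr
            _ = _ := by ring
        nlinarith
      rw [hb2]
      gcongr
    have hblk := blocks (fun n => er (2 * Real.pi * |ξ|) (φ 0 n)) J N (Real.sqrt b2) (Real.sqrt_nonneg _) hb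
      (N / J + 1) n1 (n2 - n1) hJn1 (by
        have := Nat.div_add_mod N J
        have h4 := Nat.mod_lt N (show 0 < J by omega)
        have h5 : (N / J + 1) * J = J * (N / J) + J := by ring
        omega) (by omega)
    rw [show n1 + (n2 - n1) = n2 by omega] at hblk
    have hq : ((N / J + 1 : ℕ) : ℝ) ≤ 2 * ℓ ^ k := by
      have h3 : ((N / J : ℕ) : ℝ) ≤ (N : ℝ) / J := Nat.cast_div_le
      have h4 : (N : ℝ) / J ≤ ℓ ^ k := by
        rw [div_le_iff₀ hJ0, mul_comm]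
        exact hJN
      push_cast
      linarith
    have hsum : ‖∑ n ∈ Ioc n1 n2, er (2 * Real.pi * ξ) (φ 0 n)‖ ^ 2 ≤ 4 * K1 * R := by
      rw [sum_abs]
      have h1 : ‖∑ n ∈ Ioc n1 n2, er (2 * Real.pi * |ξ|) (φ 0 n)‖ ≤ (2 * ℓ ^ k) * Real.sqrt b2 :=
        hblk.trans (mul_le_mul_of_nonneg_right hq (Real.sqrt_nonneg _))
      calc _ ≤ ((2 * ℓ ^ k) * Real.sqrt b2) ^ 2 := pow_le_pow_left₀ (norm_nonneg _) h1 2
        _ = 4 * ℓ ^ (2 * k) * b2 := by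
            rw [mul_pow, Real.sq_sqrt hb20]
            ring
        _ = 4 * K1 * R := by
            have : ℓ ^ E = ℓ ^ d * ℓ ^ (d * k) * ℓ ^ (2 * k) := by
              rw [← pow_add, ← pow_add]
              congr 1
              rw [hE]
              ring
            rw [hb2, hR, this]
            ring
    have hint2 : ‖∫ x in (n1 : ℝ)..(n2 : ℝ), er (2 * Real.pi * ξ) (φ 0 x)‖ ^ 2 ≤ (2 / c + C / c ^ 2) ^ 2 * R := by
      calc _ ≤ ((2 / c + C / c ^ 2) * s) ^ 2 := pow_le_pow_left₀ (norm_nonneg _) hint 2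
        _ = (2 / c + C / c ^ 2) ^ 2 * (s * s) := by ring
        _ ≤ _ := by
            rw [hsq]
            gcongr
    have hfin : ‖Dl φ n1 n2 ξ‖ ^ 2 ≤ 2 * ‖∑ n ∈ Ioc n1 n2, er (2 * Real.pi * ξ) (φ 0 n)‖ ^ 2 +
        2 * ‖∫ x in (n1 : ℝ)..(n2 : ℝ), er (2 * Real.pi * ξ) (φ 0 x)‖ ^ 2 := by
      unfold Dl
      have h1 := norm_sub_le (∑ n ∈ Ioc n1 n2, er (2 * Real.pi * ξ) (φ 0 n))
        (∫ x in (n1 : ℝ)..(n2 : ℝ), er (2 * Real.pi * ξ) (φ 0 x))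
      have h2 := pow_le_pow_left₀ (norm_nonneg _) h1 2
      nlinarith [sq_nonneg (‖∑ n ∈ Ioc n1 n2, er (2 * Real.pi * ξ) (φ 0 n)‖ -
        ‖∫ x in (n1 : ℝ)..(n2 : ℝ), er (2 * Real.pi * ξ) (φ 0 x)‖)]
    have e1 : KB * R = 2 * ((2 / c + C / c ^ 2) ^ 2 * R) := by
      rw [hKB]
      ring
    linarith

end Pool.Agent.Q138.PS
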