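import Pool.Agent.Q138.GS.Core2
import Pool.Agent.Q138.PS.PC

set_option autoImplicit false

/-!
# Half a derivative of a window in the mean square
-/

namespace Pool.Agent.Q138.PS

open Finset MeasureTheory Filter FourierTransform
open scoped ENNReal ComplexConjugate
open Pool.Agent.Y957.VK
open Pool.Agent.Y957.AD (memLp_of_bdd er_norm er_add four_shift)
open Pool.Agent.H376R2.MR (er)
open Pool.Agent.Q138.GS

theorem four_sub_shift {B : ℝ → ℂ} (hB : Integrable B) (s ξ : ℝ) :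
    𝓕 (fun x => B (x + s) - B x) ξ = (er (2 * Real.pi * ξ) s - 1) * 𝓕 B ξ := by
  have e : (fun x => B (x + s) - B x) = fun x => ∑ i ∈ (Finset.univ : Finset (Fin 2)),
      (if i = 0 then (fun x => B (x + s)) else (fun x => (-1) * B x)) x := by
    funext x
    simp [Fin.sum_univ_two]
    ring
  rw [e, four_fsum]
  · rw [Fin.sum_univ_two]
    simp only [if_true, one_ne_zero, if_false, Fin.isValue]
    rw [four_shift, four_smulc]
    ring
  · intro i _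
    fin_cases i
    · simpa using hB.comp_add_right s
    · simpa using hB.neg

/-- the weights -/
noncomputable def wj (s ξ : ℝ) : ℝ := ‖er (2 * Real.pi * ξ) s - 1‖ ^ 2

theorem wj_eq (s ξ : ℝ) : wj s ξ = 2 - 2 * Real.cos (2 * Real.pi * ξ * s) := by
  unfold wj er
  rw [Complex.exp_mul_I, ← Complex.ofReal_cos, ← Complex.ofReal_sin]
  have h1 : (((Real.cos (2 * Real.pi * ξ * s) : ℝ) : ℂ) + ((Real.sin (2 * Real.pi * ξ * s) : ℝ) : ℂ) * Complex.I - 1) =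
      ((Real.cos (2 * Real.pi * ξ * s) - 1 : ℝ) : ℂ) + ((Real.sin (2 * Real.pi * ξ * s) : ℝ) : ℂ) * Complex.I := by
    push_cast
    ring
  rw [h1, ← Complex.normSq_eq_norm_sq, Complex.normSq_add_mul_I]
  nlinarith [Real.sin_sq_add_cos_sq (2 * Real.pi * ξ * s)]

theorem wj_ge {s ξ : ℝ} (h1 : 1 / 4 ≤ |ξ| * s) (h2 : |ξ| * s ≤ 1 / 2) : 2 ≤ wj s ξ := by
  rw [wj_eq]
  have hpi := Real.pi_pos
  have h3 : Real.cos (2 * Real.pi * ξ * s) = Real.cos (2 * Real.pi * (|ξ| * s)) := by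
    rcases le_or_gt 0 ξ with h | h
    · rw [abs_of_nonneg h]
      congr 1
      ring
    · rw [abs_of_neg h, ← Real.cos_neg]
      congr 1
      ring
  rw [h3]
  have h4 : Real.cos (2 * Real.pi * (|ξ| * s)) ≤ 0 := by
    apply Real.cos_nonpos_of_pi_div_two_le_of_le
    · nlinarith
    · nlinarith
  linarith

theorem wj_nonneg (s ξ : ℝ) : 0 ≤ wj s ξ := by
  unfold wj
  positivity

theorem abs_le_sum (ξ : ℝ) (m : ℕ) (h : |ξ| ≤ 2 ^ m) :
    |ξ| ≤ 1 + ∑ j ∈ range m, 2 ^ j * wj (1 / 2 ^ (j + 2)) ξ := by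
  induction m with
  | zero => simpa using h
  | succ m ih =>
    rw [sum_range_succ]
    rcases le_or_gt |ξ| (2 ^ m) with h1 | h1
    · have h2 := ih h1
      have h3 := wj_nonneg (1 / 2 ^ (m + 2)) ξ
      have h4 : (0 : ℝ) ≤ 2 ^ m * wj (1 / 2 ^ (m + 2)) ξ := by positivity
      linarith
    · have h2 : 2 ≤ wj (1 / 2 ^ (m + 2)) ξ := by
        apply wj_ge
        · rw [mul_one_div, div_le_div_iff₀ (by norm_num) (by positivity), pow_add]
          norm_num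
          linarith
        · rw [mul_one_div, div_le_div_iff₀ (by positivity) (by norm_num), pow_add]
          rw [pow_succ] at h
          norm_num
          linarith
      have h3 : (0 : ℝ) ≤ ∑ j ∈ range m, 2 ^ j * wj (1 / 2 ^ (j + 2)) ξ := sum_nonneg fun j _ => by
        have := wj_nonneg (1 / 2 ^ (j + 2)) ξ
        positivity
      have h4 : (2 : ℝ) ^ m * 2 ≤ 2 ^ m * wj (1 / 2 ^ (m + 2)) ξ := by gcongr
      rw [pow_succ] at h
      linarith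

theorem wj_int {B : ℝ → ℂ} (hBm : Measurable B) (hB : ∀ y, ‖B y‖ ≤ 1) {L V : ℝ}
    (hBs : ∀ y, y ∉ Set.Icc 0 L → B y = 0)
    (hV : ∀ s, 0 ≤ s → s ≤ 1 → ∫ y, ‖B (y + s) - B y‖ ≤ V * s) {s : ℝ} (hs : 0 ≤ s) (hs1 : s ≤ 1) :
    ∫⁻ ξ, ‖𝓕 B ξ‖ₑ ^ 2 * ENNReal.ofReal (wj s ξ) ≤ ENNReal.ofReal (2 * V * s) := by
  have hBi : Integrable B := B_int hBm hB hBs
  set D : ℝ → ℂ := fun x => B (x + s) - B x with hD
  have hDi : Integrable D := (hBi.comp_add_right s).sub hBi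
  have hDb : ∀ x, ‖D x‖ ≤ 2 := fun x => by
    refine (norm_sub_le _ _).trans ?_
    linarith [hB (x + s), hB x]
  have hDm : MemLp D 2 := by
    have h1 : MemLp (fun x => B (x + s)) 2 := memLp_of_bdd (hBi.comp_add_right s) fun x => hB _
    exact h1.sub (memLp_of_bdd hBi hB)
  have e1 : ∫⁻ ξ, ‖𝓕 B ξ‖ₑ ^ 2 * ENNReal.ofReal (wj s ξ) = ∫⁻ ξ, ‖𝓕 D ξ‖ₑ ^ 2 := by
    refine lintegral_congr fun ξ => ?_
    rw [hD, four_sub_shift hBi, enorm_mul, mul_pow, mul_comm]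
    congr 1
    unfold wj
    rw [ENNReal.ofReal_pow (norm_nonneg _), ofReal_norm]
  rw [e1, Pool.Agent.TH794.QD.plancherel _ hDi hDm]
  have h1 : ∀ x, ‖D x‖ₑ ^ 2 ≤ ENNReal.ofReal (2 * ‖D x‖) := by
    intro x
    rw [← ofReal_norm, ← ENNReal.ofReal_pow (norm_nonneg _)]
    apply ENNReal.ofReal_le_ofReal
    have := hDb x
    have h0 := norm_nonneg (D x)
    nlinarith
  refine (lintegral_mono h1).trans ?_
  rw [← ofReal_integral_eq_lintegral_ofReal (hDi.norm.const_mul 2) (Eventually.of_forall fun x => by positivity)]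
  apply ENNReal.ofReal_le_ofReal
  rw [integral_const_mul]
  have := hV s hs hs1
  linarith

theorem half_norm {B : ℝ → ℂ} (hBm : Measurable B) (hB : ∀ y, ‖B y‖ ≤ 1) {L V X : ℝ} (hL : 0 ≤ L) (hV0 : 0 ≤ V)
    (hX : 0 < X) (hBs : ∀ y, y ∉ Set.Icc 0 L → B y = 0)
    (hV : ∀ s, 0 ≤ s → s ≤ 1 → ∫ y, ‖B (y + s) - B y‖ ≤ V * s) (m : ℕ) :
    ∫⁻ ξ in Set.Icc (-(2 : ℝ) ^ m) (2 ^ m), ‖𝓕 B ξ‖ₑ ^ 2 * ENNReal.ofReal (1 + |ξ| / X) ≤
      ENNReal.ofReal (L + (L + m * V / 2) / X) := by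
  have hBi : Integrable B := B_int hBm hB hBs
  have hFc : Continuous (𝓕 B) := VectorFourier.fourierIntegral_continuous Real.continuous_fourierChar
      (by exact continuous_inner) hBi
  have hFm : Measurable (fun ξ => ‖𝓕 B ξ‖ₑ ^ 2) := hFc.measurable.enorm.pow_const 2
  have hb4 : ∫⁻ ξ, ‖𝓕 B ξ‖ₑ ^ 2 ≤ ENNReal.ofReal L := by
    rw [Pool.Agent.TH794.QD.plancherel _ hBi (memLp_of_bdd hBi hB)]
    exact B_sq hB hBs
  have hwm : ∀ s : ℝ, Measurable fun ξ => ENNReal.ofReal (wj s ξ) := by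
    intro s
    unfold wj er
    fun_prop
  set Y : ℝ≥0∞ := ENNReal.ofReal (1 / X) with hY
  have hpt : ∀ ξ ∈ Set.Icc (-(2 : ℝ) ^ m) (2 ^ m), ‖𝓕 B ξ‖ₑ ^ 2 * ENNReal.ofReal (1 + |ξ| / X) ≤
      ‖𝓕 B ξ‖ₑ ^ 2 + Y * (‖𝓕 B ξ‖ₑ ^ 2 + ∑ j ∈ range m, ENNReal.ofReal (2 ^ j) *
        (‖𝓕 B ξ‖ₑ ^ 2 * ENNReal.ofReal (wj (1 / 2 ^ (j + 2)) ξ))) := by
    intro ξ hξ
    have h1 := abs_le_sum ξ m (abs_le.2 hξ)
    have h2 : 1 + |ξ| / X ≤ 1 + (1 / X) * (1 + ∑ j ∈ range m, 2 ^ j * wj (1 / 2 ^ (j + 2)) ξ) := by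
      have : |ξ| / X = (1 / X) * |ξ| := by ring
      rw [this]
      gcongr
    have h3 : ENNReal.ofReal (1 + |ξ| / X) ≤ 1 + Y * (1 + ∑ j ∈ range m, ENNReal.ofReal (2 ^ j) *
        ENNReal.ofReal (wj (1 / 2 ^ (j + 2)) ξ)) := by
      refine (ENNReal.ofReal_le_ofReal h2).trans (le_of_eq ?_)
      have h5 : ∀ j ∈ range m, 0 ≤ 2 ^ j * wj (1 / 2 ^ (j + 2)) ξ := fun j _ => by
        have := wj_nonneg (1 / 2 ^ (j + 2)) ξ
        positivity
      have h4 : (0 : ℝ) ≤ ∑ j ∈ range m, 2 ^ j * wj (1 / 2 ^ (j + 2)) ξ := sum_nonneg h5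
      rw [ENNReal.ofReal_add zero_le_one (by positivity), ENNReal.ofReal_one, ENNReal.ofReal_mul (by positivity),
        ENNReal.ofReal_add zero_le_one h4, ENNReal.ofReal_one, ENNReal.ofReal_sum_of_nonneg h5]
      congr 3
      refine sum_congr rfl fun j _ => ?_
      rw [ENNReal.ofReal_mul (by positivity)]
    refine (mul_le_mul' le_rfl h3).trans (le_of_eq ?_)
    rw [mul_add, mul_one, mul_add, mul_one, mul_add]
    congr 1
    rw [mul_add]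
    congr 1
    · ring
    · rw [Finset.mul_sum, Finset.mul_sum, Finset.mul_sum]
      refine sum_congr rfl fun j _ => ?_
      ring
  calc _ ≤ ∫⁻ ξ in Set.Icc (-(2 : ℝ) ^ m) (2 ^ m), (‖𝓕 B ξ‖ₑ ^ 2 + Y * (‖𝓕 B ξ‖ₑ ^ 2 +
        ∑ j ∈ range m, ENNReal.ofReal (2 ^ j) *
        (‖𝓕 B ξ‖ₑ ^ 2 * ENNReal.ofReal (wj (1 / 2 ^ (j + 2)) ξ)))) := setLIntegral_mono' measurableSet_Icc hpt
    _ ≤ ∫⁻ ξ, (‖𝓕 B ξ‖ₑ ^ 2 + Y * (‖𝓕 B ξ‖ₑ ^ 2 +
        ∑ j ∈ range m, ENNReal.ofReal (2 ^ j) *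
        (‖𝓕 B ξ‖ₑ ^ 2 * ENNReal.ofReal (wj (1 / 2 ^ (j + 2)) ξ)))) := setLIntegral_le_lintegral _ _
    _ = (∫⁻ ξ, ‖𝓕 B ξ‖ₑ ^ 2) + Y * ((∫⁻ ξ, ‖𝓕 B ξ‖ₑ ^ 2) +
        ∑ j ∈ range m, ENNReal.ofReal (2 ^ j) *
        ∫⁻ ξ, (‖𝓕 B ξ‖ₑ ^ 2 * ENNReal.ofReal (wj (1 / 2 ^ (j + 2)) ξ))) := by
        rw [lintegral_add_left hFm, lintegral_const_mul' _ _ ENNReal.ofReal_ne_top, lintegral_add_left hFm,
          lintegral_finsetSum]
        · congr 3
          refine sum_congr rfl fun j _ => ?_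
          rw [lintegral_const_mul' _ _ ENNReal.ofReal_ne_top]
        · intro j _
          exact (hFm.mul (hwm _)).const_mul _
    _ ≤ ENNReal.ofReal L + Y * (ENNReal.ofReal L + ∑ j ∈ range m, ENNReal.ofReal (V / 2)) := by
        gcongr with j hj
        refine (mul_le_mul' le_rfl (wj_int hBm hB hBs hV (s := 1 / 2 ^ (j + 2)) (by positivity) (by
          rw [div_le_one (by positivity)]
          exact one_le_pow₀ (by norm_num)))).trans ?_
        rw [← ENNReal.ofReal_mul (by positivity)]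
        apply ENNReal.ofReal_le_ofReal
        apply le_of_eq
        rw [pow_add]
        field_simp
    _ = _ := by
        rw [sum_const, card_range, nsmul_eq_mul, hY]
        rw [← ENNReal.ofReal_natCast, ← ENNReal.ofReal_mul (by positivity), ← ENNReal.ofReal_add hL (by positivity),
          ← ENNReal.ofReal_mul (by positivity), ← ENNReal.ofReal_add hL (by positivity)]
        congr 1
        ring

end Pool.Agent.Q138.PS
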