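import Pool.Agent.Q138.PS.PD

set_option autoImplicit false

/-!
# The sum minus the integral in the mean square over the dilation
-/

namespace Pool.Agent.Q138.PS

open Finset MeasureTheory Filter FourierTransform
open scoped ENNReal ComplexConjugate
open Pool.Agent.Y957.VK
open Pool.Agent.Y957.AD (memLp_of_bdd er_norm er_add four_shift)
open Pool.Agent.H376R2.MR (er)
open Pool.Agent.Q138.GS

/-- the integral along the sequence -/
noncomputable def Gi (B : ℝ → ℂ) (ψ : ℝ → ℝ) (a b : ℝ) (u : ℝ) : ℂ := ∫ x in a..b, B (u + ψ x)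

theorem gi_aux {B : ℝ → ℂ} (hBi : Integrable B) (hBm : Measurable B) {ψ : ℝ → ℝ} (hψ : Continuous ψ) {a b : ℝ}
    (hab : a ≤ b) : Integrable (Gi B ψ a b) ∧ ∀ ξ : ℝ, 𝓕 (Gi B ψ a b) ξ =
      (∫ x in a..b, er (2 * Real.pi * ξ) (ψ x)) * 𝓕 B ξ := by
  set μ : Measure ℝ := (volume : Measure ℝ).restrict (Set.Ioc a b) with hμ
  have hfin : IsFiniteMeasure μ := by
    rw [hμ]
    exact ⟨by simp⟩
  have hH : Integrable (fun p : ℝ × ℝ => B (p.2 + ψ p.1)) (μ.prod volume) := by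
    have hm : Measurable fun p : ℝ × ℝ => B (p.2 + ψ p.1) := hBm.comp (by fun_prop)
    rw [integrable_prod_iff hm.aestronglyMeasurable]
    refine ⟨Eventually.of_forall fun x => hBi.comp_add_right (ψ x), ?_⟩
    have : (fun x => ∫ y, ‖B (y + ψ x)‖) = fun _ => ∫ y, ‖B y‖ := by
      funext x
      exact integral_add_right_eq_self (fun y => ‖B y‖) (ψ x)
    rw [this]
    exact integrable_const _
  have hgi : Gi B ψ a b = fun u => ∫ x, B (u + ψ x) ∂μ := by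
    funext u
    unfold Gi
    rw [intervalIntegral.integral_of_le hab]
  refine ⟨?_, fun ξ => ?_⟩
  · rw [hgi]
    exact hH.integral_prod_right
  · rw [hgi, Real.fourier_real_eq_integral_exp_smul]
    have e1 : ∀ u : ℝ, Complex.exp (((-2 * Real.pi * u * ξ : ℝ) : ℂ) * Complex.I) • (∫ x, B (u + ψ x) ∂μ) =
        ∫ x, Complex.exp (((-2 * Real.pi * u * ξ : ℝ) : ℂ) * Complex.I) • B (u + ψ x) ∂μ := by
      intro u
      rw [integral_smul]
    have hH2 : Integrable (Function.uncurry fun (u x : ℝ) =>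
        Complex.exp (((-2 * Real.pi * u * ξ : ℝ) : ℂ) * Complex.I) • B (u + ψ x)) ((volume : Measure ℝ).prod μ) := by
      have h1 : Integrable (fun p : ℝ × ℝ => B (p.1 + ψ p.2)) ((volume : Measure ℝ).prod μ) := hH.swap
      have h2 : Integrable (fun p : ℝ × ℝ => Complex.exp (((-2 * Real.pi * p.1 * ξ : ℝ) : ℂ) * Complex.I) *
          B (p.1 + ψ p.2)) ((volume : Measure ℝ).prod μ) := by
        refine h1.bdd_mul (c := 1) ?_ ?_
        · exact (by fun_prop : Measurable fun p : ℝ × ℝ =>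
            Complex.exp (((-2 * Real.pi * p.1 * ξ : ℝ) : ℂ) * Complex.I)).aestronglyMeasurable
        · exact Eventually.of_forall fun p => (Complex.norm_exp_ofReal_mul_I _).le
      exact h2
    calc ∫ u : ℝ, Complex.exp (((-2 * Real.pi * u * ξ : ℝ) : ℂ) * Complex.I) • (∫ x, B (u + ψ x) ∂μ)
        = ∫ u : ℝ, ∫ x, Complex.exp (((-2 * Real.pi * u * ξ : ℝ) : ℂ) * Complex.I) • B (u + ψ x) ∂μ := by
          congr 1
          funext u
          exact e1 u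
      _ = ∫ x, (∫ u : ℝ, Complex.exp (((-2 * Real.pi * u * ξ : ℝ) : ℂ) * Complex.I) • B (u + ψ x)) ∂μ :=
          integral_integral_swap hH2
      _ = ∫ x, er (2 * Real.pi * ξ) (ψ x) * 𝓕 B ξ ∂μ := by
          congr 1
          funext x
          rw [← four_shift, Real.fourier_real_eq_integral_exp_smul]
      _ = _ := by
          rw [integral_mul_const, intervalIntegral.integral_of_le hab]

theorem gi_props {B : ℝ → ℂ} (hBi : Integrable B) (hBm : Measurable B) (hB : ∀ y, ‖B y‖ ≤ 1) {ψ : ℝ → ℝ} {a b : ℝ}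
    (hab : a ≤ b) (hψ : ContinuousOn ψ (Set.Icc a b)) : Integrable (Gi B ψ a b) ∧ (∀ u, ‖Gi B ψ a b u‖ ≤ b - a) ∧
      ∀ ξ : ℝ, 𝓕 (Gi B ψ a b) ξ = (∫ x in a..b, er (2 * Real.pi * ξ) (ψ x)) * 𝓕 B ξ := by
  set ψ' : ℝ → ℝ := fun x => ψ (max a (min b x)) with hψ'
  have hcont : Continuous ψ' := by
    refine hψ.comp_continuous (by fun_prop) fun x => ⟨le_max_left _ _, max_le hab (min_le_left _ _)⟩
  have heq : ∀ x ∈ Set.Icc a b, ψ' x = ψ x := by
    intro x hx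
    rw [hψ']
    simp only
    rw [min_eq_right hx.2, max_eq_right hx.1]
  have hGi : Gi B ψ a b = Gi B ψ' a b := by
    funext u
    unfold Gi
    refine intervalIntegral.integral_congr fun x hx => ?_
    rw [Set.uIcc_of_le hab] at hx
    rw [heq x hx]
  have hEr : ∀ ξ : ℝ, ∫ x in a..b, er (2 * Real.pi * ξ) (ψ x) = ∫ x in a..b, er (2 * Real.pi * ξ) (ψ' x) := by
    intro ξ
    refine intervalIntegral.integral_congr fun x hx => ?_
    rw [Set.uIcc_of_le hab] at hx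
    rw [heq x hx]
  have h := gi_aux hBi hBm hcont hab
  refine ⟨by rw [hGi]; exact h.1, fun u => ?_, fun ξ => by rw [hGi, hEr]; exact h.2 ξ⟩
  unfold Gi
  refine (intervalIntegral.norm_integral_le_of_norm_le_const (C := 1) fun x _ => hB _).trans ?_
  rw [one_mul, abs_of_nonneg (sub_nonneg.2 hab)]

/-- **the sum minus the integral in the mean square** -/
theorem l2_main {φ : ℕ → ℝ → ℝ} {R : ℕ} {x0 c C : ℝ} (hU : RegU φ R x0 c C) {n1 n2 : ℕ} (hn : n1 ≤ n2)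
    (hx : x0 ≤ n1) {B : ℝ → ℂ} (hBm : Measurable B) (hB : ∀ y, ‖B y‖ ≤ 1) {L V X A : ℝ} (hL : 0 ≤ L) (hV0 : 0 ≤ V)
    (hX : 0 < X) (hA : 0 ≤ A) (hBs : ∀ y, y ∉ Set.Icc 0 L → B y = 0)
    (hV : ∀ s, 0 ≤ s → s ≤ 1 → ∫ y, ‖B (y + s) - B y‖ ≤ V * s) (m : ℕ)
    (hDl : ∀ ξ : ℝ, ‖Dl φ n1 n2 ξ‖ ^ 2 ≤ A * (1 + |ξ| / X)) :
    ∫⁻ u, ‖Gf (fun _ => 1) B (fun n => φ 0 n) (Ioc n1 n2) u - Gi B (φ 0) n1 n2 u‖ₑ ^ 2 ≤
      ENNReal.ofReal (A * (L + (L + m * V / 2) / X) + ((n2 : ℝ) - n1) ^ 2 * V ^ 2 / 2 / 2 ^ m) := by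
  have hnr : (n1 : ℝ) ≤ n2 := by exact_mod_cast hn
  have hBi : Integrable B := B_int hBm hB hBs
  have hgi := gi_props hBi hBm hB hnr (phi_cont hU (Nat.zero_le R) hx)
  obtain ⟨hgi1, hgi2, hgi3⟩ := hgi
  set S := Ioc n1 n2 with hS
  set G1 := Gf (fun _ => 1) B (fun n => φ 0 n) S with hG1
  set G2 := Gi B (φ 0) n1 n2 with hG2
  have hG1i : Integrable G1 := Gf_int _ hBi _ S
  have hG1b : ∀ u, ‖G1 u‖ ≤ ∑ n ∈ S, ‖((fun _ => 1 : ℕ → ℂ) n)‖ := Gf_le _ hB _ S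
  set G : ℝ → ℂ := fun u => G1 u - G2 u with hG
  have hGi : Integrable G := hG1i.sub hgi1
  have hGL : MemLp G 2 := (memLp_of_bdd hG1i hG1b).sub (memLp_of_bdd hgi1 hgi2)
  have hFG : ∀ ξ, 𝓕 G ξ = Dl φ n1 n2 ξ * 𝓕 B ξ := by
    intro ξ
    have e : G = fun x => ∑ i ∈ (Finset.univ : Finset (Fin 2)),
        (if i = 0 then G1 else (fun x => (-1) * G2 x)) x := by
      funext x
      rw [hG]
      simp [Fin.sum_univ_two]
      ring
    rw [e, four_fsum]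
    · rw [Fin.sum_univ_two]
      simp only [if_true, one_ne_zero, if_false, Fin.isValue]
      rw [four_smulc, hG1, four_Gf _ hBi, hgi3 ξ]
      unfold Dl Df
      simp only [one_mul]
      ring
    · intro i _
      fin_cases i
      · simpa using hG1i
      · simpa using hgi1.neg
  have hFc : Continuous (𝓕 B) := VectorFourier.fourierIntegral_continuous Real.continuous_fourierChar
      (by exact continuous_inner) hBi
  have hFm : Measurable (fun ξ => ‖𝓕 B ξ‖ₑ ^ 2) := hFc.measurable.enorm.pow_const 2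
  have h1 : ∫⁻ u, ‖G u‖ₑ ^ 2 = ∫⁻ ξ, ‖Dl φ n1 n2 ξ‖ₑ ^ 2 * ‖𝓕 B ξ‖ₑ ^ 2 := by
    rw [← Pool.Agent.TH794.QD.plancherel _ hGi hGL]
    refine lintegral_congr fun ξ => ?_
    rw [hFG, enorm_mul, mul_pow]
  have hLen : (S.card : ℝ) = n2 - n1 := by
    rw [hS, Nat.card_Ioc, Nat.cast_sub hn]
  have htriv : ∀ ξ, ‖Dl φ n1 n2 ξ‖ ≤ 2 * ((n2 : ℝ) - n1) := by
    intro ξ
    unfold Dl
    refine (norm_sub_le _ _).trans ?_
    have h2 : ‖∑ n ∈ Ioc n1 n2, er (2 * Real.pi * ξ) (φ 0 n)‖ ≤ (n2 : ℝ) - n1 := by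
      refine (norm_sum_le _ _).trans ?_
      simp only [er_norm, sum_const, nsmul_eq_mul, mul_one]
      exact hLen.le
    have h3 : ‖∫ x in (n1 : ℝ)..(n2 : ℝ), er (2 * Real.pi * ξ) (φ 0 x)‖ ≤ (n2 : ℝ) - n1 := by
      refine (intervalIntegral.norm_integral_le_of_norm_le_const (C := 1) fun x _ => (er_norm _ _).le).trans ?_
      rw [one_mul, abs_of_nonneg (sub_nonneg.2 hnr)]
    linarith
  have hnr0 : 0 ≤ (n2 : ℝ) - n1 := sub_nonneg.2 hnr
  set T : ℝ := 2 ^ m with hT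
  have hT1 : 1 ≤ T := one_le_pow₀ (by norm_num)
  set KT : ℝ := ((n2 : ℝ) - n1) ^ 2 * V ^ 2 / 2 with hKT
  have hKT0 : 0 ≤ KT := by positivity
  have hptw : ∀ ξ : ℝ, ‖Dl φ n1 n2 ξ‖ₑ ^ 2 * ‖𝓕 B ξ‖ₑ ^ 2 ≤
      (Set.Icc (-T) T).indicator (fun ξ => ENNReal.ofReal A * (‖𝓕 B ξ‖ₑ ^ 2 * ENNReal.ofReal (1 + |ξ| / X))) ξ +
      (Set.Iic T)ᶜ.indicator (fun x => ENNReal.ofReal (KT / 2 * (x ^ 2)⁻¹)) |ξ| := by
    intro ξ
    by_cases hξ : |ξ| ≤ T
    · have hξ' : ξ ∈ Set.Icc (-T) T := abs_le.1 hξ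
      rw [Set.indicator_of_mem hξ']
      refine le_add_right ?_
      have h2 : ‖Dl φ n1 n2 ξ‖ₑ ^ 2 ≤ ENNReal.ofReal A * ENNReal.ofReal (1 + |ξ| / X) := by
        rw [← ENNReal.ofReal_mul hA, ← ofReal_norm, ← ENNReal.ofReal_pow (norm_nonneg _)]
        exact ENNReal.ofReal_le_ofReal (hDl ξ)
      calc _ ≤ (ENNReal.ofReal A * ENNReal.ofReal (1 + |ξ| / X)) * ‖𝓕 B ξ‖ₑ ^ 2 := mul_le_mul' h2 le_rfl
        _ = _ := by ring
    · have hξ1 : T < |ξ| := not_le.1 hξ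
      have hξ0 : 0 < |ξ| := by linarith
      have e3 : ‖𝓕 B ξ‖ₑ ^ 2 ≤ ENNReal.ofReal ((V / (4 * |ξ|)) ^ 2) :=
        enorm_sq_le (four_decay hBi hV (by linarith))
      have e4 : ‖Dl φ n1 n2 ξ‖ₑ ^ 2 ≤ ENNReal.ofReal ((2 * ((n2 : ℝ) - n1)) ^ 2) := enorm_sq_le (htriv ξ)
      refine le_add_left ?_
      rw [Set.indicator_of_mem (by simpa using hξ)]
      calc _ ≤ ENNReal.ofReal ((2 * ((n2 : ℝ) - n1)) ^ 2) * ENNReal.ofReal ((V / (4 * |ξ|)) ^ 2) :=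
            mul_le_mul' e4 e3
        _ = ENNReal.ofReal ((2 * ((n2 : ℝ) - n1)) ^ 2 * (V / (4 * |ξ|)) ^ 2) := by
            rw [ENNReal.ofReal_mul (by positivity)]
        _ = _ := by
            congr 1
            rw [hKT]
            field_simp
            ring
  rw [h1]
  have hwm : Measurable fun ξ : ℝ => ENNReal.ofReal (1 + |ξ| / X) := by fun_prop
  calc _ ≤ ∫⁻ ξ : ℝ, ((Set.Icc (-T) T).indicator
        (fun ξ => ENNReal.ofReal A * (‖𝓕 B ξ‖ₑ ^ 2 * ENNReal.ofReal (1 + |ξ| / X))) ξ +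
      (Set.Iic T)ᶜ.indicator (fun x => ENNReal.ofReal (KT / 2 * (x ^ 2)⁻¹)) |ξ|) := lintegral_mono hptw
    _ = (∫⁻ ξ in Set.Icc (-T) T, ENNReal.ofReal A * (‖𝓕 B ξ‖ₑ ^ 2 * ENNReal.ofReal (1 + |ξ| / X))) +
      ∫⁻ ξ : ℝ, (Set.Iic T)ᶜ.indicator (fun x => ENNReal.ofReal (KT / 2 * (x ^ 2)⁻¹)) |ξ| := by
        have hmm : Measurable fun ξ => ENNReal.ofReal A * (‖𝓕 B ξ‖ₑ ^ 2 * ENNReal.ofReal (1 + |ξ| / X)) :=
          (hFm.mul hwm).const_mul _
        rw [lintegral_add_left (hmm.indicator measurableSet_Icc), lintegral_indicator measurableSet_Icc]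
    _ ≤ ENNReal.ofReal A * ENNReal.ofReal (L + (L + m * V / 2) / X) + ENNReal.ofReal (KT / T) := by
        refine add_le_add ?_ (tail_int hT1 hKT0)
        rw [lintegral_const_mul' _ _ ENNReal.ofReal_ne_top]
        exact mul_le_mul' le_rfl (half_norm hBm hB hL hV0 hX hBs hV m)
    _ = _ := by
        rw [← ENNReal.ofReal_mul hA, ← ENNReal.ofReal_add (by positivity) (by positivity)]

end Pool.Agent.Q138.PS
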