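import Pool.Agent.Q138.PS.PE
import Pool.Agent.Q138.GS.Geo2
import Pool.Agent.Q138.GS.Win

set_option autoImplicit false

/-!
# Sampling of a bounded function along a regular dilated sequence: the mean square with a power saving
-/

namespace Pool.Agent.Q138.PS

open Finset MeasureTheory Filter FourierTransform
open scoped ENNReal ComplexConjugate
open Pool.Agent.Q138.GS

/-- monotonicity from regularity -/
theorem phi_mono {φ : ℕ → ℝ → ℝ} {R : ℕ} {x0 c C : ℝ} (hU : RegU φ R x0 c C) (hc : 0 < c) {x y : ℝ}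
    (hx0 : 0 < x0) (hx : x0 ≤ x) (hxy : x ≤ y) : φ 0 x ≤ φ 0 y := by
  have hm : MonotoneOn (φ 0) (Set.Ici x0) := by
    refine monotoneOn_of_deriv_nonneg (convex_Ici x0) ?_ ?_ ?_
    · intro z hz
      exact (hU 0 (Nat.zero_le R) z hz).1.continuousAt.continuousWithinAt
    · intro z hz
      have hz' : x0 ≤ z := (interior_subset hz : z ∈ Set.Ici x0)
      exact (hU 0 (Nat.zero_le R) z hz').1.differentiableAt.differentiableWithinAt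
    · intro z hz
      have hz' : x0 ≤ z := (interior_subset hz : z ∈ Set.Ici x0)
      have h1 := hU 0 (Nat.zero_le R) z hz'
      rw [h1.1.deriv]
      have h2 := h1.2.1
      have hz0 : 0 < z := hx0.trans_le hz'
      have h3 : 0 ≤ c / z ^ (0 + 1) := by positivity
      simp only [pow_zero, one_mul] at h2
      linarith
  exact hm (Set.mem_Ici.2 hx) (Set.mem_Ici.2 (hx.trans hxy)) hxy

/-- **sampling in the mean square** -/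
theorem win_l2 (c C : ℝ) (hc : 0 < c) (hC : 0 < C) (d : ℕ) (hd : 2 ≤ d) (k : ℕ) (b θ κ ε : ℝ)
    (hκ1 : κ ≤ kp d) (hκ2 : κ ≤ kp d + d - θ) (hε : 0 < ε) (hθ : 0 ≤ θ) :
    ∃ (K : ℝ) (B : ℕ), 0 ≤ K ∧ ∀ᶠ N : ℕ in atTop, ∀ (φ : ℕ → ℝ → ℝ) (x0 : ℝ) (f : ℕ → ℂ), (∀ m, ‖f m‖ ≤ 1) →
      RegU φ (d + 1) x0 c C → 0 < x0 → x0 ≤ ⌊(N : ℝ) / (Real.log N) ^ k⌋₊ → Real.exp (φ 0 N) ≤ (N : ℝ) ^ θ →
      (N : ℝ) ^ ε ≤ Real.exp (φ 0 ⌊(N : ℝ) / (Real.log N) ^ k⌋₊) →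
      AEMeasurable (fun u : ℝ => ∑ n ∈ Ioc ⌊(N : ℝ) / (Real.log N) ^ k⌋₊ N, f ⌊Real.exp (b + u) * Real.exp (φ 0 n)⌋₊ -
        ∫ x in (⌊(N : ℝ) / (Real.log N) ^ k⌋₊ : ℝ)..(N : ℝ), f ⌊Real.exp (b + u) * Real.exp (φ 0 x)⌋₊)
        (volume.restrict (Set.Icc (0 : ℝ) 1)) ∧
      ∫⁻ u in Set.Icc (0 : ℝ) 1, ‖∑ n ∈ Ioc ⌊(N : ℝ) / (Real.log N) ^ k⌋₊ N, f ⌊Real.exp (b + u) * Real.exp (φ 0 n)⌋₊ -
        ∫ x in (⌊(N : ℝ) / (Real.log N) ^ k⌋₊ : ℝ)..(N : ℝ), f ⌊Real.exp (b + u) * Real.exp (φ 0 x)⌋₊‖ₑ ^ 2 ≤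
      ENNReal.ofReal (K * (Real.log N) ^ B * (N : ℝ) ^ (2 - κ)) := by
  obtain ⟨K1, hK1, N1, hdl⟩ := dl_bound c C hc hC d hd (k + 1)
  have hkp := kp_pos hd
  have hkp4 := kp_le hd
  set Bd : ℕ := d + (d + 2) * (k + 1) with hBd
  set t : ℕ := ⌈2 * θ⌉₊ + 1 with ht
  have htr : 2 * θ + 1 ≤ (t : ℝ) := by
    rw [ht]
    push_cast
    linarith [Nat.le_ceil (2 * θ)]
  set K2 : ℝ := K1 * (2 * (θ + 1) + 3 * t * Real.exp (b + 1)) + 2 * Real.exp (b + 1) ^ 2 with hK2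
  have hb1 := Real.exp_pos (b + 1)
  refine ⟨K2, Bd + 1, by positivity, ?_⟩
  filter_upwards [cut_size k, eventually_ge_atTop N1, eventually_ge_atTop 1,
    (Real.tendsto_log_atTop.comp tendsto_natCast_atTop_atTop).eventually_ge_atTop 2,
    pw (Real.exp (-b) + 1) 0 hε, pw (Real.exp 1 + Real.exp (-b)) 0 one_pos] with N hcut hN1 hNpos hl2 hpe hp1
  intro φ x0 f hf hU hx0 hxJ hθN hεJ
  obtain ⟨hl, hJ1, hJ2, hJ3, hJ4⟩ := hcut
  set ℓ := Real.log N with hℓ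
  simp only [Function.comp] at hl2
  rw [← hℓ] at hl2
  set J := ⌊(N : ℝ) / ℓ ^ k⌋₊ with hJ
  rw [pow_zero, mul_one] at hpe hp1
  rw [Real.rpow_one] at hp1
  have hN0 : (0 : ℝ) < N := by exact_mod_cast hNpos
  have hN1r : (1 : ℝ) ≤ N := by exact_mod_cast hNpos
  have hJ0 : (0 : ℝ) < J := by exact_mod_cast hJ1
  have hJNr : (J : ℝ) ≤ N := by exact_mod_cast hJ4
  have hb := Real.exp_pos b
  have hb' := Real.exp_pos (-b)
  have hbb : Real.exp b * Real.exp (-b) = 1 := by rw [← Real.exp_add]; simp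
  set M1 := ⌊Real.exp b * Real.exp (φ 0 J)⌋₊ with hM1
  set M2 := ⌊Real.exp (b + 1) * Real.exp (φ 0 N)⌋₊ with hM2
  have hPJ : Real.exp (-b) + 1 ≤ Real.exp (φ 0 J) := hpe.trans hεJ
  have hM1r : Real.exp b ≤ M1 ∧ 1 ≤ M1 := by
    have h1 : 1 + Real.exp b ≤ Real.exp b * Real.exp (φ 0 J) := by nlinarith
    have h2 : Real.exp b * Real.exp (φ 0 J) < (M1 : ℝ) + 1 := Nat.lt_floor_add_one _
    refine ⟨by linarith, ?_⟩
    exact Nat.le_floor (by push_cast; linarith)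
  obtain ⟨hM1e, hM11⟩ := hM1r
  have hM1pos : (0 : ℝ) < M1 := by exact_mod_cast hM11
  have hM2le : (M2 : ℝ) ≤ Real.exp (b + 1) * (N : ℝ) ^ θ :=
    (Nat.floor_le (by positivity)).trans (by gcongr)
  -- the window
  set Bw : ℝ → ℂ := Bt f b 0 M1 M2 with hBw
  have hwin : ∀ u ∈ Set.Icc (0 : ℝ) 1, ∀ x : ℝ, (J : ℝ) ≤ x → x ≤ N →
      Bw (u + φ 0 x) = f ⌊Real.exp (b + u) * Real.exp (φ 0 x)⌋₊ := by
    intro u hu x hx1 hx2
    rw [hBw]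
    unfold Bt
    have e1 : Real.exp (b + (u + φ 0 x)) + 0 = Real.exp (b + u) * Real.exp (φ 0 x) := by
      rw [add_zero, ← Real.exp_add, add_assoc]
    rw [e1, if_pos]
    have hm1 := phi_mono hU hc hx0 hxJ hx1
    have hm2 := phi_mono hU hc hx0 (hxJ.trans hx1) hx2
    rw [mem_Icc]
    constructor
    · apply Nat.floor_le_floor
      have : Real.exp b ≤ Real.exp (b + u) := Real.exp_le_exp.2 (by linarith [hu.1])
      have := Real.exp_le_exp.2 hm1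
      gcongr
    · apply Nat.floor_le_floor
      have : Real.exp (b + u) ≤ Real.exp (b + 1) := Real.exp_le_exp.2 (by linarith [hu.2])
      have := Real.exp_le_exp.2 hm2
      gcongr
  set L : ℝ := (θ + 1) * ℓ with hL
  have hL0 : 0 ≤ L := by positivity
  have hjp0 : 0 ≤ jp b 0 M1 := by
    unfold jp
    rw [sub_zero]
    have := Real.log_le_log hb hM1e
    rw [Real.log_exp] at this
    linarith
  have hjpL : jp b 0 (M2 + 1) ≤ L := by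
    unfold jp
    rw [sub_zero]
    have h1 : (((M2 : ℕ) : ℝ) + 1) ≤ Real.exp b * (N : ℝ) ^ (θ + 1) := by
      have h2 : Real.exp (b + 1) = Real.exp b * Real.exp 1 := Real.exp_add b 1
      have h3 : (N : ℝ) ^ (θ + 1) = (N : ℝ) ^ θ * N := by rw [Real.rpow_add hN0, Real.rpow_one]
      have h4 : 1 ≤ (N : ℝ) ^ θ := Real.one_le_rpow hN1r hθ
      calc ((M2 : ℕ) : ℝ) + 1 ≤ Real.exp (b + 1) * (N : ℝ) ^ θ + 1 * (N : ℝ) ^ θ := by linarith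
        _ = Real.exp b * (N : ℝ) ^ θ * (Real.exp 1 + Real.exp (-b)) := by
            rw [h2]
            linear_combination (-(N : ℝ) ^ θ) * hbb
        _ ≤ Real.exp b * (N : ℝ) ^ θ * N := by gcongr
        _ = _ := by rw [h3]; ring
    have h5 := Real.log_le_log (by positivity) h1
    rw [Real.log_mul hb.ne' (by positivity), Real.log_exp, Real.log_rpow hN0] at h5
    push_cast
    rw [hL]
    linarith
  have hβ : (0 : ℝ) < M1 := hM1pos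
  have hBs : ∀ y, y ∉ Set.Icc 0 L → Bw y = 0 := fun y hy => Bt_supp f hM11 hβ hjp0 hjpL y hy
  have hmod : ∀ s, 0 ≤ s → s ≤ 1 → ∫ y, ‖Bw (y + s) - Bw y‖ ≤ (2 * M2) * s := fun s hs _ => Bt_mod f hf hM11 hβ s hs
  set A : ℝ := K1 * ℓ ^ Bd * (N : ℝ) ^ (2 - kp d) with hA
  have hA0 : 0 ≤ A := by positivity
  have hNJ : (N : ℝ) ≤ J * ℓ ^ (k + 1) := by
    calc (N : ℝ) ≤ 2 * ℓ ^ k * J := hJ2
      _ ≤ ℓ * ℓ ^ k * J := by gcongr
      _ = J * ℓ ^ (k + 1) := by rw [pow_succ]; ring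
  have hdl' := hdl φ x0 hU N J J N hN1 hxJ hNJ le_rfl hJ4 le_rfl
  set m : ℕ := ⌈2 * t * ℓ⌉₊ with hm
  have hX : (0 : ℝ) < (N : ℝ) ^ d := by positivity
  have hmain := l2_main hU hJ4 hxJ (Bt_meas f b 0 M1 M2) (Bt_le f hf b 0 M1 M2) hL0 (by positivity) hX hA0 hBs hmod m hdl'
  rw [← hBw] at hmain
  have hpt : ∀ u ∈ Set.Icc (0 : ℝ) 1, ∑ n ∈ Ioc J N, f ⌊Real.exp (b + u) * Real.exp (φ 0 n)⌋₊ -
        ∫ x in (J : ℝ)..(N : ℝ), f ⌊Real.exp (b + u) * Real.exp (φ 0 x)⌋₊ =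
      Gf (fun _ => 1) Bw (fun n => φ 0 n) (Ioc J N) u - Gi Bw (φ 0) J N u := by
    intro u hu
    have e1 : Gf (fun _ => 1) Bw (fun n => φ 0 n) (Ioc J N) u =
        ∑ n ∈ Ioc J N, f ⌊Real.exp (b + u) * Real.exp (φ 0 n)⌋₊ := by
      unfold Gf
      refine sum_congr rfl fun n hn => ?_
      rw [mem_Ioc] at hn
      rw [one_mul, hwin u hu n (by exact_mod_cast hn.1.le) (by exact_mod_cast hn.2)]
    have e2 : Gi Bw (φ 0) J N u = ∫ x in (J : ℝ)..(N : ℝ), f ⌊Real.exp (b + u) * Real.exp (φ 0 x)⌋₊ := by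
      unfold Gi
      refine intervalIntegral.integral_congr fun x hx => ?_
      rw [Set.uIcc_of_le hJNr] at hx
      exact hwin u hu x hx.1 hx.2
    rw [e1, e2]
  have hBi : Integrable Bw := Pool.Agent.Y957.VK.B_int (Bt_meas f b 0 M1 M2) (Bt_le f hf b 0 M1 M2) hBs
  have hgi1 := (gi_props hBi (Bt_meas f b 0 M1 M2) (Bt_le f hf b 0 M1 M2) hJNr
    (phi_cont hU (Nat.zero_le _) hxJ)).1
  have hgf1 : Integrable (Gf (fun _ => 1) Bw (fun n => φ 0 n) (Ioc J N)) := Gf_int _ hBi _ _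
  refine ⟨?_, ?_⟩
  · have h1 : AEMeasurable (fun u => Gf (fun _ => 1) Bw (fun n => φ 0 n) (Ioc J N) u - Gi Bw (φ 0) J N u)
        (volume.restrict (Set.Icc (0 : ℝ) 1)) :=
      ((hgf1.sub hgi1).aestronglyMeasurable.aemeasurable).restrict
    refine h1.congr ?_
    exact (ae_restrict_iff' measurableSet_Icc).2 (Eventually.of_forall fun u hu => (hpt u hu).symm)
  have hcongr : ∫⁻ u in Set.Icc (0 : ℝ) 1, ‖∑ n ∈ Ioc J N, f ⌊Real.exp (b + u) * Real.exp (φ 0 n)⌋₊ -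
        ∫ x in (J : ℝ)..(N : ℝ), f ⌊Real.exp (b + u) * Real.exp (φ 0 x)⌋₊‖ₑ ^ 2 =
      ∫⁻ u in Set.Icc (0 : ℝ) 1, ‖Gf (fun _ => 1) Bw (fun n => φ 0 n) (Ioc J N) u - Gi Bw (φ 0) J N u‖ₑ ^ 2 := by
    refine setLIntegral_congr_fun measurableSet_Icc fun u hu => ?_
    rw [hpt u hu]
  rw [hcongr]
  refine (setLIntegral_le_lintegral _ _).trans (hmain.trans (ENNReal.ofReal_le_ofReal ?_))
  -- arithmetic
  have hm3 : (m : ℝ) ≤ 3 * t * ℓ := by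
    have h1 : (m : ℝ) < 2 * t * ℓ + 1 := Nat.ceil_lt_add_one (by positivity)
    have h2 : 1 ≤ (t : ℝ) * ℓ := by
      have : (1 : ℝ) ≤ t := by linarith
      nlinarith
    linarith
  have h2m : (N : ℝ) ^ (t : ℝ) ≤ 2 ^ m := by
    have h1 : 2 * t * ℓ ≤ (m : ℝ) := Nat.le_ceil _
    have hlog2 : (1 : ℝ) / 2 ≤ Real.log 2 := by linarith [Real.log_two_gt_d9]
    have e : (2 : ℝ) ^ m = Real.exp (m * Real.log 2) := by
      rw [mul_comm, Real.exp_mul, Real.exp_log (by norm_num), Real.rpow_natCast]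
    rw [e, Real.rpow_def_of_pos hN0]
    apply Real.exp_le_exp.2
    have h3 : (m : ℝ) * (1 / 2) ≤ m * Real.log 2 := by gcongr
    rw [← hℓ]
    linarith
  have hLX : L / (N : ℝ) ^ d ≤ L := div_le_self hL0 (one_le_pow₀ hN1r)
  have hmV : (m * (2 * M2) / 2 : ℝ) / (N : ℝ) ^ d ≤ 3 * t * ℓ * Real.exp (b + 1) * (N : ℝ) ^ (θ - d) := by
    rw [Real.rpow_sub hN0, Real.rpow_natCast]
    calc (m * (2 * M2) / 2 : ℝ) / (N : ℝ) ^ d = m * M2 / (N : ℝ) ^ d := by ring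
      _ ≤ (3 * t * ℓ) * (Real.exp (b + 1) * (N : ℝ) ^ θ) / (N : ℝ) ^ d := by gcongr
      _ = _ := by ring
  have hp2 : (N : ℝ) ^ (2 - kp d) ≤ (N : ℝ) ^ (2 - κ) := Real.rpow_le_rpow_of_exponent_le hN1r (by linarith)
  have hp3 : (N : ℝ) ^ (2 - kp d) * (N : ℝ) ^ (θ - d) ≤ (N : ℝ) ^ (2 - κ) := by
    rw [← Real.rpow_add hN0]
    exact Real.rpow_le_rpow_of_exponent_le hN1r (by linarith)
  have hlB : (1 : ℝ) ≤ ℓ ^ (Bd + 1) := one_le_pow₀ hl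
  have hp4 : ((N : ℝ) - J) ^ 2 * (2 * M2) ^ 2 / 2 / 2 ^ m ≤ 2 * Real.exp (b + 1) ^ 2 * (N : ℝ) ^ (2 - κ) := by
    have h1 : ((N : ℝ) - J) ^ 2 ≤ (N : ℝ) ^ 2 := by
      apply pow_le_pow_left₀ (by linarith)
      linarith
    have h2 : ((2 * M2 : ℝ)) ^ 2 ≤ (2 * (Real.exp (b + 1) * (N : ℝ) ^ θ)) ^ 2 := by gcongr
    have h3 : (N : ℝ) ^ 2 * ((N : ℝ) ^ θ) ^ 2 ≤ (N : ℝ) ^ (2 - κ) * (N : ℝ) ^ (t : ℝ) := by
      rw [← Real.rpow_natCast, ← Real.rpow_natCast ((N : ℝ) ^ θ), ← Real.rpow_mul hN0.le, ← Real.rpow_add hN0,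
        ← Real.rpow_add hN0]
      apply Real.rpow_le_rpow_of_exponent_le hN1r
      push_cast
      linarith
    calc ((N : ℝ) - J) ^ 2 * (2 * M2) ^ 2 / 2 / 2 ^ m
        ≤ (N : ℝ) ^ 2 * (2 * (Real.exp (b + 1) * (N : ℝ) ^ θ)) ^ 2 / 2 / (N : ℝ) ^ (t : ℝ) := by gcongr
      _ = 2 * Real.exp (b + 1) ^ 2 * ((N : ℝ) ^ 2 * ((N : ℝ) ^ θ) ^ 2) / (N : ℝ) ^ (t : ℝ) := by ring
      _ ≤ 2 * Real.exp (b + 1) ^ 2 * ((N : ℝ) ^ (2 - κ) * (N : ℝ) ^ (t : ℝ)) / (N : ℝ) ^ (t : ℝ) := by gcongr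
      _ = _ := by field_simp
  have hfin : A * (L + (L + m * (2 * M2) / 2) / (N : ℝ) ^ d) ≤
      K1 * (2 * (θ + 1) + 3 * t * Real.exp (b + 1)) * ℓ ^ (Bd + 1) * (N : ℝ) ^ (2 - κ) := by
    have h1 : L + (L + m * (2 * M2) / 2) / (N : ℝ) ^ d ≤
        2 * (θ + 1) * ℓ + 3 * t * ℓ * Real.exp (b + 1) * (N : ℝ) ^ (θ - d) := by
      rw [add_div]
      linarith
    calc _ ≤ A * (2 * (θ + 1) * ℓ + 3 * t * ℓ * Real.exp (b + 1) * (N : ℝ) ^ (θ - d)) := by gcongr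
      _ = K1 * ℓ ^ Bd * ℓ * (2 * (θ + 1) * (N : ℝ) ^ (2 - kp d) +
          3 * t * Real.exp (b + 1) * ((N : ℝ) ^ (2 - kp d) * (N : ℝ) ^ (θ - d))) := by
          rw [hA]
          ring
      _ ≤ K1 * ℓ ^ Bd * ℓ * (2 * (θ + 1) * (N : ℝ) ^ (2 - κ) + 3 * t * Real.exp (b + 1) * (N : ℝ) ^ (2 - κ)) := by
          gcongr
      _ = _ := by rw [pow_succ]; ring
  calc _ ≤ K1 * (2 * (θ + 1) + 3 * t * Real.exp (b + 1)) * ℓ ^ (Bd + 1) * (N : ℝ) ^ (2 - κ) +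
        2 * Real.exp (b + 1) ^ 2 * (N : ℝ) ^ (2 - κ) := add_le_add hfin hp4
    _ ≤ K1 * (2 * (θ + 1) + 3 * t * Real.exp (b + 1)) * ℓ ^ (Bd + 1) * (N : ℝ) ^ (2 - κ) +
        2 * Real.exp (b + 1) ^ 2 * (N : ℝ) ^ (2 - κ) * ℓ ^ (Bd + 1) := by
        exact add_le_add le_rfl (le_mul_of_one_le_right (by positivity) hlB)
    _ = _ := by rw [hK2]; ring

end Pool.Agent.Q138.PS
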