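import Pool.Agent.Q138.PS.PF

set_option autoImplicit false

/-!
# The main term: the integral of an arithmetic function at integer parts of a regular function
-/

namespace Pool.Agent.Q138.PS

open Finset MeasureTheory Filter
open scoped ENNReal ComplexConjugate
open Pool.Agent.Q138.GS

/-- the primitive of `h` at integer parts -/
noncomputable def Pr (h : ℕ → ℂ) (y : ℝ) : ℂ := ∫ t in (0 : ℝ)..y, h ⌊t⌋₊

theorem fl_measC (h : ℕ → ℂ) : Measurable fun t : ℝ => h ⌊t⌋₊ := by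
  have h2 : Measurable h := measurable_from_nat
  exact h2.comp Nat.measurable_floor

theorem fl_bdd (h : ℕ → ℂ) (M : ℝ) : ∃ D : ℝ, 0 ≤ D ∧ ∀ t : ℝ, t ≤ M → ‖h ⌊t⌋₊‖ ≤ D := by
  refine ⟨∑ m ∈ range (⌊M⌋₊ + 1), ‖h m‖, sum_nonneg fun _ _ => norm_nonneg _, fun t ht => ?_⟩
  have h1 : ⌊t⌋₊ ∈ range (⌊M⌋₊ + 1) := by
    rw [mem_range]
    have := Nat.floor_le_floor ht
    omega
  exact single_le_sum (f := fun m => ‖h m‖) (fun _ _ => norm_nonneg _) h1

theorem fl_ii (h : ℕ → ℂ) (a b : ℝ) : IntervalIntegrable (fun t => h ⌊t⌋₊) volume a b := by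
  obtain ⟨D, -, hD⟩ := fl_bdd h (max a b)
  rw [intervalIntegrable_iff]
  refine Measure.integrableOn_of_bounded (M := D) (by simp [Set.uIoc]) (fl_measC h).aestronglyMeasurable ?_
  refine (ae_restrict_iff' measurableSet_uIoc).2 (Eventually.of_forall fun t ht => hD t ?_)
  exact ht.2

theorem Pr_cont (h : ℕ → ℂ) : Continuous (Pr h) := intervalIntegral.continuous_primitive (fl_ii h) 0

theorem Pr_deriv (h : ℕ → ℂ) {y : ℝ} (hy : 0 ≤ y) : HasDerivWithinAt (Pr h) (h ⌊y⌋₊) (Set.Ici y) y := by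
  refine intervalIntegral.integral_hasDerivWithinAt_right (fl_ii h 0 y) (t := Set.Ioi y)
    ((fl_measC h).stronglyMeasurable.stronglyMeasurableAtFilter) ?_
  have hev : ∀ᶠ t in nhdsWithin y (Set.Ioi y), h ⌊t⌋₊ = h ⌊y⌋₊ := by
    have h1 : Set.Ioo y ((⌊y⌋₊ : ℝ) + 1) ∈ nhdsWithin y (Set.Ioi y) :=
      Ioo_mem_nhdsGT (Nat.lt_floor_add_one y)
    filter_upwards [h1] with t ht
    have : ⌊t⌋₊ = ⌊y⌋₊ := by
      rw [Nat.floor_eq_iff (hy.trans ht.1.le)]
      exact ⟨(Nat.floor_le hy).trans ht.1.le, ht.2⟩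
    rw [this]
  exact (tendsto_const_nhds.congr' (hev.mono fun t ht => ht.symm))

/-- the primitive as a sum -/
theorem Pr_nat (h : ℕ → ℂ) (n : ℕ) : Pr h n = ∑ m ∈ range n, h m := by
  unfold Pr
  have h1 := intervalIntegral.sum_integral_adjacent_intervals (f := fun t => h ⌊t⌋₊) (μ := volume)
    (a := fun k : ℕ => (k : ℝ)) (n := n) (fun k _ => fl_ii h _ _)
  rw [Nat.cast_zero] at h1
  rw [← h1]
  refine sum_congr rfl fun m _ => ?_
  have h2 : ∫ t in ((m : ℕ) : ℝ)..((m + 1 : ℕ) : ℝ), h ⌊t⌋₊ = ∫ t in ((m : ℕ) : ℝ)..((m + 1 : ℕ) : ℝ), h m := by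
    rw [intervalIntegral.integral_of_le (by push_cast; linarith), intervalIntegral.integral_of_le (by push_cast; linarith),
      ← integral_Ico_eq_integral_Ioc, ← integral_Ico_eq_integral_Ioc]
    refine setIntegral_congr_fun measurableSet_Ico fun t ht => ?_
    have : ⌊t⌋₊ = m := by
      rw [Nat.floor_eq_iff ((Nat.cast_nonneg m).trans ht.1)]
      push_cast at ht
      exact ht
    simp only [this]
  rw [h2]
  simp

theorem Pr_le (h : ℕ → ℂ) {y : ℝ} (hy : 0 ≤ y) {D : ℝ} (hD : ‖h ⌊y⌋₊‖ ≤ D) :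
    ‖Pr h y‖ ≤ ‖∑ m ∈ range ⌊y⌋₊, h m‖ + D := by
  have h1 : Pr h y = Pr h (⌊y⌋₊ : ℕ) + ∫ t in ((⌊y⌋₊ : ℕ) : ℝ)..y, h ⌊t⌋₊ := by
    unfold Pr
    rw [intervalIntegral.integral_add_adjacent_intervals (fl_ii h _ _) (fl_ii h _ _)]
  have hfl : ((⌊y⌋₊ : ℕ) : ℝ) ≤ y := Nat.floor_le hy
  have hlt : y < (⌊y⌋₊ : ℝ) + 1 := Nat.lt_floor_add_one y
  have hD0 : 0 ≤ D := (norm_nonneg _).trans hD
  have h2 : ‖∫ t in ((⌊y⌋₊ : ℕ) : ℝ)..y, h ⌊t⌋₊‖ ≤ D := by
    have h3 := intervalIntegral.norm_integral_le_of_norm_le_const (a := ((⌊y⌋₊ : ℕ) : ℝ)) (b := y) (C := D)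
      (f := fun t => h ⌊t⌋₊) (fun t ht => by
        rw [Set.uIoc_of_le hfl] at ht
        have : ⌊t⌋₊ = ⌊y⌋₊ := by
          rw [Nat.floor_eq_iff ((Nat.cast_nonneg _).trans ht.1.le)]
          exact ⟨ht.1.le, ht.2.trans_lt hlt⟩
        rw [this]
        exact hD)
    refine h3.trans ?_
    rw [abs_of_nonneg (by linarith)]
    nlinarith
  rw [h1, Pr_nat]
  exact (norm_add_le _ _).trans (by gcongr)

/-- **the main term** -/
theorem main_int {φ : ℕ → ℝ → ℝ} {R : ℕ} {x0 c C : ℝ} (hU : RegU φ R x0 c C) (hR : 2 ≤ R) (hc : 0 < c) (hC : 0 < C)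
    (hx0 : 0 < x0) {a b α ε : ℝ} (hx : x0 ≤ a) (hab : a ≤ b) (hα : 0 < α) (hε : 0 ≤ ε) (h : ℕ → ℂ)
    (hE : ∀ x, a ≤ x → x ≤ b → ‖Pr h (α * Real.exp (φ 0 x))‖ ≤ ε * (α * Real.exp (φ 0 x))) :
    ‖∫ x in a..b, h ⌊α * Real.exp (φ 0 x)⌋₊‖ ≤ ε * b * (2 / c + 1 + C / c ^ 2) := by
  have ha0 : 0 < a := hx0.trans_le hx
  set P : ℝ → ℝ := fun x => α * Real.exp (φ 0 x) with hP
  set w : ℝ → ℝ := fun x => Real.exp (-φ 0 x) / (α * φ 1 x) with hw
  set w' : ℝ → ℝ := fun x => -(Real.exp (-φ 0 x) / α) * (1 + φ 2 x / (φ 1 x) ^ 2) with hw'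
  have hphi1 : ∀ x, x0 ≤ x → c / x ≤ φ 1 x ∧ 0 < φ 1 x := by
    intro x hxx
    have h1 := (hU 0 (Nat.zero_le R) x hxx).2.1
    have h2 : 0 < x := hx0.trans_le hxx
    simp only [pow_zero, one_mul, zero_add, pow_one] at h1
    exact ⟨h1, lt_of_lt_of_le (by positivity) h1⟩
  have hphi2 : ∀ x, x0 ≤ x → |φ 2 x| ≤ C / x ^ 2 := by
    intro x hxx
    have h1 := (hU 1 (by omega) x hxx).2
    have h2 : 0 < x := hx0.trans_le hxx
    have h3 : 0 < c / x ^ (1 + 1) := by positivity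
    simp only [pow_one] at h1
    rw [abs_of_nonpos (by linarith [h1.1])]
    have := h1.2
    simp only [one_add_one_eq_two] at this
    linarith
  have hderP : ∀ x, x0 ≤ x → HasDerivAt P (P x * φ 1 x) x := by
    intro x hxx
    have h1 := ((hU 0 (Nat.zero_le R) x hxx).1.exp).const_mul α
    have e : α * (Real.exp (φ 0 x) * φ (0 + 1) x) = P x * φ 1 x := by
      rw [hP]
      ring
    rw [e] at h1
    exact h1
  have hderw : ∀ x, x0 ≤ x → HasDerivAt w (w' x) x := by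
    intro x hxx
    have hp := (hphi1 x hxx).2
    have h0 := (hU 0 (Nat.zero_le R) x hxx).1
    have h1 := (hU 1 (by omega) x hxx).1
    have h2 := (h0.neg.exp).div (h1.const_mul α) (by positivity)
    have e : (Real.exp (-φ 0 x) * -φ (0 + 1) x * (α * φ 1 x) - Real.exp (-φ 0 x) * (α * φ (1 + 1) x)) /
        (α * φ 1 x) ^ 2 = w' x := by
      rw [hw']
      simp only [zero_add, one_add_one_eq_two]
      field_simp
      ring
    rw [← e]
    exact h2
  have hcontP : ContinuousOn P (Set.Icc a b) := fun x hxx => (hderP x (hx.trans hxx.1)).continuousAt.continuousWithinAt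
  have hcontw : ContinuousOn w (Set.Icc a b) := fun x hxx => (hderw x (hx.trans hxx.1)).continuousAt.continuousWithinAt
  have hcontw' : ContinuousOn w' (Set.Icc a b) := by
    have e0 := phi_cont hU (Nat.zero_le R) (b := b) hx
    have e1 := phi_cont hU (r := 1) (by omega) (b := b) hx
    have e2 : ContinuousOn (φ 2) (Set.Icc a b) := phi_cont hU hR hx
    have e3 : ∀ x ∈ Set.Icc a b, (φ 1 x) ^ 2 ≠ 0 := fun x hxx => (pow_pos (hphi1 x (hx.trans hxx.1)).2 2).ne'
    exact ((e0.neg.rexp.div_const α).neg).mul (continuousOn_const.add (e2.div (e1.pow 2) e3))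
  set G : ℝ → ℂ := fun x => ((w x : ℝ) : ℂ) * Pr h (P x) with hG
  set G' : ℝ → ℂ := fun x => h ⌊P x⌋₊ + ((w' x : ℝ) : ℂ) * Pr h (P x) with hG'
  have hP0 : ∀ x, 0 < P x := fun x => by positivity
  have hGc : ContinuousOn G (Set.Icc a b) :=
    (Complex.continuous_ofReal.comp_continuousOn hcontw).mul ((Pr_cont h).comp_continuousOn hcontP)
  have hGd : ∀ x ∈ Set.Ioo a b, HasDerivWithinAt G (G' x) (Set.Ioi x) x := by
    intro x hxx
    have hx1 : x0 ≤ x := hx.trans hxx.1.le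
    have hmaps : Set.MapsTo P (Set.Ioi x) (Set.Ici (P x)) := by
      intro y hy
      have := phi_mono hU hc hx0 hx1 (le_of_lt hy)
      have := Real.exp_le_exp.2 this
      exact mul_le_mul_of_nonneg_left this hα.le
    have h1 := (Pr_deriv h (hP0 x).le).scomp x (hderP x hx1).hasDerivWithinAt hmaps
    have h2 : HasDerivWithinAt (fun x => ((w x : ℝ) : ℂ)) ((w' x : ℝ) : ℂ) (Set.Ioi x) x :=
      ((hderw x hx1).ofReal_comp).hasDerivWithinAt
    have h3 := h2.mul h1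
    have e : ((w' x : ℝ) : ℂ) * (Pr h ∘ P) x + ((w x : ℝ) : ℂ) * ((P x * φ 1 x) • h ⌊P x⌋₊) = G' x := by
      rw [hG']
      simp only [Function.comp]
      have hw1 : ((w x : ℝ) : ℂ) * ((P x * φ 1 x) • h ⌊P x⌋₊) = h ⌊P x⌋₊ := by
        rw [Complex.real_smul, ← mul_assoc, ← Complex.ofReal_mul]
        have : w x * (P x * φ 1 x) = 1 := by
          rw [hw, hP]
          have hp := (hphi1 x hx1).2
          simp only
          rw [Real.exp_neg]
          field_simp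
        rw [this]
        simp
      rw [hw1]
      ring
    rw [← e]
    exact h3
  have hmeas1 : IntervalIntegrable (fun x => h ⌊P x⌋₊) volume a b := by
    rw [intervalIntegrable_iff, Set.uIoc_of_le hab]
    obtain ⟨D, -, hD⟩ := fl_bdd h (P b)
    have hfin : IsFiniteMeasure ((volume : Measure ℝ).restrict (Set.Ioc a b)) := ⟨by simp⟩
    refine Integrable.of_bound (C := D) ?_ ?_
    · have h4 : AEMeasurable P (volume.restrict (Set.Ioc a b)) :=
        (hcontP.mono Set.Ioc_subset_Icc_self).aemeasurable measurableSet_Ioc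
      exact ((fl_measC h).comp_aemeasurable h4).aestronglyMeasurable
    · refine (ae_restrict_iff' measurableSet_Ioc).2 (Eventually.of_forall fun t ht => hD _ ?_)
      have := phi_mono hU hc hx0 (hx.trans ht.1.le) ht.2
      have := Real.exp_le_exp.2 this
      exact mul_le_mul_of_nonneg_left this hα.le
  have hcont2 : ContinuousOn (fun x => ((w' x : ℝ) : ℂ) * Pr h (P x)) (Set.uIcc a b) := by
    rw [Set.uIcc_of_le hab]
    exact (Complex.continuous_ofReal.comp_continuousOn hcontw').mul ((Pr_cont h).comp_continuousOn hcontP)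
  have hint2 : IntervalIntegrable (fun x => ((w' x : ℝ) : ℂ) * Pr h (P x)) volume a b := hcont2.intervalIntegrable
  have hftc := intervalIntegral.integral_eq_sub_of_hasDeriv_right_of_le hab hGc hGd (hmeas1.add hint2)
  have hadd : ∫ x in a..b, G' x = (∫ x in a..b, h ⌊P x⌋₊) + ∫ x in a..b, ((w' x : ℝ) : ℂ) * Pr h (P x) :=
    intervalIntegral.integral_add hmeas1 hint2
  rw [hadd] at hftc
  have heq : (∫ x in a..b, h ⌊P x⌋₊) = G b - G a - ∫ x in a..b, ((w' x : ℝ) : ℂ) * Pr h (P x) := by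
    rw [← hftc]
    ring
  have hGb : ∀ x, a ≤ x → x ≤ b → ‖G x‖ ≤ ε * (b / c) := by
    intro x h1 h2
    have hx1 := hx.trans h1
    have hxp : 0 < x := hx0.trans_le hx1
    obtain ⟨hp1, hp2⟩ := hphi1 x hx1
    have hw0 : 0 ≤ w x := by
      rw [hw]
      positivity
    rw [hG]
    simp only
    rw [norm_mul, Complex.norm_real, Real.norm_eq_abs, abs_of_nonneg hw0]
    calc w x * ‖Pr h (P x)‖ ≤ w x * (ε * P x) := mul_le_mul_of_nonneg_left (hE x h1 h2) hw0
      _ = ε * (1 / φ 1 x) := by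
          rw [hw, hP]
          simp only
          rw [Real.exp_neg]
          field_simp
      _ ≤ ε * (b / c) := by
          apply mul_le_mul_of_nonneg_left _ hε
          rw [div_le_div_iff₀ hp2 hc]
          have h3 : c / b ≤ φ 1 x := (div_le_div_of_nonneg_left hc.le hxp h2).trans hp1
          rw [div_le_iff₀ (hxp.trans_le h2)] at h3
          linarith
  have hI : ‖∫ x in a..b, ((w' x : ℝ) : ℂ) * Pr h (P x)‖ ≤ ε * (1 + C / c ^ 2) * |b - a| := by
    refine intervalIntegral.norm_integral_le_of_norm_le_const fun x hxx => ?_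
    rw [Set.uIoc_of_le hab] at hxx
    have hx1 := hx.trans hxx.1.le
    have hxp : 0 < x := hx0.trans_le hx1
    obtain ⟨hp1, hp2⟩ := hphi1 x hx1
    have h2 := hphi2 x hx1
    rw [norm_mul, Complex.norm_real, Real.norm_eq_abs]
    have h3 : |w' x| ≤ (Real.exp (-φ 0 x) / α) * (1 + C / c ^ 2) := by
      rw [hw']
      simp only
      rw [abs_mul, abs_neg, abs_of_nonneg (by positivity : 0 ≤ Real.exp (-φ 0 x) / α)]
      apply mul_le_mul_of_nonneg_left _ (by positivity)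
      refine (abs_add_le _ _).trans ?_
      rw [abs_one, abs_div, abs_of_nonneg (by positivity : 0 ≤ (φ 1 x) ^ 2)]
      have h4 : |φ 2 x| / (φ 1 x) ^ 2 ≤ C / c ^ 2 := by
        rw [div_le_div_iff₀ (by positivity) (by positivity)]
        have h5 : c ^ 2 ≤ (x * φ 1 x) ^ 2 := by
          apply pow_le_pow_left₀ hc.le
          rw [div_le_iff₀ hxp] at hp1
          linarith
        calc |φ 2 x| * c ^ 2 ≤ (C / x ^ 2) * (x * φ 1 x) ^ 2 := by gcongr
          _ = C * φ 1 x ^ 2 := by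
              field_simp
      linarith
    calc |w' x| * ‖Pr h (P x)‖ ≤ ((Real.exp (-φ 0 x) / α) * (1 + C / c ^ 2)) * (ε * P x) :=
          mul_le_mul h3 (hE x hxx.1.le hxx.2) (norm_nonneg _) (by positivity)
      _ = ε * (1 + C / c ^ 2) := by
          rw [hP]
          simp only
          rw [Real.exp_neg]
          field_simp
  rw [show (fun x : ℝ => h ⌊α * Real.exp (φ 0 x)⌋₊) = fun x => h ⌊P x⌋₊ from rfl, heq]
  have hb0 : 0 < b := ha0.trans_le hab
  have hba : |b - a| ≤ b := by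
    rw [abs_of_nonneg (sub_nonneg.2 hab)]
    linarith
  calc ‖G b - G a - ∫ x in a..b, ((w' x : ℝ) : ℂ) * Pr h (P x)‖ ≤ ‖G b‖ + ‖G a‖ +
        ‖∫ x in a..b, ((w' x : ℝ) : ℂ) * Pr h (P x)‖ :=
        (norm_sub_le _ _).trans (add_le_add_left (norm_sub_le _ _) _)
    _ ≤ ε * (b / c) + ε * (b / c) + ε * (1 + C / c ^ 2) * b := by
        refine add_le_add (add_le_add (hGb b hab le_rfl) (hGb a le_rfl hab)) (hI.trans ?_)
        gcongr
    _ = _ := by ring

end Pool.Agent.Q138.PS
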