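import Mathlib

set_option autoImplicit false

/-!
# Bad cells: a set of dilations of small measure where a sum of values at integer parts is large is
contained in few short intervals
-/

namespace Pool.Agent.Q138.PS

open Finset MeasureTheory Filter
open scoped ENNReal

/-- the sum at integer parts -/
noncomputable def Ts (S : Finset ℕ) (p : ℕ → ℝ) (b : ℝ) (h : ℕ → ℂ) (u : ℝ) : ℂ :=
  ∑ n ∈ S, h ⌊Real.exp (b + u) * p n⌋₊

theorem Ts_meas (S : Finset ℕ) (p : ℕ → ℝ) (b : ℝ) (h : ℕ → ℂ) : Measurable (Ts S p b h) := by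
  unfold Ts
  refine Finset.measurable_sum _ fun n _ => ?_
  have h1 : Measurable fun u : ℝ => ⌊Real.exp (b + u) * p n⌋₊ := Nat.measurable_floor.comp (by fun_prop)
  exact (measurable_from_nat : Measurable h).comp h1

open Classical in
/-- the bad cells -/
noncomputable def badc (T : ℝ → ℂ) (Y : ℝ) (Q : ℕ) : Finset ℕ :=
  (range Q).filter fun j : ℕ => ∃ u : ℝ, (j : ℝ) / Q ≤ u ∧ u ≤ ((j : ℝ) + 1) / Q ∧ Y < ‖T u‖

open Classical in
/-- **few bad cells** -/
theorem cells (S : Finset ℕ) (p : ℕ → ℝ) (hp : ∀ n ∈ S, 0 < p n) (b : ℝ) (h : ℕ → ℂ) {H0 Y v : ℝ} (hY : 0 < Y)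
    (hH0 : 0 ≤ H0) (hv : 0 ≤ v) (hH : ∀ n ∈ S, ∀ m : ℕ, (m : ℝ) ≤ Real.exp (b + 1) * p n → ‖h m‖ ≤ H0)
    (Q : ℕ) (hQ : 0 < Q)
    (hvol : volume {u : ℝ | u ∈ Set.Icc (0 : ℝ) 1 ∧ Y < ‖Ts S p b h u‖} ≤ ENNReal.ofReal v) :
    ((badc (Ts S p b h) (2 * Y) Q).card : ℝ) ≤ 2 * H0 / Y * ∑ n ∈ S, Real.exp (b + 1) * p n + Q * v := by
  have hQr : (0 : ℝ) < Q := by exact_mod_cast hQ
  set F : ℕ → ℝ → ℕ := fun n u => ⌊Real.exp (b + u) * p n⌋₊ with hF
  have hFm : ∀ n ∈ S, ∀ u u' : ℝ, u ≤ u' → F n u ≤ F n u' := by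
    intro n hn u u' huu
    have h1 := hp n hn
    apply Nat.floor_le_floor
    have := Real.exp_le_exp.2 (show b + u ≤ b + u' by linarith)
    gcongr
  set W : ℕ → ℝ := fun j => ∑ n ∈ S, ((F n (((j : ℝ) + 1) / Q) : ℝ) - F n ((j : ℝ) / Q)) with hW
  have hW0 : ∀ j, 0 ≤ W j := by
    intro j
    refine sum_nonneg fun n hn => sub_nonneg.2 ?_
    have : F n ((j : ℝ) / Q) ≤ F n (((j : ℝ) + 1) / Q) := hFm n hn _ _ (by gcongr; linarith)
    exact_mod_cast this
  have hWs : ∑ j ∈ range Q, W j ≤ ∑ n ∈ S, Real.exp (b + 1) * p n := by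
    rw [hW]
    simp only
    rw [sum_comm]
    refine sum_le_sum fun n hn => ?_
    have h1 := sum_range_sub (fun j : ℕ => (F n ((j : ℝ) / Q) : ℝ)) Q
    have h2 : ∑ j ∈ range Q, ((F n (((j : ℝ) + 1) / Q) : ℝ) - F n ((j : ℝ) / Q)) =
        ∑ j ∈ range Q, ((F n (((j + 1 : ℕ) : ℝ) / Q) : ℝ) - F n ((j : ℝ) / Q)) := by
      refine sum_congr rfl fun j _ => ?_
      push_cast
      rfl
    rw [h2, h1, div_self hQr.ne']
    have h3 : ((F n 1 : ℕ) : ℝ) ≤ Real.exp (b + 1) * p n := Nat.floor_le (by have := hp n hn; positivity)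
    have h4 : (0 : ℝ) ≤ (F n (((0 : ℕ) : ℝ) / Q) : ℝ) := Nat.cast_nonneg _
    linarith
  -- oscillation on a cell
  have hosc : ∀ j ∈ range Q, ∀ u u' : ℝ, (j : ℝ) / Q ≤ u → u ≤ ((j : ℝ) + 1) / Q → (j : ℝ) / Q ≤ u' →
      u' ≤ ((j : ℝ) + 1) / Q → ‖Ts S p b h u - Ts S p b h u'‖ ≤ 2 * H0 * W j := by
    intro j hj u u' h1 h2 h3 h4
    have hj1 : ((j : ℝ) + 1) / Q ≤ 1 := by
      rw [div_le_one hQr]
      exact_mod_cast mem_range.1 hj
    unfold Ts
    rw [← sum_sub_distrib, hW]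
    simp only
    rw [mul_sum]
    refine (norm_sum_le _ _).trans (sum_le_sum fun n hn => ?_)
    have e1 := hFm n hn _ _ h1
    have e2 := hFm n hn _ _ h2
    have e3 := hFm n hn _ _ h3
    have e4 := hFm n hn _ _ h4
    have e5 := hFm n hn _ _ hj1
    have hle : ∀ w : ℝ, w ≤ 1 → ‖h (F n w)‖ ≤ H0 := by
      intro w hw
      apply hH n hn
      have h5 := hp n hn
      have h6 : ((F n w : ℕ) : ℝ) ≤ Real.exp (b + w) * p n := Nat.floor_le (by positivity)
      refine h6.trans ?_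
      have := Real.exp_le_exp.2 (show b + w ≤ b + 1 by linarith)
      gcongr
    by_cases heq : F n u = F n u'
    · have : h ⌊Real.exp (b + u) * p n⌋₊ - h ⌊Real.exp (b + u') * p n⌋₊ = 0 := by
        have h7 : ⌊Real.exp (b + u) * p n⌋₊ = ⌊Real.exp (b + u') * p n⌋₊ := heq
        rw [h7, sub_self]
      rw [this, norm_zero]
      have : (F n ((j : ℝ) / Q) : ℝ) ≤ F n (((j : ℝ) + 1) / Q) := by exact_mod_cast e1.trans e2
      have := mul_nonneg (mul_nonneg (by norm_num : (0 : ℝ) ≤ 2) hH0) (sub_nonneg.2 this)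
      exact this
    · have h8 : F n ((j : ℝ) / Q) + 1 ≤ F n (((j : ℝ) + 1) / Q) := by omega
      have h9 : (1 : ℝ) ≤ (F n (((j : ℝ) + 1) / Q) : ℝ) - F n ((j : ℝ) / Q) := by
        have : ((F n ((j : ℝ) / Q) : ℝ)) + 1 ≤ F n (((j : ℝ) + 1) / Q) := by exact_mod_cast h8
        linarith
      calc ‖h (F n u) - h (F n u')‖ ≤ ‖h (F n u)‖ + ‖h (F n u')‖ := norm_sub_le _ _
        _ ≤ H0 + H0 := add_le_add (hle u (h2.trans hj1)) (hle u' (h4.trans hj1))
        _ = 2 * H0 * 1 := by ring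
        _ ≤ _ := by gcongr
  set bad : Finset ℕ := badc (Ts S p b h) (2 * Y) Q with hbad
  set A1 : Finset ℕ := bad.filter fun j => Y < 2 * H0 * W j with hA1
  set A2 : Finset ℕ := bad.filter fun j => ¬ (Y < 2 * H0 * W j) with hA2
  have hcard : bad.card = A1.card + A2.card := (card_filter_add_card_filter_not (s := bad) (fun j => Y < 2 * H0 * W j)).symm
  have h1 : (A1.card : ℝ) ≤ 2 * H0 / Y * ∑ n ∈ S, Real.exp (b + 1) * p n := by
    calc (A1.card : ℝ) = ∑ j ∈ A1, (1 : ℝ) := by simp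
      _ ≤ ∑ j ∈ A1, 2 * H0 / Y * W j := by
          refine sum_le_sum fun j hj => ?_
          have := (mem_filter.1 hj).2
          rw [div_mul_eq_mul_div, le_div_iff₀ hY]
          linarith
      _ ≤ ∑ j ∈ range Q, 2 * H0 / Y * W j := by
          refine sum_le_sum_of_subset_of_nonneg ((filter_subset _ _).trans (by
            rw [hbad]
            exact filter_subset _ _)) fun j _ _ => ?_
          have := hW0 j
          positivity
      _ = 2 * H0 / Y * ∑ j ∈ range Q, W j := (mul_sum _ _ _).symm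
      _ ≤ _ := by gcongr
  have h2 : (A2.card : ℝ) ≤ Q * v := by
    have h3 : ∀ j ∈ A2, Set.Ioo ((j : ℝ) / Q) (((j : ℝ) + 1) / Q) ⊆ {u : ℝ | u ∈ Set.Icc (0 : ℝ) 1 ∧ Y < ‖Ts S p b h u‖} := by
      intro j hj w hw
      obtain ⟨hjb, hjn⟩ := mem_filter.1 hj
      rw [hbad] at hjb
      obtain ⟨hjr, u, hu1, hu2, hu3⟩ := mem_filter.1 hjb
      rw [not_lt] at hjn
      have hj1 : ((j : ℝ) + 1) / Q ≤ 1 := by
        rw [div_le_one hQr]
        exact_mod_cast mem_range.1 hjr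
      have hj0 : 0 ≤ (j : ℝ) / Q := by positivity
      refine ⟨⟨by linarith [hw.1], by linarith [hw.2]⟩, ?_⟩
      have h5 := hosc j hjr u w hu1 hu2 hw.1.le hw.2.le
      have h6 := norm_sub_norm_le (Ts S p b h u) (Ts S p b h w)
      linarith
    have h4 : volume (⋃ j ∈ A2, Set.Ioo ((j : ℝ) / Q) (((j : ℝ) + 1) / Q)) = A2.card * ENNReal.ofReal (1 / Q) := by
      rw [measure_biUnion_finset]
      · rw [sum_congr rfl (g := fun _ => ENNReal.ofReal (1 / Q))]
        · rw [sum_const, nsmul_eq_mul]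
        · intro j _
          rw [Real.volume_Ioo]
          congr 1
          field_simp
          ring
      · intro i _ j _ hij
        rw [Function.onFun, Set.disjoint_left]
        rintro x ⟨h5, h6⟩ ⟨h7, h8⟩
        rw [div_lt_iff₀ hQr] at h5 h7
        rw [lt_div_iff₀ hQr] at h6 h8
        have e1 : (i : ℝ) < j + 1 := by linarith
        have e2 : (j : ℝ) < i + 1 := by linarith
        have e3 : i < j + 1 := by exact_mod_cast e1
        have e4 : j < i + 1 := by exact_mod_cast e2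
        omega
      · exact fun j _ => measurableSet_Ioo
    have h5 : (A2.card : ℝ≥0∞) * ENNReal.ofReal (1 / Q) ≤ ENNReal.ofReal v := by
      rw [← h4]
      exact (measure_mono (Set.iUnion₂_subset h3)).trans hvol
    have h6 : ENNReal.ofReal ((A2.card : ℝ) * (1 / Q)) ≤ ENNReal.ofReal v := by
      rwa [ENNReal.ofReal_mul (Nat.cast_nonneg _), ENNReal.ofReal_natCast]
    rw [ENNReal.ofReal_le_ofReal_iff hv, mul_one_div, div_le_iff₀ hQr] at h6
    linarith
  rw [hcard]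
  push_cast
  linarith

end Pool.Agent.Q138.PS
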