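import Pool.Agent.Q138.PS.PG
import Pool.Agent.Q138.PS.PH

set_option autoImplicit false

/-!
# The number of bad cells at one scale
-/

namespace Pool.Agent.Q138.PS

open Finset MeasureTheory Filter
open scoped ENNReal
open Pool.Agent.Q138.GS

/-- the lower end of the block -/
noncomputable def cut (k N : ℕ) : ℕ := ⌊(N : ℝ) / (Real.log N) ^ k⌋₊

/-- admissible phase functions at the scale `N` -/
def Adm (c C : ℝ) (d k : ℕ) (θ ε : ℝ) (N : ℕ) (φ : ℕ → ℝ → ℝ) : Prop := ∃ x0 : ℝ, 0 < x0 ∧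
  RegU φ (d + 1) x0 c C ∧ x0 ≤ cut k N ∧ Real.exp (φ 0 N) ≤ (N : ℝ) ^ θ ∧ (N : ℝ) ^ ε ≤ Real.exp (φ 0 (cut k N))

/-- cancellation of `h` on the range of the dilated phase function, and the size of `h` -/
def CanN (k A : ℕ) (b θ : ℝ) (N : ℕ) (φ : ℕ → ℝ → ℝ) (h : ℕ → ℂ) : Prop :=
  (∀ m : ℕ, (m : ℝ) ≤ (N : ℝ) ^ (θ + 1) → ‖h m‖ ≤ (θ + 2) * Real.log N) ∧
  ∀ y : ℝ, Real.exp b * Real.exp (φ 0 (cut k N)) ≤ y → y ≤ Real.exp (b + 1) * Real.exp (φ 0 N) →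
    ‖Pr h y‖ ≤ y / (Real.log N) ^ A

theorem scale (c C : ℝ) (hc : 0 < c) (hC : 0 < C) (d : ℕ) (hd : 2 ≤ d) (k A : ℕ) (b θ κ ε : ℝ)
    (hκ1 : κ ≤ kp d) (hκ2 : κ ≤ kp d + d - θ) (hε : 0 < ε) (hθ : 0 ≤ θ) :
    ∃ (K : ℝ) (B : ℕ), 0 ≤ K ∧ ∀ᶠ N : ℕ in atTop, ∀ (φ : ℕ → ℝ → ℝ) (h : ℕ → ℂ) (Q : ℕ),
      Adm c C d k θ ε N φ → CanN k (A + 1) b θ N φ h → 0 < Q → (Q : ℝ) ≤ 2 * (N : ℝ) ^ (θ + κ) →
      ((badc (Ts (Ioc (cut k N) N) (fun n => Real.exp (φ 0 n)) b h) (2 * ((N : ℝ) / (Real.log N) ^ A)) Q).card : ℝ) ≤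
        K * (Real.log N) ^ B * (N : ℝ) ^ θ := by
  obtain ⟨K1, B1, hK1, hwin⟩ := win_l2 c C hc hC d hd k b θ κ ε hκ1 hκ2 hε hθ
  have hb1 := Real.exp_pos (b + 1)
  set W : ℝ := 2 / c + 1 + C / c ^ 2 with hW
  have hW0 : 0 < W := by positivity
  refine ⟨2 * (θ + 2) * Real.exp (b + 1) + 2 * (4 * (θ + 2) ^ 2 * K1), B1 + 2 * A + A + 3, by positivity, ?_⟩
  filter_upwards [hwin, cut_size k, eventually_ge_atTop 1,
    (Real.tendsto_log_atTop.comp tendsto_natCast_atTop_atTop).eventually_ge_atTop (2 * W + 2),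
    pw (Real.exp (b + 1) + 3) 0 one_pos]
    with N hwinN hcut hNpos hlW hp1
  intro φ h Q hadm hcan hQ hQN
  obtain ⟨x0, hx0, hU, hxJ, hθN, hεJ⟩ := hadm
  obtain ⟨hh, hcan⟩ := hcan
  obtain ⟨hl, hJ1, hJ2, hJ3, hJ4⟩ := hcut
  unfold cut at *
  set ℓ := Real.log N with hℓ
  set J := ⌊(N : ℝ) / ℓ ^ k⌋₊ with hJ
  simp only [Function.comp] at hlW
  rw [← hℓ] at hlW
  rw [pow_zero, mul_one] at hp1
  rw [Real.rpow_one] at hp1
  have hN0 : (0 : ℝ) < N := by exact_mod_cast hNpos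
  have hN1r : (1 : ℝ) ≤ N := by exact_mod_cast hNpos
  have hJNr : (J : ℝ) ≤ N := by exact_mod_cast hJ4
  have hJ0 : (0 : ℝ) < J := by exact_mod_cast hJ1
  have hl0 : 0 < ℓ := by linarith
  set H0 : ℝ := (θ + 2) * ℓ with hH0
  have hH00 : 0 < H0 := by positivity
  have hNθ : 1 ≤ (N : ℝ) ^ θ := Real.one_le_rpow hN1r hθ
  have hb := Real.exp_pos b
  -- size of h
  have hsize : ∀ m : ℕ, (m : ℝ) ≤ Real.exp (b + 1) * (N : ℝ) ^ θ → ‖h m‖ ≤ H0 := by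
    intro m hm
    refine hh m (hm.trans ?_)
    rw [Real.rpow_add hN0, Real.rpow_one]
    calc Real.exp (b + 1) * (N : ℝ) ^ θ ≤ N * (N : ℝ) ^ θ := by
          gcongr
          linarith
      _ = (N : ℝ) ^ θ * N := mul_comm _ _
  have hmonoN : ∀ x : ℝ, (J : ℝ) ≤ x → x ≤ N → Real.exp (φ 0 x) ≤ (N : ℝ) ^ θ ∧ (N : ℝ) ^ ε ≤ Real.exp (φ 0 x) := by
    intro x h1 h2
    have e1 := Real.exp_le_exp.2 (phi_mono hU hc hx0 (hxJ.trans h1) h2)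
    have e2 := Real.exp_le_exp.2 (phi_mono hU hc hx0 hxJ h1)
    exact ⟨e1.trans hθN, hεJ.trans e2⟩
  set M : ℝ := Real.exp (b + 1) * (N : ℝ) ^ θ with hM
  -- the normalised function
  set f : ℕ → ℂ := fun m => if (m : ℝ) ≤ M then h m / H0 else 0 with hf
  have hf1 : ∀ m, ‖f m‖ ≤ 1 := by
    intro m
    rw [hf]
    simp only
    split_ifs with hm
    · rw [norm_div, Complex.norm_real, Real.norm_eq_abs, abs_of_pos hH00, div_le_one hH00]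
      exact hsize m hm
    · simp
  have hfh : ∀ u ∈ Set.Icc (0 : ℝ) 1, ∀ x : ℝ, (J : ℝ) ≤ x → x ≤ N →
      h ⌊Real.exp (b + u) * Real.exp (φ 0 x)⌋₊ = H0 * f ⌊Real.exp (b + u) * Real.exp (φ 0 x)⌋₊ := by
    intro u hu x h1 h2
    rw [hf]
    simp only
    rw [if_pos]
    · have : (H0 : ℂ) ≠ 0 := by exact_mod_cast hH00.ne'
      field_simp
    · refine (Nat.floor_le (by positivity)).trans ?_
      have e1 := Real.exp_le_exp.2 (show b + u ≤ b + 1 by linarith [hu.2])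
      have e2 := (hmonoN x h1 h2).1
      rw [hM]
      gcongr
  set T : ℝ → ℂ := Ts (Ioc J N) (fun n => Real.exp (φ 0 n)) b h with hT
  set I : ℝ → ℂ := fun u => ∫ x in (J : ℝ)..(N : ℝ), h ⌊Real.exp (b + u) * Real.exp (φ 0 x)⌋₊ with hI
  set Y : ℝ := (N : ℝ) / ℓ ^ A with hY
  have hY0 : 0 < Y := by positivity
  have hIb : ∀ u ∈ Set.Icc (0 : ℝ) 1, ‖I u‖ ≤ Y / 2 := by
    intro u hu
    have hα : 0 < Real.exp (b + u) := Real.exp_pos _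
    have e0 : Real.exp b ≤ Real.exp (b + u) := Real.exp_le_exp.2 (by linarith [hu.1])
    have e1 : Real.exp (b + u) ≤ Real.exp (b + 1) := Real.exp_le_exp.2 (by linarith [hu.2])
    have hm := main_int hU (by omega) hc hC hx0 hxJ hJNr hα (ε := 1 / ℓ ^ (A + 1)) (by positivity) h (by
      intro x h1 h2
      have e2 := Real.exp_le_exp.2 (phi_mono hU hc hx0 hxJ h1)
      have e3 := Real.exp_le_exp.2 (phi_mono hU hc hx0 (hxJ.trans h1) h2)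
      have h5 := hcan (Real.exp (b + u) * Real.exp (φ 0 x)) (by gcongr) (by gcongr)
      exact h5.trans (le_of_eq (by ring)))
    refine hm.trans ?_
    rw [hY, pow_succ, ← hW]
    calc 1 / (ℓ ^ A * ℓ) * N * W = (N / ℓ ^ A) * (W / ℓ) := by field_simp
      _ ≤ (N / ℓ ^ A) * (1 / 2) := by
          have hWl : W / ℓ ≤ 1 / 2 := by
            rw [div_le_div_iff₀ hl0 (by norm_num)]
            linarith
          exact mul_le_mul_of_nonneg_left hWl (by positivity)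
      _ = _ := by ring
  -- the mean square
  obtain ⟨hDm, hms⟩ := hwinN φ x0 f hf1 hU hx0 hxJ hθN hεJ
  have hconv : ∀ u ∈ Set.Icc (0 : ℝ) 1, T u - I u = H0 * (∑ n ∈ Ioc J N, f ⌊Real.exp (b + u) * Real.exp (φ 0 n)⌋₊ -
        ∫ x in (J : ℝ)..(N : ℝ), f ⌊Real.exp (b + u) * Real.exp (φ 0 x)⌋₊) := by
    intro u hu
    rw [mul_sub, mul_sum, ← intervalIntegral.integral_const_mul]
    congr 1
    · rw [hT]
      unfold Ts
      refine sum_congr rfl fun n hn => ?_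
      rw [mem_Ioc] at hn
      exact hfh u hu n (by exact_mod_cast hn.1.le) (by exact_mod_cast hn.2)
    · rw [hI]
      refine intervalIntegral.integral_congr fun x hx => ?_
      rw [Set.uIcc_of_le hJNr] at hx
      exact hfh u hu x hx.1 hx.2
  set Z : ℝ := Y / (2 * H0) with hZ
  have hZ0 : 0 < Z := by positivity
  set D : ℝ → ℂ := fun u => ∑ n ∈ Ioc J N, f ⌊Real.exp (b + u) * Real.exp (φ 0 n)⌋₊ -
        ∫ x in (J : ℝ)..(N : ℝ), f ⌊Real.exp (b + u) * Real.exp (φ 0 x)⌋₊ with hD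
  set E : ℝ := K1 * ℓ ^ B1 * (N : ℝ) ^ (2 - κ) with hE
  have hE0 : 0 ≤ E := by positivity
  have hsub : {u : ℝ | u ∈ Set.Icc (0 : ℝ) 1 ∧ Y < ‖T u‖} ⊆ {u : ℝ | u ∈ Set.Icc (0 : ℝ) 1 ∧ ENNReal.ofReal Z ^ 2 ≤ ‖D u‖ₑ ^ 2} := by
    rintro u ⟨hu, hYT⟩
    refine ⟨hu, ?_⟩
    have h1 := hconv u hu
    have h2 := hIb u hu
    have h3 : Y / 2 ≤ ‖T u - I u‖ := by
      have := norm_sub_norm_le (T u) (I u)
      linarith
    rw [h1, norm_mul, Complex.norm_real, Real.norm_eq_abs, abs_of_pos hH00] at h3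
    have h4 : Z ≤ ‖D u‖ := by
      rw [hZ, div_le_iff₀ (by positivity)]
      linarith
    gcongr
    rw [← ofReal_norm]
    exact ENNReal.ofReal_le_ofReal h4
  have hvol : volume {u : ℝ | u ∈ Set.Icc (0 : ℝ) 1 ∧ Y < ‖T u‖} ≤ ENNReal.ofReal (E / Z ^ 2) := by
    refine (measure_mono hsub).trans ?_
    have h1 : volume {u : ℝ | u ∈ Set.Icc (0 : ℝ) 1 ∧ ENNReal.ofReal Z ^ 2 ≤ ‖D u‖ₑ ^ 2} ≤
        (volume.restrict (Set.Icc (0 : ℝ) 1)) {u : ℝ | ENNReal.ofReal Z ^ 2 ≤ ‖D u‖ₑ ^ 2} := by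
      have e : {u : ℝ | u ∈ Set.Icc (0 : ℝ) 1 ∧ ENNReal.ofReal Z ^ 2 ≤ ‖D u‖ₑ ^ 2} =
          {u : ℝ | ENNReal.ofReal Z ^ 2 ≤ ‖D u‖ₑ ^ 2} ∩ Set.Icc (0 : ℝ) 1 := by
        ext u
        exact and_comm
      rw [e]
      exact Measure.le_restrict_apply _ _
    have hZ2 : ENNReal.ofReal Z ^ 2 ≠ 0 := by
      have : 0 < ENNReal.ofReal Z := ENNReal.ofReal_pos.2 hZ0
      positivity
    have hZt : ENNReal.ofReal Z ^ 2 ≠ ∞ := ENNReal.pow_ne_top ENNReal.ofReal_ne_top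
    have h2 := meas_ge_le_lintegral_div (μ := volume.restrict (Set.Icc (0 : ℝ) 1)) (hDm.enorm.pow_const 2) hZ2 hZt
    refine h1.trans (h2.trans ?_)
    have h3 : ENNReal.ofReal (E / Z ^ 2) = ENNReal.ofReal E / ENNReal.ofReal Z ^ 2 := by
      rw [ENNReal.ofReal_div_of_pos (x := E) (pow_pos hZ0 2), ENNReal.ofReal_pow hZ0.le]
    rw [h3]
    exact ENNReal.div_le_div_right hms _
  have hv0 : 0 ≤ E / Z ^ 2 := by positivity
  have hcells := cells (Ioc J N) (fun n => Real.exp (φ 0 n)) (fun n _ => Real.exp_pos _) b h hY0 hH00.le hv0 (by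
    intro n hn m hm
    rw [mem_Ioc] at hn
    apply hsize
    refine hm.trans ?_
    have := (hmonoN n (by exact_mod_cast hn.1.le) (by exact_mod_cast hn.2)).1
    exact mul_le_mul_of_nonneg_left this hb1.le) Q hQ hvol
  refine hcells.trans ?_
  have hsum : ∑ n ∈ Ioc J N, Real.exp (b + 1) * Real.exp (φ 0 n) ≤ N * (Real.exp (b + 1) * (N : ℝ) ^ θ) := by
    calc ∑ n ∈ Ioc J N, Real.exp (b + 1) * Real.exp (φ 0 n) ≤ ∑ n ∈ Ioc J N, Real.exp (b + 1) * (N : ℝ) ^ θ := by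
          refine sum_le_sum fun n hn => ?_
          rw [mem_Ioc] at hn
          have := (hmonoN n (by exact_mod_cast hn.1.le) (by exact_mod_cast hn.2)).1
          gcongr
      _ = ((N - J : ℕ) : ℝ) * (Real.exp (b + 1) * (N : ℝ) ^ θ) := by simp
      _ ≤ _ := by
          gcongr
          exact Nat.sub_le _ _
  have hlA : ∀ i j : ℕ, i ≤ j → ℓ ^ i ≤ ℓ ^ j := fun i j hij => pow_le_pow_right₀ hl hij
  have e1 : 2 * H0 / Y * ∑ n ∈ Ioc J N, Real.exp (b + 1) * Real.exp (φ 0 n) ≤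
      2 * (θ + 2) * Real.exp (b + 1) * ℓ ^ (B1 + 2 * A + A + 3) * (N : ℝ) ^ θ := by
    calc _ ≤ 2 * H0 / Y * (N * (Real.exp (b + 1) * (N : ℝ) ^ θ)) := by gcongr
      _ = 2 * (θ + 2) * Real.exp (b + 1) * ℓ ^ (A + 1) * (N : ℝ) ^ θ := by
          rw [hH0, hY, pow_succ]
          field_simp
      _ ≤ _ := by
          have := hlA (A + 1) (B1 + 2 * A + A + 3) (by omega)
          gcongr
  have e2 : Q * (E / Z ^ 2) ≤ 2 * (4 * (θ + 2) ^ 2 * K1) * ℓ ^ (B1 + 2 * A + A + 3) * (N : ℝ) ^ θ := by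
    have e3 : E / Z ^ 2 = 4 * (θ + 2) ^ 2 * K1 * ℓ ^ (B1 + 2 * A + 2) * (N : ℝ) ^ (-κ) := by
      have e4 : (N : ℝ) ^ (2 - κ) = (N : ℝ) ^ 2 * (N : ℝ) ^ (-κ) := by
        rw [sub_eq_add_neg, Real.rpow_add hN0]
        congr 1
        exact_mod_cast Real.rpow_natCast (N : ℝ) 2
      rw [hE, hZ, hY, hH0, e4]
      field_simp
      ring
    rw [e3]
    have e5 : (N : ℝ) ^ (θ + κ) * (N : ℝ) ^ (-κ) = (N : ℝ) ^ θ := by
      rw [← Real.rpow_add hN0]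
      congr 1
      ring
    calc (Q : ℝ) * (4 * (θ + 2) ^ 2 * K1 * ℓ ^ (B1 + 2 * A + 2) * (N : ℝ) ^ (-κ)) ≤
        (2 * (N : ℝ) ^ (θ + κ)) * (4 * (θ + 2) ^ 2 * K1 * ℓ ^ (B1 + 2 * A + 2) * (N : ℝ) ^ (-κ)) := by gcongr
      _ = 2 * (4 * (θ + 2) ^ 2 * K1) * ℓ ^ (B1 + 2 * A + 2) * ((N : ℝ) ^ (θ + κ) * (N : ℝ) ^ (-κ)) := by ring
      _ = 2 * (4 * (θ + 2) ^ 2 * K1) * ℓ ^ (B1 + 2 * A + 2) * (N : ℝ) ^ θ := by rw [e5]
      _ ≤ _ := by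
          have := hlA (B1 + 2 * A + 2) (B1 + 2 * A + A + 3) (by omega)
          have h9 : (0 : ℝ) ≤ 2 * (4 * (θ + 2) ^ 2 * K1) := by positivity
          exact mul_le_mul_of_nonneg_right (mul_le_mul_of_nonneg_left this h9) (by positivity)
  calc _ ≤ 2 * (θ + 2) * Real.exp (b + 1) * ℓ ^ (B1 + 2 * A + A + 3) * (N : ℝ) ^ θ +
        2 * (4 * (θ + 2) ^ 2 * K1) * ℓ ^ (B1 + 2 * A + A + 3) * (N : ℝ) ^ θ := add_le_add e1 e2
    _ = _ := by ring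

end Pool.Agent.Q138.PS
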