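import Pool.Agent.Q138.PS.PI
import Pool.Agent.Q138.Met.Floor

set_option autoImplicit false

/-!
# The Hausdorff dimension of the exceptional dilations
-/

namespace Pool.Agent.Q138.PS

open Finset MeasureTheory Filter Topology
open scoped ENNReal NNReal
open Pool.Agent.Q138.GS

/-- limsup of finite unions of cells -/
theorem cover_null {s : ℝ} (hs : 0 < s) (Z : ℕ → Finset ℕ) (Q : ℕ → ℕ) (hQ : ∀ j, 0 < Q j)
    (hsum : Summable fun j => ((Z j).card : ℝ) * (1 / (Q j : ℝ)) ^ s) :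
    μH[s] {u : ℝ | ∃ᶠ j in atTop, ∃ i ∈ Z j, (i : ℝ) / Q j ≤ u ∧ u ≤ ((i : ℝ) + 1) / Q j} = 0 := by
  set f : ℕ → ℝ≥0∞ := fun k => ENNReal.ofReal (((Z k).card : ℝ) * (1 / (Q k : ℝ)) ^ s) with hf
  have hfs : ∑' k, f k ≠ ∞ := hsum.tsum_ofReal_ne_top
  set t : ℕ → ℕ × ℕ → Set ℝ := fun K i => if i.2 ∈ Z (i.1 + K) then
    Set.Icc ((i.2 : ℝ) / Q (i.1 + K)) (((i.2 : ℝ) + 1) / Q (i.1 + K)) else ∅ with ht
  refine Pool.Agent.Q138.Met.hausdorff_null_of_covers hs t (fun K => ?_) ?_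
  · intro u hu
    obtain ⟨k, hk, hkK⟩ := (hu.and_eventually (eventually_ge_atTop K)).exists
    obtain ⟨i, hi, h1, h2⟩ := hk
    refine Set.mem_iUnion.2 ⟨(k - K, i), ?_⟩
    have hkk : k - K + K = k := by omega
    simp only [ht, hkk]
    rw [if_pos hi]
    exact ⟨h1, h2⟩
  · have hle : ∀ K, ∑' i, Metric.ediam (t K i) ^ s ≤ ∑' k, f (k + K) := by
      intro K
      rw [ENNReal.tsum_prod']
      refine ENNReal.tsum_le_tsum fun k => ?_
      have hQk : (0 : ℝ) < Q (k + K) := by exact_mod_cast hQ (k + K)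
      have h3 : ∀ n : ℕ, Metric.ediam (t K (k, n)) ^ s =
          if n ∈ Z (k + K) then ENNReal.ofReal ((1 / (Q (k + K) : ℝ)) ^ s) else 0 := by
        intro n
        simp only [ht]
        split_ifs with hn
        · rw [Real.ediam_Icc]
          have e : ((n : ℝ) + 1) / Q (k + K) - n / Q (k + K) = 1 / Q (k + K) := by
            field_simp
            ring
          rw [e, ENNReal.ofReal_rpow_of_pos (by positivity)]
        · rw [Metric.ediam_empty, ENNReal.zero_rpow_of_pos hs]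
      have h4 : ∑' n : ℕ, Metric.ediam (t K (k, n)) ^ s =
          ((Z (k + K)).card : ℝ≥0∞) * ENNReal.ofReal ((1 / (Q (k + K) : ℝ)) ^ s) := by
        rw [tsum_eq_sum (s := Z (k + K))]
        · rw [Finset.sum_congr rfl (g := fun _ => ENNReal.ofReal ((1 / (Q (k + K) : ℝ)) ^ s))]
          · rw [Finset.sum_const, nsmul_eq_mul]
          · intro n hn
            rw [h3, if_pos hn]
        · intro n hn
          rw [h3, if_neg hn]
      rw [h4, hf]
      simp only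
      rw [ENNReal.ofReal_mul (Nat.cast_nonneg _), ENNReal.ofReal_natCast]
    have h0 : Tendsto (fun K => ∑' k, f (k + K)) atTop (𝓝 0) := ENNReal.tendsto_sum_nat_add f hfs
    exact tendsto_of_tendsto_of_tendsto_of_le_of_le tendsto_const_nhds h0 (fun _ => zero_le) hle

/-- the scales -/
def sc (B j i : ℕ) : ℕ := 2 ^ j + i * 2 ^ j / (j + 1) ^ B

theorem sc_bounds (B j i : ℕ) (hi : i ≤ (j + 1) ^ B) : 2 ^ j ≤ sc B j i ∧ sc B j i ≤ 2 ^ (j + 1) := by
  unfold sc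
  refine ⟨Nat.le_add_right _ _, ?_⟩
  have h1 : i * 2 ^ j / (j + 1) ^ B ≤ 2 ^ j := by
    apply Nat.div_le_of_le_mul
    exact Nat.mul_le_mul_right _ hi
  rw [pow_succ]
  omega

theorem sc_next (B j N : ℕ) (h1 : 2 ^ j ≤ N) (h2 : N < 2 ^ (j + 1)) : ∃ i, i ≤ (j + 1) ^ B ∧ N ≤ sc B j i ∧
    ((sc B j i : ℝ) - N) * ((j : ℝ) + 1) ^ B ≤ 2 ^ j := by
  set D := (j + 1) ^ B with hD
  have hD0 : 0 < D := by positivity
  obtain ⟨r, hr⟩ := Nat.exists_eq_add_of_le h1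
  have hr2 : r < 2 ^ j := by rw [pow_succ] at h2; omega
  have hj0 : 0 < 2 ^ j := by positivity
  refine ⟨(r * D + (2 ^ j - 1)) / 2 ^ j, ?_, ?_, ?_⟩
  · rw [Nat.div_le_iff_le_mul_add_pred hj0]
    have : r * D ≤ 2 ^ j * D := Nat.mul_le_mul_right _ hr2.le
    omega
  · unfold sc
    rw [hr, ← hD]
    apply Nat.add_le_add_left
    rw [Nat.le_div_iff_mul_le hD0]
    have h3 := Nat.div_add_mod (r * D + (2 ^ j - 1)) (2 ^ j)
    have h4 := Nat.mod_lt (r * D + (2 ^ j - 1)) hj0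
    have h5 : (r * D + (2 ^ j - 1)) / 2 ^ j * 2 ^ j = 2 ^ j * ((r * D + (2 ^ j - 1)) / 2 ^ j) := mul_comm _ _
    rw [h5]
    omega
  · unfold sc
    rw [← hD]
    set i := (r * D + (2 ^ j - 1)) / 2 ^ j with hi
    have h3 : i * 2 ^ j ≤ r * D + (2 ^ j - 1) := Nat.div_mul_le_self _ _
    have h4 : i * 2 ^ j / D * D ≤ i * 2 ^ j := Nat.div_mul_le_self _ _
    have h5 : i * 2 ^ j / D * D ≤ r * D + 2 ^ j := by omega
    have h6 : ((i * 2 ^ j / D : ℕ) : ℝ) * D ≤ r * D + 2 ^ j := by exact_mod_cast h5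
    have h7 : ((j : ℝ) + 1) ^ B = (D : ℝ) := by rw [hD]; push_cast; rfl
    rw [h7, hr]
    push_cast
    nlinarith

end Pool.Agent.Q138.PS
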