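import Pool.Agent.Q138.PS.PJ

set_option autoImplicit false

/-!
# Exceptional dilations for a family of regular sequences: the unit interval
-/

namespace Pool.Agent.Q138.PS

open Finset MeasureTheory Filter Topology
open scoped ENNReal NNReal
open Pool.Agent.Q138.GS

/-- a sequence and a function which are admissible at the scale `N` -/
def AdS (c C : ℝ) (d k A : ℕ) (b θ ε : ℝ) (N : ℕ) (p : ℕ → ℝ) (h : ℕ → ℂ) : Prop :=
  (∃ φ : ℕ → ℝ → ℝ, Adm c C d k θ ε N φ ∧ (∀ n : ℕ, cut k N < n → n ≤ N → p n = Real.exp (φ 0 n)) ∧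
    CanN k A b θ N φ h) ∧ ∀ n : ℕ, n ≤ N → p n ≤ (N : ℝ) ^ θ

/-- polynomial times geometric -/
theorem poly_geo (K : ℝ) (B : ℕ) {r : ℝ} (hr0 : 0 ≤ r) (hr : r < 1) :
    Summable fun j : ℕ => K * ((j : ℝ) + 1) ^ B * r ^ j := by
  have h1 : Summable fun j : ℕ => ((j : ℝ)) ^ B * r ^ j :=
    summable_pow_mul_geometric_of_norm_lt_one B (by rwa [Real.norm_eq_abs, abs_of_nonneg hr0])
  have h2 : Summable fun j : ℕ => (((j + 1 : ℕ) : ℝ)) ^ B * r ^ (j + 1) := (summable_nat_add_iff 1).2 h1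
  rcases hr0.eq_or_lt with rfl | hr0'
  · refine summable_of_ne_finset_zero (s := {0}) fun j hj => ?_
    have : j ≠ 0 := by simpa using hj
    rw [zero_pow this, mul_zero]
  · have h3 := (h2.mul_left (K / r))
    refine h3.congr fun j => ?_
    push_cast
    rw [pow_succ]
    field_simp

open Classical in
/-- **the cells which contain the exceptional dilations** -/
theorem unit_null {ι : Type} (c C : ℝ) (hc : 0 < c) (hC : 0 < C) (d : ℕ) (hd : 2 ≤ d) (A : ℕ) (b θ κ ε δ : ℝ)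
    (hκ0 : 0 < κ) (hκ1 : κ ≤ kp d) (hκ2 : κ ≤ kp d + d - θ) (hε : 0 < ε) (hθ : 0 ≤ θ) (hδ : 0 ≤ δ)
    (Ω : ℕ → Finset ι) (hΩ : Monotone Ω) (p : ι → ℕ → ℝ) (h : ι → ℕ → ℂ)
    (hcard : ∀ᶠ N : ℕ in atTop, ((Ω N).card : ℝ) ≤ (N : ℝ) ^ δ)
    (hreg : ∀ᶠ N : ℕ in atTop, ∀ ω ∈ Ω N, AdS c C d (A + 3) (A + 2) b θ ε N (p ω) (h ω))
    {s : ℝ} (hs : (θ + δ) / (θ + κ) < s) :
    μH[s] {u : ℝ | u ∈ Set.Icc (0 : ℝ) 1 ∧ ¬ ∀ᶠ N : ℕ in atTop, ∀ ω ∈ Ω N,
      ‖∑ n ∈ Icc 1 N, h ω ⌊Real.exp (b + u) * p ω n⌋₊‖ ≤ (N : ℝ) / (Real.log N) ^ A} = 0 := by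
  obtain ⟨K, B1, hK, hscale⟩ := scale c C hc hC d hd (A + 3) (A + 1) b θ κ ε hκ1 hκ2 hε hθ
  have hθκ : 0 < θ + κ := by linarith
  obtain ⟨B, hB⟩ : ∃ B : ℕ, B = A + 3 := ⟨_, rfl⟩
  rw [← hB] at hscale
  rw [← hB] at hreg
  have hs0 : 0 < s := lt_of_le_of_lt (by positivity) hs
  set Q : ℕ → ℕ := fun j => ⌈((2 : ℝ) ^ j) ^ (θ + κ)⌉₊ with hQ
  have hQ0 : ∀ j, 0 < Q j := fun j => Nat.ceil_pos.2 (by positivity)
  have hQlow : ∀ j, ((2 : ℝ) ^ j) ^ (θ + κ) ≤ Q j := fun j => Nat.le_ceil _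
  have hQup : ∀ j, (Q j : ℝ) ≤ 2 * ((2 : ℝ) ^ j) ^ (θ + κ) := by
    intro j
    have h1 := (Nat.ceil_lt_add_one (show (0 : ℝ) ≤ ((2 : ℝ) ^ j) ^ (θ + κ) by positivity)).le
    have h2 : 1 ≤ ((2 : ℝ) ^ j) ^ (θ + κ) := Real.one_le_rpow (one_le_pow₀ (by norm_num)) hθκ.le
    calc (Q j : ℝ) ≤ ((2 : ℝ) ^ j) ^ (θ + κ) + 1 := h1
      _ ≤ _ := by linarith
  obtain ⟨N0, hN0⟩ := eventually_atTop.1 (hcard.and (hreg.and (hscale.and ((eventually_ge_atTop 1).and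
    ((cut_size B).and (pw (Real.exp (b + 1) + 3) 0 one_pos))))))
  set T : ℕ → ι → ℝ → ℂ := fun N ω => Ts (Ioc (cut B N) N) (p ω) b (h ω) with hT
  set thr : ℕ → ℝ := fun N => 2 * ((N : ℝ) / (Real.log N) ^ (A + 1)) with hthr
  set Z : ℕ → Finset ℕ := fun j => if N0 ≤ 2 ^ j then (range ((j + 1) ^ B + 1)).biUnion (fun i =>
    (Ω (sc B j i)).biUnion fun ω => badc (T (sc B j i) ω) (thr (sc B j i)) (Q j)) else ∅ with hZ
  -- the number of bad cells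
  have hbad : ∀ j i, N0 ≤ 2 ^ j → i ≤ (j + 1) ^ B → ∀ ω ∈ Ω (sc B j i),
      ((badc (T (sc B j i) ω) (thr (sc B j i)) (Q j)).card : ℝ) ≤ K * ((j : ℝ) + 1) ^ B1 * ((2 : ℝ) ^ (j + 1)) ^ θ := by
    intro j i hj hi ω hω
    obtain ⟨hs1, hs2⟩ := sc_bounds B j i hi
    set N := sc B j i with hN
    obtain ⟨h1, h2, h4, h5, -⟩ := hN0 N (hj.trans hs1)
    obtain ⟨⟨φ, hφ, hpφ, hcan⟩, -⟩ := h2 ω hω
    have h6 := h4 φ (h ω) (Q j) hφ hcan (hQ0 j) (by
      refine (hQup j).trans ?_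
      have : (2 : ℝ) ^ j ≤ N := by exact_mod_cast hs1
      have := Real.rpow_le_rpow (by positivity) this hθκ.le
      linarith)
    have e : Ts (Ioc (cut B N) N) (fun n => Real.exp (φ 0 n)) b (h ω) = T N ω := by
      rw [hT]
      funext u
      unfold Ts
      refine sum_congr rfl fun n hn => ?_
      rw [mem_Ioc] at hn
      rw [hpφ n hn.1 hn.2]
    rw [e] at h6
    refine h6.trans ?_
    have hNr : (N : ℝ) ≤ 2 ^ (j + 1) := by exact_mod_cast hs2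
    have hN1 : (1 : ℝ) ≤ N := by exact_mod_cast h5
    have hlog : Real.log N ≤ (j : ℝ) + 1 := by
      have := Real.log_le_log (by linarith) hNr
      rw [Real.log_pow] at this
      push_cast at this
      nlinarith [Real.log_two_lt_d9, (Nat.cast_nonneg j : (0 : ℝ) ≤ j)]
    have hlog0 : 0 ≤ Real.log N := Real.log_nonneg hN1
    gcongr
  have hZcard : ∀ j, ((Z j).card : ℝ) ≤ (2 * K * 2 ^ (δ + θ)) * ((j : ℝ) + 1) ^ (B + B1) * ((2 : ℝ) ^ (δ + θ)) ^ j := by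
    intro j
    rw [hZ]
    simp only
    split_ifs with hj
    · have h1 : ((((range ((j + 1) ^ B + 1)).biUnion (fun i =>
          (Ω (sc B j i)).biUnion fun ω => badc (T (sc B j i) ω) (thr (sc B j i)) (Q j))).card : ℕ) : ℝ) ≤
          ∑ i ∈ range ((j + 1) ^ B + 1), ∑ ω ∈ Ω (sc B j i), ((badc (T (sc B j i) ω) (thr (sc B j i)) (Q j)).card : ℝ) := by
        have h2 : ((range ((j + 1) ^ B + 1)).biUnion (fun i =>
          (Ω (sc B j i)).biUnion fun ω => badc (T (sc B j i) ω) (thr (sc B j i)) (Q j))).card ≤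
          ∑ i ∈ range ((j + 1) ^ B + 1), ∑ ω ∈ Ω (sc B j i), (badc (T (sc B j i) ω) (thr (sc B j i)) (Q j)).card :=
          card_biUnion_le.trans (sum_le_sum fun i _ => card_biUnion_le)
        exact_mod_cast h2
      refine h1.trans ?_
      have h3 : ∀ i ∈ range ((j + 1) ^ B + 1), ∑ ω ∈ Ω (sc B j i),
          ((badc (T (sc B j i) ω) (thr (sc B j i)) (Q j)).card : ℝ) ≤
          ((2 : ℝ) ^ (j + 1)) ^ δ * (K * ((j : ℝ) + 1) ^ B1 * ((2 : ℝ) ^ (j + 1)) ^ θ) := by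
        intro i hi
        have hi' : i ≤ (j + 1) ^ B := by rw [mem_range] at hi; omega
        obtain ⟨hs1, hs2⟩ := sc_bounds B j i hi'
        obtain ⟨h4, -⟩ := hN0 (sc B j i) (hj.trans hs1)
        have hNr : ((sc B j i : ℕ) : ℝ) ≤ 2 ^ (j + 1) := by exact_mod_cast hs2
        calc ∑ ω ∈ Ω (sc B j i), ((badc (T (sc B j i) ω) (thr (sc B j i)) (Q j)).card : ℝ) ≤
            ∑ ω ∈ Ω (sc B j i), K * ((j : ℝ) + 1) ^ B1 * ((2 : ℝ) ^ (j + 1)) ^ θ :=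
              sum_le_sum fun ω hω => hbad j i hj hi' ω hω
          _ = ((Ω (sc B j i)).card : ℝ) * (K * ((j : ℝ) + 1) ^ B1 * ((2 : ℝ) ^ (j + 1)) ^ θ) := by
              rw [sum_const, nsmul_eq_mul]
          _ ≤ ((sc B j i : ℕ) : ℝ) ^ δ * (K * ((j : ℝ) + 1) ^ B1 * ((2 : ℝ) ^ (j + 1)) ^ θ) := by gcongr
          _ ≤ _ := by gcongr
      refine (sum_le_sum h3).trans ?_
      rw [sum_const, card_range, nsmul_eq_mul]
      have e1 : ((2 : ℝ) ^ (j + 1)) ^ δ * ((2 : ℝ) ^ (j + 1)) ^ θ = (2 : ℝ) ^ (δ + θ) * ((2 : ℝ) ^ (δ + θ)) ^ j := by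
        rw [← Real.rpow_add (by positivity), ← pow_succ', ← Real.rpow_natCast, ← Real.rpow_natCast,
          ← Real.rpow_mul (by norm_num), ← Real.rpow_mul (by norm_num), mul_comm]
      have e2 : (((j + 1) ^ B + 1 : ℕ) : ℝ) ≤ 2 * ((j : ℝ) + 1) ^ B := by
        push_cast
        have : (1 : ℝ) ≤ ((j : ℝ) + 1) ^ B := one_le_pow₀ (by linarith [(Nat.cast_nonneg j : (0 : ℝ) ≤ j)])
        linarith
      calc (((j + 1) ^ B + 1 : ℕ) : ℝ) * (((2 : ℝ) ^ (j + 1)) ^ δ * (K * ((j : ℝ) + 1) ^ B1 * ((2 : ℝ) ^ (j + 1)) ^ θ)) ≤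
          (2 * ((j : ℝ) + 1) ^ B) * (((2 : ℝ) ^ (j + 1)) ^ δ * (K * ((j : ℝ) + 1) ^ B1 * ((2 : ℝ) ^ (j + 1)) ^ θ)) := by
            gcongr
        _ = 2 * K * ((j : ℝ) + 1) ^ (B + B1) * (((2 : ℝ) ^ (j + 1)) ^ δ * ((2 : ℝ) ^ (j + 1)) ^ θ) := by
            rw [pow_add]
            ring
        _ = _ := by
            rw [e1]
            ring
    · simp only [card_empty, Nat.cast_zero]
      positivity
  -- the sum over the scales
  have hsum : Summable fun j => ((Z j).card : ℝ) * (1 / (Q j : ℝ)) ^ s := by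
    have hr : (2 : ℝ) ^ (δ + θ - s * (θ + κ)) < 1 := by
      apply Real.rpow_lt_one_of_one_lt_of_neg (by norm_num)
      rw [div_lt_iff₀ hθκ] at hs
      linarith
    refine Summable.of_nonneg_of_le (fun j => by positivity) (fun j => ?_)
      (poly_geo (2 * K * 2 ^ (δ + θ)) (B + B1) (r := (2 : ℝ) ^ (δ + θ - s * (θ + κ))) (by positivity) hr)
    have h1 : (1 / (Q j : ℝ)) ^ s ≤ ((2 : ℝ) ^ (-(s * (θ + κ)))) ^ j := by
      have h2 : (1 : ℝ) / Q j ≤ (((2 : ℝ) ^ j) ^ (θ + κ))⁻¹ := by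
        rw [one_div]
        exact inv_anti₀ (by positivity) (hQlow j)
      refine (Real.rpow_le_rpow (by positivity) h2 hs0.le).trans (le_of_eq ?_)
      rw [← Real.rpow_natCast, ← Real.rpow_natCast, ← Real.rpow_mul (by norm_num), ← Real.rpow_neg (by norm_num),
        ← Real.rpow_mul (by norm_num), ← Real.rpow_mul (by norm_num)]
      congr 1
      ring
    calc ((Z j).card : ℝ) * (1 / (Q j : ℝ)) ^ s ≤
        ((2 * K * 2 ^ (δ + θ)) * ((j : ℝ) + 1) ^ (B + B1) * ((2 : ℝ) ^ (δ + θ)) ^ j) * ((2 : ℝ) ^ (-(s * (θ + κ)))) ^ j := by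
          gcongr
          exact hZcard j
      _ = (2 * K * 2 ^ (δ + θ)) * ((j : ℝ) + 1) ^ (B + B1) * (((2 : ℝ) ^ (δ + θ)) ^ j * ((2 : ℝ) ^ (-(s * (θ + κ)))) ^ j) := by
          ring
      _ = _ := by
          rw [← mul_pow, ← Real.rpow_add (by norm_num)]
          rfl
  have hnull := cover_null hs0 Z Q hQ0 hsum
  refine measure_mono_null ?_ hnull
  rintro u ⟨hu, hnot⟩
  by_contra hcov
  apply hnot
  rw [Set.mem_ofPred_eq, not_frequently] at hcov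
  -- every scale is good for `u`
  have hgood : ∀ᶠ j : ℕ in atTop, ∀ i, i ≤ (j + 1) ^ B → ∀ ω ∈ Ω (sc B j i), ‖T (sc B j i) ω u‖ ≤ thr (sc B j i) := by
    have h2j : Tendsto (fun j : ℕ => 2 ^ j) atTop atTop := tendsto_pow_atTop_atTop_of_one_lt (by norm_num)
    filter_upwards [hcov, h2j.eventually_ge_atTop N0] with j hj1 hj2 i hi ω hω
    by_contra hlt
    rw [not_le] at hlt
    apply hj1
    have hQr : (0 : ℝ) < Q j := by exact_mod_cast hQ0 j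
    obtain ⟨i0, hi0, h1, h2⟩ : ∃ i0, i0 < Q j ∧ (i0 : ℝ) / Q j ≤ u ∧ u ≤ ((i0 : ℝ) + 1) / Q j := by
      rcases hu.2.eq_or_lt with h1 | h1
      · refine ⟨Q j - 1, Nat.sub_lt (hQ0 j) one_pos, ?_, ?_⟩
        · rw [div_le_iff₀ hQr, h1, one_mul]
          exact_mod_cast Nat.sub_le _ _
        · rw [le_div_iff₀ hQr, h1, one_mul]
          have : Q j = (Q j - 1) + 1 := (Nat.sub_add_cancel (hQ0 j)).symm
          exact_mod_cast this.le
      · refine ⟨⌊u * Q j⌋₊, ?_, ?_, ?_⟩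
        · rw [Nat.floor_lt (mul_nonneg hu.1 hQr.le)]
          nlinarith
        · rw [div_le_iff₀ hQr]
          exact Nat.floor_le (mul_nonneg hu.1 hQr.le)
        · rw [le_div_iff₀ hQr]
          exact (Nat.lt_floor_add_one _).le
    refine ⟨i0, ?_, h1, h2⟩
    rw [hZ]
    simp only
    rw [if_pos hj2, mem_biUnion]
    refine ⟨i, mem_range.2 (by omega), ?_⟩
    rw [mem_biUnion]
    refine ⟨ω, hω, ?_⟩
    unfold badc
    rw [mem_filter, mem_range]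
    exact ⟨hi0, u, h1, h2, hlt⟩
  obtain ⟨j1, hj1⟩ := eventually_atTop.1 hgood
  filter_upwards [eventually_ge_atTop (2 ^ j1), eventually_ge_atTop N0,
    (Real.tendsto_log_atTop.comp tendsto_natCast_atTop_atTop).eventually_ge_atTop (3 * θ + 10)] with N hN1 hN2 hN4
  intro ω hω
  simp only [Function.comp] at hN4
  have hNpos : 1 ≤ N := (Nat.one_le_two_pow).trans hN1
  set j := Nat.log 2 N with hj
  have hjN : 2 ^ j ≤ N := Nat.pow_log_le_self 2 (by omega)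
  have hjN2 : N < 2 ^ (j + 1) := Nat.lt_pow_succ_log_self (by norm_num) N
  have hjj : j1 ≤ j := by
    rw [hj]
    exact Nat.le_log_of_pow_le (by norm_num) hN1
  obtain ⟨i, hi, hNN, hdiff⟩ := sc_next B j N hjN hjN2
  obtain ⟨-, hs2⟩ := sc_bounds B j i hi
  set N' := sc B j i with hN'
  have hω' : ω ∈ Ω N' := hΩ hNN hω
  have hT' := hj1 j hjj i hi ω hω'
  obtain ⟨-, h2, -, h5, ⟨hl1, -, -, hcut2, hcut1⟩, hp5⟩ := hN0 N' (hN2.trans hNN)
  obtain ⟨⟨-, -, -, hh, -⟩, hpθ⟩ := h2 ω hω'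
  rw [pow_zero, mul_one, Real.rpow_one] at hp5
  set ℓ := Real.log N with hℓ
  set ℓ' := Real.log N' with hℓ'
  have hN0r : (0 : ℝ) < N := by exact_mod_cast hNpos
  have hNNr : (N : ℝ) ≤ N' := by exact_mod_cast hNN
  have hN'0 : (0 : ℝ) < N' := hN0r.trans_le hNNr
  have hN'1 : (1 : ℝ) ≤ N' := by exact_mod_cast hNpos.trans hNN
  have hll : ℓ ≤ ℓ' := Real.log_le_log hN0r hNNr
  have hl0 : 0 < ℓ := by linarith
  have hl'0 : 0 < ℓ' := by linarith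
  have hN'2 : (N' : ℝ) ≤ 2 * N := by
    have h6 : N' ≤ 2 * N := by
      rw [pow_succ] at hs2
      omega
    exact_mod_cast h6
  have hlog : ℓ' ≤ (j : ℝ) + 1 := by
    have hNr : (N' : ℝ) ≤ 2 ^ (j + 1) := by exact_mod_cast hs2
    have := Real.log_le_log hN'0 hNr
    rw [Real.log_pow] at this
    push_cast at this
    nlinarith [Real.log_two_lt_d9, (Nat.cast_nonneg j : (0 : ℝ) ≤ j)]
  set H : ℝ := (θ + 2) * ℓ' with hH
  have hH0 : 0 ≤ H := by positivity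
  set g : ℕ → ℂ := fun n => h ω ⌊Real.exp (b + u) * p ω n⌋₊ with hg
  have hgb : ∀ n, n ≤ N' → ‖g n‖ ≤ H := by
    intro n hn
    refine hh _ ?_
    have h6 : ((⌊Real.exp (b + u) * p ω n⌋₊ : ℕ) : ℝ) ≤ Real.exp (b + 1) * (N' : ℝ) ^ θ := by
      rcases le_total 0 (p ω n) with h7 | h7
      · refine (Nat.floor_le (by positivity)).trans ?_
        have e1 := Real.exp_le_exp.2 (show b + u ≤ b + 1 by linarith [hu.2])
        have e2 := hpθ n hn
        gcongr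
      · have h8 : Real.exp (b + u) * p ω n ≤ 0 := mul_nonpos_of_nonneg_of_nonpos (Real.exp_pos _).le h7
        rw [Nat.floor_of_nonpos h8, Nat.cast_zero]
        positivity
    refine h6.trans ?_
    rw [Real.rpow_add hN'0, Real.rpow_one]
    calc Real.exp (b + 1) * (N' : ℝ) ^ θ ≤ N' * (N' : ℝ) ^ θ := by
          gcongr
          linarith
      _ = (N' : ℝ) ^ θ * N' := mul_comm _ _
  have hcutN : cut B N' ≤ N' := hcut1
  have hIcc : ∀ M : ℕ, Icc 1 M = Ioc 0 M := by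
    intro M
    ext n
    rw [mem_Icc, mem_Ioc]
    omega
  have e1 : ∑ n ∈ Icc 1 N', g n = ∑ n ∈ Icc 1 N, g n + ∑ n ∈ Ioc N N', g n := by
    rw [hIcc, hIcc, sum_Ioc_consecutive _ (Nat.zero_le _) hNN]
  have e2 : ∑ n ∈ Icc 1 N', g n = ∑ n ∈ Icc 1 (cut B N'), g n + T N' ω u := by
    have h6 : T N' ω u = ∑ n ∈ Ioc (cut B N') N', g n := rfl
    rw [h6, hIcc, hIcc, sum_Ioc_consecutive _ (Nat.zero_le _) hcutN]
  have e3 : ‖∑ n ∈ Icc 1 (cut B N'), g n‖ ≤ (N' / ℓ' ^ B) * H := by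
    calc ‖∑ n ∈ Icc 1 (cut B N'), g n‖ ≤ ∑ n ∈ Icc 1 (cut B N'), H :=
          (norm_sum_le _ _).trans (sum_le_sum fun n hn => hgb n ((mem_Icc.1 hn).2.trans hcutN))
      _ = (cut B N' : ℝ) * H := by simp
      _ ≤ _ := mul_le_mul_of_nonneg_right hcut2 hH0
  have e4 : ‖∑ n ∈ Ioc N N', g n‖ ≤ (N / ℓ' ^ B) * H := by
    calc ‖∑ n ∈ Ioc N N', g n‖ ≤ ∑ n ∈ Ioc N N', H :=
          (norm_sum_le _ _).trans (sum_le_sum fun n hn => hgb n (mem_Ioc.1 hn).2)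
      _ = ((N' : ℝ) - N) * H := by
          rw [sum_const, Nat.card_Ioc, nsmul_eq_mul, Nat.cast_sub hNN]
      _ ≤ _ := by
          apply mul_le_mul_of_nonneg_right _ hH0
          rw [le_div_iff₀ (by positivity)]
          have h6 : (2 : ℝ) ^ j ≤ N := by exact_mod_cast hjN
          have h7 : ℓ' ^ B ≤ ((j : ℝ) + 1) ^ B := by gcongr
          calc ((N' : ℝ) - N) * ℓ' ^ B ≤ ((N' : ℝ) - N) * ((j : ℝ) + 1) ^ B :=
                mul_le_mul_of_nonneg_left h7 (by linarith)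
            _ ≤ 2 ^ j := hdiff
            _ ≤ N := h6
  have e5 : ‖∑ n ∈ Icc 1 N, g n‖ ≤ (N' / ℓ' ^ B) * H + thr N' + (N / ℓ' ^ B) * H := by
    have h6 : ∑ n ∈ Icc 1 N, g n = ∑ n ∈ Icc 1 (cut B N'), g n + T N' ω u - ∑ n ∈ Ioc N N', g n := by
      rw [← e2, e1]
      ring
    rw [h6]
    refine (norm_sub_le _ _).trans (add_le_add ((norm_add_le _ _).trans (add_le_add e3 hT')) e4)
  refine e5.trans ?_
  have hAl : 0 < ℓ' ^ A := by positivity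
  have hN4' : 3 * θ + 10 ≤ ℓ' := hN4.trans hll
  calc (N' / ℓ' ^ B) * H + thr N' + (N / ℓ' ^ B) * H =
      ((N' / ℓ' ^ A) * ((θ + 2) / ℓ') + 2 * (N' / ℓ' ^ A) + (N / ℓ' ^ A) * ((θ + 2) / ℓ')) / ℓ' := by
        rw [hH, hthr, hB]
        simp only
        rw [← hℓ', pow_succ, pow_succ, pow_succ]
        field_simp
    _ ≤ ((2 * N / ℓ' ^ A) * (θ + 2) + 2 * (2 * N / ℓ' ^ A) + (N / ℓ' ^ A) * (θ + 2)) / ℓ' := by
        have h6 : (θ + 2) / ℓ' ≤ θ + 2 := div_le_self (by linarith) hl1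
        have h7 : N' / ℓ' ^ A ≤ 2 * N / ℓ' ^ A := by gcongr
        have h8 : 0 ≤ (θ + 2) / ℓ' := by positivity
        gcongr
    _ = (N / ℓ' ^ A) * ((3 * θ + 10) / ℓ') := by
        field_simp
        ring
    _ ≤ (N / ℓ' ^ A) * 1 := by
        apply mul_le_mul_of_nonneg_left _ (by positivity)
        rw [div_le_one hl'0]
        exact hN4'
    _ = N / ℓ' ^ A := mul_one _
    _ ≤ N / ℓ ^ A := by gcongr

end Pool.Agent.Q138.PS
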