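import Pool.Agent.Q138.PS.PK
import Pool.Agent.Q138.Met.Exc

set_option autoImplicit false

/-!
# The dimension of the set of exceptional dilations
-/

namespace Pool.Agent.Q138.PS

open Finset MeasureTheory Filter Topology
open scoped ENNReal NNReal
open Pool.Agent.Q138.GS

/-- **the exceptional dilations of a family have small Hausdorff dimension** -/
theorem dim_main {ι : Type} (c C : ℝ) (hc : 0 < c) (hC : 0 < C) (d : ℕ) (hd : 2 ≤ d) (θ κ ε δ : ℝ)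
    (hκ0 : 0 < κ) (hκ1 : κ ≤ kp d) (hκ2 : κ ≤ kp d + d - θ) (hε : 0 < ε) (hθ : 0 ≤ θ) (hδ : 0 ≤ δ)
    (Ω : ℕ → Finset ι) (hΩ : Monotone Ω) (p : ι → ℕ → ℝ) (h : ι → ℕ → ℂ)
    (hcard : ∀ᶠ N : ℕ in atTop, ((Ω N).card : ℝ) ≤ (N : ℝ) ^ δ)
    (hreg : ∀ (A : ℕ) (b : ℝ), ∀ᶠ N : ℕ in atTop, ∀ ω ∈ Ω N, AdS c C d (A + 3) (A + 2) b θ ε N (p ω) (h ω)) :
    dimH {α : ℝ | 0 < α ∧ ¬ ∀ A : ℕ, ∀ᶠ N : ℕ in atTop, ∀ ω ∈ Ω N,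
      ‖∑ n ∈ Icc 1 N, h ω ⌊α * p ω n⌋₊‖ ≤ (N : ℝ) / (Real.log N) ^ A} ≤ ENNReal.ofReal ((θ + δ) / (θ + κ)) := by
  set s0 : ℝ := (θ + δ) / (θ + κ) with hs0
  have hs00 : 0 ≤ s0 := by positivity
  set E : ℕ → ℤ → Set ℝ := fun A b => {u : ℝ | u ∈ Set.Icc (0 : ℝ) 1 ∧ ¬ ∀ᶠ N : ℕ in atTop, ∀ ω ∈ Ω N,
      ‖∑ n ∈ Icc 1 N, h ω ⌊Real.exp ((b : ℝ) + u) * p ω n⌋₊‖ ≤ (N : ℝ) / (Real.log N) ^ A} with hE
  have hEd : ∀ A b, dimH (E A b) ≤ ENNReal.ofReal s0 := by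
    intro A b
    refine Pool.Agent.Q138.Met.dimH_le_of_null hs00 fun s hs => ?_
    exact unit_null c C hc hC d hd A b θ κ ε δ hκ0 hκ1 hκ2 hε hθ hδ Ω hΩ p h hcard (hreg A b) hs
  have hsub : {α : ℝ | 0 < α ∧ ¬ ∀ A : ℕ, ∀ᶠ N : ℕ in atTop, ∀ ω ∈ Ω N,
      ‖∑ n ∈ Icc 1 N, h ω ⌊α * p ω n⌋₊‖ ≤ (N : ℝ) / (Real.log N) ^ A} ⊆
      ⋃ q : ℕ × ℤ, (fun u : ℝ => Real.exp ((q.2 : ℝ) + u)) '' (E q.1 q.2) := by
    rintro α ⟨hα, hnot⟩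
    rw [not_forall] at hnot
    obtain ⟨A, hA⟩ := hnot
    refine Set.mem_iUnion.2 ⟨(A, ⌊Real.log α⌋), Int.fract (Real.log α), ⟨⟨Int.fract_nonneg _, (Int.fract_lt_one _).le⟩, ?_⟩, ?_⟩
    · have e : Real.exp (((⌊Real.log α⌋ : ℤ) : ℝ) + Int.fract (Real.log α)) = α := by
        rw [Int.floor_add_fract, Real.exp_log hα]
      rw [e]
      exact hA
    · change Real.exp (((⌊Real.log α⌋ : ℤ) : ℝ) + Int.fract (Real.log α)) = α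
      rw [Int.floor_add_fract, Real.exp_log hα]
  refine (dimH_mono hsub).trans ?_
  rw [dimH_iUnion]
  refine iSup_le fun q => ?_
  have hcd : ContDiffOn ℝ 1 (fun u : ℝ => Real.exp ((q.2 : ℝ) + u)) Set.univ := by
    apply ContDiff.contDiffOn
    fun_prop
  exact (hcd.dimH_image_le convex_univ (Set.subset_univ _)).trans (hEd q.1 q.2)

end Pool.Agent.Q138.PS
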