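import Pool.Agent.Q138.GS.Smv
import Pool.Agent.Q138.GS.VG

set_option autoImplicit false

/-!
# Regularity of the logarithm of a polynomial, uniformly in the polynomial
-/

namespace Pool.Agent.Q138.PS

open Finset MeasureTheory Filter Topology
open Pool.Agent.Q138.GS

theorem near_one (R : ℕ) : ∃ δ : ℝ, 0 < δ ∧ δ ≤ 1 / 2 ∧ ∀ r, r ≤ R → ∀ z : ℂ, ‖z‖ ≤ δ →
    ‖((1 - z) ^ (r + 1))⁻¹ - 1‖ ≤ 1 / 2 := by
  induction R with
  | zero =>
    have hc : ContinuousAt (fun z : ℂ => ((1 - z) ^ (0 + 1))⁻¹) 0 := by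
      apply ContinuousAt.inv₀
      · fun_prop
      · simp
    obtain ⟨δ, hδ, h⟩ := Metric.continuousAt_iff.1 hc (1 / 2) (by norm_num)
    refine ⟨min (δ / 2) (1 / 2), by positivity, min_le_right _ _, fun r hr z hz => ?_⟩
    obtain rfl : r = 0 := by omega
    have h1 : dist z 0 < δ := by
      rw [dist_zero_right]
      exact (hz.trans (min_le_left _ _)).trans_lt (by linarith)
    have h2 := h h1
    simp only [sub_zero, one_pow, inv_one] at h2
    rw [dist_eq_norm] at h2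
    exact h2.le
  | succ R ih =>
    obtain ⟨δ1, h1, h1', h2⟩ := ih
    have hc : ContinuousAt (fun z : ℂ => ((1 - z) ^ (R + 1 + 1))⁻¹) 0 := by
      apply ContinuousAt.inv₀
      · fun_prop
      · simp
    obtain ⟨δ, hδ, h⟩ := Metric.continuousAt_iff.1 hc (1 / 2) (by norm_num)
    refine ⟨min (δ / 2) δ1, by positivity, (min_le_right _ _).trans h1', fun r hr z hz => ?_⟩
    rcases Nat.lt_or_ge r (R + 1) with h3 | h3
    · exact h2 r (by omega) z (hz.trans (min_le_right _ _))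
    · obtain rfl : r = R + 1 := by omega
      have h1 : dist z 0 < δ := by
        rw [dist_zero_right]
        exact (hz.trans (min_le_left _ _)).trans_lt (by linarith)
      have h2 := h h1
      simp only [sub_zero, one_pow, inv_one] at h2
      rw [dist_eq_norm] at h2
      exact h2.le

/-- the derivatives of the logarithm of a polynomial away from the roots -/
theorem pol_deriv {P : Polynomial ℝ} (hP0 : P ≠ 0) {x : ℝ}
    (haway : ∀ ρ ∈ (P.map (algebraMap ℝ ℂ)).roots, (x : ℂ) - ρ ≠ 0) (r : ℕ) :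
    HasDerivAt (pol P r) (pol P (r + 1) x) x := by
  classical
  set Q := P.map (algebraMap ℝ ℂ) with hQ
  have hQ0 : Q ≠ 0 := (Polynomial.map_ne_zero_iff (algebraMap ℝ ℂ).injective).2 hP0
  have hev : ∀ x : ℝ, Q.eval (x : ℂ) = ((P.eval x : ℝ) : ℂ) := ev_map P
  rcases Nat.eq_zero_or_pos r with rfl | hr
  · have e0 : pol P 0 = fun y => Real.log (P.eval y) := by
      funext y
      simp [pol]
    have hne : Q.eval (x : ℂ) ≠ 0 := by
      intro h0
      have h1 : (x : ℂ) ∈ Q.roots := (Polynomial.mem_roots hQ0).2 h0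
      exact haway _ h1 (sub_self _)
    have hne' : P.eval x ≠ 0 := by
      intro h0
      rw [hev, h0] at hne
      simp at hne
    rw [e0]
    have h1 := (P.hasDerivAt x).log hne'
    have h2 := (IsAlgClosed.splits Q).eval_derivative_div_eval_of_ne_zero hne
    have h3 : Q.derivative.eval (x : ℂ) = ((P.derivative.eval x : ℝ) : ℂ) := by
      rw [hQ, Polynomial.derivative_map]
      exact ev_map P.derivative x
    have h4 : pol P (0 + 1) x = P.derivative.eval x / P.eval x := by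
      rw [pol_succ]
      have e : (fun ρ : ℂ => (-1 : ℂ) ^ 0 * (Nat.factorial 0 : ℂ) / ((x : ℂ) - ρ) ^ (0 + 1)) =
          fun ρ => 1 / ((x : ℂ) - ρ) := by
        funext ρ
        simp
      rw [e, ← h2, h3, hev, ← Complex.ofReal_div, Complex.ofReal_re]
    rw [h4]
    exact h1
  · obtain ⟨s, rfl⟩ := Nat.exists_eq_add_of_le' hr
    have e : pol P (s + 1) = fun y : ℝ => ((Q.roots.map fun ρ : ℂ =>
        (-1 : ℂ) ^ s * (s.factorial : ℂ) * (((y : ℂ) - ρ) ^ (s + 1))⁻¹).sum).re := by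
      funext y
      rw [pol_succ]
      simp only [div_eq_mul_inv]
      rfl
    have h1 := ms_deriv Q.roots (fun ρ z => (-1 : ℂ) ^ s * (s.factorial : ℂ) * ((z - ρ) ^ (s + 1))⁻¹)
      (fun ρ => (-1 : ℂ) ^ (s + 1) * ((s + 1).factorial : ℂ) / ((x : ℂ) - ρ) ^ (s + 1 + 1)) (x : ℂ) (by
        intro ρ hρ
        have hne := haway ρ hρ
        have h2 := ((((hasDerivAt_id (x : ℂ)).sub_const ρ).fun_pow (s + 1)).fun_inv
          (pow_ne_zero _ hne)).const_mul ((-1 : ℂ) ^ s * (s.factorial : ℂ))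
        have e1 : (-1 : ℂ) ^ (s + 1) * ((s + 1).factorial : ℂ) / ((x : ℂ) - ρ) ^ (s + 1 + 1) =
            (-1) ^ s * (s.factorial : ℂ) *
              (-(((s + 1 : ℕ) : ℂ) * (id (x : ℂ) - ρ) ^ (s + 1 - 1) * 1) / ((id (x : ℂ) - ρ) ^ (s + 1)) ^ 2) := by
          rw [Nat.factorial_succ]
          push_cast
          simp only [id]
          field_simp
          ring
        rw [e1]
        exact h2)
    rw [e, pol_succ]
    exact h1.real_of_complex

theorem ms_re (s : Multiset ℂ) (f : ℂ → ℂ) {lo hi : ℝ} (h : ∀ ρ ∈ s, lo ≤ (f ρ).re ∧ (f ρ).re ≤ hi) :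
    (Multiset.card s : ℝ) * lo ≤ ((s.map f).sum).re ∧ ((s.map f).sum).re ≤ (Multiset.card s : ℝ) * hi := by
  induction s using Multiset.induction_on with
  | empty => simp
  | cons b t ih =>
    obtain ⟨h1, h2⟩ := ih fun ρ hρ => h ρ (Multiset.mem_cons_of_mem hρ)
    obtain ⟨h3, h4⟩ := h b (Multiset.mem_cons_self b t)
    simp only [Multiset.map_cons, Multiset.sum_cons, Multiset.card_cons, Complex.add_re]
    push_cast
    constructor <;> nlinarith

/-- **regularity, uniformly in the polynomial** -/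
theorem reg_roots (q R : ℕ) (hq : 1 ≤ q) : ∃ M : ℝ, 2 ≤ M ∧ ∀ (P : Polynomial ℝ), P.natDegree = q → P ≠ 0 →
    ∀ (r0 x0 : ℝ), 0 < r0 → (∀ ρ ∈ (P.map (algebraMap ℝ ℂ)).roots, ‖ρ‖ ≤ r0) → M * r0 ≤ x0 →
    RegU (pol P) R x0 (1 / 2) (2 * q * (R.factorial : ℝ)) := by
  obtain ⟨δ, hδ, hδ2, hnear⟩ := near_one R
  refine ⟨1 / δ, by rw [le_div_iff₀ hδ]; linarith, ?_⟩
  intro P hdeg hP0 r0 x0 hr0 hroots hx0 r hr x hx
  have hx0' : 0 < x0 := lt_of_lt_of_le (by positivity) hx0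
  have hxp : 0 < x := hx0'.trans_le hx
  set Q := P.map (algebraMap ℝ ℂ) with hQ
  have hcard : Multiset.card Q.roots = P.natDegree :=
    IsAlgClosed.card_roots_map_eq_natDegree_from_simpleRing (algebraMap ℝ ℂ) P
  have hxc : (x : ℂ) ≠ 0 := by exact_mod_cast hxp.ne'
  have hsmall : ∀ ρ ∈ Q.roots, ‖ρ / x‖ ≤ δ := by
    intro ρ hρ
    rw [norm_div, Complex.norm_real, Real.norm_eq_abs, abs_of_pos hxp, div_le_iff₀ hxp]
    have h1 := hroots ρ hρ
    have h2 : r0 ≤ δ * x := by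
      have h3 : 1 / δ * r0 ≤ x := hx0.trans hx
      rw [div_mul_eq_mul_div, one_mul, div_le_iff₀ hδ] at h3
      linarith
    linarith
  have haway : ∀ ρ ∈ Q.roots, (x : ℂ) - ρ ≠ 0 := by
    intro ρ hρ h0
    have h1 := hsmall ρ hρ
    have h2 : ρ = x := (sub_eq_zero.1 h0).symm
    rw [h2, div_self hxc, norm_one] at h1
    linarith
  refine ⟨pol_deriv hP0 haway r, ?_⟩
  have hval : (-1) ^ r * pol P (r + 1) x = (r.factorial : ℝ) / x ^ (r + 1) *
      ((Q.roots.map fun ρ : ℂ => ((1 - ρ / x) ^ (r + 1))⁻¹).sum).re := by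
    rw [pol_succ]
    have e1 : (fun ρ : ℂ => (-1 : ℂ) ^ r * (r.factorial : ℂ) / ((x : ℂ) - ρ) ^ (r + 1)) =
        fun ρ : ℂ => (((-1) ^ r * ((r.factorial : ℝ) / x ^ (r + 1)) : ℝ) : ℂ) * ((1 - ρ / x) ^ (r + 1))⁻¹ := by
      funext ρ
      have e2 : (1 : ℂ) - ρ / x = ((x : ℂ) - ρ) / x := by field_simp
      rw [e2, div_pow, inv_div]
      push_cast
      field_simp
    rw [e1, Multiset.sum_map_mul_left, Complex.re_ofReal_mul, ← mul_assoc, ← mul_assoc, ← mul_pow,
      show ((-1 : ℝ) * -1) = 1 by norm_num, one_pow, one_mul]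
  have hb : (Multiset.card Q.roots : ℝ) * (1 / 2) ≤ ((Q.roots.map fun ρ : ℂ => ((1 - ρ / x) ^ (r + 1))⁻¹).sum).re ∧
      ((Q.roots.map fun ρ : ℂ => ((1 - ρ / x) ^ (r + 1))⁻¹).sum).re ≤ (Multiset.card Q.roots : ℝ) * (3 / 2) := by
    refine ms_re _ _ fun ρ hρ => ?_
    have h1 := hnear r hr _ (hsmall ρ hρ)
    have h2 := (Complex.abs_re_le_norm _).trans h1
    rw [Complex.sub_re, Complex.one_re, abs_le] at h2
    constructor <;> linarith [h2.1, h2.2]
  rw [hcard, hdeg] at hb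
  have hq' : (1 : ℝ) ≤ q := by exact_mod_cast hq
  have hf1 : (1 : ℝ) ≤ r.factorial := by exact_mod_cast Nat.succ_le_of_lt (Nat.factorial_pos r)
  have hf2 : (r.factorial : ℝ) ≤ R.factorial := by exact_mod_cast Nat.factorial_le hr
  have hxr : 0 < x ^ (r + 1) := by positivity
  rw [hval]
  constructor
  · calc (1 / 2 : ℝ) / x ^ (r + 1) = 1 / x ^ (r + 1) * (1 * (1 / 2)) := by ring
      _ ≤ (r.factorial : ℝ) / x ^ (r + 1) * (q * (1 / 2)) := by gcongr
      _ ≤ _ := by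
          gcongr
          exact hb.1
  · calc _ ≤ (r.factorial : ℝ) / x ^ (r + 1) * (q * (3 / 2)) := by
          gcongr
          exact hb.2
      _ ≤ (R.factorial : ℝ) / x ^ (r + 1) * (q * 2) := by
          gcongr
          norm_num
      _ = _ := by ring

theorem poly_roots {q : ℕ} {P : Polynomial ℝ} (hdeg : P.natDegree = q) (hlead : 1 ≤ P.leadingCoeff)
    {H : ℝ} (hH : 1 ≤ H) (hco : ∀ i, |P.coeff i| ≤ H) : ∀ ρ ∈ (P.map (algebraMap ℝ ℂ)).roots, ‖ρ‖ ≤ 2 * H := by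
  intro ρ hρ
  have hP0 : P ≠ 0 := by
    rintro rfl
    simp at hlead
    linarith
  set Q := P.map (algebraMap ℝ ℂ) with hQ
  have hQ0 : Q ≠ 0 := (Polynomial.map_ne_zero_iff (algebraMap ℝ ℂ).injective).2 hP0
  have h1 := ((Polynomial.mem_roots hQ0).1 hρ).norm_lt_cauchyBound hQ0
  have h1' : ‖ρ‖ ≤ ((Polynomial.cauchyBound Q : NNReal) : ℝ) := by
    have := NNReal.coe_le_coe.2 h1.le
    rwa [coe_nnnorm] at this
  refine h1'.trans ?_
  unfold Polynomial.cauchyBound
  have hl : Q.leadingCoeff = ((P.leadingCoeff : ℝ) : ℂ) := by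
    rw [hQ, Polynomial.leadingCoeff_map]
    rfl
  have h2 : (range Q.natDegree).sup (fun i => ‖Q.coeff i‖₊) ≤ H.toNNReal := by
    refine Finset.sup_le fun i _ => ?_
    rw [← NNReal.coe_le_coe, coe_nnnorm, Real.coe_toNNReal _ (by linarith), hQ, Polynomial.coeff_map]
    change ‖((P.coeff i : ℝ) : ℂ)‖ ≤ H
    rw [Complex.norm_real]
    exact hco i
  have h3 : ((((range Q.natDegree).sup (fun i => ‖Q.coeff i‖₊) / ‖Q.leadingCoeff‖₊ + 1 : NNReal)) : ℝ) ≤ H / 1 + 1 := by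
    push_cast
    have h4 : (1 : ℝ) ≤ ‖Q.leadingCoeff‖ := by
      rw [hl, Complex.norm_real, Real.norm_eq_abs, abs_of_pos (by linarith)]
      exact hlead
    have h5 : (((range Q.natDegree).sup (fun i => ‖Q.coeff i‖₊) : NNReal) : ℝ) ≤ H := by
      have := NNReal.coe_le_coe.2 h2
      rwa [Real.coe_toNNReal _ (by linarith)] at this
    gcongr
  refine h3.trans ?_
  linarith

theorem poly_low {q : ℕ} {P : Polynomial ℝ} (hdeg : P.natDegree = q) (hlead : 1 ≤ P.leadingCoeff)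
    {H : ℝ} (hH : 1 ≤ H) (hco : ∀ i, |P.coeff i| ≤ H) {x : ℝ} (hx : 4 * H ≤ x) : x ^ q / 2 ≤ P.eval x := by
  rw [Polynomial.eval_eq_sum_range, hdeg, sum_range_succ]
  have hx1 : 2 * H ≤ x - 1 := by linarith
  have hx0 : 0 < x := by linarith
  have h1 : |∑ i ∈ range q, P.coeff i * x ^ i| ≤ H * ∑ i ∈ range q, x ^ i := by
    rw [mul_sum]
    refine (abs_sum_le_sum_abs _ _).trans (sum_le_sum fun i _ => ?_)
    rw [abs_mul, abs_of_pos (pow_pos hx0 i)]
    exact mul_le_mul_of_nonneg_right (hco i) (by positivity)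
  have h2 : (∑ i ∈ range q, x ^ i) * (x - 1) = x ^ q - 1 := geom_sum_mul x q
  have h3 : 0 ≤ ∑ i ∈ range q, x ^ i := sum_nonneg fun i _ => by positivity
  have h4 : H * ∑ i ∈ range q, x ^ i ≤ x ^ q / 2 := by nlinarith
  have h5 : x ^ q ≤ P.coeff q * x ^ q := by
    have : 1 ≤ P.coeff q := by
      rw [← hdeg]
      exact hlead
    exact le_mul_of_one_le_left (by positivity) this
  have h6 := (abs_le.1 (h1.trans h4)).1
  linarith

theorem poly_up {q : ℕ} {P : Polynomial ℝ} (hdeg : P.natDegree = q) {H : ℝ} (hH : 0 ≤ H)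
    (hco : ∀ i, |P.coeff i| ≤ H) {x X : ℝ} (hx0 : 0 ≤ x) (hx : x ≤ X) (hX : 1 ≤ X) : P.eval x ≤ (q + 1) * H * X ^ q := by
  rw [Polynomial.eval_eq_sum_range, hdeg]
  calc ∑ i ∈ range (q + 1), P.coeff i * x ^ i ≤ ∑ i ∈ range (q + 1), H * X ^ q := by
        refine sum_le_sum fun i hi => ?_
        rw [mem_range] at hi
        have h1 : x ^ i ≤ X ^ i := pow_le_pow_left₀ hx0 hx i
        have h2 : X ^ i ≤ X ^ q := pow_le_pow_right₀ hX (by omega)
        have h3 : P.coeff i ≤ H := (le_abs_self _).trans (hco i)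
        calc P.coeff i * x ^ i ≤ H * x ^ i := mul_le_mul_of_nonneg_right h3 (by positivity)
          _ ≤ H * X ^ q := mul_le_mul_of_nonneg_left (h1.trans h2) hH
    _ = _ := by
        rw [sum_const, card_range, nsmul_eq_mul]
        push_cast
        ring

end Pool.Agent.Q138.PS
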