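import Pool.Agent.Q138.PS.PL
import Pool.Agent.Q138.PS.PM
import Pool.Agent.Q138.GS.Std

set_option autoImplicit false

/-!
# Polynomials: admissibility and the dimension of the exceptional set
-/

namespace Pool.Agent.Q138.PS

open Finset MeasureTheory Filter Topology
open scoped ENNReal NNReal
open Pool.Agent.Q138.GS
open Pool.Agent.Y957.VK (Neg)

/-- uniform cancellation in a family of functions -/
def UCan {ι : Type} (h : ι → ℕ → ℂ) : Prop := ∀ A : ℕ, ∃ y0 : ℝ, ∀ ω y, y0 ≤ y → ‖Pr (h ω) y‖ ≤ y / (Real.log y) ^ A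

theorem ucan_neg {ι : Type} {h : ℕ → ℂ} (hh : ∀ m : ℕ, ‖h m‖ ≤ Real.log ((m : ℝ) + 3)) (hN : Neg h) :
    UCan (fun _ : ι => h) := by
  intro A
  obtain ⟨C, hC⟩ := hN 0 (A + 1)
  set C' : ℝ := max C 0 with hC'
  have hC'0 : 0 ≤ C' := le_max_right _ _
  have hsum : ∀ n : ℕ, 2 ≤ n → ‖∑ m ∈ Icc 1 n, h m‖ ≤ C' * n / (Real.log n) ^ (A + 1) := by
    intro n hn
    have h1 := hC n 0 hn (by simp)
    have h2 : ∑ m ∈ Icc 1 n, h m * Pool.Agent.H376R2.MR.er 0 (Real.log m) = ∑ m ∈ Icc 1 n, h m := by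
      refine sum_congr rfl fun m _ => ?_
      unfold Pool.Agent.H376R2.MR.er
      simp
    rw [h2] at h1
    refine h1.trans ?_
    have : 0 ≤ Real.log n := Real.log_natCast_nonneg n
    gcongr
    exact le_max_left _ _
  have hev : ∀ᶠ y : ℝ in atTop, 8 ≤ y ∧ 2 * C' * 2 ^ (A + 1) ≤ Real.log y ∧ 8 * (Real.log y) ^ A ≤ y ^ (1 / 2 : ℝ) := by
    have h1 := Real.tendsto_log_atTop.eventually_ge_atTop (2 * C' * 2 ^ (A + 1))
    have h2 : ∀ᶠ y : ℝ in atTop, 8 * (Real.log y) ^ A ≤ y ^ (1 / 2 : ℝ) := by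
      have h3 : (fun y : ℝ => Real.log y ^ A) =o[atTop] fun y => y ^ (1 / 2 : ℝ) := by
        have := isLittleO_log_rpow_rpow_atTop (A : ℝ) (show (0 : ℝ) < 1 / 2 by norm_num)
        refine this.congr_left fun y => ?_
        exact Real.rpow_natCast _ _
      have h4 := h3.bound (show (0 : ℝ) < 1 / 8 by norm_num)
      filter_upwards [h4, eventually_ge_atTop 1] with y hy hy1
      rw [Real.norm_eq_abs, Real.norm_eq_abs, abs_of_nonneg (pow_nonneg (Real.log_nonneg hy1) _),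
        abs_of_nonneg (by positivity)] at hy
      linarith
    filter_upwards [eventually_ge_atTop 8, h1, h2] with y a b c using ⟨a, b, c⟩
  obtain ⟨y0, hy0⟩ := eventually_atTop.1 hev
  refine ⟨y0, fun ω y hy => ?_⟩
  obtain ⟨hy8, hy1, hy2⟩ := hy0 y hy
  have hyp : 0 < y := by linarith
  set n := ⌊y⌋₊ with hn
  have hny : (n : ℝ) ≤ y := Nat.floor_le hyp.le
  have hyn : y < n + 1 := Nat.lt_floor_add_one y
  have hn8 : 8 ≤ n := Nat.le_floor (by exact_mod_cast hy8)
  have hly : 0 < Real.log y := Real.log_pos (by linarith)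
  have hD : ‖h n‖ ≤ Real.log (y + 3) := (hh n).trans (Real.log_le_log (by positivity) (by linarith))
  have h1 := Pr_le h hyp.le hD
  rw [← hn] at h1
  have h2 : ∑ m ∈ range n, h m = h 0 + ∑ m ∈ Icc 1 (n - 1), h m := by
    have h3 : range n = insert 0 (Icc 1 (n - 1)) := by
      ext m
      simp only [mem_range, mem_insert, mem_Icc]
      omega
    rw [h3, sum_insert (by simp)]
  have h3 : ‖h 0‖ ≤ Real.log (y + 3) := (hh 0).trans (Real.log_le_log (by norm_num) (by push_cast; linarith))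
  have h4 := hsum (n - 1) (by omega)
  have hn1 : (((n - 1 : ℕ)) : ℝ) = n - 1 := by
    rw [Nat.cast_sub (by omega)]
    simp
  have h5 : (1 / 2) * Real.log y ≤ Real.log ((n - 1 : ℕ) : ℝ) := by
    have h6 : y ^ (1 / 2 : ℝ) ≤ ((n - 1 : ℕ) : ℝ) := by
      rw [hn1]
      have h7 : y ^ (1 / 2 : ℝ) * y ^ (1 / 2 : ℝ) = y := by
        rw [← Real.rpow_add hyp]
        norm_num
      have h8 : 0 < y ^ (1 / 2 : ℝ) := by positivity
      have h9 : (2 : ℝ) ≤ y ^ (1 / 2 : ℝ) := by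
        by_contra hcon
        rw [not_le] at hcon
        nlinarith
      nlinarith
    have h7 := Real.log_le_log (by positivity) h6
    rwa [Real.log_rpow hyp] at h7
  have h6 : ‖∑ m ∈ Icc 1 (n - 1), h m‖ ≤ (1 / 2) * (y / (Real.log y) ^ A) := by
    refine h4.trans ?_
    calc C' * ((n - 1 : ℕ) : ℝ) / Real.log ((n - 1 : ℕ) : ℝ) ^ (A + 1) ≤ C' * y / ((1 / 2) * Real.log y) ^ (A + 1) := by
          gcongr
          rw [hn1]
          linarith
      _ = (y / (Real.log y) ^ A) * ((C' * 2 ^ (A + 1)) / Real.log y) := by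
          rw [mul_pow, one_div, inv_pow, pow_succ (Real.log y)]
          field_simp
      _ ≤ (y / (Real.log y) ^ A) * (1 / 2) := by
          apply mul_le_mul_of_nonneg_left _ (by positivity)
          rw [div_le_div_iff₀ hly (by norm_num)]
          linarith
      _ = _ := mul_comm _ _
  have h7 : 2 * Real.log (y + 3) ≤ (1 / 2) * (y / (Real.log y) ^ A) := by
    have h8 : Real.log (y + 3) ≤ 2 * y ^ (1 / 2 : ℝ) := by
      have h9 := Real.add_one_le_exp (y ^ (1 / 2 : ℝ))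
      have h10 : y + 3 ≤ Real.exp (2 * y ^ (1 / 2 : ℝ)) := by
        have h11 : Real.exp (2 * y ^ (1 / 2 : ℝ)) = Real.exp (y ^ (1 / 2 : ℝ)) * Real.exp (y ^ (1 / 2 : ℝ)) := by
          rw [← Real.exp_add]
          congr 1
          ring
        have h12 : y ^ (1 / 2 : ℝ) * y ^ (1 / 2 : ℝ) = y := by
          rw [← Real.rpow_add hyp]
          norm_num
        have h13 : 0 < y ^ (1 / 2 : ℝ) := by positivity
        have h14 : (2 : ℝ) ≤ y ^ (1 / 2 : ℝ) := by
          by_contra hcon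
          rw [not_le] at hcon
          nlinarith
        rw [h11]
        nlinarith
      rw [Real.log_le_iff_le_exp (by linarith)]
      exact h10
    have h12 : y ^ (1 / 2 : ℝ) * y ^ (1 / 2 : ℝ) = y := by
      rw [← Real.rpow_add hyp]
      norm_num
    have h13 : 0 < y ^ (1 / 2 : ℝ) := by positivity
    have h14 : 8 * y ^ (1 / 2 : ℝ) ≤ y / (Real.log y) ^ A := by
      rw [le_div_iff₀ (by positivity)]
      calc 8 * y ^ (1 / 2 : ℝ) * Real.log y ^ A = y ^ (1 / 2 : ℝ) * (8 * Real.log y ^ A) := by ring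
        _ ≤ y ^ (1 / 2 : ℝ) * y ^ (1 / 2 : ℝ) := by gcongr
        _ = y := h12
    linarith
  rw [h2] at h1
  have h8 := norm_add_le (h 0) (∑ m ∈ Icc 1 (n - 1), h m)
  linarith

/-- size and cancellation at the scale `N` -/
theorem can_ev {ι : Type} {h : ι → ℕ → ℂ} (hh : ∀ ω (m : ℕ), ‖h ω m‖ ≤ Real.log ((m : ℝ) + 3)) (hU : UCan h)
    (k A : ℕ) (b θ ε : ℝ) (hθ : 0 ≤ θ) (hε : 0 < ε) : ∀ᶠ N : ℕ in atTop, ∀ ω (φ : ℕ → ℝ → ℝ),
      (N : ℝ) ^ ε ≤ Real.exp (φ 0 (cut k N)) → CanN k A b θ N φ (h ω) := by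
  obtain ⟨y0, hy0⟩ := hU (A + 1)
  filter_upwards [eventually_ge_atTop 1, pw (Real.exp (-b)) 0 (show 0 < ε / 2 by positivity),
    pw (max y0 2) 0 (show 0 < ε / 2 by positivity), pw 4 0 one_pos,
    (Real.tendsto_log_atTop.comp tendsto_natCast_atTop_atTop).eventually_ge_atTop (1 + (2 / ε) ^ (A + 1))]
    with N hN h1 h2 h3 h4
  intro ω φ hφ
  rw [pow_zero, mul_one] at h1 h2 h3
  rw [Real.rpow_one] at h3
  simp only [Function.comp] at h4
  have hN0 : (0 : ℝ) < N := by exact_mod_cast hN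
  have hN1 : (1 : ℝ) ≤ N := by exact_mod_cast hN
  refine ⟨fun m hm => (hh ω m).trans ?_, fun y hy _ => ?_⟩
  · have h5 : (m : ℝ) + 3 ≤ (N : ℝ) ^ (θ + 2) := by
      have h6 : (N : ℝ) ^ (θ + 2) = (N : ℝ) ^ (θ + 1) * N := by
        rw [← Real.rpow_add_one hN0.ne']
        congr 1
        ring
      have h7 : 1 ≤ (N : ℝ) ^ (θ + 1) := Real.one_le_rpow hN1 (by linarith)
      rw [h6]
      nlinarith
    have h8 := Real.log_le_log (by positivity) h5
    rwa [Real.log_rpow hN0] at h8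
  · have hb := Real.exp_pos b
    have h5 : (N : ℝ) ^ (ε / 2) ≤ y := by
      have h6 : (N : ℝ) ^ ε = (N : ℝ) ^ (ε / 2) * (N : ℝ) ^ (ε / 2) := by
        rw [← Real.rpow_add hN0]
        congr 1
        ring
      have h7 : Real.exp b * Real.exp (-b) = 1 := by rw [← Real.exp_add]; simp
      calc (N : ℝ) ^ (ε / 2) = (Real.exp b * Real.exp (-b)) * (N : ℝ) ^ (ε / 2) := by rw [h7, one_mul]
        _ ≤ (Real.exp b * (N : ℝ) ^ (ε / 2)) * (N : ℝ) ^ (ε / 2) := by gcongr
        _ = Real.exp b * (N : ℝ) ^ ε := by rw [h6]; ring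
        _ ≤ Real.exp b * Real.exp (φ 0 (cut k N)) := by gcongr
        _ ≤ y := hy
    have hy1 : y0 ≤ y := (le_max_left _ _).trans (h2.trans h5)
    have hy2 : 2 ≤ y := (le_max_right _ _).trans (h2.trans h5)
    have hyp : 0 < y := by linarith
    refine (hy0 ω y hy1).trans ?_
    have hlN : 1 ≤ Real.log N := by
      have : 0 ≤ (2 / ε) ^ (A + 1) := by positivity
      linarith
    have hly : (ε / 2) * Real.log N ≤ Real.log y := by
      have := Real.log_le_log (by positivity) h5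
      rwa [Real.log_rpow hN0] at this
    have h6 : (Real.log N) ^ A ≤ (Real.log y) ^ (A + 1) := by
      have h7 : ((ε / 2) * Real.log N) ^ (A + 1) ≤ (Real.log y) ^ (A + 1) := by gcongr
      refine le_trans ?_ h7
      rw [mul_pow, pow_succ (Real.log N)]
      have h8 : (ε / 2) ^ (A + 1) * (2 / ε) ^ (A + 1) = 1 := by
        rw [← mul_pow]
        have : ε / 2 * (2 / ε) = 1 := by field_simp
        rw [this, one_pow]
      have h9 : (ε / 2) ^ (A + 1) * (2 / ε) ^ (A + 1) ≤ (ε / 2) ^ (A + 1) * Real.log N := by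
        gcongr
        linarith
      rw [h8] at h9
      have h10 : 0 < Real.log N ^ A := by positivity
      nlinarith
    have h7 : 0 < Real.log N ^ A := by positivity
    gcongr

end Pool.Agent.Q138.PS
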