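import Pool.Agent.Q138.PS.PN

set_option autoImplicit false

/-!
# Families of polynomials: the dimension of the exceptional set
-/

namespace Pool.Agent.Q138.PS

open Finset MeasureTheory Filter Topology
open scoped ENNReal NNReal
open Pool.Agent.Q138.GS

/-- polynomials of degree `q` with leading coefficient at least one and bounded coefficients -/
def PH (q : ℕ) (H : ℝ) (P : Polynomial ℝ) : Prop := P.natDegree = q ∧ 1 ≤ P.leadingCoeff ∧ ∀ i, |P.coeff i| ≤ H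

/-- **polynomials are admissible** -/
theorem adS_poly {ι : Type} {h : ι → ℕ → ℂ} (hh : ∀ ω (m : ℕ), ‖h ω m‖ ≤ Real.log ((m : ℝ) + 3)) (hU : UCan h)
    (q d : ℕ) (hq : 1 ≤ q) (k A : ℕ) (b : ℝ) {θ δ : ℝ} (hδ0 : 0 ≤ δ) (hδ1 : δ < 1) (hθ : q + δ < θ) :
    ∀ᶠ N : ℕ in atTop, ∀ ω (P : Polynomial ℝ), PH q ((N : ℝ) ^ δ) P →
      AdS (1 / 2) (2 * q * ((d + 1).factorial : ℝ)) d k A b θ (1 / 2) N (fun n => P.eval (n : ℝ)) (h ω) := by
  obtain ⟨M, hM2, hreg⟩ := reg_roots q (d + 1) hq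
  have hθ0 : 0 ≤ θ := by
    have : (0 : ℝ) ≤ q := Nat.cast_nonneg q
    linarith
  have he1 : 0 < 1 - δ := by linarith
  filter_upwards [eventually_ge_atTop 1, can_ev hh hU k A b θ (1 / 2) hθ0 (by norm_num), cut_size k,
    pw (4 * M) k he1, pw ((q : ℝ) + 1) 0 (show 0 < θ - (q + δ) by linarith), pw 4 k (show (0 : ℝ) < 1 / 2 by norm_num)]
    with N hN hcan hcut h1 h2 h3
  intro ω P hP
  obtain ⟨hdeg, hlead, hco⟩ := hP
  obtain ⟨hl, hJ1, hJ2, hJ3, hJ4⟩ := hcut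
  rw [pow_zero, mul_one] at h2
  have hN0 : (0 : ℝ) < N := by exact_mod_cast hN
  have hN1 : (1 : ℝ) ≤ N := by exact_mod_cast hN
  set H : ℝ := (N : ℝ) ^ δ with hH
  have hH1 : 1 ≤ H := Real.one_le_rpow hN1 hδ0
  have hH0 : 0 < H := by linarith
  have hP0 : P ≠ 0 := by
    rintro rfl
    simp at hlead
    linarith
  have hroots := poly_roots hdeg hlead hH1 hco
  have hU' := hreg P hdeg hP0 (2 * H) (M * (2 * H)) (by linarith) hroots le_rfl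
  have hlk : 0 < (Real.log N) ^ k := by positivity
  have hJr : (0 : ℝ) < (⌊(N : ℝ) / (Real.log N) ^ k⌋₊ : ℝ) := by exact_mod_cast hJ1
  have hx0J : M * (2 * H) ≤ (cut k N : ℝ) := by
    have e1 : (N : ℝ) = (N : ℝ) ^ (1 - δ) * H := by
      rw [hH, ← Real.rpow_add hN0]
      norm_num
    have e2 : 4 * M * (Real.log N) ^ k * H ≤ 2 * (Real.log N) ^ k * (cut k N : ℝ) := by
      calc 4 * M * (Real.log N) ^ k * H ≤ (N : ℝ) ^ (1 - δ) * H := by gcongr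
        _ = N := e1.symm
        _ ≤ _ := hJ2
    have e3 : (2 * (Real.log N) ^ k) * (M * (2 * H)) ≤ (2 * (Real.log N) ^ k) * (cut k N : ℝ) := by
      calc _ = 4 * M * (Real.log N) ^ k * H := by ring
        _ ≤ _ := e2
    exact le_of_mul_le_mul_left e3 (by positivity)
  have h4H : ∀ x : ℝ, (cut k N : ℝ) ≤ x → 4 * H ≤ x := fun x hx => by nlinarith
  have hpos : ∀ x : ℝ, (cut k N : ℝ) ≤ x → 0 < P.eval x ∧ Real.exp (pol P 0 x) = P.eval x := by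
    intro x hx
    have e1 := poly_low hdeg hlead hH1 hco (h4H x hx)
    have e2 : 0 < x := by linarith [h4H x hx]
    have e3 : 0 < P.eval x := lt_of_lt_of_le (by positivity) e1
    refine ⟨e3, ?_⟩
    have e4 : pol P 0 x = Real.log (P.eval x) := by simp [pol]
    rw [e4, Real.exp_log e3]
  have hup : ∀ n : ℕ, n ≤ N → P.eval (n : ℝ) ≤ (N : ℝ) ^ θ := by
    intro n hn
    have e1 := poly_up hdeg hH0.le hco (Nat.cast_nonneg n) (show (n : ℝ) ≤ N by exact_mod_cast hn) hN1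
    refine e1.trans ?_
    have e2 : (N : ℝ) ^ θ = (N : ℝ) ^ (θ - (q + δ)) * (H * (N : ℝ) ^ q) := by
      rw [hH, ← Real.rpow_natCast, ← Real.rpow_add hN0, ← Real.rpow_add hN0]
      congr 1
      ring
    rw [e2, mul_assoc]
    gcongr
  have hcutN : (cut k N : ℝ) ≤ N := by exact_mod_cast hJ4
  have hεJ : (N : ℝ) ^ (1 / 2 : ℝ) ≤ Real.exp (pol P 0 (cut k N)) := by
    rw [(hpos _ le_rfl).2]
    refine le_trans ?_ (poly_low hdeg hlead hH1 hco (h4H _ le_rfl))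
    have e1 : (1 : ℝ) ≤ (cut k N : ℝ) := by exact_mod_cast hJ1
    have e2 : (cut k N : ℝ) ≤ (cut k N : ℝ) ^ q := by
      calc (cut k N : ℝ) = (cut k N : ℝ) ^ 1 := (pow_one _).symm
        _ ≤ _ := pow_le_pow_right₀ e1 hq
    have e3 : (N : ℝ) ^ (1 / 2 : ℝ) * (N : ℝ) ^ (1 / 2 : ℝ) = N := by
      rw [← Real.rpow_add hN0]
      norm_num
    have e4 : 4 * (Real.log N) ^ k * (N : ℝ) ^ (1 / 2 : ℝ) ≤ 2 * (Real.log N) ^ k * (cut k N : ℝ) := by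
      calc 4 * (Real.log N) ^ k * (N : ℝ) ^ (1 / 2 : ℝ) ≤ (N : ℝ) ^ (1 / 2 : ℝ) * (N : ℝ) ^ (1 / 2 : ℝ) := by gcongr
        _ = N := e3
        _ ≤ _ := hJ2
    have e5 : 2 * (N : ℝ) ^ (1 / 2 : ℝ) ≤ (cut k N : ℝ) := by
      have e6 : (2 * (Real.log N) ^ k) * (2 * (N : ℝ) ^ (1 / 2 : ℝ)) ≤ (2 * (Real.log N) ^ k) * (cut k N : ℝ) := by
        calc _ = 4 * (Real.log N) ^ k * (N : ℝ) ^ (1 / 2 : ℝ) := by ring
          _ ≤ _ := e4
      exact le_of_mul_le_mul_left e6 (by positivity)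
    linarith
  refine ⟨⟨pol P, ⟨M * (2 * H), by positivity, hU', hx0J, ?_, hεJ⟩, fun n hn _ => ?_, hcan ω _ hεJ⟩, hup⟩
  · rw [(hpos _ hcutN).2]
    exact hup N le_rfl
  · exact ((hpos n (by exact_mod_cast hn.le)).2).symm

/-- **the dimension of the exceptional dilations for families of polynomials** -/
theorem poly_dim {ι : Type} (q : ℕ) (hq : 2 ≤ q) {δ1 δ2 : ℝ} (hδ1 : 0 ≤ δ1) (hδ1' : δ1 < kp q) (hδ2 : 0 ≤ δ2)
    (Ω : ℕ → Finset ι) (hΩ : Monotone Ω) (P : ι → Polynomial ℝ) (h : ι → ℕ → ℂ)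
    (hP : ∀ᶠ N : ℕ in atTop, ∀ ω ∈ Ω N, PH q ((N : ℝ) ^ δ1) (P ω))
    (hcard : ∀ η : ℝ, 0 < η → ∀ᶠ N : ℕ in atTop, ((Ω N).card : ℝ) ≤ (N : ℝ) ^ (δ2 + η))
    (hh : ∀ ω (m : ℕ), ‖h ω m‖ ≤ Real.log ((m : ℝ) + 3)) (hU : UCan h) :
    dimH {α : ℝ | 0 < α ∧ ¬ ∀ A : ℕ, ∀ᶠ N : ℕ in atTop, ∀ ω ∈ Ω N,
      ‖∑ n ∈ Icc 1 N, h ω ⌊α * (P ω).eval (n : ℝ)⌋₊‖ ≤ (N : ℝ) / (Real.log N) ^ A} ≤
      ENNReal.ofReal ((q + δ1 + δ2) / (q + kp q)) := by
  have hkp := kp_pos hq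
  have hkp4 := kp_le hq
  have hq0 : (2 : ℝ) ≤ q := by exact_mod_cast hq
  have hf : (0 : ℝ) < (q : ℝ) * 2 * ((q + 1).factorial : ℝ) := by
    have : (0 : ℝ) < ((q + 1).factorial : ℝ) := by exact_mod_cast Nat.factorial_pos _
    positivity
  have key : ∀ η : ℝ, 0 < η → η < kp q - δ1 →
      dimH {α : ℝ | 0 < α ∧ ¬ ∀ A : ℕ, ∀ᶠ N : ℕ in atTop, ∀ ω ∈ Ω N,
      ‖∑ n ∈ Icc 1 N, h ω ⌊α * (P ω).eval (n : ℝ)⌋₊‖ ≤ (N : ℝ) / (Real.log N) ^ A} ≤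
      ENNReal.ofReal ((q + δ1 + δ2 + 2 * η) / (q + kp q)) := by
    intro η hη hη2
    have h1 := dim_main (1 / 2) (2 * q * ((q + 1).factorial : ℝ)) (by norm_num) (by linarith) q hq
      (q + δ1 + η) (kp q - δ1 - η) (1 / 2) (δ2 + η) (by linarith) (by linarith) (by linarith) (by norm_num)
      (by linarith) (by linarith) Ω hΩ (fun ω n => (P ω).eval (n : ℝ)) h (hcard η hη) (fun A b => by
        filter_upwards [adS_poly hh hU q q (by omega) (A + 3) (A + 2) b hδ1 (by linarith)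
          (show (q : ℝ) + δ1 < q + δ1 + η by linarith), hP] with N h2 h3
        intro ω hω
        exact h2 ω (P ω) (h3 ω hω))
    refine h1.trans (le_of_eq ?_)
    congr 1
    ring
  have hlim : Tendsto (fun η : ℝ => ENNReal.ofReal ((q + δ1 + δ2 + 2 * η) / (q + kp q))) (𝓝[>] 0)
      (𝓝 (ENNReal.ofReal ((q + δ1 + δ2) / (q + kp q)))) := by
    have h1 : Continuous (fun η : ℝ => (q + δ1 + δ2 + 2 * η) / (q + kp q)) := by fun_prop
    have h2 : Tendsto (fun η : ℝ => (q + δ1 + δ2 + 2 * η) / (q + kp q)) (𝓝[>] 0) (𝓝 ((q + δ1 + δ2) / (q + kp q))) := by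
      have := (h1.tendsto 0).mono_left (nhdsWithin_le_nhds (s := Set.Ioi (0 : ℝ)))
      simpa using this
    exact (ENNReal.continuous_ofReal.tendsto _).comp h2
  refine ge_of_tendsto hlim ?_
  have h1 : Set.Ioo (0 : ℝ) (kp q - δ1) ∈ 𝓝[>] (0 : ℝ) := Ioo_mem_nhdsGT (by linarith)
  filter_upwards [h1] with η hη using key η hη.1 hη.2

end Pool.Agent.Q138.PS
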