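import Pool.Agent.Q138.PS.PO
import Pool.Agent.Q138.GS.Cnt

set_option autoImplicit false

/-!
# Families of polynomials with bounded coefficients; counting primes from the weighted form
-/

namespace Pool.Agent.Q138.PS

open Finset MeasureTheory Filter Topology
open scoped ENNReal NNReal
open Pool.Agent.Q138.GS

/-- the logarithm at the primes -/
noncomputable def thr (m : ℕ) : ℝ := if m.Prime then Real.log m else 0

theorem thr_nonneg (m : ℕ) : 0 ≤ thr m := by
  unfold thr
  split_ifs
  · exact Real.log_natCast_nonneg m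
  · exact le_rfl

/-- upper bound for the values -/
theorem poly_up2 {q : ℕ} {P : Polynomial ℝ} (hdeg : P.natDegree = q) (hlead : 1 ≤ P.leadingCoeff)
    {H : ℝ} (hH : 1 ≤ H) (hco : ∀ i, |P.coeff i| ≤ H) {x : ℝ} (hx : 4 * H ≤ x) :
    P.leadingCoeff * x ^ q / 2 ≤ P.eval x ∧ P.eval x ≤ 2 * P.leadingCoeff * x ^ q := by
  rw [Polynomial.eval_eq_sum_range, hdeg, sum_range_succ]
  have hx1 : 2 * H ≤ x - 1 := by linarith
  have hx0 : 0 < x := by linarith
  have h1 : |∑ i ∈ range q, P.coeff i * x ^ i| ≤ H * ∑ i ∈ range q, x ^ i := by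
    rw [mul_sum]
    refine (abs_sum_le_sum_abs _ _).trans (sum_le_sum fun i _ => ?_)
    rw [abs_mul, abs_of_pos (pow_pos hx0 i)]
    exact mul_le_mul_of_nonneg_right (hco i) (by positivity)
  have h2 : (∑ i ∈ range q, x ^ i) * (x - 1) = x ^ q - 1 := geom_sum_mul x q
  have h3 : 0 ≤ ∑ i ∈ range q, x ^ i := sum_nonneg fun i _ => by positivity
  have h4 : H * ∑ i ∈ range q, x ^ i ≤ x ^ q / 2 := by nlinarith
  have hc : P.coeff q = P.leadingCoeff := by
    rw [← hdeg]
    rfl
  rw [hc]
  have h5 : x ^ q ≤ P.leadingCoeff * x ^ q := le_mul_of_one_le_left (by positivity) hlead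
  have h6 := abs_le.1 (h1.trans h4)
  constructor <;> linarith [h6.1, h6.2]

/-- **counting from the weighted form**, uniformly in the polynomial -/
theorem count_unif (q : ℕ) (hq : 1 ≤ q) {δ : ℝ} (hδ0 : 0 ≤ δ) (hδ1 : δ < 1 / 2) {α : ℝ} (hα : 0 < α) {ε : ℝ}
    (hε : 0 < ε) : ∀ᶠ N : ℕ in atTop, ∀ P : Polynomial ℝ, PH q ((N : ℝ) ^ δ) P →
      |∑ n ∈ Icc 1 N, thr ⌊α * P.eval (n : ℝ)⌋₊ - N| ≤ (N : ℝ) / Real.log N →
      |ct (fun n => (⌊α * P.eval (n : ℝ)⌋₊).Prime) N * Real.log (P.leadingCoeff * (N : ℝ) ^ q) - N| ≤ ε * N := by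
  classical
  set ε1 : ℝ := min ε 1 with hε1
  have hε10 : 0 < ε1 := by positivity
  have hε11 : ε1 ≤ 1 := min_le_right _ _
  have hε1e : ε1 ≤ ε := min_le_left _ _
  set Cα : ℝ := |Real.log (2 * α)| + |Real.log (4 / α)| with hCα
  have hCα0 : 0 ≤ Cα := by positivity
  have hq1 : (1 : ℝ) ≤ q := by exact_mod_cast hq
  have hloglog : ∀ᶠ N : ℕ in atTop, Cα + 2 * q * Real.log (Real.log N) ≤ ε1 / 16 * Real.log N := by
    have h1 : Tendsto (fun x : ℝ => (Cα + 2 * q * Real.log x) / x) atTop (𝓝 0) := by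
      have h2 : Tendsto (fun x : ℝ => Cα / x) atTop (𝓝 0) := tendsto_const_nhds.div_atTop tendsto_id
      have h3 : Tendsto (fun x : ℝ => Real.log x / x) atTop (𝓝 0) := by
        simpa using Real.isLittleO_log_id_atTop.tendsto_div_nhds_zero
      have h4 := h2.add (h3.const_mul (2 * (q : ℝ)))
      rw [mul_zero, add_zero] at h4
      refine h4.congr fun x => ?_
      ring
    have h5 := h1.comp (Real.tendsto_log_atTop.comp tendsto_natCast_atTop_atTop)
    have h6 := h5.eventually (gt_mem_nhds (show 0 < ε1 / 16 by positivity))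
    filter_upwards [h6, lg1] with N h7 h8
    simp only [Function.comp] at h7
    rw [div_lt_iff₀ (by linarith)] at h7
    exact h7.le
  have hq0 : (0 : ℝ) < q := by linarith
  filter_upwards [lg1, eventually_ge_atTop 1, hloglog,
    (Real.tendsto_log_atTop.comp tendsto_natCast_atTop_atTop).eventually_ge_atTop (16 * (q + 2) / ε1),
    pw (((q : ℝ) + 1) * 4 ^ q) 0 (show 0 < q - δ * (q + 1) by nlinarith),
    pw 4 2 (show 0 < 1 - δ by linarith), pw (8 / α + 4) 2 (show (0 : ℝ) < 1 by norm_num)] with N hl hN hll hlε h1 h2 h3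
  intro P hP hsum
  obtain ⟨hdeg, hlead, hco⟩ := hP
  simp only [Function.comp] at hlε
  rw [pow_zero, mul_one] at h1
  rw [Real.rpow_one] at h3
  set ℓ := Real.log N with hℓ
  have hN0 : (0 : ℝ) < N := by exact_mod_cast hN
  have hN1 : (1 : ℝ) ≤ N := by exact_mod_cast hN
  have hl0 : 0 < ℓ := by linarith
  set H : ℝ := (N : ℝ) ^ δ with hH
  have hH1 : 1 ≤ H := Real.one_le_rpow hN1 hδ0
  set a : ℝ := P.leadingCoeff with ha
  have ha0 : 0 < a := by linarith
  have haH : a ≤ H := (le_abs_self _).trans (by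
    have := hco q
    rwa [← hdeg] at this)
  set X : ℝ := a * (N : ℝ) ^ q with hX
  set L : ℝ := Real.log X with hL
  have hX0 : 0 < X := by positivity
  have hLq : L = Real.log a + q * ℓ := by
    rw [hL, hX, Real.log_mul ha0.ne' (by positivity), Real.log_pow]
  have hla : 0 ≤ Real.log a := Real.log_nonneg hlead
  have hla2 : Real.log a ≤ ℓ := by
    have h4 := Real.log_le_log ha0 haH
    rw [hH, Real.log_rpow hN0, ← hℓ] at h4
    nlinarith
  have hLl : ℓ ≤ L := by nlinarith
  have hLu : L ≤ (q + 1) * ℓ := by nlinarith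
  have hL0 : 0 < L := by linarith
  set m : ℕ → ℕ := fun n => ⌊α * P.eval (n : ℝ)⌋₊ with hm
  -- upper bound for the values
  have hup : ∀ n : ℕ, n ≤ N → P.eval (n : ℝ) ≤ 2 * X := by
    intro n hn
    have hnN : (n : ℝ) ≤ N := by exact_mod_cast hn
    rcases le_total (4 * H) (n : ℝ) with h4 | h4
    · refine (poly_up2 hdeg hlead hH1 hco h4).2.trans ?_
      rw [hX]
      have : (n : ℝ) ^ q ≤ (N : ℝ) ^ q := by gcongr
      nlinarith
    · have h5 := poly_up hdeg (by linarith : 0 ≤ H) hco (Nat.cast_nonneg n) h4 (by linarith : 1 ≤ 4 * H)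
      refine h5.trans ?_
      have e1 : (N : ℝ) ^ (q - δ * (q + 1)) * (H * H ^ q) = (N : ℝ) ^ q := by
        rw [← pow_succ', hH, ← Real.rpow_natCast, ← Real.rpow_natCast, ← Real.rpow_mul hN0.le, ← Real.rpow_add hN0]
        congr 1
        push_cast
        ring
      calc ((q : ℝ) + 1) * H * (4 * H) ^ q = (((q : ℝ) + 1) * 4 ^ q) * (H * H ^ q) := by rw [mul_pow]; ring
        _ ≤ (N : ℝ) ^ (q - δ * (q + 1)) * (H * H ^ q) := by gcongr
        _ = (N : ℝ) ^ q := e1
        _ ≤ 2 * (a * (N : ℝ) ^ q) := by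
            have : 0 < (N : ℝ) ^ q := by positivity
            nlinarith
  have hthr_up : ∀ n ∈ Icc 1 N, thr (m n) ≤ if (m n).Prime then L + Cα else 0 := by
    intro n hn
    rw [mem_Icc] at hn
    unfold thr
    split_ifs with hp
    · have h4 : 0 < m n := hp.pos
      have h5 : (m n : ℝ) ≤ 2 * α * X := by
        have h6 : 0 ≤ α * P.eval (n : ℝ) := by
          by_contra hneg
          rw [not_le] at hneg
          have : m n = 0 := Nat.floor_of_nonpos hneg.le
          omega
        refine (Nat.floor_le h6).trans ?_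
        have := hup n hn.2
        nlinarith
      have h6 := Real.log_le_log (by exact_mod_cast h4) h5
      rw [Real.log_mul (by positivity) hX0.ne'] at h6
      have h7 := le_abs_self (Real.log (2 * α))
      have h8 := abs_nonneg (Real.log (4 / α))
      rw [hCα]
      linarith
    · exact le_rfl
  set c : ℝ := ct (fun n => (m n).Prime) N with hc
  have hcsum : ∀ t : ℝ, ∑ n ∈ Icc 1 N, (if (m n).Prime then t else 0) = c * t := by
    intro t
    rw [← sum_filter, sum_const, nsmul_eq_mul, hc]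
    unfold ct
    congr 3
    ext a
    simp only [mem_filter]
  have hlow : N - N / ℓ ≤ c * (L + Cα) := by
    have h4 := sum_le_sum hthr_up
    rw [hcsum] at h4
    have h5 := (abs_le.1 hsum).1
    linarith
  -- lower bound for the values
  set J : ℝ := N / ℓ ^ 2 with hJ
  have hJ0 : 0 < J := by positivity
  have hJH : 4 * H ≤ J := by
    rw [hJ, le_div_iff₀ (by positivity)]
    have e1 : (N : ℝ) ^ (1 - δ) * H = N := by
      rw [hH, ← Real.rpow_add hN0]
      norm_num
    calc 4 * H * ℓ ^ 2 = (4 * ℓ ^ 2) * H := by ring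
      _ ≤ (N : ℝ) ^ (1 - δ) * H := by gcongr
      _ = N := e1
  have hJα : 8 / α + 4 ≤ J := by
    rw [hJ, le_div_iff₀ (by positivity)]
    exact h3
  have hthr_low : ∀ n ∈ Icc 1 N, (if (m n).Prime then L - (Cα + 2 * q * Real.log ℓ) else 0) ≤
      thr (m n) + if (n : ℝ) ≤ J then L else 0 := by
    intro n hn
    rw [mem_Icc] at hn
    have hllog : 0 ≤ Real.log ℓ := Real.log_nonneg hl
    split_ifs with hp hnJ hnJ
    · have := thr_nonneg (m n)
      nlinarith
    · rw [not_le] at hnJ
      have h4 := (poly_up2 hdeg hlead hH1 hco (hJH.trans hnJ.le)).1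
      have hn1 : 1 ≤ (n : ℝ) := by exact_mod_cast hn.1
      have h5 : X / ℓ ^ (2 * q) ≤ a * (n : ℝ) ^ q := by
        rw [hX, mul_div_assoc]
        apply mul_le_mul_of_nonneg_left _ ha0.le
        have : J ^ q ≤ (n : ℝ) ^ q := by gcongr
        rw [hJ, div_pow, ← pow_mul] at this
        exact this
      have h6 : (n : ℝ) ≤ (n : ℝ) ^ q := by
        calc (n : ℝ) = (n : ℝ) ^ 1 := (pow_one _).symm
          _ ≤ _ := pow_le_pow_right₀ hn1 hq
      have h7 : 2 ≤ α * P.eval (n : ℝ) := by
        have h8 : 8 / α ≤ (n : ℝ) ^ q := by linarith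
        have h9 : 8 / α / 2 ≤ P.eval (n : ℝ) := by
          have : (n : ℝ) ^ q ≤ a * (n : ℝ) ^ q := le_mul_of_one_le_left (by positivity) hlead
          linarith
        have h10 : α * (8 / α / 2) ≤ α * P.eval (n : ℝ) := mul_le_mul_of_nonneg_left h9 hα.le
        have h11 : α * (8 / α / 2) = 4 := by field_simp; norm_num
        linarith
      have h8 : α * P.eval (n : ℝ) - 1 < m n := Nat.sub_one_lt_floor _
      have h9 : α / 4 * (X / ℓ ^ (2 * q)) ≤ m n := by
        have h10 : α * (X / ℓ ^ (2 * q) / 2) ≤ α * P.eval (n : ℝ) := mul_le_mul_of_nonneg_left (by linarith) hα.le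
        linarith
      have h10 : thr (m n) = Real.log (m n) := by
        unfold thr
        rw [if_pos hp]
      have h11 := Real.log_le_log (by positivity) h9
      rw [Real.log_mul (by positivity) (by positivity), Real.log_div hX0.ne' (by positivity), Real.log_pow] at h11
      have h12 : Real.log (α / 4) = - Real.log (4 / α) := by
        rw [← Real.log_inv, inv_div]
      rw [h12] at h11
      push_cast at h11
      have h13 := le_abs_self (Real.log (4 / α))
      have h14 := abs_nonneg (Real.log (2 * α))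
      rw [h10, add_zero, hCα]
      linarith
    · have := thr_nonneg (m n)
      linarith
    · have := thr_nonneg (m n)
      linarith
  have hupp : c * (L - (Cα + 2 * q * Real.log ℓ)) ≤ N + N / ℓ + J * L := by
    have h4 := sum_le_sum hthr_low
    rw [hcsum, sum_add_distrib] at h4
    have h5 := (abs_le.1 hsum).2
    have h6 : ∑ n ∈ Icc 1 N, (if (n : ℝ) ≤ J then L else 0) ≤ J * L := by
      rw [← sum_filter, sum_const, nsmul_eq_mul]
      apply mul_le_mul_of_nonneg_right _ hL0.le
      have h7 : (Icc 1 N).filter (fun n : ℕ => (n : ℝ) ≤ J) ⊆ Icc 1 ⌊J⌋₊ := by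
        intro n hn
        rw [mem_filter, mem_Icc] at hn
        rw [mem_Icc]
        exact ⟨hn.1.1, Nat.le_floor hn.2⟩
      have h8 := card_le_card h7
      rw [Nat.card_Icc] at h8
      have h9 : (((Icc 1 N).filter (fun n : ℕ => (n : ℝ) ≤ J)).card : ℝ) ≤ (⌊J⌋₊ : ℝ) := by
        exact_mod_cast h8
      exact h9.trans (Nat.floor_le hJ0.le)
    linarith
  have hc0 : 0 ≤ c := ct_nonneg _ _
  set E : ℝ := Cα + 2 * q * Real.log ℓ with hE
  have hE1 : E ≤ ε1 / 16 * ℓ := hll
  have hE0 : 0 ≤ E := by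
    have hllog : 0 ≤ Real.log ℓ := Real.log_nonneg hl
    positivity
  have hlinv : (q + 2) / ℓ ≤ ε1 / 16 := by
    rw [div_le_iff₀ hl0]
    rw [div_le_iff₀ hε10] at hlε
    linarith
  have hNl : (N : ℝ) / ℓ ≤ ε1 / 16 * N := by
    have h4 : 1 / ℓ ≤ ε1 / 16 := by
      refine le_trans ?_ hlinv
      gcongr
      linarith
    calc (N : ℝ) / ℓ = 1 / ℓ * N := by ring
      _ ≤ _ := by gcongr
  have hJL : J * L ≤ ε1 / 16 * N := by
    calc J * L ≤ (N / ℓ ^ 2) * ((q + 1) * ℓ) := by rw [hJ]; gcongr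
      _ = ((q + 1) / ℓ) * N := by
          field_simp
      _ ≤ ((q + 2) / ℓ) * N := by
          gcongr
          linarith
      _ ≤ _ := by gcongr
  have hEL : E ≤ ε1 / 16 * L := hE1.trans (by gcongr)
  have hcE : c * E ≤ c * (ε1 / 16 * L) := mul_le_mul_of_nonneg_left hEL hc0
  have hcL : c * L ≤ 2 * N := by
    have h4 : c * L * (1 - ε1 / 16) ≤ N + ε1 / 16 * N + ε1 / 16 * N := by nlinarith
    nlinarith [mul_nonneg hc0 hL0.le]
  have hCα2 : c * Cα ≤ c * E := by
    apply mul_le_mul_of_nonneg_left _ hc0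
    have hllog : 0 ≤ Real.log ℓ := Real.log_nonneg hl
    rw [hE]
    have : 0 ≤ 2 * (q : ℝ) * Real.log ℓ := by positivity
    linarith
  have hfin : |c * L - N| ≤ ε1 * N := by
    rw [abs_le]
    constructor
    · nlinarith
    · nlinarith
  exact hfin.trans (by gcongr)

end Pool.Agent.Q138.PS
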