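import Pool.Agent.Q138.PS.PO

set_option autoImplicit false

/-!
# The family of all integral polynomials with bounded coefficients
-/

namespace Pool.Agent.Q138.PS

open Finset MeasureTheory Filter Topology
open scoped ENNReal NNReal
open Pool.Agent.Q138.GS

/-- coefficient vectors -/
noncomputable def cv (q : ℕ) (δ : ℝ) (N : ℕ) : Finset (Fin (q + 1) → ℤ) :=
  (Fintype.piFinset fun _ : Fin (q + 1) => Icc (-⌊(N : ℝ) ^ δ⌋) ⌊(N : ℝ) ^ δ⌋).filter fun ω => 1 ≤ ω (Fin.last q)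

/-- the polynomial with given coefficients -/
noncomputable def pv {q : ℕ} (ω : Fin (q + 1) → ℤ) : Polynomial ℝ :=
  ∑ i : Fin (q + 1), Polynomial.monomial (i : ℕ) ((ω i : ℤ) : ℝ)

theorem cv_mono (q : ℕ) {δ : ℝ} (hδ : 0 ≤ δ) : Monotone (cv q δ) := by
  intro M N hMN ω hω
  unfold cv at hω ⊢
  rw [mem_filter, Fintype.mem_piFinset] at hω ⊢
  refine ⟨fun i => ?_, hω.2⟩
  have h1 := mem_Icc.1 (hω.1 i)
  have h2 : ⌊(M : ℝ) ^ δ⌋ ≤ ⌊(N : ℝ) ^ δ⌋ := by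
    apply Int.floor_le_floor
    have : (M : ℝ) ≤ N := by exact_mod_cast hMN
    exact Real.rpow_le_rpow (Nat.cast_nonneg _) this hδ
  exact mem_Icc.2 ⟨by linarith [h1.1], by linarith [h1.2]⟩

theorem cv_card (q : ℕ) {δ : ℝ} (hδ : 0 ≤ δ) (η : ℝ) (hη : 0 < η) :
    ∀ᶠ N : ℕ in atTop, ((cv q δ N).card : ℝ) ≤ (N : ℝ) ^ ((q + 1) * δ + η) := by
  filter_upwards [eventually_ge_atTop 1, pw (3 ^ (q + 1)) 0 hη] with N hN h1
  rw [pow_zero, mul_one] at h1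
  have hN0 : (0 : ℝ) < N := by exact_mod_cast hN
  have hN1 : (1 : ℝ) ≤ N := by exact_mod_cast hN
  set H : ℝ := (N : ℝ) ^ δ with hH
  have hH1 : 1 ≤ H := Real.one_le_rpow hN1 hδ
  have h2 : (cv q δ N).card ≤ (Fintype.piFinset fun _ : Fin (q + 1) => Icc (-⌊H⌋) ⌊H⌋).card :=
    card_le_card (filter_subset _ _)
  rw [Fintype.card_piFinset, prod_const, card_univ, Fintype.card_fin, Int.card_Icc] at h2
  have hfl : 0 ≤ ⌊H⌋ := Int.floor_nonneg.2 (by linarith)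
  have h3 : (((⌊H⌋ + 1 - -⌊H⌋).toNat : ℕ) : ℝ) ≤ 3 * H := by
    have h4 : (((⌊H⌋ + 1 - -⌊H⌋).toNat : ℤ)) = ⌊H⌋ + 1 - -⌊H⌋ := Int.toNat_of_nonneg (by linarith)
    have h5 : (((⌊H⌋ + 1 - -⌊H⌋).toNat : ℕ) : ℝ) = (⌊H⌋ : ℝ) + 1 - -(⌊H⌋ : ℝ) := by
      exact_mod_cast congrArg (fun z : ℤ => (z : ℝ)) h4
    rw [h5]
    have := Int.floor_le H
    linarith
  calc ((cv q δ N).card : ℝ) ≤ (((⌊H⌋ + 1 - -⌊H⌋).toNat : ℕ) : ℝ) ^ (q + 1) := by exact_mod_cast h2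
    _ ≤ (3 * H) ^ (q + 1) := by gcongr
    _ = 3 ^ (q + 1) * (N : ℝ) ^ ((q + 1) * δ) := by
        rw [mul_pow, hH, ← Real.rpow_natCast ((N : ℝ) ^ δ), ← Real.rpow_mul hN0.le]
        congr 2
        push_cast
        ring
    _ ≤ (N : ℝ) ^ η * (N : ℝ) ^ ((q + 1) * δ) := by gcongr
    _ = _ := by
        rw [← Real.rpow_add hN0]
        congr 1
        ring

theorem pv_coeff {q : ℕ} (ω : Fin (q + 1) → ℤ) (j : ℕ) :
    (pv ω).coeff j = if h : j < q + 1 then ((ω ⟨j, h⟩ : ℤ) : ℝ) else 0 := by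
  unfold pv
  rw [Polynomial.finsetSum_coeff]
  simp only [Polynomial.coeff_monomial]
  split_ifs with h
  · rw [sum_eq_single (⟨j, h⟩ : Fin (q + 1))]
    · simp
    · intro i _ hi
      rw [if_neg]
      intro h1
      exact hi (Fin.ext h1)
    · simp
  · refine sum_eq_zero fun i _ => ?_
    rw [if_neg]
    have := i.2
    omega

theorem pv_PH {q : ℕ} {δ : ℝ} {N : ℕ} {ω : Fin (q + 1) → ℤ} (hω : ω ∈ cv q δ N) : PH q ((N : ℝ) ^ δ) (pv ω) := by
  unfold cv at hω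
  rw [mem_filter, Fintype.mem_piFinset] at hω
  obtain ⟨h1, h2⟩ := hω
  have hbd : ∀ i, |((ω i : ℤ) : ℝ)| ≤ (N : ℝ) ^ δ := by
    intro i
    have h3 := mem_Icc.1 (h1 i)
    have h4 := Int.floor_le ((N : ℝ) ^ δ)
    rw [abs_le]
    have h5 : (-(⌊(N : ℝ) ^ δ⌋ : ℤ) : ℝ) ≤ ((ω i : ℤ) : ℝ) := by exact_mod_cast h3.1
    have h6 : ((ω i : ℤ) : ℝ) ≤ (⌊(N : ℝ) ^ δ⌋ : ℝ) := by exact_mod_cast h3.2
    constructor <;> linarith
  have hlast : (pv ω).coeff q = ((ω (Fin.last q) : ℤ) : ℝ) := by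
    rw [pv_coeff, dif_pos (Nat.lt_succ_self q)]
    rfl
  have hlast1 : (1 : ℝ) ≤ ((ω (Fin.last q) : ℤ) : ℝ) := by exact_mod_cast h2
  have hdeg : (pv ω).natDegree = q := by
    apply Polynomial.natDegree_eq_of_le_of_coeff_ne_zero
    · rw [Polynomial.natDegree_le_iff_coeff_eq_zero]
      intro j hj
      rw [pv_coeff, dif_neg (by omega)]
    · rw [hlast]
      linarith
  refine ⟨hdeg, ?_, fun i => ?_⟩
  · rw [Polynomial.leadingCoeff, hdeg, hlast]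
    exact hlast1
  · rw [pv_coeff]
    split_ifs with h
    · exact hbd _
    · rw [abs_zero]
      exact Real.rpow_nonneg (Nat.cast_nonneg _) _

/-- every integral polynomial with small coefficients occurs -/
theorem pv_of {q : ℕ} {δ : ℝ} {N : ℕ} (P : Polynomial ℤ) (hdeg : P.natDegree = q) (hlead : 0 < P.leadingCoeff)
    (hco : ∀ i, |((P.coeff i : ℤ) : ℝ)| ≤ (N : ℝ) ^ δ) :
    (fun i : Fin (q + 1) => P.coeff i) ∈ cv q δ N ∧
      pv (fun i : Fin (q + 1) => P.coeff i) = P.map (Int.castRingHom ℝ) := by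
  constructor
  · unfold cv
    rw [mem_filter, Fintype.mem_piFinset]
    refine ⟨fun i => ?_, ?_⟩
    · have h1 := abs_le.1 (hco i)
      rw [mem_Icc]
      refine ⟨?_, Int.le_floor.2 h1.2⟩
      have h2 : -P.coeff i ≤ ⌊(N : ℝ) ^ δ⌋ := Int.le_floor.2 (by push_cast; linarith [h1.1])
      linarith
    · have : P.coeff (Fin.last q : ℕ) = P.leadingCoeff := by
        rw [Polynomial.leadingCoeff, hdeg]
        rfl
      change 0 < P.coeff (Fin.last q : ℕ)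
      rw [this]
      exact hlead
  · ext j
    rw [pv_coeff, Polynomial.coeff_map]
    split_ifs with h
    · rfl
    · rw [Polynomial.coeff_eq_zero_of_natDegree_lt (by omega)]
      simp

end Pool.Agent.Q138.PS
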