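import Pool.Agent.Q138.PS.PP
import Pool.Agent.Q138.PS.PQ

set_option autoImplicit false

/-!
# Integral polynomials: the exceptional dilations for primes
-/

namespace Pool.Agent.Q138.PS

open Finset MeasureTheory Filter Topology
open scoped ENNReal NNReal
open Pool.Agent.Q138.GS

theorem thw_thr (m : ℕ) : thw m = ((thr m - 1 : ℝ) : ℂ) := by
  unfold thw th thr
  split_ifs <;> push_cast <;> ring

theorem thw_log (m : ℕ) : ‖thw m‖ ≤ Real.log ((m : ℝ) + 3) := thw_le m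

/-- for the coefficient family: all polynomials with coefficients at most `N ^ δ` -/
theorem int_dim (q : ℕ) (hq : 2 ≤ q) {δ : ℝ} (hδ : 0 ≤ δ) (hδ' : δ < kp q) (h : ℕ → ℂ)
    (hh : ∀ m : ℕ, ‖h m‖ ≤ Real.log ((m : ℝ) + 3)) (hN : Pool.Agent.Y957.VK.Neg h) :
    dimH {α : ℝ | 0 < α ∧ ¬ ∀ A : ℕ, ∀ᶠ N : ℕ in atTop, ∀ ω ∈ cv q δ N,
      ‖∑ n ∈ Icc 1 N, h ⌊α * (pv ω).eval (n : ℝ)⌋₊‖ ≤ (N : ℝ) / (Real.log N) ^ A} ≤
      ENNReal.ofReal ((q + (q + 2) * δ) / (q + kp q)) := by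
  have h1 := poly_dim q hq hδ hδ' (δ2 := (q + 1) * δ) (by positivity) (cv q δ) (cv_mono q hδ) pv (fun _ => h)
    (Eventually.of_forall fun N ω hω => pv_PH hω) (fun η hη => cv_card q hδ η hη) (fun _ => hh) (ucan_neg hh hN)
  refine h1.trans (le_of_eq ?_)
  congr 2
  ring

/-- all integral polynomials with coefficients at most `N ^ δ (log N) ^ B`, for every `B` -/
theorem int_dim2 (q : ℕ) (hq : 2 ≤ q) {δ : ℝ} (hδ : 0 ≤ δ) (hδ' : δ < kp q) (h : ℕ → ℂ)
    (hh : ∀ m : ℕ, ‖h m‖ ≤ Real.log ((m : ℝ) + 3)) (hN : Pool.Agent.Y957.VK.Neg h) :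
    dimH {α : ℝ | 0 < α ∧ ¬ ∀ A B : ℕ, ∀ᶠ N : ℕ in atTop, ∀ P : Polynomial ℤ, P.natDegree = q → 0 < P.leadingCoeff →
      (∀ i, |((P.coeff i : ℤ) : ℝ)| ≤ (N : ℝ) ^ δ * (Real.log N) ^ B) →
      ‖∑ n ∈ Icc 1 N, h ⌊α * ((P.eval (n : ℤ) : ℤ) : ℝ)⌋₊‖ ≤ (N : ℝ) / (Real.log N) ^ A} ≤
      ENNReal.ofReal ((q + (q + 2) * δ) / (q + kp q)) := by
  have hkp := kp_pos hq
  have hq0 : (2 : ℝ) ≤ q := by exact_mod_cast hq
  set Bad : Set ℝ := {α : ℝ | 0 < α ∧ ¬ ∀ A B : ℕ, ∀ᶠ N : ℕ in atTop, ∀ P : Polynomial ℤ, P.natDegree = q →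
      0 < P.leadingCoeff → (∀ i, |((P.coeff i : ℤ) : ℝ)| ≤ (N : ℝ) ^ δ * (Real.log N) ^ B) →
      ‖∑ n ∈ Icc 1 N, h ⌊α * ((P.eval (n : ℤ) : ℤ) : ℝ)⌋₊‖ ≤ (N : ℝ) / (Real.log N) ^ A} with hBad
  have key : ∀ η : ℝ, 0 < η → η < kp q - δ → dimH Bad ≤ ENNReal.ofReal ((q + (q + 2) * (δ + η)) / (q + kp q)) := by
    intro η hη hη2
    refine le_trans (dimH_mono ?_) (int_dim q hq (δ := δ + η) (by linarith) (by linarith) h hh hN)
    rintro α ⟨hα, hnot⟩
    refine ⟨hα, fun hgood => hnot fun A B => ?_⟩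
    filter_upwards [hgood A, pw 1 B hη, eventually_ge_atTop 1] with N hN1 hN2 hN3
    intro P hdeg hlead hco
    have hN0 : (0 : ℝ) < N := by exact_mod_cast hN3
    have hco' : ∀ i, |((P.coeff i : ℤ) : ℝ)| ≤ (N : ℝ) ^ (δ + η) := by
      intro i
      refine (hco i).trans ?_
      rw [Real.rpow_add hN0]
      rw [one_mul] at hN2
      gcongr
    obtain ⟨h1, h2⟩ := pv_of P hdeg hlead hco'
    have h3 := hN1 _ h1
    rw [h2] at h3
    have h4 : ∀ n : ℕ, (P.map (Int.castRingHom ℝ)).eval (n : ℝ) = ((P.eval (n : ℤ) : ℤ) : ℝ) := by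
      intro n
      have := Polynomial.eval_intCast_map (Int.castRingHom ℝ) P (n : ℤ)
      push_cast at this
      exact this
    simp only [h4] at h3
    exact h3
  have hlim : Tendsto (fun η : ℝ => ENNReal.ofReal ((q + (q + 2) * (δ + η)) / (q + kp q))) (𝓝[>] 0)
      (𝓝 (ENNReal.ofReal ((q + (q + 2) * δ) / (q + kp q)))) := by
    have h1 : Continuous (fun η : ℝ => (q + (q + 2) * (δ + η)) / (q + kp q)) := by fun_prop
    have h2 : Tendsto (fun η : ℝ => (q + (q + 2) * (δ + η)) / (q + kp q)) (𝓝[>] 0) (𝓝 ((q + (q + 2) * δ) / (q + kp q))) := by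
      have := (h1.tendsto 0).mono_left (nhdsWithin_le_nhds (s := Set.Ioi (0 : ℝ)))
      simpa using this
    exact (ENNReal.continuous_ofReal.tendsto _).comp h2
  refine ge_of_tendsto hlim ?_
  have h1 : Set.Ioo (0 : ℝ) (kp q - δ) ∈ 𝓝[>] (0 : ℝ) := Ioo_mem_nhdsGT (by linarith)
  filter_upwards [h1] with η hη using key η hη.1 hη.2

/-- the prime number theorem in the form which is needed -/
theorem pnt : Tendsto (fun N : ℕ => ct (fun n => n.Prime) N * Real.log N / N) atTop (𝓝 1) := by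
  have hs : ∀ᶠ N : ℕ in atTop, |∑ n ∈ Icc 1 N, thr n - N| ≤ (N : ℝ) / Real.log N := by
    obtain ⟨C, hC⟩ := neg_thw 0 2
    filter_upwards [eventually_ge_atTop 2, lg1,
      (Real.tendsto_log_atTop.comp tendsto_natCast_atTop_atTop).eventually_ge_atTop C] with N hN hl hlC
    simp only [Function.comp] at hlC
    have h1 := hC N 0 hN (by simp)
    have h2 : ∑ m ∈ Icc 1 N, thw m * Pool.Agent.H376R2.MR.er 0 (Real.log m) =
        ((∑ n ∈ Icc 1 N, thr n - N : ℝ) : ℂ) := by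
      push_cast
      have h3 : (N : ℂ) = ∑ m ∈ Icc 1 N, (1 : ℂ) := by simp
      rw [h3, ← sum_sub_distrib]
      refine sum_congr rfl fun m _ => ?_
      unfold Pool.Agent.H376R2.MR.er
      rw [thw_thr]
      simp
    rw [h2, Complex.norm_real, Real.norm_eq_abs] at h1
    refine h1.trans ?_
    have hN0 : (0 : ℝ) < N := by positivity
    rw [div_le_div_iff₀ (by positivity) (by positivity)]
    nlinarith [mul_le_mul_of_nonneg_right hlC (show (0 : ℝ) ≤ N * Real.log N by positivity)]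
  rw [Metric.tendsto_atTop]
  intro ε hε
  have h1 := count_unif 1 le_rfl (le_refl (0 : ℝ)) (by norm_num) one_pos (show 0 < ε / 2 by positivity)
  have h2 : ∀ᶠ N : ℕ in atTop, |ct (fun n => n.Prime) N * Real.log N / N - 1| ≤ ε / 2 := by
    filter_upwards [h1, hs, eventually_ge_atTop 1] with N h3 h4 h5
    have hN0 : (0 : ℝ) < N := by exact_mod_cast h5
    have h6 := h3 Polynomial.X ⟨Polynomial.natDegree_X, by simp, fun i => by
      rw [Polynomial.coeff_X]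
      split_ifs <;> simp⟩
    simp only [Polynomial.eval_X, one_mul, Nat.floor_natCast, Polynomial.leadingCoeff_X, pow_one] at h6
    have h7 := h6 h4
    rw [div_sub_one hN0.ne', abs_div, abs_of_pos hN0, div_le_iff₀ hN0]
    exact h7
  obtain ⟨N0, hN0⟩ := eventually_atTop.1 h2
  refine ⟨N0, fun N hN => ?_⟩
  rw [Real.dist_eq]
  linarith [hN0 N hN]

end Pool.Agent.Q138.PS
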