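import Pool.Agent.Q138.PS.PR

set_option autoImplicit false

/-!
# Progressions: from all polynomials with bounded coefficients to progressions with small moduli
-/

namespace Pool.Agent.Q138.PS

open Finset MeasureTheory Filter Topology
open Pool.Agent.Q138.GS

/-- integral polynomials of degree `q`, positive leading coefficient, bounded coefficients -/
def IB (q : ℕ) (H : ℝ) (P : Polynomial ℤ) : Prop :=
  P.natDegree = q ∧ 0 < P.leadingCoeff ∧ ∀ i, |((P.coeff i : ℤ) : ℝ)| ≤ H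

theorem lin_pow_coeff (r a : ℕ) (i j : ℕ) :
    |((((Polynomial.C (r : ℤ) * Polynomial.X + Polynomial.C (a : ℤ)) ^ i).coeff j : ℤ) : ℝ)| ≤ ((r : ℝ) + a) ^ i := by
  induction i generalizing j with
  | zero =>
    rw [pow_zero, pow_zero, Polynomial.coeff_one]
    split_ifs <;> simp
  | succ i ih =>
    set p : Polynomial ℤ := (Polynomial.C (r : ℤ) * Polynomial.X + Polynomial.C (a : ℤ)) ^ i with hp
    have e : (Polynomial.C (r : ℤ) * Polynomial.X + Polynomial.C (a : ℤ)) ^ (i + 1) =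
        Polynomial.C (r : ℤ) * (p * Polynomial.X) + Polynomial.C (a : ℤ) * p := by
      rw [pow_succ, ← hp]
      ring
    rw [e, Polynomial.coeff_add, Polynomial.coeff_C_mul, Polynomial.coeff_C_mul]
    have h0 : (0 : ℝ) ≤ ((r : ℝ) + a) ^ i := by positivity
    cases j with
    | zero =>
      rw [Polynomial.mul_coeff_zero, Polynomial.coeff_X_zero, mul_zero, mul_zero, zero_add]
      push_cast
      rw [abs_mul, abs_of_nonneg (Nat.cast_nonneg a : (0 : ℝ) ≤ a), pow_succ]
      have h1 := ih 0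
      have : (0 : ℝ) ≤ r := Nat.cast_nonneg r
      have : (0 : ℝ) ≤ a := Nat.cast_nonneg a
      nlinarith
    | succ j =>
      rw [Polynomial.coeff_mul_X]
      push_cast
      refine (abs_add_le _ _).trans ?_
      rw [abs_mul, abs_mul, abs_of_nonneg (Nat.cast_nonneg a : (0 : ℝ) ≤ a), abs_of_nonneg (Nat.cast_nonneg r : (0 : ℝ) ≤ r),
        pow_succ]
      have h1 := ih j
      have h2 := ih (j + 1)
      have : (0 : ℝ) ≤ r := Nat.cast_nonneg r
      have : (0 : ℝ) ≤ a := Nat.cast_nonneg a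
      nlinarith

/-- the polynomial along a progression -/
theorem comp_IB {q : ℕ} {H : ℝ} (hH : 0 ≤ H) {P : Polynomial ℤ} (hP : IB q H P) {r a : ℕ} (hr : 1 ≤ r)
    (ha : a ≤ r) : IB q ((q + 1) * H * (2 * r) ^ q) (P.comp (Polynomial.C (r : ℤ) * Polynomial.X + Polynomial.C (a : ℤ))) := by
  obtain ⟨hdeg, hlead, hco⟩ := hP
  have hr0 : (r : ℤ) ≠ 0 := by
    have : (r : ℤ) ≥ 1 := by exact_mod_cast hr
    omega
  have hlin : (Polynomial.C (r : ℤ) * Polynomial.X + Polynomial.C (a : ℤ)).natDegree = 1 :=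
    Polynomial.natDegree_linear hr0
  refine ⟨?_, ?_, fun j => ?_⟩
  · rw [Polynomial.natDegree_comp, hlin, hdeg, mul_one]
  · rw [Polynomial.leadingCoeff_comp (by rw [hlin]; norm_num), Polynomial.leadingCoeff_linear hr0]
    have : (0 : ℤ) < r := by exact_mod_cast hr
    positivity
  · rw [Polynomial.comp_eq_sum_left, Polynomial.sum_over_range' _ _ (q + 1) (by omega), Polynomial.finsetSum_coeff]
    · push_cast
      refine (abs_sum_le_sum_abs _ _).trans ?_
      calc _ ≤ ∑ i ∈ range (q + 1), H * (2 * r) ^ q := by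
            refine sum_le_sum fun i hi => ?_
            rw [mem_range] at hi
            rw [Polynomial.coeff_C_mul]
            push_cast
            rw [abs_mul]
            have h1 := lin_pow_coeff r a i j
            have h2 : ((r : ℝ) + a) ^ i ≤ (2 * r) ^ q := by
              have h3 : (1 : ℝ) ≤ 2 * r := by
                have : (1 : ℝ) ≤ r := by exact_mod_cast hr
                linarith
              have h4 : (r : ℝ) + a ≤ 2 * r := by
                have : (a : ℝ) ≤ r := by exact_mod_cast ha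
                linarith
              calc ((r : ℝ) + a) ^ i ≤ (2 * r) ^ i := by gcongr
                _ ≤ _ := pow_le_pow_right₀ h3 (by omega)
            exact mul_le_mul (hco i) (h1.trans h2) (abs_nonneg _) hH
        _ = _ := by
            rw [sum_const, card_range, nsmul_eq_mul]
            push_cast
            ring
    · intro n
      simp

/-- **progressions with small moduli** -/
theorem prog (q : ℕ) {δ : ℝ} (hδ : 0 ≤ δ) (hδ1 : δ ≤ 1) (G : ℤ → ℂ) (hG : ∀ z, ‖G z‖ ≤ 1)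
    (h : ∀ A B : ℕ, ∀ᶠ N : ℕ in atTop, ∀ P : Polynomial ℤ, IB q ((N : ℝ) ^ δ * (Real.log N) ^ B) P →
      ‖∑ n ∈ Icc 1 N, G (P.eval (n : ℤ))‖ ≤ (N : ℝ) / (Real.log N) ^ A) (A B : ℕ) :
    ∀ᶠ N : ℕ in atTop, ∀ P : Polynomial ℤ, IB q ((N : ℝ) ^ δ * (Real.log N) ^ B) P →
      ∀ r a : ℕ, 1 ≤ r → (r : ℝ) ≤ (Real.log N) ^ B → a < r →
      ‖∑ n ∈ (Icc 1 N).filter (fun n => n % r = a), G (P.eval (n : ℤ))‖ ≤ (N : ℝ) / (Real.log N) ^ A := by
  obtain ⟨N1, hN1⟩ := eventually_atTop.1 (h (A + 1) (2 * B + q * B + 1 + q))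
  filter_upwards [lg1, eventually_ge_atTop 4, pw (2 * (N1 + 2)) B (show (0 : ℝ) < 1 / 2 by norm_num),
    pw 4 B (show (0 : ℝ) < 1 / 2 by norm_num), pw 2 A (show (0 : ℝ) < 1 by norm_num),
    (Real.tendsto_log_atTop.comp tendsto_natCast_atTop_atTop).eventually_ge_atTop
      (2 * 4 ^ (A + 1) + 4 * ((q + 1) * 2 ^ (q + 1) * 4 ^ (2 * B + q * B)))] with N hl hN h1 h2 h2' h3
  intro P hP r a hr hrB ha
  simp only [Function.comp] at h3
  rw [Real.rpow_one] at h2'
  set ℓ := Real.log N with hℓ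
  have hN0 : (0 : ℝ) < N := by positivity
  have hl0 : 0 < ℓ := by linarith
  have hlB : 1 ≤ ℓ ^ B := one_le_pow₀ hl
  have hs : (N : ℝ) ^ (1 / 2 : ℝ) * (N : ℝ) ^ (1 / 2 : ℝ) = N := by
    rw [← Real.rpow_add hN0]
    norm_num
  set s : ℝ := (N : ℝ) ^ (1 / 2 : ℝ) with hs'
  have hs0 : 0 < s := by positivity
  have hr0 : (0 : ℝ) < r := by exact_mod_cast hr
  have hr1 : (1 : ℝ) ≤ r := by exact_mod_cast hr
  have hrs : 4 * (r : ℝ) ≤ s := (mul_le_mul_of_nonneg_left hrB (by norm_num)).trans h2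
  have hsN : s ≤ N := by
    have : 1 ≤ s := by linarith
    nlinarith
  have haN : a ≤ N := by
    have : (a : ℝ) ≤ N := by
      have : (a : ℝ) ≤ r := by exact_mod_cast ha.le
      linarith
    exact_mod_cast this
  set M := (N - a) / r with hM
  -- the terms of the progression
  have hsplit : ∑ n ∈ (Icc 1 N).filter (fun n => n % r = a), G (P.eval (n : ℤ)) =
      (if 1 ≤ a then G (P.eval (a : ℤ)) else 0) + ∑ k ∈ Icc 1 M, G (P.eval ((r * k + a : ℕ) : ℤ)) := by
    have e1 : (Icc 1 N).filter (fun n => n % r = a) =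
        ((if 1 ≤ a then {a} else ∅ : Finset ℕ)) ∪ (Icc 1 M).image (fun k => r * k + a) := by
      ext n
      simp only [mem_filter, mem_Icc, mem_union, mem_image]
      constructor
      · rintro ⟨⟨h4, h5⟩, h6⟩
        have h7 := Nat.div_add_mod n r
        rw [h6] at h7
        rcases Nat.eq_zero_or_pos (n / r) with h8 | h8
        · left
          rw [h8, mul_zero, zero_add] at h7
          rw [if_pos (by omega)]
          simp [h7]
        · right
          refine ⟨n / r, ⟨h8, ?_⟩, h7⟩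
          rw [hM, Nat.le_div_iff_mul_le hr]
          have : r * (n / r) = n / r * r := mul_comm _ _
          omega
      · rintro (h4 | ⟨k, ⟨h5, h6⟩, rfl⟩)
        · split_ifs at h4 with h5
          · rw [mem_singleton] at h4
            subst h4
            exact ⟨⟨h5, haN⟩, Nat.mod_eq_of_lt ha⟩
          · simp at h4
        · refine ⟨⟨?_, ?_⟩, ?_⟩
          · have : 1 ≤ r * k := Nat.mul_pos hr h5
            omega
          · rw [hM, Nat.le_div_iff_mul_le hr] at h6
            have : r * k = k * r := mul_comm _ _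
            omega
          · rw [Nat.mul_add_mod]
            exact Nat.mod_eq_of_lt ha
    rw [e1, sum_union, sum_image]
    · congr 1
      split_ifs <;> simp
    · intro x _ y _ hxy
      simp only at hxy
      have : r * x = r * y := by omega
      exact Nat.eq_of_mul_eq_mul_left hr this
    · rw [disjoint_left]
      intro n h4 h5
      split_ifs at h4 with h6
      · rw [mem_singleton] at h4
        rw [mem_image] at h5
        obtain ⟨k, hk, h7⟩ := h5
        rw [mem_Icc] at hk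
        have : 1 ≤ r * k := Nat.mul_pos hr hk.1
        omega
      · simp at h4
  have hMr : (N : ℝ) / (2 * r) ≤ M ∧ (M : ℝ) ≤ N := by
    constructor
    · have h4 : N - a < r * (M + 1) := by
        have := Nat.lt_mul_div_succ (N - a) hr
        exact this
      have h5 : (N : ℝ) - a < r * (M + 1) := by
        have h6 : ((N - a : ℕ) : ℝ) < r * (M + 1) := by exact_mod_cast h4
        rwa [Nat.cast_sub haN] at h6
      rw [div_le_iff₀ (by positivity)]
      have : (a : ℝ) ≤ r := by exact_mod_cast ha.le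
      nlinarith
    · have : M ≤ N := (Nat.div_le_self _ _).trans (Nat.sub_le _ _)
      exact_mod_cast this
  obtain ⟨hM1, hM2⟩ := hMr
  have hMs : s ≤ 2 * M := by
    have h4 : s ≤ (N : ℝ) / r := by
      rw [le_div_iff₀ hr0]
      nlinarith
    have h5 : (N : ℝ) / (2 * r) = (N : ℝ) / r / 2 := by field_simp
    linarith
  have hMbig : (N1 : ℝ) + 2 ≤ M := by
    have h4 : 2 * ((N1 : ℝ) + 2) * r ≤ s := by
      refine le_trans ?_ h1
      gcongr
    have h5 : (N1 : ℝ) + 2 ≤ (N : ℝ) / (2 * r) := by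
      rw [le_div_iff₀ (by positivity)]
      nlinarith
    linarith
  have hMN1 : N1 ≤ M := by
    have : (N1 : ℝ) ≤ M := by linarith
    exact_mod_cast this
  have hM0 : (0 : ℝ) < M := by
    have : (0 : ℝ) ≤ N1 := Nat.cast_nonneg _
    linarith
  have hlogM : ℓ ≤ 2 * Real.log M + 2 ∧ Real.log M ≤ ℓ := by
    constructor
    · have h4 := Real.log_le_log hs0 hMs
      rw [Real.log_mul (by norm_num) hM0.ne', hs', Real.log_rpow hN0] at h4
      have := Real.log_two_lt_d9
      linarith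
    · exact Real.log_le_log hM0 hM2
  have hlM : ℓ / 4 ≤ Real.log M := by
    have h5 : (4 : ℝ) ≤ ℓ := by
      refine le_trans ?_ h3
      have e1 : (4 : ℝ) ≤ 4 ^ (A + 1) := by
        calc (4 : ℝ) = 4 ^ 1 := by norm_num
          _ ≤ 4 ^ (A + 1) := pow_le_pow_right₀ (by norm_num) (by omega)
      have e2 : (0 : ℝ) ≤ 4 * ((q + 1) * 2 ^ (q + 1) * 4 ^ (2 * B + q * B)) := by positivity
      linarith
    linarith [hlogM.1]
  have hlM0 : 0 < Real.log M := by linarith
  -- the polynomial along the progression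
  have hH0 : 0 ≤ (N : ℝ) ^ δ * ℓ ^ B := by positivity
  have hg := comp_IB hH0 hP hr ha.le
  set g := P.comp (Polynomial.C (r : ℤ) * Polynomial.X + Polynomial.C (a : ℤ)) with hgdef
  have hgev : ∀ k : ℕ, g.eval (k : ℤ) = P.eval ((r * k + a : ℕ) : ℤ) := by
    intro k
    rw [hgdef, Polynomial.eval_comp]
    congr 1
    simp
  have hgIB : IB q ((M : ℝ) ^ δ * (Real.log M) ^ (2 * B + q * B + 1 + q)) g := by
    refine ⟨hg.1, hg.2.1, fun i => (hg.2.2 i).trans ?_⟩
    have e1 : (N : ℝ) ^ δ ≤ 2 * ℓ ^ B * (M : ℝ) ^ δ := by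
      have h4 : (N : ℝ) ≤ 2 * ℓ ^ B * M := by
        have h5 : (N : ℝ) ≤ M * (2 * r) := by
          rwa [div_le_iff₀ (by positivity)] at hM1
        nlinarith
      have h5 : (2 * ℓ ^ B : ℝ) ^ δ ≤ (2 * ℓ ^ B) ^ (1 : ℝ) :=
        Real.rpow_le_rpow_of_exponent_le (by linarith) hδ1
      rw [Real.rpow_one] at h5
      calc (N : ℝ) ^ δ ≤ (2 * ℓ ^ B * M) ^ δ := Real.rpow_le_rpow hN0.le h4 hδ
        _ = (2 * ℓ ^ B) ^ δ * (M : ℝ) ^ δ := Real.mul_rpow (by positivity) hM0.le
        _ ≤ _ := by gcongr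
    have e2 : (r : ℝ) ^ q ≤ ℓ ^ (q * B) := by
      calc (r : ℝ) ^ q ≤ (ℓ ^ B) ^ q := by gcongr
        _ = ℓ ^ (q * B) := by rw [← pow_mul, mul_comm]
    have e3 : ℓ ^ (2 * B + q * B) ≤ 4 ^ (2 * B + q * B) * (Real.log M) ^ (2 * B + q * B) := by
      rw [← mul_pow]
      gcongr
      linarith
    have e4 : ((q : ℝ) + 1) * 2 ^ (q + 1) * 4 ^ (2 * B + q * B) ≤ Real.log M := by
      have h5 : (0 : ℝ) ≤ 2 * 4 ^ (A + 1) := by positivity
      linarith
    have e5 : Real.log M ≤ (Real.log M) ^ (1 + q) := by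
      have h5 : (1 : ℝ) ≤ Real.log M := by
        have e6 : (1 : ℝ) ≤ ((q : ℝ) + 1) * 2 ^ (q + 1) * 4 ^ (2 * B + q * B) := by
          have h6 : (1 : ℝ) ≤ (q : ℝ) + 1 := by linarith [(Nat.cast_nonneg q : (0 : ℝ) ≤ q)]
          have h7 : (1 : ℝ) ≤ 2 ^ (q + 1) := one_le_pow₀ (by norm_num)
          have h8 : (1 : ℝ) ≤ 4 ^ (2 * B + q * B) := one_le_pow₀ (by norm_num)
          calc (1 : ℝ) = 1 * 1 * 1 := by norm_num
            _ ≤ _ := by gcongr
        linarith
      calc Real.log M = (Real.log M) ^ 1 := (pow_one _).symm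
        _ ≤ _ := pow_le_pow_right₀ h5 (by omega)
    calc ((q : ℝ) + 1) * ((N : ℝ) ^ δ * ℓ ^ B) * (2 * r) ^ q
        ≤ ((q : ℝ) + 1) * ((2 * ℓ ^ B * (M : ℝ) ^ δ) * ℓ ^ B) * (2 ^ q * ℓ ^ (q * B)) := by
          rw [mul_pow]
          gcongr
      _ = (((q : ℝ) + 1) * 2 ^ (q + 1) * (M : ℝ) ^ δ) * ℓ ^ (2 * B + q * B) := by
          rw [pow_add, two_mul, pow_add]
          ring
      _ ≤ (((q : ℝ) + 1) * 2 ^ (q + 1) * (M : ℝ) ^ δ) * (4 ^ (2 * B + q * B) * (Real.log M) ^ (2 * B + q * B)) := by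
          gcongr
      _ = (M : ℝ) ^ δ * ((((q : ℝ) + 1) * 2 ^ (q + 1) * 4 ^ (2 * B + q * B)) * (Real.log M) ^ (2 * B + q * B)) := by ring
      _ ≤ (M : ℝ) ^ δ * ((Real.log M) ^ (1 + q) * (Real.log M) ^ (2 * B + q * B)) := by
          have := e4.trans e5
          gcongr
      _ = _ := by
          rw [← pow_add]
          congr 2
          omega
  have hmain := hN1 M hMN1 g hgIB
  simp only [hgev] at hmain
  rw [hsplit]
  have e1 : ‖(if 1 ≤ a then G (P.eval (a : ℤ)) else 0)‖ ≤ 1 := by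
    split_ifs
    · exact hG _
    · simp
  have hlA : 0 < ℓ ^ A := by positivity
  have e2 : (M : ℝ) / (Real.log M) ^ (A + 1) ≤ (1 / 2) * (N / ℓ ^ A) := by
    calc (M : ℝ) / (Real.log M) ^ (A + 1) ≤ N / (ℓ / 4) ^ (A + 1) := by gcongr
      _ = (4 ^ (A + 1) / ℓ) * (N / ℓ ^ A) := by
          rw [div_pow, pow_succ ℓ]
          field_simp
      _ ≤ (1 / 2) * (N / ℓ ^ A) := by
          apply mul_le_mul_of_nonneg_right _ (by positivity)
          rw [div_le_div_iff₀ hl0 (by norm_num)]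
          have h5 : (0 : ℝ) ≤ 4 * ((q + 1) * 2 ^ (q + 1) * 4 ^ (2 * B + q * B)) := by positivity
          linarith
  have e3 : (1 : ℝ) ≤ (1 / 2) * (N / ℓ ^ A) := by
    have h5 : 2 ≤ (N : ℝ) / ℓ ^ A := by
      rw [le_div_iff₀ hlA]
      exact h2'
    linarith
  calc _ ≤ 1 + (M : ℝ) / (Real.log M) ^ (A + 1) := (norm_add_le _ _).trans (add_le_add e1 hmain)
    _ ≤ (1 / 2) * (N / ℓ ^ A) + (1 / 2) * (N / ℓ ^ A) := add_le_add e3 e2
    _ = _ := by ring

end Pool.Agent.Q138.PS
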