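import Pool.Agent.Q138.PS.PF

set_option autoImplicit false

/-!
# Sampling in the mean square on arbitrary blocks
-/

namespace Pool.Agent.Q138.PS

open Finset MeasureTheory Filter FourierTransform
open scoped ENNReal ComplexConjugate
open Pool.Agent.Q138.GS

/-- sum minus integral of a function at integer parts -/
noncomputable def DD (f : ℕ → ℂ) (g : ℝ → ℝ) (b : ℝ) (n1 n2 : ℕ) (u : ℝ) : ℂ :=
  ∑ n ∈ Ioc n1 n2, f ⌊Real.exp (b + u) * g n⌋₊ - ∫ x in (n1 : ℝ)..(n2 : ℝ), f ⌊Real.exp (b + u) * g x⌋₊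

/-- **sampling in the mean square** -/
theorem win_l2g (c C : ℝ) (hc : 0 < c) (hC : 0 < C) (d : ℕ) (hd : 2 ≤ d) (k : ℕ) (b θ κ ε : ℝ)
    (hκ1 : κ ≤ kp d) (hκ2 : κ ≤ kp d + d - θ) (hε : 0 < ε) (hθ : 0 ≤ θ) :
    ∃ (K : ℝ) (B : ℕ), 0 ≤ K ∧ ∀ᶠ N : ℕ in atTop, ∀ (φ : ℕ → ℝ → ℝ) (x0 : ℝ) (f : ℕ → ℂ) (J n1 n2 : ℕ),
      (∀ m, ‖f m‖ ≤ 1) → RegU φ (d + 1) x0 c C → 0 < x0 → x0 ≤ J → (N : ℝ) ≤ J * (Real.log N) ^ k →
      J ≤ n1 → n1 ≤ n2 → n2 ≤ N → Real.exp (φ 0 N) ≤ (N : ℝ) ^ θ → (N : ℝ) ^ ε ≤ Real.exp (φ 0 J) →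
      AEMeasurable (DD f (fun x => Real.exp (φ 0 x)) b n1 n2) (volume.restrict (Set.Icc (0 : ℝ) 1)) ∧
      ∫⁻ u in Set.Icc (0 : ℝ) 1, ‖DD f (fun x => Real.exp (φ 0 x)) b n1 n2 u‖ₑ ^ 2 ≤
      ENNReal.ofReal (K * (Real.log N) ^ B * (N : ℝ) ^ (2 - κ)) := by
  obtain ⟨K1, hK1, N1, hdl⟩ := dl_bound c C hc hC d hd k
  have hkp := kp_pos hd
  have hkp4 := kp_le hd
  set Bd : ℕ := d + (d + 2) * k with hBd
  set t : ℕ := ⌈2 * θ⌉₊ + 1 with ht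
  have htr : 2 * θ + 1 ≤ (t : ℝ) := by
    rw [ht]
    push_cast
    linarith [Nat.le_ceil (2 * θ)]
  set K2 : ℝ := K1 * (2 * (θ + 1) + 3 * t * Real.exp (b + 1)) + 2 * Real.exp (b + 1) ^ 2 with hK2
  have hb1 := Real.exp_pos (b + 1)
  refine ⟨K2, Bd + 1, by positivity, ?_⟩
  filter_upwards [lg1, eventually_ge_atTop N1, eventually_ge_atTop 1,
    pw (Real.exp (-b) + 1) 0 hε, pw (Real.exp 1 + Real.exp (-b)) 0 one_pos] with N hl hN1 hNpos hpe hp1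
  intro φ x0 f J n1 n2 hf hU hx0 hxJ hNJ hJn1 hn12 hn2 hθN hεJ
  set ℓ := Real.log N with hℓ
  have hJ4 : J ≤ N := hJn1.trans (hn12.trans hn2)
  have hJn1r : (J : ℝ) ≤ n1 := by exact_mod_cast hJn1
  have hn12r : (n1 : ℝ) ≤ n2 := by exact_mod_cast hn12
  have hn2r : (n2 : ℝ) ≤ N := by exact_mod_cast hn2
  rw [pow_zero, mul_one] at hpe hp1
  rw [Real.rpow_one] at hp1
  have hN0 : (0 : ℝ) < N := by exact_mod_cast hNpos
  have hN1r : (1 : ℝ) ≤ N := by exact_mod_cast hNpos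
  have hJ0 : (0 : ℝ) < J := hx0.trans_le hxJ
  have hJNr : (J : ℝ) ≤ N := by exact_mod_cast hJ4
  have hb := Real.exp_pos b
  have hb' := Real.exp_pos (-b)
  have hbb : Real.exp b * Real.exp (-b) = 1 := by rw [← Real.exp_add]; simp
  set M1 := ⌊Real.exp b * Real.exp (φ 0 J)⌋₊ with hM1
  set M2 := ⌊Real.exp (b + 1) * Real.exp (φ 0 N)⌋₊ with hM2
  have hPJ : Real.exp (-b) + 1 ≤ Real.exp (φ 0 J) := hpe.trans hεJ
  have hM1r : Real.exp b ≤ M1 ∧ 1 ≤ M1 := by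
    have h1 : 1 + Real.exp b ≤ Real.exp b * Real.exp (φ 0 J) := by nlinarith
    have h2 : Real.exp b * Real.exp (φ 0 J) < (M1 : ℝ) + 1 := Nat.lt_floor_add_one _
    refine ⟨by linarith, ?_⟩
    exact Nat.le_floor (by push_cast; linarith)
  obtain ⟨hM1e, hM11⟩ := hM1r
  have hM1pos : (0 : ℝ) < M1 := by exact_mod_cast hM11
  have hM2le : (M2 : ℝ) ≤ Real.exp (b + 1) * (N : ℝ) ^ θ :=
    (Nat.floor_le (by positivity)).trans (by gcongr)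
  -- the window
  set Bw : ℝ → ℂ := Bt f b 0 M1 M2 with hBw
  have hwin : ∀ u ∈ Set.Icc (0 : ℝ) 1, ∀ x : ℝ, (J : ℝ) ≤ x → x ≤ N →
      Bw (u + φ 0 x) = f ⌊Real.exp (b + u) * Real.exp (φ 0 x)⌋₊ := by
    intro u hu x hx1 hx2
    rw [hBw]
    unfold Bt
    have e1 : Real.exp (b + (u + φ 0 x)) + 0 = Real.exp (b + u) * Real.exp (φ 0 x) := by
      rw [add_zero, ← Real.exp_add, add_assoc]
    rw [e1, if_pos]
    have hm1 := phi_mono hU hc hx0 hxJ hx1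
    have hm2 := phi_mono hU hc hx0 (hxJ.trans hx1) hx2
    rw [mem_Icc]
    constructor
    · apply Nat.floor_le_floor
      have : Real.exp b ≤ Real.exp (b + u) := Real.exp_le_exp.2 (by linarith [hu.1])
      have := Real.exp_le_exp.2 hm1
      gcongr
    · apply Nat.floor_le_floor
      have : Real.exp (b + u) ≤ Real.exp (b + 1) := Real.exp_le_exp.2 (by linarith [hu.2])
      have := Real.exp_le_exp.2 hm2
      gcongr
  set L : ℝ := (θ + 1) * ℓ with hL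
  have hL0 : 0 ≤ L := by positivity
  have hjp0 : 0 ≤ jp b 0 M1 := by
    unfold jp
    rw [sub_zero]
    have := Real.log_le_log hb hM1e
    rw [Real.log_exp] at this
    linarith
  have hjpL : jp b 0 (M2 + 1) ≤ L := by
    unfold jp
    rw [sub_zero]
    have h1 : (((M2 : ℕ) : ℝ) + 1) ≤ Real.exp b * (N : ℝ) ^ (θ + 1) := by
      have h2 : Real.exp (b + 1) = Real.exp b * Real.exp 1 := Real.exp_add b 1
      have h3 : (N : ℝ) ^ (θ + 1) = (N : ℝ) ^ θ * N := by rw [Real.rpow_add hN0, Real.rpow_one]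
      have h4 : 1 ≤ (N : ℝ) ^ θ := Real.one_le_rpow hN1r hθ
      calc ((M2 : ℕ) : ℝ) + 1 ≤ Real.exp (b + 1) * (N : ℝ) ^ θ + 1 * (N : ℝ) ^ θ := by linarith
        _ = Real.exp b * (N : ℝ) ^ θ * (Real.exp 1 + Real.exp (-b)) := by
            rw [h2]
            linear_combination (-(N : ℝ) ^ θ) * hbb
        _ ≤ Real.exp b * (N : ℝ) ^ θ * N := by gcongr
        _ = _ := by rw [h3]; ring
    have h5 := Real.log_le_log (by positivity) h1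
    rw [Real.log_mul hb.ne' (by positivity), Real.log_exp, Real.log_rpow hN0] at h5
    push_cast
    rw [hL]
    linarith
  have hβ : (0 : ℝ) < M1 := hM1pos
  have hBs : ∀ y, y ∉ Set.Icc 0 L → Bw y = 0 := fun y hy => Bt_supp f hM11 hβ hjp0 hjpL y hy
  have hmod : ∀ s, 0 ≤ s → s ≤ 1 → ∫ y, ‖Bw (y + s) - Bw y‖ ≤ (2 * M2) * s := fun s hs _ => Bt_mod f hf hM11 hβ s hs
  set A : ℝ := K1 * ℓ ^ Bd * (N : ℝ) ^ (2 - kp d) with hA
  have hA0 : 0 ≤ A := by positivity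
  have hdl' := hdl φ x0 hU N J n1 n2 hN1 hxJ hNJ hJn1 hn12 hn2
  set m : ℕ := ⌈2 * t * ℓ⌉₊ with hm
  have hX : (0 : ℝ) < (N : ℝ) ^ d := by positivity
  have hmain := l2_main hU hn12 (hxJ.trans hJn1r) (Bt_meas f b 0 M1 M2) (Bt_le f hf b 0 M1 M2) hL0 (by positivity) hX hA0 hBs hmod m hdl'
  rw [← hBw] at hmain
  have hpt : ∀ u ∈ Set.Icc (0 : ℝ) 1, DD f (fun x => Real.exp (φ 0 x)) b n1 n2 u =
      Gf (fun _ => 1) Bw (fun n => φ 0 n) (Ioc n1 n2) u - Gi Bw (φ 0) n1 n2 u := by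
    intro u hu
    have e1 : Gf (fun _ => 1) Bw (fun n => φ 0 n) (Ioc n1 n2) u =
        ∑ n ∈ Ioc n1 n2, f ⌊Real.exp (b + u) * Real.exp (φ 0 n)⌋₊ := by
      unfold Gf
      refine sum_congr rfl fun n hn => ?_
      rw [mem_Ioc] at hn
      rw [one_mul, hwin u hu n (hJn1r.trans (by exact_mod_cast hn.1.le)) (le_trans (by exact_mod_cast hn.2) hn2r)]
    have e2 : Gi Bw (φ 0) n1 n2 u = ∫ x in (n1 : ℝ)..(n2 : ℝ), f ⌊Real.exp (b + u) * Real.exp (φ 0 x)⌋₊ := by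
      unfold Gi
      refine intervalIntegral.integral_congr fun x hx => ?_
      rw [Set.uIcc_of_le hn12r] at hx
      exact hwin u hu x (hJn1r.trans hx.1) (hx.2.trans hn2r)
    unfold DD
    rw [e1, e2]
  have hBi : Integrable Bw := Pool.Agent.Y957.VK.B_int (Bt_meas f b 0 M1 M2) (Bt_le f hf b 0 M1 M2) hBs
  have hgi1 := (gi_props hBi (Bt_meas f b 0 M1 M2) (Bt_le f hf b 0 M1 M2) hn12r
    (phi_cont hU (Nat.zero_le _) (hxJ.trans hJn1r))).1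
  have hgf1 : Integrable (Gf (fun _ => 1) Bw (fun n => φ 0 n) (Ioc n1 n2)) := Gf_int _ hBi _ _
  refine ⟨?_, ?_⟩
  · have h1 : AEMeasurable (fun u => Gf (fun _ => 1) Bw (fun n => φ 0 n) (Ioc n1 n2) u - Gi Bw (φ 0) n1 n2 u)
        (volume.restrict (Set.Icc (0 : ℝ) 1)) :=
      ((hgf1.sub hgi1).aestronglyMeasurable.aemeasurable).restrict
    refine h1.congr ?_
    exact (ae_restrict_iff' measurableSet_Icc).2 (Eventually.of_forall fun u hu => (hpt u hu).symm)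
  have hcongr : ∫⁻ u in Set.Icc (0 : ℝ) 1, ‖DD f (fun x => Real.exp (φ 0 x)) b n1 n2 u‖ₑ ^ 2 =
      ∫⁻ u in Set.Icc (0 : ℝ) 1, ‖Gf (fun _ => 1) Bw (fun n => φ 0 n) (Ioc n1 n2) u - Gi Bw (φ 0) n1 n2 u‖ₑ ^ 2 := by
    refine setLIntegral_congr_fun measurableSet_Icc fun u hu => ?_
    rw [hpt u hu]
  rw [hcongr]
  refine (setLIntegral_le_lintegral _ _).trans (hmain.trans (ENNReal.ofReal_le_ofReal ?_))
  -- arithmetic
  have hm3 : (m : ℝ) ≤ 3 * t * ℓ := by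
    have h1 : (m : ℝ) < 2 * t * ℓ + 1 := Nat.ceil_lt_add_one (by positivity)
    have h2 : 1 ≤ (t : ℝ) * ℓ := by
      have : (1 : ℝ) ≤ t := by linarith
      nlinarith
    linarith
  have h2m : (N : ℝ) ^ (t : ℝ) ≤ 2 ^ m := by
    have h1 : 2 * t * ℓ ≤ (m : ℝ) := Nat.le_ceil _
    have hlog2 : (1 : ℝ) / 2 ≤ Real.log 2 := by linarith [Real.log_two_gt_d9]
    have e : (2 : ℝ) ^ m = Real.exp (m * Real.log 2) := by
      rw [mul_comm, Real.exp_mul, Real.exp_log (by norm_num), Real.rpow_natCast]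
    rw [e, Real.rpow_def_of_pos hN0]
    apply Real.exp_le_exp.2
    have h3 : (m : ℝ) * (1 / 2) ≤ m * Real.log 2 := by gcongr
    rw [← hℓ]
    linarith
  have hLX : L / (N : ℝ) ^ d ≤ L := div_le_self hL0 (one_le_pow₀ hN1r)
  have hmV : (m * (2 * M2) / 2 : ℝ) / (N : ℝ) ^ d ≤ 3 * t * ℓ * Real.exp (b + 1) * (N : ℝ) ^ (θ - d) := by
    rw [Real.rpow_sub hN0, Real.rpow_natCast]
    calc (m * (2 * M2) / 2 : ℝ) / (N : ℝ) ^ d = m * M2 / (N : ℝ) ^ d := by ring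
      _ ≤ (3 * t * ℓ) * (Real.exp (b + 1) * (N : ℝ) ^ θ) / (N : ℝ) ^ d := by gcongr
      _ = _ := by ring
  have hp2 : (N : ℝ) ^ (2 - kp d) ≤ (N : ℝ) ^ (2 - κ) := Real.rpow_le_rpow_of_exponent_le hN1r (by linarith)
  have hp3 : (N : ℝ) ^ (2 - kp d) * (N : ℝ) ^ (θ - d) ≤ (N : ℝ) ^ (2 - κ) := by
    rw [← Real.rpow_add hN0]
    exact Real.rpow_le_rpow_of_exponent_le hN1r (by linarith)
  have hlB : (1 : ℝ) ≤ ℓ ^ (Bd + 1) := one_le_pow₀ hl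
  have hp4 : ((n2 : ℝ) - n1) ^ 2 * (2 * M2) ^ 2 / 2 / 2 ^ m ≤ 2 * Real.exp (b + 1) ^ 2 * (N : ℝ) ^ (2 - κ) := by
    have h1 : ((n2 : ℝ) - n1) ^ 2 ≤ (N : ℝ) ^ 2 := by
      apply pow_le_pow_left₀ (by linarith)
      linarith
    have h2 : ((2 * M2 : ℝ)) ^ 2 ≤ (2 * (Real.exp (b + 1) * (N : ℝ) ^ θ)) ^ 2 := by gcongr
    have h3 : (N : ℝ) ^ 2 * ((N : ℝ) ^ θ) ^ 2 ≤ (N : ℝ) ^ (2 - κ) * (N : ℝ) ^ (t : ℝ) := by
      rw [← Real.rpow_natCast, ← Real.rpow_natCast ((N : ℝ) ^ θ), ← Real.rpow_mul hN0.le, ← Real.rpow_add hN0,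
        ← Real.rpow_add hN0]
      apply Real.rpow_le_rpow_of_exponent_le hN1r
      push_cast
      linarith
    calc ((n2 : ℝ) - n1) ^ 2 * (2 * M2) ^ 2 / 2 / 2 ^ m
        ≤ (N : ℝ) ^ 2 * (2 * (Real.exp (b + 1) * (N : ℝ) ^ θ)) ^ 2 / 2 / (N : ℝ) ^ (t : ℝ) := by gcongr
      _ = 2 * Real.exp (b + 1) ^ 2 * ((N : ℝ) ^ 2 * ((N : ℝ) ^ θ) ^ 2) / (N : ℝ) ^ (t : ℝ) := by ring
      _ ≤ 2 * Real.exp (b + 1) ^ 2 * ((N : ℝ) ^ (2 - κ) * (N : ℝ) ^ (t : ℝ)) / (N : ℝ) ^ (t : ℝ) := by gcongr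
      _ = _ := by field_simp
  have hfin : A * (L + (L + m * (2 * M2) / 2) / (N : ℝ) ^ d) ≤
      K1 * (2 * (θ + 1) + 3 * t * Real.exp (b + 1)) * ℓ ^ (Bd + 1) * (N : ℝ) ^ (2 - κ) := by
    have h1 : L + (L + m * (2 * M2) / 2) / (N : ℝ) ^ d ≤
        2 * (θ + 1) * ℓ + 3 * t * ℓ * Real.exp (b + 1) * (N : ℝ) ^ (θ - d) := by
      rw [add_div]
      linarith
    calc _ ≤ A * (2 * (θ + 1) * ℓ + 3 * t * ℓ * Real.exp (b + 1) * (N : ℝ) ^ (θ - d)) := by gcongr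
      _ = K1 * ℓ ^ Bd * ℓ * (2 * (θ + 1) * (N : ℝ) ^ (2 - kp d) +
          3 * t * Real.exp (b + 1) * ((N : ℝ) ^ (2 - kp d) * (N : ℝ) ^ (θ - d))) := by
          rw [hA]
          ring
      _ ≤ K1 * ℓ ^ Bd * ℓ * (2 * (θ + 1) * (N : ℝ) ^ (2 - κ) + 3 * t * Real.exp (b + 1) * (N : ℝ) ^ (2 - κ)) := by
          gcongr
      _ = _ := by rw [pow_succ]; ring
  calc _ ≤ K1 * (2 * (θ + 1) + 3 * t * Real.exp (b + 1)) * ℓ ^ (Bd + 1) * (N : ℝ) ^ (2 - κ) +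
        2 * Real.exp (b + 1) ^ 2 * (N : ℝ) ^ (2 - κ) := add_le_add hfin hp4
    _ ≤ K1 * (2 * (θ + 1) + 3 * t * Real.exp (b + 1)) * ℓ ^ (Bd + 1) * (N : ℝ) ^ (2 - κ) +
        2 * Real.exp (b + 1) ^ 2 * (N : ℝ) ^ (2 - κ) * ℓ ^ (Bd + 1) := by
        exact add_le_add le_rfl (le_mul_of_one_le_right (by positivity) hlB)
    _ = _ := by rw [hK2]; ring

end Pool.Agent.Q138.PS
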