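import Pool.Agent.Q138.PS.PG
import Pool.Agent.Q138.PS.PH
import Pool.Agent.Q138.PS.TA

set_option autoImplicit false

/-!
# Bad cells for the difference of sum and integral
-/

namespace Pool.Agent.Q138.PS

open Finset MeasureTheory Filter
open scoped ENNReal
open Pool.Agent.Q138.GS

open Classical in
/-- **few bad cells**, general form -/
theorem cells_gen (T : ℝ → ℂ) {Y v V : ℝ} (hY : 0 < Y) (hv : 0 ≤ v) (Q : ℕ) (hQ : 0 < Q) (W : ℕ → ℝ)
    (hW0 : ∀ j ∈ range Q, 0 ≤ W j) (hWs : ∑ j ∈ range Q, W j ≤ V)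
    (hosc : ∀ j ∈ range Q, ∀ u u' : ℝ, (j : ℝ) / Q ≤ u → u ≤ ((j : ℝ) + 1) / Q → (j : ℝ) / Q ≤ u' →
      u' ≤ ((j : ℝ) + 1) / Q → ‖T u - T u'‖ ≤ W j)
    (hvol : volume {u : ℝ | u ∈ Set.Icc (0 : ℝ) 1 ∧ Y < ‖T u‖} ≤ ENNReal.ofReal v) :
    ((badc T (2 * Y) Q).card : ℝ) ≤ V / Y + Q * v := by
  have hQr : (0 : ℝ) < Q := by exact_mod_cast hQ
  set bad : Finset ℕ := badc T (2 * Y) Q with hbad
  set A1 : Finset ℕ := bad.filter fun j => Y < W j with hA1
  set A2 : Finset ℕ := bad.filter fun j => ¬ (Y < W j) with hA2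
  have hcard : bad.card = A1.card + A2.card := (card_filter_add_card_filter_not (s := bad) (fun j => Y < W j)).symm
  have h1 : (A1.card : ℝ) ≤ V / Y := by
    calc (A1.card : ℝ) = ∑ j ∈ A1, (1 : ℝ) := by simp
      _ ≤ ∑ j ∈ A1, W j / Y := by
          refine sum_le_sum fun j hj => ?_
          have := (mem_filter.1 hj).2
          rw [le_div_iff₀ hY]
          linarith
      _ ≤ ∑ j ∈ range Q, W j / Y := by
          refine sum_le_sum_of_subset_of_nonneg ((filter_subset _ _).trans (by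
            rw [hbad]
            exact filter_subset _ _)) fun j hj _ => ?_
          have := hW0 j hj
          positivity
      _ = (∑ j ∈ range Q, W j) / Y := (sum_div _ _ _).symm
      _ ≤ _ := by gcongr
  have h2 : (A2.card : ℝ) ≤ Q * v := by
    have h3 : ∀ j ∈ A2, Set.Ioo ((j : ℝ) / Q) (((j : ℝ) + 1) / Q) ⊆ {u : ℝ | u ∈ Set.Icc (0 : ℝ) 1 ∧ Y < ‖T u‖} := by
      intro j hj w hw
      obtain ⟨hjb, hjn⟩ := mem_filter.1 hj
      rw [hbad] at hjb
      obtain ⟨hjr, u, hu1, hu2, hu3⟩ := mem_filter.1 hjb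
      rw [not_lt] at hjn
      have hj1 : ((j : ℝ) + 1) / Q ≤ 1 := by
        rw [div_le_one hQr]
        exact_mod_cast mem_range.1 hjr
      have hj0 : 0 ≤ (j : ℝ) / Q := by positivity
      refine ⟨⟨by linarith [hw.1], by linarith [hw.2]⟩, ?_⟩
      have h5 := hosc j hjr u w hu1 hu2 hw.1.le hw.2.le
      have h6 := norm_sub_norm_le (T u) (T w)
      linarith
    have h4 : volume (⋃ j ∈ A2, Set.Ioo ((j : ℝ) / Q) (((j : ℝ) + 1) / Q)) = A2.card * ENNReal.ofReal (1 / Q) := by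
      rw [measure_biUnion_finset]
      · rw [sum_congr rfl (g := fun _ => ENNReal.ofReal (1 / Q))]
        · rw [sum_const, nsmul_eq_mul]
        · intro j _
          rw [Real.volume_Ioo]
          congr 1
          field_simp
          ring
      · intro i _ j _ hij
        rw [Function.onFun, Set.disjoint_left]
        rintro x ⟨h5, h6⟩ ⟨h7, h8⟩
        rw [div_lt_iff₀ hQr] at h5 h7
        rw [lt_div_iff₀ hQr] at h6 h8
        have e1 : (i : ℝ) < j + 1 := by linarith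
        have e2 : (j : ℝ) < i + 1 := by linarith
        have e3 : i < j + 1 := by exact_mod_cast e1
        have e4 : j < i + 1 := by exact_mod_cast e2
        omega
      · exact fun j _ => measurableSet_Ioo
    have h5 : (A2.card : ℝ≥0∞) * ENNReal.ofReal (1 / Q) ≤ ENNReal.ofReal v := by
      rw [← h4]
      exact (measure_mono (Set.iUnion₂_subset h3)).trans hvol
    have h6 : ENNReal.ofReal ((A2.card : ℝ) * (1 / Q)) ≤ ENNReal.ofReal v := by
      rwa [ENNReal.ofReal_mul (Nat.cast_nonneg _), ENNReal.ofReal_natCast]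
    rw [ENNReal.ofReal_le_ofReal_iff hv, mul_one_div, div_le_iff₀ hQr] at h6
    linarith
  rw [hcard]
  push_cast
  linarith

/-- integrability of a function at integer parts of a continuous function -/
theorem flc_ii (h : ℕ → ℂ) {g : ℝ → ℝ} {a b : ℝ} (hab : a ≤ b) (hg : ContinuousOn g (Set.Icc a b)) :
    IntervalIntegrable (fun x => h ⌊g x⌋₊) volume a b := by
  rw [intervalIntegrable_iff, Set.uIoc_of_le hab]
  obtain ⟨M, hM⟩ := isCompact_Icc.bddAbove_image hg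
  obtain ⟨D, -, hD⟩ := fl_bdd h M
  have hfin : IsFiniteMeasure ((volume : Measure ℝ).restrict (Set.Ioc a b)) := ⟨by simp⟩
  refine Integrable.of_bound (C := D) ?_ ?_
  · have h4 : AEMeasurable g (volume.restrict (Set.Ioc a b)) :=
      (hg.mono Set.Ioc_subset_Icc_self).aemeasurable measurableSet_Ioc
    exact ((fl_measC h).comp_aemeasurable h4).aestronglyMeasurable
  · refine (ae_restrict_iff' measurableSet_Ioc).2 (Eventually.of_forall fun t ht => hD _ ?_)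
    exact hM ⟨t, Set.Ioc_subset_Icc_self ht, rfl⟩

/-- integrability of the integer part of a continuous function -/
theorem flr_ii {g : ℝ → ℝ} {a b : ℝ} (hab : a ≤ b) (hg : ContinuousOn g (Set.Icc a b)) :
    IntervalIntegrable (fun x => ((⌊g x⌋₊ : ℕ) : ℝ)) volume a b := by
  have h1 := flc_ii (fun m => ((m : ℝ) : ℂ)) hab hg
  have h2 := h1.norm
  refine h2.congr fun x _ => ?_
  simp

/-- **bad cells for the difference of sum and integral** -/
theorem cells_dd (f : ℕ → ℂ) (hf : ∀ m, ‖f m‖ ≤ 1) (g : ℝ → ℝ) (b : ℝ) (n1 n2 : ℕ) (hn : n1 ≤ n2)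
    (hgc : ContinuousOn g (Set.Icc (n1 : ℝ) n2)) {M : ℝ} (hg0 : ∀ x, (n1 : ℝ) ≤ x → x ≤ n2 → 0 ≤ g x ∧ g x ≤ M)
    {Y v : ℝ} (hY : 0 < Y) (hv : 0 ≤ v) (Q : ℕ) (hQ : 0 < Q)
    (hvol : volume {u : ℝ | u ∈ Set.Icc (0 : ℝ) 1 ∧ Y < ‖DD f g b n1 n2 u‖} ≤ ENNReal.ofReal v) :
    ((badc (DD f g b n1 n2) (2 * Y) Q).card : ℝ) ≤ 4 * ((n2 : ℝ) - n1) * (Real.exp (b + 1) * M) / Y + Q * v := by
  have hQr : (0 : ℝ) < Q := by exact_mod_cast hQ
  have hnr : (n1 : ℝ) ≤ n2 := by exact_mod_cast hn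
  set F : ℝ → ℝ → ℕ := fun x u => ⌊Real.exp (b + u) * g x⌋₊ with hF
  have hFm : ∀ x : ℝ, (n1 : ℝ) ≤ x → x ≤ n2 → ∀ u u' : ℝ, u ≤ u' → F x u ≤ F x u' := by
    intro x h1 h2 u u' huu
    have h3 := (hg0 x h1 h2).1
    apply Nat.floor_le_floor
    have := Real.exp_le_exp.2 (show b + u ≤ b + u' by linarith)
    gcongr
  have hFi : ∀ u : ℝ, IntervalIntegrable (fun x => ((F x u : ℕ) : ℝ)) volume (n1 : ℝ) n2 := fun u =>
    flr_ii hnr (hgc.const_smul (Real.exp (b + u)))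
  have hfi : ∀ u : ℝ, IntervalIntegrable (fun x => f (F x u)) volume (n1 : ℝ) n2 := fun u =>
    flc_ii f hnr (hgc.const_smul (Real.exp (b + u)))
  set W : ℕ → ℝ := fun j => 2 * (∑ n ∈ Ioc n1 n2, ((F n (((j : ℝ) + 1) / Q) : ℝ) - F n ((j : ℝ) / Q)) +
    ∫ x in (n1 : ℝ)..(n2 : ℝ), ((F x (((j : ℝ) + 1) / Q) : ℝ) - F x ((j : ℝ) / Q))) with hW
  have hstep : ∀ j : ℕ, (j : ℝ) / Q ≤ ((j : ℝ) + 1) / Q := fun j => by gcongr; linarith
  have hdiff0 : ∀ (j : ℕ) (x : ℝ), (n1 : ℝ) ≤ x → x ≤ n2 →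
      0 ≤ (F x (((j : ℝ) + 1) / Q) : ℝ) - F x ((j : ℝ) / Q) := by
    intro j x h1 h2
    apply sub_nonneg.2
    exact_mod_cast hFm x h1 h2 _ _ (hstep j)
  have hmem : ∀ n ∈ Ioc n1 n2, (n1 : ℝ) ≤ n ∧ (n : ℝ) ≤ n2 := by
    intro n hn'
    rw [mem_Ioc] at hn'
    exact ⟨by exact_mod_cast hn'.1.le, by exact_mod_cast hn'.2⟩
  refine cells_gen (DD f g b n1 n2) hY hv Q hQ W (fun j _ => ?_) ?_ ?_ hvol
  · have h1 : 0 ≤ ∑ n ∈ Ioc n1 n2, ((F n (((j : ℝ) + 1) / Q) : ℝ) - F n ((j : ℝ) / Q)) :=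
      sum_nonneg fun n hn' => hdiff0 j n (hmem n hn').1 (hmem n hn').2
    have h2 : 0 ≤ ∫ x in (n1 : ℝ)..(n2 : ℝ), ((F x (((j : ℝ) + 1) / Q) : ℝ) - F x ((j : ℝ) / Q)) :=
      intervalIntegral.integral_nonneg hnr fun x hx => hdiff0 j x hx.1 hx.2
    rw [hW]
    positivity
  · have htel : ∀ x : ℝ, ∑ j ∈ range Q, ((F x (((j : ℝ) + 1) / Q) : ℝ) - F x ((j : ℝ) / Q)) =
        (F x 1 : ℝ) - F x 0 := by
      intro x
      have h1 := sum_range_sub (fun j : ℕ => (F x ((j : ℝ) / Q) : ℝ)) Q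
      have h2 : ∑ j ∈ range Q, ((F x (((j : ℝ) + 1) / Q) : ℝ) - F x ((j : ℝ) / Q)) =
          ∑ j ∈ range Q, ((F x (((j + 1 : ℕ) : ℝ) / Q) : ℝ) - F x ((j : ℝ) / Q)) := by
        refine sum_congr rfl fun j _ => ?_
        push_cast
        rfl
      rw [h2, h1, div_self hQr.ne']
      simp
    have hle : ∀ x : ℝ, (n1 : ℝ) ≤ x → x ≤ n2 → (F x 1 : ℝ) - F x 0 ≤ Real.exp (b + 1) * M := by
      intro x h1 h2
      have h3 := hg0 x h1 h2
      have h4 : ((F x 1 : ℕ) : ℝ) ≤ Real.exp (b + 1) * g x := Nat.floor_le (by have := h3.1; positivity)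
      have h5 : (0 : ℝ) ≤ (F x 0 : ℝ) := Nat.cast_nonneg _
      have h6 : Real.exp (b + 1) * g x ≤ Real.exp (b + 1) * M := by
        have := h3.2
        gcongr
      linarith
    rw [hW]
    simp only
    rw [← mul_sum, sum_add_distrib, sum_comm, ← intervalIntegral.integral_finsetSum
      (fun j _ => (hFi _).sub (hFi _))]
    simp only [htel]
    have h1 : ∑ n ∈ Ioc n1 n2, ((F n 1 : ℝ) - F n 0) ≤ ((n2 : ℝ) - n1) * (Real.exp (b + 1) * M) := by
      calc _ ≤ ∑ n ∈ Ioc n1 n2, Real.exp (b + 1) * M := sum_le_sum fun n hn' => hle n (hmem n hn').1 (hmem n hn').2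
        _ = _ := by
            rw [sum_const, Nat.card_Ioc, nsmul_eq_mul, Nat.cast_sub hn]
    have h2 : ∫ x in (n1 : ℝ)..(n2 : ℝ), ((F x 1 : ℝ) - F x 0) ≤ ((n2 : ℝ) - n1) * (Real.exp (b + 1) * M) := by
      calc _ ≤ ∫ x in (n1 : ℝ)..(n2 : ℝ), Real.exp (b + 1) * M :=
            intervalIntegral.integral_mono_on hnr ((hFi 1).sub (hFi 0)) (by simp) fun x hx => hle x hx.1 hx.2
        _ = _ := by
            rw [intervalIntegral.integral_const, smul_eq_mul]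
    linarith
  · intro j hj u u' h1 h2 h3 h4
    have hpt : ∀ x : ℝ, (n1 : ℝ) ≤ x → x ≤ n2 →
        ‖f (F x u) - f (F x u')‖ ≤ 2 * ((F x (((j : ℝ) + 1) / Q) : ℝ) - F x ((j : ℝ) / Q)) := by
      intro x hx1 hx2
      have e1 := hFm x hx1 hx2 _ _ h1
      have e2 := hFm x hx1 hx2 _ _ h2
      have e3 := hFm x hx1 hx2 _ _ h3
      have e4 := hFm x hx1 hx2 _ _ h4
      by_cases heq : F x u = F x u'
      · rw [heq, sub_self, norm_zero]
        have := hdiff0 j x hx1 hx2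
        linarith
      · have h8 : F x ((j : ℝ) / Q) + 1 ≤ F x (((j : ℝ) + 1) / Q) := by omega
        have h9 : (1 : ℝ) ≤ (F x (((j : ℝ) + 1) / Q) : ℝ) - F x ((j : ℝ) / Q) := by
          have : ((F x ((j : ℝ) / Q) : ℝ)) + 1 ≤ F x (((j : ℝ) + 1) / Q) := by exact_mod_cast h8
          linarith
        calc ‖f (F x u) - f (F x u')‖ ≤ ‖f (F x u)‖ + ‖f (F x u')‖ := norm_sub_le _ _
          _ ≤ 1 + 1 := add_le_add (hf _) (hf _)
          _ = 2 * 1 := by ring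
          _ ≤ _ := by gcongr
    have heq : DD f g b n1 n2 u - DD f g b n1 n2 u' =
        ∑ n ∈ Ioc n1 n2, (f (F n u) - f (F n u')) - ∫ x in (n1 : ℝ)..(n2 : ℝ), (f (F x u) - f (F x u')) := by
      rw [intervalIntegral.integral_sub (hfi u) (hfi u'), sum_sub_distrib]
      unfold DD
      rw [hF]
      ring
    rw [heq, hW]
    simp only
    have h5 : ‖∑ n ∈ Ioc n1 n2, (f (F n u) - f (F n u'))‖ ≤
        2 * ∑ n ∈ Ioc n1 n2, ((F n (((j : ℝ) + 1) / Q) : ℝ) - F n ((j : ℝ) / Q)) := by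
      rw [mul_sum]
      exact (norm_sum_le _ _).trans (sum_le_sum fun n hn' => hpt n (hmem n hn').1 (hmem n hn').2)
    have h6 : ‖∫ x in (n1 : ℝ)..(n2 : ℝ), (f (F x u) - f (F x u'))‖ ≤
        2 * ∫ x in (n1 : ℝ)..(n2 : ℝ), ((F x (((j : ℝ) + 1) / Q) : ℝ) - F x ((j : ℝ) / Q)) := by
      rw [← intervalIntegral.integral_const_mul]
      refine intervalIntegral.norm_integral_le_of_norm_le hnr ?_ (((hFi _).sub (hFi _)).const_mul 2)
      exact Eventually.of_forall fun x hx => hpt x hx.1.le hx.2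
    calc _ ≤ ‖∑ n ∈ Ioc n1 n2, (f (F n u) - f (F n u'))‖ +
          ‖∫ x in (n1 : ℝ)..(n2 : ℝ), (f (F x u) - f (F x u'))‖ := norm_sub_le _ _
      _ ≤ _ := by linarith

end Pool.Agent.Q138.PS
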