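import Pool.Agent.Q138.PS.TB
import Pool.Agent.Q138.PS.PK
import Pool.Agent.Q138.Met.Exc

set_option autoImplicit false

/-!
# Power saving sampling on dyadic blocks: the exceptional dilations are a null set
-/

namespace Pool.Agent.Q138.PS

open Finset MeasureTheory Filter Topology
open scoped ENNReal NNReal
open Pool.Agent.Q138.GS

/-- **the number of bad cells at one scale**, power saving form -/
theorem scale_dd (c C : ℝ) (hc : 0 < c) (hC : 0 < C) (d : ℕ) (hd : 2 ≤ d) (b θ κ ε lam : ℝ)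
    (hκ1 : κ ≤ kp d) (hκ2 : κ ≤ kp d + d - θ) (hε : 0 < ε) (hθ : 0 ≤ θ) (hlam : 0 ≤ lam) :
    ∃ (K : ℝ) (B : ℕ), 0 ≤ K ∧ ∀ᶠ N : ℕ in atTop, ∀ (φ : ℕ → ℝ → ℝ) (x0 : ℝ) (f : ℕ → ℂ) (J n1 n2 Q : ℕ),
      (∀ m, ‖f m‖ ≤ 1) → RegU φ (d + 1) x0 c C → 0 < x0 → x0 ≤ J → N ≤ 2 * J → J ≤ n1 → n1 ≤ n2 → n2 ≤ N →
      Real.exp (φ 0 N) ≤ (N : ℝ) ^ θ → (N : ℝ) ^ ε ≤ Real.exp (φ 0 J) → 0 < Q →
      (Q : ℝ) ≤ 2 * (N : ℝ) ^ (θ + κ - 2 * lam) →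
      ((badc (DD f (fun x => Real.exp (φ 0 x)) b n1 n2) (2 * (N : ℝ) ^ (1 - lam)) Q).card : ℝ) ≤
        K * (Real.log N) ^ B * (N : ℝ) ^ (θ + lam) := by
  obtain ⟨K1, B1, hK1, hwin⟩ := win_l2g c C hc hC d hd 1 b θ κ ε hκ1 hκ2 hε hθ
  have hb1 := Real.exp_pos (b + 1)
  refine ⟨4 * Real.exp (b + 1) + 2 * K1, B1, by positivity, ?_⟩
  filter_upwards [hwin, eventually_ge_atTop 1,
    (Real.tendsto_log_atTop.comp tendsto_natCast_atTop_atTop).eventually_ge_atTop 2] with N hN hN1 hl2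
  intro φ x0 f J n1 n2 Q hf hU hx0 hxJ hNJ hJn1 hn12 hn2N hθN hεJ hQ hQN
  simp only [Function.comp] at hl2
  have hN0 : (0 : ℝ) < N := by exact_mod_cast hN1
  have hN1r : (1 : ℝ) ≤ N := by exact_mod_cast hN1
  have hNJr : (N : ℝ) ≤ J * (Real.log N) ^ 1 := by
    have h1 : (N : ℝ) ≤ 2 * J := by exact_mod_cast hNJ
    have h2 : (0 : ℝ) ≤ J := Nat.cast_nonneg _
    rw [pow_one]
    nlinarith
  obtain ⟨hDm, hms⟩ := hN φ x0 f J n1 n2 hf hU hx0 hxJ hNJr hJn1 hn12 hn2N hθN hεJ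
  set ℓ := Real.log N with hℓ
  set D : ℝ → ℂ := DD f (fun x => Real.exp (φ 0 x)) b n1 n2 with hD
  set Y : ℝ := (N : ℝ) ^ (1 - lam) with hY
  have hY0 : 0 < Y := by positivity
  set E : ℝ := K1 * ℓ ^ B1 * (N : ℝ) ^ (2 - κ) with hE
  have hl0 : 0 ≤ ℓ := by linarith
  have hE0 : 0 ≤ E := by positivity
  have hsub : {u : ℝ | u ∈ Set.Icc (0 : ℝ) 1 ∧ Y < ‖D u‖} ⊆
      {u : ℝ | ENNReal.ofReal Y ^ 2 ≤ ‖D u‖ₑ ^ 2} ∩ Set.Icc (0 : ℝ) 1 := by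
    rintro u ⟨hu, hYD⟩
    refine ⟨?_, hu⟩
    rw [Set.mem_ofPred_eq]
    gcongr
    rw [← ofReal_norm]
    exact ENNReal.ofReal_le_ofReal hYD.le
  have hvol : volume {u : ℝ | u ∈ Set.Icc (0 : ℝ) 1 ∧ Y < ‖D u‖} ≤ ENNReal.ofReal (E / Y ^ 2) := by
    refine (measure_mono hsub).trans ((Measure.le_restrict_apply _ _).trans ?_)
    have hZ2 : ENNReal.ofReal Y ^ 2 ≠ 0 := by
      have : 0 < ENNReal.ofReal Y := ENNReal.ofReal_pos.2 hY0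
      positivity
    have hZt : ENNReal.ofReal Y ^ 2 ≠ ∞ := ENNReal.pow_ne_top ENNReal.ofReal_ne_top
    have h2 := meas_ge_le_lintegral_div (μ := volume.restrict (Set.Icc (0 : ℝ) 1)) (hDm.enorm.pow_const 2) hZ2 hZt
    refine h2.trans ?_
    have h3 : ENNReal.ofReal (E / Y ^ 2) = ENNReal.ofReal E / ENNReal.ofReal Y ^ 2 := by
      rw [ENNReal.ofReal_div_of_pos (x := E) (pow_pos hY0 2), ENNReal.ofReal_pow hY0.le]
    rw [h3]
    exact ENNReal.div_le_div_right hms _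
  have hn1r : (J : ℝ) ≤ n1 := by exact_mod_cast hJn1
  have hn2r : (n2 : ℝ) ≤ N := by exact_mod_cast hn2N
  have hx1 : x0 ≤ n1 := hxJ.trans hn1r
  have hcont : ContinuousOn (fun x => Real.exp (φ 0 x)) (Set.Icc (n1 : ℝ) n2) :=
    (phi_cont hU (Nat.zero_le _) (b := n2) hx1).rexp
  have hcells := cells_dd f hf (fun x => Real.exp (φ 0 x)) b n1 n2 hn12 hcont (M := (N : ℝ) ^ θ) (fun x h1 h2 =>
    ⟨(Real.exp_pos _).le, (Real.exp_le_exp.2 (phi_mono hU hc hx0 (hx1.trans h1) (h2.trans hn2r))).trans hθN⟩)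
    hY0 (show 0 ≤ E / Y ^ 2 by positivity) Q hQ hvol
  refine hcells.trans ?_
  have e1 : 4 * ((n2 : ℝ) - n1) * (Real.exp (b + 1) * (N : ℝ) ^ θ) / Y ≤ 4 * Real.exp (b + 1) * (N : ℝ) ^ (θ + lam) := by
    have h1 : (n2 : ℝ) - n1 ≤ N := by linarith [(Nat.cast_nonneg n1 : (0 : ℝ) ≤ n1)]
    calc 4 * ((n2 : ℝ) - n1) * (Real.exp (b + 1) * (N : ℝ) ^ θ) / Y ≤ 4 * N * (Real.exp (b + 1) * (N : ℝ) ^ θ) / Y := by
          gcongr
      _ = 4 * Real.exp (b + 1) * ((N : ℝ) ^ (1 : ℝ) * (N : ℝ) ^ θ / Y) := by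
          rw [Real.rpow_one]
          ring
      _ = _ := by
          rw [hY, ← Real.rpow_add hN0, ← Real.rpow_sub hN0]
          congr 2
          ring
  have e2 : Q * (E / Y ^ 2) ≤ 2 * K1 * ℓ ^ B1 * (N : ℝ) ^ (θ + lam) := by
    have h1 : Y ^ 2 = (N : ℝ) ^ (2 - 2 * lam) := by
      rw [hY, ← Real.rpow_natCast, ← Real.rpow_mul hN0.le]
      congr 1
      push_cast
      ring
    have h2 : (N : ℝ) ^ (θ + κ - 2 * lam) * ((N : ℝ) ^ (2 - κ) / (N : ℝ) ^ (2 - 2 * lam)) = (N : ℝ) ^ θ := by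
      rw [← Real.rpow_sub hN0, ← Real.rpow_add hN0]
      congr 1
      ring
    have h3 : (N : ℝ) ^ θ ≤ (N : ℝ) ^ (θ + lam) := Real.rpow_le_rpow_of_exponent_le hN1r (by linarith)
    calc (Q : ℝ) * (E / Y ^ 2) ≤ (2 * (N : ℝ) ^ (θ + κ - 2 * lam)) * (E / Y ^ 2) := by gcongr
      _ = 2 * K1 * ℓ ^ B1 * ((N : ℝ) ^ (θ + κ - 2 * lam) * ((N : ℝ) ^ (2 - κ) / (N : ℝ) ^ (2 - 2 * lam))) := by
          rw [hE, h1]
          ring
      _ = 2 * K1 * ℓ ^ B1 * (N : ℝ) ^ θ := by rw [h2]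
      _ ≤ _ := by gcongr
  have e3 : 4 * Real.exp (b + 1) * (N : ℝ) ^ (θ + lam) ≤ 4 * Real.exp (b + 1) * ℓ ^ B1 * (N : ℝ) ^ (θ + lam) := by
    have : 1 ≤ ℓ ^ B1 := one_le_pow₀ (by linarith)
    have h5 : 4 * Real.exp (b + 1) * 1 ≤ 4 * Real.exp (b + 1) * ℓ ^ B1 := by gcongr
    rw [mul_one] at h5
    gcongr
  calc _ ≤ 4 * Real.exp (b + 1) * ℓ ^ B1 * (N : ℝ) ^ (θ + lam) + 2 * K1 * ℓ ^ B1 * (N : ℝ) ^ (θ + lam) :=
        add_le_add (e1.trans e3) e2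
    _ = _ := by ring

/-- admissible at the dyadic block -/
def AdB (c C : ℝ) (d : ℕ) (θ ε : ℝ) (j : ℕ) (g : ℝ → ℝ) : Prop := ∃ (φ : ℕ → ℝ → ℝ) (x0 : ℝ), 0 < x0 ∧
  RegU φ (d + 1) x0 c C ∧ x0 ≤ (2 : ℝ) ^ j ∧ (∀ x, (2 : ℝ) ^ j ≤ x → x ≤ (2 : ℝ) ^ (j + 1) → g x = Real.exp (φ 0 x)) ∧
  Real.exp (φ 0 ((2 : ℝ) ^ (j + 1))) ≤ ((2 : ℝ) ^ (j + 1)) ^ θ ∧ ((2 : ℝ) ^ (j + 1)) ^ ε ≤ Real.exp (φ 0 ((2 : ℝ) ^ j))

theorem AdB.cont {c C : ℝ} {d : ℕ} {θ ε : ℝ} {j : ℕ} {g : ℝ → ℝ} (h : AdB c C d θ ε j g) :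
    ContinuousOn g (Set.Icc ((2 : ℝ) ^ j) ((2 : ℝ) ^ (j + 1))) := by
  obtain ⟨φ, x0, hx0, hU, hxj, hg, -, -⟩ := h
  have h1 : ContinuousOn (fun x => Real.exp (φ 0 x)) (Set.Icc ((2 : ℝ) ^ j) ((2 : ℝ) ^ (j + 1))) :=
    (phi_cont hU (Nat.zero_le _) hxj).rexp
  exact h1.congr fun x hx => hg x hx.1 hx.2

theorem DD_le (f : ℕ → ℂ) (hf : ∀ m, ‖f m‖ ≤ 1) (g : ℝ → ℝ) (b : ℝ) {n1 n2 : ℕ} (hn : n1 ≤ n2) (u : ℝ) :
    ‖DD f g b n1 n2 u‖ ≤ 2 * ((n2 : ℝ) - n1) := by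
  have hnr : (n1 : ℝ) ≤ n2 := by exact_mod_cast hn
  unfold DD
  refine (norm_sub_le _ _).trans ?_
  have h2 : ‖∑ n ∈ Ioc n1 n2, f ⌊Real.exp (b + u) * g n⌋₊‖ ≤ (n2 : ℝ) - n1 := by
    refine (norm_sum_le _ _).trans ((sum_le_sum fun n _ => hf _).trans ?_)
    rw [sum_const, Nat.card_Ioc, nsmul_eq_mul, mul_one, Nat.cast_sub hn]
  have h3 : ‖∫ x in (n1 : ℝ)..(n2 : ℝ), f ⌊Real.exp (b + u) * g x⌋₊‖ ≤ (n2 : ℝ) - n1 := by
    refine (intervalIntegral.norm_integral_le_of_norm_le_const (C := 1) fun x _ => hf _).trans ?_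
    rw [one_mul, abs_of_nonneg (sub_nonneg.2 hnr)]
  linarith

theorem DD_add (f : ℕ → ℂ) (g : ℝ → ℝ) (b : ℝ) {n1 n2 n3 : ℕ} (h12 : n1 ≤ n2) (h23 : n2 ≤ n3)
    (hg : ContinuousOn g (Set.Icc (n1 : ℝ) n3)) (u : ℝ) :
    DD f g b n1 n3 u = DD f g b n1 n2 u + DD f g b n2 n3 u := by
  have h12r : (n1 : ℝ) ≤ n2 := by exact_mod_cast h12
  have h23r : (n2 : ℝ) ≤ n3 := by exact_mod_cast h23
  have e1 := flc_ii f h12r ((hg.mono (Set.Icc_subset_Icc_right h23r)).const_smul (Real.exp (b + u)))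
  have e2 := flc_ii f h23r ((hg.mono (Set.Icc_subset_Icc_left h12r)).const_smul (Real.exp (b + u)))
  unfold DD
  have e3 := intervalIntegral.integral_add_adjacent_intervals e1 e2
  simp only [Pi.smul_apply, smul_eq_mul] at e3
  rw [← e3, ← sum_Ioc_consecutive _ h12 h23]
  ring

open Classical in
/-- **the exceptional dilations for all subintervals of the dyadic blocks** -/
theorem block_null {ι : Type} (c C : ℝ) (hc : 0 < c) (hC : 0 < C) (d : ℕ) (hd : 2 ≤ d) (b θ κ ε δ lam : ℝ)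
    (hκ1 : κ ≤ kp d) (hκ2 : κ ≤ kp d + d - θ) (hε : 0 < ε) (hθ : 0 ≤ θ) (hδ : 0 ≤ δ) (hlam : 0 ≤ lam)
    (hlam1 : lam ≤ 1) (hpos : 0 < θ + κ - 2 * lam)
    (Ω : ℕ → Finset ι) (g : ι → ℝ → ℝ) (f : ι → ℕ → ℂ) (hf : ∀ ω m, ‖f ω m‖ ≤ 1)
    (hcard : ∀ᶠ j : ℕ in atTop, ((Ω j).card : ℝ) ≤ ((2 : ℝ) ^ (j + 1)) ^ δ)
    (hreg : ∀ᶠ j : ℕ in atTop, ∀ ω ∈ Ω j, AdB c C d θ ε j (g ω))
    {s : ℝ} (hs : (θ + δ + 2 * lam) / (θ + κ - 2 * lam) < s) :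
    μH[s] {u : ℝ | u ∈ Set.Icc (0 : ℝ) 1 ∧ ¬ ∀ᶠ j : ℕ in atTop, ∀ ω ∈ Ω j, ∀ n1 n2 : ℕ, 2 ^ j ≤ n1 → n1 ≤ n2 →
      n2 ≤ 2 ^ (j + 1) → ‖DD (f ω) (g ω) b n1 n2 u‖ ≤ 12 * ((2 : ℝ) ^ (j + 1)) ^ (1 - lam)} = 0 := by
  obtain ⟨K, B, hK, hscale⟩ := scale_dd c C hc hC d hd b θ κ ε lam hκ1 hκ2 hε hθ hlam
  have hs0 : 0 < s := lt_of_le_of_lt (by positivity) hs
  set t : ℝ := θ + κ - 2 * lam with ht
  set a : ℝ := θ + δ + 2 * lam with ha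
  have ha0 : 0 ≤ a := by positivity
  set Q : ℕ → ℕ := fun j => ⌈((2 : ℝ) ^ (j + 1)) ^ t⌉₊ with hQ
  have hQ0 : ∀ j, 0 < Q j := fun j => Nat.ceil_pos.2 (by positivity)
  have hQlow : ∀ j, ((2 : ℝ) ^ (j + 1)) ^ t ≤ Q j := fun j => Nat.le_ceil _
  have hQup : ∀ j, (Q j : ℝ) ≤ 2 * ((2 : ℝ) ^ (j + 1)) ^ t := by
    intro j
    have h1 := (Nat.ceil_lt_add_one (show (0 : ℝ) ≤ ((2 : ℝ) ^ (j + 1)) ^ t by positivity)).le
    have h2 : 1 ≤ ((2 : ℝ) ^ (j + 1)) ^ t := Real.one_le_rpow (one_le_pow₀ (by norm_num)) hpos.le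
    calc (Q j : ℝ) ≤ ((2 : ℝ) ^ (j + 1)) ^ t + 1 := h1
      _ ≤ _ := by linarith
  set S : ℕ → ℕ := fun j => ⌈((2 : ℝ) ^ (j + 1)) ^ (1 - lam)⌉₊ with hS
  have hSlow : ∀ j, ((2 : ℝ) ^ (j + 1)) ^ (1 - lam) ≤ S j := fun j => Nat.le_ceil _
  have hone : ∀ j : ℕ, 1 ≤ ((2 : ℝ) ^ (j + 1)) ^ (1 - lam) := fun j =>
    Real.one_le_rpow (one_le_pow₀ (by norm_num)) (by linarith)
  have hSup : ∀ j, (S j : ℝ) ≤ 2 * ((2 : ℝ) ^ (j + 1)) ^ (1 - lam) := by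
    intro j
    have h1 := (Nat.ceil_lt_add_one (show (0 : ℝ) ≤ ((2 : ℝ) ^ (j + 1)) ^ (1 - lam) by positivity)).le
    have h2 := hone j
    calc (S j : ℝ) ≤ ((2 : ℝ) ^ (j + 1)) ^ (1 - lam) + 1 := h1
      _ ≤ _ := by linarith
  have hS0 : ∀ j, 0 < S j := fun j => Nat.ceil_pos.2 (by positivity)
  have h2j : Tendsto (fun j : ℕ => 2 ^ (j + 1)) atTop atTop :=
    (tendsto_pow_atTop_atTop_of_one_lt (by norm_num : 1 < 2)).comp (tendsto_add_atTop_nat 1)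
  obtain ⟨j0, hj0⟩ := eventually_atTop.1 (hcard.and (hreg.and (h2j.eventually hscale)))
  set thr : ℕ → ℝ := fun j => 2 * ((2 : ℝ) ^ (j + 1)) ^ (1 - lam) with hthr
  set Z : ℕ → Finset ℕ := fun j => if j0 ≤ j then (Ω j).biUnion (fun ω =>
    (range (2 ^ j / S j + 1)).biUnion fun i => badc (DD (f ω) (g ω) b (2 ^ j) (2 ^ j + i * S j)) (thr j) (Q j)) else ∅
    with hZ
  have hgrid : ∀ j i, i ∈ range (2 ^ j / S j + 1) → 2 ^ j + i * S j ≤ 2 ^ (j + 1) := by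
    intro j i hi
    rw [mem_range] at hi
    have h1 : i ≤ 2 ^ j / S j := by omega
    have h2 : i * S j ≤ 2 ^ j := (Nat.mul_le_mul_right _ h1).trans (Nat.div_mul_le_self _ _)
    rw [pow_succ]
    omega
  have hbad : ∀ j, j0 ≤ j → ∀ ω ∈ Ω j, ∀ i ∈ range (2 ^ j / S j + 1),
      ((badc (DD (f ω) (g ω) b (2 ^ j) (2 ^ j + i * S j)) (thr j) (Q j)).card : ℝ) ≤
      K * ((j : ℝ) + 1) ^ B * ((2 : ℝ) ^ (j + 1)) ^ (θ + lam) := by
    intro j hj ω hω i hi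
    obtain ⟨-, h2, h4⟩ := hj0 j hj
    obtain ⟨φ, x0, hx0, hU, hxj, hg, hup, hlow⟩ := h2 ω hω
    have hge := hgrid j i hi
    have h5 := h4 φ x0 (f ω) (2 ^ j) (2 ^ j) (2 ^ j + i * S j) (Q j) (hf ω) hU hx0 (by push_cast; exact hxj)
      (by rw [pow_succ]; omega) le_rfl (Nat.le_add_right _ _) hge (by push_cast; exact hup) (by push_cast; exact hlow)
      (hQ0 j) (by push_cast; exact hQup j)
    have e : DD (f ω) (fun x => Real.exp (φ 0 x)) b (2 ^ j) (2 ^ j + i * S j) =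
        DD (f ω) (g ω) b (2 ^ j) (2 ^ j + i * S j) := by
      funext u
      unfold DD
      have hger : ((2 ^ j + i * S j : ℕ) : ℝ) ≤ (2 : ℝ) ^ (j + 1) := by exact_mod_cast hge
      congr 1
      · refine sum_congr rfl fun n hn => ?_
        rw [mem_Ioc] at hn
        have h6 : (2 : ℝ) ^ j ≤ n := by exact_mod_cast hn.1.le
        have h7 : (n : ℝ) ≤ (2 : ℝ) ^ (j + 1) := by exact_mod_cast hn.2.trans hge
        rw [hg n h6 h7]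
      · refine intervalIntegral.integral_congr fun x hx => ?_
        rw [Set.uIcc_of_le (by exact_mod_cast Nat.le_add_right _ _)] at hx
        have h6 : (2 : ℝ) ^ j ≤ x := by
          have := hx.1
          push_cast at this
          exact this
        simp only
        rw [hg x h6 (hx.2.trans hger)]
    rw [e] at h5
    push_cast at h5
    refine h5.trans ?_
    have hlog : Real.log ((2 : ℝ) ^ (j + 1)) ≤ (j : ℝ) + 1 := by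
      rw [Real.log_pow]
      push_cast
      nlinarith [Real.log_two_lt_d9, (Nat.cast_nonneg j : (0 : ℝ) ≤ j)]
    have hlog0 : 0 ≤ Real.log ((2 : ℝ) ^ (j + 1)) := Real.log_nonneg (one_le_pow₀ (by norm_num))
    gcongr
  have hZcard : ∀ j, ((Z j).card : ℝ) ≤ (2 * K * 2 ^ a) * ((j : ℝ) + 1) ^ B * ((2 : ℝ) ^ a) ^ j := by
    intro j
    rw [hZ]
    simp only
    split_ifs with hj
    · have h1 : ((((Ω j).biUnion (fun ω => (range (2 ^ j / S j + 1)).biUnion fun i =>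
          badc (DD (f ω) (g ω) b (2 ^ j) (2 ^ j + i * S j)) (thr j) (Q j))).card : ℕ) : ℝ) ≤
          ∑ ω ∈ Ω j, ∑ i ∈ range (2 ^ j / S j + 1),
            ((badc (DD (f ω) (g ω) b (2 ^ j) (2 ^ j + i * S j)) (thr j) (Q j)).card : ℝ) := by
        have h2 : ((Ω j).biUnion (fun ω => (range (2 ^ j / S j + 1)).biUnion fun i =>
          badc (DD (f ω) (g ω) b (2 ^ j) (2 ^ j + i * S j)) (thr j) (Q j))).card ≤
          ∑ ω ∈ Ω j, ∑ i ∈ range (2 ^ j / S j + 1),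
            (badc (DD (f ω) (g ω) b (2 ^ j) (2 ^ j + i * S j)) (thr j) (Q j)).card :=
          card_biUnion_le.trans (sum_le_sum fun ω _ => card_biUnion_le)
        exact_mod_cast h2
      refine h1.trans ?_
      have hgc : (((2 ^ j / S j + 1 : ℕ)) : ℝ) ≤ 2 * ((2 : ℝ) ^ (j + 1)) ^ lam := by
        have h2 : ((2 ^ j / S j : ℕ) : ℝ) ≤ ((2 : ℝ) ^ (j + 1)) ^ lam := by
          have h3 : ((2 ^ j / S j : ℕ) : ℝ) ≤ ((2 ^ j : ℕ) : ℝ) / (S j : ℝ) := Nat.cast_div_le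
          refine h3.trans ?_
          have hSr : (0 : ℝ) < S j := by exact_mod_cast hS0 j
          rw [div_le_iff₀ hSr]
          have h4 : ((2 : ℝ) ^ (j + 1)) ^ lam * ((2 : ℝ) ^ (j + 1)) ^ (1 - lam) = (2 : ℝ) ^ (j + 1) := by
            rw [← Real.rpow_add (by positivity)]
            norm_num
          have h5 : ((2 : ℝ) ^ (j + 1)) ^ lam * ((2 : ℝ) ^ (j + 1)) ^ (1 - lam) ≤ ((2 : ℝ) ^ (j + 1)) ^ lam * S j := by
            have := hSlow j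
            gcongr
          rw [h4] at h5
          refine le_trans ?_ h5
          push_cast
          exact pow_le_pow_right₀ (by norm_num) (Nat.le_succ j)
        have h3 : 1 ≤ ((2 : ℝ) ^ (j + 1)) ^ lam := Real.one_le_rpow (one_le_pow₀ (by norm_num)) hlam
        push_cast
        linarith
      calc ∑ ω ∈ Ω j, ∑ i ∈ range (2 ^ j / S j + 1),
            ((badc (DD (f ω) (g ω) b (2 ^ j) (2 ^ j + i * S j)) (thr j) (Q j)).card : ℝ) ≤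
          ∑ ω ∈ Ω j, ∑ i ∈ range (2 ^ j / S j + 1), K * ((j : ℝ) + 1) ^ B * ((2 : ℝ) ^ (j + 1)) ^ (θ + lam) :=
            sum_le_sum fun ω hω => sum_le_sum fun i hi => hbad j hj ω hω i hi
        _ = ((Ω j).card : ℝ) * ((2 ^ j / S j + 1 : ℕ) : ℝ) * (K * ((j : ℝ) + 1) ^ B * ((2 : ℝ) ^ (j + 1)) ^ (θ + lam)) := by
            rw [sum_const, sum_const, card_range, nsmul_eq_mul, nsmul_eq_mul]
            ring
        _ ≤ (((2 : ℝ) ^ (j + 1)) ^ δ) * (2 * ((2 : ℝ) ^ (j + 1)) ^ lam) *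
            (K * ((j : ℝ) + 1) ^ B * ((2 : ℝ) ^ (j + 1)) ^ (θ + lam)) := by
            have := (hj0 j hj).1
            gcongr
        _ = 2 * K * ((j : ℝ) + 1) ^ B *
            (((2 : ℝ) ^ (j + 1)) ^ δ * ((2 : ℝ) ^ (j + 1)) ^ lam * ((2 : ℝ) ^ (j + 1)) ^ (θ + lam)) := by ring
        _ = 2 * K * ((j : ℝ) + 1) ^ B * ((2 : ℝ) ^ a * ((2 : ℝ) ^ a) ^ j) := by
            congr 1
            rw [← Real.rpow_add (by positivity), ← Real.rpow_add (by positivity), ← pow_succ', ← Real.rpow_natCast,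
              ← Real.rpow_natCast, ← Real.rpow_mul (by norm_num), ← Real.rpow_mul (by norm_num), ha]
            congr 1
            ring
        _ = _ := by ring
    · simp only [card_empty, Nat.cast_zero]
      positivity
  have hsum : Summable fun j => ((Z j).card : ℝ) * (1 / (Q j : ℝ)) ^ s := by
    have hr : (2 : ℝ) ^ (a - s * t) < 1 := by
      apply Real.rpow_lt_one_of_one_lt_of_neg (by norm_num)
      rw [div_lt_iff₀ hpos] at hs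
      linarith
    refine Summable.of_nonneg_of_le (fun j => by positivity) (fun j => ?_)
      (poly_geo (2 * K * 2 ^ a) B (r := (2 : ℝ) ^ (a - s * t)) (by positivity) hr)
    have h1 : (1 / (Q j : ℝ)) ^ s ≤ ((2 : ℝ) ^ (-(s * t))) ^ j := by
      have h0 : ((2 : ℝ) ^ j) ^ t ≤ ((2 : ℝ) ^ (j + 1)) ^ t := by
        apply Real.rpow_le_rpow (by positivity) _ hpos.le
        exact pow_le_pow_right₀ (by norm_num) (Nat.le_succ j)
      have h2 : (1 : ℝ) / Q j ≤ (((2 : ℝ) ^ j) ^ t)⁻¹ := by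
        rw [one_div]
        exact inv_anti₀ (by positivity) (h0.trans (hQlow j))
      refine (Real.rpow_le_rpow (by positivity) h2 hs0.le).trans (le_of_eq ?_)
      rw [← Real.rpow_natCast, ← Real.rpow_natCast, ← Real.rpow_mul (by norm_num), ← Real.rpow_neg (by norm_num),
        ← Real.rpow_mul (by norm_num), ← Real.rpow_mul (by norm_num)]
      congr 1
      ring
    calc ((Z j).card : ℝ) * (1 / (Q j : ℝ)) ^ s ≤
        ((2 * K * 2 ^ a) * ((j : ℝ) + 1) ^ B * ((2 : ℝ) ^ a) ^ j) * ((2 : ℝ) ^ (-(s * t))) ^ j := by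
          gcongr
          exact hZcard j
      _ = (2 * K * 2 ^ a) * ((j : ℝ) + 1) ^ B * (((2 : ℝ) ^ a) ^ j * ((2 : ℝ) ^ (-(s * t))) ^ j) := by
          ring
      _ = _ := by
          rw [← mul_pow, ← Real.rpow_add (by norm_num)]
          rfl
  have hnull := cover_null hs0 Z Q hQ0 hsum
  refine measure_mono_null ?_ hnull
  rintro u ⟨hu, hnot⟩
  by_contra hcov
  apply hnot
  rw [Set.mem_ofPred_eq, not_frequently] at hcov
  filter_upwards [hcov, eventually_ge_atTop j0] with j hj1 hj2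
  intro ω hω n1 n2 hn1 hn12 hn2
  obtain ⟨-, hreg', -⟩ := hj0 j hj2
  have hgc := (hreg' ω hω).cont
  -- the grid points
  have hgr : ∀ i ∈ range (2 ^ j / S j + 1), ‖DD (f ω) (g ω) b (2 ^ j) (2 ^ j + i * S j) u‖ ≤ thr j := by
    intro i hi
    by_contra hlt
    rw [not_le] at hlt
    apply hj1
    have hQr : (0 : ℝ) < Q j := by exact_mod_cast hQ0 j
    obtain ⟨i0, hi0, h1, h2⟩ : ∃ i0, i0 < Q j ∧ (i0 : ℝ) / Q j ≤ u ∧ u ≤ ((i0 : ℝ) + 1) / Q j := by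
      rcases hu.2.eq_or_lt with h1 | h1
      · refine ⟨Q j - 1, Nat.sub_lt (hQ0 j) one_pos, ?_, ?_⟩
        · rw [div_le_iff₀ hQr, h1, one_mul]
          exact_mod_cast Nat.sub_le _ _
        · rw [le_div_iff₀ hQr, h1, one_mul]
          have : Q j = (Q j - 1) + 1 := (Nat.sub_add_cancel (hQ0 j)).symm
          exact_mod_cast this.le
      · refine ⟨⌊u * Q j⌋₊, ?_, ?_, ?_⟩
        · rw [Nat.floor_lt (mul_nonneg hu.1 hQr.le)]
          nlinarith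
        · rw [div_le_iff₀ hQr]
          exact Nat.floor_le (mul_nonneg hu.1 hQr.le)
        · rw [le_div_iff₀ hQr]
          exact (Nat.lt_floor_add_one _).le
    refine ⟨i0, ?_, h1, h2⟩
    rw [hZ]
    simp only
    rw [if_pos hj2, mem_biUnion]
    refine ⟨ω, hω, ?_⟩
    rw [mem_biUnion]
    refine ⟨i, hi, ?_⟩
    unfold badc
    rw [mem_filter, mem_range]
    exact ⟨hi0, u, h1, h2, hlt⟩
  have hsub : ∀ m : ℕ, m ≤ 2 ^ (j + 1) → ContinuousOn (g ω) (Set.Icc (((2 ^ j : ℕ) : ℝ)) m) := by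
    intro m hm
    refine hgc.mono (Set.Icc_subset_Icc (by push_cast; exact le_rfl) ?_)
    exact_mod_cast hm
  have hall : ∀ n : ℕ, 2 ^ j ≤ n → n ≤ 2 ^ (j + 1) → ‖DD (f ω) (g ω) b (2 ^ j) n u‖ ≤
      6 * ((2 : ℝ) ^ (j + 1)) ^ (1 - lam) := by
    intro n hn hn'
    set i := (n - 2 ^ j) / S j with hi
    have hi1 : i ∈ range (2 ^ j / S j + 1) := by
      rw [mem_range, hi]
      have h1 : n - 2 ^ j ≤ 2 ^ j := by
        rw [pow_succ] at hn'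
        omega
      have := Nat.div_le_div_right (c := S j) h1
      omega
    have hm1 : i * S j ≤ n - 2 ^ j := Nat.div_mul_le_self _ _
    have hm2 : n - 2 ^ j < i * S j + S j := by
      have h1 := Nat.div_add_mod (n - 2 ^ j) (S j)
      have h2 := Nat.mod_lt (n - 2 ^ j) (hS0 j)
      rw [← hi] at h1
      have h3 : i * S j = S j * i := mul_comm _ _
      omega
    have hle : 2 ^ j + i * S j ≤ n := by omega
    have h1 := DD_add (f ω) (g ω) b (Nat.le_add_right (2 ^ j) (i * S j)) hle (hsub n hn') u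
    rw [h1]
    have h2 := DD_le (f ω) (hf ω) (g ω) b hle u
    have h3 : (n : ℝ) - ((2 ^ j + i * S j : ℕ) : ℝ) ≤ S j := by
      have h4 : n ≤ 2 ^ j + i * S j + S j := by omega
      have h5 : (n : ℝ) ≤ ((2 ^ j + i * S j : ℕ) : ℝ) + S j := by exact_mod_cast h4
      linarith
    have h6 := hgr i hi1
    rw [hthr] at h6
    have h7 := hSup j
    calc _ ≤ ‖DD (f ω) (g ω) b (2 ^ j) (2 ^ j + i * S j) u‖ + ‖DD (f ω) (g ω) b (2 ^ j + i * S j) n u‖ := norm_add_le _ _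
      _ ≤ _ := by linarith
  have h1 := DD_add (f ω) (g ω) b hn1 hn12 (hsub n2 hn2) u
  have h2 : DD (f ω) (g ω) b n1 n2 u = DD (f ω) (g ω) b (2 ^ j) n2 u - DD (f ω) (g ω) b (2 ^ j) n1 u := by
    rw [h1]
    ring
  rw [h2]
  have h3 := hall n2 (hn1.trans hn12) hn2
  have h4 := hall n1 hn1 (hn12.trans hn2)
  exact (norm_sub_le _ _).trans (by linarith)

/-- **the dimension of the exceptional dilations on dyadic blocks** -/
theorem block_dim {ι : Type} (c C : ℝ) (hc : 0 < c) (hC : 0 < C) (d : ℕ) (hd : 2 ≤ d) (θ κ ε δ lam : ℝ)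
    (hκ1 : κ ≤ kp d) (hκ2 : κ ≤ kp d + d - θ) (hε : 0 < ε) (hθ : 0 ≤ θ) (hδ : 0 ≤ δ) (hlam : 0 ≤ lam)
    (hlam1 : lam ≤ 1) (hpos : 0 < θ + κ - 2 * lam)
    (Ω : ℕ → Finset ι) (g : ι → ℝ → ℝ) (f : ι → ℕ → ℂ) (hf : ∀ ω m, ‖f ω m‖ ≤ 1)
    (hcard : ∀ᶠ j : ℕ in atTop, ((Ω j).card : ℝ) ≤ ((2 : ℝ) ^ (j + 1)) ^ δ)
    (hreg : ∀ᶠ j : ℕ in atTop, ∀ ω ∈ Ω j, AdB c C d θ ε j (g ω)) :
    dimH {α : ℝ | 0 < α ∧ ¬ ∀ᶠ j : ℕ in atTop, ∀ ω ∈ Ω j, ∀ n1 n2 : ℕ, 2 ^ j ≤ n1 → n1 ≤ n2 →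
      n2 ≤ 2 ^ (j + 1) → ‖∑ n ∈ Ioc n1 n2, f ω ⌊α * g ω n⌋₊ - ∫ x in (n1 : ℝ)..(n2 : ℝ), f ω ⌊α * g ω x⌋₊‖ ≤
        12 * ((2 : ℝ) ^ (j + 1)) ^ (1 - lam)} ≤ ENNReal.ofReal ((θ + δ + 2 * lam) / (θ + κ - 2 * lam)) := by
  set s0 : ℝ := (θ + δ + 2 * lam) / (θ + κ - 2 * lam) with hs0
  have hs00 : 0 ≤ s0 := by positivity
  set E : ℤ → Set ℝ := fun b => {u : ℝ | u ∈ Set.Icc (0 : ℝ) 1 ∧ ¬ ∀ᶠ j : ℕ in atTop, ∀ ω ∈ Ω j, ∀ n1 n2 : ℕ,
      2 ^ j ≤ n1 → n1 ≤ n2 →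
      n2 ≤ 2 ^ (j + 1) → ‖DD (f ω) (g ω) b n1 n2 u‖ ≤ 12 * ((2 : ℝ) ^ (j + 1)) ^ (1 - lam)} with hE
  have hEd : ∀ b, dimH (E b) ≤ ENNReal.ofReal s0 := by
    intro b
    refine Pool.Agent.Q138.Met.dimH_le_of_null hs00 fun s hs => ?_
    exact block_null c C hc hC d hd b θ κ ε δ lam hκ1 hκ2 hε hθ hδ hlam hlam1 hpos Ω g f hf hcard hreg hs
  refine (dimH_mono (t := ⋃ b : ℤ, (fun u : ℝ => Real.exp ((b : ℝ) + u)) '' (E b)) ?_).trans ?_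
  · rintro α ⟨hα, hnot⟩
    have e : Real.exp (((⌊Real.log α⌋ : ℤ) : ℝ) + Int.fract (Real.log α)) = α := by
      rw [Int.floor_add_fract, Real.exp_log hα]
    refine Set.mem_iUnion.2 ⟨⌊Real.log α⌋, Int.fract (Real.log α), ⟨⟨Int.fract_nonneg _, (Int.fract_lt_one _).le⟩, ?_⟩, e⟩
    intro hgood
    apply hnot
    filter_upwards [hgood] with j hj
    intro ω hω n1 n2 h1 h2 h3
    have h4 := hj ω hω n1 n2 h1 h2 h3
    unfold DD at h4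
    rw [e] at h4
    exact h4
  rw [dimH_iUnion]
  refine iSup_le fun b => ?_
  have hcd : ContDiffOn ℝ 1 (fun u : ℝ => Real.exp ((b : ℝ) + u)) Set.univ := by
    apply ContDiff.contDiffOn
    fun_prop
  exact (hcd.dimH_image_le convex_univ (Set.subset_univ _)).trans (hEd b)

end Pool.Agent.Q138.PS
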