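import Pool.Agent.Q138.PS.TC
import Pool.Agent.Q138.PS.PQ
import Pool.Agent.Q138.PS.Ag

set_option autoImplicit false

/-!
# Power saving sampling along integral polynomials
-/

namespace Pool.Agent.Q138.PS

open Finset MeasureTheory Filter Topology
open scoped ENNReal NNReal
open Pool.Agent.Q138.GS

theorem two_tend : Tendsto (fun j : ℕ => 2 ^ (j + 1)) atTop atTop :=
  (tendsto_pow_atTop_atTop_of_one_lt (by norm_num : 1 < 2)).comp (tendsto_add_atTop_nat 1)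

/-- **polynomials are admissible on dyadic blocks** -/
theorem adB_poly (q : ℕ) (hq : 1 ≤ q) {δ θ : ℝ} (hδ0 : 0 ≤ δ) (hδ1 : δ < 1) (hθ : q + δ < θ) :
    ∀ᶠ j : ℕ in atTop, ∀ P : Polynomial ℝ, PH q (((2 : ℝ) ^ (j + 1)) ^ δ) P →
      AdB (1 / 2) (2 * q * ((q + 1).factorial : ℝ)) q θ (1 / 2) j (fun x => P.eval x) := by
  obtain ⟨M, hM2, hreg⟩ := reg_roots q (q + 1) hq
  have he1 : 0 < 1 - δ := by linarith
  filter_upwards [two_tend.eventually (pw (4 * M) 0 he1),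
    two_tend.eventually (pw ((q : ℝ) + 1) 0 (show 0 < θ - (q + δ) by linarith)),
    two_tend.eventually (pw 4 0 (show (0 : ℝ) < 1 / 2 by norm_num))] with j h1 h2 h3
  intro P hP
  obtain ⟨hdeg, hlead, hco⟩ := hP
  push_cast at h1 h2 h3
  rw [pow_zero, mul_one] at h1 h2 h3
  set N : ℝ := (2 : ℝ) ^ (j + 1) with hN
  have hN0 : 0 < N := by positivity
  have hN1 : 1 ≤ N := one_le_pow₀ (by norm_num)
  have hNj : (2 : ℝ) ^ j = N / 2 := by
    rw [hN, pow_succ]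
    ring
  set H : ℝ := N ^ δ with hH
  have hH1 : 1 ≤ H := Real.one_le_rpow hN1 hδ0
  have hH0 : 0 < H := by linarith
  have hP0 : P ≠ 0 := by
    rintro rfl
    simp at hlead
    linarith
  have hroots := poly_roots hdeg hlead hH1 hco
  have hU' := hreg P hdeg hP0 (2 * H) (M * (2 * H)) (by linarith) hroots le_rfl
  have hx0J : M * (2 * H) ≤ (2 : ℝ) ^ j := by
    rw [hNj]
    have e1 : N = N ^ (1 - δ) * H := by
      rw [hH, ← Real.rpow_add hN0]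
      norm_num
    have e2 : 4 * M * H ≤ N ^ (1 - δ) * H := by gcongr
    rw [← e1] at e2
    linarith
  have h4H : ∀ x : ℝ, (2 : ℝ) ^ j ≤ x → 4 * H ≤ x := fun x hx => by nlinarith
  have hpos : ∀ x : ℝ, (2 : ℝ) ^ j ≤ x → 0 < P.eval x ∧ Real.exp (pol P 0 x) = P.eval x := by
    intro x hx
    have e1 := poly_low hdeg hlead hH1 hco (h4H x hx)
    have e2 : 0 < x := by linarith [h4H x hx]
    have e3 : 0 < P.eval x := lt_of_lt_of_le (by positivity) e1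
    refine ⟨e3, ?_⟩
    have e4 : pol P 0 x = Real.log (P.eval x) := by simp [pol]
    rw [e4, Real.exp_log e3]
  have hjN : (2 : ℝ) ^ j ≤ N := by rw [hNj]; linarith
  have hone : (1 : ℝ) ≤ (2 : ℝ) ^ j := one_le_pow₀ (by norm_num)
  refine ⟨pol P, M * (2 * H), by positivity, hU', hx0J, fun x hx _ => ((hpos x hx).2).symm, ?_, ?_⟩
  · rw [(hpos _ hjN).2]
    have e1 := poly_up hdeg hH0.le hco hN0.le le_rfl hN1
    refine e1.trans ?_
    have e2 : N ^ θ = N ^ (θ - (q + δ)) * (H * N ^ q) := by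
      rw [hH, ← Real.rpow_natCast, ← Real.rpow_add hN0, ← Real.rpow_add hN0]
      congr 1
      ring
    rw [e2, mul_assoc]
    gcongr
  · rw [(hpos _ le_rfl).2]
    refine le_trans ?_ (poly_low hdeg hlead hH1 hco (h4H _ le_rfl))
    have e2 : (2 : ℝ) ^ j ≤ ((2 : ℝ) ^ j) ^ q := by
      calc (2 : ℝ) ^ j = ((2 : ℝ) ^ j) ^ 1 := (pow_one _).symm
        _ ≤ _ := pow_le_pow_right₀ hone hq
    have e3 : N ^ (1 / 2 : ℝ) * N ^ (1 / 2 : ℝ) = N := by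
      rw [← Real.rpow_add hN0]
      norm_num
    have e4 : 4 * N ^ (1 / 2 : ℝ) ≤ N := by
      calc 4 * N ^ (1 / 2 : ℝ) ≤ N ^ (1 / 2 : ℝ) * N ^ (1 / 2 : ℝ) := by gcongr
        _ = N := e3
    linarith

/-- the difference of sum and integral along an integral polynomial -/
noncomputable def DP (f : ℕ → ℂ) (α : ℝ) (P : Polynomial ℝ) (n1 n2 : ℕ) : ℂ :=
  ∑ n ∈ Ioc n1 n2, f ⌊α * P.eval (n : ℝ)⌋₊ - ∫ x in (n1 : ℝ)..(n2 : ℝ), f ⌊α * P.eval x⌋₊

theorem DP_add (f : ℕ → ℂ) (α : ℝ) (P : Polynomial ℝ) {n1 n2 n3 : ℕ} (h12 : n1 ≤ n2) (h23 : n2 ≤ n3) :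
    DP f α P n1 n3 = DP f α P n1 n2 + DP f α P n2 n3 := by
  have h12r : (n1 : ℝ) ≤ n2 := by exact_mod_cast h12
  have h23r : (n2 : ℝ) ≤ n3 := by exact_mod_cast h23
  have hc : Continuous fun x => α * P.eval x := by fun_prop
  have e1 := flc_ii f h12r (hc.continuousOn (s := Set.Icc (n1 : ℝ) n2))
  have e2 := flc_ii f h23r (hc.continuousOn (s := Set.Icc (n2 : ℝ) n3))
  unfold DP
  rw [← intervalIntegral.integral_add_adjacent_intervals e1 e2, ← sum_Ioc_consecutive _ h12 h23]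
  ring

theorem DP_le (f : ℕ → ℂ) (hf : ∀ m, ‖f m‖ ≤ 1) (α : ℝ) (P : Polynomial ℝ) {n1 n2 : ℕ} (hn : n1 ≤ n2) :
    ‖DP f α P n1 n2‖ ≤ 2 * ((n2 : ℝ) - n1) := by
  have hnr : (n1 : ℝ) ≤ n2 := by exact_mod_cast hn
  unfold DP
  refine (norm_sub_le _ _).trans ?_
  have h2 : ‖∑ n ∈ Ioc n1 n2, f ⌊α * P.eval (n : ℝ)⌋₊‖ ≤ (n2 : ℝ) - n1 := by
    refine (norm_sum_le _ _).trans ((sum_le_sum fun n _ => hf _).trans ?_)
    rw [sum_const, Nat.card_Ioc, nsmul_eq_mul, mul_one, Nat.cast_sub hn]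
  have h3 : ‖∫ x in (n1 : ℝ)..(n2 : ℝ), f ⌊α * P.eval x⌋₊‖ ≤ (n2 : ℝ) - n1 := by
    refine (intervalIntegral.norm_integral_le_of_norm_le_const (C := 1) fun x _ => hf _).trans ?_
    rw [one_mul, abs_of_nonneg (sub_nonneg.2 hnr)]
  linarith

/-- one exponent -/
theorem sample_eta {ι : Type} (q : ℕ) (hq : 2 ≤ q) (f : ι → ℕ → ℂ) (hf : ∀ i m, ‖f i m‖ ≤ 1) {K η : ℝ} (hK : 0 ≤ K)
    (hη : 0 < η) (hη1 : η ≤ 1 / 4) (hη2 : 6 * η < q + kp q) (Ω : ℕ → Finset ι) (hΩ : Monotone Ω)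
    (hcard : ∀ᶠ N : ℕ in atTop, ((Ω N).card : ℝ) ≤ (N : ℝ) ^ (K * η)) :
    dimH {α : ℝ | 0 < α ∧ ¬ ∀ᶠ N : ℕ in atTop, ∀ i ∈ Ω N, ∀ P : Polynomial ℤ, P.natDegree = q →
      0 < P.leadingCoeff → (∀ j, |((P.coeff j : ℤ) : ℝ)| ≤ (N : ℝ) ^ η) → ∀ n1 n2 : ℕ, n1 ≤ n2 → n2 ≤ N →
      ‖DP (f i) α (P.map (Int.castRingHom ℝ)) n1 n2‖ ≤ (N : ℝ) ^ (1 - η)} ≤
      ENNReal.ofReal ((q + (2 * K + 2 * q + 10) * η) / (q + kp q - 4 * η)) := by
  have hkp := kp_pos hq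
  have hkp4 := kp_le hq
  have hq0 : (2 : ℝ) ≤ q := by exact_mod_cast hq
  have hfac : (0 : ℝ) < (q : ℝ) * 2 * ((q + 1).factorial : ℝ) := by
    have : (0 : ℝ) < ((q + 1).factorial : ℝ) := by exact_mod_cast Nat.factorial_pos _
    positivity
  have hsq : Tendsto (fun j : ℕ => (2 ^ (j + 1)) ^ 2) atTop atTop :=
    (tendsto_pow_atTop (two_ne_zero)).comp two_tend
  have key := block_dim (ι := ι × (Fin (q + 1) → ℤ)) (1 / 2) (2 * q * ((q + 1).factorial : ℝ)) (by norm_num)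
    (by linarith) q hq (q + 3 * η) (kp q - 3 * η) (1 / 2) (2 * K * η + (2 * q + 3) * η) (2 * η) (by linarith)
    (by linarith) (by norm_num) (by positivity) (by positivity) (by positivity) (by linarith) (by linarith)
    (fun j => (Ω ((2 ^ (j + 1)) ^ 2)) ×ˢ (cv q (2 * η) (2 ^ (j + 1)))) (fun ω x => (pv ω.2).eval x)
    (fun ω => f ω.1) (fun ω => hf ω.1) (by
      filter_upwards [hsq.eventually hcard, two_tend.eventually (cv_card q (by positivity : 0 ≤ 2 * η) η hη)] with j h1 h2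
      rw [card_product]
      push_cast at h1 h2 ⊢
      set N : ℝ := (2 : ℝ) ^ (j + 1) with hN
      have hN0 : 0 < N := by positivity
      calc ((Ω ((2 ^ (j + 1)) ^ 2)).card : ℝ) * ((cv q (2 * η) (2 ^ (j + 1))).card : ℝ) ≤
          (N ^ 2) ^ (K * η) * N ^ (((q : ℝ) + 1) * (2 * η) + η) := by gcongr
        _ = _ := by
            rw [← Real.rpow_natCast, ← Real.rpow_mul hN0.le, ← Real.rpow_add hN0]
            congr 1
            push_cast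
            ring) (by
      filter_upwards [adB_poly q (by omega) (by positivity : 0 ≤ 2 * η) (by linarith) (θ := q + 3 * η) (by linarith)]
        with j hj
      intro ω hω
      refine hj _ ?_
      have h1 := pv_PH (mem_product.1 hω).2
      push_cast at h1
      exact h1)
  refine (dimH_mono ?_).trans (key.trans (le_of_eq ?_))
  swap
  · congr 2 <;> ring
  rintro α ⟨hα, hnot⟩
  refine ⟨hα, fun hgood => hnot ?_⟩
  obtain ⟨j1, hj1⟩ := eventually_atTop.1 hgood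
  have he : 0 < 1 - 2 * η := by linarith
  filter_upwards [eventually_ge_atTop 2, pw (2 ^ (j1 + 1)) 0 he, pw 400 1 hη] with N hN2 h2 h3
  intro i hi P hdeg hlead hco
  rw [pow_zero, mul_one] at h2
  rw [pow_one] at h3
  have hN0 : (0 : ℝ) < N := by positivity
  have hN1 : (1 : ℝ) ≤ N := by
    have : 1 ≤ N := by omega
    exact_mod_cast this
  set R := P.map (Int.castRingHom ℝ) with hR
  set L : ℕ := ⌈(N : ℝ) ^ (1 - 2 * η)⌉₊ with hL
  have hL1 : (N : ℝ) ^ (1 - 2 * η) ≤ L := Nat.le_ceil _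
  have hLone : 1 ≤ (N : ℝ) ^ (1 - 2 * η) := Real.one_le_rpow hN1 he.le
  have hL2 : (L : ℝ) ≤ 2 * (N : ℝ) ^ (1 - 2 * η) := by
    have := (Nat.ceil_lt_add_one (show (0 : ℝ) ≤ (N : ℝ) ^ (1 - 2 * η) by positivity)).le
    linarith
  have hL0 : L ≠ 0 := by
    have : (0 : ℝ) < L := by linarith
    have : 0 < L := by exact_mod_cast this
    omega
  set jm := Nat.log 2 L with hjm
  have hjm1 : 2 ^ jm ≤ L := Nat.pow_log_le_self 2 hL0
  have hjm2 : L < 2 ^ (jm + 1) := Nat.lt_pow_succ_log_self (by norm_num) L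
  have hjmj : j1 ≤ jm := by
    have h5 : ((2 ^ (j1 + 1) : ℕ) : ℝ) < ((2 ^ (jm + 1) : ℕ) : ℝ) := by
      have h6 : (L : ℝ) < ((2 ^ (jm + 1) : ℕ) : ℝ) := by exact_mod_cast hjm2
      push_cast at h6 ⊢
      linarith
    have h6 : 2 ^ (j1 + 1) < 2 ^ (jm + 1) := by exact_mod_cast h5
    have := (Nat.pow_lt_pow_iff_right (by norm_num : 1 < 2)).1 h6
    omega
  -- one block
  have hblock : ∀ j, jm ≤ j → 2 ^ j ≤ N → ∀ n1 n2 : ℕ, 2 ^ j ≤ n1 → n1 ≤ n2 → n2 ≤ 2 ^ (j + 1) →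
      ‖DP (f i) α R n1 n2‖ ≤ 24 * (N : ℝ) ^ (1 - 2 * η) := by
    intro j hj hjN n1 n2 h5 h6 h7
    have h8 : L ≤ 2 ^ (j + 1) := hjm2.le.trans (Nat.pow_le_pow_right (by norm_num) (by omega))
    have h9 : (N : ℝ) ^ (1 - 2 * η) ≤ (2 : ℝ) ^ (j + 1) := hL1.trans (by exact_mod_cast h8)
    set M : ℝ := (2 : ℝ) ^ (j + 1) with hM
    have hM0 : 0 < M := by positivity
    have hM1 : 1 ≤ M := one_le_pow₀ (by norm_num)
    have h10 : (N : ℝ) ≤ M ^ 2 := by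
      have e1 : (N : ℝ) = ((N : ℝ) ^ (1 / 2 : ℝ)) ^ 2 := by
        rw [← Real.rpow_natCast, ← Real.rpow_mul hN0.le]
        norm_num
      have e2 : (N : ℝ) ^ (1 / 2 : ℝ) ≤ (N : ℝ) ^ (1 - 2 * η) := Real.rpow_le_rpow_of_exponent_le hN1 (by linarith)
      rw [e1]
      exact pow_le_pow_left₀ (by positivity) (e2.trans h9) 2
    have h11 : N ≤ (2 ^ (j + 1)) ^ 2 := by
      rw [hM] at h10
      exact_mod_cast h10
    have h12 : i ∈ Ω ((2 ^ (j + 1)) ^ 2) := hΩ h11 hi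
    have h13 : (N : ℝ) ^ η ≤ (((2 ^ (j + 1) : ℕ) : ℝ)) ^ (2 * η) := by
      push_cast
      rw [← hM]
      calc (N : ℝ) ^ η ≤ (M ^ 2) ^ η := by gcongr
        _ = M ^ (2 * η) := by
            rw [← Real.rpow_natCast, ← Real.rpow_mul hM0.le]
            congr 1
    obtain ⟨h14, h15⟩ := pv_of (δ := 2 * η) (N := 2 ^ (j + 1)) P hdeg hlead (fun l => (hco l).trans h13)
    have h16 := hj1 j (hjmj.trans hj) (i, fun l : Fin (q + 1) => P.coeff l) (mem_product.2 ⟨h12, h14⟩) n1 n2 h5 h6 h7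
    simp only [h15] at h16
    rw [← hR, ← hM] at h16
    unfold DP
    refine h16.trans ?_
    have h17 : M ≤ 2 * N := by
      rw [hM, pow_succ]
      have : ((2 : ℝ) ^ j) ≤ N := by exact_mod_cast hjN
      linarith
    have h18 : M ^ (1 - 2 * η) ≤ 2 * (N : ℝ) ^ (1 - 2 * η) := by
      calc M ^ (1 - 2 * η) ≤ (2 * N) ^ (1 - 2 * η) := by gcongr
        _ = 2 ^ (1 - 2 * η) * (N : ℝ) ^ (1 - 2 * η) := Real.mul_rpow (by norm_num) hN0.le
        _ ≤ 2 ^ (1 : ℝ) * (N : ℝ) ^ (1 - 2 * η) := by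
            gcongr
            · norm_num
            · linarith
        _ = _ := by rw [Real.rpow_one]
    linarith
  -- all blocks
  have hall : ∀ k : ℕ, ∀ n : ℕ, n ≤ 2 ^ (jm + k) → n ≤ N →
      ‖DP (f i) α R 0 n‖ ≤ 4 * (N : ℝ) ^ (1 - 2 * η) + k * (24 * (N : ℝ) ^ (1 - 2 * η)) := by
    intro k
    induction k with
    | zero =>
      intro n hn hnN
      have h5 := DP_le (f i) (hf i) α R (Nat.zero_le n)
      have h6 : (n : ℝ) ≤ L := by exact_mod_cast hn.trans hjm1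
      push_cast at h5 ⊢
      linarith
    | succ k ih =>
      intro n hn hnN
      have hpos : 0 ≤ 24 * (N : ℝ) ^ (1 - 2 * η) := by positivity
      by_cases hnk : n ≤ 2 ^ (jm + k)
      · have := ih n hnk hnN
        push_cast
        linarith
      · rw [not_le] at hnk
        have h5 := ih (2 ^ (jm + k)) le_rfl (hnk.le.trans hnN)
        have h6 := hblock (jm + k) (Nat.le_add_right _ _) (hnk.le.trans hnN) (2 ^ (jm + k)) n le_rfl hnk.le hn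
        rw [DP_add (f i) α R (Nat.zero_le (2 ^ (jm + k))) hnk.le]
        refine (norm_add_le _ _).trans ?_
        push_cast
        linarith
  have hlogN : ((Nat.log 2 N : ℕ) : ℝ) ≤ 2 * Real.log N := by
    have h5 : 2 ^ Nat.log 2 N ≤ N := Nat.pow_log_le_self 2 (by omega)
    have h6 : ((2 : ℝ) ^ Nat.log 2 N) ≤ N := by exact_mod_cast h5
    have h7 := Real.log_le_log (by positivity) h6
    rw [Real.log_pow] at h7
    have h8 : (0 : ℝ) ≤ (Nat.log 2 N : ℕ) := Nat.cast_nonneg _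
    nlinarith [Real.log_two_gt_d9]
  have hlog1 : 1 / 2 ≤ Real.log N := by
    have h5 : Real.log 2 ≤ Real.log N := Real.log_le_log (by norm_num) (by exact_mod_cast hN2)
    linarith [Real.log_two_gt_d9]
  have hfin : ∀ n : ℕ, n ≤ N → ‖DP (f i) α R 0 n‖ ≤ (N : ℝ) ^ (1 - η) / 2 := by
    intro n hn
    have h5 := hall (Nat.log 2 N + 1) n (by
      have h6 : N < 2 ^ (Nat.log 2 N + 1) := Nat.lt_pow_succ_log_self (by norm_num) N
      have h7 : 2 ^ (Nat.log 2 N + 1) ≤ 2 ^ (jm + (Nat.log 2 N + 1)) := Nat.pow_le_pow_right (by norm_num) (by omega)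
      omega) hn
    have e1 : (N : ℝ) ^ (1 - η) = (N : ℝ) ^ η * (N : ℝ) ^ (1 - 2 * η) := by
      rw [← Real.rpow_add hN0]
      congr 1
      ring
    have hX0 : 0 < (N : ℝ) ^ (1 - 2 * η) := by positivity
    refine h5.trans ?_
    rw [e1]
    push_cast
    have h6 : 4 + (((Nat.log 2 N : ℕ) : ℝ) + 1) * 24 ≤ (N : ℝ) ^ η / 2 := by nlinarith
    calc 4 * (N : ℝ) ^ (1 - 2 * η) + (((Nat.log 2 N : ℕ) : ℝ) + 1) * (24 * (N : ℝ) ^ (1 - 2 * η)) =
        (4 + (((Nat.log 2 N : ℕ) : ℝ) + 1) * 24) * (N : ℝ) ^ (1 - 2 * η) := by ring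
      _ ≤ ((N : ℝ) ^ η / 2) * (N : ℝ) ^ (1 - 2 * η) := by gcongr
      _ = _ := by ring
  intro n1 n2 hn12 hn2
  have h5 := DP_add (f i) α R (Nat.zero_le n1) hn12
  have h6 : DP (f i) α R n1 n2 = DP (f i) α R 0 n2 - DP (f i) α R 0 n1 := by
    rw [h5]
    ring
  rw [h6]
  have h7 := hfin n2 hn2
  have h8 := hfin n1 (hn12.trans hn2)
  exact (norm_sub_le _ _).trans (by linarith)

/-- **power saving sampling along integral polynomials** -/
theorem poly_sample {ι : Type} (q : ℕ) (hq : 2 ≤ q) (f : ι → ℕ → ℂ) (hf : ∀ i m, ‖f i m‖ ≤ 1) (K : ℝ) (hK : 0 ≤ K)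
    (Ω : ℝ → ℕ → Finset ι) (hΩ : ∀ η, 0 < η → Monotone (Ω η))
    (hcard : ∀ η, 0 < η → ∀ᶠ N : ℕ in atTop, ((Ω η N).card : ℝ) ≤ (N : ℝ) ^ (K * η)) :
    dimH {α : ℝ | 0 < α ∧ ¬ ∃ η : ℝ, 0 < η ∧ ∀ᶠ N : ℕ in atTop, ∀ i ∈ Ω η N, ∀ P : Polynomial ℤ, P.natDegree = q →
      0 < P.leadingCoeff → (∀ j, |((P.coeff j : ℤ) : ℝ)| ≤ (N : ℝ) ^ η) → ∀ n1 n2 : ℕ, n1 ≤ n2 → n2 ≤ N →
      ‖DP (f i) α (P.map (Int.castRingHom ℝ)) n1 n2‖ ≤ (N : ℝ) ^ (1 - η)} ≤ ENNReal.ofReal (q / (q + kp q)) := by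
  have hkp := kp_pos hq
  have hkp4 := kp_le hq
  have hq0 : (2 : ℝ) ≤ q := by exact_mod_cast hq
  have key := dim_lim (η0 := 1 / 4) (by norm_num) (f := fun η => ((q : ℝ) + (2 * K + 2 * q + 10) * η) / (q + kp q - 4 * η))
    (S := {α : ℝ | 0 < α ∧ ¬ ∃ η : ℝ, 0 < η ∧ ∀ᶠ N : ℕ in atTop, ∀ i ∈ Ω η N, ∀ P : Polynomial ℤ, P.natDegree = q →
      0 < P.leadingCoeff → (∀ j, |((P.coeff j : ℤ) : ℝ)| ≤ (N : ℝ) ^ η) → ∀ n1 n2 : ℕ, n1 ≤ n2 → n2 ≤ N →
      ‖DP (f i) α (P.map (Int.castRingHom ℝ)) n1 n2‖ ≤ (N : ℝ) ^ (1 - η)}) ?_ ?_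
  · simpa using key
  · apply ContinuousAt.div
    · fun_prop
    · fun_prop
    · simp
      linarith
  · intro η hη hη1
    refine (dimH_mono ?_).trans (sample_eta q hq f hf hK hη hη1.le (by linarith) (Ω η) (hΩ η hη) (hcard η hη))
    rintro α ⟨hα, hnot⟩
    exact ⟨hα, fun hgood => hnot ⟨η, hη, hgood⟩⟩

end Pool.Agent.Q138.PS
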