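import Pool.Agent.Q138.PS.TD
import Pool.Agent.Q138.PS.PP

set_option autoImplicit false

/-!
# The integral of a nonnegative function at integer parts, compared with the sum of the function
-/

namespace Pool.Agent.Q138.PS

open Finset MeasureTheory Filter Topology
open scoped ENNReal NNReal
open Pool.Agent.Q138.GS

/-- the primitive of a real function at integer parts -/
noncomputable def PrR (h : ℕ → ℝ) (y : ℝ) : ℝ := ∫ t in (0 : ℝ)..y, h ⌊t⌋₊

theorem flR_ii (h : ℕ → ℝ) (a b : ℝ) : IntervalIntegrable (fun t => h ⌊t⌋₊) volume a b := by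
  have h1 := fl_ii (fun m => ((h m : ℝ) : ℂ)) a b
  have h2 : IntervalIntegrable (fun t => (((h ⌊t⌋₊ : ℝ) : ℂ)).re) volume a b :=
    ⟨MeasureTheory.Integrable.re h1.1, MeasureTheory.Integrable.re h1.2⟩
  exact h2.congr fun x _ => by simp

theorem flcR_ii (h : ℕ → ℝ) {g : ℝ → ℝ} {a b : ℝ} (hab : a ≤ b) (hg : ContinuousOn g (Set.Icc a b)) :
    IntervalIntegrable (fun x => h ⌊g x⌋₊) volume a b := by
  have h1 := flc_ii (fun m => ((h m : ℝ) : ℂ)) hab hg
  have h2 : IntervalIntegrable (fun x => (((h ⌊g x⌋₊ : ℝ) : ℂ)).re) volume a b :=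
    ⟨MeasureTheory.Integrable.re h1.1, MeasureTheory.Integrable.re h1.2⟩
  exact h2.congr fun x _ => by simp

theorem PrR_cont (h : ℕ → ℝ) : Continuous (PrR h) := intervalIntegral.continuous_primitive (flR_ii h) 0

theorem PrR_deriv (h : ℕ → ℝ) {y : ℝ} (hy : 0 ≤ y) : HasDerivWithinAt (PrR h) (h ⌊y⌋₊) (Set.Ici y) y := by
  have hm : Measurable fun t : ℝ => h ⌊t⌋₊ := (measurable_from_nat : Measurable h).comp Nat.measurable_floor
  refine intervalIntegral.integral_hasDerivWithinAt_right (flR_ii h 0 y) (t := Set.Ioi y)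
    (hm.stronglyMeasurable.stronglyMeasurableAtFilter) ?_
  have hev : ∀ᶠ t in nhdsWithin y (Set.Ioi y), h ⌊t⌋₊ = h ⌊y⌋₊ := by
    have h1 : Set.Ioo y ((⌊y⌋₊ : ℝ) + 1) ∈ nhdsWithin y (Set.Ioi y) :=
      Ioo_mem_nhdsGT (Nat.lt_floor_add_one y)
    filter_upwards [h1] with t ht
    have : ⌊t⌋₊ = ⌊y⌋₊ := by
      rw [Nat.floor_eq_iff (hy.trans ht.1.le)]
      exact ⟨(Nat.floor_le hy).trans ht.1.le, ht.2⟩
    rw [this]
  exact (tendsto_const_nhds.congr' (hev.mono fun t ht => ht.symm))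

theorem PrR_nat (h : ℕ → ℝ) (n : ℕ) : PrR h n = ∑ m ∈ range n, h m := by
  unfold PrR
  have h1 := intervalIntegral.sum_integral_adjacent_intervals (f := fun t => h ⌊t⌋₊) (μ := volume)
    (a := fun k : ℕ => (k : ℝ)) (n := n) (fun k _ => flR_ii h _ _)
  rw [Nat.cast_zero] at h1
  rw [← h1]
  refine sum_congr rfl fun m _ => ?_
  have h2 : ∫ t in ((m : ℕ) : ℝ)..((m + 1 : ℕ) : ℝ), h ⌊t⌋₊ = ∫ t in ((m : ℕ) : ℝ)..((m + 1 : ℕ) : ℝ), h m := by
    rw [intervalIntegral.integral_of_le (by push_cast; linarith), intervalIntegral.integral_of_le (by push_cast; linarith),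
      ← integral_Ico_eq_integral_Ioc, ← integral_Ico_eq_integral_Ioc]
    refine setIntegral_congr_fun measurableSet_Ico fun t ht => ?_
    have : ⌊t⌋₊ = m := by
      rw [Nat.floor_eq_iff ((Nat.cast_nonneg m).trans ht.1)]
      push_cast at ht
      exact ht
    simp only [this]
  rw [h2]
  simp

theorem PrR_mono (h : ℕ → ℝ) (hh : ∀ m, 0 ≤ h m) : Monotone (PrR h) := by
  intro x y hxy
  unfold PrR
  have h1 := intervalIntegral.integral_add_adjacent_intervals (flR_ii h 0 x) (flR_ii h x y)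
  have h2 : 0 ≤ ∫ t in x..y, h ⌊t⌋₊ := intervalIntegral.integral_nonneg hxy fun t _ => hh _
  linarith

/-- lower bound for the increments of the primitive -/
theorem PrR_low (h : ℕ → ℝ) (hh : ∀ m, 0 ≤ h m) {y z : ℝ} (hz : 0 ≤ z) :
    ∑ m ∈ Ico ⌈y⌉₊ ⌊z⌋₊, h m ≤ max 0 (PrR h z - PrR h y) := by
  rcases lt_or_ge ⌊z⌋₊ ⌈y⌉₊ with h1 | h1
  · rw [Ico_eq_empty_of_le h1.le, sum_empty]
    exact le_max_left _ _
  · refine le_trans ?_ (le_max_right _ _)
    have e1 : ∑ m ∈ Ico ⌈y⌉₊ ⌊z⌋₊, h m = PrR h (⌊z⌋₊ : ℕ) - PrR h (⌈y⌉₊ : ℕ) := by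
      rw [PrR_nat, PrR_nat, Finset.sum_Ico_eq_sub _ h1]
    rw [e1]
    have e2 := PrR_mono h hh (Nat.floor_le hz)
    have e3 := PrR_mono h hh (Nat.le_ceil y)
    linarith

/-- upper bound for the increments of the primitive -/
theorem PrR_upp (h : ℕ → ℝ) (hh : ∀ m, 0 ≤ h m) {y z : ℝ} (hy : 0 ≤ y) (hyz : y ≤ z) :
    PrR h z - PrR h y ≤ ∑ m ∈ Icc ⌊y⌋₊ ⌊z⌋₊, h m := by
  have h1 : ⌊y⌋₊ ≤ ⌊z⌋₊ + 1 := (Nat.floor_le_floor hyz).trans (Nat.le_succ _)
  have e1 : ∑ m ∈ Icc ⌊y⌋₊ ⌊z⌋₊, h m = PrR h ((⌊z⌋₊ + 1 : ℕ) : ℝ) - PrR h (⌊y⌋₊ : ℕ) := by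
    rw [PrR_nat, PrR_nat, ← Finset.sum_Ico_eq_sub _ h1]
    rfl
  rw [e1]
  have e2 : PrR h z ≤ PrR h ((⌊z⌋₊ + 1 : ℕ) : ℝ) := PrR_mono h hh (by push_cast; exact (Nat.lt_floor_add_one z).le)
  have e3 := PrR_mono h hh (Nat.floor_le hy)
  linarith

/-- **change of variables** -/
theorem int_sub {g g' : ℝ → ℝ} {a b α : ℝ} (hab : a ≤ b) (hα : 0 < α) (hg : ∀ x ∈ Set.Icc a b, HasDerivAt g (g' x) x)
    (hgc : ContinuousOn g' (Set.Icc a b)) (h0 : ∀ x ∈ Set.Icc a b, 0 ≤ g' x) (hga : 0 ≤ g a) (h : ℕ → ℝ) :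
    ∫ x in a..b, h ⌊α * g x⌋₊ * (α * g' x) = PrR h (α * g b) - PrR h (α * g a) := by
  have hcont : ContinuousOn g (Set.Icc a b) := fun x hx => (hg x hx).continuousAt.continuousWithinAt
  have hmono : MonotoneOn g (Set.Icc a b) := by
    refine monotoneOn_of_deriv_nonneg (convex_Icc a b) hcont ?_ ?_
    · intro x hx
      exact (hg x (interior_subset hx)).differentiableAt.differentiableWithinAt
    · intro x hx
      rw [(hg x (interior_subset hx)).deriv]
      exact h0 x (interior_subset hx)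
  set P : ℝ → ℝ := fun x => α * g x with hP
  have hPc : ContinuousOn P (Set.Icc a b) := continuousOn_const.mul hcont
  have hGc : ContinuousOn (fun x => PrR h (P x)) (Set.Icc a b) := (PrR_cont h).comp_continuousOn hPc
  have hGd : ∀ x ∈ Set.Ioo a b, HasDerivWithinAt (fun x => PrR h (P x)) (h ⌊P x⌋₊ * (α * g' x)) (Set.Ioi x) x := by
    intro x hx
    have hx' : x ∈ Set.Icc a b := Set.Ioo_subset_Icc_self hx
    have hPx : 0 ≤ P x := mul_nonneg hα.le (hga.trans (hmono (Set.left_mem_Icc.2 hab) hx' hx'.1))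
    have h1 : HasDerivWithinAt P (α * g' x) (Set.Ioo x b) x := ((hg x hx').const_mul α).hasDerivWithinAt
    have hmaps : Set.MapsTo P (Set.Ioo x b) (Set.Ici (P x)) := by
      intro y hy
      exact mul_le_mul_of_nonneg_left (hmono hx' ⟨hx.1.le.trans hy.1.le, hy.2.le⟩ hy.1.le) hα.le
    have h2 := (PrR_deriv h hPx).scomp x h1 hmaps
    have e : (α * g' x) • h ⌊P x⌋₊ = h ⌊P x⌋₊ * (α * g' x) := by
      rw [smul_eq_mul, mul_comm]
    rw [e] at h2
    exact h2.Ioi_of_Ioo hx.2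
  have hint : IntervalIntegrable (fun x => h ⌊P x⌋₊ * (α * g' x)) volume a b :=
    (flcR_ii h hab hPc).mul_continuousOn (by
      rw [Set.uIcc_of_le hab]
      exact continuousOn_const.mul hgc)
  exact intervalIntegral.integral_eq_sub_of_hasDeriv_right_of_le hab hGc hGd hint

/-- **lower bound for the integral** -/
theorem int_low {g g' : ℝ → ℝ} {a b α D : ℝ} (hab : a ≤ b) (hα : 0 < α) (hg : ∀ x ∈ Set.Icc a b, HasDerivAt g (g' x) x)
    (hgc : ContinuousOn g' (Set.Icc a b)) (h0 : ∀ x ∈ Set.Icc a b, 0 ≤ g' x) (hD : ∀ x ∈ Set.Icc a b, g' x ≤ D)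
    (hga : 0 ≤ g a) (h : ℕ → ℝ) (hh : ∀ m, 0 ≤ h m) :
    ∑ m ∈ Ico ⌈α * g a⌉₊ ⌊α * g b⌋₊, h m ≤ α * D * ∫ x in a..b, h ⌊α * g x⌋₊ := by
  have hcont : ContinuousOn g (Set.Icc a b) := fun x hx => (hg x hx).continuousAt.continuousWithinAt
  have hmono : MonotoneOn g (Set.Icc a b) := by
    refine monotoneOn_of_deriv_nonneg (convex_Icc a b) hcont ?_ ?_
    · intro x hx
      exact (hg x (interior_subset hx)).differentiableAt.differentiableWithinAt
    · intro x hx
      rw [(hg x (interior_subset hx)).deriv]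
      exact h0 x (interior_subset hx)
  have hgb : g a ≤ g b := hmono (Set.left_mem_Icc.2 hab) (Set.right_mem_Icc.2 hab) hab
  have hD0 : 0 ≤ D := (h0 a (Set.left_mem_Icc.2 hab)).trans (hD a (Set.left_mem_Icc.2 hab))
  have h1 := int_sub hab hα hg hgc h0 hga h
  have hi := flcR_ii h hab (continuousOn_const.mul hcont : ContinuousOn (fun x => α * g x) (Set.Icc a b))
  have h2 : ∫ x in a..b, h ⌊α * g x⌋₊ * (α * g' x) ≤ ∫ x in a..b, h ⌊α * g x⌋₊ * (α * D) := by
    refine intervalIntegral.integral_mono_on hab ?_ (hi.mul_const _) fun x hx => ?_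
    · exact hi.mul_continuousOn (by
        rw [Set.uIcc_of_le hab]
        exact continuousOn_const.mul hgc)
    · have := hD x hx
      have := hh ⌊α * g x⌋₊
      gcongr
  rw [intervalIntegral.integral_mul_const, h1] at h2
  have h3 : 0 ≤ ∫ x in a..b, h ⌊α * g x⌋₊ := intervalIntegral.integral_nonneg hab fun x _ => hh _
  refine (PrR_low h hh (mul_nonneg hα.le (hga.trans hgb))).trans (max_le (by positivity) ?_)
  linarith

/-- **upper bound for the integral** -/
theorem int_upp {g g' : ℝ → ℝ} {a b α D : ℝ} (hab : a ≤ b) (hα : 0 < α) (hg : ∀ x ∈ Set.Icc a b, HasDerivAt g (g' x) x)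
    (hgc : ContinuousOn g' (Set.Icc a b)) (hD0 : 0 ≤ D) (hD : ∀ x ∈ Set.Icc a b, D ≤ g' x)
    (hga : 0 ≤ g a) (h : ℕ → ℝ) (hh : ∀ m, 0 ≤ h m) :
    α * D * ∫ x in a..b, h ⌊α * g x⌋₊ ≤ ∑ m ∈ Icc ⌊α * g a⌋₊ ⌊α * g b⌋₊, h m := by
  have h0 : ∀ x ∈ Set.Icc a b, 0 ≤ g' x := fun x hx => hD0.trans (hD x hx)
  have hcont : ContinuousOn g (Set.Icc a b) := fun x hx => (hg x hx).continuousAt.continuousWithinAt
  have hmono : MonotoneOn g (Set.Icc a b) := by
    refine monotoneOn_of_deriv_nonneg (convex_Icc a b) hcont ?_ ?_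
    · intro x hx
      exact (hg x (interior_subset hx)).differentiableAt.differentiableWithinAt
    · intro x hx
      rw [(hg x (interior_subset hx)).deriv]
      exact h0 x (interior_subset hx)
  have hgb : g a ≤ g b := hmono (Set.left_mem_Icc.2 hab) (Set.right_mem_Icc.2 hab) hab
  have h1 := int_sub hab hα hg hgc h0 hga h
  have hi := flcR_ii h hab (continuousOn_const.mul hcont : ContinuousOn (fun x => α * g x) (Set.Icc a b))
  have h2 : ∫ x in a..b, h ⌊α * g x⌋₊ * (α * D) ≤ ∫ x in a..b, h ⌊α * g x⌋₊ * (α * g' x) := by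
    refine intervalIntegral.integral_mono_on hab (hi.mul_const _) ?_ fun x hx => ?_
    · exact hi.mul_continuousOn (by
        rw [Set.uIcc_of_le hab]
        exact continuousOn_const.mul hgc)
    · have := hD x hx
      have := hh ⌊α * g x⌋₊
      gcongr
  rw [intervalIntegral.integral_mul_const, h1] at h2
  have h3 := PrR_upp h hh (mul_nonneg hα.le hga) (mul_le_mul_of_nonneg_left hgb hα.le)
  linarith

/-- the derivative of a polynomial with bounded coefficients -/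
theorem pol_der {q : ℕ} (hq : 1 ≤ q) {P : Polynomial ℝ} (hdeg : P.natDegree = q) (hlead : 1 ≤ P.leadingCoeff)
    {H : ℝ} (hH : 1 ≤ H) (hco : ∀ i, |P.coeff i| ≤ H) {x : ℝ} (hx : 4 * (q * H) ≤ x) :
    q * P.leadingCoeff * x ^ (q - 1) / 2 ≤ P.derivative.eval x ∧
      P.derivative.eval x ≤ 2 * (q * P.leadingCoeff) * x ^ (q - 1) := by
  have hq1 : (1 : ℝ) ≤ q := by exact_mod_cast hq
  have hcq : P.derivative.coeff (q - 1) = q * P.leadingCoeff := by
    rw [Polynomial.coeff_derivative, Polynomial.leadingCoeff, hdeg]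
    have : q - 1 + 1 = q := by omega
    rw [this]
    have e : (((q - 1 : ℕ) : ℝ) + 1) = q := by
      rw [Nat.cast_sub hq]
      push_cast
      ring
    rw [e]
    ring
  have hd1 : P.derivative.natDegree = q - 1 := by
    apply Polynomial.natDegree_eq_of_le_of_coeff_ne_zero
    · rw [← hdeg]
      exact Polynomial.natDegree_derivative_le P
    · rw [hcq]
      have : 0 < (q : ℝ) * P.leadingCoeff := by positivity
      exact this.ne'
  have hl1 : P.derivative.leadingCoeff = q * P.leadingCoeff := by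
    rw [Polynomial.leadingCoeff, hd1, hcq]
  have hle : 1 ≤ P.derivative.leadingCoeff := by
    rw [hl1]
    nlinarith
  have hc : ∀ i, |P.derivative.coeff i| ≤ q * H := by
    intro i
    rw [Polynomial.coeff_derivative, abs_mul]
    rcases lt_or_ge i q with h1 | h1
    · have e1 : |((i : ℝ) + 1)| ≤ q := by
        rw [abs_of_nonneg (by positivity)]
        exact_mod_cast h1
      have e2 := hco (i + 1)
      calc |P.coeff (i + 1)| * |((i : ℝ) + 1)| ≤ H * q := by gcongr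
        _ = q * H := mul_comm _ _
    · rw [Polynomial.coeff_eq_zero_of_natDegree_lt (by omega), abs_zero, zero_mul]
      positivity
  have h1 := poly_up2 hd1 hle (show (1 : ℝ) ≤ q * H by nlinarith) hc hx
  rw [hl1] at h1
  constructor
  · linarith [h1.1]
  · linarith [h1.2]

end Pool.Agent.Q138.PS
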