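import Pool.Agent.Q138.PS.TE

set_option autoImplicit false

/-!
# Power saving sampling of sets
-/

namespace Pool.Agent.Q138.PS

open Finset MeasureTheory Filter Topology
open scoped ENNReal NNReal
open Pool.Agent.Q138.GS

open Classical in
/-- the indicator -/
noncomputable def ind (X : ℕ → Prop) (m : ℕ) : ℝ := if X m then 1 else 0

theorem ind_nonneg (X : ℕ → Prop) (m : ℕ) : 0 ≤ ind X m := by
  unfold ind
  split_ifs <;> norm_num

theorem ind_le (X : ℕ → Prop) (m : ℕ) : ind X m ≤ 1 := by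
  unfold ind
  split_ifs <;> norm_num

theorem ind_eq (X : ℕ → Prop) [DecidablePred X] (m : ℕ) : ind X m = if X m then 1 else 0 := by
  unfold ind
  split_ifs <;> rfl

theorem ind_sum (X : ℕ → Prop) [DecidablePred X] (s : Finset ℕ) (g : ℕ → ℕ) :
    ∑ m ∈ s, ind X (g m) = ((s.filter fun m => X (g m)).card : ℝ) := by
  simp only [ind_eq]
  rw [sum_ite]
  simp

/-- **power saving sampling of families of sets** -/
theorem set_sample {ι : Type} (q : ℕ) (hq : 2 ≤ q) (X : ι → ℕ → Prop) [∀ i, DecidablePred (X i)] (K : ℝ) (hK : 0 ≤ K)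
    (Ω : ℝ → ℕ → Finset ι) (hΩ : ∀ η, 0 < η → Monotone (Ω η))
    (hcard : ∀ η, 0 < η → ∀ᶠ N : ℕ in atTop, ((Ω η N).card : ℝ) ≤ (N : ℝ) ^ (K * η)) :
    ∃ E : Set ℝ, dimH E ≤ ENNReal.ofReal (q / (q + kp q)) ∧ ∀ α : ℝ, 0 < α → α ∉ E → ∃ η : ℝ, 0 < η ∧
      ∀ᶠ N : ℕ in atTop, ∀ i ∈ Ω η N, ∀ P : Polynomial ℤ, P.natDegree = q →
      0 < P.leadingCoeff → (∀ j, |((P.coeff j : ℤ) : ℝ)| ≤ (N : ℝ) ^ η) → ∀ n1 n2 : ℕ, n1 ≤ n2 → n2 ≤ N →
      |(((Ioc n1 n2).filter fun n : ℕ => X i ⌊α * (P.map (Int.castRingHom ℝ)).eval (n : ℝ)⌋₊).card : ℝ) -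
        ∫ x in (n1 : ℝ)..(n2 : ℝ), ind (X i) ⌊α * (P.map (Int.castRingHom ℝ)).eval x⌋₊| ≤ (N : ℝ) ^ (1 - η) := by
  have h1 := poly_sample q hq (fun i m => ((ind (X i) m : ℝ) : ℂ)) (fun i m => by
    rw [Complex.norm_real, Real.norm_eq_abs, abs_of_nonneg (ind_nonneg _ _)]
    exact ind_le _ _) K hK Ω hΩ hcard
  refine ⟨_, h1, fun α hα hαE => ?_⟩
  have h2 := not_not.1 (fun h => hαE ⟨hα, h⟩)
  obtain ⟨η, hη, hev⟩ := h2
  refine ⟨η, hη, ?_⟩
  filter_upwards [hev] with N hN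
  intro i hi P hdeg hlead hco n1 n2 h12 h2N
  have h3 := hN i hi P hdeg hlead hco n1 n2 h12 h2N
  set R := P.map (Int.castRingHom ℝ) with hR
  have h4 : DP (fun m => ((ind (X i) m : ℝ) : ℂ)) α R n1 n2 =
      (((((Ioc n1 n2).filter fun n : ℕ => X i ⌊α * R.eval (n : ℝ)⌋₊).card : ℝ) -
        ∫ x in (n1 : ℝ)..(n2 : ℝ), ind (X i) ⌊α * R.eval x⌋₊ : ℝ) : ℂ) := by
    unfold DP
    rw [Complex.ofReal_sub, ← intervalIntegral.integral_ofReal, ← ind_sum (X i) (Ioc n1 n2) (fun n => ⌊α * R.eval (n : ℝ)⌋₊)]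
    push_cast
    rfl
  rw [h4, Complex.norm_real, Real.norm_eq_abs] at h3
  exact h3

/-- the derivative of a polynomial -/
theorem pol_hd (P : Polynomial ℝ) (x : ℝ) : HasDerivAt (fun x => P.eval x) (P.derivative.eval x) x := P.hasDerivAt x

/-- an integral polynomial with bounded coefficients -/
theorem int_PH {q : ℕ} {P : Polynomial ℤ} (hdeg : P.natDegree = q) (hlead : 0 < P.leadingCoeff) {H : ℝ}
    (hco : ∀ j, |((P.coeff j : ℤ) : ℝ)| ≤ H) : PH q H (P.map (Int.castRingHom ℝ)) := by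
  have hinj : Function.Injective (Int.castRingHom ℝ) := Int.cast_injective
  refine ⟨by rw [Polynomial.natDegree_map_eq_of_injective hinj, hdeg], ?_, fun i => ?_⟩
  · rw [Polynomial.leadingCoeff_map_of_injective hinj]
    have : (1 : ℤ) ≤ P.leadingCoeff := hlead
    have : ((1 : ℤ) : ℝ) ≤ ((P.leadingCoeff : ℤ) : ℝ) := by exact_mod_cast this
    simpa using this
  · rw [Polynomial.coeff_map]
    exact hco i

/-- **lower bound for the integral in terms of the number of elements** -/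
theorem set_low {q : ℕ} (hq : 1 ≤ q) {P : Polynomial ℝ} {H : ℝ} (hH : 1 ≤ H) (hP : PH q H P) {α : ℝ} (hα : 0 < α)
    {n1 n2 : ℕ} (hn1 : 4 * (q * H) ≤ n1) (hn : n1 ≤ n2) (X : ℕ → Prop) [DecidablePred X] :
    (((Ico ⌈α * P.eval (n1 : ℝ)⌉₊ ⌊α * P.eval (n2 : ℝ)⌋₊).filter fun m => X m).card : ℝ) ≤
      α * (2 * (q * P.leadingCoeff) * (n2 : ℝ) ^ (q - 1)) * ∫ x in (n1 : ℝ)..(n2 : ℝ), ind X ⌊α * P.eval x⌋₊ := by
  obtain ⟨hdeg, hlead, hco⟩ := hP
  have hnr : (n1 : ℝ) ≤ n2 := by exact_mod_cast hn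
  have hq1 : (1 : ℝ) ≤ q := by exact_mod_cast hq
  have h4 : 4 * H ≤ (n1 : ℝ) := by nlinarith
  have hder : ∀ x ∈ Set.Icc (n1 : ℝ) n2, 0 ≤ P.derivative.eval x ∧
      P.derivative.eval x ≤ 2 * (q * P.leadingCoeff) * (n2 : ℝ) ^ (q - 1) := by
    intro x hx
    have h1 := pol_der hq hdeg hlead hH hco (hn1.trans hx.1)
    have hx0 : 0 ≤ x := (Nat.cast_nonneg n1).trans hx.1
    refine ⟨le_trans (by positivity) h1.1, h1.2.trans ?_⟩
    have := hx.2
    gcongr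
  have h5 := int_low hnr hα (fun x _ => pol_hd P x) (by fun_prop) (fun x hx => (hder x hx).1) (fun x hx => (hder x hx).2)
    (by
      have := poly_low hdeg hlead hH hco h4
      have h6 : (0 : ℝ) ≤ (n1 : ℝ) ^ q / 2 := by positivity
      linarith) (ind X) (ind_nonneg X)
  rw [ind_sum X _ (fun m => m)] at h5
  exact h5

/-- **upper bound for the integral in terms of the number of elements** -/
theorem set_upp {q : ℕ} (hq : 1 ≤ q) {P : Polynomial ℝ} {H : ℝ} (hH : 1 ≤ H) (hP : PH q H P) {α : ℝ} (hα : 0 < α)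
    {n1 n2 : ℕ} (hn1 : 4 * (q * H) ≤ n1) (hn : n1 ≤ n2) (X : ℕ → Prop) [DecidablePred X] :
    α * (q * P.leadingCoeff * (n1 : ℝ) ^ (q - 1) / 2) * ∫ x in (n1 : ℝ)..(n2 : ℝ), ind X ⌊α * P.eval x⌋₊ ≤
    (((Icc ⌊α * P.eval (n1 : ℝ)⌋₊ ⌊α * P.eval (n2 : ℝ)⌋₊).filter fun m => X m).card : ℝ) := by
  obtain ⟨hdeg, hlead, hco⟩ := hP
  have hnr : (n1 : ℝ) ≤ n2 := by exact_mod_cast hn
  have hq1 : (1 : ℝ) ≤ q := by exact_mod_cast hq
  have h4 : 4 * H ≤ (n1 : ℝ) := by nlinarith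
  have h5 := int_upp hnr hα (fun x _ => pol_hd P x) (by fun_prop)
    (D := q * P.leadingCoeff * (n1 : ℝ) ^ (q - 1) / 2) (by positivity) (fun x hx => by
      have h1 := pol_der hq hdeg hlead hH hco (hn1.trans hx.1)
      refine le_trans ?_ h1.1
      have := hx.1
      gcongr)
    (by
      have := poly_low hdeg hlead hH hco h4
      have h6 : (0 : ℝ) ≤ (n1 : ℝ) ^ q / 2 := by positivity
      linarith) (ind X) (ind_nonneg X)
  rw [ind_sum X _ (fun m => m)] at h5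
  exact h5

/-- the increment of the polynomial -/
theorem pol_inc {q : ℕ} (hq : 1 ≤ q) {P : Polynomial ℝ} {H : ℝ} (hH : 1 ≤ H) (hP : PH q H P)
    {n1 n2 : ℕ} (hn1 : 4 * (q * H) ≤ n1) (hn : n1 ≤ n2) :
    (q * P.leadingCoeff * (n1 : ℝ) ^ (q - 1) / 2) * ((n2 : ℝ) - n1) ≤ P.eval (n2 : ℝ) - P.eval (n1 : ℝ) ∧
    P.eval (n2 : ℝ) - P.eval (n1 : ℝ) ≤ (2 * (q * P.leadingCoeff) * (n2 : ℝ) ^ (q - 1)) * ((n2 : ℝ) - n1) := by
  obtain ⟨hdeg, hlead, hco⟩ := hP
  have hnr : (n1 : ℝ) ≤ n2 := by exact_mod_cast hn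
  have hfund : ∫ x in (n1 : ℝ)..(n2 : ℝ), P.derivative.eval x = P.eval (n2 : ℝ) - P.eval (n1 : ℝ) :=
    intervalIntegral.integral_eq_sub_of_hasDerivAt (fun x _ => pol_hd P x)
      ((by fun_prop : Continuous fun x => P.derivative.eval x).intervalIntegrable _ _)
  rw [← hfund]
  have hi : IntervalIntegrable (fun x => P.derivative.eval x) volume (n1 : ℝ) n2 :=
    (by fun_prop : Continuous fun x => P.derivative.eval x).intervalIntegrable _ _
  constructor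
  · calc (q * P.leadingCoeff * (n1 : ℝ) ^ (q - 1) / 2) * ((n2 : ℝ) - n1) =
        ∫ _ in (n1 : ℝ)..(n2 : ℝ), (q * P.leadingCoeff * (n1 : ℝ) ^ (q - 1) / 2) := by
          rw [intervalIntegral.integral_const, smul_eq_mul, mul_comm]
      _ ≤ _ := by
          refine intervalIntegral.integral_mono_on hnr (by simp) hi fun x hx => ?_
          have h1 := pol_der hq hdeg hlead hH hco (hn1.trans hx.1)
          refine le_trans ?_ h1.1
          have := hx.1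
          gcongr
  · calc _ ≤ ∫ _ in (n1 : ℝ)..(n2 : ℝ), (2 * (q * P.leadingCoeff) * (n2 : ℝ) ^ (q - 1)) := by
          refine intervalIntegral.integral_mono_on hnr hi (by simp) fun x hx => ?_
          have h1 := pol_der hq hdeg hlead hH hco (hn1.trans hx.1)
          have hx0 : 0 ≤ x := (Nat.cast_nonneg n1).trans hx.1
          refine h1.2.trans ?_
          have := hx.2
          gcongr
      _ = _ := by
          rw [intervalIntegral.integral_const, smul_eq_mul, mul_comm]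

end Pool.Agent.Q138.PS
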