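import Pool.Agent.Q138.PS.TF
import Pool.Agent.H295R3.Hoheisel
import Pool.Agent.Helper602.MK.J3

set_option autoImplicit false

/-!
# Primes in short intervals of arguments, for all dilations outside a set of small dimension
-/

namespace Pool.Agent.Q138.PS

open Finset MeasureTheory Filter Topology
open scoped ENNReal NNReal
open Pool.Agent.Q138.GS

/-- **short intervals of arguments** -/
theorem hoh_args (q : ℕ) (hq : 2 ≤ q) :
    ∃ E : Set ℝ, dimH E ≤ ENNReal.ofReal (q / (q + kp q)) ∧ ∀ α : ℝ, 0 < α → α ∉ E → ∃ η c C : ℝ, 0 < η ∧ 0 < c ∧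
      ∀ᶠ X : ℕ in atTop, ∀ P : Polynomial ℤ, P.natDegree = q → 0 < P.leadingCoeff →
      (∀ j, |((P.coeff j : ℤ) : ℝ)| ≤ (X : ℝ) ^ η) → ∀ Y : ℕ, (X : ℝ) ^ (1 - η) ≤ Y → Y ≤ X →
      c * Y / Real.log X ≤
        (((Ioc X (X + Y)).filter fun m : ℕ => (⌊α * (P.map (Int.castRingHom ℝ)).eval (m : ℝ)⌋₊).Prime).card : ℝ) ∧
      (((Ioc X (X + Y)).filter fun m : ℕ => (⌊α * (P.map (Int.castRingHom ℝ)).eval (m : ℝ)⌋₊).Prime).card : ℝ) ≤
        C * Y / Real.log X := by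
  classical
  obtain ⟨E, hE, hgood⟩ := set_sample (ι := Unit) q hq (fun _ m => m.Prime) 1 zero_le_one (fun _ _ => {()})
    (fun _ _ _ _ _ => le_rfl) (fun η hη => by
      filter_upwards [eventually_ge_atTop 1] with N hN
      rw [card_singleton, one_mul]
      push_cast
      exact Real.one_le_rpow (by exact_mod_cast hN) hη.le)
  obtain ⟨δ, ηH, hδ, hδ1, hηH, X₀, hX₀, hH⟩ := Pool.Agent.H295R3.D.hoheisel
  obtain ⟨CB, hCB1, hBT⟩ := Pool.Agent.Helper602.MK.BTLib.brun_titchmarsh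
  refine ⟨E, hE, fun α hα hαE => ?_⟩
  obtain ⟨η0, hη0, hev⟩ := hgood α hα hαE
  have hq0 : (2 : ℝ) ≤ q := by exact_mod_cast hq
  set η : ℝ := min (min (η0 / 2) (δ / 2)) (1 / 2) with hη
  have hηp : 0 < η := by positivity
  have hη1 : η ≤ η0 / 2 := (min_le_left _ _).trans (min_le_left _ _)
  have hη2 : η ≤ δ / 2 := (min_le_left _ _).trans (min_le_right _ _)
  have hη3 : η ≤ 1 / 2 := min_le_right _ _
  set c : ℝ := ηH / (q * (q + 2) * 2 ^ (q + 2)) with hc
  have hc0 : 0 < c := by positivity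
  refine ⟨η, c, CB * 2 ^ (q + 2) + c, hηp, hc0, ?_⟩
  filter_upwards [eventually_ge_atTop 1, tendsto_natCast_atTop_atTop.eventually_ge_atTop (X₀ : ℝ),
    eventually_forall_ge_atTop.2 hev,
    pw (8 * q) 0 (show (0 : ℝ) < 1 / 2 by norm_num), pw 6 0 (show 0 < δ / 2 by linarith),
    pw (2 / c) 1 (show 0 < η0 / 2 by linarith), pw (12 / α + 3 * α + 3) 0 (show (0 : ℝ) < 1 / 2 by norm_num), lg1]
    with X hX1 hX0 hN h1 h2 h3 h4 hl
  intro P hdeg hlead hco Y hY1 hY2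
  rw [pow_zero, mul_one] at h1 h2 h4
  rw [pow_one] at h3
  have hXr : (1 : ℝ) ≤ X := by exact_mod_cast hX1
  have hX : (0 : ℝ) < X := by linarith
  set ℓ := Real.log X with hℓ
  have hl0 : 0 < ℓ := by linarith
  set R := P.map (Int.castRingHom ℝ) with hR
  set H : ℝ := (X : ℝ) ^ η with hHdef
  have hH1 : 1 ≤ H := Real.one_le_rpow hXr hηp.le
  have hPH : PH q H R := int_PH hdeg hlead hco
  have hHX : H ≤ (X : ℝ) ^ (1 / 2 : ℝ) := Real.rpow_le_rpow_of_exponent_le hXr hη3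
  have hsqrt : (X : ℝ) ^ (1 / 2 : ℝ) * (X : ℝ) ^ (1 / 2 : ℝ) = X := by
    rw [← Real.rpow_add hX]
    norm_num
  have hs1 : 1 ≤ (X : ℝ) ^ (1 / 2 : ℝ) := Real.one_le_rpow hXr (by norm_num)
  have h4qH : 4 * (q * H) ≤ X := by
    calc 4 * (q * H) = 4 * q * H := by ring
      _ ≤ 8 * q * H := by gcongr; norm_num
      _ ≤ (X : ℝ) ^ (1 / 2 : ℝ) * (X : ℝ) ^ (1 / 2 : ℝ) := by gcongr
      _ = X := hsqrt
  have h4H : 4 * H ≤ X := by nlinarith
  have hYr : (Y : ℝ) ≤ X := by exact_mod_cast hY2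
  have hY0 : 0 < (Y : ℝ) := lt_of_lt_of_le (by positivity) hY1
  have hYone : 1 ≤ (Y : ℝ) := (Real.one_le_rpow hXr (by linarith)).trans hY1
  set a : ℝ := R.leadingCoeff with ha
  have ha1 : 1 ≤ a := hPH.2.1
  have haH : a ≤ H := by
    have := (le_abs_self _).trans (hPH.2.2 q)
    rwa [← hPH.1] at this
  have haX : a ≤ X := by linarith
  have hXq : (X : ℝ) ^ q = (X : ℝ) ^ (q - 1) * X := by
    rw [← pow_succ]
    congr 1
    omega
  have hXq1 : (X : ℝ) ≤ (X : ℝ) ^ (q - 1) := by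
    calc (X : ℝ) = (X : ℝ) ^ 1 := (pow_one _).symm
      _ ≤ _ := pow_le_pow_right₀ hXr (by omega)
  -- the end points
  set V1 : ℝ := α * R.eval (X : ℝ) with hV1
  set V2 : ℝ := α * R.eval ((X + Y : ℕ) : ℝ) with hV2
  obtain ⟨hv1, hv2⟩ := poly_up2 hPH.1 hPH.2.1 hH1 hPH.2.2 h4H
  rw [← ha] at hv1 hv2
  obtain ⟨hi1, hi2⟩ := pol_inc (by omega) hH1 hPH h4qH (Nat.le_add_right X Y)
  rw [← ha] at hi1 hi2
  have hXY : ((X + Y : ℕ) : ℝ) - X = Y := by push_cast; ring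
  rw [hXY] at hi1 hi2
  have hXY2 : ((X + Y : ℕ) : ℝ) ≤ 2 * X := by push_cast; linarith
  set W : ℝ := α * a * (X : ℝ) ^ (q - 1) * Y with hW
  have hW0 : 0 < W := by positivity
  have hpw : ((X + Y : ℕ) : ℝ) ^ (q - 1) ≤ 2 ^ (q - 1) * (X : ℝ) ^ (q - 1) := by
    rw [← mul_pow]
    gcongr
  have hV1l : W / 2 ≤ V1 := by
    calc W / 2 ≤ α * a * (X : ℝ) ^ (q - 1) * X / 2 := by rw [hW]; gcongr
      _ = α * (a * (X : ℝ) ^ q / 2) := by rw [hXq]; ring
      _ ≤ V1 := by rw [hV1]; gcongr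
  have hαX : 12 / α + 3 * α + 3 ≤ X := by
    calc 12 / α + 3 * α + 3 ≤ (X : ℝ) ^ (1 / 2 : ℝ) := h4
      _ ≤ (X : ℝ) ^ (1 / 2 : ℝ) * (X : ℝ) ^ (1 / 2 : ℝ) := by nlinarith
      _ = X := hsqrt
  have h12 : 12 / α ≤ X := by
    have : 0 < 3 * α + 3 := by positivity
    linarith
  have h3α : 3 * α ≤ X := by
    have : 0 < 12 / α + 3 := by positivity
    linarith
  have h12' : 12 ≤ α * X := by
    rw [div_le_iff₀ hα] at h12
    linarith
  have hVX : (X : ℝ) ≤ V1 := by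
    calc (X : ℝ) ≤ α * X * X / 2 := by nlinarith
      _ ≤ α * (1 * ((X : ℝ) ^ (q - 1) * X) / 2) := by
          have : α * X * X / 2 = α * (1 * (X * X) / 2) := by ring
          rw [this]
          gcongr
      _ ≤ α * (a * ((X : ℝ) ^ (q - 1) * X) / 2) := by gcongr
      _ ≤ V1 := by rw [hV1, ← hXq]; gcongr
  have hV1u : V1 + 1 ≤ 3 * α * a * (X : ℝ) ^ q := by
    have e1 : V1 ≤ α * (2 * a * (X : ℝ) ^ q) := by rw [hV1]; gcongr
    have e2 : 1 ≤ α * a * (X : ℝ) ^ q := by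
      calc (1 : ℝ) ≤ α * 1 * (X : ℝ) := by linarith
        _ ≤ α * a * (X : ℝ) ^ q := by
            have : (X : ℝ) ≤ (X : ℝ) ^ q := hXq1.trans (pow_le_pow_right₀ hXr (by omega))
            gcongr
    linarith
  have hdl : W ≤ V2 - V1 := by
    have e1 : V2 - V1 = α * (R.eval ((X + Y : ℕ) : ℝ) - R.eval (X : ℝ)) := by rw [hV1, hV2]; ring
    rw [e1]
    calc W = α * (1 * a * (X : ℝ) ^ (q - 1) * Y) := by rw [hW]; ring
      _ ≤ α * ((q / 2) * a * (X : ℝ) ^ (q - 1) * Y) := by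
          have : (1 : ℝ) ≤ q / 2 := by linarith
          gcongr
      _ = α * (q * a * (X : ℝ) ^ (q - 1) / 2 * Y) := by ring
      _ ≤ _ := by gcongr
  have hdu : V2 - V1 ≤ q * 2 ^ q * W := by
    have e1 : V2 - V1 = α * (R.eval ((X + Y : ℕ) : ℝ) - R.eval (X : ℝ)) := by rw [hV1, hV2]; ring
    have e2 : (2 : ℝ) ^ q = 2 ^ (q - 1) * 2 := by
      rw [← pow_succ]
      congr 1
      omega
    rw [e1]
    calc _ ≤ α * (2 * (q * a) * ((X + Y : ℕ) : ℝ) ^ (q - 1) * Y) := by gcongr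
      _ ≤ α * (2 * (q * a) * (2 ^ (q - 1) * (X : ℝ) ^ (q - 1)) * Y) := by gcongr
      _ = _ := by rw [hW, e2]; ring
  have hWX : (X : ℝ) * 6 ≤ W := by
    -- `W ≥ α X Y ≥ α X X ^ (1 / 2)`
    have e1 : (X : ℝ) ^ (1 / 2 : ℝ) ≤ Y := le_trans (Real.rpow_le_rpow_of_exponent_le hXr (by linarith)) hY1
    have e2 : 12 / α ≤ (X : ℝ) ^ (1 / 2 : ℝ) := by
      have : 0 < 3 * α + 3 := by positivity
      linarith
    have e3 : 12 ≤ α * Y := by
      rw [div_le_iff₀ hα] at e2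
      nlinarith
    calc (X : ℝ) * 6 ≤ X * (α * Y) := by gcongr; linarith
      _ = α * 1 * X * Y := by ring
      _ ≤ W := by rw [hW]; gcongr
  set Xv : ℕ := ⌈V1⌉₊ with hXv
  have hXvl : V1 ≤ Xv := Nat.le_ceil _
  have hV10 : 0 ≤ V1 := by linarith
  have hXvu : (Xv : ℝ) ≤ V1 + 1 := (Nat.ceil_lt_add_one hV10).le
  have hV2l : V2 < (⌊V2⌋₊ : ℝ) + 1 := Nat.lt_floor_add_one _
  set Z : ℕ := min (⌊V2⌋₊ - Xv - 1) Xv with hZ
  have hXvV2 : Xv + 1 ≤ ⌊V2⌋₊ := by
    have : ((Xv + 1 : ℕ) : ℝ) < (⌊V2⌋₊ : ℝ) + 1 := by push_cast; linarith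
    have h5 : Xv + 1 < ⌊V2⌋₊ + 1 := by exact_mod_cast this
    omega
  have hZW : W / 2 ≤ Z := by
    rw [hZ, Nat.cast_min]
    refine le_min ?_ (hV1l.trans hXvl)
    rw [Nat.cast_sub (by omega), Nat.cast_sub (by omega)]
    push_cast
    linarith
  have hW0' : 0 < (Z : ℝ) := by linarith
  have hlogXv : Real.log Xv ≤ (q + 2) * ℓ := by
    have e1 : (Xv : ℝ) ≤ (X : ℝ) ^ (q + 2) := by
      calc (Xv : ℝ) ≤ 3 * α * a * (X : ℝ) ^ q := hXvu.trans hV1u
        _ ≤ X * X * (X : ℝ) ^ q := by gcongr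
        _ = _ := by ring
    have e2 := Real.log_le_log (by linarith) e1
    rw [Real.log_pow] at e2
    push_cast at e2
    exact e2
  have hlogXv0 : 0 < Real.log Xv := by
    apply Real.log_pos
    have : (3 : ℝ) < X := by
      have : 0 < 12 / α + 3 * α := by positivity
      linarith
    linarith
  have hHo := hH Xv Z (by
    have : (X₀ : ℝ) ≤ Xv := by linarith
    exact_mod_cast this) (by
      refine le_trans ?_ hZW
      have hXv0 : (0 : ℝ) < Xv := by linarith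
      have e1 : (Xv : ℝ) ≤ 3 * W * H := by
        calc (Xv : ℝ) ≤ 3 * α * a * (X : ℝ) ^ q := hXvu.trans hV1u
          _ = 3 * (α * a * (X : ℝ) ^ (q - 1)) * X := by rw [hXq]; ring
          _ ≤ 3 * (α * a * (X : ℝ) ^ (q - 1)) * (Y * H) := by
              have : (X : ℝ) = (X : ℝ) ^ (1 - η) * H := by
                rw [hHdef, ← Real.rpow_add hX]
                norm_num
              have h5 : (X : ℝ) ≤ Y * H := by
                calc (X : ℝ) = (X : ℝ) ^ (1 - η) * H := this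
                  _ ≤ Y * H := by gcongr
              gcongr
          _ = 3 * W * H := by rw [hW]; ring
      have e2 : 6 * H ≤ (Xv : ℝ) ^ δ := by
        calc 6 * H ≤ (X : ℝ) ^ (δ / 2) * (X : ℝ) ^ (δ / 2) := by
              have : H ≤ (X : ℝ) ^ (δ / 2) := Real.rpow_le_rpow_of_exponent_le hXr hη2
              gcongr
          _ = (X : ℝ) ^ δ := by
              rw [← Real.rpow_add hX]
              congr 1
              ring
          _ ≤ _ := by
              apply Real.rpow_le_rpow hX.le (by linarith) hδ.le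
      rw [Real.rpow_sub hXv0, Real.rpow_one, div_le_iff₀ (by positivity)]
      calc (Xv : ℝ) ≤ 3 * W * H := e1
        _ = W / 2 * (6 * H) := by ring
        _ ≤ _ := by gcongr) (min_le_right _ _)
  -- the integral
  set I : ℝ := ∫ x in (X : ℝ)..((X + Y : ℕ) : ℝ), ind (fun m => m.Prime) ⌊α * R.eval x⌋₊ with hI
  have hI0 : 0 ≤ I := intervalIntegral.integral_nonneg (by push_cast; linarith) fun x _ => ind_nonneg _ _
  have hlow := set_low (by omega) hH1 hPH hα h4qH (Nat.le_add_right X Y) (fun m => m.Prime)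
  rw [← hI, ← hV1, ← hV2, ← ha] at hlow
  have hsubc : (((Ioc Xv (Xv + Z)).filter Nat.Prime).card : ℝ) ≤
      (((Ico Xv ⌊V2⌋₊).filter fun m => m.Prime).card : ℝ) := by
    have : (Ioc Xv (Xv + Z)).filter Nat.Prime ⊆ (Ico Xv ⌊V2⌋₊).filter fun m => m.Prime := by
      apply filter_subset_filter
      intro m hm
      rw [mem_Ioc] at hm
      rw [mem_Ico]
      have h5 : Z ≤ ⌊V2⌋₊ - Xv - 1 := min_le_left _ _
      omega
    exact_mod_cast card_le_card this
  have hlow2 : ηH * (W / 2) / ((q + 2) * ℓ) ≤ α * (2 * (q * a) * (2 ^ (q - 1) * (X : ℝ) ^ (q - 1))) * I := by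
    calc ηH * (W / 2) / ((q + 2) * ℓ) ≤ ηH * Z / Real.log Xv := by gcongr
      _ ≤ _ := hHo
      _ ≤ _ := hsubc
      _ ≤ α * (2 * (q * a) * ((X + Y : ℕ) : ℝ) ^ (q - 1)) * I := hlow
      _ ≤ _ := by gcongr
  have hIlow : 2 * c * Y / ℓ ≤ I := by
    have e1 : α * (2 * (q * a) * (2 ^ (q - 1) * (X : ℝ) ^ (q - 1))) * (2 * c * Y / ℓ) = ηH * (W / 2) / ((q + 2) * ℓ) := by
      rw [hc, hW]
      have e2 : (2 : ℝ) ^ (q + 2) = 2 ^ (q - 1) * 8 := by
        have : q + 2 = (q - 1) + 3 := by omega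
        rw [this, pow_add]
        norm_num
      rw [e2]
      field_simp
      ring
    rw [← e1] at hlow2
    exact le_of_mul_le_mul_left hlow2 (by positivity)
  -- the error
  have hNN := hN (X + Y) (Nat.le_add_right _ _) () (mem_singleton_self _) P hdeg hlead (fun j => by
    refine (hco j).trans ?_
    calc H ≤ (X : ℝ) ^ η0 := Real.rpow_le_rpow_of_exponent_le hXr (by linarith)
      _ ≤ _ := by
          apply Real.rpow_le_rpow hX.le _ hη0.le
          push_cast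
          linarith) X (X + Y) (Nat.le_add_right _ _) le_rfl
  rw [← hR, ← hI] at hNN
  set Ct : ℝ := (((Ioc X (X + Y)).filter fun m : ℕ => (⌊α * R.eval (m : ℝ)⌋₊).Prime).card : ℝ) with hCt
  have herr : (((X + Y : ℕ)) : ℝ) ^ (1 - η0) ≤ c * Y / ℓ := by
    have hpos : (0 : ℝ) < ((X + Y : ℕ) : ℝ) := by push_cast; linarith
    have e3 : (X : ℝ) ≤ ((X + Y : ℕ) : ℝ) := by push_cast; linarith
    have e0 : (((X + Y : ℕ)) : ℝ) ^ (1 - η0) = ((X + Y : ℕ) : ℝ) / ((X + Y : ℕ) : ℝ) ^ η0 := by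
      rw [Real.rpow_sub hpos, Real.rpow_one]
    have e1 : (((X + Y : ℕ)) : ℝ) ^ (1 - η0) ≤ 2 * X / (X : ℝ) ^ η0 := by
      rw [e0]
      gcongr
    have e2 : (X : ℝ) ^ η0 = (X : ℝ) ^ (η0 / 2) * (X : ℝ) ^ (η0 / 2) := by
      rw [← Real.rpow_add hX]
      congr 1
      ring
    have e4 : (X : ℝ) ≤ Y * (X : ℝ) ^ (η0 / 2) := by
      calc (X : ℝ) = (X : ℝ) ^ (1 - η) * (X : ℝ) ^ η := by
            rw [← Real.rpow_add hX]
            norm_num
        _ ≤ Y * (X : ℝ) ^ (η0 / 2) := by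
            have : (X : ℝ) ^ η ≤ (X : ℝ) ^ (η0 / 2) := Real.rpow_le_rpow_of_exponent_le hXr hη1
            gcongr
    refine e1.trans ?_
    rw [e2, div_le_div_iff₀ (by positivity) hl0]
    have e5 : 2 * ℓ ≤ c * (X : ℝ) ^ (η0 / 2) := by
      have : 2 / c * ℓ ≤ (X : ℝ) ^ (η0 / 2) := h3
      rw [div_mul_eq_mul_div, div_le_iff₀ hc0] at this
      linarith
    calc 2 * X * ℓ = X * (2 * ℓ) := by ring
      _ ≤ (Y * (X : ℝ) ^ (η0 / 2)) * (c * (X : ℝ) ^ (η0 / 2)) := by gcongr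
      _ = _ := by ring
  obtain ⟨hb1, hb2⟩ := abs_le.1 (hNN.trans herr)
  have eY : 2 * c * Y / ℓ = c * Y / ℓ + c * Y / ℓ := by ring
  constructor
  · linarith
  · -- upper bound
    have hupp := set_upp (by omega) hH1 hPH hα h4qH (Nat.le_add_right X Y) (fun m => m.Prime)
    rw [← hI, ← hV1, ← hV2, ← ha] at hupp
    set A : ℕ := ⌊V1⌋₊ with hA
    have hAV : A ≤ ⌊V2⌋₊ := Nat.floor_le_floor (by linarith)
    have hAr : (A : ℝ) ≤ V1 := Nat.floor_le hV10
    have hA1 : V1 < (A : ℝ) + 1 := Nat.lt_floor_add_one _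
    have hV20 : 0 ≤ V2 := by linarith
    have hV2f : ((⌊V2⌋₊ : ℕ) : ℝ) ≤ V2 := Nat.floor_le hV20
    set M : ℕ := ⌊V2⌋₊ - A + 1 with hM
    have hMr : (M : ℝ) = (⌊V2⌋₊ : ℝ) - A + 1 := by rw [hM]; push_cast; rw [Nat.cast_sub hAV]
    have hMl : (X : ℝ) ≤ M := by
      rw [hMr]
      linarith
    have hMu : (M : ℝ) ≤ q * 2 ^ (q + 1) * W := by
      rw [hMr]
      have e3 : (1 : ℝ) ≤ 2 ^ q := one_le_pow₀ (by norm_num)
      have e4 : 2 ≤ q * 2 ^ q * W := by
        calc (2 : ℝ) ≤ 2 * 1 * 1 := by norm_num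
          _ ≤ q * 2 ^ q * W := by
              have : 1 ≤ W := by linarith
              gcongr
      have e5 : q * 2 ^ (q + 1) * W = q * 2 ^ q * W + q * 2 ^ q * W := by rw [pow_succ]; ring
      rw [e5]
      linarith
    have hM2 : 2 ≤ M := by
      have : (2 : ℝ) ≤ M := by
        have : (3 : ℝ) < X := by
          have : 0 < 12 / α + 3 * α := by positivity
          linarith
        linarith
      exact_mod_cast this
    have hbt := hBT A 1 M le_rfl hM2
    simp only [mul_one, Nat.cast_one, Nat.totient_one, div_one] at hbt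
    have hsubB : (((Icc A ⌊V2⌋₊).filter fun m => m.Prime).card : ℝ) ≤
        (((range M).filter (fun k => (A + k).Prime)).card : ℝ) := by
      have : ((Icc A ⌊V2⌋₊).filter fun m => m.Prime).card ≤ ((range M).filter (fun k => (A + k).Prime)).card := by
        apply card_le_card_of_injOn (fun m => m - A)
        · intro m hm
          rw [mem_coe, mem_filter, mem_Icc] at hm
          rw [mem_coe, mem_filter, mem_range]
          have e9 : A + (m - A) = m := by omega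
          refine ⟨?_, ?_⟩
          · change m - A < M
            rw [hM]
            omega
          · change (A + (m - A)).Prime
            rw [e9]
            exact hm.2
        · intro m hm m' hm' h
          rw [mem_coe, mem_filter, mem_Icc] at hm hm'
          simp only at h
          omega
      exact_mod_cast this
    have hlogM : ℓ ≤ Real.log M := Real.log_le_log hX hMl
    have hIu : α * (q * a * (X : ℝ) ^ (q - 1) / 2) * I ≤ CB * (q * 2 ^ (q + 1) * W) / ℓ := by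
      calc _ ≤ _ := hupp
        _ ≤ _ := hsubB
        _ ≤ CB * M / Real.log M := hbt
        _ ≤ _ := by gcongr
    have e1 : CB * (q * 2 ^ (q + 1) * W) / ℓ = α * (q * a * (X : ℝ) ^ (q - 1) / 2) * (CB * 2 ^ (q + 2) * Y / ℓ) := by
      rw [hW, pow_succ (2 : ℝ) (q + 1)]
      field_simp
    rw [e1] at hIu
    have hIu2 := le_of_mul_le_mul_left hIu (by positivity)
    have e2 : (CB * 2 ^ (q + 2) + c) * Y / ℓ = CB * 2 ^ (q + 2) * Y / ℓ + c * Y / ℓ := by ring
    rw [e2]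
    linarith

end Pool.Agent.Q138.PS
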