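import Pool.Agent.Q138.PS.TF

set_option autoImplicit false

/-!
# Transfer of sets which have many elements at arbitrarily large scales
-/

namespace Pool.Agent.Q138.PS

open Finset MeasureTheory Filter Topology
open scoped ENNReal NNReal
open Pool.Agent.Q138.GS

/-- a bound for the coefficients -/
theorem coeff_bound (P : Polynomial ℤ) : ∃ H : ℝ, 1 ≤ H ∧ ∀ j, |((P.coeff j : ℤ) : ℝ)| ≤ H := by
  refine ⟨1 + ∑ i ∈ range (P.natDegree + 1), |((P.coeff i : ℤ) : ℝ)|,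
    le_add_of_nonneg_right (sum_nonneg fun _ _ => abs_nonneg _), fun j => ?_⟩
  rcases lt_or_ge j (P.natDegree + 1) with h | h
  · have := single_le_sum (f := fun i => |((P.coeff i : ℤ) : ℝ)|) (fun i _ => abs_nonneg _) (mem_range.2 h)
    linarith
  · rw [Polynomial.coeff_eq_zero_of_natDegree_lt (by omega)]
    simp only [Int.cast_zero, abs_zero]
    have : 0 ≤ ∑ i ∈ range (P.natDegree + 1), |((P.coeff i : ℤ) : ℝ)| := sum_nonneg fun _ _ => abs_nonneg _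
    linarith

theorem io_aux (q : ℕ) (hq : 2 ≤ q) (X : ℕ → Prop) [DecidablePred X] {α η0 : ℝ} (hα : 0 < α) (hη0 : 0 < η0)
    (P : Polynomial ℤ) (hdeg : P.natDegree = q) (hlead : 0 < P.leadingCoeff)
    (hev : ∀ᶠ N : ℕ in atTop, ∀ n1 n2 : ℕ, n1 ≤ n2 → n2 ≤ N →
      |(((Ioc n1 n2).filter fun n : ℕ => X ⌊α * (P.map (Int.castRingHom ℝ)).eval (n : ℝ)⌋₊).card : ℝ) -
        ∫ x in (n1 : ℝ)..(n2 : ℝ), ind X ⌊α * (P.map (Int.castRingHom ℝ)).eval x⌋₊| ≤ (N : ℝ) ^ (1 - η0))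
    (hX : ∀ η : ℝ, 0 < η → ∃ᶠ x : ℕ in atTop, (x : ℝ) ^ (1 - η) ≤ (((Icc 1 x).filter X).card : ℝ)) {η : ℝ}
    (hη : 0 < η) : ∃ᶠ N : ℕ in atTop, (N : ℝ) ^ (1 - η) ≤
      (((Icc 1 N).filter fun n : ℕ => X ⌊α * (P.map (Int.castRingHom ℝ)).eval (n : ℝ)⌋₊).card : ℝ) := by
  set R := P.map (Int.castRingHom ℝ) with hR
  obtain ⟨H, hH1, hco⟩ := coeff_bound P
  have hPH : PH q H R := int_PH hdeg hlead hco
  have hq0 : (2 : ℝ) ≤ q := by exact_mod_cast hq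
  set a : ℝ := R.leadingCoeff with ha
  have ha1 : 1 ≤ a := hPH.2.1
  set e0 : ℝ := min (min η η0) (1 / 2) with he0
  have he0p : 0 < e0 := by positivity
  have he1 : e0 ≤ η := (min_le_left _ _).trans (min_le_left _ _)
  have he2 : e0 ≤ η0 := (min_le_left _ _).trans (min_le_right _ _)
  have he3 : e0 ≤ 1 / 2 := min_le_right _ _
  set η1 : ℝ := e0 / (2 * q) with hη1
  have hη1p : 0 < η1 := by positivity
  have hqη : q * η1 = e0 / 2 := by rw [hη1]; field_simp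
  have hη1l : η1 < 1 := by nlinarith
  set κ1 : ℝ := (α / 2 ^ (q + 2)) ^ (1 - η1) with hκ1
  have hκ1p : 0 < κ1 := by positivity
  set c2 : ℝ := κ1 / (4 * α * q * a) with hc2
  have hc2p : 0 < c2 := by positivity
  -- the conditions on `N`
  have hcond : ∀ᶠ N : ℕ in atTop, (∀ n1 n2 : ℕ, n1 ≤ n2 → n2 ≤ N →
      |(((Ioc n1 n2).filter fun n : ℕ => X ⌊α * R.eval (n : ℝ)⌋₊).card : ℝ) -
        ∫ x in (n1 : ℝ)..(n2 : ℝ), ind X ⌊α * R.eval x⌋₊| ≤ (N : ℝ) ^ (1 - η0)) ∧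
      4 * (q * H) ≤ (N : ℝ) ^ (1 / 2 : ℝ) ∧ 16 ≤ (N : ℝ) ∧ 4 * (q * H) + 1 ≤ (N : ℝ) - 1 ∧ 2 / c2 ≤ (N : ℝ) ^ (e0 / 2) ∧
      2 * (2 * α * a * 3 ^ q + 1) / κ1 ≤ (N : ℝ) ^ (1 / 2 : ℝ) ∧ 2 ^ (q + 2) / α ≤ (N : ℝ) := by
    filter_upwards [hev, pw (4 * (q * H)) 0 (show (0 : ℝ) < 1 / 2 by norm_num),
      tendsto_natCast_atTop_atTop.eventually_ge_atTop (16 + (4 * (q * H) + 2) + 2 ^ (q + 2) / α : ℝ),
      pw (2 / c2) 0 (show 0 < e0 / 2 by positivity),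
      pw (2 * (2 * α * a * 3 ^ q + 1) / κ1) 0 (show (0 : ℝ) < 1 / 2 by norm_num)] with N h1 h2 h3 h4 h5
    rw [pow_zero, mul_one] at h2 h4 h5
    have hqH : 0 < 4 * (q * H) := by positivity
    have hα2 : 0 < 2 ^ (q + 2) / α := by positivity
    exact ⟨h1, h2, by linarith, by linarith, h4, h5, by linarith⟩
  obtain ⟨N1, hN1⟩ := eventually_atTop.1 hcond
  rw [frequently_atTop]
  intro N0
  obtain ⟨x, hxge, hx⟩ := (frequently_atTop.1 (hX η1 hη1p)) (⌈∑ k ∈ range (max N0 N1 + 1), |α * R.eval (k : ℝ)|⌉₊ + 1)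
  have hxr : ∑ k ∈ range (max N0 N1 + 1), |α * R.eval (k : ℝ)| ≤ x := by
    have h1 := Nat.le_ceil (∑ k ∈ range (max N0 N1 + 1), |α * R.eval (k : ℝ)|)
    have h2 : ((⌈∑ k ∈ range (max N0 N1 + 1), |α * R.eval (k : ℝ)|⌉₊ + 1 : ℕ) : ℝ) ≤ x := by exact_mod_cast hxge
    push_cast at h2
    linarith
  have hex : ∃ N : ℕ, (x : ℝ) + 1 ≤ α * R.eval (N : ℝ) := by
    obtain ⟨N, hN⟩ := exists_nat_ge (max (4 * H) (2 * ((x : ℝ) + 1) / α))
    refine ⟨N, ?_⟩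
    have h1 : 4 * H ≤ (N : ℝ) := (le_max_left _ _).trans hN
    have h2 : 2 * ((x : ℝ) + 1) / α ≤ N := (le_max_right _ _).trans hN
    have h3 := poly_low hPH.1 hPH.2.1 hH1 hPH.2.2 h1
    have h4 : (1 : ℝ) ≤ N := by linarith
    have h5 : (N : ℝ) ≤ (N : ℝ) ^ q := by
      calc (N : ℝ) = (N : ℝ) ^ 1 := (pow_one _).symm
        _ ≤ _ := pow_le_pow_right₀ h4 (by omega)
    rw [div_le_iff₀ hα] at h2
    nlinarith
  classical
  set N := Nat.find hex with hNdef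
  have hNs : (x : ℝ) + 1 ≤ α * R.eval (N : ℝ) := Nat.find_spec hex
  have hNgt : max N0 N1 < N := by
    by_contra hle
    rw [not_lt] at hle
    have h1 : |α * R.eval (N : ℝ)| ≤ ∑ k ∈ range (max N0 N1 + 1), |α * R.eval (k : ℝ)| :=
      single_le_sum (f := fun k : ℕ => |α * R.eval (k : ℝ)|) (fun k _ => abs_nonneg _) (mem_range.2 (by omega))
    have h2 := le_abs_self (α * R.eval (N : ℝ))
    linarith
  refine ⟨N, (le_max_left N0 N1).trans hNgt.le, ?_⟩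
  obtain ⟨hsamp, c1, c3, c4, c5, c6, c7⟩ := hN1 N ((le_max_right N0 N1).trans hNgt.le)
  have hNpos : 1 ≤ N := by omega
  have hN0r : (0 : ℝ) < N := by exact_mod_cast hNpos
  have hN1r : (1 : ℝ) ≤ N := by exact_mod_cast hNpos
  have hmin : α * R.eval (((N - 1 : ℕ)) : ℝ) < x + 1 := by
    have := Nat.find_min hex (show N - 1 < Nat.find hex by rw [← hNdef]; omega)
    exact not_le.1 this
  -- `x` is at least a constant times `N ^ q`
  have hxN : α / 2 ^ (q + 2) * (N : ℝ) ^ q ≤ x := by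
    have hc : (((N - 1 : ℕ)) : ℝ) = (N : ℝ) - 1 := by rw [Nat.cast_sub hNpos]; push_cast; rfl
    rw [hc] at hmin
    have h4H : 4 * H ≤ (N : ℝ) - 1 := by nlinarith
    have h1 := poly_low hPH.1 hPH.2.1 hH1 hPH.2.2 h4H
    have h2 : ((N : ℝ) / 2) ^ q ≤ ((N : ℝ) - 1) ^ q := by
      apply pow_le_pow_left₀ (by positivity)
      linarith
    have h3 : α * (((N : ℝ) / 2) ^ q / 2) < x + 1 := by
      refine lt_of_le_of_lt ?_ hmin
      gcongr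
      linarith
    have h5 : α * (((N : ℝ) / 2) ^ q / 2) = 2 * (α / 2 ^ (q + 2) * (N : ℝ) ^ q) := by
      rw [div_pow, pow_succ, pow_succ]
      field_simp
    rw [h5] at h3
    have h6 : 1 ≤ α / 2 ^ (q + 2) * (N : ℝ) ^ q := by
      have h7 : (N : ℝ) ≤ (N : ℝ) ^ q := by
        calc (N : ℝ) = (N : ℝ) ^ 1 := (pow_one _).symm
          _ ≤ _ := pow_le_pow_right₀ hN1r (by omega)
      have h8 : 2 ^ (q + 2) ≤ α * N := by
        rw [div_le_iff₀ hα] at c7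
        linarith
      rw [div_mul_eq_mul_div, le_div_iff₀ (by positivity), one_mul]
      calc (2 : ℝ) ^ (q + 2) ≤ α * N := h8
        _ ≤ _ := by gcongr
    linarith
  have hx0 : (0 : ℝ) ≤ x := Nat.cast_nonneg _
  have hxpow : κ1 * (N : ℝ) ^ (q * (1 - η1)) ≤ (x : ℝ) ^ (1 - η1) := by
    calc κ1 * (N : ℝ) ^ (q * (1 - η1)) = (α / 2 ^ (q + 2) * (N : ℝ) ^ q) ^ (1 - η1) := by
          rw [Real.mul_rpow (by positivity) (by positivity), hκ1, ← Real.rpow_natCast (N : ℝ) q,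
            ← Real.rpow_mul hN0r.le]
      _ ≤ _ := Real.rpow_le_rpow (by positivity) hxN (by linarith)
  -- the left end point
  set s : ℝ := (N : ℝ) ^ (1 / 2 : ℝ) with hs
  have hs1 : 1 ≤ s := Real.one_le_rpow hN1r (by norm_num)
  have hss : s * s = N := by
    rw [hs, ← Real.rpow_add hN0r]
    norm_num
  set n1 : ℕ := ⌈s⌉₊ with hn1
  have hn1l : s ≤ n1 := Nat.le_ceil _
  have hn1u : (n1 : ℝ) ≤ 3 * s := by
    have := (Nat.ceil_lt_add_one (show 0 ≤ s by linarith)).le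
    linarith
  have hs4 : 4 ≤ s := by nlinarith
  have hn1N : n1 ≤ N := by
    have h1 : (n1 : ℝ) ≤ N := by
      have := (Nat.ceil_lt_add_one (show 0 ≤ s by linarith)).le
      nlinarith
    exact_mod_cast h1
  have h4qH : 4 * (q * H) ≤ (n1 : ℝ) := c1.trans hn1l
  have h4H : 4 * H ≤ (n1 : ℝ) := by nlinarith
  have hlow := set_low (by omega) hH1 hPH hα h4qH hn1N X
  rw [← ha] at hlow
  set I : ℝ := ∫ x in (n1 : ℝ)..(N : ℝ), ind X ⌊α * R.eval x⌋₊ with hI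
  -- the number of elements
  have hcount : (((Icc 1 x).filter X).card : ℝ) ≤ (((Ico ⌈α * R.eval (n1 : ℝ)⌉₊ ⌊α * R.eval (N : ℝ)⌋₊).filter
      fun m => X m).card : ℝ) + ⌈α * R.eval (n1 : ℝ)⌉₊ := by
    have hfl : x + 1 ≤ ⌊α * R.eval (N : ℝ)⌋₊ := Nat.le_floor (by push_cast; exact hNs)
    have hsub : (Icc 1 x).filter X ⊆ (Ico ⌈α * R.eval (n1 : ℝ)⌉₊ ⌊α * R.eval (N : ℝ)⌋₊).filter (fun m => X m) ∪
        range ⌈α * R.eval (n1 : ℝ)⌉₊ := by
      intro m hm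
      rw [mem_filter, mem_Icc] at hm
      rw [mem_union, mem_filter, mem_Ico, mem_range]
      by_cases h : m < ⌈α * R.eval (n1 : ℝ)⌉₊
      · exact Or.inr h
      · exact Or.inl ⟨⟨by omega, by omega⟩, hm.2⟩
    have h1 := (card_le_card hsub).trans (card_union_le _ _)
    rw [card_range] at h1
    exact_mod_cast h1
  have hceil : (⌈α * R.eval (n1 : ℝ)⌉₊ : ℝ) ≤ 2 * α * a * 3 ^ q * (N : ℝ) ^ (q / 2 : ℝ) + 1 := by
    have h1 := (poly_up2 hPH.1 hPH.2.1 hH1 hPH.2.2 h4H).2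
    rw [← ha] at h1
    have h2 := poly_low hPH.1 hPH.2.1 hH1 hPH.2.2 h4H
    have h3 : 0 ≤ α * R.eval (n1 : ℝ) := by
      have : (0 : ℝ) ≤ (n1 : ℝ) ^ q / 2 := by positivity
      exact mul_nonneg hα.le (by linarith)
    have h4 := (Nat.ceil_lt_add_one h3).le
    have h5 : (n1 : ℝ) ^ q ≤ 3 ^ q * (N : ℝ) ^ (q / 2 : ℝ) := by
      calc (n1 : ℝ) ^ q ≤ (3 * s) ^ q := by gcongr
        _ = 3 ^ q * (N : ℝ) ^ (q / 2 : ℝ) := by
            rw [mul_pow, hs, ← Real.rpow_natCast ((N : ℝ) ^ (1 / 2 : ℝ)), ← Real.rpow_mul hN0r.le]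
            congr 2
            ring
    calc (⌈α * R.eval (n1 : ℝ)⌉₊ : ℝ) ≤ α * R.eval (n1 : ℝ) + 1 := h4
      _ ≤ α * (2 * a * (n1 : ℝ) ^ q) + 1 := by gcongr
      _ ≤ α * (2 * a * (3 ^ q * (N : ℝ) ^ (q / 2 : ℝ))) + 1 := by gcongr
      _ = _ := by ring
  have hsmall : 2 * α * a * 3 ^ q * (N : ℝ) ^ (q / 2 : ℝ) + 1 ≤ κ1 * (N : ℝ) ^ (q * (1 - η1)) / 2 := by
    have h1 : (1 : ℝ) ≤ (N : ℝ) ^ (q / 2 : ℝ) := Real.one_le_rpow hN1r (by positivity)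
    have h2 : (N : ℝ) ^ (q / 2 : ℝ) * s ≤ (N : ℝ) ^ (q * (1 - η1)) := by
      rw [hs, ← Real.rpow_add hN0r]
      apply Real.rpow_le_rpow_of_exponent_le hN1r
      have : q * (1 - η1) = q - q * η1 := by ring
      rw [this, hqη]
      linarith
    have h3 : 2 * (2 * α * a * 3 ^ q + 1) ≤ κ1 * s := by
      rw [div_le_iff₀ hκ1p] at c6
      linarith
    calc 2 * α * a * 3 ^ q * (N : ℝ) ^ (q / 2 : ℝ) + 1 ≤ (2 * α * a * 3 ^ q + 1) * (N : ℝ) ^ (q / 2 : ℝ) := by nlinarith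
      _ ≤ (κ1 * s / 2) * (N : ℝ) ^ (q / 2 : ℝ) := by
          gcongr
          linarith
      _ = κ1 * ((N : ℝ) ^ (q / 2 : ℝ) * s) / 2 := by ring
      _ ≤ _ := by gcongr
  have hI2 : c2 * (N : ℝ) ^ (1 - e0 / 2) * 1 ≤ I := by
    have h1 : κ1 * (N : ℝ) ^ (q * (1 - η1)) / 2 ≤ α * (2 * (q * a) * (N : ℝ) ^ (q - 1)) * I := by
      linarith
    have h2 : (N : ℝ) ^ (q * (1 - η1)) = (N : ℝ) ^ (q - 1) * (N : ℝ) ^ (1 - e0 / 2) := by
      rw [← Real.rpow_natCast, ← Real.rpow_add hN0r]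
      congr 1
      have : q * (1 - η1) = q - q * η1 := by ring
      rw [this, hqη, Nat.cast_sub (by omega)]
      push_cast
      ring
    rw [h2] at h1
    have h3 : κ1 * ((N : ℝ) ^ (q - 1) * (N : ℝ) ^ (1 - e0 / 2)) / 2 =
        α * (2 * (q * a) * (N : ℝ) ^ (q - 1)) * (c2 * (N : ℝ) ^ (1 - e0 / 2) * 1) := by
      rw [hc2]
      field_simp
      ring
    rw [h3] at h1
    exact le_of_mul_le_mul_left h1 (by positivity)
  have hb := abs_le.1 (hsamp n1 N hn1N le_rfl)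
  have hfin : (N : ℝ) ^ (1 - η) + (N : ℝ) ^ (1 - η0) ≤ c2 * (N : ℝ) ^ (1 - e0 / 2) := by
    have h1 : (N : ℝ) ^ (1 - η) ≤ (N : ℝ) ^ (1 - e0) := Real.rpow_le_rpow_of_exponent_le hN1r (by linarith)
    have h2 : (N : ℝ) ^ (1 - η0) ≤ (N : ℝ) ^ (1 - e0) := Real.rpow_le_rpow_of_exponent_le hN1r (by linarith)
    have h3 : (N : ℝ) ^ (1 - e0 / 2) = (N : ℝ) ^ (e0 / 2) * (N : ℝ) ^ (1 - e0) := by
      rw [← Real.rpow_add hN0r]
      congr 1
      ring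
    rw [h3]
    have h4 : 2 ≤ c2 * (N : ℝ) ^ (e0 / 2) := by
      rw [div_le_iff₀ hc2p] at c5
      linarith
    have h5 : 0 < (N : ℝ) ^ (1 - e0) := by positivity
    nlinarith
  have hsub2 : (((Ioc n1 N).filter fun n : ℕ => X ⌊α * R.eval (n : ℝ)⌋₊).card : ℝ) ≤
      (((Icc 1 N).filter fun n : ℕ => X ⌊α * R.eval (n : ℝ)⌋₊).card : ℝ) := by
    have : (Ioc n1 N).filter (fun n : ℕ => X ⌊α * R.eval (n : ℝ)⌋₊) ⊆
        (Icc 1 N).filter (fun n : ℕ => X ⌊α * R.eval (n : ℝ)⌋₊) := by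
      apply filter_subset_filter
      intro n hn
      rw [mem_Ioc] at hn
      rw [mem_Icc]
      omega
    exact_mod_cast card_le_card this
  linarith [hb.1]

/-- **transfer of sets with many elements at arbitrarily large scales** -/
theorem io_transfer {ι : Type} [Countable ι] (q : ℕ) (hq : 2 ≤ q) (X : ι → ℕ → Prop) [∀ i, DecidablePred (X i)] :
    ∃ E : Set ℝ, dimH E ≤ ENNReal.ofReal (q / (q + kp q)) ∧ ∀ α : ℝ, 0 < α → α ∉ E → ∀ i,
      (∀ η : ℝ, 0 < η → ∃ᶠ x : ℕ in atTop, (x : ℝ) ^ (1 - η) ≤ (((Icc 1 x).filter (X i)).card : ℝ)) →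
      ∀ P : Polynomial ℤ, P.natDegree = q → 0 < P.leadingCoeff → ∀ η : ℝ, 0 < η → ∃ᶠ N : ℕ in atTop,
      (N : ℝ) ^ (1 - η) ≤
        (((Icc 1 N).filter fun n : ℕ => X i ⌊α * (P.map (Int.castRingHom ℝ)).eval (n : ℝ)⌋₊).card : ℝ) := by
  have h := fun i : ι => set_sample (ι := Unit) q hq (fun _ => X i) 1 zero_le_one (fun _ _ => {()})
    (fun _ _ _ _ _ => le_rfl) (fun η hη => by
      filter_upwards [eventually_ge_atTop 1] with N hN
      rw [card_singleton, one_mul]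
      push_cast
      exact Real.one_le_rpow (by exact_mod_cast hN) hη.le)
  choose E hE hgood using h
  refine ⟨⋃ i, E i, ?_, fun α hα hαE i hX P hdeg hlead η hη => ?_⟩
  · rw [dimH_iUnion]
    exact iSup_le hE
  · have hαi : α ∉ E i := fun h => hαE (Set.mem_iUnion.2 ⟨i, h⟩)
    obtain ⟨η0, hη0, hev⟩ := hgood i α hα hαi
    obtain ⟨H, hH1, hco⟩ := coeff_bound P
    refine io_aux q hq (X i) hα hη0 P hdeg hlead ?_ hX hη
    filter_upwards [hev, pw H 0 hη0] with N h1 h2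
    rw [pow_zero, mul_one] at h2
    exact h1 () (mem_singleton_self _) P hdeg hlead fun j => (hco j).trans h2

end Pool.Agent.Q138.PS
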