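import Pool.Agent.Q138.PS.TF
import Pool.Agent.Q138.PS.TH
import Pool.Agent.Y840.CT.GenF
import Pool.Agent.Y840.CT.LowF

set_option autoImplicit false

/-!
# Chen primes and almost prime tuples along dilated polynomials
-/

namespace Pool.Agent.Q138.PS

open Finset MeasureTheory Filter Topology
open scoped ENNReal NNReal
open Pool.Agent.Q138.GS

/-- `m` is prime, `m + h 0` is up to the sign a product of at most two primes, and no `m + h i` has a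
prime factor `≤ m ^ (1 / t)` -/
def ChenAt {r : ℕ} (t : ℕ) (h : Fin (r + 1) → ℤ) (m : ℕ) : Prop :=
  m.Prime ∧ (m : ℤ) + h 0 ≠ 0 ∧ ((m : ℤ) + h 0).natAbs.primeFactorsList.length ≤ 2 ∧
    ∀ i, ∀ s : ℕ, s.Prime → (s : ℝ) ≤ (m : ℝ) ^ (1 / (t : ℝ)) → ¬ (s : ℤ) ∣ (m : ℤ) + h i

/-- no prime divides all values `c (c + h 0) ... (c + h r)` -/
def AdmT {r : ℕ} (h : Fin (r + 1) → ℤ) : Prop :=
  ∀ s : ℕ, s.Prime → ∃ c : ℤ, ¬ (s : ℤ) ∣ c ∧ ∀ i, ¬ (s : ℤ) ∣ c + h i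

/-- the family of the shifts -/
noncomputable def shf (r : ℕ) (η : ℝ) (N : ℕ) : Finset (Fin (r + 1) → ℤ) :=
  Fintype.piFinset fun _ : Fin (r + 1) => Icc (-⌊(N : ℝ) ^ η⌋) ⌊(N : ℝ) ^ η⌋

theorem shf_mono (r : ℕ) {η : ℝ} (hη : 0 < η) : Monotone (shf r η) := by
  intro M N hMN h hh
  unfold shf at hh ⊢
  rw [Fintype.mem_piFinset] at hh ⊢
  intro i
  have h1 := mem_Icc.1 (hh i)
  have h2 : ⌊(M : ℝ) ^ η⌋ ≤ ⌊(N : ℝ) ^ η⌋ := by
    apply Int.floor_le_floor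
    have : (M : ℝ) ≤ N := by exact_mod_cast hMN
    exact Real.rpow_le_rpow (Nat.cast_nonneg _) this hη.le
  exact mem_Icc.2 ⟨by linarith [h1.1], by linarith [h1.2]⟩

theorem shf_card (r : ℕ) (η : ℝ) (hη : 0 < η) :
    ∀ᶠ N : ℕ in atTop, ((shf r η N).card : ℝ) ≤ (N : ℝ) ^ (((r : ℝ) + 2) * η) := by
  filter_upwards [eventually_ge_atTop 1, pw (3 ^ (r + 1)) 0 hη] with N hN h1
  rw [pow_zero, mul_one] at h1
  have hN0 : (0 : ℝ) < N := by exact_mod_cast hN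
  have hN1 : (1 : ℝ) ≤ N := by exact_mod_cast hN
  set H : ℝ := (N : ℝ) ^ η with hH
  have hH1 : 1 ≤ H := Real.one_le_rpow hN1 hη.le
  have h2 : (shf r η N).card = (Icc (-⌊H⌋) ⌊H⌋).card ^ (r + 1) := by
    unfold shf
    rw [Fintype.card_piFinset, prod_const, card_univ, Fintype.card_fin]
  rw [h2, Int.card_Icc]
  have hfl : 0 ≤ ⌊H⌋ := Int.floor_nonneg.2 (by linarith)
  have h3 : (((⌊H⌋ + 1 - -⌊H⌋).toNat : ℕ) : ℝ) ≤ 3 * H := by
    have h4 : (((⌊H⌋ + 1 - -⌊H⌋).toNat : ℤ)) = ⌊H⌋ + 1 - -⌊H⌋ := Int.toNat_of_nonneg (by linarith)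
    have h5 : (((⌊H⌋ + 1 - -⌊H⌋).toNat : ℕ) : ℝ) = (⌊H⌋ : ℝ) + 1 - -(⌊H⌋ : ℝ) := by
      exact_mod_cast congrArg (fun z : ℤ => (z : ℝ)) h4
    rw [h5]
    have := Int.floor_le H
    linarith
  push_cast
  calc (((⌊H⌋ + 1 - -⌊H⌋).toNat : ℕ) : ℝ) ^ (r + 1) ≤ (3 * H) ^ (r + 1) := by gcongr
    _ = 3 ^ (r + 1) * (N : ℝ) ^ (((r : ℝ) + 1) * η) := by
        rw [mul_pow, hH, ← Real.rpow_natCast ((N : ℝ) ^ η), ← Real.rpow_mul hN0.le]
        congr 2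
        push_cast
        ring
    _ ≤ (N : ℝ) ^ η * (N : ℝ) ^ (((r : ℝ) + 1) * η) := by gcongr
    _ = _ := by
        rw [← Real.rpow_add hN0]
        congr 1
        ring

open Classical in
/-- the number of Chen primes in an interval of values -/
theorem chen_vals (r : ℕ) : ∃ t : ℕ, 1 ≤ t ∧ ∃ c : ℝ, 0 < c ∧ ∀ θ : ℝ, 0 < θ → ∃ X₀ : ℕ, ∀ X : ℕ, X₀ ≤ X →
    ∀ h : Fin (r + 1) → ℤ, h 0 ≠ 0 → |h 0| ≤ X → AdmT h → ∀ A B : ℕ, B ≤ X → θ * X ≤ (B : ℝ) - A →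
    c * ((B : ℝ) - A) / (Real.log X) ^ (r + 2) ≤ (((Ioc A B).filter fun m => ChenAt t h m).card : ℝ) := by
  obtain ⟨t, ht, c, hc, H1, -⟩ := Pool.Agent.Y840.CT.genF (r + 1)
  obtain ⟨c1, hc1, hV⟩ := Pool.Agent.Y840.CT.VF_low (r + 1)
  refine ⟨t, ht, c * c1, by positivity, fun θ hθ => ?_⟩
  obtain ⟨X₀, hX₀⟩ := H1 θ hθ
  refine ⟨max X₀ 2, fun X hX h h0 hhX hadm A B hBX hAB => ?_⟩
  have b1 : X₀ ≤ X := (le_max_left _ _).trans hX
  have b2 : 2 ≤ X := (le_max_right _ _).trans hX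
  set F : ℕ → Finset ℤ := fun _ => univ.image fun i => -h i with hF
  have hcardF : ∀ s : ℕ, (F s).card ≤ r + 1 := by
    intro s
    refine card_image_le.trans ?_
    simp
  have hloc : ∀ s : ℕ, s.Prime → Pool.Agent.Y840.CT.rho (F s) s < s := by
    intro s hs
    obtain ⟨c0, hc0, hci⟩ := hadm s hs
    have hs0 : (0 : ℤ) < s := by exact_mod_cast hs.pos
    unfold Pool.Agent.Y840.CT.rho
    have hsub : (insert 0 (F s)).image (fun h : ℤ => h % (s : ℤ)) ⊆ (Ico (0 : ℤ) s).erase (c0 % s) := by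
      intro y hy
      rw [mem_image] at hy
      obtain ⟨z, hz, rfl⟩ := hy
      rw [mem_erase, mem_Ico]
      refine ⟨fun heq => ?_, Int.emod_nonneg _ hs0.ne', Int.emod_lt_of_pos _ hs0⟩
      have hdvd : (s : ℤ) ∣ c0 - z := Int.ModEq.dvd heq
      rw [mem_insert] at hz
      rcases hz with rfl | hz
      · rw [sub_zero] at hdvd
        exact hc0 hdvd
      · rw [hF, mem_image] at hz
        obtain ⟨i, -, rfl⟩ := hz
        rw [sub_neg_eq_add] at hdvd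
        exact hci i hdvd
    have hmem : c0 % (s : ℤ) ∈ Ico (0 : ℤ) s := by
      rw [mem_Ico]
      exact ⟨Int.emod_nonneg _ hs0.ne', Int.emod_lt_of_pos _ hs0⟩
    refine lt_of_le_of_lt (card_le_card hsub) ?_
    rw [card_erase_of_mem hmem, Int.card_Ico, sub_zero, Int.toNat_natCast]
    have := hs.pos
    omega
  have hSys : Pool.Agent.Y840.CT.SysF (r + 1) X F (-h 0) :=
    ⟨fun s _ => hcardF s, neg_ne_zero.2 h0, by rw [abs_neg]; exact hhX,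
      fun s _ => mem_image_of_mem _ (mem_univ 0), hloc⟩
  have k1 := hX₀ X b1 F (-h 0) hSys A B hBX hAB
  have k2 := hV X b2 F (fun s _ => hcardF s) hloc
  have hlX : 0 < Real.log X := Real.log_pos (by exact_mod_cast (by omega : 1 < X))
  have hX0 : (0 : ℝ) < X := by exact_mod_cast (by omega : 0 < X)
  have hBA : 0 ≤ (B : ℝ) - A := le_trans (by positivity) hAB
  have hsub : Pool.Agent.Y840.CT.GoodF t X A B F (-h 0) ⊆ (Ioc A B).filter fun m => ChenAt t h m := by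
    intro p hp
    unfold Pool.Agent.Y840.CT.GoodF at hp
    rw [mem_filter] at hp ⊢
    obtain ⟨hp1, hp2, -, ⟨hp4, hp5, -⟩, hp6⟩ := hp
    have e1 : -h 0 - (p : ℤ) = -((p : ℤ) + h 0) := by ring
    rw [e1] at hp4 hp5
    refine ⟨hp1, hp2, fun h9 => hp4 (by rw [h9, neg_zero]), by rwa [Int.natAbs_neg] at hp5, fun i s hs hsle hdv => ?_⟩
    have hpX : (p : ℝ) ≤ X := by
      have := (mem_Ioc.1 hp1).2.trans hBX
      exact_mod_cast this
    have hle : (s : ℝ) ≤ (X : ℝ) ^ (1 / (t : ℝ)) :=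
      hsle.trans (Real.rpow_le_rpow (Nat.cast_nonneg _) hpX (by positivity))
    refine hp6 s hs hle (-h i) (mem_image_of_mem _ (mem_univ i)) ?_
    have e2 : -h i - (p : ℤ) = -((p : ℤ) + h i) := by ring
    rw [e2]
    exact (dvd_neg).2 hdv
  calc c * c1 * ((B : ℝ) - A) / (Real.log X) ^ (r + 2) =
      c * ((B : ℝ) - A) * (c1 / (Real.log X) ^ (r + 1 + 1)) := by ring
    _ ≤ c * ((B : ℝ) - A) * Pool.Agent.Y840.CT.VF F X := by gcongr
    _ ≤ _ := k1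
    _ ≤ _ := by exact_mod_cast card_le_card hsub

end Pool.Agent.Q138.PS
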