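import Pool.Agent.Q138.PS.TF

set_option autoImplicit false

/-!
# From intervals of values to arguments
-/

namespace Pool.Agent.Q138.PS

open Finset MeasureTheory Filter Topology
open scoped ENNReal NNReal
open Pool.Agent.Q138.GS

/-- **values and arguments** -/
theorem val_arg (q : ℕ) (hq : 2 ≤ q) {α η : ℝ} (hα : 0 < α) (hη0 : 0 ≤ η) (hη1 : η ≤ 1 / 2) :
    ∀ᶠ N : ℕ in atTop, ∀ R : Polynomial ℝ, PH q ((N : ℝ) ^ η) R → ∃ A B X : ℕ, B ≤ X ∧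
      1 / 2 ^ (q + 3) * (X : ℝ) ≤ (B : ℝ) - A ∧ N ≤ X ∧ (X : ℝ) ≤ (N : ℝ) ^ (q + 2) ∧
      ∀ (S : ℕ → Prop) (hS : DecidablePred S) (Φ : ℝ), 0 ≤ Φ →
        Φ * ((B : ℝ) - A) ≤ (((Ioc A B).filter fun m => S m).card : ℝ) →
        Φ * N / (q * 2 ^ (q + 3)) ≤ ∫ x in (((N + 1) / 2 : ℕ) : ℝ)..(N : ℝ), ind S ⌊α * R.eval x⌋₊ := by
  filter_upwards [eventually_ge_atTop 16, pw (16 * q) 0 (show (0 : ℝ) < 1 / 2 by norm_num),
    tendsto_natCast_atTop_atTop.eventually_ge_atTop (3 * 2 ^ (q + 2) / α + 2 * α + 4 / α : ℝ)] with N h16 h1 h2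
  intro R hPH
  rw [pow_zero, mul_one] at h1
  have hq0 : (2 : ℝ) ≤ q := by exact_mod_cast hq
  have hN1 : 1 ≤ N := by omega
  have hNr : (16 : ℝ) ≤ N := by exact_mod_cast h16
  have hN0 : (0 : ℝ) < N := by linarith
  have hN1r : (1 : ℝ) ≤ N := by linarith
  set H : ℝ := (N : ℝ) ^ η with hH
  have hH1 : 1 ≤ H := Real.one_le_rpow hN1r hη0
  set a : ℝ := R.leadingCoeff with ha
  have ha1 : 1 ≤ a := hPH.2.1
  have haH : a ≤ H := by
    have := (le_abs_self _).trans (hPH.2.2 q)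
    rwa [← hPH.1] at this
  have hHs : H ≤ (N : ℝ) ^ (1 / 2 : ℝ) := Real.rpow_le_rpow_of_exponent_le hN1r hη1
  have hsqrt : (N : ℝ) ^ (1 / 2 : ℝ) * (N : ℝ) ^ (1 / 2 : ℝ) = N := by
    rw [← Real.rpow_add hN0]
    norm_num
  have hs1 : 1 ≤ (N : ℝ) ^ (1 / 2 : ℝ) := Real.one_le_rpow hN1r (by norm_num)
  have haN : a ≤ N := by nlinarith
  have p1 : 0 < 3 * 2 ^ (q + 2) / α := by positivity
  have p2 : 0 < 2 * α := by positivity
  have p3 : 0 < 4 / α := by positivity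
  have hc1 : 3 * 2 ^ (q + 2) ≤ α * N := by
    have : 3 * 2 ^ (q + 2) / α ≤ N := by linarith
    rw [div_le_iff₀ hα] at this
    linarith
  have hc2 : 2 * α ≤ N := by linarith
  have hc3 : 4 ≤ α * N := by
    have : 4 / α ≤ N := by linarith
    rw [div_le_iff₀ hα] at this
    linarith
  set n1 : ℕ := (N + 1) / 2 with hn1
  have hn1l : (N : ℝ) / 2 ≤ n1 := by
    have h3 : N ≤ 2 * n1 := by omega
    have : (N : ℝ) ≤ 2 * n1 := by exact_mod_cast h3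
    linarith
  have hn1u : (n1 : ℝ) ≤ (N : ℝ) / 2 + 1 := by
    have h3 : 2 * n1 ≤ N + 1 := by omega
    have : (2 : ℝ) * n1 ≤ N + 1 := by exact_mod_cast h3
    linarith
  have hn1N : n1 ≤ N := by omega
  have h4qH : 4 * (q * H) ≤ (n1 : ℝ) := by
    have h3 : 8 * (q * H) ≤ N := by
      calc 8 * (q * H) = 8 * q * H := by ring
        _ ≤ 16 * q * H := by gcongr; norm_num
        _ ≤ (N : ℝ) ^ (1 / 2 : ℝ) * (N : ℝ) ^ (1 / 2 : ℝ) := by gcongr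
        _ = N := hsqrt
    linarith
  have h4H : 4 * H ≤ (n1 : ℝ) := by nlinarith
  have h4HN : 4 * H ≤ (N : ℝ) := h4H.trans (by exact_mod_cast hn1N)
  have hNq : (N : ℝ) ^ q = (N : ℝ) ^ (q - 1) * N := by
    rw [← pow_succ]
    congr 1
    omega
  have hNq1 : (N : ℝ) ≤ (N : ℝ) ^ (q - 1) := by
    calc (N : ℝ) = (N : ℝ) ^ 1 := (pow_one _).symm
      _ ≤ _ := pow_le_pow_right₀ hN1r (by omega)
  have hNqN : (N : ℝ) ≤ (N : ℝ) ^ q := hNq1.trans (pow_le_pow_right₀ hN1r (by omega))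
  set V1 : ℝ := α * R.eval (n1 : ℝ) with hV1
  set V2 : ℝ := α * R.eval (N : ℝ) with hV2
  obtain ⟨hv1, hv2⟩ := poly_up2 hPH.1 hPH.2.1 hH1 hPH.2.2 h4HN
  rw [← ha] at hv1 hv2
  have hlow1 := (poly_up2 hPH.1 hPH.2.1 hH1 hPH.2.2 h4H).1
  rw [← ha] at hlow1
  obtain ⟨hi1, -⟩ := pol_inc (by omega) hH1 hPH h4qH hn1N
  rw [← ha] at hi1
  have hV10 : 0 ≤ V1 := by
    rw [hV1]
    exact mul_nonneg hα.le (le_trans (by positivity) hlow1)
  have hdiff : α * a * (N : ℝ) ^ q / 2 ^ (q + 1) ≤ V2 - V1 := by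
    have e1 : V2 - V1 = α * (R.eval (N : ℝ) - R.eval (n1 : ℝ)) := by rw [hV1, hV2]; ring
    rw [e1]
    have e2 : ((N : ℝ) / 2) ^ (q - 1) ≤ (n1 : ℝ) ^ (q - 1) := by gcongr
    have e3 : (N : ℝ) / 4 ≤ (N : ℝ) - n1 := by linarith
    have e4 : (2 : ℝ) ^ (q + 1) = 2 ^ (q - 1) * 4 := by
      have : q + 1 = (q - 1) + 2 := by omega
      rw [this, pow_add]
      norm_num
    calc α * a * (N : ℝ) ^ q / 2 ^ (q + 1) = α * (2 * a * ((N : ℝ) / 2) ^ (q - 1) / 2 * (N / 4)) := by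
          rw [hNq, e4, div_pow]
          field_simp
      _ ≤ α * (q * a * (n1 : ℝ) ^ (q - 1) / 2 * ((N : ℝ) - n1)) := by gcongr
      _ ≤ _ := by gcongr
  have haNq : (N : ℝ) ≤ a * (N : ℝ) ^ q := by nlinarith
  have hbig : 3 ≤ α * a * (N : ℝ) ^ q / 2 ^ (q + 2) := by
    rw [le_div_iff₀ (by positivity)]
    calc (3 : ℝ) * 2 ^ (q + 2) ≤ α * N := hc1
      _ ≤ α * (a * (N : ℝ) ^ q) := by gcongr
      _ = _ := by ring
  have hV2N : (N : ℝ) + 1 ≤ V2 := by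
    calc (N : ℝ) + 1 ≤ 2 * N := by linarith
      _ ≤ α * N * N / 2 := by nlinarith
      _ = α * (1 * (N * N) / 2) := by ring
      _ ≤ α * (a * ((N : ℝ) ^ (q - 1) * N) / 2) := by gcongr
      _ ≤ V2 := by rw [hV2, ← hNq]; gcongr
  have hV20 : 0 ≤ V2 := by linarith
  set X : ℕ := ⌊V2⌋₊ with hX
  have hXl : V2 < (X : ℝ) + 1 := Nat.lt_floor_add_one _
  have hXu : (X : ℝ) ≤ V2 := Nat.floor_le hV20
  have hNX : N + 1 ≤ X := Nat.le_floor (by push_cast; exact hV2N)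
  set A : ℕ := ⌈V1⌉₊ - 1 with hA
  set B : ℕ := X - 1 with hB
  have hBr : (B : ℝ) = X - 1 := by rw [hB, Nat.cast_sub (by omega)]; push_cast; rfl
  have hAu : (A : ℝ) ≤ V1 := by
    rcases Nat.eq_zero_or_pos ⌈V1⌉₊ with h | h
    · rw [hA, h]
      simpa using hV10
    · rw [hA, Nat.cast_sub (by omega)]
      have := (Nat.ceil_lt_add_one hV10).le
      push_cast
      linarith
  have hBA : α * a * (N : ℝ) ^ q / 2 ^ (q + 2) ≤ (B : ℝ) - A := by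
    have e1 : α * a * (N : ℝ) ^ q / 2 ^ (q + 1) = α * a * (N : ℝ) ^ q / 2 ^ (q + 2) + α * a * (N : ℝ) ^ q / 2 ^ (q + 2) := by
      rw [pow_succ (2 : ℝ) (q + 1)]
      field_simp
      ring
    rw [e1] at hdiff
    rw [hBr]
    linarith
  refine ⟨A, B, X, by omega, ?_, by omega, ?_, ?_⟩
  · refine le_trans ?_ hBA
    have e1 : (X : ℝ) ≤ α * (2 * a * (N : ℝ) ^ q) := hXu.trans (by rw [hV2]; gcongr)
    calc 1 / 2 ^ (q + 3) * (X : ℝ) ≤ 1 / 2 ^ (q + 3) * (α * (2 * a * (N : ℝ) ^ q)) := by gcongr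
      _ = _ := by
          rw [pow_succ (2 : ℝ) (q + 2)]
          field_simp
  · calc (X : ℝ) ≤ α * (2 * a * (N : ℝ) ^ q) := hXu.trans (by rw [hV2]; gcongr)
      _ = 2 * α * a * (N : ℝ) ^ q := by ring
      _ ≤ N * N * (N : ℝ) ^ q := by gcongr
      _ = _ := by ring
  · intro S hS Φ hΦ hcount
    have hlow := set_low (by omega) hH1 hPH hα h4qH hn1N S
    rw [← ha, ← hV1, ← hV2, ← hX] at hlow
    have hsub : (((Ioc A B).filter fun m => S m).card : ℝ) ≤ (((Ico ⌈V1⌉₊ X).filter fun m => S m).card : ℝ) := by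
      have : (Ioc A B).filter (fun m => S m) ⊆ (Ico ⌈V1⌉₊ X).filter fun m => S m := by
        apply filter_subset_filter
        intro m hm
        rw [mem_Ioc] at hm
        rw [mem_Ico]
        omega
      exact_mod_cast card_le_card this
    have h5 := (hcount.trans hsub).trans hlow
    have h6 : Φ * (α * a * (N : ℝ) ^ q / 2 ^ (q + 2)) ≤
        α * (2 * (q * a) * (N : ℝ) ^ (q - 1)) * ∫ x in (n1 : ℝ)..(N : ℝ), ind S ⌊α * R.eval x⌋₊ := by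
      refine le_trans ?_ h5
      gcongr
    have e1 : Φ * (α * a * (N : ℝ) ^ q / 2 ^ (q + 2)) =
        α * (2 * (q * a) * (N : ℝ) ^ (q - 1)) * (Φ * N / (q * 2 ^ (q + 3))) := by
      rw [hNq, pow_succ (2 : ℝ) (q + 2)]
      field_simp
    rw [e1] at h6
    exact le_of_mul_le_mul_left h6 (by positivity)

end Pool.Agent.Q138.PS
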