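import Pool.Agent.Q138.PS.TI
import Pool.Agent.Q138.PS.TJ

set_option autoImplicit false

/-!
# Chen primes and almost prime tuples along dilated polynomials: the theorem
-/

namespace Pool.Agent.Q138.PS

open Finset MeasureTheory Filter Topology
open scoped ENNReal NNReal
open Pool.Agent.Q138.GS

/-- **from lower bounds for the number of elements in intervals of values to arguments** -/
theorem arg_of_val {ι : Type} (q : ℕ) (hq : 2 ≤ q) (X : ι → ℕ → Prop) [∀ i, DecidablePred (X i)] (K : ℝ) (hK : 0 ≤ K)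
    (Ω : ℝ → ℕ → Finset ι) (hΩ : ∀ η, 0 < η → Monotone (Ω η))
    (hcard : ∀ η, 0 < η → ∀ᶠ N : ℕ in atTop, ((Ω η N).card : ℝ) ≤ (N : ℝ) ^ (K * η)) (k : ℕ) (c0 : ℝ) (hc0 : 0 < c0)
    (good : ι → ℕ → Prop)
    (hval : ∀ᶠ M : ℕ in atTop, ∀ i, good i M → ∀ A B : ℕ, B ≤ M → 1 / 2 ^ (q + 3) * (M : ℝ) ≤ (B : ℝ) - A →
      c0 * ((B : ℝ) - A) / (Real.log M) ^ k ≤ (((Ioc A B).filter fun m => X i m).card : ℝ)) :
    ∃ E : Set ℝ, dimH E ≤ ENNReal.ofReal (q / (q + kp q)) ∧ ∀ α : ℝ, 0 < α → α ∉ E → ∃ η : ℝ, 0 < η ∧ η ≤ 1 / 2 ∧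
      ∀ᶠ N : ℕ in atTop, ∀ i ∈ Ω η N, (∀ M : ℕ, N ≤ M → good i M) → ∀ P : Polynomial ℤ, P.natDegree = q →
      0 < P.leadingCoeff → (∀ j, |((P.coeff j : ℤ) : ℝ)| ≤ (N : ℝ) ^ η) →
      c0 / (((q : ℝ) + 2) ^ k * (q * 2 ^ (q + 4))) * N / (Real.log N) ^ k ≤
        (((Icc 1 N).filter fun n : ℕ => X i ⌊α * (P.map (Int.castRingHom ℝ)).eval (n : ℝ)⌋₊).card : ℝ) := by
  obtain ⟨E, hE, hgood⟩ := set_sample q hq X K hK (fun η => Ω (min η (1 / 2))) (fun η hη => hΩ _ (by positivity))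
    (fun η hη => by
      filter_upwards [hcard (min η (1 / 2)) (by positivity), eventually_ge_atTop 1] with N hN hN1
      refine hN.trans ?_
      have : (1 : ℝ) ≤ N := by exact_mod_cast hN1
      apply Real.rpow_le_rpow_of_exponent_le this
      have := min_le_left η (1 / 2)
      gcongr)
  refine ⟨E, hE, fun α hα hαE => ?_⟩
  obtain ⟨η0, hη0, hev⟩ := hgood α hα hαE
  have hq0 : (2 : ℝ) ≤ q := by exact_mod_cast hq
  set η : ℝ := min η0 (1 / 2) with hη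
  have hηp : 0 < η := by positivity
  have hη1 : η ≤ η0 := min_le_left _ _
  have hη2 : η ≤ 1 / 2 := min_le_right _ _
  set c : ℝ := c0 / (((q : ℝ) + 2) ^ k * (q * 2 ^ (q + 4))) with hc
  have hcp : 0 < c := by positivity
  refine ⟨η, hηp, hη2, ?_⟩
  filter_upwards [hev, val_arg q hq hα hηp.le hη2, eventually_forall_ge_atTop.2 hval, eventually_ge_atTop 2, lg1,
    pw (1 / c) k hη0] with N h1 h2 h3 hN2 hl h4
  intro i hi hg P hdeg hlead hco
  set ℓ := Real.log N with hℓ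
  have hN1 : 1 ≤ N := by omega
  have hN0 : (0 : ℝ) < N := by exact_mod_cast hN1
  have hN1r : (1 : ℝ) ≤ N := by exact_mod_cast hN1
  set R := P.map (Int.castRingHom ℝ) with hR
  have hPH : PH q ((N : ℝ) ^ η) R := int_PH hdeg hlead hco
  obtain ⟨A, B, M, hBM, hAB, hNM, hMu, hS⟩ := h2 R hPH
  have hv := h3 M hNM i (hg M hNM) A B hBM hAB
  have hMr : (N : ℝ) ≤ M := by exact_mod_cast hNM
  have hM0 : (0 : ℝ) < M := hN0.trans_le hMr
  have hlM1 : ℓ ≤ Real.log M := Real.log_le_log hN0 hMr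
  have hl0 : 0 < ℓ := by linarith
  have hlM0 : 0 < Real.log M := by linarith
  have hlM : Real.log M ≤ (q + 2) * ℓ := by
    have h5 := Real.log_le_log hM0 hMu
    rw [Real.log_pow] at h5
    push_cast at h5
    exact h5
  have hI := hS (X i) inferInstance (c0 / (Real.log M) ^ k) (by positivity) (by
    refine le_trans (le_of_eq ?_) hv
    ring)
  have hhalf : (N + 1) / 2 ≤ N := by omega
  have hsamp := h1 i hi P hdeg hlead (fun j => (hco j).trans (Real.rpow_le_rpow_of_exponent_le hN1r hη1))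
    ((N + 1) / 2) N hhalf le_rfl
  rw [← hR] at hsamp
  set I : ℝ := ∫ x in (((N + 1) / 2 : ℕ) : ℝ)..(N : ℝ), ind (X i) ⌊α * R.eval x⌋₊ with hIdef
  have hI2 : 2 * (c * N / ℓ ^ k) ≤ I := by
    refine le_trans ?_ hI
    calc 2 * (c * N / ℓ ^ k) = c0 / (((q : ℝ) + 2) * ℓ) ^ k * N / (q * 2 ^ (q + 3)) := by
          rw [hc, mul_pow, pow_succ (2 : ℝ) (q + 3)]
          field_simp
      _ ≤ _ := by gcongr
  have herr : (N : ℝ) ^ (1 - η0) ≤ c * N / ℓ ^ k := by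
    rw [Real.rpow_sub hN0, Real.rpow_one, div_le_div_iff₀ (by positivity) (by positivity)]
    have h5 : ℓ ^ k ≤ c * (N : ℝ) ^ η0 := by
      have : 1 / c * ℓ ^ k ≤ (N : ℝ) ^ η0 := h4
      rw [one_div, inv_mul_le_iff₀ hcp] at this
      exact this
    calc (N : ℝ) * ℓ ^ k ≤ N * (c * (N : ℝ) ^ η0) := by gcongr
      _ = _ := by ring
  have hsub2 : (((Ioc ((N + 1) / 2) N).filter fun n : ℕ => X i ⌊α * R.eval (n : ℝ)⌋₊).card : ℝ) ≤
      (((Icc 1 N).filter fun n : ℕ => X i ⌊α * R.eval (n : ℝ)⌋₊).card : ℝ) := by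
    have : (Ioc ((N + 1) / 2) N).filter (fun n : ℕ => X i ⌊α * R.eval (n : ℝ)⌋₊) ⊆
        (Icc 1 N).filter (fun n : ℕ => X i ⌊α * R.eval (n : ℝ)⌋₊) := by
      apply filter_subset_filter
      intro n hn
      rw [mem_Ioc] at hn
      rw [mem_Icc]
      omega
    exact_mod_cast card_le_card this
  have hb := abs_le.1 (hsamp.trans herr)
  linarith [hb.1]

open Classical in
/-- **Chen primes and almost prime tuples along dilated polynomials** -/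
theorem chen_args (q : ℕ) (hq : 2 ≤ q) (r : ℕ) : ∃ t : ℕ, 1 ≤ t ∧ ∃ c : ℝ, 0 < c ∧
    ∃ E : Set ℝ, dimH E ≤ ENNReal.ofReal (q / (q + kp q)) ∧ ∀ α : ℝ, 0 < α → α ∉ E → ∃ η : ℝ, 0 < η ∧
      ∀ᶠ N : ℕ in atTop, ∀ h : Fin (r + 1) → ℤ, (∀ i, |((h i : ℤ) : ℝ)| ≤ (N : ℝ) ^ η) → h 0 ≠ 0 → AdmT h →
      ∀ P : Polynomial ℤ, P.natDegree = q → 0 < P.leadingCoeff → (∀ j, |((P.coeff j : ℤ) : ℝ)| ≤ (N : ℝ) ^ η) →
      c * N / (Real.log N) ^ (r + 2) ≤
        (((Icc 1 N).filter fun n : ℕ => ChenAt t h ⌊α * (P.map (Int.castRingHom ℝ)).eval (n : ℝ)⌋₊).card : ℝ) := by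
  obtain ⟨t, ht, c0, hc0, hv⟩ := chen_vals r
  obtain ⟨X₀, hX₀⟩ := hv (1 / 2 ^ (q + 3)) (by positivity)
  refine ⟨t, ht, c0 / (((q : ℝ) + 2) ^ (r + 2) * (q * 2 ^ (q + 4))), ?_, ?_⟩
  · have : (0 : ℝ) < q := by exact_mod_cast (by omega : 0 < q)
    positivity
  obtain ⟨E, hE, h⟩ := arg_of_val q hq (fun h : Fin (r + 1) → ℤ => ChenAt t h) ((r : ℝ) + 2) (by positivity) (shf r)
    (fun η hη => shf_mono r hη) (fun η hη => shf_card r η hη) (r + 2) c0 hc0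
    (fun h M => h 0 ≠ 0 ∧ |h 0| ≤ M ∧ AdmT h) (by
      filter_upwards [eventually_ge_atTop X₀] with M hM
      intro h hg A B hBM hAB
      exact hX₀ M hM h hg.1 hg.2.1 hg.2.2 A B hBM hAB)
  refine ⟨E, hE, fun α hα hαE => ?_⟩
  obtain ⟨η, hη, hη2, hev⟩ := h α hα hαE
  refine ⟨η, hη, ?_⟩
  filter_upwards [hev, eventually_ge_atTop 1] with N hN hN1
  intro h hh h0 hadm P hdeg hlead hco
  have hN1r : (1 : ℝ) ≤ N := by exact_mod_cast hN1
  refine hN h ?_ (fun M hM => ⟨h0, ?_, hadm⟩) P hdeg hlead hco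
  · unfold shf
    rw [Fintype.mem_piFinset]
    intro i
    have h1 := abs_le.1 (hh i)
    rw [mem_Icc]
    refine ⟨?_, Int.le_floor.2 h1.2⟩
    have h2 : -h i ≤ ⌊(N : ℝ) ^ η⌋ := Int.le_floor.2 (by push_cast; linarith [h1.1])
    linarith
  · have h1 : |((h 0 : ℤ) : ℝ)| ≤ M := by
      refine (hh 0).trans ?_
      calc (N : ℝ) ^ η ≤ (N : ℝ) ^ (1 : ℝ) := Real.rpow_le_rpow_of_exponent_le hN1r (by linarith)
        _ = N := Real.rpow_one _
        _ ≤ M := by exact_mod_cast hM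
    rw [← Int.cast_abs] at h1
    exact_mod_cast h1

end Pool.Agent.Q138.PS
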