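import Pool.Agent.Q138.PS.TH

set_option autoImplicit false

/-!
# Comparison of integrals at integer parts of convex functions by means of the primitives
-/

namespace Pool.Agent.Q138.PS

open Finset MeasureTheory Filter Topology
open scoped ENNReal NNReal
open Pool.Agent.Q138.GS

theorem PrR_comp_cont (h : ℕ → ℝ) {g : ℝ → ℝ} {a b α : ℝ} (hg : ContinuousOn g (Set.Icc a b)) :
    ContinuousOn (fun x => PrR h (α * g x)) (Set.Icc a b) :=
  (PrR_cont h).comp_continuousOn (continuousOn_const.mul hg)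

/-- **integration by parts** -/
theorem abel_int {g g1 g2 : ℝ → ℝ} {a b α : ℝ} (hab : a ≤ b) (hα : 0 < α)
    (hg : ∀ x ∈ Set.Icc a b, HasDerivAt g (g1 x) x) (hg1 : ∀ x ∈ Set.Icc a b, HasDerivAt g1 (g2 x) x)
    (hg2 : ContinuousOn g2 (Set.Icc a b)) (hpos : ∀ x ∈ Set.Icc a b, 0 < g1 x) (hga : 0 ≤ g a) (h : ℕ → ℝ) :
    ∫ x in a..b, h ⌊α * g x⌋₊ = (PrR h (α * g b) - PrR h (α * g a)) / (α * g1 b) +
      ∫ x in a..b, (PrR h (α * g x) - PrR h (α * g a)) * (g2 x / (α * g1 x ^ 2)) := by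
  have hcont : ContinuousOn g (Set.Icc a b) := fun x hx => (hg x hx).continuousAt.continuousWithinAt
  have hcont1 : ContinuousOn g1 (Set.Icc a b) := fun x hx => (hg1 x hx).continuousAt.continuousWithinAt
  have hmono : MonotoneOn g (Set.Icc a b) := by
    refine monotoneOn_of_deriv_nonneg (convex_Icc a b) hcont ?_ ?_
    · intro x hx
      exact (hg x (interior_subset hx)).differentiableAt.differentiableWithinAt
    · intro x hx
      rw [(hg x (interior_subset hx)).deriv]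
      exact (hpos x (interior_subset hx)).le
  set P : ℝ → ℝ := fun x => α * g x with hP
  have hPc : ContinuousOn P (Set.Icc a b) := continuousOn_const.mul hcont
  set F : ℝ → ℝ := fun x => (PrR h (P x) - PrR h (α * g a)) / (α * g1 x) with hF
  have hne : ∀ x ∈ Set.Icc a b, α * g1 x ≠ 0 := fun x hx => (mul_pos hα (hpos x hx)).ne'
  have hFc : ContinuousOn F (Set.Icc a b) :=
    (((PrR_cont h).comp_continuousOn hPc).sub continuousOn_const).div (continuousOn_const.mul hcont1) hne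
  have hFd : ∀ x ∈ Set.Ioo a b, HasDerivWithinAt F (h ⌊P x⌋₊ -
      (PrR h (P x) - PrR h (α * g a)) * (g2 x / (α * g1 x ^ 2))) (Set.Ioi x) x := by
    intro x hx
    have hx' : x ∈ Set.Icc a b := Set.Ioo_subset_Icc_self hx
    have hPx : 0 ≤ P x := mul_nonneg hα.le (hga.trans (hmono (Set.left_mem_Icc.2 hab) hx' hx'.1))
    have h1 : HasDerivWithinAt P (α * g1 x) (Set.Ioo x b) x := ((hg x hx').const_mul α).hasDerivWithinAt
    have hmaps : Set.MapsTo P (Set.Ioo x b) (Set.Ici (P x)) := by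
      intro y hy
      exact mul_le_mul_of_nonneg_left (hmono hx' ⟨hx.1.le.trans hy.1.le, hy.2.le⟩ hy.1.le) hα.le
    have h2 := (PrR_deriv h hPx).scomp x h1 hmaps
    have h3 : HasDerivWithinAt (fun x => α * g1 x) (α * g2 x) (Set.Ioo x b) x :=
      ((hg1 x hx').const_mul α).hasDerivWithinAt
    have h4 := (h2.sub_const (PrR h (α * g a))).div h3 (hne x hx')
    have h5 := hpos x hx'
    refine (h4.Ioi_of_Ioo hx.2).congr_deriv ?_
    simp only [Function.comp, smul_eq_mul]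
    field_simp
  have hi1 : IntervalIntegrable (fun x => h ⌊P x⌋₊) volume a b := flcR_ii h hab hPc
  have hi2 : IntervalIntegrable (fun x => (PrR h (P x) - PrR h (α * g a)) * (g2 x / (α * g1 x ^ 2))) volume a b := by
    apply ContinuousOn.intervalIntegrable
    rw [Set.uIcc_of_le hab]
    refine (((PrR_cont h).comp_continuousOn hPc).sub continuousOn_const).mul
      (hg2.div (continuousOn_const.mul (hcont1.pow 2)) fun x hx => ?_)
    have := hpos x hx
    positivity
  have h6 := intervalIntegral.integral_eq_sub_of_hasDeriv_right_of_le hab hFc hFd (hi1.sub hi2)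
  rw [intervalIntegral.integral_sub hi1 hi2] at h6
  have h7 : F a = 0 := by
    rw [hF]
    simp [hP]
  rw [h7, sub_zero] at h6
  have h8 : F b = (PrR h (α * g b) - PrR h (α * g a)) / (α * g1 b) := rfl
  rw [h8] at h6
  linarith

/-- the integral of the second factor -/
theorem abel_one {g1 g2 : ℝ → ℝ} {a b α : ℝ} (hab : a ≤ b) (hα : 0 < α)
    (hg1 : ∀ x ∈ Set.Icc a b, HasDerivAt g1 (g2 x) x)
    (hg2 : ContinuousOn g2 (Set.Icc a b)) (hpos : ∀ x ∈ Set.Icc a b, 0 < g1 x) :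
    ∫ x in a..b, g2 x / (α * g1 x ^ 2) = 1 / (α * g1 a) - 1 / (α * g1 b) := by
  have hcont1 : ContinuousOn g1 (Set.Icc a b) := fun x hx => (hg1 x hx).continuousAt.continuousWithinAt
  have hne : ∀ x ∈ Set.Icc a b, α * g1 x ≠ 0 := fun x hx => (mul_pos hα (hpos x hx)).ne'
  have hd : ∀ x ∈ Set.Ioo a b, HasDerivAt (fun x => -(1 / (α * g1 x))) (g2 x / (α * g1 x ^ 2)) x := by
    intro x hx
    have hx' : x ∈ Set.Icc a b := Set.Ioo_subset_Icc_self hx
    have h3 : HasDerivAt (fun x => α * g1 x) (α * g2 x) x := (hg1 x hx').const_mul α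
    have h4 := (h3.inv (hne x hx')).neg
    have h5 := hpos x hx'
    have e : (fun x => -(1 / (α * g1 x))) = (fun x => -(α * g1 x)⁻¹) := by
      funext y
      rw [one_div]
    rw [e]
    refine h4.congr_deriv ?_
    field_simp
  have h6 := intervalIntegral.integral_eq_sub_of_hasDerivAt_of_le hab
    ((continuousOn_const.div (continuousOn_const.mul hcont1) hne).neg) hd (by
      apply ContinuousOn.intervalIntegrable
      rw [Set.uIcc_of_le hab]
      refine hg2.div (continuousOn_const.mul (hcont1.pow 2)) fun x hx => ?_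
      have := hpos x hx
      positivity)
  rw [h6]
  simp only [Pi.neg_apply, Pi.div_apply, Pi.mul_apply]
  ring

/-- **comparison** -/
theorem cmp_int {g g1 g2 : ℝ → ℝ} {a b α : ℝ} (hab : a ≤ b) (hα : 0 < α)
    (hg : ∀ x ∈ Set.Icc a b, HasDerivAt g (g1 x) x) (hg1 : ∀ x ∈ Set.Icc a b, HasDerivAt g1 (g2 x) x)
    (hg2 : ContinuousOn g2 (Set.Icc a b)) (hpos : ∀ x ∈ Set.Icc a b, 0 < g1 x)
    (hconv : ∀ x ∈ Set.Icc a b, 0 ≤ g2 x) (hga : 0 ≤ g a) (h1 h2 : ℕ → ℝ) (A K : ℝ)
    (hcmp : ∀ x ∈ Set.Icc a b, PrR h1 (α * g x) - PrR h1 (α * g a) ≤ A * (PrR h2 (α * g x) - PrR h2 (α * g a)) + K) :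
    ∫ x in a..b, h1 ⌊α * g x⌋₊ ≤ A * (∫ x in a..b, h2 ⌊α * g x⌋₊) + K / (α * g1 a) := by
  have hcont : ContinuousOn g (Set.Icc a b) := fun x hx => (hg x hx).continuousAt.continuousWithinAt
  have hcont1 : ContinuousOn g1 (Set.Icc a b) := fun x hx => (hg1 x hx).continuousAt.continuousWithinAt
  have hk : ContinuousOn (fun x => g2 x / (α * g1 x ^ 2)) (Set.Icc a b) := by
    refine hg2.div (continuousOn_const.mul (hcont1.pow 2)) fun x hx => ?_
    have := hpos x hx
    positivity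
  have hii : ∀ h : ℕ → ℝ, IntervalIntegrable
      (fun x => (PrR h (α * g x) - PrR h (α * g a)) * (g2 x / (α * g1 x ^ 2))) volume a b := by
    intro h
    apply ContinuousOn.intervalIntegrable
    rw [Set.uIcc_of_le hab]
    exact ((PrR_comp_cont h hcont).sub continuousOn_const).mul hk
  have hik : IntervalIntegrable (fun x => g2 x / (α * g1 x ^ 2)) volume a b := by
    apply ContinuousOn.intervalIntegrable
    rw [Set.uIcc_of_le hab]
    exact hk
  have e1 := abel_int hab hα hg hg1 hg2 hpos hga h1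
  have e2 := abel_int hab hα hg hg1 hg2 hpos hga h2
  have e3 := abel_one hab hα hg1 hg2 hpos
  have hb := Set.right_mem_Icc.2 hab
  have hb0 := mul_pos hα (hpos b hb)
  have i1 : ∫ x in a..b, (PrR h1 (α * g x) - PrR h1 (α * g a)) * (g2 x / (α * g1 x ^ 2)) ≤
      A * (∫ x in a..b, (PrR h2 (α * g x) - PrR h2 (α * g a)) * (g2 x / (α * g1 x ^ 2))) +
        K * ∫ x in a..b, g2 x / (α * g1 x ^ 2) := by
    rw [← intervalIntegral.integral_const_mul, ← intervalIntegral.integral_const_mul,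
      ← intervalIntegral.integral_add ((hii h2).const_mul A) (hik.const_mul K)]
    refine intervalIntegral.integral_mono_on hab (hii h1) (((hii h2).const_mul A).add (hik.const_mul K)) fun x hx => ?_
    have h3 := hcmp x hx
    have h4 := hpos x hx
    have h5 := hconv x hx
    have h6 : 0 ≤ g2 x / (α * g1 x ^ 2) := by positivity
    calc (PrR h1 (α * g x) - PrR h1 (α * g a)) * (g2 x / (α * g1 x ^ 2)) ≤
        (A * (PrR h2 (α * g x) - PrR h2 (α * g a)) + K) * (g2 x / (α * g1 x ^ 2)) := by gcongr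
      _ = _ := by ring
  have i2 : (PrR h1 (α * g b) - PrR h1 (α * g a)) / (α * g1 b) ≤
      A * ((PrR h2 (α * g b) - PrR h2 (α * g a)) / (α * g1 b)) + K * (1 / (α * g1 b)) := by
    have h3 := hcmp b hb
    calc (PrR h1 (α * g b) - PrR h1 (α * g a)) / (α * g1 b) ≤
        (A * (PrR h2 (α * g b) - PrR h2 (α * g a)) + K) / (α * g1 b) := by gcongr
      _ = _ := by ring
  rw [e3] at i1
  rw [e1, e2]
  have e4 : K / (α * g1 a) = K * (1 / (α * g1 a)) := by ring
  rw [e4]
  nlinarith [i1, i2]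

/-- the primitive and the summatory function -/
theorem PrR_sum (h : ℕ → ℝ) {B : ℝ} (hB : ∀ m, |h m| ≤ B) {y : ℝ} (hy : 0 ≤ y) :
    |PrR h y - ∑ m ∈ Icc 1 ⌊y⌋₊, h m| ≤ 3 * B := by
  have hB0 : 0 ≤ B := (abs_nonneg _).trans (hB 0)
  have e1 : PrR h y = PrR h (⌊y⌋₊ : ℕ) + ∫ t in ((⌊y⌋₊ : ℕ) : ℝ)..y, h ⌊t⌋₊ := by
    unfold PrR
    exact (intervalIntegral.integral_add_adjacent_intervals (flR_ii h _ _) (flR_ii h _ _)).symm
  have e2 : |∫ t in ((⌊y⌋₊ : ℕ) : ℝ)..y, h ⌊t⌋₊| ≤ B := by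
    have h3 := intervalIntegral.norm_integral_le_of_norm_le_const (f := fun t => h ⌊t⌋₊) (C := B)
      (a := ((⌊y⌋₊ : ℕ) : ℝ)) (b := y) (fun t _ => by
        rw [Real.norm_eq_abs]
        exact hB _)
    rw [Real.norm_eq_abs] at h3
    refine h3.trans ?_
    have h4 := Nat.floor_le hy
    have h5 := (Nat.lt_floor_add_one y).le
    rw [abs_of_nonneg (by linarith)]
    nlinarith
  have e3 : ∑ m ∈ Icc 1 ⌊y⌋₊, h m = ∑ m ∈ range ⌊y⌋₊, h m + h ⌊y⌋₊ - h 0 := by
    have h3 : ∑ m ∈ range (⌊y⌋₊ + 1), h m = ∑ m ∈ range ⌊y⌋₊, h m + h ⌊y⌋₊ := sum_range_succ _ _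
    have h4 : ∑ m ∈ range (⌊y⌋₊ + 1), h m = ∑ m ∈ Icc 1 ⌊y⌋₊, h m + h 0 := by
      have h5 : range (⌊y⌋₊ + 1) = insert 0 (Icc 1 ⌊y⌋₊) := by
        ext k
        simp only [mem_range, mem_insert, mem_Icc]
        omega
      rw [h5, sum_insert (by simp)]
      ring
    linarith
  rw [e1, PrR_nat, e3]
  have h6 := abs_le.1 e2
  have h7 := abs_le.1 (hB 0)
  have h8 := abs_le.1 (hB ⌊y⌋₊)
  rw [abs_le]
  constructor <;> linarith [h6.1, h6.2, h7.1, h7.2, h8.1, h8.2]

end Pool.Agent.Q138.PS
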