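import Pool.Agent.Q138.PS.TM

set_option autoImplicit false

/-!
# Transfer of relative densities to integer parts of dilated polynomials
-/

namespace Pool.Agent.Q138.PS

open Finset MeasureTheory Filter Topology
open scoped ENNReal NNReal
open Pool.Agent.Q138.GS

theorem PH_der {q : ℕ} (hq : 1 ≤ q) {P : Polynomial ℝ} {H : ℝ} (hH : 1 ≤ H) (hP : PH q H P) :
    PH (q - 1) (q * H) P.derivative := by
  obtain ⟨hdeg, hlead, hco⟩ := hP
  have hq1 : (1 : ℝ) ≤ q := by exact_mod_cast hq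
  have hcq : P.derivative.coeff (q - 1) = q * P.leadingCoeff := by
    rw [Polynomial.coeff_derivative, Polynomial.leadingCoeff, hdeg]
    have : q - 1 + 1 = q := by omega
    rw [this]
    have e : (((q - 1 : ℕ) : ℝ) + 1) = q := by
      rw [Nat.cast_sub hq]
      push_cast
      ring
    rw [e]
    ring
  have hd1 : P.derivative.natDegree = q - 1 := by
    apply Polynomial.natDegree_eq_of_le_of_coeff_ne_zero
    · rw [← hdeg]
      exact Polynomial.natDegree_derivative_le P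
    · rw [hcq]
      have : 0 < (q : ℝ) * P.leadingCoeff := by positivity
      exact this.ne'
  have hl1 : P.derivative.leadingCoeff = q * P.leadingCoeff := by
    rw [Polynomial.leadingCoeff, hd1, hcq]
  refine ⟨hd1, ?_, fun i => ?_⟩
  · rw [hl1]
    nlinarith
  · rw [Polynomial.coeff_derivative, abs_mul]
    rcases lt_or_ge i q with h1 | h1
    · have e1 : |((i : ℝ) + 1)| ≤ q := by
        rw [abs_of_nonneg (by positivity)]
        exact_mod_cast h1
      have e2 := hco (i + 1)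
      calc |P.coeff (i + 1)| * |((i : ℝ) + 1)| ≤ H * q := by gcongr
        _ = q * H := mul_comm _ _
    · rw [Polynomial.coeff_eq_zero_of_natDegree_lt (by omega), abs_zero, zero_mul]
      positivity

theorem PrR_le (h : ℕ → ℝ) (hh : ∀ m, h m ≤ 1) {y : ℝ} (hy : 0 ≤ y) : PrR h y ≤ y := by
  unfold PrR
  calc ∫ t in (0 : ℝ)..y, h ⌊t⌋₊ ≤ ∫ _ in (0 : ℝ)..y, (1 : ℝ) :=
        intervalIntegral.integral_mono_on hy (flR_ii h _ _) (by simp) fun x _ => hh _
    _ = y := by simp

/-- **comparison for polynomials** -/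
theorem cmp_pol {q : ℕ} (hq : 2 ≤ q) {P : Polynomial ℝ} {H : ℝ} (hH : 1 ≤ H) (hP : PH q H P) {α : ℝ} (hα : 0 < α)
    {a b : ℝ} (ha : 4 * (q * (q * H)) ≤ a) (hab : a ≤ b) (u T : ℕ → ℝ) (hT1 : ∀ m, T m ≤ 1) {ε C : ℝ} (hε : 0 ≤ ε) (hC : 0 ≤ C)
    (hcmp : ∀ y : ℝ, 0 ≤ y → |PrR u y| ≤ ε * PrR T y + C) :
    |∫ x in a..b, u ⌊α * P.eval x⌋₊| ≤ ε * (∫ x in a..b, T ⌊α * P.eval x⌋₊) + (4 * ε * a + 2 * C / α) := by
  obtain ⟨hdeg, hlead, hco⟩ := hP
  have hq1 : (2 : ℝ) ≤ q := by exact_mod_cast hq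
  have hH0 : 0 < H := by linarith
  have ha1 : 4 * (q * H) ≤ a := by nlinarith [mul_pos (show (0 : ℝ) < q by linarith) hH0]
  have ha2 : 4 * H ≤ a := by nlinarith
  have ha3 : 1 ≤ a := by linarith
  have hP1 := PH_der (by omega : 1 ≤ q) hH ⟨hdeg, hlead, hco⟩
  obtain ⟨hdeg1, hlead1, hco1⟩ := hP1
  have hqc : (((q - 1 : ℕ) : ℝ)) ≤ q := by exact_mod_cast Nat.sub_le q 1
  have hqc0 : (0 : ℝ) ≤ (((q - 1 : ℕ) : ℝ)) := Nat.cast_nonneg _
  have hd1 : ∀ x, a ≤ x → q * P.leadingCoeff * x ^ (q - 1) / 2 ≤ P.derivative.eval x := fun x hx =>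
    (pol_der (by omega) hdeg hlead hH hco (ha1.trans hx)).1
  have hd2 : ∀ x, a ≤ x → 0 ≤ P.derivative.derivative.eval x := fun x hx => by
    have hqH : 1 ≤ q * H := by nlinarith
    have h1 := (pol_der (q := q - 1) (by omega) hdeg1 hlead1 hqH hco1 (x := x) (by
      refine le_trans ?_ (ha.trans hx)
      have : 0 < q * H := by linarith
      gcongr)).1
    refine le_trans ?_ h1
    have : 0 ≤ x := by linarith
    have : 0 ≤ P.derivative.leadingCoeff := by linarith
    positivity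
  have hpos : ∀ x ∈ Set.Icc a b, 0 < P.derivative.eval x := fun x hx => by
    refine lt_of_lt_of_le ?_ (hd1 x hx.1)
    have : 0 < x := by linarith [hx.1]
    positivity
  have hga := poly_up2 hdeg hlead hH hco ha2
  have hga0 : 0 ≤ P.eval a := by
    refine le_trans ?_ hga.1
    positivity
  have key : ∀ w : ℕ → ℝ, (∀ y : ℝ, 0 ≤ y → |PrR w y| ≤ ε * PrR T y + C) →
      ∫ x in a..b, w ⌊α * P.eval x⌋₊ ≤ ε * (∫ x in a..b, T ⌊α * P.eval x⌋₊) + (4 * ε * a + 2 * C / α) := by
    intro w hw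
    have hmono : ∀ x ∈ Set.Icc a b, P.eval a ≤ P.eval x := by
      intro x hx
      have hm : MonotoneOn (fun x => P.eval x) (Set.Icc a b) := by
        refine monotoneOn_of_deriv_nonneg (convex_Icc a b) (by fun_prop) (by fun_prop) ?_
        intro y hy
        rw [Polynomial.deriv]
        exact (hpos y (interior_subset hy)).le
      exact hm (Set.left_mem_Icc.2 hab) hx hx.1
    have h1 := cmp_int hab hα (fun x _ => pol_hd P x) (fun x _ => pol_hd P.derivative x)
      (by fun_prop) hpos (fun x hx => hd2 x hx.1) hga0 w T ε (2 * ε * PrR T (α * P.eval a) + 2 * C) (fun x hx => by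
        have h2 := abs_le.1 (hw (α * P.eval x) (mul_nonneg hα.le (hga0.trans (hmono x hx))))
        have h3 := abs_le.1 (hw (α * P.eval a) (mul_nonneg hα.le hga0))
        linarith [h2.2, h3.1])
    refine h1.trans ?_
    have h4 : (2 * ε * PrR T (α * P.eval a) + 2 * C) / (α * P.derivative.eval a) ≤ 4 * ε * a + 2 * C / α := by
      have h5 := hd1 a le_rfl
      have h6 := PrR_le T hT1 (mul_nonneg hα.le hga0)
      have hap : 1 ≤ a ^ (q - 1) := one_le_pow₀ ha3
      have h7 : a ^ q = a * a ^ (q - 1) := by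
        rw [← pow_succ']
        congr 1
        omega
      have h8 : P.eval a ≤ 2 * a * P.derivative.eval a := by
        have h9 := hga.2
        rw [h7] at h9
        have h10 : 2 * P.leadingCoeff * (a * a ^ (q - 1)) ≤ 2 * a * (q * P.leadingCoeff * a ^ (q - 1) / 2) := by
          have : 0 ≤ P.leadingCoeff * (a * a ^ (q - 1)) := by positivity
          nlinarith
        calc P.eval a ≤ 2 * P.leadingCoeff * (a * a ^ (q - 1)) := h9
          _ ≤ 2 * a * (q * P.leadingCoeff * a ^ (q - 1) / 2) := h10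
          _ ≤ _ := by gcongr
      have h11 : 1 ≤ P.derivative.eval a := by
        refine le_trans ?_ h5
        have : 2 * 1 * 1 ≤ q * P.leadingCoeff * a ^ (q - 1) := by gcongr
        linarith
      have h12 : 0 < α * P.derivative.eval a := by positivity
      rw [div_le_iff₀ h12]
      have h13 : 2 * ε * PrR T (α * P.eval a) ≤ 2 * ε * (α * (2 * a * P.derivative.eval a)) := by
        have : PrR T (α * P.eval a) ≤ α * (2 * a * P.derivative.eval a) := h6.trans (by gcongr)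
        gcongr
      have h14 : 2 * C ≤ 2 * C / α * (α * P.derivative.eval a) := by
        have e : 2 * C / α * (α * P.derivative.eval a) = 2 * C * P.derivative.eval a := by field_simp
        rw [e]
        nlinarith
      calc 2 * ε * PrR T (α * P.eval a) + 2 * C ≤ 2 * ε * (α * (2 * a * P.derivative.eval a)) +
            2 * C / α * (α * P.derivative.eval a) := add_le_add h13 h14
        _ = _ := by ring
    linarith
  rw [abs_le]
  constructor
  · have h1 := key (fun m => -u m) (fun y hy => by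
      have h2 : PrR (fun m => -u m) y = -PrR u y := by
        unfold PrR
        rw [intervalIntegral.integral_neg]
      rw [h2, abs_neg]
      exact hcmp y hy)
    rw [intervalIntegral.integral_neg] at h1
    linarith
  · exact key u hcmp

open Classical in
/-- the number of the elements `1 ≤ m ≤ y` -/
noncomputable def cn (X : ℕ → Prop) (y : ℕ) : ℝ := (((Icc 1 y).filter X).card : ℝ)

theorem cn_sum (X : ℕ → Prop) (y : ℕ) : ∑ m ∈ Icc 1 y, ind X m = cn X y := by
  classical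
  rw [ind_sum X (Icc 1 y) (fun m => m)]
  unfold cn
  congr 2

theorem cn_nonneg (X : ℕ → Prop) (y : ℕ) : 0 ≤ cn X y := Nat.cast_nonneg _

theorem cn_le (X : ℕ → Prop) (y : ℕ) : cn X y ≤ y := by
  classical
  unfold cn
  have := card_filter_le (Icc 1 y) X
  rw [Nat.card_Icc, Nat.add_sub_cancel] at this
  exact_mod_cast this

/-- the hypothesis of the comparison -/
theorem cmp_of_ratio (Q T : ℕ → Prop) {c : ℝ} (hT : ∀ᶠ y : ℕ in atTop, 0 < cn T y)
    (hQ : Tendsto (fun y : ℕ => cn Q y / cn T y) atTop (𝓝 c)) {ε : ℝ} (hε : 0 < ε) :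
    ∃ C : ℝ, 0 ≤ C ∧ ∀ y : ℝ, 0 ≤ y → |PrR (fun m => ind Q m - c * ind T m) y| ≤ ε * PrR (ind T) y + C := by
  obtain ⟨y0, hy0⟩ := eventually_atTop.1 (hT.and (Metric.tendsto_nhds.1 hQ ε hε))
  set B : ℝ := 1 + |c| with hB
  have hB0 : 0 ≤ B := by positivity
  refine ⟨3 * B + 3 * ε + B * y0, by positivity, fun y hy => ?_⟩
  have hu : ∀ m, |ind Q m - c * ind T m| ≤ B := by
    intro m
    refine (abs_sub _ _).trans ?_
    rw [abs_mul, abs_of_nonneg (ind_nonneg Q m), abs_of_nonneg (ind_nonneg T m), hB]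
    have h1 := ind_le Q m
    have h2 := ind_le T m
    have : |c| * ind T m ≤ |c| * 1 := by gcongr
    linarith
  have h1 := abs_le.1 (PrR_sum (fun m => ind Q m - c * ind T m) hu hy)
  have h2 := abs_le.1 (PrR_sum (ind T) (B := 1) (fun m => by rw [abs_of_nonneg (ind_nonneg T m)]; exact ind_le T m) hy)
  rw [cn_sum] at h2
  simp only [sum_sub_distrib, ← mul_sum, cn_sum] at h1
  have h3 : |cn Q ⌊y⌋₊ - c * cn T ⌊y⌋₊| ≤ ε * cn T ⌊y⌋₊ + B * y0 := by
    rcases lt_or_ge ⌊y⌋₊ y0 with h | h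
    · have e1 : (⌊y⌋₊ : ℝ) ≤ y0 := by exact_mod_cast h.le
      have e2 := cn_le Q ⌊y⌋₊
      have e3 := cn_le T ⌊y⌋₊
      have e4 := cn_nonneg Q ⌊y⌋₊
      have e5 := cn_nonneg T ⌊y⌋₊
      calc |cn Q ⌊y⌋₊ - c * cn T ⌊y⌋₊| ≤ |cn Q ⌊y⌋₊| + |c * cn T ⌊y⌋₊| := abs_sub _ _
        _ = cn Q ⌊y⌋₊ + |c| * cn T ⌊y⌋₊ := by rw [abs_mul, abs_of_nonneg e4, abs_of_nonneg e5]
        _ ≤ y0 + |c| * y0 := by
            have : |c| * cn T ⌊y⌋₊ ≤ |c| * y0 := by gcongr; linarith
            linarith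
        _ = B * y0 := by rw [hB]; ring
        _ ≤ _ := by
            have : 0 ≤ ε * cn T ⌊y⌋₊ := by positivity
            linarith
    · obtain ⟨e1, e2⟩ := hy0 _ h
      rw [Real.dist_eq] at e2
      have e3 : cn Q ⌊y⌋₊ - c * cn T ⌊y⌋₊ = (cn Q ⌊y⌋₊ / cn T ⌊y⌋₊ - c) * cn T ⌊y⌋₊ := by
        field_simp
      rw [e3, abs_mul, abs_of_pos e1]
      have : |cn Q ⌊y⌋₊ / cn T ⌊y⌋₊ - c| * cn T ⌊y⌋₊ ≤ ε * cn T ⌊y⌋₊ := by gcongr
      have h4 : 0 ≤ B * (y0 : ℝ) := by positivity
      linarith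
  have h4 := abs_le.1 h3
  have h5 : ε * cn T ⌊y⌋₊ ≤ ε * PrR (ind T) y + 3 * ε := by
    have : cn T ⌊y⌋₊ ≤ PrR (ind T) y + 3 := by linarith [h2.1]
    nlinarith
  rw [abs_le]
  constructor <;> linarith [h1.1, h1.2, h4.1, h4.2]

end Pool.Agent.Q138.PS
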