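import Pool.Agent.Q138.PS.TN

set_option autoImplicit false

/-!
# Transfer of relative densities to integer parts of dilated polynomials: the theorem
-/

namespace Pool.Agent.Q138.PS

open Finset MeasureTheory Filter Topology
open scoped ENNReal NNReal
open Pool.Agent.Q138.GS

/-- **lower bound for the integral** -/
theorem int_big (q : ℕ) (hq : 2 ≤ q) (T : ℕ → Prop) {α : ℝ} (hα : 0 < α)
    (hT : ∀ η : ℝ, 0 < η → ∀ᶠ y : ℕ in atTop, (y : ℝ) ^ (1 - η) ≤ cn T y) {ε : ℝ} (hε : 0 < ε) :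
    ∀ᶠ N : ℕ in atTop, ∀ P : Polynomial ℝ, PH q ((N : ℝ) ^ (1 / 4 : ℝ)) P →
      (N : ℝ) ^ (1 - ε) ≤ ∫ x in ((⌈(N : ℝ) ^ (1 / 2 : ℝ)⌉₊ : ℕ) : ℝ)..(N : ℝ), ind T ⌊α * P.eval x⌋₊ := by
  classical
  have hq0 : (2 : ℝ) ≤ q := by exact_mod_cast hq
  set e : ℝ := min ε (1 / 4) with he
  have hep : 0 < e := by positivity
  have he1 : e ≤ ε := min_le_left _ _
  have he2 : e ≤ 1 / 4 := min_le_right _ _
  set η1 : ℝ := e / (2 * (q + 2)) with hη1
  have hη1p : 0 < η1 := by positivity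
  have hη1e : (q + 1) * η1 ≤ e / 2 := by
    rw [hη1, ← mul_div_assoc, div_le_div_iff₀ (by positivity) (by positivity)]
    nlinarith
  have hη1l : η1 < 1 := by nlinarith
  obtain ⟨y1, hy1⟩ := eventually_atTop.1 (hT η1 hη1p)
  filter_upwards [pw (16 * q * (q + 1)) 0 (show (0 : ℝ) < 1 / 4 by norm_num),
    tendsto_natCast_atTop_atTop.eventually_ge_atTop (16 + (8 * (y1 + 1) / α + 64 / α) : ℝ),
    pw (64 * q) 0 (show 0 < e / 2 by positivity),
    pw (2 * (8 * 4 ^ q + 8)) 0 (show (0 : ℝ) < 1 / 2 - e / 2 by linarith), pw (1 / α) 0 (show (0 : ℝ) < 1 / 4 by norm_num),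
    pw α 0 (show (0 : ℝ) < 1 / 4 by norm_num), eventually_ge_atTop 1] with N h1 h2 h3 h4 h5 h6 hN1
  intro P hP
  rw [pow_zero, mul_one] at h1 h3 h4 h5 h6
  have hN0 : (0 : ℝ) < N := by exact_mod_cast hN1
  have hN1r : (1 : ℝ) ≤ N := by exact_mod_cast hN1
  obtain ⟨hdeg, hlead, hco⟩ := hP
  set H : ℝ := (N : ℝ) ^ (1 / 4 : ℝ) with hH
  have hH1 : 1 ≤ H := Real.one_le_rpow hN1r (by norm_num)
  set s : ℝ := (N : ℝ) ^ (1 / 2 : ℝ) with hs
  have hs1 : 1 ≤ s := Real.one_le_rpow hN1r (by norm_num)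
  have hss : s * s = N := by
    rw [hs, ← Real.rpow_add hN0]
    norm_num
  have hHs : H * H = s := by
    rw [hH, hs, ← Real.rpow_add hN0]
    norm_num
  set n0 : ℕ := ⌈s⌉₊ with hn0
  have hn0l : s ≤ n0 := Nat.le_ceil _
  have hn0u : (n0 : ℝ) ≤ 2 * s := by
    have := (Nat.ceil_lt_add_one (show 0 ≤ s by linarith)).le
    linarith
  have hα1 : 0 < 8 * ((y1 : ℝ) + 1) / α := by positivity
  have hα2 : 0 < 64 / α := by positivity
  have hs4 : 4 ≤ s := by nlinarith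
  have hn0N : n0 ≤ N := by
    have h7 : (n0 : ℝ) ≤ N := by nlinarith
    exact_mod_cast h7
  have h4q : 4 * (q * H) ≤ (n0 : ℝ) := by
    refine le_trans ?_ hn0l
    rw [← hHs]
    nlinarith
  have h4H : 4 * H ≤ (n0 : ℝ) := by nlinarith
  have hNn0 : (n0 : ℝ) ≤ N := by exact_mod_cast hn0N
  set a : ℝ := P.leadingCoeff with ha
  have haH : a ≤ H := (le_abs_self _).trans (hco _)
  have hlow := set_low (by omega) hH1 ⟨hdeg, hlead, hco⟩ hα h4q hn0N T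
  rw [← ha] at hlow
  set I : ℝ := ∫ x in (n0 : ℝ)..(N : ℝ), ind T ⌊α * P.eval x⌋₊ with hI
  set y : ℕ := ⌊α * P.eval (N : ℝ)⌋₊ with hy
  have hup0 := poly_up2 hdeg hlead hH1 hco h4H
  have hupN := poly_up2 hdeg hlead hH1 hco (h4H.trans hNn0)
  rw [← ha] at hup0 hupN
  have hNq : (N : ℝ) ≤ (N : ℝ) ^ q := by
    calc (N : ℝ) = (N : ℝ) ^ 1 := (pow_one _).symm
      _ ≤ _ := pow_le_pow_right₀ hN1r (by omega)
  set Z : ℝ := α * a * (N : ℝ) ^ q / 4 with hZ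
  have hZN : α * N / 4 ≤ Z := by
    rw [hZ]
    have : α * N ≤ α * a * (N : ℝ) ^ q := by
      calc α * N = α * 1 * N := by ring
        _ ≤ _ := by gcongr
    linarith
  have hαN : 2 * (y1 + 1 : ℝ) + 16 ≤ α * N / 4 := by
    have h7 : 8 * (y1 + 1) / α + 64 / α ≤ (N : ℝ) := by linarith
    rw [← add_div, div_le_iff₀ hα] at h7
    linarith
  have hZ0 : 0 < Z := by linarith [Nat.cast_nonneg (α := ℝ) y1]
  have hyl : Z ≤ y := by
    have h7 : 2 * Z ≤ α * P.eval (N : ℝ) := by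
      rw [hZ]
      have := hupN.1
      calc 2 * (α * a * (N : ℝ) ^ q / 4) = α * (a * (N : ℝ) ^ q / 2) := by ring
        _ ≤ _ := by gcongr
    have h8 := Nat.lt_floor_add_one (α * P.eval (N : ℝ))
    rw [← hy] at h8
    linarith [Nat.cast_nonneg (α := ℝ) y1]
  have hy1y : y1 ≤ y := by
    have : (y1 : ℝ) ≤ y := by linarith [Nat.cast_nonneg (α := ℝ) y1]
    exact_mod_cast this
  have hcy : Z ^ (1 - η1) ≤ cn T y := (Real.rpow_le_rpow hZ0.le hyl (by linarith)).trans (hy1 y hy1y)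
  have hcount : cn T y ≤ (((Ico ⌈α * P.eval (n0 : ℝ)⌉₊ y).filter fun m => T m).card : ℝ) + (⌈α * P.eval (n0 : ℝ)⌉₊ + 1) := by
    unfold cn
    have hsub : (Icc 1 y).filter T ⊆ (Ico ⌈α * P.eval (n0 : ℝ)⌉₊ y).filter (fun m => T m) ∪
        (range ⌈α * P.eval (n0 : ℝ)⌉₊ ∪ {y}) := by
      intro m hm
      rw [mem_filter, mem_Icc] at hm
      rw [mem_union, mem_union, mem_filter, mem_Ico, mem_range, mem_singleton]
      by_cases h : m < ⌈α * P.eval (n0 : ℝ)⌉₊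
      · exact Or.inr (Or.inl h)
      · by_cases h' : m = y
        · exact Or.inr (Or.inr h')
        · exact Or.inl ⟨⟨by omega, by omega⟩, hm.2⟩
    have h7 := (card_le_card hsub).trans ((card_union_le _ _).trans (Nat.add_le_add_left (card_union_le _ _) _))
    rw [card_range, card_singleton] at h7
    have h8 : (((Icc 1 y).filter T).card : ℝ) ≤ (((((Ico ⌈α * P.eval (n0 : ℝ)⌉₊ y).filter fun m => T m).card) +
      (⌈α * P.eval (n0 : ℝ)⌉₊ + 1) : ℕ) : ℝ) := by exact_mod_cast h7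
    push_cast at h8
    exact h8
  have hceil : (⌈α * P.eval (n0 : ℝ)⌉₊ : ℝ) + 1 ≤ (8 * 4 ^ q + 8) * (Z / s) := by
    have h7 : 0 ≤ α * P.eval (n0 : ℝ) := by
      refine mul_nonneg hα.le (le_trans ?_ hup0.1)
      positivity
    have h8 := (Nat.ceil_lt_add_one h7).le
    have h9 : (n0 : ℝ) ^ q ≤ 4 ^ q * ((N : ℝ) ^ q / s) := by
      have e1 : s * s ^ q ≤ s ^ q * s ^ q := by
        have : s ≤ s ^ q := by
          calc s = s ^ 1 := (pow_one _).symm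
            _ ≤ _ := pow_le_pow_right₀ hs1 (by omega)
        gcongr
      have e2 : s ^ q * s ^ q = (N : ℝ) ^ q := by rw [← mul_pow, hss]
      rw [e2] at e1
      have e3 : s ^ q ≤ (N : ℝ) ^ q / s := by
        rw [le_div_iff₀ (by linarith)]
        linarith
      calc (n0 : ℝ) ^ q ≤ (2 * s) ^ q := by gcongr
        _ = 2 ^ q * s ^ q := mul_pow _ _ _
        _ ≤ 4 ^ q * ((N : ℝ) ^ q / s) := by
            gcongr
            norm_num
    have h10 : α * P.eval (n0 : ℝ) ≤ 8 * 4 ^ q * (Z / s) := by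
      calc α * P.eval (n0 : ℝ) ≤ α * (2 * a * (n0 : ℝ) ^ q) := by gcongr; exact hup0.2
        _ ≤ α * (2 * a * (4 ^ q * ((N : ℝ) ^ q / s))) := by gcongr
        _ = 8 * 4 ^ q * (Z / s) := by rw [hZ]; ring
    have h11 : 2 ≤ 8 * (Z / s) := by
      have : s * 1 ≤ 4 * Z := by
        have e1 : α * N ≤ 4 * Z := by linarith
        have e2 : 1 ≤ α * s := by
          have e3 : 1 / α ≤ s := h5.trans (by rw [← hHs]; nlinarith)
          rw [div_le_iff₀ hα] at e3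
          linarith
        calc s * 1 ≤ s * (α * s) := by gcongr
          _ = α * N := by rw [← hss]; ring
          _ ≤ _ := e1
      rw [← mul_div_assoc, le_div_iff₀ (by linarith)]
      linarith
    calc (⌈α * P.eval (n0 : ℝ)⌉₊ : ℝ) + 1 ≤ 8 * 4 ^ q * (Z / s) + 8 * (Z / s) := by linarith
      _ = _ := by ring
  -- the conclusion
  have hD : α * (2 * (q * a) * (N : ℝ) ^ (q - 1)) = 8 * q * (Z / N) := by
    have : (N : ℝ) ^ q = N * (N : ℝ) ^ (q - 1) := by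
      rw [← pow_succ']
      congr 1
      omega
    rw [hZ, this]
    field_simp
    ring
  rw [hD] at hlow
  have hZup : Z ≤ (N : ℝ) ^ ((q : ℝ) + 1) := by
    rw [hZ, Real.rpow_add hN0, Real.rpow_one, Real.rpow_natCast]
    have e1 : α * a ≤ N := by
      calc α * a ≤ H * H := by gcongr
        _ = s := hHs
        _ ≤ N := by nlinarith
    have e2 : 0 ≤ α * a * (N : ℝ) ^ q := by positivity
    calc α * a * (N : ℝ) ^ q / 4 ≤ α * a * (N : ℝ) ^ q := by linarith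
      _ ≤ N * (N : ℝ) ^ q := by gcongr
      _ = _ := by ring
  have hZpow : Z * (N : ℝ) ^ (-(e / 2)) ≤ Z ^ (1 - η1) := by
    rw [sub_eq_add_neg 1 η1, Real.rpow_add hZ0, Real.rpow_one]
    have e1 : (N : ℝ) ^ (-(e / 2)) ≤ Z ^ (-η1) := by
      have e2 : ((N : ℝ) ^ ((q : ℝ) + 1)) ^ (-η1) ≤ Z ^ (-η1) :=
        Real.rpow_le_rpow_of_nonpos hZ0 hZup (by linarith)
      refine le_trans ?_ e2
      rw [← Real.rpow_mul hN0.le]
      apply Real.rpow_le_rpow_of_exponent_le hN1r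
      linarith
    gcongr
  have hsmall : (8 * 4 ^ q + 8) * (Z / s) ≤ Z * (N : ℝ) ^ (-(e / 2)) / 2 := by
    have e1 : (N : ℝ) ^ (1 / 2 - e / 2) = s * (N : ℝ) ^ (-(e / 2)) := by
      rw [hs, ← Real.rpow_add hN0]
      congr 1
    rw [e1] at h4
    have e2 : (8 * 4 ^ q + 8) / s ≤ (N : ℝ) ^ (-(e / 2)) / 2 := by
      rw [div_le_iff₀ (by linarith)]
      linarith
    calc (8 * 4 ^ q + 8) * (Z / s) = Z * ((8 * 4 ^ q + 8) / s) := by ring
      _ ≤ Z * ((N : ℝ) ^ (-(e / 2)) / 2) := by gcongr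
      _ = _ := by ring
  have hI2 : Z * (N : ℝ) ^ (-(e / 2)) / 2 ≤ 8 * q * (Z / N) * I := by linarith
  have hI3 : (N : ℝ) ^ (1 - e / 2) ≤ 16 * q * I := by
    have e1 : (N : ℝ) ^ (1 - e / 2) = N * (N : ℝ) ^ (-(e / 2)) := by
      rw [sub_eq_add_neg, Real.rpow_add hN0, Real.rpow_one]
    rw [e1]
    have e2 : Z / N * (N * (N : ℝ) ^ (-(e / 2))) ≤ Z / N * (16 * q * I) := by
      calc Z / N * (N * (N : ℝ) ^ (-(e / 2))) = 2 * (Z * (N : ℝ) ^ (-(e / 2)) / 2) := by field_simp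
        _ ≤ 2 * (8 * q * (Z / N) * I) := by linarith
        _ = _ := by ring
    exact le_of_mul_le_mul_left e2 (by positivity)
  have hfin : 16 * q * (N : ℝ) ^ (1 - ε) ≤ (N : ℝ) ^ (1 - e / 2) := by
    calc 16 * q * (N : ℝ) ^ (1 - ε) ≤ 16 * q * (N : ℝ) ^ (1 - e) := by
          gcongr
      _ ≤ (N : ℝ) ^ (e / 2) * (N : ℝ) ^ (1 - e) := by
          have : 16 * (q : ℝ) ≤ (N : ℝ) ^ (e / 2) := by linarith
          gcongr
      _ = _ := by
          rw [← Real.rpow_add hN0]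
          congr 1
          ring
  have h16 : (0 : ℝ) < 16 * q := by positivity
  exact le_of_mul_le_mul_left (hfin.trans hI3) h16

/-- **one pair of sets** -/
theorem ratio_one (q : ℕ) (hq : 2 ≤ q) (Q T : ℕ → Prop) {c α η0 : ℝ} (hα : 0 < α) (hη0 : 0 < η0)
    (hs : ∀ X : ℕ → Prop, X = Q ∨ X = T → ∀ᶠ N : ℕ in atTop, ∀ P : Polynomial ℤ, P.natDegree = q →
      0 < P.leadingCoeff → (∀ j, |((P.coeff j : ℤ) : ℝ)| ≤ (N : ℝ) ^ η0) → ∀ n1 n2 : ℕ, n1 ≤ n2 → n2 ≤ N →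
      |∑ n ∈ Ioc n1 n2, ind X ⌊α * (P.map (Int.castRingHom ℝ)).eval (n : ℝ)⌋₊ -
        ∫ x in (n1 : ℝ)..(n2 : ℝ), ind X ⌊α * (P.map (Int.castRingHom ℝ)).eval x⌋₊| ≤ (N : ℝ) ^ (1 - η0))
    (hT : ∀ η : ℝ, 0 < η → ∀ᶠ y : ℕ in atTop, (y : ℝ) ^ (1 - η) ≤ cn T y)
    (hQ : Tendsto (fun y : ℕ => cn Q y / cn T y) atTop (𝓝 c)) {ε : ℝ} (hε : 0 < ε) :
    ∀ᶠ N : ℕ in atTop, ∀ P : Polynomial ℤ, P.natDegree = q → 0 < P.leadingCoeff →
      (∀ j, |((P.coeff j : ℤ) : ℝ)| ≤ (N : ℝ) ^ (min η0 (1 / 4))) →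
      |cn (fun n : ℕ => Q ⌊α * (P.map (Int.castRingHom ℝ)).eval (n : ℝ)⌋₊) N -
        c * cn (fun n : ℕ => T ⌊α * (P.map (Int.castRingHom ℝ)).eval (n : ℝ)⌋₊) N| ≤
        ε * cn (fun n : ℕ => T ⌊α * (P.map (Int.castRingHom ℝ)).eval (n : ℝ)⌋₊) N ∧
      (N : ℝ) ^ (1 - ε) ≤ cn (fun n : ℕ => T ⌊α * (P.map (Int.castRingHom ℝ)).eval (n : ℝ)⌋₊) N := by
  classical
  have hq0 : (2 : ℝ) ≤ q := by exact_mod_cast hq
  have hTp : ∀ᶠ y : ℕ in atTop, 0 < cn T y := by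
    filter_upwards [hT (1 / 2) (by norm_num), eventually_ge_atTop 1] with y h1 h2
    have : (0 : ℝ) < y := by exact_mod_cast h2
    exact lt_of_lt_of_le (by positivity) h1
  obtain ⟨C, hC, hcmp⟩ := cmp_of_ratio Q T hTp hQ (show 0 < ε / 4 by positivity)
  set e : ℝ := min (min ε η0) (1 / 2) / 2 with he
  have hep : 0 < e := by positivity
  have he1 : 2 * e ≤ ε := by
    rw [he]
    linarith [(min_le_left (min ε η0) (1 / 2)).trans (min_le_left ε η0)]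
  have he2 : 2 * e ≤ η0 := by
    rw [he]
    linarith [(min_le_left (min ε η0) (1 / 2)).trans (min_le_right ε η0)]
  have he3 : 2 * e ≤ 1 / 2 := by
    rw [he]
    linarith [min_le_right (min ε η0) (1 / 2)]
  set B : ℝ := 1 + |c| with hB
  have hB0 : 0 < B := by positivity
  filter_upwards [int_big q hq T hα hT hep, hs Q (Or.inl rfl), hs T (Or.inr rfl), eventually_ge_atTop 1,
    pw (4 * q * q) 0 (show (0 : ℝ) < 1 / 4 by norm_num), pw 4 0 hep,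
    pw (8 * (B * 3 + 2 * ε + 2 * C / α + 1) / ε) 0 hep] with N h1 h2 h3 hN1 h4 h5 h6
  intro P hdeg hlead hco
  rw [pow_zero, mul_one] at h4 h5 h6
  have hN0 : (0 : ℝ) < N := by exact_mod_cast hN1
  have hN1r : (1 : ℝ) ≤ N := by exact_mod_cast hN1
  set R := P.map (Int.castRingHom ℝ) with hR
  have hco1 : ∀ j, |((P.coeff j : ℤ) : ℝ)| ≤ (N : ℝ) ^ η0 := fun j =>
    (hco j).trans (Real.rpow_le_rpow_of_exponent_le hN1r (min_le_left _ _))
  have hPH : PH q ((N : ℝ) ^ (1 / 4 : ℝ)) R := int_PH hdeg hlead fun j =>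
    (hco j).trans (Real.rpow_le_rpow_of_exponent_le hN1r (min_le_right _ _))
  set H : ℝ := (N : ℝ) ^ (1 / 4 : ℝ) with hH
  have hH1 : 1 ≤ H := Real.one_le_rpow hN1r (by norm_num)
  set s : ℝ := (N : ℝ) ^ (1 / 2 : ℝ) with hs'
  have hs1 : 1 ≤ s := Real.one_le_rpow hN1r (by norm_num)
  have hHs : H * H = s := by
    rw [hH, hs', ← Real.rpow_add hN0]
    norm_num
  have hss : s * s = N := by
    rw [hs', ← Real.rpow_add hN0]
    norm_num
  set n0 : ℕ := ⌈s⌉₊ with hn0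
  have hn0l : s ≤ n0 := Nat.le_ceil _
  have hn0u : (n0 : ℝ) ≤ 2 * s := by
    have := (Nat.ceil_lt_add_one (show 0 ≤ s by linarith)).le
    linarith
  have hqq : 4 * (q * q : ℝ) ≤ H := by linarith
  have h4q : 4 * (q * (q * H)) ≤ (n0 : ℝ) := by
    refine le_trans ?_ hn0l
    rw [← hHs]
    nlinarith
  have hs2 : 2 ≤ s := by nlinarith
  have hn0N : n0 ≤ N := by
    have h7 : (n0 : ℝ) ≤ N := by nlinarith
    exact_mod_cast h7
  have hNn0 : (n0 : ℝ) ≤ N := by exact_mod_cast hn0N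
  have hI := h1 R hPH
  set IT : ℝ := ∫ x in (n0 : ℝ)..(N : ℝ), ind T ⌊α * R.eval x⌋₊ with hIT
  set IQ : ℝ := ∫ x in (n0 : ℝ)..(N : ℝ), ind Q ⌊α * R.eval x⌋₊ with hIQ
  have hcp := cmp_pol hq hH1 hPH hα h4q hNn0 (fun m => ind Q m - c * ind T m) (ind T) (ind_le T)
    (show 0 ≤ ε / 4 by positivity) hC hcmp
  have hiQ := flcR_ii (ind Q) hNn0 (show ContinuousOn (fun x => α * R.eval x) (Set.Icc (n0 : ℝ) N) by fun_prop)
  have hiT := flcR_ii (ind T) hNn0 (show ContinuousOn (fun x => α * R.eval x) (Set.Icc (n0 : ℝ) N) by fun_prop)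
  rw [intervalIntegral.integral_sub hiQ (hiT.const_mul c), intervalIntegral.integral_const_mul] at hcp
  have hsum : ∀ X : ℕ → Prop, |cn (fun n : ℕ => X ⌊α * R.eval (n : ℝ)⌋₊) N -
      ∑ n ∈ Ioc n0 N, ind X ⌊α * R.eval (n : ℝ)⌋₊| ≤ n0 := by
    intro X
    have e1 : cn (fun n : ℕ => X ⌊α * R.eval (n : ℝ)⌋₊) N = ∑ n ∈ Icc 1 N, ind X ⌊α * R.eval (n : ℝ)⌋₊ := by
      rw [ind_sum X (Icc 1 N) (fun n => ⌊α * R.eval (n : ℝ)⌋₊)]
      unfold cn
      congr 2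
    have e2 : ∑ n ∈ Icc 1 N, ind X ⌊α * R.eval (n : ℝ)⌋₊ = ∑ n ∈ Icc 1 n0, ind X ⌊α * R.eval (n : ℝ)⌋₊ +
        ∑ n ∈ Ioc n0 N, ind X ⌊α * R.eval (n : ℝ)⌋₊ := by
      have e3 : Icc 1 N = Ioc 0 N := rfl
      have e4 : Icc 1 n0 = Ioc 0 n0 := rfl
      rw [e3, e4, sum_Ioc_consecutive _ (Nat.zero_le _) hn0N]
    rw [e1, e2, add_sub_cancel_right, abs_of_nonneg (sum_nonneg fun _ _ => ind_nonneg _ _)]
    calc ∑ n ∈ Icc 1 n0, ind X ⌊α * R.eval (n : ℝ)⌋₊ ≤ ∑ n ∈ Icc 1 n0, (1 : ℝ) := sum_le_sum fun _ _ => ind_le _ _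
      _ = n0 := by simp
  have g1 := abs_le.1 (hsum Q)
  have g2 := abs_le.1 (hsum T)
  have g3 := abs_le.1 (h2 P hdeg hlead hco1 n0 N hn0N le_rfl)
  have g4 := abs_le.1 (h3 P hdeg hlead hco1 n0 N hn0N le_rfl)
  rw [← hR, ← hIQ] at g3
  rw [← hR, ← hIT] at g4
  set SQ : ℝ := ∑ n ∈ Ioc n0 N, ind Q ⌊α * R.eval (n : ℝ)⌋₊ with hSQ
  set ST : ℝ := ∑ n ∈ Ioc n0 N, ind T ⌊α * R.eval (n : ℝ)⌋₊ with hST
  set CQ : ℝ := cn (fun n : ℕ => Q ⌊α * R.eval (n : ℝ)⌋₊) N with hCQ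
  set CT : ℝ := cn (fun n : ℕ => T ⌊α * R.eval (n : ℝ)⌋₊) N with hCT
  -- the small quantities
  set Y : ℝ := (N : ℝ) ^ (1 - 2 * e) with hY
  have hY0 : 0 < Y := by positivity
  have hY1 : 1 ≤ Y := Real.one_le_rpow hN1r (by linarith)
  have hsY : s ≤ Y := Real.rpow_le_rpow_of_exponent_le hN1r (by linarith)
  have hηY : (N : ℝ) ^ (1 - η0) ≤ Y := Real.rpow_le_rpow_of_exponent_le hN1r (by linarith)
  have hYI : 8 * (B * 3 + 2 * ε + 2 * C / α + 1) / ε * Y ≤ IT := by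
    refine le_trans ?_ hI
    have e1 : (N : ℝ) ^ (1 - e) = (N : ℝ) ^ e * Y := by
      rw [hY, ← Real.rpow_add hN0]
      congr 1
      ring
    rw [e1]
    gcongr
  have hCα : 0 ≤ 2 * C / α := by positivity
  have hYI2 : 8 * (B * 3 + 2 * ε + 2 * C / α + 1) * Y ≤ ε * IT := by
    have : 8 * (B * 3 + 2 * ε + 2 * C / α + 1) * Y = ε * (8 * (B * 3 + 2 * ε + 2 * C / α + 1) / ε * Y) := by
      field_simp
    rw [this]
    gcongr
  have hn0Y : (n0 : ℝ) ≤ 2 * Y := by linarith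
  have hCTl : IT - 3 * Y ≤ CT := by linarith [g2.1, g4.1]
  have hIT0 : 0 ≤ IT := intervalIntegral.integral_nonneg hNn0 fun _ _ => ind_nonneg _ _
  constructor
  · have e1 : |CQ - c * CT| ≤ (ε / 4 * IT + (4 * (ε / 4) * n0 + 2 * C / α)) + B * (3 * Y) := by
      have e2 : CQ - c * CT = (IQ - c * IT) + ((CQ - SQ) + (SQ - IQ)) - c * ((CT - ST) + (ST - IT)) := by ring
      have e3 : |(CQ - SQ) + (SQ - IQ)| ≤ 3 * Y := by
        rw [abs_le]
        constructor <;> linarith [g1.1, g1.2, g3.1, g3.2]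
      have e4 : |(CT - ST) + (ST - IT)| ≤ 3 * Y := by
        rw [abs_le]
        constructor <;> linarith [g2.1, g2.2, g4.1, g4.2]
      rw [e2]
      calc |(IQ - c * IT) + ((CQ - SQ) + (SQ - IQ)) - c * ((CT - ST) + (ST - IT))| ≤
          |(IQ - c * IT) + ((CQ - SQ) + (SQ - IQ))| + |c * ((CT - ST) + (ST - IT))| := abs_sub _ _
        _ ≤ (|IQ - c * IT| + |(CQ - SQ) + (SQ - IQ)|) + |c| * |(CT - ST) + (ST - IT)| := by
            rw [abs_mul]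
            gcongr
            exact abs_add_le _ _
        _ ≤ ((ε / 4 * IT + (4 * (ε / 4) * n0 + 2 * C / α)) + 3 * Y) + |c| * (3 * Y) := by gcongr
        _ = _ := by rw [hB]; ring
    have e5 : 2 * C / α ≤ 2 * C / α * Y := le_mul_of_one_le_right hCα hY1
    have e6 : ε * n0 ≤ ε * (2 * Y) := by gcongr
    have e7 : ε * (IT - 3 * Y) ≤ ε * CT := by gcongr
    have e8 : 0 ≤ ε * Y := by positivity
    have e9 : 0 ≤ B * Y := by positivity
    have e10 : 0 ≤ 2 * C / α * Y := by positivity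
    refine e1.trans (le_trans ?_ e7)
    nlinarith
  · have e1 : (N : ℝ) ^ (1 - ε) ≤ Y := Real.rpow_le_rpow_of_exponent_le hN1r (by linarith)
    have e3 : 4 * Y ≤ (N : ℝ) ^ (1 - e) := by
      have e1 : (N : ℝ) ^ (1 - e) = (N : ℝ) ^ e * Y := by
        rw [hY, ← Real.rpow_add hN0]
        congr 1
        ring
      rw [e1]
      gcongr
    linarith

end Pool.Agent.Q138.PS
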