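import Pool.Agent.Q138.PS.TO

set_option autoImplicit false

/-!
# Transfer of relative densities: the theorem for countable families
-/

namespace Pool.Agent.Q138.PS

open Finset MeasureTheory Filter Topology
open scoped ENNReal NNReal
open Pool.Agent.Q138.GS

/-- the number of `1 ≤ n ≤ N` for which the integer part of `α P(n)` belongs to the set -/
noncomputable def cnP (X : ℕ → Prop) (α : ℝ) (P : Polynomial ℤ) (N : ℕ) : ℝ :=
  cn (fun n : ℕ => X ⌊α * ((P.eval (n : ℤ) : ℤ) : ℝ)⌋₊) N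

theorem cnP_eq (X : ℕ → Prop) (α : ℝ) (P : Polynomial ℤ) (N : ℕ) :
    cnP X α P N = cn (fun n : ℕ => X ⌊α * (P.map (Int.castRingHom ℝ)).eval (n : ℝ)⌋₊) N := by
  have h4 : ∀ n : ℕ, (P.map (Int.castRingHom ℝ)).eval (n : ℝ) = ((P.eval (n : ℤ) : ℤ) : ℝ) := by
    intro n
    have := Polynomial.eval_intCast_map (Int.castRingHom ℝ) P (n : ℤ)
    push_cast at this
    exact this
  unfold cnP
  simp only [h4]

/-- sampling of one set, in terms of sums -/
theorem sample_ind (q : ℕ) (hq : 2 ≤ q) (X : ℕ → Prop) :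
    ∃ E : Set ℝ, dimH E ≤ ENNReal.ofReal (q / (q + kp q)) ∧ ∀ α : ℝ, 0 < α → α ∉ E → ∃ η : ℝ, 0 < η ∧
      ∀ᶠ N : ℕ in atTop, ∀ P : Polynomial ℤ, P.natDegree = q →
      0 < P.leadingCoeff → (∀ j, |((P.coeff j : ℤ) : ℝ)| ≤ (N : ℝ) ^ η) → ∀ n1 n2 : ℕ, n1 ≤ n2 → n2 ≤ N →
      |∑ n ∈ Ioc n1 n2, ind X ⌊α * (P.map (Int.castRingHom ℝ)).eval (n : ℝ)⌋₊ -
        ∫ x in (n1 : ℝ)..(n2 : ℝ), ind X ⌊α * (P.map (Int.castRingHom ℝ)).eval x⌋₊| ≤ (N : ℝ) ^ (1 - η) := by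
  classical
  obtain ⟨E, hE, h⟩ := set_sample (ι := Unit) q hq (fun _ => X) 1 zero_le_one (fun _ _ => {()})
    (fun _ _ _ _ _ => le_rfl) (fun η hη => by
      filter_upwards [eventually_ge_atTop 1] with N hN
      rw [card_singleton, one_mul]
      push_cast
      exact Real.one_le_rpow (by exact_mod_cast hN) hη.le)
  refine ⟨E, hE, fun α hα hαE => ?_⟩
  obtain ⟨η, hη, hev⟩ := h α hα hαE
  refine ⟨η, hη, ?_⟩
  filter_upwards [hev] with N hN
  intro P hdeg hlead hco n1 n2 h12 h2N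
  have h1 := hN () (mem_singleton_self _) P hdeg hlead hco n1 n2 h12 h2N
  rw [ind_sum X (Ioc n1 n2) (fun n => ⌊α * (P.map (Int.castRingHom ℝ)).eval (n : ℝ)⌋₊)]
  exact h1

/-- **transfer of relative densities** -/
theorem ratio_transfer {ι : Type} [Countable ι] (q : ℕ) (hq : 2 ≤ q) (Q T : ι → ℕ → Prop) (c : ι → ℝ)
    (hT : ∀ i, ∀ η : ℝ, 0 < η → ∀ᶠ y : ℕ in atTop, (y : ℝ) ^ (1 - η) ≤ cn (T i) y)
    (hQ : ∀ i, Tendsto (fun y : ℕ => cn (Q i) y / cn (T i) y) atTop (𝓝 (c i))) :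
    ∃ E : Set ℝ, dimH E ≤ ENNReal.ofReal (q / (q + kp q)) ∧ ∀ α : ℝ, 0 < α → α ∉ E → ∀ i, ∃ η : ℝ, 0 < η ∧
      ∀ ε : ℝ, 0 < ε → ∀ᶠ N : ℕ in atTop, ∀ P : Polynomial ℤ, P.natDegree = q →
      0 < P.leadingCoeff → (∀ j, |((P.coeff j : ℤ) : ℝ)| ≤ (N : ℝ) ^ η) →
      |cnP (Q i) α P N - c i * cnP (T i) α P N| ≤ ε * cnP (T i) α P N ∧ (N : ℝ) ^ (1 - ε) ≤ cnP (T i) α P N := by
  have h := fun i : ι => sample_ind q hq (Q i)
  have h' := fun i : ι => sample_ind q hq (T i)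
  choose E hE hgood using h
  choose E' hE' hgood' using h'
  refine ⟨(⋃ i, E i) ∪ ⋃ i, E' i, ?_, fun α hα hαE i => ?_⟩
  · rw [dimH_union, dimH_iUnion, dimH_iUnion]
    exact max_le (iSup_le hE) (iSup_le hE')
  · have hα1 : α ∉ E i := fun h => hαE (Or.inl (Set.mem_iUnion.2 ⟨i, h⟩))
    have hα2 : α ∉ E' i := fun h => hαE (Or.inr (Set.mem_iUnion.2 ⟨i, h⟩))
    obtain ⟨η1, hη1, h1⟩ := hgood i α hα hα1
    obtain ⟨η2, hη2, h2⟩ := hgood' i α hα hα2
    set η0 : ℝ := min η1 η2 with hη0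
    have hη0p : 0 < η0 := by positivity
    refine ⟨min η0 (1 / 4), by positivity, fun ε hε => ?_⟩
    have h3 := ratio_one q hq (Q i) (T i) (c := c i) hα hη0p (fun X hX => by
      rcases hX with rfl | rfl
      · filter_upwards [h1, eventually_ge_atTop 1] with N hN hN1
        intro P hdeg hlead hco n1 n2 h12 h2N
        have hN1r : (1 : ℝ) ≤ N := by exact_mod_cast hN1
        exact (hN P hdeg hlead (fun j => (hco j).trans (Real.rpow_le_rpow_of_exponent_le hN1r (min_le_left _ _)))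
          n1 n2 h12 h2N).trans (Real.rpow_le_rpow_of_exponent_le hN1r (by linarith [min_le_left η1 η2]))
      · filter_upwards [h2, eventually_ge_atTop 1] with N hN hN1
        intro P hdeg hlead hco n1 n2 h12 h2N
        have hN1r : (1 : ℝ) ≤ N := by exact_mod_cast hN1
        exact (hN P hdeg hlead (fun j => (hco j).trans (Real.rpow_le_rpow_of_exponent_le hN1r (min_le_right _ _)))
          n1 n2 h12 h2N).trans (Real.rpow_le_rpow_of_exponent_le hN1r (by linarith [min_le_right η1 η2]))) (hT i) (hQ i) hε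
    filter_upwards [h3] with N hN
    intro P hdeg hlead hco
    rw [cnP_eq, cnP_eq]
    exact hN P hdeg hlead hco

theorem cn_true (y : ℕ) : cn (fun _ => True) y = y := by
  classical
  have h1 := cn_sum (fun _ => True) y
  have h2 : ∀ m ∈ Icc 1 y, ind (fun _ => True) m = 1 := fun m _ => by rw [ind_eq, if_pos trivial]
  rw [sum_congr rfl h2] at h1
  rw [← h1]
  simp

theorem cn_true_big (η : ℝ) (hη : 0 < η) : ∀ᶠ y : ℕ in atTop, (y : ℝ) ^ (1 - η) ≤ cn (fun _ => True) y := by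
  filter_upwards [eventually_ge_atTop 1] with y hy
  rw [cn_true]
  have : (1 : ℝ) ≤ y := by exact_mod_cast hy
  calc (y : ℝ) ^ (1 - η) ≤ (y : ℝ) ^ (1 : ℝ) := Real.rpow_le_rpow_of_exponent_le this (by linarith)
    _ = y := Real.rpow_one _

end Pool.Agent.Q138.PS
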