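import Pool.Agent.Q138.PS.TP

set_option autoImplicit false

/-!
# Transfer of bounds for summatory functions to integer parts of dilated polynomials
-/

namespace Pool.Agent.Q138.PS

open Finset MeasureTheory Filter Topology
open scoped ENNReal NNReal
open Pool.Agent.Q138.GS

theorem PrR_one {y : ℝ} : PrR (fun _ => 1) y = y := by
  unfold PrR
  simp

/-- **bound for the integral by means of the primitive** -/
theorem abs_pol {q : ℕ} (hq : 2 ≤ q) {P : Polynomial ℝ} {H : ℝ} (hH : 1 ≤ H) (hP : PH q H P) {α : ℝ} (hα : 0 < α)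
    {a b : ℝ} (ha : 4 * (q * (q * H)) ≤ a) (hab : a ≤ b) (u : ℕ → ℝ) {A K : ℝ} (hA : 0 ≤ A) (hK : 0 ≤ K)
    (hcmp : ∀ y : ℝ, 0 ≤ y → y ≤ α * P.eval b → |PrR u y| ≤ A * y + K) :
    |∫ x in a..b, u ⌊α * P.eval x⌋₊| ≤ 5 * A * b + 2 * K / (α * a) := by
  obtain ⟨hdeg, hlead, hco⟩ := hP
  have hq1 : (2 : ℝ) ≤ q := by exact_mod_cast hq
  have hH0 : 0 < H := by linarith
  have ha1 : 4 * (q * H) ≤ a := by nlinarith [mul_pos (show (0 : ℝ) < q by linarith) hH0]
  have ha2 : 4 * H ≤ a := by nlinarith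
  have ha3 : 1 ≤ a := by linarith
  have ha0 : 0 < a := by linarith
  have hP1 := PH_der (by omega : 1 ≤ q) hH ⟨hdeg, hlead, hco⟩
  obtain ⟨hdeg1, hlead1, hco1⟩ := hP1
  have hd1 : ∀ x, a ≤ x → q * P.leadingCoeff * x ^ (q - 1) / 2 ≤ P.derivative.eval x := fun x hx =>
    (pol_der (by omega) hdeg hlead hH hco (ha1.trans hx)).1
  have hqc : (((q - 1 : ℕ) : ℝ)) ≤ q := by exact_mod_cast Nat.sub_le q 1
  have hqc0 : (0 : ℝ) ≤ (((q - 1 : ℕ) : ℝ)) := Nat.cast_nonneg _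
  have hd2 : ∀ x, a ≤ x → 0 ≤ P.derivative.derivative.eval x := fun x hx => by
    have hqH : 1 ≤ q * H := by nlinarith
    have h1 := (pol_der (q := q - 1) (by omega) hdeg1 hlead1 hqH hco1 (x := x) (by
      refine le_trans ?_ (ha.trans hx)
      have : 0 < q * H := by linarith
      gcongr)).1
    refine le_trans ?_ h1
    have : 0 ≤ x := by linarith
    have : 0 ≤ P.derivative.leadingCoeff := by linarith
    positivity
  have hpos : ∀ x ∈ Set.Icc a b, 0 < P.derivative.eval x := fun x hx => by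
    refine lt_of_lt_of_le ?_ (hd1 x hx.1)
    have : 0 < x := by linarith [hx.1]
    positivity
  have hga := poly_up2 hdeg hlead hH hco ha2
  have hga0 : 0 ≤ P.eval a := by
    refine le_trans ?_ hga.1
    positivity
  have hm : MonotoneOn (fun x => P.eval x) (Set.Icc a b) := by
    refine monotoneOn_of_deriv_nonneg (convex_Icc a b) (by fun_prop) (by fun_prop) ?_
    intro y hy
    rw [Polynomial.deriv]
    exact (hpos y (interior_subset hy)).le
  have hap : a ≤ a ^ (q - 1) := by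
    calc a = a ^ 1 := (pow_one _).symm
      _ ≤ _ := pow_le_pow_right₀ ha3 (by omega)
  have h7 : a ^ q = a * a ^ (q - 1) := by
    rw [← pow_succ']
    congr 1
    omega
  have h5 := hd1 a le_rfl
  have h8 : P.eval a ≤ 2 * a * P.derivative.eval a := by
    have h9 := hga.2
    rw [h7] at h9
    have h10 : 2 * P.leadingCoeff * (a * a ^ (q - 1)) ≤ 2 * a * (q * P.leadingCoeff * a ^ (q - 1) / 2) := by
      have : 0 ≤ P.leadingCoeff * (a * a ^ (q - 1)) := by positivity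
      nlinarith
    calc P.eval a ≤ 2 * P.leadingCoeff * (a * a ^ (q - 1)) := h9
      _ ≤ 2 * a * (q * P.leadingCoeff * a ^ (q - 1) / 2) := h10
      _ ≤ _ := by gcongr
  have h11 : a ≤ P.derivative.eval a := by
    refine le_trans ?_ h5
    have : 2 * 1 * a ≤ q * P.leadingCoeff * a ^ (q - 1) := by gcongr
    linarith
  have key : ∀ w : ℕ → ℝ, (∀ y : ℝ, 0 ≤ y → y ≤ α * P.eval b → |PrR w y| ≤ A * y + K) →
      ∫ x in a..b, w ⌊α * P.eval x⌋₊ ≤ 5 * A * b + 2 * K / (α * a) := by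
    intro w hw
    have h1 := cmp_int hab hα (fun x _ => pol_hd P x) (fun x _ => pol_hd P.derivative x)
      (by fun_prop) hpos (fun x hx => hd2 x hx.1) hga0 w (fun _ => 1) A (2 * A * (α * P.eval a) + 2 * K) (fun x hx => by
        have hxa := hm (Set.left_mem_Icc.2 hab) hx hx.1
        have hxb := hm hx (Set.right_mem_Icc.2 hab) hx.2
        simp only at hxa hxb
        have h2 := abs_le.1 (hw (α * P.eval x) (mul_nonneg hα.le (hga0.trans hxa)) (by gcongr))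
        have h3 := abs_le.1 (hw (α * P.eval a) (mul_nonneg hα.le hga0) (by
          have := hxa.trans hxb
          gcongr))
        rw [PrR_one, PrR_one]
        linarith [h2.2, h3.1])
    refine h1.trans ?_
    rw [intervalIntegral.integral_const, smul_eq_mul, mul_one]
    have hda : 0 < α * P.derivative.eval a := mul_pos hα (ha0.trans_le h11)
    have h4 : (2 * A * (α * P.eval a) + 2 * K) / (α * P.derivative.eval a) ≤ 4 * A * a + 2 * K / (α * a) := by
      rw [div_le_iff₀ hda]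
      have e1 : 2 * A * (α * P.eval a) ≤ 4 * A * a * (α * P.derivative.eval a) := by
        have : A * (α * P.eval a) ≤ A * (α * (2 * a * P.derivative.eval a)) := by gcongr
        nlinarith
      have e2 : 2 * K ≤ 2 * K / (α * a) * (α * P.derivative.eval a) := by
        have e3 : 2 * K = 2 * K / (α * a) * (α * a) := by field_simp
        have e4 : 2 * K / (α * a) * (α * a) ≤ 2 * K / (α * a) * (α * P.derivative.eval a) := by gcongr
        linarith
      linarith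
    have e5 : 4 * A * a ≤ 4 * A * b := by gcongr
    have e6 : 0 ≤ A * a := by positivity
    linarith
  rw [abs_le]
  constructor
  · have h1 := key (fun m => -u m) (fun y hy hyb => by
      have h2 : PrR (fun m => -u m) y = -PrR u y := by
        unfold PrR
        rw [intervalIntegral.integral_neg]
      rw [h2, abs_neg]
      exact hcmp y hy hyb)
    rw [intervalIntegral.integral_neg] at h1
    linarith
  · exact key u hcmp

/-- **transfer of bounds for summatory functions** -/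
theorem abs_transfer {ι : Type} (q : ℕ) (hq : 2 ≤ q) (u : ι → ℕ → ℝ) (hu : ∀ i m, |u i m| ≤ 1) (K : ℝ) (hK : 0 ≤ K)
    (Ω : ℝ → ℕ → Finset ι) (hΩ : ∀ η, 0 < η → Monotone (Ω η))
    (hcard : ∀ η, 0 < η → ∀ᶠ N : ℕ in atTop, ((Ω η N).card : ℝ) ≤ (N : ℝ) ^ (K * η)) :
    ∃ E : Set ℝ, dimH E ≤ ENNReal.ofReal (q / (q + kp q)) ∧ ∀ α : ℝ, 0 < α → α ∉ E → ∃ η : ℝ, 0 < η ∧ η ≤ 1 / 4 ∧
      ∀ᶠ N : ℕ in atTop, ∀ i ∈ Ω η N, ∀ P : Polynomial ℤ, P.natDegree = q →
      0 < P.leadingCoeff → (∀ j, |((P.coeff j : ℤ) : ℝ)| ≤ (N : ℝ) ^ η) → ∀ A B : ℝ, 0 ≤ A → 0 ≤ B →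
      (∀ y : ℕ, (y : ℝ) ≤ (N : ℝ) ^ (q + 1) → |∑ m ∈ Icc 1 y, u i m| ≤ A * y + B) →
      |∑ n ∈ Icc 1 N, u i ⌊α * ((P.eval (n : ℤ) : ℤ) : ℝ)⌋₊| ≤ 5 * A * N + B + (N : ℝ) ^ (1 - η) := by
  have h1 := poly_sample q hq (fun i m => ((u i m : ℝ) : ℂ)) (fun i m => by
    rw [Complex.norm_real, Real.norm_eq_abs]
    exact hu i m) K hK (fun η => Ω (min (η / 2) (1 / 4))) (fun η hη => hΩ _ (by positivity)) (fun η hη => by
      filter_upwards [hcard (min (η / 2) (1 / 4)) (by positivity), eventually_ge_atTop 1] with N hN hN1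
      refine hN.trans ?_
      have : (1 : ℝ) ≤ N := by exact_mod_cast hN1
      apply Real.rpow_le_rpow_of_exponent_le this
      have := min_le_left (η / 2) (1 / 4)
      have : min (η / 2) (1 / 4) ≤ η := by linarith
      gcongr)
  refine ⟨_, h1, fun α hα hαE => ?_⟩
  have h2 := not_not.1 (fun h => hαE ⟨hα, h⟩)
  obtain ⟨η0, hη0, hev⟩ := h2
  set η : ℝ := min (η0 / 2) (1 / 4) with hη
  have hηp : 0 < η := by positivity
  have hη1 : 2 * η ≤ η0 := by
    have := min_le_left (η0 / 2) (1 / 4)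
    linarith
  have hη2 : η ≤ 1 / 4 := min_le_right _ _
  refine ⟨η, hηp, hη2, ?_⟩
  filter_upwards [hev, eventually_ge_atTop 1, pw (4 * q * q) 0 (show (0 : ℝ) < 1 / 4 by norm_num),
    pw (2 * α) 0 (show (0 : ℝ) < 1 / 4 by norm_num), pw (2 / α) 0 (show (0 : ℝ) < 1 / 4 by norm_num),
    pw 6 0 hηp] with N h1 hN1 h3 h4 h5 h6
  intro i hi P hdeg hlead hco A B hA hB hsum
  rw [pow_zero, mul_one] at h3 h4 h5 h6
  have hN0 : (0 : ℝ) < N := by exact_mod_cast hN1
  have hN1r : (1 : ℝ) ≤ N := by exact_mod_cast hN1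
  have hev4 : ∀ n : ℕ, (P.map (Int.castRingHom ℝ)).eval (n : ℝ) = ((P.eval (n : ℤ) : ℤ) : ℝ) := by
    intro n
    have := Polynomial.eval_intCast_map (Int.castRingHom ℝ) P (n : ℤ)
    push_cast at this
    exact this
  simp only [← hev4]
  set R := P.map (Int.castRingHom ℝ) with hR
  have hco1 : ∀ j, |((P.coeff j : ℤ) : ℝ)| ≤ (N : ℝ) ^ η0 := fun j =>
    (hco j).trans (Real.rpow_le_rpow_of_exponent_le hN1r (by linarith))
  have hPH : PH q ((N : ℝ) ^ (1 / 4 : ℝ)) R := int_PH hdeg hlead fun j =>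
    (hco j).trans (Real.rpow_le_rpow_of_exponent_le hN1r hη2)
  set H : ℝ := (N : ℝ) ^ (1 / 4 : ℝ) with hH
  have hH1 : 1 ≤ H := Real.one_le_rpow hN1r (by norm_num)
  set s : ℝ := (N : ℝ) ^ (1 / 2 : ℝ) with hs'
  have hs1 : 1 ≤ s := Real.one_le_rpow hN1r (by norm_num)
  have hHs : H * H = s := by
    rw [hH, hs', ← Real.rpow_add hN0]
    norm_num
  have hss : s * s = N := by
    rw [hs', ← Real.rpow_add hN0]
    norm_num
  have hq0 : (2 : ℝ) ≤ q := by exact_mod_cast hq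
  set n0 : ℕ := ⌈s⌉₊ with hn0
  have hn0l : s ≤ n0 := Nat.le_ceil _
  have hn0u : (n0 : ℝ) ≤ 2 * s := by
    have := (Nat.ceil_lt_add_one (show 0 ≤ s by linarith)).le
    linarith
  have h4q : 4 * (q * (q * H)) ≤ (n0 : ℝ) := by
    refine le_trans ?_ hn0l
    rw [← hHs]
    nlinarith
  have h16 : 16 ≤ H := by nlinarith
  have hs2 : 2 ≤ s := by nlinarith
  have hn0N : n0 ≤ N := by
    have h7 : (n0 : ℝ) ≤ N := by nlinarith
    exact_mod_cast h7
  have hNn0 : (n0 : ℝ) ≤ N := by exact_mod_cast hn0N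
  obtain ⟨hdegR, hleadR, hcoR⟩ := hPH
  have hup : α * R.eval (N : ℝ) ≤ (N : ℝ) ^ (q + 1) := by
    have e1 : 4 * H ≤ (N : ℝ) := by nlinarith
    have e2 := (poly_up2 hdegR hleadR hH1 hcoR e1).2
    have e3 : R.leadingCoeff ≤ H := (le_abs_self _).trans (hcoR _)
    have e4 : 2 * α * R.leadingCoeff ≤ N := by
      calc 2 * α * R.leadingCoeff ≤ H * H := by gcongr
        _ = s := hHs
        _ ≤ N := by nlinarith
    calc α * R.eval (N : ℝ) ≤ α * (2 * R.leadingCoeff * (N : ℝ) ^ q) := by gcongr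
      _ = (2 * α * R.leadingCoeff) * (N : ℝ) ^ q := by ring
      _ ≤ N * (N : ℝ) ^ q := by gcongr
      _ = _ := by rw [pow_succ]; ring
  have hint := abs_pol hq hH1 ⟨hdegR, hleadR, hcoR⟩ hα h4q hNn0 (u i) (A := A) (K := B + 3) hA (by linarith)
    (fun y hy hyb => by
      have e1 := abs_le.1 (PrR_sum (u i) (hu i) hy)
      have e2 : ((⌊y⌋₊ : ℕ) : ℝ) ≤ y := Nat.floor_le hy
      have e3 := abs_le.1 (hsum ⌊y⌋₊ (e2.trans (hyb.trans hup)))
      have e4 : A * ((⌊y⌋₊ : ℕ) : ℝ) ≤ A * y := by gcongr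
      rw [abs_le]
      constructor <;> linarith [e1.1, e1.2, e3.1, e3.2])
  have hdiv : 2 * (B + 3) / (α * n0) ≤ B + 3 := by
    have e1 : 2 ≤ α * n0 := by
      rw [div_le_iff₀ hα] at h5
      have : H ≤ n0 := by nlinarith
      calc 2 ≤ H * α := h5
        _ = α * H := mul_comm _ _
        _ ≤ α * n0 := by gcongr
    rw [div_le_iff₀ (by linarith)]
    nlinarith
  have hDP := h1 i hi P hdeg hlead hco1 n0 N hn0N le_rfl
  have hDP2 : DP (fun m => ((u i m : ℝ) : ℂ)) α R n0 N =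
      ((∑ n ∈ Ioc n0 N, u i ⌊α * R.eval (n : ℝ)⌋₊ - ∫ x in (n0 : ℝ)..(N : ℝ), u i ⌊α * R.eval x⌋₊ : ℝ) : ℂ) := by
    unfold DP
    rw [Complex.ofReal_sub, ← intervalIntegral.integral_ofReal]
    push_cast
    rfl
  rw [← hR, hDP2, Complex.norm_real, Real.norm_eq_abs] at hDP
  have hsplit : ∑ n ∈ Icc 1 N, u i ⌊α * R.eval (n : ℝ)⌋₊ = ∑ n ∈ Icc 1 n0, u i ⌊α * R.eval (n : ℝ)⌋₊ +
      ∑ n ∈ Ioc n0 N, u i ⌊α * R.eval (n : ℝ)⌋₊ := by
    have e3 : Icc 1 N = Ioc 0 N := rfl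
    have e4 : Icc 1 n0 = Ioc 0 n0 := rfl
    rw [e3, e4, sum_Ioc_consecutive _ (Nat.zero_le _) hn0N]
  have hfirst : |∑ n ∈ Icc 1 n0, u i ⌊α * R.eval (n : ℝ)⌋₊| ≤ n0 := by
    calc |∑ n ∈ Icc 1 n0, u i ⌊α * R.eval (n : ℝ)⌋₊| ≤ ∑ n ∈ Icc 1 n0, |u i ⌊α * R.eval (n : ℝ)⌋₊| :=
          abs_sum_le_sum_abs _ _
      _ ≤ ∑ n ∈ Icc 1 n0, (1 : ℝ) := sum_le_sum fun _ _ => hu i _
      _ = n0 := by simp
  set Y : ℝ := (N : ℝ) ^ (1 - 2 * η) with hY
  have hsY : s ≤ Y := Real.rpow_le_rpow_of_exponent_le hN1r (by linarith)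
  have hηY : (N : ℝ) ^ (1 - η0) ≤ Y := Real.rpow_le_rpow_of_exponent_le hN1r (by linarith)
  have hfin : 6 * Y ≤ (N : ℝ) ^ (1 - η) := by
    have e1 : (N : ℝ) ^ (1 - η) = (N : ℝ) ^ η * Y := by
      rw [hY, ← Real.rpow_add hN0]
      congr 1
      ring
    rw [e1]
    gcongr
  rw [hsplit]
  have g1 := abs_le.1 hfirst
  have g2 := abs_le.1 hDP
  have g3 := abs_le.1 hint
  rw [abs_le]
  constructor <;> linarith [g1.1, g1.2, g2.1, g2.2, g3.1, g3.2]

end Pool.Agent.Q138.PS
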