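import Pool.Agent.Q138.PS.TQ

set_option autoImplicit false

/-!
# Transfer for functions on the integers (both signs)
-/

namespace Pool.Agent.Q138.PS

open Finset MeasureTheory Filter Topology
open scoped ENNReal NNReal
open Pool.Agent.Q138.GS

theorem sum_sym (g : ℤ → ℝ) (h0 : g 0 = 0) (y : ℕ) :
    ∑ d ∈ Icc (-(y : ℤ)) y, g d = ∑ m ∈ Icc 1 y, (g (m : ℤ) + g (-(m : ℤ))) := by
  induction y with
  | zero => simp [h0]
  | succ y ih =>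
    have h1 : Icc (-((y + 1 : ℕ) : ℤ)) ((y + 1 : ℕ) : ℤ) =
        insert ((y + 1 : ℕ) : ℤ) (insert (-((y + 1 : ℕ) : ℤ)) (Icc (-(y : ℤ)) y)) := by
      ext d
      simp only [mem_insert, mem_Icc]
      push_cast
      omega
    rw [h1, sum_insert, sum_insert, ih, sum_Icc_succ_top (by omega)]
    · ring
    · rw [mem_Icc]
      push_cast
      omega
    · rw [mem_insert, mem_Icc]
      push_cast
      omega

/-- **transfer of bounds for summatory functions on the integers** -/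
theorem sym_transfer {ι : Type} (q : ℕ) (hq : 2 ≤ q) (u : ι → ℤ → ℝ) (hu : ∀ i d, |u i d| ≤ 1) (hu0 : ∀ i, u i 0 = 0)
    (K : ℝ) (hK : 0 ≤ K)
    (Ω : ℝ → ℕ → Finset ι) (hΩ : ∀ η, 0 < η → Monotone (Ω η))
    (hcard : ∀ η, 0 < η → ∀ᶠ N : ℕ in atTop, ((Ω η N).card : ℝ) ≤ (N : ℝ) ^ (K * η)) :
    ∃ E : Set ℝ, dimH E ≤ ENNReal.ofReal (q / (q + kp q)) ∧ ∀ α : ℝ, 0 < α → α ∉ E → ∃ η : ℝ, 0 < η ∧ η ≤ 1 / 4 ∧
      ∀ᶠ N : ℕ in atTop, ∀ i ∈ Ω η N, ∀ P : Polynomial ℤ, P.natDegree = q →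
      0 < P.leadingCoeff → (∀ j, |((P.coeff j : ℤ) : ℝ)| ≤ (N : ℝ) ^ η) → ∀ A B : ℝ, 0 ≤ A → 0 ≤ B →
      (∀ y : ℕ, (y : ℝ) ≤ (N : ℝ) ^ (q + 1) → |∑ d ∈ Icc (-(y : ℤ)) y, u i d| ≤ A * y + B) →
      |∑ n ∈ Icc 1 N, (u i (⌊α * ((P.eval (n : ℤ) : ℤ) : ℝ)⌋₊ : ℤ) + u i (-(⌊α * ((P.eval (n : ℤ) : ℤ) : ℝ)⌋₊ : ℤ)))| ≤
        5 * A * N + B + 2 * (N : ℝ) ^ (1 - η) := by
  obtain ⟨E, hE, h⟩ := abs_transfer q hq (fun i m => (u i (m : ℤ) + u i (-(m : ℤ))) / 2) (fun i m => by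
    have h1 := abs_le.1 (hu i (m : ℤ))
    have h2 := abs_le.1 (hu i (-(m : ℤ)))
    rw [abs_le]
    constructor <;> linarith [h1.1, h1.2, h2.1, h2.2]) K hK Ω hΩ hcard
  refine ⟨E, hE, fun α hα hαE => ?_⟩
  obtain ⟨η, hη, hη1, hev⟩ := h α hα hαE
  refine ⟨η, hη, hη1, ?_⟩
  filter_upwards [hev] with N hN
  intro i hi P hdeg hlead hco A B hA hB hsum
  have h1 := hN i hi P hdeg hlead hco (A / 2) (B / 2) (by positivity) (by positivity) (fun y hy => by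
    have h2 := hsum y hy
    rw [sum_sym (u i) (hu0 i)] at h2
    rw [← sum_div, abs_div, abs_of_pos (by norm_num : (0 : ℝ) < 2)]
    linarith)
  rw [← sum_div, abs_div, abs_of_pos (by norm_num : (0 : ℝ) < 2)] at h1
  rw [div_le_iff₀ (by norm_num)] at h1
  linarith

end Pool.Agent.Q138.PS
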