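import Pool.Agent.Q138.PS.TR

set_option autoImplicit false

/-!
# Transfer of small exceptional sets of integers
-/

namespace Pool.Agent.Q138.PS

open Finset MeasureTheory Filter Topology
open scoped ENNReal NNReal
open Pool.Agent.Q138.GS

open Classical in
/-- the number of the pairs of an integer `1 ≤ n ≤ N` and a sign `s` for which `d = s ⌊α P(n)⌋` has the property `X` -/
noncomputable def cnS (X : ℤ → Prop) (α : ℝ) (P : Polynomial ℤ) (N : ℕ) : ℕ :=
  ((Icc 1 N ×ˢ ({1, -1} : Finset ℤ)).filter fun x : ℕ × ℤ => X (x.2 * (⌊α * ((P.eval (x.1 : ℤ) : ℤ) : ℝ)⌋₊ : ℤ))).card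

open Classical in
/-- the indicator of a property -/
noncomputable def izS (X : ℤ → Prop) (d : ℤ) : ℝ := if X d then 1 else 0

theorem izS_nonneg (X : ℤ → Prop) (d : ℤ) : 0 ≤ izS X d := by
  unfold izS
  split_ifs <;> norm_num

theorem izS_le (X : ℤ → Prop) (d : ℤ) : izS X d ≤ 1 := by
  unfold izS
  split_ifs <;> norm_num

theorem cnS_eq (α : ℝ) (P : Polynomial ℤ) (N : ℕ) (X : ℤ → Prop) : (cnS X α P N : ℝ) =
    ∑ n ∈ Icc 1 N, (izS X (⌊α * ((P.eval (n : ℤ) : ℤ) : ℝ)⌋₊ : ℤ) + izS X (-(⌊α * ((P.eval (n : ℤ) : ℤ) : ℝ)⌋₊ : ℤ))) := by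
  classical
  unfold cnS
  rw [card_filter]
  push_cast
  rw [sum_product]
  refine sum_congr rfl fun n _ => ?_
  rw [sum_insert (by decide), sum_singleton]
  unfold izS
  simp only [one_mul, neg_mul]

theorem sum_izS (X : ℤ → Prop) (y : ℕ) :
    ∑ d ∈ Icc (-(y : ℤ)) y, izS X d = ({d : ℤ | d.natAbs ≤ y ∧ X d}.ncard : ℝ) := by
  classical
  have h : {d : ℤ | d.natAbs ≤ y ∧ X d} = ((Icc (-(y : ℤ)) y).filter X : Finset ℤ) := by
    ext d
    rw [Set.mem_setOf_eq, mem_coe, mem_filter, mem_Icc]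
    have : d.natAbs ≤ y ↔ -(y : ℤ) ≤ d ∧ d ≤ y := by omega
    rw [this]
  rw [h, Set.ncard_coe_finset, card_filter]
  push_cast
  rfl

theorem ncard_triv (X : ℤ → Prop) (y : ℕ) : ({d : ℤ | d.natAbs ≤ y ∧ X d}.ncard : ℝ) ≤ 2 * y + 1 := by
  rw [← sum_izS]
  refine (sum_le_sum fun d _ => izS_le X d).trans ?_
  rw [sum_const, nsmul_eq_mul, mul_one]
  have h4 : (Icc (-(y : ℤ)) y).card = 2 * y + 1 := by
    rw [Int.card_Icc]
    omega
  rw [h4]
  push_cast
  exact le_rfl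

/-- **transfer of small exceptional sets** -/
theorem exc_transfer {ι : Type} [Countable ι] (q : ℕ) (hq : 2 ≤ q) (X : ι → ℤ → Prop) (h0 : ∀ i, ¬ X i 0) :
    ∃ E : Set ℝ, dimH E ≤ ENNReal.ofReal (q / (q + kp q)) ∧ ∀ α : ℝ, 0 < α → α ∉ E → ∀ i, ∃ η : ℝ, 0 < η ∧
      ∀ δ C : ℝ, 0 < δ → (∀ Y : ℕ, 3 ≤ Y → ({d : ℤ | d.natAbs ≤ Y ∧ X i d}.ncard : ℝ) ≤ C * Y * (Real.log Y) ^ (-δ)) →
      ∀ᶠ N : ℕ in atTop, ∀ P : Polynomial ℤ, P.natDegree = q →
      0 < P.leadingCoeff → (∀ j, |((P.coeff j : ℤ) : ℝ)| ≤ (N : ℝ) ^ η) →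
      (cnS (X i) α P N : ℝ) ≤ (5 * (|C| * 2 ^ δ) + 1) * N * (Real.log N) ^ (-δ) := by
  classical
  have hs := fun i : ι => sym_transfer q hq (ι := Unit) (fun _ => izS (X i)) (fun _ d => by
    rw [abs_of_nonneg (izS_nonneg _ _)]
    exact izS_le _ _) (fun _ => by unfold izS; rw [if_neg (h0 i)]) 0 le_rfl (fun _ _ => {()}) (fun _ _ _ _ _ => le_rfl)
    (fun η _ => by
      filter_upwards with N
      rw [zero_mul, Real.rpow_zero, card_singleton]
      norm_num)
  choose E hE hg using hs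
  refine ⟨⋃ i, E i, ?_, fun α hα hαE i => ?_⟩
  · rw [dimH_iUnion]
    exact iSup_le hE
  obtain ⟨η, hη, hη4, h1⟩ := hg i α hα fun h => hαE (Set.mem_iUnion.2 ⟨i, h⟩)
  refine ⟨η, hη, fun δ C hδ hC => ?_⟩
  have hlogs : ∀ᶠ N : ℕ in atTop, 8 * (Real.log N) ^ δ ≤ (N : ℝ) ^ η := by
    have h2 := (isLittleO_log_rpow_rpow_atTop (s := η) δ hη).const_mul_left 8
    have h3 := tendsto_natCast_atTop_atTop (R := ℝ) |>.eventually (h2.bound (c := 1) one_pos)
    filter_upwards [h3, eventually_ge_atTop 1] with N hN h1N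
    have h4 : 0 ≤ Real.log N := Real.log_natCast_nonneg N
    rw [one_mul, Real.norm_eq_abs, Real.norm_eq_abs, abs_of_nonneg (by positivity), abs_of_nonneg (by positivity)] at hN
    exact hN
  filter_upwards [h1, hlogs, eventually_ge_atTop 9] with N g1 g2 hN9
  intro P hdeg hlead hco
  have hN0 : (0 : ℝ) < N := by exact_mod_cast (by omega : 0 < N)
  have hN1 : (1 : ℝ) ≤ N := by exact_mod_cast (by omega : 1 ≤ N)
  have hN9r : (9 : ℝ) ≤ N := by exact_mod_cast hN9
  have hlog : 0 < Real.log N := Real.log_pos (by linarith)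
  set L : ℝ := (Real.log N) ^ (-δ) with hL
  have hL0 : 0 < L := by positivity
  have hsq : (3 : ℝ) ≤ Real.sqrt N := by
    rw [show (3 : ℝ) = Real.sqrt 9 by rw [show (9 : ℝ) = 3 ^ 2 by norm_num, Real.sqrt_sq (by norm_num)]]
    exact Real.sqrt_le_sqrt hN9r
  have hsN : Real.sqrt N ≤ (N : ℝ) ^ (1 - η) := by
    rw [Real.sqrt_eq_rpow]
    exact Real.rpow_le_rpow_of_exponent_le hN1 (by linarith)
  have h3 := g1 () (mem_singleton_self _) P hdeg hlead hco (|C| * 2 ^ δ * L) (2 * Real.sqrt N + 1) (by positivity) (by positivity)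
    (fun y hy => by
      rw [sum_izS, abs_of_nonneg (Nat.cast_nonneg _)]
      rcases le_or_gt (Real.sqrt N) y with h5 | h5
      · have hy3 : 3 ≤ y := by exact_mod_cast hsq.trans h5
        refine (hC y hy3).trans ?_
        have hy0 : (0 : ℝ) < y := by exact_mod_cast (by omega : 0 < y)
        have e1 : Real.log N / 2 ≤ Real.log y := by
          have := Real.log_le_log (by positivity) h5
          rw [Real.log_sqrt hN0.le] at this
          exact this
        have e2 : (Real.log y) ^ (-δ) ≤ 2 ^ δ * L := by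
          calc (Real.log y) ^ (-δ) ≤ (Real.log N / 2) ^ (-δ) :=
                Real.rpow_le_rpow_of_nonpos (by positivity) e1 (by linarith)
            _ = 2 ^ δ * L := by
                rw [hL, Real.div_rpow hlog.le (by norm_num), Real.rpow_neg (by norm_num : (0 : ℝ) ≤ 2)]
                field_simp
        have e3 : 0 ≤ (Real.log y) ^ (-δ) := Real.rpow_nonneg (by linarith) _
        calc C * y * (Real.log y) ^ (-δ) ≤ |C| * y * (Real.log y) ^ (-δ) := by
              gcongr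
              exact le_abs_self _
          _ ≤ |C| * y * (2 ^ δ * L) := by gcongr
          _ = |C| * 2 ^ δ * L * y := by ring
          _ ≤ _ := by
              have := Real.sqrt_nonneg (N : ℝ)
              linarith
      · refine (ncard_triv (X i) y).trans ?_
        have e1 : 0 ≤ |C| * 2 ^ δ * L * y := by positivity
        linarith)
  rw [← cnS_eq, abs_of_nonneg (Nat.cast_nonneg _)] at h3
  refine h3.trans ?_
  have h6 : 8 * (N : ℝ) ^ (1 - η) ≤ N * L := by
    have e1 : L * (Real.log N) ^ δ = 1 := by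
      rw [hL, ← Real.rpow_add hlog]
      simp
    have e2 : (N : ℝ) ^ (1 - η) * (N : ℝ) ^ η = N := by
      rw [← Real.rpow_add hN0]
      simp
    have e3 : 0 < (N : ℝ) ^ (1 - η) := by positivity
    calc 8 * (N : ℝ) ^ (1 - η) = (N : ℝ) ^ (1 - η) * (8 * (Real.log N) ^ δ) * L := by
          linear_combination (-8 * (N : ℝ) ^ (1 - η)) * e1
      _ ≤ (N : ℝ) ^ (1 - η) * (N : ℝ) ^ η * L := by gcongr
      _ = N * L := by rw [e2]
  have h7 : (1 : ℝ) ≤ (N : ℝ) ^ (1 - η) := Real.one_le_rpow hN1 (by linarith)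
  have : 5 * (|C| * 2 ^ δ * L) * N = 5 * (|C| * 2 ^ δ) * N * L := by ring
  rw [this]
  have : (5 * (|C| * 2 ^ δ) + 1) * N * L = 5 * (|C| * 2 ^ δ) * N * L + N * L := by ring
  rw [this]
  linarith

end Pool.Agent.Q138.PS
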