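import Pool.Agent.Q138.PS.TS

set_option autoImplicit false

/-!
# Exceptional sets: from squarefree numbers to all numbers
-/

namespace Pool.Agent.Q138.PS

open Finset MeasureTheory Filter Topology

theorem ncard_fl (X : ℤ → Prop) [DecidablePred X] (y : ℕ) :
    {d : ℤ | d.natAbs ≤ y ∧ X d}.ncard = ((Icc (-(y : ℤ)) y).filter X).card := by
  have h : {d : ℤ | d.natAbs ≤ y ∧ X d} = ((Icc (-(y : ℤ)) y).filter X : Finset ℤ) := by
    ext d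
    rw [Set.mem_setOf_eq, mem_coe, mem_filter, mem_Icc]
    have : d.natAbs ≤ y ↔ -(y : ℤ) ≤ d ∧ d ≤ y := by omega
    rw [this]
  rw [h, Set.ncard_coe_finset]

theorem sq_dec (d : ℤ) (hd : d ≠ 0) : ∃ (a : ℤ) (m : ℕ), Squarefree a ∧ 1 ≤ m ∧ a * (m : ℤ) ^ 2 = d := by
  obtain ⟨a, b, hab, ha⟩ := Nat.sq_mul_squarefree d.natAbs
  have hb : b ≠ 0 := by
    rintro rfl
    simp at hab
    omega
  refine ⟨d.sign * a, b, ?_, Nat.one_le_iff_ne_zero.2 hb, ?_⟩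
  · rw [← Int.squarefree_natAbs, Int.natAbs_mul, Int.natAbs_sign_of_ne_zero hd, one_mul, Int.natAbs_natCast]
    exact ha
  · rw [mul_assoc]
    have : ((a : ℤ) * (b : ℤ) ^ 2) = d.natAbs := by
      rw [← hab]
      push_cast
      ring
    rw [this]
    exact Int.sign_mul_natAbs d

theorem sum_inv_sq (M : ℕ) : ∑ m ∈ Icc 1 M, (1 : ℝ) / (m : ℝ) ^ 2 ≤ 2 := by
  rcases Nat.eq_zero_or_pos M with rfl | hM
  · simp
  have h : ∀ M : ℕ, 1 ≤ M → ∑ m ∈ Icc 1 M, (1 : ℝ) / (m : ℝ) ^ 2 ≤ 2 - 1 / M := by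
    intro M hM
    induction M, hM using Nat.le_induction with
    | base => simp; norm_num
    | succ k hk ih =>
      rw [sum_Icc_succ_top (by omega)]
      have hk0 : (0 : ℝ) < k := by exact_mod_cast hk
      have : (1 : ℝ) / ((k + 1 : ℕ) : ℝ) ^ 2 ≤ 1 / k - 1 / ((k + 1 : ℕ) : ℝ) := by
        push_cast
        rw [div_sub_div _ _ hk0.ne' (by positivity), div_le_div_iff₀ (by positivity) (by positivity)]
        nlinarith
      linarith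
  have h1 := h M hM
  have h2 : (0 : ℝ) ≤ 1 / M := by positivity
  linarith

/-- the squarefree part of `d` has the property `X` -/
def Sq (X : ℤ → Prop) (d : ℤ) : Prop := ∃ (a : ℤ) (m : ℕ), Squarefree a ∧ 1 ≤ m ∧ a * (m : ℤ) ^ 2 = d ∧ X a

theorem Sq_zero (X : ℤ → Prop) : ¬ Sq X 0 := by
  rintro ⟨a, m, ha, hm, h, -⟩
  rcases mul_eq_zero.1 h with h1 | h1
  · exact ha.ne_zero h1
  · have := pow_eq_zero_iff (two_ne_zero) |>.1 h1
    have : m = 0 := by exact_mod_cast this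
    omega

theorem Sq_of_inv (X : ℤ → Prop) (hinv : ∀ d m : ℤ, m ≠ 0 → X (d * m ^ 2) → X d) {d : ℤ} (hd : d ≠ 0) (h : X d) :
    Sq X d := by
  obtain ⟨a, m, ha, hm, ham⟩ := sq_dec d hd
  refine ⟨a, m, ha, hm, ham, hinv a m (by exact_mod_cast (by omega : m ≠ 0)) ?_⟩
  rw [ham]
  exact h

/-- **all integers**: an exceptional set which is invariant under squares -/
theorem sqf_all (X : ℤ → Prop) {δ C : ℝ} (hδ : 0 < δ)
    (hC : ∀ Y : ℕ, 3 ≤ Y → ({d : ℤ | d.natAbs ≤ Y ∧ (Squarefree d ∧ X d)}.ncard : ℝ) ≤ C * Y * (Real.log Y) ^ (-δ)) :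
    ∃ C' : ℝ, ∀ Y : ℕ, 3 ≤ Y → ({d : ℤ | d.natAbs ≤ Y ∧ Sq X d}.ncard : ℝ) ≤ C' * Y * (Real.log Y) ^ (-δ) := by
  classical
  refine ⟨2 * (|C| * 4 ^ δ) + 7 * (4 * δ) ^ δ, fun Y hY => ?_⟩
  have hYr : (3 : ℝ) ≤ Y := by exact_mod_cast hY
  have hY0 : (0 : ℝ) < Y := by linarith
  have hY1 : (1 : ℝ) ≤ Y := by linarith
  have hlog : 0 < Real.log Y := Real.log_pos (by linarith)
  set L : ℝ := (Real.log Y) ^ (-δ) with hL
  have hL0 : 0 < L := by positivity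
  set A : ℝ := |C| * 4 ^ δ * L with hA
  have hA0 : 0 ≤ A := by positivity
  have hq4 : (1 : ℝ) ≤ (Y : ℝ) ^ (1 / 4 : ℝ) := Real.one_le_rpow hY1 (by norm_num)
  -- one square
  have hone : ∀ y : ℕ, (({d : ℤ | d.natAbs ≤ y ∧ (Squarefree d ∧ X d)}.ncard : ℕ) : ℝ) ≤ A * y + 7 * (Y : ℝ) ^ (1 / 4 : ℝ) := by
    intro y
    rcases le_or_gt (max 3 ((Y : ℝ) ^ (1 / 4 : ℝ))) y with h5 | h5
    · have hy3 : 3 ≤ y := by exact_mod_cast (le_max_left _ _).trans h5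
      have hyY : (Y : ℝ) ^ (1 / 4 : ℝ) ≤ y := (le_max_right _ _).trans h5
      refine (hC y hy3).trans ?_
      have hy0 : (0 : ℝ) < y := by exact_mod_cast (by omega : 0 < y)
      have e1 : Real.log Y / 4 ≤ Real.log y := by
        have := Real.log_le_log (by positivity) hyY
        rw [Real.log_rpow hY0] at this
        linarith
      have e2 : (Real.log y) ^ (-δ) ≤ 4 ^ δ * L := by
        calc (Real.log y) ^ (-δ) ≤ (Real.log Y / 4) ^ (-δ) :=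
              Real.rpow_le_rpow_of_nonpos (by positivity) e1 (by linarith)
          _ = 4 ^ δ * L := by
              rw [hL, Real.div_rpow hlog.le (by norm_num), Real.rpow_neg (by norm_num : (0 : ℝ) ≤ 4)]
              field_simp
      have e3 : 0 ≤ (Real.log y) ^ (-δ) := Real.rpow_nonneg (by linarith) _
      calc C * y * (Real.log y) ^ (-δ) ≤ |C| * y * (Real.log y) ^ (-δ) := by
            gcongr
            exact le_abs_self _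
        _ ≤ |C| * y * (4 ^ δ * L) := by gcongr
        _ = A * y := by rw [hA]; ring
        _ ≤ _ := by linarith
    · refine (ncard_triv _ y).trans ?_
      have e1 : 0 ≤ A * y := by positivity
      have e2 : max 3 ((Y : ℝ) ^ (1 / 4 : ℝ)) ≤ 3 * (Y : ℝ) ^ (1 / 4 : ℝ) := max_le (by linarith) (by linarith)
      linarith
  -- the union over the squares
  set M : ℕ := Nat.sqrt Y with hM
  have hsub : (Icc (-(Y : ℤ)) Y).filter (fun d => Sq X d) ⊆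
      (Icc 1 M).biUnion fun m => ((Icc (-((Y / m ^ 2 : ℕ) : ℤ)) ((Y / m ^ 2 : ℕ) : ℤ)).filter
        (fun d => Squarefree d ∧ X d)).image (fun d : ℤ => d * (m : ℤ) ^ 2) := by
    intro d hd
    rw [mem_filter, mem_Icc] at hd
    obtain ⟨⟨h1, h2⟩, a, m, ha, hm, ham, h4⟩ := hd
    have ha0 : a ≠ 0 := ha.ne_zero
    have h5 : a.natAbs * m ^ 2 ≤ Y := by
      have : (a * (m : ℤ) ^ 2).natAbs = a.natAbs * m ^ 2 := by
        rw [Int.natAbs_mul, Int.natAbs_pow, Int.natAbs_natCast]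
      rw [← this, ham]
      omega
    have h6 : 1 ≤ a.natAbs := by omega
    have h7 : m ^ 2 ≤ Y := le_trans (Nat.le_mul_of_pos_left _ h6) h5
    have h8 : a.natAbs ≤ Y / m ^ 2 := (Nat.le_div_iff_mul_le (by positivity)).2 h5
    rw [mem_biUnion]
    refine ⟨m, mem_Icc.2 ⟨hm, ?_⟩, ?_⟩
    · rw [hM, Nat.le_sqrt']
      exact h7
    · rw [mem_image]
      refine ⟨a, ?_, ham⟩
      rw [mem_filter, mem_Icc]
      refine ⟨⟨?_, ?_⟩, ha, h4⟩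
      · have : (a.natAbs : ℤ) ≤ ((Y / m ^ 2 : ℕ) : ℤ) := by exact_mod_cast h8
        omega
      · have : (a.natAbs : ℤ) ≤ ((Y / m ^ 2 : ℕ) : ℤ) := by exact_mod_cast h8
        omega
  have hcard : (({d : ℤ | d.natAbs ≤ Y ∧ Sq X d}.ncard : ℕ) : ℝ) ≤
      ∑ m ∈ Icc 1 M, (A * ((Y / m ^ 2 : ℕ) : ℝ) + 7 * (Y : ℝ) ^ (1 / 4 : ℝ)) := by
    rw [ncard_fl]
    have h1 := (card_le_card hsub).trans card_biUnion_le
    have h2 : (((Icc (-(Y : ℤ)) Y).filter (fun d => Sq X d)).card : ℝ) ≤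
        ((∑ m ∈ Icc 1 M, (((Icc (-((Y / m ^ 2 : ℕ) : ℤ)) ((Y / m ^ 2 : ℕ) : ℤ)).filter
        (fun d => Squarefree d ∧ X d)).image (fun d : ℤ => d * (m : ℤ) ^ 2)).card : ℕ) : ℝ) := by exact_mod_cast h1
    refine h2.trans ?_
    push_cast
    refine sum_le_sum fun m _ => ?_
    have h3 : ((((Icc (-((Y / m ^ 2 : ℕ) : ℤ)) ((Y / m ^ 2 : ℕ) : ℤ)).filter
        (fun d => Squarefree d ∧ X d)).image (fun d : ℤ => d * (m : ℤ) ^ 2)).card : ℝ) ≤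
        (((Icc (-((Y / m ^ 2 : ℕ) : ℤ)) ((Y / m ^ 2 : ℕ) : ℤ)).filter (fun d => Squarefree d ∧ X d)).card : ℝ) := by
      exact_mod_cast card_image_le
    refine h3.trans ?_
    have h4 := hone (Y / m ^ 2)
    rw [ncard_fl] at h4
    exact h4
  refine hcard.trans ?_
  rw [sum_add_distrib, ← mul_sum, sum_const, nsmul_eq_mul, Nat.card_Icc, Nat.add_sub_cancel]
  have h9 : ∑ m ∈ Icc 1 M, ((Y / m ^ 2 : ℕ) : ℝ) ≤ 2 * Y := by
    calc ∑ m ∈ Icc 1 M, ((Y / m ^ 2 : ℕ) : ℝ) ≤ ∑ m ∈ Icc 1 M, (Y : ℝ) * (1 / (m : ℝ) ^ 2) := by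
          refine sum_le_sum fun m _ => ?_
          have := @Nat.cast_div_le ℝ _ _ _ Y (m ^ 2)
          push_cast at this
          rw [mul_one_div]
          exact this
      _ = (Y : ℝ) * ∑ m ∈ Icc 1 M, (1 / (m : ℝ) ^ 2) := by rw [mul_sum]
      _ ≤ Y * 2 := by
          gcongr
          exact sum_inv_sq M
      _ = 2 * Y := by ring
  have h10 : (M : ℝ) ≤ (Y : ℝ) ^ (1 / 2 : ℝ) := by
    rw [← Real.sqrt_eq_rpow]
    exact Real.nat_sqrt_le_real_sqrt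
  have h11 : (M : ℝ) * (7 * (Y : ℝ) ^ (1 / 4 : ℝ)) ≤ 7 * (4 * δ) ^ δ * Y * L := by
    have e1 : (Y : ℝ) ^ (1 / 2 : ℝ) * (Y : ℝ) ^ (1 / 4 : ℝ) * (Y : ℝ) ^ (1 / 4 : ℝ) = Y := by
      rw [← Real.rpow_add hY0, ← Real.rpow_add hY0]
      norm_num
    have e2 : (Real.log Y) ^ δ ≤ (4 * δ) ^ δ * (Y : ℝ) ^ (1 / 4 : ℝ) := by
      have h12 : Real.log Y ≤ (4 * δ) * (Y : ℝ) ^ (1 / (4 * δ)) := by
        have := Real.log_le_rpow_div hY0.le (show 0 < 1 / (4 * δ) by positivity)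
        have e : (Y : ℝ) ^ (1 / (4 * δ)) / (1 / (4 * δ)) = (4 * δ) * (Y : ℝ) ^ (1 / (4 * δ)) := by
          field_simp
        rw [e] at this
        exact this
      calc (Real.log Y) ^ δ ≤ ((4 * δ) * (Y : ℝ) ^ (1 / (4 * δ))) ^ δ := by gcongr
        _ = (4 * δ) ^ δ * (Y : ℝ) ^ (1 / 4 : ℝ) := by
            rw [Real.mul_rpow (by positivity) (by positivity), ← Real.rpow_mul hY0.le]
            congr 2
            field_simp
    have e3 : L * (Real.log Y) ^ δ = 1 := by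
      rw [hL, ← Real.rpow_add hlog]
      simp
    calc (M : ℝ) * (7 * (Y : ℝ) ^ (1 / 4 : ℝ)) ≤ (Y : ℝ) ^ (1 / 2 : ℝ) * (7 * (Y : ℝ) ^ (1 / 4 : ℝ)) := by gcongr
      _ = 7 * ((Y : ℝ) ^ (1 / 2 : ℝ) * (Y : ℝ) ^ (1 / 4 : ℝ)) * (L * (Real.log Y) ^ δ) := by rw [e3]; ring
      _ ≤ 7 * ((Y : ℝ) ^ (1 / 2 : ℝ) * (Y : ℝ) ^ (1 / 4 : ℝ)) * (L * ((4 * δ) ^ δ * (Y : ℝ) ^ (1 / 4 : ℝ))) := by gcongr
      _ = 7 * (4 * δ) ^ δ * ((Y : ℝ) ^ (1 / 2 : ℝ) * (Y : ℝ) ^ (1 / 4 : ℝ) * (Y : ℝ) ^ (1 / 4 : ℝ)) * L := by ring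
      _ = _ := by rw [e1]
  calc A * ∑ m ∈ Icc 1 M, ((Y / m ^ 2 : ℕ) : ℝ) + (M : ℝ) * (7 * (Y : ℝ) ^ (1 / 4 : ℝ)) ≤
      A * (2 * Y) + 7 * (4 * δ) ^ δ * Y * L := by gcongr
    _ = _ := by rw [hA]; ring

/-- **transfer of small exceptional sets of squarefree numbers** to the squarefree parts of `± ⌊α P(n)⌋` -/
theorem exc_sqf {ι : Type} [Countable ι] (q : ℕ) (hq : 2 ≤ q) (X : ι → ℤ → Prop) :
    ∃ E : Set ℝ, dimH E ≤ ENNReal.ofReal (q / (q + kp q)) ∧ ∀ α : ℝ, 0 < α → α ∉ E → ∀ i, ∃ η : ℝ, 0 < η ∧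
      ∀ δ C : ℝ, 0 < δ →
      (∀ Y : ℕ, 3 ≤ Y → ({d : ℤ | d.natAbs ≤ Y ∧ (Squarefree d ∧ X i d)}.ncard : ℝ) ≤ C * Y * (Real.log Y) ^ (-δ)) →
      ∃ C' : ℝ, ∀ᶠ N : ℕ in atTop, ∀ P : Polynomial ℤ, P.natDegree = q →
      0 < P.leadingCoeff → (∀ j, |((P.coeff j : ℤ) : ℝ)| ≤ (N : ℝ) ^ η) →
      (cnS (Sq (X i)) α P N : ℝ) ≤ C' * N * (Real.log N) ^ (-δ) := by
  obtain ⟨E, hE, h⟩ := exc_transfer q hq (fun i => Sq (X i)) (fun i => Sq_zero _)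
  refine ⟨E, hE, fun α hα hαE i => ?_⟩
  obtain ⟨η, hη, h1⟩ := h α hα hαE i
  refine ⟨η, hη, fun δ C hδ hC => ?_⟩
  obtain ⟨C', hC'⟩ := sqf_all (X i) hδ hC
  exact ⟨_, h1 δ C' hδ hC'⟩

end Pool.Agent.Q138.PS
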