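import Pool.Agent.Q138.PS.TU

set_option autoImplicit false

/-!
# Transfer of relative densities and positive proportions for sets of integers (both signs)
-/

namespace Pool.Agent.Q138.PS

open Finset MeasureTheory Filter Topology
open scoped ENNReal NNReal
open Pool.Agent.Q138.GS

/-- the number of the integers `|d| ≤ y` with the property -/
noncomputable def nz (X : ℤ → Prop) (y : ℕ) : ℝ := ({d : ℤ | d.natAbs ≤ y ∧ X d}.ncard : ℝ)

/-- the mean of the indicators at `± m` -/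
noncomputable def hz (X : ℤ → Prop) (m : ℕ) : ℝ := (izS X (m : ℤ) + izS X (-(m : ℤ))) / 2

theorem hz_nonneg (X : ℤ → Prop) (m : ℕ) : 0 ≤ hz X m := by
  unfold hz
  linarith [izS_nonneg X (m : ℤ), izS_nonneg X (-(m : ℤ))]

theorem hz_le (X : ℤ → Prop) (m : ℕ) : hz X m ≤ 1 := by
  unfold hz
  linarith [izS_le X (m : ℤ), izS_le X (-(m : ℤ))]

theorem hz_sum (X : ℤ → Prop) (h0 : ¬ X 0) (y : ℕ) : ∑ m ∈ Icc 1 y, hz X m = nz X y / 2 := by
  unfold nz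
  rw [← sum_izS, sum_sym (izS X) (by unfold izS; rw [if_neg h0]), sum_div]
  rfl

theorem cnS_hz (X : ℤ → Prop) (α : ℝ) (P : Polynomial ℤ) (N : ℕ) :
    (cnS X α P N : ℝ) = 2 * ∑ n ∈ Icc 1 N, hz X ⌊α * (P.map (Int.castRingHom ℝ)).eval (n : ℝ)⌋₊ := by
  have h4 : ∀ n : ℕ, (P.map (Int.castRingHom ℝ)).eval (n : ℝ) = ((P.eval (n : ℤ) : ℤ) : ℝ) := by
    intro n
    have := Polynomial.eval_intCast_map (Int.castRingHom ℝ) P (n : ℤ)
    push_cast at this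
    exact this
  rw [cnS_eq, mul_sum]
  refine sum_congr rfl fun n _ => ?_
  rw [h4]
  unfold hz
  ring

theorem hz_ind (X : ℤ → Prop) (m : ℕ) : hz X m ≤ ind (fun m : ℕ => X m ∨ X (-(m : ℤ))) m ∧
    ind (fun m : ℕ => X m ∨ X (-(m : ℤ))) m ≤ 2 * hz X m := by
  classical
  rw [ind_eq]
  unfold hz izS
  by_cases h1 : X (m : ℤ) <;> by_cases h2 : X (-(m : ℤ)) <;> simp [h1, h2] <;> norm_num

/-- the hypothesis of the comparison, for functions -/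
theorem cmp_fun (uQ uT : ℕ → ℝ) (hQ0 : ∀ m, |uQ m| ≤ 1) (hT0 : ∀ m, 0 ≤ uT m) (hT1 : ∀ m, uT m ≤ 1) {c : ℝ}
    (hT : ∀ᶠ y : ℕ in atTop, 0 < ∑ m ∈ Icc 1 y, uT m)
    (hQ : Tendsto (fun y : ℕ => (∑ m ∈ Icc 1 y, uQ m) / ∑ m ∈ Icc 1 y, uT m) atTop (𝓝 c)) {ε : ℝ} (hε : 0 < ε) :
    ∃ C : ℝ, 0 ≤ C ∧ ∀ y : ℝ, 0 ≤ y → |PrR (fun m => uQ m - c * uT m) y| ≤ ε * PrR uT y + C := by
  obtain ⟨y0, hy0⟩ := eventually_atTop.1 (hT.and (Metric.tendsto_nhds.1 hQ ε hε))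
  set B : ℝ := 1 + |c| with hB
  have hB0 : 0 ≤ B := by positivity
  refine ⟨3 * B + 3 * ε + B * y0, by positivity, fun y hy => ?_⟩
  have hT2 : ∀ m, |uT m| ≤ 1 := fun m => by rw [abs_of_nonneg (hT0 m)]; exact hT1 m
  have hu : ∀ m, |uQ m - c * uT m| ≤ B := by
    intro m
    refine (abs_sub _ _).trans ?_
    rw [abs_mul, hB]
    have h1 := hQ0 m
    have h2 := hT2 m
    have : |c| * |uT m| ≤ |c| * 1 := by gcongr
    linarith
  have h1 := abs_le.1 (PrR_sum (fun m => uQ m - c * uT m) hu hy)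
  have h2 := abs_le.1 (PrR_sum uT (B := 1) hT2 hy)
  have hb : ∀ u : ℕ → ℝ, (∀ m, |u m| ≤ 1) → ∀ k : ℕ, |∑ m ∈ Icc 1 k, u m| ≤ k := by
    intro u hu k
    refine (abs_sum_le_sum_abs _ _).trans ?_
    refine (sum_le_sum fun m _ => hu m).trans ?_
    simp
  simp only [sum_sub_distrib, ← mul_sum] at h1
  set SQ : ℕ → ℝ := fun k => ∑ m ∈ Icc 1 k, uQ m with hSQ
  set ST : ℕ → ℝ := fun k => ∑ m ∈ Icc 1 k, uT m with hST
  have e5 : 0 ≤ ST ⌊y⌋₊ := sum_nonneg fun m _ => hT0 m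
  have h3 : |SQ ⌊y⌋₊ - c * ST ⌊y⌋₊| ≤ ε * ST ⌊y⌋₊ + B * y0 := by
    rcases lt_or_ge ⌊y⌋₊ y0 with h | h
    · have e1 : (⌊y⌋₊ : ℝ) ≤ y0 := by exact_mod_cast h.le
      have e2 := hb uQ hQ0 ⌊y⌋₊
      have e3 := hb uT hT2 ⌊y⌋₊
      rw [abs_of_nonneg e5] at e3
      calc |SQ ⌊y⌋₊ - c * ST ⌊y⌋₊| ≤ |SQ ⌊y⌋₊| + |c * ST ⌊y⌋₊| := abs_sub _ _
        _ = |SQ ⌊y⌋₊| + |c| * ST ⌊y⌋₊ := by rw [abs_mul, abs_of_nonneg e5]
        _ ≤ y0 + |c| * y0 := by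
            have : |c| * ST ⌊y⌋₊ ≤ |c| * y0 := by gcongr; linarith
            linarith
        _ = B * y0 := by rw [hB]; ring
        _ ≤ _ := by
            have : 0 ≤ ε * ST ⌊y⌋₊ := by positivity
            linarith
    · obtain ⟨e1, e2⟩ := hy0 _ h
      rw [Real.dist_eq] at e2
      have e1' : 0 < ST ⌊y⌋₊ := e1
      have e3 : SQ ⌊y⌋₊ - c * ST ⌊y⌋₊ = (SQ ⌊y⌋₊ / ST ⌊y⌋₊ - c) * ST ⌊y⌋₊ := by
        field_simp
      rw [e3, abs_mul, abs_of_pos e1']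
      have : |SQ ⌊y⌋₊ / ST ⌊y⌋₊ - c| * ST ⌊y⌋₊ ≤ ε * ST ⌊y⌋₊ := by
        have e2' : |SQ ⌊y⌋₊ / ST ⌊y⌋₊ - c| < ε := e2
        gcongr
      have h4 : 0 ≤ B * (y0 : ℝ) := by positivity
      linarith
  have h4 := abs_le.1 h3
  have h5 : ε * ST ⌊y⌋₊ ≤ ε * PrR uT y + 3 * ε := by
    have : ST ⌊y⌋₊ ≤ PrR uT y + 3 := by linarith [h2.1]
    nlinarith
  rw [abs_le]
  constructor <;> linarith [h1.1, h1.2, h4.1, h4.2]

/-- sampling of a function -/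
theorem sample_fun (q : ℕ) (hq : 2 ≤ q) (u : ℕ → ℝ) (hu : ∀ m, |u m| ≤ 1) :
    ∃ E : Set ℝ, dimH E ≤ ENNReal.ofReal (q / (q + kp q)) ∧ ∀ α : ℝ, 0 < α → α ∉ E → ∃ η : ℝ, 0 < η ∧
      ∀ᶠ N : ℕ in atTop, ∀ P : Polynomial ℤ, P.natDegree = q →
      0 < P.leadingCoeff → (∀ j, |((P.coeff j : ℤ) : ℝ)| ≤ (N : ℝ) ^ η) → ∀ n1 n2 : ℕ, n1 ≤ n2 → n2 ≤ N →
      |∑ n ∈ Ioc n1 n2, u ⌊α * (P.map (Int.castRingHom ℝ)).eval (n : ℝ)⌋₊ -
        ∫ x in (n1 : ℝ)..(n2 : ℝ), u ⌊α * (P.map (Int.castRingHom ℝ)).eval x⌋₊| ≤ (N : ℝ) ^ (1 - η) := by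
  have h1 := poly_sample (ι := Unit) q hq (fun _ m => ((u m : ℝ) : ℂ)) (fun _ m => by
    rw [Complex.norm_real, Real.norm_eq_abs]
    exact hu m) 1 zero_le_one (fun _ _ => {()}) (fun _ _ _ _ _ => le_rfl) (fun η hη => by
      filter_upwards [eventually_ge_atTop 1] with N hN
      rw [card_singleton, one_mul]
      push_cast
      exact Real.one_le_rpow (by exact_mod_cast hN) hη.le)
  refine ⟨_, h1, fun α hα hαE => ?_⟩
  have h2 := not_not.1 (fun h => hαE ⟨hα, h⟩)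
  obtain ⟨η, hη, hev⟩ := h2
  refine ⟨η, hη, ?_⟩
  filter_upwards [hev] with N hN
  intro P hdeg hlead hco n1 n2 h12 h2N
  have h3 := hN () (mem_singleton_self _) P hdeg hlead hco n1 n2 h12 h2N
  have h4 : DP (fun m => ((u m : ℝ) : ℂ)) α (P.map (Int.castRingHom ℝ)) n1 n2 =
      ((∑ n ∈ Ioc n1 n2, u ⌊α * (P.map (Int.castRingHom ℝ)).eval (n : ℝ)⌋₊ -
        ∫ x in (n1 : ℝ)..(n2 : ℝ), u ⌊α * (P.map (Int.castRingHom ℝ)).eval x⌋₊ : ℝ) : ℂ) := by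
    unfold DP
    rw [Complex.ofReal_sub, ← intervalIntegral.integral_ofReal]
    push_cast
    rfl
  rw [h4, Complex.norm_real, Real.norm_eq_abs] at h3
  exact h3

/-- the lower bound for the integral of the mean of the indicators -/
theorem hz_int (X : ℤ → Prop) {α a b : ℝ} (hab : a ≤ b) (P : Polynomial ℝ) :
    (1 / 2) * ∫ x in a..b, ind (fun m : ℕ => X m ∨ X (-(m : ℤ))) ⌊α * P.eval x⌋₊ ≤
      ∫ x in a..b, hz X ⌊α * P.eval x⌋₊ := by
  have hc : ContinuousOn (fun x => α * P.eval x) (Set.Icc a b) := by fun_prop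
  have h1 := flcR_ii (ind (fun m : ℕ => X m ∨ X (-(m : ℤ)))) hab hc
  have h2 := flcR_ii (hz X) hab hc
  rw [← intervalIntegral.integral_const_mul]
  refine intervalIntegral.integral_mono_on hab (h1.const_mul _) h2 fun x _ => ?_
  have := (hz_ind X ⌊α * P.eval x⌋₊).2
  linarith

/-- the numbers of elements of both signs -/
theorem cn_nz (X : ℤ → Prop) (h0 : ¬ X 0) (y : ℕ) : nz X y / 2 ≤ cn (fun m : ℕ => X m ∨ X (-(m : ℤ))) y := by
  rw [← hz_sum X h0, ← cn_sum]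
  exact sum_le_sum fun m _ => (hz_ind X m).1

/-- **transfer of relative densities and positive proportions** -/
theorem ratio_sgn {ι : Type} [Countable ι] (q : ℕ) (hq : 2 ≤ q) (Q T : ι → ℤ → Prop) (h0 : ∀ i, ¬ Q i 0 ∧ ¬ T i 0) :
    ∃ E : Set ℝ, dimH E ≤ ENNReal.ofReal (q / (q + kp q)) ∧ ∀ α : ℝ, 0 < α → α ∉ E → ∀ i, ∃ η : ℝ, 0 < η ∧
      (∀ c : ℝ, (∀ e : ℝ, 0 < e → ∀ᶠ y : ℕ in atTop, (y : ℝ) ^ (1 - e) ≤ nz (T i) y) →
        Tendsto (fun y : ℕ => nz (Q i) y / nz (T i) y) atTop (𝓝 c) →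
        ∀ ε : ℝ, 0 < ε → ∀ᶠ N : ℕ in atTop, ∀ P : Polynomial ℤ, P.natDegree = q →
        0 < P.leadingCoeff → (∀ j, |((P.coeff j : ℤ) : ℝ)| ≤ (N : ℝ) ^ η) →
        |(cnS (Q i) α P N : ℝ) - c * cnS (T i) α P N| ≤ ε * cnS (T i) α P N ∧
          (N : ℝ) ^ (1 - ε) ≤ cnS (T i) α P N) ∧
      (∀ κ : ℝ, 0 < κ → (∀ᶠ y : ℕ in atTop, κ * y ≤ nz (T i) y) →
        ∀ᶠ N : ℕ in atTop, ∀ P : Polynomial ℤ, P.natDegree = q →
        0 < P.leadingCoeff → (∀ j, |((P.coeff j : ℤ) : ℝ)| ≤ (N : ℝ) ^ η) →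
        κ / (64 * q) * N ≤ cnS (T i) α P N) := by
  have hQ1 := fun i : ι => sample_fun q hq (hz (Q i)) (fun m => by rw [abs_of_nonneg (hz_nonneg _ _)]; exact hz_le _ _)
  have hT1 := fun i : ι => sample_fun q hq (hz (T i)) (fun m => by rw [abs_of_nonneg (hz_nonneg _ _)]; exact hz_le _ _)
  choose E hE hgood using hQ1
  choose E' hE' hgood' using hT1
  refine ⟨(⋃ i, E i) ∪ ⋃ i, E' i, ?_, fun α hα hαE i => ?_⟩
  · rw [dimH_union, dimH_iUnion, dimH_iUnion]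
    exact max_le (iSup_le hE) (iSup_le hE')
  have hα1 : α ∉ E i := fun h => hαE (Or.inl (Set.mem_iUnion.2 ⟨i, h⟩))
  have hα2 : α ∉ E' i := fun h => hαE (Or.inr (Set.mem_iUnion.2 ⟨i, h⟩))
  obtain ⟨η1, hη1, h1⟩ := hgood i α hα hα1
  obtain ⟨η2, hη2, h2⟩ := hgood' i α hα hα2
  set η0 : ℝ := min η1 η2 with hη0
  have hη0p : 0 < η0 := by positivity
  have hq0 : (2 : ℝ) ≤ q := by exact_mod_cast hq
  have h1' : ∀ᶠ N : ℕ in atTop, ∀ P : Polynomial ℤ, P.natDegree = q →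
      0 < P.leadingCoeff → (∀ j, |((P.coeff j : ℤ) : ℝ)| ≤ (N : ℝ) ^ η0) → ∀ n1 n2 : ℕ, n1 ≤ n2 → n2 ≤ N →
      |∑ n ∈ Ioc n1 n2, hz (Q i) ⌊α * (P.map (Int.castRingHom ℝ)).eval (n : ℝ)⌋₊ -
        ∫ x in (n1 : ℝ)..(n2 : ℝ), hz (Q i) ⌊α * (P.map (Int.castRingHom ℝ)).eval x⌋₊| ≤ (N : ℝ) ^ (1 - η0) := by
    filter_upwards [h1, eventually_ge_atTop 1] with N hN hN1
    intro P hdeg hlead hco n1 n2 h12 h2N
    have hN1r : (1 : ℝ) ≤ N := by exact_mod_cast hN1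
    exact (hN P hdeg hlead (fun j => (hco j).trans (Real.rpow_le_rpow_of_exponent_le hN1r (min_le_left _ _)))
      n1 n2 h12 h2N).trans (Real.rpow_le_rpow_of_exponent_le hN1r (by linarith [min_le_left η1 η2]))
  have h2' : ∀ᶠ N : ℕ in atTop, ∀ P : Polynomial ℤ, P.natDegree = q →
      0 < P.leadingCoeff → (∀ j, |((P.coeff j : ℤ) : ℝ)| ≤ (N : ℝ) ^ η0) → ∀ n1 n2 : ℕ, n1 ≤ n2 → n2 ≤ N →
      |∑ n ∈ Ioc n1 n2, hz (T i) ⌊α * (P.map (Int.castRingHom ℝ)).eval (n : ℝ)⌋₊ -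
        ∫ x in (n1 : ℝ)..(n2 : ℝ), hz (T i) ⌊α * (P.map (Int.castRingHom ℝ)).eval x⌋₊| ≤ (N : ℝ) ^ (1 - η0) := by
    filter_upwards [h2, eventually_ge_atTop 1] with N hN hN1
    intro P hdeg hlead hco n1 n2 h12 h2N
    have hN1r : (1 : ℝ) ≤ N := by exact_mod_cast hN1
    exact (hN P hdeg hlead (fun j => (hco j).trans (Real.rpow_le_rpow_of_exponent_le hN1r (min_le_right _ _)))
      n1 n2 h12 h2N).trans (Real.rpow_le_rpow_of_exponent_le hN1r (by linarith [min_le_right η1 η2]))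
  refine ⟨min η0 (1 / 4), by positivity, fun c hTb hQb ε hε => ?_, fun κ hκ hTk => ?_⟩
  · have hpos : ∀ᶠ y : ℕ in atTop, 0 < nz (T i) y := by
      filter_upwards [hTb (1 / 2) (by norm_num), eventually_ge_atTop 1] with y g1 g2
      have : (0 : ℝ) < y := by exact_mod_cast g2
      exact lt_of_lt_of_le (by positivity) g1
    have hbig : ∀ e : ℝ, 0 < e → ∀ᶠ N : ℕ in atTop, ∀ P : Polynomial ℝ, PH q ((N : ℝ) ^ (1 / 4 : ℝ)) P →
        (N : ℝ) ^ (1 - e) ≤ ∫ x in ((⌈(N : ℝ) ^ (1 / 2 : ℝ)⌉₊ : ℕ) : ℝ)..(N : ℝ), hz (T i) ⌊α * P.eval x⌋₊ := by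
      intro e he
      have g1 := int_big q hq (fun m : ℕ => T i m ∨ T i (-(m : ℤ))) hα (fun η hη => by
        filter_upwards [hTb (η / 2) (by positivity), pw 2 0 (show 0 < η / 2 by positivity), eventually_ge_atTop 1] with y g1 g2 g3
        rw [pow_zero, mul_one] at g2
        have hy0 : (0 : ℝ) < y := by exact_mod_cast g3
        refine le_trans ?_ (cn_nz (T i) (h0 i).2 y)
        have e1 : (y : ℝ) ^ (1 - η / 2) = (y : ℝ) ^ (η / 2) * (y : ℝ) ^ (1 - η) := by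
          rw [← Real.rpow_add hy0]
          congr 1
          ring
        have e2 : 2 * (y : ℝ) ^ (1 - η) ≤ (y : ℝ) ^ (η / 2) * (y : ℝ) ^ (1 - η) := by gcongr
        linarith) (ε := e / 2) (by positivity)
      filter_upwards [g1, pw 2 0 (show 0 < e / 2 by positivity), eventually_ge_atTop 2,
        pw 4 0 (show (0 : ℝ) < 1 / 2 by norm_num)] with N g2 g3 g4 g5
      intro P hP
      rw [pow_zero, mul_one] at g3 g5
      have hN0 : (0 : ℝ) < N := by exact_mod_cast (by omega : 0 < N)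
      have e1 : (N : ℝ) ^ (1 - e / 2) = (N : ℝ) ^ (e / 2) * (N : ℝ) ^ (1 - e) := by
        rw [← Real.rpow_add hN0]
        congr 1
        ring
      have e2 : 2 * (N : ℝ) ^ (1 - e) ≤ (N : ℝ) ^ (e / 2) * (N : ℝ) ^ (1 - e) := by gcongr
      have e3 := g2 P hP
      have hle : ((⌈(N : ℝ) ^ (1 / 2 : ℝ)⌉₊ : ℕ) : ℝ) ≤ N := by
        have e4 : (N : ℝ) ^ (1 / 2 : ℝ) ≤ N := by
          conv_rhs => rw [← Real.rpow_one (N : ℝ)]
          apply Real.rpow_le_rpow_of_exponent_le (by exact_mod_cast (by omega : 1 ≤ N)) (by norm_num)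
        exact_mod_cast Nat.ceil_le.2 e4
      have e5 := hz_int (T i) (α := α) hle P
      linarith
    have key := ratio_fun q hq (hz (Q i)) (hz (T i)) (fun m => by rw [abs_of_nonneg (hz_nonneg _ _)]; exact hz_le _ _)
      (hz_nonneg _) (hz_le _) (c := c) hη0p hα (fun u hu => by
        rcases hu with rfl | rfl
        · exact h1'
        · exact h2') hbig (fun ε hε => cmp_fun (hz (Q i)) (hz (T i))
          (fun m => by rw [abs_of_nonneg (hz_nonneg _ _)]; exact hz_le _ _) (hz_nonneg _) (hz_le _) (by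
            filter_upwards [hpos] with y hy
            rw [hz_sum _ (h0 i).2]
            linarith) (by
            refine hQb.congr fun y => ?_
            rw [hz_sum _ (h0 i).2, hz_sum _ (h0 i).1]
            rw [div_div_div_cancel_right₀ (by norm_num)]) hε) (ε := ε) hε
    filter_upwards [key, eventually_ge_atTop 1] with N hN hN1
    intro P hdeg hlead hco
    obtain ⟨k1, k2⟩ := hN P hdeg hlead hco
    rw [cnS_hz, cnS_hz]
    set SQ := ∑ n ∈ Icc 1 N, hz (Q i) ⌊α * (P.map (Int.castRingHom ℝ)).eval (n : ℝ)⌋₊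
    set ST := ∑ n ∈ Icc 1 N, hz (T i) ⌊α * (P.map (Int.castRingHom ℝ)).eval (n : ℝ)⌋₊
    have hST : 0 ≤ ST := sum_nonneg fun _ _ => hz_nonneg _ _
    constructor
    · have e1 : 2 * SQ - c * (2 * ST) = 2 * (SQ - c * ST) := by ring
      rw [e1, abs_mul, abs_of_pos (by norm_num : (0 : ℝ) < 2)]
      linarith
    · linarith
  · have g1 := int_pos q hq (fun m : ℕ => T i m ∨ T i (-(m : ℤ))) hα (κ := κ / 2) (by positivity) (by
      filter_upwards [hTk] with y g1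
      refine le_trans ?_ (cn_nz (T i) (h0 i).2 y)
      linarith)
    filter_upwards [g1, h2', pw (128 * q / κ) 0 hη0p, eventually_ge_atTop 2] with N g2 g3 g4 g5
    intro P hdeg hlead hco
    rw [pow_zero, mul_one] at g4
    have hN0 : (0 : ℝ) < N := by exact_mod_cast (by omega : 0 < N)
    have hN1r : (1 : ℝ) ≤ N := by exact_mod_cast (by omega : 1 ≤ N)
    set R := P.map (Int.castRingHom ℝ) with hR
    have hPH : PH q ((N : ℝ) ^ (1 / 4 : ℝ)) R := int_PH hdeg hlead fun j =>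
      (hco j).trans (Real.rpow_le_rpow_of_exponent_le hN1r (min_le_right _ _))
    have hle0 : ⌈(N : ℝ) ^ (1 / 2 : ℝ)⌉₊ ≤ N := by
      have e4 : (N : ℝ) ^ (1 / 2 : ℝ) ≤ N := by
        conv_rhs => rw [← Real.rpow_one (N : ℝ)]
        apply Real.rpow_le_rpow_of_exponent_le hN1r (by norm_num)
      exact Nat.ceil_le.2 e4
    have hle : ((⌈(N : ℝ) ^ (1 / 2 : ℝ)⌉₊ : ℕ) : ℝ) ≤ N := by exact_mod_cast hle0
    have e1 := g2 R hPH
    have e2 := hz_int (T i) (α := α) hle R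
    have e3 := abs_le.1 (g3 P hdeg hlead (fun j => (hco j).trans (Real.rpow_le_rpow_of_exponent_le hN1r (min_le_left _ _)))
      _ N hle0 le_rfl)
    rw [← hR] at e3
    rw [cnS_hz, ← hR]
    have e4 : ∑ n ∈ Ioc ⌈(N : ℝ) ^ (1 / 2 : ℝ)⌉₊ N, hz (T i) ⌊α * R.eval (n : ℝ)⌋₊ ≤
        ∑ n ∈ Icc 1 N, hz (T i) ⌊α * R.eval (n : ℝ)⌋₊ := by
      refine sum_le_sum_of_subset_of_nonneg ?_ fun _ _ _ => hz_nonneg _ _
      intro n hn
      rw [mem_Ioc] at hn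
      rw [mem_Icc]
      omega
    have e5 : (N : ℝ) ^ (1 - η0) ≤ κ / (64 * q) * N / 2 := by
      have e6 : (N : ℝ) ^ (1 - η0) * (N : ℝ) ^ η0 = N := by
        rw [← Real.rpow_add hN0]
        simp
      rw [div_le_iff₀ hκ] at g4
      have e7 : 0 < (N : ℝ) ^ (1 - η0) := by positivity
      have e8 : (N : ℝ) ^ (1 - η0) * (128 * q) ≤ κ * N := by
        calc (N : ℝ) ^ (1 - η0) * (128 * q) ≤ (N : ℝ) ^ (1 - η0) * ((N : ℝ) ^ η0 * κ) := by gcongr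
          _ = κ * N := by rw [← mul_assoc, e6]; ring
      have e9 : κ / (64 * q) * N / 2 = κ * N / (128 * q) := by ring
      rw [e9, le_div_iff₀ (by positivity)]
      exact e8
    have e10 : κ / 2 / (16 * q) * N = κ / (64 * q) * N * 2 := by
      field_simp
      ring
    rw [e10] at e1
    linarith [e3.1]

theorem cnS_or (X Y Z : ℤ → Prop) (h : ∀ d, X d → Y d ∨ Z d) (α : ℝ) (P : Polynomial ℤ) (N : ℕ) :
    cnS X α P N ≤ cnS Y α P N + cnS Z α P N := by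
  classical
  unfold cnS
  refine (card_le_card (fun x hx => ?_)).trans (card_union_le _ _)
  rw [mem_filter] at hx
  rw [mem_union, mem_filter, mem_filter]
  rcases h _ hx.2 with h | h
  · exact Or.inl ⟨hx.1, h⟩
  · exact Or.inr ⟨hx.1, h⟩

theorem cnS_mono (X Y : ℤ → Prop) (h : ∀ d, X d → Y d) (α : ℝ) (P : Polynomial ℤ) (N : ℕ) :
    cnS X α P N ≤ cnS Y α P N := by
  classical
  unfold cnS
  refine card_le_card (fun x hx => ?_)
  rw [mem_filter] at hx ⊢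
  exact ⟨hx.1, h _ hx.2⟩

theorem nz_fin (X : ℤ → Prop) (H : ℕ) : {a : ℤ | a.natAbs ≤ H ∧ X a}.Finite :=
  (Set.finite_Icc (-(H : ℤ)) H).subset fun a ha => Set.mem_Icc.2 (by
    have := ha.1
    omega)

theorem nz_add (X G : ℤ → Prop) (y : ℕ) :
    nz (fun d => X d ∧ G d) y + nz (fun d => X d ∧ ¬ G d) y = nz X y := by
  unfold nz
  have h1 : Disjoint {d : ℤ | d.natAbs ≤ y ∧ X d ∧ G d} {d : ℤ | d.natAbs ≤ y ∧ X d ∧ ¬ G d} := by
    rw [Set.disjoint_left]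
    intro d h1 h2
    exact h2.2.2 h1.2.2
  have h2 : {d : ℤ | d.natAbs ≤ y ∧ X d} = {d : ℤ | d.natAbs ≤ y ∧ X d ∧ G d} ∪ {d : ℤ | d.natAbs ≤ y ∧ X d ∧ ¬ G d} := by
    ext d
    constructor
    · rintro ⟨h3, h4⟩
      by_cases h5 : G d
      · exact Or.inl ⟨h3, h4, h5⟩
      · exact Or.inr ⟨h3, h4, h5⟩
    · rintro (⟨h3, h4, -⟩ | ⟨h3, h4, -⟩)
      · exact ⟨h3, h4⟩
      · exact ⟨h3, h4⟩
  have h3 := Set.ncard_union_eq h1 (nz_fin (fun d => X d ∧ G d) y) (nz_fin (fun d => X d ∧ ¬ G d) y)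
  rw [h2, h3]
  push_cast
  rfl

/-- **transfer of a property of almost all elements of a set of positive proportion** -/
theorem almost_sgn {ι : Type} [Countable ι] (q : ℕ) (hq : 2 ≤ q) (T G : ι → ℤ → Prop) (h0 : ∀ i, ¬ T i 0) :
    ∃ E : Set ℝ, dimH E ≤ ENNReal.ofReal (q / (q + kp q)) ∧ ∀ α : ℝ, 0 < α → α ∉ E → ∀ i, ∃ η : ℝ, 0 < η ∧
      ∀ κ : ℝ, 0 < κ → (∀ᶠ y : ℕ in atTop, κ * y ≤ nz (T i) y) →
        Tendsto (fun y : ℕ => nz (fun d => T i d ∧ G i d) y / nz (T i) y) atTop (𝓝 1) →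
        ∀ ε : ℝ, 0 < ε → ∀ᶠ N : ℕ in atTop, ∀ P : Polynomial ℤ, P.natDegree = q →
        0 < P.leadingCoeff → (∀ j, |((P.coeff j : ℤ) : ℝ)| ≤ (N : ℝ) ^ η) →
        κ / (64 * q) * N ≤ cnS (T i) α P N ∧
        (1 - ε) * cnS (T i) α P N ≤ cnS (fun d => T i d ∧ G i d) α P N := by
  obtain ⟨E, hE, hT⟩ := ratio_sgn q hq (fun i d => T i d ∧ ¬ G i d) T (fun i => ⟨fun h => h0 i h.1, h0 i⟩)
  refine ⟨E, hE, fun α hα hαE i => ?_⟩
  obtain ⟨η, hη, hR, hP⟩ := hT α hα hαE i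
  refine ⟨η, hη, fun κ hκ hTk h2 ε hε => ?_⟩
  have k1 := hP κ hκ hTk
  have k2 := hR 0 (fun e he => by
    filter_upwards [hTk, pw (1 / κ) 0 he, eventually_ge_atTop 1] with y g1 g2 g3
    rw [pow_zero, mul_one] at g2
    have hy0 : (0 : ℝ) < y := by exact_mod_cast g3
    refine le_trans ?_ g1
    rw [Real.rpow_sub hy0, Real.rpow_one, div_le_iff₀ (by positivity)]
    rw [div_le_iff₀ hκ] at g2
    nlinarith) (by
    have h3 : Tendsto (fun y : ℕ => 1 - nz (fun d => T i d ∧ G i d) y / nz (T i) y) atTop (𝓝 (1 - 1)) :=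
      tendsto_const_nhds.sub h2
    rw [sub_self] at h3
    refine h3.congr' ?_
    filter_upwards [hTk, eventually_ge_atTop 1] with H hH hH1
    have hH0 : (0 : ℝ) < H := by exact_mod_cast hH1
    have hpos : 0 < nz (T i) H := lt_of_lt_of_le (by positivity) hH
    have := nz_add (T i) (G i) H
    rw [eq_div_iff hpos.ne', sub_mul, div_mul_cancel₀ _ hpos.ne']
    linarith) ε hε
  filter_upwards [k1, k2] with N g1 g2
  intro P hdeg hlead hco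
  have j1 := g1 P hdeg hlead hco
  have j2 := (g2 P hdeg hlead hco).1
  refine ⟨j1, ?_⟩
  have j3 := cnS_or (T i) (fun d => T i d ∧ G i d) (fun d => T i d ∧ ¬ G i d) (fun d hd => by
    by_cases h : G i d
    · exact Or.inl ⟨hd, h⟩
    · exact Or.inr ⟨hd, h⟩) α P N
  have j4 : (cnS (T i) α P N : ℝ) ≤ cnS (fun d => T i d ∧ G i d) α P N +
      cnS (fun d => T i d ∧ ¬ G i d) α P N := by exact_mod_cast j3
  have j5 := (le_abs_self _).trans j2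
  rw [zero_mul, sub_zero] at j5
  linarith

end Pool.Agent.Q138.PS
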