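import Pool.Agent.Q138.PS.TV

set_option autoImplicit false

/-!
# Transfer of small exceptional sets of natural numbers
-/

namespace Pool.Agent.Q138.PS

open Finset MeasureTheory Filter Topology
open scoped ENNReal NNReal
open Pool.Agent.Q138.GS

theorem cnP_sum (X : ℕ → Prop) (α : ℝ) (P : Polynomial ℤ) (N : ℕ) :
    cnP X α P N = ∑ n ∈ Icc 1 N, ind X ⌊α * ((P.eval (n : ℤ) : ℤ) : ℝ)⌋₊ := by
  classical
  rw [ind_sum X (Icc 1 N) (fun n => ⌊α * ((P.eval (n : ℤ) : ℤ) : ℝ)⌋₊)]
  unfold cnP cn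
  congr 2

/-- **transfer of small exceptional sets of natural numbers** -/
theorem exc_nat {ι : Type} [Countable ι] (q : ℕ) (hq : 2 ≤ q) (X : ι → ℕ → Prop) :
    ∃ E : Set ℝ, dimH E ≤ ENNReal.ofReal (q / (q + kp q)) ∧ ∀ α : ℝ, 0 < α → α ∉ E → ∀ i, ∃ η : ℝ, 0 < η ∧ η ≤ 1 / 4 ∧
      (∀ δ C : ℝ, 0 < δ → (∀ Y : ℕ, 3 ≤ Y → cn (X i) Y ≤ C * Y * (Real.log Y) ^ (-δ)) →
        ∀ᶠ N : ℕ in atTop, ∀ P : Polynomial ℤ, P.natDegree = q →
        0 < P.leadingCoeff → (∀ j, |((P.coeff j : ℤ) : ℝ)| ≤ (N : ℝ) ^ η) →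
        cnP (X i) α P N ≤ (5 * (|C| * 2 ^ δ) + 1) * N * (Real.log N) ^ (-δ)) ∧
      (∀ δ C : ℝ, 0 < δ → δ ≤ 1 → (∀ Y : ℕ, 3 ≤ Y → cn (X i) Y ≤ C * (Y : ℝ) ^ (1 - δ)) →
        ∀ᶠ N : ℕ in atTop, ∀ P : Polynomial ℤ, P.natDegree = q →
        0 < P.leadingCoeff → (∀ j, |((P.coeff j : ℤ) : ℝ)| ≤ (N : ℝ) ^ η) →
        cnP (X i) α P N ≤ (N : ℝ) ^ (1 - min (δ / 4) (η / 2))) := by
  classical
  have hs := fun i : ι => abs_transfer q hq (ι := Unit) (fun _ => ind (X i)) (fun _ d => by
    rw [abs_of_nonneg (ind_nonneg _ _)]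
    exact ind_le _ _) 0 le_rfl (fun _ _ => {()}) (fun _ _ _ _ _ => le_rfl)
    (fun η _ => by
      filter_upwards with N
      rw [zero_mul, Real.rpow_zero, card_singleton]
      norm_num)
  choose E hE hg using hs
  refine ⟨⋃ i, E i, ?_, fun α hα hαE i => ?_⟩
  · rw [dimH_iUnion]
    exact iSup_le hE
  obtain ⟨η, hη, hη4, h1⟩ := hg i α hα fun h => hαE (Set.mem_iUnion.2 ⟨i, h⟩)
  refine ⟨η, hη, hη4, fun δ C hδ hC => ?_, fun δ C hδ hδ1 hC => ?_⟩
  · have hlogs : ∀ᶠ N : ℕ in atTop, 8 * (Real.log N) ^ δ ≤ (N : ℝ) ^ η := by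
      have h2 := (isLittleO_log_rpow_rpow_atTop (s := η) δ hη).const_mul_left 8
      have h3 := tendsto_natCast_atTop_atTop (R := ℝ) |>.eventually (h2.bound (c := 1) one_pos)
      filter_upwards [h3, eventually_ge_atTop 1] with N hN h1N
      have h4 : 0 ≤ Real.log N := Real.log_natCast_nonneg N
      rw [one_mul, Real.norm_eq_abs, Real.norm_eq_abs, abs_of_nonneg (by positivity), abs_of_nonneg (by positivity)] at hN
      exact hN
    filter_upwards [h1, hlogs, eventually_ge_atTop 9] with N g1 g2 hN9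
    intro P hdeg hlead hco
    have hN0 : (0 : ℝ) < N := by exact_mod_cast (by omega : 0 < N)
    have hN1 : (1 : ℝ) ≤ N := by exact_mod_cast (by omega : 1 ≤ N)
    have hN9r : (9 : ℝ) ≤ N := by exact_mod_cast hN9
    have hlog : 0 < Real.log N := Real.log_pos (by linarith)
    set L : ℝ := (Real.log N) ^ (-δ) with hL
    have hL0 : 0 < L := by positivity
    have hsq : (3 : ℝ) ≤ Real.sqrt N := by
      rw [show (3 : ℝ) = Real.sqrt 9 by rw [show (9 : ℝ) = 3 ^ 2 by norm_num, Real.sqrt_sq (by norm_num)]]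
      exact Real.sqrt_le_sqrt hN9r
    have hsN : Real.sqrt N ≤ (N : ℝ) ^ (1 - η) := by
      rw [Real.sqrt_eq_rpow]
      exact Real.rpow_le_rpow_of_exponent_le hN1 (by linarith)
    have h3 := g1 () (mem_singleton_self _) P hdeg hlead hco (|C| * 2 ^ δ * L) (2 * Real.sqrt N + 1) (by positivity) (by positivity)
      (fun y hy => by
        rw [cn_sum, abs_of_nonneg (cn_nonneg _ _)]
        rcases le_or_gt (Real.sqrt N) y with h5 | h5
        · have hy3 : 3 ≤ y := by exact_mod_cast hsq.trans h5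
          refine (hC y hy3).trans ?_
          have hy0 : (0 : ℝ) < y := by exact_mod_cast (by omega : 0 < y)
          have e1 : Real.log N / 2 ≤ Real.log y := by
            have := Real.log_le_log (by positivity) h5
            rw [Real.log_sqrt hN0.le] at this
            exact this
          have e2 : (Real.log y) ^ (-δ) ≤ 2 ^ δ * L := by
            calc (Real.log y) ^ (-δ) ≤ (Real.log N / 2) ^ (-δ) :=
                  Real.rpow_le_rpow_of_nonpos (by positivity) e1 (by linarith)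
              _ = 2 ^ δ * L := by
                  rw [hL, Real.div_rpow hlog.le (by norm_num), Real.rpow_neg (by norm_num : (0 : ℝ) ≤ 2)]
                  field_simp
          have e3 : 0 ≤ (Real.log y) ^ (-δ) := Real.rpow_nonneg (by linarith) _
          calc C * y * (Real.log y) ^ (-δ) ≤ |C| * y * (Real.log y) ^ (-δ) := by
                gcongr
                exact le_abs_self _
            _ ≤ |C| * y * (2 ^ δ * L) := by gcongr
            _ = |C| * 2 ^ δ * L * y := by ring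
            _ ≤ _ := by
                have := Real.sqrt_nonneg (N : ℝ)
                linarith
        · refine (cn_le (X i) y).trans ?_
          have e1 : 0 ≤ |C| * 2 ^ δ * L * y := by positivity
          have e2 : (0 : ℝ) ≤ y := Nat.cast_nonneg _
          linarith)
    rw [← cnP_sum, abs_of_nonneg (show 0 ≤ cnP (X i) α P N from cn_nonneg _ _)] at h3
    refine h3.trans ?_
    have h6 : 8 * (N : ℝ) ^ (1 - η) ≤ N * L := by
      have e1 : L * (Real.log N) ^ δ = 1 := by
        rw [hL, ← Real.rpow_add hlog]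
        simp
      have e2 : (N : ℝ) ^ (1 - η) * (N : ℝ) ^ η = N := by
        rw [← Real.rpow_add hN0]
        simp
      have e3 : 0 < (N : ℝ) ^ (1 - η) := by positivity
      calc 8 * (N : ℝ) ^ (1 - η) = (N : ℝ) ^ (1 - η) * (8 * (Real.log N) ^ δ) * L := by
            linear_combination (-8 * (N : ℝ) ^ (1 - η)) * e1
        _ ≤ (N : ℝ) ^ (1 - η) * (N : ℝ) ^ η * L := by gcongr
        _ = N * L := by rw [e2]
    have h7 : (1 : ℝ) ≤ (N : ℝ) ^ (1 - η) := Real.one_le_rpow hN1 (by linarith)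
    have : 5 * (|C| * 2 ^ δ * L) * N = 5 * (|C| * 2 ^ δ) * N * L := by ring
    rw [this]
    have : (5 * (|C| * 2 ^ δ) + 1) * N * L = 5 * (|C| * 2 ^ δ) * N * L + N * L := by ring
    rw [this]
    linarith
  · set m : ℝ := min (δ / 4) (η / 2) with hm
    have hm0 : 0 < m := by positivity
    have hm1 : 2 * m ≤ δ / 2 := by linarith [min_le_left (δ / 4) (η / 2)]
    have hm2 : 2 * m ≤ η := by linarith [min_le_right (δ / 4) (η / 2)]
    filter_upwards [h1, pw (6 * |C| + 2) 0 hm0, eventually_ge_atTop 9] with N g1 g2 hN9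
    intro P hdeg hlead hco
    rw [pow_zero, mul_one] at g2
    have hN0 : (0 : ℝ) < N := by exact_mod_cast (by omega : 0 < N)
    have hN1 : (1 : ℝ) ≤ N := by exact_mod_cast (by omega : 1 ≤ N)
    have hN9r : (9 : ℝ) ≤ N := by exact_mod_cast hN9
    have hsq : (3 : ℝ) ≤ Real.sqrt N := by
      rw [show (3 : ℝ) = Real.sqrt 9 by rw [show (9 : ℝ) = 3 ^ 2 by norm_num, Real.sqrt_sq (by norm_num)]]
      exact Real.sqrt_le_sqrt hN9r
    set D : ℝ := (N : ℝ) ^ (-(δ / 2)) with hD
    have h3 := g1 () (mem_singleton_self _) P hdeg hlead hco (|C| * D) (Real.sqrt N) (by positivity) (by positivity)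
      (fun y hy => by
        rw [cn_sum, abs_of_nonneg (cn_nonneg _ _)]
        rcases le_or_gt (Real.sqrt N) y with h5 | h5
        · have hy3 : 3 ≤ y := by exact_mod_cast hsq.trans h5
          refine (hC y hy3).trans ?_
          have hy0 : (0 : ℝ) < y := by exact_mod_cast (by omega : 0 < y)
          have e2 : (y : ℝ) ^ (-δ) ≤ D := by
            have e3 : (Real.sqrt N) ^ (-δ) = D := by
              rw [hD, Real.sqrt_eq_rpow, ← Real.rpow_mul hN0.le]
              congr 1
              ring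
            rw [← e3]
            exact Real.rpow_le_rpow_of_nonpos (by linarith) h5 (by linarith)
          have e4 : (y : ℝ) ^ (1 - δ) = y * (y : ℝ) ^ (-δ) := by
            rw [sub_eq_add_neg, Real.rpow_add hy0, Real.rpow_one]
          calc C * (y : ℝ) ^ (1 - δ) ≤ |C| * (y : ℝ) ^ (1 - δ) := by
                gcongr
                exact le_abs_self _
            _ = |C| * y * (y : ℝ) ^ (-δ) := by rw [e4]; ring
            _ ≤ |C| * y * D := by gcongr
            _ = |C| * D * y := by ring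
            _ ≤ _ := by
                have := Real.sqrt_nonneg (N : ℝ)
                linarith
        · refine (cn_le (X i) y).trans ?_
          have e1 : 0 ≤ |C| * D * y := by positivity
          linarith)
    rw [← cnP_sum, abs_of_nonneg (show 0 ≤ cnP (X i) α P N from cn_nonneg _ _)] at h3
    refine h3.trans ?_
    set Y : ℝ := (N : ℝ) ^ (1 - 2 * m) with hY
    have hY0 : 0 < Y := by positivity
    have h4 : D * N ≤ Y := by
      have : D * N = (N : ℝ) ^ (1 - δ / 2) := by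
        rw [hD, sub_eq_add_neg, add_comm, Real.rpow_add hN0, Real.rpow_one]
      rw [this]
      exact Real.rpow_le_rpow_of_exponent_le hN1 (by linarith)
    have h5 : Real.sqrt N ≤ Y := by
      rw [Real.sqrt_eq_rpow]
      exact Real.rpow_le_rpow_of_exponent_le hN1 (by linarith)
    have h6 : (N : ℝ) ^ (1 - η) ≤ Y := Real.rpow_le_rpow_of_exponent_le hN1 (by linarith)
    have h7 : (N : ℝ) ^ (1 - m) = (N : ℝ) ^ m * Y := by
      rw [hY, ← Real.rpow_add hN0]
      congr 1
      ring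
    rw [h7]
    have h8 : 0 ≤ |C| := abs_nonneg _
    calc 5 * (|C| * D) * N + Real.sqrt N + (N : ℝ) ^ (1 - η) ≤ 5 * |C| * (D * N) + Y + Y := by linarith
      _ ≤ 5 * |C| * Y + Y + Y := by gcongr
      _ ≤ (6 * |C| + 2) * Y := by nlinarith
      _ ≤ _ := by gcongr

/-- **transfer of density zero** -/
theorem zero_nat {ι : Type} [Countable ι] (q : ℕ) (hq : 2 ≤ q) (X : ι → ℕ → Prop)
    (hX : ∀ i, Tendsto (fun y : ℕ => cn (X i) y / y) atTop (𝓝 0)) :
    ∃ E : Set ℝ, dimH E ≤ ENNReal.ofReal (q / (q + kp q)) ∧ ∀ α : ℝ, 0 < α → α ∉ E → ∀ i, ∃ η : ℝ, 0 < η ∧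
      ∀ ε : ℝ, 0 < ε → ∀ᶠ N : ℕ in atTop, ∀ P : Polynomial ℤ, P.natDegree = q →
      0 < P.leadingCoeff → (∀ j, |((P.coeff j : ℤ) : ℝ)| ≤ (N : ℝ) ^ η) → cnP (X i) α P N ≤ ε * N := by
  obtain ⟨E, hE, h⟩ := ratio_transfer q hq X (fun _ _ => True) (fun _ => 0) (fun _ => cn_true_big) (fun i => by
    simp only [cn_true]
    exact hX i)
  refine ⟨E, hE, fun α hα hαE i => ?_⟩
  obtain ⟨η, hη, h1⟩ := h α hα hαE i
  refine ⟨η, hη, fun ε hε => ?_⟩
  filter_upwards [h1 ε hε] with N hN
  intro P hdeg hlead hco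
  have h2 := (le_abs_self _).trans (hN P hdeg hlead hco).1
  rw [zero_mul, sub_zero] at h2
  refine h2.trans ?_
  have h3 : cnP (fun _ => True) α P N = N := cn_true N
  rw [h3]

end Pool.Agent.Q138.PS
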