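import Pool.Agent.Q138.PS.TW

set_option autoImplicit false

/-!
# One sign; lower bounds with powers of logarithms
-/

namespace Pool.Agent.Q138.PS

open Finset MeasureTheory Filter Topology
open scoped ENNReal NNReal
open Pool.Agent.Q138.GS

open Classical in
theorem cnS_sign' (s : ℤ) (hs : s = 1 ∨ s = -1) (X Y : ℤ → Prop) (h0 : ¬ X 0) (hY : ∀ D, Y D ↔ 0 < s * D ∧ X D)
    (α : ℝ) (P : Polynomial ℤ) (N : ℕ) :
    cnS Y α P N = ((Icc 1 N).filter fun n : ℕ => X (s * (⌊α * ((P.eval (n : ℤ) : ℤ) : ℝ)⌋₊ : ℤ))).card := by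
  unfold cnS
  symm
  refine card_bij (fun n _ => (n, s)) ?_ ?_ ?_
  · intro n hn
    rw [mem_filter] at hn
    rw [mem_filter, mem_product, hY]
    refine ⟨⟨hn.1, ?_⟩, ?_, hn.2⟩
    · rcases hs with rfl | rfl <;> simp
    · have h1 : (⌊α * ((P.eval (n : ℤ) : ℤ) : ℝ)⌋₊ : ℤ) ≠ 0 := by
        intro h
        rw [h, mul_zero] at hn
        exact h0 hn.2
      have h2 : (0 : ℤ) < (⌊α * ((P.eval (n : ℤ) : ℤ) : ℝ)⌋₊ : ℤ) := lt_of_le_of_ne (Int.natCast_nonneg _) (Ne.symm h1)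
      rw [← mul_assoc]
      have h3 : s * s = 1 := by rcases hs with rfl | rfl <;> norm_num
      show 0 < s * s * _
      rw [h3, one_mul]
      exact h2
  · intro a _ b _ h
    simp only [Prod.mk.injEq] at h
    exact h.1
  · rintro ⟨n, s'⟩ hx
    rw [mem_filter, mem_product, hY] at hx
    obtain ⟨⟨h1, h2⟩, h3, h4⟩ := hx
    simp only at h1 h2 h3 h4
    have h5 : (0 : ℤ) ≤ (⌊α * ((P.eval (n : ℤ) : ℤ) : ℝ)⌋₊ : ℤ) := Int.natCast_nonneg _
    have h6 : s' = s := by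
      rw [mem_insert, mem_singleton] at h2
      rcases hs with rfl | rfl <;> rcases h2 with rfl | rfl
      · rfl
      · exfalso
        linarith
      · exfalso
        linarith
      · rfl
    subst h6
    exact ⟨n, mem_filter.2 ⟨h1, h4⟩, rfl⟩

open Classical in
theorem cnS_sign (s : ℤ) (hs : s = 1 ∨ s = -1) (X : ℤ → Prop) (h0 : ¬ X 0) (α : ℝ) (P : Polynomial ℤ) (N : ℕ) :
    cnS (fun D => 0 < s * D ∧ X D) α P N =
      ((Icc 1 N).filter fun n : ℕ => X (s * (⌊α * ((P.eval (n : ℤ) : ℤ) : ℝ)⌋₊ : ℤ))).card :=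
  cnS_sign' s hs X _ h0 (fun _ => Iff.rfl) α P N

/-- a lower bound with a power of the logarithm is larger than `y ^ (1 - e)` -/
theorem big_of_log (f : ℕ → ℝ) {a A : ℝ} (ha : 0 < a) {X₀ : ℕ}
    (h : ∀ X : ℕ, X₀ ≤ X → a * (X * (Real.log X) ^ (-A)) ≤ f X) (e : ℝ) (he : 0 < e) :
    ∀ᶠ y : ℕ in atTop, (y : ℝ) ^ (1 - e) ≤ f y := by
  have hlogs : ∀ᶠ N : ℕ in atTop, (1 / a) * (Real.log N) ^ |A| ≤ (N : ℝ) ^ e := by
    have h2 := (isLittleO_log_rpow_rpow_atTop (s := e) (|A|) he).const_mul_left (1 / a)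
    have h3 := tendsto_natCast_atTop_atTop (R := ℝ) |>.eventually (h2.bound (c := 1) one_pos)
    filter_upwards [h3, eventually_ge_atTop 1] with N hN h1N
    have h4 : 0 ≤ Real.log N := Real.log_natCast_nonneg N
    have h5 : 0 ≤ 1 / a * (Real.log N) ^ |A| := mul_nonneg (by positivity) (Real.rpow_nonneg h4 _)
    have h6 : 0 ≤ (N : ℝ) ^ e := Real.rpow_nonneg (Nat.cast_nonneg _) _
    rw [one_mul, Real.norm_eq_abs, Real.norm_eq_abs, abs_of_nonneg h5, abs_of_nonneg h6] at hN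
    exact hN
  filter_upwards [hlogs, eventually_ge_atTop X₀, eventually_ge_atTop 3] with N h1 h2 h3
  have hN0 : (0 : ℝ) < N := by exact_mod_cast (by omega : 0 < N)
  have hN3 : (3 : ℝ) ≤ N := by exact_mod_cast h3
  have hlog1 : 1 ≤ Real.log N := by
    have e1 : Real.exp 1 ≤ N := (Real.exp_one_lt_three.le).trans hN3
    rw [← Real.log_exp 1]
    exact Real.log_le_log (Real.exp_pos 1) e1
  refine le_trans ?_ (h N h2)
  have hA : (Real.log N) ^ (-|A|) ≤ (Real.log N) ^ (-A) :=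
    Real.rpow_le_rpow_of_exponent_le hlog1 (by linarith [le_abs_self A])
  have h4 : (Real.log N) ^ (-|A|) * (Real.log N) ^ |A| = 1 := by
    rw [← Real.rpow_add (by linarith)]
    simp
  have h5 : (N : ℝ) ^ (1 - e) * (N : ℝ) ^ e = N := by
    rw [← Real.rpow_add hN0]
    simp
  have h6 : 0 < (N : ℝ) ^ (1 - e) := by positivity
  have h7 : 0 < (Real.log N) ^ (-|A|) := by positivity
  have h8 : (Real.log N) ^ |A| ≤ a * (N : ℝ) ^ e := by
    have : (1 / a) * (Real.log N) ^ |A| = (Real.log N) ^ |A| / a := by ring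
    rw [this, div_le_iff₀ ha] at h1
    linarith
  calc (N : ℝ) ^ (1 - e) = (N : ℝ) ^ (1 - e) * ((Real.log N) ^ (-|A|) * (Real.log N) ^ |A|) := by rw [h4, mul_one]
    _ ≤ (N : ℝ) ^ (1 - e) * ((Real.log N) ^ (-|A|) * (a * (N : ℝ) ^ e)) := by gcongr
    _ = a * (((N : ℝ) ^ (1 - e) * (N : ℝ) ^ e) * (Real.log N) ^ (-|A|)) := by ring
    _ = a * (N * (Real.log N) ^ (-|A|)) := by rw [h5]
    _ ≤ a * (N * (Real.log N) ^ (-A)) := by gcongr

/-- **relative densities, for one sign** -/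
theorem ratio_one_sign {ι : Type} [Countable ι] (q : ℕ) (hq : 2 ≤ q) (Q T : ι → ℤ → Prop)
    (h0 : ∀ i, ¬ Q i 0 ∧ ¬ T i 0) :
    ∃ E : Set ℝ, dimH E ≤ ENNReal.ofReal (q / (q + kp q)) ∧ ∀ α : ℝ, 0 < α → α ∉ E → ∀ i (s : ℤ), (s = 1 ∨ s = -1) →
      ∃ η : ℝ, 0 < η ∧ ∀ c : ℝ, (∀ e : ℝ, 0 < e → ∀ᶠ y : ℕ in atTop, (y : ℝ) ^ (1 - e) ≤ nz (fun D => 0 < s * D ∧ T i D) y) →
        Tendsto (fun y : ℕ => nz (fun D => 0 < s * D ∧ Q i D) y / nz (fun D => 0 < s * D ∧ T i D) y) atTop (𝓝 c) →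
        ∀ ε : ℝ, 0 < ε → ∀ᶠ N : ℕ in atTop, ∀ P : Polynomial ℤ, P.natDegree = q →
        0 < P.leadingCoeff → (∀ j, |((P.coeff j : ℤ) : ℝ)| ≤ (N : ℝ) ^ η) →
        |(cnS (fun D => 0 < s * D ∧ Q i D) α P N : ℝ) - c * cnS (fun D => 0 < s * D ∧ T i D) α P N| ≤
          ε * cnS (fun D => 0 < s * D ∧ T i D) α P N ∧
          (N : ℝ) ^ (1 - ε) ≤ cnS (fun D => 0 < s * D ∧ T i D) α P N := by
  obtain ⟨E, hE, h⟩ := ratio_sgn (ι := ι × Bool) q hq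
    (fun i D => 0 < (if i.2 then 1 else -1) * D ∧ Q i.1 D) (fun i D => 0 < (if i.2 then 1 else -1) * D ∧ T i.1 D)
    (fun i => ⟨fun h => (h0 i.1).1 h.2, fun h => (h0 i.1).2 h.2⟩)
  refine ⟨E, hE, fun α hα hαE i s hs => ?_⟩
  rcases hs with rfl | rfl
  · obtain ⟨η, hη, h1, -⟩ := h α hα hαE (i, true)
    exact ⟨η, hη, fun c g1 g2 => h1 c g1 g2⟩
  · obtain ⟨η, hη, h1, -⟩ := h α hα hαE (i, false)
    exact ⟨η, hη, fun c g1 g2 => h1 c g1 g2⟩

end Pool.Agent.Q138.PS
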