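import Pool.Agent.Q138.PS.TX

set_option autoImplicit false

/-!
# One-sided transfer: lower bounds for relative densities
-/

namespace Pool.Agent.Q138.PS

open Finset MeasureTheory Filter Topology
open scoped ENNReal NNReal
open Pool.Agent.Q138.GS

theorem PrR_bound (h : ℕ → ℝ) {B : ℝ} (hB : ∀ m, |h m| ≤ B) {y : ℝ} (hy : 0 ≤ y) : |PrR h y| ≤ B * y := by
  unfold PrR
  have h1 := intervalIntegral.norm_integral_le_of_norm_le_const (a := 0) (b := y) (C := B) (f := fun t => h ⌊t⌋₊)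
    (fun x _ => by rw [Real.norm_eq_abs]; exact hB _)
  rw [sub_zero, abs_of_nonneg hy, Real.norm_eq_abs] at h1
  exact h1

/-- **one-sided comparison for polynomials** -/
theorem cmp_low {q : ℕ} (hq : 2 ≤ q) {P : Polynomial ℝ} {H : ℝ} (hH : 1 ≤ H) (hP : PH q H P) {α : ℝ} (hα : 0 < α)
    {a b : ℝ} (ha : 4 * (q * (q * H)) ≤ a) (hab : a ≤ b) (w T : ℕ → ℝ) (hT1 : ∀ m, T m ≤ 1) {B : ℝ} (hB : 0 ≤ B)
    (hwB : ∀ m, |w m| ≤ B) {ε C : ℝ} (hε : 0 ≤ ε) (hC : 0 ≤ C)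
    (hw : ∀ y : ℝ, 0 ≤ y → PrR w y ≤ ε * PrR T y + C) :
    ∫ x in a..b, w ⌊α * P.eval x⌋₊ ≤ ε * (∫ x in a..b, T ⌊α * P.eval x⌋₊) + (2 * (ε + B) * a + C / α) := by
  obtain ⟨hdeg, hlead, hco⟩ := hP
  have hq1 : (2 : ℝ) ≤ q := by exact_mod_cast hq
  have hH0 : 0 < H := by linarith
  have ha1 : 4 * (q * H) ≤ a := by nlinarith [mul_pos (show (0 : ℝ) < q by linarith) hH0]
  have ha2 : 4 * H ≤ a := by nlinarith
  have ha3 : 1 ≤ a := by linarith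
  have hP1 := PH_der (by omega : 1 ≤ q) hH ⟨hdeg, hlead, hco⟩
  obtain ⟨hdeg1, hlead1, hco1⟩ := hP1
  have hqc : (((q - 1 : ℕ) : ℝ)) ≤ q := by exact_mod_cast Nat.sub_le q 1
  have hqc0 : (0 : ℝ) ≤ (((q - 1 : ℕ) : ℝ)) := Nat.cast_nonneg _
  have hd1 : ∀ x, a ≤ x → q * P.leadingCoeff * x ^ (q - 1) / 2 ≤ P.derivative.eval x := fun x hx =>
    (pol_der (by omega) hdeg hlead hH hco (ha1.trans hx)).1
  have hd2 : ∀ x, a ≤ x → 0 ≤ P.derivative.derivative.eval x := fun x hx => by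
    have hqH : 1 ≤ q * H := by nlinarith
    have h1 := (pol_der (q := q - 1) (by omega) hdeg1 hlead1 hqH hco1 (x := x) (by
      refine le_trans ?_ (ha.trans hx)
      have : 0 < q * H := by linarith
      gcongr)).1
    refine le_trans ?_ h1
    have : 0 ≤ x := by linarith
    have : 0 ≤ P.derivative.leadingCoeff := by linarith
    positivity
  have hpos : ∀ x ∈ Set.Icc a b, 0 < P.derivative.eval x := fun x hx => by
    refine lt_of_lt_of_le ?_ (hd1 x hx.1)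
    have : 0 < x := by linarith [hx.1]
    positivity
  have hga := poly_up2 hdeg hlead hH hco ha2
  have hga0 : 0 ≤ P.eval a := by
    refine le_trans ?_ hga.1
    positivity
  have hmono : ∀ x ∈ Set.Icc a b, P.eval a ≤ P.eval x := by
    intro x hx
    have hm : MonotoneOn (fun x => P.eval x) (Set.Icc a b) := by
      refine monotoneOn_of_deriv_nonneg (convex_Icc a b) (by fun_prop) (by fun_prop) ?_
      intro y hy
      rw [Polynomial.deriv]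
      exact (hpos y (interior_subset hy)).le
    exact hm (Set.left_mem_Icc.2 hab) hx hx.1
  have hlow : -(B * (α * P.eval a)) ≤ PrR w (α * P.eval a) := by
    have h := abs_le.1 (PrR_bound w hwB (mul_nonneg hα.le hga0))
    exact h.1
  have h1 := cmp_int hab hα (fun x _ => pol_hd P x) (fun x _ => pol_hd P.derivative x)
    (by fun_prop) hpos (fun x hx => hd2 x hx.1) hga0 w T ε ((ε + B) * (α * P.eval a) + C) (fun x hx => by
      have h2 := hw (α * P.eval x) (mul_nonneg hα.le (hga0.trans (hmono x hx)))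
      have h6 := PrR_le T hT1 (mul_nonneg hα.le hga0)
      have h7 : ε * PrR T (α * P.eval a) ≤ ε * (α * P.eval a) := by gcongr
      nlinarith)
  refine h1.trans ?_
  have h4 : ((ε + B) * (α * P.eval a) + C) / (α * P.derivative.eval a) ≤ 2 * (ε + B) * a + C / α := by
    have h5 := hd1 a le_rfl
    have hap : 1 ≤ a ^ (q - 1) := one_le_pow₀ ha3
    have h7 : a ^ q = a * a ^ (q - 1) := by
      rw [← pow_succ']
      congr 1
      omega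
    have h8 : P.eval a ≤ 2 * a * P.derivative.eval a := by
      have h9 := hga.2
      rw [h7] at h9
      have h10 : 2 * P.leadingCoeff * (a * a ^ (q - 1)) ≤ 2 * a * (q * P.leadingCoeff * a ^ (q - 1) / 2) := by
        have : 0 ≤ P.leadingCoeff * (a * a ^ (q - 1)) := by positivity
        nlinarith
      calc P.eval a ≤ 2 * P.leadingCoeff * (a * a ^ (q - 1)) := h9
        _ ≤ 2 * a * (q * P.leadingCoeff * a ^ (q - 1) / 2) := h10
        _ ≤ _ := by gcongr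
    have h11 : 1 ≤ P.derivative.eval a := by
      refine le_trans ?_ h5
      have : 2 * 1 * 1 ≤ q * P.leadingCoeff * a ^ (q - 1) := by gcongr
      linarith
    have h12 : 0 < α * P.derivative.eval a := by positivity
    rw [div_le_iff₀ h12]
    have h13 : (ε + B) * (α * P.eval a) ≤ (ε + B) * (α * (2 * a * P.derivative.eval a)) := by gcongr
    have h14 : C ≤ C / α * (α * P.derivative.eval a) := by
      have e : C / α * (α * P.derivative.eval a) = C * P.derivative.eval a := by field_simp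
      rw [e]
      nlinarith
    calc (ε + B) * (α * P.eval a) + C ≤ (ε + B) * (α * (2 * a * P.derivative.eval a)) +
          C / α * (α * P.derivative.eval a) := add_le_add h13 h14
      _ = _ := by ring
  linarith

/-- the comparison of the primitives -/
theorem low_cmp (uQ uT : ℕ → ℝ) (hQ0 : ∀ m, |uQ m| ≤ 1) (hT0 : ∀ m, 0 ≤ uT m) (hT1 : ∀ m, uT m ≤ 1) {c : ℝ}
    (hQ : ∀ δ : ℝ, 0 < δ → ∀ᶠ y : ℕ in atTop, (c - δ) * ∑ m ∈ Icc 1 y, uT m ≤ ∑ m ∈ Icc 1 y, uQ m)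
    {ε : ℝ} (hε : 0 < ε) :
    ∃ C : ℝ, 0 ≤ C ∧ ∀ y : ℝ, 0 ≤ y → PrR (fun m => c * uT m - uQ m) y ≤ ε * PrR uT y + C := by
  obtain ⟨y0, hy0⟩ := eventually_atTop.1 (hQ ε hε)
  set B : ℝ := 1 + |c| with hB
  have hB0 : 0 ≤ B := by positivity
  refine ⟨3 * B + 3 * ε + B * y0, by positivity, fun y hy => ?_⟩
  have hT2 : ∀ m, |uT m| ≤ 1 := fun m => by rw [abs_of_nonneg (hT0 m)]; exact hT1 m
  have hu : ∀ m, |c * uT m - uQ m| ≤ B := by
    intro m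
    refine (abs_sub _ _).trans ?_
    rw [abs_mul, hB]
    have h1 := hQ0 m
    have h2 := hT2 m
    have : |c| * |uT m| ≤ |c| * 1 := by gcongr
    linarith
  have h1 := abs_le.1 (PrR_sum (fun m => c * uT m - uQ m) hu hy)
  have h2 := abs_le.1 (PrR_sum uT (B := 1) hT2 hy)
  simp only [sum_sub_distrib, ← mul_sum] at h1
  set SQ : ℕ → ℝ := fun k => ∑ m ∈ Icc 1 k, uQ m with hSQ
  set ST : ℕ → ℝ := fun k => ∑ m ∈ Icc 1 k, uT m with hST
  have e5 : 0 ≤ ST ⌊y⌋₊ := sum_nonneg fun m _ => hT0 m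
  have h3 : c * ST ⌊y⌋₊ - SQ ⌊y⌋₊ ≤ ε * ST ⌊y⌋₊ + B * y0 := by
    rcases lt_or_ge ⌊y⌋₊ y0 with h | h
    · have e1 : (⌊y⌋₊ : ℝ) ≤ y0 := by exact_mod_cast h.le
      have e2 : c * ST ⌊y⌋₊ - SQ ⌊y⌋₊ ≤ B * ⌊y⌋₊ := by
        have e3 : c * ST ⌊y⌋₊ - SQ ⌊y⌋₊ = ∑ m ∈ Icc 1 ⌊y⌋₊, (c * uT m - uQ m) := by
          rw [sum_sub_distrib, ← mul_sum]
        rw [e3]
        refine (sum_le_sum fun m _ => (le_abs_self _).trans (hu m)).trans ?_
        simp [mul_comm]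
      have e3 : B * (⌊y⌋₊ : ℝ) ≤ B * y0 := by gcongr
      have : 0 ≤ ε * ST ⌊y⌋₊ := by positivity
      linarith
    · have e1 : (c - ε) * ST ⌊y⌋₊ ≤ SQ ⌊y⌋₊ := hy0 _ h
      have h4 : 0 ≤ B * (y0 : ℝ) := by positivity
      linarith
  have h5 : ε * ST ⌊y⌋₊ ≤ ε * PrR uT y + 3 * ε := by
    have : ST ⌊y⌋₊ ≤ PrR uT y + 3 := by linarith [h2.1]
    nlinarith
  have h6 := h1.2
  have h7 : c * ∑ m ∈ Icc 1 ⌊y⌋₊, uT m - ∑ m ∈ Icc 1 ⌊y⌋₊, uQ m = c * ST ⌊y⌋₊ - SQ ⌊y⌋₊ := rfl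
  linarith

/-- **one pair of functions, one-sided** -/
theorem low_fun (q : ℕ) (hq : 2 ≤ q) (uQ uT : ℕ → ℝ) (hQ0 : ∀ m, |uQ m| ≤ 1) (hT0 : ∀ m, 0 ≤ uT m)
    (hT1 : ∀ m, uT m ≤ 1) {c α η0 : ℝ} (hη0 : 0 < η0) (hα : 0 < α)
    (hs : ∀ u : ℕ → ℝ, u = uQ ∨ u = uT → ∀ᶠ N : ℕ in atTop, ∀ P : Polynomial ℤ, P.natDegree = q →
      0 < P.leadingCoeff → (∀ j, |((P.coeff j : ℤ) : ℝ)| ≤ (N : ℝ) ^ η0) → ∀ n1 n2 : ℕ, n1 ≤ n2 → n2 ≤ N →
      |∑ n ∈ Ioc n1 n2, u ⌊α * (P.map (Int.castRingHom ℝ)).eval (n : ℝ)⌋₊ -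
        ∫ x in (n1 : ℝ)..(n2 : ℝ), u ⌊α * (P.map (Int.castRingHom ℝ)).eval x⌋₊| ≤ (N : ℝ) ^ (1 - η0))
    (hbig : ∀ e : ℝ, 0 < e → ∀ᶠ N : ℕ in atTop, ∀ P : Polynomial ℝ, PH q ((N : ℝ) ^ (1 / 4 : ℝ)) P →
      (N : ℝ) ^ (1 - e) ≤ ∫ x in ((⌈(N : ℝ) ^ (1 / 2 : ℝ)⌉₊ : ℕ) : ℝ)..(N : ℝ), uT ⌊α * P.eval x⌋₊)
    (hcmp0 : ∀ ε : ℝ, 0 < ε → ∃ C : ℝ, 0 ≤ C ∧ ∀ y : ℝ, 0 ≤ y →
      PrR (fun m => c * uT m - uQ m) y ≤ ε * PrR uT y + C) {ε : ℝ} (hε : 0 < ε) :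
    ∀ᶠ N : ℕ in atTop, ∀ P : Polynomial ℤ, P.natDegree = q → 0 < P.leadingCoeff →
      (∀ j, |((P.coeff j : ℤ) : ℝ)| ≤ (N : ℝ) ^ (min η0 (1 / 4))) →
      (c - ε) * ∑ n ∈ Icc 1 N, uT ⌊α * (P.map (Int.castRingHom ℝ)).eval (n : ℝ)⌋₊ ≤
        ∑ n ∈ Icc 1 N, uQ ⌊α * (P.map (Int.castRingHom ℝ)).eval (n : ℝ)⌋₊ ∧
      (N : ℝ) ^ (1 - ε) ≤ ∑ n ∈ Icc 1 N, uT ⌊α * (P.map (Int.castRingHom ℝ)).eval (n : ℝ)⌋₊ := by
  classical
  have hq0 : (2 : ℝ) ≤ q := by exact_mod_cast hq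
  obtain ⟨C, hC, hcmp⟩ := hcmp0 (ε / 4) (by positivity)
  set e : ℝ := min (min ε η0) (1 / 2) / 2 with he
  have hep : 0 < e := by positivity
  have he1 : 2 * e ≤ ε := by
    rw [he]
    linarith [(min_le_left (min ε η0) (1 / 2)).trans (min_le_left ε η0)]
  have he2 : 2 * e ≤ η0 := by
    rw [he]
    linarith [(min_le_left (min ε η0) (1 / 2)).trans (min_le_right ε η0)]
  have he3 : 2 * e ≤ 1 / 2 := by
    rw [he]
    linarith [min_le_right (min ε η0) (1 / 2)]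
  set B : ℝ := 1 + |c| with hB
  have hB0 : 0 < B := by positivity
  filter_upwards [hbig e hep, hs uQ (Or.inl rfl), hs uT (Or.inr rfl), eventually_ge_atTop 1,
    pw (4 * q * q) 0 (show (0 : ℝ) < 1 / 4 by norm_num), pw 4 0 hep,
    pw (8 * (B * 8 + 2 * ε + 2 * C / α + 1) / ε) 0 hep] with N h1 h2 h3 hN1 h4 h5 h6
  intro P hdeg hlead hco
  rw [pow_zero, mul_one] at h4 h5 h6
  have hN0 : (0 : ℝ) < N := by exact_mod_cast hN1
  have hN1r : (1 : ℝ) ≤ N := by exact_mod_cast hN1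
  set R := P.map (Int.castRingHom ℝ) with hR
  have hco1 : ∀ j, |((P.coeff j : ℤ) : ℝ)| ≤ (N : ℝ) ^ η0 := fun j =>
    (hco j).trans (Real.rpow_le_rpow_of_exponent_le hN1r (min_le_left _ _))
  have hPH : PH q ((N : ℝ) ^ (1 / 4 : ℝ)) R := int_PH hdeg hlead fun j =>
    (hco j).trans (Real.rpow_le_rpow_of_exponent_le hN1r (min_le_right _ _))
  set H : ℝ := (N : ℝ) ^ (1 / 4 : ℝ) with hH
  have hH1 : 1 ≤ H := Real.one_le_rpow hN1r (by norm_num)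
  set s : ℝ := (N : ℝ) ^ (1 / 2 : ℝ) with hs'
  have hs1 : 1 ≤ s := Real.one_le_rpow hN1r (by norm_num)
  have hHs : H * H = s := by
    rw [hH, hs', ← Real.rpow_add hN0]
    norm_num
  have hss : s * s = N := by
    rw [hs', ← Real.rpow_add hN0]
    norm_num
  set n0 : ℕ := ⌈s⌉₊ with hn0
  have hn0l : s ≤ n0 := Nat.le_ceil _
  have hn0u : (n0 : ℝ) ≤ 2 * s := by
    have := (Nat.ceil_lt_add_one (show 0 ≤ s by linarith)).le
    linarith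
  have hqq : 4 * (q * q : ℝ) ≤ H := by linarith
  have h4q : 4 * (q * (q * H)) ≤ (n0 : ℝ) := by
    refine le_trans ?_ hn0l
    rw [← hHs]
    nlinarith
  have hs2 : 2 ≤ s := by nlinarith
  have hn0N : n0 ≤ N := by
    have h7 : (n0 : ℝ) ≤ N := by nlinarith
    exact_mod_cast h7
  have hNn0 : (n0 : ℝ) ≤ N := by exact_mod_cast hn0N
  have hI := h1 R hPH
  set IT : ℝ := ∫ x in (n0 : ℝ)..(N : ℝ), uT ⌊α * R.eval x⌋₊ with hIT
  set IQ : ℝ := ∫ x in (n0 : ℝ)..(N : ℝ), uQ ⌊α * R.eval x⌋₊ with hIQ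
  have hwB : ∀ m, |c * uT m - uQ m| ≤ B := fun m => by
    have e1 := hQ0 m
    have e2 : |c| * |uT m| ≤ |c| * 1 := by
      gcongr
      rw [abs_of_nonneg (hT0 m)]
      exact hT1 m
    calc |c * uT m - uQ m| ≤ |c * uT m| + |uQ m| := abs_sub _ _
      _ ≤ B := by rw [abs_mul, hB]; linarith
  have hcp := cmp_low hq hH1 hPH hα h4q hNn0 (fun m => c * uT m - uQ m) uT hT1 hB0.le hwB
    (show 0 ≤ ε / 4 by positivity) hC hcmp
  have hiQ := flcR_ii uQ hNn0 (show ContinuousOn (fun x => α * R.eval x) (Set.Icc (n0 : ℝ) N) by fun_prop)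
  have hiT := flcR_ii uT hNn0 (show ContinuousOn (fun x => α * R.eval x) (Set.Icc (n0 : ℝ) N) by fun_prop)
  rw [intervalIntegral.integral_sub (hiT.const_mul c) hiQ, intervalIntegral.integral_const_mul] at hcp
  have hsum : ∀ u : ℕ → ℝ, (∀ m, |u m| ≤ 1) → |∑ n ∈ Icc 1 N, u ⌊α * R.eval (n : ℝ)⌋₊ -
      ∑ n ∈ Ioc n0 N, u ⌊α * R.eval (n : ℝ)⌋₊| ≤ n0 := by
    intro u hu
    have e2 : ∑ n ∈ Icc 1 N, u ⌊α * R.eval (n : ℝ)⌋₊ = ∑ n ∈ Icc 1 n0, u ⌊α * R.eval (n : ℝ)⌋₊ +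
        ∑ n ∈ Ioc n0 N, u ⌊α * R.eval (n : ℝ)⌋₊ := by
      have e3 : Icc 1 N = Ioc 0 N := rfl
      have e4 : Icc 1 n0 = Ioc 0 n0 := rfl
      rw [e3, e4, sum_Ioc_consecutive _ (Nat.zero_le _) hn0N]
    rw [e2, add_sub_cancel_right]
    calc |∑ n ∈ Icc 1 n0, u ⌊α * R.eval (n : ℝ)⌋₊| ≤ ∑ n ∈ Icc 1 n0, |u ⌊α * R.eval (n : ℝ)⌋₊| := abs_sum_le_sum_abs _ _
      _ ≤ ∑ n ∈ Icc 1 n0, (1 : ℝ) := sum_le_sum fun _ _ => hu _
      _ = n0 := by simp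
  have g1 := abs_le.1 (hsum uQ hQ0)
  have g2 := abs_le.1 (hsum uT (fun m => by rw [abs_of_nonneg (hT0 m)]; exact hT1 m))
  have g3 := abs_le.1 (h2 P hdeg hlead hco1 n0 N hn0N le_rfl)
  have g4 := abs_le.1 (h3 P hdeg hlead hco1 n0 N hn0N le_rfl)
  rw [← hR, ← hIQ] at g3
  rw [← hR, ← hIT] at g4
  set SQ : ℝ := ∑ n ∈ Ioc n0 N, uQ ⌊α * R.eval (n : ℝ)⌋₊ with hSQ
  set ST : ℝ := ∑ n ∈ Ioc n0 N, uT ⌊α * R.eval (n : ℝ)⌋₊ with hST
  set CQ : ℝ := ∑ n ∈ Icc 1 N, uQ ⌊α * R.eval (n : ℝ)⌋₊ with hCQ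
  set CT : ℝ := ∑ n ∈ Icc 1 N, uT ⌊α * R.eval (n : ℝ)⌋₊ with hCT
  -- the small quantities
  set Y : ℝ := (N : ℝ) ^ (1 - 2 * e) with hY
  have hY0 : 0 < Y := by positivity
  have hY1 : 1 ≤ Y := Real.one_le_rpow hN1r (by linarith)
  have hsY : s ≤ Y := Real.rpow_le_rpow_of_exponent_le hN1r (by linarith)
  have hηY : (N : ℝ) ^ (1 - η0) ≤ Y := Real.rpow_le_rpow_of_exponent_le hN1r (by linarith)
  have hYI : 8 * (B * 8 + 2 * ε + 2 * C / α + 1) / ε * Y ≤ IT := by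
    refine le_trans ?_ hI
    have e1 : (N : ℝ) ^ (1 - e) = (N : ℝ) ^ e * Y := by
      rw [hY, ← Real.rpow_add hN0]
      congr 1
      ring
    rw [e1]
    gcongr
  have hCα : 0 ≤ 2 * C / α := by positivity
  have hYI2 : 8 * (B * 8 + 2 * ε + 2 * C / α + 1) * Y ≤ ε * IT := by
    have : 8 * (B * 8 + 2 * ε + 2 * C / α + 1) * Y = ε * (8 * (B * 8 + 2 * ε + 2 * C / α + 1) / ε * Y) := by
      field_simp
    rw [this]
    gcongr
  have hn0Y : (n0 : ℝ) ≤ 2 * Y := by linarith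
  have hCTl : IT - 3 * Y ≤ CT := by linarith [g2.1, g4.1]
  have hIT0 : 0 ≤ IT := intervalIntegral.integral_nonneg hNn0 fun _ _ => hT0 _
  constructor
  · have e3 : |(CQ - SQ) + (SQ - IQ)| ≤ 3 * Y := by
      rw [abs_le]
      constructor <;> linarith [g1.1, g1.2, g3.1, g3.2]
    have e4 : |(CT - ST) + (ST - IT)| ≤ 3 * Y := by
      rw [abs_le]
      constructor <;> linarith [g2.1, g2.2, g4.1, g4.2]
    have e1 : c * CT - CQ ≤ (ε / 4 * IT + (2 * (ε / 4 + B) * n0 + C / α)) + B * (3 * Y) := by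
      have e2 : c * CT - CQ = (c * IT - IQ) - ((CQ - SQ) + (SQ - IQ)) + c * ((CT - ST) + (ST - IT)) := by ring
      rw [e2]
      have e5 := (abs_le.1 e3).1
      have e6 : c * ((CT - ST) + (ST - IT)) ≤ |c| * (3 * Y) := by
        refine (le_abs_self _).trans ?_
        rw [abs_mul]
        gcongr
      have e7 : B * (3 * Y) = 3 * Y + |c| * (3 * Y) := by rw [hB]; ring
      linarith
    have e5 : C / α ≤ 2 * C / α * Y := by
      have h1 : 2 * C / α = C / α + C / α := by ring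
      have h2 : 0 ≤ C / α := by positivity
      have h3 : 2 * C / α ≤ 2 * C / α * Y := le_mul_of_one_le_right hCα hY1
      linarith
    have e6 : ε * n0 ≤ ε * (2 * Y) := by gcongr
    have e6' : B * n0 ≤ B * (2 * Y) := by gcongr
    have e7 : ε * (IT - 3 * Y) ≤ ε * CT := by gcongr
    have e8 : 0 ≤ ε * Y := by positivity
    have e9 : 0 ≤ B * Y := by positivity
    have e10 : 0 ≤ 2 * C / α * Y := by positivity
    have e12 : 8 * (B * 8 + 2 * ε + 2 * C / α + 1) * Y = 64 * (B * Y) + 16 * (ε * Y) + 8 * (2 * C / α * Y) + 8 * Y := by ring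
    have e13 : (ε / 4 * IT + (2 * (ε / 4 + B) * n0 + C / α)) + B * (3 * Y) =
      ε * IT / 4 + ε * n0 / 2 + 2 * (B * n0) + C / α + 3 * (B * Y) := by ring
    have e14 : ε * (IT - 3 * Y) = ε * IT - 3 * (ε * Y) := by ring
    have e11 : c * CT - CQ ≤ ε * CT := by
      refine e1.trans (le_trans ?_ e7)
      rw [e13, e14]
      linarith
    linarith
  · have e1 : (N : ℝ) ^ (1 - ε) ≤ Y := Real.rpow_le_rpow_of_exponent_le hN1r (by linarith)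
    have e3 : 4 * Y ≤ (N : ℝ) ^ (1 - e) := by
      have e1 : (N : ℝ) ^ (1 - e) = (N : ℝ) ^ e * Y := by
        rw [hY, ← Real.rpow_add hN0]
        congr 1
        ring
      rw [e1]
      gcongr
    linarith

/-- **lower bounds for relative densities, sets of integers** -/
theorem low_sgn {ι : Type} [Countable ι] (q : ℕ) (hq : 2 ≤ q) (Q T : ι → ℤ → Prop) (h0 : ∀ i, ¬ Q i 0 ∧ ¬ T i 0) :
    ∃ E : Set ℝ, dimH E ≤ ENNReal.ofReal (q / (q + kp q)) ∧ ∀ α : ℝ, 0 < α → α ∉ E → ∀ i, ∃ η : ℝ, 0 < η ∧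
      ∀ c : ℝ, (∀ e : ℝ, 0 < e → ∀ᶠ y : ℕ in atTop, (y : ℝ) ^ (1 - e) ≤ nz (T i) y) →
        (∀ δ : ℝ, 0 < δ → ∀ᶠ y : ℕ in atTop, (c - δ) * nz (T i) y ≤ nz (Q i) y) →
        ∀ ε : ℝ, 0 < ε → ∀ᶠ N : ℕ in atTop, ∀ P : Polynomial ℤ, P.natDegree = q →
        0 < P.leadingCoeff → (∀ j, |((P.coeff j : ℤ) : ℝ)| ≤ (N : ℝ) ^ η) →
        (c - ε) * cnS (T i) α P N ≤ (cnS (Q i) α P N : ℝ) ∧ (N : ℝ) ^ (1 - ε) ≤ cnS (T i) α P N := by
  have hQ1 := fun i : ι => sample_fun q hq (hz (Q i)) (fun m => by rw [abs_of_nonneg (hz_nonneg _ _)]; exact hz_le _ _)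
  have hT1 := fun i : ι => sample_fun q hq (hz (T i)) (fun m => by rw [abs_of_nonneg (hz_nonneg _ _)]; exact hz_le _ _)
  choose E hE hgood using hQ1
  choose E' hE' hgood' using hT1
  refine ⟨(⋃ i, E i) ∪ ⋃ i, E' i, ?_, fun α hα hαE i => ?_⟩
  · rw [dimH_union, dimH_iUnion, dimH_iUnion]
    exact max_le (iSup_le hE) (iSup_le hE')
  have hα1 : α ∉ E i := fun h => hαE (Or.inl (Set.mem_iUnion.2 ⟨i, h⟩))
  have hα2 : α ∉ E' i := fun h => hαE (Or.inr (Set.mem_iUnion.2 ⟨i, h⟩))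
  obtain ⟨η1, hη1, h1⟩ := hgood i α hα hα1
  obtain ⟨η2, hη2, h2⟩ := hgood' i α hα hα2
  set η0 : ℝ := min η1 η2 with hη0
  have hη0p : 0 < η0 := by positivity
  have hq0 : (2 : ℝ) ≤ q := by exact_mod_cast hq
  have h1' : ∀ᶠ N : ℕ in atTop, ∀ P : Polynomial ℤ, P.natDegree = q →
      0 < P.leadingCoeff → (∀ j, |((P.coeff j : ℤ) : ℝ)| ≤ (N : ℝ) ^ η0) → ∀ n1 n2 : ℕ, n1 ≤ n2 → n2 ≤ N →
      |∑ n ∈ Ioc n1 n2, hz (Q i) ⌊α * (P.map (Int.castRingHom ℝ)).eval (n : ℝ)⌋₊ -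
        ∫ x in (n1 : ℝ)..(n2 : ℝ), hz (Q i) ⌊α * (P.map (Int.castRingHom ℝ)).eval x⌋₊| ≤ (N : ℝ) ^ (1 - η0) := by
    filter_upwards [h1, eventually_ge_atTop 1] with N hN hN1
    intro P hdeg hlead hco n1 n2 h12 h2N
    have hN1r : (1 : ℝ) ≤ N := by exact_mod_cast hN1
    exact (hN P hdeg hlead (fun j => (hco j).trans (Real.rpow_le_rpow_of_exponent_le hN1r (min_le_left _ _)))
      n1 n2 h12 h2N).trans (Real.rpow_le_rpow_of_exponent_le hN1r (by linarith [min_le_left η1 η2]))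
  have h2' : ∀ᶠ N : ℕ in atTop, ∀ P : Polynomial ℤ, P.natDegree = q →
      0 < P.leadingCoeff → (∀ j, |((P.coeff j : ℤ) : ℝ)| ≤ (N : ℝ) ^ η0) → ∀ n1 n2 : ℕ, n1 ≤ n2 → n2 ≤ N →
      |∑ n ∈ Ioc n1 n2, hz (T i) ⌊α * (P.map (Int.castRingHom ℝ)).eval (n : ℝ)⌋₊ -
        ∫ x in (n1 : ℝ)..(n2 : ℝ), hz (T i) ⌊α * (P.map (Int.castRingHom ℝ)).eval x⌋₊| ≤ (N : ℝ) ^ (1 - η0) := by
    filter_upwards [h2, eventually_ge_atTop 1] with N hN hN1
    intro P hdeg hlead hco n1 n2 h12 h2N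
    have hN1r : (1 : ℝ) ≤ N := by exact_mod_cast hN1
    exact (hN P hdeg hlead (fun j => (hco j).trans (Real.rpow_le_rpow_of_exponent_le hN1r (min_le_right _ _)))
      n1 n2 h12 h2N).trans (Real.rpow_le_rpow_of_exponent_le hN1r (by linarith [min_le_right η1 η2]))
  refine ⟨min η0 (1 / 4), by positivity, fun c hTb hQb ε hε => ?_⟩
  · have hpos : ∀ᶠ y : ℕ in atTop, 0 < nz (T i) y := by
      filter_upwards [hTb (1 / 2) (by norm_num), eventually_ge_atTop 1] with y g1 g2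
      have : (0 : ℝ) < y := by exact_mod_cast g2
      exact lt_of_lt_of_le (by positivity) g1
    have hbig : ∀ e : ℝ, 0 < e → ∀ᶠ N : ℕ in atTop, ∀ P : Polynomial ℝ, PH q ((N : ℝ) ^ (1 / 4 : ℝ)) P →
        (N : ℝ) ^ (1 - e) ≤ ∫ x in ((⌈(N : ℝ) ^ (1 / 2 : ℝ)⌉₊ : ℕ) : ℝ)..(N : ℝ), hz (T i) ⌊α * P.eval x⌋₊ := by
      intro e he
      have g1 := int_big q hq (fun m : ℕ => T i m ∨ T i (-(m : ℤ))) hα (fun η hη => by
        filter_upwards [hTb (η / 2) (by positivity), pw 2 0 (show 0 < η / 2 by positivity), eventually_ge_atTop 1] with y g1 g2 g3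
        rw [pow_zero, mul_one] at g2
        have hy0 : (0 : ℝ) < y := by exact_mod_cast g3
        refine le_trans ?_ (cn_nz (T i) (h0 i).2 y)
        have e1 : (y : ℝ) ^ (1 - η / 2) = (y : ℝ) ^ (η / 2) * (y : ℝ) ^ (1 - η) := by
          rw [← Real.rpow_add hy0]
          congr 1
          ring
        have e2 : 2 * (y : ℝ) ^ (1 - η) ≤ (y : ℝ) ^ (η / 2) * (y : ℝ) ^ (1 - η) := by gcongr
        linarith) (ε := e / 2) (by positivity)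
      filter_upwards [g1, pw 2 0 (show 0 < e / 2 by positivity), eventually_ge_atTop 2,
        pw 4 0 (show (0 : ℝ) < 1 / 2 by norm_num)] with N g2 g3 g4 g5
      intro P hP
      rw [pow_zero, mul_one] at g3 g5
      have hN0 : (0 : ℝ) < N := by exact_mod_cast (by omega : 0 < N)
      have e1 : (N : ℝ) ^ (1 - e / 2) = (N : ℝ) ^ (e / 2) * (N : ℝ) ^ (1 - e) := by
        rw [← Real.rpow_add hN0]
        congr 1
        ring
      have e2 : 2 * (N : ℝ) ^ (1 - e) ≤ (N : ℝ) ^ (e / 2) * (N : ℝ) ^ (1 - e) := by gcongr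
      have e3 := g2 P hP
      have hle : ((⌈(N : ℝ) ^ (1 / 2 : ℝ)⌉₊ : ℕ) : ℝ) ≤ N := by
        have e4 : (N : ℝ) ^ (1 / 2 : ℝ) ≤ N := by
          conv_rhs => rw [← Real.rpow_one (N : ℝ)]
          apply Real.rpow_le_rpow_of_exponent_le (by exact_mod_cast (by omega : 1 ≤ N)) (by norm_num)
        exact_mod_cast Nat.ceil_le.2 e4
      have e5 := hz_int (T i) (α := α) hle P
      linarith
    have key := low_fun q hq (hz (Q i)) (hz (T i)) (fun m => by rw [abs_of_nonneg (hz_nonneg _ _)]; exact hz_le _ _)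
      (hz_nonneg _) (hz_le _) (c := c) hη0p hα (fun u hu => by
        rcases hu with rfl | rfl
        · exact h1'
        · exact h2') hbig (fun ε hε => low_cmp (hz (Q i)) (hz (T i))
          (fun m => by rw [abs_of_nonneg (hz_nonneg _ _)]; exact hz_le _ _) (hz_nonneg _) (hz_le _) (fun δ hδ => by
            filter_upwards [hQb δ hδ] with y hy
            rw [hz_sum _ (h0 i).2, hz_sum _ (h0 i).1]
            linarith) hε) (ε := ε) hε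
    filter_upwards [key, eventually_ge_atTop 1] with N hN hN1
    intro P hdeg hlead hco
    obtain ⟨k1, k2⟩ := hN P hdeg hlead hco
    rw [cnS_hz, cnS_hz]
    set SQ := ∑ n ∈ Icc 1 N, hz (Q i) ⌊α * (P.map (Int.castRingHom ℝ)).eval (n : ℝ)⌋₊
    set ST := ∑ n ∈ Icc 1 N, hz (T i) ⌊α * (P.map (Int.castRingHom ℝ)).eval (n : ℝ)⌋₊
    have hST : 0 ≤ ST := sum_nonneg fun _ _ => hz_nonneg _ _
    constructor
    · linarith
    · linarith

/-- **lower bounds for relative densities, for one sign** -/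
theorem low_one_sign {ι : Type} [Countable ι] (q : ℕ) (hq : 2 ≤ q) (Q T : ι → ℤ → Prop)
    (h0 : ∀ i, ¬ Q i 0 ∧ ¬ T i 0) :
    ∃ E : Set ℝ, dimH E ≤ ENNReal.ofReal (q / (q + kp q)) ∧ ∀ α : ℝ, 0 < α → α ∉ E → ∀ i (s : ℤ), (s = 1 ∨ s = -1) →
      ∃ η : ℝ, 0 < η ∧ ∀ c : ℝ, (∀ e : ℝ, 0 < e → ∀ᶠ y : ℕ in atTop, (y : ℝ) ^ (1 - e) ≤ nz (fun D => 0 < s * D ∧ T i D) y) →
        (∀ δ : ℝ, 0 < δ → ∀ᶠ y : ℕ in atTop,
          (c - δ) * nz (fun D => 0 < s * D ∧ T i D) y ≤ nz (fun D => 0 < s * D ∧ Q i D) y) →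
        ∀ ε : ℝ, 0 < ε → ∀ᶠ N : ℕ in atTop, ∀ P : Polynomial ℤ, P.natDegree = q →
        0 < P.leadingCoeff → (∀ j, |((P.coeff j : ℤ) : ℝ)| ≤ (N : ℝ) ^ η) →
        (c - ε) * cnS (fun D => 0 < s * D ∧ T i D) α P N ≤ (cnS (fun D => 0 < s * D ∧ Q i D) α P N : ℝ) ∧
          (N : ℝ) ^ (1 - ε) ≤ cnS (fun D => 0 < s * D ∧ T i D) α P N := by
  obtain ⟨E, hE, h⟩ := low_sgn (ι := ι × Bool) q hq
    (fun i D => 0 < (if i.2 then 1 else -1) * D ∧ Q i.1 D) (fun i D => 0 < (if i.2 then 1 else -1) * D ∧ T i.1 D)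
    (fun i => ⟨fun h => (h0 i.1).1 h.2, fun h => (h0 i.1).2 h.2⟩)
  refine ⟨E, hE, fun α hα hαE i s hs => ?_⟩
  rcases hs with rfl | rfl
  · obtain ⟨η, hη, h1⟩ := h α hα hαE (i, true)
    exact ⟨η, hη, fun c g1 g2 => h1 c g1 g2⟩
  · obtain ⟨η, hη, h1⟩ := h α hα hαE (i, false)
    exact ⟨η, hη, fun c g1 g2 => h1 c g1 g2⟩

end Pool.Agent.Q138.PS
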