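import Pool.Agent.Q138.PS.TY

/-!
# One-sided relative densities along `⌊α P(n)⌋`, sets of natural numbers
-/

set_option autoImplicit false

namespace Pool.Agent.Q138.PS

open Finset Filter Topology

/-- **lower bounds for relative densities, sets of natural numbers** -/
theorem low_nat {ι : Type} [Countable ι] (q : ℕ) (hq : 2 ≤ q) (Q T : ι → ℕ → Prop) (c : ι → ℝ)
    (hT : ∀ i, ∀ η : ℝ, 0 < η → ∀ᶠ y : ℕ in atTop, (y : ℝ) ^ (1 - η) ≤ cn (T i) y)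
    (hQ : ∀ i, ∀ δ : ℝ, 0 < δ → ∀ᶠ y : ℕ in atTop, (c i - δ) * cn (T i) y ≤ cn (Q i) y) :
    ∃ E : Set ℝ, dimH E ≤ ENNReal.ofReal (q / (q + kp q)) ∧ ∀ α : ℝ, 0 < α → α ∉ E → ∀ i, ∃ η : ℝ, 0 < η ∧
      ∀ ε : ℝ, 0 < ε → ∀ᶠ N : ℕ in atTop, ∀ P : Polynomial ℤ, P.natDegree = q →
      0 < P.leadingCoeff → (∀ j, |((P.coeff j : ℤ) : ℝ)| ≤ (N : ℝ) ^ η) →
      (c i - ε) * cnP (T i) α P N ≤ cnP (Q i) α P N ∧ (N : ℝ) ^ (1 - ε) ≤ cnP (T i) α P N := by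
  classical
  have h := fun i : ι => sample_ind q hq (Q i)
  have h' := fun i : ι => sample_ind q hq (T i)
  choose E hE hgood using h
  choose E' hE' hgood' using h'
  refine ⟨(⋃ i, E i) ∪ ⋃ i, E' i, ?_, fun α hα hαE i => ?_⟩
  · rw [dimH_union, dimH_iUnion, dimH_iUnion]
    exact max_le (iSup_le hE) (iSup_le hE')
  have hα1 : α ∉ E i := fun h => hαE (Or.inl (Set.mem_iUnion.2 ⟨i, h⟩))
  have hα2 : α ∉ E' i := fun h => hαE (Or.inr (Set.mem_iUnion.2 ⟨i, h⟩))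
  obtain ⟨η1, hη1, h1⟩ := hgood i α hα hα1
  obtain ⟨η2, hη2, h2⟩ := hgood' i α hα hα2
  set η0 : ℝ := min η1 η2 with hη0
  have hη0p : 0 < η0 := by positivity
  have h1' : ∀ᶠ N : ℕ in atTop, ∀ P : Polynomial ℤ, P.natDegree = q →
      0 < P.leadingCoeff → (∀ j, |((P.coeff j : ℤ) : ℝ)| ≤ (N : ℝ) ^ η0) → ∀ n1 n2 : ℕ, n1 ≤ n2 → n2 ≤ N →
      |∑ n ∈ Ioc n1 n2, ind (Q i) ⌊α * (P.map (Int.castRingHom ℝ)).eval (n : ℝ)⌋₊ -
        ∫ x in (n1 : ℝ)..(n2 : ℝ), ind (Q i) ⌊α * (P.map (Int.castRingHom ℝ)).eval x⌋₊| ≤ (N : ℝ) ^ (1 - η0) := by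
    filter_upwards [h1, eventually_ge_atTop 1] with N hN hN1
    intro P hdeg hlead hco n1 n2 h12 h2N
    have hN1r : (1 : ℝ) ≤ N := by exact_mod_cast hN1
    exact (hN P hdeg hlead (fun j => (hco j).trans (Real.rpow_le_rpow_of_exponent_le hN1r (min_le_left _ _)))
      n1 n2 h12 h2N).trans (Real.rpow_le_rpow_of_exponent_le hN1r (by linarith [min_le_left η1 η2]))
  have h2' : ∀ᶠ N : ℕ in atTop, ∀ P : Polynomial ℤ, P.natDegree = q →
      0 < P.leadingCoeff → (∀ j, |((P.coeff j : ℤ) : ℝ)| ≤ (N : ℝ) ^ η0) → ∀ n1 n2 : ℕ, n1 ≤ n2 → n2 ≤ N →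
      |∑ n ∈ Ioc n1 n2, ind (T i) ⌊α * (P.map (Int.castRingHom ℝ)).eval (n : ℝ)⌋₊ -
        ∫ x in (n1 : ℝ)..(n2 : ℝ), ind (T i) ⌊α * (P.map (Int.castRingHom ℝ)).eval x⌋₊| ≤ (N : ℝ) ^ (1 - η0) := by
    filter_upwards [h2, eventually_ge_atTop 1] with N hN hN1
    intro P hdeg hlead hco n1 n2 h12 h2N
    have hN1r : (1 : ℝ) ≤ N := by exact_mod_cast hN1
    exact (hN P hdeg hlead (fun j => (hco j).trans (Real.rpow_le_rpow_of_exponent_le hN1r (min_le_right _ _)))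
      n1 n2 h12 h2N).trans (Real.rpow_le_rpow_of_exponent_le hN1r (by linarith [min_le_right η1 η2]))
  refine ⟨min η0 (1 / 4), by positivity, fun ε hε => ?_⟩
  have hi0 : ∀ (X : ℕ → Prop) (m : ℕ), 0 ≤ ind X m := fun X m => by
    rw [ind_eq]
    split_ifs <;> norm_num
  have hi1 : ∀ (X : ℕ → Prop) (m : ℕ), ind X m ≤ 1 := fun X m => by
    rw [ind_eq]
    split_ifs <;> norm_num
  have key := low_fun q hq (ind (Q i)) (ind (T i)) (fun m => by rw [abs_of_nonneg (hi0 _ _)]; exact hi1 _ _)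
    (hi0 _) (hi1 _) (c := c i) hη0p hα (fun u hu => by
      rcases hu with rfl | rfl
      · exact h1'
      · exact h2') (fun e he => int_big q hq (T i) hα (fun η hη => hT i η hη) he)
      (fun ε hε => low_cmp (ind (Q i)) (ind (T i))
        (fun m => by rw [abs_of_nonneg (hi0 _ _)]; exact hi1 _ _) (hi0 _) (hi1 _) (fun δ hδ => by
          filter_upwards [hQ i δ hδ] with y hy
          rw [cn_sum, cn_sum]
          exact hy) hε) (ε := ε) hε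
  filter_upwards [key] with N hN
  intro P hdeg hlead hco
  obtain ⟨k1, k2⟩ := hN P hdeg hlead hco
  have e : ∀ X : ℕ → Prop, ∑ n ∈ Icc 1 N, ind X ⌊α * (P.map (Int.castRingHom ℝ)).eval (n : ℝ)⌋₊ = cnP X α P N := by
    intro X
    rw [cnP_eq, ← cn_sum]
    rfl
  rw [e, e] at k1
  rw [e] at k2
  exact ⟨k1, k2⟩

/-- **upper bounds for upper densities** -/
theorem dens_nat {ι : Type} [Countable ι] (q : ℕ) (hq : 2 ≤ q) (X : ι → ℕ → Prop) (c : ι → ℝ)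
    (hX : ∀ i, ∀ δ : ℝ, 0 < δ → ∀ᶠ y : ℕ in atTop, cn (X i) y ≤ (c i + δ) * y) :
    ∃ E : Set ℝ, dimH E ≤ ENNReal.ofReal (q / (q + kp q)) ∧ ∀ α : ℝ, 0 < α → α ∉ E → ∀ i, ∃ η : ℝ, 0 < η ∧
      ∀ ε : ℝ, 0 < ε → ∀ᶠ N : ℕ in atTop, ∀ P : Polynomial ℤ, P.natDegree = q →
      0 < P.leadingCoeff → (∀ j, |((P.coeff j : ℤ) : ℝ)| ≤ (N : ℝ) ^ η) →
      cnP (X i) α P N ≤ (c i + ε) * N := by
  classical
  have hc : ∀ (Y : ℕ → Prop) (y : ℕ), cn Y y + cn (fun m => ¬ Y m) y = y := by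
    intro Y y
    rw [← cn_sum, ← cn_sum, ← sum_add_distrib]
    have h1 : ∀ m ∈ Icc 1 y, ind Y m + ind (fun m => ¬ Y m) m = 1 := by
      intro m _
      rw [ind_eq, ind_eq]
      by_cases h : Y m <;> simp [h]
    rw [sum_congr rfl h1]
    simp
  obtain ⟨E, hE, h⟩ := low_nat q hq (fun i m => ¬ X i m) (fun _ _ => True) (fun i => 1 - c i) (fun _ => cn_true_big)
    (fun i δ hδ => by
      filter_upwards [hX i δ hδ] with y hy
      have h1 := hc (X i) y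
      rw [cn_true]
      have h2 : (1 - c i - δ) * (y : ℝ) = y - (c i + δ) * y := by ring
      linarith)
  refine ⟨E, hE, fun α hα hαE i => ?_⟩
  obtain ⟨η, hη, h1⟩ := h α hα hαE i
  refine ⟨η, hη, fun ε hε => ?_⟩
  filter_upwards [h1 ε hε] with N hN
  intro P hdeg hlead hco
  have h2 := (hN P hdeg hlead hco).1
  have h3 : cnP (fun _ => True) α P N = N := cn_true N
  have h4 : cnP (X i) α P N + cnP (fun m => ¬ X i m) α P N = N := hc _ N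
  rw [h3] at h2
  have h5 : (1 - c i - ε) * (N : ℝ) = N - (c i + ε) * N := by ring
  linarith

end Pool.Agent.Q138.PS
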