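import Pool.Agent.Q138.PS.UB

/-!
# Limit laws along `⌊α P(n)⌋`, uniformly in a real parameter and for all unions of classes
-/

set_option autoImplicit false

namespace Pool.Agent.Q138.PS

open Finset Filter Topology

/-- `X` has the natural density `c` -/
def Dn (X : ℕ → Prop) (c : ℝ) : Prop := Tendsto (fun y : ℕ => cn X y / y) atTop (𝓝 c)

theorem cn_ncard (X : ℕ → Prop) (N : ℕ) : cn X N = ({n : ℕ | 1 ≤ n ∧ n ≤ N ∧ X n}.ncard : ℝ) := by
  classical
  unfold cn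
  rw [← Set.ncard_coe_finset]
  congr 2
  ext n
  simp [and_assoc]

theorem dn_of {X : ℕ → Prop} {c : ℝ}
    (h : Tendsto (fun N : ℕ => ({n : ℕ | 1 ≤ n ∧ n ≤ N ∧ X n}.ncard : ℝ) / N) atTop (𝓝 c)) : Dn X c := by
  unfold Dn
  simp only [cn_ncard]
  exact h

theorem cn_mono {X Y : ℕ → Prop} (h : ∀ n, X n → Y n) (N : ℕ) : cn X N ≤ cn Y N := by
  classical
  rw [cn_ncard, cn_ncard]
  refine Nat.cast_le.2 (Set.ncard_le_ncard ?_ ((Set.finite_Iic N).subset fun n hn => hn.2.1))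
  rintro n ⟨h1, h2, h3⟩
  exact ⟨h1, h2, h n h3⟩

theorem cnP_mono {X Y : ℕ → Prop} (h : ∀ n, X n → Y n) (α : ℝ) (P : Polynomial ℤ) (N : ℕ) :
    cnP X α P N ≤ cnP Y α P N := cn_mono (fun _ => h _) N

theorem cnP_nonneg (X : ℕ → Prop) (α : ℝ) (P : Polynomial ℤ) (N : ℕ) : 0 ≤ cnP X α P N := cn_nonneg _ _

/-- **densities along the sequences, countable families** -/
theorem law_nat {ι : Type} [Countable ι] (q : ℕ) (hq : 2 ≤ q) (X : ι → ℕ → Prop) (c : ι → ℝ) (hX : ∀ i, Dn (X i) (c i)) :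
    ∃ E : Set ℝ, dimH E ≤ ENNReal.ofReal (q / (q + kp q)) ∧ ∀ α : ℝ, 0 < α → α ∉ E → ∀ i, ∃ η : ℝ, 0 < η ∧
      ∀ ε : ℝ, 0 < ε → ∀ᶠ N : ℕ in atTop, ∀ P : Polynomial ℤ, P.natDegree = q →
      0 < P.leadingCoeff → (∀ j, |((P.coeff j : ℤ) : ℝ)| ≤ (N : ℝ) ^ η) → |cnP (X i) α P N - c i * N| ≤ ε * N := by
  obtain ⟨E, hE, h⟩ := ratio_transfer q hq X (fun _ _ => True) c (fun _ => cn_true_big) (fun i => by
    simp only [cn_true]
    exact hX i)
  refine ⟨E, hE, fun α hα hαE i => ?_⟩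
  obtain ⟨η, hη, h1⟩ := h α hα hαE i
  refine ⟨η, hη, fun ε hε => ?_⟩
  filter_upwards [h1 ε hε] with N hN
  intro P hdeg hlead hco
  have h2 := (hN P hdeg hlead hco).1
  have h3 : cnP (fun _ => True) α P N = N := cn_true N
  rwa [h3] at h2

/-- **limit laws along the sequences, uniformly in the real parameter** -/
theorem law_unif {ι : Type} [Countable ι] (q : ℕ) (hq : 2 ≤ q) (X : ι → ℝ → ℕ → Prop) (Y : ι → ℕ → Prop)
    (F : ι → ℝ → ℝ) (G : ι → ℝ) (hmono : ∀ i (x x' : ℝ) n, x ≤ x' → X i x n → X i x' n)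
    (hY : ∀ i x n, X i x n → Y i n) (hFc : ∀ i, Continuous (F i)) (hFm : ∀ i, Monotone (F i))
    (hbot : ∀ i, Tendsto (F i) atBot (𝓝 0)) (htop : ∀ i, Tendsto (F i) atTop (𝓝 (G i)))
    (hX : ∀ i x, Dn (X i x) (F i x)) (hYd : ∀ i, Dn (Y i) (G i)) :
    ∃ E : Set ℝ, dimH E ≤ ENNReal.ofReal (q / (q + kp q)) ∧ ∀ α : ℝ, 0 < α → α ∉ E → ∀ i, ∀ ε : ℝ, 0 < ε →
      ∃ η : ℝ, 0 < η ∧ ∀ᶠ N : ℕ in atTop, ∀ P : Polynomial ℤ, P.natDegree = q →
      0 < P.leadingCoeff → (∀ j, |((P.coeff j : ℤ) : ℝ)| ≤ (N : ℝ) ^ η) →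
      (∀ x : ℝ, |cnP (X i x) α P N - F i x * N| ≤ ε * N) ∧ |cnP (Y i) α P N - G i * N| ≤ ε * N := by
  classical
  obtain ⟨E1, hE1, h1⟩ := law_nat (ι := ι × ℚ) q hq (fun k => X k.1 k.2) (fun k => F k.1 k.2) (fun k => hX k.1 k.2)
  obtain ⟨E2, hE2, h2⟩ := law_nat q hq Y G hYd
  refine ⟨E1 ∪ E2, ?_, fun α hα hαE i ε hε => ?_⟩
  · rw [dimH_union]
    exact max_le hE1 hE2
  have hα1 : α ∉ E1 := fun h => hαE (Or.inl h)
  have hα2 : α ∉ E2 := fun h => hαE (Or.inr h)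
  -- the grid
  have hF0 : ∀ x, 0 ≤ F i x := fun x => (hFm i).le_of_tendsto (hbot i) x
  have hFG : ∀ x, F i x ≤ G i := fun x => (hFm i).ge_of_tendsto (htop i) x
  obtain ⟨A1, hA1⟩ := eventually_atBot.1 ((hbot i).eventually (gt_mem_nhds (show (0 : ℝ) < ε / 4 by positivity)))
  obtain ⟨A2, hA2⟩ := eventually_atTop.1 ((htop i).eventually (lt_mem_nhds (show G i - ε / 4 < G i by linarith)))
  obtain ⟨A, hA⟩ := exists_nat_ge (max (-A1) A2)
  have hAb : F i (-(A : ℝ)) < ε / 4 := hA1 _ (by linarith [le_max_left (-A1) A2])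
  have hAt : G i - ε / 4 < F i (A : ℝ) := hA2 _ (by linarith [le_max_right (-A1) A2])
  have huc : UniformContinuousOn (F i) (Set.Icc (-(A : ℝ) - 1) (A + 1)) :=
    isCompact_Icc.uniformContinuousOn_of_continuous (hFc i).continuousOn
  rw [Metric.uniformContinuousOn_iff] at huc
  obtain ⟨d, hd, hud⟩ := huc (ε / 4) (by positivity)
  obtain ⟨M', hM'⟩ := exists_nat_one_div_lt hd
  set M : ℕ := M' + 1 with hM
  have hM0 : (0 : ℝ) < M := by
    rw [hM]
    positivity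
  have hM1 : (1 : ℝ) / M < d := by
    rw [hM]
    push_cast
    exact hM'
  have hM2 : (1 : ℝ) / M ≤ 1 := by
    rw [div_le_one hM0, hM]
    push_cast
    linarith [Nat.cast_nonneg (α := ℝ) M']
  set pts : Finset ℤ := Finset.Icc (-((A * M : ℕ) : ℤ)) ((A * M : ℕ) : ℤ) with hpts
  -- the parameters
  have hpt : ∀ j : ℤ, ∃ η : ℝ, 0 < η ∧ ∀ᶠ N : ℕ in atTop, ∀ P : Polynomial ℤ, P.natDegree = q →
      0 < P.leadingCoeff → (∀ j, |((P.coeff j : ℤ) : ℝ)| ≤ (N : ℝ) ^ η) →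
      |cnP (X i ((j : ℝ) / M)) α P N - F i ((j : ℝ) / M) * N| ≤ ε / 4 * N := by
    intro j
    obtain ⟨η, hη, h⟩ := h1 α hα hα1 (i, (j : ℚ) / M)
    refine ⟨η, hη, ?_⟩
    have h3 := h (ε / 4) (by positivity)
    push_cast at h3
    exact h3
  choose ηj hηj hj using hpt
  obtain ⟨ηY, hηY, hYN⟩ := h2 α hα hα2 i
  obtain ⟨η, hη, hηle⟩ : ∃ η : ℝ, 0 < η ∧ ∀ j ∈ pts, η ≤ ηj j := by
    have hne : pts.Nonempty := ⟨0, by rw [hpts, Finset.mem_Icc]; constructor <;> omega⟩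
    refine ⟨pts.inf' hne ηj, ?_, fun j hj => Finset.inf'_le _ hj⟩
    rw [Finset.lt_inf'_iff]
    exact fun j _ => hηj j
  refine ⟨min η ηY, by positivity, ?_⟩
  have hall : ∀ᶠ N : ℕ in atTop, ∀ j ∈ pts, ∀ P : Polynomial ℤ, P.natDegree = q →
      0 < P.leadingCoeff → (∀ j', |((P.coeff j' : ℤ) : ℝ)| ≤ (N : ℝ) ^ (ηj j)) →
      |cnP (X i ((j : ℝ) / M)) α P N - F i ((j : ℝ) / M) * N| ≤ ε / 4 * N := by
    rw [Filter.eventually_all_finset]
    exact fun j _ => hj j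
  filter_upwards [hall, hYN (ε / 4) (by positivity), eventually_ge_atTop 1] with N hN1 hN2 hN3
  intro P hdeg hlead hco
  have hN1r : (1 : ℝ) ≤ N := by exact_mod_cast hN3
  have hN0 : (0 : ℝ) < N := by linarith
  have hYb := hN2 P hdeg hlead (fun j => (hco j).trans (Real.rpow_le_rpow_of_exponent_le hN1r (min_le_right _ _)))
  have hXb : ∀ j ∈ pts, |cnP (X i ((j : ℝ) / M)) α P N - F i ((j : ℝ) / M) * N| ≤ ε / 4 * N := fun j hj' =>
    hN1 j hj' P hdeg hlead (fun j' => (hco j').trans (Real.rpow_le_rpow_of_exponent_le hN1r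
      ((min_le_left _ _).trans (hηle j hj'))))
  have hεN : 0 < ε * N := by positivity
  have hends : ((((A * M : ℕ) : ℤ) : ℝ)) / M = A := by
    push_cast
    field_simp
  have hends' : (((-((A * M : ℕ) : ℤ) : ℤ) : ℝ)) / M = -(A : ℝ) := by
    push_cast
    field_simp
  have htopX := hXb ((A * M : ℕ) : ℤ) (by rw [hpts, Finset.mem_Icc]; constructor <;> omega)
  have hbotX := hXb (-((A * M : ℕ) : ℤ)) (by rw [hpts, Finset.mem_Icc]; constructor <;> omega)
  rw [hends] at htopX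
  rw [hends'] at hbotX
  refine ⟨fun x => ?_, hYb.trans (by nlinarith)⟩
  rw [abs_le] at htopX hbotX hYb ⊢
  rcases lt_or_ge x (-(A : ℝ)) with hx | hx
  · have e1 := cnP_mono (hmono i x (-(A : ℝ)) · hx.le) α P N
    have e2 := hFm i hx.le
    have e3 := cnP_nonneg (X i x) α P N
    have e4 : F i x * N ≤ ε / 4 * N := by nlinarith
    have e5 : F i (-(A : ℝ)) * N ≤ ε / 4 * N := by nlinarith
    have e6 : 0 ≤ F i x * N := mul_nonneg (hF0 x) hN0.le
    constructor <;> linarith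
  rcases le_or_gt (A : ℝ) x with hx' | hx'
  · have e1 := cnP_mono (hmono i A x · hx') α P N
    have e2 := hFm i hx'
    have e3 := cnP_mono (hY i x) α P N
    have e4 : (G i - F i x) * N ≤ ε / 4 * N := by nlinarith
    have e5 : (G i - F i A) * N ≤ ε / 4 * N := by nlinarith
    have e6 : F i x * N ≤ G i * N := by
      have := hFG x
      gcongr
    constructor <;> linarith
  -- the main range
  set j : ℤ := ⌊x * M⌋ with hjd
  have hj1 : (j : ℝ) ≤ x * M := Int.floor_le _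
  have hj2 : x * M < (j : ℝ) + 1 := Int.lt_floor_add_one _
  have hj3 : (j : ℝ) / M ≤ x := by rwa [div_le_iff₀ hM0]
  have hj4 : x ≤ ((j + 1 : ℤ) : ℝ) / M := by
    rw [le_div_iff₀ hM0]
    push_cast
    exact hj2.le
  have hj5 : j ∈ pts := by
    rw [hpts, Finset.mem_Icc]
    constructor
    · rw [hjd, Int.le_floor]
      push_cast
      nlinarith
    · have : (j : ℝ) ≤ ((A * M : ℕ) : ℤ) := by
        push_cast
        nlinarith
      exact_mod_cast this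
  have hj6 : j + 1 ∈ pts := by
    rw [hpts, Finset.mem_Icc]
    rw [hpts, Finset.mem_Icc] at hj5
    refine ⟨by omega, ?_⟩
    have : (j : ℝ) < ((A * M : ℕ) : ℤ) := by
      push_cast
      nlinarith
    have h8 : j < ((A * M : ℕ) : ℤ) := by exact_mod_cast this
    omega
  have g1 := hXb j hj5
  have g2 := hXb (j + 1) hj6
  rw [abs_le] at g1 g2
  have hjm : (j : ℝ) / M = ((j + 1 : ℤ) : ℝ) / M - 1 / M := by
    push_cast
    ring
  have hinc : F i (((j + 1 : ℤ) : ℝ) / M) - F i ((j : ℝ) / M) < ε / 4 := by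
    have h9 := hud ((j : ℝ) / M) (by
      constructor
      · rw [hjm]
        linarith
      · linarith) (((j + 1 : ℤ) : ℝ) / M) (by
      constructor
      · linarith
      · have : ((j + 1 : ℤ) : ℝ) / M = (j : ℝ) / M + 1 / M := by rw [hjm]; ring
        rw [this]
        linarith) (by
      rw [Real.dist_eq, hjm]
      have : ((j + 1 : ℤ) : ℝ) / M - 1 / M - ((j + 1 : ℤ) : ℝ) / M = -(1 / M) := by ring
      rw [this, abs_neg, abs_of_pos (by positivity)]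
      exact hM1)
    rw [Real.dist_eq] at h9
    have := (abs_lt.1 h9).1
    linarith
  have e1 := cnP_mono (hmono i ((j : ℝ) / M) x · hj3) α P N
  have e2 := cnP_mono (hmono i x (((j + 1 : ℤ) : ℝ) / M) · hj4) α P N
  have e3 := hFm i hj3
  have e4 := hFm i hj4
  have e5 : (F i (((j + 1 : ℤ) : ℝ) / M) - F i ((j : ℝ) / M)) * N ≤ ε / 4 * N := by gcongr
  have e6 : F i ((j : ℝ) / M) * N ≤ F i x * N := by gcongr
  have e7 : F i x * N ≤ F i (((j + 1 : ℤ) : ℝ) / M) * N := by gcongr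
  constructor <;> linarith

/-- **all unions of countably many classes at once** -/
theorem law_union (q : ℕ) (hq : 2 ≤ q) (cls : ℕ → ℕ) (c : ℕ → ℝ) (hc0 : ∀ j, 0 ≤ c j) (hc1 : HasSum c 1)
    (hX : ∀ j, Dn (fun n => cls n = j) (c j)) :
    ∃ E : Set ℝ, dimH E ≤ ENNReal.ofReal (q / (q + kp q)) ∧ ∀ α : ℝ, 0 < α → α ∉ E → ∀ ε : ℝ, 0 < ε →
      ∃ η : ℝ, 0 < η ∧ ∀ᶠ N : ℕ in atTop, ∀ P : Polynomial ℤ, P.natDegree = q →
      0 < P.leadingCoeff → (∀ j, |((P.coeff j : ℤ) : ℝ)| ≤ (N : ℝ) ^ η) →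
      ∀ J : Set ℕ, |cnP (fun n => cls n ∈ J) α P N - (∑' j, J.indicator c j) * N| ≤ ε * N := by
  classical
  obtain ⟨E, hE, h⟩ := law_nat q hq (fun j n => cls n = j) c hX
  refine ⟨E, hE, fun α hα hαE ε hε => ?_⟩
  have hsum : Summable c := hc1.summable
  obtain ⟨F, hF⟩ : ∃ F : Finset ℕ, 1 - ε / 4 < ∑ j ∈ F, c j := by
    have := hc1.eventually (lt_mem_nhds (show 1 - ε / 4 < 1 by linarith))
    exact this.exists
  have hch := h α hα hαE
  choose ηj hηj hj using hch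
  set δ : ℝ := ε / (4 * ((F.card : ℝ) + 1)) with hδ
  have hδ0 : 0 < δ := by positivity
  have hδF : F.card * δ ≤ ε / 4 := by
    rw [hδ]
    have h1 : (0 : ℝ) ≤ F.card := Nat.cast_nonneg _
    rw [mul_div_assoc', div_le_div_iff₀ (by positivity) (by norm_num)]
    nlinarith
  obtain ⟨η, hη, hηle⟩ : ∃ η : ℝ, 0 < η ∧ ∀ j ∈ F, η ≤ ηj j := by
    rcases F.eq_empty_or_nonempty with h0 | hne
    · exact ⟨1, one_pos, fun j hj => by rw [h0] at hj; exact absurd hj (Finset.notMem_empty _)⟩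
    · refine ⟨F.inf' hne ηj, ?_, fun j hj => Finset.inf'_le _ hj⟩
      rw [Finset.lt_inf'_iff]
      exact fun j _ => hηj j
  refine ⟨η, hη, ?_⟩
  have hall : ∀ᶠ N : ℕ in atTop, ∀ j ∈ F, ∀ P : Polynomial ℤ, P.natDegree = q →
      0 < P.leadingCoeff → (∀ j', |((P.coeff j' : ℤ) : ℝ)| ≤ (N : ℝ) ^ (ηj j)) →
      |cnP (fun n => cls n = j) α P N - c j * N| ≤ δ * N := by
    rw [Filter.eventually_all_finset]
    exact fun j _ => hj j δ hδ0
  filter_upwards [hall, eventually_ge_atTop 1] with N hN1 hN3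
  intro P hdeg hlead hco J
  have hN1r : (1 : ℝ) ≤ N := by exact_mod_cast hN3
  have hN0 : (0 : ℝ) < N := by linarith
  have hb : ∀ j ∈ F, |cnP (fun n => cls n = j) α P N - c j * N| ≤ δ * N := fun j hj' =>
    hN1 j hj' P hdeg hlead (fun j' => (hco j').trans (Real.rpow_le_rpow_of_exponent_le hN1r (hηle j hj')))
  -- finite additivity
  have hadd : ∀ S : Finset ℕ, cnP (fun n => cls n ∈ S) α P N = ∑ j ∈ S, cnP (fun n => cls n = j) α P N := by
    intro S
    unfold cnP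
    simp only [← cn_sum]
    rw [Finset.sum_comm]
    refine sum_congr rfl fun n _ => ?_
    rw [ind_eq]
    split_ifs with h1
    · rw [Finset.sum_eq_single_of_mem _ h1]
      · rw [ind_eq, if_pos rfl]
      · intro b _ hb'
        rw [ind_eq, if_neg (Ne.symm hb')]
    · rw [Finset.sum_eq_zero]
      intro b hb'
      rw [ind_eq, if_neg]
      intro h2
      exact h1 (by rw [h2]; exact hb')
  have htot : ∀ (A B : ℕ → Prop), (∀ n, A n → ¬ B n) → cnP A α P N + cnP B α P N ≤ N := by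
    intro A B hAB
    unfold cnP
    rw [← cn_sum, ← cn_sum, ← sum_add_distrib]
    calc _ ≤ ∑ n ∈ Icc 1 N, (1 : ℝ) := by
          refine sum_le_sum fun n _ => ?_
          rw [ind_eq, ind_eq]
          split_ifs with h1 h2
          · exact absurd h2 (hAB _ h1)
          · norm_num
          · norm_num
          · norm_num
      _ = N := by simp
  have hspl : ∀ (A B C : ℕ → Prop), (∀ n, A n → B n ∨ C n) → cnP A α P N ≤ cnP B α P N + cnP C α P N := by
    intro A B C hABC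
    unfold cnP
    rw [← cn_sum, ← cn_sum, ← cn_sum, ← sum_add_distrib]
    refine sum_le_sum fun n _ => ?_
    have i0 : ∀ (Z : ℕ → Prop) (m : ℕ), 0 ≤ ind Z m := fun Z m => by
      rw [ind_eq]
      split_ifs <;> norm_num
    rcases em (A ⌊α * ((P.eval (n : ℤ) : ℤ) : ℝ)⌋₊) with h1 | h1
    · have hA1 : ind (fun n : ℕ => A ⌊α * ((P.eval (n : ℤ) : ℤ) : ℝ)⌋₊) n = 1 := by rw [ind_eq, if_pos h1]
      rw [hA1]
      rcases hABC _ h1 with h2 | h2
      · have hB1 : ind (fun n : ℕ => B ⌊α * ((P.eval (n : ℤ) : ℤ) : ℝ)⌋₊) n = 1 := by rw [ind_eq, if_pos h2]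
        rw [hB1]
        linarith [i0 (fun n : ℕ => C ⌊α * ((P.eval (n : ℤ) : ℤ) : ℝ)⌋₊) n]
      · have hC1 : ind (fun n : ℕ => C ⌊α * ((P.eval (n : ℤ) : ℤ) : ℝ)⌋₊) n = 1 := by rw [ind_eq, if_pos h2]
        rw [hC1]
        linarith [i0 (fun n : ℕ => B ⌊α * ((P.eval (n : ℤ) : ℤ) : ℝ)⌋₊) n]
    · have hA0 : ind (fun n : ℕ => A ⌊α * ((P.eval (n : ℤ) : ℤ) : ℝ)⌋₊) n = 0 := by rw [ind_eq, if_neg h1]
      rw [hA0]
      exact add_nonneg (i0 _ _) (i0 _ _)
  -- the part outside `F`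
  set FJ : Finset ℕ := F.filter (· ∈ J) with hFJ
  have hFsum : |∑ j ∈ F, cnP (fun n => cls n = j) α P N - (∑ j ∈ F, c j) * N| ≤ ε / 4 * N := by
    rw [sum_mul, ← sum_sub_distrib]
    refine (abs_sum_le_sum_abs _ _).trans ((sum_le_sum hb).trans ?_)
    rw [sum_const, nsmul_eq_mul, ← mul_assoc]
    gcongr
  have hFJsum : |∑ j ∈ FJ, cnP (fun n => cls n = j) α P N - (∑ j ∈ FJ, c j) * N| ≤ ε / 4 * N := by
    rw [sum_mul, ← sum_sub_distrib]
    refine (abs_sum_le_sum_abs _ _).trans ((sum_le_sum fun j hj' => hb j (mem_of_mem_filter j hj')).trans ?_)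
    rw [sum_const, nsmul_eq_mul, ← mul_assoc]
    have : (FJ.card : ℝ) ≤ F.card := by exact_mod_cast card_filter_le _ _
    have h5 : (FJ.card : ℝ) * δ ≤ F.card * δ := by gcongr
    have h6 : (FJ.card : ℝ) * δ ≤ ε / 4 := h5.trans hδF
    gcongr
  have hout : cnP (fun n => cls n ∉ F) α P N ≤ ε / 2 * N := by
    have h1 := htot (fun n => cls n ∈ F) (fun n => cls n ∉ F) (fun n h => not_not.2 h)
    rw [hadd] at h1
    have h2 := (abs_le.1 hFsum).1
    have h3 : (1 - ε / 4) * N ≤ (∑ j ∈ F, c j) * N := by gcongr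
    linarith
  have hJ0 : ∀ j, 0 ≤ J.indicator c j := fun j => Set.indicator_nonneg (fun j _ => hc0 j) j
  have hJle : ∀ j, J.indicator c j ≤ c j := fun j => by
    rcases em (j ∈ J) with h1 | h1
    · rw [Set.indicator_of_mem h1]
    · rw [Set.indicator_of_notMem h1]
      exact hc0 j
  have hJs : Summable (J.indicator c) := Summable.of_nonneg_of_le hJ0 hJle hsum
  have hFJc : ∑ j ∈ FJ, c j = ∑ j ∈ F, J.indicator c j := by
    rw [hFJ, sum_filter]
    refine sum_congr rfl fun j _ => ?_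
    split_ifs with h1
    · rw [Set.indicator_of_mem h1]
    · rw [Set.indicator_of_notMem h1]
  have hlow : ∑ j ∈ FJ, c j ≤ ∑' j, J.indicator c j := by
    rw [hFJc]
    exact hJs.sum_le_tsum F (fun j _ => hJ0 j)
  have hupp : ∑' j, J.indicator c j ≤ ∑ j ∈ FJ, c j + ε / 4 := by
    rw [hFJc]
    have e1 : ∑' j, J.indicator c j - ∑ j ∈ F, J.indicator c j ≤ ∑' j, c j - ∑ j ∈ F, c j := by
      have h1 : ∑' j, (c j - J.indicator c j) = ∑' j, c j - ∑' j, J.indicator c j := hsum.tsum_sub hJs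
      have h2 : ∑ j ∈ F, (c j - J.indicator c j) ≤ ∑' j, (c j - J.indicator c j) :=
        (hsum.sub hJs).sum_le_tsum F (fun j _ => by linarith [hJle j])
      rw [h1, sum_sub_distrib] at h2
      linarith
    rw [hc1.tsum_eq] at e1
    linarith
  have h1 : cnP (fun n => cls n ∈ FJ) α P N ≤ cnP (fun n => cls n ∈ J) α P N :=
    cnP_mono (fun n hn => (mem_filter.1 hn).2) α P N
  have h2 : cnP (fun n => cls n ∈ J) α P N ≤ cnP (fun n => cls n ∈ FJ) α P N + cnP (fun n => cls n ∉ F) α P N :=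
    hspl _ _ _ fun n hn => by
      rcases em (cls n ∈ F) with h3 | h3
      · exact Or.inl (mem_filter.2 ⟨h3, hn⟩)
      · exact Or.inr h3
  rw [hadd] at h1 h2
  have g := abs_le.1 hFJsum
  have e1 : (∑ j ∈ FJ, c j) * N ≤ (∑' j, J.indicator c j) * N := by gcongr
  have e2 : (∑' j, J.indicator c j) * N ≤ (∑ j ∈ FJ, c j) * N + ε / 4 * N := by
    have : (∑' j, J.indicator c j) * N ≤ (∑ j ∈ FJ, c j + ε / 4) * N := by gcongr
    linarith
  rw [abs_le]
  constructor <;> linarith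

end Pool.Agent.Q138.PS
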