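import Pool.Agent.Q138.PS.UC

/-!
# Limit laws along `⌊α P(n)⌋` with a real parameter
-/

set_option autoImplicit false

namespace Pool.Agent.Q138.PS

open Finset Filter Topology

/-- the proportion of the `n ≤ N` with `X ⌊α P(n)⌋` tends to `c`, uniformly in `P` of degree `q` with coefficients of size at
most `N ^ η` -/
def Along (q : ℕ) (α : ℝ) (X : ℕ → Prop) (c : ℝ) : Prop :=
  ∀ ε : ℝ, 0 < ε → ∃ η : ℝ, 0 < η ∧ ∀ᶠ N : ℕ in atTop, ∀ P : Polynomial ℤ, P.natDegree = q →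
      0 < P.leadingCoeff → (∀ j, |((P.coeff j : ℤ) : ℝ)| ≤ (N : ℝ) ^ η) → |cnP X α P N - c * N| ≤ ε * N

theorem along_nat {ι : Type} [Countable ι] (q : ℕ) (hq : 2 ≤ q) (X : ι → ℕ → Prop) (c : ι → ℝ)
    (hX : ∀ i, Dn (X i) (c i)) :
    ∃ E : Set ℝ, dimH E ≤ ENNReal.ofReal (q / (q + kp q)) ∧ ∀ α : ℝ, 0 < α → α ∉ E → ∀ i, Along q α (X i) (c i) := by
  obtain ⟨E, hE, h⟩ := law_nat q hq X c hX
  refine ⟨E, hE, fun α hα hαE i ε hε => ?_⟩
  obtain ⟨η, hη, h1⟩ := h α hα hαE i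
  exact ⟨η, hη, h1 ε hε⟩

/-- **limit laws with a real parameter** -/
theorem along_real {ι : Type} [Countable ι] (q : ℕ) (hq : 2 ≤ q) (X : ι → ℝ → ℕ → Prop) (F : ι → ℝ → ℝ)
    (hmono : ∀ i (x x' : ℝ) n, x ≤ x' → X i x n → X i x' n) (hFc : ∀ i, Continuous (F i))
    (hX : ∀ i x, Dn (X i x) (F i x)) :
    ∃ E : Set ℝ, dimH E ≤ ENNReal.ofReal (q / (q + kp q)) ∧ ∀ α : ℝ, 0 < α → α ∉ E →
      ∀ i (x : ℝ), Along q α (X i x) (F i x) := by
  obtain ⟨E, hE, h⟩ := law_nat (ι := ι × ℚ) q hq (fun k => X k.1 k.2) (fun k => F k.1 k.2) (fun k => hX k.1 k.2)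
  refine ⟨E, hE, fun α hα hαE i x ε hε => ?_⟩
  obtain ⟨d, hd, hcon⟩ := Metric.continuousAt_iff.1 (hFc i).continuousAt (ε / 2) (by positivity)
  obtain ⟨r1, hr1, hr1'⟩ := exists_rat_btwn (show x - d < x by linarith)
  obtain ⟨r2, hr2, hr2'⟩ := exists_rat_btwn (show x < x + d by linarith)
  have c1 : |F i r1 - F i x| < ε / 2 := by
    have := hcon (x := (r1 : ℝ)) (by rw [Real.dist_eq, abs_lt]; constructor <;> linarith)
    rwa [Real.dist_eq] at this
  have c2 : |F i r2 - F i x| < ε / 2 := by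
    have := hcon (x := (r2 : ℝ)) (by rw [Real.dist_eq, abs_lt]; constructor <;> linarith)
    rwa [Real.dist_eq] at this
  obtain ⟨η1, hη1, h1⟩ := h α hα hαE (i, r1)
  obtain ⟨η2, hη2, h2⟩ := h α hα hαE (i, r2)
  refine ⟨min η1 η2, by positivity, ?_⟩
  filter_upwards [h1 (ε / 2) (by positivity), h2 (ε / 2) (by positivity), eventually_ge_atTop 1] with N hN1 hN2 hN3
  intro P hdeg hlead hco
  have hN1r : (1 : ℝ) ≤ N := by exact_mod_cast hN3
  have g1 := hN1 P hdeg hlead (fun j => (hco j).trans (Real.rpow_le_rpow_of_exponent_le hN1r (min_le_left _ _)))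
  have g2 := hN2 P hdeg hlead (fun j => (hco j).trans (Real.rpow_le_rpow_of_exponent_le hN1r (min_le_right _ _)))
  have e1 := cnP_mono (hmono i r1 x · hr1'.le) α P N
  have e2 := cnP_mono (hmono i x r2 · hr2.le) α P N
  rw [abs_lt] at c1 c2
  rw [abs_le] at g1 g2 ⊢
  have e3 : (F i x - F i r1) * N ≤ ε / 2 * N := by
    gcongr
    linarith
  have e4 : (F i r2 - F i x) * N ≤ ε / 2 * N := by
    gcongr
    linarith
  constructor <;> linarith

end Pool.Agent.Q138.PS
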