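import Pool.Agent.Q138.PS.UD
import Pool.Agent.Q138.PS.TW

/-!
# Sets that are small in comparison with the primes
-/

set_option autoImplicit false

namespace Pool.Agent.Q138.PS

open Finset Filter Topology

theorem cn_prime (y : ℕ) : cn Nat.Prime y = Nat.primeCounting y := by
  classical
  unfold cn
  rw [Nat.primeCounting, Nat.primeCounting', Nat.count_eq_card_filter_range]
  congr 1
  congr 1
  ext n
  simp only [mem_filter, mem_Icc, mem_range]
  constructor
  · rintro ⟨h1, h2⟩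
    exact ⟨by omega, h2⟩
  · rintro ⟨h1, h2⟩
    have := h2.two_le
    exact ⟨by omega, h2⟩

theorem cn_prime_ge : ∀ᶠ y : ℕ in atTop, (y : ℝ) / (4 * Real.log y) ≤ cn Nat.Prime y := by
  have h1 : ∀ᶠ y : ℕ in atTop, Real.log ((y : ℝ) + 1) ≤ (1 / 4) * y := by
    have h2 := (Real.isLittleO_log_id_atTop.bound (show (0 : ℝ) < 1 / 8 by norm_num))
    have h3 : Tendsto (fun y : ℕ => (y : ℝ) + 1) atTop atTop :=
      tendsto_atTop_add_const_right _ _ tendsto_natCast_atTop_atTop
    filter_upwards [h3.eventually h2, eventually_ge_atTop 1] with y hy hy1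
    have hy1r : (1 : ℝ) ≤ y := by exact_mod_cast hy1
    rw [Real.norm_eq_abs, Real.norm_eq_abs, abs_of_nonneg (Real.log_nonneg (by linarith)), id,
      abs_of_nonneg (by linarith)] at hy
    linarith
  filter_upwards [h1, eventually_ge_atTop 3] with y hy hy3
  rw [cn_prime]
  have hy3r : (3 : ℝ) ≤ y := by exact_mod_cast hy3
  have hlog : 0 < Real.log y := Real.log_pos (by linarith)
  refine le_trans ?_ (Chebyshev.pi_ge y)
  rw [div_le_div_iff₀ (by positivity) hlog]
  have h2 := Real.log_two_gt_d9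
  have h4 : (1 / 4 : ℝ) * y ≤ y * Real.log 2 - Real.log (y + 1) := by nlinarith
  nlinarith

theorem prime_big (η : ℝ) (hη : 0 < η) : ∀ᶠ y : ℕ in atTop, (y : ℝ) ^ (1 - η) ≤ cn Nat.Prime y := by
  have h2 := ((isLittleO_log_rpow_atTop hη).bound (show (0 : ℝ) < 1 / 4 by norm_num))
  filter_upwards [cn_prime_ge, tendsto_natCast_atTop_atTop.eventually h2, eventually_ge_atTop 3] with y hy hl hy3
  have hy3r : (3 : ℝ) ≤ y := by exact_mod_cast hy3
  have hlog : 0 < Real.log y := Real.log_pos (by linarith)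
  rw [Real.norm_eq_abs, Real.norm_eq_abs, abs_of_pos hlog, abs_of_nonneg (by positivity)] at hl
  refine le_trans ?_ hy
  rw [le_div_iff₀ (by positivity)]
  calc (y : ℝ) ^ (1 - η) * (4 * Real.log y) ≤ (y : ℝ) ^ (1 - η) * (4 * (1 / 4 * (y : ℝ) ^ η)) := by gcongr
    _ = y := by
      rw [show (4 : ℝ) * (1 / 4 * (y : ℝ) ^ η) = (y : ℝ) ^ η by ring, ← Real.rpow_add (by linarith)]
      norm_num

/-- sets with `o (y / log y)` elements up to `y` are small in comparison with the primes -/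
theorem prime_ratio (X : ℕ → Prop) (h : Tendsto (fun y : ℕ => cn X y * Real.log y / y) atTop (𝓝 0)) :
    Tendsto (fun y : ℕ => cn X y / cn Nat.Prime y) atTop (𝓝 0) := by
  have h0 : Tendsto (fun y : ℕ => 4 * (cn X y * Real.log y / y)) atTop (𝓝 0) := by simpa using h.const_mul 4
  refine squeeze_zero' (Eventually.of_forall fun y => div_nonneg (cn_nonneg _ _) (cn_nonneg _ _)) ?_ h0
  filter_upwards [cn_prime_ge, eventually_ge_atTop 3] with y hy hy3
  have hy3r : (3 : ℝ) ≤ y := by exact_mod_cast hy3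
  have hlog : 0 < Real.log y := Real.log_pos (by linarith)
  have hpos : 0 < cn Nat.Prime y := lt_of_lt_of_le (by positivity) hy
  rw [div_le_iff₀ hpos]
  calc cn X y = 4 * (cn X y * Real.log y / y) * (y / (4 * Real.log y)) := by field_simp
    _ ≤ 4 * (cn X y * Real.log y / y) * cn Nat.Prime y := by
      have := cn_nonneg X y
      gcongr

/-- **sets that are small in comparison with the primes, along `⌊α P(n)⌋`** -/
theorem prime_small {ι : Type} [Countable ι] (q : ℕ) (hq : 2 ≤ q) (X : ι → ℕ → Prop)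
    (hX : ∀ i, Tendsto (fun y : ℕ => cn (X i) y * Real.log y / y) atTop (𝓝 0)) :
    ∃ E : Set ℝ, dimH E ≤ ENNReal.ofReal (q / (q + kp q)) ∧ ∀ α : ℝ, 0 < α → α ∉ E → ∀ i, ∃ η : ℝ, 0 < η ∧
      ∀ ε : ℝ, 0 < ε → ∀ᶠ N : ℕ in atTop, ∀ P : Polynomial ℤ, P.natDegree = q →
      0 < P.leadingCoeff → (∀ j, |((P.coeff j : ℤ) : ℝ)| ≤ (N : ℝ) ^ η) →
      cnP (X i) α P N ≤ ε * cnP Nat.Prime α P N ∧ (N : ℝ) ^ (1 - ε) ≤ cnP Nat.Prime α P N := by
  obtain ⟨E, hE, h⟩ := ratio_transfer q hq X (fun _ => Nat.Prime) (fun _ => 0) (fun _ => prime_big)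
    (fun i => prime_ratio _ (hX i))
  refine ⟨E, hE, fun α hα hαE i => ?_⟩
  obtain ⟨η, hη, h1⟩ := h α hα hαE i
  refine ⟨η, hη, fun ε hε => ?_⟩
  filter_upwards [h1 ε hε] with N hN
  intro P hdeg hlead hco
  obtain ⟨h2, h3⟩ := hN P hdeg hlead hco
  rw [zero_mul, sub_zero] at h2
  exact ⟨(le_abs_self _).trans h2, h3⟩

end Pool.Agent.Q138.PS
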