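import Pool.Agent.Q138.PS.UE

/-!
# Convenient forms of the transfer of sparse sets
-/

set_option autoImplicit false

namespace Pool.Agent.Q138.PS

open Finset Filter Topology

/-- **sets with `O (y (log y) ^ (ε - a))` elements up to `y`, for all `ε > 0`, along `⌊α P(n)⌋`** -/
theorem exc_log {ι : Type} [Countable ι] (q : ℕ) (hq : 2 ≤ q) (X : ι → ℕ → Prop) :
    ∃ E : Set ℝ, dimH E ≤ ENNReal.ofReal (q / (q + kp q)) ∧ ∀ α : ℝ, 0 < α → α ∉ E → ∀ (i : ι) (a : ℝ), 0 < a →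
      (∀ ε : ℝ, 0 < ε → ∃ C : ℝ, ∀ Y : ℕ, 3 ≤ Y → cn (X i) Y ≤ C * Y * (Real.log Y) ^ (ε - a)) →
      ∀ ε : ℝ, 0 < ε → ∃ η : ℝ, 0 < η ∧ ∀ᶠ N : ℕ in atTop, ∀ P : Polynomial ℤ, P.natDegree = q →
      0 < P.leadingCoeff → (∀ j, |((P.coeff j : ℤ) : ℝ)| ≤ (N : ℝ) ^ η) →
      cnP (X i) α P N ≤ N * (Real.log N) ^ (ε - a) := by
  obtain ⟨E, hE, h⟩ := exc_nat q hq X
  refine ⟨E, hE, fun α hα hαE i a ha hC ε hε => ?_⟩
  obtain ⟨η, hη, -, h3, -⟩ := h α hα hαE i
  refine ⟨η, hη, ?_⟩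
  set e : ℝ := min (ε / 2) (a / 2) with he
  have he0 : 0 < e := by positivity
  have he1 : e < a := (min_le_right _ _).trans_lt (by linarith)
  have he2 : e < ε := (min_le_left _ _).trans_lt (by linarith)
  obtain ⟨C, hC⟩ := hC e he0
  have h4 := h3 (a - e) C (by linarith) (fun Y hY => by
    rw [show -(a - e) = e - a by ring]
    exact hC Y hY)
  have h5 : Tendsto (fun N : ℕ => (Real.log N) ^ (-(ε - e))) atTop (𝓝 0) :=
    (tendsto_rpow_neg_atTop (by linarith)).comp (Real.tendsto_log_atTop.comp tendsto_natCast_atTop_atTop)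
  set A : ℝ := 5 * (|C| * 2 ^ (a - e)) + 1 with hA
  have hA0 : 0 < A := by positivity
  filter_upwards [h4, h5.eventually (gt_mem_nhds (show (0 : ℝ) < 1 / A by positivity)), eventually_ge_atTop 3]
    with N hN hN5 hN3 P hdeg hlead hco
  refine (hN P hdeg hlead hco).trans ?_
  have hN3r : (3 : ℝ) ≤ N := by exact_mod_cast hN3
  have hlog : 0 < Real.log N := Real.log_pos (by linarith)
  have h6 : (Real.log N) ^ (-(a - e)) = (Real.log N) ^ (ε - a) * (Real.log N) ^ (-(ε - e)) := by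
    rw [← Real.rpow_add hlog]
    congr 1
    ring
  rw [h6]
  calc A * N * ((Real.log N) ^ (ε - a) * (Real.log N) ^ (-(ε - e))) =
      (A * (Real.log N) ^ (-(ε - e))) * (N * (Real.log N) ^ (ε - a)) := by ring
    _ ≤ (A * (1 / A)) * (N * (Real.log N) ^ (ε - a)) := by
      have : 0 ≤ (Real.log N) ^ (ε - a) := by positivity
      gcongr
    _ = N * (Real.log N) ^ (ε - a) := by
      rw [mul_one_div_cancel hA0.ne', one_mul]

/-- density zero in terms of `ncard` -/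
theorem zero_of (X : ℕ → Prop)
    (h : Tendsto (fun N : ℕ => ({v : ℕ | v ≤ N ∧ X v}.ncard : ℝ) / N) atTop (𝓝 0)) :
    Tendsto (fun y : ℕ => cn X y / y) atTop (𝓝 0) := by
  refine squeeze_zero (fun y => div_nonneg (cn_nonneg _ _) (Nat.cast_nonneg _)) (fun y => ?_) h
  rw [cn_ncard]
  have : ({n : ℕ | 1 ≤ n ∧ n ≤ y ∧ X n}.ncard : ℝ) ≤ {v : ℕ | v ≤ y ∧ X v}.ncard :=
    Nat.cast_le.2 (Set.ncard_le_ncard (fun n hn => ⟨hn.2.1, hn.2.2⟩) ((Set.finite_Iic y).subset fun n hn => hn.1))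
  gcongr

/-- density zero in terms of `range` -/
theorem zero_of_range (X : ℕ → Prop) [DecidablePred X]
    (h : Tendsto (fun N : ℕ => (((range N).filter X).card : ℝ) / N) atTop (𝓝 0)) :
    Tendsto (fun y : ℕ => cn X y / y) atTop (𝓝 0) := by
  have h1 : Tendsto (fun N : ℕ => (((range N).filter X).card : ℝ) / N + 1 / (N : ℝ)) atTop (𝓝 0) := by
    simpa using h.add tendsto_one_div_atTop_nhds_zero_nat
  refine squeeze_zero (fun y => div_nonneg (cn_nonneg _ _) (Nat.cast_nonneg _)) (fun y => ?_) h1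
  rw [← add_div]
  have h2 : cn X y ≤ (((range y).filter X).card : ℝ) + 1 := by
    rw [cn_ncard]
    have h3 : {n : ℕ | 1 ≤ n ∧ n ≤ y ∧ X n}.ncard ≤ (insert y ((range y).filter X)).card := by
      rw [← Set.ncard_coe_finset]
      refine Set.ncard_le_ncard ?_ (Finset.finite_toSet _)
      rintro n ⟨-, h4, h5⟩
      rw [mem_coe, mem_insert, mem_filter, mem_range]
      rcases eq_or_lt_of_le h4 with h6 | h6
      · exact Or.inl h6
      · exact Or.inr ⟨h6, h5⟩
    have h4 := h3.trans (card_insert_le _ _)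
    exact_mod_cast h4
  gcongr

end Pool.Agent.Q138.PS
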