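import Pool.Agent.Q138.PS.UF

/-!
# Tails of a family of sets along `⌊α P(n)⌋`, uniform in the parameter
-/

set_option autoImplicit false

namespace Pool.Agent.Q138.PS

open Finset Filter Topology

/-- **transfer of power tails, uniform in the parameter** -/
theorem tail_nat {ι : Type} [Countable ι] (q : ℕ) (hq : 2 ≤ q) (X : ι → ℕ → ℕ → Prop) :
    ∃ E : Set ℝ, dimH E ≤ ENNReal.ofReal (q / (q + kp q)) ∧ ∀ α : ℝ, 0 < α → α ∉ E → ∀ i, ∀ c C : ℝ, 0 < c → 0 ≤ C →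
      (∀ Y y : ℕ, 1 ≤ Y → 1 ≤ y → cn (X i y) Y ≤ C * Y / (y : ℝ) ^ c) →
      ∃ η : ℝ, 0 < η ∧ ∀ᶠ N : ℕ in atTop, ∀ P : Polynomial ℤ, P.natDegree = q →
        0 < P.leadingCoeff → (∀ j, |((P.coeff j : ℤ) : ℝ)| ≤ (N : ℝ) ^ η) → ∀ y : ℕ, 1 ≤ y → (y : ℝ) ≤ (N : ℝ) ^ η →
        cnP (X i y) α P N ≤ (5 * C + 1) * N / (y : ℝ) ^ c := by
  classical
  have hs := fun i : ι => abs_transfer q hq (ι := ℕ) (fun y => ind (X i y)) (fun y d => by
    rw [abs_of_nonneg (ind_nonneg _ _)]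
    exact ind_le _ _) 1 zero_le_one (fun η N => Icc 1 ⌊(N : ℝ) ^ η⌋₊) (fun η hη a b hab => by
      refine Finset.Icc_subset_Icc le_rfl (Nat.floor_le_floor ?_)
      exact Real.rpow_le_rpow (Nat.cast_nonneg _) (by exact_mod_cast hab) hη.le)
    (fun η _ => by
      filter_upwards with N
      rw [Nat.card_Icc, Nat.add_sub_cancel, one_mul]
      exact Nat.floor_le (by positivity))
  choose E hE hg using hs
  refine ⟨⋃ i, E i, ?_, fun α hα hαE i c C hc hC hX => ?_⟩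
  · rw [dimH_iUnion]
    exact iSup_le hE
  obtain ⟨η, hη, hη4, h1⟩ := hg i α hα fun h => hαE (Set.mem_iUnion.2 ⟨i, h⟩)
  refine ⟨min η (η / (c + 1)), by positivity, ?_⟩
  filter_upwards [h1, eventually_ge_atTop 1] with N g1 hN1
  intro P hdeg hlead hco y hy1 hyN
  have hN0 : (0 : ℝ) < N := by exact_mod_cast hN1
  have hN1r : (1 : ℝ) ≤ N := by exact_mod_cast hN1
  have hy0 : (0 : ℝ) < y := by exact_mod_cast hy1
  have hmem : y ∈ Icc 1 ⌊(N : ℝ) ^ η⌋₊ := by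
    rw [mem_Icc]
    refine ⟨hy1, Nat.le_floor (hyN.trans ?_)⟩
    exact Real.rpow_le_rpow_of_exponent_le hN1r (min_le_left _ _)
  have h3 := g1 y hmem P hdeg hlead
    (fun j => (hco j).trans (Real.rpow_le_rpow_of_exponent_le hN1r (min_le_left _ _))) (C / (y : ℝ) ^ c) 0 (by positivity) le_rfl
    (fun Y _ => by
      rw [cn_sum, abs_of_nonneg (cn_nonneg _ _), add_zero]
      rcases Nat.eq_zero_or_pos Y with rfl | hY
      · have : cn (X i y) 0 ≤ (0 : ℕ) := cn_le _ _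
        simpa using this
      · refine (hX Y y hY hy1).trans (le_of_eq ?_)
        ring)
  rw [← cnP_sum, abs_of_nonneg (show 0 ≤ cnP (X i y) α P N from cn_nonneg _ _)] at h3
  refine h3.trans ?_
  have h4 : (N : ℝ) ^ (1 - η) ≤ N / (y : ℝ) ^ c := by
    rw [le_div_iff₀ (by positivity)]
    have h5 : (y : ℝ) ^ c ≤ (N : ℝ) ^ η := by
      have h6 : (y : ℝ) ≤ (N : ℝ) ^ (η / (c + 1)) :=
        hyN.trans (Real.rpow_le_rpow_of_exponent_le hN1r (min_le_right _ _))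
      calc (y : ℝ) ^ c ≤ ((N : ℝ) ^ (η / (c + 1))) ^ c := Real.rpow_le_rpow hy0.le h6 hc.le
        _ = (N : ℝ) ^ (η / (c + 1) * c) := by rw [← Real.rpow_mul hN0.le]
        _ ≤ _ := by
          refine Real.rpow_le_rpow_of_exponent_le hN1r ?_
          rw [div_mul_eq_mul_div, div_le_iff₀ (by positivity)]
          nlinarith
    calc (N : ℝ) ^ (1 - η) * (y : ℝ) ^ c ≤ (N : ℝ) ^ (1 - η) * (N : ℝ) ^ η := by gcongr
      _ = N := by
        rw [← Real.rpow_add hN0]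
        simp
  have h5 : 5 * (C / (y : ℝ) ^ c) * N + 0 + N / (y : ℝ) ^ c = (5 * C + 1) * N / (y : ℝ) ^ c := by ring
  rw [← h5]
  linarith

end Pool.Agent.Q138.PS
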