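import Pool.Agent.Q138.PS.UG

/-!
# All invariant sets of a map at once, along `⌊α P(n)⌋`
-/

set_option autoImplicit false

namespace Pool.Agent.Q138.PS

open Finset Filter Topology

/-- `S` is invariant under `f` in both directions -/
def InvSet (f : ℤ → ℤ) (S : Set ℤ) : Prop := ∀ x : ℤ, x ∈ S ↔ f x ∈ S

/-- `S` has the natural density `δ` on the side `σ` -/
def SideDensity (S : Set ℤ) (σ : ℤ) (δ : ℝ) : Prop :=
  Tendsto (fun N : ℕ => (Set.ncard {x : ℤ | x ∈ S ∧ 1 ≤ σ * x ∧ σ * x ≤ N} : ℝ) / N) atTop (𝓝 δ)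

/-- the class of `x` -/
def Kc (f : ℤ → ℤ) (x : ℤ) : Set ℤ := {y | ∃ a b : ℕ, f^[a] x = f^[b] y}

theorem kc_self (f : ℤ → ℤ) (x : ℤ) : x ∈ Kc f x := ⟨0, 0, rfl⟩

theorem kc_symm {f : ℤ → ℤ} {x y : ℤ} (h : y ∈ Kc f x) : x ∈ Kc f y := by
  obtain ⟨a, b, h⟩ := h
  exact ⟨b, a, h.symm⟩

theorem kc_trans {f : ℤ → ℤ} {x y z : ℤ} (h : y ∈ Kc f x) (h' : z ∈ Kc f y) : z ∈ Kc f x := by
  obtain ⟨a, b, h⟩ := h
  obtain ⟨c, e, h'⟩ := h'
  refine ⟨c + a, b + e, ?_⟩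
  rw [Function.iterate_add_apply, Function.iterate_add_apply, h, ← h', ← Function.iterate_add_apply,
    ← Function.iterate_add_apply, add_comm]

theorem kc_eq {f : ℤ → ℤ} {x y : ℤ} (h : y ∈ Kc f x) : Kc f y = Kc f x :=
  Set.Subset.antisymm (fun _ hz => kc_trans h hz) (fun _ hz => kc_trans (kc_symm h) hz)

theorem kc_step (f : ℤ → ℤ) (x : ℤ) : f x ∈ Kc f x := ⟨1, 0, rfl⟩

theorem mem_of_kc {f : ℤ → ℤ} {S : Set ℤ} (hS : InvSet f S) {x y : ℤ} (h : y ∈ Kc f x) : x ∈ S ↔ y ∈ S := by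
  have hit : ∀ (a : ℕ) (z : ℤ), z ∈ S ↔ f^[a] z ∈ S := by
    intro a
    induction a with
    | zero => exact fun z => Iff.rfl
    | succ a ih =>
      intro z
      rw [Function.iterate_succ_apply]
      exact (hS z).trans (ih (f z))
  obtain ⟨a, b, h⟩ := h
  rw [hit a x, hit b y, h]

/-- the least code in the class -/
noncomputable def cl (f : ℤ → ℤ) (x : ℤ) : ℕ := sInf {k : ℕ | ∃ z ∈ Kc f x, Encodable.encode z = k}

theorem cl_spec (f : ℤ → ℤ) (x : ℤ) : ∃ z ∈ Kc f x, Encodable.encode z = cl f x :=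
  Nat.sInf_mem (s := {k : ℕ | ∃ z ∈ Kc f x, Encodable.encode z = k}) ⟨_, x, kc_self f x, rfl⟩

theorem cl_eq {f : ℤ → ℤ} {x y : ℤ} (h : y ∈ Kc f x) : cl f y = cl f x := by
  unfold cl
  rw [kc_eq h]

theorem cl_inv (f : ℤ → ℤ) (j : ℕ) : InvSet f {x | cl f x = j} := by
  intro x
  show cl f x = j ↔ cl f (f x) = j
  rw [cl_eq (kc_step f x)]

theorem cl_mem {f : ℤ → ℤ} {S : Set ℤ} (hS : InvSet f S) (x : ℤ) :
    x ∈ S ↔ cl f x ∈ {k : ℕ | ∃ z ∈ S, Encodable.encode z = k} := by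
  obtain ⟨z, hz, hzc⟩ := cl_spec f x
  constructor
  · intro hx
    exact ⟨z, (mem_of_kc hS hz).1 hx, hzc⟩
  · rintro ⟨w, hw, hwc⟩
    have : w = z := Encodable.encode_injective (hwc.trans hzc.symm)
    subst this
    exact (mem_of_kc hS hz).2 hw

theorem side_nat {S : Set ℤ} {σ : ℤ} (hσ : σ = 1 ∨ σ = -1) {δ : ℝ} (h : SideDensity S σ δ) :
    Dn (fun n : ℕ => σ * (n : ℤ) ∈ S) δ := by
  refine dn_of (h.congr fun N => ?_)
  have hss : σ * σ = 1 := by rcases hσ with rfl | rfl <;> norm_num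
  congr 2
  have e : {x : ℤ | x ∈ S ∧ 1 ≤ σ * x ∧ σ * x ≤ N} = (fun n : ℕ => σ * (n : ℤ)) '' {n : ℕ | 1 ≤ n ∧ n ≤ N ∧ σ * (n : ℤ) ∈ S} := by
    ext x
    constructor
    · rintro ⟨h1, h2, h3⟩
      have e1 : (((σ * x).toNat : ℕ) : ℤ) = σ * x := Int.toNat_of_nonneg (by omega)
      refine ⟨(σ * x).toNat, ⟨by omega, by omega, ?_⟩, ?_⟩
      · rw [e1, ← mul_assoc, hss, one_mul]
        exact h1
      · show σ * (((σ * x).toNat : ℕ) : ℤ) = x
        rw [e1, ← mul_assoc, hss, one_mul]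
    · rintro ⟨n, ⟨h1, h2, h3⟩, rfl⟩
      refine ⟨h3, ?_, ?_⟩
      · show 1 ≤ σ * (σ * (n : ℤ))
        rw [← mul_assoc, hss, one_mul]
        exact_mod_cast h1
      · show σ * (σ * (n : ℤ)) ≤ N
        rw [← mul_assoc, hss, one_mul]
        exact_mod_cast h2
  rw [e, Set.ncard_image_of_injective]
  intro a b hab
  have hσ0 : σ ≠ 0 := by rcases hσ with rfl | rfl <;> norm_num
  exact_mod_cast mul_left_cancel₀ hσ0 hab

theorem side_univ {σ : ℤ} (hσ : σ = 1 ∨ σ = -1) : SideDensity Set.univ σ 1 := by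
  refine (tendsto_const_nhds (x := (1 : ℝ))).congr' ?_
  filter_upwards [eventually_ge_atTop 1] with N hN
  have hss : σ * σ = 1 := by rcases hσ with rfl | rfl <;> norm_num
  have e : {x : ℤ | x ∈ (Set.univ : Set ℤ) ∧ 1 ≤ σ * x ∧ σ * x ≤ N} = ((Icc 1 N).image fun n : ℕ => σ * (n : ℤ) : Finset ℤ) := by
    ext x
    rw [mem_coe, mem_image]
    constructor
    · rintro ⟨-, h2, h3⟩
      have e1 : (((σ * x).toNat : ℕ) : ℤ) = σ * x := Int.toNat_of_nonneg (by omega)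
      refine ⟨(σ * x).toNat, mem_Icc.2 ⟨by omega, by omega⟩, ?_⟩
      rw [e1, ← mul_assoc, hss, one_mul]
    · rintro ⟨n, hn, rfl⟩
      rw [mem_Icc] at hn
      refine ⟨Set.mem_univ _, ?_, ?_⟩
      · rw [← mul_assoc, hss, one_mul]
        exact_mod_cast hn.1
      · rw [← mul_assoc, hss, one_mul]
        exact_mod_cast hn.2
  rw [e, Set.ncard_coe_finset, card_image_of_injective]
  · rw [Nat.card_Icc, Nat.add_sub_cancel, div_self]
    positivity
  · intro a b hab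
    have hσ0 : σ ≠ 0 := by rcases hσ with rfl | rfl <;> norm_num
    exact_mod_cast mul_left_cancel₀ hσ0 hab

theorem side_nonneg {S : Set ℤ} {σ : ℤ} {δ : ℝ} (h : SideDensity S σ δ) : 0 ≤ δ :=
  ge_of_tendsto' h fun N => by positivity

/-- **all invariant sets at once** -/
theorem inv_union {ι : Type} [Countable ι] (q : ℕ) (hq : 2 ≤ q) (f : ι → ℤ → ℤ) (Good : ι → Prop)
    (hG : ∀ i, Good i → (∀ S, InvSet (f i) S → ∀ σ : ℤ, (σ = 1 ∨ σ = -1) → ∃ a, SideDensity S σ a) ∧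
      (∀ S : ℕ → Set ℤ, (∀ n, InvSet (f i) (S n)) → (∀ n n', n ≠ n' → Disjoint (S n) (S n')) →
        ∀ σ : ℤ, (σ = 1 ∨ σ = -1) → ∀ δ : ℕ → ℝ, (∀ n, SideDensity (S n) σ (δ n)) →
        Summable δ ∧ SideDensity (⋃ n, S n) σ (∑' n, δ n))) :
    ∃ E : Set ℝ, dimH E ≤ ENNReal.ofReal (q / (q + kp q)) ∧ ∀ α : ℝ, 0 < α → α ∉ E → ∀ i, Good i →
      ∀ σ : ℤ, (σ = 1 ∨ σ = -1) → ∀ ε : ℝ, 0 < ε →
      ∃ η : ℝ, 0 < η ∧ ∀ᶠ N : ℕ in atTop, ∀ P : Polynomial ℤ, P.natDegree = q →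
      0 < P.leadingCoeff → (∀ j, |((P.coeff j : ℤ) : ℝ)| ≤ (N : ℝ) ^ η) →
      ∀ S : Set ℤ, InvSet (f i) S → ∀ a : ℝ, SideDensity S σ a →
      |cnP (fun n => σ * (n : ℤ) ∈ S) α P N - a * N| ≤ ε * N := by
  classical
  have key : ∀ (i : ι) (σ : ℤ), ∃ E : Set ℝ, dimH E ≤ ENNReal.ofReal (q / (q + kp q)) ∧ ∀ α : ℝ, 0 < α → α ∉ E →
      Good i → (σ = 1 ∨ σ = -1) → ∀ ε : ℝ, 0 < ε →
      ∃ η : ℝ, 0 < η ∧ ∀ᶠ N : ℕ in atTop, ∀ P : Polynomial ℤ, P.natDegree = q →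
      0 < P.leadingCoeff → (∀ j, |((P.coeff j : ℤ) : ℝ)| ≤ (N : ℝ) ^ η) →
      ∀ S : Set ℤ, InvSet (f i) S → ∀ a : ℝ, SideDensity S σ a →
      |cnP (fun n => σ * (n : ℤ) ∈ S) α P N - a * N| ≤ ε * N := by
    intro i σ
    by_cases hi : Good i ∧ (σ = 1 ∨ σ = -1)
    · obtain ⟨hi, hσ⟩ := hi
      obtain ⟨h1, h2⟩ := hG i hi
      have h3 : ∀ j : ℕ, ∃ a, SideDensity {x | cl (f i) x = j} σ a := fun j => h1 {x | cl (f i) x = j} (cl_inv (f i) j) σ hσ
      choose c hc using h3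
      have hdis : ∀ n n' : ℕ, n ≠ n' → Disjoint {x | cl (f i) x = n} {x | cl (f i) x = n'} := by
        intro n n' hn
        rw [Set.disjoint_left]
        intro x hx hx'
        exact hn (hx.symm.trans hx')
      obtain ⟨h4, h5⟩ := h2 (fun j => {x | cl (f i) x = j}) (cl_inv (f i)) hdis σ hσ c hc
      have hU : (⋃ n : ℕ, {x | cl (f i) x = n}) = Set.univ := by
        ext x
        simp
      rw [hU] at h5
      have h6 : ∑' n, c n = 1 := tendsto_nhds_unique h5 (side_univ hσ)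
      have hsum : HasSum c 1 := h6 ▸ h4.hasSum
      have h10 : ∀ j : ℕ, Dn (fun n : ℕ => cl (f i) (σ * (n : ℤ)) = j) (c j) := by
        intro j
        have h11 := side_nat hσ (hc j)
        simp only [Set.mem_ofPred_eq] at h11
        exact h11
      obtain ⟨E, hE, h⟩ := law_union q hq (fun n : ℕ => cl (f i) (σ * (n : ℤ))) c (fun j => side_nonneg (hc j)) hsum h10
      refine ⟨E, hE, fun α hα hαE _ _ ε hε => ?_⟩
      obtain ⟨η, hη, h7⟩ := h α hα hαE ε hε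
      refine ⟨η, hη, ?_⟩
      filter_upwards [h7] with N hN
      intro P hdeg hlead hco S hS a ha
      have h8 := hN P hdeg hlead hco {k : ℕ | ∃ z ∈ S, Encodable.encode z = k}
      have h9 : (fun n : ℕ => σ * (n : ℤ) ∈ S) =
          fun n : ℕ => cl (f i) (σ * (n : ℤ)) ∈ {k : ℕ | ∃ z ∈ S, Encodable.encode z = k} := by
        funext n
        exact propext (cl_mem hS _)
      rw [h9]
      convert h8 using 4
      -- the density of `S` is the sum over its classes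
      have g1 : ∀ n : ℕ, InvSet (f i) {x | cl (f i) x = n ∧ n ∈ {k : ℕ | ∃ z ∈ S, Encodable.encode z = k}} := by
        intro n x
        show (cl (f i) x = n ∧ _) ↔ (cl (f i) (f i x) = n ∧ _)
        rw [cl_eq (kc_step (f i) x)]
      have g2 : ∀ n n' : ℕ, n ≠ n' → Disjoint {x | cl (f i) x = n ∧ n ∈ {k : ℕ | ∃ z ∈ S, Encodable.encode z = k}}
          {x | cl (f i) x = n' ∧ n' ∈ {k : ℕ | ∃ z ∈ S, Encodable.encode z = k}} := by
        intro n n' hn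
        rw [Set.disjoint_left]
        rintro x ⟨hx, -⟩ ⟨hx', -⟩
        exact hn (hx.symm.trans hx')
      have g3 : ∀ n : ℕ, SideDensity {x | cl (f i) x = n ∧ n ∈ {k : ℕ | ∃ z ∈ S, Encodable.encode z = k}} σ
          (({k : ℕ | ∃ z ∈ S, Encodable.encode z = k} : Set ℕ).indicator c n) := by
        intro n
        by_cases hn : n ∈ {k : ℕ | ∃ z ∈ S, Encodable.encode z = k}
        · rw [Set.indicator_of_mem hn]
          have : {x | cl (f i) x = n ∧ n ∈ {k : ℕ | ∃ z ∈ S, Encodable.encode z = k}} = {x | cl (f i) x = n} := by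
            ext x
            exact ⟨fun h => h.1, fun h => ⟨h, hn⟩⟩
          rw [this]
          exact hc n
        · rw [Set.indicator_of_notMem hn]
          have : {x | cl (f i) x = n ∧ n ∈ {k : ℕ | ∃ z ∈ S, Encodable.encode z = k}} = ∅ := by
            ext x
            exact ⟨fun h => absurd h.2 hn, fun h => absurd h (Set.notMem_empty x)⟩
          rw [this]
          unfold SideDensity
          simp
      obtain ⟨-, g4⟩ := h2 (fun n => {x | cl (f i) x = n ∧ n ∈ {k : ℕ | ∃ z ∈ S, Encodable.encode z = k}}) g1 g2 σ hσ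
        (({k : ℕ | ∃ z ∈ S, Encodable.encode z = k} : Set ℕ).indicator c) g3
      have g5 : (⋃ n : ℕ, {x | cl (f i) x = n ∧ n ∈ {k : ℕ | ∃ z ∈ S, Encodable.encode z = k}}) = S := by
        ext x
        rw [Set.mem_iUnion]
        constructor
        · rintro ⟨n, rfl, h⟩
          exact (cl_mem hS x).2 h
        · intro hx
          exact ⟨_, rfl, (cl_mem hS x).1 hx⟩
      rw [g5] at g4
      exact tendsto_nhds_unique ha g4
    · refine ⟨∅, by simp, fun α _ _ h1 h2 => absurd ⟨h1, h2⟩ hi⟩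
  choose E hE h using key
  refine ⟨⋃ i, ⋃ σ, E i σ, ?_, fun α hα hαE i hi σ hσ => ?_⟩
  · simp only [dimH_iUnion]
    exact iSup_le fun i => iSup_le fun σ => hE i σ
  · refine h i σ α hα (fun hm => hαE ?_) hi hσ
    exact Set.mem_iUnion.2 ⟨i, Set.mem_iUnion.2 ⟨σ, hm⟩⟩

end Pool.Agent.Q138.PS
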