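import Pool.Agent.Q138.PS.UD

/-!
# One polynomial at a time
-/

set_option autoImplicit false

namespace Pool.Agent.Q138.PS

open Finset Filter Topology

/-- the coefficients of a given polynomial are at most `N ^ η` for large `N` -/
theorem coeff_ev (P : Polynomial ℤ) {η : ℝ} (hη : 0 < η) : ∀ᶠ N : ℕ in atTop, ∀ j, |((P.coeff j : ℤ) : ℝ)| ≤ (N : ℝ) ^ η := by
  have h1 : Tendsto (fun N : ℕ => (N : ℝ) ^ η) atTop atTop := (tendsto_rpow_atTop hη).comp tendsto_natCast_atTop_atTop
  filter_upwards [h1.eventually_ge_atTop (∑ j ∈ P.support, |((P.coeff j : ℤ) : ℝ)|), eventually_ge_atTop 0] with N hN _ j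
  by_cases hj : j ∈ P.support
  · exact (Finset.single_le_sum (f := fun j => |((P.coeff j : ℤ) : ℝ)|) (fun _ _ => abs_nonneg _) hj).trans hN
  · rw [Polynomial.notMem_support_iff.1 hj]
    simp only [Int.cast_zero, abs_zero]
    positivity

/-- the density along a fixed polynomial -/
theorem along_fixed {q : ℕ} {α : ℝ} {X : ℕ → Prop} {c : ℝ} (h : Along q α X c) {P : Polynomial ℤ} (hdeg : P.natDegree = q)
    (hlead : 0 < P.leadingCoeff) : Tendsto (fun N : ℕ => cnP X α P N / N) atTop (𝓝 c) := by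
  rw [Metric.tendsto_atTop]
  intro ε hε
  obtain ⟨η, hη, h1⟩ := h (ε / 2) (by positivity)
  obtain ⟨N₀, hN₀⟩ := eventually_atTop.1 ((h1.and (coeff_ev P hη)).and (eventually_ge_atTop 1))
  refine ⟨N₀, fun N hN => ?_⟩
  obtain ⟨⟨g1, g2⟩, g3⟩ := hN₀ N hN
  have k := g1 P hdeg hlead g2
  have hN1 : (0 : ℝ) < N := by exact_mod_cast g3
  rw [Real.dist_eq, div_sub' hN1.ne', abs_div, abs_of_pos hN1, div_lt_iff₀ hN1, mul_comm (N : ℝ) c]
  refine k.trans_lt ?_
  nlinarith

/-- `⌊α P(n)⌋` tends to infinity -/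
theorem floor_tendsto {α : ℝ} (hα : 0 < α) {P : Polynomial ℤ} (hdeg : 1 ≤ P.natDegree) (hlead : 0 < P.leadingCoeff) :
    Tendsto (fun n : ℕ => ⌊α * ((P.eval (n : ℤ) : ℤ) : ℝ)⌋₊) atTop atTop := by
  have h1 : Tendsto (fun x : ℝ => (P.map (Int.castRingHom ℝ)).eval x) atTop atTop := by
    refine Polynomial.tendsto_atTop_of_leadingCoeff_nonneg _ ?_ ?_
    · rw [← Polynomial.natDegree_pos_iff_degree_pos, Polynomial.natDegree_map_eq_of_injective (Int.cast_injective)]
      omega
    · rw [Polynomial.leadingCoeff_map_of_injective (Int.cast_injective)]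
      simp only [eq_intCast]
      exact_mod_cast hlead.le
  have h2 : Tendsto (fun n : ℕ => α * ((P.eval (n : ℤ) : ℤ) : ℝ)) atTop atTop := by
    refine Tendsto.const_mul_atTop hα ?_
    refine (h1.comp tendsto_natCast_atTop_atTop).congr fun n => ?_
    show (P.map (Int.castRingHom ℝ)).eval (n : ℝ) = _
    have : ((n : ℤ) : ℝ) = (n : ℝ) := by push_cast; rfl
    rw [← this, Polynomial.eval_intCast_map]
    rfl
  exact tendsto_nat_floor_atTop.comp h2

end Pool.Agent.Q138.PS
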