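import Pool.Agent.Q138.PS.UI

/-!
# Exceptional sets of typical points

If `ν (F m) ≤ (log m) ^ (-U)` for all `U` and all large `m`, then for `ν`-almost every `x` the number of the `m ≤ Y` with
`x ∈ F m` is at most `C Y (log Y) ^ (-U)`, for all `U`.
-/

set_option autoImplicit false

namespace Pool.Agent.Q138.PS

open Finset Filter Topology MeasureTheory

theorem cn_le_self (X : ℕ → Prop) (Y : ℕ) : cn X Y ≤ Y := by
  classical
  unfold cn
  have h1 : ((Icc 1 Y).filter X).card ≤ Y := (card_filter_le _ _).trans (by simp)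
  exact_mod_cast h1

theorem cn_mono_right (X : ℕ → Prop) {Y Y' : ℕ} (h : Y ≤ Y') : cn X Y ≤ cn X Y' := by
  classical
  unfold cn
  refine Nat.cast_le.2 (card_le_card (filter_subset_filter _ ?_))
  exact Icc_subset_Icc le_rfl h

theorem cn_indicator {Ω : Type} (F : ℕ → Set Ω) (Y : ℕ) (x : Ω) :
    cn (fun m => x ∈ F m) Y = ∑ m ∈ Icc 1 Y, (F m).indicator (fun _ => (1 : ℝ)) x := by
  classical
  unfold cn
  rw [card_filter]
  push_cast
  refine sum_congr rfl fun m _ => ?_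
  rw [Set.indicator_apply]

theorem sum_real {Ω : Type} [MeasurableSpace Ω] (ν : Measure Ω) [IsProbabilityMeasure ν] (F : ℕ → Set Ω) (U m₀ : ℕ)
    (h : ∀ m ≥ m₀, ν.real (F m) ≤ 1 / Real.log m ^ U) (j : ℕ) (hj : 2 ≤ j) :
    ∑ m ∈ Icc 1 (2 ^ j), ν.real (F m) ≤ m₀ + 2 ^ (j / 2) + 2 ^ j * (6 / (j : ℝ)) ^ U := by
  classical
  have hj0 : (0 : ℝ) < j := by exact_mod_cast (by omega : 0 < j)
  have h1 : ∀ m ∈ Icc 1 (2 ^ j), ν.real (F m) ≤ (if m < m₀ then 1 else 0) + (if m ≤ 2 ^ (j / 2) then 1 else 0) +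
      (6 / (j : ℝ)) ^ U := by
    intro m hm
    have hp : (0 : ℝ) ≤ (6 / (j : ℝ)) ^ U := by positivity
    have h0 : ν.real (F m) ≤ 1 := measureReal_le_one
    by_cases g1 : m < m₀
    · rw [if_pos g1]
      split_ifs <;> linarith
    by_cases g2 : m ≤ 2 ^ (j / 2)
    · rw [if_neg g1, if_pos g2]
      linarith
    rw [if_neg g1, if_neg g2, zero_add, zero_add]
    refine (h m (by omega)).trans ?_
    have h2 : (j : ℝ) / 6 ≤ Real.log m := by
      have h3 : Real.log ((2 : ℝ) ^ (j / 2)) ≤ Real.log m := by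
        refine Real.log_le_log (by positivity) ?_
        exact_mod_cast (by omega : 2 ^ (j / 2) ≤ m)
      rw [Real.log_pow] at h3
      have h4 := Real.log_two_gt_d9
      have h5 : ((j : ℝ) - 1) / 2 ≤ ((j / 2 : ℕ) : ℝ) := by
        have : j ≤ 2 * (j / 2) + 1 := by omega
        have : (j : ℝ) ≤ 2 * ((j / 2 : ℕ) : ℝ) + 1 := by exact_mod_cast this
        linarith
      have h6 : (2 : ℝ) ≤ j := by exact_mod_cast hj
      have h7 : (0 : ℝ) ≤ ((j / 2 : ℕ) : ℝ) := Nat.cast_nonneg _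
      nlinarith
    have h3 : (0 : ℝ) < j / 6 := by positivity
    calc 1 / Real.log m ^ U ≤ 1 / ((j : ℝ) / 6) ^ U := by
          refine one_div_le_one_div_of_le (by positivity) ?_
          gcongr
      _ = (6 / (j : ℝ)) ^ U := by
          rw [← one_div_pow]
          congr 1
          rw [one_div_div]
  refine (sum_le_sum h1).trans ?_
  rw [sum_add_distrib, sum_add_distrib, sum_const, Nat.card_Icc, Nat.add_sub_cancel, nsmul_eq_mul]
  have h2 : ∑ m ∈ Icc 1 (2 ^ j), (if m < m₀ then (1 : ℝ) else 0) ≤ m₀ := by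
    rw [← sum_filter, sum_const, nsmul_eq_mul, mul_one]
    have : ((Icc 1 (2 ^ j)).filter (fun m => m < m₀)).card ≤ (range m₀).card := by
      refine card_le_card fun m hm => ?_
      rw [mem_filter] at hm
      exact mem_range.2 hm.2
    rw [card_range] at this
    exact_mod_cast this
  have h3 : ∑ m ∈ Icc 1 (2 ^ j), (if m ≤ 2 ^ (j / 2) then (1 : ℝ) else 0) ≤ 2 ^ (j / 2) := by
    rw [← sum_filter, sum_const, nsmul_eq_mul, mul_one]
    have : ((Icc 1 (2 ^ j)).filter (fun m => m ≤ 2 ^ (j / 2))).card ≤ (Icc 1 (2 ^ (j / 2))).card := by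
      refine card_le_card fun m hm => ?_
      rw [mem_filter, mem_Icc] at hm
      exact mem_Icc.2 ⟨hm.1.1, hm.2⟩
    rw [Nat.card_Icc, Nat.add_sub_cancel] at this
    exact_mod_cast this
  push_cast
  linarith

theorem bc_step {Ω : Type} [MeasurableSpace Ω] (ν : Measure Ω) [IsProbabilityMeasure ν] (F : ℕ → Set Ω)
    (hF : ∀ m, MeasurableSet (F m)) (h : ∀ U : ℕ, ∃ m₀ : ℕ, ∀ m ≥ m₀, ν.real (F m) ≤ 1 / Real.log m ^ U) (U : ℕ) :
    ∀ᵐ x ∂ν, ∀ᶠ j : ℕ in atTop, cn (fun m => x ∈ F m) (2 ^ j) < 2 ^ j / (j : ℝ) ^ U := by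
  classical
  obtain ⟨m₀, hm₀⟩ := h (U + 3)
  -- the sum of the measures
  have hev : ∀ᶠ j : ℕ in atTop, (∑ m ∈ Icc 1 (2 ^ j), ν.real (F m)) ≤ 2 ^ j / (j : ℝ) ^ (U + 2) := by
    have g1 : ∀ᶠ j : ℕ in atTop, (j : ℝ) ^ (U + 2) * (4 * m₀ + 4) ≤ 2 ^ (j / 2) := by
      have h1 : Tendsto (fun j : ℕ => (j : ℝ) ^ (U + 2) / (Real.sqrt 2) ^ j) atTop (𝓝 0) := by
        have : (1 : ℝ) < Real.sqrt 2 := by
          rw [Real.lt_sqrt (by norm_num)]
          norm_num
        exact tendsto_pow_const_div_const_pow_of_one_lt (U + 2) this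
      have h2 : (0 : ℝ) < 1 / (2 * (4 * m₀ + 4)) := by positivity
      filter_upwards [h1.eventually (ge_mem_nhds h2)] with j hj
      have h3 : (0 : ℝ) < Real.sqrt 2 ^ j := by positivity
      rw [div_le_iff₀ h3, div_mul_eq_mul_div, le_div_iff₀ (by positivity), one_mul] at hj
      have h4 : Real.sqrt 2 ^ j ≤ 2 * 2 ^ (j / 2) := by
        have h5 : (1 : ℝ) ≤ Real.sqrt 2 := by
          rw [Real.one_le_sqrt]
          norm_num
        calc Real.sqrt 2 ^ j ≤ Real.sqrt 2 ^ (2 * (j / 2) + 2) := pow_le_pow_right₀ h5 (by omega)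
          _ = 2 * 2 ^ (j / 2) := by
              rw [pow_add, pow_mul, Real.sq_sqrt (by norm_num)]
              ring
      nlinarith
    filter_upwards [g1, eventually_ge_atTop (2 * 6 ^ (U + 3) + 2)] with j hj1 hj2
    have hj2' : (2 * 6 ^ (U + 3) : ℝ) ≤ j := by
      have : 2 * 6 ^ (U + 3) ≤ j := by omega
      exact_mod_cast this
    have hj0 : (0 : ℝ) < j := lt_of_lt_of_le (by positivity) hj2'
    have h1j : (1 : ℝ) ≤ j := by
      have : 1 ≤ j := by omega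
      exact_mod_cast this
    refine (sum_real ν F (U + 3) m₀ hm₀ j (by omega)).trans ?_
    rw [le_div_iff₀ (by positivity)]
    have hP : (1 : ℝ) ≤ (j : ℝ) ^ (U + 2) := one_le_pow₀ h1j
    have hm0 : (0 : ℝ) ≤ m₀ := Nat.cast_nonneg _
    have hq : (1 : ℝ) ≤ 2 ^ (j / 2) := one_le_pow₀ (by norm_num)
    have hqq : (2 : ℝ) ^ (j / 2) * 2 ^ (j / 2) ≤ 2 ^ j := by
      rw [← pow_add]
      exact pow_le_pow_right₀ (by norm_num) (by omega)
    have e1 : (6 / (j : ℝ)) ^ (U + 3) * (j : ℝ) ^ (U + 2) = 6 ^ (U + 3) / j := by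
      rw [div_pow]
      field_simp
      ring
    have e2 : (6 : ℝ) ^ (U + 3) / j ≤ 1 / 2 := by
      rw [div_le_iff₀ hj0]
      linarith
    have e3 : (m₀ : ℝ) * (j : ℝ) ^ (U + 2) ≤ 2 ^ j / 4 := by
      have : (m₀ : ℝ) * (j : ℝ) ^ (U + 2) * 4 ≤ 2 ^ (j / 2) := by nlinarith
      nlinarith
    have e4 : (2 : ℝ) ^ (j / 2) * (j : ℝ) ^ (U + 2) ≤ 2 ^ j / 4 := by
      have : (j : ℝ) ^ (U + 2) * 4 ≤ 2 ^ (j / 2) := by nlinarith
      nlinarith
    calc (m₀ + 2 ^ (j / 2) + 2 ^ j * (6 / (j : ℝ)) ^ (U + 3)) * (j : ℝ) ^ (U + 2)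
        = m₀ * (j : ℝ) ^ (U + 2) + 2 ^ (j / 2) * (j : ℝ) ^ (U + 2) + 2 ^ j * ((6 / (j : ℝ)) ^ (U + 3) * (j : ℝ) ^ (U + 2)) := by ring
      _ ≤ 2 ^ j / 4 + 2 ^ j / 4 + 2 ^ j * (1 / 2) := by
          rw [e1]
          gcongr
      _ = 2 ^ j := by ring
  obtain ⟨j₀, hj₀⟩ := eventually_atTop.1 (hev.and (eventually_ge_atTop 1))
  obtain ⟨E, hE⟩ : ∃ E : ℕ → Set Ω, E = fun j => if j₀ ≤ j then {x | 2 ^ j / (j : ℝ) ^ U ≤ cn (fun m => x ∈ F m) (2 ^ j)} else ∅ :=
    ⟨_, rfl⟩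
  have hmeas : ∀ j, ν (E j) ≤ ENNReal.ofReal (1 / (j : ℝ) ^ 2) := by
    intro j
    by_cases hj : j₀ ≤ j
    · obtain ⟨g1, g2⟩ := hj₀ j hj
      have hjp : (0 : ℝ) < j := by exact_mod_cast g2
      have hint : Integrable (fun x => cn (fun m => x ∈ F m) (2 ^ j)) ν := by
        simp only [cn_indicator]
        exact integrable_finsetSum _ fun m _ => (integrable_const (1 : ℝ)).indicator (hF m)
      have hval : ∫ x, cn (fun m => x ∈ F m) (2 ^ j) ∂ν = ∑ m ∈ Icc 1 (2 ^ j), ν.real (F m) := by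
        simp only [cn_indicator]
        rw [integral_finsetSum _ fun m _ => (integrable_const (1 : ℝ)).indicator (hF m)]
        refine sum_congr rfl fun m _ => ?_
        rw [integral_indicator_const _ (hF m), smul_eq_mul, mul_one]
      have hmk := mul_meas_ge_le_integral_of_nonneg (μ := ν) (Eventually.of_forall fun x => cn_nonneg (fun m => x ∈ F m) (2 ^ j)) hint
        (2 ^ j / (j : ℝ) ^ U)
      rw [hval] at hmk
      have h2 : ν.real (E j) ≤ 1 / (j : ℝ) ^ 2 := by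
        rw [hE]
        simp only [hj, if_true]
        have h3 := hmk.trans g1
        have hpos : (0 : ℝ) < 2 ^ j / (j : ℝ) ^ U := by positivity
        rw [mul_comm, ← le_div_iff₀ hpos] at h3
        refine h3.trans (le_of_eq ?_)
        rw [pow_add]
        field_simp
      have h3 : ν (E j) = ENNReal.ofReal (ν.real (E j)) := by
        rw [Measure.real, ENNReal.ofReal_toReal (measure_ne_top _ _)]
      rw [h3]
      exact ENNReal.ofReal_le_ofReal h2
    · rw [hE]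
      simp only [hj, if_false, measure_empty]
      exact zero_le
  have hsum : ∑' j, ν (E j) ≠ ⊤ := by
    refine ne_top_of_le_ne_top ?_ (ENNReal.tsum_le_tsum hmeas)
    rw [← ENNReal.ofReal_tsum_of_nonneg (fun k => by positivity) (Real.summable_one_div_nat_pow.2 (by norm_num))]
    exact ENNReal.ofReal_ne_top
  filter_upwards [ae_eventually_notMem hsum] with x hx
  filter_upwards [hx, eventually_ge_atTop j₀] with j h1 hj
  rw [hE] at h1
  simp only [hj, if_true] at h1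
  by_contra hcon
  push Not at hcon
  exact h1 hcon

/-- **exceptional sets of typical points** -/
theorem sparse_ae {Ω : Type} [MeasurableSpace Ω] (ν : Measure Ω) [IsProbabilityMeasure ν] (F : ℕ → Set Ω)
    (hF : ∀ m, MeasurableSet (F m)) (h : ∀ U : ℕ, ∃ m₀ : ℕ, ∀ m ≥ m₀, ν.real (F m) ≤ 1 / Real.log m ^ U) :
    ∀ᵐ x ∂ν, ∀ U : ℕ, ∃ C : ℝ, 0 ≤ C ∧ ∀ Y : ℕ, 3 ≤ Y → cn (fun m => x ∈ F m) Y ≤ C * Y * (Real.log Y) ^ (-(U : ℝ)) := by
  classical
  filter_upwards [ae_all_iff.2 (bc_step ν F hF h)] with x hx U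
  obtain ⟨j₁, hj₁⟩ := eventually_atTop.1 (hx U)
  refine ⟨2 + (j₁ : ℝ) ^ U, by positivity, fun Y hY => ?_⟩
  set j : ℕ := Nat.clog 2 Y with hj
  have hY1 : Y ≤ 2 ^ j := Nat.le_pow_clog (by norm_num) Y
  have hj1 : 1 ≤ j := by
    by_contra hcon
    have : j = 0 := by omega
    rw [this] at hY1
    omega
  have hY2 : 2 ^ (j - 1) < Y := Nat.pow_pred_clog_lt_self (by norm_num) (by omega)
  have hY0 : (0 : ℝ) < Y := by exact_mod_cast (by omega : 0 < Y)
  have hlog0 : 0 < Real.log Y := Real.log_pos (by exact_mod_cast (by omega : 1 < Y))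
  have hlj : Real.log Y ≤ j := by
    have h1 : Real.log Y ≤ Real.log ((2 : ℝ) ^ j) := Real.log_le_log hY0 (by exact_mod_cast hY1)
    rw [Real.log_pow] at h1
    have h2 := Real.log_two_lt_d9
    have : (0 : ℝ) ≤ j := Nat.cast_nonneg _
    nlinarith
  have hjp : (0 : ℝ) < j := lt_of_lt_of_le hlog0 hlj
  rw [Real.rpow_neg hlog0.le, Real.rpow_natCast, ← div_eq_mul_inv]
  rcases Nat.lt_or_ge j j₁ with hlt | hge
  · rw [le_div_iff₀ (by positivity)]
    have h1 : Real.log Y ^ U ≤ (j₁ : ℝ) ^ U := by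
      refine pow_le_pow_left₀ hlog0.le (hlj.trans ?_) U
      exact_mod_cast hlt.le
    calc cn (fun m => x ∈ F m) Y * Real.log Y ^ U ≤ Y * (j₁ : ℝ) ^ U := by
          refine mul_le_mul (cn_le_self _ _) h1 (by positivity) hY0.le
      _ ≤ (2 + (j₁ : ℝ) ^ U) * Y := by nlinarith
  · have h1 := hj₁ j hge
    have h2 : (2 : ℝ) ^ j ≤ 2 * Y := by
      have : 2 ^ j ≤ 2 * Y := by
        have : 2 ^ j = 2 * 2 ^ (j - 1) := by
          rw [← pow_succ']
          congr 1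
          omega
        omega
      exact_mod_cast this
    have h3 : (2 : ℝ) ^ j / (j : ℝ) ^ U ≤ 2 * Y / Real.log Y ^ U := by gcongr
    refine (cn_mono_right _ hY1).trans (h1.le.trans (h3.trans ?_))
    gcongr
    have : (0 : ℝ) ≤ (j₁ : ℝ) ^ U := by positivity
    linarith

end Pool.Agent.Q138.PS
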