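import Pool.Agent.Q138.PS.UJ
import Pool.Agent.Q259.AS.Eng

/-!
# Exceptional sets near the multiples of typical points
-/

set_option autoImplicit false

namespace Pool.Agent.Q138.PS

open Finset Filter Topology MeasureTheory
open Pool.Agent.Q259.AS (Rare)

theorem near_meas {s : ℕ} (S : Set (Fin s → ℤ)) (B a L : ℝ) :
    MeasurableSet {x : Fin s → ℝ | (∀ i, |x i| ≤ B) ∧ ∃ n ∈ S, ∀ i, |(n i : ℝ) - a * x i| ≤ L} := by
  have h1 : {x : Fin s → ℝ | (∀ i, |x i| ≤ B) ∧ ∃ n ∈ S, ∀ i, |(n i : ℝ) - a * x i| ≤ L} =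
      (⋂ i, {x : Fin s → ℝ | |x i| ≤ B}) ∩ ⋃ n ∈ S, ⋂ i, {x : Fin s → ℝ | |(n i : ℝ) - a * x i| ≤ L} := by
    ext x
    simp only [Set.mem_inter_iff, Set.mem_iInter, Set.mem_iUnion, Set.mem_ofPred_eq, exists_prop]
  rw [h1]
  refine MeasurableSet.inter (MeasurableSet.iInter fun i => ?_) (MeasurableSet.biUnion (Set.to_countable S) fun n _ =>
    MeasurableSet.iInter fun i => ?_)
  · exact (isClosed_le (by fun_prop) continuous_const).measurableSet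
  · exact (isClosed_le (by fun_prop) continuous_const).measurableSet

/-- **exceptional sets near the multiples of typical points** -/
theorem rare_sparse {s : ℕ} {Bad : ℕ → Set (Fin s → ℤ)} {sz : ℕ → ℕ} (κ : ℕ) (hsz : ∀ X, X ≤ sz X ∧ sz X ≤ κ * X)
    (μ : Fin s → Measure ℝ) [∀ i, IsProbabilityMeasure (μ i)] (hR : Rare s ℕ sz Bad μ) :
    ∀ᵐ x ∂(Measure.pi μ), ∀ T U : ℕ, ∃ C : ℝ, 0 ≤ C ∧ ∀ Y : ℕ, 3 ≤ Y →
      cn (fun m => ∃ n ∈ Bad m, ∀ i, |(n i : ℝ) - m * x i| ≤ Real.log m ^ T) Y ≤ C * Y * (Real.log Y) ^ (-(U : ℝ)) := by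
  have key : ∀ B T : ℕ, ∀ᵐ x ∂(Measure.pi μ), ∀ U : ℕ, ∃ C : ℝ, 0 ≤ C ∧ ∀ Y : ℕ, 3 ≤ Y →
      cn (fun m => x ∈ {x : Fin s → ℝ | (∀ i, |x i| ≤ (B : ℝ)) ∧ ∃ n ∈ Bad m, ∀ i, |(n i : ℝ) - (m : ℝ) * x i| ≤
        Real.log m ^ T}) Y ≤ C * Y * (Real.log Y) ^ (-(U : ℝ)) := by
    intro B T
    refine sparse_ae (Measure.pi μ) (fun m => {x : Fin s → ℝ | (∀ i, |x i| ≤ (B : ℝ)) ∧ ∃ n ∈ Bad m, ∀ i,
      |(n i : ℝ) - (m : ℝ) * x i| ≤ Real.log m ^ T}) (fun m => near_meas _ _ _ _) fun U => ?_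
    obtain ⟨a₀, ha₀⟩ := hR (B + κ + 1) U T
    refine ⟨⌈a₀⌉₊ + 1, fun m hm => ?_⟩
    have hm0 : a₀ ≤ m := (Nat.le_ceil a₀).trans (by exact_mod_cast (by omega : ⌈a₀⌉₊ ≤ m))
    have hmn : (0 : ℝ) ≤ m := Nat.cast_nonneg _
    obtain ⟨g1, g2⟩ := hsz m
    have g1' : (m : ℝ) ≤ sz m := by exact_mod_cast g1
    have g2' : (sz m : ℝ) ≤ κ * m := by exact_mod_cast g2
    have hB0 : (0 : ℝ) ≤ B := Nat.cast_nonneg _
    have hκ0 : (0 : ℝ) ≤ κ := Nat.cast_nonneg _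
    have h1 := ha₀ m hm0 (fun _ => 0) (fun i => by
      rw [abs_zero]
      positivity) m (by
        push_cast
        nlinarith) (by
        push_cast
        nlinarith)
    refine le_trans (measureReal_mono ?_ (measure_ne_top _ _)) h1
    rintro x ⟨hx1, n, hn, hx2⟩
    refine ⟨fun i => (hx1 i).trans ?_, n, hn, fun i => ?_⟩
    · push_cast
      linarith
    · rw [add_zero]
      exact hx2 i
  filter_upwards [ae_all_iff.2 fun B => ae_all_iff.2 (key B)] with x hx T U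
  obtain ⟨B, hB⟩ := exists_nat_ge (∑ i, |x i|)
  obtain ⟨C, hC0, hC⟩ := hx B T U
  refine ⟨C, hC0, fun Y hY => le_trans (cn_mono (fun m hm => ?_) Y) (hC Y hY)⟩
  exact ⟨fun i => (single_le_sum (f := fun i => |x i|) (fun i _ => abs_nonneg _) (mem_univ i)).trans hB, hm⟩

end Pool.Agent.Q138.PS
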