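import Pool.Agent.Q138.PS.UK
import Pool.Agent.Q259.AS.One

/-!
# Exceptional sets near the multiples of typical points, in one dimension
-/

set_option autoImplicit false

namespace Pool.Agent.Q138.PS

open Finset Filter Topology MeasureTheory
open Pool.Agent.Q259.AS (Rare Eng1 engT_of rare_of NiceM)

/-- **exceptional sets near the multiples of typical points of the line** -/
theorem rare_sparse1 {Bad : ℕ → Set ℤ} {sz : ℕ → ℕ} (κ : ℕ) (hsz : ∀ X, X ≤ sz X ∧ sz X ≤ κ * X)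
    (hE : Eng1 ℕ sz Bad) (μ : Measure ℝ) [IsProbabilityMeasure μ] (hμ : NiceM μ) :
    ∀ᵐ x ∂μ, ∀ T U : ℕ, ∃ C : ℝ, 0 ≤ C ∧ ∀ Y : ℕ, 3 ≤ Y →
      cn (fun m => ∃ n ∈ Bad m, |(n : ℝ) - m * x| ≤ Real.log m ^ T) Y ≤ C * Y * (Real.log Y) ^ (-(U : ℝ)) := by
  have h1 := rare_sparse κ hsz (fun _ : Fin 1 => μ) (rare_of (engT_of hE) (fun _ => μ) (fun _ => hμ))
  have h2 := (measurePreserving_funUnique μ (Fin 1)).symm
  have h3 := h2.quasiMeasurePreserving.ae h1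
  filter_upwards [h3] with x hx T U
  obtain ⟨C, hC0, hC⟩ := hx T U
  refine ⟨C, hC0, fun Y hY => le_trans (cn_mono (fun m hm => ?_) Y) (hC Y hY)⟩
  obtain ⟨n, hn, hd⟩ := hm
  exact ⟨fun _ => n, hn, fun _ => hd⟩

theorem small_part (T U Y : ℕ) (hY : 3 ≤ Y) : (T : ℝ) ≤ T * U.factorial * Y * (Real.log Y) ^ (-(U : ℝ)) := by
  have hY0 : (0 : ℝ) < Y := by exact_mod_cast (by omega : 0 < Y)
  have hlog0 : 0 < Real.log Y := Real.log_pos (by exact_mod_cast (by omega : 1 < Y))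
  rw [Real.rpow_neg hlog0.le, Real.rpow_natCast, ← div_eq_mul_inv, le_div_iff₀ (by positivity)]
  have h1 : Real.log Y ^ U ≤ U.factorial * Y := by
    have h2 := Real.pow_div_factorial_le_exp (Real.log Y) hlog0.le U
    rw [Real.exp_log hY0, div_le_iff₀ (by positivity)] at h2
    linarith
  have hT0 : (0 : ℝ) ≤ T := Nat.cast_nonneg _
  calc (T : ℝ) * Real.log Y ^ U ≤ T * (U.factorial * Y) := by gcongr
    _ = _ := by ring

open Classical in
/-- the number of the `1 ≤ k ≤ N` for which `α P(k)` is not `G` -/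
noncomputable def excCount (G : ℝ → Prop) (α : ℝ) (P : Polynomial ℤ) (N : ℕ) : ℕ :=
  ((Icc 1 N).filter fun k : ℕ => ¬ G (α * ((P.eval (k : ℤ) : ℤ) : ℝ))).card

/-- **transfer of properties of real numbers that are controlled by sparse sets of integers** -/
theorem exc_real {ι : Type} [Countable ι] (q : ℕ) (hq : 2 ≤ q) (X : ι → ℕ → Prop) (G : ι → ℝ → Prop)
    (hX : ∀ i, ∀ U : ℕ, ∃ C : ℝ, 0 ≤ C ∧ ∀ Y : ℕ, 3 ≤ Y → cn (X i) Y ≤ C * Y * (Real.log Y) ^ (-(U : ℝ)))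
    (hG : ∀ i, ∃ T : ℕ, ∀ t : ℝ, 0 ≤ t → T ≤ ⌊t⌋₊ → ¬ X i ⌊t⌋₊ → G i t) :
    ∃ E : Set ℝ, dimH E ≤ ENNReal.ofReal (q / (q + kp q)) ∧ ∀ α : ℝ, 0 < α → α ∉ E → ∀ (i : ι) (U : ℕ),
      ∃ η : ℝ, 0 < η ∧ ∀ᶠ N : ℕ in atTop, ∀ P : Polynomial ℤ, P.natDegree = q → 0 < P.leadingCoeff →
        (∀ j, |((P.coeff j : ℤ) : ℝ)| ≤ (N : ℝ) ^ η) → (excCount (G i) α P N : ℝ) ≤ N / Real.log N ^ U := by
  classical
  choose T hT using hG
  obtain ⟨E, hE, h⟩ := exc_nat q hq (fun i t => t < T i + 1 ∨ X i t)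
  refine ⟨E, hE, fun α hα hαE i U => ?_⟩
  obtain ⟨η, hη, -, h2, -⟩ := h α hα hαE i
  obtain ⟨C, hC0, hC⟩ := hX i (U + 1)
  have h3 := h2 ((U : ℝ) + 1) (C + (T i + 1 : ℕ) * (U + 1).factorial) (by positivity) (fun Y hY => by
    have h4 := hC Y hY
    have h5 := small_part (T i + 1) (U + 1) Y hY
    have h6 : cn (fun t => t < T i + 1 ∨ X i t) Y ≤ (T i + 1 : ℕ) + cn (X i) Y := by
      rw [cn_ncard, cn_ncard]
      have h7 : {t : ℕ | 1 ≤ t ∧ t ≤ Y ∧ (t < T i + 1 ∨ X i t)}.ncard ≤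
          (Set.Iio (T i + 1)).ncard + {t : ℕ | 1 ≤ t ∧ t ≤ Y ∧ X i t}.ncard := by
        refine le_trans (Set.ncard_le_ncard ?_ ?_) (Set.ncard_union_le _ _)
        · rintro t ⟨a1, a2, h8 | h8⟩
          · exact Or.inl h8
          · exact Or.inr ⟨a1, a2, h8⟩
        · exact (Set.finite_Iio _).union ((Set.finite_Iic Y).subset fun t ht => ht.2.1)
      have h9 : (Set.Iio (T i + 1)).ncard = T i + 1 := by
        rw [← Finset.coe_range, Set.ncard_coe_finset, Finset.card_range]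
      rw [h9] at h7
      exact_mod_cast h7
    push_cast at h4 h5 h6 ⊢
    refine h6.trans ((add_le_add h5 h4).trans (le_of_eq ?_))
    ring)
  refine ⟨η, hη, ?_⟩
  have hlarge := (Real.tendsto_log_atTop.comp (tendsto_natCast_atTop_atTop (R := ℝ))).eventually_ge_atTop
    (5 * (|C + (T i + 1 : ℕ) * (U + 1).factorial| * 2 ^ ((U : ℝ) + 1)) + 1)
  filter_upwards [h3, hlarge, eventually_ge_atTop 3] with N g1 g2 hN3
  intro P hdeg hlead hco
  have g3 := g1 P hdeg hlead hco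
  have hN0 : (0 : ℝ) < N := by exact_mod_cast (by omega : 0 < N)
  have hlog0 : 0 < Real.log N := Real.log_pos (by exact_mod_cast (by omega : 1 < N))
  have h7 : (excCount (G i) α P N : ℝ) ≤ cnP (fun t => t < T i + 1 ∨ X i t) α P N := by
    have e1 : cnP (fun t => t < T i + 1 ∨ X i t) α P N =
        cn (fun k : ℕ => (⌊α * ((P.eval (k : ℤ) : ℤ) : ℝ)⌋₊ < T i + 1 ∨ X i ⌊α * ((P.eval (k : ℤ) : ℤ) : ℝ)⌋₊)) N := rfl
    rw [e1, cn_ncard]
    unfold excCount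
    rw [← Set.ncard_coe_finset]
    refine Nat.cast_le.2 (Set.ncard_le_ncard (fun k hk => ?_) ((Set.finite_Iic N).subset fun t ht => ht.2.1))
    rw [mem_coe, mem_filter, mem_Icc] at hk
    refine ⟨hk.1.1, hk.1.2, ?_⟩
    by_contra hcon
    push Not at hcon
    refine hk.2 (hT i _ ?_ (by omega) hcon.2)
    by_contra hneg
    push Not at hneg
    rw [Nat.floor_of_nonpos hneg.le] at hcon
    omega
  refine h7.trans (g3.trans ?_)
  rw [Real.rpow_neg hlog0.le, Real.rpow_add hlog0, Real.rpow_natCast, Real.rpow_one, ← div_eq_mul_inv,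
    div_le_div_iff₀ (by positivity) (by positivity)]
  simp only [Function.comp] at g2
  calc (5 * (|C + (T i + 1 : ℕ) * (U + 1).factorial| * 2 ^ ((U : ℝ) + 1)) + 1) * N * Real.log N ^ U
      ≤ Real.log N * N * Real.log N ^ U := by gcongr
    _ = N * (Real.log N ^ U * Real.log N) := by ring

/-- distances to `t x` and to `⌊t⌋ x` -/
theorem near_floor (x B : ℝ) (hx : |x| ≤ B) (A : ℕ) : ∃ T : ℕ, ∀ t : ℝ, 0 ≤ t → T ≤ ⌊t⌋₊ → ∀ n : ℝ,
    |n - t * x| ≤ Real.log t ^ A → |n - ⌊t⌋₊ * x| ≤ Real.log (⌊t⌋₊ : ℝ) ^ (A + 1) := by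
  obtain ⟨T₀, hT₀⟩ := eventually_atTop.1 ((Real.tendsto_log_atTop.comp tendsto_natCast_atTop_atTop).eventually_ge_atTop
    ((2 : ℝ) ^ A + B))
  refine ⟨max T₀ 3, fun t ht0 ht n hn => ?_⟩
  set u : ℕ := ⌊t⌋₊ with hu
  have hu3 : (3 : ℝ) ≤ u := by exact_mod_cast (le_max_right _ _).trans ht
  have hut : (u : ℝ) ≤ t := Nat.floor_le ht0
  have htu : t < u + 1 := Nat.lt_floor_add_one t
  have hlog : (2 : ℝ) ^ A + B ≤ Real.log u := hT₀ u ((le_max_left _ _).trans ht)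
  have hB0 : (0 : ℝ) ≤ B := (abs_nonneg _).trans hx
  have h2A : (1 : ℝ) ≤ 2 ^ A := one_le_pow₀ (by norm_num)
  have hl1 : 1 ≤ Real.log u := by linarith
  have hlt : Real.log t ≤ 2 * Real.log u := by
    have h3 : Real.log t ≤ Real.log ((u : ℝ) ^ 2) := Real.log_le_log (by linarith) (by nlinarith)
    rwa [Real.log_pow, Nat.cast_ofNat] at h3
  have hlt0 : 0 ≤ Real.log t := Real.log_nonneg (by linarith)
  have h3 : |n - u * x| ≤ |n - t * x| + |(t - u) * x| := by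
    have : n - u * x = (n - t * x) + (t - u) * x := by ring
    rw [this]
    exact abs_add_le _ _
  have h4 : |(t - u) * x| ≤ B := by
    rw [abs_mul]
    have h5 : |t - u| ≤ 1 := by
      rw [abs_le]
      constructor <;> linarith
    calc |t - u| * |x| ≤ 1 * B := by
          refine mul_le_mul h5 hx (abs_nonneg _) zero_le_one
      _ = B := one_mul _
  have h5 : Real.log t ^ A ≤ 2 ^ A * Real.log u ^ A := by
    rw [← mul_pow]
    exact pow_le_pow_left₀ hlt0 hlt A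
  have h6 : (1 : ℝ) ≤ Real.log u ^ A := one_le_pow₀ hl1
  calc |n - u * x| ≤ Real.log t ^ A + B := h3.trans (add_le_add hn h4)
    _ ≤ 2 ^ A * Real.log u ^ A + B * Real.log u ^ A := by nlinarith
    _ = (2 ^ A + B) * Real.log u ^ A := by ring
    _ ≤ Real.log u * Real.log u ^ A := by gcongr
    _ = Real.log u ^ (A + 1) := by ring

end Pool.Agent.Q138.PS
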