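import Pool.Agent.Q138.PS.UK
import Pool.Agent.Q138.PS.UF
import Pool.Agent.Q259.AS.Frm7

/-!
# Dickson's conjecture for linear forms with the constants `⌊α x i P(k)⌋`

Let `q ≥ 2` and let `x = (x 1, ..., x s)` be a typical point of a product of measures on the line each of which is self-similar
(and not a point mass) or has a Fourier transform in some `L^p`; for instance almost every point of `ℝ ^ s`. Outside a set of real
numbers of Hausdorff dimension at most `q / (q + 1 / (q 2 ^ (q - 1)))` (that is `8 / 9` for `q = 2`) every `α > 0` has the following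
property: for ALL integral polynomials `P` of degree `q` with positive leading coefficient and coefficients of size at most
`N ^ η`, for all but `N / (log N) ^ U` of the `k ≤ N`, the asymptotic form of Dickson's conjecture holds for all admissible
systems of linear forms `c i * n + b i`, `i ≤ s`, where `|c i| ≤ Q` and the constants `b i` are near `α x i P(k)`.
-/

set_option autoImplicit false

namespace Pool.Agent.Q138.PS.Forms

open Filter Topology MeasureTheory
open Pool.Agent.Q138.PS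
open Pool.Agent.Q259.AS (SelfSim FourLp BadF HLW shC eng_forms rare_of niceM_of)

/-- No prime divides `∏ i, (c i * n + b i)` for all `n`. -/
def Admissible {s : ℕ} (c b : Fin s → ℤ) : Prop :=
  ∀ p : ℕ, p.Prime → ∃ n : ℕ, ∀ i, ¬ (p : ℤ) ∣ c i * (n : ℤ) + b i

/-- The number of the residues `r` modulo `p` for which `p` divides one of the values `c i * r + b i`. -/
def nu {s : ℕ} (c b : Fin s → ℤ) (p : ℕ) : ℕ :=
  ((Finset.range p).filter (fun r : ℕ => ∃ i, (p : ℤ) ∣ c i * (r : ℤ) + b i)).card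

/-- The partial products `∏_{p ≤ z} (1 - ν(p) / p) / (1 - 1 / p) ^ s` of the singular series. -/
noncomputable def sing {s : ℕ} (c b : Fin s → ℤ) (z : ℕ) : ℝ :=
  ∏ p ∈ (Finset.Icc 1 z).filter Nat.Prime, (1 - (nu c b p : ℝ) / p) / (1 - 1 / (p : ℝ)) ^ s

/-- The number of the integers `n` with `M < n ≤ M + N` for which all the values `c i * n + b i` are primes. -/
noncomputable def primeValues {s : ℕ} (c b : Fin s → ℤ) (M : ℤ) (N : ℕ) : ℕ :=
  ((Finset.Ioc M (M + N)).filter (fun n : ℤ => ∀ i, (c i * n + b i).toNat.Prime)).card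

/-- The partial products of the singular series converge to some `G > 0`, and the number of the integers `n` with
`M < n ≤ M + N` for which all the values are primes is `G * N / log ^ s N` up to the factor `1 ± ε`. -/
def Formula {s : ℕ} (ε : ℝ) (M : ℤ) (N : ℕ) (c b : Fin s → ℤ) : Prop :=
  ∃ G : ℝ, 0 < G ∧ Tendsto (sing c b) atTop (𝓝 G) ∧
    |(primeValues c b M N : ℝ) - G * (N / Real.log N ^ s)| ≤ ε * (G * (N / Real.log N ^ s))

/-- For all integers `b 1, ..., b s` with `|b i - t * x i| ≤ log t ^ A` and all nonzero integers `c 1, ..., c s` with `|c i| ≤ Q`,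
if the family of the linear forms `c i * n + b i` is admissible, then in every window `(M, M + N]` with `|M| ≤ Q t` and
`t / Q ≤ N ≤ Q t` in which all the forms are positive, the number of the integers for which all the forms are primes is given by
the formula of Hardy and Littlewood (Dickson, Bateman and Horn) up to a relative error of `ε`. -/
def Good {s : ℕ} (ε : ℝ) (A Q : ℕ) (x : Fin s → ℝ) (t : ℝ) : Prop :=
  ∀ b : Fin s → ℤ, (∀ i, |(b i : ℝ) - t * x i| ≤ Real.log t ^ A) →
    ∀ c : Fin s → ℤ, (∀ i, c i ≠ 0 ∧ |c i| ≤ Q) → Admissible c b →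
    ∀ (M : ℤ) (N : ℕ), |(M : ℝ)| ≤ Q * t → (N : ℝ) ≤ Q * t → t ≤ Q * N →
    (∀ n : ℤ, M < n → n ≤ M + N → ∀ i, 0 < c i * n + b i) → Formula ε M N c b

open Classical in
/-- the number of the `1 ≤ k ≤ N` for which `α P(k)` is not `Good` -/
noncomputable def exceptions {s : ℕ} (ε : ℝ) (A Q : ℕ) (x : Fin s → ℝ) (α : ℝ) (P : Polynomial ℤ) (N : ℕ) : ℕ :=
  ((Finset.Icc 1 N).filter fun k : ℕ => ¬ Good ε A Q x (α * ((P.eval (k : ℤ) : ℤ) : ℝ))).card

/-- the exceptional integers -/
def Exc {s : ℕ} (x : Fin s → ℝ) (m A Q T : ℕ) (t : ℕ) : Prop :=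
  t < T ∨ ∃ n ∈ BadF s Q (2 * Q + 2) (1 / ((m : ℝ) + 1)) t, ∀ i, |(n i : ℝ) - t * x i| ≤ Real.log t ^ (A + 1)

/-- from the integers to the real numbers -/
theorem good_of {s : ℕ} (x : Fin s → ℝ) (ε : ℝ) (m : ℕ) (hm : 1 / ((m : ℝ) + 1) < ε) (A Q B T : ℕ)
    (hx : ∀ i, |x i| ≤ (B : ℝ)) (hT : 3 ≤ T) (hT' : ∀ t : ℕ, T ≤ t → (2 : ℝ) ^ A + B ≤ Real.log t) (t : ℝ)
    (ht : ¬ Exc x m A Q T ⌊t⌋₊) : Good ε A Q x t := by
  unfold Exc at ht
  push Not at ht
  obtain ⟨h1, h2⟩ := ht
  set u : ℕ := ⌊t⌋₊ with hu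
  have hu3 : (3 : ℝ) ≤ u := by exact_mod_cast hT.trans h1
  have ht0 : 0 ≤ t := by
    by_contra hcon
    push Not at hcon
    have : ⌊t⌋₊ = 0 := Nat.floor_of_nonpos hcon.le
    rw [← hu] at this
    rw [this] at hu3
    norm_num at hu3
  have hut : (u : ℝ) ≤ t := Nat.floor_le ht0
  have htu : t < u + 1 := Nat.lt_floor_add_one t
  have hlog := hT' u h1
  have hB0 : (0 : ℝ) ≤ B := Nat.cast_nonneg _
  have h2A : (1 : ℝ) ≤ 2 ^ A := one_le_pow₀ (by norm_num)
  have hl1 : 1 ≤ Real.log u := by linarith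
  have hlt : Real.log t ≤ 2 * Real.log u := by
    have h3 : Real.log t ≤ Real.log ((u : ℝ) ^ 2) := Real.log_le_log (by linarith) (by nlinarith)
    rwa [Real.log_pow, Nat.cast_ofNat] at h3
  have hlt0 : 0 ≤ Real.log t := Real.log_nonneg (by linarith)
  intro b hb c hc hadm M N hM hN1 hN2 hpos
  by_contra hcon
  obtain ⟨i, hi⟩ := h2 b ⟨c, hc, by
    intro p hp
    obtain ⟨n, hn⟩ := hadm p hp
    unfold Pool.Agent.Y820.LF.nuF
    have h1 : (Finset.range p).filter (fun r : ℕ => ∃ i, (p : ℤ) ∣ c i * (r : ℤ) + b i) ⊂ Finset.range p := by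
      rw [Finset.filter_ssubset]
      refine ⟨n % p, Finset.mem_range.2 (Nat.mod_lt _ hp.pos), ?_⟩
      rintro ⟨i, hi⟩
      apply hn i
      have h2 : c i * (n : ℤ) + b i = (c i * ((n % p : ℕ) : ℤ) + b i) + c i * ((n : ℤ) - ((n % p : ℕ) : ℤ)) := by ring
      rw [h2]
      apply dvd_add hi
      apply Dvd.dvd.mul_left
      rw [Int.natCast_mod]
      exact Int.dvd_self_sub_emod
    have h3 := Finset.card_lt_card h1
    rwa [Finset.card_range] at h3, M, N, by
      have h3 : |(M : ℝ)| ≤ (2 * Q + 2) * u := by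
        refine hM.trans ?_
        have : (0 : ℝ) ≤ Q := Nat.cast_nonneg _
        nlinarith
      exact_mod_cast h3, by
      have h3 : (N : ℝ) ≤ (2 * Q + 2) * u := by
        refine hN1.trans ?_
        have : (0 : ℝ) ≤ Q := Nat.cast_nonneg _
        nlinarith
      exact_mod_cast h3, by
      have h3 : (u : ℝ) ≤ (2 * Q + 2) * N := by
        refine (hut.trans hN2).trans ?_
        have : (0 : ℝ) ≤ Q := Nat.cast_nonneg _
        have : (0 : ℝ) ≤ N := Nat.cast_nonneg _
        nlinarith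
      exact_mod_cast h3, by
      intro i
      have hN0 : 1 ≤ N := by
        by_contra hcon
        have h1 : N = 0 := by omega
        rw [h1] at hN2
        simp only [Nat.cast_zero, mul_zero] at hN2
        linarith
      unfold shC
      have h1 := hpos (M + 1) (by omega) (by omega) i
      have h2 := hpos (M + N) (by omega) le_rfl i
      constructor
      · have : c i * (M + 1) + b i = c i + (b i + c i * M) := by ring
        omega
      · have : c i * (M + N) + b i = c i * (N : ℤ) + (b i + c i * M) := by ring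
        omega, by
      rintro ⟨G, hG0, hG1, hG2⟩
      refine hcon ⟨G, hG0, hG1, hG2.trans ?_⟩
      apply mul_le_mul_of_nonneg_right hm.le
      have : 0 ≤ Real.log (N : ℝ) := Real.log_natCast_nonneg N
      positivity⟩
  refine absurd ?_ (not_le.2 hi)
  have h3 : |(b i : ℝ) - u * x i| ≤ |(b i : ℝ) - t * x i| + |(t - u) * x i| := by
    have : (b i : ℝ) - u * x i = (b i - t * x i) + (t - u) * x i := by ring
    rw [this]
    exact abs_add_le _ _
  have h4 : |(t - u) * x i| ≤ B := by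
    rw [abs_mul]
    have h5 : |t - u| ≤ 1 := by
      rw [abs_le]
      constructor <;> linarith
    calc |t - u| * |x i| ≤ 1 * B := by
          refine mul_le_mul h5 (hx i) (abs_nonneg _) zero_le_one
      _ = B := one_mul _
  have h5 : Real.log t ^ A ≤ 2 ^ A * Real.log u ^ A := by
    rw [← mul_pow]
    exact pow_le_pow_left₀ hlt0 hlt A
  have h6 : (1 : ℝ) ≤ Real.log u ^ A := one_le_pow₀ hl1
  calc |(b i : ℝ) - u * x i| ≤ Real.log t ^ A + B := h3.trans (add_le_add (hb i) h4)
    _ ≤ 2 ^ A * Real.log u ^ A + B * Real.log u ^ A := by nlinarith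
    _ = (2 ^ A + B) * Real.log u ^ A := by ring
    _ ≤ Real.log u * Real.log u ^ A := by gcongr
    _ = Real.log u ^ (A + 1) := by ring

theorem small_part (T U Y : ℕ) (hY : 3 ≤ Y) : (T : ℝ) ≤ T * U.factorial * Y * (Real.log Y) ^ (-(U : ℝ)) := by
  have hY0 : (0 : ℝ) < Y := by exact_mod_cast (by omega : 0 < Y)
  have hlog0 : 0 < Real.log Y := Real.log_pos (by exact_mod_cast (by omega : 1 < Y))
  rw [Real.rpow_neg hlog0.le, Real.rpow_natCast, ← div_eq_mul_inv, le_div_iff₀ (by positivity)]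
  have h1 : Real.log Y ^ U ≤ U.factorial * Y := by
    have h2 := Real.pow_div_factorial_le_exp (Real.log Y) hlog0.le U
    rw [Real.exp_log hY0, div_le_iff₀ (by positivity)] at h2
    linarith
  have hT0 : (0 : ℝ) ≤ T := Nat.cast_nonneg _
  calc (T : ℝ) * Real.log Y ^ U ≤ T * (U.factorial * Y) := by gcongr
    _ = _ := by ring

/-- **Theorem.** Let `μ 1, ..., μ s` be probability measures on the line each of which is self-similar and not a point mass, or has
a Fourier transform in some `L^p`, `p < ∞`, and let `q ≥ 2`. For almost every `x = (x 1, ..., x s)`, with respect to the product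
of the measures, there is a set `E` of Hausdorff dimension at most `q / (q + 1 / (q 2 ^ (q - 1)))` such that for all `α > 0`
outside `E`, all `ε > 0` and all `A, Q, U` there is `η > 0` such that for all large `N` and ALL `P ∈ ℤ[X]` of degree `q` with
positive leading coefficient and coefficients of size at most `N ^ η`: for all but at most `N / (log N) ^ U` of the `k ≤ N` the
asymptotic form of Dickson's conjecture holds, up to a relative error of `ε`, for all admissible systems of forms `c i * n + b i`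
with `|b i - α x i P(k)| ≤ log (α P(k)) ^ A` and `1 ≤ |c i| ≤ Q`, in all windows comparable with `P(k)`. -/
theorem forms_main (s : ℕ) (hs : 1 ≤ s) (μ : Fin s → Measure ℝ) [∀ i, IsProbabilityMeasure (μ i)]
    (hμ : ∀ i, SelfSim (μ i) ∨ FourLp (μ i)) (q : ℕ) (hq : 2 ≤ q) :
    ∀ᵐ x ∂(Measure.pi μ), ∃ E : Set ℝ, dimH E ≤ ENNReal.ofReal (q / (q + 1 / ((q : ℝ) * 2 ^ (q - 1)))) ∧
      ∀ α : ℝ, 0 < α → α ∉ E → ∀ ε : ℝ, 0 < ε → ∀ A Q U : ℕ, ∃ η : ℝ, 0 < η ∧ ∀ᶠ N : ℕ in atTop,
        ∀ P : Polynomial ℤ, P.natDegree = q → 0 < P.leadingCoeff → (∀ j, |((P.coeff j : ℤ) : ℝ)| ≤ (N : ℝ) ^ η) →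
          (exceptions ε A Q x α P N : ℝ) ≤ N / Real.log N ^ U := by
  classical
  have h1 : ∀ m Q : ℕ, ∀ᵐ x ∂(Measure.pi μ), ∀ T U : ℕ, ∃ C : ℝ, 0 ≤ C ∧ ∀ Y : ℕ, 3 ≤ Y →
      cn (fun t => ∃ n ∈ BadF s Q (2 * Q + 2) (1 / ((m : ℝ) + 1)) t, ∀ i, |(n i : ℝ) - t * x i| ≤ Real.log t ^ T) Y ≤
        C * Y * (Real.log Y) ^ (-(U : ℝ)) := by
    intro m Q
    refine rare_sparse (8 * (Q + 1) * (2 * Q + 2 + 1)) (sz := fun X => 8 * (Q + 1) * (2 * Q + 2 + 1) * X) (fun X => ⟨?_, le_rfl⟩) μ
      (rare_of (eng_forms s Q (2 * Q + 2) hs (by omega) (1 / ((m : ℝ) + 1)) (by positivity)) μ fun i => niceM_of (μ i) (hμ i))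
    have : 1 ≤ 8 * (Q + 1) * (2 * Q + 2 + 1) := Nat.one_le_iff_ne_zero.2 (by positivity)
    nlinarith
  filter_upwards [ae_all_iff.2 fun m => ae_all_iff.2 (h1 m)] with x hx
  obtain ⟨E, hE, h⟩ := exc_nat (ι := ℕ × ℕ × ℕ × ℕ) q hq (fun i => Exc x i.1 i.2.1 i.2.2.1 i.2.2.2)
  refine ⟨E, hE, fun α hα hαE ε hε A Q U => ?_⟩
  obtain ⟨m, hm⟩ := exists_nat_one_div_lt hε
  obtain ⟨B, hB⟩ := exists_nat_ge (∑ i, |x i|)
  have hxB : ∀ i, |x i| ≤ (B : ℝ) := fun i =>
    (Finset.single_le_sum (f := fun i => |x i|) (fun i _ => abs_nonneg _) (Finset.mem_univ i)).trans hB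
  obtain ⟨T₀, hT₀⟩ := eventually_atTop.1 ((Real.tendsto_log_atTop.comp tendsto_natCast_atTop_atTop).eventually_ge_atTop
    ((2 : ℝ) ^ A + B))
  set T : ℕ := max T₀ 3 with hT
  have hT' : ∀ t : ℕ, T ≤ t → (2 : ℝ) ^ A + B ≤ Real.log t := fun t ht => hT₀ t ((le_max_left _ _).trans ht)
  obtain ⟨η, hη, -, h2, -⟩ := h α hα hαE (m, A, Q, T)
  obtain ⟨C, hC0, hC⟩ := hx m Q (A + 1) (U + 1)
  have h3 := h2 ((U : ℝ) + 1) (C + T * (U + 1).factorial) (by positivity) (fun Y hY => by
    have h4 := hC Y hY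
    have h5 := small_part T (U + 1) Y hY
    have h6 : cn (Exc x m A Q T) Y ≤ T + cn (fun t => ∃ n ∈ BadF s Q (2 * Q + 2) (1 / ((m : ℝ) + 1)) t,
        ∀ i, |(n i : ℝ) - t * x i| ≤ Real.log t ^ (A + 1)) Y := by
      unfold cn
      have h7 : (Finset.Icc 1 Y).filter (Exc x m A Q T) ⊆ (Finset.range T) ∪
          (Finset.Icc 1 Y).filter (fun t : ℕ => ∃ n ∈ BadF s Q (2 * Q + 2) (1 / ((m : ℝ) + 1)) t,
            ∀ i, |(n i : ℝ) - t * x i| ≤ Real.log t ^ (A + 1)) := by
        intro t ht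
        rw [Finset.mem_filter] at ht
        rw [Finset.mem_union, Finset.mem_range, Finset.mem_filter]
        rcases ht.2 with h8 | h8
        · exact Or.inl h8
        · exact Or.inr ⟨ht.1, h8⟩
      have h9 := (Finset.card_le_card h7).trans (Finset.card_union_le _ _)
      rw [Finset.card_range] at h9
      exact_mod_cast h9
    push_cast at h4 h5 ⊢
    refine h6.trans ((add_le_add h5 h4).trans (le_of_eq ?_))
    ring)
  refine ⟨η, hη, ?_⟩
  have hlarge := (Real.tendsto_log_atTop.comp (tendsto_natCast_atTop_atTop (R := ℝ))).eventually_ge_atTop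
    (5 * (|C + T * (U + 1).factorial| * 2 ^ ((U : ℝ) + 1)) + 1)
  filter_upwards [h3, hlarge, eventually_ge_atTop 3] with N g1 g2 hN3
  intro P hdeg hlead hco
  have g3 := g1 P hdeg hlead hco
  have hN0 : (0 : ℝ) < N := by exact_mod_cast (by omega : 0 < N)
  have hlog0 : 0 < Real.log N := Real.log_pos (by exact_mod_cast (by omega : 1 < N))
  have h7 : (exceptions ε A Q x α P N : ℝ) ≤ cnP (Exc x m A Q T) α P N := by
    unfold exceptions cnP cn
    refine Nat.cast_le.2 (Finset.card_le_card fun k hk => ?_)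
    rw [Finset.mem_filter] at hk ⊢
    refine ⟨hk.1, ?_⟩
    by_contra hcon
    exact hk.2 (good_of x ε m hm A Q B T hxB (le_max_right _ _) hT' _ hcon)
  refine h7.trans (g3.trans ?_)
  rw [Real.rpow_neg hlog0.le, Real.rpow_add hlog0, Real.rpow_natCast, Real.rpow_one, ← div_eq_mul_inv,
    div_le_div_iff₀ (by positivity) (by positivity)]
  simp only [Function.comp] at g2
  calc (5 * (|C + T * (U + 1).factorial| * 2 ^ ((U : ℝ) + 1)) + 1) * N * Real.log N ^ U
      ≤ Real.log N * N * Real.log N ^ U := by gcongr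
    _ = N * (Real.log N ^ U * Real.log N) := by ring

end Pool.Agent.Q138.PS.Forms
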