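import Pool.Agent.Q138.PS.UL
import Pool.Agent.Q259.AS.Sel7

/-!
# Exceptional sets near the integers, from the uniform measure
-/

set_option autoImplicit false

namespace Pool.Agent.Q138.PS

open Finset Filter Topology MeasureTheory
open Pool.Agent.Q259.AS (Rare Eng1 engT_of rare_of NiceM FourLp niceM_of)

/-- the exceptional sets are rarely met, one dimension -/
theorem rare_one {P : Type} {sz : P → ℕ} {Bad : P → Set ℤ} (hE : Eng1 P sz Bad) (μ : Measure ℝ)
    [IsProbabilityMeasure μ] (hμ : NiceM μ) (B U T : ℕ) : ∃ a₀ : ℝ, ∀ a : ℝ, a₀ ≤ a → ∀ y : ℝ, |y| ≤ B * a →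
    ∀ q : P, a ≤ B * sz q → (sz q : ℝ) ≤ B * a →
    μ.real {x : ℝ | |x| ≤ B ∧ ∃ n ∈ Bad q, |(n : ℝ) - (a * x + y)| ≤ Real.log a ^ T} ≤ 1 / Real.log a ^ U := by
  obtain ⟨a₀, h0⟩ := rare_of (engT_of hE) (fun _ : Fin 1 => μ) (fun _ => hμ) B U T
  refine ⟨a₀, fun a ha y hy q hq1 hq2 => ?_⟩
  have h1 := h0 a ha (fun _ => y) (fun _ => hy) q hq1 hq2
  have h2 := (measurePreserving_funUnique μ (Fin 1)).symm
  have h3 := h2.measure_preimage_equiv {x : Fin 1 → ℝ | (∀ i, |x i| ≤ B) ∧ ∃ n ∈ {n : Fin 1 → ℤ | n 0 ∈ Bad q},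
    ∀ i, |(n i : ℝ) - (a * x i + y)| ≤ Real.log a ^ T}
  refine le_trans (le_of_eq ?_) h1
  refine congrArg ENNReal.toReal (Eq.trans (congrArg μ ?_) h3)
  ext x
  constructor
  · rintro ⟨h4, n, hn, h5⟩
    exact ⟨fun _ => h4, fun _ => n, hn, fun _ => h5⟩
  · rintro ⟨h4, n, hn, h5⟩
    exact ⟨h4 0, n 0, hn, h5 0⟩

/-- the uniform measure on `[0, 1]` -/
noncomputable def unif : Measure ℝ := volume.restrict (Set.Icc (0 : ℝ) 1)

instance : IsProbabilityMeasure unif := by
  constructor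
  unfold unif
  rw [Measure.restrict_apply MeasurableSet.univ, Set.univ_inter, Real.volume_Icc]
  norm_num

theorem char_unif (t : ℝ) (ht : t ≠ 0) : ‖charFun unif t‖ ≤ 2 / |t| := by
  have h1 : charFun unif t = (Complex.exp (t * Complex.I) - 1) / (t * Complex.I) := by
    rw [charFun_apply_real]
    unfold unif
    rw [integral_Icc_eq_integral_Ioc, ← intervalIntegral.integral_of_le zero_le_one]
    have hc : (t : ℂ) * Complex.I ≠ 0 := mul_ne_zero (Complex.ofReal_ne_zero.2 ht) Complex.I_ne_zero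
    have h2 := integral_exp_mul_complex (a := (0 : ℝ)) (b := 1) hc
    rw [← show (Complex.exp (t * Complex.I * ((1 : ℝ) : ℂ)) - Complex.exp (t * Complex.I * ((0 : ℝ) : ℂ))) / (t * Complex.I) =
      (Complex.exp (t * Complex.I) - 1) / (t * Complex.I) by simp, ← h2]
    refine intervalIntegral.integral_congr fun x _ => ?_
    congr 1
    ring
  rw [h1, norm_div, norm_mul, Complex.norm_I, mul_one, Complex.norm_real, Real.norm_eq_abs]
  have h3 : ‖Complex.exp (t * Complex.I) - 1‖ ≤ 2 := by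
    refine (norm_sub_le _ _).trans ?_
    rw [Complex.norm_exp_ofReal_mul_I, norm_one]
    norm_num
  have h4 : 0 < |t| := abs_pos.2 ht
  gcongr

theorem four_unif : FourLp unif := by
  refine ⟨2, ?_⟩
  have hmeas : AEStronglyMeasurable (fun t : ℝ => ‖charFun unif t‖ ^ 2) volume := by
    have : Continuous (fun t : ℝ => charFun unif t) := by fun_prop
    exact (this.norm.pow 2).aestronglyMeasurable
  have hb : ∀ t : ℝ, ‖charFun unif t‖ ≤ 1 := fun t => norm_charFun_le_one t
  have hdom : Integrable (fun t : ℝ => 5 * (1 + t ^ 2)⁻¹) volume := integrable_inv_one_add_sq.const_mul 5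
  refine hdom.mono' hmeas (Eventually.of_forall fun t => ?_)
  rw [Real.norm_eq_abs, abs_of_nonneg (by positivity)]
  have hpos : (0 : ℝ) < 1 + t ^ 2 := by positivity
  rw [← div_eq_mul_inv, le_div_iff₀ hpos]
  have h1 : ‖charFun unif t‖ ^ 2 ≤ 1 := by
    have := hb t
    have h0 := norm_nonneg (charFun unif t)
    nlinarith
  have h2 : ‖charFun unif t‖ ^ 2 * t ^ 2 ≤ 4 := by
    by_cases ht : t = 0
    · rw [ht]
      norm_num
    · have h3 := char_unif t ht
      have h4 : 0 < |t| := abs_pos.2 ht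
      rw [le_div_iff₀ h4] at h3
      have h5 : (‖charFun unif t‖ * |t|) ^ 2 ≤ 2 ^ 2 := by
        have : 0 ≤ ‖charFun unif t‖ * |t| := by positivity
        gcongr
      rw [mul_pow, sq_abs] at h5
      linarith
  linarith

/-- **exceptional sets near the integers** -/
theorem near_count {B : Set ℤ} {sz : ℕ → ℕ} (κ : ℕ) (hsz : ∀ X, X ≤ sz X ∧ sz X ≤ κ * X) (hE : Eng1 ℕ sz (fun _ => B)) (T U : ℕ) :
    ∃ C : ℝ, 0 ≤ C ∧ ∀ Y : ℕ, 3 ≤ Y →
      cn (fun m => ∃ n ∈ B, |(n : ℝ) - m| ≤ Real.log m ^ T) Y ≤ C * Y * (Real.log Y) ^ (-(U : ℝ)) := by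
  classical
  obtain ⟨a₀, ha₀⟩ := rare_one hE unif (niceM_of unif (Or.inr four_unif)) (κ + 1) U (T + 1)
  set Y₀ : ℕ := ⌈a₀⌉₊ + 9 with hY₀
  -- large `Y`
  have hlarge : ∀ Y : ℕ, Y₀ ≤ Y → cn (fun m => ∃ n ∈ B, |(n : ℝ) - m| ≤ Real.log m ^ T) Y ≤ Y / Real.log Y ^ U + 1 := by
    intro Y hY
    have hYa : a₀ ≤ Y := (Nat.le_ceil a₀).trans (by exact_mod_cast (by omega : ⌈a₀⌉₊ ≤ Y))
    have hY9 : (9 : ℝ) ≤ Y := by exact_mod_cast (by omega : 9 ≤ Y)
    have hY0 : (0 : ℝ) < Y := by linarith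
    have hlog : 2 ≤ Real.log Y := by
      have h1 : Real.log 9 ≤ Real.log Y := Real.log_le_log (by norm_num) hY9
      have h2 : Real.log 9 = 2 * Real.log 3 := by
        rw [show (9 : ℝ) = 3 ^ 2 by norm_num, Real.log_pow]
        norm_num
      have h3 : (1 : ℝ) ≤ Real.log 3 := by
        rw [Real.le_log_iff_exp_le (by norm_num)]
        linarith [Real.exp_one_lt_d9]
      linarith
    obtain ⟨g1, g2⟩ := hsz Y
    have g1' : (Y : ℝ) ≤ sz Y := by exact_mod_cast g1
    have g2' : (sz Y : ℝ) ≤ κ * Y := by exact_mod_cast g2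
    have hκ0 : (0 : ℝ) ≤ κ := Nat.cast_nonneg _
    have h1 := ha₀ Y hYa 0 (by rw [abs_zero]; positivity) Y (by
      push_cast
      nlinarith) (by
      push_cast
      nlinarith)
    -- the exceptional integers below `Y`
    set S : Finset ℕ := (Icc 1 (Y - 1)).filter (fun m : ℕ => ∃ n ∈ B, |(n : ℝ) - m| ≤ Real.log m ^ T) with hS
    have hcn : cn (fun m : ℕ => ∃ n ∈ B, |(n : ℝ) - m| ≤ Real.log m ^ T) Y ≤ S.card + 1 := by
      rw [cn_ncard]
      have h2 : {m : ℕ | 1 ≤ m ∧ m ≤ Y ∧ ∃ n ∈ B, |(n : ℝ) - m| ≤ Real.log m ^ T}.ncard ≤ (insert Y S).card := by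
        rw [← Set.ncard_coe_finset]
        refine Set.ncard_le_ncard ?_ (Finset.finite_toSet _)
        rintro m ⟨h3, h4, h5⟩
        rw [mem_coe, mem_insert]
        rcases Nat.lt_or_ge m Y with h6 | h6
        · right
          rw [hS, mem_filter, mem_Icc]
          exact ⟨⟨h3, by omega⟩, h5⟩
        · left
          omega
      have h3 := h2.trans (Finset.card_insert_le _ _)
      exact_mod_cast h3
    have hmeas : (S.card : ℝ) / Y ≤ 1 / Real.log Y ^ U := by
      refine le_trans ?_ h1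
      have hsub : (⋃ m ∈ S, Set.Ico ((m : ℝ) / Y) (((m : ℝ) + 1) / Y)) ⊆
          {x : ℝ | |x| ≤ ((κ + 1 : ℕ) : ℝ) ∧ ∃ n ∈ B, |(n : ℝ) - ((Y : ℝ) * x + 0)| ≤ Real.log Y ^ (T + 1)} := by
        intro x hx
        rw [Set.mem_iUnion₂] at hx
        obtain ⟨m, hm, hx1, hx2⟩ := hx
        rw [hS, mem_filter, mem_Icc] at hm
        obtain ⟨⟨hm1, hm2⟩, n, hn, hd⟩ := hm
        rw [div_le_iff₀ hY0] at hx1
        rw [lt_div_iff₀ hY0] at hx2
        have hm2' : (m : ℝ) + 1 ≤ Y := by exact_mod_cast (by omega : m + 1 ≤ Y)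
        have hm1' : (1 : ℝ) ≤ m := by exact_mod_cast hm1
        refine ⟨?_, n, hn, ?_⟩
        · rw [abs_le]
          push_cast
          constructor
          · nlinarith
          · nlinarith
        · have h3 : |(n : ℝ) - ((Y : ℝ) * x + 0)| ≤ |(n : ℝ) - m| + |(m : ℝ) - Y * x| := by
            have : (n : ℝ) - ((Y : ℝ) * x + 0) = (n - m) + (m - Y * x) := by ring
            rw [this]
            exact abs_add_le _ _
          have h4 : |(m : ℝ) - Y * x| ≤ 1 := by
            rw [abs_le]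
            constructor <;> linarith
          have h5 : Real.log m ^ T ≤ Real.log Y ^ T := by
            have h6 : 0 ≤ Real.log m := Real.log_nonneg hm1'
            have h7 : Real.log m ≤ Real.log Y := Real.log_le_log (by linarith) (by linarith)
            gcongr
          have h8 : (1 : ℝ) ≤ Real.log Y ^ T := one_le_pow₀ (by linarith)
          have h9 : Real.log Y ^ (T + 1) = Real.log Y ^ T * Real.log Y := pow_succ _ _
          nlinarith
      have hdisj : Set.PairwiseDisjoint (S : Set ℕ) fun m : ℕ => Set.Ico ((m : ℝ) / Y) (((m : ℝ) + 1) / Y) := by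
        intro m _ m' _ hne
        rw [Function.onFun, Set.disjoint_left]
        rintro x ⟨a1, a2⟩ ⟨b1, b2⟩
        rw [div_le_iff₀ hY0] at a1 b1
        rw [lt_div_iff₀ hY0] at a2 b2
        apply hne
        have c1 : (m : ℝ) < m' + 1 := by linarith
        have c2 : (m' : ℝ) < m + 1 := by linarith
        have c1' : m < m' + 1 := by exact_mod_cast c1
        have c2' : m' < m + 1 := by exact_mod_cast c2
        omega
      have hval : unif.real (⋃ m ∈ S, Set.Ico ((m : ℝ) / Y) (((m : ℝ) + 1) / Y)) = (S.card : ℝ) / Y := by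
        rw [measureReal_biUnion_finset hdisj (fun m _ => measurableSet_Ico)]
        have h3 : ∀ m ∈ S, unif.real (Set.Ico ((m : ℝ) / Y) (((m : ℝ) + 1) / Y)) = 1 / Y := by
          intro m hm
          rw [hS, mem_filter, mem_Icc] at hm
          have hm2' : (m : ℝ) + 1 ≤ Y := by exact_mod_cast (by omega : m + 1 ≤ Y)
          have hm0 : (0 : ℝ) ≤ m := Nat.cast_nonneg _
          unfold Measure.real unif
          rw [Measure.restrict_apply measurableSet_Ico, Set.inter_eq_left.2, Real.volume_Ico, ENNReal.toReal_ofReal]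
          · field_simp
            ring
          · rw [← sub_div]
            have : (m : ℝ) + 1 - m = 1 := by ring
            rw [this]
            positivity
          · intro x hx
            refine ⟨le_trans (by positivity) hx.1, hx.2.le.trans ?_⟩
            rw [div_le_one hY0]
            exact hm2'
        rw [sum_congr rfl h3, sum_const, nsmul_eq_mul]
        ring
      rw [← hval]
      exact measureReal_mono hsub (measure_ne_top _ _)
    rw [div_le_div_iff₀ hY0 (by positivity), one_mul] at hmeas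
    refine hcn.trans ?_
    have : (S.card : ℝ) ≤ Y / Real.log Y ^ U := by
      rw [le_div_iff₀ (by positivity)]
      exact hmeas
    linarith
  refine ⟨(Y₀ + 1 : ℕ) * U.factorial + 1, by positivity, fun Y hY => ?_⟩
  have hY0 : (0 : ℝ) < Y := by exact_mod_cast (by omega : 0 < Y)
  have hlog0 : 0 < Real.log Y := Real.log_pos (by exact_mod_cast (by omega : 1 < Y))
  have h5 := small_part (Y₀ + 1) U Y hY
  have h6 : (Y : ℝ) / Real.log Y ^ U = Y * (Real.log Y) ^ (-(U : ℝ)) := by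
    rw [Real.rpow_neg hlog0.le, Real.rpow_natCast, ← div_eq_mul_inv]
  have h7 : (0 : ℝ) ≤ Y * (Real.log Y) ^ (-(U : ℝ)) := by positivity
  rcases Nat.lt_or_ge Y Y₀ with h | h
  · have h8 : cn (fun m => ∃ n ∈ B, |(n : ℝ) - m| ≤ Real.log m ^ T) Y ≤ ((Y₀ + 1 : ℕ) : ℝ) := by
      refine (cn_le_self _ _).trans ?_
      exact_mod_cast (by omega : Y ≤ Y₀ + 1)
    nlinarith
  · have h8 := hlarge Y h
    rw [h6] at h8
    have h9 : (1 : ℝ) ≤ ((Y₀ + 1 : ℕ) : ℝ) := by exact_mod_cast (by omega : 1 ≤ Y₀ + 1)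
    nlinarith

end Pool.Agent.Q138.PS
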