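import Pool.Agent.Q138.PS.UB
import Pool.Agent.Q138.PS.UC

/-!
# Positive proportions along `⌊α P(n)⌋`
-/

set_option autoImplicit false

namespace Pool.Agent.Q138.PS

open Finset Filter Topology

/-- **positive proportions are inherited by `⌊α P(n)⌋`, up to a factor `2`** -/
theorem low_pos {ι : Type} [Countable ι] (q : ℕ) (hq : 2 ≤ q) (Q : ι → ℕ → Prop) (c : ι → ℝ) (hc : ∀ i, 0 < c i)
    (hQ : ∀ i, ∀ᶠ y : ℕ in atTop, c i * y ≤ cn (Q i) y) :
    ∃ E : Set ℝ, dimH E ≤ ENNReal.ofReal (q / (q + 1 / ((q : ℝ) * 2 ^ (q - 1)))) ∧ ∀ α : ℝ, 0 < α → α ∉ E → ∀ i,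
      ∃ η : ℝ, 0 < η ∧ ∀ᶠ N : ℕ in atTop, ∀ P : Polynomial ℤ, P.natDegree = q →
      0 < P.leadingCoeff → (∀ j, |((P.coeff j : ℤ) : ℝ)| ≤ (N : ℝ) ^ η) → c i / 2 * N ≤ cnP (Q i) α P N := by
  classical
  have hT : ∀ y : ℕ, cn (fun _ => True) y = y := by
    intro y
    unfold cn
    simp
  obtain ⟨E, hE, hg⟩ := low_nat q hq Q (fun _ _ => True) c (by
    intro _ η hη
    filter_upwards [eventually_ge_atTop 1] with y hy
    rw [hT]
    have h1 : (1 : ℝ) ≤ y := by exact_mod_cast hy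
    calc (y : ℝ) ^ (1 - η) ≤ (y : ℝ) ^ (1 : ℝ) := Real.rpow_le_rpow_of_exponent_le h1 (by linarith)
      _ = y := Real.rpow_one _) (by
    intro i ε hε
    filter_upwards [hQ i] with y hy
    rw [hT]
    have h1 : (c i - ε) * (y : ℝ) ≤ c i * y := by
      have : (0 : ℝ) ≤ y := Nat.cast_nonneg _
      nlinarith
    exact h1.trans hy)
  refine ⟨E, hE, fun α hα hαE i => ?_⟩
  obtain ⟨η, hη, hN⟩ := hg α hα hαE i
  refine ⟨η, hη, ?_⟩
  filter_upwards [hN (c i / 2) (by have := hc i; positivity)] with N g P hdeg hlead hco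
  have k := (g P hdeg hlead hco).1
  have hT' : cnP (fun _ => True) α P N = N := by
    unfold cnP
    exact hT N
  rw [hT'] at k
  refine le_trans (le_of_eq ?_) k
  ring

end Pool.Agent.Q138.PS
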