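import Pool.Agent.Q138.PS.TW

/-!
# Exceptional sets smaller than any power of the logarithm, along `⌊α P(n)⌋`
-/

set_option autoImplicit false

namespace Pool.Agent.Q138.PS

open Finset Filter Topology

theorem cn_le_self' (X : ℕ → Prop) (y : ℕ) : cn X y ≤ y := by
  classical
  unfold cn
  exact_mod_cast (card_filter_le _ _).trans (by simp)

/-- **exceptional sets smaller than any power of the logarithm** -/
theorem exc_pow {ι : Type} [Countable ι] (q : ℕ) (hq : 2 ≤ q) (X : ι → ℕ → Prop) :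
    ∃ E : Set ℝ, dimH E ≤ ENNReal.ofReal (q / (q + 1 / ((q : ℝ) * 2 ^ (q - 1)))) ∧ ∀ α : ℝ, 0 < α → α ∉ E → ∀ i : ι,
      ∃ η : ℝ, 0 < η ∧ ((∀ U : ℕ, ∃ Y₀ : ℕ, ∀ Y : ℕ, Y₀ ≤ Y → cn (X i) Y ≤ Y / (Real.log Y) ^ U) →
      ∀ U : ℕ, ∀ᶠ N : ℕ in atTop, ∀ P : Polynomial ℤ, P.natDegree = q →
      0 < P.leadingCoeff → (∀ j, |((P.coeff j : ℤ) : ℝ)| ≤ (N : ℝ) ^ η) →
      cnP (X i) α P N ≤ N / (Real.log N) ^ U) := by
  obtain ⟨E, hE, h⟩ := exc_nat q hq X
  refine ⟨E, hE, fun α hα hαE i => ?_⟩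
  obtain ⟨η, hη, -, h3, -⟩ := h α hα hαE i
  refine ⟨η, hη, fun hX U => ?_⟩
  obtain ⟨Y₀, hY⟩ := hX (U + 1)
  set C : ℝ := 1 + (Real.log (Y₀ + 3)) ^ (U + 1) with hC
  have hl0 : 0 < Real.log ((Y₀ : ℝ) + 3) := Real.log_pos (by have : (0 : ℝ) ≤ Y₀ := Nat.cast_nonneg _; linarith)
  have hC0 : 0 < C := by positivity
  have hb : ∀ Y : ℕ, 3 ≤ Y → cn (X i) Y ≤ C * Y * (Real.log Y) ^ (-((U : ℝ) + 1)) := by
    intro Y hY3
    have hYr : (3 : ℝ) ≤ Y := by exact_mod_cast hY3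
    have hl : 0 < Real.log Y := Real.log_pos (by linarith)
    have e1 : (Real.log Y) ^ (-((U : ℝ) + 1)) = ((Real.log Y) ^ (U + 1))⁻¹ := by
      rw [Real.rpow_neg hl.le, ← Real.rpow_natCast]
      push_cast
      rfl
    rw [e1, ← div_eq_mul_inv]
    rcases le_or_gt Y₀ Y with h4 | h4
    · refine (hY Y h4).trans ?_
      gcongr
      have : (0 : ℝ) ≤ (Real.log (Y₀ + 3)) ^ (U + 1) := by positivity
      nlinarith
    · refine (cn_le_self' _ _).trans ?_
      rw [le_div_iff₀ (by positivity)]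
      have h5 : Real.log Y ≤ Real.log (Y₀ + 3) := Real.log_le_log (by linarith) (by
        have : (Y : ℝ) < Y₀ := by exact_mod_cast h4
        linarith)
      have h6 : (Real.log Y) ^ (U + 1) ≤ (Real.log (Y₀ + 3)) ^ (U + 1) := by gcongr
      have h7 : (Real.log Y) ^ (U + 1) ≤ C := by linarith
      calc (Y : ℝ) * (Real.log Y) ^ (U + 1) ≤ Y * C := by gcongr
        _ = C * Y := by ring
  have h4 := h3 ((U : ℝ) + 1) C (by positivity) hb
  set K : ℝ := 5 * (|C| * 2 ^ ((U : ℝ) + 1)) + 1 with hK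
  have hlog : ∀ᶠ N : ℕ in atTop, K ≤ Real.log N :=
    (Real.tendsto_log_atTop.comp tendsto_natCast_atTop_atTop).eventually_ge_atTop K
  filter_upwards [h4, hlog, eventually_ge_atTop 3] with N hN hK1 hN3
  intro P hdeg hlead hco
  refine (hN P hdeg hlead hco).trans ?_
  have hNr : (3 : ℝ) ≤ N := by exact_mod_cast hN3
  have hl : 0 < Real.log N := Real.log_pos (by linarith)
  have e1 : (Real.log N) ^ (-((U : ℝ) + 1)) = ((Real.log N) ^ (U + 1))⁻¹ := by
    rw [Real.rpow_neg hl.le, ← Real.rpow_natCast]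
    push_cast
    rfl
  rw [e1, ← div_eq_mul_inv, div_le_div_iff₀ (by positivity) (by positivity)]
  calc K * N * (Real.log N) ^ U ≤ Real.log N * N * (Real.log N) ^ U := by gcongr
    _ = N * (Real.log N) ^ (U + 1) := by ring

open Classical in
/-- both signs at once -/
theorem two_sides (B : ℤ → Prop) (Y : ℕ) :
    cn (fun n : ℕ => B n ∨ B (-(n : ℤ))) Y ≤ (((Icc (-(Y : ℤ)) Y).filter B).card : ℝ) := by
  classical
  unfold cn
  refine Nat.cast_le.2 ?_
  refine le_trans (card_le_card (t := ((Icc (-(Y : ℤ)) Y).filter B).image Int.natAbs) ?_) card_image_le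
  intro n hn
  simp only [mem_filter, mem_Icc] at hn
  simp only [mem_image, mem_filter, mem_Icc]
  rcases hn.2 with h | h
  · exact ⟨n, ⟨⟨by omega, by omega⟩, h⟩, by simp⟩
  · exact ⟨-(n : ℤ), ⟨⟨by omega, by omega⟩, h⟩, by simp⟩

end Pool.Agent.Q138.PS
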