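import Pool.Agent.Q138.PS.UC
import Pool.Agent.Q138.PS.TW

/-!
# Bounds `(s log n) ^ K` for most `n` and all `s`, along `⌊α P(n)⌋`
-/

set_option autoImplicit false

namespace Pool.Agent.Q138.PS

open Finset Filter Topology

/-- the exceptional set of `s` -/
def XS (Bnd : ℕ → ℕ → ℝ → Prop) (K s n : ℕ) : Prop := ¬ Bnd n s ((s * Real.log n) ^ K)

theorem cn_xs (Bnd : ℕ → ℕ → ℝ → Prop) (hmono : ∀ n s : ℕ, ∀ B B' : ℝ, 0 < B → B ≤ B' → Bnd n s B → Bnd n s B')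
    {η : ℝ} (hη : 0 < η) {K : ℕ}
    (h : ∀ x s : ℕ, 8 ≤ x → 1 ≤ s →
      ({n : ℕ | 1 ≤ n ∧ n ≤ x ∧ ¬ Bnd n s ((s * Real.log x) ^ K)}.ncard : ℝ) ≤ η * x) (s : ℕ) (hs : 1 ≤ s) (y : ℕ) :
    cn (XS Bnd (2 * K) s) y ≤ 2 * η * y + (8 + 1 / η) := by
  have hη' : 0 < 1 / η := by positivity
  rcases lt_or_ge y 8 with hy | hy
  · have h1 : cn (XS Bnd (2 * K) s) y ≤ y := by
      rw [cn_ncard]
      have h2 : {n : ℕ | 1 ≤ n ∧ n ≤ y ∧ XS Bnd (2 * K) s n}.ncard ≤ (Icc 1 y).card := by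
        rw [← Set.ncard_coe_finset]
        refine Set.ncard_le_ncard ?_ (Finset.finite_toSet _)
        rintro n ⟨h3, h4, -⟩
        simp only [Finset.coe_Icc, Set.mem_Icc]
        exact ⟨h3, h4⟩
      rw [Nat.card_Icc, Nat.add_sub_cancel] at h2
      exact_mod_cast h2
    have h2 : (y : ℝ) < 8 := by exact_mod_cast hy
    have h3 : (0 : ℝ) ≤ y := Nat.cast_nonneg _
    nlinarith [mul_nonneg hη.le h3]
  have hyr : (8 : ℝ) ≤ y := by exact_mod_cast hy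
  have hlog8 : (2 : ℝ) ≤ Real.log 8 := by
    have h1 : Real.log 8 = 3 * Real.log 2 := by
      rw [show (8 : ℝ) = 2 ^ 3 by norm_num, Real.log_pow]
      norm_num
    have h2 := Real.log_two_gt_d9
    rw [h1]
    linarith
  have hcov : {n : ℕ | 1 ≤ n ∧ n ≤ y ∧ XS Bnd (2 * K) s n} ⊆
      (↑(Icc 1 (7 + ⌊√(y : ℝ)⌋₊)) : Set ℕ) ∪ {n : ℕ | 1 ≤ n ∧ n ≤ y ∧ ¬ Bnd n s ((s * Real.log y) ^ K)} := by
    rintro n ⟨h1, h2, h3⟩
    rcases le_or_gt n (7 + ⌊√(y : ℝ)⌋₊) with h4 | h4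
    · left
      simp only [Finset.coe_Icc, Set.mem_Icc]
      exact ⟨h1, h4⟩
    · right
      refine ⟨h1, h2, fun h5 => h3 ?_⟩
      have hn8 : 8 ≤ n := by omega
      have hn8r : (8 : ℝ) ≤ n := by exact_mod_cast hn8
      have hsq : √(y : ℝ) ≤ n := by
        have h6 : √(y : ℝ) < ⌊√(y : ℝ)⌋₊ + 1 := Nat.lt_floor_add_one _
        have h7 : ((⌊√(y : ℝ)⌋₊ : ℕ) : ℝ) + 1 ≤ n := by
          have : ⌊√(y : ℝ)⌋₊ + 1 ≤ n := by omega
          exact_mod_cast this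
        linarith
      have hy2 : (y : ℝ) ≤ (n : ℝ) ^ 2 := by
        have h6 := Real.sq_sqrt (show (0 : ℝ) ≤ y by positivity)
        rw [← h6]
        gcongr
      have hln : 2 ≤ Real.log n := hlog8.trans (Real.log_le_log (by norm_num) hn8r)
      have hly : Real.log y ≤ 2 * Real.log n := by
        have h6 := Real.log_le_log (by linarith) hy2
        rwa [Real.log_pow, Nat.cast_ofNat] at h6
      have hly0 : 0 < Real.log y := Real.log_pos (by linarith)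
      have hs1 : (1 : ℝ) ≤ s := by exact_mod_cast hs
      refine hmono n s _ _ (by positivity) ?_ h5
      rw [pow_mul]
      refine pow_le_pow_left₀ (by positivity) ?_ K
      calc (s : ℝ) * Real.log y ≤ s * (2 * Real.log n) := by gcongr
        _ ≤ (s * Real.log n) ^ 2 := by
          have h6 : 0 ≤ (s : ℝ) * Real.log n := by positivity
          have h7 : 2 ≤ (s : ℝ) * Real.log n := by nlinarith
          nlinarith
  have h1 : ({n : ℕ | 1 ≤ n ∧ n ≤ y ∧ XS Bnd (2 * K) s n}.ncard : ℝ) ≤ ((7 + ⌊√(y : ℝ)⌋₊ : ℕ) : ℝ) + η * y := by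
    refine (Nat.cast_le.2 (Set.ncard_le_ncard hcov ((Finset.finite_toSet _).union
      ((Set.finite_Iic y).subset fun n hn => hn.2.1)))).trans ?_
    refine (Nat.cast_le.2 (Set.ncard_union_le _ _)).trans ?_
    rw [Nat.cast_add, Set.ncard_coe_finset, Nat.card_Icc, Nat.add_sub_cancel]
    gcongr
    exact h y s hy hs
  rw [cn_ncard]
  refine h1.trans ?_
  push_cast
  have h2 : ((⌊√(y : ℝ)⌋₊ : ℕ) : ℝ) ≤ √(y : ℝ) := Nat.floor_le (Real.sqrt_nonneg _)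
  have h3 : √(y : ℝ) ≤ η * y + 1 / η := by
    have h4 := Real.sq_sqrt (show (0 : ℝ) ≤ y by positivity)
    have h5 : 0 ≤ (η * √(y : ℝ) - 1) ^ 2 := sq_nonneg _
    have h6 : 0 ≤ √(y : ℝ) := Real.sqrt_nonneg _
    have h7 : η * (η * y + 1 / η - √(y : ℝ)) = (η * √(y : ℝ) - 1) ^ 2 + η * √(y : ℝ) := by
      have e1 : (η * √(y : ℝ) - 1) ^ 2 = η ^ 2 * (√(y : ℝ)) ^ 2 - 2 * (η * √(y : ℝ)) + 1 := by ring
      rw [e1, h4]
      field_simp
      ring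
    have h8 : 0 ≤ η * (η * y + 1 / η - √(y : ℝ)) := by rw [h7]; positivity
    have h9 := nonneg_of_mul_nonneg_right h8 hη
    linarith
  linarith

/-- **bounds `(s log n) ^ K` for most `n`, all `s` up to a power** -/
theorem exc_family (Bnd : ℕ → ℕ → ℝ → Prop)
    (hmono : ∀ n s : ℕ, ∀ B B' : ℝ, 0 < B → B ≤ B' → Bnd n s B → Bnd n s B')
    (h : ∀ η : ℝ, 0 < η → ∃ K : ℕ, ∀ x s : ℕ, 8 ≤ x → 1 ≤ s →
      ({n : ℕ | 1 ≤ n ∧ n ≤ x ∧ ¬ Bnd n s ((s * Real.log x) ^ K)}.ncard : ℝ) ≤ η * x) :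
    ∃ K : ℕ → ℕ, ∀ q : ℕ, 2 ≤ q →
      ∃ E : Set ℝ, dimH E ≤ ENNReal.ofReal (q / (q + 1 / ((q : ℝ) * 2 ^ (q - 1)))) ∧ ∀ α : ℝ, 0 < α → α ∉ E →
      ∀ j : ℕ, 1 ≤ j → ∃ η : ℝ, 0 < η ∧ ∀ᶠ N : ℕ in atTop, ∀ s : ℕ, 1 ≤ s → (s : ℝ) ≤ (N : ℝ) ^ η →
      ∀ P : Polynomial ℤ, P.natDegree = q → 0 < P.leadingCoeff → (∀ k, |((P.coeff k : ℤ) : ℝ)| ≤ (N : ℝ) ^ η) →
      j * cnP (XS Bnd (K j) s) α P N ≤ N := by
  classical
  choose! K hK using fun (j : ℕ) (hj : 1 ≤ j) => h (1 / (20 * j)) (by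
    have : (0 : ℝ) < j := by exact_mod_cast hj
    positivity)
  refine ⟨fun j => 2 * K j, fun q hq => ?_⟩
  have hone : ∀ j : ℕ, ∃ E : Set ℝ, dimH E ≤ ENNReal.ofReal (q / (q + kp q)) ∧ (1 ≤ j → ∀ α : ℝ, 0 < α → α ∉ E →
      ∃ η : ℝ, 0 < η ∧ ∀ᶠ N : ℕ in atTop, ∀ s : ℕ, 1 ≤ s → (s : ℝ) ≤ (N : ℝ) ^ η →
      ∀ P : Polynomial ℤ, P.natDegree = q → 0 < P.leadingCoeff → (∀ k, |((P.coeff k : ℤ) : ℝ)| ≤ (N : ℝ) ^ η) →
      j * cnP (XS Bnd (2 * K j) s) α P N ≤ N) := by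
    intro j
    rcases Nat.eq_zero_or_pos j with hj0 | hj
    · exact ⟨∅, by simp, fun hj1 => absurd hj1 (by omega)⟩
    have hjr : (1 : ℝ) ≤ j := by exact_mod_cast hj
    obtain ⟨E, hE, hg⟩ := abs_transfer q hq (ι := ℕ) (fun s => ind (XS Bnd (2 * K j) s)) (fun s m => by
      rw [abs_of_nonneg (ind_nonneg _ _)]
      exact ind_le _ _) 2 (by norm_num) (fun η N => range (⌊(N : ℝ) ^ η⌋₊ + 1)) (fun η hη a b hab => by
        refine range_subset_range.2 (Nat.succ_le_succ (Nat.floor_mono ?_))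
        exact Real.rpow_le_rpow (Nat.cast_nonneg _) (by exact_mod_cast hab) hη.le) (fun η hη => by
        have ht : Tendsto (fun N : ℕ => (N : ℝ) ^ η) atTop atTop :=
          (tendsto_rpow_atTop hη).comp tendsto_natCast_atTop_atTop
        filter_upwards [ht.eventually_ge_atTop 2, eventually_ge_atTop 1] with N hN hN1
        rw [card_range]
        push_cast
        have h1 : ((⌊(N : ℝ) ^ η⌋₊ : ℕ) : ℝ) ≤ (N : ℝ) ^ η := Nat.floor_le (by positivity)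
        have h2 : (N : ℝ) ^ (2 * η) = (N : ℝ) ^ η * (N : ℝ) ^ η := by
          rw [← Real.rpow_add (by exact_mod_cast hN1)]
          congr 1
          ring
        rw [h2]
        nlinarith)
    refine ⟨E, hE, fun _ α hα hαE => ?_⟩
    obtain ⟨η, hη, -, h1⟩ := hg α hα hαE
    refine ⟨η, hη, ?_⟩
    have hrp : Tendsto (fun N : ℕ => (N : ℝ) ^ η) atTop atTop :=
      (tendsto_rpow_atTop hη).comp tendsto_natCast_atTop_atTop
    filter_upwards [h1, hrp.eventually_ge_atTop (4 * (j : ℝ)), eventually_ge_atTop 1,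
      tendsto_natCast_atTop_atTop.eventually_ge_atTop (4 * (j : ℝ) * (8 + 20 * j))] with N hN hN4 hN1 hN5
    intro s hs1 hs P hdeg hlead hco
    have h2 := hN s (mem_range.2 (Nat.lt_succ_of_le (Nat.le_floor hs))) P hdeg hlead hco (2 * (1 / (20 * (j : ℝ)))) (8 + 20 * j)
      (by positivity) (by positivity) (fun y _ => by
        have h3 := cn_xs Bnd hmono (η := 1 / (20 * (j : ℝ))) (by positivity) (K := K j) (hK j hj) s hs1 y
        rw [cn_sum, abs_of_nonneg (cn_nonneg _ _)]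
        rwa [one_div_one_div] at h3)
    have e1 : ∑ n ∈ Icc 1 N, ind (XS Bnd (2 * K j) s) ⌊α * ((P.eval (n : ℤ) : ℤ) : ℝ)⌋₊ = cnP (XS Bnd (2 * K j) s) α P N := by
      unfold cnP
      rw [← cn_sum]
      rfl
    rw [e1] at h2
    replace h2 := (le_abs_self _).trans h2
    have hNr : (0 : ℝ) < N := by exact_mod_cast hN1
    have h3 : (N : ℝ) ^ (1 - η) * (4 * j) ≤ N := by
      calc (N : ℝ) ^ (1 - η) * (4 * j) ≤ (N : ℝ) ^ (1 - η) * (N : ℝ) ^ η := by gcongr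
        _ = N := by
          rw [← Real.rpow_add hNr]
          norm_num
    have hj0 : (0 : ℝ) < j := by linarith
    have e2 : (j : ℝ) * (5 * (2 * (1 / (20 * (j : ℝ)))) * N) = N / 2 := by
      field_simp
      ring
    have h4 := mul_le_mul_of_nonneg_left h2 hj0.le
    have h5 : (j : ℝ) * (8 + 20 * j) ≤ N / 4 := by linarith
    have h6 : (j : ℝ) * (N : ℝ) ^ (1 - η) ≤ N / 4 := by linarith
    calc (j : ℝ) * cnP (XS Bnd (2 * K j) s) α P N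
        ≤ j * (5 * (2 * (1 / (20 * (j : ℝ)))) * N + (8 + 20 * j) + (N : ℝ) ^ (1 - η)) := h4
      _ = j * (5 * (2 * (1 / (20 * (j : ℝ)))) * N) + j * (8 + 20 * j) + j * (N : ℝ) ^ (1 - η) := by ring
      _ ≤ N / 2 + N / 4 + N / 4 := by rw [e2]; linarith
      _ = N := by ring
  choose E hE hg using hone
  refine ⟨⋃ j, E j, ?_, fun α hα hαE j hj => hg j hj α hα fun h => hαE (Set.mem_iUnion.2 ⟨j, h⟩)⟩
  rw [dimH_iUnion]
  exact iSup_le hE

end Pool.Agent.Q138.PS
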