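import Pool.Agent.Q138.PS.UP

/-!
# Exceptional sets of size `N (log log N) ^ k / log N`, along `⌊α P(n)⌋`
-/

set_option autoImplicit false

namespace Pool.Agent.Q138.PS

open Finset Filter Topology

theorem cn_mid (X : ℕ → Prop) {q k : ℕ} {C : ℝ} (hC : 0 < C)
    (hX : ∀ y : ℕ, 16 ≤ y → cn X y ≤ C * Real.log (Real.log y) ^ k / Real.log y * y) {N : ℕ}
    (hN : 256 ≤ N) (hq : Real.log ((q : ℝ) + 1) ≤ Real.log (Real.log N)) (y : ℕ) (hy : (y : ℝ) ≤ (N : ℝ) ^ (q + 1)) :
    cn X y ≤ 2 * 2 ^ k * C * Real.log (Real.log N) ^ k / Real.log N * y + √(N : ℝ) := by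
  have hNr : (256 : ℝ) ≤ N := by exact_mod_cast hN
  have hlN0 : 0 < Real.log N := Real.log_pos (by linarith)
  have hll0 : 0 ≤ Real.log (Real.log N) := by
    refine le_trans (Real.log_nonneg ?_) hq
    have : (0 : ℝ) ≤ q := Nat.cast_nonneg q
    linarith
  have hy0 : (0 : ℝ) ≤ y := Nat.cast_nonneg y
  rcases le_or_gt (y : ℝ) √(N : ℝ) with h1 | h1
  · refine (cn_le_self' _ _).trans (h1.trans ?_)
    have : 0 ≤ 2 * 2 ^ k * C * Real.log (Real.log N) ^ k / Real.log N * y := by positivity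
    linarith
  · have hs : (16 : ℝ) ≤ √(N : ℝ) := by
      rw [show (16 : ℝ) = √(256 : ℝ) by
        rw [show (256 : ℝ) = 16 ^ 2 by norm_num, Real.sqrt_sq (by norm_num)]]
      exact Real.sqrt_le_sqrt hNr
    have hy16 : (16 : ℝ) ≤ y := by linarith
    have hy16' : 16 ≤ y := by exact_mod_cast hy16
    have hly : Real.log N / 2 ≤ Real.log y := by
      rw [← Real.log_sqrt (by linarith)]
      exact Real.log_le_log (by positivity) h1.le
    have hly0 : 0 < Real.log y := by linarith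
    have hly1 : (1 : ℝ) ≤ Real.log y := by
      have h2 : Real.log 16 = 4 * Real.log 2 := by
        rw [show (16 : ℝ) = 2 ^ 4 by norm_num, Real.log_pow]
        norm_num
      have h3 := Real.log_two_gt_d9
      have h4 := Real.log_le_log (by norm_num) hy16
      linarith
    have hly2 : Real.log y ≤ ((q : ℝ) + 1) * Real.log N := by
      have h2 := Real.log_le_log (by linarith) hy
      rw [Real.log_pow] at h2
      push_cast at h2
      exact h2
    have hlly : Real.log (Real.log y) ≤ 2 * Real.log (Real.log N) := by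
      have h2 := Real.log_le_log hly0 hly2
      rw [Real.log_mul (by positivity) hlN0.ne'] at h2
      linarith
    have hlly0 : 0 ≤ Real.log (Real.log y) := Real.log_nonneg hly1
    have h2 : C * Real.log (Real.log y) ^ k / Real.log y ≤ C * (2 * Real.log (Real.log N)) ^ k / (Real.log N / 2) := by
      gcongr
    have h3 : C * (2 * Real.log (Real.log N)) ^ k / (Real.log N / 2) = 2 * 2 ^ k * C * Real.log (Real.log N) ^ k / Real.log N := by
      rw [mul_pow]
      field_simp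
    calc cn X y ≤ C * Real.log (Real.log y) ^ k / Real.log y * y := hX y hy16'
      _ ≤ 2 * 2 ^ k * C * Real.log (Real.log N) ^ k / Real.log N * y := by
        rw [← h3]
        gcongr
      _ ≤ _ := le_add_of_nonneg_right (Real.sqrt_nonneg _)

/-- **exceptional sets of size `N (log log N) ^ k / log N`** -/
theorem exc_loglog {ι : Type} [Countable ι] (q : ℕ) (hq : 2 ≤ q) (X : ι → ℕ → Prop) :
    ∃ E : Set ℝ, dimH E ≤ ENNReal.ofReal (q / (q + 1 / ((q : ℝ) * 2 ^ (q - 1)))) ∧ ∀ α : ℝ, 0 < α → α ∉ E → ∀ i : ι,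
      ∃ η : ℝ, 0 < η ∧ ∀ (C : ℝ) (k : ℕ), 0 < C →
      (∀ y : ℕ, 16 ≤ y → cn (X i) y ≤ C * Real.log (Real.log y) ^ k / Real.log y * y) →
      ∀ᶠ N : ℕ in atTop, ∀ P : Polynomial ℤ, P.natDegree = q →
      0 < P.leadingCoeff → (∀ j, |((P.coeff j : ℤ) : ℝ)| ≤ (N : ℝ) ^ η) →
      cnP (X i) α P N ≤ 20 * 2 ^ k * C * Real.log (Real.log N) ^ k / Real.log N * N := by
  classical
  have hs := fun i : ι => abs_transfer q hq (ι := Unit) (fun _ => ind (X i)) (fun _ d => by
    rw [abs_of_nonneg (ind_nonneg _ _)]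
    exact ind_le _ _) 1 zero_le_one (fun _ _ => {()}) (fun _ _ _ _ _ => le_rfl) (fun η hη => by
      filter_upwards [eventually_ge_atTop 1] with N hN
      rw [card_singleton, one_mul]
      push_cast
      exact Real.one_le_rpow (by exact_mod_cast hN) hη.le)
  choose E hE hg using hs
  refine ⟨⋃ i, E i, ?_, fun α hα hαE i => ?_⟩
  · rw [dimH_iUnion]
    exact iSup_le hE
  obtain ⟨η, hη, -, h1⟩ := hg i α hα (fun h => hαE (Set.mem_iUnion.2 ⟨i, h⟩))
  refine ⟨η, hη, fun C k hC hX => ?_⟩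
  have hlog : Tendsto (fun N : ℕ => Real.log (Real.log N)) atTop atTop :=
    Real.tendsto_log_atTop.comp (Real.tendsto_log_atTop.comp tendsto_natCast_atTop_atTop)
  have hlo : ∀ b : ℝ, 0 < b → ∀ c : ℝ, 0 < c → ∀ᶠ N : ℕ in atTop, Real.log N ≤ c * (N : ℝ) ^ b := by
    intro b hb c hc
    have h2 := (isLittleO_log_rpow_atTop hb).bound hc
    filter_upwards [tendsto_natCast_atTop_atTop.eventually h2, eventually_ge_atTop 1] with N hN hN1
    have hN1r : (1 : ℝ) ≤ N := by exact_mod_cast hN1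
    rw [Real.norm_of_nonneg (Real.log_nonneg hN1r), Real.norm_of_nonneg (by positivity)] at hN
    exact hN
  set D : ℝ := 5 * 2 ^ k * C with hD
  have hD0 : 0 < D := by positivity
  filter_upwards [h1, eventually_ge_atTop 256, hlog.eventually_ge_atTop (Real.log ((q : ℝ) + 1)),
    hlog.eventually_ge_atTop 1, hlo η hη D hD0, hlo (1 / 2) (by norm_num) D hD0] with N hN hN256 hN1 hN2 hN3 hN4
  intro P hdeg hlead hco
  have hNr : (256 : ℝ) ≤ N := by exact_mod_cast hN256
  have hN0 : (0 : ℝ) < N := by linarith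
  have hlN0 : 0 < Real.log N := Real.log_pos (by linarith)
  set L : ℝ := Real.log (Real.log N) with hL
  have h2 := hN () (mem_singleton_self _) P hdeg hlead hco (2 * 2 ^ k * C * L ^ k / Real.log N) √(N : ℝ)
    (by positivity) (Real.sqrt_nonneg _) (fun y hy => by
      rw [cn_sum, abs_of_nonneg (cn_nonneg _ _)]
      exact cn_mid (X i) hC hX hN256 hN1 y hy)
  have e1 : ∑ n ∈ Icc 1 N, ind (X i) ⌊α * ((P.eval (n : ℤ) : ℤ) : ℝ)⌋₊ = cnP (X i) α P N := by
    unfold cnP
    rw [← cn_sum]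
    rfl
  rw [e1] at h2
  replace h2 := (le_abs_self _).trans h2
  have hLk : (1 : ℝ) ≤ L ^ k := one_le_pow₀ hN2
  have h3 : (N : ℝ) ^ (1 - η) ≤ D * L ^ k / Real.log N * N := by
    rw [div_mul_eq_mul_div, le_div_iff₀ hlN0]
    calc (N : ℝ) ^ (1 - η) * Real.log N ≤ (N : ℝ) ^ (1 - η) * (D * (N : ℝ) ^ η) := by gcongr
      _ = D * N := by
        rw [mul_left_comm, ← Real.rpow_add hN0]
        norm_num
      _ ≤ D * L ^ k * N := by
        have : D * 1 ≤ D * L ^ k := by gcongr
        nlinarith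
  have h4 : √(N : ℝ) ≤ D * L ^ k / Real.log N * N := by
    rw [div_mul_eq_mul_div, le_div_iff₀ hlN0]
    calc √(N : ℝ) * Real.log N ≤ √(N : ℝ) * (D * (N : ℝ) ^ ((1 : ℝ) / 2)) := by gcongr
      _ = D * N := by
        rw [← Real.sqrt_eq_rpow, mul_left_comm, Real.mul_self_sqrt hN0.le]
      _ ≤ D * L ^ k * N := by
        have : D * 1 ≤ D * L ^ k := by gcongr
        nlinarith
  calc cnP (X i) α P N ≤ 5 * (2 * 2 ^ k * C * L ^ k / Real.log N) * N + √(N : ℝ) + (N : ℝ) ^ (1 - η) := h2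
    _ ≤ 5 * (2 * 2 ^ k * C * L ^ k / Real.log N) * N + D * L ^ k / Real.log N * N + D * L ^ k / Real.log N * N := by
      gcongr
    _ = 20 * 2 ^ k * C * L ^ k / Real.log N * N := by
      rw [hD]
      ring

end Pool.Agent.Q138.PS
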