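import Pool.Agent.Q138.PS.TQ
import Pool.Agent.Q138.PS.TY

set_option autoImplicit false

/-!
# Transfer of lower bounds for summatory functions of families, with the sharp constant
-/

namespace Pool.Agent.Q138.PS

open Finset MeasureTheory Filter Topology
open scoped ENNReal NNReal
open Pool.Agent.Q138.GS

theorem pol_mono {q : ℕ} (hq : 2 ≤ q) {P : Polynomial ℝ} {H : ℝ} (hH : 1 ≤ H) (hP : PH q H P)
    {a b : ℝ} (ha : 4 * (q * H) ≤ a) : MonotoneOn (fun x => P.eval x) (Set.Icc a b) := by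
  obtain ⟨hdeg, hlead, hco⟩ := hP
  have hq1 : (2 : ℝ) ≤ q := by exact_mod_cast hq
  have ha3 : 0 ≤ a := by nlinarith
  refine monotoneOn_of_deriv_nonneg (convex_Icc a b) (by fun_prop) (by fun_prop) ?_
  intro y hy
  rw [Polynomial.deriv]
  have hy1 : a ≤ y := (interior_subset hy).1
  refine le_trans ?_ (pol_der (by omega) hdeg hlead hH hco (ha.trans hy1)).1
  have : 0 ≤ y := ha3.trans hy1
  positivity

/-- **sharp transfer of lower bounds for summatory functions** -/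
theorem low_transfer {ι : Type} (q : ℕ) (hq : 2 ≤ q) (u : ι → ℕ → ℝ) (hu : ∀ i m, |u i m| ≤ 1) (K : ℝ) (hK : 0 ≤ K)
    (Ω : ℝ → ℕ → Finset ι) (hΩ : ∀ η, 0 < η → Monotone (Ω η))
    (hcard : ∀ η, 0 < η → ∀ᶠ N : ℕ in atTop, ((Ω η N).card : ℝ) ≤ (N : ℝ) ^ (K * η)) :
    ∃ E : Set ℝ, dimH E ≤ ENNReal.ofReal (q / (q + kp q)) ∧ ∀ α : ℝ, 0 < α → α ∉ E → ∃ η : ℝ, 0 < η ∧ η ≤ 1 / 4 ∧
      ∀ᶠ N : ℕ in atTop, ∀ i ∈ Ω η N, ∀ P : Polynomial ℤ, P.natDegree = q →
      0 < P.leadingCoeff → (∀ j, |((P.coeff j : ℤ) : ℝ)| ≤ (N : ℝ) ^ η) → ∀ c C0 : ℝ, 0 ≤ c → c ≤ 1 → 0 ≤ C0 →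
      (∀ y : ℕ, (y : ℝ) ≤ (N : ℝ) ^ (q + 1) → c * y - C0 ≤ ∑ m ∈ Icc 1 y, u i m) →
      c * N - C0 / α - (N : ℝ) ^ (1 - η) ≤ ∑ n ∈ Icc 1 N, u i ⌊α * ((P.eval (n : ℤ) : ℤ) : ℝ)⌋₊ := by
  have h1 := poly_sample q hq (fun i m => ((u i m : ℝ) : ℂ)) (fun i m => by
    rw [Complex.norm_real, Real.norm_eq_abs]
    exact hu i m) K hK (fun η => Ω (min (η / 2) (1 / 4))) (fun η hη => hΩ _ (by positivity)) (fun η hη => by
      filter_upwards [hcard (min (η / 2) (1 / 4)) (by positivity), eventually_ge_atTop 1] with N hN hN1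
      refine hN.trans ?_
      have : (1 : ℝ) ≤ N := by exact_mod_cast hN1
      apply Real.rpow_le_rpow_of_exponent_le this
      have := min_le_left (η / 2) (1 / 4)
      have : min (η / 2) (1 / 4) ≤ η := by linarith
      gcongr)
  refine ⟨_, h1, fun α hα hαE => ?_⟩
  have h2 := not_not.1 (fun h => hαE ⟨hα, h⟩)
  obtain ⟨η0, hη0, hev⟩ := h2
  set η : ℝ := min (η0 / 2) (1 / 4) with hη
  have hηp : 0 < η := by positivity
  have hη1 : 2 * η ≤ η0 := by
    have := min_le_left (η0 / 2) (1 / 4)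
    linarith
  have hη2 : η ≤ 1 / 4 := min_le_right _ _
  refine ⟨η, hηp, hη2, ?_⟩
  filter_upwards [hev, eventually_ge_atTop 1, pw (4 * q * q) 0 (show (0 : ℝ) < 1 / 4 by norm_num),
    pw (2 * α) 0 (show (0 : ℝ) < 1 / 4 by norm_num), pw (2 / α) 0 (show (0 : ℝ) < 1 / 4 by norm_num),
    pw 16 0 hηp] with N h1 hN1 h3 h4 h5 h6
  intro i hi P hdeg hlead hco c C0 hc0 hc1 hC0 hsum
  rw [pow_zero, mul_one] at h3 h4 h5 h6
  have hN0 : (0 : ℝ) < N := by exact_mod_cast hN1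
  have hN1r : (1 : ℝ) ≤ N := by exact_mod_cast hN1
  have hev4 : ∀ n : ℕ, (P.map (Int.castRingHom ℝ)).eval (n : ℝ) = ((P.eval (n : ℤ) : ℤ) : ℝ) := by
    intro n
    have := Polynomial.eval_intCast_map (Int.castRingHom ℝ) P (n : ℤ)
    push_cast at this
    exact this
  simp only [← hev4]
  set R := P.map (Int.castRingHom ℝ) with hR
  have hco1 : ∀ j, |((P.coeff j : ℤ) : ℝ)| ≤ (N : ℝ) ^ η0 := fun j =>
    (hco j).trans (Real.rpow_le_rpow_of_exponent_le hN1r (by linarith))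
  have hPH : PH q ((N : ℝ) ^ (1 / 4 : ℝ)) R := int_PH hdeg hlead fun j =>
    (hco j).trans (Real.rpow_le_rpow_of_exponent_le hN1r hη2)
  set H : ℝ := (N : ℝ) ^ (1 / 4 : ℝ) with hH
  have hH1 : 1 ≤ H := Real.one_le_rpow hN1r (by norm_num)
  set s : ℝ := (N : ℝ) ^ (1 / 2 : ℝ) with hs'
  have hs1 : 1 ≤ s := Real.one_le_rpow hN1r (by norm_num)
  have hHs : H * H = s := by
    rw [hH, hs', ← Real.rpow_add hN0]
    norm_num
  have hss : s * s = N := by
    rw [hs', ← Real.rpow_add hN0]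
    norm_num
  have hq0 : (2 : ℝ) ≤ q := by exact_mod_cast hq
  set n0 : ℕ := ⌈s⌉₊ with hn0
  have hn0l : s ≤ n0 := Nat.le_ceil _
  have hn0u : (n0 : ℝ) ≤ 2 * s := by
    have := (Nat.ceil_lt_add_one (show 0 ≤ s by linarith)).le
    linarith
  have h4q : 4 * (q * (q * H)) ≤ (n0 : ℝ) := by
    refine le_trans ?_ hn0l
    rw [← hHs]
    nlinarith
  have h16 : 16 ≤ H := by nlinarith
  have hs2 : 2 ≤ s := by nlinarith
  have hn0N : n0 ≤ N := by
    have h7 : (n0 : ℝ) ≤ N := by nlinarith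
    exact_mod_cast h7
  have hNn0 : (n0 : ℝ) ≤ N := by exact_mod_cast hn0N
  obtain ⟨hdegR, hleadR, hcoR⟩ := hPH
  have hup : α * R.eval (N : ℝ) ≤ (N : ℝ) ^ (q + 1) := by
    have e1 : 4 * H ≤ (N : ℝ) := by nlinarith
    have e2 := (poly_up2 hdegR hleadR hH1 hcoR e1).2
    have e3 : R.leadingCoeff ≤ H := (le_abs_self _).trans (hcoR _)
    have e4 : 2 * α * R.leadingCoeff ≤ N := by
      calc 2 * α * R.leadingCoeff ≤ H * H := by gcongr
        _ = s := hHs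
        _ ≤ N := by nlinarith
    calc α * R.eval (N : ℝ) ≤ α * (2 * R.leadingCoeff * (N : ℝ) ^ q) := by gcongr
      _ = (2 * α * R.leadingCoeff) * (N : ℝ) ^ q := by ring
      _ ≤ N * (N : ℝ) ^ q := by gcongr
      _ = _ := by rw [pow_succ]; ring
  set M : ℕ := N ^ (q + 1) with hM
  have hMr : (M : ℝ) = (N : ℝ) ^ (q + 1) := by
    rw [hM]
    push_cast
    rfl
  set w : ℕ → ℝ := fun m => if m ≤ M then c - u i m else 0 with hw
  have hwB : ∀ m, |w m| ≤ 2 := by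
    intro m
    simp only [hw]
    split_ifs
    · have h7 := abs_le.1 (hu i m)
      rw [abs_le]
      constructor <;> linarith [h7.1, h7.2]
    · norm_num
  have hPrR : ∀ y : ℝ, 0 ≤ y → PrR w y ≤ 0 * PrR (fun _ => 1) y + (C0 + 6) := by
    intro y hy
    have e1 := (abs_le.1 (PrR_sum w hwB hy)).2
    have e2 : ∑ m ∈ Icc 1 ⌊y⌋₊, w m ≤ C0 := by
      set k : ℕ := min ⌊y⌋₊ M with hk
      have e3 : ∑ m ∈ Icc 1 ⌊y⌋₊, w m = ∑ m ∈ Icc 1 k, (c - u i m) := by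
        rw [← sum_filter_add_sum_filter_not (Icc 1 ⌊y⌋₊) (fun m => m ≤ M) w]
        have e4 : ∑ m ∈ (Icc 1 ⌊y⌋₊).filter (fun m => ¬ m ≤ M), w m = 0 := by
          refine sum_eq_zero fun m hm => ?_
          simp only [hw, if_neg (mem_filter.1 hm).2]
        have e5 : (Icc 1 ⌊y⌋₊).filter (fun m => m ≤ M) = Icc 1 k := by
          ext m
          simp only [mem_filter, mem_Icc, hk, le_min_iff]
          tauto
        rw [e4, add_zero, e5]
        refine sum_congr rfl fun m hm => ?_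
        have : m ≤ M := (mem_Icc.1 hm).2.trans (min_le_right _ _)
        simp only [hw, if_pos this]
      rw [e3, sum_sub_distrib, sum_const, nsmul_eq_mul, Nat.card_Icc, Nat.add_sub_cancel]
      have e6 := hsum k (by
        rw [← hMr]
        exact_mod_cast min_le_right _ _)
      linarith
    linarith
  have hint := cmp_low hq hH1 ⟨hdegR, hleadR, hcoR⟩ hα h4q hNn0 w (fun _ => 1) (fun _ => le_rfl) (B := 2) (by norm_num) hwB
    (ε := 0) (C := C0 + 6) le_rfl (by linarith) hPrR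
  have hmono := pol_mono hq hH1 ⟨hdegR, hleadR, hcoR⟩ (a := n0) (b := N) (by
    refine le_trans ?_ h4q
    have : q * H ≤ q * (q * H) := by nlinarith [mul_pos (show (0 : ℝ) < q by linarith) (show 0 < H by linarith)]
    linarith)
  have hcongr : ∫ x in (n0 : ℝ)..(N : ℝ), w ⌊α * R.eval x⌋₊ =
      ∫ x in (n0 : ℝ)..(N : ℝ), (c - u i ⌊α * R.eval x⌋₊) := by
    refine intervalIntegral.integral_congr fun x hx => ?_
    rw [Set.uIcc_of_le hNn0] at hx
    have e1 : α * R.eval x ≤ M := by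
      rw [hMr]
      refine le_trans ?_ hup
      have := hmono hx (Set.right_mem_Icc.2 hNn0) hx.2
      simp only at this
      gcongr
    have e2 : ⌊α * R.eval x⌋₊ ≤ M := Nat.floor_le_of_le e1
    simp only [hw, if_pos e2]
  have hii : IntervalIntegrable (fun x => u i ⌊α * R.eval x⌋₊) volume (n0 : ℝ) (N : ℝ) := by
    refine (intervalIntegrable_const (c := (1 : ℝ))).mono_fun ?_ ?_
    · have hmeas : Measurable (u i) := measurable_from_nat
      exact (hmeas.comp (Nat.measurable_floor.comp (measurable_const.mul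
        (Polynomial.continuous R).measurable))).aestronglyMeasurable
    · refine Filter.Eventually.of_forall fun x => ?_
      simp only [Real.norm_eq_abs, abs_one]
      exact hu i _
  have hintegral : ∫ x in (n0 : ℝ)..(N : ℝ), (c - u i ⌊α * R.eval x⌋₊) =
      c * (N - n0) - ∫ x in (n0 : ℝ)..(N : ℝ), u i ⌊α * R.eval x⌋₊ := by
    rw [intervalIntegral.integral_sub intervalIntegrable_const hii, intervalIntegral.integral_const, smul_eq_mul]
    ring
  rw [hcongr, hintegral] at hint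
  have hDP := h1 i hi P hdeg hlead hco1 n0 N hn0N le_rfl
  have hDP2 : DP (fun m => ((u i m : ℝ) : ℂ)) α R n0 N =
      ((∑ n ∈ Ioc n0 N, u i ⌊α * R.eval (n : ℝ)⌋₊ - ∫ x in (n0 : ℝ)..(N : ℝ), u i ⌊α * R.eval x⌋₊ : ℝ) : ℂ) := by
    unfold DP
    rw [Complex.ofReal_sub, ← intervalIntegral.integral_ofReal]
    push_cast
    rfl
  rw [← hR, hDP2, Complex.norm_real, Real.norm_eq_abs] at hDP
  have hsplit : ∑ n ∈ Icc 1 N, u i ⌊α * R.eval (n : ℝ)⌋₊ = ∑ n ∈ Icc 1 n0, u i ⌊α * R.eval (n : ℝ)⌋₊ +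
      ∑ n ∈ Ioc n0 N, u i ⌊α * R.eval (n : ℝ)⌋₊ := by
    have e3 : Icc 1 N = Ioc 0 N := rfl
    have e4 : Icc 1 n0 = Ioc 0 n0 := rfl
    rw [e3, e4, sum_Ioc_consecutive _ (Nat.zero_le _) hn0N]
  have hfirst : |∑ n ∈ Icc 1 n0, u i ⌊α * R.eval (n : ℝ)⌋₊| ≤ n0 := by
    calc |∑ n ∈ Icc 1 n0, u i ⌊α * R.eval (n : ℝ)⌋₊| ≤ ∑ n ∈ Icc 1 n0, |u i ⌊α * R.eval (n : ℝ)⌋₊| :=
          abs_sum_le_sum_abs _ _
      _ ≤ ∑ n ∈ Icc 1 n0, (1 : ℝ) := sum_le_sum fun _ _ => hu i _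
      _ = n0 := by simp
  set Y : ℝ := (N : ℝ) ^ (1 - 2 * η) with hY
  have hsY : s ≤ Y := Real.rpow_le_rpow_of_exponent_le hN1r (by linarith)
  have hηY : (N : ℝ) ^ (1 - η0) ≤ Y := Real.rpow_le_rpow_of_exponent_le hN1r (by linarith)
  have hfin : 16 * Y ≤ (N : ℝ) ^ (1 - η) := by
    have e1 : (N : ℝ) ^ (1 - η) = (N : ℝ) ^ η * Y := by
      rw [hY, ← Real.rpow_add hN0]
      congr 1
      ring
    rw [e1]
    gcongr
  have h6α : 6 / α ≤ 3 * s := by
    have e1 : 6 / α = 3 * (2 / α) := by ring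
    rw [e1]
    have : H ≤ s := by nlinarith
    linarith
  have hsplitC : (C0 + 6) / α = C0 / α + 6 / α := by ring
  rw [hsplit]
  have g1 := (abs_le.1 hfirst).1
  have g2 := (abs_le.1 hDP).1
  have g3 : c * n0 ≤ n0 := by nlinarith [Nat.cast_nonneg (α := ℝ) n0]
  rw [hsplitC] at hint
  linarith

end Pool.Agent.Q138.PS
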