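import Pool.Agent.Q138.PS.US
import Pool.Agent.Q138.PS.UP

set_option autoImplicit false

/-!
# Slowly decreasing lower bounds for densities, along `⌊α P(n)⌋`
-/

namespace Pool.Agent.Q138.PS

open Finset MeasureTheory Filter Topology

/-- **slowly decreasing lower bounds** -/
theorem low_slow {ι : Type} [Countable ι] (q : ℕ) (hq : 2 ≤ q) (Q : ι → ℕ → Prop) (w : ι → ℕ → ℝ)
    (hw0 : ∀ i y, 0 ≤ w i y) (hw1 : ∀ i y, w i y ≤ 1) (hanti : ∀ i, Antitone (w i))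
    (hslow : ∀ i, ∀ η : ℝ, 0 < η → ∀ᶠ N : ℕ in atTop, (N : ℝ) ^ (-η) ≤ w i (N ^ (q + 1)))
    (hQ : ∀ i, ∀ᶠ y : ℕ in atTop, w i y * y ≤ cn (Q i) y) :
    ∃ E : Set ℝ, dimH E ≤ ENNReal.ofReal (q / (q + 1 / ((q : ℝ) * 2 ^ (q - 1)))) ∧ ∀ α : ℝ, 0 < α → α ∉ E → ∀ i : ι,
      ∃ η : ℝ, 0 < η ∧ ∀ᶠ N : ℕ in atTop, ∀ P : Polynomial ℤ, P.natDegree = q →
      0 < P.leadingCoeff → (∀ j, |((P.coeff j : ℤ) : ℝ)| ≤ (N : ℝ) ^ η) →
      w i (N ^ (q + 1)) / 2 * N ≤ cnP (Q i) α P N := by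
  classical
  have hs := fun i : ι => low_transfer q hq (ι := Unit) (fun _ => ind (Q i)) (fun _ d => by
    rw [abs_of_nonneg (ind_nonneg _ _)]
    exact ind_le _ _) 1 zero_le_one (fun _ _ => {()}) (fun _ _ _ _ _ => le_rfl) (fun η hη => by
      filter_upwards [eventually_ge_atTop 1] with N hN
      rw [card_singleton, one_mul]
      push_cast
      exact Real.one_le_rpow (by exact_mod_cast hN) hη.le)
  choose E hE hg using hs
  refine ⟨⋃ i, E i, ?_, fun α hα hαE i => ?_⟩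
  · rw [dimH_iUnion]
    exact iSup_le hE
  obtain ⟨η, hη, -, h1⟩ := hg i α hα (fun h => hαE (Set.mem_iUnion.2 ⟨i, h⟩))
  refine ⟨η, hη, ?_⟩
  obtain ⟨y0, hy0⟩ := eventually_atTop.1 (hQ i)
  have hrp : Tendsto (fun N : ℕ => (N : ℝ) ^ (η / 2)) atTop atTop :=
    (tendsto_rpow_atTop (by positivity)).comp tendsto_natCast_atTop_atTop
  have hrp2 : Tendsto (fun N : ℕ => (N : ℝ) ^ (1 - η)) atTop atTop ∨ 1 ≤ η := by
    rcases lt_or_ge η 1 with h | h
    · exact Or.inl ((tendsto_rpow_atTop (by linarith)).comp tendsto_natCast_atTop_atTop)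
    · exact Or.inr h
  filter_upwards [h1, hslow i (η / 2) (by positivity), hrp.eventually_ge_atTop 4,
    (tendsto_rpow_atTop (show (0 : ℝ) < 1 / 4 by norm_num)).comp tendsto_natCast_atTop_atTop
      |>.eventually_ge_atTop (4 * (y0 / α)), hslow i (3 / 4) (by norm_num), eventually_ge_atTop 1] with N hN hs4 h4 hy4 hs5 hN1
  intro P hdeg hlead hco
  have hNr : (1 : ℝ) ≤ N := by exact_mod_cast hN1
  have hN0 : (0 : ℝ) < N := by linarith
  set c : ℝ := w i (N ^ (q + 1)) with hc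
  have h2 := hN () (mem_singleton_self _) P hdeg hlead hco c y0 (hw0 _ _) (hw1 _ _) (Nat.cast_nonneg _) (fun y hy => by
    rw [cn_sum]
    have hyN : y ≤ N ^ (q + 1) := by exact_mod_cast hy
    rcases le_or_gt y0 y with h | h
    · have h3 := hy0 y h
      have h4 : c ≤ w i y := hanti i hyN
      have h5 : c * y ≤ w i y * y := by gcongr
      have h6 : (0 : ℝ) ≤ y0 := Nat.cast_nonneg _
      linarith
    · have h3 : (y : ℝ) ≤ y0 := by exact_mod_cast h.le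
      have h4 : c * y ≤ 1 * y := by gcongr; exact hw1 _ _
      have h5 := cn_nonneg (Q i) y
      linarith)
  have e1 : ∑ n ∈ Icc 1 N, ind (Q i) ⌊α * ((P.eval (n : ℤ) : ℤ) : ℝ)⌋₊ = cnP (Q i) α P N := by
    unfold cnP
    rw [← cn_sum]
    rfl
  rw [e1] at h2
  have h3 : (N : ℝ) ^ (1 - η) ≤ c * N / 4 := by
    have e2 : (N : ℝ) ^ (1 - η) * (N : ℝ) ^ (η / 2) = (N : ℝ) ^ (-(η / 2)) * N := by
      rw [← Real.rpow_add hN0]
      nth_rewrite 3 [← Real.rpow_one (N : ℝ)]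
      rw [← Real.rpow_add hN0]
      congr 1
      ring
    have e3 : (N : ℝ) ^ (1 - η) * 4 ≤ (N : ℝ) ^ (1 - η) * (N : ℝ) ^ (η / 2) := by gcongr
    have e4 : (N : ℝ) ^ (-(η / 2)) * N ≤ c * N := by gcongr
    linarith
  have h5 : y0 / α ≤ c * N / 4 := by
    have e2 : (N : ℝ) ^ (-(3 / 4) : ℝ) * N = (N : ℝ) ^ ((1 : ℝ) / 4) := by
      nth_rewrite 2 [← Real.rpow_one (N : ℝ)]
      rw [← Real.rpow_add hN0]
      norm_num
    have e4 : (N : ℝ) ^ (-(3 / 4) : ℝ) * N ≤ c * N := by gcongr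
    simp only [Function.comp] at hy4
    linarith
  linarith

end Pool.Agent.Q138.PS
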