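import Pool.Agent.Q138.PS.UT

set_option autoImplicit false

/-!
# Slowly decreasing lower bounds for densities, along `⌊α P(n)⌋`: iterated logarithms
-/

namespace Pool.Agent.Q138.PS

open Finset MeasureTheory Filter Topology

/-- iterated logarithms -/
noncomputable def L1 (x : ℝ) : ℝ := Real.log x
/-- iterated logarithms -/
noncomputable def L2 (x : ℝ) : ℝ := Real.log (L1 x)
/-- iterated logarithms -/
noncomputable def L3 (x : ℝ) : ℝ := Real.log (L2 x)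
/-- iterated logarithms -/
noncomputable def L4 (x : ℝ) : ℝ := Real.log (L3 x)

/-- a large constant -/
noncomputable def BC : ℝ := Real.exp (Real.exp (Real.exp (Real.exp 1)))

theorem BC_pos : 0 < BC := Real.exp_pos _

theorem one_le_exp' {x : ℝ} (h : 1 ≤ x) : 1 ≤ Real.exp x := by
  have := Real.add_one_le_exp x
  linarith

theorem L1_ge {x : ℝ} (h : BC ≤ x) : Real.exp (Real.exp (Real.exp 1)) ≤ L1 x := by
  unfold L1
  rw [Real.le_log_iff_exp_le (BC_pos.trans_le h)]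
  exact h

theorem L2_ge {x : ℝ} (h : BC ≤ x) : Real.exp (Real.exp 1) ≤ L2 x := by
  unfold L2
  rw [Real.le_log_iff_exp_le ((Real.exp_pos _).trans_le (L1_ge h))]
  exact L1_ge h

theorem L3_ge {x : ℝ} (h : BC ≤ x) : Real.exp 1 ≤ L3 x := by
  unfold L3
  rw [Real.le_log_iff_exp_le ((Real.exp_pos _).trans_le (L2_ge h))]
  exact L2_ge h

theorem L4_ge {x : ℝ} (h : BC ≤ x) : 1 ≤ L4 x := by
  unfold L4
  rw [Real.le_log_iff_exp_le ((Real.exp_pos _).trans_le (L3_ge h))]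
  exact L3_ge h

theorem L1_mono {x y : ℝ} (h : BC ≤ x) (hxy : x ≤ y) : L1 x ≤ L1 y :=
  Real.log_le_log (BC_pos.trans_le h) hxy

theorem L2_mono {x y : ℝ} (h : BC ≤ x) (hxy : x ≤ y) : L2 x ≤ L2 y :=
  Real.log_le_log ((Real.exp_pos _).trans_le (L1_ge h)) (L1_mono h hxy)

theorem L3_mono {x y : ℝ} (h : BC ≤ x) (hxy : x ≤ y) : L3 x ≤ L3 y :=
  Real.log_le_log ((Real.exp_pos _).trans_le (L2_ge h)) (L2_mono h hxy)

theorem L4_mono {x y : ℝ} (h : BC ≤ x) (hxy : x ≤ y) : L4 x ≤ L4 y :=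
  Real.log_le_log ((Real.exp_pos _).trans_le (L3_ge h)) (L3_mono h hxy)

theorem L1_ge1 {x : ℝ} (h : BC ≤ x) : 1 ≤ L1 x :=
  (one_le_exp' (one_le_exp' (one_le_exp' le_rfl))).trans (L1_ge h)

theorem L2_ge1 {x : ℝ} (h : BC ≤ x) : 1 ≤ L2 x := (one_le_exp' (one_le_exp' le_rfl)).trans (L2_ge h)

theorem L3_ge1 {x : ℝ} (h : BC ≤ x) : 1 ≤ L3 x := (one_le_exp' le_rfl).trans (L3_ge h)

theorem L4_le {x : ℝ} (h : BC ≤ x) : L4 x ≤ L3 x := Real.log_le_self (zero_le_one.trans (L3_ge1 h))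

theorem L3_le {x : ℝ} (h : BC ≤ x) : L3 x ≤ L2 x := Real.log_le_self (zero_le_one.trans (L2_ge1 h))

theorem L2_le {x : ℝ} (h : BC ≤ x) : L2 x ≤ L1 x := Real.log_le_self (zero_le_one.trans (L1_ge1 h))

/-- the iterated logarithms of `N ^ (q + 1) + BC` -/
theorem it_logs (q : ℕ) : ∀ᶠ N : ℕ in atTop, BC ≤ N ∧
    L1 (((N ^ (q + 1) : ℕ) : ℝ) + BC) ≤ (q + 2) * L1 N ∧ L2 (((N ^ (q + 1) : ℕ) : ℝ) + BC) ≤ 2 * L2 N ∧
    L3 (((N ^ (q + 1) : ℕ) : ℝ) + BC) ≤ 2 * L3 N ∧ L4 (((N ^ (q + 1) : ℕ) : ℝ) + BC) ≤ 2 * L4 N := by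
  have t1 : Tendsto (fun N : ℕ => L1 N) atTop atTop := Real.tendsto_log_atTop.comp tendsto_natCast_atTop_atTop
  have t2 : Tendsto (fun N : ℕ => L2 N) atTop atTop := Real.tendsto_log_atTop.comp t1
  have t3 : Tendsto (fun N : ℕ => L3 N) atTop atTop := Real.tendsto_log_atTop.comp t2
  filter_upwards [tendsto_natCast_atTop_atTop.eventually_ge_atTop (2 * BC), t1.eventually_ge_atTop ((q : ℝ) + 2),
    t2.eventually_ge_atTop 2, t3.eventually_ge_atTop 2, eventually_ge_atTop 2] with N h0 h1 h2 h3 hN2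
  have hBC : 1 ≤ BC := one_le_exp' (one_le_exp' (one_le_exp' (one_le_exp' le_rfl)))
  have hNr : (2 : ℝ) ≤ N := by exact_mod_cast hN2
  have hN0 : (0 : ℝ) < N := by linarith
  have hBN : BC ≤ N := by linarith
  have hpow : (((N ^ (q + 1) : ℕ) : ℝ) + BC) ≤ (N : ℝ) ^ (q + 2) := by
    push_cast
    have e1 : (N : ℝ) ^ (q + 2) = (N : ℝ) ^ (q + 1) * N := pow_succ _ _
    have e2 : (1 : ℝ) ≤ (N : ℝ) ^ (q + 1) := one_le_pow₀ (by linarith)
    rw [e1]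
    nlinarith
  have hB : BC ≤ (((N ^ (q + 1) : ℕ) : ℝ) + BC) := by
    have : (0 : ℝ) ≤ ((N ^ (q + 1) : ℕ) : ℝ) := Nat.cast_nonneg _
    linarith
  have e1 : L1 (((N ^ (q + 1) : ℕ) : ℝ) + BC) ≤ (q + 2) * L1 N := by
    refine (L1_mono hB hpow).trans (le_of_eq ?_)
    unfold L1
    rw [Real.log_pow]
    push_cast
    ring
  have p1 : 0 < L1 (N : ℝ) := zero_lt_one.trans_le (L1_ge1 hBN)
  have p2 : 0 < L2 (N : ℝ) := zero_lt_one.trans_le (L2_ge1 hBN)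
  have p3 : 0 < L3 (N : ℝ) := zero_lt_one.trans_le (L3_ge1 hBN)
  have q1 : 0 < L1 (((N ^ (q + 1) : ℕ) : ℝ) + BC) := zero_lt_one.trans_le (L1_ge1 hB)
  have q2 : 0 < L2 (((N ^ (q + 1) : ℕ) : ℝ) + BC) := zero_lt_one.trans_le (L2_ge1 hB)
  have q3 : 0 < L3 (((N ^ (q + 1) : ℕ) : ℝ) + BC) := zero_lt_one.trans_le (L3_ge1 hB)
  have e2 : L2 (((N ^ (q + 1) : ℕ) : ℝ) + BC) ≤ 2 * L2 N := by
    have e3 : L1 (((N ^ (q + 1) : ℕ) : ℝ) + BC) ≤ (L1 N) ^ 2 := by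
      rw [sq]
      exact e1.trans (mul_le_mul_of_nonneg_right h1 p1.le)
    unfold L2
    refine (Real.log_le_log q1 e3).trans (le_of_eq ?_)
    rw [Real.log_pow]
    norm_num
  have e3 : L3 (((N ^ (q + 1) : ℕ) : ℝ) + BC) ≤ 2 * L3 N := by
    have e4 : L2 (((N ^ (q + 1) : ℕ) : ℝ) + BC) ≤ (L2 N) ^ 2 := by
      rw [sq]
      exact e2.trans (mul_le_mul_of_nonneg_right h2 p2.le)
    unfold L3
    refine (Real.log_le_log q2 e4).trans (le_of_eq ?_)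
    rw [Real.log_pow]
    norm_num
  have e4 : L4 (((N ^ (q + 1) : ℕ) : ℝ) + BC) ≤ 2 * L4 N := by
    have e5 : L3 (((N ^ (q + 1) : ℕ) : ℝ) + BC) ≤ (L3 N) ^ 2 := by
      rw [sq]
      exact e3.trans (mul_le_mul_of_nonneg_right h3 p3.le)
    unfold L4
    refine (Real.log_le_log q3 e5).trans (le_of_eq ?_)
    rw [Real.log_pow]
    norm_num
  exact ⟨hBN, e1, e2, e3, e4⟩

/-- powers of the logarithm are small -/
theorem log_small (q k : ℕ) {κ η : ℝ} (hκ : 0 < κ) (hη : 0 < η) :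
    ∀ᶠ N : ℕ in atTop, (N : ℝ) ^ (-η) ≤ κ / L1 (((N ^ (q + 1) : ℕ) : ℝ) + BC) ^ k := by
  have h1 : ∀ᶠ N : ℕ in atTop, (Real.log N) ^ k * (((q : ℝ) + 2) ^ k / κ) ≤ (N : ℝ) ^ η := by
    have h2 := (isLittleO_log_rpow_rpow_atTop (k : ℝ) hη).bound (show 0 < (κ / ((q : ℝ) + 2) ^ k) by positivity)
    filter_upwards [tendsto_natCast_atTop_atTop.eventually h2, eventually_ge_atTop 1] with N hN hN1
    have hN1r : (1 : ℝ) ≤ N := by exact_mod_cast hN1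
    have hl : 0 ≤ Real.log N := Real.log_nonneg hN1r
    rw [Real.norm_of_nonneg (by positivity), Real.norm_of_nonneg (by positivity), Real.rpow_natCast] at hN
    have h3 : (Real.log N) ^ k * (((q : ℝ) + 2) ^ k / κ) ≤ κ / ((q : ℝ) + 2) ^ k * (N : ℝ) ^ η * (((q : ℝ) + 2) ^ k / κ) := by
      gcongr
    refine h3.trans (le_of_eq ?_)
    field_simp
  filter_upwards [h1, it_logs q] with N hN hlogs
  obtain ⟨hB, e1, -⟩ := hlogs
  have hN0 : (0 : ℝ) < N := BC_pos.trans_le hB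
  have hB' : BC ≤ (((N ^ (q + 1) : ℕ) : ℝ) + BC) := by
    have : (0 : ℝ) ≤ ((N ^ (q + 1) : ℕ) : ℝ) := Nat.cast_nonneg _
    linarith
  have q1 : 0 < L1 (((N ^ (q + 1) : ℕ) : ℝ) + BC) := zero_lt_one.trans_le (L1_ge1 hB')
  have p1 : 0 < L1 (N : ℝ) := zero_lt_one.trans_le (L1_ge1 hB)
  rw [Real.rpow_neg hN0.le, le_div_iff₀ (by positivity), ← div_eq_inv_mul, div_le_iff₀ (by positivity)]
  have h2 : L1 (((N ^ (q + 1) : ℕ) : ℝ) + BC) ^ k ≤ ((q + 2) * L1 N) ^ k := by gcongr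
  have h3 : ((q + 2) * L1 N) ^ k = κ * ((Real.log N) ^ k * (((q : ℝ) + 2) ^ k / κ)) := by
    unfold L1
    rw [mul_pow]
    field_simp
  calc L1 (((N ^ (q + 1) : ℕ) : ℝ) + BC) ^ k ≤ ((q + 2) * L1 N) ^ k := h2
    _ = κ * ((Real.log N) ^ k * (((q : ℝ) + 2) ^ k / κ)) := h3
    _ ≤ κ * (N : ℝ) ^ η := by gcongr

end Pool.Agent.Q138.PS
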