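import Pool.Agent.Q138.PS.US
import Pool.Agent.Q138.PS.UP

set_option autoImplicit false

/-!
# Lower and upper densities along `⌊α P(n)⌋`: one exceptional set for all bounds
-/

namespace Pool.Agent.Q138.PS

open Finset MeasureTheory Filter Topology

/-- **lower densities** -/
theorem low_all {ι : Type} [Countable ι] (q : ℕ) (hq : 2 ≤ q) (X : ι → ℕ → Prop) :
    ∃ E : Set ℝ, dimH E ≤ ENNReal.ofReal (q / (q + 1 / ((q : ℝ) * 2 ^ (q - 1)))) ∧ ∀ α : ℝ, 0 < α → α ∉ E → ∀ i : ι,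
      ∃ η : ℝ, 0 < η ∧ ∀ c : ℝ, (∀ δ : ℝ, 0 < δ → ∀ᶠ y : ℕ in atTop, (c - δ) * y ≤ cn (X i) y) →
      ∀ ε : ℝ, 0 < ε → ∀ᶠ N : ℕ in atTop, ∀ P : Polynomial ℤ, P.natDegree = q →
      0 < P.leadingCoeff → (∀ j, |((P.coeff j : ℤ) : ℝ)| ≤ (N : ℝ) ^ η) → (c - ε) * N ≤ cnP (X i) α P N := by
  classical
  have hs := fun i : ι => low_transfer q hq (ι := Unit) (fun _ => ind (X i)) (fun _ d => by
    rw [abs_of_nonneg (ind_nonneg _ _)]
    exact ind_le _ _) 1 zero_le_one (fun _ _ => {()}) (fun _ _ _ _ _ => le_rfl) (fun η hη => by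
      filter_upwards [eventually_ge_atTop 1] with N hN
      rw [card_singleton, one_mul]
      push_cast
      exact Real.one_le_rpow (by exact_mod_cast hN) hη.le)
  choose E hE hg using hs
  refine ⟨⋃ i, E i, ?_, fun α hα hαE i => ?_⟩
  · rw [dimH_iUnion]
    exact iSup_le hE
  obtain ⟨η, hη, -, h1⟩ := hg i α hα (fun h => hαE (Set.mem_iUnion.2 ⟨i, h⟩))
  refine ⟨η, hη, fun c hc ε hε => ?_⟩
  rcases le_or_gt c ε with hcε | hcε
  · refine Eventually.of_forall fun N P _ _ _ => ?_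
    have h2 : 0 ≤ cnP (X i) α P N := cn_nonneg _ _
    have h3 : (c - ε) * N ≤ 0 := mul_nonpos_of_nonpos_of_nonneg (by linarith) (Nat.cast_nonneg N)
    linarith
  obtain ⟨y0, hy0⟩ := eventually_atTop.1 (hc (ε / 2) (by positivity))
  set c' : ℝ := c - ε / 2 with hc'
  have hc'0 : 0 ≤ c' := by linarith
  have hc'1 : c' ≤ 1 := by
    have h2 := hy0 (max y0 1) (le_max_left _ _)
    have h3 := cn_le_self' (X i) (max y0 1)
    have h4 : (0 : ℝ) < ((max y0 1 : ℕ) : ℝ) := by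
      have : 1 ≤ max y0 1 := le_max_right _ _
      exact_mod_cast this
    have h5 : c' * ((max y0 1 : ℕ) : ℝ) ≤ 1 * ((max y0 1 : ℕ) : ℝ) := by linarith
    exact le_of_mul_le_mul_right h5 h4
  have hrp : Tendsto (fun N : ℕ => (N : ℝ) ^ η) atTop atTop :=
    (tendsto_rpow_atTop hη).comp tendsto_natCast_atTop_atTop
  filter_upwards [h1, hrp.eventually_ge_atTop (4 / ε), tendsto_natCast_atTop_atTop.eventually_ge_atTop (4 / ε * (y0 / α)),
    eventually_ge_atTop 1] with N hN h4 h5 hN1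
  intro P hdeg hlead hco
  have hNr : (1 : ℝ) ≤ N := by exact_mod_cast hN1
  have hN0 : (0 : ℝ) < N := by linarith
  have h2 := hN () (mem_singleton_self _) P hdeg hlead hco c' y0 hc'0 hc'1 (Nat.cast_nonneg _) (fun y _ => by
    rw [cn_sum]
    rcases le_or_gt y0 y with h | h
    · have h3 := hy0 y h
      have h6 : (0 : ℝ) ≤ y0 := Nat.cast_nonneg _
      linarith
    · have h3 : (y : ℝ) ≤ y0 := by exact_mod_cast h.le
      have h4 : c' * y ≤ 1 * y := by gcongr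
      have h5 := cn_nonneg (X i) y
      linarith)
  have e1 : ∑ n ∈ Icc 1 N, ind (X i) ⌊α * ((P.eval (n : ℤ) : ℤ) : ℝ)⌋₊ = cnP (X i) α P N := by
    unfold cnP
    rw [← cn_sum]
    rfl
  rw [e1] at h2
  have h6 : (N : ℝ) ^ (1 - η) ≤ ε / 4 * N := by
    have e2 : (N : ℝ) ^ (1 - η) * (N : ℝ) ^ η = N := by
      rw [← Real.rpow_add hN0]
      norm_num
    have e3 : (N : ℝ) ^ (1 - η) * (4 / ε) ≤ N := by
      calc (N : ℝ) ^ (1 - η) * (4 / ε) ≤ (N : ℝ) ^ (1 - η) * (N : ℝ) ^ η := by gcongr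
        _ = N := e2
    have e4 : (N : ℝ) ^ (1 - η) * (4 / ε) * (ε / 4) ≤ N * (ε / 4) := by gcongr
    have e5 : (N : ℝ) ^ (1 - η) * (4 / ε) * (ε / 4) = (N : ℝ) ^ (1 - η) := by field_simp
    linarith
  have h7 : y0 / α ≤ ε / 4 * N := by
    have e4 : 4 / ε * (y0 / α) * (ε / 4) ≤ N * (ε / 4) := by gcongr
    have e5 : 4 / ε * (y0 / α) * (ε / 4) = y0 / α := by field_simp
    linarith
  have h8 : (c - ε) * (N : ℝ) = c' * N - ε / 4 * N - ε / 4 * N := by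
    rw [hc']
    ring
  linarith

/-- **upper densities** -/
theorem dens_all {ι : Type} [Countable ι] (q : ℕ) (hq : 2 ≤ q) (X : ι → ℕ → Prop) :
    ∃ E : Set ℝ, dimH E ≤ ENNReal.ofReal (q / (q + 1 / ((q : ℝ) * 2 ^ (q - 1)))) ∧ ∀ α : ℝ, 0 < α → α ∉ E → ∀ i : ι,
      ∃ η : ℝ, 0 < η ∧ ∀ c : ℝ, (∀ δ : ℝ, 0 < δ → ∀ᶠ y : ℕ in atTop, cn (X i) y ≤ (c + δ) * y) →
      ∀ ε : ℝ, 0 < ε → ∀ᶠ N : ℕ in atTop, ∀ P : Polynomial ℤ, P.natDegree = q →
      0 < P.leadingCoeff → (∀ j, |((P.coeff j : ℤ) : ℝ)| ≤ (N : ℝ) ^ η) → cnP (X i) α P N ≤ (c + ε) * N := by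
  classical
  have hc : ∀ (Y : ℕ → Prop) (y : ℕ), cn Y y + cn (fun m => ¬ Y m) y = y := by
    intro Y y
    rw [← cn_sum, ← cn_sum, ← sum_add_distrib]
    have h1 : ∀ m ∈ Icc 1 y, ind Y m + ind (fun m => ¬ Y m) m = 1 := by
      intro m _
      rw [ind_eq, ind_eq]
      by_cases h : Y m <;> simp [h]
    rw [sum_congr rfl h1]
    simp
  obtain ⟨E, hE, h⟩ := low_all q hq (fun i m => ¬ X i m)
  refine ⟨E, hE, fun α hα hαE i => ?_⟩
  obtain ⟨η, hη, h1⟩ := h α hα hαE i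
  refine ⟨η, hη, fun c hX ε hε => ?_⟩
  have h2 := h1 (1 - c) (fun δ hδ => by
    filter_upwards [hX δ hδ] with y hy
    have h3 := hc (X i) y
    have h4 : (1 - c - δ) * (y : ℝ) = y - (c + δ) * y := by ring
    linarith) ε hε
  filter_upwards [h2] with N hN
  intro P hdeg hlead hco
  have h3 := hN P hdeg hlead hco
  have h4 : cnP (X i) α P N + cnP (fun m => ¬ X i m) α P N = N := hc _ N
  have h5 : (1 - c - ε) * (N : ℝ) = N - (c + ε) * N := by ring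
  linarith

/-- from `m < M` to `m ≤ y` -/
theorem dens_lt (X : ℕ → Prop) {c : ℝ} (h : ∀ δ : ℝ, 0 < δ → ∀ᶠ M : ℕ in atTop,
    (Set.ncard {m : ℕ | m < M ∧ X m} : ℝ) ≤ (c + δ) * M) (δ : ℝ) (hδ : 0 < δ) :
    ∀ᶠ y : ℕ in atTop, cn X y ≤ (c + δ) * y := by
  filter_upwards [h (δ / 2) (by positivity), tendsto_natCast_atTop_atTop.eventually_ge_atTop (2 / δ)] with y hy hy2
  have h2 : cn X y ≤ ({m : ℕ | m < y ∧ X m}.ncard : ℝ) + 1 := by
    classical
    have h3 : (↑((Icc 1 y).filter X) : Set ℕ) ⊆ insert y {m : ℕ | m < y ∧ X m} := by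
      intro n hn
      simp only [coe_filter, mem_Icc] at hn
      rcases eq_or_lt_of_le hn.1.2 with h8 | h8
      · exact Or.inl h8
      · exact Or.inr ⟨h8, hn.2⟩
    have hfin : {m : ℕ | m < y ∧ X m}.Finite := (Set.finite_Iio y).subset fun m hm => hm.1
    have h4 := (Set.ncard_le_ncard h3 (hfin.insert y)).trans (Set.ncard_insert_le _ _)
    rw [Set.ncard_coe_finset] at h4
    unfold cn
    have h5 : (((Icc 1 y).filter X).card : ℝ) ≤ ((({m : ℕ | m < y ∧ X m}.ncard + 1 : ℕ)) : ℝ) := by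
      refine Nat.cast_le.2 (le_trans (le_of_eq ?_) h4)
      congr 1
    push_cast at h5
    refine le_trans (le_of_eq ?_) h5
    refine congrArg _ (congrArg _ ?_)
    ext n
    simp only [mem_filter]
  have h3 : (2 / δ) * (δ / 2) ≤ y * (δ / 2) := by gcongr
  have h4 : (2 / δ) * (δ / 2) = 1 := by field_simp
  linarith

end Pool.Agent.Q138.PS
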