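import Pool.Agent.Q138.PS.US
import Pool.Agent.Q138.PS.UP

set_option autoImplicit false

/-!
# Lower densities at every scale, along `⌊α P(n)⌋`
-/

namespace Pool.Agent.Q138.PS

open Finset MeasureTheory Filter Topology

/-- the index set: codes and scales up to `N ^ η` -/
noncomputable def Sc (η : ℝ) (N : ℕ) : Finset (ℕ × ℕ) := range (⌊(N : ℝ) ^ η⌋₊ + 1) ×ˢ range (⌊(N : ℝ) ^ η⌋₊ + 1)

theorem sc_mono (η : ℝ) (hη : 0 < η) : Monotone (Sc η) := by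
  intro a b hab
  have h : ⌊(a : ℝ) ^ η⌋₊ ≤ ⌊(b : ℝ) ^ η⌋₊ :=
    Nat.floor_le_floor (Real.rpow_le_rpow (Nat.cast_nonneg _) (by exact_mod_cast hab) hη.le)
  unfold Sc
  exact Finset.product_subset_product (range_subset_range.2 (by omega)) (range_subset_range.2 (by omega))

theorem sc_card (η : ℝ) (hη : 0 < η) : ∀ᶠ N : ℕ in atTop, ((Sc η N).card : ℝ) ≤ (N : ℝ) ^ (3 * η) := by
  have hrp : Tendsto (fun N : ℕ => (N : ℝ) ^ η) atTop atTop :=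
    (tendsto_rpow_atTop hη).comp tendsto_natCast_atTop_atTop
  filter_upwards [hrp.eventually_ge_atTop 4, eventually_ge_atTop 1] with N h4 hN1
  have hN0 : (0 : ℝ) < N := by exact_mod_cast hN1
  have h1 : ((⌊(N : ℝ) ^ η⌋₊ : ℕ) : ℝ) ≤ (N : ℝ) ^ η := Nat.floor_le (by positivity)
  unfold Sc
  rw [card_product, card_range]
  push_cast
  have h2 : ((⌊(N : ℝ) ^ η⌋₊ : ℕ) : ℝ) + 1 ≤ 2 * (N : ℝ) ^ η := by linarith
  have h3 : (N : ℝ) ^ (3 * η) = (N : ℝ) ^ η * (N : ℝ) ^ η * (N : ℝ) ^ η := by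
    rw [← Real.rpow_add hN0, ← Real.rpow_add hN0]
    congr 1
    ring
  have h5 : (0 : ℝ) ≤ ((⌊(N : ℝ) ^ η⌋₊ : ℕ) : ℝ) + 1 := by positivity
  rw [h3]
  have h6 : (((⌊(N : ℝ) ^ η⌋₊ : ℕ) : ℝ) + 1) * (((⌊(N : ℝ) ^ η⌋₊ : ℕ) : ℝ) + 1) ≤ 2 * (N : ℝ) ^ η * (2 * (N : ℝ) ^ η) := by
    gcongr
  have h7 : 2 * (N : ℝ) ^ η * (2 * (N : ℝ) ^ η) = 4 * ((N : ℝ) ^ η * (N : ℝ) ^ η) := by ring
  have h8 : 4 * ((N : ℝ) ^ η * (N : ℝ) ^ η) ≤ (N : ℝ) ^ η * ((N : ℝ) ^ η * (N : ℝ) ^ η) := by gcongr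
  nlinarith

/-- **lower densities at every scale** -/
theorem low_scales {ι : Type} [Countable ι] (q : ℕ) (hq : 2 ≤ q) (X : ι → ℕ → ℕ → Prop) (sc : ι → ℕ → ℕ) :
    ∃ E : Set ℝ, dimH E ≤ ENNReal.ofReal (q / (q + 1 / ((q : ℝ) * 2 ^ (q - 1)))) ∧ ∀ α : ℝ, 0 < α → α ∉ E →
      ∃ η : ℝ, 0 < η ∧ ∀ (i : ι) (c : ℝ) (C C0 : ℕ), c ≤ 1 → 1 ≤ C →
      (∀ᶠ m : ℕ in atTop, ∀ y : ℕ, C * y ≤ sc i m → c * y - C0 ≤ cn (X i m) y) →
      ∀ ε : ℝ, 0 < ε → ∀ᶠ N : ℕ in atTop, ∀ m : ℕ, C * N ^ (q + 1) ≤ sc i m → (m : ℝ) ≤ (N : ℝ) ^ η →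
      ∀ P : Polynomial ℤ, P.natDegree = q → 0 < P.leadingCoeff → (∀ j, |((P.coeff j : ℤ) : ℝ)| ≤ (N : ℝ) ^ η) →
      (c - ε) * N ≤ cnP (X i m) α P N := by
  classical
  obtain ⟨f, hf⟩ := exists_injective_nat ι
  obtain ⟨E, hE, hg⟩ := low_transfer q hq (ι := ℕ × ℕ) (fun jm => ind (fun n => ∃ i, f i = jm.1 ∧ X i jm.2 n)) (fun _ d => by
    rw [abs_of_nonneg (ind_nonneg _ _)]
    exact ind_le _ _) 3 (by norm_num) Sc sc_mono sc_card
  refine ⟨E, hE, fun α hα hαE => ?_⟩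
  obtain ⟨η, hη, -, h1⟩ := hg α hα hαE
  refine ⟨η, hη, fun i c C C0 hc1 hC hX ε hε => ?_⟩
  rcases le_or_gt c ε with hcε | hcε
  · refine Eventually.of_forall fun N m _ _ P _ _ _ => ?_
    have h2 : 0 ≤ cnP (X i m) α P N := cn_nonneg _ _
    have h3 : (c - ε) * N ≤ 0 := mul_nonpos_of_nonpos_of_nonneg (by linarith) (Nat.cast_nonneg N)
    linarith
  obtain ⟨m0, hm0⟩ := eventually_atTop.1 hX
  have hrp : Tendsto (fun N : ℕ => (N : ℝ) ^ η) atTop atTop :=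
    (tendsto_rpow_atTop hη).comp tendsto_natCast_atTop_atTop
  filter_upwards [h1, hrp.eventually_ge_atTop (4 / ε), tendsto_natCast_atTop_atTop.eventually_ge_atTop (4 / ε * (C0 / α)),
    hrp.eventually_ge_atTop (f i : ℝ), eventually_ge_atTop (∑ m ∈ range m0, sc i m + 1)] with N hN h4 h5 hfi hN1
  intro m hm hmN P hdeg hlead hco
  have hN1' : 1 ≤ N := le_trans (Nat.le_add_left 1 _) hN1
  have hNr : (1 : ℝ) ≤ N := by exact_mod_cast hN1'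
  have hN0 : (0 : ℝ) < N := by linarith
  have hmm : m0 ≤ m := by
    by_contra h
    push Not at h
    have h2 : sc i m ≤ ∑ m ∈ range m0, sc i m :=
      single_le_sum (f := fun m => sc i m) (fun _ _ => Nat.zero_le _) (mem_range.2 h)
    have h3 : N ≤ N ^ (q + 1) := Nat.le_self_pow (by omega) N
    have h6 : N ^ (q + 1) ≤ C * N ^ (q + 1) := Nat.le_mul_of_pos_left _ hC
    omega
  have hmem : ((f i, m) : ℕ × ℕ) ∈ Sc η N := by
    unfold Sc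
    rw [mem_product, mem_range, mem_range]
    constructor
    · have := Nat.le_floor hfi
      show f i < _
      omega
    · have := Nat.le_floor hmN
      show m < _
      omega
  have hXe : ∀ n, (∃ i', f i' = f i ∧ X i' m n) ↔ X i m n := by
    intro n
    constructor
    · rintro ⟨i', h, h'⟩
      rwa [hf h] at h'
    · intro h
      exact ⟨i, rfl, h⟩
  have hXf : (fun n => ∃ i', f i' = f i ∧ X i' m n) = X i m := funext fun n => propext (hXe n)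
  have h2 := hN (f i, m) hmem P hdeg hlead hco c C0 (by linarith) hc1 (Nat.cast_nonneg _) (fun y hy => by
    show c * y - C0 ≤ ∑ k ∈ Icc 1 y, ind (fun n => ∃ i', f i' = f i ∧ X i' m n) k
    rw [hXf, cn_sum]
    have hyN : y ≤ N ^ (q + 1) := by exact_mod_cast hy
    exact hm0 m hmm y (le_trans (Nat.mul_le_mul_left C hyN) hm))
  have e1 : ∑ n ∈ Icc 1 N, ind (fun n => ∃ i', f i' = f i ∧ X i' m n) ⌊α * ((P.eval (n : ℤ) : ℤ) : ℝ)⌋₊ =
      cnP (X i m) α P N := by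
    rw [hXf]
    unfold cnP
    rw [← cn_sum]
    rfl
  have e2 : c * (N : ℝ) - C0 / α - (N : ℝ) ^ (1 - η) ≤ cnP (X i m) α P N := by
    rw [← e1]
    exact h2
  have h6 : (N : ℝ) ^ (1 - η) ≤ ε / 4 * N := by
    have e2 : (N : ℝ) ^ (1 - η) * (N : ℝ) ^ η = N := by
      rw [← Real.rpow_add hN0]
      norm_num
    have e3 : (N : ℝ) ^ (1 - η) * (4 / ε) ≤ N := by
      calc (N : ℝ) ^ (1 - η) * (4 / ε) ≤ (N : ℝ) ^ (1 - η) * (N : ℝ) ^ η := by gcongr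
        _ = N := e2
    have e4 : (N : ℝ) ^ (1 - η) * (4 / ε) * (ε / 4) ≤ N * (ε / 4) := by gcongr
    have e5 : (N : ℝ) ^ (1 - η) * (4 / ε) * (ε / 4) = (N : ℝ) ^ (1 - η) := by field_simp
    linarith
  have h7 : C0 / α ≤ ε / 4 * N := by
    have e4 : 4 / ε * (C0 / α) * (ε / 4) ≤ N * (ε / 4) := by gcongr
    have e5 : 4 / ε * (C0 / α) * (ε / 4) = C0 / α := by field_simp
    linarith
  have h8 : (c - ε) * (N : ℝ) = c * N - ε * N := by ring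
  have h9 : 0 ≤ ε * (N : ℝ) := by positivity
  linarith

end Pool.Agent.Q138.PS
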