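import Pool.Agent.Q138.PS.UX

set_option autoImplicit false

/-!
# Power savings for families, and windows around `⌊α P(n)⌋`
-/

namespace Pool.Agent.Q138.PS

open Finset MeasureTheory Filter Topology

/-- complements -/
theorem cn_compl (Y : ℕ → Prop) (y : ℕ) : cn Y y + cn (fun m => ¬ Y m) y = y := by
  classical
  rw [← cn_sum, ← cn_sum, ← sum_add_distrib]
  have h1 : ∀ m ∈ Icc 1 y, ind Y m + ind (fun m => ¬ Y m) m = 1 := by
    intro m _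
    rw [ind_eq, ind_eq]
    by_cases h : Y m <;> simp [h]
  rw [sum_congr rfl h1]
  simp

/-- **power savings for families** -/
theorem exc_fam {ι : Type} (q : ℕ) (hq : 2 ≤ q) (X : ι → ℕ → Prop) (K : ℝ) (hK : 0 ≤ K)
    (Ω : ℝ → ℕ → Finset ι) (hΩ : ∀ η, 0 < η → Monotone (Ω η))
    (hcard : ∀ η, 0 < η → ∀ᶠ N : ℕ in atTop, ((Ω η N).card : ℝ) ≤ (N : ℝ) ^ (K * η)) :
    ∃ E : Set ℝ, dimH E ≤ ENNReal.ofReal (q / (q + 1 / ((q : ℝ) * 2 ^ (q - 1)))) ∧ ∀ α : ℝ, 0 < α → α ∉ E →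
      ∃ η : ℝ, 0 < η ∧ ∀ C δ : ℝ, 0 < δ → ∃ κ : ℝ, 0 < κ ∧ κ ≤ η ∧ ∀ᶠ N : ℕ in atTop, ∀ i ∈ Ω η N,
      (∀ Y : ℕ, 1 ≤ Y → (Y : ℝ) ≤ (N : ℝ) ^ (q + 1) → cn (X i) Y ≤ C * (N : ℝ) ^ κ * (Y : ℝ) ^ (1 - δ)) →
      ∀ P : Polynomial ℤ, P.natDegree = q → 0 < P.leadingCoeff → (∀ j, |((P.coeff j : ℤ) : ℝ)| ≤ (N : ℝ) ^ η) →
      cnP (X i) α P N ≤ (N : ℝ) ^ (1 - κ) := by
  classical
  obtain ⟨E, hE, hg⟩ := low_transfer q hq (fun i => ind (fun m => ¬ X i m)) (fun _ d => by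
    rw [abs_of_nonneg (ind_nonneg _ _)]
    exact ind_le _ _) K hK Ω hΩ hcard
  refine ⟨E, hE, fun α hα hαE => ?_⟩
  obtain ⟨η, hη, hη4, h1⟩ := hg α hα hαE
  refine ⟨η, hη, fun C δ hδ => ?_⟩
  set d : ℝ := min δ 1 with hd
  have hd0 : 0 < d := lt_min hδ one_pos
  have hd1 : d ≤ 1 := min_le_right _ _
  have hdδ : d ≤ δ := min_le_left _ _
  set κ : ℝ := min (η / 2) (d / 8) with hκ
  have hκ0 : 0 < κ := lt_min (by positivity) (by positivity)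
  have hκη : κ ≤ η / 2 := min_le_left _ _
  have hκd : κ ≤ d / 8 := min_le_right _ _
  refine ⟨κ, hκ0, by linarith, ?_⟩
  have hr : ∀ s : ℝ, 0 < s → Tendsto (fun N : ℕ => (N : ℝ) ^ s) atTop atTop := fun s hs =>
    (tendsto_rpow_atTop hs).comp tendsto_natCast_atTop_atTop
  filter_upwards [h1, (hr κ hκ0).eventually_ge_atTop 3, (hr (d / 8) (by positivity)).eventually_ge_atTop |C|,
    (hr (1 / 4) (by norm_num)).eventually_ge_atTop (3 / α), eventually_ge_atTop 1] with N hN hN3 hNC hNa hN1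
  intro i hi hX P hdeg hlead hco
  have hNr : (1 : ℝ) ≤ N := by exact_mod_cast hN1
  have hN0 : (0 : ℝ) < N := by linarith
  have hadd : ∀ a b : ℝ, (N : ℝ) ^ a * (N : ℝ) ^ b = (N : ℝ) ^ (a + b) := fun a b => (Real.rpow_add hN0 a b).symm
  have hmon : ∀ {a b : ℝ}, a ≤ b → (N : ℝ) ^ a ≤ (N : ℝ) ^ b := fun h => Real.rpow_le_rpow_of_exponent_le hNr h
  have h2 := hN i hi P hdeg hlead hco (1 - (N : ℝ) ^ (-(2 * κ))) ((N : ℝ) ^ ((1 : ℝ) / 2)) (by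
    have h3 : (N : ℝ) ^ (-(2 * κ)) ≤ (N : ℝ) ^ (0 : ℝ) := hmon (by linarith)
    rw [Real.rpow_zero] at h3
    linarith) (by
    have : (0 : ℝ) ≤ (N : ℝ) ^ (-(2 * κ)) := by positivity
    linarith) (by positivity) (fun y hy => by
    rw [cn_sum]
    have h3 := cn_compl (X i) y
    have h4 : cn (X i) y ≤ (N : ℝ) ^ (-(2 * κ)) * y + (N : ℝ) ^ ((1 : ℝ) / 2) := by
      have h5 : (0 : ℝ) ≤ (N : ℝ) ^ (-(2 * κ)) * y := by positivity
      rcases le_or_gt (y : ℝ) ((N : ℝ) ^ ((1 : ℝ) / 2)) with h | h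
      · exact (cn_le_self' _ _).trans (by linarith)
      · have hy0 : (0 : ℝ) < y := lt_of_le_of_lt (by positivity) h
        have hy1 : 1 ≤ y := by
          have : 0 < y := by exact_mod_cast hy0
          omega
        have hy1r : (1 : ℝ) ≤ y := by exact_mod_cast hy1
        have h6 := hX y hy1 hy
        have h7 : (y : ℝ) ^ (1 - δ) ≤ (y : ℝ) ^ (1 - d) := Real.rpow_le_rpow_of_exponent_le hy1r (by linarith)
        have h8 : (y : ℝ) ^ (1 - d) = y * (y : ℝ) ^ (-d) := by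
          nth_rewrite 2 [← Real.rpow_one (y : ℝ)]
          rw [← Real.rpow_add hy0]
          congr 1
        have h9 : (y : ℝ) ^ (-d) ≤ (N : ℝ) ^ (-(d / 2)) := by
          calc (y : ℝ) ^ (-d) ≤ ((N : ℝ) ^ ((1 : ℝ) / 2)) ^ (-d) :=
                Real.rpow_le_rpow_of_nonpos (by positivity) h.le (by linarith)
            _ = (N : ℝ) ^ (-(d / 2)) := by
                rw [← Real.rpow_mul hN0.le]
                congr 1
                ring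
        have h10 : C * (N : ℝ) ^ κ * (y : ℝ) ^ (1 - δ) ≤ (N : ℝ) ^ (d / 8) * (N : ℝ) ^ κ * (y * (N : ℝ) ^ (-(d / 2))) := by
          calc C * (N : ℝ) ^ κ * (y : ℝ) ^ (1 - δ) ≤ |C| * (N : ℝ) ^ κ * (y : ℝ) ^ (1 - δ) := by
                gcongr
                exact le_abs_self C
            _ ≤ (N : ℝ) ^ (d / 8) * (N : ℝ) ^ κ * (y : ℝ) ^ (1 - d) := by gcongr
            _ = (N : ℝ) ^ (d / 8) * (N : ℝ) ^ κ * (y * (y : ℝ) ^ (-d)) := by rw [h8]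
            _ ≤ (N : ℝ) ^ (d / 8) * (N : ℝ) ^ κ * (y * (N : ℝ) ^ (-(d / 2))) := by gcongr
        have h11 : (N : ℝ) ^ (d / 8) * (N : ℝ) ^ κ * (y * (N : ℝ) ^ (-(d / 2))) = (N : ℝ) ^ (d / 8 + κ + -(d / 2)) * y := by
          rw [← hadd, ← hadd]
          ring
        have h12 : (N : ℝ) ^ (d / 8 + κ + -(d / 2)) ≤ (N : ℝ) ^ (-(2 * κ)) := hmon (by linarith)
        have h13 : (N : ℝ) ^ (d / 8 + κ + -(d / 2)) * y ≤ (N : ℝ) ^ (-(2 * κ)) * y := by gcongr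
        have h14 : (0 : ℝ) ≤ (N : ℝ) ^ ((1 : ℝ) / 2) := by positivity
        linarith
    have h5 : (1 - (N : ℝ) ^ (-(2 * κ))) * (y : ℝ) = y - (N : ℝ) ^ (-(2 * κ)) * y := by ring
    linarith)
  have e1 : ∑ n ∈ Icc 1 N, ind (fun m => ¬ X i m) ⌊α * ((P.eval (n : ℤ) : ℤ) : ℝ)⌋₊ = cnP (fun m => ¬ X i m) α P N := by
    unfold cnP
    rw [← cn_sum]
    rfl
  rw [e1] at h2
  have h3 : cnP (X i) α P N + cnP (fun m => ¬ X i m) α P N = N := cn_compl _ N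
  have h4 : (1 - (N : ℝ) ^ (-(2 * κ))) * (N : ℝ) = N - (N : ℝ) ^ (1 - 2 * κ) := by
    have h5 : (N : ℝ) ^ (-(2 * κ)) * N = (N : ℝ) ^ (1 - 2 * κ) := by
      nth_rewrite 2 [← Real.rpow_one (N : ℝ)]
      rw [hadd]
      congr 1
      ring
    rw [sub_mul, h5, one_mul]
  have h5 : 3 * (N : ℝ) ^ (1 - 2 * κ) ≤ (N : ℝ) ^ (1 - κ) := by
    calc 3 * (N : ℝ) ^ (1 - 2 * κ) ≤ (N : ℝ) ^ κ * (N : ℝ) ^ (1 - 2 * κ) := by gcongr
      _ = (N : ℝ) ^ (1 - κ) := by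
          rw [hadd]
          congr 1
          ring
  have h6 : 3 * (N : ℝ) ^ (1 - η) ≤ (N : ℝ) ^ (1 - κ) := by
    calc 3 * (N : ℝ) ^ (1 - η) ≤ (N : ℝ) ^ κ * (N : ℝ) ^ (1 - η) := by gcongr
      _ = (N : ℝ) ^ (1 - η + κ) := by
          rw [hadd]
          congr 1
          ring
      _ ≤ (N : ℝ) ^ (1 - κ) := hmon (by linarith)
  have h7 : 3 * ((N : ℝ) ^ ((1 : ℝ) / 2) / α) ≤ (N : ℝ) ^ (1 - κ) := by
    calc 3 * ((N : ℝ) ^ ((1 : ℝ) / 2) / α) = 3 / α * (N : ℝ) ^ ((1 : ℝ) / 2) := by ring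
      _ ≤ (N : ℝ) ^ ((1 : ℝ) / 4) * (N : ℝ) ^ ((1 : ℝ) / 2) := by gcongr
      _ = (N : ℝ) ^ ((1 : ℝ) / 4 + 1 / 2) := hadd _ _
      _ ≤ (N : ℝ) ^ (1 - κ) := hmon (by linarith)
  linarith

/-- some `j` at distance at most `W` of `m` has the property `X` -/
def nb (X : ℕ → Prop) (W m : ℕ) : Prop := ∃ j : ℕ, X j ∧ j ≤ m + W ∧ m ≤ j + W

theorem nb_count (X : ℕ → Prop) (W Y : ℕ) : cn (nb X W) Y ≤ (2 * W + 1) * (cn X (Y + W) + 1) := by
  classical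
  have h1 : (Icc 1 Y).filter (nb X W) ⊆ ((Icc 0 (Y + W)).filter X).biUnion fun j => Icc (j - W) (j + W) := by
    intro m hm
    rw [mem_filter, mem_Icc] at hm
    obtain ⟨hm1, j, hj, h2, h3⟩ := hm
    refine mem_biUnion.2 ⟨j, mem_filter.2 ⟨mem_Icc.2 ⟨Nat.zero_le _, by omega⟩, hj⟩, mem_Icc.2 ⟨by omega, by omega⟩⟩
  have h2 : (((Icc 0 (Y + W)).filter X).biUnion fun j => Icc (j - W) (j + W)).card ≤
      ((Icc 0 (Y + W)).filter X).card * (2 * W + 1) := by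
    refine card_biUnion_le_card_mul _ _ _ fun j _ => ?_
    rw [Nat.card_Icc]
    omega
  have h3 : ((Icc 0 (Y + W)).filter X).card ≤ ((Icc 1 (Y + W)).filter X).card + 1 := by
    have h4 : (Icc 0 (Y + W)).filter X ⊆ insert 0 ((Icc 1 (Y + W)).filter X) := by
      intro j hj
      rw [mem_filter, mem_Icc] at hj
      rcases Nat.eq_zero_or_pos j with h | h
      · rw [h]
        exact mem_insert_self _ _
      · exact mem_insert_of_mem (mem_filter.2 ⟨mem_Icc.2 ⟨h, hj.1.2⟩, hj.2⟩)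
    exact (card_le_card h4).trans (card_insert_le _ _)
  have h4 : ((Icc 1 Y).filter (nb X W)).card ≤ (((Icc 1 (Y + W)).filter X).card + 1) * (2 * W + 1) :=
    (card_le_card h1).trans (h2.trans (Nat.mul_le_mul_right _ h3))
  have h5 : (((Icc 1 Y).filter (nb X W)).card : ℝ) ≤ (((Icc 1 (Y + W)).filter X).card + 1) * (2 * W + 1) := by
    exact_mod_cast h4
  have e1 : cn (nb X W) Y = (((Icc 1 Y).filter (nb X W)).card : ℝ) := by
    unfold cn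
    refine congrArg _ (congrArg _ ?_)
    ext n
    simp only [mem_filter]
  have e2 : cn X (Y + W) = (((Icc 1 (Y + W)).filter X).card : ℝ) := by
    unfold cn
    refine congrArg _ (congrArg _ ?_)
    ext n
    simp only [mem_filter]
  rw [e1, e2]
  linarith

/-- **power savings for whole windows** -/
theorem exc_win {ι : Type} [Countable ι] (q : ℕ) (hq : 2 ≤ q) (X : ι → ℕ → Prop) :
    ∃ E : Set ℝ, dimH E ≤ ENNReal.ofReal (q / (q + 1 / ((q : ℝ) * 2 ^ (q - 1)))) ∧ ∀ α : ℝ, 0 < α → α ∉ E →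
      ∃ η : ℝ, 0 < η ∧ ∀ (i : ι) (C δ : ℝ), 0 < δ → (∀ Y : ℕ, 1 ≤ Y → cn (X i) Y ≤ C * (Y : ℝ) ^ (1 - δ)) →
      ∃ κ : ℝ, 0 < κ ∧ κ ≤ η ∧ ∀ᶠ N : ℕ in atTop, ∀ W : ℕ, (W : ℝ) ≤ (N : ℝ) ^ κ →
      ∀ P : Polynomial ℤ, P.natDegree = q → 0 < P.leadingCoeff → (∀ j, |((P.coeff j : ℤ) : ℝ)| ≤ (N : ℝ) ^ η) →
      cnP (nb (X i) W) α P N ≤ (N : ℝ) ^ (1 - κ) := by
  classical
  obtain ⟨f, hf⟩ := exists_injective_nat ι
  obtain ⟨E, hE, hg⟩ := exc_fam q hq (ι := ℕ × ℕ) (fun iW => nb (fun n => ∃ i, f i = iW.1 ∧ X i n) iW.2) 3 (by norm_num)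
    Sc sc_mono sc_card
  refine ⟨E, hE, fun α hα hαE => ?_⟩
  obtain ⟨η, hη, h1⟩ := hg α hα hαE
  refine ⟨η, hη, fun i C δ hδ hX => ?_⟩
  set d : ℝ := min δ 1 with hd
  have hd0 : 0 < d := lt_min hδ one_pos
  have hd1 : d ≤ 1 := min_le_right _ _
  have hdδ : d ≤ δ := min_le_left _ _
  obtain ⟨κ, hκ, hκη, h2⟩ := h1 (6 * |C| + 3) d hd0
  refine ⟨κ / 2, by positivity, by linarith, ?_⟩
  have hr : ∀ s : ℝ, 0 < s → Tendsto (fun N : ℕ => (N : ℝ) ^ s) atTop atTop := fun s hs =>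
    (tendsto_rpow_atTop hs).comp tendsto_natCast_atTop_atTop
  filter_upwards [h2, (hr η hη).eventually_ge_atTop (f i : ℝ), eventually_ge_atTop 1] with N hN hfi hN1
  intro W hW P hdeg hlead hco
  have hNr : (1 : ℝ) ≤ N := by exact_mod_cast hN1
  have hN0 : (0 : ℝ) < N := by linarith
  have hXf : (fun n => ∃ i', f i' = f i ∧ X i' n) = X i := funext fun n => propext
    ⟨by
      rintro ⟨i', h, h'⟩
      rwa [hf h] at h', fun h => ⟨i, rfl, h⟩⟩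
  have hWη : (W : ℝ) ≤ (N : ℝ) ^ η := hW.trans (Real.rpow_le_rpow_of_exponent_le hNr (by linarith))
  have hmem : ((f i, W) : ℕ × ℕ) ∈ Sc η N := by
    unfold Sc
    rw [mem_product, mem_range, mem_range]
    constructor
    · have := Nat.le_floor hfi
      show f i < _
      omega
    · have := Nat.le_floor hWη
      show W < _
      omega
  have h3 := hN (f i, W) hmem (fun Y hY1 _ => by
    show cn (nb (fun n => ∃ i', f i' = f i ∧ X i' n) W) Y ≤ _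
    rw [hXf]
    have hY1r : (1 : ℝ) ≤ Y := by exact_mod_cast hY1
    set V : ℝ := max W 1 with hV
    have hV1 : 1 ≤ V := le_max_right _ _
    have hVW : (W : ℝ) ≤ V := le_max_left _ _
    have hVN : V ≤ (N : ℝ) ^ (κ / 2) := max_le hW (Real.one_le_rpow hNr (by positivity))
    have h4 := nb_count (X i) W Y
    have h5 := hX (Y + W) (by omega)
    have hYW : ((Y + W : ℕ) : ℝ) ≤ 2 * V * Y := by
      push_cast
      nlinarith
    have hYW1 : (1 : ℝ) ≤ ((Y + W : ℕ) : ℝ) := by exact_mod_cast (by omega : 1 ≤ Y + W)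
    have h6 : ((Y + W : ℕ) : ℝ) ^ (1 - δ) ≤ 2 * V * (Y : ℝ) ^ (1 - d) := by
      calc ((Y + W : ℕ) : ℝ) ^ (1 - δ) ≤ ((Y + W : ℕ) : ℝ) ^ (1 - d) := Real.rpow_le_rpow_of_exponent_le hYW1 (by linarith)
        _ ≤ (2 * V * Y) ^ (1 - d) := Real.rpow_le_rpow (by positivity) hYW (by linarith)
        _ = (2 * V) ^ (1 - d) * (Y : ℝ) ^ (1 - d) := Real.mul_rpow (by positivity) (by positivity)
        _ ≤ (2 * V) * (Y : ℝ) ^ (1 - d) := by
            gcongr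
            calc (2 * V) ^ (1 - d) ≤ (2 * V) ^ (1 : ℝ) := Real.rpow_le_rpow_of_exponent_le (by linarith) (by linarith)
              _ = 2 * V := Real.rpow_one _
    have h7 : (1 : ℝ) ≤ (Y : ℝ) ^ (1 - d) := Real.one_le_rpow hY1r (by linarith)
    have h8 : cn (X i) (Y + W) + 1 ≤ (2 * |C| + 1) * V * (Y : ℝ) ^ (1 - d) := by
      have h9 : C * ((Y + W : ℕ) : ℝ) ^ (1 - δ) ≤ |C| * (2 * V * (Y : ℝ) ^ (1 - d)) := by
        calc C * ((Y + W : ℕ) : ℝ) ^ (1 - δ) ≤ |C| * ((Y + W : ℕ) : ℝ) ^ (1 - δ) := by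
              gcongr
              exact le_abs_self C
          _ ≤ _ := by gcongr
      have h10 : 1 ≤ V * (Y : ℝ) ^ (1 - d) := by nlinarith
      have h11 : (2 * |C| + 1) * V * (Y : ℝ) ^ (1 - d) = |C| * (2 * V * (Y : ℝ) ^ (1 - d)) + V * (Y : ℝ) ^ (1 - d) := by ring
      linarith
    have h9 : (2 * (W : ℝ) + 1) ≤ 3 * V := by linarith
    have h10 : (N : ℝ) ^ κ = (N : ℝ) ^ (κ / 2) * (N : ℝ) ^ (κ / 2) := by
      rw [← Real.rpow_add hN0]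
      congr 1
      ring
    calc cn (nb (X i) W) Y ≤ (2 * W + 1) * (cn (X i) (Y + W) + 1) := h4
      _ ≤ (3 * V) * ((2 * |C| + 1) * V * (Y : ℝ) ^ (1 - d)) := by
          have h12 : 0 ≤ cn (X i) (Y + W) := cn_nonneg _ _
          gcongr
      _ = (6 * |C| + 3) * (V * V) * (Y : ℝ) ^ (1 - d) := by ring
      _ ≤ (6 * |C| + 3) * ((N : ℝ) ^ (κ / 2) * (N : ℝ) ^ (κ / 2)) * (Y : ℝ) ^ (1 - d) := by gcongr
      _ = (6 * |C| + 3) * (N : ℝ) ^ κ * (Y : ℝ) ^ (1 - d) := by rw [h10]) P hdeg hlead hco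
  have h4 : cnP (nb (fun n => ∃ i', f i' = f i ∧ X i' n) W) α P N ≤ (N : ℝ) ^ (1 - κ) := h3
  rw [hXf] at h4
  exact h4.trans (Real.rpow_le_rpow_of_exponent_le hNr (by linarith))

/-- **lower densities, with one `η`** -/
theorem low_unif {ι : Type} [Countable ι] (q : ℕ) (hq : 2 ≤ q) (X : ι → ℕ → Prop) :
    ∃ E : Set ℝ, dimH E ≤ ENNReal.ofReal (q / (q + 1 / ((q : ℝ) * 2 ^ (q - 1)))) ∧ ∀ α : ℝ, 0 < α → α ∉ E →
      ∃ η : ℝ, 0 < η ∧ ∀ (i : ι) (c : ℝ), (∀ δ : ℝ, 0 < δ → ∀ᶠ y : ℕ in atTop, (c - δ) * y ≤ cn (X i) y) →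
      ∀ ε : ℝ, 0 < ε → ∀ᶠ N : ℕ in atTop, ∀ P : Polynomial ℤ, P.natDegree = q →
      0 < P.leadingCoeff → (∀ j, |((P.coeff j : ℤ) : ℝ)| ≤ (N : ℝ) ^ η) → (c - ε) * N ≤ cnP (X i) α P N := by
  classical
  obtain ⟨E, hE, hg⟩ := low_scales q hq (fun i _ => X i) (fun _ m => 2 ^ m)
  refine ⟨E, hE, fun α hα hαE => ?_⟩
  obtain ⟨η, hη, h1⟩ := hg α hα hαE
  refine ⟨η, hη, fun i c hc ε hε => ?_⟩
  obtain ⟨y0, hy0⟩ := eventually_atTop.1 (hc (ε / 2) (by positivity))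
  have hc'1 : c - ε / 2 ≤ 1 := by
    have h2 := hy0 (max y0 1) (le_max_left _ _)
    have h3 := cn_le_self' (X i) (max y0 1)
    have h4 : (0 : ℝ) < ((max y0 1 : ℕ) : ℝ) := by
      have : 1 ≤ max y0 1 := le_max_right _ _
      exact_mod_cast this
    have h5 : (c - ε / 2) * ((max y0 1 : ℕ) : ℝ) ≤ 1 * ((max y0 1 : ℕ) : ℝ) := by linarith
    exact le_of_mul_le_mul_right h5 h4
  have h2 := h1 i (c - ε / 2) 1 y0 hc'1 le_rfl (Eventually.of_forall fun m y _ => by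
    rcases le_or_gt y0 y with h | h
    · have h3 := hy0 y h
      have h6 : (0 : ℝ) ≤ y0 := Nat.cast_nonneg _
      linarith
    · have h3 : (y : ℝ) ≤ y0 := by exact_mod_cast h.le
      have h4 : (c - ε / 2) * y ≤ 1 * y := by gcongr
      have h5 := cn_nonneg (X i) y
      linarith) (ε / 2) (by positivity)
  have hlog : ∀ᶠ N : ℕ in atTop, (((q + 1) * (Nat.log 2 N + 1) : ℕ) : ℝ) ≤ (N : ℝ) ^ η := by
    have hl : Tendsto (fun N : ℕ => Real.log N / (N : ℝ) ^ η) atTop (𝓝 0) :=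
      ((isLittleO_log_rpow_atTop hη).tendsto_div_nhds_zero).comp tendsto_natCast_atTop_atTop
    have hrp : Tendsto (fun N : ℕ => (N : ℝ) ^ η) atTop atTop :=
      (tendsto_rpow_atTop hη).comp tendsto_natCast_atTop_atTop
    have hpos : (0 : ℝ) < 1 / (4 * (q + 1)) := by positivity
    filter_upwards [hl.eventually_lt_const hpos, hrp.eventually_ge_atTop (2 * (q + 1)), eventually_ge_atTop 1] with N hN h2N hN1
    have hNr : (1 : ℝ) ≤ N := by exact_mod_cast hN1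
    have h0 : (0 : ℝ) < (N : ℝ) ^ η := by positivity
    have h3 : Real.log N ≤ 1 / (4 * (q + 1)) * (N : ℝ) ^ η := by
      rw [div_lt_iff₀ h0] at hN
      exact hN.le
    have h4 : ((Nat.log 2 N : ℕ) : ℝ) ≤ 2 * Real.log N := by
      have h5 : (2 : ℝ) ^ Nat.log 2 N ≤ N := by exact_mod_cast Nat.pow_log_le_self 2 (by omega)
      have h6 : (Nat.log 2 N : ℝ) * Real.log 2 ≤ Real.log N := by
        rw [← Real.log_pow]
        exact Real.log_le_log (by positivity) h5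
      have h7 : (1 / 2 : ℝ) ≤ Real.log 2 := by
        have := Real.log_two_gt_d9
        linarith
      have h8 : (Nat.log 2 N : ℝ) * (1 / 2) ≤ Nat.log 2 N * Real.log 2 := by gcongr
      linarith
    push_cast
    have h5 : (q + 1 : ℝ) * (2 * (1 / (4 * (q + 1)) * (N : ℝ) ^ η)) = (N : ℝ) ^ η / 2 := by
      field_simp
      ring
    have h6 : (q + 1 : ℝ) * (Nat.log 2 N : ℝ) ≤ (q + 1 : ℝ) * (2 * (1 / (4 * (q + 1)) * (N : ℝ) ^ η)) := by
      gcongr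
      linarith
    linarith
  filter_upwards [h2, hlog] with N hN hl
  intro P hdeg hlead hco
  have h3 := hN ((q + 1) * (Nat.log 2 N + 1)) (by
    rw [one_mul]
    have h4 : N ≤ 2 ^ (Nat.log 2 N + 1) := (Nat.lt_pow_succ_log_self (by norm_num) N).le
    calc N ^ (q + 1) ≤ (2 ^ (Nat.log 2 N + 1)) ^ (q + 1) := Nat.pow_le_pow_left h4 _
      _ = 2 ^ ((q + 1) * (Nat.log 2 N + 1)) := by
          rw [← pow_mul]
          congr 1
          ring) hl P hdeg hlead hco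
  have h4 : (c - ε / 2 - ε / 2) * (N : ℝ) = (c - ε) * N := by ring
  linarith

/-- **sets of density zero: windows of bounded length, with one `η`** -/
theorem zero_win {ι : Type} [Countable ι] (q : ℕ) (hq : 2 ≤ q) (X : ι → ℕ → Prop) :
    ∃ E : Set ℝ, dimH E ≤ ENNReal.ofReal (q / (q + 1 / ((q : ℝ) * 2 ^ (q - 1)))) ∧ ∀ α : ℝ, 0 < α → α ∉ E →
      ∃ η : ℝ, 0 < η ∧ ∀ i : ι, (∀ δ : ℝ, 0 < δ → ∀ᶠ y : ℕ in atTop, cn (X i) y ≤ δ * y) →
      ∀ (W : ℕ) (ε : ℝ), 0 < ε → ∀ᶠ N : ℕ in atTop, ∀ P : Polynomial ℤ, P.natDegree = q →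
      0 < P.leadingCoeff → (∀ j, |((P.coeff j : ℤ) : ℝ)| ≤ (N : ℝ) ^ η) → cnP (nb (X i) W) α P N ≤ ε * N := by
  classical
  obtain ⟨E, hE, hg⟩ := low_unif (ι := ι × ℕ) q hq (fun iW m => ¬ nb (X iW.1) iW.2 m)
  refine ⟨E, hE, fun α hα hαE => ?_⟩
  obtain ⟨η, hη, h1⟩ := hg α hα hαE
  refine ⟨η, hη, fun i hX W ε hε => ?_⟩
  have h2 := h1 (i, W) 1 (fun δ hδ => by
    have hW0 : (0 : ℝ) < 2 * W + 1 := by positivity
    have hd : 0 < δ / (4 * (2 * W + 1)) := by positivity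
    obtain ⟨y0, hy0⟩ := eventually_atTop.1 (hX _ hd)
    filter_upwards [eventually_ge_atTop (y0 + W + 1),
      tendsto_natCast_atTop_atTop.eventually_ge_atTop (2 * (2 * W + 1) / δ)] with y hy hyr
    have h3 := cn_compl (nb (X i) W) y
    have h4 := nb_count (X i) W y
    have h5 := hy0 (y + W) (by omega)
    have h6 : ((y + W : ℕ) : ℝ) ≤ 2 * y := by
      have : y + W ≤ 2 * y := by omega
      exact_mod_cast this
    have h7 : cn (X i) (y + W) ≤ δ / (4 * (2 * W + 1)) * (2 * y) := h5.trans (by gcongr)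
    have h8 : (2 * (W : ℝ) + 1) * (δ / (4 * (2 * W + 1)) * (2 * y)) = δ / 2 * y := by
      field_simp
      ring
    have h9 : 2 * (2 * (W : ℝ) + 1) / δ * (δ / 2) ≤ y * (δ / 2) := by gcongr
    have h10 : 2 * (2 * (W : ℝ) + 1) / δ * (δ / 2) = 2 * W + 1 := by field_simp
    have h11 : (2 * (W : ℝ) + 1) * (cn (X i) (y + W) + 1) ≤
        (2 * (W : ℝ) + 1) * (δ / (4 * (2 * W + 1)) * (2 * y)) + (2 * W + 1) := by nlinarith
    have h12 : (1 - δ) * (y : ℝ) = y - δ * y := by ring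
    show (1 - δ) * (y : ℝ) ≤ cn (fun m => ¬ nb (X i) W m) y
    linarith) ε hε
  filter_upwards [h2] with N hN
  intro P hdeg hlead hco
  have h3 : (1 - ε) * (N : ℝ) ≤ cnP (fun m => ¬ nb (X i) W m) α P N := hN P hdeg hlead hco
  have h4 : cnP (nb (X i) W) α P N + cnP (fun m => ¬ nb (X i) W m) α P N = N := cn_compl _ N
  have h5 : (1 - ε) * (N : ℝ) = N - ε * N := by ring
  linarith

end Pool.Agent.Q138.PS
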