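import Pool.Agent.Q138.PS.UY

set_option autoImplicit false

/-!
# Power savings for families, a variant
-/

namespace Pool.Agent.Q138.PS

open Finset MeasureTheory Filter Topology

/-- **power savings for families**, only the range `√N ≤ Y ≤ N ^ (q + 1)` matters; `κ` is given in terms of `η`, `δ` -/
theorem exc_fam2 {ι : Type} (q : ℕ) (hq : 2 ≤ q) (X : ι → ℕ → Prop) (K : ℝ) (hK : 0 ≤ K)
    (Ω : ℝ → ℕ → Finset ι) (hΩ : ∀ η, 0 < η → Monotone (Ω η))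
    (hcard : ∀ η, 0 < η → ∀ᶠ N : ℕ in atTop, ((Ω η N).card : ℝ) ≤ (N : ℝ) ^ (K * η)) :
    ∃ E : Set ℝ, dimH E ≤ ENNReal.ofReal (q / (q + 1 / ((q : ℝ) * 2 ^ (q - 1)))) ∧ ∀ α : ℝ, 0 < α → α ∉ E →
      ∃ η : ℝ, 0 < η ∧ η ≤ 1 / 4 ∧ ∀ C δ : ℝ, 0 < δ → ∃ κ : ℝ, 0 < κ ∧ κ ≤ η ∧ ∀ᶠ N : ℕ in atTop, ∀ i ∈ Ω η N,
      (∀ Y : ℕ, (N : ℝ) ^ ((1 : ℝ) / 2) < Y → (Y : ℝ) ≤ (N : ℝ) ^ (q + 1) → cn (X i) Y ≤ C * (N : ℝ) ^ κ * (Y : ℝ) ^ (1 - δ)) →
      ∀ P : Polynomial ℤ, P.natDegree = q → 0 < P.leadingCoeff → (∀ j, |((P.coeff j : ℤ) : ℝ)| ≤ (N : ℝ) ^ η) →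
      cnP (X i) α P N ≤ (N : ℝ) ^ (1 - κ) := by
  classical
  obtain ⟨E, hE, hg⟩ := low_transfer q hq (fun i => ind (fun m => ¬ X i m)) (fun _ d => by
    rw [abs_of_nonneg (ind_nonneg _ _)]
    exact ind_le _ _) K hK Ω hΩ hcard
  refine ⟨E, hE, fun α hα hαE => ?_⟩
  obtain ⟨η, hη, hη4, h1⟩ := hg α hα hαE
  refine ⟨η, hη, hη4, fun C δ hδ => ?_⟩
  set d : ℝ := min δ 1 with hd
  have hd0 : 0 < d := lt_min hδ one_pos
  have hd1 : d ≤ 1 := min_le_right _ _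
  have hdδ : d ≤ δ := min_le_left _ _
  set κ : ℝ := min (η / 2) (d / 8) with hκ
  have hκ0 : 0 < κ := lt_min (by positivity) (by positivity)
  have hκη : κ ≤ η / 2 := min_le_left _ _
  have hκd : κ ≤ d / 8 := min_le_right _ _
  refine ⟨κ, hκ0, by linarith, ?_⟩
  have hr : ∀ s : ℝ, 0 < s → Tendsto (fun N : ℕ => (N : ℝ) ^ s) atTop atTop := fun s hs =>
    (tendsto_rpow_atTop hs).comp tendsto_natCast_atTop_atTop
  filter_upwards [h1, (hr κ hκ0).eventually_ge_atTop 3, (hr (d / 8) (by positivity)).eventually_ge_atTop |C|,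
    (hr (1 / 4) (by norm_num)).eventually_ge_atTop (3 / α), eventually_ge_atTop 1] with N hN hN3 hNC hNa hN1
  intro i hi hX P hdeg hlead hco
  have hNr : (1 : ℝ) ≤ N := by exact_mod_cast hN1
  have hN0 : (0 : ℝ) < N := by linarith
  have hadd : ∀ a b : ℝ, (N : ℝ) ^ a * (N : ℝ) ^ b = (N : ℝ) ^ (a + b) := fun a b => (Real.rpow_add hN0 a b).symm
  have hmon : ∀ {a b : ℝ}, a ≤ b → (N : ℝ) ^ a ≤ (N : ℝ) ^ b := fun h => Real.rpow_le_rpow_of_exponent_le hNr h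
  have h2 := hN i hi P hdeg hlead hco (1 - (N : ℝ) ^ (-(2 * κ))) ((N : ℝ) ^ ((1 : ℝ) / 2)) (by
    have h3 : (N : ℝ) ^ (-(2 * κ)) ≤ (N : ℝ) ^ (0 : ℝ) := hmon (by linarith)
    rw [Real.rpow_zero] at h3
    linarith) (by
    have : (0 : ℝ) ≤ (N : ℝ) ^ (-(2 * κ)) := by positivity
    linarith) (by positivity) (fun y hy => by
    rw [cn_sum]
    have h3 := cn_compl (X i) y
    have h4 : cn (X i) y ≤ (N : ℝ) ^ (-(2 * κ)) * y + (N : ℝ) ^ ((1 : ℝ) / 2) := by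
      have h5 : (0 : ℝ) ≤ (N : ℝ) ^ (-(2 * κ)) * y := by positivity
      rcases le_or_gt (y : ℝ) ((N : ℝ) ^ ((1 : ℝ) / 2)) with h | h
      · exact (cn_le_self' _ _).trans (by linarith)
      · have hy0 : (0 : ℝ) < y := lt_of_le_of_lt (by positivity) h
        have hy1 : 1 ≤ y := by
          have : 0 < y := by exact_mod_cast hy0
          omega
        have hy1r : (1 : ℝ) ≤ y := by exact_mod_cast hy1
        have h6 := hX y h hy
        have h7 : (y : ℝ) ^ (1 - δ) ≤ (y : ℝ) ^ (1 - d) := Real.rpow_le_rpow_of_exponent_le hy1r (by linarith)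
        have h8 : (y : ℝ) ^ (1 - d) = y * (y : ℝ) ^ (-d) := by
          nth_rewrite 2 [← Real.rpow_one (y : ℝ)]
          rw [← Real.rpow_add hy0]
          congr 1
        have h9 : (y : ℝ) ^ (-d) ≤ (N : ℝ) ^ (-(d / 2)) := by
          calc (y : ℝ) ^ (-d) ≤ ((N : ℝ) ^ ((1 : ℝ) / 2)) ^ (-d) :=
                Real.rpow_le_rpow_of_nonpos (by positivity) h.le (by linarith)
            _ = (N : ℝ) ^ (-(d / 2)) := by
                rw [← Real.rpow_mul hN0.le]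
                congr 1
                ring
        have h10 : C * (N : ℝ) ^ κ * (y : ℝ) ^ (1 - δ) ≤ (N : ℝ) ^ (d / 8) * (N : ℝ) ^ κ * (y * (N : ℝ) ^ (-(d / 2))) := by
          calc C * (N : ℝ) ^ κ * (y : ℝ) ^ (1 - δ) ≤ |C| * (N : ℝ) ^ κ * (y : ℝ) ^ (1 - δ) := by
                gcongr
                exact le_abs_self C
            _ ≤ (N : ℝ) ^ (d / 8) * (N : ℝ) ^ κ * (y : ℝ) ^ (1 - d) := by gcongr
            _ = (N : ℝ) ^ (d / 8) * (N : ℝ) ^ κ * (y * (y : ℝ) ^ (-d)) := by rw [h8]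
            _ ≤ (N : ℝ) ^ (d / 8) * (N : ℝ) ^ κ * (y * (N : ℝ) ^ (-(d / 2))) := by gcongr
        have h11 : (N : ℝ) ^ (d / 8) * (N : ℝ) ^ κ * (y * (N : ℝ) ^ (-(d / 2))) = (N : ℝ) ^ (d / 8 + κ + -(d / 2)) * y := by
          rw [← hadd, ← hadd]
          ring
        have h12 : (N : ℝ) ^ (d / 8 + κ + -(d / 2)) ≤ (N : ℝ) ^ (-(2 * κ)) := hmon (by linarith)
        have h13 : (N : ℝ) ^ (d / 8 + κ + -(d / 2)) * y ≤ (N : ℝ) ^ (-(2 * κ)) * y := by gcongr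
        have h14 : (0 : ℝ) ≤ (N : ℝ) ^ ((1 : ℝ) / 2) := by positivity
        linarith
    have h5 : (1 - (N : ℝ) ^ (-(2 * κ))) * (y : ℝ) = y - (N : ℝ) ^ (-(2 * κ)) * y := by ring
    linarith)
  have e1 : ∑ n ∈ Icc 1 N, ind (fun m => ¬ X i m) ⌊α * ((P.eval (n : ℤ) : ℤ) : ℝ)⌋₊ = cnP (fun m => ¬ X i m) α P N := by
    unfold cnP
    rw [← cn_sum]
    rfl
  rw [e1] at h2
  have h3 : cnP (X i) α P N + cnP (fun m => ¬ X i m) α P N = N := cn_compl _ N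
  have h4 : (1 - (N : ℝ) ^ (-(2 * κ))) * (N : ℝ) = N - (N : ℝ) ^ (1 - 2 * κ) := by
    have h5 : (N : ℝ) ^ (-(2 * κ)) * N = (N : ℝ) ^ (1 - 2 * κ) := by
      nth_rewrite 2 [← Real.rpow_one (N : ℝ)]
      rw [hadd]
      congr 1
      ring
    rw [sub_mul, h5, one_mul]
  have h5 : 3 * (N : ℝ) ^ (1 - 2 * κ) ≤ (N : ℝ) ^ (1 - κ) := by
    calc 3 * (N : ℝ) ^ (1 - 2 * κ) ≤ (N : ℝ) ^ κ * (N : ℝ) ^ (1 - 2 * κ) := by gcongr
      _ = (N : ℝ) ^ (1 - κ) := by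
          rw [hadd]
          congr 1
          ring
  have h6 : 3 * (N : ℝ) ^ (1 - η) ≤ (N : ℝ) ^ (1 - κ) := by
    calc 3 * (N : ℝ) ^ (1 - η) ≤ (N : ℝ) ^ κ * (N : ℝ) ^ (1 - η) := by gcongr
      _ = (N : ℝ) ^ (1 - η + κ) := by
          rw [hadd]
          congr 1
          ring
      _ ≤ (N : ℝ) ^ (1 - κ) := hmon (by linarith)
  have h7 : 3 * ((N : ℝ) ^ ((1 : ℝ) / 2) / α) ≤ (N : ℝ) ^ (1 - κ) := by
    calc 3 * ((N : ℝ) ^ ((1 : ℝ) / 2) / α) = 3 / α * (N : ℝ) ^ ((1 : ℝ) / 2) := by ring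
      _ ≤ (N : ℝ) ^ ((1 : ℝ) / 4) * (N : ℝ) ^ ((1 : ℝ) / 2) := by gcongr
      _ = (N : ℝ) ^ ((1 : ℝ) / 4 + 1 / 2) := hadd _ _
      _ ≤ (N : ℝ) ^ (1 - κ) := hmon (by linarith)
  linarith

/-- the scales -/
noncomputable def sca (t : ℝ) (m : ℕ) : ℕ := ⌈(1 + t) ^ m⌉₊

/-- every `x ≥ 2 / t` is close to a scale -/
theorem sca_close {t : ℝ} (ht : 0 < t) {x : ℕ} (hx : 1 ≤ x) (hxt : 1 / t ≤ x) :
    ∃ m : ℕ, x ≤ sca t m ∧ (sca t m : ℝ) ≤ (1 + 2 * t) * x ∧ (m : ℝ) * Real.log (1 + t) ≤ Real.log x + Real.log (1 + t) := by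
  have hex : ∃ m : ℕ, (x : ℝ) ≤ (1 + t) ^ m := by
    obtain ⟨m, hm⟩ := pow_unbounded_of_one_lt (x : ℝ) (show (1 : ℝ) < 1 + t by linarith)
    exact ⟨m, hm.le⟩
  classical
  have hx1 : (1 : ℝ) ≤ x := by exact_mod_cast hx
  have hm := Nat.find_spec hex
  set m := Nat.find hex with hmd
  have h1t : 1 ≤ t * x := by
    have := mul_le_mul_of_nonneg_left hxt ht.le
    rwa [mul_one_div_cancel ht.ne'] at this
  rcases Nat.eq_zero_or_pos m with h0 | h0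
  · rw [h0, pow_zero] at hm
    have hxe : (x : ℝ) = 1 := le_antisymm hm hx1
    refine ⟨m, ?_, ?_, ?_⟩
    · unfold sca
      rw [h0, pow_zero, Nat.ceil_one]
      exact_mod_cast hm
    · unfold sca
      rw [h0, pow_zero, Nat.ceil_one, hxe]
      push_cast
      linarith
    · rw [h0, hxe]
      simp only [Nat.cast_zero, zero_mul, Real.log_one, zero_add]
      exact Real.log_nonneg (by linarith)
  · have h1 : ¬ (x : ℝ) ≤ (1 + t) ^ (m - 1) := Nat.find_min hex (by omega)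
    push Not at h1
    have h2 : (1 + t) ^ m = (1 + t) ^ (m - 1) * (1 + t) := by
      rw [← pow_succ]
      congr 1
      omega
    have h3 : ((1 + t) ^ m : ℝ) ≤ (1 + t) * x := by
      rw [h2]
      nlinarith
    refine ⟨m, ?_, ?_, ?_⟩
    · unfold sca
      have : (x : ℝ) ≤ (⌈(1 + t) ^ m⌉₊ : ℝ) := hm.trans (Nat.le_ceil _)
      exact_mod_cast this
    · unfold sca
      have h4 := (Nat.ceil_lt_add_one (show (0 : ℝ) ≤ (1 + t) ^ m by positivity)).le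
      nlinarith
    · have h5 : ((m - 1 : ℕ) : ℝ) * Real.log (1 + t) ≤ Real.log x := by
        rw [← Real.log_pow]
        exact Real.log_le_log (by positivity) h1.le
      have h6 : ((m - 1 : ℕ) : ℝ) = (m : ℝ) - 1 := by
        rw [Nat.cast_sub h0, Nat.cast_one]
      rw [h6] at h5
      linarith

end Pool.Agent.Q138.PS
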