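import Pool.Agent.Q138.PS.UY

set_option autoImplicit false

/-!
# Counting functions from sets of numbers and of one-tuples
-/

namespace Pool.Agent.Q138.PS

open Finset

theorem cn_of_ncard (X : ℕ → Prop) (Y : ℕ) (S : Set ℕ) (hS : S.Finite) (h : ∀ t : ℕ, 1 ≤ t → t ≤ Y → X t → t ∈ S) :
    cn X Y ≤ (S.ncard : ℝ) := by
  classical
  have h1 : (Icc 1 Y).filter X ⊆ hS.toFinset := by
    intro t ht
    rw [mem_filter, mem_Icc] at ht
    rw [Set.Finite.mem_toFinset]
    exact h t ht.1.1 ht.1.2 ht.2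
  have h2 := card_le_card h1
  rw [← Set.ncard_eq_toFinset_card _ hS] at h2
  unfold cn
  refine le_trans (le_of_eq ?_) (Nat.cast_le.2 h2)
  refine congrArg _ (congrArg _ ?_)
  ext n
  simp only [mem_filter]

theorem cn_of_tuples (X : ℕ → Prop) (Y : ℕ) (S : Set (Fin 1 → ℕ)) (hS : S.Finite)
    (h : ∀ t : ℕ, 1 ≤ t → t ≤ Y → X t → (fun _ => t) ∈ S) : cn X Y ≤ (S.ncard : ℝ) := by
  classical
  have h1 : (Icc 1 Y).filter X ⊆ hS.toFinset.image fun a => a 0 := by
    intro t ht
    rw [mem_filter, mem_Icc] at ht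
    refine mem_image.2 ⟨fun _ => t, ?_, rfl⟩
    rw [Set.Finite.mem_toFinset]
    exact h t ht.1.1 ht.1.2 ht.2
  have h2 := (card_le_card h1).trans card_image_le
  rw [← Set.ncard_eq_toFinset_card _ hS] at h2
  unfold cn
  refine le_trans (le_of_eq ?_) (Nat.cast_le.2 h2)
  refine congrArg _ (congrArg _ ?_)
  ext n
  simp only [mem_filter]

/-- finitely many exceptions at the beginning -/
theorem cn_add (X Z : ℕ → Prop) (Y : ℕ) (k : ℕ) (h : ∀ t : ℕ, k ≤ t → X t → Z t) : cn X Y ≤ cn Z Y + k := by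
  classical
  have h1 : (Icc 1 Y).filter X ⊆ (Icc 1 Y).filter Z ∪ range k := by
    intro t ht
    rw [mem_filter] at ht
    rw [mem_union, mem_filter, mem_range]
    rcases lt_or_ge t k with h' | h'
    · exact Or.inr h'
    · exact Or.inl ⟨ht.1, h t h' ht.2⟩
  have h2 := (card_le_card h1).trans (card_union_le _ _)
  rw [card_range] at h2
  have e : ∀ W : ℕ → Prop, cn W Y = (((Icc 1 Y).filter W).card : ℝ) := by
    intro W
    unfold cn
    refine congrArg _ (congrArg _ ?_)
    ext n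
    simp only [mem_filter]
  rw [e, e]
  exact_mod_cast h2

end Pool.Agent.Q138.PS
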