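import Pool.Agent.Q138.PS.VA

set_option autoImplicit false

/-!
# Power savings in windows around `⌊α P(n)⌋`, in a form ready for use
-/

namespace Pool.Agent.Q138.PS

open Finset Filter Topology
open IntermediateField

open Classical in
/-- the number of the `1 ≤ n ≤ N` such that `X t` for some `t` with `|t - ⌊α P(n)⌋| ≤ W` -/
noncomputable def badW (X : ℕ → Prop) (W : ℕ) (α : ℝ) (P : Polynomial ℤ) (N : ℕ) : ℕ :=
  ((Icc 1 N).filter fun n : ℕ => ∃ t : ℕ, X t ∧ |(t : ℤ) - (⌊α * ((P.eval (n : ℤ) : ℤ) : ℝ)⌋₊ : ℤ)| ≤ W).card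

theorem badW_eq (X : ℕ → Prop) (W : ℕ) (α : ℝ) (P : Polynomial ℤ) (N : ℕ) :
    (badW X W α P N : ℝ) = cnP (nb X W) α P N := by
  classical
  unfold badW cnP cn
  refine congrArg _ (congrArg _ ?_)
  ext n
  rw [mem_filter, mem_filter]
  refine and_congr_right fun _ => exists_congr fun j => and_congr_right fun _ => ?_
  rw [abs_le]
  omega

/-- **power savings for whole windows** -/
theorem exc_bad {ι : Type} [Countable ι] (q : ℕ) (hq : 2 ≤ q) (X : ι → ℕ → Prop) :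
    ∃ E : Set ℝ, dimH E ≤ ENNReal.ofReal (q / (q + 1 / ((q : ℝ) * 2 ^ (q - 1)))) ∧ ∀ α : ℝ, 0 < α → α ∉ E →
      ∃ η : ℝ, 0 < η ∧ ∀ (i : ι) (C δ : ℝ), 0 < δ → (∀ Y : ℕ, 1 ≤ Y → cn (X i) Y ≤ C * (Y : ℝ) ^ (1 - δ)) →
      ∃ κ : ℝ, 0 < κ ∧ ∀ᶠ N : ℕ in atTop,
      ∀ P : Polynomial ℤ, P.natDegree = q → 0 < P.leadingCoeff → (∀ j, |((P.coeff j : ℤ) : ℝ)| ≤ (N : ℝ) ^ η) →
      (badW (X i) ⌊(N : ℝ) ^ κ⌋₊ α P N : ℝ) ≤ (N : ℝ) ^ (1 - κ) := by
  obtain ⟨E, hE, hg⟩ := exc_win q hq X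
  refine ⟨E, hE, fun α hα hαE => ?_⟩
  obtain ⟨η, hη, h1⟩ := hg α hα hαE
  refine ⟨η, hη, fun i C δ hδ hX => ?_⟩
  obtain ⟨κ, hκ, -, h3⟩ := h1 i C δ hδ hX
  refine ⟨κ, hκ, ?_⟩
  filter_upwards [h3] with N hN
  intro P hdeg hlead hco
  rw [badW_eq]
  exact hN _ (Nat.floor_le (by positivity)) P hdeg hlead hco

/-- number fields in `ℂ` -/
theorem primF (K : IntermediateField ℚ ℂ) (hK : FiniteDimensional ℚ K) : ∃ x : ℂ, IsAlgebraic ℚ x ∧ K = ℚ⟮x⟯ := by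
  obtain ⟨a, ha⟩ := @Field.exists_primitive_element ℚ K _ _ (IntermediateField.algebra' K) hK inferInstance
  refine ⟨a, ?_, ?_⟩
  · have h1 : IsAlgebraic ℚ a := Algebra.IsAlgebraic.isAlgebraic a
    exact h1.algebraMap
  · have h1 := congrArg IntermediateField.lift ha
    rw [IntermediateField.lift_adjoin_simple, IntermediateField.lift_top] at h1
    exact h1.symm

theorem primN (K : IntermediateField ℚ ℂ) (hK : NumberField K) : ∃ x : ℂ, IsAlgebraic ℚ x ∧ K = ℚ⟮x⟯ := by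
  have h1 : @FiniteDimensional ℚ K _ _ (DivisionRing.toRatAlgebra (R := K)).toModule := hK.to_finiteDimensional
  have h2 : (DivisionRing.toRatAlgebra (R := K)) = IntermediateField.algebra' K := Subsingleton.elim _ _
  rw [h2] at h1
  exact primF K h1

theorem numN (x : ℂ) (hx : IsAlgebraic ℚ x) : NumberField ℚ⟮x⟯ := by
  have h1 : FiniteDimensional ℚ ℚ⟮x⟯ := IntermediateField.adjoin.finiteDimensional hx.isIntegral
  refine @NumberField.mk _ _ inferInstance ?_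
  convert h1

theorem tup_finite (T : ℕ) (S : Set (Fin 1 → ℕ)) (h : ∀ m ∈ S, m 0 ≤ T) : S.Finite := by
  refine (Set.finite_Iic (fun _ : Fin 1 => T)).subset fun m hm => ?_
  intro l
  rw [Fin.eq_zero l]
  exact h m hm

end Pool.Agent.Q138.PS
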