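import Pool.Agent.Q138.PS.VB

set_option autoImplicit false

/-!
# Counting functions, more
-/

namespace Pool.Agent.Q138.PS

open Finset

theorem cn_eq' (X : ℕ → Prop) [DecidablePred X] (Y : ℕ) : cn X Y = (((Icc 1 Y).filter X).card : ℝ) := by
  unfold cn
  refine congrArg _ (congrArg _ ?_)
  ext n
  simp only [mem_filter]

theorem cn_mono' (A B : ℕ → Prop) (Y : ℕ) (h : ∀ t : ℕ, 1 ≤ t → t ≤ Y → A t → B t) : cn A Y ≤ cn B Y := by
  classical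
  rw [cn_eq', cn_eq']
  refine Nat.cast_le.2 (card_le_card fun t ht => ?_)
  rw [mem_filter, mem_Icc] at ht ⊢
  exact ⟨ht.1, h t ht.1.1 ht.1.2 ht.2⟩

theorem cn_or (A B : ℕ → Prop) (Y : ℕ) : cn (fun t => A t ∨ B t) Y ≤ cn A Y + cn B Y := by
  classical
  rw [cn_eq', cn_eq', cn_eq']
  have h1 : (Icc 1 Y).filter (fun t => A t ∨ B t) ⊆ (Icc 1 Y).filter A ∪ (Icc 1 Y).filter B := by
    intro t ht
    rw [mem_filter] at ht
    rw [mem_union, mem_filter, mem_filter]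
    exact ht.2.imp (fun h => ⟨ht.1, h⟩) (fun h => ⟨ht.1, h⟩)
  have h2 := (card_le_card h1).trans (card_union_le _ _)
  exact_mod_cast h2

theorem win_bound {C c : ℝ} (hC : 0 ≤ C) (Y : ℕ) (hY : 1 ≤ Y) :
    C * (1 + (Y : ℝ) / (((0 : ℕ) : ℝ) + Y) ^ c) ≤ 2 * C * (Y : ℝ) ^ (1 - min c 1) := by
  have hY1 : (1 : ℝ) ≤ Y := by exact_mod_cast hY
  have hY0 : (0 : ℝ) < Y := by linarith
  have h1 : (1 : ℝ) ≤ (Y : ℝ) ^ (1 - min c 1) := by
    have h2 : (Y : ℝ) ^ (0 : ℝ) ≤ (Y : ℝ) ^ (1 - min c 1) :=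
      Real.rpow_le_rpow_of_exponent_le hY1 (by have := min_le_right c 1; linarith)
    rwa [Real.rpow_zero] at h2
  have h2 : (Y : ℝ) / (((0 : ℕ) : ℝ) + Y) ^ c ≤ (Y : ℝ) ^ (1 - min c 1) := by
    rw [Nat.cast_zero, zero_add]
    have h3 : (Y : ℝ) / (Y : ℝ) ^ c = (Y : ℝ) ^ (1 - c) := by
      rw [Real.rpow_sub hY0, Real.rpow_one]
    rw [h3]
    exact Real.rpow_le_rpow_of_exponent_le hY1 (by have := min_le_left c 1; linarith)
  nlinarith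

theorem cn_of_ints (X : ℕ → Prop) (Y : ℕ) (e : ℤ) (he : e ≠ 0) (B : ℝ)
    (h : ∀ S : Finset (Fin 1 → ℤ), (∀ t ∈ S, ∃ u : ℕ, 1 ≤ u ∧ u ≤ Y ∧ X u ∧ t = fun _ => e * u) → (S.card : ℝ) ≤ B) :
    cn X Y ≤ B := by
  classical
  have h1 := h (((Icc 1 Y).filter X).image fun (u : ℕ) (_ : Fin 1) => e * (u : ℤ)) (fun t ht => by
    obtain ⟨u, hu, rfl⟩ := mem_image.1 ht
    rw [mem_filter, mem_Icc] at hu
    exact ⟨u, hu.1.1, hu.1.2, hu.2, rfl⟩)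
  rw [card_image_of_injective] at h1
  · rw [cn_eq']
    exact h1
  · intro a b hab
    have h2 := congrFun hab 0
    have h3 : (a : ℤ) = b := mul_left_cancel₀ he h2
    exact_mod_cast h3

end Pool.Agent.Q138.PS
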