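import Pool.Agent.Q138.PS.VC

set_option autoImplicit false

/-!
# Rational integers as algebraic integers of degree `1`
-/

namespace Pool.Agent.Q138.PS

open Finset Polynomial

/-- the algebraic integers of degree at most `1` all of whose conjugates have absolute value at most `T` -/
def Z1 (T : ℕ) : Set ℂ :=
  {ξ | IsIntegral ℤ ξ ∧ (minpoly ℚ ξ).natDegree ≤ 1 ∧ ∀ z : ℂ, Polynomial.aeval z (minpoly ℚ ξ) = 0 → ‖z‖ ≤ T}

theorem int_mem_Z1 (a : ℤ) (T : ℕ) (h : |a| ≤ T) : (a : ℂ) ∈ Z1 T := by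
  have e1 : minpoly ℚ (a : ℂ) = X - C (a : ℚ) := by
    have h1 := minpoly.eq_X_sub_C ℂ (a : ℚ)
    have h2 : algebraMap ℚ ℂ (a : ℚ) = (a : ℂ) := by simp
    rwa [h2] at h1
  refine ⟨isIntegral_algebraMap (R := ℤ) (x := a), ?_, ?_⟩
  · rw [e1, natDegree_X_sub_C]
  · intro z hz
    rw [e1] at hz
    simp only [map_sub, aeval_X, map_intCast] at hz
    rw [sub_eq_zero] at hz
    rw [hz, Complex.norm_intCast]
    exact_mod_cast h

theorem Z1_int {ξ : ℂ} {T : ℕ} (h : ξ ∈ Z1 T) : ∃ a : ℤ, |a| ≤ T ∧ ξ = a := by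
  obtain ⟨h1, h2, h3⟩ := h
  have hQ : IsIntegral ℚ ξ := h1.tower_top
  have h4 : (minpoly ℚ ξ).natDegree = 1 := le_antisymm h2 (minpoly.natDegree_pos hQ)
  obtain ⟨r, hr⟩ : ξ ∈ (algebraMap ℚ ℂ).range := minpoly.natDegree_eq_one_iff.1 h4
  have h5 : IsIntegral ℤ r := by
    rw [← hr] at h1
    exact (isIntegral_algebraMap_iff (algebraMap ℚ ℂ).injective).1 h1
  obtain ⟨a, ha⟩ := IsIntegrallyClosed.isIntegral_iff.1 h5
  have h6 : ξ = (a : ℂ) := by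
    rw [← hr, ← ha]
    simp
  refine ⟨a, ?_, h6⟩
  have h7 := h3 ξ (minpoly.aeval ℚ ξ)
  rw [h6, Complex.norm_intCast] at h7
  exact_mod_cast h7

theorem Z1_card (T : ℕ) : (Z1 T).ncard ≤ 2 * T + 1 := by
  have h1 : Z1 T ⊆ ((Finset.Icc (-(T : ℤ)) T).image fun a : ℤ => (a : ℂ) : Finset ℂ) := by
    intro ξ hξ
    obtain ⟨a, ha, rfl⟩ := Z1_int hξ
    rw [coe_image]
    exact ⟨a, by rw [coe_Icc]; exact abs_le.1 ha, rfl⟩
  have h2 := Set.ncard_le_ncard h1 (Finset.finite_toSet _)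
  rw [Set.ncard_coe_finset] at h2
  refine h2.trans (card_image_le.trans ?_)
  rw [Int.card_Icc]
  omega

/-- counting with one-tuples of complex numbers -/
theorem cn_of_cplx (X : ℕ → Prop) (Y : ℕ) (e : ℤ) (he : e ≠ 0) (S : Set (Fin 1 → ℂ)) (hS : S.Finite)
    (h : ∀ t : ℕ, 1 ≤ t → t ≤ Y → X t → (fun _ => ((e * (t : ℤ) : ℤ) : ℂ)) ∈ S) : cn X Y ≤ (S.ncard : ℝ) := by
  classical
  have h1 : ((Icc 1 Y).filter X).image (fun (t : ℕ) (_ : Fin 1) => ((e * (t : ℤ) : ℤ) : ℂ)) ⊆ hS.toFinset := by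
    intro x hx
    obtain ⟨t, ht, rfl⟩ := mem_image.1 hx
    rw [mem_filter, mem_Icc] at ht
    rw [Set.Finite.mem_toFinset]
    exact h t ht.1.1 ht.1.2 ht.2
  have h2 := card_le_card h1
  rw [← Set.ncard_eq_toFinset_card _ hS, card_image_of_injective] at h2
  · rw [cn_eq']
    exact_mod_cast h2
  · intro a b hab
    have h3 : ((e * (a : ℤ) : ℤ) : ℂ) = ((e * (b : ℤ) : ℤ) : ℂ) := congrFun hab 0
    have h4 : e * (a : ℤ) = e * (b : ℤ) := by exact_mod_cast h3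
    have h5 : (a : ℤ) = b := mul_left_cancel₀ he h4
    exact_mod_cast h5

theorem rpow_bound {C c : ℝ} (hC : 0 ≤ C) (Y : ℕ) (hY : 1 ≤ Y) (Z : ℕ) (hZ : Z ≤ 2 * Y + 1) :
    C * (Y : ℝ) ^ (-c) * (Z : ℝ) ^ 1 ≤ 3 * C * (Y : ℝ) ^ (1 - c) := by
  have hY1 : (1 : ℝ) ≤ Y := by exact_mod_cast hY
  have hY0 : (0 : ℝ) < Y := by linarith
  have h1 : (Z : ℝ) ≤ 3 * Y := by
    have h2 : Z ≤ 3 * Y := by omega
    exact_mod_cast h2
  have h3 : (Y : ℝ) ^ (1 - c) = (Y : ℝ) ^ (-c) * Y := by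
    nth_rewrite 3 [← Real.rpow_one (Y : ℝ)]
    rw [← Real.rpow_add hY0]
    congr 1
    ring
  have h4 : (0 : ℝ) ≤ C * (Y : ℝ) ^ (-c) := by positivity
  rw [pow_one, h3]
  nlinarith

end Pool.Agent.Q138.PS
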