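import Pool.Agent.Q138.PS.VD

set_option autoImplicit false

/-!
# Countability of the set of number fields in `ℂ`
-/

namespace Pool.Agent.Q138.PS

open IntermediateField

theorem countN : Countable {K : IntermediateField ℚ ℂ // NumberField K} := by
  have hA : Countable {x : ℂ // IsAlgebraic ℚ x} := (Algebraic.countable ℚ ℂ).to_subtype
  have hinj : Function.Injective (fun K : {K : IntermediateField ℚ ℂ // NumberField K} =>
      (⟨(primN K.1 K.2).choose, (primN K.1 K.2).choose_spec.1⟩ : {x : ℂ // IsAlgebraic ℚ x})) := by
    intro K L h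
    have h1 := congrArg Subtype.val h
    refine Subtype.ext ?_
    rw [(primN K.1 K.2).choose_spec.2, (primN L.1 L.2).choose_spec.2]
    exact congrArg (fun x => ℚ⟮x⟯) h1
  exact hinj.countable

theorem countF : Countable {K : IntermediateField ℚ ℂ // FiniteDimensional ℚ K} := by
  have hA : Countable {x : ℂ // IsAlgebraic ℚ x} := (Algebraic.countable ℚ ℂ).to_subtype
  have hinj : Function.Injective (fun K : {K : IntermediateField ℚ ℂ // FiniteDimensional ℚ K} =>
      (⟨(primF K.1 K.2).choose, (primF K.1 K.2).choose_spec.1⟩ : {x : ℂ // IsAlgebraic ℚ x})) := by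
    intro K L h
    have h1 := congrArg Subtype.val h
    refine Subtype.ext ?_
    rw [(primF K.1 K.2).choose_spec.2, (primF L.1 L.2).choose_spec.2]
    exact congrArg (fun x => ℚ⟮x⟯) h1
  exact hinj.countable

theorem countS : Countable {K : Subfield ℂ // FiniteDimensional ℚ K} := by
  have h := countF
  let g : Subfield ℂ → IntermediateField ℚ ℂ := fun K =>
    Subfield.toIntermediateField K fun r => (eq_ratCast (algebraMap ℚ ℂ) r).symm ▸ SubfieldClass.ratCast_mem K r
  have hg : ∀ K : Subfield ℂ, FiniteDimensional ℚ K → FiniteDimensional ℚ (g K) := by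
    intro K hK
    have h3 : ∀ A B : Algebra ℚ K, @FiniteDimensional ℚ K _ _ B.toModule → @FiniteDimensional ℚ K _ _ A.toModule := by
      intro A B hB
      rw [Subsingleton.elim A B]
      exact hB
    exact h3 (IntermediateField.algebra' (g K)) _ hK
  let f : {K : Subfield ℂ // FiniteDimensional ℚ K} → {K : IntermediateField ℚ ℂ // FiniteDimensional ℚ K} := fun K =>
    ⟨g K.1, hg K.1 K.2⟩
  have hinj : Function.Injective f := by
    intro K L hKL
    have h1 := congrArg (fun K : {K : IntermediateField ℚ ℂ // FiniteDimensional ℚ K} => K.1.toSubfield) hKL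
    exact Subtype.ext h1
  exact hinj.countable

end Pool.Agent.Q138.PS
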