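import Pool.Agent.Q138.PS.VE

set_option autoImplicit false

/-!
# Countability of the set of number fields in any field, and a count with tuples
-/

namespace Pool.Agent.Q138.PS

open IntermediateField Finset

theorem primG {A : Type} [Field A] [Algebra ℚ A] (K : IntermediateField ℚ A) (hK : FiniteDimensional ℚ K) :
    ∃ x : A, IsAlgebraic ℚ x ∧ K = ℚ⟮x⟯ := by
  obtain ⟨a, ha⟩ := @Field.exists_primitive_element ℚ K _ _ (IntermediateField.algebra' K) hK inferInstance
  refine ⟨a, ?_, ?_⟩
  · have h0 : @Algebra.IsIntegral ℚ K _ _ (IntermediateField.algebra' K) :=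
      @Algebra.IsIntegral.of_finite ℚ K _ _ (IntermediateField.algebra' K) hK
    have h1 : @IsIntegral ℚ K _ _ (IntermediateField.algebra' K) a := h0.isIntegral a
    exact (IntermediateField.isIntegral_iff.1 h1).isAlgebraic
  · have h1 := congrArg IntermediateField.lift ha
    rw [IntermediateField.lift_adjoin_simple, IntermediateField.lift_top] at h1
    exact h1.symm

theorem countG (A : Type) [Field A] [Algebra ℚ A] : Countable {K : IntermediateField ℚ A // FiniteDimensional ℚ K} := by
  have hA : Countable {x : A // IsAlgebraic ℚ x} := (Algebraic.countable ℚ A).to_subtype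
  have hinj : Function.Injective (fun K : {K : IntermediateField ℚ A // FiniteDimensional ℚ K} =>
      (⟨(primG K.1 K.2).choose, (primG K.1 K.2).choose_spec.1⟩ : {x : A // IsAlgebraic ℚ x})) := by
    intro K L h
    have h1 := congrArg Subtype.val h
    refine Subtype.ext ?_
    rw [(primG K.1 K.2).choose_spec.2, (primG L.1 L.2).choose_spec.2]
    exact congrArg (fun x => ℚ⟮x⟯) h1
  exact hinj.countable

/-- counting with a finite set of one-tuples -/
theorem cn_of_fin (X : ℕ → Prop) (Y : ℕ) (B : Finset (Fin 1 → ℕ))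
    (h : ∀ t : ℕ, 1 ≤ t → t ≤ Y → X t → (fun _ => t) ∈ B) : cn X Y ≤ (B.card : ℝ) := by
  have h1 := cn_of_tuples X Y (B : Set (Fin 1 → ℕ)) (Finset.finite_toSet _) (fun t h1 h2 h3 => Finset.mem_coe.2 (h t h1 h2 h3))
  rwa [Set.ncard_coe_finset] at h1

end Pool.Agent.Q138.PS
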