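import Pool.Agent.Q138.PS.VF
import Pool.Agent.Q138.PS.UZ

set_option autoImplicit false

/-!
# Whole windows around `⌊α P(n)⌋`, all tuples at once
-/

namespace Pool.Agent.Q138.PS

open Finset Filter Topology

/-- the integers at distance at most `W` from `m` -/
def win (m W : ℕ) : Set ℕ := {t | t ≤ m + W ∧ m ≤ t + W}

open Classical in
/-- the number of the `1 ≤ n ≤ N` such that `G` fails for the set of the integers `t` with `|t - ⌊α P(n)⌋| ≤ W` -/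
noncomputable def badG (G : Set ℕ → Prop) (W : ℕ) (α : ℝ) (P : Polynomial ℤ) (N : ℕ) : ℕ :=
  ((Icc 1 N).filter fun n : ℕ =>
    ¬ G {t : ℕ | |(t : ℤ) - (⌊α * ((P.eval (n : ℤ) : ℤ) : ℝ)⌋₊ : ℤ)| ≤ W}).card

theorem badG_eq (G : Set ℕ → Prop) (W : ℕ) (α : ℝ) (P : Polynomial ℤ) (N : ℕ) :
    (badG G W α P N : ℝ) = cnP (fun m => ¬ G (win m W)) α P N := by
  classical
  unfold badG cnP cn
  refine congrArg _ (congrArg _ ?_)
  ext n
  simp only [mem_filter]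
  refine and_congr_right fun _ => not_congr ?_
  have h : {t : ℕ | |(t : ℤ) - (⌊α * ((P.eval (n : ℤ) : ℤ) : ℝ)⌋₊ : ℤ)| ≤ W} =
      win ⌊α * ((P.eval (n : ℤ) : ℤ) : ℝ)⌋₊ W := by
    ext t
    unfold win
    rw [Set.mem_ofPred_eq, Set.mem_ofPred_eq, abs_le]
    omega
  rw [h]

/-- counting the centres of the windows for which a monotone property fails, if every window `[x, x + H]`, `H ≤ x ^ c`,
has the property after removing `B` points -/
theorem win_count (G : Set ℕ → Prop) (hmono : ∀ S S' : Set ℕ, S ⊆ S' → G S' → G S) (B : ℕ) (c : ℝ) (hc : 0 < c)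
    (hc1 : c ≤ 1) (x₀ : ℕ) (h : ∀ x H : ℕ, x₀ ≤ x → (H : ℝ) ≤ (x : ℝ) ^ c →
      ∃ T : Finset ℕ, T.card ≤ B ∧ G (Set.Icc x (x + H) \ T)) (W Y : ℕ) (hY : 1 ≤ Y) (hYx : (x₀ : ℝ) ≤ (Y : ℝ) ^ ((1 : ℝ) / 2))
    (hW : 16 * ((W : ℝ) + 1) ≤ (Y : ℝ) ^ (c / 2)) :
    cn (fun m => ¬ G (win m W)) Y ≤ 100 * (B + 1) * ((W : ℝ) + 1) * (Y : ℝ) ^ (1 - c / 2) := by
  classical
  have hYr : (1 : ℝ) ≤ Y := by exact_mod_cast hY
  have hY0 : (0 : ℝ) < Y := by linarith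
  set y : ℝ := (Y : ℝ) ^ (c / 2) with hy
  have hy16 : 16 ≤ y := by
    have : (0 : ℝ) ≤ W := Nat.cast_nonneg W
    linarith
  set K : ℕ := ⌊y / 2⌋₊ with hK
  have hK1 : (K : ℝ) ≤ y / 2 := Nat.floor_le (by positivity)
  have hK2 : y / 2 < K + 1 := Nat.lt_floor_add_one _
  have hK3 : y / 4 ≤ K := by linarith
  have hK0 : 0 < K := by
    have : (0 : ℝ) < K := by linarith
    exact_mod_cast this
  set s : ℕ := ⌈(Y : ℝ) ^ ((1 : ℝ) / 2)⌉₊ with hs
  have hs1 : (Y : ℝ) ^ ((1 : ℝ) / 2) ≤ s := Nat.le_ceil _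
  have hs2 : (s : ℝ) < (Y : ℝ) ^ ((1 : ℝ) / 2) + 1 := Nat.ceil_lt_add_one (by positivity)
  -- the windows
  have hwin : ∀ j : ℕ, ∃ T : Finset ℕ, T.card ≤ B ∧ G (Set.Icc (s + j * K) (s + j * K + 2 * K) \ T) := by
    intro j
    refine h _ _ ?_ ?_
    · have : (x₀ : ℝ) ≤ s := hYx.trans hs1
      have h1 : x₀ ≤ s := by exact_mod_cast this
      exact h1.trans (Nat.le_add_right _ _)
    · push_cast
      have h1 : ((Y : ℝ) ^ ((1 : ℝ) / 2)) ^ c = y := by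
        rw [hy, ← Real.rpow_mul hY0.le]
        congr 1
        ring
      have h2 : ((Y : ℝ) ^ ((1 : ℝ) / 2)) ^ c ≤ ((s : ℝ) + j * K) ^ c := by
        refine Real.rpow_le_rpow (by positivity) ?_ hc.le
        have : (0 : ℝ) ≤ (j : ℝ) * K := by positivity
        linarith
      linarith
  choose T hT hG using hwin
  -- the bad centres
  have hWK : 2 * W ≤ K := by
    have h1 : (2 : ℝ) * W ≤ K := by linarith
    exact_mod_cast h1
  have hcov : (Icc 1 Y).filter (fun m => ¬ G (win m W)) ⊆ Icc 1 (s + W) ∪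
      (range (Y / K + 1)).biUnion fun j => (T j).biUnion fun t => Icc (t - W) (t + W) := by
    intro m hm
    rw [mem_filter, mem_Icc] at hm
    obtain ⟨⟨hm1, hm2⟩, hm3⟩ := hm
    rw [mem_union]
    by_cases hms : m ≤ s + W
    · exact Or.inl (mem_Icc.2 ⟨hm1, hms⟩)
    · right
      push Not at hms
      set j := (m - W - s) / K with hj
      have hj1 : j * K ≤ m - W - s := Nat.div_mul_le_self _ _
      have hj2 : m - W - s < j * K + K := by
        have := Nat.lt_div_mul_add (a := m - W - s) hK0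
        exact this
      have hjY : j < Y / K + 1 := by
        have : j ≤ Y / K := Nat.div_le_div_right (by omega)
        omega
      rw [mem_biUnion]
      refine ⟨j, mem_range.2 hjY, ?_⟩
      by_contra hno
      apply hm3
      refine hmono _ _ ?_ (hG j)
      intro t ht
      obtain ⟨ht1, ht2⟩ := ht
      refine ⟨⟨by omega, by omega⟩, fun htT => hno ?_⟩
      rw [mem_biUnion]
      exact ⟨t, htT, mem_Icc.2 ⟨by omega, by omega⟩⟩
  have h1 : ((Icc 1 Y).filter (fun m => ¬ G (win m W))).card ≤ (s + W) + (Y / K + 1) * (B * (2 * W + 1)) := by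
    refine (card_le_card hcov).trans ((card_union_le _ _).trans (Nat.add_le_add ?_ ?_))
    · rw [Nat.card_Icc]
      omega
    · refine (card_biUnion_le_card_mul _ _ (B * (2 * W + 1)) fun j _ => ?_).trans (by rw [card_range])
      refine (card_biUnion_le_card_mul _ _ (2 * W + 1) fun t _ => ?_).trans (Nat.mul_le_mul_right _ (hT j))
      rw [Nat.card_Icc]
      omega
  rw [cn_eq']
  have h2 : (((Icc 1 Y).filter (fun m => ¬ G (win m W))).card : ℝ) ≤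
      (s + W) + ((Y / K : ℕ) + 1) * (B * (2 * W + 1)) := by exact_mod_cast h1
  refine h2.trans ?_
  have hYK : ((Y / K : ℕ) : ℝ) ≤ 4 * (Y : ℝ) ^ (1 - c / 2) := by
    have h3 : ((Y / K : ℕ) : ℝ) ≤ (Y : ℝ) / K := Nat.cast_div_le
    have h4 : (Y : ℝ) / K ≤ Y / (y / 4) := by gcongr
    have h5 : (Y : ℝ) / (y / 4) = 4 * (Y : ℝ) ^ (1 - c / 2) := by
      rw [Real.rpow_sub hY0, Real.rpow_one, ← hy]
      field_simp
    linarith
  have hp1 : (1 : ℝ) ≤ (Y : ℝ) ^ (1 - c / 2) := by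
    have h3 : (Y : ℝ) ^ (0 : ℝ) ≤ (Y : ℝ) ^ (1 - c / 2) := Real.rpow_le_rpow_of_exponent_le hYr (by linarith)
    rwa [Real.rpow_zero] at h3
  have hp2 : (Y : ℝ) ^ ((1 : ℝ) / 2) ≤ (Y : ℝ) ^ (1 - c / 2) := Real.rpow_le_rpow_of_exponent_le hYr (by linarith)
  set p : ℝ := (Y : ℝ) ^ (1 - c / 2) with hp
  have hW0 : (0 : ℝ) ≤ W := Nat.cast_nonneg W
  have hB0 : (0 : ℝ) ≤ B := Nat.cast_nonneg B
  have e1 : (s : ℝ) + W ≤ (2 + W) * p := by nlinarith
  have e2 : (((Y / K : ℕ) : ℝ) + 1) * (B * (2 * W + 1)) ≤ (5 * p) * (B * (2 * W + 1)) := by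
    have : ((Y / K : ℕ) : ℝ) + 1 ≤ 5 * p := by linarith
    gcongr
  have e3 : (5 * p) * (B * (2 * W + 1)) ≤ (5 * p) * (B * (2 * (W + 1))) := by
    gcongr
    linarith
  have e4 : (2 + (W : ℝ)) * p ≤ 2 * (W + 1) * p := by
    gcongr
    linarith
  have e5 : 100 * ((B : ℝ) + 1) * ((W : ℝ) + 1) * p = 100 * (B * ((W + 1) * p)) + 100 * ((W + 1) * p) := by ring
  have e6 : (5 * p) * (B * (2 * ((W : ℝ) + 1))) = 10 * (B * ((W + 1) * p)) := by ring
  have e7 : 2 * ((W : ℝ) + 1) * p = 2 * ((W + 1) * p) := by ring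
  have e8 : 0 ≤ B * (((W : ℝ) + 1) * p) := by positivity
  have e9 : 0 ≤ ((W : ℝ) + 1) * p := by positivity
  linarith

/-- **whole windows, all tuples at once** -/
theorem win_tuples {ι : Type} [Countable ι] (q : ℕ) (hq : 2 ≤ q) (G : ι → Set ℕ → Prop)
    (hmono : ∀ i (S S' : Set ℕ), S ⊆ S' → G i S' → G i S) :
    ∃ E : Set ℝ, dimH E ≤ ENNReal.ofReal (q / (q + 1 / ((q : ℝ) * 2 ^ (q - 1)))) ∧ ∀ α : ℝ, 0 < α → α ∉ E →
      ∃ η : ℝ, 0 < η ∧ ∀ (i : ι) (B : ℕ) (c : ℝ), 0 < c → (∃ x₀ : ℕ, ∀ x H : ℕ, x₀ ≤ x → (H : ℝ) ≤ (x : ℝ) ^ c →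
        ∃ T : Finset ℕ, T.card ≤ B ∧ G i (Set.Icc x (x + H) \ T)) →
      ∃ κ : ℝ, 0 < κ ∧ ∀ᶠ N : ℕ in atTop,
      ∀ P : Polynomial ℤ, P.natDegree = q → 0 < P.leadingCoeff → (∀ j, |((P.coeff j : ℤ) : ℝ)| ≤ (N : ℝ) ^ η) →
      (badG (G i) ⌊(N : ℝ) ^ κ⌋₊ α P N : ℝ) ≤ (N : ℝ) ^ (1 - κ) := by
  classical
  obtain ⟨f, hf⟩ := exists_injective_nat ι
  obtain ⟨E, hE, hg⟩ := exc_fam2 q hq (ι := ℕ × ℕ) (fun iW m => ∃ i, f i = iW.1 ∧ ¬ G i (win m iW.2)) 3 (by norm_num)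
    Sc sc_mono sc_card
  refine ⟨E, hE, fun α hα hαE => ?_⟩
  obtain ⟨η, hη, hη4, h1⟩ := hg α hα hαE
  refine ⟨η, hη, fun i B c₀ hc₀ ⟨x₀, hx₀⟩ => ?_⟩
  -- we may suppose `c ≤ 1`
  set c : ℝ := min c₀ 1 with hcd
  have hc : 0 < c := lt_min hc₀ one_pos
  have hc1 : c ≤ 1 := min_le_right _ _
  have hwin : ∀ x H : ℕ, max x₀ 1 ≤ x → (H : ℝ) ≤ (x : ℝ) ^ c →
      ∃ T : Finset ℕ, T.card ≤ B ∧ G i (Set.Icc x (x + H) \ T) := by
    intro x H hx hH
    refine hx₀ x H ((le_max_left _ _).trans hx) (hH.trans ?_)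
    have h2 : (1 : ℝ) ≤ x := by exact_mod_cast (le_max_right x₀ 1).trans hx
    exact Real.rpow_le_rpow_of_exponent_le h2 (min_le_left _ _)
  obtain ⟨κ, hκ, hκη, h2⟩ := h1 (200 * (B + 1)) (c / 2) (by positivity)
  set κ' : ℝ := min (κ / 2) (c / 16) with hκ'
  have hκ'0 : 0 < κ' := lt_min (by positivity) (by positivity)
  have hκ'1 : κ' ≤ κ / 2 := min_le_left _ _
  have hκ'2 : κ' ≤ c / 16 := min_le_right _ _
  refine ⟨κ', hκ'0, ?_⟩
  have hr : ∀ s : ℝ, 0 < s → Tendsto (fun N : ℕ => (N : ℝ) ^ s) atTop atTop := fun s hs =>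
    (tendsto_rpow_atTop hs).comp tendsto_natCast_atTop_atTop
  filter_upwards [h2, (hr η hη).eventually_ge_atTop (f i : ℝ), eventually_ge_atTop 1,
    (hr (1 / 4) (by norm_num)).eventually_ge_atTop ((max x₀ 1 : ℕ) : ℝ), (hr (c / 8) (by positivity)).eventually_ge_atTop 32]
    with N hN hfi hN1 hNx hN32
  intro P hdeg hlead hco
  have hNr : (1 : ℝ) ≤ N := by exact_mod_cast hN1
  have hN0 : (0 : ℝ) < N := by linarith
  have hmon : ∀ {a b : ℝ}, a ≤ b → (N : ℝ) ^ a ≤ (N : ℝ) ^ b := fun h => Real.rpow_le_rpow_of_exponent_le hNr h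
  set W : ℕ := ⌊(N : ℝ) ^ κ'⌋₊ with hW
  have hW1 : (W : ℝ) ≤ (N : ℝ) ^ κ' := Nat.floor_le (by positivity)
  have hWη : (W : ℝ) ≤ (N : ℝ) ^ η := hW1.trans (hmon (by linarith))
  have hmem : ((f i, W) : ℕ × ℕ) ∈ Sc η N := by
    unfold Sc
    rw [mem_product, mem_range, mem_range]
    constructor
    · have := Nat.le_floor hfi
      show f i < _
      omega
    · have := Nat.le_floor hWη
      show W < _
      omega
  have hX : (fun m => ∃ i', f i' = f i ∧ ¬ G i' (win m W)) = fun m => ¬ G i (win m W) := by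
    funext m
    refine propext ⟨?_, fun h => ⟨i, rfl, h⟩⟩
    rintro ⟨i', h, h'⟩
    rwa [hf h] at h'
  have h3 := hN (f i, W) hmem (by
    intro Y hY1 hY2
    show cn (fun m => ∃ i', f i' = f i ∧ ¬ G i' (win m W)) Y ≤ _
    rw [hX]
    have hYr : (1 : ℝ) ≤ Y := by
      have h4 : (1 : ℝ) ≤ (N : ℝ) ^ ((1 : ℝ) / 2) := by
        have h5 := hmon (a := 0) (b := (1 : ℝ) / 2) (by norm_num)
        rwa [Real.rpow_zero] at h5
      linarith
    have hYn : 1 ≤ Y := by exact_mod_cast hYr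
    have h4 := win_count (G i) (hmono i) B c hc hc1 (max x₀ 1) hwin W Y hYn (by
      refine hNx.trans ?_
      have h5 : ((N : ℝ) ^ ((1 : ℝ) / 2)) ^ ((1 : ℝ) / 2) = (N : ℝ) ^ ((1 : ℝ) / 4) := by
        rw [← Real.rpow_mul hN0.le]
        norm_num
      rw [← h5]
      exact Real.rpow_le_rpow (by positivity) hY1.le (by norm_num)) (by
      have h5 : ((N : ℝ) ^ ((1 : ℝ) / 2)) ^ (c / 2) = (N : ℝ) ^ (c / 4) := by
        rw [← Real.rpow_mul hN0.le]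
        congr 1
        ring
      have h6 : (N : ℝ) ^ (c / 4) ≤ (Y : ℝ) ^ (c / 2) := by
        rw [← h5]
        exact Real.rpow_le_rpow (by positivity) hY1.le (by positivity)
      refine le_trans ?_ h6
      have h7 : (N : ℝ) ^ (c / 4) = (N : ℝ) ^ (c / 8) * (N : ℝ) ^ (c / 8) := by
        rw [← Real.rpow_add hN0]
        congr 1
        ring
      have h8 : (W : ℝ) ≤ (N : ℝ) ^ (c / 8) := hW1.trans (hmon (by linarith))
      have h9 : (1 : ℝ) ≤ (N : ℝ) ^ (c / 8) := by linarith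
      rw [h7]
      nlinarith)
    refine h4.trans ?_
    have h5 : (0 : ℝ) ≤ (Y : ℝ) ^ (1 - c / 2) := by positivity
    have h6 : (W : ℝ) + 1 ≤ 2 * (N : ℝ) ^ κ := by
      have h7 : (W : ℝ) ≤ (N : ℝ) ^ κ := hW1.trans (hmon (by linarith))
      have h8 : (1 : ℝ) ≤ (N : ℝ) ^ κ := by
        have h5 := hmon (a := 0) (b := κ) hκ.le
        rwa [Real.rpow_zero] at h5
      linarith
    have hB0 : (0 : ℝ) ≤ B := Nat.cast_nonneg B
    calc 100 * ((B : ℝ) + 1) * ((W : ℝ) + 1) * (Y : ℝ) ^ (1 - c / 2)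
        ≤ 100 * ((B : ℝ) + 1) * (2 * (N : ℝ) ^ κ) * (Y : ℝ) ^ (1 - c / 2) := by gcongr
      _ = 200 * (B + 1) * (N : ℝ) ^ κ * (Y : ℝ) ^ (1 - c / 2) := by ring) P hdeg hlead hco
  rw [badG_eq, ← hX]
  exact h3.trans (hmon (by linarith))

end Pool.Agent.Q138.PS
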