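import Pool.Agent.Q138.PS.VG

set_option autoImplicit false

/-!
# Windows `[ξ + 1, ξ + H]`, `(H + 2) ^ E ≤ ξ`
-/

namespace Pool.Agent.Q138.PS

open Finset Filter Topology

/-- from windows `[ξ + 1, ξ + H]` with `(H + 2) ^ E ≤ ξ` to windows `[x, x + H]` with `H ≤ x ^ c` -/
theorem win_of_pow (G : Set ℕ → Prop) (hmono : ∀ S S' : Set ℕ, S ⊆ S' → G S' → G S) (B E : ℕ)
    (h : ∀ H ξ : ℕ, (H + 2) ^ E ≤ ξ → ∃ S : Finset ℕ, S.card ≤ B ∧ G {t | ∃ g : ℕ, 1 ≤ g ∧ g ≤ H ∧ g ∉ S ∧ t = ξ + g}) :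
    ∃ c : ℝ, 0 < c ∧ ∃ x₀ : ℕ, ∀ x H : ℕ, x₀ ≤ x → (H : ℝ) ≤ (x : ℝ) ^ c →
      ∃ T : Finset ℕ, T.card ≤ B ∧ G (Set.Icc x (x + H) \ T) := by
  classical
  set c : ℝ := 1 / (2 * ((E : ℝ) + 1)) with hc
  have hc0 : 0 < c := by positivity
  have hr : Tendsto (fun x : ℕ => (x : ℝ) ^ ((1 : ℝ) / 2)) atTop atTop :=
    (tendsto_rpow_atTop (by norm_num)).comp tendsto_natCast_atTop_atTop
  obtain ⟨x₁, hx₁⟩ := eventually_atTop.1 (hr.eventually_ge_atTop (2 * 4 ^ E))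
  refine ⟨c, hc0, max x₁ 2, fun x H hx hH => ?_⟩
  have hx2 : 2 ≤ x := (le_max_right _ _).trans hx
  have h1 := hx₁ x ((le_max_left _ _).trans hx)
  have hxr : (2 : ℝ) ≤ x := by exact_mod_cast hx2
  have hx0 : (0 : ℝ) < x := by linarith
  have hpow : (H + 1 + 2) ^ E ≤ x - 1 := by
    have h2 : ((H + 1 + 2 : ℕ) : ℝ) ≤ 4 * (x : ℝ) ^ c := by
      have h3 : (1 : ℝ) ≤ (x : ℝ) ^ c := by
        have h4 : (x : ℝ) ^ (0 : ℝ) ≤ (x : ℝ) ^ c := Real.rpow_le_rpow_of_exponent_le (by linarith) hc0.le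
        rwa [Real.rpow_zero] at h4
      push_cast
      linarith
    have h3 : ((H + 1 + 2 : ℕ) : ℝ) ^ E ≤ (4 * (x : ℝ) ^ c) ^ E := by gcongr
    have h4 : (4 * (x : ℝ) ^ c) ^ E = 4 ^ E * (x : ℝ) ^ (c * E) := by
      rw [mul_pow, ← Real.rpow_natCast ((x : ℝ) ^ c), ← Real.rpow_mul hx0.le]
    have h5 : (x : ℝ) ^ (c * E) ≤ (x : ℝ) ^ ((1 : ℝ) / 2) := by
      refine Real.rpow_le_rpow_of_exponent_le (by linarith) ?_
      rw [hc, div_mul_eq_mul_div, div_le_div_iff₀ (by positivity) (by norm_num)]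
      linarith
    have h6 : (x : ℝ) ^ ((1 : ℝ) / 2) * (x : ℝ) ^ ((1 : ℝ) / 2) = x := by
      rw [← Real.rpow_add hx0]
      norm_num
    have h7 : (0 : ℝ) < (x : ℝ) ^ ((1 : ℝ) / 2) := by positivity
    have h8 : 4 ^ E * (x : ℝ) ^ (c * E) ≤ (x : ℝ) / 2 := by
      have h9 : (4 : ℝ) ^ E * (x : ℝ) ^ (c * E) ≤ 4 ^ E * (x : ℝ) ^ ((1 : ℝ) / 2) := by gcongr
      nlinarith
    have h9 : (((H + 1 + 2) ^ E : ℕ) : ℝ) ≤ ((x - 1 : ℕ) : ℝ) := by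
      rw [Nat.cast_sub (by omega)]
      push_cast
      push_cast at h3
      rw [h4] at h3
      linarith
    exact_mod_cast h9
  obtain ⟨S, hS, hG⟩ := h (H + 1) (x - 1) hpow
  refine ⟨S.image fun g => x - 1 + g, card_image_le.trans hS, hmono _ _ ?_ hG⟩
  rintro t ⟨⟨ht1, ht2⟩, ht3⟩
  refine ⟨t - (x - 1), by omega, by omega, fun hmem => ht3 ?_, by omega⟩
  rw [coe_image]
  exact ⟨t - (x - 1), hmem, show x - 1 + (t - (x - 1)) = t by omega⟩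

end Pool.Agent.Q138.PS
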