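import Pool.Agent.Q138.PS.VG

set_option autoImplicit false

/-!
# Windows of algebraic numbers `ε t + γ`
-/

namespace Pool.Agent.Q138.PS

open Finset Filter Topology

/-- `Q` holds for all windows `ξ + 1, …, ξ + H` after an algebraic number `ξ` of bounded degree and polynomially bounded
height, `(H + 2) ^ E ≤ |ξ|`, up to `B` points -/
def WinC (Q : Set ℂ → Prop) : Prop :=
  ∀ m A : ℕ, ∃ E B : ℕ, ∀ (H : ℕ) (ξ : ℂ), ((H : ℝ) + 2) ^ E ≤ ‖ξ‖ →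
    (∃ p : Polynomial ℤ, p ≠ 0 ∧ p.natDegree ≤ m ∧ (∀ j, |(p.coeff j : ℝ)| ≤ ‖ξ‖ ^ A) ∧ Polynomial.aeval ξ p = 0) →
    ∃ S : Finset ℕ, S.card ≤ B ∧ Q {z | ∃ g : ℕ, 1 ≤ g ∧ g ≤ H ∧ g ∉ S ∧ z = ξ + g}

/-- the coefficients of a shifted polynomial -/
theorem taylor_bound (f : Polynomial ℤ) (y : ℝ) (a : ℤ) (hy : 1 ≤ y) (ha : |(a : ℝ)| ≤ y) (j : ℕ) :
    |(((Polynomial.taylor a f).coeff j : ℤ) : ℝ)| ≤
      (∑ i ∈ range (f.natDegree + 1), |((f.coeff i : ℤ) : ℝ)| * 2 ^ i) * y ^ f.natDegree := by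
  rw [Polynomial.taylor_coeff, Polynomial.hasseDeriv_apply, Polynomial.sum_def, Polynomial.eval_finsetSum]
  push_cast
  refine (abs_sum_le_sum_abs _ _).trans ?_
  rw [sum_mul]
  have hsub : f.support ⊆ range (f.natDegree + 1) := Polynomial.supp_subset_range_natDegree_succ
  refine (sum_le_sum_of_subset_of_nonneg hsub fun i _ _ => abs_nonneg _).trans (sum_le_sum fun i hi => ?_)
  rw [mem_range] at hi
  rw [Polynomial.eval_monomial]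
  push_cast
  rw [abs_mul, abs_mul, abs_pow]
  have h1 : |((i.choose j : ℕ) : ℝ)| ≤ 2 ^ i := by
    rw [abs_of_nonneg (by positivity)]
    exact_mod_cast Nat.choose_le_two_pow i j
  have h2 : |(a : ℝ)| ^ (i - j) ≤ y ^ f.natDegree := by
    refine (pow_le_pow_left₀ (abs_nonneg _) ha _).trans (pow_le_pow_right₀ hy ?_)
    omega
  calc |((i.choose j : ℕ) : ℝ)| * |((f.coeff i : ℤ) : ℝ)| * |(a : ℝ)| ^ (i - j)
      ≤ 2 ^ i * |((f.coeff i : ℤ) : ℝ)| * y ^ f.natDegree := by gcongr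
    _ = |((f.coeff i : ℤ) : ℝ)| * 2 ^ i * y ^ f.natDegree := by ring

/-- the heights of the numbers `a + γ`, `a` an integer -/
theorem height_shift (γ : ℂ) (hγ : IsAlgebraic ℤ γ) : ∃ m A : ℕ, ∃ y₀ : ℝ, 1 ≤ y₀ ∧ ∀ a : ℤ, y₀ ≤ |(a : ℝ)| →
    |(a : ℝ)| ≤ 2 * ‖(a : ℂ) + γ‖ ∧ ∃ p : Polynomial ℤ, p ≠ 0 ∧ p.natDegree ≤ m ∧
      (∀ j, |(p.coeff j : ℝ)| ≤ ‖(a : ℂ) + γ‖ ^ A) ∧ Polynomial.aeval ((a : ℂ) + γ) p = 0 := by
  obtain ⟨f, hf0, hf⟩ := hγ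
  set C : ℝ := ∑ i ∈ range (f.natDegree + 1), |((f.coeff i : ℤ) : ℝ)| * 2 ^ i with hC
  have hC0 : 0 ≤ C := sum_nonneg fun i _ => by positivity
  set D : ℕ := f.natDegree with hD
  refine ⟨D, D + 1, 2 * ‖γ‖ + C * 2 ^ (D + 1) + 1, ?_, fun a ha => ?_⟩
  · have : 0 ≤ ‖γ‖ := norm_nonneg _
    have : 0 ≤ C * 2 ^ (D + 1) := by positivity
    linarith
  have hγ0 : 0 ≤ ‖γ‖ := norm_nonneg _
  have hC1 : 0 ≤ C * 2 ^ (D + 1) := by positivity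
  have hna : ‖(a : ℂ)‖ = |(a : ℝ)| := by
    rw [Complex.norm_intCast]
  have hnorm : |(a : ℝ)| ≤ 2 * ‖(a : ℂ) + γ‖ := by
    have h1 : ‖(a : ℂ)‖ ≤ ‖(a : ℂ) + γ‖ + ‖γ‖ := by
      have := norm_sub_le ((a : ℂ) + γ) γ
      simpa using this
    rw [hna] at h1
    linarith
  refine ⟨hnorm, Polynomial.taylor (-a) f, ?_, ?_, ?_, ?_⟩
  · intro h
    apply hf0
    exact (Polynomial.taylor_injective (-a)) (by rw [h, map_zero])
  · rw [Polynomial.natDegree_taylor]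
  · intro j
    have h1 := taylor_bound f |(a : ℝ)| (-a) (by linarith) (by push_cast; rw [abs_neg]) j
    refine h1.trans ?_
    rw [← hC, ← hD]
    set z : ℝ := ‖(a : ℂ) + γ‖ with hz
    have hz0 : 0 ≤ z := norm_nonneg _
    have h2 : C * 2 ^ D ≤ z := by
      have : C * 2 ^ (D + 1) = 2 * (C * 2 ^ D) := by ring
      linarith
    calc C * |(a : ℝ)| ^ D ≤ C * (2 * z) ^ D := by gcongr
      _ = C * 2 ^ D * z ^ D := by rw [mul_pow]; ring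
      _ ≤ z * z ^ D := by gcongr
      _ = z ^ (D + 1) := by ring
  · rw [Polynomial.taylor_apply, Polynomial.aeval_comp]
    have : Polynomial.aeval ((a : ℂ) + γ) (Polynomial.X + Polynomial.C (-a) : Polynomial ℤ) = γ := by
      simp
    rw [this, hf]

theorem win_of_alg (Q : Set ℂ → Prop) (hmono : ∀ S S' : Set ℂ, S ⊆ S' → Q S' → Q S) (hQ : WinC Q) (γ : ℂ)
    (hγ : IsAlgebraic ℤ γ) (ε : ℤ) (hε : ε = 1 ∨ ε = -1) :
    ∃ B : ℕ, ∃ c : ℝ, 0 < c ∧ ∃ x₀ : ℕ, ∀ x H : ℕ, x₀ ≤ x → (H : ℝ) ≤ (x : ℝ) ^ c →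
      ∃ T : Finset ℕ, T.card ≤ B ∧ Q ((fun t : ℕ => (ε : ℂ) * t + γ) '' (Set.Icc x (x + H) \ T)) := by
  classical
  obtain ⟨m, A, y₀, hy₀, hht⟩ := height_shift γ hγ
  obtain ⟨E, B, hE⟩ := hQ m A
  set c : ℝ := 1 / (2 * ((E : ℝ) + 1)) with hc
  have hc0 : 0 < c := by positivity
  have hr : Tendsto (fun x : ℕ => (x : ℝ) ^ ((1 : ℝ) / 2)) atTop atTop :=
    (tendsto_rpow_atTop (by norm_num)).comp tendsto_natCast_atTop_atTop
  obtain ⟨x₁, hx₁⟩ := eventually_atTop.1 (hr.eventually_ge_atTop (4 * 4 ^ E))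
  refine ⟨B, c, hc0, max x₁ (max 2 (⌈y₀⌉₊ + 1)), fun x H hx hH => ?_⟩
  have hx2 : 2 ≤ x := (le_max_left _ _).trans ((le_max_right _ _).trans hx)
  have hx3 : ⌈y₀⌉₊ + 1 ≤ x := (le_max_right _ _).trans ((le_max_right _ _).trans hx)
  have h1 := hx₁ x ((le_max_left _ _).trans hx)
  have hxr : (2 : ℝ) ≤ x := by exact_mod_cast hx2
  have hx0 : (0 : ℝ) < x := by linarith
  have hpow : (((H + 1 : ℕ) : ℝ) + 2) ^ E ≤ ((x - 1 : ℕ) : ℝ) / 2 := by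
    have h2 : ((H + 1 : ℕ) : ℝ) + 2 ≤ 4 * (x : ℝ) ^ c := by
      have h3 : (1 : ℝ) ≤ (x : ℝ) ^ c := by
        have h4 : (x : ℝ) ^ (0 : ℝ) ≤ (x : ℝ) ^ c := Real.rpow_le_rpow_of_exponent_le (by linarith) hc0.le
        rwa [Real.rpow_zero] at h4
      push_cast
      linarith
    have h3 : (((H + 1 : ℕ) : ℝ) + 2) ^ E ≤ (4 * (x : ℝ) ^ c) ^ E := by gcongr
    have h4 : (4 * (x : ℝ) ^ c) ^ E = 4 ^ E * (x : ℝ) ^ (c * E) := by
      rw [mul_pow, ← Real.rpow_natCast ((x : ℝ) ^ c), ← Real.rpow_mul hx0.le]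
    have h5 : (x : ℝ) ^ (c * E) ≤ (x : ℝ) ^ ((1 : ℝ) / 2) := by
      refine Real.rpow_le_rpow_of_exponent_le (by linarith) ?_
      rw [hc, div_mul_eq_mul_div, div_le_div_iff₀ (by positivity) (by norm_num)]
      linarith
    have h6 : (x : ℝ) ^ ((1 : ℝ) / 2) * (x : ℝ) ^ ((1 : ℝ) / 2) = x := by
      rw [← Real.rpow_add hx0]
      norm_num
    have h7 : (0 : ℝ) < (x : ℝ) ^ ((1 : ℝ) / 2) := by positivity
    have h8 : 4 ^ E * (x : ℝ) ^ (c * E) ≤ (x : ℝ) / 4 := by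
      have h9 : (4 : ℝ) ^ E * (x : ℝ) ^ (c * E) ≤ 4 ^ E * (x : ℝ) ^ ((1 : ℝ) / 2) := by gcongr
      nlinarith
    have h9 : ((x - 1 : ℕ) : ℝ) = x - 1 := by
      rw [Nat.cast_sub (by omega)]
      push_cast
      rfl
    rw [h9]
    rw [h4] at h3
    linarith
  have hx1y : y₀ ≤ ((x - 1 : ℕ) : ℝ) := by
    have h2 : ⌈y₀⌉₊ ≤ x - 1 := by omega
    exact (Nat.le_ceil _).trans (by exact_mod_cast h2)
  -- a general centre
  have key : ∀ y : ℕ, x - 1 ≤ y → ∃ S : Finset ℕ, S.card ≤ B ∧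
      Q {z | ∃ g : ℕ, 1 ≤ g ∧ g ≤ H + 1 ∧ g ∉ S ∧ z = ((ε * (y : ℤ) : ℤ) : ℂ) + γ + g} := by
    intro y hy
    have hyr : ((x - 1 : ℕ) : ℝ) ≤ y := by exact_mod_cast hy
    have habs : |((ε * (y : ℤ) : ℤ) : ℝ)| = y := by
      rcases hε with rfl | rfl <;> simp
    obtain ⟨h2, h3⟩ := hht (ε * (y : ℤ)) (by rw [habs]; linarith)
    refine hE (H + 1) _ ?_ h3
    rw [habs] at h2
    linarith
  rcases hε with rfl | rfl
  · obtain ⟨S, hS, hQS⟩ := key (x - 1) le_rfl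
    refine ⟨S.image fun g => x - 1 + g, card_image_le.trans hS, hmono _ _ ?_ hQS⟩
    rintro z ⟨t, ⟨⟨ht1, ht2⟩, ht3⟩, rfl⟩
    refine ⟨t - (x - 1), by omega, by omega, fun hmem => ht3 ?_, ?_⟩
    · rw [coe_image]
      exact ⟨t - (x - 1), hmem, show x - 1 + (t - (x - 1)) = t by omega⟩
    · obtain ⟨g, hg⟩ : ∃ g, t = (x - 1) + g := ⟨t - (x - 1), by omega⟩
      have : t - (x - 1) = g := by omega
      rw [this]
      show ((1 : ℤ) : ℂ) * (t : ℂ) + γ = _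
      rw [hg]
      push_cast
      ring
  · obtain ⟨S, hS, hQS⟩ := key (x + H + 1) (by omega)
    refine ⟨S.image fun g => x + H + 1 - g, card_image_le.trans hS, hmono _ _ ?_ hQS⟩
    rintro z ⟨t, ⟨⟨ht1, ht2⟩, ht3⟩, rfl⟩
    refine ⟨x + H + 1 - t, by omega, by omega, fun hmem => ht3 ?_, ?_⟩
    · rw [coe_image]
      exact ⟨x + H + 1 - t, hmem, show x + H + 1 - (x + H + 1 - t) = t by omega⟩
    · obtain ⟨g, hg⟩ : ∃ g, x + H + 1 = t + g := ⟨x + H + 1 - t, by omega⟩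
      have : x + H + 1 - t = g := by omega
      rw [this, hg]
      show ((-1 : ℤ) : ℂ) * (t : ℂ) + γ = _
      push_cast
      ring

/-- a field generated by finitely many numbers has finite transcendence degree -/
theorem trdeg_nat (S : Set ℂ) (hS : S.Finite) : ∃ ρ : ℕ, Algebra.trdeg ℚ (IntermediateField.adjoin ℚ S) = ρ := by
  have h1 : Algebra.EssFiniteType ℚ (IntermediateField.adjoin ℚ S) :=
    IntermediateField.essFiniteType_iff.2 (IntermediateField.fg_adjoin_of_finite hS)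
  exact Cardinal.lt_aleph0.1 (trdeg_lt_aleph0 ℚ (IntermediateField.adjoin ℚ S))

/-- **windows of algebraic numbers, all tuples at once** -/
theorem win_alg {ι : Type} [Countable ι] (q : ℕ) (hq : 2 ≤ q) (Q : ι → Set ℂ → Prop)
    (hmono : ∀ i (S S' : Set ℂ), S ⊆ S' → Q i S' → Q i S) (hQ : ∀ i, WinC (Q i)) :
    ∃ E : Set ℝ, dimH E ≤ ENNReal.ofReal (q / (q + 1 / ((q : ℝ) * 2 ^ (q - 1)))) ∧ ∀ α : ℝ, 0 < α → α ∉ E →
      ∃ η : ℝ, 0 < η ∧ ∀ (i : ι) (γ : ℂ), IsAlgebraic ℚ γ → ∀ ε : ℤ, ε = 1 ∨ ε = -1 →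
      ∃ κ : ℝ, 0 < κ ∧ ∀ᶠ N : ℕ in atTop,
      ∀ P : Polynomial ℤ, P.natDegree = q → 0 < P.leadingCoeff → (∀ j, |((P.coeff j : ℤ) : ℝ)| ≤ (N : ℝ) ^ η) →
      (badG (fun S => Q i ((fun t : ℕ => (ε : ℂ) * t + γ) '' S)) ⌊(N : ℝ) ^ κ⌋₊ α P N : ℝ) ≤ (N : ℝ) ^ (1 - κ) := by
  classical
  have hc : Countable {γ : ℂ // IsAlgebraic ℚ γ} := Algebraic.countable ℚ ℂ
  obtain ⟨E, hE, hg⟩ := win_tuples (ι := ι × {γ : ℂ // IsAlgebraic ℚ γ} × ℤ) q hq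
    (fun j S => Q j.1 ((fun t : ℕ => (j.2.2 : ℂ) * t + (j.2.1 : ℂ)) '' S))
    (fun j S S' hS hS' => hmono j.1 _ _ (Set.image_mono hS) hS')
  refine ⟨E, hE, fun α hα hαE => ?_⟩
  obtain ⟨η, hη, h1⟩ := hg α hα hαE
  refine ⟨η, hη, fun i γ hγ ε hε => ?_⟩
  obtain ⟨B, c, hc, h2⟩ := win_of_alg (Q i) (hmono i) (hQ i) γ ((IsFractionRing.isAlgebraic_iff ℤ ℚ ℂ).2 hγ) ε hε
  exact h1 (i, ⟨γ, hγ⟩, ε) B c hc h2

end Pool.Agent.Q138.PS
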