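import Pool.Agent.Q138.PS.VI

set_option autoImplicit false

/-!
# Windows of integers, windows with steps
-/

namespace Pool.Agent.Q138.PS

open Finset Filter Topology

theorem pow_win (E a : ℕ) : ∃ c : ℝ, 0 < c ∧ ∃ x₀ : ℕ, ∀ x H : ℕ, x₀ ≤ x → (H : ℝ) ≤ (x : ℝ) ^ c →
    (a * (H + 1)) ^ E * a ≤ x := by
  set c : ℝ := 1 / (2 * ((E : ℝ) + 1)) with hc
  have hc0 : 0 < c := by positivity
  have hr : Tendsto (fun x : ℕ => (x : ℝ) ^ ((1 : ℝ) / 2)) atTop atTop :=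
    (tendsto_rpow_atTop (by norm_num)).comp tendsto_natCast_atTop_atTop
  obtain ⟨x₁, hx₁⟩ := eventually_atTop.1 (hr.eventually_ge_atTop ((2 * (a : ℝ)) ^ E * a))
  refine ⟨c, hc0, max x₁ 1, fun x H hx hH => ?_⟩
  have h1 := hx₁ x ((le_max_left _ _).trans hx)
  have hx1 : 1 ≤ x := (le_max_right _ _).trans hx
  have hxr : (1 : ℝ) ≤ x := by exact_mod_cast hx1
  have hx0 : (0 : ℝ) < x := by linarith
  have h3 : (1 : ℝ) ≤ (x : ℝ) ^ c := by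
    have h4 : (x : ℝ) ^ (0 : ℝ) ≤ (x : ℝ) ^ c := Real.rpow_le_rpow_of_exponent_le hxr hc0.le
    rwa [Real.rpow_zero] at h4
  have h5 : (x : ℝ) ^ (c * E) ≤ (x : ℝ) ^ ((1 : ℝ) / 2) := by
    refine Real.rpow_le_rpow_of_exponent_le hxr ?_
    rw [hc, div_mul_eq_mul_div, div_le_div_iff₀ (by positivity) (by norm_num)]
    linarith
  have h6 : (x : ℝ) ^ ((1 : ℝ) / 2) * (x : ℝ) ^ ((1 : ℝ) / 2) = x := by
    rw [← Real.rpow_add hx0]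
    norm_num
  have h8 : ((a : ℝ) * (H + 1)) ^ E * a ≤ x := by
    calc ((a : ℝ) * (H + 1)) ^ E * a ≤ (a * (2 * (x : ℝ) ^ c)) ^ E * a := by
          gcongr
          linarith
      _ = (2 * (a : ℝ)) ^ E * a * (x : ℝ) ^ (c * E) := by
          rw [show (a : ℝ) * (2 * (x : ℝ) ^ c) = 2 * a * (x : ℝ) ^ c by ring, mul_pow, ← Real.rpow_natCast ((x : ℝ) ^ c),
            ← Real.rpow_mul hx0.le]
          ring
      _ ≤ (x : ℝ) ^ ((1 : ℝ) / 2) * (x : ℝ) ^ ((1 : ℝ) / 2) := by gcongr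
      _ = x := h6
  exact_mod_cast h8

/-- windows of integers of a given sign -/
theorem win_of_int (Q : Set ℤ → Prop) (hmono : ∀ S S' : Set ℤ, S ⊆ S' → Q S' → Q S) (ε : ℤ) (hε : ε = 1 ∨ ε = -1) (E B : ℕ)
    (h : ∀ N H : ℕ, (H + 2) ^ E ≤ N → ∃ S : Finset ℤ, S.card ≤ B ∧ Q {n | (N : ℤ) ≤ ε * n ∧ ε * n ≤ N + H ∧ n ∉ S}) :
    ∃ B' : ℕ, ∃ c : ℝ, 0 < c ∧ ∃ x₀ : ℕ, ∀ x H : ℕ, x₀ ≤ x → (H : ℝ) ≤ (x : ℝ) ^ c →
      ∃ T : Finset ℕ, T.card ≤ B' ∧ Q ((fun t : ℕ => ε * (t : ℤ)) '' (Set.Icc x (x + H) \ T)) := by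
  classical
  obtain ⟨c, hc, x₀, hx₀⟩ := pow_win E 2
  refine ⟨B, c, hc, x₀, fun x H hx hH => ?_⟩
  have h1 := hx₀ x H hx hH
  have h2 : (H + 2) ^ E ≤ x := by
    refine le_trans (Nat.pow_le_pow_left (by omega : H + 2 ≤ 2 * (H + 1)) E) ?_
    omega
  obtain ⟨S, hS, hQ⟩ := h x H h2
  refine ⟨S.image fun s => (ε * s).toNat, card_image_le.trans hS, hmono _ _ ?_ hQ⟩
  rintro n ⟨t, ⟨⟨ht1, ht2⟩, ht3⟩, rfl⟩
  have e : ε * (ε * (t : ℤ)) = t := by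
    rcases hε with rfl | rfl <;> ring
  refine ⟨?_, ?_, fun hmem => ht3 ?_⟩
  · show (x : ℤ) ≤ ε * (ε * (t : ℤ))
    rw [e]
    exact_mod_cast ht1
  · show ε * (ε * (t : ℤ)) ≤ x + H
    rw [e]
    exact_mod_cast ht2
  · rw [coe_image]
    refine ⟨_, hmem, ?_⟩
    show (ε * (ε * (t : ℤ))).toNat = t
    rw [e, Int.toNat_natCast]

/-- windows of integers, all tuples at once -/
theorem win_int {ι : Type} [Countable ι] (q : ℕ) (hq : 2 ≤ q) (Q : ι → Set ℤ → Prop)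
    (hmono : ∀ i (S S' : Set ℤ), S ⊆ S' → Q i S' → Q i S)
    (hQ : ∀ (i : ι) (ε : ℤ), ε = 1 ∨ ε = -1 → ∃ E B : ℕ, ∀ N H : ℕ, (H + 2) ^ E ≤ N →
      ∃ S : Finset ℤ, S.card ≤ B ∧ Q i {n | (N : ℤ) ≤ ε * n ∧ ε * n ≤ N + H ∧ n ∉ S}) :
    ∃ E : Set ℝ, dimH E ≤ ENNReal.ofReal (q / (q + 1 / ((q : ℝ) * 2 ^ (q - 1)))) ∧ ∀ α : ℝ, 0 < α → α ∉ E →
      ∃ η : ℝ, 0 < η ∧ ∀ (i : ι) (ε : ℤ), ε = 1 ∨ ε = -1 →
      ∃ κ : ℝ, 0 < κ ∧ ∀ᶠ N : ℕ in atTop,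
      ∀ P : Polynomial ℤ, P.natDegree = q → 0 < P.leadingCoeff → (∀ j, |((P.coeff j : ℤ) : ℝ)| ≤ (N : ℝ) ^ η) →
      (badG (fun S => Q i ((fun t : ℕ => ε * (t : ℤ)) '' S)) ⌊(N : ℝ) ^ κ⌋₊ α P N : ℝ) ≤ (N : ℝ) ^ (1 - κ) := by
  classical
  obtain ⟨E, hE, hg⟩ := win_tuples (ι := ι × ℤ) q hq
    (fun j S => Q j.1 ((fun t : ℕ => j.2 * (t : ℤ)) '' S))
    (fun j S S' hS hS' => hmono j.1 _ _ (Set.image_mono hS) hS')
  refine ⟨E, hE, fun α hα hαE => ?_⟩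
  obtain ⟨η, hη, h1⟩ := hg α hα hαE
  refine ⟨η, hη, fun i ε hε => ?_⟩
  obtain ⟨E', B', h3⟩ := hQ i ε hε
  obtain ⟨B, c, hc, h2⟩ := win_of_int (Q i) (hmono i) ε hε E' B' h3
  exact h1 (i, ε) B c hc h2

/-- windows with step `G`, downwards -/
theorem step_down (G : ℕ) (hG : 1 ≤ G) (Q : Set ℕ → Prop) (hmono : ∀ S S' : Set ℕ, S ⊆ S' → Q S' → Q S) (E M : ℕ)
    (h : ∀ B t : ℕ, (B + 2) ^ E ≤ t → ∃ S : Finset ℕ, S.card ≤ M ∧ Q {s | ∃ u : ℕ, 1 ≤ u ∧ u ≤ B ∧ u ∉ S ∧ s + G * u = t}) :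
    ∃ B' : ℕ, ∃ c : ℝ, 0 < c ∧ ∃ x₀ : ℕ, ∀ x H : ℕ, x₀ ≤ x → (H : ℝ) ≤ (x : ℝ) ^ c →
      ∃ T : Finset ℕ, T.card ≤ B' ∧ ∀ a : ℕ, Q ((Set.Icc x (x + H) \ T) ∩ {t | t % G = a % G}) := by
  classical
  obtain ⟨c, hc, x₀, hx₀⟩ := pow_win E 4
  refine ⟨G * M, c, hc, x₀, fun x H hx hH => ?_⟩
  have h1 := hx₀ x H hx hH
  have h2 : (H + 2 + 2) ^ E ≤ x := by
    refine le_trans (Nat.pow_le_pow_left (by omega : H + 2 + 2 ≤ 4 * (H + 1)) E) ?_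
    omega
  -- the centre for the residue class `a`
  set y : ℕ → ℕ := fun a => G * ((x + H) / G + 1) + a with hy
  have hyx : ∀ a, x + H < y a := by
    intro a
    have := Nat.lt_mul_div_succ (x + H) (show 0 < G by omega)
    simp only [hy]
    calc x + H < G * ((x + H) / G + 1) := this
      _ ≤ _ := Nat.le_add_right _ _
  have hyx2 : ∀ a, a < G → y a ≤ x + H + 2 * G := by
    intro a ha
    have h3 : G * ((x + H) / G) ≤ x + H := Nat.mul_div_le _ _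
    have h4 : G * ((x + H) / G + 1) = G * ((x + H) / G) + G := by ring
    simp only [hy]
    omega
  have hwin : ∀ a, ∃ S : Finset ℕ, S.card ≤ M ∧ Q {s | ∃ u : ℕ, 1 ≤ u ∧ u ≤ H + 2 ∧ u ∉ S ∧ s + G * u = y a} := fun a =>
    h (H + 2) (y a) (h2.trans (by have := hyx a; omega))
  choose S hS hQ using hwin
  refine ⟨(range G).biUnion fun a => (S a).image fun u => y a - G * u, ?_, fun a => hmono _ _ ?_ (hQ (a % G))⟩
  · refine (card_biUnion_le_card_mul _ _ M fun a _ => card_image_le.trans (hS a)).trans ?_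
    rw [card_range]
  rintro t ⟨⟨⟨ht1, ht2⟩, ht3⟩, ht4⟩
  have ht5 : t % G = a % G := ht4
  have haG : a % G < G := Nat.mod_lt _ (by omega)
  have hlt := hyx (a % G)
  have hle := hyx2 (a % G) haG
  have hdvd : G ∣ y (a % G) - t := by
    refine (Nat.modEq_iff_dvd' (by omega)).1 ?_
    show t % G = (G * ((x + H) / G + 1) + a % G) % G
    rw [Nat.mul_add_mod, Nat.mod_mod, ht5]
  obtain ⟨u, hu⟩ := hdvd
  have hu1 : 1 ≤ u := by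
    rcases Nat.eq_zero_or_pos u with h0 | h0
    · rw [h0, mul_zero] at hu
      omega
    · exact h0
  have hu2 : u ≤ H + 2 := by
    by_contra hcon
    push Not at hcon
    have h3 : G * (H + 3) ≤ G * u := Nat.mul_le_mul_left _ (by omega)
    have h4 : G * (H + 3) = G * H + 3 * G := by ring
    have h5 : H ≤ G * H := Nat.le_mul_of_pos_left _ (by omega)
    omega
  refine ⟨u, hu1, hu2, fun hmem => ht3 ?_, by omega⟩
  rw [mem_coe, mem_biUnion]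
  exact ⟨a % G, mem_range.2 haG, mem_image.2 ⟨u, hmem, by omega⟩⟩

/-- windows with step `G`, upwards -/
theorem step_up (G : ℕ) (hG : 1 ≤ G) (Q : Set ℕ → Prop) (hmono : ∀ S S' : Set ℕ, S ⊆ S' → Q S' → Q S) (E M : ℕ)
    (h : ∀ B t : ℕ, (B + 2) ^ E ≤ t → ∃ S : Finset ℕ, S.card ≤ M ∧ Q {s | ∃ u : ℕ, 1 ≤ u ∧ u ≤ B ∧ u ∉ S ∧ s = t + G * u}) :
    ∃ B' : ℕ, ∃ c : ℝ, 0 < c ∧ ∃ x₀ : ℕ, ∀ x H : ℕ, x₀ ≤ x → (H : ℝ) ≤ (x : ℝ) ^ c →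
      ∃ T : Finset ℕ, T.card ≤ B' ∧ ∀ a : ℕ, Q ((Set.Icc x (x + H) \ T) ∩ {t | t % G = a % G}) := by
  classical
  obtain ⟨c, hc, x₀, hx₀⟩ := pow_win E 5
  refine ⟨G * M, c, hc, max x₀ (4 * G + 4), fun x H hx hH => ?_⟩
  have hxG : 4 * G + 4 ≤ x := (le_max_right _ _).trans hx
  have h1 := hx₀ x H ((le_max_left _ _).trans hx) hH
  -- the centre for the residue class `a`
  set y : ℕ → ℕ := fun a => G * (x / G - 2) + a with hy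
  have hGx : 2 ≤ x / G := by
    rw [Nat.le_div_iff_mul_le (by omega)]
    omega
  have hGx1 : G * (x / G) ≤ x := Nat.mul_div_le _ _
  have hGx2 : x < G * (x / G) + G := by
    have := Nat.lt_mul_div_succ x (show 0 < G by omega)
    calc x < G * (x / G + 1) := this
      _ = _ := by ring
  have hG2 : G * (x / G - 2) = G * (x / G) - 2 * G := by
    rw [Nat.mul_sub]
    congr 1
    ring
  have hyx : ∀ a, a < G → y a < x := by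
    intro a ha
    have h3 : 2 * G ≤ G * (x / G) := by
      calc 2 * G = G * 2 := by ring
        _ ≤ _ := Nat.mul_le_mul_left _ hGx
    simp only [hy]
    omega
  have hyx2 : ∀ a, x ≤ y a + 3 * G := by
    intro a
    have h3 : 2 * G ≤ G * (x / G) := by
      calc 2 * G = G * 2 := by ring
        _ ≤ _ := Nat.mul_le_mul_left _ hGx
    simp only [hy]
    omega
  have h2 : (H + 3 + 2) ^ E * 5 ≤ x := by
    refine le_trans (Nat.mul_le_mul_right _ (Nat.pow_le_pow_left (by omega : H + 3 + 2 ≤ 5 * (H + 1)) E)) h1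
  have hwin : ∀ a, ∃ S : Finset ℕ, S.card ≤ M ∧ Q {s | ∃ u : ℕ, 1 ≤ u ∧ u ≤ H + 3 ∧ u ∉ S ∧ s = y a + G * u} := by
    intro a
    refine h (H + 3) (y a) ?_
    have := hyx2 a
    omega
  choose S hS hQ using hwin
  refine ⟨(range G).biUnion fun a => (S a).image fun u => y a + G * u, ?_, fun a => hmono _ _ ?_ (hQ (a % G))⟩
  · refine (card_biUnion_le_card_mul _ _ M fun a _ => card_image_le.trans (hS a)).trans ?_
    rw [card_range]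
  rintro t ⟨⟨⟨ht1, ht2⟩, ht3⟩, ht4⟩
  have ht5 : t % G = a % G := ht4
  have haG : a % G < G := Nat.mod_lt _ (by omega)
  have hlt := hyx (a % G) haG
  have hle := hyx2 (a % G)
  have hdvd : G ∣ t - y (a % G) := by
    refine (Nat.modEq_iff_dvd' (by omega)).1 ?_
    show (G * (x / G - 2) + a % G) % G = t % G
    rw [Nat.mul_add_mod, Nat.mod_mod, ht5]
  obtain ⟨u, hu⟩ := hdvd
  have hu1 : 1 ≤ u := by
    rcases Nat.eq_zero_or_pos u with h0 | h0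
    · rw [h0, mul_zero] at hu
      omega
    · exact h0
  have hu2 : u ≤ H + 3 := by
    by_contra hcon
    push Not at hcon
    have h3 : G * (H + 4) ≤ G * u := Nat.mul_le_mul_left _ (by omega)
    have h4 : G * (H + 4) = G * H + 4 * G := by ring
    have h5 : H ≤ G * H := Nat.le_mul_of_pos_left _ (by omega)
    omega
  refine ⟨u, hu1, hu2, fun hmem => ht3 ?_, by omega⟩
  rw [mem_coe, mem_biUnion]
  exact ⟨a % G, mem_range.2 haG, mem_image.2 ⟨u, hmem, by omega⟩⟩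

/-- `Q` holds for all windows `ξ - G, …, ξ - G H` before an algebraic number `ξ` of bounded degree and polynomially bounded
height, `(H + 2) ^ E ≤ |ξ|`, up to `B` points -/
def WinS (G : ℕ) (Q : Set ℂ → Prop) : Prop :=
  ∀ m A : ℕ, ∃ E B : ℕ, ∀ (H : ℕ) (ξ : ℂ), ((H : ℝ) + 2) ^ E ≤ ‖ξ‖ →
    (∃ p : Polynomial ℤ, p ≠ 0 ∧ p.natDegree ≤ m ∧ (∀ j, |(p.coeff j : ℝ)| ≤ ‖ξ‖ ^ A) ∧ Polynomial.aeval ξ p = 0) →
    ∃ S : Finset ℕ, S.card ≤ B ∧ Q {z | ∃ u : ℕ, 1 ≤ u ∧ u ≤ H ∧ u ∉ S ∧ z = ξ - ((G * u : ℕ) : ℂ)}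

theorem win_of_algS (G : ℕ) (hG : 1 ≤ G) (Q : Set ℂ → Prop) (hmono : ∀ S S' : Set ℂ, S ⊆ S' → Q S' → Q S)
    (hQ : WinS G Q) (γ : ℂ) (hγ : IsAlgebraic ℤ γ) (ε : ℤ) (hε : ε = 1 ∨ ε = -1) :
    ∃ B : ℕ, ∃ c : ℝ, 0 < c ∧ ∃ x₀ : ℕ, ∀ x H : ℕ, x₀ ≤ x → (H : ℝ) ≤ (x : ℝ) ^ c →
      ∃ T : Finset ℕ, T.card ≤ B ∧ ∀ a : ℕ,
        Q ((fun t : ℕ => (ε : ℂ) * t + γ) '' ((Set.Icc x (x + H) \ T) ∩ {t | t % G = a % G})) := by
  classical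
  obtain ⟨m, A, y₀, hy₀, hht⟩ := height_shift γ hγ
  obtain ⟨E, B, hE⟩ := hQ m A
  obtain ⟨L, hL⟩ : ∃ L : ℕ, y₀ ≤ 2 ^ L := by
    obtain ⟨L, hL⟩ := pow_unbounded_of_one_lt y₀ (by norm_num : (1 : ℝ) < 2)
    exact ⟨L, hL.le⟩
  have key : ∀ H t : ℕ, (H + 2) ^ (E + 1 + L) ≤ t → ∃ S : Finset ℕ, S.card ≤ B ∧
      Q {z | ∃ u : ℕ, 1 ≤ u ∧ u ≤ H ∧ u ∉ S ∧ z = ((ε * (t : ℤ) : ℤ) : ℂ) + γ - ((G * u : ℕ) : ℂ)} := by
    intro H t ht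
    have habs : |((ε * (t : ℤ) : ℤ) : ℝ)| = t := by
      rcases hε with rfl | rfl <;> simp
    have htr : (((H : ℝ) + 2) ^ (E + 1 + L)) ≤ t := by exact_mod_cast ht
    have h2 : (2 : ℝ) ≤ (H : ℝ) + 2 := by
      have : (0 : ℝ) ≤ H := Nat.cast_nonneg H
      linarith
    have e : ((H : ℝ) + 2) ^ (E + 1 + L) = ((H : ℝ) + 2) ^ E * ((H : ℝ) + 2) * ((H : ℝ) + 2) ^ L := by ring
    have h1L : (1 : ℝ) ≤ ((H : ℝ) + 2) ^ L := one_le_pow₀ (by linarith)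
    have h1E : (1 : ℝ) ≤ ((H : ℝ) + 2) ^ E := one_le_pow₀ (by linarith)
    have h3 : y₀ ≤ t := by
      have h4 : (2 : ℝ) ^ L ≤ ((H : ℝ) + 2) ^ L := pow_le_pow_left₀ (by norm_num) h2 L
      have h5 : ((H : ℝ) + 2) ^ L ≤ ((H : ℝ) + 2) ^ E * ((H : ℝ) + 2) * ((H : ℝ) + 2) ^ L :=
        le_mul_of_one_le_left (by positivity) (by nlinarith)
      linarith
    obtain ⟨h4, h5⟩ := hht (ε * (t : ℤ)) (by rw [habs]; exact h3)
    refine hE H _ ?_ h5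
    rw [habs] at h4
    have h6 : ((H : ℝ) + 2) ^ E * 2 ≤ t := by
      refine le_trans ?_ htr
      rw [e]
      calc ((H : ℝ) + 2) ^ E * 2 ≤ ((H : ℝ) + 2) ^ E * ((H : ℝ) + 2) := by gcongr
        _ ≤ _ := le_mul_of_one_le_right (by positivity) h1L
    linarith
  rcases hε with rfl | rfl
  · refine step_down G hG (fun S => Q ((fun t : ℕ => ((1 : ℤ) : ℂ) * t + γ) '' S))
      (fun S S' hS hS' => hmono _ _ (Set.image_mono hS) hS') (E + 1 + L) B fun H t ht => ?_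
    obtain ⟨S, hS, hQS⟩ := key H t ht
    refine ⟨S, hS, hmono _ _ ?_ hQS⟩
    rintro z ⟨s, ⟨u, hu1, hu2, hu3, hu4⟩, rfl⟩
    refine ⟨u, hu1, hu2, hu3, ?_⟩
    rw [← hu4]
    push_cast
    ring
  · refine step_up G hG (fun S => Q ((fun t : ℕ => ((-1 : ℤ) : ℂ) * t + γ) '' S))
      (fun S S' hS hS' => hmono _ _ (Set.image_mono hS) hS') (E + 1 + L) B fun H t ht => ?_
    obtain ⟨S, hS, hQS⟩ := key H t ht
    refine ⟨S, hS, hmono _ _ ?_ hQS⟩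
    rintro z ⟨s, ⟨u, hu1, hu2, hu3, hu4⟩, rfl⟩
    refine ⟨u, hu1, hu2, hu3, ?_⟩
    rw [hu4]
    push_cast
    ring

/-- **windows of algebraic numbers in a residue class, all tuples at once** -/
theorem win_algS {ι : Type} [Countable ι] (q : ℕ) (hq : 2 ≤ q) (G : ι → ℕ) (hG : ∀ i, 1 ≤ G i) (Q : ι → Set ℂ → Prop)
    (hmono : ∀ i (S S' : Set ℂ), S ⊆ S' → Q i S' → Q i S) (hQ : ∀ i, WinS (G i) (Q i)) :
    ∃ E : Set ℝ, dimH E ≤ ENNReal.ofReal (q / (q + 1 / ((q : ℝ) * 2 ^ (q - 1)))) ∧ ∀ α : ℝ, 0 < α → α ∉ E →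
      ∃ η : ℝ, 0 < η ∧ ∀ (i : ι) (γ : ℂ), IsAlgebraic ℚ γ → ∀ ε : ℤ, ε = 1 ∨ ε = -1 →
      ∃ κ : ℝ, 0 < κ ∧ ∀ᶠ N : ℕ in atTop,
      ∀ P : Polynomial ℤ, P.natDegree = q → 0 < P.leadingCoeff → (∀ j, |((P.coeff j : ℤ) : ℝ)| ≤ (N : ℝ) ^ η) →
      (badG (fun S => ∀ a : ℕ, Q i ((fun t : ℕ => (ε : ℂ) * t + γ) '' (S ∩ {t | t % G i = a % G i})))
        ⌊(N : ℝ) ^ κ⌋₊ α P N : ℝ) ≤ (N : ℝ) ^ (1 - κ) := by
  classical
  have hc : Countable {γ : ℂ // IsAlgebraic ℚ γ} := Algebraic.countable ℚ ℂ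
  obtain ⟨E, hE, hg⟩ := win_tuples (ι := ι × {γ : ℂ // IsAlgebraic ℚ γ} × ℤ) q hq
    (fun j S => ∀ a : ℕ, Q j.1 ((fun t : ℕ => (j.2.2 : ℂ) * t + (j.2.1 : ℂ)) '' (S ∩ {t | t % G j.1 = a % G j.1})))
    (fun j S S' hS hS' a => hmono j.1 _ _ (Set.image_mono (Set.inter_subset_inter_left _ hS)) (hS' a))
  refine ⟨E, hE, fun α hα hαE => ?_⟩
  obtain ⟨η, hη, h1⟩ := hg α hα hαE
  refine ⟨η, hη, fun i γ hγ ε hε => ?_⟩
  obtain ⟨B, c, hc, h2⟩ := win_of_algS (G i) (hG i) (Q i) (hmono i) (hQ i) γ ((IsFractionRing.isAlgebraic_iff ℤ ℚ ℂ).2 hγ)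
    ε hε
  exact h1 (i, ⟨γ, hγ⟩, ε) B c hc h2

end Pool.Agent.Q138.PS
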