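import Pool.Agent.Q138.PS.VJ

set_option autoImplicit false

/-!
# Algebraic numbers of bounded degree and polynomially bounded height near `⌊α P(n)⌋`
-/

namespace Pool.Agent.Q138.PS

open Finset Filter Topology

/-- `z` is a root of a nonzero integral polynomial of degree at most `d` with coefficients of absolute value at most `H` -/
def AlgB (d H : ℕ) (z : ℂ) : Prop :=
  ∃ p : Polynomial ℤ, p ≠ 0 ∧ p.natDegree ≤ d ∧ (∀ j, |p.coeff j| ≤ (H : ℤ)) ∧ Polynomial.aeval z p = 0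

theorem AlgB.norm_lt {d H : ℕ} {z : ℂ} (h : AlgB d H z) : ‖z‖ < H + 1 := by
  obtain ⟨p, hp0, -, hpc, hp⟩ := h
  set f : Polynomial ℂ := p.map (Int.castRingHom ℂ) with hf
  have hinj : Function.Injective (Int.castRingHom ℂ) := Int.cast_injective
  have hf0 : f ≠ 0 := (Polynomial.map_ne_zero_iff hinj).2 hp0
  have hroot : f.IsRoot z := by
    rw [Polynomial.IsRoot.def, hf, Polynomial.eval_map]
    have h1 : Polynomial.aeval z p = Polynomial.eval₂ (Int.castRingHom ℂ) z p := by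
      rw [Polynomial.aeval_def]
      rfl
    rw [← h1, hp]
  have h1 := Polynomial.IsRoot.norm_lt_cauchyBound hf0 hroot
  have h2 : Polynomial.cauchyBound f ≤ (H : NNReal) + 1 := by
    unfold Polynomial.cauchyBound
    gcongr
    have h3 : (1 : NNReal) ≤ ‖f.leadingCoeff‖₊ := by
      rw [hf, Polynomial.leadingCoeff_map_of_injective hinj]
      have h4 : p.leadingCoeff ≠ 0 := Polynomial.leadingCoeff_ne_zero.2 hp0
      rw [← NNReal.coe_le_coe, coe_nnnorm]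
      have h5 : ‖(Int.castRingHom ℂ) p.leadingCoeff‖ = |(p.leadingCoeff : ℝ)| := by
        show ‖((p.leadingCoeff : ℤ) : ℂ)‖ = _
        rw [Complex.norm_intCast]
      rw [h5]
      have h6 : (1 : ℤ) ≤ |p.leadingCoeff| := Int.one_le_abs h4
      have h7 : ((1 : ℤ) : ℝ) ≤ ((|p.leadingCoeff| : ℤ) : ℝ) := by exact_mod_cast h6
      simpa using h7
    have h4 : (range f.natDegree).sup (fun j => ‖f.coeff j‖₊) ≤ (H : NNReal) := by
      refine Finset.sup_le fun j _ => ?_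
      rw [hf, Polynomial.coeff_map, ← NNReal.coe_le_coe, coe_nnnorm]
      have h5 : ‖(Int.castRingHom ℂ) (p.coeff j)‖ = |(p.coeff j : ℝ)| := by
        show ‖((p.coeff j : ℤ) : ℂ)‖ = _
        rw [Complex.norm_intCast]
      rw [h5]
      have h7 : ((|p.coeff j| : ℤ) : ℝ) ≤ ((H : ℤ) : ℝ) := by exact_mod_cast hpc j
      simpa using h7
    calc (range f.natDegree).sup (fun j => ‖f.coeff j‖₊) / ‖f.leadingCoeff‖₊
        ≤ (range f.natDegree).sup (fun j => ‖f.coeff j‖₊) := div_le_of_le_mul₀ (by positivity) (by positivity)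
          (le_mul_of_one_le_right (by positivity) h3)
      _ ≤ _ := h4
  have h3 : (‖z‖₊ : ℝ) < (H : ℝ) + 1 := by
    have := lt_of_lt_of_le h1 h2
    exact_mod_cast this
  simpa using h3

/-- the height of `z + a`, `|a| ≤ K` -/
theorem AlgB.shift {d W K : ℕ} (hK : 1 ≤ K) {z : ℂ} {a : ℤ} (ha : |a| ≤ K) (h : AlgB d W (z - a)) :
    AlgB d ((d + 1) * 2 ^ d * (W * K ^ d)) z := by
  obtain ⟨p, hp0, hpd, hpc, hp⟩ := h
  refine ⟨Polynomial.taylor (-a) p, ?_, ?_, fun j => ?_, ?_⟩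
  · intro h
    apply hp0
    exact (Polynomial.taylor_injective (-a)) (by rw [h, map_zero])
  · rw [Polynomial.natDegree_taylor]
    exact hpd
  · have hKr : (1 : ℝ) ≤ K := by exact_mod_cast hK
    have h1 := taylor_bound p (K : ℝ) (-a) hKr (by
      rw [Int.cast_neg, abs_neg]
      exact_mod_cast ha) j
    have h2 : ∑ i ∈ range (p.natDegree + 1), |((p.coeff i : ℤ) : ℝ)| * 2 ^ i ≤ (d + 1) * (W * 2 ^ d) := by
      calc ∑ i ∈ range (p.natDegree + 1), |((p.coeff i : ℤ) : ℝ)| * 2 ^ i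
          ≤ ∑ i ∈ range (p.natDegree + 1), (W : ℝ) * 2 ^ d := by
            refine sum_le_sum fun i hi => ?_
            rw [mem_range] at hi
            have h3 : |((p.coeff i : ℤ) : ℝ)| ≤ W := by exact_mod_cast hpc i
            have h4 : (2 : ℝ) ^ i ≤ 2 ^ d := pow_le_pow_right₀ (by norm_num) (by omega)
            gcongr
        _ = (p.natDegree + 1 : ℕ) * ((W : ℝ) * 2 ^ d) := by
            rw [sum_const, card_range, nsmul_eq_mul]
        _ ≤ (d + 1) * (W * 2 ^ d) := by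
            have : ((p.natDegree + 1 : ℕ) : ℝ) ≤ d + 1 := by exact_mod_cast Nat.add_le_add_right hpd 1
            gcongr
    have h5 : (K : ℝ) ^ p.natDegree ≤ (K : ℝ) ^ d := pow_le_pow_right₀ hKr hpd
    have h6 : |(((Polynomial.taylor (-a) p).coeff j : ℤ) : ℝ)| ≤ (d + 1) * (W * 2 ^ d) * (K : ℝ) ^ d := by
      refine h1.trans ?_
      gcongr
    have h7 : ((|(Polynomial.taylor (-a) p).coeff j| : ℤ) : ℝ) ≤ (((d + 1) * 2 ^ d * (W * K ^ d) : ℕ) : ℝ) := by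
      push_cast
      calc _ ≤ _ := h6
        _ = _ := by ring
    exact_mod_cast h7
  · rw [Polynomial.taylor_apply, Polynomial.aeval_comp]
    have : Polynomial.aeval z (Polynomial.X + Polynomial.C (-a) : Polynomial ℤ) = z - a := by
      simp [sub_eq_add_neg]
    rw [this, hp]

/-- the numbers `z` for which `z - m` has degree at most `d` and height at most `W` -/
def near (d W m : ℕ) : Set ℂ := {z | AlgB d W (z - m)}

/-- `Q` holds for the numbers near `t`, up to `B` of them -/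
def WinB (d : ℕ) (Q : Set ℂ → Prop) : Prop :=
  ∃ E B : ℕ, ∀ H t : ℕ, (H + 2) ^ E ≤ t → ∃ S : Finset ℂ, S.card ≤ B ∧ Q {z | z ∈ near d H t ∧ z ∉ S}

theorem beta_count (d : ℕ) (Q : Set ℂ → Prop) (hmono : ∀ S S' : Set ℂ, S ⊆ S' → Q S' → Q S) (hQ : WinB d Q) :
    ∃ c : ℝ, 0 < c ∧ c ≤ 1 / 4 ∧ ∃ C : ℝ, 0 ≤ C ∧ ∃ Y₀ : ℝ, ∀ W Y : ℕ, Y₀ ≤ Y → 1 ≤ Y → (W : ℝ) ≤ (Y : ℝ) ^ c →
      cn (fun m => ¬ Q (near d W m)) Y ≤ C * ((W : ℝ) + 1) * (Y : ℝ) ^ (1 - c) := by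
  classical
  obtain ⟨E, B, hE⟩ := hQ
  set D : ℕ := (d + 1) * 2 ^ d + 2 with hD
  set c : ℝ := 1 / (4 * (((d : ℝ) + 1) * ((E : ℝ) + 1))) with hc
  have hc0 : 0 < c := by positivity
  have hc4 : c ≤ 1 / 4 := by
    rw [hc]
    apply one_div_le_one_div_of_le (by norm_num)
    have : (1 : ℝ) ≤ ((d : ℝ) + 1) * ((E : ℝ) + 1) := by
      have h1 : (0 : ℝ) ≤ d := Nat.cast_nonneg d
      have h2 : (0 : ℝ) ≤ E := Nat.cast_nonneg E
      nlinarith
    linarith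
  have hr : Tendsto (fun x : ℝ => x ^ ((1 : ℝ) / 4)) atTop atTop := tendsto_rpow_atTop (by norm_num)
  have hr2 : Tendsto (fun x : ℝ => x ^ c) atTop atTop := tendsto_rpow_atTop hc0
  obtain ⟨Y₁, hY₁⟩ := eventually_atTop.1 (hr.eventually_ge_atTop ((D : ℝ) ^ E))
  obtain ⟨Y₂, hY₂⟩ := eventually_atTop.1 (hr2.eventually_ge_atTop 2)
  refine ⟨c, hc0, hc4, 2 + 3 * (B * 2), by positivity, max Y₁ Y₂, fun W Y hY0 hY hW => ?_⟩
  have hYr : (1 : ℝ) ≤ Y := by exact_mod_cast hY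
  have hYp : (0 : ℝ) < Y := by linarith
  have h1 := hY₁ Y ((le_max_left _ _).trans hY0)
  have h2 := hY₂ Y ((le_max_right _ _).trans hY0)
  set K : ℕ := ⌊(Y : ℝ) ^ c⌋₊ with hK
  have hK1 : (K : ℝ) ≤ (Y : ℝ) ^ c := Nat.floor_le (by positivity)
  have hK2 : (Y : ℝ) ^ c < K + 1 := Nat.lt_floor_add_one _
  have hKpos : 1 ≤ K := by
    have : (1 : ℝ) < K + 1 := by linarith
    have h3 : (0 : ℝ) < K := by linarith
    exact_mod_cast h3
  set s : ℕ := ⌈(Y : ℝ) ^ ((1 : ℝ) / 2)⌉₊ with hs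
  have hs1 : (Y : ℝ) ^ ((1 : ℝ) / 2) ≤ s := Nat.le_ceil _
  have hs2 : (s : ℝ) < (Y : ℝ) ^ ((1 : ℝ) / 2) + 1 := Nat.ceil_lt_add_one (by positivity)
  set H : ℕ := (d + 1) * 2 ^ d * (W * K ^ d) with hH
  -- the size of `H`
  have hHE : ((H : ℝ) + 2) ^ E ≤ (Y : ℝ) ^ ((1 : ℝ) / 2) := by
    have h3 : (1 : ℝ) ≤ (Y : ℝ) ^ c := by linarith
    have h4 : (H : ℝ) ≤ ((d : ℝ) + 1) * 2 ^ d * ((Y : ℝ) ^ c) ^ (d + 1) := by
      rw [hH]
      push_cast
      have h5 : (W : ℝ) * (K : ℝ) ^ d ≤ (Y : ℝ) ^ c * ((Y : ℝ) ^ c) ^ d := by gcongr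
      calc ((d : ℝ) + 1) * 2 ^ d * (W * (K : ℝ) ^ d) ≤ ((d : ℝ) + 1) * 2 ^ d * ((Y : ℝ) ^ c * ((Y : ℝ) ^ c) ^ d) := by gcongr
        _ = ((d : ℝ) + 1) * 2 ^ d * ((Y : ℝ) ^ c) ^ (d + 1) := by ring
    have h5 : (H : ℝ) + 2 ≤ D * ((Y : ℝ) ^ c) ^ (d + 1) := by
      have h6 : (1 : ℝ) ≤ ((Y : ℝ) ^ c) ^ (d + 1) := one_le_pow₀ h3
      rw [hD]
      push_cast
      nlinarith
    calc ((H : ℝ) + 2) ^ E ≤ (D * ((Y : ℝ) ^ c) ^ (d + 1)) ^ E := by gcongr
      _ = (D : ℝ) ^ E * (Y : ℝ) ^ (c * ((d + 1 : ℕ) * (E : ℕ) : ℕ)) := by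
          rw [mul_pow, ← pow_mul, ← Real.rpow_natCast ((Y : ℝ) ^ c), ← Real.rpow_mul hYp.le]
      _ ≤ (Y : ℝ) ^ ((1 : ℝ) / 4) * (Y : ℝ) ^ ((1 : ℝ) / 4) := by
          refine mul_le_mul h1 (Real.rpow_le_rpow_of_exponent_le hYr ?_) (by positivity) (by positivity)
          rw [hc]
          push_cast
          rw [one_div, inv_mul_le_iff₀ (by positivity)]
          have h7 : (0 : ℝ) ≤ d := Nat.cast_nonneg d
          nlinarith
      _ = (Y : ℝ) ^ ((1 : ℝ) / 2) := by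
          rw [← Real.rpow_add hYp]
          norm_num
  -- the windows
  have hwin : ∀ j : ℕ, ∃ S : Finset ℂ, S.card ≤ B ∧ Q {z | z ∈ near d H (s + j * K) ∧ z ∉ S} := by
    intro j
    refine hE H (s + j * K) ?_
    have h3 : ((H + 2 : ℕ) : ℝ) ^ E ≤ ((s + j * K : ℕ) : ℝ) := by
      push_cast
      have h4 : (0 : ℝ) ≤ (j : ℝ) * K := by positivity
      linarith
    exact_mod_cast h3
  choose S hS hQS using hwin
  -- the bad centres
  have hcov : (Icc 1 Y).filter (fun m => ¬ Q (near d W m)) ⊆ Icc 1 s ∪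
      (range (Y / K + 1)).biUnion fun j => (S j).biUnion fun z => (Icc 1 Y).filter fun m => z ∈ near d W m := by
    intro m hm
    rw [mem_filter] at hm
    obtain ⟨hm1, hm3⟩ := hm
    have hm2 := mem_Icc.1 hm1
    rw [mem_union]
    by_cases hms : m ≤ s
    · exact Or.inl (mem_Icc.2 ⟨hm2.1, hms⟩)
    · right
      push Not at hms
      set j := (m - s) / K with hj
      have hj1 : j * K ≤ m - s := Nat.div_mul_le_self _ _
      have hj2 : m - s < j * K + K := Nat.lt_div_mul_add (a := m - s) (by omega)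
      have hjY : j < Y / K + 1 := by
        have : j ≤ Y / K := Nat.div_le_div_right (by omega)
        omega
      rw [mem_biUnion]
      refine ⟨j, mem_range.2 hjY, ?_⟩
      by_contra hno
      apply hm3
      refine hmono _ _ ?_ (hQS j)
      intro z hz
      refine ⟨?_, fun hzS => hno ?_⟩
      · have h3 : AlgB d W ((z - ((s + j * K : ℕ) : ℂ)) - (((m : ℤ) - ((s + j * K : ℕ) : ℤ) : ℤ) : ℂ)) := by
          have e : (z - ((s + j * K : ℕ) : ℂ)) - (((m : ℤ) - ((s + j * K : ℕ) : ℤ) : ℤ) : ℂ) = z - m := by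
            push_cast
            ring
          rw [e]
          exact hz
        exact AlgB.shift hKpos (by
          rw [abs_of_nonneg (by
            have : s + j * K ≤ m := by omega
            push_cast
            omega)]
          push_cast
          omega) h3
      · rw [mem_biUnion]
        exact ⟨z, hzS, mem_filter.2 ⟨hm1, hz⟩⟩
  have hone : ∀ z : ℂ, ((Icc 1 Y).filter fun m => z ∈ near d W m).card ≤ 2 * W + 2 := by
    intro z
    rcases ((Icc 1 Y).filter fun m => z ∈ near d W m).eq_empty_or_nonempty with h | h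
    · rw [h, card_empty]
      omega
    · obtain ⟨a, ha, hmin⟩ := exists_min_image _ id h
      have hsub : ((Icc 1 Y).filter fun m => z ∈ near d W m) ⊆ Ico a (a + (2 * W + 2)) := by
        intro m hm
        have h3 := hmin m hm
        rw [mem_filter] at ha hm
        have h4 : ‖z - m‖ < W + 1 := AlgB.norm_lt hm.2
        have h5 : ‖z - a‖ < W + 1 := AlgB.norm_lt ha.2
        have h6 : ‖((m : ℂ) - a)‖ < 2 * W + 2 := by
          calc ‖((m : ℂ) - a)‖ = ‖(z - a) - (z - m)‖ := by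
                congr 1
                ring
            _ ≤ ‖z - a‖ + ‖z - m‖ := norm_sub_le _ _
            _ < _ := by linarith
        have h7 : ‖((m : ℂ) - a)‖ = (m : ℝ) - a := by
          have h8 : ((m : ℂ) - a) = (((m : ℝ) - a : ℝ) : ℂ) := by push_cast; rfl
          rw [h8, Complex.norm_real, Real.norm_eq_abs, abs_of_nonneg]
          have : (a : ℝ) ≤ m := by exact_mod_cast h3
          linarith
        rw [h7] at h6
        have h8 : (m : ℝ) < ((a + (2 * W + 2) : ℕ) : ℝ) := by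
          push_cast
          linarith
        exact mem_Ico.2 ⟨h3, by exact_mod_cast h8⟩
      refine (card_le_card hsub).trans ?_
      rw [Nat.card_Ico]
      omega
  have h3 : ((Icc 1 Y).filter (fun m => ¬ Q (near d W m))).card ≤ s + (Y / K + 1) * (B * (2 * W + 2)) := by
    refine (card_le_card hcov).trans ((card_union_le _ _).trans (Nat.add_le_add ?_ ?_))
    · rw [Nat.card_Icc]
      omega
    · refine (card_biUnion_le_card_mul _ _ (B * (2 * W + 2)) fun j _ => ?_).trans (by rw [card_range])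
      exact (card_biUnion_le_card_mul _ _ (2 * W + 2) fun z _ => hone z).trans (Nat.mul_le_mul_right _ (hS j))
  rw [cn_eq']
  have h4 : (((Icc 1 Y).filter (fun m => ¬ Q (near d W m))).card : ℝ) ≤
      s + ((Y / K : ℕ) + 1) * (B * (2 * W + 2)) := by exact_mod_cast h3
  refine h4.trans ?_
  set p : ℝ := (Y : ℝ) ^ (1 - c) with hp
  have hp1 : (1 : ℝ) ≤ p := by
    have h3 : (Y : ℝ) ^ (0 : ℝ) ≤ (Y : ℝ) ^ (1 - c) := Real.rpow_le_rpow_of_exponent_le hYr (by linarith)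
    rwa [Real.rpow_zero] at h3
  have hp2 : (Y : ℝ) ^ ((1 : ℝ) / 2) ≤ p := Real.rpow_le_rpow_of_exponent_le hYr (by linarith)
  have hYK : ((Y / K : ℕ) : ℝ) ≤ 2 * p := by
    have h5 : ((Y / K : ℕ) : ℝ) ≤ (Y : ℝ) / K := Nat.cast_div_le
    have h6 : (Y : ℝ) ^ c ≤ 2 * K := by
      have : (1 : ℝ) ≤ K := by exact_mod_cast hKpos
      linarith
    have h7 : (Y : ℝ) / K ≤ Y / ((Y : ℝ) ^ c / 2) := by
      have : (Y : ℝ) ^ c / 2 ≤ K := by linarith
      gcongr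
    have h8 : (Y : ℝ) / ((Y : ℝ) ^ c / 2) = 2 * p := by
      rw [hp, Real.rpow_sub hYp, Real.rpow_one]
      field_simp
    linarith
  have hW0 : (0 : ℝ) ≤ W := Nat.cast_nonneg W
  have hB0 : (0 : ℝ) ≤ B := Nat.cast_nonneg B
  have e1 : (s : ℝ) ≤ 2 * p := by linarith
  have e2 : (((Y / K : ℕ) : ℝ) + 1) * (B * (2 * W + 2)) ≤ (3 * p) * (B * (2 * W + 2)) := by
    have : ((Y / K : ℕ) : ℝ) + 1 ≤ 3 * p := by linarith
    gcongr
  have e3 : (2 : ℝ) * p ≤ 2 * (W + 1) * p := by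
    have : (1 : ℝ) ≤ W + 1 := by linarith
    nlinarith
  calc (s : ℝ) + (((Y / K : ℕ) : ℝ) + 1) * (B * (2 * W + 2)) ≤ 2 * (W + 1) * p + (3 * p) * (B * (2 * W + 2)) := by linarith
    _ = (2 + 3 * (B * 2)) * ((W : ℝ) + 1) * p := by ring

open Classical in
/-- the number of the `1 ≤ n ≤ N` such that `Q` fails for the set of the numbers `z` for which `z - ⌊α P(n)⌋` has degree at
most `d` and height at most `W` -/
noncomputable def badB (Q : Set ℂ → Prop) (d W : ℕ) (α : ℝ) (P : Polynomial ℤ) (N : ℕ) : ℕ :=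
  ((Icc 1 N).filter fun n : ℕ => ¬ Q {z : ℂ | AlgB d W (z - (⌊α * ((P.eval (n : ℤ) : ℤ) : ℝ)⌋₊ : ℕ))}).card

theorem badB_eq (Q : Set ℂ → Prop) (d W : ℕ) (α : ℝ) (P : Polynomial ℤ) (N : ℕ) :
    (badB Q d W α P N : ℝ) = cnP (fun m => ¬ Q (near d W m)) α P N := by
  classical
  unfold badB cnP cn
  refine congrArg _ (congrArg _ ?_)
  ext n
  simp only [mem_filter]
  rfl

/-- **algebraic numbers near `⌊α P(n)⌋`, all tuples at once** -/
theorem win_beta {ι : Type} [Countable ι] (q : ℕ) (hq : 2 ≤ q) (Q : ι → Set ℂ → Prop)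
    (hmono : ∀ i (S S' : Set ℂ), S ⊆ S' → Q i S' → Q i S) :
    ∃ E : Set ℝ, dimH E ≤ ENNReal.ofReal (q / (q + 1 / ((q : ℝ) * 2 ^ (q - 1)))) ∧ ∀ α : ℝ, 0 < α → α ∉ E →
      ∃ η : ℝ, 0 < η ∧ ∀ (i : ι) (d : ℕ), WinB d (Q i) →
      ∃ κ : ℝ, 0 < κ ∧ ∀ᶠ N : ℕ in atTop,
      ∀ P : Polynomial ℤ, P.natDegree = q → 0 < P.leadingCoeff → (∀ j, |((P.coeff j : ℤ) : ℝ)| ≤ (N : ℝ) ^ η) →
      (badB (Q i) d ⌊(N : ℝ) ^ κ⌋₊ α P N : ℝ) ≤ (N : ℝ) ^ (1 - κ) := by
  classical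
  obtain ⟨f, hf⟩ := exists_injective_nat (ι × ℕ)
  obtain ⟨E, hE, hg⟩ := exc_fam2 q hq (ι := ℕ × ℕ) (fun iW m => ∃ j : ι × ℕ, f j = iW.1 ∧ ¬ Q j.1 (near j.2 iW.2 m)) 3
    (by norm_num) Sc sc_mono sc_card
  refine ⟨E, hE, fun α hα hαE => ?_⟩
  obtain ⟨η, hη, hη4, h1⟩ := hg α hα hαE
  refine ⟨η, hη, fun i d hQ => ?_⟩
  obtain ⟨c, hc, hc4, C, hC, Y₀, hY₀⟩ := beta_count d (Q i) (hmono i) hQ
  obtain ⟨κ, hκ, hκη, h2⟩ := h1 (2 * C) c hc
  set κ' : ℝ := min (κ / 2) (c / 2) with hκ'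
  have hκ'0 : 0 < κ' := lt_min (by positivity) (by positivity)
  have hκ'1 : κ' ≤ κ / 2 := min_le_left _ _
  have hκ'2 : κ' ≤ c / 2 := min_le_right _ _
  refine ⟨κ', hκ'0, ?_⟩
  have hr : ∀ s : ℝ, 0 < s → Tendsto (fun N : ℕ => (N : ℝ) ^ s) atTop atTop := fun s hs =>
    (tendsto_rpow_atTop hs).comp tendsto_natCast_atTop_atTop
  filter_upwards [h2, (hr η hη).eventually_ge_atTop (f (i, d) : ℝ), eventually_ge_atTop 1,
    (hr (1 / 2) (by norm_num)).eventually_ge_atTop Y₀] with N hN hfi hN1 hNY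
  intro P hdeg hlead hco
  have hNr : (1 : ℝ) ≤ N := by exact_mod_cast hN1
  have hN0 : (0 : ℝ) < N := by linarith
  have hmon : ∀ {a b : ℝ}, a ≤ b → (N : ℝ) ^ a ≤ (N : ℝ) ^ b := fun h => Real.rpow_le_rpow_of_exponent_le hNr h
  set W : ℕ := ⌊(N : ℝ) ^ κ'⌋₊ with hW
  have hW1 : (W : ℝ) ≤ (N : ℝ) ^ κ' := Nat.floor_le (by positivity)
  have hWη : (W : ℝ) ≤ (N : ℝ) ^ η := hW1.trans (hmon (by linarith))
  have hmem : ((f (i, d), W) : ℕ × ℕ) ∈ Sc η N := by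
    unfold Sc
    rw [mem_product, mem_range, mem_range]
    constructor
    · have := Nat.le_floor hfi
      show f (i, d) < _
      omega
    · have := Nat.le_floor hWη
      show W < _
      omega
  have hX : (fun m => ∃ j : ι × ℕ, f j = f (i, d) ∧ ¬ Q j.1 (near j.2 W m)) = fun m => ¬ Q i (near d W m) := by
    funext m
    refine propext ⟨?_, fun h => ⟨(i, d), rfl, h⟩⟩
    rintro ⟨j, h, h'⟩
    rwa [hf h] at h'
  have h3 := hN (f (i, d), W) hmem (by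
    intro Y hY1 hY2
    show cn (fun m => ∃ j : ι × ℕ, f j = f (i, d) ∧ ¬ Q j.1 (near j.2 W m)) Y ≤ _
    rw [hX]
    have hYr : (1 : ℝ) ≤ Y := by
      have h4 : (1 : ℝ) ≤ (N : ℝ) ^ ((1 : ℝ) / 2) := by
        have h5 := hmon (a := 0) (b := (1 : ℝ) / 2) (by norm_num)
        rwa [Real.rpow_zero] at h5
      linarith
    have hYn : 1 ≤ Y := by exact_mod_cast hYr
    have h4 := hY₀ W Y (hNY.trans hY1.le) hYn (by
      have h5 : ((N : ℝ) ^ ((1 : ℝ) / 2)) ^ c = (N : ℝ) ^ (c / 2) := by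
        rw [← Real.rpow_mul hN0.le]
        congr 1
        ring
      have h6 : (N : ℝ) ^ (c / 2) ≤ (Y : ℝ) ^ c := by
        rw [← h5]
        exact Real.rpow_le_rpow (by positivity) hY1.le hc.le
      exact (hW1.trans (hmon hκ'2)).trans h6)
    refine h4.trans ?_
    have h5 : (0 : ℝ) ≤ (Y : ℝ) ^ (1 - c) := by positivity
    have h6 : (W : ℝ) + 1 ≤ 2 * (N : ℝ) ^ κ := by
      have h7 : (W : ℝ) ≤ (N : ℝ) ^ κ := hW1.trans (hmon (by linarith))
      have h8 : (1 : ℝ) ≤ (N : ℝ) ^ κ := by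
        have h5 := hmon (a := 0) (b := κ) hκ.le
        rwa [Real.rpow_zero] at h5
      linarith
    calc C * ((W : ℝ) + 1) * (Y : ℝ) ^ (1 - c) ≤ C * (2 * (N : ℝ) ^ κ) * (Y : ℝ) ^ (1 - c) := by gcongr
      _ = 2 * C * (N : ℝ) ^ κ * (Y : ℝ) ^ (1 - c) := by ring) P hdeg hlead hco
  rw [badB_eq, ← hX]
  exact h3.trans (hmon (by linarith))

end Pool.Agent.Q138.PS
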