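import Mathlib

set_option autoImplicit false

/-!
# Finite sets of lattice points near the points `(α_j Y_j)`, for almost all `α`
-/

namespace Pool.Agent.Q138.PS

open Finset MeasureTheory Filter Topology

/-- Let `B a` be finite sets of lattice points with `∑_a |B a| ∏_j 2 W_a / Y_{a, j} < ∞`. For almost all `α` and all large
`a` no point of `B a` has distance at most `W a`, in every coordinate, from `(α_j Y_{a, j})`. -/
theorem shapes_ae {ι : Type} [Fintype ι] (B : ℕ → Finset (ι → ℤ)) (Y : ℕ → ι → ℝ) (W : ℕ → ℝ) (hY : ∀ a j, 0 < Y a j)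
    (hW : ∀ a, 0 ≤ W a) (hs : Summable fun a => ((B a).card : ℝ) * ∏ j, (2 * W a / Y a j)) :
    ∀ᵐ α : ι → ℝ, ∀ᶠ a in atTop, ∀ b ∈ B a, ¬ ∀ j, |(b j : ℝ) - α j * Y a j| ≤ W a := by
  have hmeas : ∀ a, volume {α : ι → ℝ | ∃ b ∈ B a, ∀ j, |(b j : ℝ) - α j * Y a j| ≤ W a} ≤
      ENNReal.ofReal (((B a).card : ℝ) * ∏ j, (2 * W a / Y a j)) := by
    intro a
    have hsub : {α : ι → ℝ | ∃ b ∈ B a, ∀ j, |(b j : ℝ) - α j * Y a j| ≤ W a} ⊆
        ⋃ b ∈ B a, Set.Icc (fun j => ((b j : ℝ) - W a) / Y a j) (fun j => ((b j : ℝ) + W a) / Y a j) := by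
      rintro α ⟨b, hb, h⟩
      rw [Set.mem_iUnion₂]
      refine ⟨b, hb, fun j => ?_, fun j => ?_⟩
      · show ((b j : ℝ) - W a) / Y a j ≤ α j
        rw [div_le_iff₀ (hY a j)]
        have h1 := abs_le.1 (h j)
        linarith
      · show α j ≤ ((b j : ℝ) + W a) / Y a j
        rw [le_div_iff₀ (hY a j)]
        have h1 := abs_le.1 (h j)
        linarith
    refine (measure_mono hsub).trans ((measure_biUnion_finset_le _ _).trans ?_)
    have h1 : ∀ b ∈ B a, volume (Set.Icc (fun j => ((b j : ℝ) - W a) / Y a j) (fun j => ((b j : ℝ) + W a) / Y a j)) =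
        ENNReal.ofReal (∏ j, (2 * W a / Y a j)) := by
      intro b _
      rw [Real.volume_Icc_pi, ENNReal.ofReal_prod_of_nonneg fun j _ => by
        have := hY a j
        have := hW a
        positivity]
      refine prod_congr rfl fun j _ => ?_
      congr 1
      rw [← sub_div]
      congr 1
      ring
    rw [sum_congr rfl h1, sum_const, nsmul_eq_mul, ENNReal.ofReal_mul (Nat.cast_nonneg _), ENNReal.ofReal_natCast]
  have h1 := ae_eventually_notMem (μ := (volume : Measure (ι → ℝ)))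
    (s := fun a => {α : ι → ℝ | ∃ b ∈ B a, ∀ j, |(b j : ℝ) - α j * Y a j| ≤ W a}) (by
      refine ne_top_of_le_ne_top ?_ (ENNReal.tsum_le_tsum hmeas)
      rw [← ENNReal.ofReal_tsum_of_nonneg (fun a => ?_) hs]
      · exact ENNReal.ofReal_ne_top
      · refine mul_nonneg (Nat.cast_nonneg _) (prod_nonneg fun j _ => ?_)
        have := hY a j
        have := hW a
        positivity)
  filter_upwards [h1] with α hα
  filter_upwards [hα] with a ha
  intro b hb h
  exact ha ⟨b, hb, h⟩

end Pool.Agent.Q138.PS
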