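import Pool.Agent.Q219.NS.Count
import Pool.Agent.Q219.NS.Defs
import Pool.Agent.Q138.PS.VP

set_option autoImplicit false

/-!
# Families of Weil polynomials near a given real shape
-/

namespace Pool.Agent.Q138.PS

open Polynomial Filter MeasureTheory Pool.Agent.W518.DN Pool.Agent.W518.TC Pool.Agent.Q219.NS

/-- `⌈a (s_0 + … + s_(k - 1))⌉` -/
noncomputable def slopeExp {g : ℕ} (s : Fin g → ℚ) (a k : ℕ) : ℕ :=
  ⌈(a : ℚ) * ∑ j ∈ Finset.univ.filter (fun j : Fin g => (j : ℕ) < k), s j⌉₊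

/-- `F i = x ^ (g i) * h i (x + q / x)`, `q = p ^ a`, for monic integral polynomials `h i` of degree `g i`, and the
coefficient of `h i` at `x ^ t` has distance at most `q ^ η * p ^ E` from `α (i, t) * q ^ ((g i - t) / 2)`, where
`E = ⌈a (s_(i, 0) + … + s_(i, g i - t - 1))⌉`. -/
def NearShape {κ : Type} (g : κ → ℕ) (s : ∀ i, Fin (g i) → ℚ) (p a : ℕ) (η : ℝ) (α : (Σ i, Fin (g i)) → ℝ)
    (F : κ → ℤ[X]) : Prop :=
  ∃ h : κ → ℤ[X], (∀ i, (h i).Monic ∧ (h i).natDegree = g i ∧ F i = lift ((p ^ a : ℕ) : ℤ) (g i) (h i)) ∧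
    ∀ j : Σ i, Fin (g i), |(((h j.1).coeff j.2 : ℤ) : ℝ) - α j * √((p ^ a : ℕ) : ℝ) ^ (g j.1 - (j.2 : ℕ))| ≤
      ((p ^ a : ℕ) : ℝ) ^ η * (p : ℝ) ^ slopeExp (s j.1) a (g j.1 - (j.2 : ℕ))

theorem NearShape.mono {κ : Type} {g : κ → ℕ} {s : ∀ i, Fin (g i) → ℚ} {p a : ℕ} (hp : 1 ≤ p) {η η' : ℝ} (hη : η ≤ η')
    {α : (Σ i, Fin (g i)) → ℝ} {F : κ → ℤ[X]} (h : NearShape g s p a η α F) : NearShape g s p a η' α F := by
  obtain ⟨h, h1, h2⟩ := h
  refine ⟨h, h1, fun j => (h2 j).trans ?_⟩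
  have h3 : (1 : ℝ) ≤ ((p ^ a : ℕ) : ℝ) := by exact_mod_cast Nat.one_le_pow _ _ hp
  have h4 : ((p ^ a : ℕ) : ℝ) ^ η ≤ ((p ^ a : ℕ) : ℝ) ^ η' := Real.rpow_le_rpow_of_exponent_le h3 hη
  gcongr

theorem slopeExp_eq {g : ℕ} (s : Fin g → ℚ) (a k : ℕ) (hk : k ≤ g) : slopeExp s a k = sk a (extS s) k := by
  unfold slopeExp sk
  congr 2
  unfold Ssum
  rw [Finset.sum_filter]
  have h1 : ∀ j : Fin g, (if (j : ℕ) < k then s j else 0) = (fun l : ℕ => if l < k then extS s l else 0) j := by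
    intro j
    have h2 : extS s (j : ℕ) = s j := by
      unfold extS
      rw [dif_pos j.2]
    simp only [h2]
  rw [Finset.sum_congr rfl fun j _ => h1 j, Fin.sum_univ_eq_sum_range (fun l : ℕ => if l < k then extS s l else 0) g,
    ← Finset.sum_filter]
  refine Finset.sum_congr ?_ fun _ _ => rfl
  ext l
  rw [Finset.mem_filter, Finset.mem_range, Finset.mem_range]
  constructor
  · exact fun h => h.2
  · exact fun h => ⟨by omega, h⟩

section

variable {κ : Type} [Fintype κ] (g : κ → ℕ) (s : ∀ i, Fin (g i) → ℚ) (p : ℕ) [hp : Fact p.Prime]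

omit [Fintype κ] in
theorem Ysz_pos (a : ℕ) (j : Σ i, Fin (g i)) : 0 < Ysz g s p a j := by
  have h1 : (0 : ℝ) < p := by exact_mod_cast hp.out.pos
  have h2 : (0 : ℝ) < ((p ^ a : ℕ) : ℝ) := by exact_mod_cast pow_pos hp.out.pos a
  unfold Ysz
  positivity

/-- the size of a stratum -/
theorem strat_card (hs : ∀ i, IsPolygon (s i)) {a : ℕ} (ha : 0 < a) (hY : ∀ j, 1 ≤ Ysz g s p a j) :
    ((NewtonStratum g s p a).ncard : ℝ) ≤ (∏ j : (Σ i, Fin (g i)), (2 * 4 ^ g j.1 + 1 : ℝ)) * ∏ j, Ysz g s p a j := by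
  classical
  have hs' : ∀ i, IsNewton (s i) := fun i => ⟨(hs i).mono, (hs i).nonneg, (hs i).le_half, (hs i).integral⟩
  have h1 : (NewtonStratum g s p a).ncard ≤
      (Fintype.piFinset fun j => Finset.Icc (-(box2 g s p a j : ℤ)) (box2 g s p a j)).card := by
    have h2 : NewtonStratum g s p a ⊆ Psi g s p a ''
        ((Fintype.piFinset fun j => Finset.Icc (-(box2 g s p a j : ℤ)) (box2 g s p a j) : Finset _) : Set _) := by
      intro P hP
      obtain ⟨b, hb, e⟩ := exists_of_mem_Stratum g s p ha hs' (P := P) hP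
      exact ⟨b, hb, e.symm⟩
    refine (Set.ncard_le_ncard h2 ((Finset.finite_toSet _).image _)).trans ?_
    refine (Set.ncard_image_le (Finset.finite_toSet _)).trans ?_
    rw [Set.ncard_coe_finset]
  have h2 : ((Fintype.piFinset fun j => Finset.Icc (-(box2 g s p a j : ℤ)) (box2 g s p a j)).card : ℝ) =
      ∏ j, (2 * (box2 g s p a j : ℝ) + 1) := by
    rw [Fintype.card_piFinset]
    push_cast
    refine Finset.prod_congr rfl fun j _ => ?_
    rw [Int.card_Icc]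
    have : ((box2 g s p a j : ℤ) + 1 - -(box2 g s p a j : ℤ)).toNat = 2 * box2 g s p a j + 1 := by omega
    rw [this]
    push_cast
    ring
  have h3 : ((NewtonStratum g s p a).ncard : ℝ) ≤ ∏ j, (2 * (box2 g s p a j : ℝ) + 1) := by
    rw [← h2]
    exact_mod_cast h1
  refine h3.trans ?_
  rw [← Finset.prod_mul_distrib]
  refine Finset.prod_le_prod (fun j _ => by positivity) fun j _ => ?_
  have hYj := Ysz_pos g s p a j
  have h4 : (box2 g s p a j : ℝ) ≤ 4 ^ g j.1 * Ysz g s p a j := by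
    refine (Nat.floor_le (by positivity)).trans ?_
    refine mul_le_mul_of_nonneg_right ?_ hYj.le
    have h5 : (2 : ℝ) ^ (g j.1 - (j.2 : ℕ)) ≤ 2 ^ g j.1 := pow_le_pow_right₀ (by norm_num) (Nat.sub_le _ _)
    have h6 : ((g j.1).choose j.2 : ℝ) ≤ 2 ^ g j.1 := by exact_mod_cast Nat.choose_le_two_pow _ _
    calc _ ≤ (2 : ℝ) ^ g j.1 * 2 ^ g j.1 := mul_le_mul h5 h6 (by positivity) (by positivity)
      _ = 4 ^ g j.1 := by rw [← mul_pow]; norm_num
  have h5 := hY j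
  calc 2 * (box2 g s p a j : ℝ) + 1 ≤ 2 * (4 ^ g j.1 * Ysz g s p a j) + Ysz g s p a j := by linarith
    _ = (2 * 4 ^ g j.1 + 1) * Ysz g s p a j := by ring

/-- the scaled coefficients of the members of a stratum near a shape -/
theorem near_coord (hs : ∀ i, IsPolygon (s i)) {a : ℕ} (ha : 0 < a) {η : ℝ} {α : (Σ i, Fin (g i)) → ℝ} {F : κ → ℤ[X]}
    (hF : F ∈ NewtonStratum g s p a) (hN : NearShape g s p a η α F) [DecidableEq κ] :
    ∃ b ∈ Fintype.piFinset fun j => Finset.Icc (-(box2 g s p a j : ℤ)) (box2 g s p a j),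
      F = Psi g s p a b ∧ ∀ j, |(b j : ℝ) - α j * Ysz g s p a j| ≤ ((p ^ a : ℕ) : ℝ) ^ η := by
  have hs' : ∀ i, IsNewton (s i) := fun i => ⟨(hs i).mono, (hs i).nonneg, (hs i).le_half, (hs i).integral⟩
  obtain ⟨b, hb, e⟩ := exists_of_mem_Stratum g s p ha hs' (P := F) hF
  obtain ⟨h, h1, h2⟩ := hN
  refine ⟨b, hb, e, fun j => ?_⟩
  obtain ⟨i, t⟩ := j
  have h3 : h i = hTup g (fun j => (p : ℤ) ^ Eexp g s a j * b j) i := by
    have h4 := congrFun e i
    rw [(h1 i).2.2] at h4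
    exact lift_inj (pow_ne_zero a hp.out.ne_zero) (h1 i).2.1.le (hp_natDegree _).le h4
  have h4 : (h i).coeff t = (p : ℤ) ^ Eexp g s a ⟨i, t⟩ * b ⟨i, t⟩ := by
    rw [h3]
    exact hp_coeff _ t
  have h5 := h2 ⟨i, t⟩
  have hE : slopeExp (s i) a (g i - (t : ℕ)) = Eexp g s a ⟨i, t⟩ := slopeExp_eq _ _ _ (Nat.sub_le _ _)
  simp only [h4, hE] at h5
  have hpE : (0 : ℝ) < (p : ℝ) ^ Eexp g s a ⟨i, t⟩ := by
    have : 0 < p := hp.out.pos
    positivity
  have h6 : (((p : ℤ) ^ Eexp g s a ⟨i, t⟩ * b ⟨i, t⟩ : ℤ) : ℝ) - α ⟨i, t⟩ * √((p ^ a : ℕ) : ℝ) ^ (g i - (t : ℕ)) =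
      (p : ℝ) ^ Eexp g s a ⟨i, t⟩ * ((b ⟨i, t⟩ : ℝ) - α ⟨i, t⟩ * Ysz g s p a ⟨i, t⟩) := by
    unfold Ysz
    push_cast
    field_simp
  rw [h6, abs_mul, abs_of_pos hpE, mul_comm (((p ^ a : ℕ) : ℝ) ^ η)] at h5
  exact le_of_mul_le_mul_left h5 hpE

/-- **almost all shapes** -/
theorem strata_ae (hs : ∀ i, IsPolygon (s i)) (hss : ∀ i, ∃ j, s i j < 1 / 2)
    (Q : ℕ → (κ → ℤ[X]) → Prop) (C θ η : ℝ) (hC0 : 0 ≤ C) (hη : η * ∑ i, (g i : ℝ) < θ)
    (hC : ∀ a : ℕ, 0 < a → ({F ∈ NewtonStratum g s p a | ¬ Q a F}.ncard : ℝ) ≤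
      C * (a * (p : ℝ) ^ (-((a : ℝ) * θ))) * ((NewtonStratum g s p a).ncard : ℝ)) :
    ∀ᵐ α : (Σ i, Fin (g i)) → ℝ, ∀ᶠ a : ℕ in atTop, ∀ F ∈ NewtonStratum g s p a, NearShape g s p a η α F → Q a F := by
  classical
  have hs' : ∀ i, IsNewton (s i) := fun i => ⟨(hs i).mono, (hs i).nonneg, (hs i).le_half, (hs i).integral⟩
  have hp1 : (1 : ℝ) < p := by exact_mod_cast hp.out.one_lt
  have hp0 : (0 : ℝ) < p := by linarith
  set n : ℕ := Fintype.card (Σ i, Fin (g i)) with hn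
  have hng : (n : ℝ) = ∑ i, (g i : ℝ) := by
    rw [hn, Fintype.card_sigma]
    push_cast
    refine Finset.sum_congr rfl fun i _ => ?_
    rw [Fintype.card_fin]
  set B : ℕ → Finset ((Σ i, Fin (g i)) → ℤ) := fun a =>
    (Fintype.piFinset fun j => Finset.Icc (-(box2 g s p a j : ℤ)) (box2 g s p a j)).filter
      fun b => Psi g s p a b ∈ NewtonStratum g s p a ∧ ¬ Q a (Psi g s p a b) with hB
  have hBcard : ∀ a : ℕ, 0 < a → (B a).card ≤ {F ∈ NewtonStratum g s p a | ¬ Q a F}.ncard := by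
    intro a ha
    have hfin : {F ∈ NewtonStratum g s p a | ¬ Q a F}.Finite :=
      (Stratum_finite g s p ha hs').subset fun F hF => hF.1
    rw [← Finset.card_image_of_injective (B a) (Psi_injective g s p a), ← Set.ncard_coe_finset]
    refine Set.ncard_le_ncard ?_ hfin
    intro F hF
    rw [Finset.coe_image] at hF
    obtain ⟨b, hb, rfl⟩ := hF
    exact (Finset.mem_filter.1 hb).2
  set W : ℕ → ℝ := fun a => ((p ^ a : ℕ) : ℝ) ^ η with hW
  have hW0 : ∀ a, 0 ≤ W a := fun a => Real.rpow_nonneg (Nat.cast_nonneg _) _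
  choose a1 ha1 using fun j : (Σ i, Fin (g i)) => Ysz_large g s p hs' hss 1 j
  obtain ⟨K, hK⟩ : ∃ K : ℝ, K = ∏ j : (Σ i, Fin (g i)), (2 * 4 ^ g j.1 + 1 : ℝ) := ⟨_, rfl⟩
  have hK0 : 0 ≤ K := by
    rw [hK]
    exact Finset.prod_nonneg fun j _ => by positivity
  obtain ⟨ρ, hρ⟩ : ∃ ρ : ℝ, ρ = (p : ℝ) ^ (η * n - θ) := ⟨_, rfl⟩
  have hρ0 : 0 < ρ := by
    rw [hρ]
    positivity
  have hρ1 : ρ < 1 := by
    rw [hρ]
    apply Real.rpow_lt_one_of_one_lt_of_neg hp1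
    rw [hng]
    linarith
  have hsum : Summable fun a : ℕ => ((B a).card : ℝ) * ∏ j, (2 * W a / Ysz g s p a j) := by
    have hgeo : Summable fun a : ℕ => C * K * 2 ^ n * ((a : ℝ) ^ 1 * ρ ^ a) :=
      (summable_pow_mul_geometric_of_norm_lt_one (r := ρ) 1 (by
        rw [Real.norm_of_nonneg hρ0.le]
        exact hρ1)).mul_left (C * K * 2 ^ n)
    refine Summable.of_norm_bounded_eventually_nat hgeo ?_
    filter_upwards [eventually_ge_atTop (∑ j, a1 j + 1)] with a ha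
    have ha0 : 0 < a := by omega
    have hY : ∀ j, 1 ≤ Ysz g s p a j := fun j => ha1 j a (by
      have h1 : a1 j ≤ ∑ j, a1 j := Finset.single_le_sum (fun _ _ => Nat.zero_le _) (Finset.mem_univ j)
      omega)
    have hYp : ∀ j, 0 < Ysz g s p a j := fun j => Ysz_pos g s p a j
    rw [Real.norm_of_nonneg (mul_nonneg (Nat.cast_nonneg _) (Finset.prod_nonneg fun j _ => by
      have := hYp j
      have := hW0 a
      positivity))]
    have h1 : ((B a).card : ℝ) ≤ C * (a * (p : ℝ) ^ (-((a : ℝ) * θ))) * (K * ∏ j, Ysz g s p a j) := by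
      calc ((B a).card : ℝ) ≤ ({F ∈ NewtonStratum g s p a | ¬ Q a F}.ncard : ℝ) := by exact_mod_cast hBcard a ha0
        _ ≤ C * (a * (p : ℝ) ^ (-((a : ℝ) * θ))) * ((NewtonStratum g s p a).ncard : ℝ) := hC a ha0
        _ ≤ _ := by
            rw [hK]
            refine mul_le_mul_of_nonneg_left (strat_card g s p hs ha0 hY) ?_
            positivity
    have h2 : (∏ j, Ysz g s p a j) * ∏ j, (2 * W a / Ysz g s p a j) = 2 ^ n * W a ^ n := by
      rw [← Finset.prod_mul_distrib, ← mul_pow, hn, ← Finset.card_univ, ← Finset.prod_const]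
      refine Finset.prod_congr rfl fun j _ => ?_
      have := hYp j
      field_simp
    have h3 : (p : ℝ) ^ (-((a : ℝ) * θ)) * W a ^ n = ρ ^ a := by
      rw [hW, hρ]
      push_cast
      rw [← Real.rpow_natCast (p : ℝ) a, ← Real.rpow_mul hp0.le, ← Real.rpow_natCast _ n, ← Real.rpow_mul hp0.le,
        ← Real.rpow_add hp0, ← Real.rpow_natCast _ a, ← Real.rpow_mul hp0.le]
      congr 1
      ring
    calc ((B a).card : ℝ) * ∏ j, (2 * W a / Ysz g s p a j)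
        ≤ (C * (a * (p : ℝ) ^ (-((a : ℝ) * θ))) * (K * ∏ j, Ysz g s p a j)) * ∏ j, (2 * W a / Ysz g s p a j) := by
          refine mul_le_mul_of_nonneg_right h1 (Finset.prod_nonneg fun j _ => ?_)
          have := hYp j
          have := hW0 a
          positivity
      _ = C * K * (a * ((p : ℝ) ^ (-((a : ℝ) * θ)))) * ((∏ j, Ysz g s p a j) * ∏ j, (2 * W a / Ysz g s p a j)) := by ring
      _ = C * K * 2 ^ n * ((a : ℝ) ^ 1 * ((p : ℝ) ^ (-((a : ℝ) * θ)) * W a ^ n)) := by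
          rw [h2]
          ring
      _ = _ := by rw [h3]
  have hae := shapes_ae B (fun a j => Ysz g s p a j) W (fun a j => Ysz_pos g s p a j) hW0 hsum
  filter_upwards [hae] with α hα
  filter_upwards [hα, eventually_ge_atTop 1] with a ha ha1
  intro F hF hN
  obtain ⟨b, hb, e, hnear⟩ := near_coord g s p hs ha1 hF hN
  by_contra hQ
  refine ha b ?_ hnear
  rw [hB, Finset.mem_filter, ← e]
  exact ⟨hb, hF, hQ⟩

end

end Pool.Agent.Q138.PS
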