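import Pool.Agent.Q138.PS.VQ
import Pool.Agent.Q138.PS.VE

set_option autoImplicit false

/-!
# Families of Weil polynomials near a given real shape: existence, and all strata at once
-/

namespace Pool.Agent.Q138.PS

open Polynomial Filter MeasureTheory Pool.Agent.W518.DN Pool.Agent.W518.TC Pool.Agent.Q219.NS

section

variable {κ : Type} [Fintype κ] (g : κ → ℕ) (s : ∀ i, Fin (g i) → ℚ) (p : ℕ) [hp : Fact p.Prime]

/-- many members of the stratum are near the shape -/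
theorem strata_near (hg : ∀ i, 1 ≤ g i) (hs : ∀ i, IsPolygon (s i)) (σ : ℚ)
    (hσ : ∀ i (h : 0 < g i), s i ⟨0, h⟩ ≤ σ) (hσ2 : σ < 1 / 2) (η : ℝ) (hη0 : 0 < η) (hη : η < 1 / 2 - σ)
    (α : (Σ i, Fin (g i)) → ℝ) (hα : ∀ j, |α j - (refP (g j.1)).coeff j.2| < del (g j.1)) :
    ∀ᶠ a : ℕ in atTop, {F ∈ NewtonStratum g s p a | NearShape g s p a η α F}.Finite ∧
      (((p ^ a : ℕ) : ℝ) ^ η / p) ^ (∑ i, g i) ≤ ({F ∈ NewtonStratum g s p a | NearShape g s p a η α F}.ncard : ℝ) := by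
  classical
  have hs' : ∀ i, IsNewton (s i) := fun i => ⟨(hs i).mono, (hs i).nonneg, (hs i).le_half, (hs i).integral⟩
  have hp2 := hp.out.two_le
  have hp1 : (1 : ℝ) < p := by exact_mod_cast hp.out.one_lt
  have hppos : (0 : ℝ) < p := by linarith
  -- large `a`
  have hr1 : Tendsto (fun a : ℕ => ((p : ℝ) ^ η) ^ a) atTop atTop :=
    tendsto_pow_atTop_atTop_of_one_lt (Real.one_lt_rpow hp1 hη0)
  have hη' : 0 < 1 / 2 - (σ : ℝ) - η := by linarith
  have hr2 : Tendsto (fun a : ℕ => ((p : ℝ) ^ (1 / 2 - (σ : ℝ) - η)) ^ a) atTop atTop :=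
    tendsto_pow_atTop_atTop_of_one_lt (Real.one_lt_rpow hp1 hη')
  have hlarge : ∀ j : (Σ i, Fin (g i)), ∀ᶠ a : ℕ in atTop,
      (p : ℝ) / (del (g j.1) - |α j - (refP (g j.1)).coeff j.2|) ≤ ((p : ℝ) ^ (1 / 2 - (σ : ℝ) - η)) ^ a :=
    fun j => hr2.eventually_ge_atTop _
  filter_upwards [eventually_ge_atTop 1, hr1.eventually_ge_atTop (p : ℝ), eventually_all.2 hlarge] with a ha h1 h2
  have hpow : ((p : ℝ) ^ η) ^ a = ((p ^ a : ℕ) : ℝ) ^ η := by
    push_cast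
    rw [← Real.rpow_natCast _ a, ← Real.rpow_mul hppos.le, ← Real.rpow_natCast (p : ℝ) a, ← Real.rpow_mul hppos.le]
    congr 1
    ring
  rw [hpow] at h1
  set W : ℝ := ((p ^ a : ℕ) : ℝ) ^ η with hW
  have hW0 : 0 < W := by linarith
  set Q : ℝ := √((p ^ a : ℕ) : ℝ) with hQ
  have hq0 : p ^ a ≠ 0 := pow_ne_zero _ hp.out.ne_zero
  have hQ2 : Q ^ 2 = (p : ℝ) ^ a := by
    rw [hQ, Real.sq_sqrt (Nat.cast_nonneg _)]; push_cast; rfl
  have hQ1 : 1 ≤ Q := by
    rw [hQ, Real.one_le_sqrt]; exact_mod_cast Nat.one_le_iff_ne_zero.2 hq0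
  have hQ0 : 0 < Q := by linarith
  have hqZ : (p : ℤ) ^ a = ((p ^ a : ℕ) : ℤ) := by push_cast; rfl
  -- the windows are small compared to the sizes
  have hWY : ∀ j : (Σ i, Fin (g i)), W ≤ (del (g j.1) - |α j - (refP (g j.1)).coeff j.2|) * Ysz g s p a j := by
    intro j
    have h3 := h2 j
    have h4 : 0 < del (g j.1) - |α j - (refP (g j.1)).coeff j.2| := by linarith [hα j]
    rw [div_le_iff₀ h4] at h3
    have h5 := Ysz_ge g s p hs' hσ a j
    have h6 : pw p (-(a * (1 / 2 - σ)) + 1) = (((p : ℝ) ^ (1 / 2 - (σ : ℝ) - η)) ^ a) * W / p := by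
      rw [pw, ← hpow, ← mul_pow, ← Real.rpow_add hppos, eq_div_iff hppos.ne', ← Real.rpow_natCast _ a, ← Real.rpow_mul hppos.le]
      nth_rewrite 2 [← Real.rpow_one (p : ℝ)]
      rw [← Real.rpow_add hppos]
      congr 1
      push_cast
      ring
    rw [h6] at h5
    calc W = p * W / p := by field_simp
      _ ≤ ((((p : ℝ) ^ (1 / 2 - (σ : ℝ) - η)) ^ a) * (del (g j.1) - |α j - (refP (g j.1)).coeff j.2|)) * W / p := by gcongr
      _ = (del (g j.1) - |α j - (refP (g j.1)).coeff j.2|) * ((((p : ℝ) ^ (1 / 2 - (σ : ℝ) - η)) ^ a) * W / p) := by ring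
      _ ≤ _ := by gcongr
  choose c hc0 hc using fun i => exists_class p a (g i) (hs' i)
  let D : (Σ i, Fin (g i)) → Finset ℤ := fun j =>
    clsInts p (Eexp g s a j) ((c j.1 (g j.1 - (j.2 : ℕ))).val : ℤ)
      (α j * Q ^ (g j.1 - (j.2 : ℕ))) ((p : ℝ) ^ Eexp g s a j * W)
  have hfin : {F ∈ NewtonStratum g s p a | NearShape g s p a η α F}.Finite :=
    (Stratum_finite g s p ha hs').subset fun F hF => hF.1
  have hsub : Psi g s p a '' (Fintype.piFinset D : Set _) ⊆ {F ∈ NewtonStratum g s p a | NearShape g s p a η α F} := by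
    rintro _ ⟨b, hb, rfl⟩
    have hb' : ∀ j, b j ∈ D j := Fintype.mem_piFinset.1 hb
    set B : (Σ i, Fin (g i)) → ℤ := fun j => (p : ℤ) ^ Eexp g s a j * b j with hB
    refine ⟨fun i => ?_, hTup g B, fun i => ⟨hp_monic _, hp_natDegree _, rfl⟩, ?_⟩
    · have hm : (hTup g B i).Monic := hp_monic _
      have hd : (hTup g B i).natDegree = g i := hp_natDegree _
      obtain ⟨y, hyinj, hy⟩ := exists_real_roots (hg i) hQ0 (fun t => B ⟨i, t⟩)
        (fun t => by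
          have h3 := (mem_clsInts hp.out.pos (hb' ⟨i, t⟩)).1
          have h4 := hWY ⟨i, t⟩
          have hpE : (0 : ℝ) < (p : ℝ) ^ Eexp g s a ⟨i, t⟩ := by positivity
          have h5 : (p : ℝ) ^ Eexp g s a ⟨i, t⟩ * W ≤
              (del (g i) - |α ⟨i, t⟩ - (refP (g i)).coeff t|) * Q ^ (g i - (t : ℕ)) := by
            calc (p : ℝ) ^ Eexp g s a ⟨i, t⟩ * W ≤ (p : ℝ) ^ Eexp g s a ⟨i, t⟩ *
                  ((del (g i) - |α ⟨i, t⟩ - (refP (g i)).coeff t|) * Ysz g s p a ⟨i, t⟩) := by gcongr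
              _ = (del (g i) - |α ⟨i, t⟩ - (refP (g i)).coeff t|) * Q ^ (g i - (t : ℕ)) := by
                  rw [Ysz, ← hQ]
                  field_simp
          have h6 : ((B ⟨i, t⟩ : ℤ) : ℝ) = (p : ℝ) ^ Eexp g s a ⟨i, t⟩ * (b ⟨i, t⟩ : ℝ) := by
            rw [hB]
            push_cast
            rfl
          rw [h6]
          calc |(p : ℝ) ^ Eexp g s a ⟨i, t⟩ * (b ⟨i, t⟩ : ℝ) - (refP (g i)).coeff t * Q ^ (g i - (t : ℕ))|
              = |((p : ℝ) ^ Eexp g s a ⟨i, t⟩ * (b ⟨i, t⟩ : ℝ) - α ⟨i, t⟩ * Q ^ (g i - (t : ℕ))) +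
                (α ⟨i, t⟩ - (refP (g i)).coeff t) * Q ^ (g i - (t : ℕ))| := by
                congr 1
                ring
            _ ≤ |(p : ℝ) ^ Eexp g s a ⟨i, t⟩ * (b ⟨i, t⟩ : ℝ) - α ⟨i, t⟩ * Q ^ (g i - (t : ℕ))| +
                |(α ⟨i, t⟩ - (refP (g i)).coeff t) * Q ^ (g i - (t : ℕ))| := abs_add_le _ _
            _ ≤ (del (g i) - |α ⟨i, t⟩ - (refP (g i)).coeff t|) * Q ^ (g i - (t : ℕ)) +
                |α ⟨i, t⟩ - (refP (g i)).coeff t| * Q ^ (g i - (t : ℕ)) := by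
                refine add_le_add (h3.trans h5) ?_
                rw [abs_mul, abs_of_pos (pow_pos hQ0 _)]
            _ = del (g i) * Q ^ (g i - (t : ℕ)) := by ring)
      -- the sequence of scaled coefficients
      let β : ℕ → ℤ := fun k => if hk : 1 ≤ k ∧ k ≤ g i then b ⟨i, ⟨g i - k, by omega⟩⟩
        else ((c i k).val : ℤ)
      have hβ : (fun k => ((β k : ℤ) : ZMod p)) = c i := by
        funext k
        by_cases hk : 1 ≤ k ∧ k ≤ g i
        · have h1 : β k = b ⟨i, ⟨g i - k, by omega⟩⟩ := dif_pos hk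
          have h2 := (mem_clsInts hp.out.pos (hb' ⟨i, ⟨g i - k, by omega⟩⟩)).2
          rw [h1, h2]
          simp only
          rw [show g i - (g i - k) = k by omega]
          simp
        · have h1 : β k = ((c i k).val : ℤ) := dif_neg hk
          rw [h1]; simp
      have hcoef : ∀ k ≤ g i, (hTup g B i).coeff (g i - k) = (p : ℤ) ^ sk a (extS (s i)) k * β k := by
        intro k hk
        rcases Nat.eq_zero_or_pos k with h0 | h0
        · subst h0
          have h1 : β 0 = 1 := by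
            have : β 0 = ((c i 0).val : ℤ) := dif_neg (by omega)
            rw [this, hc0 i, ZMod.val_one]; rfl
          have h2 : sk a (extS (s i)) 0 = 0 := by simp [sk, Ssum]
          rw [h1, h2, pow_zero, one_mul, Nat.sub_zero]
          conv_lhs => rw [← hd]
          exact hm.coeff_natDegree
        · have h1 : β k = b ⟨i, ⟨g i - k, by omega⟩⟩ := dif_pos ⟨h0, hk⟩
          have h2 := hp_coeff (fun t => B ⟨i, t⟩) ⟨g i - k, by omega⟩
          rw [h1]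
          refine h2.trans ?_
          simp only [hB, Eexp]
          rw [show g i - (g i - k) = k by omega]
      have hres : ResCond p a (g i) (extS (s i)) (fun k => ((β k : ℤ) : ZMod p)) := by
        rw [hβ]; exact hc i
      have hPhi : Psi g s p a b i = lift ((p : ℤ) ^ a) (g i) (hTup g B i) := by
        rw [Psi, Phi, hqZ]
      refine ⟨?_, ?_, ?_⟩
      · rw [hPhi]
        exact isFrobPoly_of_places hm hd
          (fun H hH hHi hdvd => places_of_res p ha (hs' i) hm hd β hcoef hres H hH hHi hdvd)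
          y hyinj (fun t => (hy t).1) (fun t => by rw [← hQ2]; exact (hy t).2)
      · rw [hPhi, (lift_monic _ _ _ hm hd).2]
      · rw [hPhi]; exact hasSlopes_of_res p ha (hs' i) hm hd β hcoef hres
    · rintro ⟨i, t⟩
      have hE : slopeExp (s i) a (g i - (t : ℕ)) = Eexp g s a ⟨i, t⟩ := slopeExp_eq _ _ _ (Nat.sub_le _ _)
      have h3 := (mem_clsInts hp.out.pos (hb' ⟨i, t⟩)).1
      have h4 : (hTup g B i).coeff t = B ⟨i, t⟩ := hp_coeff _ t
      simp only [hE, h4]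
      have h6 : ((B ⟨i, t⟩ : ℤ) : ℝ) = (p : ℝ) ^ Eexp g s a ⟨i, t⟩ * (b ⟨i, t⟩ : ℝ) := by
        rw [hB]
        push_cast
        rfl
      rw [h6, mul_comm W]
      exact h3
  refine ⟨hfin, ?_⟩
  have h3 : (Fintype.piFinset D).card ≤ {F ∈ NewtonStratum g s p a | NearShape g s p a η α F}.ncard := by
    rw [← Set.ncard_coe_finset, ← Set.ncard_image_of_injective _ (Psi_injective g s p a)]
    exact Set.ncard_le_ncard hsub hfin
  have h4 : (W / p) ^ (∑ i, g i) ≤ ((Fintype.piFinset D).card : ℝ) := by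
    rw [Fintype.card_piFinset]
    push_cast
    have h5 : (W / p) ^ (∑ i, g i) = ∏ _j : (Σ i, Fin (g i)), (W / p) := by
      rw [Finset.prod_const, Finset.card_univ, Fintype.card_sigma]
      congr 1
      refine Finset.sum_congr rfl fun i _ => ?_
      rw [Fintype.card_fin]
    rw [h5]
    refine Finset.prod_le_prod (fun j _ => by positivity) fun j _ => ?_
    have hpE : (0 : ℝ) < (p : ℝ) ^ Eexp g s a j := by positivity
    have h6 := card_clsInts (E := Eexp g s a j) hp.out.pos ((c j.1 (g j.1 - (j.2 : ℕ))).val : ℤ)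
      (α j * Q ^ (g j.1 - (j.2 : ℕ))) ((p : ℝ) ^ Eexp g s a j * W) (by
        rw [pow_succ]
        gcongr)
    refine le_trans (le_of_eq ?_) h6
    rw [pow_succ]
    field_simp
  exact h4.trans (by exact_mod_cast h3)

end

/-- The real shapes which are near the reference shape: a nonempty open set. -/
theorem shapes_open {κ : Type} [Fintype κ] (g : κ → ℕ) (hg : ∀ i, 1 ≤ g i) :
    IsOpen {α : (Σ i, Fin (g i)) → ℝ | ∀ j, |α j - (refP (g j.1)).coeff j.2| < del (g j.1)} ∧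
    {α : (Σ i, Fin (g i)) → ℝ | ∀ j, |α j - (refP (g j.1)).coeff j.2| < del (g j.1)}.Nonempty := by
  constructor
  · have h : {α : (Σ i, Fin (g i)) → ℝ | ∀ j, |α j - (refP (g j.1)).coeff j.2| < del (g j.1)} =
        ⋂ j, {α : (Σ i, Fin (g i)) → ℝ | |α j - (refP (g j.1)).coeff j.2| < del (g j.1)} := by
      ext α
      simp
    rw [h]
    refine isOpen_iInter_of_finite fun j => isOpen_lt ?_ continuous_const
    fun_prop
  · refine ⟨fun j => (refP (g j.1)).coeff j.2, fun j => ?_⟩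
    simp only [sub_self, abs_zero]
    exact del_pos (hg j.1)

/-- **almost all shapes, all strata at once**; and there are many members near the shapes of an open set -/
theorem all_strata {κ : Type} [Fintype κ] [Nonempty κ] {ι : Type} [Countable ι] (g : κ → ℕ) (hg : ∀ i, 1 ≤ g i)
    (Q : ∀ (p : ℕ) [Fact p.Prime] (_s : ∀ i, Fin (g i) → ℚ) (_e : ι), ℕ → (κ → ℤ[X]) → Prop)
    (hC : ∀ (p : ℕ) [Fact p.Prime] (s : ∀ i, Fin (g i) → ℚ), (∀ i, IsPolygon (s i)) → ∀ σ : ℚ,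
      (∀ i (h : 0 < g i), s i ⟨0, h⟩ ≤ σ) → σ < 1 / 2 → ∀ e : ι, ∃ C : ℝ, 0 < C ∧ ∀ a : ℕ, 0 < a →
        ({F ∈ NewtonStratum g s p a | ¬ Q p s e a F}.ncard : ℝ) ≤
          C * (a * (p : ℝ) ^ (-((a : ℝ) * (1 - 2 * σ) / 6))) * ((NewtonStratum g s p a).ncard : ℝ)) :
    (∀ᵐ α : (Σ i, Fin (g i)) → ℝ, ∀ (p : ℕ) [Fact p.Prime] (s : ∀ i, Fin (g i) → ℚ), (∀ i, IsPolygon (s i)) →
      ∀ σ : ℚ, (∀ i (h : 0 < g i), s i ⟨0, h⟩ ≤ σ) → σ < 1 / 2 → ∀ η : ℝ, η * (6 * ∑ i, (g i : ℝ)) < 1 - 2 * σ →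
      ∀ e : ι, ∀ᶠ a : ℕ in atTop, ∀ F ∈ NewtonStratum g s p a, NearShape g s p a η α F → Q p s e a F) ∧
    ∃ Ω : Set ((Σ i, Fin (g i)) → ℝ), IsOpen Ω ∧ Ω.Nonempty ∧ ∀ α ∈ Ω, ∀ (p : ℕ) [Fact p.Prime]
      (s : ∀ i, Fin (g i) → ℚ), (∀ i, IsPolygon (s i)) → ∀ σ : ℚ, (∀ i (h : 0 < g i), s i ⟨0, h⟩ ≤ σ) → σ < 1 / 2 →
      ∀ η : ℝ, 0 < η → η * (6 * ∑ i, (g i : ℝ)) < 1 - 2 * σ →
      ∀ᶠ a : ℕ in atTop, {F ∈ NewtonStratum g s p a | NearShape g s p a η α F}.Finite ∧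
        (((p ^ a : ℕ) : ℝ) ^ η / p) ^ (∑ i, g i) ≤
          ({F ∈ NewtonStratum g s p a | NearShape g s p a η α F}.ncard : ℝ) := by
  have hG : (1 : ℝ) ≤ ∑ i, (g i : ℝ) := by
    obtain ⟨i⟩ := (inferInstance : Nonempty κ)
    have h1 : (1 : ℝ) ≤ g i := by exact_mod_cast hg i
    exact h1.trans (Finset.single_le_sum (f := fun i => (g i : ℝ)) (fun _ _ => Nat.cast_nonneg _) (Finset.mem_univ i))
  refine ⟨?_, _, (shapes_open g hg).1, (shapes_open g hg).2, fun α hα p _ s hs σ hσ hσ2 η hη0 hη => ?_⟩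
  · have key : ∀ (p : ℕ) (s : ∀ i, Fin (g i) → ℚ) (σ η' : ℚ) (e : ι), ∀ᵐ α : (Σ i, Fin (g i)) → ℝ,
        ∀ hp : Fact p.Prime, (∀ i, IsPolygon (s i)) → (∀ i (h : 0 < g i), s i ⟨0, h⟩ ≤ σ) → σ < 1 / 2 →
        (η' : ℝ) * (6 * ∑ i, (g i : ℝ)) < 1 - 2 * σ →
        ∀ᶠ a : ℕ in atTop, ∀ F ∈ NewtonStratum g s p a, NearShape g s p a (η' : ℝ) α F → Q p s e a F := by
      intro p s σ η' e
      by_cases h : p.Prime ∧ (∀ i, IsPolygon (s i)) ∧ (∀ i (h : 0 < g i), s i ⟨0, h⟩ ≤ σ) ∧ σ < 1 / 2 ∧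
        (η' : ℝ) * (6 * ∑ i, (g i : ℝ)) < 1 - 2 * σ
      · obtain ⟨hp, hs, hσ, hσ2, hη⟩ := h
        haveI : Fact p.Prime := ⟨hp⟩
        obtain ⟨C, hC0, hC1⟩ := hC p s hs σ hσ hσ2 e
        have h1 := strata_ae g s p hs (fun i => ⟨⟨0, hg i⟩, (hσ i (hg i)).trans_lt hσ2⟩) (fun a F => Q p s e a F)
          C ((1 - 2 * σ) / 6) η' hC0.le (by linarith) (fun a ha => by
            have h2 := hC1 a ha
            have h3 : (a : ℝ) * ((1 - 2 * (σ : ℝ)) / 6) = (a : ℝ) * (1 - 2 * σ) / 6 := by ring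
            rw [h3]
            exact h2)
        filter_upwards [h1] with α hα _ _ _ _ _
        exact hα
      · filter_upwards with α hp hs hσ hσ2 hη
        exact absurd ⟨hp.out, hs, hσ, hσ2, hη⟩ h
    have hall := ae_all_iff.2 fun p => ae_all_iff.2 fun s => ae_all_iff.2 fun σ => ae_all_iff.2 fun η' =>
      ae_all_iff.2 fun e => key p s σ η' e
    filter_upwards [hall] with α hα
    intro p hp s hs σ hσ hσ2 η hη e
    obtain ⟨η', h1, h2⟩ : ∃ η' : ℚ, η < η' ∧ (η' : ℝ) < (1 - 2 * σ) / (6 * ∑ i, (g i : ℝ)) :=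
      exists_rat_btwn (by
        rw [lt_div_iff₀ (by linarith)]
        exact hη)
    have h3 := hα p s σ η' e hp hs hσ hσ2 (by
      rw [lt_div_iff₀ (by linarith)] at h2
      exact h2)
    filter_upwards [h3] with a ha
    intro F hF hN
    exact ha F hF (hN.mono hp.out.one_le h1.le)
  · refine strata_near g s p hg hs σ hσ hσ2 η hη0 ?_ α hα
    have h1 : η * 6 ≤ η * (6 * ∑ i, (g i : ℝ)) := by
      have : η * 6 * 1 ≤ η * 6 * ∑ i, (g i : ℝ) := by gcongr
      linarith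
    linarith

end Pool.Agent.Q138.PS
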