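import Mathlib

set_option autoImplicit false

/-!
# Families of Weil polynomials near a real shape: definitions
-/

namespace Pool.Agent.Q138.PS

open Polynomial

/-- `⌈a (s_0 + … + s_(k - 1))⌉` -/
noncomputable def slopeNum {g : ℕ} (s : Fin g → ℚ) (a k : ℕ) : ℕ :=
  ⌈(a : ℚ) * ∑ j ∈ Finset.univ.filter (fun j : Fin g => (j : ℕ) < k), s j⌉₊

/-- `F i = x ^ (g i) * h i (x + q / x)`, `q = p ^ a`, for monic integral polynomials `h i` of degree `g i`, and the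
coefficient of `h i` at `x ^ t` has distance at most `q ^ η * p ^ E` from `α (i, t) * q ^ ((g i - t) / 2)`, where
`E = ⌈a (s_(i, 0) + … + s_(i, g i - t - 1))⌉`. -/
def ShapeNear {κ : Type} (g : κ → ℕ) (s : ∀ i, Fin (g i) → ℚ) (p a : ℕ) (η : ℝ) (α : (Σ i, Fin (g i)) → ℝ)
    (F : κ → ℤ[X]) : Prop :=
  ∃ h : κ → ℤ[X], (∀ i, (h i).Monic ∧ (h i).natDegree = g i ∧ F i = ∑ l ∈ Finset.range (g i + 1),
      C ((h i).coeff l) * X ^ (g i - l) * (X ^ 2 + C ((p ^ a : ℕ) : ℤ)) ^ l) ∧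
    ∀ j : Σ i, Fin (g i), |(((h j.1).coeff j.2 : ℤ) : ℝ) - α j * √((p ^ a : ℕ) : ℝ) ^ (g j.1 - (j.2 : ℕ))| ≤
      ((p ^ a : ℕ) : ℝ) ^ η * (p : ℝ) ^ slopeNum (s j.1) a (g j.1 - (j.2 : ℕ))

end Pool.Agent.Q138.PS
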