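import Pool.Agent.Q138.PS.VSD
import Pool.Agent.Q138.PS.VR

set_option autoImplicit false

namespace Pool.Agent.Q138.PS

theorem shapeNear_eq : @ShapeNear = @NearShape := rfl

end Pool.Agent.Q138.PS
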