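import Mathlib

set_option autoImplicit false

/-!
# The Hausdorff dimension of the set of the points which are close to exceptional points
-/

namespace Pool.Agent.Q138.PS

open MeasureTheory Filter Topology NumberField
open scoped ENNReal NNReal

/-- the upper limit of a sequence of finite unions of balls -/
theorem dimH_limsup {X : Type} [MetricSpace X] [MeasurableSpace X] [BorelSpace X] (P : ℕ → Finset X) (r : ℕ → ℝ)
    (hr0 : ∀ i, 0 ≤ r i) (hr : Tendsto r atTop (𝓝 0)) (d : ℝ) (hd : 0 ≤ d)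
    (hs : Summable fun i => ((P i).card : ℝ) * (r i) ^ d) :
    dimH {α : X | ∃ᶠ i in atTop, ∃ p ∈ P i, dist p α ≤ r i} ≤ ENNReal.ofReal d := by
  classical
  set S : Set X := {α : X | ∃ᶠ i in atTop, ∃ p ∈ P i, dist p α ≤ r i} with hS
  have key : Measure.hausdorffMeasure d S ≤ 0 := by
    have h1 := Measure.hausdorffMeasure_le_liminf_tsum (X := X) (β := ℕ) (ι := fun N => Σ i : ℕ, P (i + N)) d S
      (l := atTop) (fun N => ⨆ i : ℕ, ENNReal.ofReal (2 * r (i + N))) ?_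
      (fun N x => Metric.closedBall (x.2 : X) (r (x.1 + N))) ?_ ?_
    · refine h1.trans ?_
      have h2 : Tendsto (fun N => ∑' i : ℕ, ENNReal.ofReal (2 ^ d * (((P (i + N)).card : ℝ) * (r (i + N)) ^ d))) atTop
          (𝓝 0) := by
        have h3 : ∑' i : ℕ, ENNReal.ofReal (2 ^ d * (((P i).card : ℝ) * (r i) ^ d)) ≠ ⊤ := by
          rw [← ENNReal.ofReal_tsum_of_nonneg _ (hs.mul_left _)]
          · exact ENNReal.ofReal_ne_top
          · intro i
            have := hr0 i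
            positivity
        exact ENNReal.tendsto_sum_nat_add (fun i => ENNReal.ofReal (2 ^ d * (((P i).card : ℝ) * (r i) ^ d))) h3
      refine le_of_le_of_eq ?_ h2.liminf_eq
      refine liminf_le_liminf (Eventually.of_forall fun N => ?_)
      rw [ENNReal.tsum_sigma']
      refine ENNReal.tsum_le_tsum fun i => ?_
      have h4 : ∀ p : P (i + N), Metric.ediam (Metric.closedBall (p : X) (r (i + N))) ^ d ≤
          ENNReal.ofReal (2 ^ d * (r (i + N)) ^ d) := by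
        intro p
        have h5 : Metric.ediam (Metric.closedBall (p : X) (r (i + N))) ≤ ENNReal.ofReal (2 * r (i + N)) := by
          rw [← Metric.closedEBall_ofReal (hr0 _)]
          refine Metric.ediam_closedEBall_le.trans (le_of_eq ?_)
          rw [ENNReal.ofReal_mul (by norm_num)]
          simp
        refine (ENNReal.rpow_le_rpow h5 hd).trans (le_of_eq ?_)
        rw [ENNReal.ofReal_rpow_of_nonneg (by have := hr0 (i + N); positivity) hd, Real.mul_rpow (by norm_num) (hr0 _)]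
      refine (ENNReal.tsum_le_tsum h4).trans (le_of_eq ?_)
      rw [tsum_fintype, Finset.sum_const, Finset.card_univ, Fintype.card_coe, nsmul_eq_mul, ← ENNReal.ofReal_natCast,
        ← ENNReal.ofReal_mul (Nat.cast_nonneg _)]
      congr 1
      ring
    · rw [ENNReal.tendsto_nhds_zero]
      intro ε hε
      have h2 : Tendsto (fun i => ENNReal.ofReal (2 * r i)) atTop (𝓝 0) := by
        have h3 := ENNReal.tendsto_ofReal (hr.const_mul 2)
        simpa using h3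
      obtain ⟨N, hN⟩ := eventually_atTop.1 (ENNReal.tendsto_nhds_zero.1 h2 ε hε)
      filter_upwards [eventually_ge_atTop N] with M hM
      exact iSup_le fun i => hN _ (by omega)
    · refine Eventually.of_forall fun N x => ?_
      rw [← Metric.closedEBall_ofReal (hr0 _)]
      refine (Metric.ediam_closedEBall_le.trans (le_of_eq ?_)).trans
        (le_iSup (fun i : ℕ => ENNReal.ofReal (2 * r (i + N))) x.1)
      rw [ENNReal.ofReal_mul (by norm_num)]
      simp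
    · refine Eventually.of_forall fun N α hα => ?_
      obtain ⟨i, hi, p, hp, h⟩ := frequently_atTop.1 hα N
      obtain ⟨j, rfl⟩ := Nat.exists_eq_add_of_le hi
      rw [add_comm] at hp h
      refine Set.mem_iUnion.2 ⟨⟨j, ⟨p, hp⟩⟩, ?_⟩
      rw [Metric.mem_closedBall, dist_comm]
      exact h
  have h0 : Measure.hausdorffMeasure ((⟨d, hd⟩ : ℝ≥0) : ℝ) S ≠ ∞ := by
    show Measure.hausdorffMeasure d S ≠ ∞
    exact ne_top_of_le_ne_top ENNReal.zero_ne_top key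
  refine (dimH_le_of_hausdorffMeasure_ne_top h0).trans (le_of_eq ?_)
  rw [ENNReal.ofReal, Real.toNNReal_of_nonneg hd]
  rfl

/-- the number of the integers of a number field all conjugates of which are at most `T` -/
theorem count_integers (F : Type) [Field F] [NumberField F] :
    ∃ C : ℝ, 1 ≤ C ∧ ∀ T : ℝ, 1 ≤ T → {a : 𝓞 F | ∀ φ : F →+* ℂ, ‖φ a‖ ≤ T}.Finite ∧
      ({a : 𝓞 F | ∀ φ : F →+* ℂ, ‖φ a‖ ≤ T}.ncard : ℝ) ≤ C * T ^ Module.finrank ℚ F := by
  classical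
  set b := canonicalEmbedding.latticeBasis F with hb
  have hbd : ∀ i, ∃ C : ℝ, 0 ≤ C ∧ ∀ v : (F →+* ℂ) → ℂ, ‖b.repr v i‖ ≤ C * ‖v‖ := by
    intro i
    set L : ((F →+* ℂ) → ℂ) →L[ℂ] ℂ := LinearMap.toContinuousLinearMap (b.coord i) with hL
    exact ⟨‖L‖, norm_nonneg L, fun v => L.le_opNorm v⟩
  choose C₀ hC₀ hC using hbd
  set C₁ : ℕ := ⌈∑ i, C₀ i⌉₊ + 1 with hC₁
  have hC₁' : ∀ i, C₀ i ≤ C₁ := by
    intro i
    have h1 : C₀ i ≤ ∑ i, C₀ i := Finset.single_le_sum (f := C₀) (fun i _ => hC₀ i) (Finset.mem_univ i)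
    have h2 := Nat.le_ceil (∑ i, C₀ i)
    rw [hC₁]
    push_cast
    linarith
  have hcard : Fintype.card (Module.Free.ChooseBasisIndex ℤ (𝓞 F)) = Module.finrank ℚ F := by
    rw [← RingOfIntegers.rank, Module.finrank_eq_card_chooseBasisIndex]
  refine ⟨(2 * C₁ + 3 : ℝ) ^ Module.finrank ℚ F, one_le_pow₀ (by norm_cast; omega), fun T hT => ?_⟩
  set g : 𝓞 F → Module.Free.ChooseBasisIndex ℤ (𝓞 F) → ℤ := fun a i => (RingOfIntegers.basis F).repr a i with hg
  have hginj : Function.Injective g := by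
    intro a a' h
    apply (RingOfIntegers.basis F).repr.injective
    ext i
    exact congrFun h i
  set R : ℕ := ⌊(C₁ : ℝ) * T⌋₊ with hR
  set B : Finset (Module.Free.ChooseBasisIndex ℤ (𝓞 F) → ℤ) := Fintype.piFinset fun _ => Finset.Icc (-(R : ℤ)) R with hB
  have hmaps : ∀ a ∈ {a : 𝓞 F | ∀ φ : F →+* ℂ, ‖φ a‖ ≤ T}, g a ∈ (B : Set (Module.Free.ChooseBasisIndex ℤ (𝓞 F) → ℤ)) := by
    intro a ha
    rw [Finset.mem_coe, hB, Fintype.mem_piFinset]
    intro i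
    have h1 : ‖canonicalEmbedding F (a : F)‖ ≤ T := by
      rw [pi_norm_le_iff_of_nonneg (by linarith)]
      exact fun φ => ha φ
    have h2 := hC i (canonicalEmbedding F (a : F))
    have h3 : b.repr (canonicalEmbedding F (a : F)) i = ((g a i : ℤ) : ℂ) := by
      rw [hb, canonicalEmbedding.integralBasis_repr_apply, integralBasis_repr_apply]
      simp [hg]
    rw [h3] at h2
    have h4 : |((g a i : ℤ) : ℝ)| ≤ C₁ * T := by
      have h5 : ‖((g a i : ℤ) : ℂ)‖ = |((g a i : ℤ) : ℝ)| := by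
        rw [Complex.norm_intCast]
      rw [← h5]
      refine h2.trans ?_
      have := hC₁' i
      have := hC₀ i
      gcongr
    have h5 : (g a i).natAbs ≤ R := by
      rw [hR]
      apply Nat.le_floor
      rw [Nat.cast_natAbs]
      push_cast
      exact h4
    rw [Finset.mem_Icc]
    omega
  have hfin : {a : 𝓞 F | ∀ φ : F →+* ℂ, ‖φ a‖ ≤ T}.Finite :=
    Set.Finite.of_injOn hmaps hginj.injOn (Finset.finite_toSet B)
  refine ⟨hfin, ?_⟩
  have h1 := Set.ncard_le_ncard_of_injOn g hmaps hginj.injOn (Finset.finite_toSet B)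
  rw [Set.ncard_coe_finset] at h1
  have h2 : B.card = (2 * R + 1) ^ Module.finrank ℚ F := by
    rw [hB, Fintype.card_piFinset, Finset.prod_const, Finset.card_univ, hcard, Int.card_Icc]
    congr 1
    omega
  rw [h2] at h1
  have h3 : (R : ℝ) ≤ C₁ * T := Nat.floor_le (by positivity)
  calc ({a : 𝓞 F | ∀ φ : F →+* ℂ, ‖φ a‖ ≤ T}.ncard : ℝ) ≤ (2 * (R : ℝ) + 1) ^ Module.finrank ℚ F := by exact_mod_cast h1
    _ ≤ ((2 * C₁ + 3) * T) ^ Module.finrank ℚ F := by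
        gcongr
        nlinarith
    _ = _ := by rw [mul_pow]

/-- the number of the elements of a number field which are quotients of integers all conjugates of which are at most `T` -/
theorem count_quotients (F : Type) [Field F] [NumberField F] :
    ∃ C : ℝ, 1 ≤ C ∧ ∀ T : ℝ, 1 ≤ T →
      {x : F | ∃ a b : 𝓞 F, b ≠ 0 ∧ (∀ φ : F →+* ℂ, ‖φ a‖ ≤ T ∧ ‖φ b‖ ≤ T) ∧ x = a / b}.Finite ∧
      ({x : F | ∃ a b : 𝓞 F, b ≠ 0 ∧ (∀ φ : F →+* ℂ, ‖φ a‖ ≤ T ∧ ‖φ b‖ ≤ T) ∧ x = a / b}.ncard : ℝ) ≤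
        C * T ^ (2 * Module.finrank ℚ F) := by
  classical
  obtain ⟨C, hC, h⟩ := count_integers F
  refine ⟨C ^ 2, one_le_pow₀ hC, fun T hT => ?_⟩
  obtain ⟨hfin, hcard⟩ := h T hT
  set I : Set (𝓞 F) := {a : 𝓞 F | ∀ φ : F →+* ℂ, ‖φ a‖ ≤ T} with hI
  have hsub : {x : F | ∃ a b : 𝓞 F, b ≠ 0 ∧ (∀ φ : F →+* ℂ, ‖φ a‖ ≤ T ∧ ‖φ b‖ ≤ T) ∧ x = a / b} ⊆
      (fun p : 𝓞 F × 𝓞 F => (p.1 / p.2 : F)) '' (I ×ˢ I) := by
    rintro x ⟨a, b, -, hab, rfl⟩
    exact ⟨(a, b), ⟨fun φ => (hab φ).1, fun φ => (hab φ).2⟩, rfl⟩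
  have hf : ((fun p : 𝓞 F × 𝓞 F => (p.1 / p.2 : F)) '' (I ×ˢ I)).Finite := (hfin.prod hfin).image _
  refine ⟨hf.subset hsub, ?_⟩
  have h1 : {x : F | ∃ a b : 𝓞 F, b ≠ 0 ∧ (∀ φ : F →+* ℂ, ‖φ a‖ ≤ T ∧ ‖φ b‖ ≤ T) ∧ x = a / b}.ncard ≤ I.ncard * I.ncard := by
    refine (Set.ncard_le_ncard hsub hf).trans ((Set.ncard_image_le (hfin.prod hfin)).trans (le_of_eq ?_))
    exact Set.ncard_prod
  calc ({x : F | ∃ a b : 𝓞 F, b ≠ 0 ∧ (∀ φ : F →+* ℂ, ‖φ a‖ ≤ T ∧ ‖φ b‖ ≤ T) ∧ x = a / b}.ncard : ℝ) ≤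
        (I.ncard : ℝ) * I.ncard := by exact_mod_cast h1
    _ ≤ (C * T ^ Module.finrank ℚ F) * (C * T ^ Module.finrank ℚ F) := by gcongr
    _ = _ := by ring

/-- the points of `ℂ ^ X` at distance at most `T ^ (-θ)`, in every coordinate, from points of `E T`, for arbitrarily large
`T` -/
def Close {X F : Type} [Field F] (ι : F →+* ℂ) (E : ℝ → Set (X → F)) (θ : ℝ) : Set (X → ℂ) :=
  {z | ∃ᶠ T : ℝ in atTop, ∃ s ∈ E T, ∀ j, ‖ι (s j) - z j‖ ≤ T ^ (-θ)}

theorem dimH_close {X F : Type} [Fintype X] [Field F] (ι : F →+* ℂ) (E : ℝ → Set (X → F)) (E₁ : ℕ → Set (X → F))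
    (θ c C : ℝ) (hθ : 0 < θ) (hc : 0 ≤ c) (h1 : ∀ᶠ i : ℕ in atTop, (E₁ i).Finite)
    (h2 : ∀ᶠ i : ℕ in atTop, ((E₁ i).ncard : ℝ) ≤ C * ((2 : ℝ) ^ i) ^ c)
    (h3 : ∀ᶠ i : ℕ in atTop, ∀ T : ℝ, 2 ^ i ≤ T → T ≤ 2 ^ (i + 1) → E T ⊆ E₁ i) :
    dimH (Close ι E θ) ≤ ENNReal.ofReal (c / θ) := by
  classical
  set P : ℕ → Finset (X → ℂ) := fun i =>
    (if h : (E₁ i).Finite then h.toFinset else ∅).image fun s j => ι (s j) with hP
  have hcard : ∀ᶠ i : ℕ in atTop, ((P i).card : ℝ) ≤ C * ((2 : ℝ) ^ i) ^ c := by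
    filter_upwards [h1, h2] with i hi1 hi2
    refine le_trans ?_ hi2
    rw [hP]
    simp only [dif_pos hi1]
    rw [Set.ncard_eq_toFinset_card _ hi1]
    exact_mod_cast Finset.card_image_le
  have hsub : Close ι E θ ⊆ {α : X → ℂ | ∃ᶠ i in atTop, ∃ p ∈ P i, dist p α ≤ ((2 : ℝ) ^ i) ^ (-θ)} := by
    intro z hz
    obtain ⟨N₀, hN₀⟩ := eventually_atTop.1 (h1.and h3)
    show ∃ᶠ i in atTop, ∃ p ∈ P i, dist p z ≤ ((2 : ℝ) ^ i) ^ (-θ)
    rw [frequently_atTop]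
    intro N
    obtain ⟨T, hT, s, hs, hz'⟩ := frequently_atTop.1 hz ((2 : ℝ) ^ (max N N₀))
    have hT1 : (1 : ℝ) ≤ T := (one_le_pow₀ (by norm_num)).trans hT
    have hfl : 1 ≤ ⌊T⌋₊ := Nat.le_floor (by exact_mod_cast hT1)
    set i : ℕ := Nat.log 2 ⌊T⌋₊ with hi
    have hi1 : (2 : ℝ) ^ i ≤ T := by
      have h4 : 2 ^ i ≤ ⌊T⌋₊ := Nat.pow_log_le_self 2 (by omega)
      have h5 : ((2 ^ i : ℕ) : ℝ) ≤ ⌊T⌋₊ := by exact_mod_cast h4
      push_cast at h5
      exact h5.trans (Nat.floor_le (by linarith))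
    have hi2 : T ≤ (2 : ℝ) ^ (i + 1) := by
      have h4 : ⌊T⌋₊ < 2 ^ (i + 1) := Nat.lt_pow_succ_log_self (by norm_num) _
      have h5 : T < ⌊T⌋₊ + 1 := Nat.lt_floor_add_one T
      have h6 : ((⌊T⌋₊ + 1 : ℕ) : ℝ) ≤ ((2 ^ (i + 1) : ℕ) : ℝ) := by exact_mod_cast h4
      push_cast at h6
      linarith
    have hiN : max N N₀ ≤ i := by
      rw [hi]
      apply Nat.le_log_of_pow_le (by norm_num)
      apply Nat.le_floor
      push_cast
      exact hT
    obtain ⟨h4, h5⟩ := hN₀ i ((le_max_right _ _).trans hiN)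
    refine ⟨i, (le_max_left _ _).trans hiN, fun j => ι (s j), ?_, ?_⟩
    · rw [hP]
      simp only [dif_pos h4]
      rw [Finset.mem_image]
      exact ⟨s, (Set.Finite.mem_toFinset _).2 (h5 T hi1 hi2 hs), rfl⟩
    · rw [dist_pi_le_iff (by positivity)]
      intro j
      rw [dist_eq_norm]
      exact (hz' j).trans (Real.rpow_le_rpow_of_nonpos (by positivity) hi1 (by linarith))
  refine (dimH_mono hsub).trans ?_
  have hdk : ∀ d : ℝ, c / θ < d → dimH {α : X → ℂ | ∃ᶠ i in atTop, ∃ p ∈ P i, dist p α ≤ ((2 : ℝ) ^ i) ^ (-θ)} ≤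
      ENNReal.ofReal d := by
    intro d hd
    have hd0 : 0 < d := lt_of_le_of_lt (by positivity) hd
    refine dimH_limsup P (fun i => ((2 : ℝ) ^ i) ^ (-θ)) (fun i => by positivity) ?_ d hd0.le ?_
    · have h4 : Tendsto (fun i : ℕ => (2 : ℝ) ^ i) atTop atTop := tendsto_pow_atTop_atTop_of_one_lt (by norm_num)
      exact (tendsto_rpow_neg_atTop hθ).comp h4
    · have hgeo : Summable fun i : ℕ => C * ((2 : ℝ) ^ (c - θ * d)) ^ i := by
        refine (summable_geometric_of_lt_one (by positivity) ?_).mul_left C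
        apply Real.rpow_lt_one_of_one_lt_of_neg (by norm_num)
        rw [div_lt_iff₀ hθ] at hd
        linarith
      refine Summable.of_norm_bounded_eventually_nat hgeo ?_
      filter_upwards [hcard] with i hi
      rw [Real.norm_of_nonneg (by positivity)]
      calc ((P i).card : ℝ) * (((2 : ℝ) ^ i) ^ (-θ)) ^ d ≤ (C * ((2 : ℝ) ^ i) ^ c) * (((2 : ℝ) ^ i) ^ (-θ)) ^ d := by
            gcongr
        _ = C * (((2 : ℝ) ^ i) ^ c * ((2 : ℝ) ^ i) ^ (-θ * d)) := by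
            rw [← Real.rpow_mul (by positivity), mul_assoc]
        _ = C * ((2 : ℝ) ^ (c - θ * d)) ^ i := by
            rw [← Real.rpow_add (by positivity), ← Real.rpow_natCast (2 : ℝ) i, ← Real.rpow_mul (by norm_num),
              ← Real.rpow_natCast, ← Real.rpow_mul (by norm_num)]
            congr 2
            ring
  refine le_of_forall_gt fun b hb => ?_
  obtain ⟨d, hd1, hd2⟩ : ∃ d : ℝ, c / θ < d ∧ ENNReal.ofReal d < b := by
    rcases eq_or_ne b ⊤ with hb' | hb'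
    · exact ⟨c / θ + 1, by linarith, by rw [hb']; exact ENNReal.ofReal_lt_top⟩
    · obtain ⟨d, hd1, hd2⟩ := exists_between ((ENNReal.ofReal_lt_iff_lt_toReal (by positivity) hb').1 hb)
      refine ⟨d, hd1, (ENNReal.ofReal_lt_iff_lt_toReal ?_ hb').2 hd2⟩
      exact (lt_of_le_of_lt (by positivity) hd1).le
  exact (hdk d hd1).trans_lt hd2

end Pool.Agent.Q138.PS
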