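import Pool.Agent.Q138.PS.VB

set_option autoImplicit false

/-!
# From few exceptions along `⌊α n ^ q⌋` to one good integer
-/

namespace Pool.Agent.Q138.PS

open Finset Filter Topology

theorem badW_all (A : ℕ → Prop) (b q : ℕ) (α : ℝ) (hall : ∀ t, b ≤ t → A t) (W N : ℕ) (hW : b ≤ W) :
    badW (fun t => b ≤ t ∧ A t) W α (Polynomial.X ^ q) N = N := by
  classical
  unfold badW
  have h1 : (Icc 1 N).filter (fun n : ℕ => ∃ t : ℕ, (b ≤ t ∧ A t) ∧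
      |(t : ℤ) - (⌊α * (((Polynomial.X ^ q : Polynomial ℤ).eval (n : ℤ) : ℤ) : ℝ)⌋₊ : ℤ)| ≤ W) = Icc 1 N := by
    rw [filter_eq_self]
    intro n _
    refine ⟨⌊α * (((Polynomial.X ^ q : Polynomial ℤ).eval (n : ℤ) : ℤ) : ℝ)⌋₊ + b,
      ⟨Nat.le_add_left _ _, hall _ (Nat.le_add_left _ _)⟩, ?_⟩
    push_cast
    rw [add_sub_cancel_left, abs_of_nonneg (by positivity)]
    exact_mod_cast hW
  rw [h1, Nat.card_Icc]
  omega

/-- if there are few exceptions along `⌊α n ^ q⌋` then there is an integer which is no exception -/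
theorem exists_good {A : ℕ → Prop} {b q : ℕ} {α κ : ℝ} (hκ : 0 < κ)
    (h : ∀ᶠ N : ℕ in atTop, (badW (fun t => b ≤ t ∧ A t) ⌊(N : ℝ) ^ κ⌋₊ α (Polynomial.X ^ q) N : ℝ) ≤ (N : ℝ) ^ (1 - κ)) :
    ∃ t, b ≤ t ∧ ¬ A t := by
  by_contra hne
  push Not at hne
  have h1 : Tendsto (fun N : ℕ => (N : ℝ) ^ κ) atTop atTop := (tendsto_rpow_atTop hκ).comp tendsto_natCast_atTop_atTop
  obtain ⟨N, hN, hN1, hN2⟩ := (h.and ((h1.eventually_ge_atTop (b : ℝ)).and (eventually_ge_atTop 2))).exists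
  rw [badW_all A b q α hne _ N (Nat.le_floor hN1)] at hN
  have hN3 : (1 : ℝ) < N := by exact_mod_cast hN2
  have h2 : (N : ℝ) ^ (1 - κ) < (N : ℝ) ^ (1 : ℝ) := Real.rpow_lt_rpow_of_exponent_lt hN3 (by linarith)
  rw [Real.rpow_one] at h2
  linarith

/-- a bound for the number of the integers between `b` and `T` -/
theorem cn_of_range (A : ℕ → Prop) (b : ℕ) (C c : ℝ) (h : ∀ T : ℕ, 1 ≤ T →
    (({n : ℕ | b ≤ n ∧ n ≤ T ∧ A n}.ncard : ℕ) : ℝ) ≤ C * (T : ℝ) ^ (1 - c)) :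
    ∀ Y : ℕ, 1 ≤ Y → cn (fun t => b ≤ t ∧ A t) Y ≤ C * (Y : ℝ) ^ (1 - c) := by
  intro Y hY
  refine (cn_of_ncard _ Y {n : ℕ | b ≤ n ∧ n ≤ Y ∧ A n} ((Set.finite_le_nat Y).subset fun n hn => hn.2.1) ?_).trans (h Y hY)
  intro t _ ht2 ht
  exact ⟨ht.1, ht2, ht.2⟩

end Pool.Agent.Q138.PS
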