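import Pool.Agent.Q138.PS.VV

set_option autoImplicit false

/-!
# Rare properties along `⌊α P(n)⌋`
-/

namespace Pool.Agent.Q138.PS

open Filter

/-- There is `κ > 0` such that for all large `N` and all integral polynomials `P` of degree `q` with positive leading
coefficient and coefficients of size at most `N ^ η`: for all but `N ^ (1 - κ)` of the `n ≤ N` no integer `t ≥ b` at
distance at most `N ^ κ` from `⌊α P(n)⌋` has the property `A`. -/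
def Rare (q : ℕ) (α η : ℝ) (b : ℕ) (A : ℕ → Prop) : Prop :=
  ∃ κ : ℝ, 0 < κ ∧ ∀ᶠ N : ℕ in atTop, ∀ P : Polynomial ℤ, P.natDegree = q → 0 < P.leadingCoeff →
    (∀ j, |((P.coeff j : ℤ) : ℝ)| ≤ (N : ℝ) ^ η) →
      (badW (fun t => b ≤ t ∧ A t) ⌊(N : ℝ) ^ κ⌋₊ α P N : ℝ) ≤ (N : ℝ) ^ (1 - κ)

/-- `A` holds for at most `C T ^ (1 - c)` of the integers between `b` and `T`, for some `c > 0` -/
def Few (b : ℕ) (A : ℕ → Prop) : Prop :=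
  ∃ C c : ℝ, 0 < c ∧ ∀ T : ℕ, 1 ≤ T → (({n : ℕ | b ≤ n ∧ n ≤ T ∧ A n}.ncard : ℕ) : ℝ) ≤ C * (T : ℝ) ^ (1 - c)

theorem Few.mono {b : ℕ} {A A' : ℕ → Prop} (h : Few b A) (hA : ∀ n, b ≤ n → A' n → A n) : Few b A' := by
  obtain ⟨C, c, hc, h⟩ := h
  refine ⟨C, c, hc, fun T hT => le_trans ?_ (h T hT)⟩
  have hsub : {n : ℕ | b ≤ n ∧ n ≤ T ∧ A' n} ⊆ {n : ℕ | b ≤ n ∧ n ≤ T ∧ A n} :=
    fun n hn => ⟨hn.1, hn.2.1, hA n hn.1 hn.2.2⟩
  exact_mod_cast Set.ncard_le_ncard hsub ((Set.finite_le_nat T).subset fun n hn => hn.2.1)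

theorem rare_ae {ι : Type} [Countable ι] (q : ℕ) (hq : 2 ≤ q) (A : ι → ℕ → Prop) :
    ∃ E : Set ℝ, dimH E ≤ ENNReal.ofReal (q / (q + 1 / ((q : ℝ) * 2 ^ (q - 1)))) ∧ ∀ α : ℝ, 0 < α → α ∉ E →
      ∃ η : ℝ, 0 < η ∧ ∀ (i : ι) (b : ℕ), Few b (A i) → Rare q α η b (A i) := by
  obtain ⟨E, hE, hg⟩ := exc_bad (ι := ι × ℕ) q hq (fun i t => i.2 ≤ t ∧ A i.1 t)
  refine ⟨E, hE, fun α hα hαE => ?_⟩
  obtain ⟨η, hη, h1⟩ := hg α hα hαE
  refine ⟨η, hη, fun i b hi => ?_⟩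
  obtain ⟨C, c, hc, hf⟩ := hi
  exact h1 (i, b) C c hc (cn_of_range _ b C c hf)

theorem Rare.exists_not {q : ℕ} {α η : ℝ} {b : ℕ} {A : ℕ → Prop} (hη : 0 < η) (h : Rare q α η b A) :
    ∃ t, b ≤ t ∧ ¬ A t := by
  obtain ⟨κ, hκ, hN⟩ := h
  refine exists_good (q := q) (α := α) hκ ?_
  filter_upwards [hN, eventually_ge_atTop 1] with N hN hN1
  refine hN (Polynomial.X ^ q) (Polynomial.natDegree_X_pow q) (by rw [(Polynomial.monic_X_pow q).leadingCoeff]; norm_num)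
    fun j => ?_
  have h2 : (1 : ℝ) ≤ (N : ℝ) ^ η := Real.one_le_rpow (by exact_mod_cast hN1) hη.le
  rw [Polynomial.coeff_X_pow]
  split_ifs
  · simpa using h2
  · simp only [Int.cast_zero, abs_zero]
    linarith

end Pool.Agent.Q138.PS
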