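import Pool.Agent.Q138.PS.VW

set_option autoImplicit false

/-!
# Rare properties along `⌊α P(n)⌋`: monotonicity, unions
-/

namespace Pool.Agent.Q138.PS

open Finset Filter

theorem badW_mono' {A A' : ℕ → Prop} (h : ∀ t, A' t → A t) {W W' : ℕ} (hW : W' ≤ W) (α : ℝ) (P : Polynomial ℤ) (N : ℕ) :
    badW A' W' α P N ≤ badW A W α P N := by
  classical
  unfold badW
  refine card_le_card fun n hn => ?_
  rw [mem_filter] at hn ⊢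
  obtain ⟨h1, t, h2, h3⟩ := hn
  exact ⟨h1, t, h t h2, h3.trans (by exact_mod_cast hW)⟩

theorem badW_or (A A' : ℕ → Prop) (W : ℕ) (α : ℝ) (P : Polynomial ℤ) (N : ℕ) :
    badW (fun t => A t ∨ A' t) W α P N ≤ badW A W α P N + badW A' W α P N := by
  classical
  unfold badW
  refine (card_le_card fun n hn => ?_).trans (card_union_le _ _)
  rw [mem_filter] at hn
  rw [mem_union, mem_filter, mem_filter]
  obtain ⟨h1, t, h2, h3⟩ := hn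
  rcases h2 with h2 | h2
  · exact Or.inl ⟨h1, t, h2, h3⟩
  · exact Or.inr ⟨h1, t, h2, h3⟩

theorem Rare.mono {q : ℕ} {α η : ℝ} {b b' : ℕ} {A A' : ℕ → Prop} (h : Rare q α η b A) (hb : b ≤ b')
    (hA : ∀ t, b' ≤ t → A' t → A t) : Rare q α η b' A' := by
  obtain ⟨κ, hκ, h⟩ := h
  refine ⟨κ, hκ, ?_⟩
  filter_upwards [h] with N hN
  intro P h1 h2 h3
  refine le_trans ?_ (hN P h1 h2 h3)
  have h4 : badW (fun t => b' ≤ t ∧ A' t) ⌊(N : ℝ) ^ κ⌋₊ α P N ≤ badW (fun t => b ≤ t ∧ A t) ⌊(N : ℝ) ^ κ⌋₊ α P N :=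
    badW_mono' (fun t ht => ⟨hb.trans ht.1, hA t ht.1 ht.2⟩) le_rfl α P N
  exact_mod_cast h4

theorem Rare.or {q : ℕ} {α η : ℝ} {b : ℕ} {A A' : ℕ → Prop} (h : Rare q α η b A) (h' : Rare q α η b A') :
    Rare q α η b (fun t => A t ∨ A' t) := by
  obtain ⟨κ, hκ, h⟩ := h
  obtain ⟨κ', hκ', h'⟩ := h'
  set μ : ℝ := min κ κ' / 2 with hμ
  have hμ0 : 0 < μ := by
    rw [hμ]
    have := lt_min hκ hκ'
    linarith
  have hμ1 : 2 * μ ≤ κ := by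
    have := min_le_left κ κ'
    rw [hμ]
    linarith
  have hμ2 : 2 * μ ≤ κ' := by
    have := min_le_right κ κ'
    rw [hμ]
    linarith
  refine ⟨μ, hμ0, ?_⟩
  have h1 : Tendsto (fun N : ℕ => (N : ℝ) ^ μ) atTop atTop := (tendsto_rpow_atTop hμ0).comp tendsto_natCast_atTop_atTop
  filter_upwards [h, h', h1.eventually_ge_atTop 2, eventually_ge_atTop 1] with N hN hN' hN2 hN1
  intro P p1 p2 p3
  have hN0 : (1 : ℝ) ≤ N := by exact_mod_cast hN1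
  have hN00 : (0 : ℝ) < N := by linarith
  have e1 : ⌊(N : ℝ) ^ μ⌋₊ ≤ ⌊(N : ℝ) ^ κ⌋₊ :=
    Nat.floor_le_floor (Real.rpow_le_rpow_of_exponent_le hN0 (by linarith))
  have e2 : ⌊(N : ℝ) ^ μ⌋₊ ≤ ⌊(N : ℝ) ^ κ'⌋₊ :=
    Nat.floor_le_floor (Real.rpow_le_rpow_of_exponent_le hN0 (by linarith))
  have b1 : (badW (fun t => b ≤ t ∧ A t) ⌊(N : ℝ) ^ μ⌋₊ α P N : ℝ) ≤ (N : ℝ) ^ (1 - 2 * μ) := by
    refine le_trans ?_ ((hN P p1 p2 p3).trans (Real.rpow_le_rpow_of_exponent_le hN0 (by linarith)))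
    exact_mod_cast badW_mono' (fun t ht => ht) e1 α P N
  have b2 : (badW (fun t => b ≤ t ∧ A' t) ⌊(N : ℝ) ^ μ⌋₊ α P N : ℝ) ≤ (N : ℝ) ^ (1 - 2 * μ) := by
    refine le_trans ?_ ((hN' P p1 p2 p3).trans (Real.rpow_le_rpow_of_exponent_le hN0 (by linarith)))
    exact_mod_cast badW_mono' (fun t ht => ht) e2 α P N
  have b3 : badW (fun t => b ≤ t ∧ (A t ∨ A' t)) ⌊(N : ℝ) ^ μ⌋₊ α P N ≤
      badW (fun t => b ≤ t ∧ A t) ⌊(N : ℝ) ^ μ⌋₊ α P N + badW (fun t => b ≤ t ∧ A' t) ⌊(N : ℝ) ^ μ⌋₊ α P N :=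
    (badW_mono' (fun t ht => by
      rcases ht with ⟨ht1, ht2 | ht2⟩
      · exact Or.inl ⟨ht1, ht2⟩
      · exact Or.inr ⟨ht1, ht2⟩) le_rfl α P N).trans
      (badW_or (fun t => b ≤ t ∧ A t) (fun t => b ≤ t ∧ A' t) _ α P N)
  have b4 : (badW (fun t => b ≤ t ∧ (A t ∨ A' t)) ⌊(N : ℝ) ^ μ⌋₊ α P N : ℝ) ≤
      (N : ℝ) ^ (1 - 2 * μ) + (N : ℝ) ^ (1 - 2 * μ) := by
    have : (badW (fun t => b ≤ t ∧ (A t ∨ A' t)) ⌊(N : ℝ) ^ μ⌋₊ α P N : ℝ) ≤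
        (badW (fun t => b ≤ t ∧ A t) ⌊(N : ℝ) ^ μ⌋₊ α P N : ℝ) + (badW (fun t => b ≤ t ∧ A' t) ⌊(N : ℝ) ^ μ⌋₊ α P N : ℝ) := by
      exact_mod_cast b3
    linarith
  refine b4.trans ?_
  have e3 : (N : ℝ) ^ (1 - μ) = (N : ℝ) ^ μ * (N : ℝ) ^ (1 - 2 * μ) := by
    rw [← Real.rpow_add hN00]
    congr 1
    ring
  rw [e3]
  have e4 : 0 ≤ (N : ℝ) ^ (1 - 2 * μ) := by positivity
  nlinarith

end Pool.Agent.Q138.PS
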