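import Mathlib

set_option autoImplicit false

namespace Pool.Agent.Q138.PS

/-- the numbers `∑_{k ≤ M} 2 ^ k a (M - k)`, `M ≤ N`, determine `a 0, …, a N` -/
theorem conv_inj (a b : ℕ → ℕ) (N : ℕ) (h : ∀ M ≤ N, ∑ k ∈ Finset.range (M + 1), 2 ^ k * a (M - k) =
    ∑ k ∈ Finset.range (M + 1), 2 ^ k * b (M - k)) : ∀ k ≤ N, a k = b k := by
  intro M
  induction M using Nat.strong_induction_on with
  | _ M ih =>
    intro hM
    have h1 := h M hM
    rw [Finset.sum_range_succ', Finset.sum_range_succ'] at h1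
    have h2 : ∑ k ∈ Finset.range M, 2 ^ (k + 1) * a (M - (k + 1)) = ∑ k ∈ Finset.range M, 2 ^ (k + 1) * b (M - (k + 1)) := by
      refine Finset.sum_congr rfl fun k hk => ?_
      rw [Finset.mem_range] at hk
      rw [ih (M - (k + 1)) (by omega) (by omega)]
    rw [h2] at h1
    simpa using h1

end Pool.Agent.Q138.PS
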