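import Pool.Agent.Q138.PS.VU
import Pool.Agent.Q138.PS.VE

set_option autoImplicit false

/-!
# The points close to exceptional points of number fields
-/

namespace Pool.Agent.Q138.PS

open Filter MeasureTheory Topology NumberField

theorem num_coeff {A T T' : ℝ} (h1 : 1 ≤ T) (h2 : T ≤ T') : T ^ A ≤ T' ^ max A 0 :=
  (Real.rpow_le_rpow_of_exponent_le h1 (le_max_left _ _)).trans (Real.rpow_le_rpow (by linarith) h2 (le_max_right _ _))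

theorem num_value {B T T' : ℝ} (h0 : 1 ≤ T) (h1 : 2 ^ max B 0 ≤ T) (h2 : T ≤ T') (h3 : T' ≤ 2 * T) :
    T ^ (-(max B 0 + 1)) ≤ T' ^ (-B) := by
  have hB : 0 ≤ max B 0 := le_max_right _ _
  have e1 : T' ^ (-(max B 0)) ≤ T' ^ (-B) :=
    Real.rpow_le_rpow_of_exponent_le (h0.trans h2) (neg_le_neg (le_max_left _ _))
  refine le_trans ?_ e1
  have hT : 0 < T := by linarith
  have hT' : 0 < T' := by linarith
  rw [Real.rpow_neg hT.le, Real.rpow_neg hT'.le]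
  refine inv_anti₀ (Real.rpow_pos_of_pos hT' _) ?_
  refine (Real.rpow_le_rpow hT'.le h3 hB).trans ?_
  rw [Real.mul_rpow (by norm_num) hT.le, Real.rpow_add hT, Real.rpow_one, mul_comm]
  exact mul_le_mul_of_nonneg_left h1 (Real.rpow_nonneg hT.le _)

theorem dimH_one {n : ℕ} (F : Type) [Field F] [NumberField F] (ι : F →+* ℂ) (E E' : ℝ → Set (Fin n → F)) (P : ℝ → Set F)
    (hP : ∀ T, P T ⊆ {x : F | ∃ a b : 𝓞 F, b ≠ 0 ∧ (∀ φ : F →+* ℂ, ‖φ a‖ ≤ T ∧ ‖φ b‖ ≤ T) ∧ x = a / b})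
    (C T₀ T₁ ε θ : ℝ) (hε : 0 < ε) (hθ : 0 < θ)
    (h : ∀ T, T₀ ≤ T → (E' T).Finite ∧ ((E' T).ncard : ℝ) ≤ C * T ^ ε * ((P T).ncard : ℝ) ^ (n - 1))
    (hm : ∀ T T' : ℝ, T₁ ≤ T → T ≤ T' → T' ≤ 2 * T → E T ⊆ E' T') :
    dimH (Close ι E θ) ≤ ENNReal.ofReal ((2 * Module.finrank ℚ F * (n - 1 : ℕ) + ε) / θ) := by
  obtain ⟨D, hD, hq⟩ := count_quotients F
  set k : ℕ := 2 * Module.finrank ℚ F * (n - 1) with hk
  have hlim : Tendsto (fun i : ℕ => (2 : ℝ) ^ i) atTop atTop := tendsto_pow_atTop_atTop_of_one_lt (by norm_num)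
  set c : ℝ := 2 * Module.finrank ℚ F * (n - 1 : ℕ) + ε with hc
  have hc0 : 0 < c := by positivity
  refine dimH_close ι E (fun i => E' (2 ^ (i + 1))) θ c (|C| * D ^ (n - 1) * 2 ^ c) hθ hc0.le ?_ ?_ ?_
  · filter_upwards [hlim.eventually_ge_atTop T₀] with i hi
    refine (h _ (hi.trans ?_)).1
    exact pow_le_pow_right₀ (by norm_num) (by omega)
  · filter_upwards [hlim.eventually_ge_atTop T₀] with i hi
    have h1 : (2 : ℝ) ^ i ≤ 2 ^ (i + 1) := pow_le_pow_right₀ (by norm_num) (by omega)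
    have h2 : (1 : ℝ) ≤ 2 ^ (i + 1) := one_le_pow₀ (by norm_num)
    obtain ⟨q1, q2⟩ := hq _ h2
    have h3 : ((P (2 ^ (i + 1))).ncard : ℝ) ≤ D * ((2 : ℝ) ^ (i + 1)) ^ (2 * Module.finrank ℚ F) := by
      refine le_trans ?_ q2
      exact_mod_cast Set.ncard_le_ncard (hP _) q1
    have h4 : ((P (2 ^ (i + 1))).ncard : ℝ) ^ (n - 1) ≤ D ^ (n - 1) * ((2 : ℝ) ^ (i + 1)) ^ k := by
      refine (pow_le_pow_left₀ (by positivity) h3 _).trans_eq ?_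
      rw [mul_pow, ← pow_mul, hk]
    have h5 : (0 : ℝ) ≤ ((2 : ℝ) ^ (i + 1)) ^ ε := by positivity
    refine ((h _ (hi.trans h1)).2).trans ?_
    calc C * ((2 : ℝ) ^ (i + 1)) ^ ε * ((P (2 ^ (i + 1))).ncard : ℝ) ^ (n - 1)
        ≤ |C| * ((2 : ℝ) ^ (i + 1)) ^ ε * (D ^ (n - 1) * ((2 : ℝ) ^ (i + 1)) ^ k) := by
          refine mul_le_mul (mul_le_mul_of_nonneg_right (le_abs_self C) h5) h4 (by positivity) (by positivity)
      _ = |C| * D ^ (n - 1) * 2 ^ c * ((2 : ℝ) ^ i) ^ c := by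
          have e1 : ((2 : ℝ) ^ (i + 1)) ^ k = ((2 : ℝ) ^ (i + 1)) ^ (k : ℝ) := (Real.rpow_natCast _ _).symm
          have e2 : (2 : ℝ) ^ c * ((2 : ℝ) ^ i) ^ c = ((2 : ℝ) ^ (i + 1)) ^ c := by
            rw [← Real.mul_rpow (by norm_num) (by positivity), pow_succ, mul_comm]
          have e3 : ((2 : ℝ) ^ (i + 1)) ^ c = ((2 : ℝ) ^ (i + 1)) ^ ε * ((2 : ℝ) ^ (i + 1)) ^ (k : ℝ) := by
            rw [← Real.rpow_add (by positivity)]
            congr 1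
            rw [hc, hk]
            push_cast
            ring
          rw [mul_assoc (|C| * D ^ (n - 1)), e2, e3, e1]
          ring
  · filter_upwards [hlim.eventually_ge_atTop T₁] with i hi
    intro T h1 h2
    refine hm T _ (hi.trans h1) h2 ?_
    rw [pow_succ]
    linarith

/-- one exceptional set for all number fields of bounded degree inside `ℂ` and all coefficients from a countable set -/
theorem near_all {n m : ℕ} {Ξ : Type} (S : Set Ξ) (hS : S.Countable)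
    (E E' : ∀ (F : Type) [Field F] [NumberField F], (F →+* ℂ) → Ξ → ℝ → Set (Fin n → F))
    (P : ∀ (F : Type) [Field F] [NumberField F], (F →+* ℂ) → ℝ → Set F)
    (hP : ∀ (F : Type) [Field F] [NumberField F] (ι : F →+* ℂ) (T : ℝ),
      P F ι T ⊆ {x : F | ∃ a b : 𝓞 F, b ≠ 0 ∧ (∀ φ : F →+* ℂ, ‖φ a‖ ≤ T ∧ ‖φ b‖ ≤ T) ∧ x = a / b})
    (C T₀ T₁ ε θ : ℝ) (hε : 0 < ε) (hθ : 0 < θ)
    (h : ∀ (F : Type) [Field F] [NumberField F], Module.finrank ℚ F ≤ m → ∀ (ι : F →+* ℂ) (ξ : Ξ) (T : ℝ), T₀ ≤ T →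
      (E' F ι ξ T).Finite ∧ ((E' F ι ξ T).ncard : ℝ) ≤ C * T ^ ε * ((P F ι T).ncard : ℝ) ^ (n - 1))
    (hm : ∀ (F : Type) [Field F] [NumberField F] (ι : F →+* ℂ) (ξ : Ξ) (T T' : ℝ), T₁ ≤ T → T ≤ T' → T' ≤ 2 * T →
      E F ι ξ T ⊆ E' F ι ξ T') :
    ∃ Z : Set (Fin n → ℂ), dimH Z ≤ ENNReal.ofReal ((2 * m * (n - 1 : ℕ) + ε) / θ) ∧ ∀ z, z ∉ Z →
      ∀ (K : IntermediateField ℚ ℂ) [NumberField K], Module.finrank ℚ K ≤ m → ∀ ξ : Ξ, ξ ∈ S →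
        ∀ᶠ T : ℝ in atTop, ∀ t ∈ E K (algebraMap K ℂ) ξ T, ∃ j, T ^ (-θ) < ‖((t j : K) : ℂ) - z j‖ := by
  have hcN := countN
  have hcS := hS.to_subtype
  let Z : {K : IntermediateField ℚ ℂ // NumberField K} → S → Set (Fin n → ℂ) := fun K ξ =>
    haveI := K.2
    if Module.finrank ℚ K.1 ≤ m then Close (algebraMap K.1 ℂ) (E K.1 (algebraMap K.1 ℂ) ξ.1) θ else ∅
  have hZ : ∀ K ξ, dimH (Z K ξ) ≤ ENNReal.ofReal ((2 * m * (n - 1 : ℕ) + ε) / θ) := by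
    rintro ⟨K, hK⟩ ξ
    show dimH (if Module.finrank ℚ K ≤ m then Close (algebraMap K ℂ) (E K (algebraMap K ℂ) ξ.1) θ else ∅) ≤ _
    split_ifs with hd
    · refine (dimH_one K (algebraMap K ℂ) (E K (algebraMap K ℂ) ξ.1) (E' K (algebraMap K ℂ) ξ.1) (P K (algebraMap K ℂ))
        (hP K _) C T₀ T₁ ε θ hε hθ (fun T hT => h K hd _ _ T hT) (fun T T' h1 h2 h3 => hm K _ _ T T' h1 h2 h3)).trans ?_
      refine ENNReal.ofReal_le_ofReal ?_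
      have h1 : (Module.finrank ℚ K : ℝ) ≤ m := by exact_mod_cast hd
      gcongr
    · rw [dimH_empty]
      exact bot_le
  refine ⟨⋃ K, ⋃ ξ, Z K ξ, ?_, ?_⟩
  · rw [dimH_iUnion]
    refine iSup_le fun K => ?_
    rw [dimH_iUnion]
    exact iSup_le fun ξ => hZ K ξ
  · intro z hz K hK hd ξ hξ
    have h1 : z ∉ Z ⟨K, hK⟩ ⟨ξ, hξ⟩ := fun h2 => hz (Set.mem_iUnion.2 ⟨_, Set.mem_iUnion.2 ⟨_, h2⟩⟩)
    have h2 : Z ⟨K, hK⟩ ⟨ξ, hξ⟩ = Close (algebraMap K ℂ) (E K (algebraMap K ℂ) ξ) θ := if_pos hd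
    rw [h2] at h1
    have h3 : ¬ ∃ᶠ T : ℝ in atTop, ∃ s ∈ E K (algebraMap K ℂ) ξ T, ∀ j, ‖algebraMap K ℂ (s j) - z j‖ ≤ T ^ (-θ) := h1
    rw [not_frequently] at h3
    filter_upwards [h3] with T hT
    intro t ht
    by_contra hcon
    push Not at hcon
    exact hT ⟨t, ht, hcon⟩

end Pool.Agent.Q138.PS
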