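import Mathlib

set_option autoImplicit false

/-!
# Finitely generated spaces of coefficients inside a countable span
-/

namespace Pool.Agent.Q138.PS

theorem span_countable (A : Set ℂ) (hA : A.Countable) : Countable (Submodule.span ℚ A) := by
  have := hA.to_subtype
  have h : (Submodule.span ℚ A : Submodule ℚ ℂ) = LinearMap.range (Finsupp.linearCombination ℚ ((↑) : A → ℂ)) := by
    rw [Finsupp.range_linearCombination, Subtype.range_coe]
  rw [h]
  exact (LinearMap.surjective_rangeRestrict (Finsupp.linearCombination ℚ ((↑) : A → ℂ))).countable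

theorem countFG (A : Set ℂ) (hA : A.Countable) : Countable {K : Submodule ℚ ℂ // K.FG ∧ K ≤ Submodule.span ℚ A} := by
  classical
  have := span_countable A hA
  have hs : Function.Surjective (fun s : Finset (Submodule.span ℚ A) =>
      (⟨Submodule.span ℚ ((↑) '' (s : Set (Submodule.span ℚ A))),
        Submodule.fg_span (s.finite_toSet.image _), Submodule.span_le.2 (by
          rintro _ ⟨x, -, rfl⟩
          exact x.2)⟩ : {K : Submodule ℚ ℂ // K.FG ∧ K ≤ Submodule.span ℚ A})) := by
    rintro ⟨K, ⟨s, rfl⟩, hK⟩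
    refine ⟨s.subtype (fun x => x ∈ Submodule.span ℚ A), Subtype.ext ?_⟩
    show Submodule.span ℚ ((↑) '' (s.subtype (fun x => x ∈ Submodule.span ℚ A) : Set (Submodule.span ℚ A))) = Submodule.span ℚ (s : Set ℂ)
    congr 1
    ext x
    constructor
    · rintro ⟨y, hy, rfl⟩
      exact Finset.mem_subtype.1 hy
    · intro hx
      exact ⟨⟨x, hK (Submodule.subset_span hx)⟩, Finset.mem_subtype.2 hx, rfl⟩
  exact hs.countable

theorem fg_range (K : Submodule ℚ ℂ) (h : K.FG) : ∃ (g : ℕ) (θ : Fin g → ℂ), Submodule.span ℚ (Set.range θ) = K := by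
  obtain ⟨s, rfl⟩ := h
  refine ⟨s.card, fun i => (s.equivFin.symm i : ℂ), ?_⟩
  congr 1
  ext x
  constructor
  · rintro ⟨i, rfl⟩
    exact (s.equivFin.symm i).2
  · intro hx
    exact ⟨s.equivFin ⟨x, hx⟩, by simp⟩

/-- the space of a number field is finitely generated and spanned by algebraic numbers -/
theorem field_fg (K : IntermediateField ℚ ℂ) (hK : FiniteDimensional ℚ K) :
    (Subalgebra.toSubmodule K.toSubalgebra).FG ∧
      Subalgebra.toSubmodule K.toSubalgebra ≤ Submodule.span ℚ {x : ℂ | IsAlgebraic ℚ x} := by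
  constructor
  · exact (Submodule.fg_iff_finiteDimensional _).2 hK
  · intro x hx
    refine Submodule.subset_span ?_
    have h1 : IsAlgebraic ℚ (⟨x, hx⟩ : K) := Algebra.IsAlgebraic.isAlgebraic _
    exact h1.algebraMap (A := ℂ)

theorem alg_countable : {x : ℂ | IsAlgebraic ℚ x}.Countable := Algebraic.countable ℚ ℂ

end Pool.Agent.Q138.PS
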