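import Pool.Agent.Q138.PS.VU
import Pool.Agent.Q138.PS.VE

set_option autoImplicit false

/-!
# The points close to exceptional points of number fields: bounds of growing quality
-/

namespace Pool.Agent.Q138.PS

open Filter MeasureTheory Topology NumberField

theorem dimH_gen {X : Type} [Fintype X] (k : ℕ) (F : Type) [Field F] [NumberField F] (ι : F →+* ℂ) (E E' : ℝ → Set (X → F))
    (P : ℝ → Set F)
    (hP : ∀ T, P T ⊆ {x : F | ∃ a b : 𝓞 F, b ≠ 0 ∧ (∀ φ : F →+* ℂ, ‖φ a‖ ≤ T ∧ ‖φ b‖ ≤ T) ∧ x = a / b})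
    (C T₀ T₁ ε θ : ℝ) (hε : 0 < ε) (hθ : 0 < θ)
    (h : ∀ T, T₀ ≤ T → (E' T).Finite ∧ ((E' T).ncard : ℝ) ≤ C * T ^ ε * ((P T).ncard : ℝ) ^ k)
    (hm : ∀ T T' : ℝ, T₁ ≤ T → T ≤ T' → T' ≤ 2 * T → E T ⊆ E' T') :
    dimH (Close ι E θ) ≤ ENNReal.ofReal ((2 * Module.finrank ℚ F * k + ε) / θ) := by
  obtain ⟨D, hD, hq⟩ := count_quotients F
  set K : ℕ := 2 * Module.finrank ℚ F * k with hk
  have hlim : Tendsto (fun i : ℕ => (2 : ℝ) ^ i) atTop atTop := tendsto_pow_atTop_atTop_of_one_lt (by norm_num)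
  set c : ℝ := 2 * Module.finrank ℚ F * k + ε with hc
  have hc0 : 0 < c := by positivity
  refine dimH_close ι E (fun i => E' (2 ^ (i + 1))) θ c (|C| * D ^ k * 2 ^ c) hθ hc0.le ?_ ?_ ?_
  · filter_upwards [hlim.eventually_ge_atTop T₀] with i hi
    refine (h _ (hi.trans ?_)).1
    exact pow_le_pow_right₀ (by norm_num) (by omega)
  · filter_upwards [hlim.eventually_ge_atTop T₀] with i hi
    have h1 : (2 : ℝ) ^ i ≤ 2 ^ (i + 1) := pow_le_pow_right₀ (by norm_num) (by omega)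
    have h2 : (1 : ℝ) ≤ 2 ^ (i + 1) := one_le_pow₀ (by norm_num)
    obtain ⟨q1, q2⟩ := hq _ h2
    have h3 : ((P (2 ^ (i + 1))).ncard : ℝ) ≤ D * ((2 : ℝ) ^ (i + 1)) ^ (2 * Module.finrank ℚ F) := by
      refine le_trans ?_ q2
      exact_mod_cast Set.ncard_le_ncard (hP _) q1
    have h4 : ((P (2 ^ (i + 1))).ncard : ℝ) ^ k ≤ D ^ k * ((2 : ℝ) ^ (i + 1)) ^ K := by
      refine (pow_le_pow_left₀ (by positivity) h3 _).trans_eq ?_
      rw [mul_pow, ← pow_mul, hk]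
    have h5 : (0 : ℝ) ≤ ((2 : ℝ) ^ (i + 1)) ^ ε := by positivity
    refine ((h _ (hi.trans h1)).2).trans ?_
    calc C * ((2 : ℝ) ^ (i + 1)) ^ ε * ((P (2 ^ (i + 1))).ncard : ℝ) ^ k
        ≤ |C| * ((2 : ℝ) ^ (i + 1)) ^ ε * (D ^ k * ((2 : ℝ) ^ (i + 1)) ^ K) := by
          refine mul_le_mul (mul_le_mul_of_nonneg_right (le_abs_self C) h5) h4 (by positivity) (by positivity)
      _ = |C| * D ^ k * 2 ^ c * ((2 : ℝ) ^ i) ^ c := by
          have e1 : ((2 : ℝ) ^ (i + 1)) ^ K = ((2 : ℝ) ^ (i + 1)) ^ (K : ℝ) := (Real.rpow_natCast _ _).symm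
          have e2 : (2 : ℝ) ^ c * ((2 : ℝ) ^ i) ^ c = ((2 : ℝ) ^ (i + 1)) ^ c := by
            rw [← Real.mul_rpow (by norm_num) (by positivity), pow_succ, mul_comm]
          have e3 : ((2 : ℝ) ^ (i + 1)) ^ c = ((2 : ℝ) ^ (i + 1)) ^ ε * ((2 : ℝ) ^ (i + 1)) ^ (K : ℝ) := by
            rw [← Real.rpow_add (by positivity)]
            congr 1
            rw [hc, hk]
            push_cast
            ring
          rw [mul_assoc (|C| * D ^ k), e2, e3, e1]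
          ring
  · filter_upwards [hlim.eventually_ge_atTop T₁] with i hi
    intro T h1 h2
    refine hm T _ (hi.trans h1) h2 ?_
    rw [pow_succ]
    linarith

theorem dimH_omega {X : Type} [Fintype X] (k : ℕ) (F : Type) [Field F] [NumberField F] (ι : F →+* ℂ) (E : ℝ → Set (X → F))
    (P : ℝ → Set F)
    (hP : ∀ T, P T ⊆ {x : F | ∃ a b : 𝓞 F, b ≠ 0 ∧ (∀ φ : F →+* ℂ, ‖φ a‖ ≤ T ∧ ‖φ b‖ ≤ T) ∧ x = a / b})
    (ω : ℝ → ℕ) (hω : Tendsto ω atTop atTop) (θ : ℝ) (hθ : 0 < θ)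
    (h : ∀ᶠ T in atTop, (E T).Finite ∧ ((E T).ncard : ℝ) ≤ T ^ ((ω T : ℝ)⁻¹) * ((P T).ncard : ℝ) ^ k)
    (hm : ∀ᶠ T : ℝ in atTop, ∀ T' : ℝ, T ≤ T' → E T ⊆ E T') :
    dimH (Close ι E θ) ≤ ENNReal.ofReal (2 * Module.finrank ℚ F * k / θ) := by
  have h1 : ∀ ε : ℝ, 0 < ε → dimH (Close ι E θ) ≤ ENNReal.ofReal ((2 * Module.finrank ℚ F * k + ε) / θ) := by
    intro ε hε
    have h2 : ∀ᶠ T : ℝ in atTop, (ω T : ℝ)⁻¹ ≤ ε := by
      have h3 : Tendsto (fun T => (ω T : ℝ)⁻¹) atTop (𝓝 0) :=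
        tendsto_inv_atTop_zero.comp (tendsto_natCast_atTop_atTop.comp hω)
      exact (h3.eventually_lt_const hε).mono fun T hT => hT.le
    obtain ⟨T₀, hT₀⟩ := eventually_atTop.1 (h.and (h2.and (eventually_ge_atTop 1)))
    obtain ⟨T₁, hT₁⟩ := eventually_atTop.1 hm
    refine dimH_gen k F ι E E P hP 1 T₀ T₁ ε θ hε hθ (fun T hT => ?_) fun T T' h3 h4 _ => hT₁ T h3 T' h4
    obtain ⟨⟨g1, g2⟩, g3, g4⟩ := hT₀ T hT
    refine ⟨g1, g2.trans ?_⟩
    rw [one_mul]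
    exact mul_le_mul_of_nonneg_right (Real.rpow_le_rpow_of_exponent_le g4 g3) (by positivity)
  have h2 : Tendsto (fun ε : ℝ => ENNReal.ofReal ((2 * Module.finrank ℚ F * k + ε) / θ)) (𝓝[>] 0)
      (𝓝 (ENNReal.ofReal ((2 * Module.finrank ℚ F * k + 0) / θ))) := by
    refine ENNReal.tendsto_ofReal ?_
    refine Tendsto.mono_left ?_ nhdsWithin_le_nhds
    exact ((continuous_const.add continuous_id).div_const θ).tendsto 0
  rw [add_zero] at h2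
  refine ge_of_tendsto h2 ?_
  filter_upwards [self_mem_nhdsWithin] with ε hε
  exact h1 ε hε

/-- one exceptional set for all number fields of bounded degree inside `ℂ`, and a set of dimension zero for all number fields -/
theorem near_omega {X : Type} [Fintype X] (k : ℕ)
    (E : ∀ (F : Type) [Field F] [NumberField F], (F →+* ℂ) → ℝ → Set (X → F))
    (P : ∀ (F : Type) [Field F] [NumberField F], ℝ → Set F)
    (hP : ∀ (F : Type) [Field F] [NumberField F] (T : ℝ),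
      P F T ⊆ {x : F | ∃ a b : 𝓞 F, b ≠ 0 ∧ (∀ φ : F →+* ℂ, ‖φ a‖ ≤ T ∧ ‖φ b‖ ≤ T) ∧ x = a / b})
    (ω : ℝ → ℕ) (hω : Tendsto ω atTop atTop) (T₀ : ℝ)
    (h : ∀ T, T₀ ≤ T → ∀ (F : Type) [Field F] [NumberField F], Module.finrank ℚ F ≤ ω T → ∀ (ι : F →+* ℂ),
      (E F ι T).Finite ∧ ((E F ι T).ncard : ℝ) ≤ T ^ ((ω T : ℝ)⁻¹) * ((P F T).ncard : ℝ) ^ k)
    (hm : ∀ (F : Type) [Field F] [NumberField F] (ι : F →+* ℂ), ∀ᶠ T : ℝ in atTop, ∀ T' : ℝ, T ≤ T' → E F ι T ⊆ E F ι T') :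
    (∀ θ : ℝ, 0 < θ → ∀ m : ℕ, ∃ Z : Set (X → ℂ), dimH Z ≤ ENNReal.ofReal (2 * m * k / θ) ∧ ∀ z, z ∉ Z →
      ∀ (K : IntermediateField ℚ ℂ) [NumberField K], Module.finrank ℚ K ≤ m →
        ∀ᶠ T : ℝ in atTop, ∀ t ∈ E K (algebraMap K ℂ) T, ∃ j, T ^ (-θ) < ‖((t j : K) : ℂ) - z j‖) ∧
    ∃ Z : Set (X → ℂ), dimH Z = 0 ∧ ∀ z, z ∉ Z → ∀ (K : IntermediateField ℚ ℂ) [NumberField K],
      ∃ θ : ℝ, 0 < θ ∧ ∀ᶠ T : ℝ in atTop, ∀ t ∈ E K (algebraMap K ℂ) T, ∃ j, T ^ (-θ) < ‖((t j : K) : ℂ) - z j‖ := by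
  have hcN := countN
  have key : ∀ (K : IntermediateField ℚ ℂ) [NumberField K] (θ : ℝ), 0 < θ →
      dimH (Close (algebraMap K ℂ) (E K (algebraMap K ℂ)) θ) ≤ ENNReal.ofReal (2 * Module.finrank ℚ K * k / θ) := by
    intro K hK θ hθ
    refine dimH_omega k K (algebraMap K ℂ) (E K (algebraMap K ℂ)) (P K) (hP K) ω hω θ hθ ?_ (hm K _)
    filter_upwards [eventually_ge_atTop T₀, hω.eventually_ge_atTop (Module.finrank ℚ K)] with T hT hT'
    exact h T hT K hT' (algebraMap K ℂ)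
  have out : ∀ (K : IntermediateField ℚ ℂ) [NumberField K] (θ : ℝ) (z : X → ℂ),
      z ∉ Close (algebraMap K ℂ) (E K (algebraMap K ℂ)) θ →
      ∀ᶠ T : ℝ in atTop, ∀ t ∈ E K (algebraMap K ℂ) T, ∃ j, T ^ (-θ) < ‖((t j : K) : ℂ) - z j‖ := by
    intro K hK θ z hz
    have h3 : ¬ ∃ᶠ T : ℝ in atTop, ∃ s ∈ E K (algebraMap K ℂ) T, ∀ j, ‖algebraMap K ℂ (s j) - z j‖ ≤ T ^ (-θ) := hz
    rw [not_frequently] at h3
    filter_upwards [h3] with T hT
    intro t ht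
    by_contra hcon
    push Not at hcon
    exact hT ⟨t, ht, hcon⟩
  constructor
  · intro θ hθ m
    let Z : {K : IntermediateField ℚ ℂ // NumberField K} → Set (X → ℂ) := fun K =>
      haveI := K.2
      if Module.finrank ℚ K.1 ≤ m then Close (algebraMap K.1 ℂ) (E K.1 (algebraMap K.1 ℂ)) θ else ∅
    refine ⟨⋃ K, Z K, ?_, ?_⟩
    · rw [dimH_iUnion]
      refine iSup_le fun K => ?_
      obtain ⟨K, hK⟩ := K
      show dimH (if Module.finrank ℚ K ≤ m then Close (algebraMap K ℂ) (E K (algebraMap K ℂ)) θ else ∅) ≤ _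
      split_ifs with hd
      · refine (key K θ hθ).trans (ENNReal.ofReal_le_ofReal ?_)
        have h1 : (Module.finrank ℚ K : ℝ) ≤ m := by exact_mod_cast hd
        gcongr
      · rw [dimH_empty]
        exact bot_le
    · intro z hz K hK hd
      have h1 : z ∉ Z ⟨K, hK⟩ := fun h2 => hz (Set.mem_iUnion.2 ⟨_, h2⟩)
      have h2 : Z ⟨K, hK⟩ = Close (algebraMap K ℂ) (E K (algebraMap K ℂ)) θ := if_pos hd
      rw [h2] at h1
      exact out K θ z h1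
  · let Z : {K : IntermediateField ℚ ℂ // NumberField K} → Set (X → ℂ) := fun K =>
      haveI := K.2
      ⋂ i : ℕ, Close (algebraMap K.1 ℂ) (E K.1 (algebraMap K.1 ℂ)) (i + 1)
    refine ⟨⋃ K, Z K, ?_, ?_⟩
    · rw [dimH_iUnion]
      refine le_antisymm (iSup_le fun K => ?_) bot_le
      obtain ⟨K, hK⟩ := K
      have h1 : ∀ i : ℕ, dimH (Z ⟨K, hK⟩) ≤ ENNReal.ofReal (2 * Module.finrank ℚ K * k / ((i : ℝ) + 1)) := by
        intro i
        refine (dimH_mono (Set.iInter_subset _ i)).trans (key K ((i : ℝ) + 1) (by positivity))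
      have h2 : Tendsto (fun i : ℕ => ENNReal.ofReal (2 * Module.finrank ℚ K * k / ((i : ℝ) + 1))) atTop (𝓝 0) := by
        rw [← ENNReal.ofReal_zero]
        refine ENNReal.tendsto_ofReal ?_
        refine Tendsto.div_atTop tendsto_const_nhds ?_
        exact tendsto_atTop_add_const_right _ _ tendsto_natCast_atTop_atTop
      exact ge_of_tendsto' h2 h1
    · intro z hz K hK
      have h1 : z ∉ Z ⟨K, hK⟩ := fun h2 => hz (Set.mem_iUnion.2 ⟨_, h2⟩)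
      have h2 : ∃ i : ℕ, z ∉ Close (algebraMap K ℂ) (E K (algebraMap K ℂ)) ((i : ℝ) + 1) := by
        by_contra hcon
        push Not at hcon
        exact h1 (Set.mem_iInter.2 hcon)
      obtain ⟨i, hi⟩ := h2
      exact ⟨(i : ℝ) + 1, by positivity, out K _ z hi⟩

end Pool.Agent.Q138.PS
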