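import Pool.Agent.Q138.PS.VU

set_option autoImplicit false

/-!
# The points of a metric space close to the images of exceptional objects
-/

namespace Pool.Agent.Q138.PS

open Filter MeasureTheory Topology

theorem dimH_map_aux {A Y : Type} [MetricSpace Y] [MeasurableSpace Y] [BorelSpace Y] (p : A → Y) (E : ℝ → Set A)
    (E₁ : ℕ → Set A) (θ c C : ℝ) (hθ : 0 < θ) (hc : 0 ≤ c) (h1 : ∀ᶠ i : ℕ in atTop, (E₁ i).Finite)
    (h2 : ∀ᶠ i : ℕ in atTop, ((E₁ i).ncard : ℝ) ≤ C * ((2 : ℝ) ^ i) ^ c)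
    (h3 : ∀ᶠ i : ℕ in atTop, ∀ T : ℝ, 2 ^ i ≤ T → T ≤ 2 ^ (i + 1) → E T ⊆ E₁ i) :
    dimH {z : Y | ∃ᶠ T : ℝ in atTop, ∃ s ∈ E T, dist (p s) z ≤ T ^ (-θ)} ≤ ENNReal.ofReal (c / θ) := by
  classical
  set P : ℕ → Finset Y := fun i =>
    (if h : (E₁ i).Finite then h.toFinset else ∅).image p with hP
  have hcard : ∀ᶠ i : ℕ in atTop, ((P i).card : ℝ) ≤ C * ((2 : ℝ) ^ i) ^ c := by
    filter_upwards [h1, h2] with i hi1 hi2
    refine le_trans ?_ hi2
    rw [hP]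
    simp only [dif_pos hi1]
    rw [Set.ncard_eq_toFinset_card _ hi1]
    exact_mod_cast Finset.card_image_le
  have hsub : {z : Y | ∃ᶠ T : ℝ in atTop, ∃ s ∈ E T, dist (p s) z ≤ T ^ (-θ)} ⊆ {α : Y | ∃ᶠ i in atTop, ∃ y ∈ P i, dist y α ≤ ((2 : ℝ) ^ i) ^ (-θ)} := by
    intro z hz
    obtain ⟨N₀, hN₀⟩ := eventually_atTop.1 (h1.and h3)
    show ∃ᶠ i in atTop, ∃ y ∈ P i, dist y z ≤ ((2 : ℝ) ^ i) ^ (-θ)
    rw [frequently_atTop]
    intro N
    obtain ⟨T, hT, s, hs, hz'⟩ := frequently_atTop.1 hz ((2 : ℝ) ^ (max N N₀))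
    have hT1 : (1 : ℝ) ≤ T := (one_le_pow₀ (by norm_num)).trans hT
    have hfl : 1 ≤ ⌊T⌋₊ := Nat.le_floor (by exact_mod_cast hT1)
    set i : ℕ := Nat.log 2 ⌊T⌋₊ with hi
    have hi1 : (2 : ℝ) ^ i ≤ T := by
      have h4 : 2 ^ i ≤ ⌊T⌋₊ := Nat.pow_log_le_self 2 (by omega)
      have h5 : ((2 ^ i : ℕ) : ℝ) ≤ ⌊T⌋₊ := by exact_mod_cast h4
      push_cast at h5
      exact h5.trans (Nat.floor_le (by linarith))
    have hi2 : T ≤ (2 : ℝ) ^ (i + 1) := by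
      have h4 : ⌊T⌋₊ < 2 ^ (i + 1) := Nat.lt_pow_succ_log_self (by norm_num) _
      have h5 : T < ⌊T⌋₊ + 1 := Nat.lt_floor_add_one T
      have h6 : ((⌊T⌋₊ + 1 : ℕ) : ℝ) ≤ ((2 ^ (i + 1) : ℕ) : ℝ) := by exact_mod_cast h4
      push_cast at h6
      linarith
    have hiN : max N N₀ ≤ i := by
      rw [hi]
      apply Nat.le_log_of_pow_le (by norm_num)
      apply Nat.le_floor
      push_cast
      exact hT
    obtain ⟨h4, h5⟩ := hN₀ i ((le_max_right _ _).trans hiN)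
    refine ⟨i, (le_max_left _ _).trans hiN, p s, ?_, ?_⟩
    · rw [hP]
      simp only [dif_pos h4]
      rw [Finset.mem_image]
      exact ⟨s, (Set.Finite.mem_toFinset _).2 (h5 T hi1 hi2 hs), rfl⟩
    · exact hz'.trans (Real.rpow_le_rpow_of_nonpos (by positivity) hi1 (by linarith))
  refine (dimH_mono hsub).trans ?_
  have hdk : ∀ d : ℝ, c / θ < d → dimH {α : Y | ∃ᶠ i in atTop, ∃ y ∈ P i, dist y α ≤ ((2 : ℝ) ^ i) ^ (-θ)} ≤
      ENNReal.ofReal d := by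
    intro d hd
    have hd0 : 0 < d := lt_of_le_of_lt (by positivity) hd
    refine dimH_limsup P (fun i => ((2 : ℝ) ^ i) ^ (-θ)) (fun i => by positivity) ?_ d hd0.le ?_
    · have h4 : Tendsto (fun i : ℕ => (2 : ℝ) ^ i) atTop atTop := tendsto_pow_atTop_atTop_of_one_lt (by norm_num)
      exact (tendsto_rpow_neg_atTop hθ).comp h4
    · have hgeo : Summable fun i : ℕ => C * ((2 : ℝ) ^ (c - θ * d)) ^ i := by
        refine (summable_geometric_of_lt_one (by positivity) ?_).mul_left C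
        apply Real.rpow_lt_one_of_one_lt_of_neg (by norm_num)
        rw [div_lt_iff₀ hθ] at hd
        linarith
      refine Summable.of_norm_bounded_eventually_nat hgeo ?_
      filter_upwards [hcard] with i hi
      rw [Real.norm_of_nonneg (by positivity)]
      calc ((P i).card : ℝ) * (((2 : ℝ) ^ i) ^ (-θ)) ^ d ≤ (C * ((2 : ℝ) ^ i) ^ c) * (((2 : ℝ) ^ i) ^ (-θ)) ^ d := by
            gcongr
        _ = C * (((2 : ℝ) ^ i) ^ c * ((2 : ℝ) ^ i) ^ (-θ * d)) := by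
            rw [← Real.rpow_mul (by positivity), mul_assoc]
        _ = C * ((2 : ℝ) ^ (c - θ * d)) ^ i := by
            rw [← Real.rpow_add (by positivity), ← Real.rpow_natCast (2 : ℝ) i, ← Real.rpow_mul (by norm_num),
              ← Real.rpow_natCast, ← Real.rpow_mul (by norm_num)]
            congr 2
            ring
  refine le_of_forall_gt fun b hb => ?_
  obtain ⟨d, hd1, hd2⟩ : ∃ d : ℝ, c / θ < d ∧ ENNReal.ofReal d < b := by
    rcases eq_or_ne b ⊤ with hb' | hb'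
    · exact ⟨c / θ + 1, by linarith, by rw [hb']; exact ENNReal.ofReal_lt_top⟩
    · obtain ⟨d, hd1, hd2⟩ := exists_between ((ENNReal.ofReal_lt_iff_lt_toReal (by positivity) hb').1 hb)
      refine ⟨d, hd1, (ENNReal.ofReal_lt_iff_lt_toReal ?_ hb').2 hd2⟩
      exact (lt_of_le_of_lt (by positivity) hd1).le
  exact (hdk d hd1).trans_lt hd2

/-- the points `z` of `Y` with elements of `E T` with image at distance at most `T ^ (-θ)` for arbitrarily large `T` -/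
theorem dimH_map {A Y : Type} [MetricSpace Y] [MeasurableSpace Y] [BorelSpace Y] (p : A → Y) (E E' : ℝ → Set A)
    (θ c C T₀ T₁ : ℝ) (hθ : 0 < θ) (hc : 0 ≤ c)
    (h : ∀ T, T₀ ≤ T → (E' T).Finite ∧ ((E' T).ncard : ℝ) ≤ C * T ^ c)
    (hm : ∀ T T' : ℝ, T₁ ≤ T → T ≤ T' → T' ≤ 2 * T → E T ⊆ E' T') :
    dimH {z : Y | ∃ᶠ T : ℝ in atTop, ∃ s ∈ E T, dist (p s) z ≤ T ^ (-θ)} ≤ ENNReal.ofReal (c / θ) := by
  have hlim : Tendsto (fun i : ℕ => (2 : ℝ) ^ i) atTop atTop := tendsto_pow_atTop_atTop_of_one_lt (by norm_num)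
  refine dimH_map_aux p E (fun i => E' (2 ^ (i + 1))) θ c (C * 2 ^ c) hθ hc ?_ ?_ ?_
  · filter_upwards [hlim.eventually_ge_atTop T₀] with i hi
    exact (h _ (hi.trans (pow_le_pow_right₀ (by norm_num) (by omega)))).1
  · filter_upwards [hlim.eventually_ge_atTop T₀] with i hi
    refine ((h _ (hi.trans (pow_le_pow_right₀ (by norm_num) (by omega)))).2).trans_eq ?_
    rw [pow_succ, Real.mul_rpow (by positivity) (by norm_num)]
    ring
  · filter_upwards [hlim.eventually_ge_atTop T₁] with i hi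
    intro T h1 h2
    refine hm T _ (hi.trans h1) h2 ?_
    rw [pow_succ]
    linarith

/-- a set of dimension at most `c / θ` outside of which no point is close to `E T` -/
theorem far_map {A Y : Type} [MetricSpace Y] [MeasurableSpace Y] [BorelSpace Y] (p : A → Y) (E E' : ℝ → Set A)
    (θ c C T₀ T₁ : ℝ) (hθ : 0 < θ) (hc : 0 ≤ c)
    (h : ∀ T, T₀ ≤ T → (E' T).Finite ∧ ((E' T).ncard : ℝ) ≤ C * T ^ c)
    (hm : ∀ T T' : ℝ, T₁ ≤ T → T ≤ T' → T' ≤ 2 * T → E T ⊆ E' T') :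
    ∃ Z : Set Y, dimH Z ≤ ENNReal.ofReal (c / θ) ∧ ∀ z, z ∉ Z → ∀ᶠ T : ℝ in atTop, ∀ s ∈ E T, T ^ (-θ) < dist (p s) z := by
  refine ⟨_, dimH_map p E E' θ c C T₀ T₁ hθ hc h hm, fun z hz => ?_⟩
  have h3 : ¬ ∃ᶠ T : ℝ in atTop, ∃ s ∈ E T, dist (p s) z ≤ T ^ (-θ) := hz
  rw [not_frequently] at h3
  filter_upwards [h3] with T hT
  intro t ht
  by_contra hcon
  exact hT ⟨t, ht, not_lt.1 hcon⟩

end Pool.Agent.Q138.PS
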