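import Pool.Agent.Q138.PS.VU
import Pool.Agent.W232.VA.D

set_option autoImplicit false

/-!
# The number of elements of bounded height of a number field
-/

namespace Pool.Agent.Q138.PS

open NumberField Height

theorem count_height (K : Type) [Field K] [NumberField K] :
    ∃ C : ℝ, 1 ≤ C ∧ ∀ T : ℝ, 1 ≤ T → {x : K | mulHeight₁ x ≤ T}.Finite ∧
      ({x : K | mulHeight₁ x ≤ T}.ncard : ℝ) ≤ C * T ^ 2 := by
  classical
  obtain ⟨C, hC, h⟩ := count_integers K
  obtain ⟨R, hR, hrep⟩ := Pool.Agent.W232.VA.rep K (n := 1)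
  set d : ℕ := Module.finrank ℚ K with hd
  have hd0 : 0 < d := Module.finrank_pos
  set R' : ℝ := max R 1 with hR'
  have hR1 : 1 ≤ R' := le_max_right _ _
  refine ⟨(C * R' ^ d) ^ 2, one_le_pow₀ (one_le_mul_of_one_le_of_one_le hC (one_le_pow₀ hR1)), fun T hT => ?_⟩
  set D : ℝ := R' * T ^ (1 / (d : ℝ)) with hD
  have hT1 : 1 ≤ T ^ (1 / (d : ℝ)) := Real.one_le_rpow hT (by positivity)
  have hD1 : 1 ≤ D := one_le_mul_of_one_le_of_one_le hR1 hT1
  have hDd : D ^ d = R' ^ d * T := by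
    rw [hD, mul_pow, ← Real.rpow_natCast (T ^ (1 / (d : ℝ))) d, ← Real.rpow_mul (by linarith),
      one_div_mul_cancel (by exact_mod_cast hd0.ne'), Real.rpow_one]
  obtain ⟨hfin, hcard⟩ := h D hD1
  set I : Set (𝓞 K) := {a : 𝓞 K | ∀ φ : K →+* ℂ, ‖φ a‖ ≤ D} with hI
  have hsub : {x : K | mulHeight₁ x ≤ T} ⊆ (fun p : 𝓞 K × 𝓞 K => (p.1 / p.2 : K)) '' (I ×ˢ I) := by
    intro x hx
    have hx0 : (![x, 1] : Fin 2 → K) ≠ 0 := by
      intro h0
      have := congrFun h0 1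
      simp at this
    obtain ⟨t, ht, y, hy, hyw⟩ := hrep ![x, 1] hx0
    have hb : ∀ j, y j ∈ I := by
      intro j φ
      have h1 := hyw (InfinitePlace.mk φ) j
      rw [InfinitePlace.apply] at h1
      refine h1.trans ?_
      have h2 : mulHeight (![x, 1] : Fin 2 → K) ≤ T := by
        rw [← mulHeight₁_eq_mulHeight]
        exact hx
      rw [hD]
      refine mul_le_mul (le_max_left _ _) ?_ (Real.rpow_nonneg ?_ _) (by linarith)
      · exact Real.rpow_le_rpow (mulHeight_pos _).le h2 (by positivity)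
      · exact (mulHeight_pos _).le
    refine ⟨(y 0, y 1), ⟨hb 0, hb 1⟩, ?_⟩
    show ((y 0 : 𝓞 K) : K) / ((y 1 : 𝓞 K) : K) = x
    rw [hy 0, hy 1]
    simp only [Matrix.cons_val_zero, Matrix.cons_val_one, mul_one]
    rw [mul_div_assoc, mul_comm, div_mul_cancel₀ _ ht]
  have hf2 : (I ×ˢ I).Finite := hfin.prod hfin
  refine ⟨(hf2.image _).subset hsub, ?_⟩
  have h1 : {x : K | mulHeight₁ x ≤ T}.ncard ≤ (I ×ˢ I).ncard :=
    (Set.ncard_le_ncard hsub (hf2.image _)).trans (Set.ncard_image_le hf2)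
  rw [Set.ncard_prod] at h1
  have h2 : ({x : K | mulHeight₁ x ≤ T}.ncard : ℝ) ≤ (I.ncard : ℝ) * I.ncard := by exact_mod_cast h1
  refine h2.trans ?_
  have h3 : (I.ncard : ℝ) ≤ C * (R' ^ d * T) := by rw [← hDd]; exact hcard
  calc (I.ncard : ℝ) * I.ncard ≤ (C * (R' ^ d * T)) * (C * (R' ^ d * T)) :=
        mul_le_mul h3 h3 (by positivity) (by positivity)
    _ = _ := by ring

end Pool.Agent.Q138.PS
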