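import Pool.Agent.Q138.PS.WF
import Pool.Agent.Q138.PS.WA

set_option autoImplicit false

/-!
# Compact sets are inside the sets of a countable family; bounds for all qualities of approximation
-/

namespace Pool.Agent.Q138.PS

open Filter MeasureTheory Topology NumberField

theorem compact_inner {Ω L : Set ℂ} (hΩ : IsOpen Ω) (hL : IsCompact L) (hLΩ : L ⊆ Ω) : ∃ k : ℕ, L ⊆ inner Ω k := by
  classical
  choose! k r hr hk using fun z (hz : z ∈ L) => inner_nhds hΩ (hLΩ hz)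
  obtain ⟨t, hc⟩ := hL.elim_nhds_subcover' (fun z hz => Metric.ball z (r z)) fun z hz => Metric.ball_mem_nhds z (hr z hz)
  refine ⟨∑ z ∈ t, k z, fun y hy => ?_⟩
  obtain ⟨z, hz, hyz⟩ := Set.mem_iUnion₂.1 (hc hy)
  have h1 : k z ≤ ∑ z ∈ t, k z := Finset.single_le_sum (f := fun z : L => k z) (fun _ _ => Nat.zero_le _) hz
  exact inner_mono _ h1 (hk z z.2 y (Metric.mem_ball.1 hyz).le)

/-- the bound of `dimH_one` for all `θ` at once -/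
theorem dimH_theta {n : ℕ} (F : Type) [Field F] [NumberField F] (ι : F →+* ℂ) (E E' : ℝ → Set (Fin n → F)) (P : ℝ → Set F)
    (hP : ∀ T, P T ⊆ {x : F | ∃ a b : 𝓞 F, b ≠ 0 ∧ (∀ φ : F →+* ℂ, ‖φ a‖ ≤ T ∧ ‖φ b‖ ≤ T) ∧ x = a / b})
    (C T₀ T₁ : ℝ)
    (h : ∀ T, T₀ ≤ T → (E' T).Finite ∧ ((E' T).ncard : ℝ) ≤ C * T ^ (1 : ℝ) * ((P T).ncard : ℝ) ^ (n - 1))
    (hm : ∀ T T' : ℝ, T₁ ≤ T → T ≤ T' → T' ≤ 2 * T → E T ⊆ E' T') :
    ∃ c : ℝ, ∀ θ : ℝ, 0 < θ → dimH (Close ι E θ) ≤ ENNReal.ofReal (c / θ) :=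
  ⟨_, fun θ hθ => dimH_one F ι E E' P hP C T₀ T₁ 1 θ one_pos hθ h hm⟩

end Pool.Agent.Q138.PS
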