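import Pool.Agent.Q138.PS.WE
import Pool.Agent.Q138.PS.WG

set_option autoImplicit false

/-!
# The points close to exceptional points of a number field, ordered by the height
-/

namespace Pool.Agent.Q138.PS

open Filter MeasureTheory Topology NumberField Height

theorem dimH_height {n : ℕ} (k : Type) [Field k] [NumberField k] (σ : k →+* ℂ) (E E' : ℝ → Set (Fin n → k))
    (C T₀ T₁ ε θ : ℝ) (hε : 0 < ε) (hθ : 0 < θ)
    (h : ∀ T, T₀ ≤ T → (E' T).Finite ∧ ((E' T).ncard : ℝ) ≤ C * T ^ ε * ({x : k | mulHeight₁ x ≤ T}.ncard : ℝ) ^ (n - 1))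
    (hm : ∀ T T' : ℝ, T₁ ≤ T → T ≤ T' → T' ≤ 2 * T → E T ⊆ E' T') :
    dimH (Close σ E θ) ≤ ENNReal.ofReal ((2 * (n - 1 : ℕ) + ε) / θ) := by
  obtain ⟨D, hD, hq⟩ := count_height k
  have hlim : Tendsto (fun i : ℕ => (2 : ℝ) ^ i) atTop atTop := tendsto_pow_atTop_atTop_of_one_lt (by norm_num)
  set c : ℝ := 2 * (n - 1 : ℕ) + ε with hc
  have hc0 : 0 < c := by positivity
  refine dimH_close σ E (fun i => E' (2 ^ (i + 1))) θ c (|C| * D ^ (n - 1) * 2 ^ c) hθ hc0.le ?_ ?_ ?_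
  · filter_upwards [hlim.eventually_ge_atTop T₀] with i hi
    exact (h _ (hi.trans (pow_le_pow_right₀ (by norm_num) (by omega)))).1
  · filter_upwards [hlim.eventually_ge_atTop T₀] with i hi
    have h1 : (2 : ℝ) ^ i ≤ 2 ^ (i + 1) := pow_le_pow_right₀ (by norm_num) (by omega)
    have h2 : (1 : ℝ) ≤ 2 ^ (i + 1) := one_le_pow₀ (by norm_num)
    have h3 := (hq _ h2).2
    have h4 : ({x : k | mulHeight₁ x ≤ (2 : ℝ) ^ (i + 1)}.ncard : ℝ) ^ (n - 1) ≤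
        D ^ (n - 1) * ((2 : ℝ) ^ (i + 1)) ^ (2 * (n - 1)) := by
      refine (pow_le_pow_left₀ (by positivity) h3 _).trans_eq ?_
      rw [mul_pow, ← pow_mul]
    have h5 : (0 : ℝ) ≤ ((2 : ℝ) ^ (i + 1)) ^ ε := by positivity
    refine ((h _ (hi.trans h1)).2).trans ?_
    calc C * ((2 : ℝ) ^ (i + 1)) ^ ε * ({x : k | mulHeight₁ x ≤ (2 : ℝ) ^ (i + 1)}.ncard : ℝ) ^ (n - 1)
        ≤ |C| * ((2 : ℝ) ^ (i + 1)) ^ ε * (D ^ (n - 1) * ((2 : ℝ) ^ (i + 1)) ^ (2 * (n - 1))) := by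
          refine mul_le_mul (mul_le_mul_of_nonneg_right (le_abs_self C) h5) h4 (by positivity) (by positivity)
      _ = |C| * D ^ (n - 1) * 2 ^ c * ((2 : ℝ) ^ i) ^ c := by
          have e1 : ((2 : ℝ) ^ (i + 1)) ^ (2 * (n - 1)) = ((2 : ℝ) ^ (i + 1)) ^ ((2 * (n - 1) : ℕ) : ℝ) :=
            (Real.rpow_natCast _ _).symm
          have e2 : (2 : ℝ) ^ c * ((2 : ℝ) ^ i) ^ c = ((2 : ℝ) ^ (i + 1)) ^ c := by
            rw [← Real.mul_rpow (by norm_num) (by positivity), pow_succ, mul_comm]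
          have e3 : ((2 : ℝ) ^ (i + 1)) ^ c = ((2 : ℝ) ^ (i + 1)) ^ ε * ((2 : ℝ) ^ (i + 1)) ^ ((2 * (n - 1) : ℕ) : ℝ) := by
            rw [← Real.rpow_add (by positivity)]
            congr 1
            rw [hc]
            push_cast
            ring
          rw [mul_assoc (|C| * D ^ (n - 1)), e2, e3, e1]
          ring
  · filter_upwards [hlim.eventually_ge_atTop T₁] with i hi
    intro T h1 h2
    refine hm T _ (hi.trans h1) h2 ?_
    rw [pow_succ]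
    linarith

theorem far_close {X F : Type} [Field F] (ι : F →+* ℂ) (E : ℝ → Set (X → F)) (θ : ℝ) (z : X → ℂ) (hz : z ∉ Close ι E θ) :
    ∀ᶠ T : ℝ in atTop, ∀ s ∈ E T, ∃ j, T ^ (-θ) < ‖ι (s j) - z j‖ := by
  have h3 : ¬ ∃ᶠ T : ℝ in atTop, ∃ s ∈ E T, ∀ j, ‖ι (s j) - z j‖ ≤ T ^ (-θ) := hz
  rw [not_frequently] at h3
  filter_upwards [h3] with T hT
  intro t ht
  by_contra hcon
  push Not at hcon
  exact hT ⟨t, ht, hcon⟩

end Pool.Agent.Q138.PS
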