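import Pool.Agent.Q138.PS.WD
import Pool.Agent.Q138.PS.WF

set_option autoImplicit false

/-!
# Tuples of rational numbers close to given real points
-/

namespace Pool.Agent.Q138.PS

open Filter MeasureTheory Topology

/-- a set of dimension zero for countably many kinds of exceptional objects at once -/
theorem zero_all {Y : Type} [MetricSpace Y] {J : Type} [Countable J] (A : J → Type) (p : ∀ i, A i → Y)
    (Bad : ∀ i, ℝ → ℝ → Set (A i))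
    (h : ∀ i : J, ∃ B c : ℝ, ∀ θ : ℝ, 0 < θ →
      dimH {z : Y | ∃ᶠ T : ℝ in atTop, ∃ s ∈ Bad i B T, dist (p i s) z ≤ T ^ (-θ)} ≤ ENNReal.ofReal (c / θ)) :
    ∃ Z : Set Y, dimH Z = 0 ∧ ∀ z, z ∉ Z → ∀ i, ∃ B θ : ℝ, 0 < θ ∧ ∀ᶠ T : ℝ in atTop, ∀ s ∈ Bad i B T,
      T ^ (-θ) < dist (p i s) z := by
  choose B c hc using h
  refine ⟨⋃ i, ⋂ m : ℕ, {z : Y | ∃ᶠ T : ℝ in atTop, ∃ s ∈ Bad i (B i) T, dist (p i s) z ≤ T ^ (-((m : ℝ) + 1))},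
    zero_dim _ c fun i m => hc i _ (by positivity), fun z hz i => ?_⟩
  have h1 : ∃ m : ℕ, z ∉ {z : Y | ∃ᶠ T : ℝ in atTop, ∃ s ∈ Bad i (B i) T, dist (p i s) z ≤ T ^ (-((m : ℝ) + 1))} := by
    by_contra hcon
    push Not at hcon
    exact hz (Set.mem_iUnion.2 ⟨i, Set.mem_iInter.2 hcon⟩)
  obtain ⟨m, hm⟩ := h1
  refine ⟨B i, (m : ℝ) + 1, by positivity, ?_⟩
  have h3 : ¬ ∃ᶠ T : ℝ in atTop, ∃ s ∈ Bad i (B i) T, dist (p i s) z ≤ T ^ (-((m : ℝ) + 1)) := hm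
  rw [not_frequently] at h3
  filter_upwards [h3] with T hT
  intro s hs
  by_contra hcon
  exact hT ⟨s, hs, not_lt.1 hcon⟩

theorem far_pi {n : ℕ} {x z : Fin n → ℝ} {r : ℝ} (hr : 0 ≤ r) (h : r < dist x z) : ∃ j, r < |x j - z j| := by
  by_contra hcon
  push Not at hcon
  refine absurd h (not_lt.2 ((dist_pi_le_iff hr).2 fun j => ?_))
  rw [Real.dist_eq]
  exact hcon j

/-- tuples of rational numbers: fixed quality of approximation -/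
theorem far_rat {n : ℕ} (E E' : ℝ → Set (Fin n → ℚ)) (θ c C T₀ T₁ : ℝ) (hθ : 0 < θ) (hc : 0 ≤ c)
    (h : ∀ T, T₀ ≤ T → (E' T).Finite ∧ ((E' T).ncard : ℝ) ≤ C * T ^ c)
    (hm : ∀ T T' : ℝ, T₁ ≤ T → T ≤ T' → T' ≤ 2 * T → E T ⊆ E' T') :
    ∃ Z : Set (Fin n → ℝ), dimH Z ≤ ENNReal.ofReal (c / θ) ∧ ∀ z, z ∉ Z → ∀ᶠ T : ℝ in atTop, ∀ q ∈ E T,
      ∃ j, T ^ (-θ) < |(q j : ℝ) - z j| := by
  obtain ⟨Z, hZ, hz⟩ := far_map (fun (q : Fin n → ℚ) (j : Fin n) => (q j : ℝ)) E E' θ c C T₀ T₁ hθ hc h hm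
  refine ⟨Z, hZ, fun z hzZ => ?_⟩
  filter_upwards [hz z hzZ, eventually_ge_atTop 0] with T hT hT0
  intro q hq
  exact far_pi (Real.rpow_nonneg hT0 _) (hT q hq)

/-- tuples of rational numbers: a set of dimension zero -/
theorem zero_rat {n : ℕ} {J : Type} [Countable J] (Bad : J → ℝ → ℝ → Set (Fin n → ℚ))
    (h : ∀ i : J, ∃ (B : ℝ) (E' : ℝ → Set (Fin n → ℚ)) (c C T₀ T₁ : ℝ), 0 ≤ c ∧
      (∀ T, T₀ ≤ T → (E' T).Finite ∧ ((E' T).ncard : ℝ) ≤ C * T ^ c) ∧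
      ∀ T T' : ℝ, T₁ ≤ T → T ≤ T' → T' ≤ 2 * T → Bad i B T ⊆ E' T') :
    ∃ Z : Set (Fin n → ℝ), dimH Z = 0 ∧ ∀ z, z ∉ Z → ∀ i, ∃ B θ : ℝ, 0 < θ ∧ ∀ᶠ T : ℝ in atTop, ∀ q ∈ Bad i B T,
      ∃ j, T ^ (-θ) < |(q j : ℝ) - z j| := by
  obtain ⟨Z, hZ, hz⟩ := zero_all (Y := Fin n → ℝ) (fun _ : J => Fin n → ℚ)
    (fun _ (q : Fin n → ℚ) (j : Fin n) => (q j : ℝ)) Bad (by
      intro i
      obtain ⟨B, E', c, C, T₀, T₁, hc, h1, h2⟩ := h i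
      exact ⟨B, c, fun θ hθ => dimH_map _ (Bad i B) E' θ c C T₀ T₁ hθ hc h1 h2⟩)
  refine ⟨Z, hZ, fun z hzZ i => ?_⟩
  obtain ⟨B, θ, hθ, h1⟩ := hz z hzZ i
  refine ⟨B, θ, hθ, ?_⟩
  filter_upwards [h1, eventually_ge_atTop 0] with T hT hT0
  intro q hq
  exact far_pi (Real.rpow_nonneg hT0 _) (hT q hq)

end Pool.Agent.Q138.PS
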