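import Mathlib

set_option autoImplicit false

/-!
# Small facts about real intervals with rational ends, and exponents
-/

namespace Pool.Agent.Q138.PS

theorem beta_nonneg {X β : ℝ} (hX : 0 ≤ X) (h : 2 - 2 / (X + 1) < β) : 0 ≤ β := by
  have h1 : 2 / (X + 1) ≤ 2 := by
    rw [div_le_iff₀ (by linarith)]
    nlinarith
  linarith

theorem two_beta {X : ℝ} (hX : 0 ≤ X) : 2 - 2 / (X + 1) < 2 := by
  have : 0 < 2 / (X + 1) := by positivity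
  linarith

theorem dim_nonneg {n : ℕ} (hn : 1 ≤ n) {β : ℝ} (hβ : 0 ≤ β) : 0 ≤ 2 * ((n : ℝ) - 1) + β := by
  have : (1 : ℝ) ≤ n := by exact_mod_cast hn
  linarith

/-- rational numbers close to the ends of an interval -/
theorem ends_pos {a b : ℝ} (ha : 0 < a) (hab : a < b) : ∃ i : {i : ℚ × ℚ // 0 < (i.1 : ℝ) ∧ (i.1 : ℝ) < (i.2 : ℝ)},
    ((i.1.1 : ℚ) : ℝ) ≤ a ∧ b ≤ ((i.1.2 : ℚ) : ℝ) := by
  obtain ⟨x, hx1, hx2⟩ := exists_rat_btwn ha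
  obtain ⟨y, hy1, -⟩ := exists_rat_btwn (lt_add_one b)
  exact ⟨⟨(x, y), hx1, by linarith⟩, hx2.le, hy1.le⟩

theorem ends_unit {a b : ℝ} (ha : 0 < a) (hab : a < b) (hb : b < 1) :
    ∃ i : {i : ℚ × ℚ // 0 < (i.1 : ℝ) ∧ (i.1 : ℝ) < (i.2 : ℝ) ∧ (i.2 : ℝ) < 1},
    ((i.1.1 : ℚ) : ℝ) ≤ a ∧ b ≤ ((i.1.2 : ℚ) : ℝ) := by
  obtain ⟨x, hx1, hx2⟩ := exists_rat_btwn ha
  obtain ⟨y, hy1, hy2⟩ := exists_rat_btwn hb
  exact ⟨⟨(x, y), hx1, by linarith, hy2⟩, hx2.le, hy1.le⟩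

theorem ends_shift {k : ℕ} (x : Fin k → ℝ) {a b : ℝ} (ha : ∀ i, 0 < a + x i) (hab : a < b) :
    ∃ i : {i : ℚ × ℚ // (∀ l, 0 < (i.1 : ℝ) + x l) ∧ (i.1 : ℝ) < (i.2 : ℝ)},
    ((i.1.1 : ℚ) : ℝ) ≤ a ∧ b ≤ ((i.1.2 : ℚ) : ℝ) := by
  obtain ⟨m, hm1, hm2⟩ : ∃ m : ℝ, m < a ∧ ∀ l, -x l ≤ m := by
    rcases Nat.eq_zero_or_pos k with hk | hk
    · subst hk
      exact ⟨a - 1, by linarith, fun l => Fin.elim0 l⟩
    · haveI : Nonempty (Fin k) := ⟨⟨0, hk⟩⟩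
      refine ⟨Finset.univ.sup' Finset.univ_nonempty fun l => -x l, ?_, fun l =>
        Finset.le_sup' (fun l => -x l) (Finset.mem_univ l)⟩
      rw [Finset.sup'_lt_iff]
      intro l _
      have := ha l
      linarith
  obtain ⟨u, hu1, hu2⟩ := exists_rat_btwn hm1
  obtain ⟨y, hy1, -⟩ := exists_rat_btwn (lt_add_one b)
  exact ⟨⟨(u, y), fun l => by have := hm2 l; linarith, by linarith⟩, hu2.le, hy1.le⟩

end Pool.Agent.Q138.PS
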