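import Pool.Agent.Q138.PS.WI

set_option autoImplicit false

/-!
# Tuples `u / N` with a common denominator close to given real points
-/

namespace Pool.Agent.Q138.PS

open Filter MeasureTheory Topology

/-- the pairs `(N, u)`, `N ≤ T`, `N` at least `T / 2`, `u` exceptional for `N` -/
theorem den_count {n : ℕ} (Exc : ℕ → Set (Fin n → ℤ)) (c C : ℝ)
    (h : ∀ N : ℕ, 1 ≤ N → (Exc N).Finite ∧ ((Exc N).ncard : ℝ) ≤ C * (N : ℝ) ^ (c - 1)) (T : ℝ) (hT : 1 ≤ T) :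
    ({x : ℕ × (Fin n → ℤ) | 1 ≤ x.1 ∧ T / 2 ≤ (x.1 : ℝ) ∧ (x.1 : ℝ) ≤ T ∧ x.2 ∈ Exc x.1}).Finite ∧
      (({x : ℕ × (Fin n → ℤ) | 1 ≤ x.1 ∧ T / 2 ≤ (x.1 : ℝ) ∧ (x.1 : ℝ) ≤ T ∧ x.2 ∈ Exc x.1}).ncard : ℝ) ≤
        |C| * 2 ^ |c - 1| * T ^ c := by
  classical
  have hT0 : 0 < T := by linarith
  set S := {x : ℕ × (Fin n → ℤ) | 1 ≤ x.1 ∧ T / 2 ≤ (x.1 : ℝ) ∧ (x.1 : ℝ) ≤ T ∧ x.2 ∈ Exc x.1} with hS
  set F : Finset (ℕ × (Fin n → ℤ)) := ((Finset.Icc 1 ⌊T⌋₊).filter fun N : ℕ => T / 2 ≤ (N : ℝ)).biUnion fun N =>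
    (if hN : (Exc N).Finite then hN.toFinset else ∅).image fun u => (N, u) with hF
  have hsub : S ⊆ F := by
    rintro ⟨N, u⟩ ⟨h1, h2, h3, h4⟩
    rw [hF, Finset.mem_coe, Finset.mem_biUnion]
    refine ⟨N, Finset.mem_filter.2 ⟨Finset.mem_Icc.2 ⟨h1, Nat.le_floor h3⟩, h2⟩, ?_⟩
    rw [dif_pos (h N h1).1]
    exact Finset.mem_image.2 ⟨u, (Set.Finite.mem_toFinset _).2 h4, rfl⟩
  refine ⟨F.finite_toSet.subset hsub, ?_⟩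
  have h1 : (S.ncard : ℝ) ≤ F.card := by
    have := Set.ncard_le_ncard hsub F.finite_toSet
    rw [Set.ncard_coe_finset] at this
    exact_mod_cast this
  refine h1.trans ?_
  have h2 : (F.card : ℝ) ≤ ∑ N ∈ (Finset.Icc 1 ⌊T⌋₊).filter (fun N : ℕ => T / 2 ≤ (N : ℝ)), ((Exc N).ncard : ℝ) := by
    have h3 : F.card ≤ ∑ N ∈ (Finset.Icc 1 ⌊T⌋₊).filter (fun N : ℕ => T / 2 ≤ (N : ℝ)), (Exc N).ncard := by
      rw [hF]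
      refine Finset.card_biUnion_le.trans (Finset.sum_le_sum fun N hN => ?_)
      have hN1 : 1 ≤ N := (Finset.mem_Icc.1 (Finset.mem_filter.1 hN).1).1
      have hfin := (h N hN1).1
      rw [dif_pos hfin, Set.ncard_eq_toFinset_card _ hfin]
      exact Finset.card_image_le
    exact_mod_cast h3
  refine h2.trans ?_
  have h3 : ∀ N ∈ (Finset.Icc 1 ⌊T⌋₊).filter (fun N : ℕ => T / 2 ≤ (N : ℝ)), ((Exc N).ncard : ℝ) ≤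
      |C| * 2 ^ |c - 1| * T ^ (c - 1) := by
    intro N hN
    obtain ⟨hN1, hN2⟩ := Finset.mem_filter.1 hN
    obtain ⟨hN3, hN4⟩ := Finset.mem_Icc.1 hN1
    have hNT : (N : ℝ) ≤ T := (Nat.le_floor_iff hT0.le).1 hN4
    have hN0 : (0 : ℝ) < N := by exact_mod_cast hN3
    refine ((h N hN3).2).trans ?_
    have h4 : (N : ℝ) ^ (c - 1) ≤ 2 ^ |c - 1| * T ^ (c - 1) := by
      rcases le_total 0 (c - 1) with hc | hc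
      · have h5 : (N : ℝ) ^ (c - 1) ≤ T ^ (c - 1) := Real.rpow_le_rpow hN0.le hNT hc
        have h6 : (1 : ℝ) ≤ 2 ^ |c - 1| := Real.one_le_rpow (by norm_num) (abs_nonneg _)
        have h7 : 0 ≤ T ^ (c - 1) := by positivity
        nlinarith
      · rw [abs_of_nonpos hc]
        have h5 : (N : ℝ) ^ (c - 1) ≤ (T / 2) ^ (c - 1) :=
          Real.rpow_le_rpow_of_nonpos (by positivity) hN2 hc
        refine h5.trans (le_of_eq ?_)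
        rw [Real.div_rpow hT0.le (by norm_num), Real.rpow_neg (by norm_num)]
        rw [div_eq_mul_inv, mul_comm]
    calc C * (N : ℝ) ^ (c - 1) ≤ |C| * (2 ^ |c - 1| * T ^ (c - 1)) :=
          mul_le_mul (le_abs_self C) h4 (by positivity) (abs_nonneg _)
      _ = |C| * 2 ^ |c - 1| * T ^ (c - 1) := by ring
  refine (Finset.sum_le_card_nsmul _ _ _ h3).trans ?_
  rw [nsmul_eq_mul]
  have h4 : ((((Finset.Icc 1 ⌊T⌋₊).filter (fun N : ℕ => T / 2 ≤ (N : ℝ))).card : ℕ) : ℝ) ≤ T := by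
    have h5 : ((Finset.Icc 1 ⌊T⌋₊).filter (fun N : ℕ => T / 2 ≤ (N : ℝ))).card ≤ ⌊T⌋₊ := by
      refine (Finset.card_filter_le _ _).trans ?_
      rw [Nat.card_Icc, Nat.add_sub_cancel]
    exact (show ((((Finset.Icc 1 ⌊T⌋₊).filter (fun N : ℕ => T / 2 ≤ (N : ℝ))).card : ℕ) : ℝ) ≤ ⌊T⌋₊ by
      exact_mod_cast h5).trans (Nat.floor_le hT0.le)
  calc ((((Finset.Icc 1 ⌊T⌋₊).filter (fun N : ℕ => T / 2 ≤ (N : ℝ))).card : ℕ) : ℝ) * (|C| * 2 ^ |c - 1| * T ^ (c - 1))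
      ≤ T * (|C| * 2 ^ |c - 1| * T ^ (c - 1)) := mul_le_mul_of_nonneg_right h4 (by positivity)
    _ = |C| * 2 ^ |c - 1| * (T ^ (1 : ℝ) * T ^ (c - 1)) := by rw [Real.rpow_one]; ring
    _ = |C| * 2 ^ |c - 1| * T ^ c := by rw [← Real.rpow_add hT0]; congr 2; ring

/-- a fixed quality of approximation -/
theorem far_den {n : ℕ} (Exc : ℕ → Set (Fin n → ℤ)) (θ c C : ℝ) (hθ : 0 < θ) (hc : 0 ≤ c)
    (h : ∀ N : ℕ, 1 ≤ N → (Exc N).Finite ∧ ((Exc N).ncard : ℝ) ≤ C * (N : ℝ) ^ (c - 1)) :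
    ∃ Z : Set (Fin n → ℝ), dimH Z ≤ ENNReal.ofReal (c / θ) ∧ ∀ z, z ∉ Z → ∀ᶠ N : ℕ in atTop, ∀ u ∈ Exc N,
      ∃ j, (N : ℝ) ^ (-θ) < |(u j : ℝ) / N - z j| := by
  obtain ⟨Z, hZ, hz⟩ := far_map (fun (x : ℕ × (Fin n → ℤ)) (j : Fin n) => (x.2 j : ℝ) / x.1)
    (fun T => {x | (x.1 : ℝ) = T ∧ 1 ≤ x.1 ∧ x.2 ∈ Exc x.1})
    (fun T => {x | 1 ≤ x.1 ∧ T / 2 ≤ (x.1 : ℝ) ∧ (x.1 : ℝ) ≤ T ∧ x.2 ∈ Exc x.1}) θ c (|C| * 2 ^ |c - 1|) 1 1 hθ hc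
    (fun T hT => den_count Exc c C h T hT) (by
      rintro T T' h1 h2 h3 ⟨N, u⟩ ⟨h4, h5, h6⟩
      refine ⟨h5, ?_, ?_, h6⟩
      · rw [h4]; linarith
      · rw [h4]; exact h2)
  refine ⟨Z, hZ, fun z hzZ => ?_⟩
  filter_upwards [tendsto_natCast_atTop_atTop.eventually (hz z hzZ), eventually_ge_atTop 1] with N hN hN1
  intro u hu
  exact far_pi (Real.rpow_nonneg (Nat.cast_nonneg _) _) (hN (N, u) ⟨rfl, hN1, hu⟩)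

/-- a set of dimension zero -/
theorem zero_den {n : ℕ} {J : Type} [Countable J] (Bad : J → ℝ → ℕ → Set (Fin n → ℤ))
    (h : ∀ i : J, ∃ B c C : ℝ, 0 ≤ c ∧ ∀ N : ℕ, 1 ≤ N → (Bad i B N).Finite ∧
      ((Bad i B N).ncard : ℝ) ≤ C * (N : ℝ) ^ (c - 1)) :
    ∃ Z : Set (Fin n → ℝ), dimH Z = 0 ∧ ∀ z, z ∉ Z → ∀ i, ∃ B θ : ℝ, 0 < θ ∧ ∀ᶠ N : ℕ in atTop, ∀ u ∈ Bad i B N,
      ∃ j, (N : ℝ) ^ (-θ) < |(u j : ℝ) / N - z j| := by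
  obtain ⟨Z, hZ, hz⟩ := zero_all (Y := Fin n → ℝ) (fun _ : J => ℕ × (Fin n → ℤ))
    (fun _ (x : ℕ × (Fin n → ℤ)) (j : Fin n) => (x.2 j : ℝ) / x.1)
    (fun i B T => {x | (x.1 : ℝ) = T ∧ 1 ≤ x.1 ∧ x.2 ∈ Bad i B x.1}) (by
      intro i
      obtain ⟨B, c, C, hc, h1⟩ := h i
      refine ⟨B, c, fun θ hθ => dimH_map _ _ (fun T => {x | 1 ≤ x.1 ∧ T / 2 ≤ (x.1 : ℝ) ∧ (x.1 : ℝ) ≤ T ∧
        x.2 ∈ Bad i B x.1}) θ c (|C| * 2 ^ |c - 1|) 1 1 hθ hc (fun T hT => den_count (Bad i B) c C h1 T hT) ?_⟩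
      rintro T T' h1 h2 h3 ⟨N, u⟩ ⟨h4, h5, h6⟩
      refine ⟨h5, ?_, ?_, h6⟩
      · rw [h4]; linarith
      · rw [h4]; exact h2)
  refine ⟨Z, hZ, fun z hzZ i => ?_⟩
  obtain ⟨B, θ, hθ, h1⟩ := hz z hzZ i
  refine ⟨B, θ, hθ, ?_⟩
  filter_upwards [tendsto_natCast_atTop_atTop.eventually h1, eventually_ge_atTop 1] with N hN hN1
  intro u hu
  exact far_pi (Real.rpow_nonneg (Nat.cast_nonneg _) _) (hN (N, u) ⟨rfl, hN1, hu⟩)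

end Pool.Agent.Q138.PS
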