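import Pool.Agent.Q138.PS.WI

set_option autoImplicit false

/-!
# Finitely many exceptions close to given points
-/

namespace Pool.Agent.Q138.PS

open Filter MeasureTheory Topology

/-- outside a small set there are only finitely many close exceptions -/
theorem fin_map {A Y : Type} [MetricSpace Y] [MeasurableSpace Y] [BorelSpace Y] (p : A → Y) (E : Set A) (H : A → ℝ)
    (θ c C T₀ : ℝ) (hθ : 0 < θ) (hc : 0 ≤ c)
    (h : ∀ T, T₀ ≤ T → {s | s ∈ E ∧ H s ≤ T}.Finite ∧ (({s | s ∈ E ∧ H s ≤ T}).ncard : ℝ) ≤ C * T ^ c) :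
    ∃ Z : Set Y, dimH Z ≤ ENNReal.ofReal (c / θ) ∧ ∀ z, z ∉ Z → {s | s ∈ E ∧ dist (p s) z ≤ (H s) ^ (-θ)}.Finite := by
  obtain ⟨Z, hZ, hz⟩ := far_map p (fun T => {s | s ∈ E ∧ H s = T}) (fun T => {s | s ∈ E ∧ H s ≤ T}) θ c C T₀ 0 hθ hc h (by
    rintro T T' _ h2 _ s ⟨h4, h5⟩
    exact ⟨h4, h5.trans_le h2⟩)
  refine ⟨Z, hZ, fun z hzZ => ?_⟩
  obtain ⟨T, hT⟩ := eventually_atTop.1 (hz z hzZ)
  refine (h (max T T₀) (le_max_right _ _)).1.subset ?_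
  rintro s ⟨h1, h2⟩
  refine ⟨h1, ?_⟩
  by_contra h3
  push Not at h3
  exact absurd h2 (not_le.2 (hT (H s) ((le_max_left _ _).trans h3.le) s ⟨h1, rfl⟩))

/-- the points in infinitely many sets of dimension close to `b` -/
theorem dim_limsup {Y : Type} [MetricSpace Y] (Z : ℕ → Set Y) (b : ℕ → ℝ) (b₀ : ℝ) (hb : Tendsto b atTop (𝓝 b₀))
    (hZ : ∀ m, dimH (Z m) ≤ ENNReal.ofReal (b m)) : dimH (⋂ k : ℕ, ⋃ m : ℕ, ⋃ (_ : k ≤ m), Z m) ≤ ENNReal.ofReal b₀ := by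
  have h1 : Tendsto (fun m => ENNReal.ofReal (b m)) atTop (𝓝 (ENNReal.ofReal b₀)) := ENNReal.tendsto_ofReal hb
  refine ENNReal.le_of_forall_pos_le_add fun ε hε _ => ?_
  have h2 : ENNReal.ofReal b₀ < ENNReal.ofReal b₀ + ε :=
    ENNReal.lt_add_right ENNReal.ofReal_ne_top (by exact_mod_cast hε.ne')
  obtain ⟨k, hk⟩ := eventually_atTop.1 (h1.eventually (gt_mem_nhds h2))
  refine (dimH_mono (Set.iInter_subset _ k)).trans ?_
  rw [dimH_iUnion]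
  refine iSup_le fun m => ?_
  by_cases hm : k ≤ m
  · simp only [hm, Set.iUnion_true]
    exact (hZ m).trans (hk m hm).le
  · simp only [hm]
    simp

/-- inequalities with an exponent `M` -/
theorem fin_above {A Y : Type} [MetricSpace Y] [MeasurableSpace Y] [BorelSpace Y] (p : A → Y) (E : ℝ → Set A) (H : A → ℝ)
    (κ : ℝ) (hκ : 0 ≤ κ) (hE : ∀ M M' : ℝ, 0 < M → M ≤ M' → E M' ⊆ E M)
    (h : ∀ M δ : ℝ, 0 < M → 0 < δ → ∃ C T₀ : ℝ, ∀ T, T₀ ≤ T → {s | s ∈ E M ∧ H s ≤ T}.Finite ∧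
      (({s | s ∈ E M ∧ H s ≤ T}).ncard : ℝ) ≤ C * T ^ (κ / M + δ)) (M₀ θ : ℝ) (hM : 0 < M₀) (hθ : 0 < θ) :
    ∃ Z : Set Y, dimH Z ≤ ENNReal.ofReal (κ / (M₀ * θ)) ∧ ∀ z, z ∉ Z → ∀ M D, M₀ < M →
      {s | s ∈ E M ∧ dist (p s) z ≤ D * (H s) ^ (-θ)}.Finite := by
  have hθm : ∀ m : ℕ, 0 < θ * (1 - 1 / ((m : ℝ) + 2)) := by
    intro m
    have : 1 / ((m : ℝ) + 2) ≤ 1 / 2 := by
      apply one_div_le_one_div_of_le (by norm_num)
      have : (0 : ℝ) ≤ m := by positivity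
      linarith
    have h2 : 0 < 1 - 1 / ((m : ℝ) + 2) := by linarith
    positivity
  have h1 : ∀ m : ℕ, ∃ Z : Set Y, dimH Z ≤ ENNReal.ofReal ((κ / (M₀ + 1 / ((m : ℝ) + 1)) + 1 / ((m : ℝ) + 1)) /
      (θ * (1 - 1 / ((m : ℝ) + 2)))) ∧
      ∀ z, z ∉ Z → {s | s ∈ E (M₀ + 1 / ((m : ℝ) + 1)) ∧ dist (p s) z ≤ (H s) ^ (-(θ * (1 - 1 / ((m : ℝ) + 2))))}.Finite := by
    intro m
    have hm : 0 < 1 / ((m : ℝ) + 1) := by positivity
    obtain ⟨C, T₀, h2⟩ := h (M₀ + 1 / ((m : ℝ) + 1)) (1 / ((m : ℝ) + 1)) (by positivity) hm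
    exact fin_map p (E (M₀ + 1 / ((m : ℝ) + 1))) H (θ * (1 - 1 / ((m : ℝ) + 2)))
      (κ / (M₀ + 1 / ((m : ℝ) + 1)) + 1 / ((m : ℝ) + 1)) C T₀ (hθm m) (by positivity) h2
  choose Z hZ hz using h1
  refine ⟨⋂ k : ℕ, ⋃ m : ℕ, ⋃ (_ : k ≤ m), Z m, dim_limsup Z _ _ ?_ hZ, ?_⟩
  · have e1 : Tendsto (fun m : ℕ => 1 / ((m : ℝ) + 1)) atTop (𝓝 0) := tendsto_one_div_add_atTop_nhds_zero_nat
    have e2 : Tendsto (fun m : ℕ => 1 / ((m : ℝ) + 2)) atTop (𝓝 0) := by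
      have := (tendsto_add_atTop_iff_nat (f := fun m : ℕ => 1 / ((m : ℝ) + 1)) 1).2 e1
      refine this.congr fun m => ?_
      push_cast
      ring_nf
    have e3 : Tendsto (fun m : ℕ => (κ / (M₀ + 1 / ((m : ℝ) + 1)) + 1 / ((m : ℝ) + 1)) / (θ * (1 - 1 / ((m : ℝ) + 2)))) atTop
        (𝓝 ((κ / (M₀ + 0) + 0) / (θ * (1 - 0)))) := by
      refine Tendsto.div ((Tendsto.div tendsto_const_nhds (tendsto_const_nhds.add e1) (by simpa using hM.ne')).add e1)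
        (tendsto_const_nhds.mul (tendsto_const_nhds.sub e2)) (by simpa using hθ.ne')
    convert e3 using 2
    rw [add_zero, add_zero, sub_zero, mul_one, div_div]
  · intro z hzZ M D hMM
    simp only [Set.mem_iInter, Set.mem_iUnion, not_forall, not_exists] at hzZ
    obtain ⟨k, hk⟩ := hzZ
    obtain ⟨m₁, hm₁⟩ := exists_nat_gt (1 / (M - M₀))
    set m := max k m₁ with hm
    have h2 := hz m z (hk _ (le_max_left _ _))
    have h6 : 1 / ((m : ℝ) + 1) ≤ M - M₀ := by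
      have h5 : (m₁ : ℝ) ≤ m := by exact_mod_cast le_max_right _ _
      rw [div_le_iff₀ (by positivity)]
      have h7 : 1 < (m₁ : ℝ) * (M - M₀) := by
        rwa [div_lt_iff₀ (by linarith)] at hm₁
      nlinarith
    have hM1 : 0 < M₀ + 1 / ((m : ℝ) + 1) := by positivity
    have hsub : E M ⊆ E (M₀ + 1 / ((m : ℝ) + 1)) := hE _ _ hM1 (by linarith)
    obtain ⟨C, T₀, h8⟩ := h (M₀ + 1 / ((m : ℝ) + 1)) 1 hM1 one_pos
    -- beyond `T₁` the constant does not matter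
    set τ : ℝ := θ - θ * (1 - 1 / ((m : ℝ) + 2)) with hτ
    have hτ0 : 0 < τ := by
      have : 0 < 1 / ((m : ℝ) + 2) := by positivity
      rw [hτ]
      nlinarith
    obtain ⟨T₁, hT₁⟩ := eventually_atTop.1 ((tendsto_rpow_atTop hτ0).eventually (eventually_ge_atTop D))
    refine (h2.union (h8 (max T₀ (max T₁ 1)) (le_max_left _ _)).1).subset ?_
    rintro s ⟨h3, h4⟩
    by_cases hs : H s ≤ max T₀ (max T₁ 1)
    · exact Or.inr ⟨hsub h3, hs⟩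
    · left
      push Not at hs
      refine ⟨hsub h3, h4.trans ?_⟩
      have hs1 : 1 < H s := ((le_max_right _ _).trans (le_max_right _ _)).trans_lt hs
      have hsT : T₁ ≤ H s := (((le_max_left _ _).trans (le_max_right _ _)).trans_lt hs).le
      have h9 := hT₁ (H s) hsT
      have h10 : 0 < H s := by linarith
      calc D * (H s) ^ (-θ) ≤ (H s) ^ τ * (H s) ^ (-θ) := by
            exact mul_le_mul_of_nonneg_right h9 (Real.rpow_nonneg h10.le _)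
        _ = (H s) ^ (-(θ * (1 - 1 / ((m : ℝ) + 2)))) := by
            rw [← Real.rpow_add h10]
            congr 1
            rw [hτ]
            ring

/-- a set of dimension zero for some `M` -/
theorem fin_zero {A Y : Type} [MetricSpace Y] [MeasurableSpace Y] [BorelSpace Y] (p : A → Y) (E : ℝ → Set A) (H : A → ℝ)
    (κ : ℝ) (hκ : 0 ≤ κ) (hE : ∀ M M' : ℝ, 0 < M → M ≤ M' → E M' ⊆ E M)
    (h : ∀ M δ : ℝ, 0 < M → 0 < δ → ∃ C T₀ : ℝ, ∀ T, T₀ ≤ T → {s | s ∈ E M ∧ H s ≤ T}.Finite ∧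
      (({s | s ∈ E M ∧ H s ≤ T}).ncard : ℝ) ≤ C * T ^ (κ / M + δ)) (hH : ∀ s, 1 ≤ H s) :
    ∃ Z : Set Y, dimH Z = 0 ∧ ∀ z, z ∉ Z → ∀ θ D : ℝ, 0 < θ → ∃ M, 0 < M ∧
      {s | s ∈ E M ∧ dist (p s) z ≤ D * (H s) ^ (-θ)}.Finite := by
  have h1 : ∀ j m : ℕ, ∃ Z : Set Y, dimH Z ≤ ENNReal.ofReal (κ * ((j : ℝ) + 1) / ((m : ℝ) + 1)) ∧ ∀ z, z ∉ Z → ∀ D,
      {s | s ∈ E ((m : ℝ) + 2) ∧ dist (p s) z ≤ D * (H s) ^ (-(1 / ((j : ℝ) + 1)))}.Finite := by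
    intro j m
    obtain ⟨Z, hZ, hz⟩ := fin_above p E H κ hκ hE h ((m : ℝ) + 1) (1 / ((j : ℝ) + 1)) (by positivity) (by positivity)
    refine ⟨Z, hZ.trans (le_of_eq ?_), fun z hzZ D => hz z hzZ _ D (by linarith)⟩
    congr 1
    field_simp
  choose Z hZ hz using h1
  refine ⟨⋃ j, ⋂ m, Z j m, ?_, ?_⟩
  · rw [dimH_iUnion]
    refine le_antisymm (iSup_le fun j => ?_) bot_le
    refine ENNReal.le_of_forall_pos_le_add fun ε hε _ => ?_
    obtain ⟨k, hk⟩ := exists_nat_gt (κ * ((j : ℝ) + 1) / ε)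
    refine (dimH_mono (Set.iInter_subset _ k)).trans ((hZ j k).trans ?_)
    have hε0 : (0 : ℝ) < ε := by exact_mod_cast hε
    rw [zero_add]
    rw [ENNReal.ofReal_le_iff_le_toReal (by simp)]
    simp only [ENNReal.coe_toReal]
    rw [div_lt_iff₀ hε0] at hk
    rw [div_le_iff₀ (by positivity)]
    nlinarith
  · intro z hzZ θ D hθ
    simp only [Set.mem_iInter, Set.mem_iUnion, not_forall, not_exists] at hzZ
    obtain ⟨j, hj⟩ := exists_nat_gt (1 / θ)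
    obtain ⟨m, hm⟩ := hzZ j
    refine ⟨(m : ℝ) + 2, by positivity, (hz j m z hm (max D 0)).subset ?_⟩
    rintro s ⟨h3, h4⟩
    have hs0 : 0 < H s := lt_of_lt_of_le one_pos (hH s)
    refine ⟨h3, h4.trans ((mul_le_mul_of_nonneg_right (le_max_left _ _) (Real.rpow_nonneg hs0.le _)).trans
      (mul_le_mul_of_nonneg_left (Real.rpow_le_rpow_of_exponent_le (hH s) ?_) (le_max_right _ _)))⟩
    have h5 : 1 / ((j : ℝ) + 1) ≤ θ := by
      rw [div_le_iff₀ (by positivity)]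
      have h6 : 1 < (j : ℝ) * θ := by rwa [div_lt_iff₀ hθ] at hj
      nlinarith
    linarith

end Pool.Agent.Q138.PS
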