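import Pool.Agent.Q138.PS.WL

set_option autoImplicit false

/-!
# Pairs of good approximations: rectangles in the plane
-/

namespace Pool.Agent.Q138.PS

open Filter MeasureTheory Topology

/-- points of rectangles near a grid point -/
theorem grid_near {x z a ρ D : ℝ} (hD : 0 < D) (hρ : 0 < ρ) (h : |x - z| ≤ D * a) :
    ∃ k : ℤ, |k| ≤ ⌊a / ρ⌋ + 1 ∧ |x + k * (D * ρ) - z| ≤ D * ρ := by
  have hDρ : 0 < D * ρ := by positivity
  refine ⟨round ((z - x) / (D * ρ)), ?_, ?_⟩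
  · have h1 : |(z - x) / (D * ρ)| ≤ a / ρ := by
      rw [abs_div, abs_of_pos hDρ, div_le_div_iff₀ hDρ hρ, abs_sub_comm]
      nlinarith
    have h2 := abs_sub_round ((z - x) / (D * ρ))
    have h3 : |((round ((z - x) / (D * ρ)) : ℤ) : ℝ)| ≤ a / ρ + 1 / 2 := by
      have h4 : ((round ((z - x) / (D * ρ)) : ℤ) : ℝ) = (z - x) / (D * ρ) -
        ((z - x) / (D * ρ) - round ((z - x) / (D * ρ))) := by ring
      rw [h4]
      exact (abs_sub _ _).trans (by linarith)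
    have h5 : ((|round ((z - x) / (D * ρ))| : ℤ) : ℝ) < ⌊a / ρ⌋ + 1 + 1 := by
      push_cast
      have := Int.lt_floor_add_one (a / ρ)
      linarith
    have h6 : |round ((z - x) / (D * ρ))| < ⌊a / ρ⌋ + 1 + 1 := by exact_mod_cast h5
    omega
  · have h2 := abs_sub_round ((z - x) / (D * ρ))
    have h3 : x + (round ((z - x) / (D * ρ)) : ℤ) * (D * ρ) - z =
        -(((z - x) / (D * ρ) - round ((z - x) / (D * ρ))) * (D * ρ)) := by
      field_simp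
      ring
    rw [h3, abs_neg, abs_mul, abs_of_pos hDρ]
    nlinarith

theorem rect_dim {A : Type} (E : Set A) (p₁ p₂ H₁ H₂ : A → ℝ) (θ c C D : ℝ) (hc0 : 0 ≤ c) (hc : c < θ) (hD : 0 < D)
    (hH : ∀ s ∈ E, 1 ≤ H₁ s ∧ 1 ≤ H₂ s)
    (h : ∀ X Y : ℝ, 1 ≤ X → 1 ≤ Y → {s | s ∈ E ∧ H₁ s ≤ X ∧ H₂ s ≤ Y}.Finite ∧
      (({s | s ∈ E ∧ H₁ s ≤ X ∧ H₂ s ≤ Y}).ncard : ℝ) ≤ C * (X * Y) ^ c) :
    dimH {z : ℝ × ℝ | {s | s ∈ E ∧ |p₁ s - z.1| ≤ D * (H₁ s) ^ (-θ) ∧ |p₂ s - z.2| ≤ D * (H₂ s) ^ (-θ)}.Infinite} ≤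
      ENNReal.ofReal (1 + c / θ) := by
  classical
  have hθ : 0 < θ := lt_of_le_of_lt hc0 hc
  have hcθ : c / θ < 1 := (div_lt_one hθ).2 hc
  have hcθ0 : 0 ≤ c / θ := by positivity
  -- it is enough to treat `d` between `1 + c / θ` and `2`
  suffices key : ∀ d : ℝ, 1 + c / θ < d → d < 2 → dimH {z : ℝ × ℝ | {s | s ∈ E ∧ |p₁ s - z.1| ≤ D * (H₁ s) ^ (-θ) ∧
      |p₂ s - z.2| ≤ D * (H₂ s) ^ (-θ)}.Infinite} ≤ ENNReal.ofReal d by
    refine ENNReal.le_of_forall_pos_le_add fun ε hε _ => ?_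
    have hε0 : (0 : ℝ) < ε := by exact_mod_cast hε
    set δ : ℝ := min (ε : ℝ) ((1 - c / θ) / 2) with hδ
    have hδ0 : 0 < δ := lt_min hε0 (by linarith)
    have hδ1 : δ ≤ (1 - c / θ) / 2 := min_le_right _ _
    refine (key (1 + c / θ + δ) (by linarith) (by linarith)).trans ?_
    rw [ENNReal.ofReal_add (by positivity) hδ0.le]
    gcongr
    rw [ENNReal.ofReal_le_iff_le_toReal (by simp)]
    simp only [ENNReal.coe_toReal]
    exact min_le_left _ _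
  intro d hd1 hd2
  have hdc : c < θ * (d - 1) := by
    have h1 : c / θ < d - 1 := by linarith
    rw [div_lt_iff₀ hθ] at h1
    linarith
  -- the side lengths
  set a : ℕ → ℝ := fun i => (2 : ℝ) ^ (-(θ * i)) with ha
  have ha0 : ∀ i, 0 < a i := fun i => Real.rpow_pos_of_pos (by norm_num) _
  have hapow : ∀ i, a i = ((2 : ℝ) ^ (-θ)) ^ i := by
    intro i
    rw [ha, ← Real.rpow_natCast, ← Real.rpow_mul (by norm_num)]
    ring_nf
  set ρ : ℕ × ℕ → ℝ := fun x => min (a x.1) (a x.2) with hρ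
  have hρ0 : ∀ x, 0 < ρ x := fun x => lt_min (ha0 _) (ha0 _)
  -- the exceptional points of a dyadic box
  set B : ℕ × ℕ → Finset A := fun x => (h (2 ^ (x.1 + 1)) (2 ^ (x.2 + 1)) (one_le_pow₀ (by norm_num))
    (one_le_pow₀ (by norm_num))).1.toFinset with hB
  set K : ℕ → ℕ × ℕ → ℤ := fun i x => ⌊a i / ρ x⌋ + 1 with hK
  set Q : ℕ × ℕ → Finset (ℝ × ℝ) := fun x => (B x ×ˢ (Finset.Icc (-(K x.1 x)) (K x.1 x) ×ˢ
    Finset.Icc (-(K x.2 x)) (K x.2 x))).image fun y : A × ℤ × ℤ =>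
      (p₁ y.1 + y.2.1 * (D * ρ x), p₂ y.1 + y.2.2 * (D * ρ x)) with hQ
  have hKge : ∀ x : ℕ × ℕ, 1 ≤ a x.1 / ρ x ∧ 1 ≤ a x.2 / ρ x := by
    intro x
    rw [one_le_div (hρ0 x), one_le_div (hρ0 x)]
    exact ⟨min_le_left _ _, min_le_right _ _⟩
  have hKcard : ∀ (i : ℕ) (x : ℕ × ℕ), 1 ≤ a i / ρ x → ((Finset.Icc (-(K i x)) (K i x)).card : ℝ) ≤ 5 * (a i / ρ x) := by
    intro i x h1
    have h2 : (0 : ℤ) ≤ ⌊a i / ρ x⌋ := Int.floor_nonneg.2 (by linarith)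
    rw [Int.card_Icc]
    have h3 : (((K i x + 1 - -(K i x)).toNat : ℕ) : ℤ) = 2 * (⌊a i / ρ x⌋ + 1) + 1 := by
      rw [hK, Int.toNat_of_nonneg (by simp only; omega)]
      ring
    have h4 : (((K i x + 1 - -(K i x)).toNat : ℕ) : ℝ) = 2 * (⌊a i / ρ x⌋ + 1) + 1 := by exact_mod_cast h3
    rw [h4]
    have h5 := Int.floor_le (a i / ρ x)
    linarith
  have hQcard : ∀ x : ℕ × ℕ, ((Q x).card : ℝ) * (D * ρ x) ^ d ≤ |C| * 4 ^ c * 25 * D ^ d *
      ((2 : ℝ) ^ (c * (x.1 + x.2)) * (a x.1 * a x.2 * (ρ x) ^ (d - 2))) := by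
    intro x
    have h1 : ((Q x).card : ℝ) ≤ (B x).card * ((5 * (a x.1 / ρ x)) * (5 * (a x.2 / ρ x))) := by
      have h2 : (Q x).card ≤ (B x).card * ((Finset.Icc (-(K x.1 x)) (K x.1 x)).card * (Finset.Icc (-(K x.2 x)) (K x.2 x)).card) := by
        rw [hQ]
        refine Finset.card_image_le.trans ?_
        rw [Finset.card_product, Finset.card_product]
      have h3 : ((Q x).card : ℝ) ≤ (B x).card * (((Finset.Icc (-(K x.1 x)) (K x.1 x)).card : ℝ) *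
          ((Finset.Icc (-(K x.2 x)) (K x.2 x)).card : ℝ)) := by exact_mod_cast h2
      refine h3.trans ?_
      gcongr
      · exact hKcard _ _ (hKge x).1
      · exact hKcard _ _ (hKge x).2
    have h4 : ((B x).card : ℝ) ≤ |C| * (4 ^ c * (2 : ℝ) ^ (c * (x.1 + x.2))) := by
      have h5 := (h (2 ^ (x.1 + 1)) (2 ^ (x.2 + 1)) (one_le_pow₀ (by norm_num)) (one_le_pow₀ (by norm_num))).2
      rw [Set.ncard_eq_toFinset_card _ (h (2 ^ (x.1 + 1)) (2 ^ (x.2 + 1)) (one_le_pow₀ (by norm_num))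
        (one_le_pow₀ (by norm_num))).1] at h5
      have h6 : ((2 : ℝ) ^ (x.1 + 1) * 2 ^ (x.2 + 1)) ^ c = 4 ^ c * (2 : ℝ) ^ (c * (x.1 + x.2)) := by
        have e : (2 : ℝ) ^ (x.1 + 1) * 2 ^ (x.2 + 1) = 4 * 2 ^ (((x.1 + x.2 : ℕ) : ℝ)) := by
          rw [Real.rpow_natCast]
          ring
        rw [e, Real.mul_rpow (by norm_num) (by positivity), ← Real.rpow_mul (by norm_num)]
        push_cast
        ring_nf
      exact (h5.trans (le_of_eq (by rw [h6]))).trans (mul_le_mul_of_nonneg_right (le_abs_self C) (by positivity))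
    have hρx := hρ0 x
    have h7 : (D * ρ x) ^ d = D ^ d * (ρ x ^ (2 : ℕ) * (ρ x) ^ (d - 2)) := by
      rw [Real.mul_rpow hD.le hρx.le, ← Real.rpow_natCast (ρ x) 2, ← Real.rpow_add hρx]
      congr 2
      push_cast
      ring
    rw [h7]
    have h8 : 0 < D ^ d := Real.rpow_pos_of_pos hD _
    have h9 : 0 < (ρ x) ^ (d - 2) := Real.rpow_pos_of_pos hρx _
    have ha1 := ha0 x.1
    have ha2 := ha0 x.2
    calc ((Q x).card : ℝ) * (D ^ d * (ρ x ^ (2 : ℕ) * (ρ x) ^ (d - 2)))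
        ≤ (|C| * (4 ^ c * (2 : ℝ) ^ (c * (x.1 + x.2)))) * ((5 * (a x.1 / ρ x)) * (5 * (a x.2 / ρ x))) *
          (D ^ d * (ρ x ^ (2 : ℕ) * (ρ x) ^ (d - 2))) := by
          refine mul_le_mul_of_nonneg_right (h1.trans ?_) (by positivity)
          exact mul_le_mul_of_nonneg_right h4 (by positivity)
      _ = |C| * 4 ^ c * 25 * D ^ d * ((2 : ℝ) ^ (c * (x.1 + x.2)) * (a x.1 * a x.2 * (ρ x) ^ (d - 2))) := by
          field_simp
          ring
  -- summability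
  have hgeo : ∀ t : ℝ, c < t → Summable fun i : ℕ => ((2 : ℝ) ^ (c - t)) ^ i := by
    intro t ht
    refine summable_geometric_of_lt_one (Real.rpow_nonneg (by norm_num) _) ?_
    exact Real.rpow_lt_one_of_one_lt_of_neg (by norm_num) (by linarith)
  have hprod : ∀ t u : ℝ, c < t → c < u → Summable fun x : ℕ × ℕ => (2 : ℝ) ^ (c * (x.1 + x.2)) *
      ((2 : ℝ) ^ (-(t * x.1)) * (2 : ℝ) ^ (-(u * x.2))) := by
    intro t u ht hu
    refine ((hgeo t ht).mul_of_nonneg (hgeo u hu) (fun i => by positivity) fun i => by positivity).congr fun x => ?_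
    rw [← Real.rpow_natCast, ← Real.rpow_natCast, ← Real.rpow_mul (by norm_num), ← Real.rpow_mul (by norm_num),
      ← Real.rpow_add (by norm_num), ← Real.rpow_add (by norm_num), ← Real.rpow_add (by norm_num)]
    congr 1
    ring
  have hapw : ∀ (i : ℕ) (t : ℝ), (a i) ^ t = (2 : ℝ) ^ (-(θ * t * i)) := by
    intro i t
    rw [ha, ← Real.rpow_mul (by norm_num)]
    congr 1
    ring
  have hsum : Summable fun x : ℕ × ℕ => ((Q x).card : ℝ) * (D * ρ x) ^ d := by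
    have h1 := hprod (θ * (d - 1)) θ hdc hc
    have h2 := hprod θ (θ * (d - 1)) hc hdc
    refine Summable.of_nonneg_of_le (fun x => by have := hρ0 x; positivity) (fun x => (hQcard x).trans ?_)
      ((h1.add h2).mul_left (|C| * 4 ^ c * 25 * D ^ d))
    refine mul_le_mul_of_nonneg_left ?_ (by positivity)
    rw [← mul_add]
    refine mul_le_mul_of_nonneg_left ?_ (by positivity)
    have ha1 := ha0 x.1
    have ha2 := ha0 x.2
    have h3 : (ρ x) ^ (d - 2) ≤ (a x.1) ^ (d - 2) + (a x.2) ^ (d - 2) := by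
      rcases min_choice (a x.1) (a x.2) with h4 | h4
      · rw [hρ]
        simp only [h4]
        have : 0 < (a x.2) ^ (d - 2) := Real.rpow_pos_of_pos ha2 _
        linarith
      · rw [hρ]
        simp only [h4]
        have : 0 < (a x.1) ^ (d - 2) := Real.rpow_pos_of_pos ha1 _
        linarith
    have h5 : a x.1 * (a x.1) ^ (d - 2) = (2 : ℝ) ^ (-(θ * (d - 1) * x.1)) := by
      rw [← hapw]
      nth_rw 1 [← Real.rpow_one (a x.1)]
      rw [← Real.rpow_add ha1]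
      congr 1
      ring
    have h6 : a x.2 * (a x.2) ^ (d - 2) = (2 : ℝ) ^ (-(θ * (d - 1) * x.2)) := by
      rw [← hapw]
      nth_rw 1 [← Real.rpow_one (a x.2)]
      rw [← Real.rpow_add ha2]
      congr 1
      ring
    calc a x.1 * a x.2 * (ρ x) ^ (d - 2) ≤ a x.1 * a x.2 * ((a x.1) ^ (d - 2) + (a x.2) ^ (d - 2)) :=
          mul_le_mul_of_nonneg_left h3 (by positivity)
      _ = (a x.1 * (a x.1) ^ (d - 2)) * a x.2 + a x.1 * (a x.2 * (a x.2) ^ (d - 2)) := by ring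
      _ = _ := by rw [h5, h6]
  -- the radii tend to zero
  have hcof : Tendsto (fun x : ℕ × ℕ => D * ρ x) cofinite (𝓝 0) := by
    have h1 : Summable fun x : ℕ × ℕ => a x.1 * a x.2 := by
      have h2 : Summable a := by
        refine (summable_geometric_of_lt_one (Real.rpow_nonneg (by norm_num) _)
          (Real.rpow_lt_one_of_one_lt_of_neg (by norm_num) (by linarith : -θ < 0))).congr fun i => (hapow i).symm
      exact h2.mul_of_nonneg h2 (fun i => (ha0 i).le) fun i => (ha0 i).le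
    have h2 : Tendsto (fun x : ℕ × ℕ => Real.sqrt (a x.1 * a x.2)) cofinite (𝓝 0) := by
      have := (Real.continuous_sqrt.tendsto 0).comp h1.tendsto_cofinite_zero
      rwa [Real.sqrt_zero] at this
    have h3 : Tendsto (fun x : ℕ × ℕ => D * Real.sqrt (a x.1 * a x.2)) cofinite (𝓝 0) := by
      simpa using h2.const_mul D
    refine squeeze_zero (fun x => by have := hρ0 x; positivity) (fun x => ?_) h3
    refine mul_le_mul_of_nonneg_left (Real.le_sqrt_of_sq_le ?_) hD.le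
    rw [sq]
    exact mul_le_mul (min_le_left _ _) (min_le_right _ _) (hρ0 x).le (ha0 _).le
  -- encode the pairs
  set e : ℕ ≃ ℕ × ℕ := Nat.pairEquiv.symm with he
  have hr : Tendsto (fun n => D * ρ (e n)) atTop (𝓝 0) := by
    have := hcof.comp e.injective.tendsto_cofinite
    rwa [Nat.cofinite_eq_atTop] at this
  have hs' : Summable fun n => ((Q (e n)).card : ℝ) * (D * ρ (e n)) ^ d := (Equiv.summable_iff e).2 hsum
  refine (dimH_mono ?_).trans (dimH_limsup (fun n => Q (e n)) (fun n => D * ρ (e n))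
    (fun n => by have := hρ0 (e n); positivity) hr d (by linarith) hs')
  intro z hz
  rw [Set.mem_ofPred_eq] at hz ⊢
  rw [Nat.frequently_atTop_iff_infinite]
  intro hfin
  apply hz
  -- the boxes which contain an approximation are finite in number
  have hfin2 : ((fun n => e n) '' {n | ∃ q ∈ Q (e n), dist q z ≤ D * ρ (e n)}).Finite := hfin.image _
  refine ((hfin2.biUnion fun x _ => (B x).finite_toSet)).subset ?_
  rintro s ⟨hs, h1, h2⟩
  obtain ⟨hH1, hH2⟩ := hH s hs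
  have hdy : ∀ t : ℝ, 1 ≤ t → ∃ i : ℕ, (2 : ℝ) ^ i ≤ t ∧ t ≤ 2 ^ (i + 1) := by
    intro t ht
    obtain ⟨i, hi1, hi2⟩ := exists_nat_pow_near ht (by norm_num : (1 : ℝ) < 2)
    exact ⟨i, hi1, hi2.le⟩
  obtain ⟨i, hi1, hi2⟩ := hdy _ hH1
  obtain ⟨j, hj1, hj2⟩ := hdy _ hH2
  have hsB : s ∈ B (i, j) := by
    rw [hB]
    simp only [Set.Finite.mem_toFinset]
    exact ⟨hs, hi2, hj2⟩
  refine Set.mem_biUnion (x := (i, j)) ?_ hsB
  have hle : ∀ (k : ℕ) (t : ℝ), (2 : ℝ) ^ k ≤ t → t ^ (-θ) ≤ a k := by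
    intro k t hk
    have : a k = ((2 : ℝ) ^ k) ^ (-θ) := by
      rw [ha, ← Real.rpow_natCast, ← Real.rpow_mul (by norm_num)]
      ring_nf
    rw [this]
    exact Real.rpow_le_rpow_of_nonpos (by positivity) hk (by linarith)
  obtain ⟨k₁, hk₁, hk₁'⟩ := grid_near (x := p₁ s) (z := z.1) (a := a i) (ρ := ρ (i, j)) hD (hρ0 _)
    (h1.trans (mul_le_mul_of_nonneg_left (hle i _ hi1) hD.le))
  obtain ⟨k₂, hk₂, hk₂'⟩ := grid_near (x := p₂ s) (z := z.2) (a := a j) (ρ := ρ (i, j)) hD (hρ0 _)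
    (h2.trans (mul_le_mul_of_nonneg_left (hle j _ hj1) hD.le))
  refine ⟨e.symm (i, j), ?_, by simp⟩
  simp only [Set.mem_ofPred_eq, Equiv.apply_symm_apply]
  refine ⟨(p₁ s + k₁ * (D * ρ (i, j)), p₂ s + k₂ * (D * ρ (i, j))), ?_, ?_⟩
  · rw [hQ]
    refine Finset.mem_image.2 ⟨(s, k₁, k₂), ?_, rfl⟩
    simp only [Finset.mem_product, Finset.mem_Icc]
    refine ⟨hsB, ?_, ?_⟩
    · rw [abs_le] at hk₁
      exact hk₁
    · rw [abs_le] at hk₂
      exact hk₂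
  · rw [Prod.dist_eq]
    exact max_le (by rw [Real.dist_eq]; exact hk₁') (by rw [Real.dist_eq]; exact hk₂')

/-- the same with a loss `ε` in the count -/
theorem rect_eps {A : Type} (E : Set A) (p₁ p₂ H₁ H₂ : A → ℝ) (θ c D : ℝ) (hc0 : 0 ≤ c) (hc : c < θ) (hD : 0 < D)
    (hH : ∀ s ∈ E, 1 ≤ H₁ s ∧ 1 ≤ H₂ s)
    (h : ∀ ε : ℝ, 0 < ε → ∃ C : ℝ, ∀ X Y : ℝ, 1 ≤ X → 1 ≤ Y → {s | s ∈ E ∧ H₁ s ≤ X ∧ H₂ s ≤ Y}.Finite ∧
      (({s | s ∈ E ∧ H₁ s ≤ X ∧ H₂ s ≤ Y}).ncard : ℝ) ≤ C * (X * Y) ^ (c + ε)) :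
    dimH {z : ℝ × ℝ | {s | s ∈ E ∧ |p₁ s - z.1| ≤ D * (H₁ s) ^ (-θ) ∧ |p₂ s - z.2| ≤ D * (H₂ s) ^ (-θ)}.Infinite} ≤
      ENNReal.ofReal (1 + c / θ) := by
  have hθ : 0 < θ := lt_of_le_of_lt hc0 hc
  refine ENNReal.le_of_forall_pos_le_add fun ε hε _ => ?_
  have hε0 : (0 : ℝ) < ε := by exact_mod_cast hε
  set δ : ℝ := min ((ε : ℝ) * θ) ((θ - c) / 2) with hδ
  have hδ0 : 0 < δ := lt_min (by positivity) (by linarith)
  have hδ1 : δ ≤ (θ - c) / 2 := min_le_right _ _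
  obtain ⟨C, hC⟩ := h δ hδ0
  refine (rect_dim E p₁ p₂ H₁ H₂ θ (c + δ) C D (by linarith) (by linarith) hD hH hC).trans ?_
  have e : 1 + (c + δ) / θ = (1 + c / θ) + δ / θ := by ring
  rw [e, ENNReal.ofReal_add (by positivity) (by positivity)]
  gcongr
  rw [ENNReal.ofReal_le_iff_le_toReal (by simp)]
  simp only [ENNReal.coe_toReal]
  rw [div_le_iff₀ hθ]
  exact min_le_left _ _

end Pool.Agent.Q138.PS
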