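import Pool.Agent.Q138.PS.WL

set_option autoImplicit false

/-!
# Few exceptions for large bounds: exceptional sets of dimension zero
-/

namespace Pool.Agent.Q138.PS

open Filter MeasureTheory Topology

/-- a bound `D * t ^ (-θ)` is at most `t ^ (-θ')` for large `t` if `θ' < θ` -/
theorem eventually_absorb {θ θ' : ℝ} (h : θ' < θ) (D : ℝ) : ∃ T₁ : ℝ, ∀ t : ℝ, T₁ < t → 1 ≤ t → D * t ^ (-θ) ≤ t ^ (-θ') := by
  obtain ⟨T₁, hT₁⟩ := eventually_atTop.1 ((tendsto_rpow_atTop (by linarith : 0 < θ - θ')).eventually (eventually_ge_atTop D))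
  refine ⟨T₁, fun t ht ht1 => ?_⟩
  have h0 : 0 < t := by linarith
  calc D * t ^ (-θ) ≤ t ^ (θ - θ') * t ^ (-θ) := mul_le_mul_of_nonneg_right (hT₁ t ht.le) (Real.rpow_nonneg h0.le _)
    _ = t ^ (-θ') := by
      rw [← Real.rpow_add h0]
      congr 1
      ring

/-- exceptional points whose number up to `T` is at most `C T ^ ε` for a suitable bound `N` -/
theorem fin_eps {A Y : Type} [MetricSpace Y] [MeasurableSpace Y] [BorelSpace Y] (p : A → Y) (E : ℕ → Set A) (H : A → ℝ)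
    (hH : ∀ s, 1 ≤ H s) (h : ∀ ε : ℝ, 0 < ε → ∃ (N : ℕ) (C : ℝ), ∀ T, 1 ≤ T → {s | s ∈ E N ∧ H s ≤ T}.Finite ∧
      (({s | s ∈ E N ∧ H s ≤ T}).ncard : ℝ) ≤ C * T ^ ε) :
    ∃ Z : Set Y, dimH Z = 0 ∧ ∀ z, z ∉ Z → ∀ θ D : ℝ, 0 < θ → ∃ N : ℕ,
      {s | s ∈ E N ∧ dist (p s) z ≤ D * (H s) ^ (-θ)}.Finite := by
  have h1 : ∀ m : ℕ, ∃ N : ℕ, (∀ T, {s | s ∈ E N ∧ H s ≤ T}.Finite) ∧ ∀ j : ℕ, ∃ Z : Set Y,
      dimH Z ≤ ENNReal.ofReal (1 / ((m : ℝ) + 1) / (1 / ((j : ℝ) + 1))) ∧ ∀ z, z ∉ Z →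
      {s | s ∈ E N ∧ dist (p s) z ≤ (H s) ^ (-(1 / ((j : ℝ) + 1)))}.Finite := by
    intro m
    have hm : 0 < 1 / ((m : ℝ) + 1) := by positivity
    obtain ⟨N, C, hN⟩ := h (1 / ((m : ℝ) + 1)) hm
    refine ⟨N, fun T => ((hN (max 1 T) (le_max_left _ _)).1).subset fun s hs => ⟨hs.1, hs.2.trans (le_max_right _ _)⟩,
      fun j => ?_⟩
    exact fin_map p (E N) H (1 / ((j : ℝ) + 1)) (1 / ((m : ℝ) + 1)) C 1 (by positivity) hm.le hN
  choose N hN Z hZ hz using h1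
  refine ⟨⋃ j, ⋂ m, Z m j, ?_, ?_⟩
  · rw [dimH_iUnion]
    refine le_antisymm (iSup_le fun j => ?_) bot_le
    refine ENNReal.le_of_forall_pos_le_add fun ε hε _ => ?_
    obtain ⟨k, hk⟩ := exists_nat_gt (((j : ℝ) + 1) / ε)
    refine (dimH_mono (Set.iInter_subset _ k)).trans ((hZ k j).trans ?_)
    have hε0 : (0 : ℝ) < ε := by exact_mod_cast hε
    rw [zero_add]
    rw [ENNReal.ofReal_le_iff_le_toReal (by simp)]
    simp only [ENNReal.coe_toReal]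
    rw [div_lt_iff₀ hε0] at hk
    rw [div_div_eq_mul_div, div_le_iff₀ (by positivity), div_mul_eq_mul_div, one_mul, mul_one, div_le_iff₀ (by positivity)]
    nlinarith
  · intro z hzZ θ D hθ
    simp only [Set.mem_iInter, Set.mem_iUnion, not_forall, not_exists] at hzZ
    obtain ⟨j, hj⟩ := exists_nat_gt (1 / θ)
    obtain ⟨m, hm⟩ := hzZ j
    have h5 : 1 / ((j : ℝ) + 1) < θ := by
      rw [div_lt_iff₀ (by positivity)]
      have h6 : 1 < (j : ℝ) * θ := by rwa [div_lt_iff₀ hθ] at hj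
      nlinarith
    obtain ⟨T₁, hT₁⟩ := eventually_absorb h5 D
    refine ⟨N m, ((hz m j z hm).union (hN m T₁)).subset ?_⟩
    rintro s ⟨h3, h4⟩
    by_cases hs : H s ≤ T₁
    · exact Or.inr ⟨h3, hs⟩
    · push Not at hs
      exact Or.inl ⟨h3, h4.trans (hT₁ _ hs (hH s))⟩

/-- the same for bad sets which are given for each `T` -/
theorem zero_eps {A Y : Type} [MetricSpace Y] (p : A → Y) (Bad : ℕ → ℝ → Set A)
    (h : ∀ ε : ℝ, 0 < ε → ∃ N : ℕ, ∀ θ : ℝ, 0 < θ →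
      dimH {z : Y | ∃ᶠ T : ℝ in atTop, ∃ s ∈ Bad N T, dist (p s) z ≤ T ^ (-θ)} ≤ ENNReal.ofReal (ε / θ)) :
    ∃ Z : Set Y, dimH Z = 0 ∧ ∀ z, z ∉ Z → ∀ θ D : ℝ, 0 < θ → ∃ N : ℕ, ∀ᶠ T : ℝ in atTop, ∀ s ∈ Bad N T,
      D * T ^ (-θ) < dist (p s) z := by
  have h1 : ∀ m : ℕ, ∃ N : ℕ, ∀ θ : ℝ, 0 < θ →
      dimH {z : Y | ∃ᶠ T : ℝ in atTop, ∃ s ∈ Bad N T, dist (p s) z ≤ T ^ (-θ)} ≤ ENNReal.ofReal (1 / ((m : ℝ) + 1) / θ) :=
    fun m => h _ (by positivity)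
  choose N hN using h1
  refine ⟨⋃ j : ℕ, ⋂ m : ℕ, {z : Y | ∃ᶠ T : ℝ in atTop, ∃ s ∈ Bad (N m) T, dist (p s) z ≤ T ^ (-(1 / ((j : ℝ) + 1)))}, ?_, ?_⟩
  · rw [dimH_iUnion]
    refine le_antisymm (iSup_le fun j => ?_) bot_le
    refine ENNReal.le_of_forall_pos_le_add fun ε hε _ => ?_
    obtain ⟨k, hk⟩ := exists_nat_gt (((j : ℝ) + 1) / ε)
    refine (dimH_mono (Set.iInter_subset _ k)).trans ((hN k _ (by positivity)).trans ?_)
    have hε0 : (0 : ℝ) < ε := by exact_mod_cast hε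
    rw [zero_add]
    rw [ENNReal.ofReal_le_iff_le_toReal (by simp)]
    simp only [ENNReal.coe_toReal]
    rw [div_lt_iff₀ hε0] at hk
    rw [div_div_eq_mul_div, div_le_iff₀ (by positivity), div_mul_eq_mul_div, one_mul, mul_one, div_le_iff₀ (by positivity)]
    nlinarith
  · intro z hzZ θ D hθ
    simp only [Set.mem_iInter, Set.mem_iUnion, not_forall, not_exists] at hzZ
    obtain ⟨j, hj⟩ := exists_nat_gt (1 / θ)
    obtain ⟨m, hm⟩ := hzZ j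
    have h5 : 1 / ((j : ℝ) + 1) < θ := by
      rw [div_lt_iff₀ (by positivity)]
      have h6 : 1 < (j : ℝ) * θ := by rwa [div_lt_iff₀ hθ] at hj
      nlinarith
    obtain ⟨T₁, hT₁⟩ := eventually_absorb h5 D
    have hm' : ¬ ∃ᶠ T : ℝ in atTop, ∃ s ∈ Bad (N m) T, dist (p s) z ≤ T ^ (-(1 / ((j : ℝ) + 1))) := hm
    rw [not_frequently] at hm'
    refine ⟨N m, ?_⟩
    filter_upwards [hm', eventually_gt_atTop T₁, eventually_ge_atTop 1] with T hT hT2 hT3 s hs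
    by_contra hcon
    push Not at hcon
    exact hT ⟨s, hs, hcon.trans (hT₁ T hT2 hT3)⟩

end Pool.Agent.Q138.PS
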