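import Pool.Agent.Q138.PS.WL
import Pool.Agent.Q138.PS.WN

/-!
Exceptional points whose number up to `T` is at most `C T ^ (c + ε)` for every `ε > 0`.
-/

set_option autoImplicit false

namespace Pool.Agent.Q138.PS

open Filter Topology MeasureTheory Set

theorem fin_lim {A Y : Type} [MetricSpace Y] [MeasurableSpace Y] [BorelSpace Y] (p : A → Y) (E : Set A) (H : A → ℝ)
    (hH : ∀ s, 1 ≤ H s) (c : ℝ) (hc : 0 ≤ c) (h : ∀ ε : ℝ, 0 < ε → ∃ C : ℝ, ∀ T, 1 ≤ T → {s | s ∈ E ∧ H s ≤ T}.Finite ∧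
      (({s | s ∈ E ∧ H s ≤ T}).ncard : ℝ) ≤ C * T ^ (c + ε)) (θ : ℝ) (hθ : 0 < θ) :
    ∃ Z : Set Y, dimH Z ≤ ENNReal.ofReal (c / θ) ∧ ∀ z, z ∉ Z → ∀ D : ℝ,
      {s | s ∈ E ∧ dist (p s) z ≤ D * (H s) ^ (-θ)}.Finite := by
  have hθm : ∀ m : ℕ, 0 < θ * (1 - 1 / ((m : ℝ) + 2)) := by
    intro m
    have : 1 / ((m : ℝ) + 2) ≤ 1 / 2 := by
      apply one_div_le_one_div_of_le (by norm_num)
      have : (0 : ℝ) ≤ m := by positivity
      linarith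
    have h2 : 0 < 1 - 1 / ((m : ℝ) + 2) := by linarith
    positivity
  have h1 : ∀ m : ℕ, ∃ Z : Set Y, dimH Z ≤ ENNReal.ofReal ((c + 1 / ((m : ℝ) + 1)) / (θ * (1 - 1 / ((m : ℝ) + 2)))) ∧
      ∀ z, z ∉ Z → {s | s ∈ E ∧ dist (p s) z ≤ (H s) ^ (-(θ * (1 - 1 / ((m : ℝ) + 2))))}.Finite := by
    intro m
    obtain ⟨C, hC⟩ := h (1 / ((m : ℝ) + 1)) (by positivity)
    exact fin_map p E H _ (c + 1 / ((m : ℝ) + 1)) C 1 (hθm m) (by positivity) hC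
  choose Z hZ hz using h1
  have hfin : ∀ T, {s | s ∈ E ∧ H s ≤ T}.Finite := by
    intro T
    obtain ⟨C, hC⟩ := h 1 one_pos
    exact ((hC (max 1 T) (le_max_left _ _)).1).subset fun s hs => ⟨hs.1, hs.2.trans (le_max_right _ _)⟩
  refine ⟨⋂ k : ℕ, ⋃ m : ℕ, ⋃ (_ : k ≤ m), Z m, dim_limsup Z _ (c / θ) ?_ hZ, ?_⟩
  · have h2 : Tendsto (fun m : ℕ => 1 / ((m : ℝ) + 1)) atTop (𝓝 0) := tendsto_one_div_add_atTop_nhds_zero_nat
    have h3 : Tendsto (fun m : ℕ => 1 / ((m : ℝ) + 2)) atTop (𝓝 0) := by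
      have h4 := h2.comp (tendsto_add_atTop_nat 1)
      refine h4.congr fun m => ?_
      simp only [Function.comp_apply]
      push_cast
      ring
    have h5 : Tendsto (fun m : ℕ => (c + 1 / ((m : ℝ) + 1)) / (θ * (1 - 1 / ((m : ℝ) + 2)))) atTop
        (𝓝 ((c + 0) / (θ * (1 - 0)))) := by
      refine Tendsto.div (tendsto_const_nhds.add h2) (tendsto_const_nhds.mul (tendsto_const_nhds.sub h3)) ?_
      simp [hθ.ne']
    simpa using h5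
  · intro z hzZ D
    simp only [mem_iInter, mem_iUnion, not_forall, not_exists] at hzZ
    obtain ⟨k, hk⟩ := hzZ
    have h2 := hz k z (hk k le_rfl)
    have h3 : θ * (1 - 1 / ((k : ℝ) + 2)) < θ := by
      have : 0 < 1 / ((k : ℝ) + 2) := by positivity
      nlinarith
    obtain ⟨T₁, hT₁⟩ := eventually_absorb h3 D
    refine (h2.union (hfin T₁)).subset ?_
    rintro s ⟨h4, h5⟩
    by_cases h6 : H s ≤ T₁
    · exact Or.inr ⟨h4, h6⟩
    · left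
      push Not at h6
      exact ⟨h4, h5.trans (hT₁ (H s) h6 (hH s))⟩

/-- countably many exceptional sets whose numbers up to `T` are at most `C T ^ ε` for a bound `N` which is the same for all -/
theorem fin_eps_all {A Y J : Type} [MetricSpace Y] [MeasurableSpace Y] [BorelSpace Y] [Countable J] (p : A → Y)
    (E : J → ℕ → Set A) (H : A → ℝ)
    (hH : ∀ s, 1 ≤ H s) (h : ∀ ε : ℝ, 0 < ε → ∃ N : ℕ, ∀ i : J, ∃ C : ℝ, ∀ T, 1 ≤ T → {s | s ∈ E i N ∧ H s ≤ T}.Finite ∧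
      (({s | s ∈ E i N ∧ H s ≤ T}).ncard : ℝ) ≤ C * T ^ ε) :
    ∃ Z : Set Y, dimH Z = 0 ∧ ∀ z, z ∉ Z → ∀ θ D : ℝ, 0 < θ → ∃ N : ℕ, ∀ i : J,
      {s | s ∈ E i N ∧ dist (p s) z ≤ D * (H s) ^ (-θ)}.Finite := by
  have h1 : ∀ m : ℕ, ∃ N : ℕ, (∀ i T, {s | s ∈ E i N ∧ H s ≤ T}.Finite) ∧ ∀ (j : ℕ) (i : J), ∃ Z : Set Y,
      dimH Z ≤ ENNReal.ofReal (1 / ((m : ℝ) + 1) / (1 / ((j : ℝ) + 1))) ∧ ∀ z, z ∉ Z →
      {s | s ∈ E i N ∧ dist (p s) z ≤ (H s) ^ (-(1 / ((j : ℝ) + 1)))}.Finite := by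
    intro m
    have hm : 0 < 1 / ((m : ℝ) + 1) := by positivity
    obtain ⟨N, hN⟩ := h (1 / ((m : ℝ) + 1)) hm
    refine ⟨N, fun i T => ?_, fun j i => ?_⟩
    · obtain ⟨C, hC⟩ := hN i
      exact ((hC (max 1 T) (le_max_left _ _)).1).subset fun s hs => ⟨hs.1, hs.2.trans (le_max_right _ _)⟩
    · obtain ⟨C, hC⟩ := hN i
      exact fin_map p (E i N) H (1 / ((j : ℝ) + 1)) (1 / ((m : ℝ) + 1)) C 1 (by positivity) hm.le hC
  choose N hN Z hZ hz using h1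
  refine ⟨⋃ j, ⋂ m, ⋃ i, Z m j i, ?_, ?_⟩
  · rw [dimH_iUnion]
    refine le_antisymm (iSup_le fun j => ?_) bot_le
    refine ENNReal.le_of_forall_pos_le_add fun ε hε _ => ?_
    obtain ⟨k, hk⟩ := exists_nat_gt (((j : ℝ) + 1) / ε)
    refine (dimH_mono (Set.iInter_subset _ k)).trans ?_
    rw [dimH_iUnion]
    refine iSup_le fun i => (hZ k j i).trans ?_
    have hε0 : (0 : ℝ) < ε := by exact_mod_cast hε
    rw [zero_add]
    rw [ENNReal.ofReal_le_iff_le_toReal (by simp)]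
    simp only [ENNReal.coe_toReal]
    rw [div_lt_iff₀ hε0] at hk
    rw [div_div_eq_mul_div, div_le_iff₀ (by positivity), div_mul_eq_mul_div, one_mul, mul_one, div_le_iff₀ (by positivity)]
    nlinarith
  · intro z hzZ θ D hθ
    simp only [Set.mem_iInter, Set.mem_iUnion, not_forall, not_exists] at hzZ
    obtain ⟨j, hj⟩ := exists_nat_gt (1 / θ)
    obtain ⟨m, hm⟩ := hzZ j
    have h5 : 1 / ((j : ℝ) + 1) < θ := by
      rw [div_lt_iff₀ (by positivity)]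
      have h6 : 1 < (j : ℝ) * θ := by rwa [div_lt_iff₀ hθ] at hj
      nlinarith
    obtain ⟨T₁, hT₁⟩ := eventually_absorb h5 D
    refine ⟨N m, fun i => ((hz m j i z (hm i)).union (hN m i T₁)).subset ?_⟩
    rintro s ⟨h3, h4⟩
    by_cases hs : H s ≤ T₁
    · exact Or.inr ⟨h3, hs⟩
    · push Not at hs
      exact Or.inl ⟨h3, h4.trans (hT₁ _ hs (hH s))⟩

end Pool.Agent.Q138.PS
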