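import Mathlib

/-!
Number fields and their polynomials are countable.
-/

set_option autoImplicit false

namespace Pool.Agent.Q138.PS

theorem countable_field (K : Type) [Field K] [NumberField K] : Countable K := by
  have h := Algebraic.countable ℚ K
  have h1 : {x : K | IsAlgebraic ℚ x} = Set.univ := by
    ext x
    simp only [Set.mem_setOf_eq, Set.mem_univ, iff_true]
    exact Algebra.IsAlgebraic.isAlgebraic x
  rw [h1] at h
  exact Set.countable_univ_iff.1 h

theorem countable_poly (K : Type) [Field K] [NumberField K] : Countable (Polynomial K) := by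
  have h := countable_field K
  rw [← Cardinal.mk_le_aleph0_iff]
  refine (Polynomial.cardinalMk_le_max (R := K)).trans (max_le ?_ le_rfl)
  exact Cardinal.mk_le_aleph0_iff.2 h

/-- a union over a countable type of sets of dimension at most `d` -/
theorem dimH_union_le {Y J : Type} [MetricSpace Y] [Countable J] (Z : J → Set Y) (d : ENNReal) (h : ∀ i, dimH (Z i) ≤ d) :
    dimH (⋃ i, Z i) ≤ d := by
  rw [dimH_iUnion]
  exact iSup_le h

end Pool.Agent.Q138.PS
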