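import Mathlib

/-!
# The number of algebraic integers of degree at most `g` and house at most `T`
-/

set_option autoImplicit false

namespace Pool.Agent.Q138.PS

open Polynomial

/-- `ξ` is an algebraic integer of degree at most `g` all of whose conjugates have absolute value at most `T` -/
def IntHouse (g : ℕ) (T : ℝ) (ξ : ℂ) : Prop :=
  IsIntegral ℤ ξ ∧ (minpoly ℚ ξ).natDegree ≤ g ∧ ∀ z : ℂ, aeval z (minpoly ℚ ξ) = 0 → ‖z‖ ≤ T

/-- the coefficients of the minimal polynomial -/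
theorem coeff_house {g : ℕ} {T : ℝ} {ξ : ℂ} (h : IntHouse g T ξ) (i : ℕ) :
    |((minpoly ℤ ξ).coeff i : ℝ)| ≤ T ^ ((minpoly ℚ ξ).natDegree - i) * ((minpoly ℚ ξ).natDegree.choose i) := by
  obtain ⟨h1, h2, h3⟩ := h
  have e : minpoly ℚ ξ = (minpoly ℤ ξ).map (algebraMap ℤ ℚ) := minpoly.isIntegrallyClosed_eq_field_fractions' ℚ h1
  have hm : (minpoly ℚ ξ).Monic := minpoly.monic (h1.tower_top)
  have h4 := coeff_le_of_roots_le (p := minpoly ℚ ξ) (f := algebraMap ℚ ℂ) (B := T) i hm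
    (IsAlgClosed.splits _) (fun z hz => h3 z (by
      rw [mem_roots (map_ne_zero hm.ne_zero), IsRoot.def, eval_map_algebraMap] at hz
      exact hz))
  refine le_trans (le_of_eq ?_) h4
  rw [coeff_map, e, coeff_map]
  simp

theorem sum_sub (n : ℕ) : (∑ i : Fin n, (n - (i : ℕ))) * 2 = n * (n + 1) := by
  induction n with
  | zero => simp
  | succ n ih =>
    rw [Fin.sum_univ_succ]
    have h : ∀ i : Fin n, n + 1 - ((i.succ : Fin (n + 1)) : ℕ) = n - (i : ℕ) := fun i => by
      rw [Fin.val_succ]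
      omega
    rw [Finset.sum_congr rfl fun i _ => h i]
    simp only [Fin.val_zero, Nat.sub_zero]
    nlinarith

theorem sum_sub' (n : ℕ) : (∑ i : Fin n, (n - (i : ℕ))) = n * (n + 1) / 2 := by
  have := sum_sub n
  omega

/-- the monic integral polynomial with given lower coefficients -/
noncomputable def mon (n : ℕ) (a : Fin n → ℤ) : ℂ[X] := X ^ n + ∑ i : Fin n, C ((a i : ℤ) : ℂ) * X ^ (i : ℕ)

theorem mon_monic (n : ℕ) (a : Fin n → ℤ) : (mon n a).Monic := by
  unfold mon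
  exact monic_X_pow_add (degree_sum_fin_lt fun i => ((a i : ℤ) : ℂ))

theorem mon_natDegree (n : ℕ) (a : Fin n → ℤ) : (mon n a).natDegree = n := by
  unfold mon
  have h : degree (∑ i : Fin n, C ((a i : ℤ) : ℂ) * X ^ (i : ℕ)) < n := degree_sum_fin_lt fun i => ((a i : ℤ) : ℂ)
  rw [natDegree_add_eq_left_of_degree_lt (by rwa [degree_X_pow]), natDegree_X_pow]

/-- the bound for the coefficients -/
noncomputable def bd (n : ℕ) (T : ℝ) (i : Fin n) : ℤ := ⌊T ^ (n - (i : ℕ)) * (n.choose i : ℝ)⌋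

/-- all the candidates -/
noncomputable def cand (g : ℕ) (T : ℝ) : Finset ℂ :=
  (Finset.range (g + 1)).biUnion fun n => (Fintype.piFinset fun i : Fin n => Finset.Icc (-(bd n T i)) (bd n T i)).biUnion
    fun a => (mon n a).roots.toFinset

theorem mem_cand {g : ℕ} {T : ℝ} {ξ : ℂ} (h : IntHouse g T ξ) : ξ ∈ cand g T := by
  classical
  obtain ⟨h1, h2, h3⟩ := id h
  have e : minpoly ℚ ξ = (minpoly ℤ ξ).map (algebraMap ℤ ℚ) := minpoly.isIntegrallyClosed_eq_field_fractions' ℚ h1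
  have hm : (minpoly ℤ ξ).Monic := minpoly.monic h1
  have hd : (minpoly ℤ ξ).natDegree = (minpoly ℚ ξ).natDegree := by
    rw [e, hm.natDegree_map]
  unfold cand
  rw [Finset.mem_biUnion]
  refine ⟨(minpoly ℚ ξ).natDegree, Finset.mem_range.2 (by omega), ?_⟩
  rw [Finset.mem_biUnion]
  refine ⟨fun i => (minpoly ℤ ξ).coeff i, ?_, ?_⟩
  · rw [Fintype.mem_piFinset]
    intro i
    rw [Finset.mem_Icc, ← abs_le]
    unfold bd
    rw [Int.le_floor]
    push_cast
    exact coeff_house h i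
  · rw [Multiset.mem_toFinset, mem_roots (mon_monic _ _).ne_zero, IsRoot.def]
    unfold mon
    rw [eval_add, eval_pow, eval_X, eval_finsetSum]
    have h4 : aeval ξ (minpoly ℤ ξ) = 0 := minpoly.aeval ℤ ξ
    rw [hm.as_sum, hd] at h4
    simp only [map_add, map_pow, aeval_X, map_sum, map_mul, aeval_C] at h4
    rw [← Fin.sum_univ_eq_sum_range (fun i => (algebraMap ℤ ℂ) ((minpoly ℤ ξ).coeff i) * ξ ^ i)] at h4
    rw [← h4]
    congr 1
    refine Finset.sum_congr rfl fun i _ => ?_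
    simp

theorem card_cand (g : ℕ) (T : ℝ) (hT : 1 ≤ T) :
    ((cand g T).card : ℝ) ≤ (g + 1) * ((3 * 2 ^ g) ^ g * g) * T ^ (g * (g + 1) / 2) := by
  classical
  unfold cand
  have h1 : ∀ n ∈ Finset.range (g + 1), ((((Fintype.piFinset fun i : Fin n => Finset.Icc (-(bd n T i)) (bd n T i)).biUnion
      fun a => (mon n a).roots.toFinset).card : ℕ) : ℝ) ≤ (3 * 2 ^ g) ^ g * g * T ^ (g * (g + 1) / 2) := by
    intro n hn
    have hng : n ≤ g := by
      have := Finset.mem_range.1 hn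
      omega
    have h2 : ((Fintype.piFinset fun i : Fin n => Finset.Icc (-(bd n T i)) (bd n T i)).biUnion
        fun a => (mon n a).roots.toFinset).card ≤
        (Fintype.piFinset fun i : Fin n => Finset.Icc (-(bd n T i)) (bd n T i)).card * n := by
      refine Finset.card_biUnion_le_card_mul _ _ _ fun a _ => ?_
      refine (Multiset.toFinset_card_le _).trans ((card_roots' _).trans ?_)
      rw [mon_natDegree]
    rw [Fintype.card_piFinset] at h2
    have h3 : ∀ i : Fin n, ((Finset.Icc (-(bd n T i)) (bd n T i)).card : ℝ) ≤ 3 * 2 ^ g * T ^ (n - (i : ℕ)) := by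
      intro i
      have h4 : (0 : ℝ) ≤ T ^ (n - (i : ℕ)) * (n.choose i : ℝ) := by positivity
      have h5 : 0 ≤ bd n T i := Int.floor_nonneg.2 h4
      have h6 : (bd n T i : ℝ) ≤ T ^ (n - (i : ℕ)) * (n.choose i : ℝ) := Int.floor_le _
      have h7 : ((n.choose i : ℕ) : ℝ) ≤ 2 ^ g := by
        have h8 : n.choose i ≤ 2 ^ n := Nat.choose_le_two_pow n i
        have h9 : 2 ^ n ≤ 2 ^ g := Nat.pow_le_pow_right (by norm_num) hng
        exact_mod_cast h8.trans h9
      have h10 : (1 : ℝ) ≤ 2 ^ g * T ^ (n - (i : ℕ)) := one_le_mul_of_one_le_of_one_le (one_le_pow₀ (by norm_num)) (one_le_pow₀ hT)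
      have h11 : T ^ (n - (i : ℕ)) * (n.choose i : ℝ) ≤ 2 ^ g * T ^ (n - (i : ℕ)) := by
        rw [mul_comm]
        exact mul_le_mul_of_nonneg_right h7 (by positivity)
      rw [Int.card_Icc]
      have h12 : (((bd n T i + 1 - -(bd n T i)).toNat : ℕ) : ℝ) = 2 * (bd n T i : ℝ) + 1 := by
        have h13 : (((bd n T i + 1 - -(bd n T i)).toNat : ℕ) : ℤ) = 2 * bd n T i + 1 := by
          rw [Int.toNat_of_nonneg (by omega)]
          ring
        exact_mod_cast h13
      rw [h12]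
      linarith
    have h4 : ((∏ i : Fin n, (Finset.Icc (-(bd n T i)) (bd n T i)).card : ℕ) : ℝ) ≤ (3 * 2 ^ g) ^ g * T ^ (g * (g + 1) / 2) := by
      push_cast
      calc ∏ i : Fin n, ((Finset.Icc (-(bd n T i)) (bd n T i)).card : ℝ) ≤ ∏ i : Fin n, (3 * 2 ^ g * T ^ (n - (i : ℕ))) :=
            Finset.prod_le_prod (fun _ _ => Nat.cast_nonneg _) fun i _ => h3 i
        _ = (3 * 2 ^ g) ^ n * T ^ (n * (n + 1) / 2) := by
            rw [Finset.prod_mul_distrib, Finset.prod_const, Finset.card_univ, Fintype.card_fin, Finset.prod_pow_eq_pow_sum,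
              sum_sub']
        _ ≤ (3 * 2 ^ g) ^ g * T ^ (g * (g + 1) / 2) := by
            refine mul_le_mul (pow_le_pow_right₀ ?_ hng) (pow_le_pow_right₀ hT ?_) (by positivity) (by positivity)
            · have : (1 : ℝ) ≤ 2 ^ g := one_le_pow₀ (by norm_num)
              linarith
            · exact Nat.div_le_div_right (Nat.mul_le_mul hng (by omega))
    have h5 : ((((Fintype.piFinset fun i : Fin n => Finset.Icc (-(bd n T i)) (bd n T i)).biUnion
        fun a => (mon n a).roots.toFinset).card : ℕ) : ℝ) ≤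
        ((∏ i : Fin n, (Finset.Icc (-(bd n T i)) (bd n T i)).card : ℕ) : ℝ) * n := by exact_mod_cast h2
    refine h5.trans ?_
    have h6 : (n : ℝ) ≤ g := by exact_mod_cast hng
    calc ((∏ i : Fin n, (Finset.Icc (-(bd n T i)) (bd n T i)).card : ℕ) : ℝ) * n ≤
          ((3 * 2 ^ g) ^ g * T ^ (g * (g + 1) / 2)) * g := mul_le_mul h4 h6 (Nat.cast_nonneg _) (by positivity)
      _ = (3 * 2 ^ g) ^ g * g * T ^ (g * (g + 1) / 2) := by ring
  calc (((Finset.range (g + 1)).biUnion fun n => (Fintype.piFinset fun i : Fin n => Finset.Icc (-(bd n T i)) (bd n T i)).biUnion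
        fun a => (mon n a).roots.toFinset).card : ℝ) ≤
        ∑ n ∈ Finset.range (g + 1), ((((Fintype.piFinset fun i : Fin n => Finset.Icc (-(bd n T i)) (bd n T i)).biUnion
          fun a => (mon n a).roots.toFinset).card : ℕ) : ℝ) := by exact_mod_cast Finset.card_biUnion_le
    _ ≤ ∑ _n ∈ Finset.range (g + 1), (3 * 2 ^ g) ^ g * (g : ℝ) * T ^ (g * (g + 1) / 2) := Finset.sum_le_sum h1
    _ = (g + 1) * ((3 * 2 ^ g) ^ g * g) * T ^ (g * (g + 1) / 2) := by
        rw [Finset.sum_const, Finset.card_range]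
        simp only [nsmul_eq_mul]
        push_cast
        ring

/-- the count -/
theorem house_count (g : ℕ) : ∃ C : ℝ, 0 ≤ C ∧ ∀ T : ℝ, 1 ≤ T → {ξ : ℂ | IntHouse g T ξ}.Finite ∧
    (({ξ : ℂ | IntHouse g T ξ}).ncard : ℝ) ≤ C * T ^ (g * (g + 1) / 2) := by
  classical
  refine ⟨(g + 1) * ((3 * 2 ^ g) ^ g * g), by positivity, fun T hT => ?_⟩
  have hsub : {ξ : ℂ | IntHouse g T ξ} ⊆ (cand g T : Set ℂ) := fun ξ h => mem_cand h
  refine ⟨(Finset.finite_toSet _).subset hsub, ?_⟩
  refine le_trans ?_ (card_cand g T hT)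
  have := Set.ncard_le_ncard hsub (Finset.finite_toSet _)
  rw [Set.ncard_coe_finset] at this
  exact_mod_cast this

end Pool.Agent.Q138.PS
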