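import Pool.Agent.Q138.PS.WO

/-!
# Exceptional tuples of natural numbers near given points
-/

set_option autoImplicit false

namespace Pool.Agent.Q138.PS

/-- the largest coordinate of a tuple -/
def tsize {k : ℕ} (n : Fin k → ℕ) : ℕ := Finset.univ.sup n

theorem tsize_le {k : ℕ} (n : Fin k → ℕ) (T : ℕ) : tsize n ≤ T ↔ ∀ i, n i ≤ T := by
  unfold tsize
  rw [Finset.sup_le_iff]
  simp

/-- exceptional tuples whose number in `[0, T] ^ k` is at most `C T ^ e` -/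
theorem fin_tuple {k : ℕ} {Y : Type} [MetricSpace Y] [MeasurableSpace Y] [BorelSpace Y] (p : (Fin k → ℕ) → Y)
    (Bad : Set (Fin k → ℕ)) (e C : ℝ) (h : ∀ T : ℕ, 1 ≤ T → {n | n ∈ Bad ∧ ∀ i, n i ≤ T}.Finite ∧
      (({n | n ∈ Bad ∧ ∀ i, n i ≤ T}).ncard : ℝ) ≤ C * (T : ℝ) ^ e) (τ : ℝ) (hτ : 0 < τ) :
    ∃ Z : Set Y, dimH Z ≤ ENNReal.ofReal (e / τ) ∧ ∀ z, z ∉ Z → ∀ b : ℝ,
      {n | n ∈ Bad ∧ dist (p n) z ≤ b * (max 1 (tsize n : ℝ)) ^ (-τ)}.Finite := by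
  have hE : ENNReal.ofReal (max e 0 / τ) = ENNReal.ofReal (e / τ) := by
    rcases le_or_gt 0 e with he | he
    · rw [max_eq_left he]
    · rw [max_eq_right he.le, zero_div, ENNReal.ofReal_zero, eq_comm, ENNReal.ofReal_eq_zero]
      exact (div_neg_of_neg_of_pos he hτ).le
  rw [← hE]
  refine fin_lim p Bad (fun n => max 1 (tsize n : ℝ)) (fun n => le_max_left _ _) (max e 0) (le_max_right _ _)
    (fun ε hε => ?_) τ hτ
  refine ⟨|C|, fun T hT => ?_⟩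
  have hT0 : 0 < T := by linarith
  set N : ℕ := ⌊T⌋₊ with hN
  have hNT : (N : ℝ) ≤ T := Nat.floor_le hT0.le
  have hN1 : 1 ≤ N := (Nat.one_le_floor_iff T).2 hT
  have hN1' : (1 : ℝ) ≤ N := by exact_mod_cast hN1
  obtain ⟨h1, h2⟩ := h N hN1
  have hsub : {n | n ∈ Bad ∧ max 1 (tsize n : ℝ) ≤ T} ⊆ {n | n ∈ Bad ∧ ∀ i, n i ≤ N} := by
    rintro n ⟨h3, h4⟩
    exact ⟨h3, (tsize_le n N).1 (Nat.le_floor ((le_max_right _ _).trans h4))⟩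
  refine ⟨h1.subset hsub, ?_⟩
  have h3 : (({n | n ∈ Bad ∧ max 1 (tsize n : ℝ) ≤ T}).ncard : ℝ) ≤ C * (N : ℝ) ^ e :=
    le_trans (by exact_mod_cast Set.ncard_le_ncard hsub h1) h2
  calc (({n | n ∈ Bad ∧ max 1 (tsize n : ℝ) ≤ T}).ncard : ℝ) ≤ C * (N : ℝ) ^ e := h3
    _ ≤ |C| * (N : ℝ) ^ e := mul_le_mul_of_nonneg_right (le_abs_self C) (Real.rpow_nonneg (Nat.cast_nonneg _) _)
    _ ≤ |C| * (N : ℝ) ^ (max e 0) :=
        mul_le_mul_of_nonneg_left (Real.rpow_le_rpow_of_exponent_le hN1' (le_max_left _ _)) (abs_nonneg C)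
    _ ≤ |C| * T ^ (max e 0) :=
        mul_le_mul_of_nonneg_left (Real.rpow_le_rpow (Nat.cast_nonneg _) hNT (le_max_right _ _)) (abs_nonneg C)
    _ ≤ |C| * T ^ (max e 0 + ε) :=
        mul_le_mul_of_nonneg_left (Real.rpow_le_rpow_of_exponent_le hT (by linarith)) (abs_nonneg C)

/-- the same for a sequence of exceptional sets -/
theorem fin_tuple_seq {k : ℕ} {Y : Type} [MetricSpace Y] [MeasurableSpace Y] [BorelSpace Y] (p : (Fin k → ℕ) → Y)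
    {J : Type} [Countable J] (Bad : J → Set (Fin k → ℕ)) (e : ℝ) (h : ∀ j, ∃ C : ℝ, ∀ T : ℕ, 1 ≤ T →
      {n | n ∈ Bad j ∧ ∀ i, n i ≤ T}.Finite ∧ (({n | n ∈ Bad j ∧ ∀ i, n i ≤ T}).ncard : ℝ) ≤ C * (T : ℝ) ^ e)
    (τ : ℝ) (hτ : 0 < τ) :
    ∃ Z : Set Y, dimH Z ≤ ENNReal.ofReal (e / τ) ∧ ∀ z, z ∉ Z → ∀ (j : J) (b : ℝ),
      {n | n ∈ Bad j ∧ dist (p n) z ≤ b * (max 1 (tsize n : ℝ)) ^ (-τ)}.Finite := by
  choose C hC using h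
  choose Z hZ hz using fun j => fin_tuple p (Bad j) e (C j) (hC j) τ hτ
  refine ⟨⋃ j, Z j, ?_, fun z hzZ j b => hz j z (fun hh => hzZ (Set.mem_iUnion.2 ⟨_, hh⟩)) b⟩
  rw [dimH_iUnion]
  exact iSup_le hZ

end Pool.Agent.Q138.PS
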