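import Pool.Agent.Q138.PS.WS

/-!
# Simultaneous approximation by ratios of natural numbers
-/

set_option autoImplicit false

namespace Pool.Agent.Q138.PS

/-- Dirichlet's theorem on simultaneous approximation -/
theorem dirichlet {m : ℕ} (z : Fin m → ℝ) (N : ℕ) (hN : 1 ≤ N) :
    ∃ q : ℕ, 1 ≤ q ∧ q ≤ N ^ m ∧ ∃ a : Fin m → ℤ, ∀ i, |(q : ℝ) * z i - a i| < 1 / N := by
  have hN0 : (0 : ℝ) < N := by exact_mod_cast hN
  have hlt : ∀ (q : ℕ) (i : Fin m), ⌊(N : ℝ) * Int.fract ((q : ℝ) * z i)⌋₊ < N := by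
    intro q i
    rw [Nat.floor_lt (mul_nonneg hN0.le (Int.fract_nonneg _))]
    have := Int.fract_lt_one ((q : ℝ) * z i)
    nlinarith
  set f : Fin (N ^ m + 1) → (Fin m → Fin N) := fun q i => ⟨⌊(N : ℝ) * Int.fract (((q : ℕ) : ℝ) * z i)⌋₊, hlt q i⟩ with hf
  obtain ⟨x, y, hxy, he⟩ : ∃ x y, x ≠ y ∧ f x = f y :=
    Fintype.exists_ne_map_eq_of_card_lt f (by simp)
  have key : ∀ x y : Fin (N ^ m + 1), (x : ℕ) < y → f x = f y →
      ∃ q : ℕ, 1 ≤ q ∧ q ≤ N ^ m ∧ ∃ a : Fin m → ℤ, ∀ i, |(q : ℝ) * z i - a i| < 1 / N := by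
    intro x y hxy he
    refine ⟨(y : ℕ) - x, by omega, by have := y.2; omega, fun i => ⌊((y : ℕ) : ℝ) * z i⌋ - ⌊((x : ℕ) : ℝ) * z i⌋, fun i => ?_⟩
    have h1 : ⌊(N : ℝ) * Int.fract (((x : ℕ) : ℝ) * z i)⌋₊ = ⌊(N : ℝ) * Int.fract (((y : ℕ) : ℝ) * z i)⌋₊ := by
      have := congrFun he i
      simpa [hf] using this
    set u := (N : ℝ) * Int.fract (((x : ℕ) : ℝ) * z i) with hu
    set v := (N : ℝ) * Int.fract (((y : ℕ) : ℝ) * z i) with hv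
    have hu0 : 0 ≤ u := mul_nonneg hN0.le (Int.fract_nonneg _)
    have hv0 : 0 ≤ v := mul_nonneg hN0.le (Int.fract_nonneg _)
    have h2 := Nat.floor_le hu0
    have h3 := Nat.floor_le hv0
    have h4 := Nat.lt_floor_add_one u
    have h5 := Nat.lt_floor_add_one v
    rw [h1] at h2 h4
    have h6 : |v - u| < 1 := by rw [abs_lt]; constructor <;> linarith
    have h7 : (((y : ℕ) - (x : ℕ) : ℕ) : ℝ) * z i - ((⌊((y : ℕ) : ℝ) * z i⌋ - ⌊((x : ℕ) : ℝ) * z i⌋ : ℤ) : ℝ) = (v - u) / N := by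
      rw [hu, hv, Nat.cast_sub hxy.le, Int.cast_sub, ← mul_sub, mul_div_cancel_left₀ _ hN0.ne', Int.fract, Int.fract]
      ring
    rw [h7, abs_div, abs_of_pos hN0]
    exact (div_lt_div_iff_of_pos_right hN0).2 h6
  rcases Nat.lt_or_gt_of_ne (fun h => hxy (Fin.ext h)) with h | h
  · exact key x y h he
  · exact key y x h he.symm

/-- arbitrarily large good denominators -/
theorem dirichlet_large {m : ℕ} (hm : 1 ≤ m) (z : Fin m → ℝ) (Q : ℕ) (hQ : 1 ≤ Q) :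
    ∃ q : ℕ, Q ≤ q ∧ ∃ a : Fin m → ℤ, ∀ i, |(q : ℝ) * z i - a i| ≤ (q : ℝ) ^ (-(1 / (m : ℝ))) := by
  have hm0 : (0 : ℝ) < m := by exact_mod_cast hm
  have hm1 : (1 : ℝ) ≤ m := by exact_mod_cast hm
  have hQ1 : (1 : ℝ) ≤ Q := by exact_mod_cast hQ
  obtain ⟨q, hq1, hqN, a, ha⟩ := dirichlet z (4 * Q ^ 2) (by nlinarith)
  have hq1' : (1 : ℝ) ≤ q := by exact_mod_cast hq1
  rcases le_or_gt Q q with h | h
  · refine ⟨q, h, a, fun i => (ha i).le.trans ?_⟩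
    have hq0 : (0 : ℝ) < q := by linarith
    have h1 : (q : ℝ) ^ (1 / (m : ℝ)) ≤ ((4 * Q ^ 2 : ℕ) : ℝ) := by
      have h2 : (q : ℝ) ≤ (((4 * Q ^ 2 : ℕ) : ℝ)) ^ (m : ℝ) := by
        rw [Real.rpow_natCast]; exact_mod_cast hqN
      calc (q : ℝ) ^ (1 / (m : ℝ)) ≤ ((((4 * Q ^ 2 : ℕ) : ℝ)) ^ (m : ℝ)) ^ (1 / (m : ℝ)) :=
            Real.rpow_le_rpow hq0.le h2 (by positivity)
        _ = ((4 * Q ^ 2 : ℕ) : ℝ) := by
            rw [← Real.rpow_mul (Nat.cast_nonneg _), mul_one_div_cancel hm0.ne', Real.rpow_one]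
    rw [Real.rpow_neg hq0.le, ← one_div]
    exact one_div_le_one_div_of_le (Real.rpow_pos_of_pos hq0 _) h1
  · obtain ⟨t, ht1, ht2⟩ : ∃ t : ℕ, Q ≤ t * q ∧ t * q < 2 * Q := by
      refine ⟨Q / q + 1, ?_, ?_⟩
      · have := Nat.lt_div_mul_add (a := Q) (b := q) (by omega)
        nlinarith
      · have := Nat.div_mul_le_self Q q
        nlinarith
    have htQ : (t : ℝ) ≤ 2 * Q := by
      have : t ≤ t * q := Nat.le_mul_of_pos_right _ (by omega)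
      exact_mod_cast (by omega : t ≤ 2 * Q)
    refine ⟨t * q, ht1, fun i => t * a i, fun i => ?_⟩
    have hq' : (1 : ℝ) ≤ ((t * q : ℕ) : ℝ) := by exact_mod_cast (by omega : 1 ≤ t * q)
    have hq2 : ((t * q : ℕ) : ℝ) < 2 * Q := by exact_mod_cast ht2
    have ht0 : (0 : ℝ) < t := by
      rcases Nat.eq_zero_or_pos t with h0 | h0
      · rw [h0] at ht1; omega
      · exact_mod_cast h0
    have h1 : ((t * q : ℕ) : ℝ) * z i - ((t * a i : ℤ) : ℝ) = t * ((q : ℝ) * z i - a i) := by push_cast; ring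
    have hQ0 : (0 : ℝ) < Q := by linarith
    have h2 : (t : ℝ) * (1 / ((4 * Q ^ 2 : ℕ) : ℝ)) ≤ 1 / (2 * Q) := by
      rw [mul_one_div, div_le_div_iff₀ (by push_cast; positivity) (by positivity)]
      push_cast
      nlinarith
    have h3 : ((t * q : ℕ) : ℝ) ^ (1 / (m : ℝ)) ≤ 2 * Q := by
      calc ((t * q : ℕ) : ℝ) ^ (1 / (m : ℝ)) ≤ ((t * q : ℕ) : ℝ) ^ (1 : ℝ) :=
            Real.rpow_le_rpow_of_exponent_le hq' (by rw [div_le_one hm0]; exact hm1)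
        _ ≤ 2 * Q := by rw [Real.rpow_one]; exact hq2.le
    rw [h1, abs_mul, abs_of_pos ht0]
    calc (t : ℝ) * |(q : ℝ) * z i - a i| ≤ t * (1 / ((4 * Q ^ 2 : ℕ) : ℝ)) :=
          mul_le_mul_of_nonneg_left (ha i).le ht0.le
      _ ≤ 1 / (2 * Q) := h2
      _ ≤ ((t * q : ℕ) : ℝ) ^ (-(1 / (m : ℝ))) := by
          rw [Real.rpow_neg (by linarith), ← one_div]
          exact one_div_le_one_div_of_le (Real.rpow_pos_of_pos (by linarith) _) h3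

/-- the ratios of the coordinates of a tuple to the first one -/
noncomputable def ratios {m : ℕ} (n : Fin (m + 1) → ℕ) : Fin m → ℝ := fun i => (n i.succ : ℝ) / n 0

/-- the good approximations of a point with positive coordinates form an infinite set -/
theorem dirichlet_infinite {m : ℕ} (hm : 1 ≤ m) (z : Fin m → ℝ) (hz : ∀ i, 0 < z i) :
    {n : Fin (m + 1) → ℕ | (∀ i, 2 ≤ n i) ∧ ∀ i, |ratios n i - z i| ≤ (n 0 : ℝ) ^ (-(1 + 1 / (m : ℝ)))}.Infinite := by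
  obtain ⟨w, hw0, hw⟩ : ∃ w : ℝ, 0 < w ∧ ∀ i, w ≤ z i := by
    have : Nonempty (Fin m) := ⟨⟨0, hm⟩⟩
    obtain ⟨i, hi⟩ := Finite.exists_min z
    exact ⟨z i, hz i, hi⟩
  have key : ∀ Q : ℕ, ∃ n : Fin (m + 1) → ℕ, Q ≤ n 0 ∧ (∀ i, 2 ≤ n i) ∧
      ∀ i, |ratios n i - z i| ≤ (n 0 : ℝ) ^ (-(1 + 1 / (m : ℝ))) := by
    intro Q
    obtain ⟨q, hq, a, ha⟩ := dirichlet_large hm z (Q + 2 + ⌈3 / w⌉₊) (by omega)
    have hq1 : (1 : ℝ) ≤ q := by exact_mod_cast (by omega : 1 ≤ q)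
    have hq0 : (0 : ℝ) < q := by linarith
    have hqw : 3 ≤ q * w := by
      have h1 : 3 / w ≤ (q : ℝ) := (Nat.le_ceil _).trans (by exact_mod_cast (by omega : ⌈3 / w⌉₊ ≤ q))
      rwa [div_le_iff₀ hw0] at h1
    have hsm : (q : ℝ) ^ (-(1 / (m : ℝ))) ≤ 1 :=
      Real.rpow_le_one_of_one_le_of_nonpos hq1 (by rw [neg_nonpos]; positivity)
    have ha2 : ∀ i, (2 : ℤ) ≤ a i := by
      intro i
      have h1 := (abs_le.1 ((ha i).trans hsm)).2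
      have h2 : (3 : ℝ) ≤ q * z i := hqw.trans (mul_le_mul_of_nonneg_left (hw i) hq0.le)
      have h3 : (2 : ℝ) ≤ a i := by linarith
      exact_mod_cast h3
    have ha3 : ∀ i, (((a i).toNat : ℕ) : ℝ) = a i := by
      intro i
      have h1 : (((a i).toNat : ℕ) : ℤ) = a i := Int.toNat_of_nonneg (by linarith [ha2 i])
      calc (((a i).toNat : ℕ) : ℝ) = ((((a i).toNat : ℕ) : ℤ) : ℝ) := by push_cast; rfl
        _ = a i := by rw [h1]
    refine ⟨Fin.cons q fun i => (a i).toNat, by simp; omega, fun i => ?_, fun i => ?_⟩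
    · refine Fin.cases ?_ (fun j => ?_) i
      · simp; omega
      · have := ha2 j
        simp only [Fin.cons_succ]
        omega
    · simp only [ratios, Fin.cons_zero, Fin.cons_succ, ha3]
      have h1 : (a i : ℝ) / q - z i = -(((q : ℝ) * z i - a i) / q) := by field_simp; ring
      rw [h1, abs_neg, abs_div, abs_of_pos hq0, neg_add, Real.rpow_add hq0, Real.rpow_neg_one, div_eq_mul_inv,
        mul_comm (q : ℝ)⁻¹]
      exact mul_le_mul_of_nonneg_right (ha i) (inv_nonneg.2 hq0.le)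
  intro hfin
  obtain ⟨M, hM⟩ := (hfin.image fun n => n 0).bddAbove
  obtain ⟨n, hn, h2, h3⟩ := key (M + 1)
  have := hM ⟨n, ⟨h2, h3⟩, rfl⟩
  simp only at this
  omega

/-- a good approximation lies within a constant times a power of the size of the tuple -/
theorem ratios_near {m : ℕ} (z : Fin m → ℝ) (hz : ∀ i, 0 < z i) : ∃ b : ℝ, ∀ n : Fin (m + 1) → ℕ,
    (∀ i, 2 ≤ n i) → (∀ i, |ratios n i - z i| ≤ (n 0 : ℝ) ^ (-(1 + 1 / (m : ℝ)))) →
    dist (ratios n) z ≤ b * (max 1 (tsize n : ℝ)) ^ (-(1 + 1 / (m : ℝ))) := by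
  obtain ⟨W, hW0, hW⟩ : ∃ W : ℝ, 0 ≤ W ∧ ∀ i, z i ≤ W := ⟨∑ i, z i, Finset.sum_nonneg fun i _ => (hz i).le,
    fun i => Finset.single_le_sum (f := z) (fun i _ => (hz i).le) (Finset.mem_univ i)⟩
  set τ : ℝ := 1 + 1 / (m : ℝ) with hτ
  have hτ0 : 0 < τ := by positivity
  refine ⟨(W + 2) ^ τ, fun n hn h => ?_⟩
  have h0 : (2 : ℝ) ≤ n 0 := by exact_mod_cast hn 0
  have hq0 : (0 : ℝ) < n 0 := by linarith
  have hsm : (n 0 : ℝ) ^ (-τ) ≤ 1 := Real.rpow_le_one_of_one_le_of_nonpos (by linarith) (by linarith)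
  have hsize : max 1 (tsize n : ℝ) ≤ (W + 2) * n 0 := by
    refine max_le (by nlinarith) ?_
    have h1 : tsize n ≤ ⌊(W + 2) * (n 0 : ℝ)⌋₊ := by
      rw [tsize_le]
      intro i
      refine Nat.le_floor ?_
      refine Fin.cases ?_ (fun j => ?_) i
      · nlinarith
      · have h2 := (abs_le.1 ((h j).trans hsm)).2
        simp only [ratios] at h2
        have h3 : (n j.succ : ℝ) / n 0 ≤ W + 1 := by linarith [hW j]
        rw [div_le_iff₀ hq0] at h3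
        nlinarith
    exact le_trans (by exact_mod_cast h1) (Nat.floor_le (by positivity))
  have hm1 : (0 : ℝ) < max 1 (tsize n : ℝ) := lt_of_lt_of_le one_pos (le_max_left _ _)
  refine (dist_pi_le_iff (by positivity)).2 fun i => ?_
  rw [Real.dist_eq]
  refine (h i).trans ?_
  rw [Real.rpow_neg hq0.le, Real.rpow_neg hm1.le, ← div_eq_mul_inv, le_div_iff₀ (Real.rpow_pos_of_pos hm1 _),
    inv_mul_le_iff₀ (Real.rpow_pos_of_pos hq0 _), mul_comm, ← Real.mul_rpow (by positivity) hq0.le]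
  exact Real.rpow_le_rpow hm1.le hsize hτ0.le

/-- exceptional tuples among the good approximations -/
theorem fin_ratios {m : ℕ} (hm : 1 ≤ m) {J : Type} [Countable J] (Bad : J → Set (Fin (m + 1) → ℕ)) (c : ℝ)
    (h : ∀ j, ∃ C : ℝ, ∀ T : ℕ, 1 ≤ T → {n | n ∈ Bad j ∧ ∀ i, n i ≤ T}.Finite ∧
      (({n | n ∈ Bad j ∧ ∀ i, n i ≤ T}).ncard : ℝ) ≤ C * (T : ℝ) ^ (((m + 1 : ℕ) : ℝ) - c)) :
    ∃ Z : Set (Fin m → ℝ), dimH Z ≤ ENNReal.ofReal (m - c * m / (m + 1)) ∧ ∀ z, z ∉ Z → (∀ i, 0 < z i) →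
      {n : Fin (m + 1) → ℕ | (∀ i, 2 ≤ n i) ∧ ∀ i, |ratios n i - z i| ≤ (n 0 : ℝ) ^ (-(1 + 1 / (m : ℝ)))}.Infinite ∧
      ∀ j : J, {n : Fin (m + 1) → ℕ | (∀ i, 2 ≤ n i) ∧
        (∀ i, |ratios n i - z i| ≤ (n 0 : ℝ) ^ (-(1 + 1 / (m : ℝ)))) ∧ n ∈ Bad j}.Finite := by
  have hm0 : (0 : ℝ) < m := by exact_mod_cast hm
  obtain ⟨Z, hZ, hz⟩ := fin_tuple_seq (ratios (m := m)) Bad _ h (1 + 1 / (m : ℝ)) (by positivity)
  refine ⟨Z, hZ.trans (ENNReal.ofReal_le_ofReal (le_of_eq ?_)), fun z hzZ hz0 =>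
    ⟨dirichlet_infinite hm z hz0, fun j => ?_⟩⟩
  · push_cast
    field_simp
  · obtain ⟨b, hb⟩ := ratios_near z hz0
    refine (hz z hzZ j b).subset ?_
    rintro n ⟨h1, h2, h3⟩
    exact ⟨h3, hb n h1 h2⟩

end Pool.Agent.Q138.PS
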