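import Pool.Agent.Q138.PS.WT

/-!
# Counting tuples from counts in dyadic windows; exceptional sets with an exponent in the limit
-/

set_option autoImplicit false

namespace Pool.Agent.Q138.PS

theorem bad_fin {k : ℕ} (Bad : Set (Fin k → ℕ)) (T : ℕ) : {n | n ∈ Bad ∧ ∀ i, n i ≤ T}.Finite := by
  refine (Fintype.piFinset fun _ : Fin k => Finset.Icc 0 T).finite_toSet.subset ?_
  rintro x ⟨-, h⟩
  rw [Finset.mem_coe, Fintype.mem_piFinset]
  exact fun j => Finset.mem_Icc.2 ⟨Nat.zero_le _, h j⟩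

/-- from counts in dyadic windows to counts in boxes -/
theorem count_of_dyadic {k : ℕ} (Bad : Set (Fin k → ℕ)) (e C : ℝ) (he : 0 < e) (h0 : ∀ n ∈ Bad, 1 ≤ tsize n)
    (h : ∀ T : ℕ, 1 ≤ T → (({n | n ∈ Bad ∧ tsize n ≤ T ∧ T ≤ 2 * tsize n}).ncard : ℝ) ≤ C * (T : ℝ) ^ e) :
    ∃ C' : ℝ, ∀ T : ℕ, 1 ≤ T → {n | n ∈ Bad ∧ ∀ i, n i ≤ T}.Finite ∧
      (({n | n ∈ Bad ∧ ∀ i, n i ≤ T}).ncard : ℝ) ≤ C' * (T : ℝ) ^ e := by
  have hC : 0 ≤ C := by
    have := h 1 le_rfl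
    simp only [Nat.cast_one, Real.one_rpow, mul_one] at this
    exact le_trans (Nat.cast_nonneg _) this
  have h2e : (2 : ℝ) ^ (-e) < 1 := Real.rpow_lt_one_of_one_lt_of_neg (by norm_num) (by linarith)
  set C' : ℝ := C / (1 - 2 ^ (-e)) with hC'
  have hC'0 : 0 ≤ C' := div_nonneg hC (by linarith)
  have hCC : C' * 2 ^ (-e) + C = C' := by
    have h3 : (1 : ℝ) - 2 ^ (-e) ≠ 0 := by linarith
    have h4 : C' * (1 - 2 ^ (-e)) = C := div_mul_cancel₀ C h3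
    linear_combination -h4
  refine ⟨C', fun T hT => ⟨bad_fin Bad T, ?_⟩⟩
  induction T using Nat.strong_induction_on with
  | _ T ih =>
    have hsub : {n | n ∈ Bad ∧ ∀ i, n i ≤ T} ⊆
        {n | n ∈ Bad ∧ ∀ i, n i ≤ T / 2} ∪ {n | n ∈ Bad ∧ tsize n ≤ T ∧ T ≤ 2 * tsize n} := by
      rintro n ⟨h1, h2⟩
      by_cases h3 : T ≤ 2 * tsize n
      · exact Or.inr ⟨h1, (tsize_le n T).2 h2, h3⟩
      · exact Or.inl ⟨h1, (tsize_le n _).1 (by omega)⟩
    have hfin : {n | n ∈ Bad ∧ tsize n ≤ T ∧ T ≤ 2 * tsize n}.Finite :=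
      (bad_fin Bad T).subset fun n hn => ⟨hn.1, (tsize_le n T).1 hn.2.1⟩
    have h1 : (({n | n ∈ Bad ∧ ∀ i, n i ≤ T}).ncard : ℝ) ≤
        (({n | n ∈ Bad ∧ ∀ i, n i ≤ T / 2}).ncard : ℝ) + (({n | n ∈ Bad ∧ tsize n ≤ T ∧ T ≤ 2 * tsize n}).ncard : ℝ) := by
      have := (Set.ncard_le_ncard hsub ((bad_fin Bad _).union hfin)).trans (Set.ncard_union_le _ _)
      exact_mod_cast this
    have h2 : (({n | n ∈ Bad ∧ ∀ i, n i ≤ T / 2}).ncard : ℝ) ≤ C' * (2 ^ (-e) * (T : ℝ) ^ e) := by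
      rcases Nat.eq_zero_or_pos (T / 2) with h3 | h3
      · have h4 : {n | n ∈ Bad ∧ ∀ i, n i ≤ T / 2} = ∅ := by
          ext n
          simp only [Set.mem_ofPred_eq, Set.mem_empty_iff_false, iff_false]
          rintro ⟨h5, h6⟩
          have := (tsize_le n _).2 h6
          have := h0 n h5
          omega
        rw [h4, Set.ncard_empty, Nat.cast_zero]
        positivity
      · refine (ih (T / 2) (by omega) h3).trans (mul_le_mul_of_nonneg_left ?_ hC'0)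
        have h4 : ((T / 2 : ℕ) : ℝ) ≤ 2⁻¹ * T := by
          have : T / 2 * 2 ≤ T := Nat.div_mul_le_self T 2
          have h5 : ((T / 2 : ℕ) : ℝ) * 2 ≤ T := by exact_mod_cast this
          linarith
        calc ((T / 2 : ℕ) : ℝ) ^ e ≤ (2⁻¹ * (T : ℝ)) ^ e := Real.rpow_le_rpow (Nat.cast_nonneg _) h4 he.le
          _ = 2 ^ (-e) * (T : ℝ) ^ e := by
            rw [Real.mul_rpow (by norm_num) (Nat.cast_nonneg _), Real.inv_rpow (by norm_num), Real.rpow_neg (by norm_num)]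
    calc (({n | n ∈ Bad ∧ ∀ i, n i ≤ T}).ncard : ℝ) ≤ C' * (2 ^ (-e) * (T : ℝ) ^ e) + C * (T : ℝ) ^ e :=
          h1.trans (add_le_add h2 (h T hT))
      _ = (C' * 2 ^ (-e) + C) * (T : ℝ) ^ e := by ring
      _ = C' * (T : ℝ) ^ e := by rw [hCC]

/-- intersections of sets whose dimension bounds converge -/
theorem dimH_limit {Y : Type} [MetricSpace Y] [MeasurableSpace Y] [BorelSpace Y] (Z : ℕ → Set Y) (e τ : ℝ)
    (h : ∀ i, dimH (Z i) ≤ ENNReal.ofReal ((e + 1 / ((i : ℝ) + 1)) / τ)) : dimH (⋂ i, Z i) ≤ ENNReal.ofReal (e / τ) := by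
  have h1 : ∀ i : ℕ, dimH (⋂ i, Z i) ≤ ENNReal.ofReal ((e + 1 / ((i : ℝ) + 1)) / τ) := fun i =>
    (dimH_mono (Set.iInter_subset _ i)).trans (h i)
  have h2 : Filter.Tendsto (fun i : ℕ => (e + 1 / ((i : ℝ) + 1)) / τ) Filter.atTop (nhds ((e + 0) / τ)) :=
    (tendsto_const_nhds.add tendsto_one_div_add_atTop_nhds_zero_nat).div_const τ
  rw [add_zero] at h2
  exact ge_of_tendsto' (ENNReal.tendsto_ofReal h2) h1

end Pool.Agent.Q138.PS
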