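import Pool.Agent.Q138.PS.WU

/-!
# Exceptional tuples with a logarithmic rate and almost all target points
-/

set_option autoImplicit false

namespace Pool.Agent.Q138.PS

open MeasureTheory

/-- the tuples of a set whose size is in `[2 ^ i, 2 ^ (i + 1))` -/
def block {k : ℕ} (Bad : Set (Fin k → ℕ)) (i : ℕ) : Set (Fin k → ℕ) :=
  {n | n ∈ Bad ∧ 2 ^ i ≤ tsize n ∧ tsize n < 2 ^ (i + 1)}

theorem block_fin {k : ℕ} (Bad : Set (Fin k → ℕ)) (i : ℕ) : (block Bad i).Finite :=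
  (bad_fin Bad (2 ^ (i + 1))).subset fun n hn => ⟨hn.1, (tsize_le n _).1 hn.2.2.le⟩

/-- Borel–Cantelli along dyadic blocks -/
theorem ae_block {k : ℕ} {Y : Type} [MeasurableSpace Y] (μ : Measure Y) (Bad : Set (Fin k → ℕ)) (U : (Fin k → ℕ) → Set Y)
    (h0 : ∀ n ∈ Bad, 1 ≤ tsize n) (a u : ℕ → ℝ) (ha : ∀ i, ((block Bad i).ncard : ℝ) ≤ a i) (hu0 : ∀ i, 0 ≤ u i)
    (hu : ∀ i, ∀ n ∈ block Bad i, μ (U n) ≤ ENNReal.ofReal (u i)) (hs : Summable fun i => a i * u i) :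
    ∀ᵐ z ∂μ, {n | n ∈ Bad ∧ z ∈ U n}.Finite := by
  have ha0 : ∀ i, 0 ≤ a i := fun i => le_trans (Nat.cast_nonneg _) (ha i)
  set E : ℕ → Set Y := fun i => ⋃ n ∈ block Bad i, U n with hE
  have h1 : ∀ i, μ (E i) ≤ ENNReal.ofReal (a i * u i) := by
    intro i
    have h2 : μ (E i) ≤ ∑ n ∈ (block_fin Bad i).toFinset, μ (U n) := by
      have h3 : E i = ⋃ n ∈ (block_fin Bad i).toFinset, U n := by
        simp only [hE, Set.Finite.mem_toFinset]
      rw [h3]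
      exact measure_biUnion_finset_le _ _
    have h4 : ∑ n ∈ (block_fin Bad i).toFinset, μ (U n) ≤ ∑ _n ∈ (block_fin Bad i).toFinset, ENNReal.ofReal (u i) :=
      Finset.sum_le_sum fun n hn => hu i n ((block_fin Bad i).mem_toFinset.1 hn)
    refine (h2.trans h4).trans ?_
    rw [Finset.sum_const, nsmul_eq_mul, ← Set.ncard_eq_toFinset_card _ (block_fin Bad i),
      ENNReal.ofReal_mul (ha0 i)]
    refine mul_le_mul_left ?_ _
    rw [← ENNReal.ofReal_natCast]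
    exact ENNReal.ofReal_le_ofReal (ha i)
  have h5 : ∑' i, μ (E i) ≠ ⊤ := by
    refine ne_top_of_le_ne_top ?_ (ENNReal.tsum_le_tsum h1)
    rw [← ENNReal.ofReal_tsum_of_nonneg (fun i => mul_nonneg (ha0 i) (hu0 i)) hs]
    exact ENNReal.ofReal_ne_top
  have h6 : ∀ᵐ z ∂μ, ∀ᶠ i in Filter.atTop, z ∉ E i := ae_eventually_notMem h5
  filter_upwards [h6] with z hz
  obtain ⟨I, hI⟩ := Filter.eventually_atTop.1 hz
  refine ((Finset.range I).finite_toSet.biUnion fun i _ => block_fin Bad i).subset ?_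
  rintro n ⟨h7, h8⟩
  have h9 := h0 n h7
  have h10 : n ∈ block Bad (Nat.log 2 (tsize n)) :=
    ⟨h7, Nat.pow_log_le_self 2 (by omega), Nat.lt_pow_succ_log_self (by norm_num) _⟩
  refine Set.mem_iUnion₂.2 ⟨Nat.log 2 (tsize n), ?_, h10⟩
  rw [Finset.mem_coe, Finset.mem_range]
  by_contra h11
  exact hI _ (not_lt.1 h11) (Set.mem_iUnion₂.2 ⟨n, h10, h8⟩)

/-- exceptional tuples with a logarithmic saving -/
theorem ae_log {k : ℕ} {Y : Type} [MeasurableSpace Y] (μ : Measure Y) (Bad : Set (Fin k → ℕ)) (U : (Fin k → ℕ) → Set Y)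
    (h2 : ∀ n ∈ Bad, 2 ≤ tsize n) (C K α β : ℝ) (hC : 0 ≤ C) (hK : 0 ≤ K) (hα : 0 ≤ α) (hβ : 0 ≤ β) (hαβ : 1 < α + β)
    (h : ∀ x : ℕ, 16 ≤ x → (({n | n ∈ Bad ∧ ∀ i, n i ≤ x}).ncard : ℝ) ≤ C * (x : ℝ) ^ k * (Real.log x) ^ (-α))
    (hU : ∀ n ∈ Bad, μ (U n) ≤ ENNReal.ofReal (K * ((tsize n : ℝ) ^ k)⁻¹ * (Real.log (tsize n)) ^ (-β))) :
    ∀ᵐ z ∂μ, {n | n ∈ Bad ∧ z ∈ U n}.Finite := by
  have hl2 : 0 < Real.log 2 := Real.log_pos (by norm_num)
  set a : ℕ → ℝ := fun i => if i < 3 then ((block Bad i).ncard : ℝ) else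
    C * ((2 : ℝ) ^ (i + 1)) ^ k * (Real.log ((2 : ℝ) ^ (i + 1))) ^ (-α) with ha
  set u : ℕ → ℝ := fun i => if i = 0 then 0 else K * (((2 : ℝ) ^ i) ^ k)⁻¹ * (Real.log ((2 : ℝ) ^ i)) ^ (-β) with hu
  refine ae_block μ Bad U (fun n hn => by have := h2 n hn; omega) a u (fun i => ?_) (fun i => ?_) (fun i n hn => ?_) ?_
  · simp only [ha]
    split_ifs with hi
    · exact le_rfl
    · have h1 : 16 ≤ 2 ^ (i + 1) := by
        calc 16 = 2 ^ 4 := by norm_num
          _ ≤ 2 ^ (i + 1) := Nat.pow_le_pow_right (by norm_num) (by omega)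
      have h3 := h (2 ^ (i + 1)) h1
      push_cast at h3
      refine le_trans ?_ h3
      have h4 := Set.ncard_le_ncard (s := block Bad i) (t := {n | n ∈ Bad ∧ ∀ j, n j ≤ 2 ^ (i + 1)})
        (fun n hn => ⟨hn.1, (tsize_le n _).1 hn.2.2.le⟩) (bad_fin Bad _)
      exact_mod_cast h4
  · simp only [hu]
    split_ifs with hi
    · exact le_rfl
    · have : 0 ≤ Real.log ((2 : ℝ) ^ i) := Real.log_nonneg (one_le_pow₀ (by norm_num))
      positivity
  · have h3 : i ≠ 0 := by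
      rintro rfl
      have h4 := hn.2.2
      have h5 := h2 n hn.1
      norm_num at h4
      omega
    simp only [hu, if_neg h3]
    refine (hU n hn.1).trans (ENNReal.ofReal_le_ofReal ?_)
    have h4 : (2 : ℝ) ^ i ≤ tsize n := by exact_mod_cast hn.2.1
    have h5 : (1 : ℝ) < 2 ^ i := one_lt_pow₀ (by norm_num) h3
    have h6 : 0 < Real.log ((2 : ℝ) ^ i) := Real.log_pos h5
    refine mul_le_mul (mul_le_mul_of_nonneg_left ?_ hK) ?_ ?_ (by positivity)
    · exact inv_anti₀ (by positivity) (pow_le_pow_left₀ (by positivity) h4 k)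
    · exact Real.rpow_le_rpow_of_nonpos h6 (Real.log_le_log (by positivity) h4) (by linarith)
    · exact Real.rpow_nonneg (Real.log_nonneg (by linarith)) _
  · rw [← summable_nat_add_iff 3]
    have h3 : Summable fun i : ℕ => C * K * 2 ^ k * (Real.log 2) ^ (-(α + β)) * ((((i + 3 : ℕ) : ℝ)) ^ (-(α + β))) := by
      refine Summable.mul_left _ ?_
      exact (summable_nat_add_iff (f := fun i : ℕ => (i : ℝ) ^ (-(α + β))) 3).2 (Real.summable_nat_rpow.2 (by linarith))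
    refine Summable.of_nonneg_of_le (fun i => ?_) (fun i => ?_) h3
    · simp only [ha, hu, if_neg (show ¬ i + 3 < 3 by omega), if_neg (show ¬ i + 3 = 0 by omega)]
      have h4 : 0 ≤ Real.log ((2 : ℝ) ^ (i + 3)) := Real.log_nonneg (one_le_pow₀ (by norm_num))
      have h5 : 0 ≤ Real.log ((2 : ℝ) ^ (i + 3 + 1)) := Real.log_nonneg (one_le_pow₀ (by norm_num))
      positivity
    · simp only [ha, hu, if_neg (show ¬ i + 3 < 3 by omega), if_neg (show ¬ i + 3 = 0 by omega)]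
      set j : ℕ := i + 3 with hj
      have hj0 : (0 : ℝ) < (j : ℝ) := by rw [hj]; positivity
      rw [Real.log_pow, Real.log_pow]
      have h4 : (((j + 1 : ℕ) : ℝ) * Real.log 2) ^ (-α) ≤ ((j : ℝ) * Real.log 2) ^ (-α) := by
        refine Real.rpow_le_rpow_of_nonpos (by positivity) ?_ (by linarith)
        push_cast
        nlinarith
      have h5 : ((j : ℝ) * Real.log 2) ^ (-α) * ((j : ℝ) * Real.log 2) ^ (-β) =
          (Real.log 2) ^ (-(α + β)) * (j : ℝ) ^ (-(α + β)) := by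
        rw [← Real.rpow_add (by positivity), Real.mul_rpow hj0.le hl2.le, mul_comm]
        congr 2 <;> ring
      have h6 : ((2 : ℝ) ^ (j + 1)) ^ k * (((2 : ℝ) ^ j) ^ k)⁻¹ = 2 ^ k := by
        rw [pow_succ, mul_pow]
        field_simp
      calc C * ((2 : ℝ) ^ (j + 1)) ^ k * (((j + 1 : ℕ) : ℝ) * Real.log 2) ^ (-α) *
            (K * (((2 : ℝ) ^ j) ^ k)⁻¹ * ((j : ℝ) * Real.log 2) ^ (-β))
          = C * K * (((2 : ℝ) ^ (j + 1)) ^ k * (((2 : ℝ) ^ j) ^ k)⁻¹) * ((((j + 1 : ℕ) : ℝ) * Real.log 2) ^ (-α) *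
            ((j : ℝ) * Real.log 2) ^ (-β)) := by ring
        _ ≤ C * K * (((2 : ℝ) ^ (j + 1)) ^ k * (((2 : ℝ) ^ j) ^ k)⁻¹) * (((j : ℝ) * Real.log 2) ^ (-α) *
            ((j : ℝ) * Real.log 2) ^ (-β)) := by
              refine mul_le_mul_of_nonneg_left (mul_le_mul_of_nonneg_right h4 (by positivity)) ?_
              rw [h6]; positivity
        _ = C * K * 2 ^ k * (Real.log 2) ^ (-(α + β)) * (j : ℝ) ^ (-(α + β)) := by rw [h5, h6]; ring

/-- powers of the double logarithm are absorbed -/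
theorem loglog_le (C : ℕ) (η : ℝ) (hη : 0 < η) : ∃ C' : ℝ, 0 ≤ C' ∧ ∀ x : ℕ, 16 ≤ x →
    (C : ℝ) * Real.log (Real.log x) ^ C / Real.log x ≤ C' * (Real.log x) ^ (-(1 - η)) := by
  have hC1 : (0 : ℝ) < C + 1 := by positivity
  set ε : ℝ := η / (C + 1) with hε
  have hε0 : 0 < ε := div_pos hη hC1
  refine ⟨C * (1 / ε) ^ C, by positivity, fun x hx => ?_⟩
  have hx' : (16 : ℝ) ≤ x := by exact_mod_cast hx
  have hl : 1 ≤ Real.log x := by
    have h1 : Real.exp 1 ≤ x := by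
      have := Real.exp_one_lt_d9
      linarith
    calc (1 : ℝ) = Real.log (Real.exp 1) := (Real.log_exp 1).symm
      _ ≤ Real.log x := Real.log_le_log (Real.exp_pos 1) h1
  have hl0 : 0 < Real.log x := by linarith
  have h1 : Real.log (Real.log x) ≤ (Real.log x) ^ ε / ε := Real.log_le_rpow_div hl0.le hε0
  have h2 : 0 ≤ Real.log (Real.log x) := Real.log_nonneg hl
  have h3 : Real.log (Real.log x) ^ C ≤ (1 / ε) ^ C * (Real.log x) ^ η := by
    calc Real.log (Real.log x) ^ C ≤ ((Real.log x) ^ ε / ε) ^ C := pow_le_pow_left₀ h2 h1 C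
      _ = (1 / ε) ^ C * ((Real.log x) ^ (ε * C)) := by
          rw [Real.rpow_mul hl0.le, Real.rpow_natCast, div_pow, one_div, inv_pow]
          ring
      _ ≤ (1 / ε) ^ C * (Real.log x) ^ η := by
          refine mul_le_mul_of_nonneg_left (Real.rpow_le_rpow_of_exponent_le hl ?_) (by positivity)
          rw [hε, div_mul_eq_mul_div, div_le_iff₀ hC1]
          nlinarith
  calc (C : ℝ) * Real.log (Real.log x) ^ C / Real.log x ≤ C * ((1 / ε) ^ C * (Real.log x) ^ η) / Real.log x :=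
        div_le_div_of_nonneg_right (mul_le_mul_of_nonneg_left h3 (by positivity)) hl0.le
    _ = C * (1 / ε) ^ C * (Real.log x) ^ (-(1 - η)) := by
        rw [neg_sub, Real.rpow_sub hl0, Real.rpow_one]
        ring

/-- almost every point of `ℝ ^ s` has only finitely many exceptional approximations which are better than Dirichlet's by a power
of a logarithm -/
theorem ae_ratios {s : ℕ} (hs : 1 ≤ s) (Bad : Set (Fin (s + 1) → ℕ)) (h2 : ∀ n ∈ Bad, 2 ≤ tsize n)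
    (h : ∀ η : ℝ, 0 < η → η < 1 → ∃ C : ℝ, 0 ≤ C ∧ ∀ x : ℕ, 16 ≤ x →
      (({n | n ∈ Bad ∧ ∀ i, n i ≤ x}).ncard : ℝ) ≤ C * (x : ℝ) ^ (s + 1) * (Real.log x) ^ (-(1 - η))) :
    ∀ᵐ z : Fin s → ℝ, ∀ δ : ℝ, 0 < δ → ∀ b : ℝ, {n | n ∈ Bad ∧ ∀ i, |ratios n i - z i| ≤
      b * (tsize n : ℝ) ^ (-(1 + 1 / (s : ℝ))) * (Real.log (tsize n)) ^ (-δ)}.Finite := by
  have hs0 : (0 : ℝ) < s := by exact_mod_cast hs
  have key : ∀ N B : ℕ, ∀ᵐ z : Fin s → ℝ, {n | n ∈ Bad ∧ z ∈ {z : Fin s → ℝ | ∀ i, |ratios n i - z i| ≤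
      B * (tsize n : ℝ) ^ (-(1 + 1 / (s : ℝ))) * (Real.log (tsize n)) ^ (-(1 / ((N : ℝ) + 1)))}}.Finite := by
    intro N B
    set δ : ℝ := 1 / ((N : ℝ) + 1) with hδ
    have hδ0 : 0 < δ := Nat.one_div_pos_of_nat
    set β : ℝ := s * δ with hβ
    have hβ0 : 0 < β := mul_pos hs0 hδ0
    set η : ℝ := min (β / 2) (1 / 2) with hη
    have hη0 : 0 < η := lt_min (by linarith) (by norm_num)
    have hη1 : η < 1 := lt_of_le_of_lt (min_le_right _ _) (by norm_num)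
    have hηβ : η ≤ β / 2 := min_le_left _ _
    obtain ⟨C, hC, h3⟩ := h η hη0 hη1
    refine ae_log volume Bad _ h2 C ((2 * B) ^ s) (1 - η) β hC (by positivity) (by linarith) hβ0.le (by linarith) h3
      (fun n hn => ?_)
    have ht : (2 : ℝ) ≤ tsize n := by exact_mod_cast h2 n hn
    have ht0 : (0 : ℝ) < tsize n := by linarith
    have hl : 0 < Real.log (tsize n) := Real.log_pos (by linarith)
    set r : ℝ := B * (tsize n : ℝ) ^ (-(1 + 1 / (s : ℝ))) * (Real.log (tsize n)) ^ (-δ) with hr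
    have hr0 : 0 ≤ r := by positivity
    have h4 : {z : Fin s → ℝ | ∀ i, |ratios n i - z i| ≤ r} = Metric.closedBall (ratios n) r := by
      ext z
      rw [Metric.mem_closedBall, dist_comm, dist_pi_le_iff hr0]
      rfl
    rw [h4, Real.volume_pi_closedBall _ hr0]
    refine ENNReal.ofReal_le_ofReal (le_of_eq ?_)
    have h5 : ((tsize n : ℝ) ^ (-(1 + 1 / (s : ℝ)))) ^ s = ((tsize n : ℝ) ^ (s + 1))⁻¹ := by
      rw [← Real.rpow_natCast, ← Real.rpow_mul ht0.le, ← Real.rpow_natCast, ← Real.rpow_neg ht0.le]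
      congr 1
      push_cast
      field_simp
    have h6 : ((Real.log (tsize n)) ^ (-δ)) ^ s = (Real.log (tsize n)) ^ (-β) := by
      rw [← Real.rpow_natCast, ← Real.rpow_mul hl.le]
      congr 1
      rw [hβ]
      ring
    rw [Fintype.card_fin, hr, ← h5, ← h6]
    ring
  have key2 : ∀ᵐ z : Fin s → ℝ, ∀ N B : ℕ, {n | n ∈ Bad ∧ z ∈ {z : Fin s → ℝ | ∀ i, |ratios n i - z i| ≤
      B * (tsize n : ℝ) ^ (-(1 + 1 / (s : ℝ))) * (Real.log (tsize n)) ^ (-(1 / ((N : ℝ) + 1)))}}.Finite :=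
    ae_all_iff.2 fun N => ae_all_iff.2 fun B => key N B
  filter_upwards [key2] with z hz δ hδ b
  obtain ⟨N, hN⟩ := exists_nat_one_div_lt hδ
  refine ((hz N ⌈b⌉₊).union (bad_fin Bad 2)).subset ?_
  rintro n ⟨h3, h4⟩
  by_cases h5 : tsize n ≤ 2
  · exact Or.inr ⟨h3, (tsize_le n 2).1 h5⟩
  · refine Or.inl ⟨h3, fun i => (h4 i).trans ?_⟩
    have h6 : (3 : ℝ) ≤ tsize n := by exact_mod_cast (by omega : 3 ≤ tsize n)
    have h7 : 1 ≤ Real.log (tsize n) := by
      have h8 : Real.exp 1 ≤ tsize n := by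
        have := Real.exp_one_lt_d9
        linarith
      calc (1 : ℝ) = Real.log (Real.exp 1) := (Real.log_exp 1).symm
        _ ≤ Real.log (tsize n) := Real.log_le_log (Real.exp_pos 1) h8
    have h9 : (Real.log (tsize n)) ^ (-δ) ≤ (Real.log (tsize n)) ^ (-(1 / ((N : ℝ) + 1))) :=
      Real.rpow_le_rpow_of_exponent_le h7 (by linarith)
    refine mul_le_mul (mul_le_mul_of_nonneg_right (Nat.le_ceil b) (by positivity)) h9 (by positivity) (by positivity)

end Pool.Agent.Q138.PS
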