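import Pool.Agent.Q138.PS.WO

/-!
# Exceptional tuples of integers near given points; approximation by the elements of a finitely generated group
-/

set_option autoImplicit false

namespace Pool.Agent.Q138.PS

/-- the largest absolute value of a coordinate -/
def isize {r : ℕ} (m : Fin r → ℤ) : ℕ := Finset.univ.sup fun i => (m i).natAbs

theorem isize_le {r : ℕ} (m : Fin r → ℤ) (H : ℕ) : isize m ≤ H ↔ ∀ i, |m i| ≤ H := by
  unfold isize
  rw [Finset.sup_le_iff]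
  refine ⟨fun h i => ?_, fun h i _ => ?_⟩
  · have := h i (Finset.mem_univ i)
    rw [Int.abs_eq_natAbs]
    exact_mod_cast this
  · have := h i
    rw [Int.abs_eq_natAbs] at this
    exact_mod_cast this

theorem box_fin {r : ℕ} (Bad : Set (Fin r → ℤ)) (H : ℕ) : {m | (∀ i, |m i| ≤ (H : ℤ)) ∧ m ∈ Bad}.Finite := by
  refine (Fintype.piFinset fun _ : Fin r => Finset.Icc (-(H : ℤ)) H).finite_toSet.subset ?_
  rintro x ⟨h, -⟩
  rw [Finset.mem_coe, Fintype.mem_piFinset]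
  exact fun j => Finset.mem_Icc.2 (abs_le.1 (h j))

/-- exceptional tuples of integers whose number in `[-H, H] ^ r` is at most `C H ^ (r N / (N + 1))` -/
theorem fin_int {r : ℕ} {Y : Type} [MetricSpace Y] [MeasurableSpace Y] [BorelSpace Y] (p : (Fin r → ℤ) → Y)
    (Bad : Set (Fin r → ℤ)) (N C : ℕ) (h : ∀ H : ℕ, 1 ≤ H → {m | (∀ i, |m i| ≤ (H : ℤ)) ∧ m ∈ Bad}.ncard ^ (N + 1) ≤
      C * H ^ (r * N)) (τ : ℝ) (hτ : 0 < τ) :
    ∃ Z : Set Y, dimH Z ≤ ENNReal.ofReal ((r * N / (N + 1) : ℝ) / τ) ∧ ∀ z, z ∉ Z → ∀ b : ℝ,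
      {m | m ∈ Bad ∧ dist (p m) z ≤ b * (max 1 (isize m : ℝ)) ^ (-τ)}.Finite := by
  have hN : (0 : ℝ) < (N : ℝ) + 1 := by positivity
  refine fin_lim p Bad (fun m => max 1 (isize m : ℝ)) (fun m => le_max_left _ _) (r * N / (N + 1) : ℝ) (by positivity)
    (fun ε hε => ?_) τ hτ
  refine ⟨(C : ℝ) ^ (1 / ((N : ℝ) + 1)), fun T hT => ?_⟩
  have hT0 : 0 < T := by linarith
  set H : ℕ := ⌊T⌋₊ with hH
  have hHT : (H : ℝ) ≤ T := Nat.floor_le hT0.le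
  have hH1 : 1 ≤ H := (Nat.one_le_floor_iff T).2 hT
  have hsub : {m | m ∈ Bad ∧ max 1 (isize m : ℝ) ≤ T} ⊆ {m | (∀ i, |m i| ≤ (H : ℤ)) ∧ m ∈ Bad} := by
    rintro m ⟨h3, h4⟩
    exact ⟨(isize_le m H).1 (Nat.le_floor ((le_max_right _ _).trans h4)), h3⟩
  refine ⟨(box_fin Bad H).subset hsub, ?_⟩
  set n : ℕ := {m | (∀ i, |m i| ≤ (H : ℤ)) ∧ m ∈ Bad}.ncard with hn
  have h1 : (n : ℝ) ^ (N + 1) ≤ C * (H : ℝ) ^ (r * N) := by exact_mod_cast h H hH1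
  have h2 : (n : ℝ) ≤ (C : ℝ) ^ (1 / ((N : ℝ) + 1)) * (H : ℝ) ^ (r * N / (N + 1) : ℝ) := by
    have h3 : (n : ℝ) = ((n : ℝ) ^ (N + 1)) ^ (1 / ((N : ℝ) + 1)) := by
      rw [← Real.rpow_natCast, ← Real.rpow_mul (Nat.cast_nonneg _)]
      push_cast
      rw [mul_one_div_cancel hN.ne', Real.rpow_one]
    rw [h3]
    refine (Real.rpow_le_rpow (by positivity) h1 (by positivity)).trans (le_of_eq ?_)
    rw [Real.mul_rpow (by positivity) (by positivity), ← Real.rpow_natCast (H : ℝ), ← Real.rpow_mul (Nat.cast_nonneg _)]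
    congr 2
    push_cast
    ring
  calc (({m | m ∈ Bad ∧ max 1 (isize m : ℝ) ≤ T}).ncard : ℝ) ≤ n := by
        exact_mod_cast Set.ncard_le_ncard hsub (box_fin Bad H)
    _ ≤ (C : ℝ) ^ (1 / ((N : ℝ) + 1)) * (H : ℝ) ^ (r * N / (N + 1) : ℝ) := h2
    _ ≤ (C : ℝ) ^ (1 / ((N : ℝ) + 1)) * T ^ (r * N / (N + 1) : ℝ) := by
        refine mul_le_mul_of_nonneg_left (Real.rpow_le_rpow (Nat.cast_nonneg _) hHT (by positivity)) (by positivity)
    _ ≤ (C : ℝ) ^ (1 / ((N : ℝ) + 1)) * T ^ ((r * N / (N + 1) : ℝ) + ε) := by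
        refine mul_le_mul_of_nonneg_left (Real.rpow_le_rpow_of_exponent_le hT (by linarith)) (by positivity)

/-- the same for the elements of the group generated by `1` and the `β_i` which are close to a given real number -/
theorem fin_lattice {r : ℕ} (β : Fin r → ℝ) (Bad : Set (Fin r → ℤ)) (N C : ℕ)
    (h : ∀ H : ℕ, 1 ≤ H → {m | (∀ i, |m i| ≤ (H : ℤ)) ∧ m ∈ Bad}.ncard ^ (N + 1) ≤ C * H ^ (r * N))
    (τ : ℝ) (hτ : 0 < τ) :
    ∃ Z : Set ℝ, dimH Z ≤ ENNReal.ofReal ((r * N / (N + 1) : ℝ) / τ) ∧ ∀ z, z ∉ Z → ∀ b : ℝ,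
      {m | m ∈ Bad ∧ ∃ a : ℤ, |a + ∑ i, m i * β i - z| ≤ b * (max 1 (isize m : ℝ)) ^ (-τ)}.Finite := by
  choose Z hZ hz using fun e : ℤ => fin_int (fun m : Fin r → ℤ => (e : ℝ) + Int.fract (∑ i, (m i : ℝ) * β i)) Bad N C h τ hτ
  refine ⟨⋃ e, Z e, ?_, fun z hzZ b => ?_⟩
  · rw [dimH_iUnion]
    exact iSup_le hZ
  · refine ((Finset.Icc ⌊z - |b| - 1⌋ ⌈z + |b| + 1⌉).finite_toSet.biUnion fun e _ =>
      hz e z (fun hh => hzZ (Set.mem_iUnion.2 ⟨e, hh⟩)) b).subset ?_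
    rintro m ⟨hm, a, ha⟩
    have h1 : (max 1 (isize m : ℝ)) ^ (-τ) ≤ 1 :=
      Real.rpow_le_one_of_one_le_of_nonpos (le_max_left _ _) (by linarith)
    have h0 : 0 ≤ (max 1 (isize m : ℝ)) ^ (-τ) := Real.rpow_nonneg (le_trans zero_le_one (le_max_left _ _)) _
    have h2 : |(a : ℝ) + ∑ i, (m i : ℝ) * β i - z| ≤ |b| := by
      refine ha.trans ?_
      calc b * (max 1 (isize m : ℝ)) ^ (-τ) ≤ |b| * (max 1 (isize m : ℝ)) ^ (-τ) :=
            mul_le_mul_of_nonneg_right (le_abs_self b) h0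
        _ ≤ |b| * 1 := mul_le_mul_of_nonneg_left h1 (abs_nonneg b)
        _ = |b| := mul_one _
    set x : ℝ := (a : ℝ) + ∑ i, (m i : ℝ) * β i with hx
    have h3 : (⌊x⌋ : ℝ) + Int.fract (∑ i, (m i : ℝ) * β i) = x := by
      have h4 : Int.fract x = Int.fract (∑ i, (m i : ℝ) * β i) := by
        rw [hx, Int.fract_intCast_add]
      rw [← h4]
      exact Int.floor_add_fract x
    obtain ⟨h5, h6⟩ := abs_le.1 h2
    have h7 := Int.floor_le x
    have h8 := Int.lt_floor_add_one x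
    refine Set.mem_iUnion₂.2 ⟨⌊x⌋, ?_, hm, ?_⟩
    · rw [Finset.mem_coe, Finset.mem_Icc]
      constructor
      · rw [Int.floor_le_iff]
        linarith
      · rw [Int.le_ceil_iff]
        linarith
    · rw [Real.dist_eq, h3]
      exact ha

end Pool.Agent.Q138.PS
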