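import Pool.Agent.Q138.PS.WX

/-!
# Exceptional sets which are controlled by a power of their cardinality
-/

set_option autoImplicit false

namespace Pool.Agent.Q138.PS

/-- exceptional elements; the `k`-th power of the number of those of size at most `H` is at most `C H ^ e` -/
theorem fin_pow {A Y : Type} [MetricSpace Y] [MeasurableSpace Y] [BorelSpace Y] (p : A → Y) (Bad : Set A) (S : A → ℕ)
    (k e C : ℕ) (hk : 1 ≤ k) (h : ∀ H : ℕ, 1 ≤ H → {m | S m ≤ H ∧ m ∈ Bad}.Finite ∧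
      {m | S m ≤ H ∧ m ∈ Bad}.ncard ^ k ≤ C * H ^ e) (τ : ℝ) (hτ : 0 < τ) :
    ∃ Z : Set Y, dimH Z ≤ ENNReal.ofReal ((e / k : ℝ) / τ) ∧ ∀ z, z ∉ Z → ∀ b : ℝ,
      {m | m ∈ Bad ∧ dist (p m) z ≤ b * (max 1 (S m : ℝ)) ^ (-τ)}.Finite := by
  have hk0 : (0 : ℝ) < k := by exact_mod_cast hk
  refine fin_lim p Bad (fun m => max 1 (S m : ℝ)) (fun m => le_max_left _ _) (e / k : ℝ) (by positivity)
    (fun ε hε => ?_) τ hτ
  refine ⟨(C : ℝ) ^ (1 / (k : ℝ)), fun T hT => ?_⟩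
  have hT0 : 0 < T := by linarith
  set H : ℕ := ⌊T⌋₊ with hH
  have hHT : (H : ℝ) ≤ T := Nat.floor_le hT0.le
  have hH1 : 1 ≤ H := (Nat.one_le_floor_iff T).2 hT
  obtain ⟨hfin, hcnt⟩ := h H hH1
  have hsub : {m | m ∈ Bad ∧ max 1 (S m : ℝ) ≤ T} ⊆ {m | S m ≤ H ∧ m ∈ Bad} := by
    rintro m ⟨h3, h4⟩
    exact ⟨Nat.le_floor ((le_max_right _ _).trans h4), h3⟩
  refine ⟨hfin.subset hsub, ?_⟩
  set n : ℕ := {m | S m ≤ H ∧ m ∈ Bad}.ncard with hn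
  have h1 : (n : ℝ) ^ k ≤ C * (H : ℝ) ^ e := by exact_mod_cast hcnt
  have h2 : (n : ℝ) ≤ (C : ℝ) ^ (1 / (k : ℝ)) * (H : ℝ) ^ (e / k : ℝ) := by
    have h3 : (n : ℝ) = ((n : ℝ) ^ k) ^ (1 / (k : ℝ)) := by
      rw [← Real.rpow_natCast, ← Real.rpow_mul (Nat.cast_nonneg _), mul_one_div_cancel hk0.ne', Real.rpow_one]
    rw [h3]
    refine (Real.rpow_le_rpow (by positivity) h1 (by positivity)).trans (le_of_eq ?_)
    rw [Real.mul_rpow (by positivity) (by positivity), ← Real.rpow_natCast (H : ℝ), ← Real.rpow_mul (Nat.cast_nonneg _)]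
    congr 2
    ring
  calc (({m | m ∈ Bad ∧ max 1 (S m : ℝ) ≤ T}).ncard : ℝ) ≤ n := by
        exact_mod_cast Set.ncard_le_ncard hsub hfin
    _ ≤ (C : ℝ) ^ (1 / (k : ℝ)) * (H : ℝ) ^ (e / k : ℝ) := h2
    _ ≤ (C : ℝ) ^ (1 / (k : ℝ)) * T ^ (e / k : ℝ) := by
        refine mul_le_mul_of_nonneg_left (Real.rpow_le_rpow (Nat.cast_nonneg _) hHT (by positivity)) (by positivity)
    _ ≤ (C : ℝ) ^ (1 / (k : ℝ)) * T ^ ((e / k : ℝ) + ε) := by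
        refine mul_le_mul_of_nonneg_left (Real.rpow_le_rpow_of_exponent_le hT (by linarith)) (by positivity)

/-- the size of a pair of tuples of integers -/
def isize2 {r s : ℕ} (m : (Fin r → ℤ) × (Fin s → ℤ)) : ℕ := max (isize m.1) (isize m.2)

theorem isize2_le {r s : ℕ} (m : (Fin r → ℤ) × (Fin s → ℤ)) (H : ℕ) :
    isize2 m ≤ H ↔ (∀ i, |m.1 i| ≤ H) ∧ ∀ i, |m.2 i| ≤ H := by
  unfold isize2
  rw [max_le_iff, isize_le, isize_le]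

theorem fin_box {r : ℕ} (Bad : Set (Fin r → ℤ)) (H : ℕ) : {m | isize m ≤ H ∧ m ∈ Bad}.Finite :=
  (box_fin Bad H).subset fun m hm => ⟨(isize_le m H).1 hm.1, hm.2⟩

theorem fin_box2 {r s : ℕ} (Bad : Set ((Fin r → ℤ) × (Fin s → ℤ))) (H : ℕ) : {m | isize2 m ≤ H ∧ m ∈ Bad}.Finite := by
  refine ((box_fin (r := r) Set.univ H).prod (box_fin (r := s) Set.univ H)).subset ?_
  rintro m ⟨h1, -⟩
  obtain ⟨h2, h3⟩ := (isize2_le m H).1 h1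
  exact ⟨⟨h2, trivial⟩, ⟨h3, trivial⟩⟩

/-- a version for a countable family of index types -/
theorem fin_pow_seq {J : Type} [Countable J] {A : J → Type} {Y : Type} [MetricSpace Y] [MeasurableSpace Y] [BorelSpace Y]
    (p : ∀ j, A j → Y) (Bad : ∀ j, Set (A j)) (S : ∀ j, A j → ℕ) (k e : J → ℕ) (hk : ∀ j, 1 ≤ k j) (τ : J → ℝ) (hτ : ∀ j, 0 < τ j)
    (h : ∀ j, ∃ C : ℕ, ∀ H : ℕ, 1 ≤ H → {m | S j m ≤ H ∧ m ∈ Bad j}.Finite ∧
      {m | S j m ≤ H ∧ m ∈ Bad j}.ncard ^ (k j) ≤ C * H ^ (e j)) (D : ℝ) (hD : ∀ j, (e j / k j : ℝ) / τ j ≤ D) :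
    ∃ Z : Set Y, dimH Z ≤ ENNReal.ofReal D ∧ ∀ z, z ∉ Z → ∀ (j : J) (b : ℝ),
      {m | m ∈ Bad j ∧ dist (p j m) z ≤ b * (max 1 (S j m : ℝ)) ^ (-(τ j))}.Finite := by
  choose C hC using h
  choose Z hZ hz using fun j => fin_pow (p j) (Bad j) (S j) (k j) (e j) (C j) (hk j) (hC j) (τ j) (hτ j)
  refine ⟨⋃ j, Z j, ?_, fun z hzZ j b => hz j z (fun h => hzZ (Set.mem_iUnion.2 ⟨j, h⟩)) b⟩
  rw [dimH_iUnion]
  exact iSup_le fun j => (hZ j).trans (ENNReal.ofReal_le_ofReal (hD j))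

end Pool.Agent.Q138.PS
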