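import Pool.Agent.Q138.PS.WY
import Pool.Agent.Q138.PS.WT

/-!
# Simultaneous approximation by tuples of integers
-/

set_option autoImplicit false

namespace Pool.Agent.Q138.PS

/-- the size of a pair of an integer and a tuple of integers -/
def isize1 {s : ℕ} (m : ℤ × (Fin s → ℤ)) : ℕ := max m.1.natAbs (isize m.2)

theorem isize1_le {s : ℕ} (m : ℤ × (Fin s → ℤ)) (H : ℕ) : isize1 m ≤ H ↔ |m.1| ≤ H ∧ ∀ i, |m.2 i| ≤ H := by
  unfold isize1
  rw [max_le_iff, isize_le]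
  refine and_congr_left fun _ => ?_
  rw [Int.abs_eq_natAbs]
  exact_mod_cast Iff.rfl

theorem fin_box1 {s : ℕ} (Bad : Set (ℤ × (Fin s → ℤ))) (H : ℕ) : {m | isize1 m ≤ H ∧ m ∈ Bad}.Finite := by
  refine ((Set.finite_Icc (-(H : ℤ)) H).prod (box_fin (r := s) Set.univ H)).subset ?_
  rintro m ⟨h1, -⟩
  obtain ⟨h2, h3⟩ := (isize1_le m H).1 h1
  exact ⟨abs_le.1 h2, ⟨h3, trivial⟩⟩

/-- the good approximations form an infinite set -/
theorem dirichlet_int {s : ℕ} (hs : 1 ≤ s) (z : Fin s → ℝ) :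
    {m : ℤ × (Fin s → ℤ) | 1 ≤ m.1 ∧ ∀ i, |(m.2 i : ℝ) / m.1 - z i| ≤ (m.1 : ℝ) ^ (-(1 + 1 / (s : ℝ)))}.Infinite := by
  intro hfin
  obtain ⟨M, hM⟩ := (hfin.image fun n => n.1).bddAbove
  obtain ⟨q, hq, a, ha⟩ := dirichlet_large hs z (M.toNat + 1) (by omega)
  have hq1 : (1 : ℝ) ≤ q := by exact_mod_cast (by omega : 1 ≤ q)
  have hq0 : (0 : ℝ) < q := by linarith
  have := hM ⟨((q : ℤ), a), ⟨by simp only; omega, fun i => by
    simp only [Int.cast_natCast]
    have h1 : (a i : ℝ) / q - z i = -(((q : ℝ) * z i - a i) / q) := by field_simp; ring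
    rw [h1, abs_neg, abs_div, abs_of_pos hq0, neg_add, Real.rpow_add hq0, Real.rpow_neg_one, div_eq_mul_inv,
      mul_comm (q : ℝ)⁻¹]
    exact mul_le_mul_of_nonneg_right (ha i) (inv_nonneg.2 hq0.le)⟩, rfl⟩
  simp only at this
  omega

/-- the ratios of the coordinates to the first one -/
noncomputable def iratios {s : ℕ} (m : ℤ × (Fin s → ℤ)) : Fin s → ℝ := fun i => (m.2 i : ℝ) / m.1

/-- a good approximation lies within a constant times a power of the size of the tuple -/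
theorem iratios_near {s : ℕ} (z : Fin s → ℝ) : ∃ b : ℝ, ∀ m : ℤ × (Fin s → ℤ), 1 ≤ m.1 →
    (∀ i, |(m.2 i : ℝ) / m.1 - z i| ≤ (m.1 : ℝ) ^ (-(1 + 1 / (s : ℝ)))) →
    dist (iratios m) z ≤ b * (max 1 (isize1 m : ℝ)) ^ (-(1 + 1 / (s : ℝ))) := by
  obtain ⟨W, hW0, hW⟩ : ∃ W : ℝ, 0 ≤ W ∧ ∀ i, |z i| ≤ W := ⟨∑ i, |z i|, Finset.sum_nonneg fun i _ => abs_nonneg _,
    fun i => Finset.single_le_sum (f := fun i => |z i|) (fun i _ => abs_nonneg _) (Finset.mem_univ i)⟩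
  set τ : ℝ := 1 + 1 / (s : ℝ) with hτ
  have hτ0 : 0 < τ := by positivity
  refine ⟨(W + 2) ^ τ, fun m hm h => ?_⟩
  have h0 : (1 : ℝ) ≤ m.1 := by exact_mod_cast hm
  have hq0 : (0 : ℝ) < m.1 := by linarith
  have hsm : (m.1 : ℝ) ^ (-τ) ≤ 1 := Real.rpow_le_one_of_one_le_of_nonpos h0 (by linarith)
  have hsize : max 1 (isize1 m : ℝ) ≤ (W + 2) * m.1 := by
    refine max_le (by nlinarith) ?_
    have h1 : isize1 m ≤ ⌊(W + 2) * (m.1 : ℝ)⌋₊ := by
      rw [isize1_le]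
      constructor
      · have h6 : ((m.1).natAbs : ℝ) ≤ (W + 2) * m.1 := by
          rw [Nat.cast_natAbs, Int.cast_abs, abs_of_pos hq0]
          nlinarith
        rw [Int.abs_eq_natAbs]
        exact_mod_cast Nat.le_floor h6
      · intro i
        have h2 := (h i).trans hsm
        have h4 : |(m.2 i : ℝ) / m.1| ≤ W + 1 := by
          have h5 : (m.2 i : ℝ) / m.1 = ((m.2 i : ℝ) / m.1 - z i) + z i := by ring
          rw [h5]
          exact (abs_add_le _ _).trans (by linarith [hW i])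
        rw [abs_div, abs_of_pos hq0, div_le_iff₀ hq0] at h4
        have h6 : ((m.2 i).natAbs : ℝ) ≤ (W + 2) * m.1 := by
          rw [Nat.cast_natAbs, Int.cast_abs]
          nlinarith
        rw [Int.abs_eq_natAbs]
        exact_mod_cast Nat.le_floor h6
    exact le_trans (by exact_mod_cast h1) (Nat.floor_le (by positivity))
  have hm1 : (0 : ℝ) < max 1 (isize1 m : ℝ) := lt_of_lt_of_le one_pos (le_max_left _ _)
  refine (dist_pi_le_iff (by positivity)).2 fun i => ?_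
  rw [Real.dist_eq]
  refine (h i).trans ?_
  rw [Real.rpow_neg hq0.le, Real.rpow_neg hm1.le, ← div_eq_mul_inv, le_div_iff₀ (Real.rpow_pos_of_pos hm1 _),
    inv_mul_le_iff₀ (Real.rpow_pos_of_pos hq0 _), mul_comm, ← Real.mul_rpow (by positivity) hq0.le]
  exact Real.rpow_le_rpow hm1.le hsize hτ0.le

end Pool.Agent.Q138.PS
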