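import Pool.Agent.Q138.PS.WO

/-!
# Exceptional elements in boxes of varying shape; several systems at once
-/

set_option autoImplicit false

namespace Pool.Agent.Q138.PS

/-- one exceptional set of points for countably many exceptional sets of power growth -/
theorem fin_seq {J A Y : Type} [Countable J] [MetricSpace Y] [MeasurableSpace Y] [BorelSpace Y] (p : A → Y) (E : J → Set A)
    (H : A → ℝ) (hH : ∀ s, 1 ≤ H s) (c : ℝ) (hc : 0 ≤ c) (h : ∀ j, ∃ C : ℝ, ∀ T, 1 ≤ T → {s | s ∈ E j ∧ H s ≤ T}.Finite ∧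
      (({s | s ∈ E j ∧ H s ≤ T}).ncard : ℝ) ≤ C * T ^ c) (θ : ℝ) (hθ : 0 < θ) :
    ∃ Z : Set Y, dimH Z ≤ ENNReal.ofReal (c / θ) ∧ ∀ z, z ∉ Z → ∀ (j : J) (D : ℝ),
      {s | s ∈ E j ∧ dist (p s) z ≤ D * (H s) ^ (-θ)}.Finite := by
  have key : ∀ j, ∃ Z : Set Y, dimH Z ≤ ENNReal.ofReal (c / θ) ∧ ∀ z, z ∉ Z → ∀ D : ℝ,
      {s | s ∈ E j ∧ dist (p s) z ≤ D * (H s) ^ (-θ)}.Finite := by
    intro j
    obtain ⟨C, hC⟩ := h j
    refine fin_lim p (E j) H hH c hc (fun ε hε => ⟨|C|, fun T hT => ⟨(hC T hT).1, (hC T hT).2.trans ?_⟩⟩) θ hθ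
    calc C * T ^ c ≤ |C| * T ^ c := mul_le_mul_of_nonneg_right (le_abs_self C) (Real.rpow_nonneg (by linarith) _)
      _ ≤ |C| * T ^ (c + ε) :=
        mul_le_mul_of_nonneg_left (Real.rpow_le_rpow_of_exponent_le hT (by linarith)) (abs_nonneg C)
  choose Z hZ hz using key
  refine ⟨⋃ j, Z j, ?_, fun z hzZ j D => hz j z (fun h => hzZ (Set.mem_iUnion.2 ⟨j, h⟩)) D⟩
  rw [dimH_iUnion]
  exact iSup_le hZ

/-- the fourth powers of the primes up to a bound -/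
theorem sum_fourth (T κ : ℝ) (hT : 1 ≤ T) (hκ : 0 ≤ κ) :
    ((∑ p ∈ (Finset.Icc 5 ⌊T ^ κ⌋₊).filter Nat.Prime, (p : ℝ) ^ 4)) ≤ T ^ (5 * κ) := by
  have hTκ : 1 ≤ T ^ κ := Real.one_le_rpow hT hκ
  have hfl : (⌊T ^ κ⌋₊ : ℝ) ≤ T ^ κ := Nat.floor_le (by linarith)
  calc (∑ p ∈ (Finset.Icc 5 ⌊T ^ κ⌋₊).filter Nat.Prime, (p : ℝ) ^ 4)
      ≤ ∑ _p ∈ (Finset.Icc 5 ⌊T ^ κ⌋₊).filter Nat.Prime, (T ^ κ) ^ 4 := by
        refine Finset.sum_le_sum fun p hp => ?_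
        have h1 : (p : ℝ) ≤ ⌊T ^ κ⌋₊ := by exact_mod_cast (Finset.mem_Icc.1 (Finset.mem_filter.1 hp).1).2
        exact pow_le_pow_left₀ (Nat.cast_nonneg _) (h1.trans hfl) 4
    _ = (((Finset.Icc 5 ⌊T ^ κ⌋₊).filter Nat.Prime).card : ℝ) * (T ^ κ) ^ 4 := by
        rw [Finset.sum_const, nsmul_eq_mul]
    _ ≤ T ^ κ * (T ^ κ) ^ 4 := by
        refine mul_le_mul_of_nonneg_right (le_trans ?_ hfl) (by positivity)
        have h1 := Finset.card_filter_le (Finset.Icc 5 ⌊T ^ κ⌋₊) Nat.Prime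
        rw [Nat.card_Icc] at h1
        exact_mod_cast (by omega : ((Finset.Icc 5 ⌊T ^ κ⌋₊).filter Nat.Prime).card ≤ ⌊T ^ κ⌋₊)
    _ = T ^ (5 * κ) := by
        have h0 : 0 ≤ T := by linarith
        rw [← pow_succ', ← Real.rpow_natCast, ← Real.rpow_mul h0]
        congr 1
        push_cast
        ring

end Pool.Agent.Q138.PS
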