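import Pool.Agent.Q138.PS.WO

/-!
Powers of real numbers: the integers close to `w(n) α ^ n` avoid sparse sets for all `α > 1` outside a small set.
-/

set_option autoImplicit false

namespace Pool.Agent.Q138.PS

open Filter Topology MeasureTheory Set

theorem root_close {δ : ℝ} (hδ : -1 < δ) {n : ℕ} (hn : 1 ≤ n) : |(1 + δ) ^ (1 / (n : ℝ)) - 1| ≤ |δ| := by
  have hn0 : (0 : ℝ) < n := by exact_mod_cast hn
  have hn1 : (1 : ℝ) ≤ n := by exact_mod_cast hn
  have he : 0 < 1 / (n : ℝ) := by positivity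
  have he1 : 1 / (n : ℝ) ≤ 1 := by rw [div_le_one hn0]; exact hn1
  rcases le_total 0 δ with h | h
  · have h1 : 1 ≤ (1 + δ) ^ (1 / (n : ℝ)) := Real.one_le_rpow (by linarith) he.le
    have h2 : (1 + δ) ^ (1 / (n : ℝ)) ≤ (1 + δ) ^ (1 : ℝ) := Real.rpow_le_rpow_of_exponent_le (by linarith) he1
    rw [Real.rpow_one] at h2
    rw [abs_of_nonneg (by linarith), abs_of_nonneg h]
    linarith
  · have h1 : (1 + δ) ^ (1 / (n : ℝ)) ≤ 1 := Real.rpow_le_one (by linarith) (by linarith) he.le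
    have h2 : (1 + δ) ^ (1 : ℝ) ≤ (1 + δ) ^ (1 / (n : ℝ)) :=
      Real.rpow_le_rpow_of_exponent_ge (by linarith) (by linarith) he1
    rw [Real.rpow_one] at h2
    rw [abs_of_nonpos (by linarith), abs_of_nonpos h]
    linarith

/-- the pairs of an element `m` of `B` and an exponent `n` with `a ^ n ≤ m` -/
def PowPairs (B : Set ℕ) (a : ℝ) : Set (ℕ × ℕ) := {s | s.1 ∈ B ∧ a ^ s.2 ≤ (s.1 : ℝ)}

theorem powPairs_count (B : Set ℕ) (a : ℝ) (ha : 1 < a) (c : ℝ) (hc : 0 ≤ c)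
    (h : ∀ ε : ℝ, 0 < ε → ∃ C : ℝ, ∀ T : ℝ, 1 ≤ T → (({m | m ∈ B ∧ (m : ℝ) ≤ T}).ncard : ℝ) ≤ C * T ^ (c + ε))
    (ε : ℝ) (hε : 0 < ε) : ∃ C : ℝ, ∀ T : ℝ, 1 ≤ T → {s | s ∈ PowPairs B a ∧ max 1 (s.1 : ℝ) ≤ T}.Finite ∧
      (({s | s ∈ PowPairs B a ∧ max 1 (s.1 : ℝ) ≤ T}).ncard : ℝ) ≤ C * T ^ (c + ε) := by
  obtain ⟨C, hC⟩ := h (ε / 2) (by positivity)
  have hla : 0 < Real.log a := Real.log_pos ha
  have hC0 : 0 ≤ |C| := abs_nonneg C
  refine ⟨|C| * (2 / ε / Real.log a + 1), fun T hT => ?_⟩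
  have hT0 : 0 < T := by linarith
  set M : Set ℕ := {m | m ∈ B ∧ (m : ℝ) ≤ T} with hM
  set K : ℕ := ⌊Real.log T / Real.log a⌋₊ with hK
  have hMfin : M.Finite := (Set.finite_Iic ⌊T⌋₊).subset fun m hm => Nat.le_floor hm.2
  have hlT : 0 ≤ Real.log T := Real.log_nonneg hT
  have hsub : {s | s ∈ PowPairs B a ∧ max 1 (s.1 : ℝ) ≤ T} ⊆ M ×ˢ (Finset.range (K + 1) : Set ℕ) := by
    rintro ⟨m, n⟩ ⟨⟨h1, h2⟩, h3⟩
    have h4 : (m : ℝ) ≤ T := (le_max_right _ _).trans h3
    refine ⟨⟨h1, h4⟩, ?_⟩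
    have h5 : a ^ n ≤ T := h2.trans h4
    have h6 : (n : ℝ) * Real.log a ≤ Real.log T := by
      rw [← Real.log_pow]
      exact Real.log_le_log (by positivity) h5
    have h7 : (n : ℝ) ≤ Real.log T / Real.log a := by rwa [le_div_iff₀ hla]
    have h8 : n ≤ K := Nat.le_floor h7
    simp only [Finset.coe_range, Set.mem_Iio]
    omega
  have hfin : (M ×ˢ (Finset.range (K + 1) : Set ℕ)).Finite := hMfin.prod (Finset.finite_toSet _)
  refine ⟨hfin.subset hsub, ?_⟩
  have h1 : (({s | s ∈ PowPairs B a ∧ max 1 (s.1 : ℝ) ≤ T}).ncard : ℝ) ≤ (M.ncard : ℝ) * (K + 1) := by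
    have h2 := Set.ncard_le_ncard hsub hfin
    rw [Set.ncard_prod, Set.ncard_coe_finset, Finset.card_range] at h2
    exact_mod_cast h2
  have h2 : (K : ℝ) ≤ Real.log T / Real.log a := Nat.floor_le (by positivity)
  have h3 : Real.log T ≤ T ^ (ε / 2) / (ε / 2) := Real.log_le_rpow_div hT0.le (by positivity)
  have h4 : 1 ≤ T ^ (ε / 2) := Real.one_le_rpow hT (by positivity)
  have h5 : (K : ℝ) + 1 ≤ (2 / ε / Real.log a + 1) * T ^ (ε / 2) := by
    have h6 : Real.log T / Real.log a ≤ T ^ (ε / 2) / (ε / 2) / Real.log a := by gcongr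
    have h7 : T ^ (ε / 2) / (ε / 2) / Real.log a = 2 / ε / Real.log a * T ^ (ε / 2) := by
      field_simp
    rw [h7] at h6
    nlinarith
  have h6 : (M.ncard : ℝ) ≤ |C| * T ^ (c + ε / 2) := (hC T hT).trans
    (mul_le_mul_of_nonneg_right (le_abs_self C) (by positivity))
  refine h1.trans ((mul_le_mul h6 h5 (by positivity) (by positivity)).trans (le_of_eq ?_))
  have h7 : T ^ (c + ε) = T ^ (c + ε / 2) * T ^ (ε / 2) := by
    rw [← Real.rpow_add hT0]
    congr 1
    ring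
  rw [h7]
  ring

/-- **Powers of real numbers.** Countably many sets of natural numbers with at most `C T ^ (c + ε)` elements up to `T` and
countably many positive sequences `w` with `w(n) ^ (1 / n) → 1`: outside a set of real `α` of dimension at most
`c / (1 - l)` all the integers within `D (w(n) α ^ n) ^ l` of `w(n) α ^ n` are outside these sets for all large `n`. -/
theorem pow_windows {ι κ : Type} [Countable ι] [Countable κ] (B : ι → Set ℕ) (c l : ℝ) (hc : 0 ≤ c) (hl : l < 1)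
    (h : ∀ i, ∀ ε : ℝ, 0 < ε → ∃ C : ℝ, ∀ T : ℝ, 1 ≤ T → (({m | m ∈ B i ∧ (m : ℝ) ≤ T}).ncard : ℝ) ≤ C * T ^ (c + ε))
    (w : κ → ℕ → ℝ) (hw : ∀ j n, 0 < w j n) (hw1 : ∀ j, Tendsto (fun n : ℕ => (w j n) ^ (1 / (n : ℝ))) atTop (𝓝 1)) :
    ∃ E : Set ℝ, dimH E ≤ ENNReal.ofReal (c / (1 - l)) ∧ ∀ α : ℝ, 1 < α → α ∉ E → ∀ (i : ι) (j : κ) (D : ℝ),
      ∀ᶠ n : ℕ in atTop, ∀ m : ℕ, |(m : ℝ) - w j n * α ^ n| ≤ D * (w j n * α ^ n) ^ l → m ∉ B i := by
  have h1 : ∀ q : ι × κ × ℕ, ∃ Z : Set ℝ, dimH Z ≤ ENNReal.ofReal (c / (1 - l)) ∧ ∀ z, z ∉ Z → ∀ D : ℝ,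
      {s : ℕ × ℕ | s ∈ PowPairs (B q.1) (1 + 1 / ((q.2.2 : ℝ) + 1)) ∧
        dist (((s.1 : ℝ) / w q.2.1 s.2) ^ (1 / (s.2 : ℝ))) z ≤ D * (max 1 (s.1 : ℝ)) ^ (-(1 - l))}.Finite := by
    intro q
    exact fin_lim (fun s : ℕ × ℕ => ((s.1 : ℝ) / w q.2.1 s.2) ^ (1 / (s.2 : ℝ)))
      (PowPairs (B q.1) (1 + 1 / ((q.2.2 : ℝ) + 1))) (fun s => max 1 (s.1 : ℝ)) (fun s => le_max_left _ _) c hc
      (powPairs_count (B q.1) _ (by
        have : (0 : ℝ) < 1 / ((q.2.2 : ℝ) + 1) := by positivity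
        linarith) c hc (h q.1)) (1 - l) (by linarith)
  choose Z hZ hz using h1
  refine ⟨⋃ q, Z q, ?_, ?_⟩
  · rw [dimH_iUnion]
    exact iSup_le fun q => hZ q
  · intro α hα hαE i j D
    simp only [Set.mem_iUnion, not_exists] at hαE
    obtain ⟨k, hk⟩ := exists_nat_one_div_lt (show 0 < α - 1 by linarith)
    set a : ℝ := 1 + 1 / ((k : ℝ) + 1) with ha
    have ha1 : 1 < a := by
      have : (0 : ℝ) < 1 / ((k : ℝ) + 1) := by positivity
      rw [ha]
      linarith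
    have haα : a < α := by rw [ha]; linarith
    have hα0 : 0 < α := by linarith
    obtain ⟨b, hb1, hb2⟩ := exists_between haα
    have hfin := hz (i, j, k) α (hαE (i, j, k)) (|D| * α * (3 / 2) ^ (1 - l))
    -- the values tend to infinity
    have hlow : ∀ᶠ n : ℕ in atTop, 2 * a ^ n ≤ w j n * α ^ n := by
      have h2 : ∀ᶠ n : ℕ in atTop, b / α < (w j n) ^ (1 / (n : ℝ)) :=
        (hw1 j).eventually_const_lt (by rw [div_lt_one hα0]; exact hb2)
      have h3 : Tendsto (fun n : ℕ => (b / a) ^ n) atTop atTop := tendsto_pow_atTop_atTop_of_one_lt (by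
        rw [one_lt_div (by linarith)]
        exact hb1)
      filter_upwards [h2, h3.eventually_ge_atTop 2, eventually_ge_atTop 1] with n h4 h5 h6
      have hn0 : (n : ℝ) ≠ 0 := by
        have : 0 < n := h6
        positivity
      have h7 : (b / α) ^ n ≤ w j n := by
        have h8 : (b / α) ^ n ≤ ((w j n) ^ (1 / (n : ℝ))) ^ n :=
          pow_le_pow_left₀ (by have : 0 < b := by linarith
                               positivity) h4.le n
        rwa [← Real.rpow_natCast ((w j n) ^ (1 / (n : ℝ))), ← Real.rpow_mul (hw j n).le, one_div_mul_cancel hn0,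
          Real.rpow_one] at h8
      have h8 : (b / α) ^ n * α ^ n = b ^ n := by
        rw [← mul_pow, div_mul_cancel₀ b hα0.ne']
      have h9 : b ^ n = (b / a) ^ n * a ^ n := by
        rw [← mul_pow, div_mul_cancel₀ b (by linarith : a ≠ 0)]
      calc 2 * a ^ n ≤ (b / a) ^ n * a ^ n := mul_le_mul_of_nonneg_right h5 (by positivity)
        _ = b ^ n := h9.symm
        _ = (b / α) ^ n * α ^ n := h8.symm
        _ ≤ w j n * α ^ n := mul_le_mul_of_nonneg_right h7 (by positivity)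
    have htend : Tendsto (fun n : ℕ => w j n * α ^ n) atTop atTop := by
      refine tendsto_atTop_mono' _ hlow ?_
      exact (tendsto_pow_atTop_atTop_of_one_lt ha1).const_mul_atTop (by norm_num)
    have hhalf : ∀ᶠ n : ℕ in atTop, |D| * (w j n * α ^ n) ^ l ≤ (w j n * α ^ n) / 2 := by
      have h2 : Tendsto (fun y : ℝ => y ^ (-(1 - l))) atTop (𝓝 0) := tendsto_rpow_neg_atTop (by linarith)
      have h3 : Tendsto (fun y : ℝ => |D| * y ^ (-(1 - l))) atTop (𝓝 (|D| * 0)) := h2.const_mul _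
      rw [mul_zero] at h3
      have h4 : ∀ᶠ y : ℝ in atTop, |D| * y ^ (-(1 - l)) < 1 / 2 := h3.eventually_lt_const (by norm_num)
      filter_upwards [htend.eventually h4, htend.eventually_gt_atTop 0] with n h5 h6
      have h7 : (w j n * α ^ n) ^ l = (w j n * α ^ n) ^ (-(1 - l)) * (w j n * α ^ n) := by
        rw [← Real.rpow_add_one h6.ne']
        congr 1
        ring
      rw [h7, ← mul_assoc]
      have := mul_le_mul_of_nonneg_right h5.le h6.le
      linarith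
    have hbdd : ∀ᶠ n : ℕ in atTop, ∀ s ∈ hfin.toFinset, s.2 < n := by
      refine (eventually_gt_atTop (hfin.toFinset.sup Prod.snd)).mono fun n hn s hs => ?_
      exact lt_of_le_of_lt (Finset.le_sup (f := Prod.snd) hs) hn
    filter_upwards [hlow, hhalf, hbdd, htend.eventually_ge_atTop 2, eventually_ge_atTop 1] with n h2 h3 h4 h5 h6 m hm hmB
    set y : ℝ := w j n * α ^ n with hy
    have hy0 : 0 < y := by linarith
    have hm1 : |(m : ℝ) - y| ≤ |D| * y ^ l := hm.trans (mul_le_mul_of_nonneg_right (le_abs_self D) (by positivity))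
    have hm2 := abs_le.1 (hm1.trans h3)
    have hmlow : y / 2 ≤ m := by linarith [hm2.1]
    have hmup : (m : ℝ) ≤ 3 / 2 * y := by linarith [hm2.2]
    have hm0 : (1 : ℝ) ≤ m := by linarith
    have hmem : ((m, n) : ℕ × ℕ) ∈ hfin.toFinset := by
      rw [Set.Finite.mem_toFinset]
      refine ⟨⟨hmB, ?_⟩, ?_⟩
      · show a ^ n ≤ (m : ℝ)
        linarith
      · show dist (((m : ℝ) / w j n) ^ (1 / (n : ℝ))) α ≤ _
        have hδ : -1 < (m : ℝ) / y - 1 := by
          have : 0 < (m : ℝ) / y := by positivity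
          linarith
        have e1 : (m : ℝ) / w j n = α ^ n * (1 + ((m : ℝ) / y - 1)) := by
          rw [add_sub_cancel, hy]
          have := (hw j n).ne'
          field_simp
        have e2 : ((m : ℝ) / w j n) ^ (1 / (n : ℝ)) = α * (1 + ((m : ℝ) / y - 1)) ^ (1 / (n : ℝ)) := by
          rw [e1, Real.mul_rpow (by positivity) (by linarith), ← Real.rpow_natCast α n, ← Real.rpow_mul hα0.le,
            mul_one_div_cancel (by positivity), Real.rpow_one]
        rw [e2, Real.dist_eq, max_eq_right hm0]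
        have e3 : α * (1 + ((m : ℝ) / y - 1)) ^ (1 / (n : ℝ)) - α = α * ((1 + ((m : ℝ) / y - 1)) ^ (1 / (n : ℝ)) - 1) := by
          ring
        rw [e3, abs_mul, abs_of_pos hα0]
        have e4 : |(m : ℝ) / y - 1| ≤ |D| * y ^ (-(1 - l)) := by
          have e5 : (m : ℝ) / y - 1 = ((m : ℝ) - y) / y := by field_simp
          rw [e5, abs_div, abs_of_pos hy0, div_le_iff₀ hy0, mul_assoc, ← Real.rpow_add_one hy0.ne']
          have e6 : -(1 - l) + 1 = l := by ring
          rw [e6]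
          exact hm1
        have e5 : y ^ (-(1 - l)) ≤ (3 / 2) ^ (1 - l) * (m : ℝ) ^ (-(1 - l)) := by
          have e6 : (2 / 3 * (m : ℝ)) ≤ y := by linarith
          have e7 : y ^ (-(1 - l)) ≤ (2 / 3 * (m : ℝ)) ^ (-(1 - l)) :=
            Real.rpow_le_rpow_of_nonpos (by positivity) e6 (by linarith)
          refine e7.trans (le_of_eq ?_)
          rw [Real.mul_rpow (by norm_num) (by positivity)]
          congr 1
          rw [show (2 / 3 : ℝ) = (3 / 2)⁻¹ by norm_num, Real.inv_rpow (by norm_num), Real.rpow_neg (by norm_num), inv_inv]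
        calc α * |(1 + ((m : ℝ) / y - 1)) ^ (1 / (n : ℝ)) - 1| ≤ α * |(m : ℝ) / y - 1| :=
              mul_le_mul_of_nonneg_left (root_close hδ h6) hα0.le
          _ ≤ α * (|D| * ((3 / 2) ^ (1 - l) * (m : ℝ) ^ (-(1 - l)))) := by
              refine mul_le_mul_of_nonneg_left (e4.trans ?_) hα0.le
              exact mul_le_mul_of_nonneg_left e5 (abs_nonneg D)
          _ = |D| * α * (3 / 2) ^ (1 - l) * (m : ℝ) ^ (-(1 - l)) := by ring
    exact absurd (h4 _ hmem) (lt_irrefl _)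

end Pool.Agent.Q138.PS
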