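import Pool.Agent.Q138.PS.XB

/-!
The integers close to `c n ^ j α ^ n`, for all positive algebraic numbers `c` and all integers `j` at once.
-/

set_option autoImplicit false

namespace Pool.Agent.Q138.PS

open Filter Topology MeasureTheory Set

/-- `m` is within `D (c n ^ j α ^ n) ^ l` of `c n ^ j α ^ n` -/
def NearPow (α c : ℝ) (j : ℤ) (D l : ℝ) (n m : ℕ) : Prop :=
  |(m : ℝ) - c * (n : ℝ) ^ j * α ^ n| ≤ D * (c * (n : ℝ) ^ j * α ^ n) ^ l

theorem root_tendsto (c : ℝ) (hc : 0 < c) (j : ℤ) :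
    Tendsto (fun n : ℕ => (c * ((max n 1 : ℕ) : ℝ) ^ j) ^ (1 / (n : ℝ))) atTop (𝓝 1) := by
  have h1 : Tendsto (fun n : ℕ => Real.log n / n) atTop (𝓝 0) :=
    (Real.isLittleO_log_id_atTop.tendsto_div_nhds_zero).comp tendsto_natCast_atTop_atTop
  have h2 : Tendsto (fun n : ℕ => Real.log c * (1 / (n : ℝ)) + j * (Real.log n / n)) atTop (𝓝 (Real.log c * 0 + j * 0)) :=
    (tendsto_one_div_atTop_nhds_zero_nat.const_mul _).add (h1.const_mul _)
  have h3 := (Real.continuous_exp.tendsto _).comp h2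
  simp only [mul_zero, add_zero, Real.exp_zero] at h3
  refine h3.congr' ?_
  filter_upwards [eventually_ge_atTop 1] with n hn
  have hn0 : (0 : ℝ) < n := by exact_mod_cast hn
  rw [max_eq_left hn, Real.rpow_def_of_pos (by positivity), Real.log_mul hc.ne' (by positivity), Real.log_zpow]
  simp only [Function.comp_apply]
  congr 1
  field_simp

/-- **Powers of real numbers, all algebraic factors at once.** -/
theorem pow_alg {ι : Type} [Countable ι] (B : ι → Set ℕ) (e l : ℝ) (he : 0 ≤ e) (hl : l < 1)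
    (h : ∀ i, ∀ ε : ℝ, 0 < ε → ∃ C : ℝ, ∀ T : ℝ, 1 ≤ T → (({m | m ∈ B i ∧ (m : ℝ) ≤ T}).ncard : ℝ) ≤ C * T ^ (e + ε)) :
    ∃ E : Set ℝ, dimH E ≤ ENNReal.ofReal (e / (1 - l)) ∧ ∀ α : ℝ, 1 < α → α ∉ E → ∀ (i : ι) (c : ℝ), 0 < c →
      IsAlgebraic ℚ c → ∀ (j : ℤ) (D : ℝ), ∀ᶠ n : ℕ in atTop, ∀ m : ℕ, NearPow α c j D l n m → m ∉ B i := by
  have : Countable {c : ℝ // 0 < c ∧ IsAlgebraic ℚ c} :=
    ((Algebraic.countable ℚ ℝ).mono fun c (hc : 0 < c ∧ IsAlgebraic ℚ c) => hc.2).to_subtype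
  obtain ⟨E, hE, hg⟩ := pow_windows (κ := {c : ℝ // 0 < c ∧ IsAlgebraic ℚ c} × ℤ) B e l he hl h
    (fun q n => q.1.1 * ((max n 1 : ℕ) : ℝ) ^ q.2) (fun q n => by
      have h1 := q.1.2.1
      have h2 : (0 : ℝ) < ((max n 1 : ℕ) : ℝ) := by
        have : 0 < max n 1 := lt_max_of_lt_right one_pos
        exact_mod_cast this
      positivity) (fun q => root_tendsto q.1.1 q.1.2.1 q.2)
  refine ⟨E, hE, fun α hα hαE i c hc hca j D => ?_⟩
  filter_upwards [hg α hα hαE i (⟨c, hc, hca⟩, j) D, eventually_ge_atTop 1] with n h1 h2 m hm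
  refine h1 m ?_
  unfold NearPow at hm
  simp only [max_eq_left h2]
  exact hm

/-- one set of natural numbers -/
theorem pow_alg_one (B : Set ℕ) (e l : ℝ) (he : 0 ≤ e) (hl : l < 1)
    (h : ∀ ε : ℝ, 0 < ε → ∃ C : ℝ, ∀ T : ℝ, 1 ≤ T → (({m | m ∈ B ∧ (m : ℝ) ≤ T}).ncard : ℝ) ≤ C * T ^ (e + ε)) :
    ∃ E : Set ℝ, dimH E ≤ ENNReal.ofReal (e / (1 - l)) ∧ ∀ α : ℝ, 1 < α → α ∉ E → ∀ c : ℝ, 0 < c →
      IsAlgebraic ℚ c → ∀ (j : ℤ) (D : ℝ), ∀ᶠ n : ℕ in atTop, ∀ m : ℕ, NearPow α c j D l n m → m ∉ B := by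
  obtain ⟨E, hE, hg⟩ := pow_alg (fun _ : Unit => B) e l he hl (fun _ => h)
  exact ⟨E, hE, fun α hα hαE c hc hca j D => hg α hα hαE () c hc hca j D⟩

/-- all the exponents `l < 1` at once for sets with at most `C T ^ ε` elements up to `T`, and one set of dimension zero -/
theorem pow_zero {ι : Type} [Countable ι] (B : ι → Set ℕ)
    (h : ∀ i, ∀ ε : ℝ, 0 < ε → ∃ C : ℝ, ∀ T : ℝ, 1 ≤ T → (({m | m ∈ B i ∧ (m : ℝ) ≤ T}).ncard : ℝ) ≤ C * T ^ ε) :
    ∃ E : Set ℝ, dimH E = 0 ∧ ∀ α : ℝ, 1 < α → α ∉ E → ∀ (i : ι) (c : ℝ), 0 < c →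
      IsAlgebraic ℚ c → ∀ (j : ℤ) (D l : ℝ), l < 1 → ∀ᶠ n : ℕ in atTop, ∀ m : ℕ, NearPow α c j D l n m → m ∉ B i := by
  have h1 : ∀ k : ℕ, ∃ E : Set ℝ, dimH E ≤ ENNReal.ofReal (0 / (1 - (1 - 1 / ((k : ℝ) + 1)))) ∧ ∀ α : ℝ, 1 < α → α ∉ E →
      ∀ (i : ι) (c : ℝ), 0 < c → IsAlgebraic ℚ c → ∀ (j : ℤ) (D : ℝ), ∀ᶠ n : ℕ in atTop, ∀ m : ℕ,
        NearPow α c j D (1 - 1 / ((k : ℝ) + 1)) n m → m ∉ B i := by
    intro k
    refine pow_alg B 0 _ le_rfl ?_ fun i ε hε => ?_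
    · have : (0 : ℝ) < 1 / ((k : ℝ) + 1) := by positivity
      linarith
    · simpa using h i ε hε
  choose E hE hg using h1
  refine ⟨⋃ k, E k, ?_, ?_⟩
  · rw [dimH_iUnion]
    refine le_antisymm (iSup_le fun k => ?_) bot_le
    have := hE k
    simpa using this
  · intro α hα hαE i c hc hca j D l hl
    simp only [Set.mem_iUnion, not_exists] at hαE
    obtain ⟨k, hk⟩ := exists_nat_one_div_lt (show 0 < 1 - l by linarith)
    have hlim : Tendsto (fun n : ℕ => c * ((max n 1 : ℕ) : ℝ) ^ j * α ^ n) atTop atTop := by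
      have hα0 : 0 < α := by linarith
      obtain ⟨b, hb1, hb2⟩ := exists_between hα
      have h2 : ∀ᶠ n : ℕ in atTop, b / α < (c * ((max n 1 : ℕ) : ℝ) ^ j) ^ (1 / (n : ℝ)) :=
        (root_tendsto c hc j).eventually_const_lt (by rw [div_lt_one hα0]; exact hb2)
      refine tendsto_atTop_mono' _ ?_ (tendsto_pow_atTop_atTop_of_one_lt hb1)
      filter_upwards [h2, eventually_ge_atTop 1] with n h4 h6
      have hn0 : (n : ℝ) ≠ 0 := by
        have : 0 < n := h6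
        positivity
      have hw : 0 < c * ((max n 1 : ℕ) : ℝ) ^ j := by
        have : (0 : ℝ) < ((max n 1 : ℕ) : ℝ) := by
          have : 0 < max n 1 := lt_max_of_lt_right one_pos
          exact_mod_cast this
        positivity
      have h7 : (b / α) ^ n ≤ c * ((max n 1 : ℕ) : ℝ) ^ j := by
        have h8 : (b / α) ^ n ≤ ((c * ((max n 1 : ℕ) : ℝ) ^ j) ^ (1 / (n : ℝ))) ^ n :=
          pow_le_pow_left₀ (by have : 0 < b := by linarith
                               positivity) h4.le n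
        rwa [← Real.rpow_natCast ((c * ((max n 1 : ℕ) : ℝ) ^ j) ^ (1 / (n : ℝ))), ← Real.rpow_mul hw.le,
          one_div_mul_cancel hn0, Real.rpow_one] at h8
      calc b ^ n = (b / α) ^ n * α ^ n := by rw [← mul_pow, div_mul_cancel₀ b hα0.ne']
        _ ≤ c * ((max n 1 : ℕ) : ℝ) ^ j * α ^ n := mul_le_mul_of_nonneg_right h7 (by positivity)
    filter_upwards [hg k α hα (hαE k) i c hc hca j (|D|), hlim.eventually_ge_atTop 1, eventually_ge_atTop 1]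
      with n h1 h2 h3 m hm
    refine h1 m ?_
    simp only [max_eq_left h3] at h2
    unfold NearPow at hm ⊢
    refine hm.trans ?_
    have h4 : (c * (n : ℝ) ^ j * α ^ n) ^ l ≤ (c * (n : ℝ) ^ j * α ^ n) ^ (1 - 1 / ((k : ℝ) + 1)) :=
      Real.rpow_le_rpow_of_exponent_le h2 (by linarith)
    exact mul_le_mul (le_abs_self D) h4 (by positivity) (abs_nonneg D)

end Pool.Agent.Q138.PS
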