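import Pool.Agent.Q138.PS.XC

/-!
Counting natural numbers from counts in the windows `T / 2 ≤ m ≤ T`.
-/

set_option autoImplicit false

namespace Pool.Agent.Q138.PS

open Filter Topology MeasureTheory Set

theorem fin_le (B : Set ℕ) (T : ℕ) : {m | m ∈ B ∧ m ≤ T}.Finite :=
  (Set.finite_Iic T).subset fun _ hm => hm.2

theorem fin_le_real (B : Set ℕ) (T : ℝ) : {m : ℕ | m ∈ B ∧ (m : ℝ) ≤ T}.Finite :=
  (Set.finite_Iic ⌊T⌋₊).subset fun _ hm => Nat.le_floor hm.2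

/-- from counts in dyadic windows to counts up to `T` -/
theorem count_halves (B : Set ℕ) (e C : ℝ) (he : 0 < e)
    (h : ∀ T : ℕ, 1 ≤ T → (({m | m ∈ B ∧ m ≤ T ∧ T ≤ 2 * m}).ncard : ℝ) ≤ C * (T : ℝ) ^ e) :
    ∃ C' : ℝ, ∀ T : ℝ, 1 ≤ T → (({m | m ∈ B ∧ (m : ℝ) ≤ T}).ncard : ℝ) ≤ C' * T ^ e := by
  have hC : 0 ≤ C := by
    have := h 1 le_rfl
    simp only [Nat.cast_one, Real.one_rpow, mul_one] at this
    exact le_trans (Nat.cast_nonneg _) this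
  have h2e : (2 : ℝ) ^ (-e) < 1 := Real.rpow_lt_one_of_one_lt_of_neg (by norm_num) (by linarith)
  obtain ⟨C', hC'⟩ : ∃ C' : ℝ, C' = C / (1 - 2 ^ (-e)) := ⟨_, rfl⟩
  have hC'0 : 0 ≤ C' := by rw [hC']; exact div_nonneg hC (by linarith)
  have hCC : C' * 2 ^ (-e) + C = C' := by
    have h3 : (1 : ℝ) - 2 ^ (-e) ≠ 0 := by linarith
    have h4 : C' * (1 - 2 ^ (-e)) = C := by rw [hC']; field_simp
    linarith
  have hmain : ∀ T : ℕ, (({m | m ∈ B ∧ m ≤ T}).ncard : ℝ) ≤ 1 + C' * (T : ℝ) ^ e := by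
    intro T
    induction T using Nat.strong_induction_on with
    | _ T ih =>
      rcases Nat.eq_zero_or_pos T with h0 | h0
      · subst h0
        have h1 : {m | m ∈ B ∧ m ≤ 0} ⊆ {0} := by
          rintro m ⟨-, hm⟩
          simpa using hm
        have h2 := Set.ncard_le_ncard h1 (Set.finite_singleton 0)
        rw [Set.ncard_singleton] at h2
        have h3 : (({m | m ∈ B ∧ m ≤ 0}).ncard : ℝ) ≤ 1 := by exact_mod_cast h2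
        have h4 : 0 ≤ C' * ((0 : ℕ) : ℝ) ^ e := mul_nonneg hC'0 (Real.rpow_nonneg (by norm_num) _)
        linarith
      · have h1 := ih (T / 2) (Nat.div_lt_self h0 (by norm_num))
        have h2 : {m | m ∈ B ∧ m ≤ T} ⊆ {m | m ∈ B ∧ m ≤ T / 2} ∪ {m | m ∈ B ∧ m ≤ T ∧ T ≤ 2 * m} := by
          rintro m ⟨h3, h4⟩
          by_cases h5 : m ≤ T / 2
          · exact Or.inl ⟨h3, h5⟩
          · exact Or.inr ⟨h3, h4, by omega⟩
        have h3 : ({m | m ∈ B ∧ m ≤ T / 2} ∪ {m | m ∈ B ∧ m ≤ T ∧ T ≤ 2 * m}).Finite :=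
          (fin_le B _).union ((fin_le B T).subset fun m hm => ⟨hm.1, hm.2.1⟩)
        have h4 : (({m | m ∈ B ∧ m ≤ T}).ncard : ℝ) ≤ (({m | m ∈ B ∧ m ≤ T / 2}).ncard : ℝ) +
            (({m | m ∈ B ∧ m ≤ T ∧ T ≤ 2 * m}).ncard : ℝ) := by
          exact_mod_cast (Set.ncard_le_ncard h2 h3).trans (Set.ncard_union_le _ _)
        have h5 : (((T / 2 : ℕ) : ℝ)) ^ e ≤ 2 ^ (-e) * (T : ℝ) ^ e := by
          have h6 : ((T / 2 : ℕ) : ℝ) ≤ (T : ℝ) / 2 := Nat.cast_div_le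
          have h7 : (((T / 2 : ℕ) : ℝ)) ^ e ≤ ((T : ℝ) / 2) ^ e := Real.rpow_le_rpow (by positivity) h6 he.le
          refine h7.trans (le_of_eq ?_)
          rw [div_eq_mul_inv, mul_comm, Real.mul_rpow (by norm_num) (by positivity), Real.inv_rpow (by norm_num),
            Real.rpow_neg (by norm_num)]
        have h6 := h T h0
        have h7 : C' * (((T / 2 : ℕ) : ℝ)) ^ e ≤ C' * (2 ^ (-e) * (T : ℝ) ^ e) := mul_le_mul_of_nonneg_left h5 hC'0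
        have h8 : C' * (2 ^ (-e) * (T : ℝ) ^ e) + C * (T : ℝ) ^ e = C' * (T : ℝ) ^ e := by
          rw [← mul_assoc, ← add_mul, hCC]
        linarith
  refine ⟨1 + C', fun T hT => ?_⟩
  have h1 : {m : ℕ | m ∈ B ∧ (m : ℝ) ≤ T} ⊆ {m | m ∈ B ∧ m ≤ ⌊T⌋₊} := fun m hm => ⟨hm.1, Nat.le_floor hm.2⟩
  have h2 : (({m : ℕ | m ∈ B ∧ (m : ℝ) ≤ T}).ncard : ℝ) ≤ (({m | m ∈ B ∧ m ≤ ⌊T⌋₊}).ncard : ℝ) := by
    exact_mod_cast Set.ncard_le_ncard h1 (fin_le B _)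
  refine h2.trans ((hmain _).trans ?_)
  have h3 : ((⌊T⌋₊ : ℕ) : ℝ) ^ e ≤ T ^ e := Real.rpow_le_rpow (by positivity) (Nat.floor_le (by linarith)) he.le
  have h4 : 1 ≤ T ^ e := Real.one_le_rpow hT he.le
  nlinarith

/-- the same with an `ε` in the exponent -/
theorem count_halves_eps (B : Set ℕ) (e : ℝ) (he : 0 ≤ e)
    (h : ∀ ε : ℝ, 0 < ε → ∃ C : ℝ, ∀ T : ℕ, 1 ≤ T → (({m | m ∈ B ∧ m ≤ T ∧ T ≤ 2 * m}).ncard : ℝ) ≤ C * (T : ℝ) ^ (e + ε)) :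
    ∀ ε : ℝ, 0 < ε → ∃ C : ℝ, ∀ T : ℝ, 1 ≤ T → (({m | m ∈ B ∧ (m : ℝ) ≤ T}).ncard : ℝ) ≤ C * T ^ (e + ε) := by
  intro ε hε
  obtain ⟨C, hC⟩ := h ε hε
  exact count_halves B (e + ε) C (by linarith) hC

/-- counts for large `T` suffice -/
theorem count_halves_large (B : Set ℕ) (e : ℝ) (he : 0 ≤ e)
    (h : ∀ ε : ℝ, 0 < ε → ∃ C : ℝ, ∀ᶠ T : ℕ in atTop, (({m | m ∈ B ∧ m ≤ T ∧ T ≤ 2 * m}).ncard : ℝ) ≤ C * (T : ℝ) ^ (e + ε)) :
    ∀ ε : ℝ, 0 < ε → ∃ C : ℝ, ∀ T : ℝ, 1 ≤ T → (({m | m ∈ B ∧ (m : ℝ) ≤ T}).ncard : ℝ) ≤ C * T ^ (e + ε) := by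
  refine count_halves_eps B e he fun ε hε => ?_
  obtain ⟨C, hC⟩ := h ε hε
  obtain ⟨T₀, hT₀⟩ := eventually_atTop.1 hC
  refine ⟨|C| + (T₀ + 1), fun T hT => ?_⟩
  have hT1 : (1 : ℝ) ≤ T := by exact_mod_cast hT
  have h1 : 1 ≤ (T : ℝ) ^ (e + ε) := Real.one_le_rpow hT1 (by linarith)
  by_cases h2 : T₀ ≤ T
  · refine (hT₀ T h2).trans ?_
    have h3 : C ≤ |C| + (T₀ + 1) := by
      have := le_abs_self C
      have : (0 : ℝ) ≤ T₀ := Nat.cast_nonneg _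
      linarith
    exact mul_le_mul_of_nonneg_right h3 (by linarith)
  · push Not at h2
    have h3 : {m | m ∈ B ∧ m ≤ T ∧ T ≤ 2 * m} ⊆ ↑(Finset.range (T₀ + 1)) := by
      rintro m ⟨-, h4, -⟩
      simp only [Finset.coe_range, Set.mem_Iio]
      omega
    have h4 := Set.ncard_le_ncard h3 (Finset.finite_toSet _)
    rw [Set.ncard_coe_finset, Finset.card_range] at h4
    have h5 : (({m | m ∈ B ∧ m ≤ T ∧ T ≤ 2 * m}).ncard : ℝ) ≤ T₀ + 1 := by exact_mod_cast h4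
    have h6 : 0 ≤ |C| := abs_nonneg C
    have h7 : (0 : ℝ) ≤ T₀ := Nat.cast_nonneg _
    nlinarith

end Pool.Agent.Q138.PS
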