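import Pool.Agent.Q138.PS.XD

/-!
Powers of almost all real numbers and sets of natural numbers with at most `C T / (log T) ^ δ` elements up to `T`.
-/

set_option autoImplicit false

namespace Pool.Agent.Q138.PS

open Filter Topology MeasureTheory Set

/-- the points `α` of `(a, b)` with an element of `B` within `r` of `w α ^ n` -/
def HitSet (B : Set ℕ) (a b w r : ℝ) (n : ℕ) : Set ℝ := {α | a < α ∧ α < b ∧ ∃ m ∈ B, |(m : ℝ) - w * α ^ n| ≤ r}

theorem one_hit {a b w r : ℝ} (ha : 1 < a) (hw : 0 < w) {n m : ℕ} (hn : 1 ≤ n) (hm : 1 ≤ m) (hr : ∀ α, a < α → r ≤ w * α ^ n / 2) :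
    volume {α : ℝ | a < α ∧ α < b ∧ |(m : ℝ) - w * α ^ n| ≤ r} ≤ ENNReal.ofReal (3 * r * b / (n * m)) := by
  have hn0 : (0 : ℝ) < n := by exact_mod_cast hn
  have hm0 : (0 : ℝ) < m := by exact_mod_cast hm
  refine (Real.volume_le_diam _).trans (Metric.ediam_le fun x hx y hy => ?_)
  rw [edist_dist]
  refine ENNReal.ofReal_le_ofReal ?_
  obtain ⟨hx1, hx2, hx3⟩ := hx
  obtain ⟨hy1, hy2, hy3⟩ := hy
  have key : ∀ u v : ℝ, a < u → u ≤ v → v < b → |(m : ℝ) - w * u ^ n| ≤ r → |(m : ℝ) - w * v ^ n| ≤ r →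
      v - u ≤ 3 * r * b / (n * m) := by
    intro u v hu huv hv h1 h2
    have hu0 : 0 < u := by linarith
    have h3 := abs_le.1 h1
    have h4 := abs_le.1 h2
    have h5 : w * (v ^ n - u ^ n) ≤ 2 * r := by linarith [h3.1, h3.2, h4.1, h4.2]
    have hb := one_add_mul_le_pow (a := (v - u) / u) (by
      have : 0 ≤ (v - u) / u := div_nonneg (by linarith) hu0.le
      linarith) n
    have h6 : (1 + (v - u) / u) ^ n * u ^ n = v ^ n := by
      rw [← mul_pow]
      congr 1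
      field_simp
      ring
    have hun : 0 < u ^ n := by positivity
    have h7 : n * ((v - u) / u) * u ^ n ≤ v ^ n - u ^ n := by
      have := mul_le_mul_of_nonneg_right hb hun.le
      rw [h6] at this
      linarith
    have h8 : w * (n * ((v - u) / u) * u ^ n) ≤ 2 * r := (mul_le_mul_of_nonneg_left h7 hw.le).trans h5
    have h9 : (2 / 3 : ℝ) * m ≤ w * u ^ n := by
      have := hr u hu
      linarith [h3.2]
    have h10 : 0 ≤ (v - u) / u := div_nonneg (by linarith) hu0.le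
    have h11 : n * ((v - u) / u) * ((2 / 3 : ℝ) * m) ≤ 2 * r := by
      have := mul_le_mul_of_nonneg_left h9 (show 0 ≤ n * ((v - u) / u) by positivity)
      linarith
    have hr0 : 0 ≤ r := (abs_nonneg _).trans h1
    have h12 : (v - u) / u ≤ 3 * r / (n * m) := by
      rw [le_div_iff₀ (by positivity)]
      linarith
    have h13 : v - u ≤ 3 * r / (n * m) * u := by rwa [div_le_iff₀ hu0] at h12
    refine h13.trans ?_
    have h14 : 3 * r * b / (n * m) = 3 * r / (n * m) * b := by ring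
    rw [h14]
    exact mul_le_mul_of_nonneg_left (by linarith) (by positivity)
  rw [Real.dist_eq]
  rcases le_total x y with h | h
  · rw [abs_sub_comm, abs_of_nonneg (by linarith)]
    exact key x y hx1 h hy2 hx3 hy3
  · rw [abs_of_nonneg (by linarith)]
    exact key y x hy1 h hx2 hy3 hx3

/-- the measure of the set of the points of `(a, b)` with a hit at time `n` -/
theorem hit_measure (B : Set ℕ) (C δ : ℝ) (hδ : 0 ≤ δ)
    (h : ∀ T : ℝ, 2 ≤ T → (({m | m ∈ B ∧ (m : ℝ) ≤ T}).ncard : ℝ) ≤ C * T * (Real.log T) ^ (-δ))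
    (a b : ℝ) (ha : 1 < a) (w : ℕ → ℝ) (hw : ∀ n, 0 < w n)
    (hw1 : Tendsto (fun n : ℕ => (w n) ^ (1 / (n : ℝ))) atTop (𝓝 1)) (D κ : ℝ) (hD : 0 ≤ D) :
    ∃ K : ℝ, 0 ≤ K ∧ ∀ᶠ n : ℕ in atTop, volume (HitSet B a b (w n) (D * (n : ℝ) ^ κ) n) ≤ ENNReal.ofReal (K * (n : ℝ) ^ (κ - δ)) := by
  rcases le_or_gt b a with hab | hab
  · refine ⟨0, le_rfl, Eventually.of_forall fun n => ?_⟩
    have : HitSet B a b (w n) (D * (n : ℝ) ^ κ) n = ∅ := by
      ext α
      simp only [HitSet, Set.mem_ofPred_eq, Set.mem_empty_iff_false, iff_false]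
      rintro ⟨h1, h2, -⟩
      linarith
    rw [this]
    simp
  have ha0 : 0 < a := by linarith
  have hb1 : 1 < b := by linarith
  obtain ⟨a', ha1, ha2⟩ := exists_between ha
  obtain ⟨b', hb2⟩ : ∃ b', b' = 2 * b := ⟨_, rfl⟩
  have hb'1 : 1 < b' := by linarith
  have hla : 0 < Real.log a' := Real.log_pos ha1
  have hlb : 0 < Real.log b' := Real.log_pos hb'1
  have hl2 : 0 < Real.log 2 := Real.log_pos (by norm_num)
  have hC : 0 ≤ |C| := abs_nonneg C
  -- bounds of the sequence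
  have hroot : ∀ x : ℝ, 0 < x → ∀ n : ℕ, 1 ≤ n → x < (w n) ^ (1 / (n : ℝ)) → x ^ n ≤ w n := by
    intro x hx n hn hxn
    have hn0 : (n : ℝ) ≠ 0 := by
      have : 0 < n := hn
      positivity
    have h8 : x ^ n ≤ ((w n) ^ (1 / (n : ℝ))) ^ n := pow_le_pow_left₀ hx.le hxn.le n
    rwa [← Real.rpow_natCast ((w n) ^ (1 / (n : ℝ))), ← Real.rpow_mul (hw n).le, one_div_mul_cancel hn0,
      Real.rpow_one] at h8
  have hroot' : ∀ x : ℝ, ∀ n : ℕ, 1 ≤ n → (w n) ^ (1 / (n : ℝ)) < x → w n ≤ x ^ n := by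
    intro x n hn hxn
    have hn0 : (n : ℝ) ≠ 0 := by
      have : 0 < n := hn
      positivity
    have h0 : 0 ≤ (w n) ^ (1 / (n : ℝ)) := Real.rpow_nonneg (hw n).le _
    have h8 : ((w n) ^ (1 / (n : ℝ))) ^ n ≤ x ^ n := pow_le_pow_left₀ h0 hxn.le n
    rwa [← Real.rpow_natCast ((w n) ^ (1 / (n : ℝ))), ← Real.rpow_mul (hw n).le, one_div_mul_cancel hn0,
      Real.rpow_one] at h8
  have hlow : ∀ᶠ n : ℕ in atTop, a' ^ n ≤ w n * a ^ n := by
    have h2 : ∀ᶠ n : ℕ in atTop, a' / a < (w n) ^ (1 / (n : ℝ)) :=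
      hw1.eventually_const_lt (by rw [div_lt_one ha0]; exact ha2)
    filter_upwards [h2, eventually_ge_atTop 1] with n h3 h4
    have h5 := hroot _ (by positivity) n h4 h3
    calc a' ^ n = (a' / a) ^ n * a ^ n := by rw [← mul_pow, div_mul_cancel₀ a' ha0.ne']
      _ ≤ w n * a ^ n := mul_le_mul_of_nonneg_right h5 (by positivity)
  have hup : ∀ᶠ n : ℕ in atTop, w n * b ^ n ≤ b' ^ n := by
    have h2 : ∀ᶠ n : ℕ in atTop, (w n) ^ (1 / (n : ℝ)) < 2 := hw1.eventually_lt_const (by norm_num)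
    filter_upwards [h2, eventually_ge_atTop 1] with n h3 h4
    have h5 := hroot' _ n h4 h3
    calc w n * b ^ n ≤ 2 ^ n * b ^ n := mul_le_mul_of_nonneg_right h5 (by positivity)
      _ = b' ^ n := by rw [← mul_pow, hb2]
  -- the radius is small
  have hrad : ∀ᶠ n : ℕ in atTop, D * (n : ℝ) ^ κ ≤ a' ^ n / 2 := by
    have h1 : Tendsto (fun n : ℕ => (n : ℝ) ^ κ / a' ^ (n : ℝ)) atTop (𝓝 0) := by
      have h2 := (isLittleO_rpow_exp_pos_mul_atTop κ hla).tendsto_div_nhds_zero.comp tendsto_natCast_atTop_atTop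
      refine h2.congr fun n => ?_
      simp only [Function.comp_apply]
      rw [Real.rpow_def_of_pos (by linarith : 0 < a')]
    have h2 : Tendsto (fun n : ℕ => D * ((n : ℝ) ^ κ / a' ^ (n : ℝ))) atTop (𝓝 (D * 0)) := h1.const_mul D
    rw [mul_zero] at h2
    filter_upwards [h2.eventually_lt_const (show (0 : ℝ) < 1 / 2 by norm_num)] with n h3
    rw [Real.rpow_natCast, ← mul_div_assoc] at h3
    have h4 : 0 < a' ^ n := by positivity
    rw [div_lt_iff₀ h4] at h3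
    linarith
  have hnl : ∀ᶠ n : ℕ in atTop, 2 * Real.log 2 ≤ (n : ℝ) * Real.log a' :=
    (tendsto_natCast_atTop_atTop.atTop_mul_const hla).eventually_ge_atTop _
  -- the constants
  obtain ⟨K1, hK1⟩ : ∃ K1 : ℝ, K1 = Real.log b' / Real.log 2 + 2 := ⟨_, rfl⟩
  have hK1p : 0 < K1 := by rw [hK1]; positivity
  obtain ⟨K2, hK2⟩ : ∃ K2 : ℝ, K2 = |C| * 2 * (Real.log a' / 2) ^ (-δ) * (3 * D * b) := ⟨_, rfl⟩
  have hK2p : 0 ≤ K2 := by rw [hK2]; positivity
  refine ⟨K1 * K2, by positivity, ?_⟩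
  filter_upwards [hlow, hup, hrad, hnl, eventually_ge_atTop 1] with n h1 h2 h3 h4 hn1
  have hn0 : (0 : ℝ) < n := by exact_mod_cast hn1
  have hn1r : (1 : ℝ) ≤ n := by exact_mod_cast hn1
  obtain ⟨r, hr⟩ : ∃ r : ℝ, r = D * (n : ℝ) ^ κ := ⟨_, rfl⟩
  have hr0 : 0 ≤ r := by rw [hr]; positivity
  rw [← hr] at h3 ⊢
  have han : (0 : ℝ) < a' ^ n := by positivity
  have hrα : ∀ α, a < α → r ≤ w n * α ^ n / 2 := by
    intro α hα
    have h5 : w n * a ^ n ≤ w n * α ^ n :=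
      mul_le_mul_of_nonneg_left (pow_le_pow_left₀ ha0.le hα.le n) (hw n).le
    linarith
  -- the blocks
  set I : ℕ → Set ℝ := fun m => {α : ℝ | a < α ∧ α < b ∧ |(m : ℝ) - w n * α ^ n| ≤ r} with hI
  set Bl : ℕ → Set ℕ := fun i => {m | m ∈ B ∧ 2 ^ i ≤ m ∧ m < 2 ^ (i + 1) ∧ a' ^ n / 2 ≤ (m : ℝ)} with hBl
  have hBlfin : ∀ i, (Bl i).Finite := fun i => (Set.finite_Iio (2 ^ (i + 1))).subset fun m hm => hm.2.2.1
  obtain ⟨J, hJ⟩ : ∃ J : ℕ, J = ⌊(n : ℝ) * Real.log b' / Real.log 2⌋₊ + 2 := ⟨_, rfl⟩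
  have hsub : HitSet B a b (w n) r n ⊆ ⋃ i ∈ Finset.range J, ⋃ m ∈ (hBlfin i).toFinset, I m := by
    rintro α ⟨h5, h6, m, hm, h7⟩
    have h8 := abs_le.1 h7
    have h9 := hrα α h5
    have h10 : w n * a ^ n ≤ w n * α ^ n :=
      mul_le_mul_of_nonneg_left (pow_le_pow_left₀ ha0.le h5.le n) (hw n).le
    have h11 : w n * α ^ n ≤ w n * b ^ n :=
      mul_le_mul_of_nonneg_left (pow_le_pow_left₀ (by linarith) h6.le n) (hw n).le
    have hmlow : a' ^ n / 2 ≤ (m : ℝ) := by linarith [h8.1]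
    have hmup : (m : ℝ) ≤ 2 * b' ^ n := by linarith [h8.2]
    have hmpos : (0 : ℝ) < m := by linarith
    have hm0 : m ≠ 0 := by
      rintro rfl
      simp at hmpos
    simp only [Set.mem_iUnion]
    refine ⟨Nat.log 2 m, ?_, m, ?_, h5, h6, h7⟩
    · rw [Finset.mem_range, hJ]
      have h12 : 2 ^ Nat.log 2 m ≤ m := Nat.pow_log_le_self 2 hm0
      have h13 : ((2 : ℝ) ^ Nat.log 2 m) ≤ 2 * b' ^ n := le_trans (by exact_mod_cast h12) hmup
      have h14 := Real.log_le_log (by positivity) h13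
      rw [Real.log_pow, Real.log_mul (by norm_num) (by positivity), Real.log_pow] at h14
      have h15 : ((Nat.log 2 m : ℕ) : ℝ) - 1 ≤ (n : ℝ) * Real.log b' / Real.log 2 := by
        rw [le_div_iff₀ hl2]
        linarith
      by_contra hcon
      rw [not_lt] at hcon
      have h16 : ((⌊(n : ℝ) * Real.log b' / Real.log 2⌋₊ : ℕ) : ℝ) + 1 ≤ ((Nat.log 2 m : ℕ) : ℝ) - 1 := by
        have h17 : (((⌊(n : ℝ) * Real.log b' / Real.log 2⌋₊ + 2 : ℕ)) : ℝ) ≤ ((Nat.log 2 m : ℕ) : ℝ) := by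
          exact_mod_cast hcon
        push_cast at h17
        linarith
      have h18 := Nat.lt_floor_add_one ((n : ℝ) * Real.log b' / Real.log 2)
      linarith
    · rw [Set.Finite.mem_toFinset]
      exact ⟨hm, Nat.pow_log_le_self 2 hm0, Nat.lt_pow_succ_log_self (by norm_num) m, hmlow⟩
  have hone : ∀ i, ∀ m ∈ (hBlfin i).toFinset, volume (I m) ≤ ENNReal.ofReal (3 * r * b / (n * 2 ^ i)) := by
    intro i m hm
    rw [Set.Finite.mem_toFinset] at hm
    have hm1 : 1 ≤ m := le_trans Nat.one_le_two_pow hm.2.1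
    refine (one_hit ha (hw n) hn1 hm1 hrα).trans (ENNReal.ofReal_le_ofReal ?_)
    have h5 : ((2 : ℝ) ^ i) ≤ m := by exact_mod_cast hm.2.1
    have h6 : 0 ≤ 3 * r * b := by positivity
    exact div_le_div_of_nonneg_left h6 (by positivity) (mul_le_mul_of_nonneg_left h5 hn0.le)
  have hcardB : ∀ i, ((Bl i).ncard : ℝ) ≤ |C| * 2 ^ (i + 1) * ((n : ℝ) * (Real.log a' / 2)) ^ (-δ) := by
    intro i
    rcases (Bl i).eq_empty_or_nonempty with he | ⟨m, hm⟩
    · rw [he]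
      simp only [Set.ncard_empty, Nat.cast_zero]
      positivity
    · have h5 : a' ^ n / 2 ≤ (2 : ℝ) ^ (i + 1) := by
        have h6 : (m : ℝ) < 2 ^ (i + 1) := by exact_mod_cast hm.2.2.1
        linarith [hm.2.2.2]
      have h6 := h (2 ^ (i + 1)) (by
        calc (2 : ℝ) = 2 ^ 1 := by norm_num
          _ ≤ 2 ^ (i + 1) := pow_le_pow_right₀ (by norm_num) (by omega))
      have h7 : ((Bl i).ncard : ℝ) ≤ (({m : ℕ | m ∈ B ∧ (m : ℝ) ≤ 2 ^ (i + 1)}).ncard : ℝ) := by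
        have h8 : Bl i ⊆ {m : ℕ | m ∈ B ∧ (m : ℝ) ≤ 2 ^ (i + 1)} := by
          intro k hk
          refine ⟨hk.1, ?_⟩
          exact_mod_cast hk.2.2.1.le
        exact_mod_cast Set.ncard_le_ncard h8 (fin_le_real B _)
      have h8 : (n : ℝ) * (Real.log a' / 2) ≤ Real.log (2 ^ (i + 1)) := by
        have h9 := Real.log_le_log (by positivity) h5
        rw [Real.log_div (by positivity) (by norm_num), Real.log_pow] at h9
        linarith
      have h9 : Real.log (2 ^ (i + 1)) ^ (-δ) ≤ ((n : ℝ) * (Real.log a' / 2)) ^ (-δ) :=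
        Real.rpow_le_rpow_of_nonpos (by positivity) h8 (by linarith)
      have hlp : 0 ≤ Real.log ((2 : ℝ) ^ (i + 1)) := le_trans (by positivity) h8
      calc ((Bl i).ncard : ℝ) ≤ C * 2 ^ (i + 1) * Real.log (2 ^ (i + 1)) ^ (-δ) := h7.trans h6
        _ ≤ |C| * 2 ^ (i + 1) * Real.log (2 ^ (i + 1)) ^ (-δ) := by
            refine mul_le_mul_of_nonneg_right ?_ (Real.rpow_nonneg hlp _)
            exact mul_le_mul_of_nonneg_right (le_abs_self C) (by positivity)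
        _ ≤ |C| * 2 ^ (i + 1) * ((n : ℝ) * (Real.log a' / 2)) ^ (-δ) := mul_le_mul_of_nonneg_left h9 (by positivity)
  have hblock : ∀ i, volume (⋃ m ∈ (hBlfin i).toFinset, I m) ≤ ENNReal.ofReal (K2 * (n : ℝ) ^ (κ - δ - 1)) := by
    intro i
    have h5 : volume (⋃ m ∈ (hBlfin i).toFinset, I m) ≤ ∑ m ∈ (hBlfin i).toFinset, volume (I m) :=
      measure_biUnion_finset_le _ _
    have h6 : ∑ m ∈ (hBlfin i).toFinset, volume (I m) ≤
        ∑ _m ∈ (hBlfin i).toFinset, ENNReal.ofReal (3 * r * b / (n * 2 ^ i)) := Finset.sum_le_sum (hone i)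
    rw [Finset.sum_const, nsmul_eq_mul, ← Set.ncard_eq_toFinset_card _ (hBlfin i)] at h6
    refine (h5.trans h6).trans ?_
    rw [← ENNReal.ofReal_natCast, ← ENNReal.ofReal_mul (Nat.cast_nonneg _)]
    refine ENNReal.ofReal_le_ofReal ?_
    have h7 : 0 ≤ 3 * r * b / (n * 2 ^ i) := by positivity
    refine (mul_le_mul_of_nonneg_right (hcardB i) h7).trans (le_of_eq ?_)
    rw [hK2, hr, Real.mul_rpow hn0.le (by positivity)]
    have h8 : (n : ℝ) ^ (κ - δ - 1) = (n : ℝ) ^ κ * (n : ℝ) ^ (-δ) * (n : ℝ)⁻¹ := by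
      rw [← Real.rpow_neg_one, ← Real.rpow_add hn0, ← Real.rpow_add hn0]
      congr 1
    rw [h8, pow_succ]
    field_simp
  have hJn : (J : ℝ) ≤ K1 * n := by
    rw [hJ, hK1]
    push_cast
    have h5 : ((⌊(n : ℝ) * Real.log b' / Real.log 2⌋₊ : ℕ) : ℝ) ≤ (n : ℝ) * Real.log b' / Real.log 2 :=
      Nat.floor_le (by positivity)
    have h6 : (Real.log b' / Real.log 2 + 2) * (n : ℝ) = (n : ℝ) * Real.log b' / Real.log 2 + 2 * n := by ring
    rw [h6]
    linarith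
  calc volume (HitSet B a b (w n) r n) ≤ volume (⋃ i ∈ Finset.range J, ⋃ m ∈ (hBlfin i).toFinset, I m) :=
        measure_mono hsub
    _ ≤ ∑ i ∈ Finset.range J, volume (⋃ m ∈ (hBlfin i).toFinset, I m) := measure_biUnion_finset_le _ _
    _ ≤ ∑ _i ∈ Finset.range J, ENNReal.ofReal (K2 * (n : ℝ) ^ (κ - δ - 1)) := Finset.sum_le_sum fun i _ => hblock i
    _ = ENNReal.ofReal (J * (K2 * (n : ℝ) ^ (κ - δ - 1))) := by
        rw [Finset.sum_const, Finset.card_range, nsmul_eq_mul, ← ENNReal.ofReal_natCast,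
          ← ENNReal.ofReal_mul (Nat.cast_nonneg _)]
    _ ≤ ENNReal.ofReal (K1 * K2 * (n : ℝ) ^ (κ - δ)) := by
        refine ENNReal.ofReal_le_ofReal ?_
        have h5 : (n : ℝ) ^ (κ - δ) = (n : ℝ) ^ (κ - δ - 1) * n := by
          rw [← Real.rpow_add_one hn0.ne']
          congr 1
          ring
        rw [h5]
        have h6 : 0 ≤ K2 * (n : ℝ) ^ (κ - δ - 1) := by positivity
        calc (J : ℝ) * (K2 * (n : ℝ) ^ (κ - δ - 1)) ≤ K1 * n * (K2 * (n : ℝ) ^ (κ - δ - 1)) :=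
              mul_le_mul_of_nonneg_right hJn h6
          _ = K1 * K2 * ((n : ℝ) ^ (κ - δ - 1) * n) := by ring

end Pool.Agent.Q138.PS
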