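import Pool.Agent.Q138.PS.XE

/-!
Powers of almost all real numbers: no hits, or few hits, of sets of natural numbers with few elements.
-/

set_option autoImplicit false

namespace Pool.Agent.Q138.PS

open Filter Topology MeasureTheory Set

theorem hit_measurable (B : Set ℕ) (a b w r : ℝ) (n : ℕ) : MeasurableSet (HitSet B a b w r n) := by
  have h : HitSet B a b w r n = Set.Ioo a b ∩ ⋃ m ∈ B, {α : ℝ | |(m : ℝ) - w * α ^ n| ≤ r} := by
    ext α
    simp only [HitSet, Set.mem_ofPred_eq, Set.mem_inter_iff, Set.mem_Ioo, Set.mem_iUnion, exists_prop]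
    tauto
  rw [h]
  refine measurableSet_Ioo.inter (MeasurableSet.biUnion (Set.to_countable B) fun m _ => ?_)
  exact (isClosed_le (by fun_prop) continuous_const).measurableSet

/-- every `α > 1` lies in one of countably many intervals -/
theorem mem_interval {α : ℝ} (hα : 1 < α) : ∃ k : ℕ, 1 + 1 / ((k : ℝ) + 1) < α ∧ α < (k : ℝ) + 2 := by
  obtain ⟨k, hk⟩ := exists_nat_one_div_lt (show 0 < α - 1 by linarith)
  obtain ⟨l, hl⟩ := exists_nat_gt α
  refine ⟨max k l, ?_, ?_⟩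
  · have h1 : (k : ℝ) ≤ (max k l : ℕ) := by exact_mod_cast le_max_left k l
    have h2 : 1 / (((max k l : ℕ) : ℝ) + 1) ≤ 1 / ((k : ℝ) + 1) := one_div_le_one_div_of_le (by positivity) (by linarith)
    linarith
  · have h1 : (l : ℝ) ≤ (max k l : ℕ) := by exact_mod_cast le_max_right k l
    linarith

/-- **No hits** for almost all `α` if the exponent of the logarithm is large. -/
theorem ae_none (B : Set ℕ) (C δ : ℝ)
    (h : ∀ T : ℝ, 2 ≤ T → (({m | m ∈ B ∧ (m : ℝ) ≤ T}).ncard : ℝ) ≤ C * T * (Real.log T) ^ (-δ))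
    (w : ℕ → ℝ) (hw : ∀ n, 0 < w n) (hw1 : Tendsto (fun n : ℕ => (w n) ^ (1 / (n : ℝ))) atTop (𝓝 1)) (D κ : ℝ) (hD : 0 ≤ D)
    (hδ : 0 ≤ δ) (hκ : κ + 1 < δ) :
    ∀ᵐ α : ℝ, 1 < α → ∀ᶠ n : ℕ in atTop, ∀ m : ℕ, |(m : ℝ) - w n * α ^ n| ≤ D * (n : ℝ) ^ κ → m ∉ B := by
  have key : ∀ k : ℕ, ∀ᵐ α : ℝ, ∀ᶠ n : ℕ in atTop,
      α ∉ HitSet B (1 + 1 / ((k : ℝ) + 1)) ((k : ℝ) + 2) (w n) (D * (n : ℝ) ^ κ) n := by
    intro k
    obtain ⟨K, hK, hev⟩ := hit_measure B C δ hδ h (1 + 1 / ((k : ℝ) + 1)) ((k : ℝ) + 2) (by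
      have : (0 : ℝ) < 1 / ((k : ℝ) + 1) := by positivity
      linarith) w hw hw1 D κ hD
    obtain ⟨n₀, hn₀⟩ := eventually_atTop.1 hev
    have hs : Summable fun n : ℕ => K * (n : ℝ) ^ (κ - δ) :=
      (Real.summable_nat_rpow.2 (by linarith)).mul_left K
    have hsum : ∑' n : ℕ, volume (HitSet B (1 + 1 / ((k : ℝ) + 1)) ((k : ℝ) + 2) (w (n + n₀))
        (D * ((n + n₀ : ℕ) : ℝ) ^ κ) (n + n₀)) ≠ ⊤ := by
      have hs' := ((summable_nat_add_iff n₀).2 hs).tsum_ofReal_ne_top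
      refine ne_top_of_le_ne_top hs' (ENNReal.tsum_le_tsum fun n => ?_)
      exact hn₀ (n + n₀) (by omega)
    filter_upwards [ae_eventually_notMem hsum] with α hα
    obtain ⟨n₁, hn₁⟩ := eventually_atTop.1 hα
    refine eventually_atTop.2 ⟨n₁ + n₀, fun n hn => ?_⟩
    have := hn₁ (n - n₀) (by omega)
    rwa [Nat.sub_add_cancel (by omega)] at this
  filter_upwards [ae_all_iff.2 key] with α hα h1
  obtain ⟨k, hk1, hk2⟩ := mem_interval h1
  filter_upwards [hα k] with n hn m hm hmB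
  exact hn ⟨hk1, hk2, m, hmB, hm⟩

open Classical in
/-- the number of the `1 ≤ n ≤ N` with an element of `B` within `D n ^ κ` of `w(n) α ^ n` -/
noncomputable def hits (B : Set ℕ) (w : ℕ → ℝ) (D κ α : ℝ) (N : ℕ) : ℕ :=
  ((Finset.Icc 1 N).filter fun n : ℕ => ∃ m ∈ B, |(m : ℝ) - w n * α ^ n| ≤ D * (n : ℝ) ^ κ).card

theorem hits_mono (B : Set ℕ) (w : ℕ → ℝ) (D κ α : ℝ) {N M : ℕ} (h : N ≤ M) : hits B w D κ α N ≤ hits B w D κ α M := by
  classical
  unfold hits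
  exact Finset.card_le_card (Finset.filter_subset_filter _ (Finset.Icc_subset_Icc le_rfl h))

/-- **Few hits** for almost all `α`. -/
theorem ae_few (B : Set ℕ) (C δ : ℝ)
    (h : ∀ T : ℝ, 2 ≤ T → (({m | m ∈ B ∧ (m : ℝ) ≤ T}).ncard : ℝ) ≤ C * T * (Real.log T) ^ (-δ))
    (w : ℕ → ℝ) (hw : ∀ n, 0 < w n) (hw1 : Tendsto (fun n : ℕ => (w n) ^ (1 / (n : ℝ))) atTop (𝓝 1)) (D κ : ℝ) (hD : 0 ≤ D)
    (hδ : 0 ≤ δ) (s : ℝ) (hs : 0 ≤ s) (hκ : κ + 1 ≤ δ + s) (ε : ℝ) (hε : 0 < ε) :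
    ∀ᵐ α : ℝ, 1 < α → ∀ᶠ N : ℕ in atTop, (hits B w D κ α N : ℝ) ≤ (N : ℝ) ^ (s + ε) := by
  classical
  have key : ∀ k : ℕ, ∀ᵐ α : ℝ, 1 + 1 / ((k : ℝ) + 1) < α → α < (k : ℝ) + 2 →
      ∀ᶠ i : ℕ in atTop, (hits B w D κ α (2 ^ i) : ℝ) ≤ ((2 : ℝ) ^ i) ^ (s + ε / 2) := by
    intro k
    set a : ℝ := 1 + 1 / ((k : ℝ) + 1) with ha
    set b : ℝ := (k : ℝ) + 2 with hb
    obtain ⟨K, hK, hev⟩ := hit_measure B C δ hδ h a b (by
      have : (0 : ℝ) < 1 / ((k : ℝ) + 1) := by positivity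
      linarith) w hw hw1 D κ hD
    obtain ⟨n₀, hn₀⟩ := eventually_atTop.1 hev
    set H : ℕ → Set ℝ := fun n => HitSet B a b (w n) (D * (n : ℝ) ^ κ) n with hH
    -- a bound for all `n`
    obtain ⟨K', hK', hall⟩ : ∃ K' : ℝ, 0 ≤ K' ∧ ∀ n : ℕ, 1 ≤ n → volume (H n) ≤ ENNReal.ofReal (K' * (n : ℝ) ^ (s - 1)) := by
      refine ⟨K + |b - a| * (n₀ + 1), by positivity, fun n hn => ?_⟩
      have hn1 : (1 : ℝ) ≤ n := by exact_mod_cast hn
      rcases le_or_gt n₀ n with h1 | h1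
      · refine (hn₀ n h1).trans (ENNReal.ofReal_le_ofReal ?_)
        have h2 : (n : ℝ) ^ (κ - δ) ≤ (n : ℝ) ^ (s - 1) := Real.rpow_le_rpow_of_exponent_le hn1 (by linarith)
        have h3 : 0 ≤ |b - a| * ((n₀ : ℝ) + 1) := by positivity
        calc K * (n : ℝ) ^ (κ - δ) ≤ K * (n : ℝ) ^ (s - 1) := mul_le_mul_of_nonneg_left h2 hK
          _ ≤ (K + |b - a| * (n₀ + 1)) * (n : ℝ) ^ (s - 1) := mul_le_mul_of_nonneg_right (by linarith) (by positivity)
      · have h2 : H n ⊆ Set.Ioo a b := fun α hα => ⟨hα.1, hα.2.1⟩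
        refine (measure_mono h2).trans ?_
        rw [Real.volume_Ioo]
        refine ENNReal.ofReal_le_ofReal ((le_abs_self _).trans ?_)
        have h3 : (1 : ℝ) ≤ (n₀ + 1) * (n : ℝ) ^ (s - 1) := by
          have h4 : (n : ℝ)⁻¹ ≤ (n : ℝ) ^ (s - 1) := by
            rw [← Real.rpow_neg_one]
            exact Real.rpow_le_rpow_of_exponent_le hn1 (by linarith)
          have h5 : (n : ℝ) ≤ n₀ + 1 := by
            have : (n : ℝ) < n₀ := by exact_mod_cast h1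
            linarith
          calc (1 : ℝ) = n * (n : ℝ)⁻¹ := by field_simp
            _ ≤ (n₀ + 1) * (n : ℝ) ^ (s - 1) := mul_le_mul h5 h4 (by positivity) (by positivity)
        have h4 : 0 ≤ |b - a| := abs_nonneg _
        calc |b - a| ≤ |b - a| * ((n₀ + 1) * (n : ℝ) ^ (s - 1)) := le_mul_of_one_le_right h4 h3
          _ ≤ (K + |b - a| * (n₀ + 1)) * (n : ℝ) ^ (s - 1) := by
            have : 0 ≤ K * (n : ℝ) ^ (s - 1) := by positivity
            nlinarith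
    -- the mean number of hits
    have hmean : ∀ N : ℕ, 1 ≤ N → ∫⁻ α, ∑ n ∈ Finset.Icc 1 N, (H n).indicator 1 α ≤
        ENNReal.ofReal (K' * ((N : ℝ) ^ s * (1 + Real.log N))) := by
      intro N hN
      have hN1 : (1 : ℝ) ≤ N := by exact_mod_cast hN
      rw [lintegral_finsetSum _ fun n _ => measurable_one.indicator (hit_measurable B a b _ _ n)]
      have h1 : ∀ n ∈ Finset.Icc 1 N, ∫⁻ α, (H n).indicator 1 α ≤ ENNReal.ofReal (K' * ((N : ℝ) ^ s * (n : ℝ)⁻¹)) := by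
        intro n hn
        rw [Finset.mem_Icc] at hn
        rw [lintegral_indicator_one (hit_measurable B a b _ _ n)]
        refine (hall n hn.1).trans (ENNReal.ofReal_le_ofReal (mul_le_mul_of_nonneg_left ?_ hK'))
        have hn0 : (0 : ℝ) < n := by exact_mod_cast hn.1
        rw [Real.rpow_sub hn0, Real.rpow_one, div_eq_mul_inv]
        refine mul_le_mul_of_nonneg_right ?_ (by positivity)
        exact Real.rpow_le_rpow hn0.le (by exact_mod_cast hn.2) hs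
      refine (Finset.sum_le_sum h1).trans ?_
      rw [← ENNReal.ofReal_sum_of_nonneg fun n _ => by positivity]
      refine ENNReal.ofReal_le_ofReal ?_
      rw [← Finset.mul_sum, ← Finset.mul_sum]
      refine mul_le_mul_of_nonneg_left (mul_le_mul_of_nonneg_left ?_ (by positivity)) hK'
      have h2 := harmonic_le_one_add_log N
      rw [harmonic_eq_sum_Icc] at h2
      push_cast at h2
      exact h2
    set V : ℕ → Set ℝ := fun i => {α | ENNReal.ofReal (((2 : ℝ) ^ i) ^ (s + ε / 2)) ≤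
      ∑ n ∈ Finset.Icc 1 (2 ^ i), (H n).indicator 1 α} with hV
    have hVm : ∀ i, volume (V i) ≤ ENNReal.ofReal (K' * ((1 + i) * (2 : ℝ) ^ (-(ε / 2) * i))) := by
      intro i
      have hmeas : Measurable fun α => ∑ n ∈ Finset.Icc 1 (2 ^ i), (H n).indicator (1 : ℝ → ENNReal) α :=
        Finset.measurable_sum _ fun n _ => measurable_one.indicator (hit_measurable B a b _ _ n)
      have hp : 0 < ((2 : ℝ) ^ i) ^ (s + ε / 2) := by positivity
      refine (meas_ge_le_lintegral_div hmeas.aemeasurable (ENNReal.ofReal_pos.2 hp).ne' ENNReal.ofReal_ne_top).trans ?_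
      have h1 := hmean (2 ^ i) Nat.one_le_two_pow
      refine (ENNReal.div_le_div_right h1 _).trans ?_
      rw [← ENNReal.ofReal_div_of_pos hp]
      refine ENNReal.ofReal_le_ofReal ?_
      rw [div_le_iff₀ hp]
      push_cast
      have h2 : Real.log ((2 : ℝ) ^ i) ≤ i := by
        rw [Real.log_pow]
        have : Real.log 2 ≤ 1 := by
          have := Real.log_two_lt_d9
          linarith
        exact mul_le_of_le_one_right (Nat.cast_nonneg _) this
      have h3 : ((2 : ℝ) ^ i) ^ (s + ε / 2) = ((2 : ℝ) ^ i) ^ s * ((2 : ℝ) ^ i) ^ (ε / 2) := Real.rpow_add (by positivity) _ _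
      have h4 : (2 : ℝ) ^ (-(ε / 2) * i) * ((2 : ℝ) ^ i) ^ (ε / 2) = 1 := by
        rw [← Real.rpow_natCast 2 i, ← Real.rpow_mul (by norm_num), ← Real.rpow_add (by norm_num)]
        rw [show -(ε / 2) * (i : ℝ) + (i : ℝ) * (ε / 2) = 0 by ring, Real.rpow_zero]
      rw [h3]
      calc K' * (((2 : ℝ) ^ i) ^ s * (1 + Real.log ((2 : ℝ) ^ i))) ≤ K' * (((2 : ℝ) ^ i) ^ s * (1 + i)) := by
            refine mul_le_mul_of_nonneg_left (mul_le_mul_of_nonneg_left (by linarith) (by positivity)) hK'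
        _ = K' * ((1 + i) * ((2 : ℝ) ^ (-(ε / 2) * i) * ((2 : ℝ) ^ i) ^ (ε / 2))) * ((2 : ℝ) ^ i) ^ s := by
            rw [h4]
            ring
        _ = K' * ((1 + i) * (2 : ℝ) ^ (-(ε / 2) * i)) * (((2 : ℝ) ^ i) ^ s * ((2 : ℝ) ^ i) ^ (ε / 2)) := by ring
    have hsum : ∑' i, volume (V i) ≠ ⊤ := by
      have hr0 : (0 : ℝ) < 2 ^ (-(ε / 2)) := by positivity
      have hr1 : (2 : ℝ) ^ (-(ε / 2)) < 1 := Real.rpow_lt_one_of_one_lt_of_neg (by norm_num) (by linarith)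
      have hgeo : Summable fun i : ℕ => ((2 : ℝ) ^ (-(ε / 2))) ^ i := summable_geometric_of_lt_one hr0.le hr1
      have hgeo' : Summable fun i : ℕ => (i : ℝ) * ((2 : ℝ) ^ (-(ε / 2))) ^ i := by
        have := summable_pow_mul_geometric_of_norm_lt_one 1 (r := (2 : ℝ) ^ (-(ε / 2))) (by
          rw [Real.norm_eq_abs, abs_of_pos hr0]
          exact hr1)
        simpa using this
      have hs2 : Summable fun i : ℕ => K' * ((1 + i) * (2 : ℝ) ^ (-(ε / 2) * i)) := by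
        refine Summable.mul_left K' ((hgeo.add hgeo').congr fun i => ?_)
        rw [Real.rpow_mul (by norm_num), Real.rpow_natCast]
        ring
      exact ne_top_of_le_ne_top hs2.tsum_ofReal_ne_top (ENNReal.tsum_le_tsum hVm)
    filter_upwards [ae_eventually_notMem hsum] with α hα h1 h2
    filter_upwards [hα] with i hi
    have h3 : ∑ n ∈ Finset.Icc 1 (2 ^ i), (H n).indicator (1 : ℝ → ENNReal) α = (hits B w D κ α (2 ^ i) : ENNReal) := by
      unfold hits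
      rw [Finset.card_filter, Nat.cast_sum]
      refine Finset.sum_congr rfl fun n _ => ?_
      by_cases h4 : ∃ m ∈ B, |(m : ℝ) - w n * α ^ n| ≤ D * (n : ℝ) ^ κ
      · rw [if_pos h4, Set.indicator_of_mem (show α ∈ H n from ⟨h1, h2, h4⟩)]
        simp
      · rw [if_neg h4, Set.indicator_of_notMem (show α ∉ H n from fun h5 => h4 h5.2.2)]
        simp
    have h4 : (hits B w D κ α (2 ^ i) : ENNReal) < ENNReal.ofReal (((2 : ℝ) ^ i) ^ (s + ε / 2)) := by
      rw [← h3]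
      exact not_le.1 hi
    have h5 : 0 < ((2 : ℝ) ^ i) ^ (s + ε / 2) := by positivity
    rw [← ENNReal.ofReal_natCast, ENNReal.ofReal_lt_ofReal_iff h5] at h4
    exact h4.le
  filter_upwards [ae_all_iff.2 key] with α hα h1
  obtain ⟨k, hk1, hk2⟩ := mem_interval h1
  obtain ⟨i₀, hi₀⟩ := eventually_atTop.1 (hα k hk1 hk2)
  have hlarge : ∀ᶠ N : ℕ in atTop, (2 : ℝ) ^ (s + ε / 2) ≤ (N : ℝ) ^ (ε / 2) :=
    ((tendsto_rpow_atTop (by positivity)).comp tendsto_natCast_atTop_atTop).eventually_ge_atTop _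
  filter_upwards [hlarge, eventually_ge_atTop (2 ^ i₀), eventually_ge_atTop 1] with N h2 h3 h4
  have hN0 : (0 : ℝ) < N := by exact_mod_cast h4
  have h5 : i₀ ≤ Nat.log 2 N + 1 := by
    have := Nat.le_log_of_pow_le (by norm_num) h3
    omega
  have h6 : N ≤ 2 ^ (Nat.log 2 N + 1) := (Nat.lt_pow_succ_log_self (by norm_num) N).le
  have h7 : (2 : ℝ) ^ (Nat.log 2 N + 1) ≤ 2 * N := by
    have h8 : 2 ^ (Nat.log 2 N) ≤ N := Nat.pow_log_le_self 2 (by omega)
    have h9 : (2 : ℝ) ^ (Nat.log 2 N) ≤ N := by exact_mod_cast h8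
    rw [pow_succ]
    linarith
  have h8 : (hits B w D κ α N : ℝ) ≤ hits B w D κ α (2 ^ (Nat.log 2 N + 1)) := by
    exact_mod_cast hits_mono B w D κ α h6
  refine (h8.trans (hi₀ _ h5)).trans ?_
  have h9 : ((2 : ℝ) ^ (Nat.log 2 N + 1)) ^ (s + ε / 2) ≤ (2 * (N : ℝ)) ^ (s + ε / 2) :=
    Real.rpow_le_rpow (by positivity) h7 (by linarith)
  refine h9.trans ?_
  rw [Real.mul_rpow (by norm_num) hN0.le]
  calc (2 : ℝ) ^ (s + ε / 2) * (N : ℝ) ^ (s + ε / 2) ≤ (N : ℝ) ^ (ε / 2) * (N : ℝ) ^ (s + ε / 2) :=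
        mul_le_mul_of_nonneg_right h2 (by positivity)
    _ = (N : ℝ) ^ (s + ε) := by
        rw [← Real.rpow_add hN0]
        congr 1
        ring

end Pool.Agent.Q138.PS
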