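import Pool.Agent.Q138.PS.XF

/-!
Powers of almost all real numbers, all positive algebraic factors `c` and all powers `n ^ j` at once.
-/

set_option autoImplicit false

namespace Pool.Agent.Q138.PS

open Filter Topology MeasureTheory Set

/-- `m` is within `D n ^ κ` of `c n ^ j α ^ n` -/
def ClosePow (α c : ℝ) (j : ℤ) (D κ : ℝ) (n m : ℕ) : Prop :=
  |(m : ℝ) - c * (n : ℝ) ^ j * α ^ n| ≤ D * (n : ℝ) ^ κ

open Classical in
/-- the number of the `1 ≤ n ≤ N` with an element of `B` within `D n ^ κ` of `c n ^ j α ^ n` -/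
noncomputable def closeCount (B : Set ℕ) (α c : ℝ) (j : ℤ) (D κ : ℝ) (N : ℕ) : ℕ :=
  ((Finset.Icc 1 N).filter fun n : ℕ => ∃ m ∈ B, ClosePow α c j D κ n m).card

/-- the factor `c n ^ j` -/
noncomputable def fac (c : ℝ) (j : ℤ) (n : ℕ) : ℝ := c * ((max n 1 : ℕ) : ℝ) ^ j

theorem fac_pos {c : ℝ} (hc : 0 < c) (j : ℤ) (n : ℕ) : 0 < fac c j n := by
  have h2 : (0 : ℝ) < ((max n 1 : ℕ) : ℝ) := by
    have : 0 < max n 1 := lt_max_of_lt_right one_pos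
    exact_mod_cast this
  unfold fac
  positivity

theorem fac_eq (c : ℝ) (j : ℤ) {n : ℕ} (hn : 1 ≤ n) : fac c j n = c * (n : ℝ) ^ j := by
  unfold fac
  rw [max_eq_left hn]

/-- the pairs of a positive algebraic number and an integer -/
abbrev AlgInt : Type := {c : ℝ // 0 < c ∧ IsAlgebraic ℚ c} × ℤ

instance : Countable AlgInt := by
  have : Countable {c : ℝ // 0 < c ∧ IsAlgebraic ℚ c} :=
    ((Algebraic.countable ℚ ℝ).mono fun c (hc : 0 < c ∧ IsAlgebraic ℚ c) => hc.2).to_subtype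
  infer_instance

/-- **No hits at all.** If the sets `B i` have at most `C T / (log T) ^ U` elements up to `T` for every `U`, then for almost all
`α > 1` and all large `n` the integers within `D n ^ κ` of `c n ^ j α ^ n` are outside `B i`. -/
theorem pow_ae_none {ι : Type} [Countable ι] (B : ι → Set ℕ)
    (h : ∀ (i : ι) (U : ℕ), ∃ C : ℝ, ∀ T : ℝ, 2 ≤ T → (({m | m ∈ B i ∧ (m : ℝ) ≤ T}).ncard : ℝ) ≤
      C * T * (Real.log T) ^ (-(U : ℝ))) :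
    ∀ᵐ α : ℝ, 1 < α → ∀ (i : ι) (c : ℝ), 0 < c → IsAlgebraic ℚ c → ∀ (j : ℤ) (D κ : ℝ), ∀ᶠ n : ℕ in atTop,
      ∀ m : ℕ, ClosePow α c j D κ n m → m ∉ B i := by
  have key : ∀ q : ι × AlgInt × ℕ × ℕ, ∀ᵐ α : ℝ, 1 < α → ∀ᶠ n : ℕ in atTop, ∀ m : ℕ,
      |(m : ℝ) - fac q.2.1.1.1 q.2.1.2 n * α ^ n| ≤ (q.2.2.1 : ℝ) * (n : ℝ) ^ (q.2.2.2 : ℝ) → m ∉ B q.1 := by
    rintro ⟨i, ⟨⟨c, hc, hca⟩, j⟩, d, k⟩
    obtain ⟨C, hC⟩ := h i (k + 2)
    exact ae_none (B i) C ((k + 2 : ℕ) : ℝ) hC (fac c j) (fac_pos hc j) (root_tendsto c hc j) d k (Nat.cast_nonneg d)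
      (Nat.cast_nonneg _) (by push_cast; linarith)
  filter_upwards [ae_all_iff.2 key] with α hα h1 i c hc hca j D κ
  obtain ⟨d, hd⟩ := exists_nat_ge D
  obtain ⟨k, hk⟩ := exists_nat_ge κ
  filter_upwards [hα (i, (⟨c, hc, hca⟩, j), d, k) h1, eventually_ge_atTop 1] with n h2 h3 m hm
  refine h2 m ?_
  rw [fac_eq c j h3]
  unfold ClosePow at hm
  refine hm.trans ?_
  have hn1 : (1 : ℝ) ≤ n := by exact_mod_cast h3
  have h4 : (n : ℝ) ^ κ ≤ (n : ℝ) ^ (k : ℝ) := Real.rpow_le_rpow_of_exponent_le hn1 hk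
  exact mul_le_mul hd h4 (by positivity) (Nat.cast_nonneg d)

/-- **Few hits.** If the sets `B i` have at most `C T / (log T) ^ δ` elements up to `T`, then for almost all `α > 1` the number
of the `n ≤ N` with an element of `B i` within `D n ^ κ` of `c n ^ j α ^ n` is at most `N ^ (max 0 (1 + κ - δ) + ε)`. -/
theorem pow_ae_few {ι : Type} [Countable ι] (B : ι → Set ℕ) (δ : ι → ℝ) (hδ : ∀ i, 0 ≤ δ i)
    (h : ∀ i : ι, ∃ C : ℝ, ∀ T : ℝ, 2 ≤ T → (({m | m ∈ B i ∧ (m : ℝ) ≤ T}).ncard : ℝ) ≤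
      C * T * (Real.log T) ^ (-(δ i))) :
    ∀ᵐ α : ℝ, 1 < α → ∀ (i : ι) (c : ℝ), 0 < c → IsAlgebraic ℚ c → ∀ (j : ℤ) (D κ ε : ℝ), 0 < ε → ∀ᶠ N : ℕ in atTop,
      (closeCount (B i) α c j D κ N : ℝ) ≤ (N : ℝ) ^ (max 0 (1 + κ - δ i) + ε) := by
  classical
  have key : ∀ q : ι × AlgInt × ℕ × ℚ × ℕ, ∀ᵐ α : ℝ, 1 < α → ∀ᶠ N : ℕ in atTop,
      (hits (B q.1) (fac q.2.1.1.1 q.2.1.2) q.2.2.1 q.2.2.2.1 α N : ℝ) ≤
        (N : ℝ) ^ (max 0 (1 + (q.2.2.2.1 : ℝ) - δ q.1) + 1 / ((q.2.2.2.2 : ℝ) + 1)) := by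
    rintro ⟨i, ⟨⟨c, hc, hca⟩, j⟩, d, κ, e⟩
    obtain ⟨C, hC⟩ := h i
    refine ae_few (B i) C (δ i) hC (fac c j) (fac_pos hc j) (root_tendsto c hc j) d κ (Nat.cast_nonneg d) (hδ i) _
      (le_max_left _ _) ?_ _ (by positivity)
    have := le_max_right 0 (1 + (κ : ℝ) - δ i)
    linarith
  filter_upwards [ae_all_iff.2 key] with α hα h1 i c hc hca j D κ ε hε
  obtain ⟨d, hd⟩ := exists_nat_ge D
  obtain ⟨κ', hk1, hk2⟩ := exists_rat_btwn (show κ < κ + ε / 2 by linarith)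
  obtain ⟨e, he⟩ := exists_nat_one_div_lt (show (0 : ℝ) < ε / 2 by positivity)
  filter_upwards [hα (i, (⟨c, hc, hca⟩, j), d, κ', e) h1, eventually_ge_atTop 1] with N h2 h3
  have hN1 : (1 : ℝ) ≤ N := by exact_mod_cast h3
  have h4 : closeCount (B i) α c j D κ N ≤ hits (B i) (fac c j) d κ' α N := by
    unfold closeCount hits
    refine Finset.card_le_card fun n hn => ?_
    rw [Finset.mem_filter, Finset.mem_Icc] at hn ⊢
    obtain ⟨hn1, m, hm, h5⟩ := hn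
    refine ⟨hn1, m, hm, ?_⟩
    rw [fac_eq c j hn1.1]
    unfold ClosePow at h5
    refine h5.trans ?_
    have hn1r : (1 : ℝ) ≤ n := by exact_mod_cast hn1.1
    have h4 : (n : ℝ) ^ κ ≤ (n : ℝ) ^ (κ' : ℝ) := Real.rpow_le_rpow_of_exponent_le hn1r hk1.le
    exact mul_le_mul hd h4 (by positivity) (Nat.cast_nonneg d)
  have h5 : (closeCount (B i) α c j D κ N : ℝ) ≤ hits (B i) (fac c j) d κ' α N := by exact_mod_cast h4
  refine (h5.trans h2).trans (Real.rpow_le_rpow_of_exponent_le hN1 ?_)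
  have h6 : max 0 (1 + (κ' : ℝ) - δ i) ≤ max 0 (1 + κ - δ i) + ε / 2 := by
    refine max_le (by have := le_max_left 0 (1 + κ - δ i); linarith) ?_
    have := le_max_right 0 (1 + κ - δ i)
    linarith
  linarith

end Pool.Agent.Q138.PS
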