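import Pool.Agent.Q138.PS.XD

/-!
The number of the elements of a union over a set of parameters.
-/

set_option autoImplicit false

namespace Pool.Agent.Q138.PS

open Filter Topology Finset

/-- If the elements of `B` between `T / 2` and `T` lie in a union of `T ^ (a + ε)` sets with at most `T ^ (b + ε)` elements, then
`B` has at most `C T ^ (a + b + ε)` elements up to `T`. -/
theorem count_param (B : Set ℕ) (a b : ℝ) (hab : 0 ≤ a + b)
    (h : ∀ ε : ℝ, 0 < ε → ∃ C : ℝ, ∀ᶠ T : ℕ in atTop, ∃ (ι : Type) (I : Finset ι) (G : ι → Finset ℕ),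
      (I.card : ℝ) ≤ C * (T : ℝ) ^ (a + ε) ∧ (∀ i ∈ I, ((G i).card : ℝ) ≤ C * (T : ℝ) ^ (b + ε)) ∧
      ∀ m ∈ B, m ≤ T → T ≤ 2 * m → ∃ i ∈ I, m ∈ G i) :
    ∀ ε : ℝ, 0 < ε → ∃ C : ℝ, ∀ T : ℝ, 1 ≤ T → (({m | m ∈ B ∧ (m : ℝ) ≤ T}).ncard : ℝ) ≤ C * T ^ (a + b + ε) := by
  classical
  refine count_halves_large B (a + b) hab fun ε hε => ?_
  obtain ⟨C, hC⟩ := h (ε / 2) (by positivity)
  refine ⟨|C| * |C|, ?_⟩
  filter_upwards [hC, eventually_ge_atTop 1] with T hT hT1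
  obtain ⟨ι, I, G, h1, h2, h3⟩ := hT
  have hT0 : (0 : ℝ) < T := by exact_mod_cast hT1
  have h4 : {m | m ∈ B ∧ m ≤ T ∧ T ≤ 2 * m} ⊆ ((I.biUnion G : Finset ℕ) : Set ℕ) := by
    rintro m ⟨h5, h6, h7⟩
    obtain ⟨i, hi, hm⟩ := h3 m h5 h6 h7
    exact mem_coe.2 (mem_biUnion.2 ⟨i, hi, hm⟩)
  have h5 : (({m | m ∈ B ∧ m ≤ T ∧ T ≤ 2 * m}).ncard : ℝ) ≤ (I.biUnion G).card := by
    have := Set.ncard_le_ncard h4 (finite_toSet _)
    rw [Set.ncard_coe_finset] at this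
    exact_mod_cast this
  have h6 : ((I.biUnion G).card : ℝ) ≤ ∑ i ∈ I, ((G i).card : ℝ) := by exact_mod_cast card_biUnion_le
  have h7 : ∑ i ∈ I, ((G i).card : ℝ) ≤ I.card * (|C| * (T : ℝ) ^ (b + ε / 2)) := by
    rw [← nsmul_eq_mul]
    refine sum_le_card_nsmul I _ _ fun i hi => (h2 i hi).trans ?_
    exact mul_le_mul_of_nonneg_right (le_abs_self C) (by positivity)
  have h8 : (I.card : ℝ) ≤ |C| * (T : ℝ) ^ (a + ε / 2) :=
    h1.trans (mul_le_mul_of_nonneg_right (le_abs_self C) (by positivity))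
  have h9 : (T : ℝ) ^ (a + ε / 2) * (T : ℝ) ^ (b + ε / 2) = (T : ℝ) ^ (a + b + ε) := by
    rw [← Real.rpow_add hT0]
    congr 1
    ring
  calc (({m | m ∈ B ∧ m ≤ T ∧ T ≤ 2 * m}).ncard : ℝ) ≤ I.card * (|C| * (T : ℝ) ^ (b + ε / 2)) := h5.trans (h6.trans h7)
    _ ≤ |C| * (T : ℝ) ^ (a + ε / 2) * (|C| * (T : ℝ) ^ (b + ε / 2)) := mul_le_mul_of_nonneg_right h8 (by positivity)
    _ = |C| * |C| * ((T : ℝ) ^ (a + ε / 2) * (T : ℝ) ^ (b + ε / 2)) := by ring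
    _ = |C| * |C| * (T : ℝ) ^ (a + b + ε) := by rw [h9]

/-- the scales below `X ^ A` are few -/
theorem scales_few {t : ℝ} (ht : 0 < t) (A ε : ℝ) (hA : 0 ≤ A) (hε : 0 < ε) : ∀ᶠ T : ℕ in atTop,
    (A * Real.log T + Real.log (1 + t)) / Real.log (1 + t) + 1 ≤ (T : ℝ) ^ ε := by
  have hl0 : 0 < Real.log (1 + t) := Real.log_pos (by linarith)
  have hr : Tendsto (fun N : ℕ => (N : ℝ) ^ ε) atTop atTop := (tendsto_rpow_atTop hε).comp tendsto_natCast_atTop_atTop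
  have hl : Tendsto (fun N : ℕ => Real.log N / (N : ℝ) ^ ε) atTop (𝓝 0) :=
    ((isLittleO_log_rpow_atTop hε).tendsto_div_nhds_zero).comp tendsto_natCast_atTop_atTop
  filter_upwards [hl.eventually_lt_const (show (0 : ℝ) < Real.log (1 + t) / (2 * (A + 1)) by positivity),
    hr.eventually_ge_atTop 4] with N hN h4
  have h0 : (0 : ℝ) < (N : ℝ) ^ ε := by linarith
  rw [div_lt_iff₀ h0] at hN
  have h5 : A * Real.log N ≤ Real.log (1 + t) * ((N : ℝ) ^ ε / 2) := by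
    have h6 : A * Real.log N ≤ A * (Real.log (1 + t) / (2 * (A + 1)) * (N : ℝ) ^ ε) := mul_le_mul_of_nonneg_left hN.le hA
    have h7 : A * (Real.log (1 + t) / (2 * (A + 1)) * (N : ℝ) ^ ε) =
        A / (A + 1) * (Real.log (1 + t) * ((N : ℝ) ^ ε / 2)) := by
      field_simp
    rw [h7] at h6
    have h8 : A / (A + 1) ≤ 1 := by
      rw [div_le_one (by linarith)]
      linarith
    have h9 : 0 ≤ Real.log (1 + t) * ((N : ℝ) ^ ε / 2) := by positivity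
    nlinarith
  have h6 : (A * Real.log N + Real.log (1 + t)) / Real.log (1 + t) ≤ (N : ℝ) ^ ε / 2 + 1 := by
    rw [div_le_iff₀ hl0]
    nlinarith
  linarith

end Pool.Agent.Q138.PS
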