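import Pool.Agent.Q138.PS.XG
import Pool.Agent.Q138.PS.XH

/-!
Powers of real numbers: the integers of both signs.
-/

set_option autoImplicit false

namespace Pool.Agent.Q138.PS

open Filter Topology MeasureTheory Set

/-- `Z` holds for all the integers `k ≠ 0` with `| |k| - c n ^ j α ^ n| ≤ D n ^ κ`, `n` large, for all algebraic numbers `c > 0`,
all integers `j` and all real `D`, `κ` -/
def NearAll (α : ℝ) (Z : ℤ → Prop) : Prop :=
  ∀ c : ℝ, 0 < c → IsAlgebraic ℚ c → ∀ (j : ℤ) (D κ : ℝ), ∀ᶠ n : ℕ in atTop, ∀ k : ℤ, k ≠ 0 →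
    |(|(k : ℝ)| : ℝ) - c * (n : ℝ) ^ j * α ^ n| ≤ D * (n : ℝ) ^ κ → Z k

open Classical in
/-- the number of the `1 ≤ n ≤ N` such that `Z` fails for some integer `k ≠ 0` with `| |k| - c n ^ j α ^ n| ≤ D n ^ κ` -/
noncomputable def exceptCount (Z : ℤ → Prop) (α c : ℝ) (j : ℤ) (D κ : ℝ) (N : ℕ) : ℕ :=
  ((Finset.Icc 1 N).filter fun n : ℕ => ∃ k : ℤ, k ≠ 0 ∧ |(|(k : ℝ)| : ℝ) - c * (n : ℝ) ^ j * α ^ n| ≤ D * (n : ℝ) ^ κ ∧
    ¬ Z k).card

/-- for all algebraic `c > 0`, all `j`, `D`, `κ` and `ε > 0` at most `N ^ (max 0 (1 + κ - δ) + ε)` of the `n ≤ N` are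
exceptional -/
def NearFew (α δ : ℝ) (Z : ℤ → Prop) : Prop :=
  ∀ c : ℝ, 0 < c → IsAlgebraic ℚ c → ∀ (j : ℤ) (D κ ε : ℝ), 0 < ε → ∀ᶠ N : ℕ in atTop,
    (exceptCount Z α c j D κ N : ℝ) ≤ (N : ℝ) ^ (max 0 (1 + κ - δ) + ε)

/-- the elements `m ≥ 1` with `s m` in the set -/
def signed (b : ℤ → Prop) (s : Bool) : Set ℕ := {m | 1 ≤ m ∧ b (if s then (m : ℤ) else -(m : ℤ))}

theorem signed_count (b : ℤ → Prop) (s : Bool) (Y : ℕ) :
    ({m | m ∈ signed b s ∧ m ≤ Y}).ncard ≤ {d : ℤ | d.natAbs ≤ Y ∧ b d}.ncard := by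
  have hfin : {d : ℤ | d.natAbs ≤ Y ∧ b d}.Finite := by
    refine (Set.finite_Icc (-(Y : ℤ)) Y).subset ?_
    rintro d ⟨h1, -⟩
    rw [Set.mem_Icc]
    omega
  refine Set.ncard_le_ncard_of_injOn (fun m : ℕ => if s then (m : ℤ) else -(m : ℤ)) ?_ ?_ hfin
  · rintro m ⟨⟨h1, h2⟩, h3⟩
    refine ⟨?_, h2⟩
    show (if s then (m : ℤ) else -(m : ℤ)).natAbs ≤ Y
    cases s <;> simp <;> exact h3
  · intro m _ m' _ h
    cases s <;> simpa using h

theorem signed_log {b : ℤ → Prop} {s : Bool} {C δ : ℝ}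
    (h : ∀ Y : ℕ, 3 ≤ Y → ({d : ℤ | d.natAbs ≤ Y ∧ b d}.ncard : ℝ) ≤ C * Y * (Real.log Y) ^ (-δ)) (hδ : 0 ≤ δ) :
    ∃ C' : ℝ, ∀ T : ℝ, 2 ≤ T → (({m | m ∈ signed b s ∧ (m : ℝ) ≤ T}).ncard : ℝ) ≤ C' * T * (Real.log T) ^ (-δ) := by
  refine ⟨|C| * 2 ^ δ + 3 * Real.log 3 ^ δ, fun T hT => ?_⟩
  have hT0 : 0 < T := by linarith
  have hlT : 0 < Real.log T := Real.log_pos (by linarith)
  have hset : {m | m ∈ signed b s ∧ (m : ℝ) ≤ T} = {m | m ∈ signed b s ∧ m ≤ ⌊T⌋₊} := by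
    ext m
    simp only [Set.mem_ofPred_eq, Nat.le_floor_iff hT0.le]
  rw [hset]
  have hfl : (⌊T⌋₊ : ℝ) ≤ T := Nat.floor_le hT0.le
  have hl3 : 0 < Real.log 3 := Real.log_pos (by norm_num)
  rcases le_or_gt 3 T with h3 | h3
  · have hY : 3 ≤ ⌊T⌋₊ := Nat.le_floor (by exact_mod_cast h3)
    have h1 := h ⌊T⌋₊ hY
    have h2 : (({m | m ∈ signed b s ∧ m ≤ ⌊T⌋₊}).ncard : ℝ) ≤ ({d : ℤ | d.natAbs ≤ ⌊T⌋₊ ∧ b d}.ncard : ℝ) := by
      exact_mod_cast signed_count b s ⌊T⌋₊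
    refine h2.trans (h1.trans ?_)
    have hYr : (3 : ℝ) ≤ ⌊T⌋₊ := by exact_mod_cast hY
    have hlY : 0 < Real.log ⌊T⌋₊ := Real.log_pos (by linarith)
    have h4 : Real.log T / 2 ≤ Real.log ⌊T⌋₊ := by
      have h5 : T ≤ (⌊T⌋₊ : ℝ) ^ 2 := by
        have := Nat.lt_floor_add_one T
        nlinarith
      have h6 := Real.log_le_log hT0 h5
      rw [Real.log_pow] at h6
      push_cast at h6
      linarith
    have h5 : (Real.log ⌊T⌋₊) ^ (-δ) ≤ 2 ^ δ * (Real.log T) ^ (-δ) := by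
      calc (Real.log ⌊T⌋₊) ^ (-δ) ≤ (Real.log T / 2) ^ (-δ) :=
            Real.rpow_le_rpow_of_nonpos (by positivity) h4 (by linarith)
        _ = 2 ^ δ * (Real.log T) ^ (-δ) := by
            rw [Real.div_rpow hlT.le (by norm_num), Real.rpow_neg (by norm_num : (0 : ℝ) ≤ 2), div_inv_eq_mul, mul_comm]
    have h6 : (0 : ℝ) ≤ (Real.log ⌊T⌋₊) ^ (-δ) := by positivity
    have h7 : (0 : ℝ) ≤ (Real.log T) ^ (-δ) := by positivity
    calc C * ⌊T⌋₊ * (Real.log ⌊T⌋₊) ^ (-δ) ≤ |C| * T * (2 ^ δ * (Real.log T) ^ (-δ)) := by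
          gcongr
          exact le_abs_self C
      _ = |C| * 2 ^ δ * T * (Real.log T) ^ (-δ) := by ring
      _ ≤ (|C| * 2 ^ δ + 3 * Real.log 3 ^ δ) * T * (Real.log T) ^ (-δ) := by
          have : 0 ≤ 3 * Real.log 3 ^ δ * T * (Real.log T) ^ (-δ) := by positivity
          nlinarith
  · have h1 : ({m | m ∈ signed b s ∧ m ≤ ⌊T⌋₊}).ncard ≤ ⌊T⌋₊ + 1 := by
      have h2 : {m | m ∈ signed b s ∧ m ≤ ⌊T⌋₊} ⊆ ((Finset.range (⌊T⌋₊ + 1) : Finset ℕ) : Set ℕ) := by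
        rintro m ⟨-, h3⟩
        exact Finset.mem_coe.2 (Finset.mem_range.2 (by omega))
      have := Set.ncard_le_ncard h2 (Finset.finite_toSet _)
      rwa [Set.ncard_coe_finset, Finset.card_range] at this
    have h2 : (({m | m ∈ signed b s ∧ m ≤ ⌊T⌋₊}).ncard : ℝ) ≤ ⌊T⌋₊ + 1 := by exact_mod_cast h1
    have h4 : (Real.log 3) ^ (-δ) ≤ (Real.log T) ^ (-δ) :=
      Real.rpow_le_rpow_of_nonpos hlT (Real.log_le_log hT0 h3.le) (by linarith)
    have h5 : Real.log 3 ^ δ * (Real.log 3) ^ (-δ) = 1 := by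
      rw [← Real.rpow_add hl3]
      simp
    have h6 : 1 ≤ Real.log 3 ^ δ * (Real.log T) ^ (-δ) := by
      rw [← h5]
      gcongr
    have h7 : (0 : ℝ) ≤ (Real.log T) ^ (-δ) := by positivity
    calc (({m | m ∈ signed b s ∧ m ≤ ⌊T⌋₊}).ncard : ℝ) ≤ 3 * T * 1 := by linarith
      _ ≤ 3 * T * (Real.log 3 ^ δ * (Real.log T) ^ (-δ)) := by gcongr
      _ = 3 * Real.log 3 ^ δ * T * (Real.log T) ^ (-δ) := by ring
      _ ≤ (|C| * 2 ^ δ + 3 * Real.log 3 ^ δ) * T * (Real.log T) ^ (-δ) := by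
          have : 0 ≤ |C| * 2 ^ δ * T * (Real.log T) ^ (-δ) := by positivity
          nlinarith

theorem natAbs_cases {k : ℤ} (hk : k ≠ 0) : ∃ s : Bool, (if s then (k.natAbs : ℤ) else -(k.natAbs : ℤ)) = k ∧ 1 ≤ k.natAbs := by
  rcases lt_or_gt_of_ne hk with h | h
  · exact ⟨false, by rw [if_neg (by simp)]; omega, by omega⟩
  · exact ⟨true, by rw [if_pos rfl]; omega, by omega⟩

/-- **No hits, integers of both signs.** -/
theorem pow_ae_int {ι : Type} [Countable ι] (b : ι → ℤ → Prop)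
    (h : ∀ (i : ι) (U : ℕ), ∃ C : ℝ, ∀ Y : ℕ, 3 ≤ Y → ({d : ℤ | d.natAbs ≤ Y ∧ b i d}.ncard : ℝ) ≤
      C * Y * (Real.log Y) ^ (-(U : ℝ))) :
    ∀ᵐ α : ℝ, 1 < α → ∀ i : ι, NearAll α (fun k => ¬ b i k) := by
  have h1 := pow_ae_none (ι := ι × Bool) (fun i => signed (b i.1) i.2) (fun i U => by
    obtain ⟨C, hC⟩ := h i.1 U
    exact signed_log hC (Nat.cast_nonneg U))
  filter_upwards [h1] with α h2 h3 i c hc hca j D κ
  filter_upwards [h2 h3 (i, true) c hc hca j D κ, h2 h3 (i, false) c hc hca j D κ] with n g1 g2 k hk hkn hb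
  obtain ⟨s, hs, hk1⟩ := natAbs_cases hk
  have h4 : ((k.natAbs : ℕ) : ℝ) = |(k : ℝ)| := by
    rw [Nat.cast_natAbs, Int.cast_abs]
  have h5 : ClosePow α c j D κ n k.natAbs := by
    unfold ClosePow
    rw [h4]
    exact hkn
  cases s with
  | true => exact g1 _ h5 ⟨hk1, by rw [hs]; exact hb⟩
  | false => exact g2 _ h5 ⟨hk1, by rw [hs]; exact hb⟩

/-- **Few hits, integers of both signs.** -/
theorem pow_ae_int_few {ι : Type} [Countable ι] (b : ι → ℤ → Prop) (δ : ι → ℝ) (hδ : ∀ i, 0 ≤ δ i)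
    (h : ∀ i : ι, ∃ C : ℝ, ∀ Y : ℕ, 3 ≤ Y → ({d : ℤ | d.natAbs ≤ Y ∧ b i d}.ncard : ℝ) ≤ C * Y * (Real.log Y) ^ (-(δ i))) :
    ∀ᵐ α : ℝ, 1 < α → ∀ i : ι, NearFew α (δ i) (fun k => ¬ b i k) := by
  classical
  have h1 := pow_ae_few (ι := ι × Bool) (fun i => signed (b i.1) i.2) (fun i => δ i.1) (fun i => hδ i.1) (fun i => by
    obtain ⟨C, hC⟩ := h i.1
    exact signed_log hC (hδ i.1))
  filter_upwards [h1] with α h2 h3 i c hc hca j D κ ε hε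
  have hr : Tendsto (fun N : ℕ => (N : ℝ) ^ (ε / 2)) atTop atTop :=
    (tendsto_rpow_atTop (by positivity)).comp tendsto_natCast_atTop_atTop
  filter_upwards [h2 h3 (i, true) c hc hca j D κ (ε / 2) (by positivity),
    h2 h3 (i, false) c hc hca j D κ (ε / 2) (by positivity), hr.eventually_ge_atTop 2, eventually_ge_atTop 1] with N g1 g2 g3 g4
  have hN0 : (0 : ℝ) < N := by exact_mod_cast g4
  have hsub : exceptCount (fun k => ¬ b i k) α c j D κ N ≤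
      closeCount (signed (b i) true) α c j D κ N + closeCount (signed (b i) false) α c j D κ N := by
    unfold exceptCount closeCount
    refine (Finset.card_le_card ?_).trans (Finset.card_union_le _ _)
    intro n hn
    rw [Finset.mem_filter] at hn
    obtain ⟨hn1, k, hk, hkn, hb⟩ := hn
    obtain ⟨s, hs, hk1⟩ := natAbs_cases hk
    have h4 : ((k.natAbs : ℕ) : ℝ) = |(k : ℝ)| := by
      rw [Nat.cast_natAbs, Int.cast_abs]
    have h5 : ClosePow α c j D κ n k.natAbs := by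
      unfold ClosePow
      rw [h4]
      exact hkn
    rw [Finset.mem_union, Finset.mem_filter, Finset.mem_filter]
    cases s with
    | true => exact Or.inl ⟨hn1, k.natAbs, ⟨hk1, by rw [hs]; exact not_not.1 hb⟩, h5⟩
    | false => exact Or.inr ⟨hn1, k.natAbs, ⟨hk1, by rw [hs]; exact not_not.1 hb⟩, h5⟩
  have hsubr : (exceptCount (fun k => ¬ b i k) α c j D κ N : ℝ) ≤
      closeCount (signed (b i) true) α c j D κ N + closeCount (signed (b i) false) α c j D κ N := by exact_mod_cast hsub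
  refine hsubr.trans ?_
  have e1 : (N : ℝ) ^ (max 0 (1 + κ - δ i) + ε) = (N : ℝ) ^ (max 0 (1 + κ - δ i) + ε / 2) * (N : ℝ) ^ (ε / 2) := by
    rw [← Real.rpow_add hN0]
    congr 1
    ring
  rw [e1]
  have e2 : (0 : ℝ) < (N : ℝ) ^ (max 0 (1 + κ - δ i) + ε / 2) := by positivity
  nlinarith

end Pool.Agent.Q138.PS
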