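import Pool.Agent.Q138.PS.XI
import Pool.Agent.Q138.PS.UN

/-!
Powers of real numbers: the sets of the sieve engine, and sets with counts `C Y / (log Y) ^ U`.
-/

set_option autoImplicit false

namespace Pool.Agent.Q138.PS

open Filter Topology MeasureTheory Pool.Agent.Q259.AS

/-- from the count up to a natural number to the count up to a real number -/
theorem cn_real {X : ℕ → Prop} {C δ : ℝ} (hδ : 0 ≤ δ)
    (h : ∀ Y : ℕ, 3 ≤ Y → cn X Y ≤ C * Y * (Real.log Y) ^ (-δ)) :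
    ∃ C' : ℝ, ∀ T : ℝ, 2 ≤ T → (({m | m ∈ {m | 1 ≤ m ∧ X m} ∧ (m : ℝ) ≤ T}).ncard : ℝ) ≤ C' * T * (Real.log T) ^ (-δ) := by
  classical
  have h2 := signed_log (b := fun d : ℤ => 1 ≤ d ∧ X d.toNat) (s := true) (C := C) (δ := δ) (fun Y hY => ?_) hδ
  · obtain ⟨C', hC'⟩ := h2
    refine ⟨C', fun T hT => le_trans (le_of_eq ?_) (hC' T hT)⟩
    congr 2
    ext m
    simp only [Set.mem_ofPred_eq, signed, if_true, Int.toNat_natCast]
    constructor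
    · rintro ⟨⟨g1, g2⟩, g3⟩
      exact ⟨⟨g1, by exact_mod_cast g1, g2⟩, g3⟩
    · rintro ⟨⟨g1, -, g2⟩, g3⟩
      exact ⟨⟨g1, g2⟩, g3⟩
  · refine le_trans ?_ (h Y hY)
    unfold cn
    have h3 : {d : ℤ | d.natAbs ≤ Y ∧ (1 ≤ d ∧ X d.toNat)} ⊆
        ((((Finset.Icc 1 Y).filter X).image fun m : ℕ => (m : ℤ) : Finset ℤ) : Set ℤ) := by
      rintro d ⟨g1, g2, g3⟩
      rw [Finset.mem_coe, Finset.mem_image]
      refine ⟨d.toNat, ?_, by omega⟩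
      rw [Finset.mem_filter, Finset.mem_Icc]
      exact ⟨⟨by omega, by omega⟩, g3⟩
    have h4 := Set.ncard_le_ncard h3 (Finset.finite_toSet _)
    rw [Set.ncard_coe_finset] at h4
    have h5 := h4.trans Finset.card_image_le
    have h6 : (({d : ℤ | d.natAbs ≤ Y ∧ (1 ≤ d ∧ X d.toNat)}.ncard : ℕ) : ℝ) ≤ ((((Finset.Icc 1 Y).filter X).card : ℕ) : ℝ) := by
      exact_mod_cast h5
    refine h6.trans (le_of_eq ?_)
    congr 2

/-- the sets of the engine -/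
theorem eng_log {B : Set ℤ} {sz : ℕ → ℕ} (κ : ℕ) (hsz : ∀ X, X ≤ sz X ∧ sz X ≤ κ * X) (hE : Eng1 ℕ sz (fun _ => B)) (U : ℕ) :
    ∃ C : ℝ, ∀ T : ℝ, 2 ≤ T → (({m | m ∈ {m : ℕ | 1 ≤ m ∧ (m : ℤ) ∈ B} ∧ (m : ℝ) ≤ T}).ncard : ℝ) ≤
      C * T * (Real.log T) ^ (-(U : ℝ)) := by
  classical
  obtain ⟨C, hC0, hC⟩ := near_count κ hsz hE 0 U
  refine cn_real (X := fun m : ℕ => (m : ℤ) ∈ B) (Nat.cast_nonneg U) (C := C) fun Y hY => le_trans ?_ (hC Y hY)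
  unfold cn
  refine Nat.cast_le.2 (Finset.card_le_card fun m hm => ?_)
  rw [Finset.mem_filter] at hm ⊢
  exact ⟨hm.1, m, hm.2, by simp⟩

end Pool.Agent.Q138.PS
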