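import Pool.Agent.Q138.PS.XJ

/-!
Powers of almost all real numbers: sets with a power saving whose exponent is not specified.
-/

set_option autoImplicit false

namespace Pool.Agent.Q138.PS

open Filter Topology MeasureTheory

theorem null_of_dim {E : Set ℝ} {d : ℝ} (hd : d < 1) (h : dimH E ≤ ENNReal.ofReal d) : volume E = 0 := by
  have h1 : dimH E < ((1 : NNReal) : ENNReal) :=
    lt_of_le_of_lt h (by
      rw [ENNReal.coe_one, ← ENNReal.ofReal_one]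
      exact (ENNReal.ofReal_lt_ofReal_iff one_pos).2 hd)
  have h2 := hausdorffMeasure_of_dimH_lt h1
  rw [NNReal.coe_one, hausdorffMeasure_real] at h2
  exact h2

/-- **Power savings with unspecified exponents.** -/
theorem pow_ae_small {ι : Type} [Countable ι] (B : ι → Set ℕ)
    (h : ∀ i, ∃ δ C : ℝ, 0 < δ ∧ ∀ T : ℝ, 1 ≤ T → (({m | m ∈ B i ∧ (m : ℝ) ≤ T}).ncard : ℝ) ≤ C * T ^ (1 - δ)) :
    ∀ᵐ α : ℝ, 1 < α → ∀ i : ι, ∃ κ : ℝ, 0 < κ ∧ ∀ c : ℝ, 0 < c → IsAlgebraic ℚ c → ∀ (j : ℤ) (D : ℝ), ∀ᶠ n : ℕ in atTop,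
      ∀ m : ℕ, NearPow α c j D κ n m → m ∉ B i := by
  rw [show (∀ᵐ α : ℝ, 1 < α → ∀ i : ι, ∃ κ : ℝ, 0 < κ ∧ ∀ c : ℝ, 0 < c → IsAlgebraic ℚ c → ∀ (j : ℤ) (D : ℝ),
      ∀ᶠ n : ℕ in atTop, ∀ m : ℕ, NearPow α c j D κ n m → m ∉ B i) ↔
      ∀ᵐ α : ℝ, ∀ i : ι, 1 < α → ∃ κ : ℝ, 0 < κ ∧ ∀ c : ℝ, 0 < c → IsAlgebraic ℚ c → ∀ (j : ℤ) (D : ℝ),
      ∀ᶠ n : ℕ in atTop, ∀ m : ℕ, NearPow α c j D κ n m → m ∉ B i from
      ⟨fun h => h.mono fun α hα i h1 => hα h1 i, fun h => h.mono fun α hα h1 i => hα i h1⟩]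
  refine ae_all_iff.2 fun i => ?_
  obtain ⟨δ, C, hδ, hC⟩ := h i
  set d : ℝ := min δ 1 with hd
  have hd0 : 0 < d := lt_min hδ one_pos
  have hd1 : d ≤ 1 := min_le_right _ _
  obtain ⟨E, hE, hg⟩ := pow_alg_one (B i) (1 - d) (d / 2) (by linarith) (by linarith) (fun ε hε => by
    refine ⟨|C|, fun T hT => (hC T hT).trans ?_⟩
    have h1 : T ^ (1 - δ) ≤ T ^ (1 - d + ε) :=
      Real.rpow_le_rpow_of_exponent_le hT (by have := min_le_left δ 1; linarith)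
    have h2 : (0 : ℝ) ≤ T ^ (1 - δ) := by positivity
    calc C * T ^ (1 - δ) ≤ |C| * T ^ (1 - δ) := mul_le_mul_of_nonneg_right (le_abs_self C) h2
      _ ≤ |C| * T ^ (1 - d + ε) := mul_le_mul_of_nonneg_left h1 (abs_nonneg C))
  have hnull : volume E = 0 := null_of_dim (by
    rw [div_lt_one (by linarith)]
    linarith) hE
  have hae : ∀ᵐ α : ℝ, α ∉ E := measure_eq_zero_iff_ae_notMem.1 hnull
  filter_upwards [hae] with α hα h1
  exact ⟨d / 2, by positivity, hg α h1 hα⟩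

end Pool.Agent.Q138.PS
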