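import Pool.Agent.Q138.PS.XK
import Pool.Agent.Q138.PS.VW

/-!
Rare properties of integers along the powers of a real number.
-/

set_option autoImplicit false

namespace Pool.Agent.Q138.PS

open Filter Topology MeasureTheory

/-- There is `κ > 0` such that for all algebraic numbers `c > 0`, all integers `j`, all real `D` and all large `n` no integer
`t ≥ b` with `|t - c n ^ j α ^ n| ≤ D (c n ^ j α ^ n) ^ κ` has the property `A`. -/
def RarePow (α : ℝ) (b : ℕ) (A : ℕ → Prop) : Prop :=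
  ∃ κ : ℝ, 0 < κ ∧ ∀ c : ℝ, 0 < c → IsAlgebraic ℚ c → ∀ (j : ℤ) (D : ℝ), ∀ᶠ n : ℕ in atTop, ∀ t : ℕ, b ≤ t →
    NearPow α c j D κ n t → ¬ A t

theorem RarePow.mono {α : ℝ} {b b' : ℕ} {A A' : ℕ → Prop} (h : RarePow α b A) (hb : b ≤ b')
    (hA : ∀ t, b' ≤ t → A' t → A t) : RarePow α b' A' := by
  obtain ⟨κ, hκ, h⟩ := h
  refine ⟨κ, hκ, fun c hc hca j D => ?_⟩
  filter_upwards [h c hc hca j D] with n hn t ht h1 h2
  exact hn t (hb.trans ht) h1 (hA t ht h2)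

theorem grow {α c : ℝ} (hα : 1 < α) (hc : 0 < c) (j : ℤ) : Tendsto (fun n : ℕ => c * (n : ℝ) ^ j * α ^ n) atTop atTop := by
  have h1 : Tendsto (fun n : ℕ => (n : ℝ) ^ (-j) * (1 / α) ^ n) atTop (𝓝 0) := by
    rcases le_or_gt 0 (-j) with h | h
    · obtain ⟨k, hk⟩ := Int.eq_ofNat_of_zero_le h
      have := tendsto_pow_const_mul_const_pow_of_abs_lt_one k (r := 1 / α) (by
        rw [abs_of_pos (by positivity), div_lt_one (by linarith)]
        exact hα)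
      refine this.congr fun n => ?_
      rw [hk, zpow_natCast]
    · have h2 : Tendsto (fun n : ℕ => (1 / α) ^ n) atTop (𝓝 0) :=
        tendsto_pow_atTop_nhds_zero_of_lt_one (by positivity) (by rw [div_lt_one (by linarith)]; exact hα)
      refine squeeze_zero' (Eventually.of_forall fun n => by positivity) ?_ h2
      filter_upwards [eventually_ge_atTop 1] with n hn
      have hn1 : (1 : ℝ) ≤ n := by exact_mod_cast hn
      have h3 : (n : ℝ) ^ (-j) ≤ 1 := zpow_le_one_of_nonpos₀ hn1 h.le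
      have h4 : 0 ≤ (1 / α) ^ n := by positivity
      nlinarith
  have h2 : ∀ᶠ n : ℕ in atTop, 0 < (n : ℝ) ^ (-j) * (1 / α) ^ n := by
    filter_upwards [eventually_ge_atTop 1] with n hn
    have hn0 : (0 : ℝ) < n := by exact_mod_cast hn
    positivity
  have h3 : Tendsto (fun n : ℕ => c * ((n : ℝ) ^ (-j) * (1 / α) ^ n)⁻¹) atTop atTop :=
    (tendsto_inv_nhdsGT_zero.comp (tendsto_nhdsWithin_iff.2 ⟨h1, h2⟩)).const_mul_atTop hc
  refine h3.congr fun n => ?_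
  rw [mul_inv, zpow_neg, inv_inv, one_div, inv_pow, inv_inv, mul_assoc]

theorem NearPow.mono {α c : ℝ} {j : ℤ} {D D' l l' : ℝ} {n m : ℕ} (h1 : 1 ≤ c * (n : ℝ) ^ j * α ^ n) (hl : l ≤ l')
    (hD : |D| ≤ D') (h : NearPow α c j D l n m) : NearPow α c j D' l' n m := by
  unfold NearPow at h ⊢
  refine h.trans ?_
  have h2 : (c * (n : ℝ) ^ j * α ^ n) ^ l ≤ (c * (n : ℝ) ^ j * α ^ n) ^ l' := Real.rpow_le_rpow_of_exponent_le h1 hl
  have h3 : 0 ≤ (c * (n : ℝ) ^ j * α ^ n) ^ l := by positivity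
  have h4 := abs_nonneg D
  have h5 : 0 ≤ D' := h4.trans hD
  calc D * (c * (n : ℝ) ^ j * α ^ n) ^ l ≤ |D| * (c * (n : ℝ) ^ j * α ^ n) ^ l :=
        mul_le_mul_of_nonneg_right (le_abs_self D) h3
    _ ≤ D' * (c * (n : ℝ) ^ j * α ^ n) ^ l' := by gcongr

theorem RarePow.or {α : ℝ} {b : ℕ} {A A' : ℕ → Prop} (h : RarePow α b A) (h' : RarePow α b A') (hα : 1 < α) :
    RarePow α b (fun t => A t ∨ A' t) := by
  obtain ⟨κ, hκ, h⟩ := h
  obtain ⟨κ', hκ', h'⟩ := h'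
  refine ⟨min κ κ', lt_min hκ hκ', fun c hc hca j D => ?_⟩
  filter_upwards [h c hc hca j |D|, h' c hc hca j |D|, (grow hα hc j).eventually_ge_atTop 1] with n hn hn' h1 t ht h2 h3
  rcases h3 with h3 | h3
  · exact hn t ht (h2.mono h1 (min_le_left _ _) le_rfl) h3
  · exact hn' t ht (h2.mono h1 (min_le_right _ _) le_rfl) h3

theorem RarePow.exists_not {α : ℝ} (hα : 1 < α) {b : ℕ} {A : ℕ → Prop} (h : RarePow α b A) : ∃ t, b ≤ t ∧ ¬ A t := by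
  obtain ⟨κ, hκ, h⟩ := h
  obtain ⟨n, h1, h2, h3⟩ := ((h 1 one_pos isAlgebraic_one 0 1).and (((grow hα one_pos 0).eventually_ge_atTop 1).and
    ((grow hα one_pos 0).eventually_ge_atTop (b : ℝ)))).exists
  simp only [zpow_zero, mul_one, one_mul] at h2 h3
  refine ⟨⌊α ^ n⌋₊, Nat.le_floor h3, h1 _ (Nat.le_floor h3) ?_⟩
  unfold NearPow
  simp only [zpow_zero, mul_one, one_mul]
  have h4 := Nat.floor_le (show (0 : ℝ) ≤ α ^ n by positivity)
  have h5 := Nat.lt_floor_add_one (α ^ n)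
  have h6 : (1 : ℝ) ≤ (α ^ n) ^ κ := Real.one_le_rpow h2 hκ.le
  rw [abs_le]
  constructor <;> linarith

theorem few_real {b : ℕ} {A : ℕ → Prop} (h : Few b A) : ∃ δ C : ℝ, 0 < δ ∧ ∀ T : ℝ, 1 ≤ T →
    (({m | m ∈ {t | b ≤ t ∧ A t} ∧ (m : ℝ) ≤ T}).ncard : ℝ) ≤ C * T ^ (1 - δ) := by
  obtain ⟨C, c, hc, h⟩ := h
  refine ⟨min c 1, |C|, lt_min hc one_pos, fun T hT => ?_⟩
  have hT0 : 0 < T := by linarith
  have hfl : (⌊T⌋₊ : ℝ) ≤ T := Nat.floor_le hT0.le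
  have h1 : 1 ≤ ⌊T⌋₊ := Nat.le_floor (by exact_mod_cast hT)
  have h1r : (1 : ℝ) ≤ ⌊T⌋₊ := by exact_mod_cast h1
  have h2 : {m | m ∈ {t | b ≤ t ∧ A t} ∧ (m : ℝ) ≤ T} = {n : ℕ | b ≤ n ∧ n ≤ ⌊T⌋₊ ∧ A n} := by
    ext m
    simp only [Set.mem_ofPred_eq, Nat.le_floor_iff hT0.le]
    tauto
  rw [h2]
  refine (h ⌊T⌋₊ h1).trans ?_
  have h3 : (⌊T⌋₊ : ℝ) ^ (1 - c) ≤ T ^ (1 - min c 1) := by
    calc (⌊T⌋₊ : ℝ) ^ (1 - c) ≤ (⌊T⌋₊ : ℝ) ^ (1 - min c 1) :=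
          Real.rpow_le_rpow_of_exponent_le h1r (by have := min_le_left c 1; linarith)
      _ ≤ T ^ (1 - min c 1) := Real.rpow_le_rpow (by linarith) hfl (by have := min_le_right c 1; linarith)
  calc C * (⌊T⌋₊ : ℝ) ^ (1 - c) ≤ |C| * (⌊T⌋₊ : ℝ) ^ (1 - c) := mul_le_mul_of_nonneg_right (le_abs_self C) (by positivity)
    _ ≤ |C| * T ^ (1 - min c 1) := mul_le_mul_of_nonneg_left h3 (abs_nonneg C)

/-- **Rare properties along the powers of almost all real numbers.** -/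
theorem rarePow_ae {ι : Type} [Countable ι] (A : ι → ℕ → Prop) :
    ∀ᵐ α : ℝ, 1 < α → ∀ (i : ι) (b : ℕ), Few b (A i) → RarePow α b (A i) := by
  have h0 := pow_ae_small (ι := {i : ι × ℕ // Few i.2 (A i.1)}) (fun i => {t | i.1.2 ≤ t ∧ A i.1.1 t}) fun i => few_real i.2
  filter_upwards [h0] with α h1 hα i b hi
  obtain ⟨κ, hκ, h2⟩ := h1 hα ⟨(i, b), hi⟩
  refine ⟨κ, hκ, fun c hc hca j D => ?_⟩
  filter_upwards [h2 c hc hca j D] with n hn t ht h3 h4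
  exact hn t h3 ⟨ht, h4⟩

end Pool.Agent.Q138.PS
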