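import Pool.Agent.Q138.PS.XJ

/-!
Counts `Y / (log Y) ^ U` for large `Y`.
-/

set_option autoImplicit false

namespace Pool.Agent.Q138.PS

/-- from a bound for large numbers to a bound with a factor `log ^ (-U)` -/
theorem log_form {X : ℕ → Prop} {U X₀ : ℕ} (h : ∀ Y : ℕ, X₀ ≤ Y → cn X Y ≤ Y / Real.log Y ^ U) :
    ∃ C : ℝ, ∀ Y : ℕ, 3 ≤ Y → cn X Y ≤ C * Y * (Real.log Y) ^ (-(U : ℝ)) := by
  classical
  refine ⟨1 + (Real.log (X₀ + 3)) ^ U, fun Y hY => ?_⟩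
  have hY3 : (3 : ℝ) ≤ Y := by exact_mod_cast hY
  have hlog : 0 < Real.log Y := Real.log_pos (by linarith)
  rw [Real.rpow_neg hlog.le, Real.rpow_natCast]
  have hX0 : (0 : ℝ) ≤ X₀ := Nat.cast_nonneg _
  have hL0 : 0 ≤ Real.log (X₀ + 3) := Real.log_nonneg (by linarith)
  rcases le_or_gt X₀ Y with hX | hX
  · refine (h Y hX).trans ?_
    rw [div_eq_mul_inv]
    have : (0 : ℝ) ≤ (Real.log (X₀ + 3)) ^ U * Y * (Real.log Y ^ U)⁻¹ := by positivity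
    linarith
  · have h1 : cn X Y ≤ Y := by
      have := cn_nonneg (fun m => ¬ X m) Y
      unfold cn
      refine (Nat.cast_le.2 (Finset.card_filter_le _ _)).trans ?_
      rw [Nat.card_Icc, Nat.add_sub_cancel]
    have h2 : Real.log Y ≤ Real.log (X₀ + 3) := Real.log_le_log (by linarith) (by
      have : (Y : ℝ) ≤ X₀ := by exact_mod_cast hX.le
      linarith)
    have h3 : Real.log Y ^ U ≤ Real.log (X₀ + 3) ^ U := by gcongr
    have h4 : (1 : ℝ) ≤ Real.log (X₀ + 3) ^ U * (Real.log Y ^ U)⁻¹ := by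
      rw [← div_eq_mul_inv, le_div_iff₀ (by positivity)]
      linarith
    calc cn X Y ≤ Y * 1 := by linarith
      _ ≤ Y * (Real.log (X₀ + 3) ^ U * (Real.log Y ^ U)⁻¹) := by gcongr
      _ = (Real.log (X₀ + 3)) ^ U * Y * (Real.log Y ^ U)⁻¹ := by ring
      _ ≤ (1 + (Real.log (X₀ + 3)) ^ U) * Y * (Real.log Y ^ U)⁻¹ := by
          have : (0 : ℝ) ≤ Y * (Real.log Y ^ U)⁻¹ := by positivity
          nlinarith

open Filter Topology MeasureTheory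

/-- **Exceptional sets which depend on a further parameter.** If for each `i` the sets `B i k`, `k = 0, 1, …`, have at most
`C T ^ (e + 1 / (k + 1))` elements up to `T`, then for `α > 1` outside a set of dimension at most `e / (1 - l)` and each `i`
there is `k` such that the integers near `c n ^ j α ^ n`, `n` large, are outside `B i k`. -/
theorem pow_alg_inf {ι : Type} [Countable ι] (B : ι → ℕ → Set ℕ) (e l : ℝ) (he : 0 ≤ e) (hl : l < 1)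
    (h : ∀ (i : ι) (k : ℕ), ∃ C : ℝ, ∀ T : ℝ, 1 ≤ T →
      (({m | m ∈ B i k ∧ (m : ℝ) ≤ T}).ncard : ℝ) ≤ C * T ^ (e + 1 / ((k : ℝ) + 1))) :
    ∃ E : Set ℝ, dimH E ≤ ENNReal.ofReal (e / (1 - l)) ∧ ∀ α : ℝ, 1 < α → α ∉ E → ∀ i : ι, ∃ k : ℕ, ∀ c : ℝ, 0 < c →
      IsAlgebraic ℚ c → ∀ (j : ℤ) (D : ℝ), ∀ᶠ n : ℕ in atTop, ∀ m : ℕ, NearPow α c j D l n m → m ∉ B i k := by
  have h1 : ∀ (i : ι) (k : ℕ), ∃ E : Set ℝ, dimH E ≤ ENNReal.ofReal ((e + 1 / ((k : ℝ) + 1)) / (1 - l)) ∧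
      ∀ α : ℝ, 1 < α → α ∉ E → ∀ c : ℝ, 0 < c → IsAlgebraic ℚ c → ∀ (j : ℤ) (D : ℝ), ∀ᶠ n : ℕ in atTop, ∀ m : ℕ,
        NearPow α c j D l n m → m ∉ B i k := by
    intro i k
    obtain ⟨C, hC⟩ := h i k
    refine pow_alg_one (B i k) (e + 1 / ((k : ℝ) + 1)) l (by positivity) hl fun ε hε => ⟨|C|, fun T hT => (hC T hT).trans ?_⟩
    have h2 : (0 : ℝ) ≤ T ^ (e + 1 / ((k : ℝ) + 1)) := by positivity
    calc C * T ^ (e + 1 / ((k : ℝ) + 1)) ≤ |C| * T ^ (e + 1 / ((k : ℝ) + 1)) := mul_le_mul_of_nonneg_right (le_abs_self C) h2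
      _ ≤ |C| * T ^ (e + 1 / ((k : ℝ) + 1) + ε) :=
          mul_le_mul_of_nonneg_left (Real.rpow_le_rpow_of_exponent_le hT (by linarith)) (abs_nonneg C)
  choose E hE hg using h1
  refine ⟨⋃ i, ⋂ k, E i k, ?_, fun α hα hαE i => ?_⟩
  · rw [dimH_iUnion]
    refine iSup_le fun i => ?_
    have h2 : ∀ k : ℕ, dimH (⋂ k, E i k) ≤ ENNReal.ofReal ((e + 1 / ((k : ℝ) + 1)) / (1 - l)) := fun k =>
      (dimH_mono (Set.iInter_subset _ k)).trans (hE i k)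
    have h3 : Tendsto (fun k : ℕ => ENNReal.ofReal ((e + 1 / ((k : ℝ) + 1)) / (1 - l))) atTop
        (𝓝 (ENNReal.ofReal ((e + 0) / (1 - l)))) := by
      refine ENNReal.tendsto_ofReal ?_
      exact ((tendsto_one_div_add_atTop_nhds_zero_nat (𝕜 := ℝ)).const_add e).div_const _
    rw [add_zero] at h3
    exact ge_of_tendsto' h3 h2
  · simp only [Set.mem_iUnion, Set.mem_iInter, not_exists, not_forall] at hαE
    obtain ⟨k, hk⟩ := hαE i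
    exact ⟨k, hg i k α hα hk⟩

/-- from the numbers `Y` to the real numbers `T` -/
theorem cn_pow {X : ℕ → Prop} {C e : ℝ} (he : 0 ≤ e) (h : ∀ Y : ℕ, 1 ≤ Y → cn X Y ≤ C * (Y : ℝ) ^ e) :
    ∀ T : ℝ, 1 ≤ T → (({m | m ∈ {m | 1 ≤ m ∧ X m} ∧ (m : ℝ) ≤ T}).ncard : ℝ) ≤ |C| * T ^ e := by
  classical
  intro T hT
  have hT0 : 0 < T := by linarith
  have hfl : (⌊T⌋₊ : ℝ) ≤ T := Nat.floor_le hT0.le
  have h1 : 1 ≤ ⌊T⌋₊ := Nat.le_floor (by exact_mod_cast hT)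
  have hsub : {m | m ∈ {m : ℕ | 1 ≤ m ∧ X m} ∧ (m : ℝ) ≤ T} ⊆ (((Finset.Icc 1 ⌊T⌋₊).filter X : Finset ℕ) : Set ℕ) := by
    rintro m ⟨⟨h2, h3⟩, h4⟩
    rw [Finset.mem_coe, Finset.mem_filter, Finset.mem_Icc]
    exact ⟨⟨h2, Nat.le_floor h4⟩, h3⟩
  have h2 : (({m | m ∈ {m : ℕ | 1 ≤ m ∧ X m} ∧ (m : ℝ) ≤ T}).ncard : ℝ) ≤ cn X ⌊T⌋₊ := by
    have := Set.ncard_le_ncard hsub (Finset.finite_toSet _)
    rw [Set.ncard_coe_finset] at this
    unfold cn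
    refine le_trans (Nat.cast_le.2 this) (le_of_eq ?_)
    congr 2
  refine h2.trans ((h ⌊T⌋₊ h1).trans ?_)
  calc C * (⌊T⌋₊ : ℝ) ^ e ≤ |C| * (⌊T⌋₊ : ℝ) ^ e := mul_le_mul_of_nonneg_right (le_abs_self C) (by positivity)
    _ ≤ |C| * T ^ e := mul_le_mul_of_nonneg_left (Real.rpow_le_rpow (by positivity) hfl he) (abs_nonneg C)

end Pool.Agent.Q138.PS
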