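import Pool.Agent.Q138.PS.XM
import Pool.Agent.Q138.PS.TT

/-!
Powers of almost all real numbers: the hypothesis on the exceptional set comes after the exceptional `α`.
-/

set_option autoImplicit false

namespace Pool.Agent.Q138.PS

open Filter Topology MeasureTheory

/-- the set `b` has at most `C Y / (log Y) ^ δ` elements of absolute value at most `Y` -/
def LogFew (b : ℤ → Prop) (δ : ℝ) : Prop :=
  ∃ C : ℝ, ∀ Y : ℕ, 3 ≤ Y → ({d : ℤ | d.natAbs ≤ Y ∧ b d}.ncard : ℝ) ≤ C * Y * (Real.log Y) ^ (-δ)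

theorem log_ge_one {Y : ℕ} (hY : 3 ≤ Y) : 1 ≤ Real.log Y := by
  have h3 : (3 : ℝ) ≤ Y := by exact_mod_cast hY
  rw [Real.le_log_iff_exp_le (by linarith)]
  linarith [Real.exp_one_lt_d9]

theorem LogFew.mono {b : ℤ → Prop} {δ δ' : ℝ} (h : LogFew b δ) (hδ : δ' ≤ δ) : LogFew b δ' := by
  obtain ⟨C, hC⟩ := h
  refine ⟨|C|, fun Y hY => (hC Y hY).trans ?_⟩
  have h1 := log_ge_one hY
  have h2 : (Real.log Y) ^ (-δ) ≤ (Real.log Y) ^ (-δ') := Real.rpow_le_rpow_of_exponent_le h1 (by linarith)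
  have h3 : (0 : ℝ) ≤ (Real.log Y) ^ (-δ) := by positivity
  calc C * Y * (Real.log Y) ^ (-δ) ≤ |C| * Y * (Real.log Y) ^ (-δ) := by
        gcongr
        exact le_abs_self C
    _ ≤ |C| * Y * (Real.log Y) ^ (-δ') := by gcongr

/-- **No hits, integers of both signs**, hypothesis last. -/
theorem pow_ae_int' {ι : Type} [Countable ι] (b : ι → ℤ → Prop) :
    ∀ᵐ α : ℝ, 1 < α → ∀ i : ι, (∀ U : ℕ, LogFew (b i) U) → NearAll α (fun k => ¬ b i k) := by
  have h0 := pow_ae_int (ι := {i : ι // ∀ U : ℕ, LogFew (b i) U}) (fun i => b i.1) (fun i U => i.2 U)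
  filter_upwards [h0] with α h1 hα i hi
  exact h1 hα ⟨i, hi⟩

/-- **Few hits, integers of both signs**, hypothesis last. -/
theorem pow_ae_int_few' {ι : Type} [Countable ι] (b : ι → ℤ → Prop) :
    ∀ᵐ α : ℝ, 1 < α → ∀ (i : ι) (δ : ℝ), 0 < δ → LogFew (b i) δ → NearFew α δ (fun k => ¬ b i k) := by
  have h0 := pow_ae_int_few (ι := {i : ι × ℚ // 0 ≤ i.2 ∧ LogFew (b i.1) i.2}) (fun i => b i.1.1) (fun i => (i.1.2 : ℝ))
    (fun i => by exact_mod_cast i.2.1) (fun i => i.2.2)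
  filter_upwards [h0] with α h1 hα i δ hδ hi c hc hca j D κ ε hε
  obtain ⟨r, hr1, hr2⟩ := exists_rat_btwn (show max 0 (δ - ε / 2) < δ from max_lt hδ (by linarith))
  have hr0 : (0 : ℝ) ≤ r := (le_max_left _ _).trans hr1.le
  have hr3 : δ - ε / 2 ≤ r := (le_max_right _ _).trans hr1.le
  filter_upwards [h1 hα ⟨(i, r), by exact_mod_cast hr0, hi.mono hr2.le⟩ c hc hca j D κ (ε / 2) (by positivity),
    eventually_ge_atTop 1] with N hN hN1
  have hN1r : (1 : ℝ) ≤ N := by exact_mod_cast hN1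
  refine hN.trans (Real.rpow_le_rpow_of_exponent_le hN1r ?_)
  have h2 : max 0 (1 + κ - (r : ℝ)) ≤ max 0 (1 + κ - δ) + ε / 2 := by
    refine max_le (by have := le_max_left 0 (1 + κ - δ); linarith) ?_
    have := le_max_right 0 (1 + κ - δ)
    linarith
  show max 0 (1 + κ - (r : ℝ)) + ε / 2 ≤ _
  linarith

/-- `Z` holds for the squarefree part of the integer `k ≠ 0` -/
def SqPart (Z : ℤ → Prop) (k : ℤ) : Prop := ∀ (d : ℤ) (m : ℕ), Squarefree d → 1 ≤ m → d * (m : ℤ) ^ 2 = k → Z d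

/-- **Few hits, squarefree parts.** -/
theorem pow_ae_sqf {ι : Type} [Countable ι] (X : ι → ℤ → Prop) :
    ∀ᵐ α : ℝ, 1 < α → ∀ (i : ι) (δ : ℝ), 0 < δ → LogFew (fun d => Squarefree d ∧ X i d) δ →
      NearFew α δ (SqPart fun d => ¬ X i d) := by
  filter_upwards [pow_ae_int_few' (fun i => Sq (X i))] with α h1 hα i δ hδ hi
  obtain ⟨C, hC⟩ := hi
  obtain ⟨C', hC'⟩ := sqf_all (X i) hδ hC
  have h2 := h1 hα i δ hδ ⟨C', hC'⟩
  have h3 : (fun k => ¬ Sq (X i) k) = SqPart fun d => ¬ X i d := by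
    funext k
    unfold Sq SqPart
    push Not
    rfl
  rwa [h3] at h2

end Pool.Agent.Q138.PS
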