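import Pool.Agent.Q138.PS.XL

/-!
Sets of integers with few elements up to `M`, up to powers `M ^ e`.
-/

set_option autoImplicit false

namespace Pool.Agent.Q138.PS

open Finset Filter Topology

/-- if up to a set of at most `B M ^ (a + e)` integers the `m ≤ M` with `B M ^ e ≤ m ^ ε` do not satisfy `Z`, for each `e > 0`, then
at most `C T ^ (a + e)` of the `m ≤ T` satisfy `Z`, for each `e > 0` -/
theorem few_of_scales (Z : ℕ → Prop) (a ε : ℝ) (ha : 0 < a) (hε : 0 < ε)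
    (h : ∀ e : ℝ, 0 < e → ∃ B : ℝ, ∀ M : ℕ, 1 ≤ M → ∃ E : Finset ℤ, (E.card : ℝ) ≤ B * (M : ℝ) ^ (a + e) ∧
      ∀ m : ℕ, 1 ≤ m → m ≤ M → (m : ℤ) ∉ E → -(m : ℤ) ∉ E → B * (M : ℝ) ^ e ≤ (m : ℝ) ^ ε → ¬ Z m) :
    ∀ e : ℝ, 0 < e → ∃ C : ℝ, ∀ T : ℝ, 1 ≤ T →
      (({m | m ∈ {m : ℕ | 1 ≤ m ∧ Z m} ∧ (m : ℝ) ≤ T}).ncard : ℝ) ≤ C * T ^ (a + e) := by
  classical
  intro e he
  set e₁ : ℝ := min e (a * ε / 2) with he₁
  have he₁0 : 0 < e₁ := lt_min he (by positivity)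
  obtain ⟨B, hB⟩ := h e₁ he₁0
  have hlim : Tendsto (fun M : ℕ => (M : ℝ) ^ (a * ε / 2)) atTop atTop :=
    (tendsto_rpow_atTop (by positivity)).comp tendsto_natCast_atTop_atTop
  obtain ⟨M₀, hM₀⟩ := eventually_atTop.1 (hlim.eventually_ge_atTop |B|)
  refine ⟨|B| + 2 + M₀, fun T hT => ?_⟩
  have hT0 : 0 < T := by linarith
  set M : ℕ := ⌊T⌋₊ with hM
  have hM1 : 1 ≤ M := Nat.le_floor (by exact_mod_cast hT)
  have hMT : (M : ℝ) ≤ T := Nat.floor_le hT0.le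
  have hM1r : (1 : ℝ) ≤ M := by exact_mod_cast hM1
  have hT1 : (1 : ℝ) ≤ T ^ (a + e) := Real.one_le_rpow hT (by linarith)
  have hM₀0 : (0 : ℝ) ≤ M₀ := Nat.cast_nonneg _
  rcases le_or_gt M₀ M with hMM | hMM
  · obtain ⟨E, hE1, hE2⟩ := hB M hM1
    have hsub : {m | m ∈ {m : ℕ | 1 ≤ m ∧ Z m} ∧ (m : ℝ) ≤ T} ⊆
        ((Finset.range (⌊(M : ℝ) ^ a⌋₊ + 1) ∪ E.image Int.natAbs : Finset ℕ) : Set ℕ) := by
      rintro m ⟨⟨h1, h2⟩, h3⟩
      rw [Finset.mem_coe, Finset.mem_union, Finset.mem_range, Finset.mem_image]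
      by_contra hcon
      push Not at hcon
      obtain ⟨h4, h5⟩ := hcon
      have h6 : m ≤ M := Nat.le_floor h3
      have h7 : (M : ℝ) ^ a < m := by
        have : ⌊(M : ℝ) ^ a⌋₊ < m := by omega
        exact (Nat.floor_lt (by positivity)).1 this
      refine hE2 m h1 h6 (fun h => h5 _ h (by simp)) (fun h => h5 _ h (by simp)) ?_ h2
      have h8 : (M : ℝ) ^ (a * ε) ≤ (m : ℝ) ^ ε := by
        rw [Real.rpow_mul (by positivity)]
        exact Real.rpow_le_rpow (by positivity) h7.le hε.le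
      have h9 : (M : ℝ) ^ e₁ ≤ (M : ℝ) ^ (a * ε / 2) := Real.rpow_le_rpow_of_exponent_le hM1r (min_le_right _ _)
      calc B * (M : ℝ) ^ e₁ ≤ |B| * (M : ℝ) ^ e₁ := mul_le_mul_of_nonneg_right (le_abs_self B) (by positivity)
        _ ≤ (M : ℝ) ^ (a * ε / 2) * (M : ℝ) ^ (a * ε / 2) := mul_le_mul (hM₀ M hMM) h9 (by positivity) (by positivity)
        _ = (M : ℝ) ^ (a * ε) := by
          rw [← Real.rpow_add (by linarith)]
          congr 1
          ring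
        _ ≤ _ := h8
    have h1 := Set.ncard_le_ncard hsub (Finset.finite_toSet _)
    rw [Set.ncard_coe_finset] at h1
    have h2 := h1.trans ((Finset.card_union_le _ _).trans (Nat.add_le_add (le_of_eq (Finset.card_range _)) Finset.card_image_le))
    have h3 : (({m | m ∈ {m : ℕ | 1 ≤ m ∧ Z m} ∧ (m : ℝ) ≤ T}).ncard : ℝ) ≤ (⌊(M : ℝ) ^ a⌋₊ : ℝ) + 1 + E.card := by
      exact_mod_cast h2
    have h4 : (⌊(M : ℝ) ^ a⌋₊ : ℝ) ≤ T ^ (a + e) := (Nat.floor_le (by positivity)).trans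
      ((Real.rpow_le_rpow (by positivity) hMT ha.le).trans (Real.rpow_le_rpow_of_exponent_le hT (by linarith)))
    have h5 : (E.card : ℝ) ≤ |B| * T ^ (a + e) := by
      refine hE1.trans (mul_le_mul (le_abs_self B) ?_ (by positivity) (abs_nonneg B))
      exact (Real.rpow_le_rpow (by positivity) hMT (by positivity)).trans
        (Real.rpow_le_rpow_of_exponent_le hT (by have := min_le_left e (a * ε / 2); linarith))
    have h6 : 0 ≤ (M₀ : ℝ) * T ^ (a + e) := by positivity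
    nlinarith
  · have hsub : {m | m ∈ {m : ℕ | 1 ≤ m ∧ Z m} ∧ (m : ℝ) ≤ T} ⊆ ((Finset.range (M₀ + 1) : Finset ℕ) : Set ℕ) := by
      rintro m ⟨-, h3⟩
      rw [Finset.mem_coe, Finset.mem_range]
      have h6 : m ≤ M := Nat.le_floor h3
      omega
    have h1 := Set.ncard_le_ncard hsub (Finset.finite_toSet _)
    rw [Set.ncard_coe_finset, Finset.card_range] at h1
    have h2 : (({m | m ∈ {m : ℕ | 1 ≤ m ∧ Z m} ∧ (m : ℝ) ≤ T}).ncard : ℝ) ≤ (M₀ : ℝ) + 1 := by exact_mod_cast h1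
    have h3 := abs_nonneg B
    nlinarith

end Pool.Agent.Q138.PS
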