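import Pool.Agent.Q138.PS.XM

/-!
Integers which are exceptional at one of the scales `2 ^ i`.
-/

set_option autoImplicit false

namespace Pool.Agent.Q138.PS

open Finset Filter Topology

theorem succ_le_rpow (ε : ℝ) (hε : 0 < ε) : ∃ C : ℝ, 0 < C ∧ ∀ i : ℕ, (i : ℝ) + 1 ≤ C * ((2 : ℝ) ^ i) ^ ε := by
  set a : ℝ := min (ε * Real.log 2) 1 with ha
  have hl2 : 0 < Real.log 2 := Real.log_pos one_lt_two
  have ha0 : 0 < a := lt_min (by positivity) one_pos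
  refine ⟨1 / a, by positivity, fun i => ?_⟩
  have h1 : a * ((i : ℝ) + 1) ≤ ((2 : ℝ) ^ i) ^ ε := by
    have h2 : a ≤ 1 := min_le_right _ _
    have h3 : a * (i : ℝ) ≤ ε * Real.log 2 * i := mul_le_mul_of_nonneg_right (min_le_left _ _) (Nat.cast_nonneg i)
    have h4 := Real.add_one_le_exp (ε * Real.log 2 * i)
    have h5 : Real.exp (ε * Real.log 2 * i) = ((2 : ℝ) ^ i) ^ ε := by
      rw [Real.rpow_def_of_pos (by positivity), Real.log_pow]
      congr 1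
      ring
    rw [h5] at h4
    nlinarith
  rw [one_div, inv_mul_eq_div, le_div_iff₀ ha0]
  linarith

/-- Let `κ > 0` and let the sets `X i` have at most `(2 ^ i) ^ s` elements for `i ≥ i₀`. The `m ≤ T` for which `m` or `-m` is in
one of the `X i` with `m ≤ 2 ^ i ≤ 2 m ^ κ`, `i ≥ i₀`, are at most `C T ^ (κ s + ε)`. -/
theorem scales_union (κ s : ℝ) (hκ : 0 < κ) (hs : 0 ≤ s) (i₀ : ℕ) (X : ℕ → Finset ℤ)
    (hX : ∀ i, i₀ ≤ i → ((X i).card : ℝ) ≤ ((2 : ℝ) ^ i) ^ s) (ε : ℝ) (hε : 0 < ε) :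
    ∃ C : ℝ, ∀ T : ℝ, 1 ≤ T →
      (({m : ℕ | (∃ i, i₀ ≤ i ∧ (2 : ℝ) ^ i ≤ 2 * (m : ℝ) ^ κ ∧ ((m : ℤ) ∈ X i ∨ -(m : ℤ) ∈ X i)) ∧ (m : ℝ) ≤ T}).ncard : ℝ) ≤
        C * T ^ (κ * s + ε) := by
  classical
  obtain ⟨C, hC, h1⟩ := succ_le_rpow (ε / κ) (by positivity)
  refine ⟨C * 2 ^ (s + ε / κ), fun T hT => ?_⟩
  have hT0 : 0 < T := by linarith
  have hTκ : 1 ≤ 2 * T ^ κ := by
    have := Real.one_le_rpow hT hκ.le
    linarith
  -- the largest scale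
  set I : ℕ := ⌊Real.logb 2 (2 * T ^ κ)⌋₊ with hI
  have hI1 : (2 : ℝ) ^ I ≤ 2 * T ^ κ := by
    have h2 : (I : ℝ) ≤ Real.logb 2 (2 * T ^ κ) := Nat.floor_le (Real.logb_nonneg one_lt_two hTκ)
    calc (2 : ℝ) ^ I = (2 : ℝ) ^ (I : ℝ) := (Real.rpow_natCast _ _).symm
      _ ≤ (2 : ℝ) ^ (Real.logb 2 (2 * T ^ κ)) := Real.rpow_le_rpow_of_exponent_le one_le_two h2
      _ = 2 * T ^ κ := Real.rpow_logb (by norm_num) (by norm_num) (by positivity)
  have hI2 : ∀ i : ℕ, (2 : ℝ) ^ i ≤ 2 * T ^ κ → i ≤ I := by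
    intro i hi
    refine Nat.le_floor ?_
    rw [Real.le_logb_iff_rpow_le one_lt_two (by positivity), Real.rpow_natCast]
    exact hi
  set F : Finset ℕ := ((range (I + 1)).filter (fun i => i₀ ≤ i)).biUnion fun i => (X i).image Int.natAbs with hF
  have hsub : {m : ℕ | (∃ i, i₀ ≤ i ∧ (2 : ℝ) ^ i ≤ 2 * (m : ℝ) ^ κ ∧ ((m : ℤ) ∈ X i ∨ -(m : ℤ) ∈ X i)) ∧ (m : ℝ) ≤ T} ⊆
      (F : Set ℕ) := by
    rintro m ⟨⟨i, hi0, hi1, hi2⟩, hm⟩
    rw [mem_coe, hF, mem_biUnion]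
    refine ⟨i, mem_filter.2 ⟨mem_range.2 (Nat.lt_succ_of_le (hI2 i (hi1.trans ?_))), hi0⟩, ?_⟩
    · have : (m : ℝ) ^ κ ≤ T ^ κ := Real.rpow_le_rpow (Nat.cast_nonneg m) hm hκ.le
      linarith
    · rw [mem_image]
      rcases hi2 with h | h
      · exact ⟨_, h, by simp⟩
      · exact ⟨_, h, by simp⟩
  have h2 := Set.ncard_le_ncard hsub (finite_toSet _)
  rw [Set.ncard_coe_finset] at h2
  have h3 : (F.card : ℝ) ≤ ∑ i ∈ (range (I + 1)).filter (fun i => i₀ ≤ i), ((X i).card : ℝ) := by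
    have h4 := (card_biUnion_le (s := (range (I + 1)).filter (fun i => i₀ ≤ i)) (t := fun i => (X i).image Int.natAbs))
    have h5 : ∑ i ∈ (range (I + 1)).filter (fun i => i₀ ≤ i), ((X i).image Int.natAbs).card ≤
        ∑ i ∈ (range (I + 1)).filter (fun i => i₀ ≤ i), (X i).card := sum_le_sum fun i _ => card_image_le
    exact_mod_cast h4.trans h5
  have h6 : ∑ i ∈ (range (I + 1)).filter (fun i => i₀ ≤ i), ((X i).card : ℝ) ≤ ((I : ℝ) + 1) * ((2 : ℝ) ^ I) ^ s := by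
    calc ∑ i ∈ (range (I + 1)).filter (fun i => i₀ ≤ i), ((X i).card : ℝ) ≤
        ∑ i ∈ (range (I + 1)).filter (fun i => i₀ ≤ i), ((2 : ℝ) ^ I) ^ s := by
          refine sum_le_sum fun i hi => ?_
          rw [mem_filter, mem_range] at hi
          refine (hX i hi.2).trans (Real.rpow_le_rpow (by positivity) ?_ hs)
          exact pow_le_pow_right₀ one_le_two (by omega)
      _ = ((((range (I + 1)).filter (fun i => i₀ ≤ i)).card : ℕ) : ℝ) * ((2 : ℝ) ^ I) ^ s := by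
          rw [sum_const, nsmul_eq_mul]
      _ ≤ ((I : ℝ) + 1) * ((2 : ℝ) ^ I) ^ s := by
          refine mul_le_mul_of_nonneg_right ?_ (by positivity)
          have := (card_filter_le (range (I + 1)) (fun i => i₀ ≤ i))
          rw [card_range] at this
          exact_mod_cast this
  have h7 : ((2 : ℝ) ^ I) ^ (s + ε / κ) ≤ 2 ^ (s + ε / κ) * T ^ (κ * s + ε) := by
    have h8 : ((2 : ℝ) ^ I) ^ (s + ε / κ) ≤ (2 * T ^ κ) ^ (s + ε / κ) := Real.rpow_le_rpow (by positivity) hI1 (by positivity)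
    refine h8.trans (le_of_eq ?_)
    rw [Real.mul_rpow (by norm_num) (by positivity), ← Real.rpow_mul hT0.le]
    congr 2
    field_simp
  calc _ ≤ (F.card : ℝ) := by exact_mod_cast h2
    _ ≤ ((I : ℝ) + 1) * ((2 : ℝ) ^ I) ^ s := h3.trans h6
    _ ≤ (C * ((2 : ℝ) ^ I) ^ (ε / κ)) * ((2 : ℝ) ^ I) ^ s := mul_le_mul_of_nonneg_right (h1 I) (by positivity)
    _ = C * ((2 : ℝ) ^ I) ^ (s + ε / κ) := by
        rw [Real.rpow_add (by positivity)]
        ring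
    _ ≤ C * (2 ^ (s + ε / κ) * T ^ (κ * s + ε)) := mul_le_mul_of_nonneg_left h7 hC.le
    _ = _ := by ring

end Pool.Agent.Q138.PS
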