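import Pool.Agent.Q138.PS.XL
import Pool.Agent.Q138.PS.XG

/-!
Real targets: the numbers `w n α ^ n` avoid sets of real numbers of small measure, for almost all `α > 1`.
-/

set_option autoImplicit false

namespace Pool.Agent.Q138.PS

open Filter Topology MeasureTheory Set

/-- a map which expands distances by `m` on `A` pulls a set back to a set of measure at most `1 / m` times its measure -/
theorem volume_pullback (f : ℝ → ℝ) (A S : Set ℝ) (m : ℝ) (hm : 0 < m)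
    (hf : ∀ x ∈ A, ∀ y ∈ A, m * |x - y| ≤ |f x - f y|) :
    volume (A ∩ f ⁻¹' S) ≤ ENNReal.ofReal (1 / m) * volume S := by
  classical
  rcases (A ∩ f ⁻¹' S).eq_empty_or_nonempty with h0 | ⟨x₀, hx₀⟩
  · rw [h0]
    simp
  set g : ℝ → ℝ := Function.invFunOn f (A ∩ f ⁻¹' S) with hg
  have hinj : InjOn f (A ∩ f ⁻¹' S) := by
    intro x hx y hy hxy
    have h1 := hf x hx.1 y hy.1
    rw [hxy, sub_self, abs_zero] at h1
    have h2 : |x - y| ≤ 0 := by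
      by_contra h3
      push Not at h3
      have : 0 < m * |x - y| := by positivity
      linarith
    have h3 : |x - y| = 0 := le_antisymm h2 (abs_nonneg _)
    linarith [abs_eq_zero.1 h3]
  have hgf : ∀ x ∈ A ∩ f ⁻¹' S, g (f x) = x := fun x hx => hinj.leftInvOn_invFunOn hx
  have hlip : LipschitzOnWith (Real.toNNReal (1 / m)) g (f '' (A ∩ f ⁻¹' S)) := by
    refine LipschitzOnWith.of_dist_le_mul ?_
    rintro _ ⟨x, hx, rfl⟩ _ ⟨y, hy, rfl⟩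
    rw [hgf x hx, hgf y hy, Real.dist_eq, Real.dist_eq, Real.coe_toNNReal _ (by positivity)]
    have h1 := hf x hx.1 y hy.1
    rw [one_div, inv_mul_eq_div, le_div_iff₀ hm]
    linarith
  have h1 := hlip.hausdorffMeasure_image_le (d := 1) zero_le_one
  have h2 : g '' (f '' (A ∩ f ⁻¹' S)) = A ∩ f ⁻¹' S := by
    ext x
    constructor
    · rintro ⟨_, ⟨y, hy, rfl⟩, rfl⟩
      rw [hgf y hy]
      exact hy
    · intro hx
      exact ⟨f x, ⟨x, hx, rfl⟩, hgf x hx⟩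
  rw [h2, hausdorffMeasure_real] at h1
  refine h1.trans ?_
  rw [ENNReal.rpow_one]
  have h3 : ENNReal.ofNNReal (Real.toNNReal (1 / m)) = ENNReal.ofReal (1 / m) := rfl
  rw [h3]
  gcongr
  rintro _ ⟨x, hx, rfl⟩
  exact hx.2

/-- the power map expands -/
theorem pow_expand {a w : ℝ} (ha : 1 ≤ a) (hw : 0 < w) (n : ℕ) (hn : 1 ≤ n) {L : ℝ} {x y : ℝ} (hx : a ≤ x) (hy : a ≤ y)
    {b : ℝ} (hxb : x ≤ b) (hyb : y ≤ b) (hLx : L ≤ w * x ^ n) (hLy : L ≤ w * y ^ n) (_hL : 0 < L) :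
    n * L / b * |x - y| ≤ |w * x ^ n - w * y ^ n| := by
  have hb : 0 < b := by linarith
  wlog hxy : y ≤ x generalizing x y with H
  · rw [abs_sub_comm x y, abs_sub_comm (w * x ^ n)]
    exact H hy hx hyb hxb hLy hLx (not_le.1 hxy).le
  have h1 : 0 ≤ x - y := by linarith
  have hy0 : 0 < y := by linarith
  have hx0 : 0 < x := by linarith
  have h2 : w * x ^ n - w * y ^ n = w * ((∑ i ∈ Finset.range n, x ^ i * y ^ (n - 1 - i)) * (x - y)) := by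
    rw [Commute.geom_sum₂_mul (Commute.all x y)]
    ring
  have h3 : (n : ℝ) * y ^ (n - 1) ≤ ∑ i ∈ Finset.range n, x ^ i * y ^ (n - 1 - i) := by
    calc (n : ℝ) * y ^ (n - 1) = ∑ _i ∈ Finset.range n, y ^ (n - 1) := by simp
      _ ≤ _ := by
        refine Finset.sum_le_sum fun i hi => ?_
        rw [Finset.mem_range] at hi
        have h4 : y ^ (n - 1) = y ^ i * y ^ (n - 1 - i) := by
          rw [← pow_add]
          congr 1
          omega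
        rw [h4]
        gcongr
  rw [abs_of_nonneg h1, h2, abs_of_nonneg (by positivity), ← mul_assoc]
  refine mul_le_mul_of_nonneg_right ?_ h1
  have h5 : n * L / b ≤ w * ((n : ℝ) * y ^ (n - 1)) := by
    rw [div_le_iff₀ hb]
    have h6 : y ^ n = y ^ (n - 1) * y := by
      rw [← pow_succ]
      congr 1
      omega
    have h7 : L ≤ w * (y ^ (n - 1) * b) := by
      refine hLy.trans ?_
      rw [h6]
      gcongr
    calc (n : ℝ) * L ≤ n * (w * (y ^ (n - 1) * b)) := by gcongr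
      _ = _ := by ring
  exact h5.trans (mul_le_mul_of_nonneg_left h3 hw.le)

/-- growth -/
theorem ge_pow {w : ℕ → ℝ} (hw : ∀ n, 0 < w n) (hw1 : Tendsto (fun n : ℕ => (w n) ^ (1 / (n : ℝ))) atTop (𝓝 1)) {a b : ℝ}
    (hb : 0 < b) (hba : b < a) : ∀ᶠ n : ℕ in atTop, b ^ n ≤ w n * a ^ n := by
  have ha : 0 < a := by linarith
  have h2 : ∀ᶠ n : ℕ in atTop, b / a < (w n) ^ (1 / (n : ℝ)) :=
    hw1.eventually_const_lt (by rw [div_lt_one ha]; exact hba)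
  filter_upwards [h2, eventually_ge_atTop 1] with n h4 h6
  have hn0 : (n : ℝ) ≠ 0 := by
    have : 0 < n := h6
    positivity
  have h7 : (b / a) ^ n ≤ w n := by
    have h8 : (b / a) ^ n ≤ ((w n) ^ (1 / (n : ℝ))) ^ n := pow_le_pow_left₀ (by positivity) h4.le n
    rwa [← Real.rpow_natCast ((w n) ^ (1 / (n : ℝ))), ← Real.rpow_mul (hw n).le,
      one_div_mul_cancel hn0, Real.rpow_one] at h8
  calc b ^ n = (b / a) ^ n * a ^ n := by rw [← mul_pow, div_mul_cancel₀ b ha.ne']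
    _ ≤ w n * a ^ n := mul_le_mul_of_nonneg_right h7 (by positivity)

/-- the measure of the `α` in `[a, b]` with `w α ^ n` in `S` -/
theorem target_measure (S : Set ℝ) (C δ Y₀ : ℝ) (hC : 0 ≤ C) (hδ : 0 < δ)
    (h : ∀ Y : ℝ, Y₀ ≤ Y → volume {x : ℝ | (Y ≤ x ∧ x ≤ 2 * Y) ∧ x ∈ S} ≤ ENNReal.ofReal (C * Y ^ (1 - δ)))
    {a b w : ℝ} (ha : 1 < a) (hb : 0 < b) (hw : 0 < w) {n : ℕ} (hn : 1 ≤ n) (hY : Y₀ ≤ w * a ^ n) :
    volume {α : ℝ | (a ≤ α ∧ α ≤ b) ∧ w * α ^ n ∈ S} ≤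
      ENNReal.ofReal (C * b / (1 - (1 / 2) ^ δ) * (w * a ^ n) ^ (-δ)) := by
  set L : ℝ := w * a ^ n with hL
  have ha0 : 0 < a := by linarith
  have hL0 : 0 < L := by positivity
  have hn0 : (0 : ℝ) < n := by exact_mod_cast hn
  have hn1 : (1 : ℝ) ≤ n := by exact_mod_cast hn
  have hδ2 : ((1 / 2 : ℝ)) ^ δ < 1 := Real.rpow_lt_one (by norm_num) (by norm_num) hδ
  have hδ0 : (0 : ℝ) ≤ (1 / 2) ^ δ := by positivity
  set A : ℕ → Set ℝ := fun i => {α : ℝ | (a ≤ α ∧ α ≤ b) ∧ 2 ^ i * L ≤ w * α ^ n} with hA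
  set T : ℕ → Set ℝ := fun i => {x : ℝ | (2 ^ i * L ≤ x ∧ x ≤ 2 * (2 ^ i * L)) ∧ x ∈ S} with hT
  have hsub : {α : ℝ | (a ≤ α ∧ α ≤ b) ∧ w * α ^ n ∈ S} ⊆ ⋃ i : ℕ, (A i ∩ (fun α => w * α ^ n) ⁻¹' (T i)) := by
    rintro α ⟨⟨h1, h2⟩, h3⟩
    have h4 : L ≤ w * α ^ n := by
      rw [hL]
      gcongr
    have h5 : 1 ≤ w * α ^ n / L := by rwa [le_div_iff₀ hL0, one_mul]
    obtain ⟨i, hi1, hi2⟩ := exists_nat_pow_near h5 one_lt_two
    rw [le_div_iff₀ hL0] at hi1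
    rw [div_lt_iff₀ hL0] at hi2
    refine Set.mem_iUnion.2 ⟨i, ⟨⟨h1, h2⟩, hi1⟩, ⟨hi1, ?_⟩, h3⟩
    have : (2 : ℝ) ^ (i + 1) * L = 2 * (2 ^ i * L) := by ring
    linarith
  have hpiece : ∀ i : ℕ, volume (A i ∩ (fun α => w * α ^ n) ⁻¹' (T i)) ≤
      ENNReal.ofReal (C * b * L ^ (-δ) * ((1 / 2) ^ δ) ^ i) := by
    intro i
    have hLi : 0 < 2 ^ i * L := by positivity
    have h1 := volume_pullback (fun α => w * α ^ n) (A i) (T i) (n * (2 ^ i * L) / b) (by positivity)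
      (fun x hx y hy => pow_expand ha.le hw n hn hx.1.1 hy.1.1 hx.1.2 hy.1.2 hx.2 hy.2 hLi)
    have h2 : Y₀ ≤ 2 ^ i * L := hY.trans (le_mul_of_one_le_left hL0.le (one_le_pow₀ one_le_two))
    refine h1.trans ((mul_le_mul' le_rfl (h _ h2)).trans ?_)
    rw [← ENNReal.ofReal_mul (by positivity)]
    refine ENNReal.ofReal_le_ofReal ?_
    have h3 : (2 ^ i * L) ^ (1 - δ) = (2 ^ i * L) * (L ^ (-δ) * ((1 / 2) ^ δ) ^ i) := by
      rw [sub_eq_add_neg, Real.rpow_add hLi, Real.rpow_one, Real.mul_rpow (by positivity) hL0.le]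
      have h4 : ((2 : ℝ) ^ i) ^ (-δ) = ((1 / 2) ^ δ) ^ i := by
        rw [← Real.rpow_natCast 2 i, ← Real.rpow_mul (by norm_num), ← Real.rpow_natCast ((1 / 2 : ℝ) ^ δ) i,
          ← Real.rpow_mul (by norm_num), one_div, Real.inv_rpow (by norm_num), ← Real.rpow_neg (by norm_num)]
        congr 1
        ring
      rw [h4]
      ring
    rw [h3]
    calc 1 / (n * (2 ^ i * L) / b) * (C * (2 ^ i * L * (L ^ (-δ) * ((1 / 2) ^ δ) ^ i))) =
        (C * b * L ^ (-δ) * ((1 / 2) ^ δ) ^ i) / n := by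
          field_simp
      _ ≤ _ := div_le_self (by positivity) hn1
  refine (measure_mono hsub).trans ((measure_iUnion_le _).trans ((ENNReal.tsum_le_tsum hpiece).trans ?_))
  have hgeo : HasSum (fun i : ℕ => C * b * L ^ (-δ) * ((1 / 2 : ℝ) ^ δ) ^ i) (C * b * L ^ (-δ) * (1 - (1 / 2) ^ δ)⁻¹) :=
    (hasSum_geometric_of_lt_one hδ0 hδ2).mul_left _
  rw [← ENNReal.ofReal_tsum_of_nonneg (fun i => by positivity) hgeo.summable, hgeo.tsum_eq]
  refine ENNReal.ofReal_le_ofReal (le_of_eq ?_)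
  ring

/-- **Real targets.** If `S` has measure at most `C Y ^ (1 - δ)` in `[Y, 2 Y]` for all large `Y` then for almost all `α > 1`
the numbers `w n α ^ n`, `n` large, are outside `S`. -/
theorem ae_target (S : Set ℝ) (C δ Y₀ : ℝ) (hC : 0 ≤ C) (hδ : 0 < δ)
    (h : ∀ Y : ℝ, Y₀ ≤ Y → volume {x : ℝ | (Y ≤ x ∧ x ≤ 2 * Y) ∧ x ∈ S} ≤ ENNReal.ofReal (C * Y ^ (1 - δ)))
    (w : ℕ → ℝ) (hw : ∀ n, 0 < w n) (hw1 : Tendsto (fun n : ℕ => (w n) ^ (1 / (n : ℝ))) atTop (𝓝 1)) :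
    ∀ᵐ α : ℝ, 1 < α → ∀ᶠ n : ℕ in atTop, w n * α ^ n ∉ S := by
  have key : ∀ k : ℕ, ∀ᵐ α : ℝ, ∀ᶠ n : ℕ in atTop,
      α ∉ {α : ℝ | (1 + 1 / ((k : ℝ) + 1) ≤ α ∧ α ≤ (k : ℝ) + 2) ∧ w n * α ^ n ∈ S} := by
    intro k
    set a : ℝ := 1 + 1 / ((k : ℝ) + 1) with ha
    have ha1 : 1 < a := by
      have : (0 : ℝ) < 1 / ((k : ℝ) + 1) := by positivity
      linarith
    set b : ℝ := (1 + a) / 2 with hb
    have hb1 : 1 < b := by rw [hb]; linarith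
    have hb0 : 0 < b := by linarith
    have hba : b < a := by rw [hb]; linarith
    set ρ : ℝ := b ^ (-δ) with hρ
    have hρ0 : 0 ≤ ρ := by positivity
    have hρ1 : ρ < 1 := Real.rpow_lt_one_of_one_lt_of_neg hb1 (by linarith)
    have hgrow := tendsto_pow_atTop_atTop_of_one_lt hb1
    have hδ2 : ((1 / 2 : ℝ)) ^ δ < 1 := Real.rpow_lt_one (by norm_num) (by norm_num) hδ
    obtain ⟨n₀, hn₀⟩ := eventually_atTop.1 ((ge_pow hw hw1 hb0 hba).and ((hgrow.eventually_ge_atTop Y₀).and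
      (eventually_ge_atTop 1)))
    set K : ℝ := C * ((k : ℝ) + 2) / (1 - (1 / 2) ^ δ) with hK
    have hK0 : 0 ≤ K := by
      have : 0 < 1 - (1 / 2 : ℝ) ^ δ := by linarith
      positivity
    have hs : Summable fun n : ℕ => K * ρ ^ n := (summable_geometric_of_lt_one hρ0 hρ1).mul_left K
    have hsum : ∑' n : ℕ, volume {α : ℝ | (a ≤ α ∧ α ≤ (k : ℝ) + 2) ∧ w (n + n₀) * α ^ (n + n₀) ∈ S} ≠ ⊤ := by
      have hs' := ((summable_nat_add_iff n₀).2 hs).tsum_ofReal_ne_top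
      refine ne_top_of_le_ne_top hs' (ENNReal.tsum_le_tsum fun n => ?_)
      obtain ⟨h1, h2, h3⟩ := hn₀ (n + n₀) (by omega)
      refine (target_measure S C δ Y₀ hC hδ h ha1 (by positivity) (hw _) h3 (h2.trans h1)).trans
        (ENNReal.ofReal_le_ofReal ?_)
      refine mul_le_mul_of_nonneg_left ?_ hK0
      have h4 : (w (n + n₀) * a ^ (n + n₀)) ^ (-δ) ≤ (b ^ (n + n₀)) ^ (-δ) :=
        Real.rpow_le_rpow_of_nonpos (by positivity) h1 (by linarith)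
      refine h4.trans (le_of_eq ?_)
      rw [hρ, ← Real.rpow_natCast b, ← Real.rpow_mul hb0.le, ← Real.rpow_natCast (b ^ (-δ)), ← Real.rpow_mul hb0.le]
      congr 1
      ring
    filter_upwards [ae_eventually_notMem hsum] with α hα
    obtain ⟨n₁, hn₁⟩ := eventually_atTop.1 hα
    refine eventually_atTop.2 ⟨n₁ + n₀, fun n hn => ?_⟩
    have := hn₁ (n - n₀) (by omega)
    rwa [Nat.sub_add_cancel (by omega)] at this
  filter_upwards [ae_all_iff.2 key] with α hα h1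
  obtain ⟨k, hk1, hk2⟩ := mem_interval h1
  filter_upwards [hα k] with n hn hmB
  exact hn ⟨⟨hk1.le, hk2.le⟩, hmB⟩

/-- all positive algebraic factors `c` and all powers `n ^ j`, countably many sets -/
theorem pow_ae_target {ι : Type} [Countable ι] (S : ι → Set ℝ) :
    ∀ᵐ α : ℝ, 1 < α → ∀ i : ι, (∃ C δ : ℝ, 0 ≤ C ∧ 0 < δ ∧ ∀ᶠ Y : ℝ in atTop,
      volume {x : ℝ | (Y ≤ x ∧ x ≤ 2 * Y) ∧ x ∈ S i} ≤ ENNReal.ofReal (C * Y ^ (1 - δ))) →
      ∀ c : ℝ, 0 < c → IsAlgebraic ℚ c → ∀ j : ℤ, ∀ᶠ n : ℕ in atTop, c * (n : ℝ) ^ j * α ^ n ∉ S i := by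
  have key : ∀ q : {i : ι // ∃ C δ : ℝ, 0 ≤ C ∧ 0 < δ ∧ ∀ᶠ Y : ℝ in atTop,
      volume {x : ℝ | (Y ≤ x ∧ x ≤ 2 * Y) ∧ x ∈ S i} ≤ ENNReal.ofReal (C * Y ^ (1 - δ))} × AlgInt, ∀ᵐ α : ℝ, 1 < α →
      ∀ᶠ n : ℕ in atTop, fac q.2.1.1 q.2.2 n * α ^ n ∉ S q.1.1 := by
    rintro ⟨⟨i, C, δ, hC, hδ, h⟩, ⟨⟨c, hc, hca⟩, j⟩⟩
    obtain ⟨Y₀, hY₀⟩ := eventually_atTop.1 h
    exact ae_target (S i) C δ Y₀ hC hδ hY₀ (fac c j) (fac_pos hc j) (root_tendsto c hc j)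
  filter_upwards [ae_all_iff.2 key] with α h1 hα i hi c hc hca j
  filter_upwards [h1 (⟨i, hi⟩, (⟨c, hc, hca⟩, j)) hα, eventually_ge_atTop 1] with n h2 h3
  rw [fac_eq c j h3] at h2
  exact h2

end Pool.Agent.Q138.PS
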