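import Pool.Agent.Q138.PS.XL
import Pool.Agent.Q138.PS.XM

/-!
Powers of almost all real numbers: sets of natural numbers with a power saving in the form of the counting function `cn`.
-/

set_option autoImplicit false

namespace Pool.Agent.Q138.PS

open Filter Topology MeasureTheory

/-- a power saving, as a property -/
def CnFew (X : ℕ → Prop) : Prop := ∃ c C : ℝ, 0 < c ∧ ∀ Y : ℕ, 1 ≤ Y → cn X Y ≤ C * (Y : ℝ) ^ (1 - c)

theorem CnFew.real {X : ℕ → Prop} (h : CnFew X) : ∃ δ C : ℝ, 0 < δ ∧ ∀ T : ℝ, 1 ≤ T →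
    (({m | m ∈ {m | 1 ≤ m ∧ X m} ∧ (m : ℝ) ≤ T}).ncard : ℝ) ≤ C * T ^ (1 - δ) := by
  obtain ⟨c, C, hc, h⟩ := h
  refine ⟨min c 1, |(|C|)|, lt_min hc one_pos, cn_pow (by have := min_le_right c 1; linarith) fun Y hY => ?_⟩
  have hY1 : (1 : ℝ) ≤ Y := by exact_mod_cast hY
  have h1 : (Y : ℝ) ^ (1 - c) ≤ (Y : ℝ) ^ (1 - min c 1) :=
    Real.rpow_le_rpow_of_exponent_le hY1 (by have := min_le_left c 1; linarith)
  have h2 : (0 : ℝ) ≤ (Y : ℝ) ^ (1 - c) := by positivity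
  calc cn X Y ≤ C * (Y : ℝ) ^ (1 - c) := h Y hY
    _ ≤ |C| * (Y : ℝ) ^ (1 - c) := mul_le_mul_of_nonneg_right (le_abs_self C) h2
    _ ≤ |C| * (Y : ℝ) ^ (1 - min c 1) := mul_le_mul_of_nonneg_left h1 (abs_nonneg C)

/-- **Power savings**, hypothesis last. -/
theorem pow_ae_cn {ι : Type} [Countable ι] (X : ι → ℕ → Prop) :
    ∀ᵐ α : ℝ, 1 < α → ∀ i : ι, CnFew (X i) → RarePow α 1 (X i) := by
  have h0 := pow_ae_small (ι := {i : ι // CnFew (X i)}) (fun i => {m | 1 ≤ m ∧ X i.1 m}) fun i => i.2.real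
  filter_upwards [h0] with α h1 hα i hi
  obtain ⟨κ, hκ, h2⟩ := h1 hα ⟨i, hi⟩
  refine ⟨κ, hκ, fun c hc hca j D => ?_⟩
  filter_upwards [h2 c hc hca j D] with n hn t ht h3 h4
  exact hn t h3 ⟨ht, h4⟩

end Pool.Agent.Q138.PS
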