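import Pool.Agent.Q138.PS.XJ
import Pool.Agent.Q138.PS.XL

/-!
Powers of almost all real numbers: properties `Z y m` with at most `C Y / y ^ δ` numbers `m ≤ Y`, `y` a power of `log m`.
-/

set_option autoImplicit false

namespace Pool.Agent.Q138.PS

open Filter Topology MeasureTheory

/-- the count for `y = (log m) ^ A` -/
theorem tail_count (Z : ℕ → ℕ → Prop) (hm : ∀ y y' x : ℕ, y ≤ y' → Z y' x → Z y x) {C δ A : ℝ} (hC : 0 ≤ C) (hδ : 0 < δ)
    (hA : 0 < A) (h : ∀ Y y : ℕ, 1 ≤ Y → 1 ≤ y → cn (Z y) Y ≤ C * Y / (y : ℝ) ^ δ) :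
    ∃ C' : ℝ, ∀ Y : ℕ, 3 ≤ Y → cn (fun m => Z ⌊(Real.log m) ^ A⌋₊ m) Y ≤ C' * Y * (Real.log Y) ^ (-(δ * A)) := by
  classical
  set X : ℕ → Prop := fun m => Z ⌊(Real.log m) ^ A⌋₊ m with hX
  set ε : ℝ := 1 / (2 * (δ * A)) with hε
  have hδA : 0 < δ * A := mul_pos hδ hA
  have hε0 : 0 < ε := by positivity
  refine ⟨2 ^ (δ * A) + (2 * (1 / ε) ^ (δ * A) + C * (2 ^ δ * 2 ^ (δ * A))), fun Y hY => ?_⟩
  have hY3 : (3 : ℝ) ≤ Y := by exact_mod_cast hY
  have hY0 : (0 : ℝ) < Y := by linarith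
  have hlog : 0 < Real.log Y := Real.log_pos (by linarith)
  have hcnY : cn X Y ≤ Y := by
    unfold cn
    have := Finset.card_filter_le (Finset.Icc 1 Y) X
    rw [Nat.card_Icc] at this
    exact_mod_cast this.trans (by omega)
  have hLp : 0 < (Real.log Y) ^ (-(δ * A)) := Real.rpow_pos_of_pos hlog _
  rcases lt_or_ge (Real.log Y) 2 with h2 | h2
  · have h3 : (2 : ℝ) ^ (-(δ * A)) ≤ (Real.log Y) ^ (-(δ * A)) :=
      Real.rpow_le_rpow_of_nonpos hlog h2.le (by linarith)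
    have h4 : (1 : ℝ) ≤ 2 ^ (δ * A) * (Real.log Y) ^ (-(δ * A)) := by
      calc (1 : ℝ) = 2 ^ (δ * A) * 2 ^ (-(δ * A)) := by rw [← Real.rpow_add two_pos, add_neg_cancel, Real.rpow_zero]
        _ ≤ _ := by gcongr
    have h5 : 0 ≤ (2 * (1 / ε) ^ (δ * A) + C * (2 ^ δ * 2 ^ (δ * A))) * Y * (Real.log Y) ^ (-(δ * A)) := by positivity
    calc cn X Y ≤ 1 * Y := by linarith
      _ ≤ (2 ^ (δ * A) * (Real.log Y) ^ (-(δ * A))) * Y := by gcongr
      _ ≤ _ := by linarith [h5]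
  · -- the main case
    set y₀ : ℕ := ⌊(Real.log Y / 2) ^ A⌋₊ with hy₀
    have hbase : 1 ≤ (Real.log Y / 2) ^ A := Real.one_le_rpow (by linarith) hA.le
    have hy1 : 1 ≤ y₀ := Nat.le_floor (by exact_mod_cast hbase)
    have hy2 : (Real.log Y / 2) ^ A / 2 ≤ (y₀ : ℝ) := by
      have h3 := Nat.lt_floor_add_one ((Real.log Y / 2) ^ A)
      have h4 : (1 : ℝ) ≤ y₀ := by exact_mod_cast hy1
      rw [← hy₀] at h3
      linarith
    -- split
    have hsplit : cn X Y ≤ Real.sqrt Y + cn (Z y₀) Y := by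
      unfold cn
      have hsub : (Finset.Icc 1 Y).filter X ⊆ (Finset.Icc 1 ⌊Real.sqrt Y⌋₊) ∪ (Finset.Icc 1 Y).filter (Z y₀) := by
        intro m hmm
        rw [Finset.mem_filter, Finset.mem_Icc] at hmm
        rw [Finset.mem_union, Finset.mem_filter, Finset.mem_Icc, Finset.mem_Icc]
        by_cases h5 : (m : ℝ) ≤ Real.sqrt Y
        · exact Or.inl ⟨hmm.1.1, Nat.le_floor h5⟩
        · refine Or.inr ⟨hmm.1, hm y₀ _ m ?_ hmm.2⟩
          push Not at h5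
          refine Nat.floor_le_floor ?_
          refine Real.rpow_le_rpow (by linarith) ?_ hA.le
          have h6 : Real.log (Real.sqrt Y) = Real.log Y / 2 := Real.log_sqrt hY0.le
          rw [← h6]
          exact Real.log_le_log (Real.sqrt_pos.2 hY0) h5.le
      have h7 := (Finset.card_le_card hsub).trans (Finset.card_union_le _ _)
      have h8 : ((Finset.Icc 1 ⌊Real.sqrt Y⌋₊).card : ℝ) ≤ Real.sqrt Y := by
        rw [Nat.card_Icc, Nat.add_sub_cancel]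
        exact Nat.floor_le (Real.sqrt_nonneg _)
      have h9 : (((Finset.Icc 1 Y).filter X).card : ℝ) ≤ ((Finset.Icc 1 ⌊Real.sqrt Y⌋₊).card : ℝ) +
          (((Finset.Icc 1 Y).filter (Z y₀)).card : ℝ) := by exact_mod_cast h7
      linarith
    have hA1 : cn (Z y₀) Y ≤ C * (2 ^ δ * 2 ^ (δ * A)) * Y * (Real.log Y) ^ (-(δ * A)) := by
      refine (h Y y₀ (by omega) hy1).trans ?_
      have hp : ((Real.log Y / 2) ^ A / 2) ^ δ ≤ (y₀ : ℝ) ^ δ := Real.rpow_le_rpow (by positivity) hy2 hδ.le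
      have hpe : ((Real.log Y / 2) ^ A / 2) ^ δ = (Real.log Y) ^ (δ * A) / (2 ^ δ * 2 ^ (δ * A)) := by
        rw [Real.div_rpow (by positivity) (by norm_num), ← Real.rpow_mul (by positivity), mul_comm A δ,
          Real.div_rpow hlog.le (by norm_num), div_div, mul_comm ((2 : ℝ) ^ (δ * A))]
      have hL : 0 < (Real.log Y) ^ (δ * A) := Real.rpow_pos_of_pos hlog _
      have hpos : 0 < (Real.log Y) ^ (δ * A) / (2 ^ δ * 2 ^ (δ * A)) := by positivity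
      rw [hpe] at hp
      calc C * Y / (y₀ : ℝ) ^ δ ≤ C * Y / ((Real.log Y) ^ (δ * A) / (2 ^ δ * 2 ^ (δ * A))) :=
            div_le_div_of_nonneg_left (by positivity) hpos hp
        _ = C * (2 ^ δ * 2 ^ (δ * A)) * Y * (Real.log Y) ^ (-(δ * A)) := by
            rw [Real.rpow_neg hlog.le]
            field_simp
    have hA2 : Real.sqrt Y ≤ (1 / ε) ^ (δ * A) * Y * (Real.log Y) ^ (-(δ * A)) := by
      have h3 : Real.log Y ≤ (Y : ℝ) ^ ε / ε := Real.log_le_rpow_div hY0.le hε0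
      have h4 : (Real.log Y) ^ (δ * A) ≤ ((Y : ℝ) ^ ε / ε) ^ (δ * A) := Real.rpow_le_rpow hlog.le h3 hδA.le
      have h5 : ((Y : ℝ) ^ ε / ε) ^ (δ * A) = (1 / ε) ^ (δ * A) * Real.sqrt Y := by
        rw [div_eq_mul_one_div, Real.mul_rpow (by positivity) (by positivity), ← Real.rpow_mul hY0.le, mul_comm,
          Real.sqrt_eq_rpow]
        congr 2
        rw [hε]
        field_simp
      rw [h5] at h4
      have hL : 0 < (Real.log Y) ^ (δ * A) := Real.rpow_pos_of_pos hlog _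
      rw [Real.rpow_neg hlog.le, ← div_eq_mul_inv, le_div_iff₀ hL]
      calc Real.sqrt Y * (Real.log Y) ^ (δ * A) ≤ Real.sqrt Y * ((1 / ε) ^ (δ * A) * Real.sqrt Y) := by gcongr
        _ = (1 / ε) ^ (δ * A) * (Real.sqrt Y * Real.sqrt Y) := by ring
        _ = (1 / ε) ^ (δ * A) * Y := by rw [Real.mul_self_sqrt hY0.le]
    have h5 : 0 ≤ 2 ^ (δ * A) * (Y : ℝ) * (Real.log Y) ^ (-(δ * A)) := by positivity
    have h6 : 0 ≤ (1 / ε) ^ (δ * A) * (Y : ℝ) * (Real.log Y) ^ (-(δ * A)) := by positivity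
    linarith

/-- **Powers of almost all real numbers, properties with a parameter.** -/
theorem pow_ae_tail {ι : Type} [Countable ι] (Z : ι → ℕ → ℕ → Prop) (hm : ∀ i, ∀ y y' x : ℕ, y ≤ y' → Z i y' x → Z i y x)
    (δ : ℝ) (hδ : 0 < δ) (h : ∀ i, ∃ C : ℝ, ∀ Y y : ℕ, 1 ≤ Y → 1 ≤ y → cn (Z i y) Y ≤ C * Y / (y : ℝ) ^ δ) :
    ∀ᵐ α : ℝ, 1 < α → ∀ (i : ι) (c : ℝ), 0 < c → IsAlgebraic ℚ c → ∀ (j : ℤ) (D κ A : ℝ), 0 ≤ κ → κ + 1 < δ * A →
      ∀ᶠ n : ℕ in atTop, ∀ m y : ℕ, 1 ≤ m → ClosePow α c j D κ n m → (Real.log m) ^ A ≤ y → ¬ Z i y m := by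
  have key : ∀ q : ι × AlgInt × ℕ × ℚ × ℚ, ∀ᵐ α : ℝ, 1 < α → 0 < (q.2.2.2.2 : ℝ) → (q.2.2.2.1 : ℝ) + 1 < δ * q.2.2.2.2 →
      ∀ᶠ n : ℕ in atTop, ∀ m : ℕ, |(m : ℝ) - fac q.2.1.1.1 q.2.1.2 n * α ^ n| ≤ (q.2.2.1 : ℝ) * (n : ℝ) ^ (q.2.2.2.1 : ℝ) →
        m ∉ {m : ℕ | 1 ≤ m ∧ Z q.1 ⌊(Real.log m) ^ (q.2.2.2.2 : ℝ)⌋₊ m} := by
    rintro ⟨i, ⟨⟨c, hc, hca⟩, j⟩, d, κ, A⟩
    by_cases hA : 0 < (A : ℝ)
    swap
    · exact Eventually.of_forall fun α _ h1 => absurd h1 hA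
    by_cases hκ : (κ : ℝ) + 1 < δ * A
    swap
    · exact Eventually.of_forall fun α _ _ h1 => absurd h1 hκ
    obtain ⟨C, hC⟩ := h i
    obtain ⟨C', hC'⟩ := tail_count (Z i) (hm i) (C := |C|) (abs_nonneg C) hδ hA (fun Y y hY hy => (hC Y y hY hy).trans (by
      have : C ≤ |C| := le_abs_self C
      gcongr))
    obtain ⟨C'', hC''⟩ := cn_real (mul_pos hδ hA).le hC'
    have h1 := ae_none {m : ℕ | 1 ≤ m ∧ Z i ⌊(Real.log m) ^ (A : ℝ)⌋₊ m} C'' (δ * A) hC'' (fac c j) (fac_pos hc j)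
      (root_tendsto c hc j) d κ (Nat.cast_nonneg d) (mul_pos hδ hA).le hκ
    filter_upwards [h1] with α h2 h3 _ _
    exact h2 h3
  have key' := ae_all_iff.2 key
  filter_upwards [key'] with α hα h1 i c hc hca j D κ A hκ hκA
  have hA : 0 < A := by
    by_contra h2
    push Not at h2
    have := mul_nonpos_of_nonneg_of_nonpos hδ.le h2
    linarith
  obtain ⟨d, hd⟩ := exists_nat_ge |D|
  obtain ⟨A', hA1, hA2⟩ := exists_rat_btwn (show (κ + 1) / δ < A by rw [div_lt_iff₀ hδ]; linarith)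
  rw [div_lt_iff₀ hδ] at hA1
  obtain ⟨κ', hκ1, hκ2⟩ := exists_rat_btwn (show κ < A' * δ - 1 by linarith)
  have hA0 : 0 < (A' : ℝ) := by
    by_contra h2
    push Not at h2
    have := mul_nonpos_of_nonpos_of_nonneg h2 hδ.le
    linarith
  have h2 := hα (i, (⟨c, hc, hca⟩, j), d, κ', A') h1 hA0 (by change (κ' : ℝ) + 1 < δ * A'; linarith)
  have hlarge : ∀ᶠ n : ℕ in atTop, (4 : ℝ) ≤ c * (n : ℝ) ^ j * α ^ n - |D| * (n : ℝ) ^ κ := by
    have hpos : (1 : ℝ) < Real.sqrt α := by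
      rw [show (1 : ℝ) = Real.sqrt 1 by simp]
      exact Real.sqrt_lt_sqrt zero_le_one h1
    have g1 := (grow hpos hc j)
    have g2 : Tendsto (fun n : ℕ => (n : ℝ) ^ κ / (Real.sqrt α) ^ n) atTop (𝓝 0) := by
      obtain ⟨k, hk⟩ := exists_nat_ge κ
      have g3 := tendsto_pow_const_div_const_pow_of_one_lt k hpos
      refine squeeze_zero' (Eventually.of_forall fun n => by positivity) ?_ g3
      filter_upwards [eventually_ge_atTop 1] with n hn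
      have hn1 : (1 : ℝ) ≤ n := by exact_mod_cast hn
      refine div_le_div_of_nonneg_right ?_ (by positivity)
      rw [← Real.rpow_natCast]
      exact Real.rpow_le_rpow_of_exponent_le hn1 hk
    have g4 : Tendsto (fun n : ℕ => |D| * ((n : ℝ) ^ κ / (Real.sqrt α) ^ n)) atTop (𝓝 0) := by
      simpa using g2.const_mul |D|
    filter_upwards [g1.eventually_ge_atTop 5, g4.eventually_le_const one_pos] with n k1 k2
    have hs0 : 0 < Real.sqrt α := by linarith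
    have hs1 : (1 : ℝ) ≤ (Real.sqrt α) ^ n := one_le_pow₀ hpos.le
    have k3 : c * (n : ℝ) ^ j * α ^ n = (c * (n : ℝ) ^ j * (Real.sqrt α) ^ n) * (Real.sqrt α) ^ n := by
      have : α ^ n = (Real.sqrt α) ^ n * (Real.sqrt α) ^ n := by
        rw [← mul_pow, Real.mul_self_sqrt (by linarith)]
      rw [this]
      ring
    have k4 : |D| * (n : ℝ) ^ κ = |D| * ((n : ℝ) ^ κ / (Real.sqrt α) ^ n) * (Real.sqrt α) ^ n := by
      field_simp
    rw [k3, k4, ← sub_mul]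
    nlinarith
  filter_upwards [h2, hlarge, eventually_ge_atTop 1] with n hn hn2 hn1 m y hm1 hcl hy hZ
  have hnr : (1 : ℝ) ≤ n := by exact_mod_cast hn1
  refine hn m ?_ ⟨hm1, hm i _ y m ?_ hZ⟩
  · rw [fac_eq c j hn1]
    refine hcl.trans ?_
    have h4 : (n : ℝ) ^ κ ≤ (n : ℝ) ^ (κ' : ℝ) := Real.rpow_le_rpow_of_exponent_le hnr hκ1.le
    calc D * (n : ℝ) ^ κ ≤ |D| * (n : ℝ) ^ κ := mul_le_mul_of_nonneg_right (le_abs_self D) (by positivity)
      _ ≤ d * (n : ℝ) ^ (κ' : ℝ) := by gcongr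
  · have h5 : (4 : ℝ) ≤ m := by
      have h6 := abs_le.1 hcl
      have h7 : D * (n : ℝ) ^ κ ≤ |D| * (n : ℝ) ^ κ := mul_le_mul_of_nonneg_right (le_abs_self D) (by positivity)
      linarith [h6.1]
    have h6 : 1 ≤ Real.log m := by
      rw [Real.le_log_iff_exp_le (by linarith)]
      linarith [Real.exp_one_lt_d9]
    refine Nat.floor_le_of_le (le_trans ?_ hy)
    exact Real.rpow_le_rpow_of_exponent_le h6 hA2.le

end Pool.Agent.Q138.PS
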