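import Pool.Agent.Q138.PS.XS
import Pool.Agent.Q138.PS.VG

/-!
Powers of almost all real numbers: whole windows, all tuples at once.
-/

set_option autoImplicit false

namespace Pool.Agent.Q138.PS

open Finset Filter Topology MeasureTheory

/-- every window `[x, x + H]`, `H ≤ x ^ c`, has the property `G` after removing `B` points -/
def WinProp (G : Set ℕ → Prop) : Prop :=
  ∃ (B : ℕ) (c : ℝ), 0 < c ∧ ∃ x₀ : ℕ, ∀ x H : ℕ, x₀ ≤ x → (H : ℝ) ≤ (x : ℝ) ^ c →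
    ∃ T : Finset ℕ, T.card ≤ B ∧ G (Set.Icc x (x + H) \ T)

theorem win_mono (m : ℕ) {W W' : ℕ} (h : W ≤ W') : win m W ⊆ win m W' := fun t ht => ⟨ht.1.trans (by omega), ht.2.trans (by omega)⟩

/-- the centres `m` for which the window of radius `m ^ κ` does not have the property are few -/
theorem win_few (G : Set ℕ → Prop) (hmono : ∀ S S' : Set ℕ, S ⊆ S' → G S' → G S) (h : WinProp G) :
    ∃ κ : ℝ, 0 < κ ∧ CnFew fun m => ¬ G (win m ⌊(m : ℝ) ^ κ⌋₊) := by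
  classical
  obtain ⟨B, c', hc', x₀, h⟩ := h
  set c : ℝ := min c' 1 with hc
  have hc0 : 0 < c := lt_min hc' one_pos
  have hc1 : c ≤ 1 := min_le_right _ _
  have h2 : ∀ x H : ℕ, max x₀ 1 ≤ x → (H : ℝ) ≤ (x : ℝ) ^ c → ∃ T : Finset ℕ, T.card ≤ B ∧ G (Set.Icc x (x + H) \ T) := by
    intro x H hx hH
    have hx1 : (1 : ℝ) ≤ x := by exact_mod_cast (le_max_right _ _).trans hx
    exact h x H ((le_max_left _ _).trans hx) (hH.trans (Real.rpow_le_rpow_of_exponent_le hx1 (min_le_left _ _)))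
  set κ : ℝ := c / 8 with hκ
  have hκ0 : 0 < κ := by positivity
  have hev : ∀ᶠ Y : ℕ in atTop, ((max x₀ 1 : ℕ) : ℝ) ≤ (Y : ℝ) ^ ((1 : ℝ) / 2) ∧ 32 ≤ (Y : ℝ) ^ (c / 2 - κ) := by
    have t1 := ((tendsto_rpow_atTop (show (0 : ℝ) < 1 / 2 by norm_num)).comp tendsto_natCast_atTop_atTop).eventually_ge_atTop
      ((max x₀ 1 : ℕ) : ℝ)
    have t2 := ((tendsto_rpow_atTop (show (0 : ℝ) < c / 2 - κ by rw [hκ]; linarith)).comp
      tendsto_natCast_atTop_atTop).eventually_ge_atTop 32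
    exact t1.and t2
  obtain ⟨Y₀, hY₀⟩ := eventually_atTop.1 hev
  refine ⟨κ, hκ0, c / 4, 200 * (B + 1) + (Y₀ + 1), by positivity, fun Y hY => ?_⟩
  have hYr : (1 : ℝ) ≤ Y := by exact_mod_cast hY
  have hY0 : (0 : ℝ) < Y := by linarith
  have hp1 : 1 ≤ (Y : ℝ) ^ (1 - c / 4) := Real.one_le_rpow hYr (by linarith)
  have hB0 : (0 : ℝ) ≤ B := Nat.cast_nonneg B
  rcases lt_or_ge Y Y₀ with h3 | h3
  · have h4 : cn (fun m => ¬ G (win m ⌊(m : ℝ) ^ κ⌋₊)) Y ≤ Y := cn_le _ _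
    have h5 : (Y : ℝ) ≤ Y₀ := by exact_mod_cast h3.le
    have h6 : (0 : ℝ) ≤ Y₀ := Nat.cast_nonneg _
    nlinarith
  · obtain ⟨k1, k2⟩ := hY₀ Y h3
    set W : ℕ := ⌊(Y : ℝ) ^ κ⌋₊ with hW
    have hWr : (W : ℝ) ≤ (Y : ℝ) ^ κ := Nat.floor_le (by positivity)
    have hκ1 : 1 ≤ (Y : ℝ) ^ κ := Real.one_le_rpow hYr hκ0.le
    have h5 : 16 * ((W : ℝ) + 1) ≤ (Y : ℝ) ^ (c / 2) := by
      have h6 : (Y : ℝ) ^ (c / 2) = (Y : ℝ) ^ (c / 2 - κ) * (Y : ℝ) ^ κ := by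
        rw [← Real.rpow_add hY0]
        ring_nf
      rw [h6]
      calc 16 * ((W : ℝ) + 1) ≤ 32 * (Y : ℝ) ^ κ := by linarith
        _ ≤ _ := by gcongr
    have h6 := win_count G hmono B c hc0 hc1 (max x₀ 1) h2 W Y hY k1 h5
    have h7 : cn (fun m => ¬ G (win m ⌊(m : ℝ) ^ κ⌋₊)) Y ≤ cn (fun m => ¬ G (win m W)) Y := by
      rw [cn_ncard, cn_ncard]
      refine Nat.cast_le.2 (Set.ncard_le_ncard ?_ ((Set.finite_Iic Y).subset fun n hn => hn.2.1))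
      rintro m ⟨hm1, hm2, hm3⟩
      refine ⟨hm1, hm2, fun hG => hm3 (hmono _ _ (win_mono m ?_) hG)⟩
      refine Nat.floor_le_floor (Real.rpow_le_rpow (Nat.cast_nonneg _) ?_ hκ0.le)
      exact_mod_cast hm2
    refine h7.trans (h6.trans ?_)
    have h8 : (Y : ℝ) ^ (1 - c / 4) = (Y : ℝ) ^ κ * (Y : ℝ) ^ (1 - c / 2) * (Y : ℝ) ^ (c / 4 - κ) := by
      rw [← Real.rpow_add hY0, ← Real.rpow_add hY0]
      ring_nf
    have h9 : 1 ≤ (Y : ℝ) ^ (c / 4 - κ) := Real.one_le_rpow hYr (by rw [hκ]; linarith)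
    have hq : 0 < (Y : ℝ) ^ (1 - c / 2) := by positivity
    have h10 : ((W : ℝ) + 1) * (Y : ℝ) ^ (1 - c / 2) ≤ 2 * (Y : ℝ) ^ (1 - c / 4) := by
      rw [h8]
      calc ((W : ℝ) + 1) * (Y : ℝ) ^ (1 - c / 2) ≤ (2 * (Y : ℝ) ^ κ) * (Y : ℝ) ^ (1 - c / 2) := by
            refine mul_le_mul_of_nonneg_right (by linarith) hq.le
        _ = 2 * ((Y : ℝ) ^ κ * (Y : ℝ) ^ (1 - c / 2) * 1) := by ring
        _ ≤ 2 * ((Y : ℝ) ^ κ * (Y : ℝ) ^ (1 - c / 2) * (Y : ℝ) ^ (c / 4 - κ)) := by gcongr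
    have h11 : (0 : ℝ) ≤ (Y₀ + 1) * (Y : ℝ) ^ (1 - c / 4) := by positivity
    calc 100 * ((B : ℝ) + 1) * ((W : ℝ) + 1) * (Y : ℝ) ^ (1 - c / 2)
        = 100 * ((B : ℝ) + 1) * (((W : ℝ) + 1) * (Y : ℝ) ^ (1 - c / 2)) := by ring
      _ ≤ 100 * ((B : ℝ) + 1) * (2 * (Y : ℝ) ^ (1 - c / 4)) := by gcongr
      _ ≤ _ := by nlinarith [h11]

/-- the integers near `s` lie in the window around `⌊s⌋` -/
theorem near_sub_win {κ₀ κ D : ℝ} (hκ : κ < κ₀) (h0 : 0 < κ₀) : ∀ᶠ s : ℝ in atTop, ∀ t : ℕ,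
    |(t : ℝ) - s| ≤ D * s ^ κ → t ∈ win ⌊s⌋₊ ⌊((⌊s⌋₊ : ℕ) : ℝ) ^ κ₀⌋₊ := by
  have t1 : Tendsto (fun s : ℝ => s ^ κ₀) atTop atTop := tendsto_rpow_atTop h0
  have t2 : Tendsto (fun s : ℝ => |D| * s ^ (κ - κ₀)) atTop (𝓝 0) := by
    have := (tendsto_rpow_neg_atTop (show 0 < κ₀ - κ by linarith)).const_mul |D|
    simpa using this
  filter_upwards [t1.eventually_ge_atTop (8 * 2 ^ κ₀), t2.eventually_le_const (show (0 : ℝ) < 1 / (2 * 2 ^ κ₀) by positivity),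
    eventually_ge_atTop 2] with s h1 h2 hs t ht
  have hs0 : 0 < s := by linarith
  set m : ℕ := ⌊s⌋₊ with hm
  have hm1 : (m : ℝ) ≤ s := Nat.floor_le hs0.le
  have hm2 : s < m + 1 := Nat.lt_floor_add_one s
  have hm3 : s / 2 ≤ m := by linarith
  set W : ℕ := ⌊(m : ℝ) ^ κ₀⌋₊ with hW
  have hW1 : (m : ℝ) ^ κ₀ < W + 1 := Nat.lt_floor_add_one _
  have hp : 0 < (2 : ℝ) ^ κ₀ := by positivity
  have hW2 : s ^ κ₀ / 2 ^ κ₀ ≤ (m : ℝ) ^ κ₀ := by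
    rw [← Real.div_rpow hs0.le (by norm_num)]
    exact Real.rpow_le_rpow (by positivity) hm3 h0.le
  have h3 : D * s ^ κ ≤ s ^ κ₀ / 2 ^ κ₀ / 2 := by
    have h4 : s ^ κ = s ^ (κ - κ₀) * s ^ κ₀ := by
      rw [← Real.rpow_add hs0]
      ring_nf
    calc D * s ^ κ ≤ |D| * s ^ κ := mul_le_mul_of_nonneg_right (le_abs_self D) (by positivity)
      _ = (|D| * s ^ (κ - κ₀)) * s ^ κ₀ := by rw [h4]; ring
      _ ≤ (1 / (2 * 2 ^ κ₀)) * s ^ κ₀ := by gcongr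
      _ = s ^ κ₀ / 2 ^ κ₀ / 2 := by field_simp
  have h4 : 4 ≤ s ^ κ₀ / 2 ^ κ₀ / 2 := by
    rw [le_div_iff₀ (by norm_num), le_div_iff₀ hp]
    linarith
  have h5 := abs_le.1 ht
  refine ⟨?_, ?_⟩
  · have : (t : ℝ) ≤ m + W := by linarith [h5.2]
    exact_mod_cast this
  · have : (m : ℝ) ≤ t + W := by linarith [h5.1]
    exact_mod_cast this

/-- **Powers of almost all real numbers, whole windows.** -/
theorem pow_ae_win {ι : Type} [Countable ι] (G : ι → Set ℕ → Prop) (hmono : ∀ i (S S' : Set ℕ), S ⊆ S' → G i S' → G i S) :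
    ∀ᵐ α : ℝ, 1 < α → ∀ i : ι, WinProp (G i) → ∃ κ : ℝ, 0 < κ ∧ ∀ c : ℝ, 0 < c → IsAlgebraic ℚ c → ∀ (j : ℤ) (D : ℝ),
      ∀ᶠ n : ℕ in atTop, G i {t | NearPow α c j D κ n t} := by
  classical
  choose! κ₀ hκ₀ hX using fun i : ι => win_few (G i) (hmono i)
  filter_upwards [pow_ae_cn (ι := ι) (fun i m => ¬ G i (win m ⌊(m : ℝ) ^ (κ₀ i)⌋₊))] with α h1 hα i hi
  obtain ⟨κ₁, hκ₁, h2⟩ := h1 hα i (hX i hi)
  refine ⟨κ₀ i / 2, by have := hκ₀ i hi; positivity, fun c hc hca j D => ?_⟩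
  have hg := grow hα hc j
  filter_upwards [h2 c hc hca j 1, hg.eventually_ge_atTop 1,
    hg.eventually (near_sub_win (D := D) (show κ₀ i / 2 < κ₀ i by have := hκ₀ i hi; linarith) (hκ₀ i hi))] with n hn hs1 hn2
  set s : ℝ := c * (n : ℝ) ^ j * α ^ n with hs
  have hm1 : 1 ≤ ⌊s⌋₊ := Nat.le_floor (by exact_mod_cast hs1)
  have h3 := hn ⌊s⌋₊ hm1 (by
    unfold NearPow
    rw [← hs]
    have h4 : ((⌊s⌋₊ : ℕ) : ℝ) ≤ s := Nat.floor_le (by linarith)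
    have h5 : s < ⌊s⌋₊ + 1 := Nat.lt_floor_add_one s
    have h6 : 1 ≤ s ^ κ₁ := Real.one_le_rpow hs1 hκ₁.le
    rw [abs_le]
    constructor <;> linarith)
  refine hmono i _ _ ?_ (not_not.1 h3)
  intro t ht
  exact hn2 t ht

end Pool.Agent.Q138.PS
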