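import Pool.Agent.Q138.PS.XS

/-!
Powers of real numbers: sets of natural numbers with at most `C Y ^ e` elements up to `Y`, and the dimension of the set of the
exceptional `α`.
-/

set_option autoImplicit false

namespace Pool.Agent.Q138.PS

open Filter Topology MeasureTheory

/-- **Powers of real numbers**, counts `C Y ^ e`. -/
theorem pow_cn {ι : Type} [Countable ι] (X : ι → ℕ → Prop) (e l : ℝ) (he : 0 ≤ e) (hl : l < 1)
    (h : ∀ i, ∃ C : ℝ, ∀ Y : ℕ, 1 ≤ Y → cn (X i) Y ≤ C * (Y : ℝ) ^ e) :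
    ∃ E : Set ℝ, dimH E ≤ ENNReal.ofReal (e / (1 - l)) ∧ ∀ α : ℝ, 1 < α → α ∉ E → ∀ (i : ι) (c : ℝ), 0 < c →
      IsAlgebraic ℚ c → ∀ (j : ℤ) (D : ℝ), ∀ᶠ n : ℕ in atTop, ∀ m : ℕ, 1 ≤ m → NearPow α c j D l n m → ¬ X i m := by
  obtain ⟨E, hE, hg⟩ := pow_alg (ι := ι) (fun i => {m | 1 ≤ m ∧ X i m}) e l he hl (fun i ε hε => by
    obtain ⟨C, hC⟩ := h i
    refine ⟨|C|, fun T hT => (cn_pow he hC T hT).trans ?_⟩
    exact mul_le_mul_of_nonneg_left (Real.rpow_le_rpow_of_exponent_le hT (by linarith)) (abs_nonneg C))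
  refine ⟨E, hE, fun α hα hαE i c hc hca j D => ?_⟩
  filter_upwards [hg α hα hαE i c hc hca j D] with n hn m hm hnear hX
  exact hn m hnear ⟨hm, hX⟩

/-- counts with an integral power -/
theorem cn_root {X : ℕ → Prop} {C p q : ℕ} (hq : 1 ≤ q)
    (h : ∀ Y : ℕ, 1 ≤ Y → {n : ℕ | 1 ≤ n ∧ n ≤ Y ∧ X n}.ncard ^ q ≤ C * Y ^ p) :
    ∀ Y : ℕ, 1 ≤ Y → cn X Y ≤ (C : ℝ) ^ (1 / (q : ℝ)) * (Y : ℝ) ^ ((p : ℝ) / q) := by
  intro Y hY
  rw [cn_ncard]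
  have hq0 : (0 : ℝ) < q := by exact_mod_cast hq
  have h1 : (({n : ℕ | 1 ≤ n ∧ n ≤ Y ∧ X n}.ncard : ℕ) : ℝ) ^ (q : ℝ) ≤ C * (Y : ℝ) ^ (p : ℝ) := by
    rw [Real.rpow_natCast, Real.rpow_natCast]
    exact_mod_cast h Y hY
  have h2 := Real.rpow_le_rpow (by positivity) h1 (show (0 : ℝ) ≤ 1 / q by positivity)
  rw [← Real.rpow_mul (by positivity), mul_one_div_cancel hq0.ne', Real.rpow_one,
    Real.mul_rpow (by positivity) (by positivity), ← Real.rpow_mul (by positivity), mul_one_div] at h2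
  exact h2

end Pool.Agent.Q138.PS
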