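import Pool.Agent.Q138.PS.XV
import Pool.Agent.Q138.PS.XD

/-!
Powers of real numbers: sizes which carry many exceptional objects.
-/

set_option autoImplicit false

namespace Pool.Agent.Q138.PS

open Filter Topology MeasureTheory Set

/-- If at most `C T ^ e` objects of size at most `T` are exceptional, then at most `C' Y ^ (e - μ)` of the numbers `b ≤ Y` are
the size of at least `b ^ μ` exceptional objects. -/
theorem heavy_few {A : Type} (H : A → ℕ) (E E' : ℝ → Set A) (e μ C T₀ : ℝ) (hμ : 0 ≤ μ) (he : μ < e)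
    (h : ∀ T : ℝ, 1 ≤ T → (E' T).Finite ∧ ((E' T).ncard : ℝ) ≤ C * T ^ e)
    (sub : ∀ t T : ℝ, T₀ ≤ t → t ≤ T → T ≤ 2 * t → E t ⊆ E' T) :
    ∃ C' : ℝ, ∀ Y : ℕ, 1 ≤ Y →
      cn (fun b => (b : ℝ) ^ μ ≤ (({s | s ∈ E b ∧ H s = b}.ncard : ℕ) : ℝ)) Y ≤ C' * (Y : ℝ) ^ (e - μ) := by
  classical
  set X : ℕ → Prop := fun b => (b : ℝ) ^ μ ≤ (({s | s ∈ E b ∧ H s = b}.ncard : ℕ) : ℝ) with hX
  have hem : 0 < e - μ := by linarith
  have hC : 0 ≤ |C| := abs_nonneg C
  obtain ⟨C', hC'⟩ := count_halves {b | 1 ≤ b ∧ X b} (e - μ) (|C| * 2 ^ μ + (2 * |T₀| + 1)) hem (by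
    intro T hT
    have hT1 : (1 : ℝ) ≤ T := by exact_mod_cast hT
    have hT0 : (0 : ℝ) < T := by linarith
    have hTe : 1 ≤ (T : ℝ) ^ (e - μ) := Real.one_le_rpow hT1 hem.le
    have hfin : {m | m ∈ {b | 1 ≤ b ∧ X b} ∧ m ≤ T ∧ T ≤ 2 * m}.Finite :=
      (Set.finite_Iic T).subset fun m hm => hm.2.1
    set W : Finset ℕ := hfin.toFinset with hW
    have hWm : ∀ m, m ∈ W ↔ (1 ≤ m ∧ X m) ∧ m ≤ T ∧ T ≤ 2 * m := fun m => by
      rw [hW, Set.Finite.mem_toFinset]; rfl
    rw [Set.ncard_eq_toFinset_card _ hfin]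
    by_cases hbig : 2 * |T₀| ≤ T
    · have hsub : ∀ m ∈ W, {s | s ∈ E m ∧ H s = m} ⊆ E' T := by
        intro m hm s hs
        obtain ⟨-, h1, h2⟩ := (hWm m).1 hm
        have h3 : (T : ℝ) ≤ 2 * m := by exact_mod_cast h2
        have h4 : T₀ ≤ m := by
          have := le_abs_self T₀
          linarith
        exact sub m T h4 (by exact_mod_cast h1) h3 hs.1
      obtain ⟨hf, hn⟩ := h T hT1
      have hfs : ∀ m ∈ W, {s | s ∈ E m ∧ H s = m}.Finite := fun m hm => hf.subset (hsub m hm)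
      have h1 : ∑ m ∈ W, {s | s ∈ E m ∧ H s = m}.ncard ≤ (E' T).ncard := by
        have h2 : ∑ m ∈ W, {s | s ∈ E m ∧ H s = m}.ncard =
            ∑ m ∈ W, (hf.toFinset.filter fun s => s ∈ E m ∧ H s = m).card := by
          refine Finset.sum_congr rfl fun m hm => ?_
          rw [← Set.ncard_coe_finset]
          congr 1
          ext s
          simp only [Finset.coe_filter, Set.Finite.mem_toFinset, Set.mem_ofPred_eq]
          exact ⟨fun h => ⟨hsub m hm h, h⟩, fun h => h.2⟩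
        rw [h2, Set.ncard_eq_toFinset_card _ hf, ← Finset.card_biUnion]
        · refine Finset.card_le_card fun s hs => ?_
          obtain ⟨m, -, h3⟩ := Finset.mem_biUnion.1 hs
          exact (Finset.mem_filter.1 h3).1
        · intro m hm m' hm' hne
          rw [Function.onFun, Finset.disjoint_left]
          intro s hs hs'
          exact hne ((Finset.mem_filter.1 hs).2.2.symm.trans (Finset.mem_filter.1 hs').2.2)
      have h2 : (W.card : ℝ) * ((T : ℝ) / 2) ^ μ ≤ ((∑ m ∈ W, {s | s ∈ E m ∧ H s = m}.ncard : ℕ) : ℝ) := by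
        rw [Nat.cast_sum, ← nsmul_eq_mul]
        refine Finset.card_nsmul_le_sum _ _ _ fun m hm => ?_
        obtain ⟨⟨-, h3⟩, -, h4⟩ := (hWm m).1 hm
        have h5 : (T : ℝ) / 2 ≤ m := by
          have : (T : ℝ) ≤ 2 * m := by exact_mod_cast h4
          linarith
        exact (Real.rpow_le_rpow (by positivity) h5 hμ).trans h3
      have h3 : (W.card : ℝ) * ((T : ℝ) / 2) ^ μ ≤ |C| * (T : ℝ) ^ e := by
        refine h2.trans (((Nat.cast_le (α := ℝ)).2 h1).trans (hn.trans ?_))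
        exact mul_le_mul_of_nonneg_right (le_abs_self C) (by positivity)
      have h4 : (W.card : ℝ) ≤ |C| * 2 ^ μ * (T : ℝ) ^ (e - μ) := by
        have h5 : 0 < ((T : ℝ) / 2) ^ μ := by positivity
        have h6 : |C| * 2 ^ μ * (T : ℝ) ^ (e - μ) * ((T : ℝ) / 2) ^ μ = |C| * (T : ℝ) ^ e := by
          rw [Real.div_rpow hT0.le (by norm_num), Real.rpow_sub hT0]
          field_simp
        exact le_of_mul_le_mul_right (h3.trans h6.ge) h5
      calc (W.card : ℝ) ≤ |C| * 2 ^ μ * (T : ℝ) ^ (e - μ) := h4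
        _ ≤ (|C| * 2 ^ μ + (2 * |T₀| + 1)) * (T : ℝ) ^ (e - μ) := by
            refine mul_le_mul_of_nonneg_right ?_ (by positivity)
            have := abs_nonneg T₀
            linarith
    · push Not at hbig
      have h1 : W.card ≤ T := by
        have h2 : W ⊆ Finset.Icc 1 T := fun m hm => by
          obtain ⟨⟨h3, -⟩, h4, -⟩ := (hWm m).1 hm
          exact Finset.mem_Icc.2 ⟨h3, h4⟩
        exact (Finset.card_le_card h2).trans (by rw [Nat.card_Icc]; omega)
      have h2 : (W.card : ℝ) ≤ T := by exact_mod_cast h1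
      have h3 : 0 ≤ |C| * 2 ^ μ := by positivity
      calc (W.card : ℝ) ≤ |C| * 2 ^ μ + (2 * |T₀| + 1) := by linarith
        _ = (|C| * 2 ^ μ + (2 * |T₀| + 1)) * 1 := by ring
        _ ≤ _ := mul_le_mul_of_nonneg_left hTe (by positivity))
  refine ⟨C', fun Y hY => ?_⟩
  refine le_trans (le_of_eq ?_) (hC' Y (by exact_mod_cast hY))
  rw [cn_ncard]
  congr 2
  ext m
  constructor
  · rintro ⟨h1, h2, h3⟩
    exact ⟨⟨h1, h3⟩, by exact_mod_cast h2⟩
  · rintro ⟨⟨h1, h3⟩, h2⟩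
    exact ⟨h1, by exact_mod_cast h2, h3⟩

end Pool.Agent.Q138.PS
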