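import Pool.Agent.Q138.PS.XW

/-!
Powers of real numbers: exceptional sets with an exponent in the limit, denominators of exceptional algebraic numbers.
-/

set_option autoImplicit false

namespace Pool.Agent.Q138.PS

open Filter Topology MeasureTheory Set

/-- Properties `X i r k` (`i`, `r` in countable sets) with at most `C Y ^ (1 / (k + 1))` integers up to `Y`: outside a set of
dimension zero for each `i` and `l < 1` there is `k` for which no integer near the powers has the property, for all `r`. -/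
theorem pow_zero_inf {ι κ : Type} [Countable ι] [Countable κ] (X : ι → κ → ℕ → ℕ → Prop)
    (h : ∀ (i : ι) (r : κ) (k : ℕ), ∃ C : ℝ, ∀ Y : ℕ, 1 ≤ Y → cn (X i r k) Y ≤ C * (Y : ℝ) ^ (1 / ((k : ℝ) + 1))) :
    ∃ E : Set ℝ, dimH E = 0 ∧ ∀ α : ℝ, 1 < α → α ∉ E → ∀ (i : ι) (l : ℝ), l < 1 → ∃ k : ℕ, ∀ (r : κ) (c : ℝ), 0 < c →
      IsAlgebraic ℚ c → ∀ (j : ℤ) (D : ℝ), ∀ᶠ n : ℕ in atTop, ∀ m : ℕ, 1 ≤ m → NearPow α c j D l n m → ¬ X i r k m := by
  have hl : ∀ s : ℕ, (1 : ℝ) - 1 / ((s : ℝ) + 1) < 1 := fun s => by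
    have : (0 : ℝ) < 1 / ((s : ℝ) + 1) := by positivity
    linarith
  have h1 : ∀ (s : ℕ) (i : ι) (k : ℕ), ∃ E : Set ℝ,
      dimH E ≤ ENNReal.ofReal (1 / ((k : ℝ) + 1) / (1 - (1 - 1 / ((s : ℝ) + 1)))) ∧
      ∀ α : ℝ, 1 < α → α ∉ E → ∀ (r : κ) (c : ℝ), 0 < c → IsAlgebraic ℚ c → ∀ (j : ℤ) (D : ℝ), ∀ᶠ n : ℕ in atTop,
        ∀ m : ℕ, 1 ≤ m → NearPow α c j D (1 - 1 / ((s : ℝ) + 1)) n m → ¬ X i r k m := fun s i k =>
    pow_cn (fun r => X i r k) (1 / ((k : ℝ) + 1)) _ (by positivity) (hl s) fun r => h i r k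
  choose E hE hg using h1
  refine ⟨⋃ s, ⋃ i, ⋂ k, E s i k, ?_, fun α hα hαE i l hl1 => ?_⟩
  · rw [← nonpos_iff_eq_zero, dimH_iUnion]
    refine iSup_le fun s => ?_
    rw [dimH_iUnion]
    refine iSup_le fun i => ?_
    have h2 : ∀ k : ℕ, dimH (⋂ k, E s i k) ≤ ENNReal.ofReal (1 / ((k : ℝ) + 1) / (1 - (1 - 1 / ((s : ℝ) + 1)))) := fun k =>
      (dimH_mono (Set.iInter_subset _ k)).trans (hE s i k)
    have h3 : Tendsto (fun k : ℕ => ENNReal.ofReal (1 / ((k : ℝ) + 1) / (1 - (1 - 1 / ((s : ℝ) + 1))))) atTop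
        (𝓝 (ENNReal.ofReal (0 / (1 - (1 - 1 / ((s : ℝ) + 1)))))) := by
      refine ENNReal.tendsto_ofReal ?_
      exact (tendsto_one_div_add_atTop_nhds_zero_nat (𝕜 := ℝ)).div_const _
    rw [zero_div, ENNReal.ofReal_zero] at h3
    exact ge_of_tendsto' h3 h2
  · obtain ⟨s, hs⟩ := exists_nat_one_div_lt (show 0 < 1 - l by linarith)
    simp only [Set.mem_iUnion, Set.mem_iInter, not_exists, not_forall] at hαE
    obtain ⟨k, hk⟩ := hαE s i
    refine ⟨k, fun r c hc hca j D => ?_⟩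
    filter_upwards [hg s i k α hα hk r c hc hca j |D|, (grow hα hc j).eventually_ge_atTop 1] with n hn hn1 m hm hnear
    exact hn m hm (hnear.mono hn1 (by linarith) le_rfl)

/-- the integers near the powers are large -/
theorem near_large {α c : ℝ} (hα : 1 < α) (hc : 0 < c) (j : ℤ) (D : ℝ) {l : ℝ} (hl : l < 1) (M : ℝ) :
    ∀ᶠ n : ℕ in atTop, ∀ m : ℕ, NearPow α c j D l n m → M ≤ m := by
  have h1 : ∀ᶠ s : ℝ in atTop, |D| * s ^ l ≤ s / 2 := by
    have h2 : Tendsto (fun s : ℝ => |D| * s ^ (-(1 - l))) atTop (𝓝 (|D| * 0)) :=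
      (tendsto_rpow_neg_atTop (by linarith)).const_mul _
    rw [mul_zero] at h2
    filter_upwards [h2.eventually_lt_const (show (0 : ℝ) < 1 / 2 by norm_num), eventually_gt_atTop 0] with s hs hs0
    have h3 : s ^ l = s ^ (-(1 - l)) * s := by
      rw [← Real.rpow_add_one hs0.ne']
      congr 1
      ring
    rw [h3]
    nlinarith
  have hg := grow hα hc j
  filter_upwards [hg.eventually h1, hg.eventually_ge_atTop (2 * |M|), hg.eventually_gt_atTop 0] with n hn hM h0 m hnear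
  have h2 := (abs_le.1 hnear).1
  have h3 : D * (c * (n : ℝ) ^ j * α ^ n) ^ l ≤ |D| * (c * (n : ℝ) ^ j * α ^ n) ^ l :=
    mul_le_mul_of_nonneg_right (le_abs_self D) (by positivity)
  have h4 := le_abs_self M
  linarith

/-- The denominator of an algebraic number: the least positive integer `q` for which `q x` is an algebraic integer. -/
noncomputable def den {F : Type} [Field F] (x : F) : ℕ := sInf {q : ℕ | 1 ≤ q ∧ IsIntegral ℤ ((q : F) * x)}

/-- Few denominators. -/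
theorem den_few {F : Type} [Field F] (E E' : ℝ → Set F) (R : ℕ) (hR : 1 ≤ R) (C ε T₀ T₁ : ℝ) (hε : 0 < ε)
    (h : ∀ T : ℝ, T₀ ≤ T → (E' T).Finite ∧ ((E' T).ncard : ℝ) ≤ C * T ^ ε)
    (sub : ∀ T T' : ℝ, T₁ ≤ T → T ≤ T' → T' ≤ 2 * T → E T ⊆ E' T') :
    ∃ C' : ℝ, ∀ Y : ℕ, 1 ≤ Y →
      cn (fun q => max T₀ T₁ ≤ q ∧ ∃ x ∈ E (R * q), den x = q) Y ≤ C' * (Y : ℝ) ^ ε := by
  classical
  have hR1 : (1 : ℝ) ≤ R := by exact_mod_cast hR
  have hR0 : (0 : ℝ) < R := by linarith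
  obtain ⟨C', hC'⟩ := heavy_few (A := F) den (fun T => if max T₀ T₁ ≤ T then E (R * T) else ∅)
    (fun T => if max T₀ T₁ ≤ T then E' (R * T) else ∅) ε 0 (|C| * (R : ℝ) ^ ε) 0 le_rfl hε (by
      intro T hT
      by_cases h1 : max T₀ T₁ ≤ T
      · simp only [if_pos h1]
        have h2 : T₀ ≤ R * T := by
          have h3 := (le_max_left T₀ T₁).trans h1
          nlinarith
        obtain ⟨h3, h4⟩ := h (R * T) h2
        refine ⟨h3, h4.trans ?_⟩
        rw [Real.mul_rpow hR0.le (by linarith), ← mul_assoc]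
        exact mul_le_mul_of_nonneg_right (mul_le_mul_of_nonneg_right (le_abs_self C) (by positivity)) (by positivity)
      · simp only [if_neg h1]
        refine ⟨Set.finite_empty, ?_⟩
        rw [Set.ncard_empty, Nat.cast_zero]
        positivity) (by
      intro t T ht h1 h2
      by_cases h3 : max T₀ T₁ ≤ t
      · simp only [if_pos h3, if_pos (h3.trans h1)]
        refine sub (R * t) (R * T) ?_ (mul_le_mul_of_nonneg_left h1 hR0.le) (by nlinarith)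
        have h4 := (le_max_right T₀ T₁).trans h3
        nlinarith
      · simp only [if_neg h3]
        exact Set.empty_subset _)
  refine ⟨C', fun Y hY => ?_⟩
  have key := hC' Y hY
  rw [sub_zero] at key
  refine le_trans ?_ key
  rw [cn_ncard, cn_ncard]
  refine (Nat.cast_le (α := ℝ)).2 (Set.ncard_le_ncard ?_ ((Set.finite_Iic Y).subset fun m hm => hm.2.1))
  rintro q ⟨hq1, hq2, hq3, x, hx, hxq⟩
  refine ⟨hq1, hq2, ?_⟩
  show (q : ℝ) ^ (0 : ℝ) ≤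
    (({s | s ∈ (if max T₀ T₁ ≤ (q : ℝ) then E (R * (q : ℝ)) else ∅) ∧ den s = q}.ncard : ℕ) : ℝ)
  rw [if_pos hq3]
  have hq1' : (1 : ℝ) ≤ q := by exact_mod_cast hq1
  have h1 : {s | s ∈ E (R * (q : ℝ)) ∧ den s = q}.Finite := by
    refine (h (R * q) ?_).1.subset fun s hs => sub _ _ ?_ le_rfl (by nlinarith) hs.1
    · have h4 := (le_max_left T₀ T₁).trans hq3
      nlinarith
    · have h4 := (le_max_right T₀ T₁).trans hq3
      nlinarith
  have h2 : 0 < {s | s ∈ E (R * (q : ℝ)) ∧ den s = q}.ncard := (Set.ncard_pos h1).2 ⟨x, hx, hxq⟩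
  have h3 : (1 : ℝ) ≤ ({s | s ∈ E (R * (q : ℝ)) ∧ den s = q}.ncard : ℕ) := by exact_mod_cast h2
  simpa using h3

/-- **Denominators near the powers of real numbers.** -/
theorem pow_den {ι : Type} [Countable ι] {F : ι → Type} [∀ i, Field (F i)] (E E' : ∀ i, ℕ → ℝ → Set (F i))
    (h : ∀ i k, ∃ C T₀ T₁ : ℝ, (∀ T : ℝ, T₀ ≤ T → (E' i k T).Finite ∧
      ((E' i k T).ncard : ℝ) ≤ C * T ^ (1 / ((k : ℝ) + 1))) ∧
      ∀ T T' : ℝ, T₁ ≤ T → T ≤ T' → T' ≤ 2 * T → E i k T ⊆ E' i k T') :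
    ∃ Z : Set ℝ, dimH Z = 0 ∧ ∀ α : ℝ, 1 < α → α ∉ Z → ∀ (i : ι) (l : ℝ), l < 1 → ∃ k : ℕ, ∀ R : ℕ, 1 ≤ R →
      ∀ c : ℝ, 0 < c → IsAlgebraic ℚ c → ∀ (j : ℤ) (D : ℝ), ∀ᶠ N : ℕ in atTop, ∀ q : ℕ, 1 ≤ q → NearPow α c j D l N q →
        ∀ x : F i, den x = q → x ∉ E i k (R * q) := by
  choose C T₀ T₁ hbd sub using h
  obtain ⟨Z, hZ, hz⟩ := pow_zero_inf (ι := ι) (κ := {R : ℕ // 1 ≤ R})
    (fun i R k q => max (T₀ i k) (T₁ i k) ≤ q ∧ ∃ x ∈ E i k ((R.1 : ℕ) * (q : ℝ)), den x = q) (fun i R k =>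
      den_few (E i k) (E' i k) R.1 R.2 (C i k) _ (T₀ i k) (T₁ i k) (by positivity) (hbd i k) (sub i k))
  refine ⟨Z, hZ, fun α hα hαZ i l hl => ?_⟩
  obtain ⟨k, hk⟩ := hz α hα hαZ i l hl
  refine ⟨k, fun R hR c hc hca j D => ?_⟩
  filter_upwards [hk ⟨R, hR⟩ c hc hca j D, near_large hα hc j D hl (max (T₀ i k) (T₁ i k))] with N hN hN1 q hq hnear x hx hxE
  exact hN q hq hnear ⟨hN1 q hnear, x, hxE, hx⟩

end Pool.Agent.Q138.PS
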