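import Pool.Agent.Q138.PS.XX
import Pool.Agent.Q138.PS.XA

/-!
Real multiples of sequences of at least polynomial growth: all large terms avoid thin sets, for all real numbers outside a small
set.
-/

set_option autoImplicit false

namespace Pool.Agent.Q138.PS

open Filter Topology MeasureTheory Set

/-- the integer `m` is close to `α v` -/
def NearMul (α v D l : ℝ) (m : ℕ) : Prop := |(m : ℝ) - α * v| ≤ D * (α * v) ^ l

/-- the pairs of an element `m` with the property `X` and an index `n ≥ n₀` with `0 < a n ≤ A m` -/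
def MulPairs (X : ℕ → Prop) (a : ℕ → ℝ) (n₀ : ℕ) (A : ℝ) : Set (ℕ × ℕ) :=
  {s | (1 ≤ s.1 ∧ X s.1) ∧ n₀ ≤ s.2 ∧ 0 < a s.2 ∧ a s.2 ≤ A * s.1}

theorem mulPairs_count (X : ℕ → Prop) (a : ℕ → ℝ) (n₀ : ℕ) (A K e s : ℝ) (hA : 0 ≤ A) (hs : 0 < s) (he : 0 ≤ e)
    (ha : ∀ n, n₀ ≤ n → (n : ℝ) ^ s ≤ K * a n) (h : ∃ C : ℝ, ∀ Y : ℕ, 1 ≤ Y → cn X Y ≤ C * (Y : ℝ) ^ e) :
    ∃ C : ℝ, ∀ T : ℝ, 1 ≤ T → {p | p ∈ MulPairs X a n₀ A ∧ max 1 (p.1 : ℝ) ≤ T}.Finite ∧
      (({p | p ∈ MulPairs X a n₀ A ∧ max 1 (p.1 : ℝ) ≤ T}).ncard : ℝ) ≤ C * T ^ (e + 1 / s) := by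
  obtain ⟨C, hC⟩ := h
  have hC' := cn_pow he hC
  have hK : 0 ≤ |K| := abs_nonneg K
  refine ⟨|C| * ((|K| * A) ^ (1 / s) + 1), fun T hT => ?_⟩
  have hT0 : 0 < T := by linarith
  set M : Set ℕ := {m | m ∈ {m | 1 ≤ m ∧ X m} ∧ (m : ℝ) ≤ T} with hM
  have hMfin : M.Finite := (Set.finite_Iic ⌊T⌋₊).subset fun m hm => Nat.le_floor hm.2
  set N : ℕ := ⌊(|K| * A * T) ^ (1 / s)⌋₊ with hN
  have hsub : {p | p ∈ MulPairs X a n₀ A ∧ max 1 (p.1 : ℝ) ≤ T} ⊆ M ×ˢ (Finset.range (N + 1) : Set ℕ) := by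
    rintro ⟨m, n⟩ ⟨⟨h1, h2, h3, h4⟩, h5⟩
    have h6 : (m : ℝ) ≤ T := (le_max_right _ _).trans h5
    refine ⟨⟨h1, h6⟩, ?_⟩
    have h7 : (n : ℝ) ^ s ≤ |K| * A * T := by
      calc (n : ℝ) ^ s ≤ K * a n := ha n h2
        _ ≤ |K| * a n := mul_le_mul_of_nonneg_right (le_abs_self K) h3.le
        _ ≤ |K| * (A * m) := mul_le_mul_of_nonneg_left h4 hK
        _ ≤ |K| * (A * T) := by gcongr
        _ = |K| * A * T := by ring
    have h8 : (n : ℝ) ≤ (|K| * A * T) ^ (1 / s) := by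
      have h9 := Real.rpow_le_rpow (by positivity) h7 (show 0 ≤ 1 / s by positivity)
      rwa [← Real.rpow_mul (by positivity), mul_one_div_cancel hs.ne', Real.rpow_one] at h9
    have h9 : n ≤ N := Nat.le_floor h8
    simp only [Finset.coe_range, Set.mem_Iio]
    omega
  have hfin : (M ×ˢ (Finset.range (N + 1) : Set ℕ)).Finite := hMfin.prod (Finset.finite_toSet _)
  refine ⟨hfin.subset hsub, ?_⟩
  have h1 : (({p | p ∈ MulPairs X a n₀ A ∧ max 1 (p.1 : ℝ) ≤ T}).ncard : ℝ) ≤ (M.ncard : ℝ) * (N + 1) := by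
    have h2 := Set.ncard_le_ncard hsub hfin
    rw [Set.ncard_prod, Set.ncard_coe_finset, Finset.card_range] at h2
    exact_mod_cast h2
  have h2 : (N : ℝ) ≤ (|K| * A * T) ^ (1 / s) := Nat.floor_le (by positivity)
  have h3 : (|K| * A * T) ^ (1 / s) = (|K| * A) ^ (1 / s) * T ^ (1 / s) := Real.mul_rpow (by positivity) hT0.le
  have h4 : 1 ≤ T ^ (1 / s) := Real.one_le_rpow hT (by positivity)
  have h5 : (N : ℝ) + 1 ≤ ((|K| * A) ^ (1 / s) + 1) * T ^ (1 / s) := by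
    rw [h3] at h2
    nlinarith
  have h6 : (M.ncard : ℝ) ≤ |C| * T ^ e := hC' T hT
  refine h1.trans ((mul_le_mul h6 h5 (by positivity) (by positivity)).trans (le_of_eq ?_))
  rw [Real.rpow_add hT0]
  ring

/-- **Real multiples.** Countably many properties with at most `C Y ^ e` integers up to `Y`, countably many sequences with
`n ^ s ≤ K a(n)` for large `n`: outside a set of real `α` of dimension at most `(e + 1 / s) / (1 - l)` no integer within
`D (α a(n)) ^ l` of `α a(n)` has one of the properties, for all large `n`. -/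
theorem mul_windows {ι κ : Type} [Countable ι] [Countable κ] (X : ι → ℕ → Prop) (a : κ → ℕ → ℝ) (e s l : ℝ) (he : 0 ≤ e)
    (hs : 0 < s) (hl : l < 1) (h : ∀ i, ∃ C : ℝ, ∀ Y : ℕ, 1 ≤ Y → cn (X i) Y ≤ C * (Y : ℝ) ^ e)
    (ha : ∀ j, ∃ K : ℝ, 0 < K ∧ ∀ᶠ n : ℕ in atTop, (n : ℝ) ^ s ≤ K * a j n) :
    ∃ E : Set ℝ, dimH E ≤ ENNReal.ofReal ((e + 1 / s) / (1 - l)) ∧ ∀ α : ℝ, 0 < α → α ∉ E → ∀ (i : ι) (j : κ) (D : ℝ),
      ∀ᶠ n : ℕ in atTop, ∀ m : ℕ, 1 ≤ m → NearMul α (a j n) D l m → ¬ X i m := by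
  choose K hK hKa using ha
  have hn₀ : ∀ j, ∃ n₀ : ℕ, ∀ n, n₀ ≤ n → (n : ℝ) ^ s ≤ K j * a j n := fun j => eventually_atTop.1 (hKa j)
  choose n₀ hn₀ using hn₀
  have h1 : ∀ q : ι × κ × ℕ, ∃ Z : Set ℝ, dimH Z ≤ ENNReal.ofReal ((e + 1 / s) / (1 - l)) ∧ ∀ z, z ∉ Z → ∀ D : ℝ,
      {p : ℕ × ℕ | p ∈ MulPairs (X q.1) (a q.2.1) (n₀ q.2.1) (2 * ((q.2.2 : ℝ) + 1)) ∧
        dist ((p.1 : ℝ) / a q.2.1 p.2) z ≤ D * (max 1 (p.1 : ℝ)) ^ (-(1 - l))}.Finite := by
    intro q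
    obtain ⟨Z, hZ, hz⟩ := fin_seq (J := Unit) (fun p : ℕ × ℕ => (p.1 : ℝ) / a q.2.1 p.2)
      (fun _ => MulPairs (X q.1) (a q.2.1) (n₀ q.2.1) (2 * ((q.2.2 : ℝ) + 1))) (fun p => max 1 (p.1 : ℝ))
      (fun p => le_max_left _ _) (e + 1 / s) (by positivity)
      (fun _ => mulPairs_count (X q.1) (a q.2.1) (n₀ q.2.1) _ (K q.2.1) e s (by positivity) hs he (hn₀ q.2.1) (h q.1))
      (1 - l) (by linarith)
    exact ⟨Z, hZ, fun z hz' D => hz z hz' () D⟩
  choose Z hZ hz using h1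
  refine ⟨⋃ q, Z q, ?_, ?_⟩
  · rw [dimH_iUnion]
    exact iSup_le fun q => hZ q
  · intro α hα hαE i j D
    simp only [Set.mem_iUnion, not_exists] at hαE
    obtain ⟨r, hr⟩ := exists_nat_one_div_lt hα
    have hfin := hz (i, j, r) α (hαE (i, j, r)) (|D| * α * (2 : ℝ) ^ |1 - l|)
    -- the values tend to infinity
    have hva : Tendsto (fun n => α * a j n) atTop atTop := by
      have h2 : Tendsto (fun n : ℕ => α / K j * (n : ℝ) ^ s) atTop atTop :=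
        ((tendsto_rpow_atTop hs).comp tendsto_natCast_atTop_atTop).const_mul_atTop (div_pos hα (hK j))
      refine tendsto_atTop_mono' _ ?_ h2
      filter_upwards [hKa j] with n hn
      have h3 : α / K j * (n : ℝ) ^ s ≤ α / K j * (K j * a j n) :=
        mul_le_mul_of_nonneg_left hn (div_pos hα (hK j)).le
      have h4 : α / K j * (K j * a j n) = α * a j n := by
        have := (hK j).ne'
        field_simp
      linarith
    have hhalf : ∀ᶠ v : ℝ in atTop, |D| * v ^ l ≤ v / 2 := by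
      have h2 : Tendsto (fun v : ℝ => |D| * v ^ (-(1 - l))) atTop (𝓝 (|D| * 0)) :=
        (tendsto_rpow_neg_atTop (by linarith)).const_mul _
      rw [mul_zero] at h2
      filter_upwards [h2.eventually_lt_const (show (0 : ℝ) < 1 / 2 by norm_num), eventually_gt_atTop 0] with v hv hv0
      have h3 : v ^ l = v ^ (-(1 - l)) * v := by
        rw [← Real.rpow_add_one hv0.ne']
        congr 1
        ring
      rw [h3]
      nlinarith
    have hfin2 : (Prod.snd '' {p : ℕ × ℕ | p ∈ MulPairs (X i) (a j) (n₀ j) (2 * ((r : ℝ) + 1)) ∧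
        dist ((p.1 : ℝ) / a j p.2) α ≤ (|D| * α * (2 : ℝ) ^ |1 - l|) * (max 1 (p.1 : ℝ)) ^ (-(1 - l))}).Finite :=
      hfin.image _
    have hev : ∀ᶠ n : ℕ in atTop, n ∉ (Prod.snd '' {p : ℕ × ℕ | p ∈ MulPairs (X i) (a j) (n₀ j) (2 * ((r : ℝ) + 1)) ∧
        dist ((p.1 : ℝ) / a j p.2) α ≤ (|D| * α * (2 : ℝ) ^ |1 - l|) * (max 1 (p.1 : ℝ)) ^ (-(1 - l))}) := by
      rw [← Nat.cofinite_eq_atTop]
      exact hfin2.compl_mem_cofinite
    filter_upwards [hev, hva.eventually hhalf, hva.eventually_gt_atTop 2, eventually_ge_atTop (n₀ j)] with n hn hn2 hn3 hn4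
      m hm hnear hX
    refine hn ⟨(m, n), ⟨⟨⟨hm, hX⟩, hn4, ?_, ?_⟩, ?_⟩, rfl⟩
    · by_contra hcon
      have := mul_nonpos_of_nonneg_of_nonpos hα.le (not_lt.1 hcon)
      linarith
    all_goals
      have hv0 : 0 < α * a j n := by linarith
      have ha0 : 0 < a j n := pos_of_mul_pos_right hv0 hα.le
      have hd : |(m : ℝ) - α * a j n| ≤ |D| * (α * a j n) ^ l :=
        hnear.trans (mul_le_mul_of_nonneg_right (le_abs_self D) (by positivity))
      have hd2 := abs_le.1 (hd.trans hn2)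
      have hm1 : (1 : ℝ) ≤ m := by exact_mod_cast hm
    · show a j n ≤ 2 * ((r : ℝ) + 1) * m
      have h2 : α * a j n ≤ 2 * m := by linarith
      have h3 : 1 ≤ ((r : ℝ) + 1) * α := by
        have h4 : (0 : ℝ) < (r : ℝ) + 1 := by positivity
        have h5 := (div_lt_iff₀ h4).1 hr
        linarith
      calc a j n = 1 * a j n := (one_mul _).symm
        _ ≤ ((r : ℝ) + 1) * α * a j n := mul_le_mul_of_nonneg_right h3 ha0.le
        _ = ((r : ℝ) + 1) * (α * a j n) := by ring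
        _ ≤ ((r : ℝ) + 1) * (2 * m) := mul_le_mul_of_nonneg_left h2 (by positivity)
        _ = 2 * ((r : ℝ) + 1) * m := by ring
    · show dist ((m : ℝ) / a j n) α ≤ _
      rw [max_eq_right hm1, Real.dist_eq]
      have h2 : (m : ℝ) / a j n - α = ((m : ℝ) - α * a j n) / a j n := by
        field_simp
      rw [h2, abs_div, abs_of_pos ha0]
      have h3 : (α * a j n) ^ l = (α * a j n) ^ (-(1 - l)) * (α * a j n) := by
        rw [← Real.rpow_add_one hv0.ne']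
        congr 1
        ring
      have h4 : (α * a j n) ^ (-(1 - l)) ≤ 2 ^ |1 - l| * (m : ℝ) ^ (-(1 - l)) := by
        have h5 : (m : ℝ) ≤ 2 * (α * a j n) := by linarith
        have h6 : (2 * (α * a j n)) ^ (-(1 - l)) ≤ (m : ℝ) ^ (-(1 - l)) :=
          Real.rpow_le_rpow_of_nonpos (by linarith) h5 (by linarith)
        rw [Real.mul_rpow (by norm_num) hv0.le] at h6
        have h7 : (2 : ℝ) ^ |1 - l| * 2 ^ (-(1 - l)) = 1 := by
          rw [abs_of_pos (by linarith), ← Real.rpow_add (by norm_num), add_neg_cancel, Real.rpow_zero]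
        calc (α * a j n) ^ (-(1 - l)) = 2 ^ |1 - l| * (2 ^ (-(1 - l)) * (α * a j n) ^ (-(1 - l))) := by
              rw [← mul_assoc, h7, one_mul]
          _ ≤ 2 ^ |1 - l| * (m : ℝ) ^ (-(1 - l)) := mul_le_mul_of_nonneg_left h6 (by positivity)
      rw [div_le_iff₀ ha0]
      calc |(m : ℝ) - α * a j n| ≤ |D| * (α * a j n) ^ l := hd
        _ = |D| * ((α * a j n) ^ (-(1 - l)) * (α * a j n)) := by rw [h3]
        _ ≤ |D| * (2 ^ |1 - l| * (m : ℝ) ^ (-(1 - l)) * (α * a j n)) := by gcongr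
        _ = |D| * α * 2 ^ |1 - l| * (m : ℝ) ^ (-(1 - l)) * a j n := by ring

end Pool.Agent.Q138.PS
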