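import Pool.Agent.Q138.PS.XY

/-!
Real multiples of the values of polynomials: all large values avoid thin sets, for all real numbers outside a small set.
-/

set_option autoImplicit false

namespace Pool.Agent.Q138.PS

open Filter Topology MeasureTheory Set

/-- a real polynomial with algebraic coefficients, of degree at least `s`, with positive leading coefficient -/
def PolyOK (s : ℕ) (P : Polynomial ℝ) : Prop := (∀ i, IsAlgebraic ℚ (P.coeff i)) ∧ s ≤ P.natDegree ∧ 0 < P.leadingCoeff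

theorem polyOK_countable (s : ℕ) : Countable {P : Polynomial ℝ // PolyOK s P} := by
  have hA : Countable {c : ℝ // IsAlgebraic ℚ c} := (Algebraic.countable ℚ ℝ).to_subtype
  let f : {P : Polynomial ℝ // PolyOK s P} → Σ d : ℕ, (Fin (d + 1) → {c : ℝ // IsAlgebraic ℚ c}) :=
    fun P => ⟨P.1.natDegree, fun i => ⟨P.1.coeff i, P.2.1 i⟩⟩
  have hg : ∀ P : {P : Polynomial ℝ // PolyOK s P}, P.1 =
      ∑ i : Fin ((f P).1 + 1), Polynomial.monomial (i : ℕ) (((f P).2 i : {c : ℝ // IsAlgebraic ℚ c}) : ℝ) := by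
    intro P
    conv_lhs => rw [P.1.as_sum_range]
    rw [Finset.sum_range]
  refine Function.Injective.countable (f := f) fun P Q h => Subtype.ext ?_
  rw [hg P, hg Q, h]

theorem poly_growth (P : Polynomial ℝ) (s : ℕ) (h : s ≤ P.natDegree) (hl : 0 < P.leadingCoeff) :
    ∃ K : ℝ, 0 < K ∧ ∀ᶠ n : ℕ in atTop, (n : ℝ) ^ (s : ℝ) ≤ K * P.eval (n : ℝ) := by
  refine ⟨2 / P.leadingCoeff, by positivity, ?_⟩
  have h1 : ∀ᶠ x : ℝ in atTop, P.leadingCoeff / 2 * x ^ P.natDegree ≤ P.eval x := by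
    have h2 := (Polynomial.isEquivalent_atTop_lead P).isLittleO
    have h3 := h2.bound (show (0 : ℝ) < 1 / 2 by norm_num)
    filter_upwards [h3, eventually_gt_atTop 0] with x hx hx0
    have h4 : 0 < P.leadingCoeff * x ^ P.natDegree := by positivity
    simp only [Pi.sub_apply, Real.norm_eq_abs, abs_of_pos h4] at hx
    have h5 := (abs_le.1 hx).1
    linarith
  filter_upwards [tendsto_natCast_atTop_atTop.eventually h1, eventually_ge_atTop 1] with n hn hn1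
  have hn1' : (1 : ℝ) ≤ n := by exact_mod_cast hn1
  rw [Real.rpow_natCast]
  calc (n : ℝ) ^ s ≤ (n : ℝ) ^ P.natDegree := pow_le_pow_right₀ hn1' h
    _ = 2 / P.leadingCoeff * (P.leadingCoeff / 2 * (n : ℝ) ^ P.natDegree) := by
        field_simp
    _ ≤ 2 / P.leadingCoeff * P.eval (n : ℝ) := mul_le_mul_of_nonneg_left hn (by positivity)

/-- **Real multiples of polynomial values**, count `C Y ^ e`. -/
theorem mul_poly {ι : Type} [Countable ι] (X : ι → ℕ → Prop) (e l : ℝ) (s : ℕ) (he : 0 ≤ e)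
    (hs : 1 ≤ s) (hl : l < 1) (h : ∀ i, ∃ C : ℝ, ∀ Y : ℕ, 1 ≤ Y → cn (X i) Y ≤ C * (Y : ℝ) ^ e) :
    ∃ E : Set ℝ, dimH E ≤ ENNReal.ofReal ((e + 1 / s) / (1 - l)) ∧ ∀ α : ℝ, 0 < α → α ∉ E → ∀ (i : ι) (P : Polynomial ℝ),
      PolyOK s P → ∀ D : ℝ, ∀ᶠ n : ℕ in atTop, ∀ m : ℕ, 1 ≤ m → NearMul α (P.eval (n : ℝ)) D l m → ¬ X i m := by
  have hc := polyOK_countable s
  have hs0 : (0 : ℝ) < s := by exact_mod_cast hs
  obtain ⟨E, hE, hg⟩ := mul_windows (κ := {P : Polynomial ℝ // PolyOK s P}) X (fun P n => P.1.eval (n : ℝ)) e s l he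
    hs0 hl h (fun P => poly_growth P.1 s P.2.2.1 P.2.2.2)
  exact ⟨E, hE, fun α hα hαE i P hP D => hg α hα hαE i ⟨P, hP⟩ D⟩

/-- **Real multiples of polynomial values**, count `Y ^ ε`. -/
theorem mul_poly_inf {ι κ : Type} [Countable ι] [Countable κ] (X : ι → κ → ℕ → ℕ → Prop) (l : ℝ) (s : ℕ)
    (hs : 1 ≤ s) (hl : l < 1)
    (h : ∀ (i : ι) (r : κ) (k : ℕ), ∃ C : ℝ, ∀ Y : ℕ, 1 ≤ Y → cn (X i r k) Y ≤ C * (Y : ℝ) ^ (1 / ((k : ℝ) + 1))) :
    ∃ E : Set ℝ, dimH E ≤ ENNReal.ofReal (1 / s / (1 - l)) ∧ ∀ α : ℝ, 0 < α → α ∉ E → ∀ i : ι, ∃ k : ℕ,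
      ∀ (r : κ) (P : Polynomial ℝ), PolyOK s P → ∀ D : ℝ, ∀ᶠ n : ℕ in atTop, ∀ m : ℕ, 1 ≤ m →
        NearMul α (P.eval (n : ℝ)) D l m → ¬ X i r k m := by
  have h1 : ∀ (i : ι) (k : ℕ), ∃ E : Set ℝ,
      dimH E ≤ ENNReal.ofReal ((1 / ((k : ℝ) + 1) + 1 / s) / (1 - l)) ∧
      ∀ α : ℝ, 0 < α → α ∉ E → ∀ (r : κ) (P : Polynomial ℝ), PolyOK s P → ∀ D : ℝ, ∀ᶠ n : ℕ in atTop,
        ∀ m : ℕ, 1 ≤ m → NearMul α (P.eval (n : ℝ)) D l m → ¬ X i r k m := fun i k =>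
    mul_poly (fun r => X i r k) (1 / ((k : ℝ) + 1)) l s (by positivity) hs hl fun r => h i r k
  choose E hE hg using h1
  refine ⟨⋃ i, ⋂ k, E i k, ?_, fun α hα hαE i => ?_⟩
  · rw [dimH_iUnion]
    refine iSup_le fun i => ?_
    have h2 : ∀ k : ℕ, dimH (⋂ k, E i k) ≤ ENNReal.ofReal ((1 / ((k : ℝ) + 1) + 1 / s) / (1 - l)) := fun k =>
      (dimH_mono (Set.iInter_subset _ k)).trans (hE i k)
    have h3 : Tendsto (fun k : ℕ => ENNReal.ofReal ((1 / ((k : ℝ) + 1) + 1 / s) / (1 - l))) atTop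
        (𝓝 (ENNReal.ofReal ((0 + 1 / s) / (1 - l)))) := by
      refine ENNReal.tendsto_ofReal ?_
      exact ((tendsto_one_div_add_atTop_nhds_zero_nat (𝕜 := ℝ)).add_const _).div_const _
    rw [zero_add] at h3
    exact ge_of_tendsto' h3 h2
  · simp only [Set.mem_iUnion, Set.mem_iInter, not_exists, not_forall] at hαE
    obtain ⟨k, hk⟩ := hαE i
    exact ⟨k, hg i k α hα hk⟩

/-- the integers near the values are large -/
theorem nearMul_large {α : ℝ} (hα : 0 < α) {s : ℕ} (hs : 1 ≤ s) {P : Polynomial ℝ} (hP : PolyOK s P) (D : ℝ) {l : ℝ}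
    (hl : l < 1) (M : ℝ) : ∀ᶠ n : ℕ in atTop, ∀ m : ℕ, NearMul α (P.eval (n : ℝ)) D l m → M ≤ m := by
  have h1 : ∀ᶠ s : ℝ in atTop, |D| * s ^ l ≤ s / 2 := by
    have h2 : Tendsto (fun s : ℝ => |D| * s ^ (-(1 - l))) atTop (𝓝 (|D| * 0)) :=
      (tendsto_rpow_neg_atTop (by linarith)).const_mul _
    rw [mul_zero] at h2
    filter_upwards [h2.eventually_lt_const (show (0 : ℝ) < 1 / 2 by norm_num), eventually_gt_atTop 0] with s hs hs0
    have h3 : s ^ l = s ^ (-(1 - l)) * s := by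
      rw [← Real.rpow_add_one hs0.ne']
      congr 1
      ring
    rw [h3]
    nlinarith
  have hg : Tendsto (fun n : ℕ => α * P.eval (n : ℝ)) atTop atTop := by
    have hd : 0 < P.degree := by
      rw [← Polynomial.natDegree_pos_iff_degree_pos]
      exact lt_of_lt_of_le hs hP.2.1
    exact ((Polynomial.tendsto_atTop_of_leadingCoeff_nonneg P hd hP.2.2.le).comp tendsto_natCast_atTop_atTop).const_mul_atTop hα
  filter_upwards [hg.eventually h1, hg.eventually_ge_atTop (2 * |M|), hg.eventually_gt_atTop 0] with n hn hM h0 m hnear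
  have h2 := (abs_le.1 hnear).1
  have h3 : D * (α * P.eval (n : ℝ)) ^ l ≤ |D| * (α * P.eval (n : ℝ)) ^ l :=
    mul_le_mul_of_nonneg_right (le_abs_self D) (by positivity)
  have h4 := le_abs_self M
  linarith

/-- **Denominators near the real multiples of polynomial values.** -/
theorem mul_den {ι : Type} [Countable ι] {F : ι → Type} [∀ i, Field (F i)] (E E' : ∀ i, ℕ → ℝ → Set (F i)) (l : ℝ) (s : ℕ)
    (hs : 1 ≤ s) (hl : l < 1)
    (h : ∀ i k, ∃ C T₀ T₁ : ℝ, (∀ T : ℝ, T₀ ≤ T → (E' i k T).Finite ∧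
      ((E' i k T).ncard : ℝ) ≤ C * T ^ (1 / ((k : ℝ) + 1))) ∧
      ∀ T T' : ℝ, T₁ ≤ T → T ≤ T' → T' ≤ 2 * T → E i k T ⊆ E' i k T') :
    ∃ Z : Set ℝ, dimH Z ≤ ENNReal.ofReal (1 / s / (1 - l)) ∧ ∀ α : ℝ, 0 < α → α ∉ Z → ∀ i : ι, ∃ k : ℕ, ∀ R : ℕ, 1 ≤ R →
      ∀ P : Polynomial ℝ, PolyOK s P → ∀ D : ℝ, ∀ᶠ N : ℕ in atTop, ∀ q : ℕ, 1 ≤ q → NearMul α (P.eval (N : ℝ)) D l q →
        ∀ x : F i, den x = q → x ∉ E i k (R * q) := by
  choose C T₀ T₁ hbd sub using h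
  obtain ⟨Z, hZ, hz⟩ := mul_poly_inf (ι := ι) (κ := {R : ℕ // 1 ≤ R})
    (fun i R k q => max (T₀ i k) (T₁ i k) ≤ q ∧ ∃ x ∈ E i k ((R.1 : ℕ) * (q : ℝ)), den x = q) l s hs hl (fun i R k =>
      den_few (E i k) (E' i k) R.1 R.2 (C i k) _ (T₀ i k) (T₁ i k) (by positivity) (hbd i k) (sub i k))
  refine ⟨Z, hZ, fun α hα hαZ i => ?_⟩
  obtain ⟨k, hk⟩ := hz α hα hαZ i
  refine ⟨k, fun R hR P hP D => ?_⟩
  filter_upwards [hk ⟨R, hR⟩ P hP D, nearMul_large hα hs hP D hl (max (T₀ i k) (T₁ i k))] with N hN hN1 q hq hnear x hx hxE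
  exact hN q hq hnear ⟨hN1 q hnear, x, hxE, hx⟩

end Pool.Agent.Q138.PS
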