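import Pool.Agent.Q138.PS.WG
import Pool.Agent.Q138.PS.XX
import Pool.Agent.Q138.AJ.R26ad15g

/-!
The Gamma function at the elements of number fields: one-parameter families (helper module for the problem 26ad15).
-/

set_option autoImplicit false

namespace Pool.Agent.Q138.PS.GammaOne

open Filter Pool.Agent.Q138.PS Pool.Agent.Q138.AJ.R26ad15g

/-- the elements `t` of `K`, quotients of two integers of `K` with conjugates at most `T`, which are in `L` and exceptional: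
there is an approximate relation of degree at most `d` (up to `T ^ (-B)`) between the numbers `Γ(y_i(t))` whose coefficients are
values of polynomials of degree at most `d` with coefficients of size at most `T ^ A` -/
def Exc (K : IntermediateField ℚ ℂ) [NumberField K] {p q g : ℕ} (d : ℕ) (y : Fin p → ℂ → ℂ) (u : Fin q → Polynomial ℂ)
    (w : Polynomial ℂ) (ξ : Fin g → ℂ) (L : Set ℂ) (A B T : ℝ) : Set K :=
  {t | (fun _ => t) ∈ Exceptional (n := 1) K (algebraMap K ℂ) d (fun _ => y) (fun _ => u) (fun _ => w) ξ (fun _ => L) A B T}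

theorem mono (K : IntermediateField ℚ ℂ) [NumberField K] {p q g d : ℕ} {y : Fin p → ℂ → ℂ} {u : Fin q → Polynomial ℂ}
    {w : Polynomial ℂ} (ξ : Fin g → ℂ) {L : Set ℂ} {A B T T' : ℝ} (h1 : max 1 (2 ^ max B 0) ≤ T) (h2 : T ≤ T')
    (h3 : T' ≤ 2 * T) : Exc K d y u w ξ L A (max B 0 + 1) T ⊆ Exc K d y u w ξ L (max A 0) B T' := by
  have h4 : 1 ≤ T := (le_max_left _ _).trans h1
  rintro x ⟨hx, P, hP, hP', hc, e₀, hs, hv⟩
  refine ⟨fun j => ⟨(hx j).1, ?_⟩, P, hP, hP', fun e s φ => (hc e s φ).trans (num_coeff h4 h2), e₀, hs, hv.trans ?_⟩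
  · obtain ⟨a, b, hb, hab, he⟩ := (hx j).2
    exact ⟨a, b, hb, fun φ => ⟨(hab φ).1.trans h2, (hab φ).2.trans h2⟩, he⟩
  · exact mul_le_mul_of_nonneg_right (num_value h4 ((le_max_right _ _).trans h1) h2 h3) (norm_nonneg _)

theorem mono2 (K : IntermediateField ℚ ℂ) [NumberField K] {p q g d : ℕ} {y : Fin p → ℂ → ℂ} {u : Fin q → Polynomial ℂ}
    {w : Polynomial ℂ} (ξ : Fin g → ℂ) {L L' : Set ℂ} {A A' B T : ℝ} (h1 : 1 ≤ T) (h2 : A ≤ A') (h3 : L ⊆ L') :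
    Exc K d y u w ξ L A B T ⊆ Exc K d y u w ξ L' A' B T := by
  rintro x ⟨hx, P, hP, hP', hc, hs⟩
  exact ⟨fun j => ⟨h3 (hx j).1, (hx j).2⟩, P, hP, hP', fun e s φ => (hc e s φ).trans
    (Real.rpow_le_rpow_of_exponent_le h1 h2), hs⟩

theorem card_le (K : IntermediateField ℚ ℂ) [NumberField K] {p q g d : ℕ} {y : Fin p → ℂ → ℂ} {u : Fin q → Polynomial ℂ}
    {w : Polynomial ℂ} (ξ : Fin g → ℂ) {L : Set ℂ} {A B T M : ℝ}
    (h : (Exceptional (n := 1) K (algebraMap K ℂ) d (fun _ => y) (fun _ => u) (fun _ => w) ξ (fun _ => L) A B T).Finite)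
    (h' : ((Exceptional (n := 1) K (algebraMap K ℂ) d (fun _ => y) (fun _ => u) (fun _ => w) ξ (fun _ => L) A B T).ncard : ℝ) ≤
      M) : (Exc K d y u w ξ L A B T).Finite ∧ ((Exc K d y u w ξ L A B T).ncard : ℝ) ≤ M := by
  have hinj : Function.Injective fun (t : K) (_ : Fin 1) => t := fun a b h => congrFun h 0
  refine ⟨h.preimage hinj.injOn, le_trans ((Nat.cast_le (α := ℝ)).2 ?_) h'⟩
  exact Set.ncard_le_ncard_of_injOn (fun (t : K) (_ : Fin 1) => t) (fun t ht => ht) hinj.injOn h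

/-- the good parameters -/
def Good {p : ℕ} (Ω : Set ℂ) (y : Fin p → ℂ → ℂ) (w : Polynomial ℂ) : Set ℂ :=
  {t | t ∈ Ω ∧ (∀ i, (Complex.Gamma (y i t))⁻¹ ≠ 0) ∧ w.eval t ≠ 0}

theorem good_open {p : ℕ} {Ω : Set ℂ} (hΩ : IsOpen Ω) {y : Fin p → ℂ → ℂ} (hy : ∀ i, DifferentiableOn ℂ (y i) Ω)
    (w : Polynomial ℂ) : IsOpen (Good Ω y w) := by
  have h1 : ∀ i, IsOpen {t | t ∈ Ω ∧ (Complex.Gamma (y i t))⁻¹ ≠ 0} := by
    intro i
    have h2 : ContinuousOn (fun t => (Complex.Gamma (y i t))⁻¹) Ω :=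
      (Complex.differentiable_one_div_Gamma.continuous).comp_continuousOn (hy i).continuousOn
    exact h2.isOpen_inter_preimage hΩ isOpen_ne
  have e : Good Ω y w = (Ω ∩ {t | w.eval t ≠ 0}) ∩ ⋂ i, ({t | t ∈ Ω ∧ (Complex.Gamma (y i t))⁻¹ ≠ 0}) := by
    ext t
    simp only [Good, Set.mem_ofPred_eq, Set.mem_inter_iff, Set.mem_iInter]
    constructor
    · rintro ⟨a, b, c⟩
      exact ⟨⟨a, c⟩, fun i => ⟨a, b i⟩⟩
    · rintro ⟨⟨a, c⟩, b⟩
      exact ⟨a, fun i => (b i).2, c⟩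
  rw [e]
  exact (hΩ.inter (isOpen_ne_fun w.continuous continuous_const)).inter (isOpen_iInter_of_finite h1)

/-- the count -/
theorem few (p q : ℕ) (Ω : Set ℂ) (hΩ : IsOpen Ω) (hΩc : IsPreconnected Ω)
    (y : Fin p → ℂ → ℂ) (hy : ∀ i, DifferentiableOn ℂ (y i) Ω)
    (halg : ∀ i, ∃ Q : Polynomial (Polynomial ℂ), Q ≠ 0 ∧ ∀ t ∈ Ω, Q.evalEval t (y i t) = 0)
    (hnc : ∀ i, ∀ v : ℂ, ¬ ∀ t ∈ Ω, y i t = v)
    (hH : ∀ i k, i ≠ k → ∀ a b : ℚ, ¬ ∀ t ∈ Ω, y i t = a * y k t + b)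
    (u : Fin q → Polynomial ℂ) (w : Polynomial ℂ) (K : IntermediateField ℚ ℂ) [NumberField K] {g : ℕ} (ξ : Fin g → ℂ)
    (d A r s : ℕ) : ∃ B C T₀ T₁ : ℝ, (∀ T : ℝ, T₀ ≤ T → (Exc K d y u w ξ (inner (Good Ω y w) r) (max (A : ℝ) 0) B T).Finite ∧
      ((Exc K d y u w ξ (inner (Good Ω y w) r) (max (A : ℝ) 0) B T).ncard : ℝ) ≤ C * T ^ (1 / ((s : ℝ) + 1))) ∧
      ∀ T T' : ℝ, T₁ ≤ T → T ≤ T' → T' ≤ 2 * T →
        Exc K d y u w ξ (inner (Good Ω y w) r) (A : ℝ) (max B 0 + 1) T ⊆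
          Exc K d y u w ξ (inner (Good Ω y w) r) (max (A : ℝ) 0) B T' := by
  obtain ⟨B, C, T₀, hbd⟩ := Pool.Agent.Q138.AJ.R26ad15g.result (Module.finrank ℚ K) 1 p q g d (fun _ => Ω) (fun _ => hΩ)
    (fun _ => hΩc) (fun _ => y) (fun _ => hy) (fun _ => halg) (fun _ => hnc) (fun _ => hH)
    (fun _ => inner (Good Ω y w) r) (fun _ => inner_compact _ r)
    (fun _ t ht => (inner_sub _ r ht).1) (fun _ t ht i l h => by
      refine (inner_sub _ r ht).2.1 i ?_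
      rw [(Complex.Gamma_eq_zero_iff _).2 ⟨l, h⟩, inv_zero]) (fun _ => u) (fun _ => w)
    (fun _ t ht => (inner_sub _ r ht).2.2) (max (A : ℝ) 0) (1 / ((s : ℝ) + 1)) (by positivity)
  refine ⟨B, C, T₀, max 1 (2 ^ max B 0), fun T hT => ?_, fun T T' h1 h2 h3 => mono K ξ h1 h2 h3⟩
  obtain ⟨h1, h2⟩ := hbd K le_rfl (algebraMap K ℂ) ξ T hT
  rw [Nat.sub_self, _root_.pow_zero, mul_one] at h2
  exact card_le K ξ h1 h2

end Pool.Agent.Q138.PS.GammaOne
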