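import Pool.Agent.Q138.AJ.R4ffbf9
import Pool.Agent.TH867.SR.LB
import Pool.Agent.Q138.PS.UC

/-!
The factors of the solutions of `A X + B Y = C Z` in products of small spread (helper module for the problem 4ffbf9).
-/

set_option autoImplicit false

namespace Pool.Agent.Q138.PS.Spread

open Pool.Agent.Q138.AJ.R4ffbf9 Pool.Agent.Y913 Pool.Agent.Y913.Zm Pool.Agent.Q138.PS

/-- `m` is a factor in a product representation of `W` of spread at most `S` and degree at least `R`. -/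
def HasFactor (S R m W : ℕ) : Prop :=
  ∃ l : List ℕ, m ∈ l ∧ l.prod = W ∧ R ≤ l.length ∧ (∀ a ∈ l, 1 ≤ a) ∧ ∀ a ∈ l, ∀ a' ∈ l, a ≤ a' + S

/-- `m` is a factor of a solution: there is a solution `(X, Y, Z)` of `A X + B Y = C Z`, `gcd (X, Y) ≤ Q rad (gcd (X, Y))`, in
products of spread at most `S`, of degrees at least `R`, with all factors at most `m ^ κ`, such that `m` is a factor in such a
product representation of `X`, `Y` or `Z`. -/
def Occurs (S Q R A B C κ m : ℕ) : Prop :=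
  ∃ w ∈ Solutions S Q (m ^ κ) R A B C, HasFactor S R m w.1 ∨ HasFactor S R m w.2.1 ∨ HasFactor S R m w.2.2

/-- a high power of a number near `m` divides the product -/
theorem HasFactor.pow_dvd {S k m W : ℕ} (h : HasFactor S ((S + 1) * k + 1) m W) :
    ∃ v : ℕ, 1 ≤ v ∧ v ≤ m + S ∧ m ≤ v + S ∧ v ^ k ∣ W := by
  obtain ⟨l, hm, h1, h2, h3, h4⟩ := h
  obtain ⟨b, hb, hmin⟩ := Finset.exists_min_image l.toFinset (fun a => a) ⟨m, List.mem_toFinset.2 hm⟩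
  have hbl : b ∈ l := List.mem_toFinset.1 hb
  obtain ⟨e, he1, he2⟩ := list_rep b S l fun a ha => ⟨hmin a (List.mem_toFinset.2 ha), h4 a ha b hbl⟩
  have h5 : ∃ t, k ≤ e t := by
    by_contra hcon
    push Not at hcon
    have h6 : ∑ t, e t ≤ ∑ _t : Fin (S + 1), k := Finset.sum_le_sum (fun t _ => (hcon t).le)
    rw [Finset.sum_const, Finset.card_univ, Fintype.card_fin, smul_eq_mul, he2] at h6
    omega
  obtain ⟨t, ht⟩ := h5
  have h6 := hmin m (List.mem_toFinset.2 hm)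
  have h7 := h4 m hm b hbl
  have h8 := h3 b hbl
  have h9 := t.2
  refine ⟨b + t, by omega, by omega, by omega, ?_⟩
  rw [← h1, he1]
  exact (pow_dvd_pow _ ht).trans (Finset.dvd_prod_of_mem (fun t : Fin (S + 1) => (b + (t : ℕ)) ^ e t) (Finset.mem_univ t))

/-- the product of the coprime pair and its sum -/
def trip (q : ℕ × ℕ) : ℕ := q.1 * q.2 * (q.1 + q.2)

/-- the bound for the valuations of the greatest common divisor -/
theorem gcd_val {S Q T R A B C : ℕ} (hA : 0 < A) (hB : 0 < B) {w : ℕ × ℕ × ℕ} (h : Sw S Q T R A B C w) (p : ℕ) :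
    (Nat.gcd (A * w.1) (B * w.2.1)).factorization p ≤ A + B + (Q + 1) := by
  obtain ⟨heq, hg, hX, hY, hZ⟩ := h
  have hX0 := hX.pos
  have hY0 := hY.pos
  have hg0 : 0 < Nat.gcd w.1 w.2.1 := Nat.gcd_pos_of_pos_left _ hX0
  have hG0 : 0 < Nat.gcd (A * w.1) (B * w.2.1) := Nat.gcd_pos_of_pos_left _ (Nat.mul_pos hA hX0)
  have hABg : A * B * Nat.gcd w.1 w.2.1 ≠ 0 := by positivity
  have h1 := (Nat.factorization_le_iff_dvd hG0.ne' hABg).mpr (gcd_dvd A B w.1 w.2.1) p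
  rw [Nat.factorization_mul (by positivity) hg0.ne', Nat.factorization_mul hA.ne' hB.ne'] at h1
  simp only [Finsupp.add_apply] at h1
  have h2 := Nat.factorization_lt (n := A) p hA.ne'
  have h3 := Nat.factorization_lt (n := B) p hB.ne'
  have h4 := rad_fact hg0 hg p
  omega

/-- primes with a high power dividing one of the three products divide the coprime triple -/
theorem prime_trip {S Q T R A B C : ℕ} (hA : 0 < A) (hB : 0 < B) (hC : 0 < C) {w : ℕ × ℕ × ℕ} (h : Sw S Q T R A B C w)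
    {v : ℕ} (hv : v ^ (A + B + (Q + 1) + 1) ∣ w.1 ∨ v ^ (A + B + (Q + 1) + 1) ∣ w.2.1 ∨ v ^ (A + B + (Q + 1) + 1) ∣ w.2.2)
    {p : ℕ} (hp : p.Prime) (hpv : p ∣ v) : p ∣ trip (Cp A B w) := by
  obtain ⟨hG0, d1, d2, d3⟩ := decomp hA hB h
  have hGM := gcd_val hA hB h p
  obtain ⟨G, hG⟩ : ∃ G, G = Nat.gcd (A * w.1) (B * w.2.1) := ⟨_, rfl⟩
  rw [← hG] at hG0 d1 d2 d3 hGM
  obtain ⟨M, hM⟩ : ∃ M, M = A + B + (Q + 1) := ⟨_, rfl⟩
  rw [← hM] at hv hGM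
  have key : ∀ D W q : ℕ, 0 < D → 0 < W → D * W = q * G → v ^ (M + 1) ∣ W → p ∣ q := by
    intro D W q hD hW hq hvW
    have h1 : p ^ (M + 1) ∣ D * W := ((pow_dvd_pow_of_dvd hpv _).trans hvW).mul_left _
    have hDW : D * W ≠ 0 := by positivity
    have hq0 : q ≠ 0 := by
      rintro rfl
      rw [zero_mul] at hq
      exact hDW hq
    have h2 : M + 1 ≤ (D * W).factorization p := (hp.pow_dvd_iff_le_factorization hDW).1 h1
    rw [hq, Nat.factorization_mul hq0 hG0.ne', Finsupp.add_apply] at h2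
    exact Nat.dvd_of_factorization_pos (by omega)
  obtain ⟨-, -, hX, hY, hZ⟩ := h
  unfold trip
  rcases hv with hv | hv | hv
  · exact ((key A w.1 _ hA hX.pos d1 hv).mul_right _).mul_right _
  · exact ((key B w.2.1 _ hB hY.pos d2 hv).mul_left _).mul_right _
  · exact (key C w.2.2 _ hC hZ.pos d3 hv).mul_left _

/-- the product of the radicals -/
def radw (A B C : ℕ) (w : ℕ × ℕ × ℕ) : ℕ :=
  A * B * C * ((∏ p ∈ w.1.primeFactors, p) * (∏ p ∈ w.2.1.primeFactors, p) * ∏ p ∈ w.2.2.primeFactors, p)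

theorem rad_pos (n : ℕ) : 0 < ∏ p ∈ n.primeFactors, p :=
  Finset.prod_pos fun p hp => (Nat.prime_of_mem_primeFactors hp).pos

theorem radw_pos {A B C : ℕ} (hA : 0 < A) (hB : 0 < B) (hC : 0 < C) (w : ℕ × ℕ × ℕ) : 0 < radw A B C w := by
  unfold radw
  have h1 := rad_pos w.1
  have h2 := rad_pos w.2.1
  have h3 := rad_pos w.2.2
  positivity

theorem trip_radw {S Q T R A B C : ℕ} (hA : 0 < A) (hB : 0 < B) {w : ℕ × ℕ × ℕ} (h : Sw S Q T R A B C w)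
    {p : ℕ} (hp : p.Prime) (hd : p ∣ trip (Cp A B w)) : p ∣ radw A B C w := by
  obtain ⟨hG0, d1, d2, d3⟩ := decomp hA hB h
  obtain ⟨-, -, hX, hY, hZ⟩ := h
  have key : ∀ W : ℕ, 0 < W → p ∣ W → p ∣ ∏ p ∈ W.primeFactors, p := fun W hW hpW =>
    Finset.dvd_prod_of_mem (fun p => p) (Nat.mem_primeFactors.2 ⟨hp, hpW, hW.ne'⟩)
  unfold radw
  rcases (hp.dvd_mul).1 hd with h1 | h1
  · rcases (hp.dvd_mul).1 h1 with h1 | h1
    · have h2 : p ∣ A * w.1 := by rw [d1]; exact h1.mul_right _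
      rcases (hp.dvd_mul).1 h2 with h3 | h3
      · exact ((h3.mul_right _).mul_right _).mul_right _
      · exact (((key _ hX.pos h3).mul_right _).mul_right _).mul_left _
    · have h2 : p ∣ B * w.2.1 := by rw [d2]; exact h1.mul_right _
      rcases (hp.dvd_mul).1 h2 with h3 | h3
      · exact ((h3.mul_left _).mul_right _).mul_right _
      · exact (((key _ hY.pos h3).mul_left _).mul_right _).mul_left _
  · have h2 : p ∣ C * w.2.2 := by rw [d3]; exact h1.mul_right _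
    rcases (hp.dvd_mul).1 h2 with h3 | h3
    · exact (h3.mul_left _).mul_right _
    · exact ((key _ hZ.pos h3).mul_left _).mul_left _

theorem radw_le {S Q T R A B C : ℕ} {w : ℕ × ℕ × ℕ} (h : Sw S Q T R A B C w) :
    (radw A B C w : ℝ) ≤ (A * B * C : ℝ) * ((T : ℝ) + S) ^ (3 * (S + 1)) := by
  obtain ⟨-, -, hX, hY, hZ⟩ := h
  have h1 := hX.rad (Y := (T : ℝ) + S) le_rfl dvd_rfl
  have h2 := hY.rad (Y := (T : ℝ) + S) le_rfl dvd_rfl
  have h3 := hZ.rad (Y := (T : ℝ) + S) le_rfl dvd_rfl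
  unfold radw
  push_cast at h1 h2 h3 ⊢
  refine mul_le_mul_of_nonneg_left ?_ (by positivity)
  calc _ ≤ ((T : ℝ) + S) ^ (S + 1) * ((T : ℝ) + S) ^ (S + 1) * ((T : ℝ) + S) ^ (S + 1) := by
        refine mul_le_mul (mul_le_mul h1 h2 (by positivity) (by positivity)) h3 (by positivity) (by positivity)
    _ = _ := by rw [← pow_add, ← pow_add]; congr 1; ring

/-- **Few factors.** -/
theorem few (S Q A B C κ : ℕ) (hA : 0 < A) (hB : 0 < B) (hC : 0 < C) (ε : ℝ) (hε : 0 < ε) :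
    ∃ (R : ℕ) (C₀ : ℝ), ∀ Y : ℕ, 1 ≤ Y → cn (Occurs S Q R A B C κ) Y ≤ C₀ * (Y : ℝ) ^ ε := by
  classical
  set L : ℕ := κ + 1 + κ * (3 * (S + 1)) with hL
  have hL1 : 1 ≤ L := by omega
  have hLr : (0 : ℝ) < L := by exact_mod_cast hL1
  set ε₁ : ℝ := ε / L with hε₁
  have hε₁0 : 0 < ε₁ := by positivity
  obtain ⟨R₀, C₁, hR₀, hC₁, h⟩ := sw_count S Q A B C hA hB hC ε₁ hε₁0
  obtain ⟨D, hD, hsm⟩ := Pool.Agent.TH867.SR.smooth_count ε₁ hε₁0
  set M := A + B + (Q + 1) with hM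
  set k := max R₀ (M + 1) with hk
  refine ⟨(S + 1) * k + 1, C₁ * ((2 * S + 1) * (D * (S + 1 : ℝ) ^ ε₁ *
    ((A * B * C : ℝ) * ((S + 1 : ℝ)) ^ (3 * (S + 1))) ^ ε₁)), ?_⟩
  intro Y hY
  have hY1 : (1 : ℝ) ≤ Y := by exact_mod_cast hY
  have hY0 : (0 : ℝ) < Y := by linarith
  rw [cn_ncard]
  set E : Finset ℕ := (Finset.Icc 1 Y).filter fun m => Occurs S Q ((S + 1) * k + 1) A B C κ m with hE
  have e1 : {n : ℕ | 1 ≤ n ∧ n ≤ Y ∧ Occurs S Q ((S + 1) * k + 1) A B C κ n} = (E : Set ℕ) := by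
    ext n
    simp only [hE, Finset.coe_filter, Finset.mem_Icc]
    constructor
    · rintro ⟨a, b, c⟩; exact ⟨⟨a, b⟩, c⟩
    · rintro ⟨⟨a, b⟩, c⟩; exact ⟨a, b, c⟩
  rw [e1, Set.ncard_coe_finset]
  -- a solution for each factor
  have hw : ∀ m, m ∈ E → ∃ w : ℕ × ℕ × ℕ, Sw S Q (Y ^ κ) R₀ A B C w ∧
      ∃ v : ℕ, 1 ≤ v ∧ v ≤ m + S ∧ m ≤ v + S ∧ (v ^ (M + 1) ∣ w.1 ∨ v ^ (M + 1) ∣ w.2.1 ∨ v ^ (M + 1) ∣ w.2.2) := by
    intro m hm
    obtain ⟨h1, w, hw, h2⟩ := Finset.mem_filter.1 hm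
    have h3 := Finset.mem_Icc.1 h1
    have hle : m ^ κ ≤ Y ^ κ := Nat.pow_le_pow_left h3.2 κ
    have hP : ∀ {X : ℕ}, IsProduct S (m ^ κ) ((S + 1) * k + 1) X → Pw S (Y ^ κ) R₀ X := by
      intro X hX
      refine rep ?_
      obtain ⟨l, l1, l2, l3, l4⟩ := hX
      refine ⟨l, l1, le_trans ?_ l2, fun a ha => ⟨(l3 a ha).1, (l3 a ha).2.trans hle⟩, l4⟩
      have : (S + 1) * R₀ ≤ (S + 1) * k := Nat.mul_le_mul_left _ (le_max_left _ _)
      omega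
    obtain ⟨w1, w2, w3, w4, w5⟩ := hw
    have hF : ∀ {X : ℕ}, HasFactor S ((S + 1) * k + 1) m X → ∃ v : ℕ, 1 ≤ v ∧ v ≤ m + S ∧ m ≤ v + S ∧ v ^ (M + 1) ∣ X := by
      intro X hX
      obtain ⟨v, v1, v2, v3, v4⟩ := hX.pow_dvd
      exact ⟨v, v1, v2, v3, (pow_dvd_pow _ (le_max_right _ _)).trans v4⟩
    refine ⟨w, ⟨w1, w2, hP w3, hP w4, hP w5⟩, ?_⟩
    rcases h2 with h2 | h2 | h2
    · obtain ⟨v, v1, v2, v3, v4⟩ := hF h2
      exact ⟨v, v1, v2, v3, Or.inl v4⟩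
    · obtain ⟨v, v1, v2, v3, v4⟩ := hF h2
      exact ⟨v, v1, v2, v3, Or.inr (Or.inl v4)⟩
    · obtain ⟨v, v1, v2, v3, v4⟩ := hF h2
      exact ⟨v, v1, v2, v3, Or.inr (Or.inr v4)⟩
  choose! w hw v hv1 hv2 hv3 hv4 using hw
  set P : Finset (ℕ × ℕ) := E.image fun m => Cp A B (w m) with hP
  have hPc : (P.card : ℝ) ≤ C₁ * ((Y ^ κ : ℕ) : ℝ) ^ ε₁ := by
    refine h (Y ^ κ) (Nat.one_le_pow _ _ hY) P fun q hq => ?_
    obtain ⟨m, hm, rfl⟩ := Finset.mem_image.1 hq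
    exact ⟨w m, hw m hm, rfl⟩
  -- the fibres
  set N : ℝ := (2 * S + 1) * (D * (((S + 1) * Y : ℕ) : ℝ) ^ ε₁ *
    ((A * B * C : ℝ) * (((Y ^ κ : ℕ) : ℝ) + S) ^ (3 * (S + 1))) ^ ε₁) with hN
  have hfib : ∀ q ∈ P, ((E.filter fun m => Cp A B (w m) = q).card : ℝ) ≤ N := by
    intro q hq
    obtain ⟨m₀, hm₀, hq₀⟩ := Finset.mem_image.1 hq
    set V : Finset ℕ := (Finset.Icc 1 ((S + 1) * Y)).filter fun a => a.primeFactors ⊆ (radw A B C (w m₀)).primeFactors with hV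
    have hVc : (V.card : ℝ) ≤ D * (((S + 1) * Y : ℕ) : ℝ) ^ ε₁ * ((radw A B C (w m₀) : ℕ) : ℝ) ^ ε₁ :=
      hsm _ _ (Nat.mul_pos (by omega) hY) (radw_pos hA hB hC _)
    have hsub : (E.filter fun m => Cp A B (w m) = q) ⊆ V.biUnion fun a => Finset.Icc (a - S) (a + S) := by
      intro m hm
      obtain ⟨hmE, hmq⟩ := Finset.mem_filter.1 hm
      have hmY := (Finset.mem_Icc.1 (Finset.mem_filter.1 hmE).1)
      rw [Finset.mem_biUnion]
      refine ⟨v m, Finset.mem_filter.2 ⟨Finset.mem_Icc.2 ⟨hv1 m hmE, ?_⟩, ?_⟩, Finset.mem_Icc.2 ⟨?_, hv3 m hmE⟩⟩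
      · have h1 := hv2 m hmE
        have h2 : S ≤ S * Y := Nat.le_mul_of_pos_right S hY
        calc v m ≤ m + S := h1
          _ ≤ Y + S * Y := by omega
          _ = (S + 1) * Y := by ring
      · intro p hp
        have hpp := Nat.prime_of_mem_primeFactors hp
        have h1 := prime_trip hA hB hC (hw m hmE) (hv4 m hmE) hpp (Nat.dvd_of_mem_primeFactors hp)
        rw [hmq, ← hq₀] at h1
        exact Nat.mem_primeFactors.2 ⟨hpp, trip_radw hA hB (hw m₀ hm₀) hpp h1, (radw_pos hA hB hC _).ne'⟩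
      · have := hv2 m hmE
        omega
    have h1 : (E.filter fun m => Cp A B (w m) = q).card ≤ V.card * (2 * S + 1) := by
      refine (Finset.card_le_card hsub).trans (Finset.card_biUnion_le_card_mul _ _ _ fun a _ => ?_)
      rw [Nat.card_Icc]
      omega
    have h2 : ((E.filter fun m => Cp A B (w m) = q).card : ℝ) ≤ V.card * (2 * S + 1) := by exact_mod_cast h1
    refine h2.trans ?_
    rw [mul_comm, hN]
    refine mul_le_mul_of_nonneg_left (hVc.trans (mul_le_mul_of_nonneg_left ?_ (by positivity))) (by positivity)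
    exact Real.rpow_le_rpow (Nat.cast_nonneg _) (radw_le (hw m₀ hm₀)) hε₁0.le
  have hcard : (E.card : ℝ) ≤ P.card * N := by
    have h1 : E.card = ∑ q ∈ P, (E.filter fun m => Cp A B (w m) = q).card :=
      Finset.card_eq_sum_card_fiberwise fun m hm => Finset.mem_image_of_mem _ hm
    rw [h1]
    push_cast
    calc ∑ q ∈ P, ((E.filter fun m => Cp A B (w m) = q).card : ℝ) ≤ ∑ _q ∈ P, N := Finset.sum_le_sum hfib
      _ = P.card * N := by rw [Finset.sum_const, nsmul_eq_mul]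
  have hN0 : 0 ≤ N := by positivity
  refine hcard.trans ((mul_le_mul_of_nonneg_right hPc hN0).trans ?_)
  -- exponents
  have hYk : ((Y ^ κ : ℕ) : ℝ) = (Y : ℝ) ^ (κ : ℝ) := by push_cast; rw [Real.rpow_natCast]
  have hYk1 : (1 : ℝ) ≤ (Y : ℝ) ^ (κ : ℝ) := Real.one_le_rpow hY1 (Nat.cast_nonneg _)
  have i1 : ((Y ^ κ : ℕ) : ℝ) ^ ε₁ = (Y : ℝ) ^ (κ * ε₁) := by rw [hYk, ← Real.rpow_mul hY0.le]
  have i2 : (((S + 1) * Y : ℕ) : ℝ) ^ ε₁ = (S + 1 : ℝ) ^ ε₁ * (Y : ℝ) ^ ε₁ := by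
    push_cast
    rw [Real.mul_rpow (by positivity) hY0.le]
  have i3 : ((Y ^ κ : ℕ) : ℝ) + S ≤ (S + 1) * (Y : ℝ) ^ (κ : ℝ) := by
    rw [hYk]
    have : (0 : ℝ) ≤ S := Nat.cast_nonneg _
    nlinarith
  have i4 : ((A * B * C : ℝ) * (((Y ^ κ : ℕ) : ℝ) + S) ^ (3 * (S + 1))) ^ ε₁ ≤
      ((A * B * C : ℝ) * ((S + 1 : ℝ)) ^ (3 * (S + 1))) ^ ε₁ * (Y : ℝ) ^ (κ * (3 * (S + 1)) * ε₁) := by
    have j1 : ((Y : ℝ) ^ (κ * (3 * (S + 1)) * ε₁)) = (((Y : ℝ) ^ (κ : ℝ)) ^ (3 * (S + 1))) ^ ε₁ := by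
      rw [← Real.rpow_natCast, ← Real.rpow_mul hY0.le, ← Real.rpow_mul hY0.le]
      push_cast
      rfl
    rw [j1, ← Real.mul_rpow (by positivity) (by positivity)]
    refine Real.rpow_le_rpow (by positivity) ?_ hε₁0.le
    have e2 : (A * B * C : ℝ) * ((S + 1 : ℝ)) ^ (3 * (S + 1)) * ((Y : ℝ) ^ (κ : ℝ)) ^ (3 * (S + 1)) =
        (A * B * C : ℝ) * ((S + 1) * (Y : ℝ) ^ (κ : ℝ)) ^ (3 * (S + 1)) := by
      rw [mul_pow]
      ring
    rw [e2]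
    exact mul_le_mul_of_nonneg_left (pow_le_pow_left₀ (by positivity) i3 _) (by positivity)
  have hexp : (Y : ℝ) ^ ε = (Y : ℝ) ^ (κ * ε₁) * ((Y : ℝ) ^ ε₁ * (Y : ℝ) ^ (κ * (3 * (S + 1)) * ε₁)) := by
    rw [← Real.rpow_add hY0, ← Real.rpow_add hY0]
    congr 1
    have : ε = L * ε₁ := by rw [hε₁]; field_simp
    rw [this, hL]
    push_cast
    ring
  rw [hN, i1, i2, hexp]
  calc C₁ * (Y : ℝ) ^ (κ * ε₁) * ((2 * S + 1) * (D * ((S + 1 : ℝ) ^ ε₁ * (Y : ℝ) ^ ε₁) *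
        ((A * B * C : ℝ) * (((Y ^ κ : ℕ) : ℝ) + S) ^ (3 * (S + 1))) ^ ε₁))
      ≤ C₁ * (Y : ℝ) ^ (κ * ε₁) * ((2 * S + 1) * (D * ((S + 1 : ℝ) ^ ε₁ * (Y : ℝ) ^ ε₁) *
        (((A * B * C : ℝ) * ((S + 1 : ℝ)) ^ (3 * (S + 1))) ^ ε₁ * (Y : ℝ) ^ (κ * (3 * (S + 1)) * ε₁)))) := by gcongr
    _ = _ := by ring

end Pool.Agent.Q138.PS.Spread
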