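import Pool.Agent.Q138.PS.XZ

/-!
Powers and real multiples of polynomial values: counts `C Y ^ (e + ε)` for all `ε > 0`.
-/

set_option autoImplicit false

namespace Pool.Agent.Q138.PS

open Filter Topology MeasureTheory Set

/-- **Powers**, counts `C Y ^ (e + ε)`. -/
theorem pow_cn_eps {ι : Type} [Countable ι] (X : ι → ℕ → Prop) (e l : ℝ) (he : 0 ≤ e) (hl : l < 1)
    (h : ∀ i, ∀ ε : ℝ, 0 < ε → ∃ C : ℝ, ∀ Y : ℕ, 1 ≤ Y → cn (X i) Y ≤ C * (Y : ℝ) ^ (e + ε)) :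
    ∃ E : Set ℝ, dimH E ≤ ENNReal.ofReal (e / (1 - l)) ∧ ∀ α : ℝ, 1 < α → α ∉ E → ∀ (i : ι) (c : ℝ), 0 < c →
      IsAlgebraic ℚ c → ∀ (j : ℤ) (D : ℝ), ∀ᶠ n : ℕ in atTop, ∀ m : ℕ, 1 ≤ m → NearPow α c j D l n m → ¬ X i m := by
  have h1 : ∀ k : ℕ, ∃ E : Set ℝ, dimH E ≤ ENNReal.ofReal ((e + 1 / ((k : ℝ) + 1)) / (1 - l)) ∧
      ∀ α : ℝ, 1 < α → α ∉ E → ∀ (i : ι) (c : ℝ), 0 < c → IsAlgebraic ℚ c → ∀ (j : ℤ) (D : ℝ), ∀ᶠ n : ℕ in atTop,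
        ∀ m : ℕ, 1 ≤ m → NearPow α c j D l n m → ¬ X i m := fun k =>
    pow_cn X (e + 1 / ((k : ℝ) + 1)) l (by positivity) hl fun i => h i _ (by positivity)
  choose E hE hg using h1
  refine ⟨⋂ k, E k, ?_, fun α hα hαE => ?_⟩
  · have h2 : ∀ k : ℕ, dimH (⋂ k, E k) ≤ ENNReal.ofReal ((e + 1 / ((k : ℝ) + 1)) / (1 - l)) := fun k =>
      (dimH_mono (Set.iInter_subset _ k)).trans (hE k)
    have h3 : Tendsto (fun k : ℕ => ENNReal.ofReal ((e + 1 / ((k : ℝ) + 1)) / (1 - l))) atTop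
        (𝓝 (ENNReal.ofReal ((e + 0) / (1 - l)))) := by
      refine ENNReal.tendsto_ofReal ?_
      exact ((tendsto_one_div_add_atTop_nhds_zero_nat (𝕜 := ℝ)).const_add e).div_const _
    rw [add_zero] at h3
    exact ge_of_tendsto' h3 h2
  · simp only [Set.mem_iInter, not_forall] at hαE
    obtain ⟨k, hk⟩ := hαE
    exact hg k α hα hk

/-- **Real multiples of polynomial values**, counts `C Y ^ (e + ε)`. -/
theorem mul_poly_eps {ι : Type} [Countable ι] (X : ι → ℕ → Prop) (e l : ℝ) (s : ℕ) (he : 0 ≤ e)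
    (hs : 1 ≤ s) (hl : l < 1) (h : ∀ i, ∀ ε : ℝ, 0 < ε → ∃ C : ℝ, ∀ Y : ℕ, 1 ≤ Y → cn (X i) Y ≤ C * (Y : ℝ) ^ (e + ε)) :
    ∃ E : Set ℝ, dimH E ≤ ENNReal.ofReal ((e + 1 / s) / (1 - l)) ∧ ∀ α : ℝ, 0 < α → α ∉ E → ∀ (i : ι) (P : Polynomial ℝ),
      PolyOK s P → ∀ D : ℝ, ∀ᶠ n : ℕ in atTop, ∀ m : ℕ, 1 ≤ m → NearMul α (P.eval (n : ℝ)) D l m → ¬ X i m := by
  have h1 : ∀ k : ℕ, ∃ E : Set ℝ, dimH E ≤ ENNReal.ofReal ((e + 1 / ((k : ℝ) + 1) + 1 / s) / (1 - l)) ∧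
      ∀ α : ℝ, 0 < α → α ∉ E → ∀ (i : ι) (P : Polynomial ℝ), PolyOK s P → ∀ D : ℝ, ∀ᶠ n : ℕ in atTop,
        ∀ m : ℕ, 1 ≤ m → NearMul α (P.eval (n : ℝ)) D l m → ¬ X i m := fun k =>
    mul_poly X (e + 1 / ((k : ℝ) + 1)) l s (by positivity) hs hl fun i => h i _ (by positivity)
  choose E hE hg using h1
  refine ⟨⋂ k, E k, ?_, fun α hα hαE => ?_⟩
  · have h2 : ∀ k : ℕ, dimH (⋂ k, E k) ≤ ENNReal.ofReal ((e + 1 / ((k : ℝ) + 1) + 1 / s) / (1 - l)) := fun k =>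
      (dimH_mono (Set.iInter_subset _ k)).trans (hE k)
    have h3 : Tendsto (fun k : ℕ => ENNReal.ofReal ((e + 1 / ((k : ℝ) + 1) + 1 / s) / (1 - l))) atTop
        (𝓝 (ENNReal.ofReal ((e + 0 + 1 / s) / (1 - l)))) := by
      refine ENNReal.tendsto_ofReal ?_
      exact (((tendsto_one_div_add_atTop_nhds_zero_nat (𝕜 := ℝ)).const_add e).add_const _).div_const _
    rw [add_zero] at h3
    exact ge_of_tendsto' h3 h2
  · simp only [Set.mem_iInter, not_forall] at hαE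
    obtain ⟨k, hk⟩ := hαE
    exact hg k α hα hk

end Pool.Agent.Q138.PS
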