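import Pool.Agent.Q138.PS.YE

/-!
Sizes near the powers of a real number, or near the real multiples of polynomial values, which carry many exceptional objects.
-/

set_option autoImplicit false

namespace Pool.Agent.Q138.PS

open Filter Topology MeasureTheory Set

/-- Near the powers of a real `α > 1`, outside a set of dimension at most `e / (1 - l)`, each number `q` is the size of less than
`q ^ μ` objects with the property `B i`. -/
def SeldomPow {A J : Type} (size : A → ℕ) (μ e l : ℝ) (B : J → A → Prop) : Prop :=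
  ∃ Z : Set ℝ, dimH Z ≤ ENNReal.ofReal (e / (1 - l)) ∧ ∀ α : ℝ, 1 < α → α ∉ Z → ∀ (i : J) (c : ℝ), 0 < c →
    IsAlgebraic ℚ c → ∀ (j : ℤ) (D : ℝ), ∀ᶠ N : ℕ in atTop, ∀ q : ℕ, 1 ≤ q → NearPow α c j D l N q →
      (({v | size v = q ∧ B i v}.ncard : ℕ) : ℝ) < (q : ℝ) ^ μ

/-- Near the real multiples of the values of polynomials of degree at least `s`, for `α > 0` outside a set of dimension at most
`(e + 1 / s) / (1 - l)`, each number `q` is the size of less than `q ^ μ` objects with the property `B i`. -/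
def SeldomMul {A J : Type} (size : A → ℕ) (μ e l : ℝ) (s : ℕ) (B : J → A → Prop) : Prop :=
  ∃ Z : Set ℝ, dimH Z ≤ ENNReal.ofReal ((e + 1 / s) / (1 - l)) ∧ ∀ α : ℝ, 0 < α → α ∉ Z → ∀ (i : J)
    (P : Polynomial ℝ), PolyOK s P → ∀ D : ℝ, ∀ᶠ N : ℕ in atTop, ∀ q : ℕ, 1 ≤ q → NearMul α (P.eval (N : ℝ)) D l q →
      (({v | size v = q ∧ B i v}.ncard : ℕ) : ℝ) < (q : ℝ) ^ μ

theorem seldom {A J : Type} [Countable J] (size : A → ℕ) (B : J → A → Prop) (e μ l : ℝ) (hμ : 0 ≤ μ) (he : μ ≤ e)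
    (hl : l < 1) (h : ∀ j, ∀ ε : ℝ, 0 < ε → ∃ C : ℝ, ∀ T : ℝ, 1 ≤ T → {s | B j s ∧ (size s : ℝ) ≤ T}.Finite ∧
      (({s | B j s ∧ (size s : ℝ) ≤ T}.ncard : ℕ) : ℝ) ≤ C * T ^ (e + ε)) :
    SeldomPow size μ (e - μ) l B ∧ ∀ s : ℕ, 1 ≤ s → SeldomMul size μ (e - μ) l s B := by
  have hset : ∀ (i : J) (q : ℕ), {v | size v = q ∧ B i v} = {s | s ∈ {s | B i s ∧ (size s : ℝ) ≤ q} ∧ size s = q} := by
    intro i q
    ext v
    simp only [Set.mem_ofPred_eq]
    constructor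
    · rintro ⟨h1, h2⟩
      exact ⟨⟨h2, by rw [h1]⟩, h1⟩
    · rintro ⟨⟨h1, -⟩, h2⟩
      exact ⟨h2, h1⟩
  have key : ∀ i : J, ∀ ε : ℝ, 0 < ε → ∃ C : ℝ, ∀ Y : ℕ, 1 ≤ Y →
      cn (fun q => (q : ℝ) ^ μ ≤ (({v | size v = q ∧ B i v}.ncard : ℕ) : ℝ)) Y ≤ C * (Y : ℝ) ^ (e - μ + ε) := by
    intro i ε hε
    obtain ⟨C, hC⟩ := h i ε hε
    obtain ⟨C', hC'⟩ := heavy_few size (fun T => {s | B i s ∧ (size s : ℝ) ≤ T}) (fun T => {s | B i s ∧ (size s : ℝ) ≤ T})
      (e + ε) μ C 1 hμ (by linarith) hC (fun t T _ h2 _ s hs => ⟨hs.1, hs.2.trans h2⟩)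
    refine ⟨C', fun Y hY => ?_⟩
    have h1 := hC' Y hY
    rw [show e - μ + ε = e + ε - μ by ring]
    simp only [hset]
    exact h1
  constructor
  · obtain ⟨Z, hZ, hz⟩ := pow_cn_eps (fun (i : J) q => (q : ℝ) ^ μ ≤ (({v | size v = q ∧ B i v}.ncard : ℕ) : ℝ)) (e - μ) l
      (by linarith) hl key
    refine ⟨Z, hZ, fun α hα hαZ i c hc hca j D => ?_⟩
    filter_upwards [hz α hα hαZ i c hc hca j D] with N hN q hq hnear
    exact not_le.1 (hN q hq hnear)
  · intro s hs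
    obtain ⟨Z, hZ, hz⟩ := mul_poly_eps (fun (i : J) q => (q : ℝ) ^ μ ≤ (({v | size v = q ∧ B i v}.ncard : ℕ) : ℝ)) (e - μ) l
      s (by linarith) hs hl key
    refine ⟨Z, hZ, fun α hα hαZ i P hP D => ?_⟩
    filter_upwards [hz α hα hαZ i P hP D] with N hN q hq hnear
    exact not_le.1 (hN q hq hnear)

/-- only the objects of positive size matter -/
theorem SeldomPow.congr_pos {A J : Type} {size : A → ℕ} {μ e l : ℝ} {B B' : J → A → Prop} (h : SeldomPow size μ e l B)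
    (hB : ∀ i v, 1 ≤ size v → (B' i v ↔ B i v)) : SeldomPow size μ e l B' := by
  obtain ⟨Z, hZ, hz⟩ := h
  refine ⟨Z, hZ, fun α hα hαZ i c hc hca j D => ?_⟩
  filter_upwards [hz α hα hαZ i c hc hca j D] with N hN q hq hnear
  have e : {v | size v = q ∧ B' i v} = {v | size v = q ∧ B i v} := by
    ext v
    exact and_congr_right fun h1 => hB i v (h1 ▸ hq)
  rw [e]
  exact hN q hq hnear

theorem SeldomMul.congr_pos {A J : Type} {size : A → ℕ} {μ e l : ℝ} {s : ℕ} {B B' : J → A → Prop}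
    (h : SeldomMul size μ e l s B) (hB : ∀ i v, 1 ≤ size v → (B' i v ↔ B i v)) : SeldomMul size μ e l s B' := by
  obtain ⟨Z, hZ, hz⟩ := h
  refine ⟨Z, hZ, fun α hα hαZ i P hP D => ?_⟩
  filter_upwards [hz α hα hαZ i P hP D] with N hN q hq hnear
  have e : {v | size v = q ∧ B' i v} = {v | size v = q ∧ B i v} := by
    ext v
    exact and_congr_right fun h1 => hB i v (h1 ▸ hq)
  rw [e]
  exact hN q hq hnear

end Pool.Agent.Q138.PS
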