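import Pool.Agent.Y913.Nb.WBdep
import Pool.Agent.H462R2.PiE

/-!
Sets of integers of multiplicative rank at most two: there are none close to products of powers of few integers, apart from these
products themselves.
-/

set_option autoImplicit false

namespace Pool.Agent.Q138.PS

open Finset Pool.Agent.H462R2.PiE

/-- no three multiplicatively independent elements -/
def Rank2 (E : ℕ → Prop) : Prop := ∀ n : Fin 3 → ℕ, (∀ i, 2 ≤ n i) → (∀ i, E (n i)) → ¬ Indep n

/-- valuations -/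
def vl (p n : ℕ) : ℤ := (n.factorization p : ℤ)

theorem vl_nonneg (p n : ℕ) : 0 ≤ vl p n := Int.natCast_nonneg _

theorem vl_le (p n : ℕ) (hn : n ≠ 0) : vl p n ≤ Nat.log 2 n := by
  unfold vl
  have h : n.factorization p ≤ Nat.log 2 n := by
    by_cases hp : p.Prime
    · refine Nat.le_log_of_pow_le (by norm_num) ?_
      exact (Nat.pow_le_pow_left hp.two_le _).trans (Nat.ordProj_le p hn)
    · rw [Nat.factorization_eq_zero_of_not_prime _ hp]
      exact Nat.zero_le _
  exact_mod_cast h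

/-- a multiplicative relation gives relations of the valuations -/
theorem vl_of_prod {r : ℕ} (n : Fin r → ℕ) (hn : ∀ i, 2 ≤ n i) (k : Fin r → ℤ) (h : ∏ i, (n i : ℚ) ^ (k i) = 1) (p : ℕ) :
    ∑ i, k i * vl p (n i) = 0 := by
  by_cases hp : p.Prime
  · have := Fact.mk hp
    have h1 : padicValRat p (∏ i, (n i : ℚ) ^ (k i)) = ∑ i, k i * vl p (n i) := by
      have h2 : ∀ S : Finset (Fin r), padicValRat p (∏ i ∈ S, (n i : ℚ) ^ (k i)) = ∑ i ∈ S, k i * vl p (n i) := by
        classical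
        intro S
        induction S using Finset.induction_on with
        | empty => simp
        | insert a S ha ih =>
          have hna : ∀ i, (n i : ℚ) ≠ 0 := fun i => by
            have := hn i
            exact_mod_cast (by omega : n i ≠ 0)
          rw [Finset.prod_insert ha, Finset.sum_insert ha, padicValRat.mul (zpow_ne_zero _ (hna a))
            (Finset.prod_ne_zero_iff.2 fun i _ => zpow_ne_zero _ (hna i)), ih]
          congr 1
          rw [padicValRat.zpow, padicValRat.of_nat]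
          unfold vl
          rw [Nat.factorization_def _ hp]
      exact h2 Finset.univ
    rw [← h1, h, padicValRat.one]
  · have : ∀ i, vl p (n i) = 0 := fun i => by
      unfold vl
      rw [Nat.factorization_eq_zero_of_not_prime _ hp]
      rfl
    simp [this]

/-- relations of the valuations give relations of the logarithms -/
theorem log_of_vl {r : ℕ} (n : Fin r → ℕ) (hn : ∀ i, n i ≠ 0) (k : Fin r → ℤ) (h : ∀ p, ∑ i, k i * vl p (n i) = 0) :
    ∑ i, (k i : ℝ) * Real.log (n i) = 0 := by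
  classical
  obtain ⟨P, hP⟩ : ∃ P : Finset ℕ, P = (∏ i, n i).primeFactors := ⟨_, rfl⟩
  have hPx : ∀ j, (n j).primeFactors ⊆ P := by
    intro j
    rw [hP]
    exact Nat.primeFactors_mono (Finset.dvd_prod_of_mem n (Finset.mem_univ j)) (Finset.prod_ne_zero_iff.mpr (fun j _ => hn j))
  have h1 : ∀ i, (k i : ℝ) * Real.log (n i) = ∑ p : {p // p ∈ P}, ((k i * vl p.1 (n i) : ℤ) : ℝ) * Real.log p.1 := by
    intro i
    rw [Pool.Agent.Y913.Nb.log_eq_sum_of_subset P (hPx i), Finset.mul_sum]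
    refine Finset.sum_congr rfl fun p _ => ?_
    unfold vl
    push_cast
    ring
  rw [Finset.sum_congr rfl fun i _ => h1 i, Finset.sum_comm]
  refine Finset.sum_eq_zero fun p _ => ?_
  rw [← Finset.sum_mul, ← Int.cast_sum, h p.1]
  simp

theorem exists_vl {a : ℕ} (ha : 2 ≤ a) : ∃ p, 0 < vl p a := by
  obtain ⟨p, hp, hpa⟩ := Nat.exists_prime_and_dvd (show a ≠ 1 by omega)
  refine ⟨p, ?_⟩
  unfold vl
  exact_mod_cast (hp.factorization_pos_of_dvd (by omega) hpa)

/-- The structure of the sets of rank at most two. -/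
theorem rank2_struct {E : ℕ → Prop} (hE : Rank2 E) : ∃ (a b Q C : ℕ), 1 ≤ a ∧ 1 ≤ b ∧ 1 ≤ Q ∧ ∀ n : ℕ, 2 ≤ n → E n →
    ∃ i j : ℤ, |i| ≤ C * Nat.log 2 n ∧ |j| ≤ C * Nat.log 2 n ∧
      (Q : ℝ) * Real.log n = i * Real.log a + j * Real.log b := by
  by_cases h0 : ∃ a, 2 ≤ a ∧ E a
  swap
  · refine ⟨1, 1, 1, 0, le_rfl, le_rfl, le_rfl, fun n hn hEn => absurd ⟨n, hn, hEn⟩ h0⟩
  obtain ⟨a, ha, hEa⟩ := h0
  by_cases h1 : ∃ b, 2 ≤ b ∧ E b ∧ Indep ![a, b]
  swap
  · -- rank one
    obtain ⟨p, hp⟩ := exists_vl ha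
    refine ⟨a, 1, (vl p a).toNat, 1, by omega, le_rfl, by omega, fun n hn hEn => ?_⟩
    have h2 : ¬ Indep ![a, n] := fun h => h1 ⟨n, hn, hEn, h⟩
    unfold Indep at h2
    push Not at h2
    obtain ⟨k, hk1, hk0⟩ := h2
    have h2' : ∀ i : Fin 2, 2 ≤ (![a, n] : Fin 2 → ℕ) i := by
      intro i
      fin_cases i
      · exact ha
      · exact hn
    have hv := vl_of_prod ![a, n] h2' k hk1
    simp only [Fin.sum_univ_two, Matrix.cons_val_zero, Matrix.cons_val_one] at hv
    have hk : k 1 ≠ 0 := by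
      intro h3
      have h4 := hv p
      rw [h3, zero_mul, add_zero] at h4
      rcases mul_eq_zero.1 h4 with h5 | h5
      · apply hk0
        ext i
        fin_cases i
        · exact h5
        · exact h3
      · omega
    have h3 : ∀ q, vl p a * vl q n = vl p n * vl q a := by
      intro q
      refine mul_left_cancel₀ hk ?_
      linear_combination (vl p a) * hv q - (vl q a) * hv p
    have h4 := log_of_vl ![a, n] (fun i => by have := h2' i; omega) ![-(vl p n), vl p a] (by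
      intro q
      simp only [Fin.sum_univ_two, Matrix.cons_val_zero, Matrix.cons_val_one]
      linear_combination h3 q)
    simp only [Fin.sum_univ_two, Matrix.cons_val_zero, Matrix.cons_val_one] at h4
    refine ⟨vl p n, 0, ?_, ?_, ?_⟩
    · rw [abs_of_nonneg (vl_nonneg _ _)]
      have := vl_le p n (by omega)
      push_cast
      linarith
    · rw [abs_zero]
      positivity
    · have h5 : (((vl p a).toNat : ℕ) : ℝ) = ((vl p a : ℤ) : ℝ) := by
        exact_mod_cast congrArg (Int.cast : ℤ → ℝ) (Int.toNat_of_nonneg hp.le)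
      rw [h5]
      push_cast at h4 ⊢
      linarith
  · -- rank two
    obtain ⟨b, hb, hEb, hab⟩ := h1
    have hmin : ∃ p p', vl p a * vl p' b - vl p' a * vl p b ≠ 0 := by
      by_contra hcon
      push Not at hcon
      obtain ⟨p, hp⟩ := exists_vl ha
      have h3 := log_of_vl ![a, b] (fun i => by fin_cases i <;> simp <;> omega) ![vl p b, -(vl p a)] (by
        intro q
        simp only [Fin.sum_univ_two, Matrix.cons_val_zero, Matrix.cons_val_one]
        linear_combination -(hcon p q))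
      have h4 := prod_eq_one ![a, b] (fun i => by fin_cases i <;> simp <;> omega) ![vl p b, -(vl p a)] h3
      have h5 : -(vl p a) = 0 := congrFun (hab _ h4) 1
      omega
    obtain ⟨p, p', hD⟩ := hmin
    obtain ⟨D, hDdef⟩ : ∃ D, D = vl p a * vl p' b - vl p' a * vl p b := ⟨_, rfl⟩
    rw [← hDdef] at hD
    refine ⟨a, b, D.natAbs, (vl p a + vl p' a + vl p b + vl p' b).toNat, by omega, by omega, Int.natAbs_pos.2 hD,
      fun n hn hEn => ?_⟩
    have h2' : ∀ i : Fin 3, 2 ≤ (![a, b, n] : Fin 3 → ℕ) i := by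
      intro i
      fin_cases i
      · exact ha
      · exact hb
      · exact hn
    have h2 : ¬ Indep ![a, b, n] := hE ![a, b, n] h2' (by
      intro i
      fin_cases i
      · exact hEa
      · exact hEb
      · exact hEn)
    unfold Indep at h2
    push Not at h2
    obtain ⟨k, hk1, hk0⟩ := h2
    have hv := vl_of_prod ![a, b, n] h2' k hk1
    simp only [Fin.sum_univ_three, Matrix.cons_val_zero, Matrix.cons_val_one, Matrix.cons_val_two, Matrix.tail_cons,
      Matrix.head_cons] at hv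
    have hv' : ∀ q, k 0 * vl q a + k 1 * vl q b + k 2 * vl q n = 0 := fun q => hv q
    have hk : k 2 ≠ 0 := by
      intro h3
      have h4 := log_of_vl ![a, b] (fun i => by fin_cases i <;> simp <;> omega) ![k 0, k 1] (by
        intro q
        simp only [Fin.sum_univ_two, Matrix.cons_val_zero, Matrix.cons_val_one]
        have := hv' q
        rw [h3, zero_mul, add_zero] at this
        exact this)
      have h5 := prod_eq_one ![a, b] (fun i => by fin_cases i <;> simp <;> omega) ![k 0, k 1] h4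
      have h6 := hab _ h5
      have h7 : k 0 = 0 := congrFun h6 0
      have h8 : k 1 = 0 := congrFun h6 1
      apply hk0
      ext i
      fin_cases i
      · exact h7
      · exact h8
      · exact h3
    set I := vl p n * vl p' b - vl p' n * vl p b with hI
    set J := vl p a * vl p' n - vl p' a * vl p n with hJ
    have h3 : ∀ q, D * vl q n = I * vl q a + J * vl q b := by
      intro q
      refine mul_left_cancel₀ hk ?_
      rw [hDdef, hI, hJ]
      linear_combination (vl p a * vl p' b - vl p' a * vl p b) * hv' q + (vl p b * vl q a - vl p a * vl q b) * hv' p' +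
        (vl p' a * vl q b - vl p' b * vl q a) * hv' p
    have h4 := log_of_vl ![a, b, n] (fun i => by have := h2' i; omega) ![-I, -J, D] (by
      intro q
      simp only [Fin.sum_univ_three, Matrix.cons_val_zero, Matrix.cons_val_one, Matrix.cons_val_two, Matrix.tail_cons,
        Matrix.head_cons]
      linear_combination h3 q)
    have h4' : -(I : ℝ) * Real.log a + -(J : ℝ) * Real.log b + (D : ℝ) * Real.log n = 0 := by
      simp only [Fin.sum_univ_three, Matrix.cons_val_zero, Matrix.cons_val_one, Matrix.cons_val_two, Matrix.tail_cons,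
        Matrix.head_cons] at h4
      push_cast at h4
      exact h4
    have hCc : (((vl p a + vl p' a + vl p b + vl p' b).toNat : ℕ) : ℤ) = vl p a + vl p' a + vl p b + vl p' b := by
      refine Int.toNat_of_nonneg ?_
      have := vl_nonneg p a
      have := vl_nonneg p' a
      have := vl_nonneg p b
      have := vl_nonneg p' b
      omega
    have hpa := vl_nonneg p a
    have hp'a := vl_nonneg p' a
    have hpb := vl_nonneg p b
    have hp'b := vl_nonneg p' b
    have hpn := vl_nonneg p n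
    have hp'n := vl_nonneg p' n
    have hln := vl_le p n (by omega)
    have hln' := vl_le p' n (by omega)
    have hIb : |I| ≤ (vl p a + vl p' a + vl p b + vl p' b) * Nat.log 2 n := by
      rw [hI, abs_le]
      constructor <;> nlinarith
    have hJb : |J| ≤ (vl p a + vl p' a + vl p b + vl p' b) * Nat.log 2 n := by
      rw [hJ, abs_le]
      constructor <;> nlinarith
    rcases lt_or_gt_of_ne hD with hneg | hpos
    · refine ⟨-I, -J, by rw [abs_neg, hCc]; exact hIb, by rw [abs_neg, hCc]; exact hJb, ?_⟩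
      have h5 : ((D.natAbs : ℕ) : ℝ) = -(D : ℝ) := by
        rw [Nat.cast_natAbs, Int.cast_abs, abs_of_neg (by exact_mod_cast hneg)]
      rw [h5]
      push_cast
      linarith
    · refine ⟨I, J, by rw [hCc]; exact hIb, by rw [hCc]; exact hJb, ?_⟩
      have h5 : ((D.natAbs : ℕ) : ℝ) = (D : ℝ) := by
        rw [Nat.cast_natAbs, Int.cast_abs, abs_of_pos (by exact_mod_cast hpos)]
      rw [h5]
      linarith

theorem log_close {x n : ℝ} (hx : 0 < x) (hn : 0 < n) {δ : ℝ} (hδ : δ ≤ 1 / 2) (h : |n - x| ≤ x * δ) :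
    |Real.log n - Real.log x| ≤ 2 * δ := by
  obtain ⟨h1, h2⟩ := abs_le.1 h
  have hδ0 : 0 ≤ δ := by
    have h3 := (abs_nonneg _).trans h
    by_contra hcon
    push Not at hcon
    nlinarith
  rw [← Real.log_div hn.ne' hx.ne']
  have e1 : n / x ≤ 1 + δ := by
    rw [div_le_iff₀ hx]
    linarith
  have e2 : 1 - δ ≤ n / x := by
    rw [le_div_iff₀ hx]
    linarith
  have hpos : 0 < n / x := by positivity
  rw [abs_le]
  constructor
  · have h3 := Real.log_le_sub_one_of_pos (show 0 < (n / x)⁻¹ by positivity)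
    rw [Real.log_inv] at h3
    have h4 : (n / x)⁻¹ ≤ 1 + 2 * δ := by
      rw [inv_le_comm₀ hpos (by linarith)]
      refine le_trans ?_ e2
      rw [inv_le_iff_one_le_mul₀ (by linarith)]
      nlinarith
    linarith
  · have h3 := Real.log_le_sub_one_of_pos hpos
    linarith

/-- **No elements of a set of rank at most two near products of powers of few integers.** The exponent `κ` depends only on the
number `s` of the factors. -/
theorem windows_rank2 (s : ℕ) : ∃ κ : ℕ, ∀ E : ℕ → Prop, Rank2 E → ∃ N₀ : ℕ, ∀ N : ℕ, N₀ ≤ N → ∀ (m : Fin s → ℕ)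
    (b : Fin s → ℤ), (∀ k, 1 ≤ m k ∧ m k ≤ N) → (∀ k, |b k| ≤ N) → ∀ n : ℕ, 2 ≤ n → (n : ℝ) ≠ ∏ k, (m k : ℝ) ^ (b k) →
      |(n : ℝ) - ∏ k, (m k : ℝ) ^ (b k)| ≤ (∏ k, (m k : ℝ) ^ (b k)) * Real.exp (-(Real.log N) ^ κ) → ¬ E n := by
  obtain ⟨κ', g₀, hW⟩ := Pool.Agent.Y913.Nb.WB_dep (s + 2)
  refine ⟨κ' + 1, fun E hE => ?_⟩
  obtain ⟨a, a', Q, C, ha, ha', hQ, hst⟩ := rank2_struct hE
  refine ⟨⌈Real.exp ((12 : ℝ) ^ κ' + 2 * Q + 1)⌉₊ + C * (2 + 4 * s) + Q + a + a' + 2 ^ g₀ + 1, ?_⟩
  intro N hN m b hm hb n hn hne hnear hEn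
  have h2g0 : 0 < 2 ^ g₀ := by positivity
  have hN1 : ⌈Real.exp ((12 : ℝ) ^ κ' + 2 * Q + 1)⌉₊ ≤ N := by omega
  have hN2 : C * (2 + 4 * s) ≤ N := by omega
  have hN3 : Q ≤ N := by omega
  have hN4 : a ≤ N := by omega
  have hN5 : a' ≤ N := by omega
  have hN6 : 2 ^ g₀ ≤ N := by omega
  have hN0 : 1 ≤ N := by omega
  have hNr : (1 : ℝ) ≤ N := by exact_mod_cast hN0
  have hQr : (1 : ℝ) ≤ Q := by exact_mod_cast hQ
  set L : ℝ := Real.log N with hL
  have hL1 : (12 : ℝ) ^ κ' + 2 * Q + 1 ≤ L := by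
    rw [hL, Real.le_log_iff_exp_le (by linarith)]
    exact (Nat.le_ceil _).trans (by exact_mod_cast hN1)
  have h12 : (1 : ℝ) ≤ (12 : ℝ) ^ κ' := one_le_pow₀ (by norm_num)
  have hL2 : 1 ≤ L := by linarith
  have hLk : 1 ≤ L ^ κ' := one_le_pow₀ hL2
  -- the product
  have hmr : ∀ k, (0 : ℝ) < m k := fun k => by exact_mod_cast (hm k).1
  set x : ℝ := ∏ k, (m k : ℝ) ^ (b k) with hx
  have hx0 : 0 < x := Finset.prod_pos fun k _ => zpow_pos (hmr k) _
  have hlogx : Real.log x = ∑ k, (b k : ℝ) * Real.log (m k) := by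
    rw [hx, Real.log_prod (fun k _ => (zpow_pos (hmr k) _).ne')]
    exact Finset.sum_congr rfl fun k _ => Real.log_zpow _ _
  set δ : ℝ := Real.exp (-L ^ (κ' + 1)) with hδ
  have hpow : L ^ (κ' + 1) = L ^ κ' * L := pow_succ _ _
  have hδ2 : δ ≤ 1 / 2 := by
    rw [hδ]
    have h1 : (1 : ℝ) ≤ L ^ (κ' + 1) := one_le_pow₀ hL2
    have h2 : Real.exp (-L ^ (κ' + 1)) ≤ Real.exp (-1) := Real.exp_le_exp.2 (by linarith)
    have h3 : Real.exp (-1) ≤ 1 / 2 := by
      rw [Real.exp_neg, inv_le_comm₀ (Real.exp_pos 1) (by norm_num)]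
      have := Real.add_one_le_exp (1 : ℝ)
      linarith
    linarith
  have hnr : (0 : ℝ) < n := by exact_mod_cast (by omega : 0 < n)
  have hclose := log_close hx0 hnr hδ2 hnear
  have hδ0 : 0 < δ := Real.exp_pos _
  -- the size of `n`
  have hlogm : ∀ k, Real.log (m k) ≤ N := fun k => by
    have h1 := Real.log_le_sub_one_of_pos (hmr k)
    have h2 : (m k : ℝ) ≤ N := by exact_mod_cast (hm k).2
    linarith
  have hlogm0 : ∀ k, 0 ≤ Real.log (m k) := fun k => Real.log_natCast_nonneg _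
  have hbr : ∀ k, |(b k : ℝ)| ≤ N := fun k => by
    rw [← Int.cast_abs]
    exact_mod_cast hb k
  have hlogx2 : Real.log x ≤ s * (N : ℝ) ^ 2 := by
    rw [hlogx]
    calc ∑ k, (b k : ℝ) * Real.log (m k) ≤ ∑ _k : Fin s, (N : ℝ) ^ 2 := by
          refine Finset.sum_le_sum fun k _ => ?_
          have h1 := le_abs_self (b k : ℝ)
          have h2 := hbr k
          have h3 := hlogm k
          have h4 := hlogm0 k
          calc (b k : ℝ) * Real.log (m k) ≤ N * Real.log (m k) := mul_le_mul_of_nonneg_right (h1.trans h2) h4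
            _ ≤ N * N := mul_le_mul_of_nonneg_left h3 (by linarith)
            _ = (N : ℝ) ^ 2 := by ring
      _ = s * (N : ℝ) ^ 2 := by rw [Finset.sum_const, Finset.card_univ, Fintype.card_fin, nsmul_eq_mul]
  have hlogn : Real.log n ≤ 1 + s * (N : ℝ) ^ 2 := by
    have := (abs_le.1 hclose).2
    linarith
  have hlog2 : ((Nat.log 2 n : ℕ) : ℝ) ≤ 2 * Real.log n := by
    have h1 : (2 : ℝ) ^ Nat.log 2 n ≤ n := by exact_mod_cast Nat.pow_log_le_self 2 (by omega)
    have h2 := Real.log_le_log (by positivity) h1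
    rw [Real.log_pow] at h2
    have h3 := Real.log_two_gt_d9
    have h4 : (0 : ℝ) ≤ Nat.log 2 n := Nat.cast_nonneg _
    nlinarith
  have hlog3 : (C : ℝ) * Nat.log 2 n ≤ (N : ℝ) ^ 3 := by
    have h1 : ((C * (2 + 4 * s) : ℕ) : ℝ) ≤ N := by exact_mod_cast hN2
    push_cast at h1
    have hC0 : (0 : ℝ) ≤ C := Nat.cast_nonneg _
    have hs0 : (0 : ℝ) ≤ s := Nat.cast_nonneg _
    have hN22 : (1 : ℝ) ≤ (N : ℝ) ^ 2 := one_le_pow₀ hNr
    calc (C : ℝ) * Nat.log 2 n ≤ C * (2 * (1 + s * (N : ℝ) ^ 2)) :=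
          mul_le_mul_of_nonneg_left (hlog2.trans (by linarith)) hC0
      _ ≤ C * ((2 + 4 * s) * (N : ℝ) ^ 2) := by
          refine mul_le_mul_of_nonneg_left ?_ hC0
          nlinarith
      _ = (C * (2 + 4 * s)) * (N : ℝ) ^ 2 := by ring
      _ ≤ N * (N : ℝ) ^ 2 := mul_le_mul_of_nonneg_right h1 (by positivity)
      _ = (N : ℝ) ^ 3 := by ring
  obtain ⟨i, j, hi, hj, hij⟩ := hst n hn hEn
  have hN3' : (C : ℤ) * Nat.log 2 n ≤ (N : ℤ) ^ 3 := by exact_mod_cast hlog3
  -- the scale
  set g : ℕ := 4 * (Nat.log 2 N + 1) with hg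
  have h2g : (N : ℤ) ^ 4 ≤ 2 ^ g := by
    have h1 : N < 2 ^ (Nat.log 2 N + 1) := Nat.lt_pow_succ_log_self (by norm_num) N
    have h2 : N ^ 4 ≤ (2 ^ (Nat.log 2 N + 1)) ^ 4 := Nat.pow_le_pow_left h1.le 4
    rw [← pow_mul, mul_comm (Nat.log 2 N + 1) 4] at h2
    exact_mod_cast h2
  have hNz : (1 : ℤ) ≤ N := by exact_mod_cast hN0
  have hN34 : (N : ℤ) ^ 3 ≤ (N : ℤ) ^ 4 := pow_le_pow_right₀ hNz (by norm_num)
  have hN24 : (N : ℤ) ^ 2 ≤ (N : ℤ) ^ 4 := pow_le_pow_right₀ hNz (by norm_num)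
  have hN14 : (N : ℤ) ≤ (N : ℤ) ^ 4 := by
    calc (N : ℤ) = (N : ℤ) ^ 1 := (pow_one _).symm
      _ ≤ _ := pow_le_pow_right₀ hNz (by norm_num)
  have hNg : N ≤ 2 ^ g := by exact_mod_cast hN14.trans h2g
  have hgg : g₀ ≤ g := by
    have h1 : g₀ ≤ Nat.log 2 N := Nat.le_log_of_pow_le (by norm_num) hN6
    omega
  -- the linear form
  set X : Fin (s + 2) → ℕ := Fin.cons a (Fin.cons a' m) with hX
  set B : Fin (s + 2) → ℤ := Fin.cons i (Fin.cons j fun k => -(Q * b k)) with hB
  have hsum : ∑ l, (B l : ℝ) * Real.log (X l) = Q * (Real.log n - Real.log x) := by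
    rw [Fin.sum_univ_succ, Fin.sum_univ_succ]
    simp only [hX, hB, Fin.cons_zero, Fin.cons_succ]
    have h1 : ∑ k : Fin s, ((-(Q * b k) : ℤ) : ℝ) * Real.log (m k) = -(Q * Real.log x) := by
      rw [hlogx, Finset.mul_sum, ← Finset.sum_neg_distrib]
      refine Finset.sum_congr rfl fun k _ => ?_
      push_cast
      ring
    rw [h1, mul_sub, hij]
    ring
  have hne0 : Real.log n - Real.log x ≠ 0 := by
    intro h1
    exact hne (Real.log_injOn_pos (Set.mem_Ioi.2 hnr) (Set.mem_Ioi.2 hx0) (by linarith))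
  have hmain := hW g hgg X B (by
    intro l
    refine Fin.cases ?_ (fun l => Fin.cases ?_ (fun l => ?_) l) l
    · simp only [hX, Fin.cons_zero]
      exact ⟨ha, hN4.trans hNg⟩
    · simp only [hX, Fin.cons_zero, Fin.cons_succ]
      exact ⟨ha', hN5.trans hNg⟩
    · simp only [hX, Fin.cons_succ]
      exact ⟨(hm l).1, (hm l).2.trans hNg⟩) (by
    intro l
    refine Fin.cases ?_ (fun l => Fin.cases ?_ (fun l => ?_) l) l
    · simp only [hB, Fin.cons_zero]
      exact hi.trans (hN3'.trans (hN34.trans h2g))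
    · simp only [hB, Fin.cons_zero, Fin.cons_succ]
      exact hj.trans (hN3'.trans (hN34.trans h2g))
    · simp only [hB, Fin.cons_succ]
      rw [abs_neg, abs_mul, Nat.abs_cast]
      have h1 : (Q : ℤ) ≤ N := by exact_mod_cast hN3
      calc (Q : ℤ) * |b l| ≤ N * N := mul_le_mul h1 (hb l) (abs_nonneg _) (by omega)
        _ = (N : ℤ) ^ 2 := by ring
        _ ≤ _ := hN24.trans h2g) (by
    rw [hsum]
    exact mul_ne_zero (by linarith) hne0)
  rw [hsum, abs_mul, abs_of_pos (by linarith : (0 : ℝ) < Q)] at hmain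
  -- comparison
  have hgL : (g : ℝ) ≤ 12 * L := by
    have h1 : (2 : ℝ) ^ Nat.log 2 N ≤ N := by exact_mod_cast Nat.pow_log_le_self 2 (by omega)
    have h2 := Real.log_le_log (by positivity) h1
    rw [Real.log_pow] at h2
    have h3 := Real.log_two_gt_d9
    have h4 : (0 : ℝ) ≤ Nat.log 2 N := Nat.cast_nonneg _
    have h5 : ((Nat.log 2 N : ℕ) : ℝ) ≤ 2 * L := by nlinarith
    rw [hg]
    push_cast
    linarith
  have hgk : ((g ^ κ' : ℕ) : ℝ) ≤ 12 ^ κ' * L ^ κ' := by
    push_cast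
    rw [← mul_pow]
    exact pow_le_pow_left₀ (Nat.cast_nonneg _) hgL _
  have h5 : Real.exp (-(12 ^ κ' * L ^ κ')) ≤ (1 / 2 : ℝ) ^ (g ^ κ') := by
    have h6 : (1 / 2 : ℝ) ^ (g ^ κ') = Real.exp (-(Real.log 2 * (g ^ κ' : ℕ))) := by
      rw [one_div, inv_pow, Real.exp_neg, mul_comm, Real.exp_nat_mul, Real.exp_log (by norm_num)]
    rw [h6]
    refine Real.exp_le_exp.2 (neg_le_neg ?_)
    have h7 := Real.log_two_lt_d9
    have h8 : (0 : ℝ) ≤ ((g ^ κ' : ℕ) : ℝ) := Nat.cast_nonneg _
    nlinarith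
  have h6 : (Q : ℝ) * |Real.log n - Real.log x| ≤ 2 * Q * δ := by
    calc (Q : ℝ) * |Real.log n - Real.log x| ≤ Q * (2 * δ) := mul_le_mul_of_nonneg_left hclose (by linarith)
      _ = 2 * Q * δ := by ring
  have h7 : 2 * (Q : ℝ) * δ < Real.exp (-(12 ^ κ' * L ^ κ')) := by
    have h8 : 2 * (Q : ℝ) < Real.exp (2 * Q) := by
      have := Real.add_one_le_exp (2 * (Q : ℝ))
      linarith
    have h9 : 2 * (Q : ℝ) * δ < Real.exp (2 * Q) * δ := mul_lt_mul_of_pos_right h8 hδ0
    refine lt_of_lt_of_le h9 ?_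
    rw [hδ, ← Real.exp_add]
    refine Real.exp_le_exp.2 ?_
    rw [hpow]
    nlinarith
  linarith

end Pool.Agent.Q138.PS
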