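import Pool.Agent.Q138.PS.XL

/-!
Rare points of boxes in dimension one.
-/

set_option autoImplicit false

namespace Pool.Agent.Q138.PS

open MeasureTheory

theorem few_of_boxes {c C : ℝ} (hc : 0 < c) {p : ℕ → Prop} {p' : (Fin 1 → ℕ) → Prop} (hp : ∀ t, p t → p' (fun _ => t))
    (h : ∀ (x : Fin 1 → ℕ) (N : ℕ), 1 ≤ N → (({t : Fin 1 → ℕ | (∀ i, x i < t i ∧ t i ≤ x i + N) ∧ p' t}.ncard : ℕ) : ℝ) ≤
      C * (N : ℝ) ^ (1 - 1) * ∑ i, (1 + N / ((x i : ℝ) + N) ^ c)) : Few 1 p := by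
  refine ⟨2 * |C|, min c 1, lt_min hc one_pos, fun T hT => ?_⟩
  have hT1 : (1 : ℝ) ≤ T := by exact_mod_cast hT
  have h1 := h (fun _ => 0) T hT
  simp only [Nat.cast_zero, zero_add, Nat.sub_self, _root_.pow_zero, mul_one, Finset.univ_unique,
    Finset.sum_singleton] at h1
  have hfin : {t : Fin 1 → ℕ | (∀ i, 0 < t i ∧ t i ≤ T) ∧ p' t}.Finite := by
    refine (Set.finite_Iic (fun _ : Fin 1 => T)).subset ?_
    intro t ht i
    exact (ht.1 i).2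
  have h2 : {t : ℕ | 1 ≤ t ∧ t ≤ T ∧ p t}.ncard ≤ {t : Fin 1 → ℕ | (∀ i, 0 < t i ∧ t i ≤ T) ∧ p' t}.ncard := by
    refine Set.ncard_le_ncard_of_injOn (fun t _ => t) ?_ ?_ hfin
    · intro t ht
      exact ⟨fun _ => ⟨ht.1, ht.2.1⟩, hp t ht.2.2⟩
    · intro a _ b _ hab
      exact congrFun hab 0
  have h3 : (({t : ℕ | 1 ≤ t ∧ t ≤ T ∧ p t}.ncard : ℕ) : ℝ) ≤ C * (1 + T / (T : ℝ) ^ c) :=
    (Nat.cast_le.2 h2).trans h1
  refine h3.trans ?_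
  have h4 : (T : ℝ) / (T : ℝ) ^ c = (T : ℝ) ^ (1 - c) := by
    rw [Real.rpow_sub (by linarith), Real.rpow_one]
  have h5 : (T : ℝ) ^ (1 - c) ≤ (T : ℝ) ^ (1 - min c 1) :=
    Real.rpow_le_rpow_of_exponent_le hT1 (by have := min_le_left c 1; linarith)
  have h6 : (1 : ℝ) ≤ (T : ℝ) ^ (1 - min c 1) := Real.one_le_rpow hT1 (by have := min_le_right c 1; linarith)
  rw [h4]
  calc C * (1 + (T : ℝ) ^ (1 - c)) ≤ |C| * (1 + (T : ℝ) ^ (1 - c)) :=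
        mul_le_mul_of_nonneg_right (le_abs_self C) (by positivity)
    _ ≤ |C| * ((T : ℝ) ^ (1 - min c 1) + (T : ℝ) ^ (1 - min c 1)) := by gcongr
    _ = 2 * |C| * (T : ℝ) ^ (1 - min c 1) := by ring

theorem tuples_countable {S : Set ℂ} (hS : S.Countable) (g : ℕ) : Countable {ξ : Fin g → ℂ // ∀ i, ξ i ∈ S} := by
  have := hS.to_subtype
  exact Function.Injective.countable (f := fun ξ : {ξ : Fin g → ℂ // ∀ i, ξ i ∈ S} => fun i => (⟨ξ.1 i, ξ.2 i⟩ : S))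
    fun a b hab => Subtype.ext (funext fun i => congrArg Subtype.val (congrFun hab i))

end Pool.Agent.Q138.PS
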