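import Pool.Agent.Q138.PS.XX

/-!
Denominators of good approximations to the real algebraic numbers of bounded degree and height.
-/

set_option autoImplicit false

namespace Pool.Agent.Q138.PS.Lg

open Finset Polynomial

/-- `ξ` is a root of a nonzero integral polynomial of degree at most `d` with coefficients of size at most `H`. -/
def HtLe (d : ℕ) (H ξ : ℝ) : Prop :=
  ∃ P : ℤ[X], P ≠ 0 ∧ P.natDegree ≤ d ∧ (∀ i, |(P.coeff i : ℝ)| ≤ H) ∧ aeval ξ P = 0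

theorem sep {p p' : ℤ} {q q' : ℕ} (hq : 1 ≤ q) (hq' : 1 ≤ q') (hc : Int.gcd p q = 1) (hc' : Int.gcd p' q' = 1)
    (h : q ≠ q') : (1 : ℝ) / (q * q') ≤ |(p : ℝ) / q - p' / q'| := by
  have h1 : (0 : ℝ) < q := by exact_mod_cast hq
  have h2 : (0 : ℝ) < q' := by exact_mod_cast hq'
  have h3 : (p : ℝ) / q - p' / q' = ((p * q' - p' * q : ℤ) : ℝ) / (q * q') := by
    push_cast
    field_simp
  have h4 : (p * q' - p' * q : ℤ) ≠ 0 := by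
    intro h0
    apply h
    have h5 : p * q' = p' * q := by linarith
    have h6 : (q : ℤ) ∣ q' := by
      have : (q : ℤ) ∣ p * q' := ⟨p', by rw [h5]; ring⟩
      exact (Int.isCoprime_iff_gcd_eq_one.2 hc).symm.dvd_of_dvd_mul_left this
    have h7 : (q' : ℤ) ∣ q := by
      have : (q' : ℤ) ∣ p' * q := ⟨p, by rw [← h5]; ring⟩
      exact (Int.isCoprime_iff_gcd_eq_one.2 hc').symm.dvd_of_dvd_mul_left this
    exact Nat.dvd_antisymm (by exact_mod_cast h6) (by exact_mod_cast h7)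
  rw [h3, abs_div, abs_of_pos (mul_pos h1 h2)]
  gcongr
  exact_mod_cast Int.one_le_abs h4

/-- the reduced denominators in a dyadic block -/
theorem block (ξ W : ℝ) (hW : 0 ≤ W) (i : ℕ) :
    ({q : ℕ | 2 ^ i ≤ q ∧ q < 2 ^ (i + 1) ∧ ∃ p : ℤ, Int.gcd p q = 1 ∧ |ξ - p / q| ≤ W / 4 ^ i}).ncard ≤ ⌊8 * W⌋₊ + 1 := by
  set S : Set ℕ := {q : ℕ | 2 ^ i ≤ q ∧ q < 2 ^ (i + 1) ∧ ∃ p : ℤ, Int.gcd p q = 1 ∧ |ξ - p / q| ≤ W / 4 ^ i} with hS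
  have hp : ∀ q ∈ S, ∃ p : ℤ, Int.gcd p q = 1 ∧ |ξ - p / q| ≤ W / 4 ^ i := fun q hq => hq.2.2
  choose! p hp1 hp2 using hp
  have h4 : (0 : ℝ) < 4 ^ i := by positivity
  set f : ℕ → ℕ := fun q => ⌊4 * 4 ^ i * ((p q : ℝ) / q - ξ + W / 4 ^ i)⌋₊ with hf
  have hnn : ∀ q ∈ S, 0 ≤ 4 * 4 ^ i * ((p q : ℝ) / q - ξ + W / 4 ^ i) := by
    intro q hq
    have := abs_le.1 (hp2 q hq)
    have h5 : 0 ≤ (p q : ℝ) / q - ξ + W / 4 ^ i := by linarith [this.2]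
    positivity
  have hmaps : ∀ q ∈ S, f q ∈ ((range (⌊8 * W⌋₊ + 1) : Finset ℕ) : Set ℕ) := by
    intro q hq
    rw [Finset.mem_coe, Finset.mem_range, Nat.lt_succ_iff]
    apply Nat.floor_le_floor
    have := abs_le.1 (hp2 q hq)
    have h5 : (p q : ℝ) / q - ξ + W / 4 ^ i ≤ 2 * (W / 4 ^ i) := by linarith [this.1]
    calc 4 * 4 ^ i * ((p q : ℝ) / q - ξ + W / 4 ^ i) ≤ 4 * 4 ^ i * (2 * (W / 4 ^ i)) := by gcongr
      _ = 8 * W := by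
        field_simp
        ring
  have hinj : Set.InjOn f S := by
    intro a ha b hb hab
    by_contra hne
    have ha1 : 1 ≤ a := Nat.one_le_two_pow.trans ha.1
    have hb1 : 1 ≤ b := Nat.one_le_two_pow.trans hb.1
    have h1 := sep ha1 hb1 (hp1 a ha) (hp1 b hb) hne
    have h2 : ⌊4 * 4 ^ i * ((p a : ℝ) / a - ξ + W / 4 ^ i)⌋₊ = ⌊4 * 4 ^ i * ((p b : ℝ) / b - ξ + W / 4 ^ i)⌋₊ := hab
    have h3 := Nat.floor_le (hnn a ha)
    have h5 := Nat.lt_floor_add_one (4 * 4 ^ i * ((p a : ℝ) / a - ξ + W / 4 ^ i))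
    have h6 := Nat.floor_le (hnn b hb)
    have h7 := Nat.lt_floor_add_one (4 * 4 ^ i * ((p b : ℝ) / b - ξ + W / 4 ^ i))
    rw [h2] at h3 h5
    have h8 : |4 * 4 ^ i * ((p a : ℝ) / a - p b / b)| < 1 := by
      rw [abs_lt]
      constructor <;> nlinarith
    rw [abs_mul, abs_of_pos (show (0 : ℝ) < 4 * 4 ^ i by positivity)] at h8
    have ha0 : (0 : ℝ) < a := by exact_mod_cast ha1
    have hb0 : (0 : ℝ) < b := by exact_mod_cast hb1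
    have h9 : (a : ℝ) * b ≤ 4 * 4 ^ i := by
      have e1 : (a : ℝ) ≤ 2 ^ (i + 1) := by exact_mod_cast ha.2.1.le
      have e2 : (b : ℝ) ≤ 2 ^ (i + 1) := by exact_mod_cast hb.2.1.le
      calc (a : ℝ) * b ≤ 2 ^ (i + 1) * 2 ^ (i + 1) := by gcongr
        _ = 4 * 4 ^ i := by
          rw [← pow_add, show (4 : ℝ) = 2 ^ 2 by norm_num, ← pow_mul, ← pow_add]
          congr 1
          ring
    have h10 : 1 ≤ 4 * 4 ^ i * ((1 : ℝ) / (a * b)) := by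
      rw [mul_one_div, le_div_iff₀ (by positivity), one_mul]
      exact h9
    have h11 : 4 * 4 ^ i * ((1 : ℝ) / (a * b)) ≤ 4 * 4 ^ i * |(p a : ℝ) / a - p b / b| := by gcongr
    linarith
  have h1 := Set.ncard_le_ncard_of_injOn _ hmaps hinj (Finset.finite_toSet _)
  rw [Set.ncard_coe_finset, Finset.card_range] at h1
  exact h1

/-- the good reduced denominators up to `T` -/
theorem few_den (ξ W : ℝ) (hW : 0 ≤ W) (T : ℕ) :
    ({q : ℕ | 1 ≤ q ∧ q ≤ T ∧ ∃ p : ℤ, Int.gcd p q = 1 ∧ |ξ - p / q| ≤ W / (q : ℝ) ^ 2}).ncard ≤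
      (Nat.log 2 T + 1) * (⌊8 * W⌋₊ + 1) := by
  have hsub : {q : ℕ | 1 ≤ q ∧ q ≤ T ∧ ∃ p : ℤ, Int.gcd p q = 1 ∧ |ξ - p / q| ≤ W / (q : ℝ) ^ 2} ⊆
      ⋃ i ∈ range (Nat.log 2 T + 1),
        {q : ℕ | 2 ^ i ≤ q ∧ q < 2 ^ (i + 1) ∧ ∃ p : ℤ, Int.gcd p q = 1 ∧ |ξ - p / q| ≤ W / 4 ^ i} := by
    rintro q ⟨h1, h2, p, h3, h4⟩
    simp only [Set.mem_iUnion, Finset.mem_range, exists_prop]
    refine ⟨Nat.log 2 q, Nat.lt_succ_of_le (Nat.log_mono_right h2), Nat.pow_log_le_self 2 (by omega),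
      Nat.lt_pow_succ_log_self (by norm_num) q, p, h3, h4.trans ?_⟩
    have h5 : ((2 : ℝ) ^ Nat.log 2 q) ≤ q := by exact_mod_cast Nat.pow_log_le_self 2 (by omega)
    have h6 : (4 : ℝ) ^ Nat.log 2 q ≤ (q : ℝ) ^ 2 := by
      rw [show (4 : ℝ) = 2 ^ 2 by norm_num, ← pow_mul, mul_comm, pow_mul]
      gcongr
    gcongr
  have hfin : (⋃ i ∈ range (Nat.log 2 T + 1),
      {q : ℕ | 2 ^ i ≤ q ∧ q < 2 ^ (i + 1) ∧ ∃ p : ℤ, Int.gcd p q = 1 ∧ |ξ - p / q| ≤ W / 4 ^ i}).Finite :=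
    Set.Finite.biUnion (Finset.finite_toSet _) fun i _ =>
      (Set.finite_lt_nat (2 ^ (i + 1))).subset fun q hq => hq.2.1
  refine (Set.ncard_le_ncard hsub hfin).trans ?_
  refine (Finset.set_ncard_biUnion_le _ _).trans ?_
  refine (Finset.sum_le_card_nsmul _ _ _ fun i _ => block ξ W hW i).trans ?_
  simp

/-- the real algebraic numbers of bounded degree and height -/
theorem roots_few (d H : ℕ) : ∃ R : Finset ℝ, R.card ≤ (2 * H + 1) ^ (d + 1) * d ∧ ∀ ξ : ℝ, HtLe d H ξ → ξ ∈ R := by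
  classical
  set f : (Fin (d + 1) → ℤ) → ℤ[X] := fun a => ∑ i, C (a i) * X ^ (i : ℕ) with hf
  set P : Finset ℤ[X] := ((Fintype.piFinset fun _ : Fin (d + 1) => Finset.Icc (-(H : ℤ)) H).image f).filter
    (fun P => P.natDegree ≤ d) with hP
  refine ⟨P.biUnion fun Q => (Q.aroots ℝ).toFinset, ?_, ?_⟩
  · refine (Finset.card_biUnion_le_card_mul _ _ d fun Q hQ => ?_).trans ?_
    · refine (Multiset.toFinset_card_le _).trans ?_
      refine (Polynomial.card_roots' _).trans ?_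
      exact (Polynomial.natDegree_map_le).trans (Finset.mem_filter.1 hQ).2
    · refine Nat.mul_le_mul_right _ ?_
      refine (Finset.card_filter_le _ _).trans (Finset.card_image_le.trans ?_)
      rw [Fintype.card_piFinset]
      simp only [Int.card_Icc, Finset.prod_const, Finset.card_univ, Fintype.card_fin]
      refine Nat.pow_le_pow_left ?_ _
      omega
  · rintro ξ ⟨Q, h1, h2, h3, h4⟩
    rw [Finset.mem_biUnion]
    refine ⟨Q, ?_, ?_⟩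
    · rw [hP, Finset.mem_filter, Finset.mem_image]
      refine ⟨⟨fun i => Q.coeff i, ?_, ?_⟩, h2⟩
      · rw [Fintype.mem_piFinset]
        intro i
        rw [Finset.mem_Icc]
        have := h3 i
        have h5 : |Q.coeff i| ≤ (H : ℤ) := by exact_mod_cast this
        exact abs_le.1 h5
      · simp only [hf]
        rw [Fin.sum_univ_eq_sum_range (fun i => C (Q.coeff i) * X ^ i) (d + 1)]
        exact (Q.as_sum_range_C_mul_X_pow' (Nat.lt_succ_of_le h2)).symm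
    · rw [Multiset.mem_toFinset, Polynomial.mem_aroots]
      exact ⟨h1, h4⟩

/-- an algebraic number of degree at most `d` and height at most `M q ^ κ` is close to a reduced fraction of denominator `q` -/
def Bad (d M : ℕ) (κ δ : ℝ) (q : ℕ) : Prop :=
  ∃ ξ : ℝ, HtLe d (M * (q : ℝ) ^ κ) ξ ∧ ∃ p : ℤ, Int.gcd p q = 1 ∧ |ξ - p / q| ≤ M * (q : ℝ) ^ (δ - 2)

theorem HtLe.mono {d d' : ℕ} {H H' ξ : ℝ} (h : HtLe d H ξ) (hd : d ≤ d') (hH : H ≤ H') : HtLe d' H' ξ := by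
  obtain ⟨P, h1, h2, h3, h4⟩ := h
  exact ⟨P, h1, h2.trans hd, fun i => (h3 i).trans hH, h4⟩

theorem HtLe.floor {d : ℕ} {H ξ : ℝ} (h : HtLe d H ξ) : HtLe d (⌊H⌋₊ : ℝ) ξ := by
  obtain ⟨P, h1, h2, h3, h4⟩ := h
  refine ⟨P, h1, h2, fun i => ?_, h4⟩
  have h5 : ((P.coeff i).natAbs : ℝ) ≤ H := by
    rw [Nat.cast_natAbs, Int.cast_abs]
    exact h3 i
  have h6 : (P.coeff i).natAbs ≤ ⌊H⌋₊ := Nat.le_floor h5
  have h7 : ((P.coeff i).natAbs : ℝ) ≤ ⌊H⌋₊ := by exact_mod_cast h6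
  rwa [Nat.cast_natAbs, Int.cast_abs] at h7

theorem count (d M : ℕ) (κ δ : ℝ) (hκ : 0 ≤ κ) (hδ : 0 ≤ δ) (ε : ℝ) (hε : 0 < ε) :
    ∃ C : ℝ, ∀ T : ℕ, 1 ≤ T → cn (Bad d M κ δ) T ≤ C * (T : ℝ) ^ (κ * (d + 1) + δ + ε) := by
  refine ⟨(2 * M + 1) ^ (d + 1) * d * (1 / ε / Real.log 2 + 1) * (8 * M + 1), fun T hT => ?_⟩
  have hT1 : (1 : ℝ) ≤ T := by exact_mod_cast hT
  have hT0 : (0 : ℝ) < T := by linarith
  have hl2 : 0 < Real.log 2 := Real.log_pos (by norm_num)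
  obtain ⟨R, hR, hRm⟩ := roots_few d ⌊M * (T : ℝ) ^ κ⌋₊
  rw [cn_ncard]
  set W : ℝ := M * (T : ℝ) ^ δ with hW
  have hW0 : 0 ≤ W := by positivity
  have hsub : {q : ℕ | 1 ≤ q ∧ q ≤ T ∧ Bad d M κ δ q} ⊆
      ⋃ ξ ∈ R, {q : ℕ | 1 ≤ q ∧ q ≤ T ∧ ∃ p : ℤ, Int.gcd p q = 1 ∧ |ξ - p / q| ≤ W / (q : ℝ) ^ 2} := by
    rintro q ⟨h1, h2, ξ, h3, p, h4, h5⟩
    have hq0 : (0 : ℝ) < q := by exact_mod_cast h1
    have hqT : (q : ℝ) ≤ T := by exact_mod_cast h2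
    simp only [Set.mem_iUnion, exists_prop]
    refine ⟨ξ, hRm ξ ?_, h1, h2, p, h4, h5.trans ?_⟩
    · refine (h3.mono le_rfl ?_).floor
      gcongr
    · rw [Real.rpow_sub hq0, Real.rpow_two, mul_div_assoc']
      gcongr
      rw [hW]
      gcongr
  have hfin : (⋃ ξ ∈ R, {q : ℕ | 1 ≤ q ∧ q ≤ T ∧ ∃ p : ℤ, Int.gcd p q = 1 ∧ |ξ - p / q| ≤ W / (q : ℝ) ^ 2}).Finite :=
    Set.Finite.biUnion (Finset.finite_toSet _) fun ξ _ =>
      (Set.finite_le_nat T).subset fun q hq => hq.2.1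
  have h1 : {q : ℕ | 1 ≤ q ∧ q ≤ T ∧ Bad d M κ δ q}.ncard ≤ R.card * ((Nat.log 2 T + 1) * (⌊8 * W⌋₊ + 1)) := by
    refine (Set.ncard_le_ncard hsub hfin).trans ?_
    refine (Finset.set_ncard_biUnion_le _ _).trans ?_
    refine (Finset.sum_le_card_nsmul _ _ _ fun ξ _ => few_den ξ W hW0 T).trans ?_
    simp
  have h2 : (R.card : ℝ) ≤ (2 * M + 1) ^ (d + 1) * d * (T : ℝ) ^ (κ * (d + 1)) := by
    have e1 : (R.card : ℝ) ≤ (2 * ⌊M * (T : ℝ) ^ κ⌋₊ + 1) ^ (d + 1) * d := by exact_mod_cast hR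
    have e2 : (⌊M * (T : ℝ) ^ κ⌋₊ : ℝ) ≤ M * (T : ℝ) ^ κ := Nat.floor_le (by positivity)
    have e3 : (1 : ℝ) ≤ (T : ℝ) ^ κ := Real.one_le_rpow hT1 hκ
    have e4 : (2 * (⌊M * (T : ℝ) ^ κ⌋₊ : ℝ) + 1) ≤ (2 * M + 1) * (T : ℝ) ^ κ := by nlinarith
    calc (R.card : ℝ) ≤ (2 * ⌊M * (T : ℝ) ^ κ⌋₊ + 1) ^ (d + 1) * d := e1
      _ ≤ ((2 * M + 1) * (T : ℝ) ^ κ) ^ (d + 1) * d := by gcongr
      _ = (2 * M + 1) ^ (d + 1) * d * (T : ℝ) ^ (κ * (d + 1)) := by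
        rw [mul_pow, ← Real.rpow_natCast ((T : ℝ) ^ κ) (d + 1), ← Real.rpow_mul hT0.le]
        push_cast
        ring
  have h3 : ((Nat.log 2 T + 1 : ℕ) : ℝ) ≤ (1 / ε / Real.log 2 + 1) * (T : ℝ) ^ ε := by
    have e1 : (Nat.log 2 T : ℝ) ≤ Real.log T / Real.log 2 := by
      rw [le_div_iff₀ hl2, ← Real.log_pow]
      apply Real.log_le_log (by positivity)
      exact_mod_cast Nat.pow_log_le_self 2 (by omega)
    have e2 : Real.log T ≤ (T : ℝ) ^ ε / ε := Real.log_le_rpow_div hT0.le hε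
    have e3 : (1 : ℝ) ≤ (T : ℝ) ^ ε := Real.one_le_rpow hT1 hε.le
    push_cast
    calc (Nat.log 2 T : ℝ) + 1 ≤ (T : ℝ) ^ ε / ε / Real.log 2 + (T : ℝ) ^ ε := by
          have : Real.log T / Real.log 2 ≤ (T : ℝ) ^ ε / ε / Real.log 2 := by gcongr
          linarith
      _ = (1 / ε / Real.log 2 + 1) * (T : ℝ) ^ ε := by ring
  have h4 : ((⌊8 * W⌋₊ + 1 : ℕ) : ℝ) ≤ (8 * M + 1) * (T : ℝ) ^ δ := by
    have e1 : (⌊8 * W⌋₊ : ℝ) ≤ 8 * W := Nat.floor_le (by positivity)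
    have e3 : (1 : ℝ) ≤ (T : ℝ) ^ δ := Real.one_le_rpow hT1 hδ
    push_cast
    rw [hW] at e1
    linarith
  calc ({q : ℕ | 1 ≤ q ∧ q ≤ T ∧ Bad d M κ δ q}.ncard : ℝ)
      ≤ (R.card : ℝ) * (((Nat.log 2 T + 1 : ℕ) : ℝ) * ((⌊8 * W⌋₊ + 1 : ℕ) : ℝ)) := by exact_mod_cast h1
    _ ≤ ((2 * M + 1) ^ (d + 1) * d * (T : ℝ) ^ (κ * (d + 1))) *
        (((1 / ε / Real.log 2 + 1) * (T : ℝ) ^ ε) * ((8 * M + 1) * (T : ℝ) ^ δ)) := by gcongr
    _ = (2 * M + 1) ^ (d + 1) * d * (1 / ε / Real.log 2 + 1) * (8 * M + 1) * (T : ℝ) ^ (κ * (d + 1) + δ + ε) := by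
        rw [Real.rpow_add hT0, Real.rpow_add hT0]
        ring

end Pool.Agent.Q138.PS.Lg
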