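import Pool.Agent.Q138.PS.XX
import Pool.Agent.Q84.NX.Cross
import Pool.Agent.Q231.SH.Count
import Pool.Agent.Results.MP_7aad9f_nt.MultiplesThreeHalves

/-!
Primes near `c n ^ j α ^ n` and the abc triples which they divide; places of bad reduction of superelliptic curves.
-/

set_option autoImplicit false

namespace Pool.Agent.Q138.PS.Sz

open Filter Topology NumberField IsDedekindDomain
open Pool.Agent.Q290.AB (Moeb GoodAt)
open Pool.Agent.Q231.SH (IsTriple rad3 trip)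

/-- the prime `l` divides an abc triple of radical at most `C l ^ (2 - ε)` -/
def Has (C ε : ℝ) (l : ℕ) : Prop :=
  l.Prime ∧ ∃ s, IsTriple s ∧ l ∣ s.1 * s.2 * (s.1 + s.2) ∧ (rad3 s : ℝ) ≤ C * (l : ℝ) ^ (2 - ε)

theorem large_pow (C ε : ℝ) (hε : 0 < ε) : ∃ L : ℕ, ∀ l : ℕ, L < l → C < (l : ℝ) ^ ε := by
  have h1 : ∀ᶠ x : ℝ in atTop, C < x ^ ε := (tendsto_rpow_atTop hε).eventually_gt_atTop _
  obtain ⟨x₀, hx₀⟩ := h1.exists_forall_of_atTop
  obtain ⟨L, hL⟩ := exists_nat_ge x₀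
  exact ⟨L, fun l hl => hx₀ l (hL.trans (by exact_mod_cast hl.le))⟩

/-- first count -/
theorem count1 (C ε ε' : ℝ) (hε' : 0 < ε') (hε'1 : ε' ≤ 1) (h : ε' < ε) :
    ∃ C' : ℝ, ∀ T : ℕ, 1 ≤ T → cn (Has C ε) T ≤ C' * (T : ℝ) ^ (1 - ε' / 5) := by
  obtain ⟨C₁, hC₁⟩ := Pool.Agent.Results.MP_7aad9f_nt.MultiplesThreeHalves.result.1 ε' hε' hε'1
  obtain ⟨L, hL⟩ := large_pow C (ε - ε') (by linarith)
  refine ⟨L + C₁, fun T hT => ?_⟩
  have hT1 : (1 : ℝ) ≤ T := by exact_mod_cast hT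
  have hTe : (1 : ℝ) ≤ (T : ℝ) ^ (1 - ε' / 5) := Real.one_le_rpow hT1 (by linarith)
  rw [cn_ncard]
  have hsub : {n : ℕ | 1 ≤ n ∧ n ≤ T ∧ Has C ε n} ⊆ (Set.Icc 1 L) ∪
      {n : ℕ | 1 ≤ n ∧ n ≤ T ∧ ¬ Pool.Agent.Results.MP_7aad9f_nt.MultiplesThreeHalves.Regular ε' n} := by
    rintro l ⟨h1, h2, h3, s, h4, h5, h6⟩
    by_cases hlL : l ≤ L
    · exact Or.inl ⟨h1, hlL⟩
    · refine Or.inr ⟨h1, h2, fun hreg => ?_⟩
      have hl0 : (0 : ℝ) < l := by exact_mod_cast h1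
      have h7 := hreg.1 s.1 s.2 (s.1 + s.2) ⟨h4.1, h4.1.trans_le h4.2.1, rfl, h4.2.2⟩ h5
      have h8 : (l : ℝ) * l ≤ Pool.Agent.Results.MP_7aad9f_nt.MultiplesThreeHalves.M l := by
        unfold Pool.Agent.Results.MP_7aad9f_nt.MultiplesThreeHalves.M
          Pool.Agent.Results.MP_7aad9f_nt.MultiplesThreeHalves.largestPrime
        rw [Nat.Prime.primeFactors h3, Finset.sup_singleton]
        exact le_max_right _ _
      have h9 : (Pool.Agent.Results.MP_7aad9f_nt.MultiplesThreeHalves.radical (s.1 * s.2 * (s.1 + s.2)) : ℝ) = rad3 s := rfl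
      rw [h9] at h7
      have h10 : (l : ℝ) * l * (l : ℝ) ^ (-ε') = (l : ℝ) ^ (ε - ε') * (l : ℝ) ^ (2 - ε) := by
        rw [← Real.rpow_add hl0, show (ε - ε' + (2 - ε) : ℝ) = 1 + 1 + -ε' by ring, Real.rpow_add hl0,
          Real.rpow_add hl0, Real.rpow_one]
      have h11 : (l : ℝ) * l * (l : ℝ) ^ (-ε') ≤
          Pool.Agent.Results.MP_7aad9f_nt.MultiplesThreeHalves.M l * (l : ℝ) ^ (-ε') :=
        mul_le_mul_of_nonneg_right h8 (by positivity)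
      have h12 : C * (l : ℝ) ^ (2 - ε) ≤ (l : ℝ) ^ (ε - ε') * (l : ℝ) ^ (2 - ε) :=
        mul_le_mul_of_nonneg_right (hL l (by omega)).le (by positivity)
      linarith
  have hfin2 : {n : ℕ | 1 ≤ n ∧ n ≤ T ∧ ¬ Pool.Agent.Results.MP_7aad9f_nt.MultiplesThreeHalves.Regular ε' n}.Finite :=
    (Set.finite_Iic T).subset fun n hn => hn.2.1
  have h1 := (Set.ncard_le_ncard hsub ((Set.finite_Icc 1 L).union hfin2)).trans (Set.ncard_union_le _ _)
  have h2 : (Set.Icc 1 L).ncard ≤ L := by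
    rw [← Nat.card_coe_set_eq, Nat.card_eq_fintype_card, Fintype.card_Icc]
    simp
  have h3 := hC₁ T hT
  have h4 : ({n : ℕ | 1 ≤ n ∧ n ≤ T ∧ Has C ε n}.ncard : ℝ) ≤ L +
      ({n : ℕ | 1 ≤ n ∧ n ≤ T ∧ ¬ Pool.Agent.Results.MP_7aad9f_nt.MultiplesThreeHalves.Regular ε' n}.ncard : ℝ) := by
    exact_mod_cast h1.trans (by omega)
  have h5 : (0 : ℝ) ≤ L := Nat.cast_nonneg L
  nlinarith

/-- second count -/
theorem count2 (C ε : ℝ) (hC : 1 ≤ C) (hε : 0 < ε) (hε1 : ε ≤ 1) :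
    ∃ C' : ℝ, ∀ T : ℕ, 1 ≤ T → cn (Has C ε) T ≤ C' * (T : ℝ) ^ ((4 - 2 * ε) / 3) := by
  classical
  obtain ⟨C₁, hC₁, hc⟩ := Pool.Agent.Q231.SH.trip_count
  obtain ⟨L, hL⟩ := large_pow C ε hε
  refine ⟨L + C₁ * C ^ ((2 : ℝ) / 3), fun T hT => ?_⟩
  have hT1 : (1 : ℝ) ≤ T := by exact_mod_cast hT
  have hT0 : (0 : ℝ) < T := by linarith
  have hTe : (1 : ℝ) ≤ (T : ℝ) ^ ((4 - 2 * ε) / 3) := Real.one_le_rpow hT1 (by linarith)
  have hX : 1 ≤ C * (T : ℝ) ^ (2 - ε) := by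
    have : (1 : ℝ) ≤ (T : ℝ) ^ (2 - ε) := Real.one_le_rpow hT1 (by linarith)
    nlinarith
  rw [cn_ncard]
  set A : Set ℕ := {n : ℕ | 1 ≤ n ∧ n ≤ T ∧ Has C ε n ∧ L < n} with hA
  have hsub : {n : ℕ | 1 ≤ n ∧ n ≤ T ∧ Has C ε n} ⊆ (Set.Icc 1 L) ∪ A := by
    rintro l ⟨h1, h2, h3⟩
    by_cases hlL : l ≤ L
    · exact Or.inl ⟨h1, hlL⟩
    · exact Or.inr ⟨h1, h2, h3, by omega⟩
  have hAfin : A.Finite := (Set.finite_Iic T).subset fun n hn => hn.2.1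
  have h1 := (Set.ncard_le_ncard hsub ((Set.finite_Icc 1 L).union hAfin)).trans (Set.ncard_union_le _ _)
  have h2 : (Set.Icc 1 L).ncard ≤ L := by
    rw [← Nat.card_coe_set_eq, Nat.card_eq_fintype_card, Fintype.card_Icc]
    simp
  have hex : ∀ l ∈ A, ∃ s, IsTriple s ∧ l ∣ s.1 * s.2 * (s.1 + s.2) ∧ (rad3 s : ℝ) ≤ C * (l : ℝ) ^ (2 - ε) :=
    fun l hl => hl.2.2.1.2
  choose! s hs1 hs2 hs3 using hex
  have hmaps : ∀ l ∈ A, s l ∈ trip (C * (T : ℝ) ^ (2 - ε)) := by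
    intro l hl
    refine ⟨hs1 l hl, (hs3 l hl).trans ?_⟩
    have : (l : ℝ) ≤ T := by exact_mod_cast hl.2.1
    have h0 : (0 : ℝ) ≤ l := Nat.cast_nonneg l
    gcongr
    linarith
  have hpos : ∀ t : ℕ × ℕ, IsTriple t → t.1 * t.2 * (t.1 + t.2) ≠ 0 := by
    intro t ht
    have e1 : 0 < t.1 := ht.1
    have e2 : 0 < t.2 := e1.trans_le ht.2.1
    positivity
  have key : ∀ a ∈ A, ∀ b ∈ A, s a = s b → a < b → False := by
    intro a ha b hb hab hlt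
    have pa : a.Prime := ha.2.2.1.1
    have pb : b.Prime := hb.2.2.1.1
    have e1 : a ∣ rad3 (s a) := Finset.dvd_prod_of_mem _ (Nat.mem_primeFactors.2 ⟨pa, hs2 a ha, hpos _ (hs1 a ha)⟩)
    have e2 : b ∣ rad3 (s a) := by
      rw [hab]
      exact Finset.dvd_prod_of_mem _ (Nat.mem_primeFactors.2 ⟨pb, hs2 b hb, hpos _ (hs1 b hb)⟩)
    have e3 : a * b ∣ rad3 (s a) := Nat.Coprime.mul_dvd_of_dvd_of_dvd ((Nat.coprime_primes pa pb).2 hlt.ne) e1 e2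
    have e4 : 0 < rad3 (s a) := Finset.prod_pos fun q hq => (Nat.prime_of_mem_primeFactors hq).pos
    have e5 : (a : ℝ) * b ≤ rad3 (s a) := by exact_mod_cast Nat.le_of_dvd e4 e3
    have e6 := hs3 a ha
    have a0 : (0 : ℝ) < a := by exact_mod_cast pa.pos
    have e7 : C * (a : ℝ) ^ (2 - ε) < (a : ℝ) ^ ε * (a : ℝ) ^ (2 - ε) :=
      mul_lt_mul_of_pos_right (hL a ha.2.2.2) (by positivity)
    rw [← Real.rpow_add a0, show (ε + (2 - ε) : ℝ) = 1 + 1 by ring, Real.rpow_add a0, Real.rpow_one] at e7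
    have e8 : (a : ℝ) ≤ b := by exact_mod_cast hlt.le
    nlinarith
  have hinj : Set.InjOn s A := by
    intro a ha b hb hab
    rcases lt_trichotomy a b with h | h | h
    · exact (key a ha b hb hab h).elim
    · exact h
    · exact (key b hb a ha hab.symm h).elim
  have h3 := Set.ncard_le_ncard_of_injOn s hmaps hinj (Pool.Agent.Q231.SH.trip_finite _)
  have h4 := hc _ hX
  have h5 : ({n : ℕ | 1 ≤ n ∧ n ≤ T ∧ Has C ε n}.ncard : ℝ) ≤ L + ((trip (C * (T : ℝ) ^ (2 - ε))).ncard : ℝ) := by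
    exact_mod_cast h1.trans (by omega)
  have h6 : (C * (T : ℝ) ^ (2 - ε)) ^ ((2 : ℝ) / 3) = C ^ ((2 : ℝ) / 3) * (T : ℝ) ^ ((4 - 2 * ε) / 3) := by
    rw [Real.mul_rpow (by linarith) (by positivity), ← Real.rpow_mul hT0.le]
    congr 2
    ring
  rw [h6] at h4
  have h7 : (0 : ℝ) ≤ L := Nat.cast_nonneg L
  nlinarith

/-- the exponent of the exceptional primes -/
noncomputable def ex (ε : ℝ) : ℝ := min (1 - ε / 5) ((4 - 2 * ε) / 3)

theorem ex_nonneg {ε : ℝ} (hε1 : ε ≤ 1) : 0 ≤ ex ε := le_min (by linarith) (by linarith)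

theorem count (C ε : ℝ) (hC : 1 ≤ C) (hε : 0 < ε) (hε1 : ε ≤ 1) (η : ℝ) (hη : 0 < η) :
    ∃ C' : ℝ, ∀ T : ℕ, 1 ≤ T → cn (Has C ε) T ≤ C' * (T : ℝ) ^ (ex ε + η) := by
  unfold ex
  rcases le_total (1 - ε / 5) ((4 - 2 * ε) / 3) with h | h
  · rw [min_eq_left h]
    have h1 : 0 < max (ε / 2) (ε - 5 * η) := lt_max_of_lt_left (by linarith)
    have h2 : max (ε / 2) (ε - 5 * η) < ε := max_lt (by linarith) (by linarith)
    obtain ⟨C', hC'⟩ := count1 C ε (max (ε / 2) (ε - 5 * η)) h1 (by linarith) h2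
    refine ⟨|C'|, fun T hT => (hC' T hT).trans ?_⟩
    have hT1 : (1 : ℝ) ≤ T := by exact_mod_cast hT
    calc C' * (T : ℝ) ^ (1 - max (ε / 2) (ε - 5 * η) / 5) ≤ |C'| * (T : ℝ) ^ (1 - max (ε / 2) (ε - 5 * η) / 5) :=
          mul_le_mul_of_nonneg_right (le_abs_self _) (by positivity)
      _ ≤ |C'| * (T : ℝ) ^ (1 - ε / 5 + η) := by
          apply mul_le_mul_of_nonneg_left _ (abs_nonneg _)
          apply Real.rpow_le_rpow_of_exponent_le hT1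
          have := le_max_right (ε / 2) (ε - 5 * η)
          linarith
  · rw [min_eq_right h]
    obtain ⟨C', hC'⟩ := count2 C ε hC hε hε1
    refine ⟨|C'|, fun T hT => (hC' T hT).trans ?_⟩
    have hT1 : (1 : ℝ) ≤ T := by exact_mod_cast hT
    calc C' * (T : ℝ) ^ ((4 - 2 * ε) / 3) ≤ |C'| * (T : ℝ) ^ ((4 - 2 * ε) / 3) :=
          mul_le_mul_of_nonneg_right (le_abs_self _) (by positivity)
      _ ≤ |C'| * (T : ℝ) ^ ((4 - 2 * ε) / 3 + η) := by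
          apply mul_le_mul_of_nonneg_left _ (abs_nonneg _)
          exact Real.rpow_le_rpow_of_exponent_le hT1 (by linarith)

/-- The primes near the powers divide only abc triples of large radical. -/
theorem windows (ε l : ℝ) (hε : 0 < ε) (hε1 : ε ≤ 1) (hl : l < 1) :
    ∃ Z : Set ℝ, dimH Z ≤ ENNReal.ofReal (ex ε / (1 - l)) ∧ ∀ α : ℝ, 1 < α → α ∉ Z →
      ∀ (D : ℕ) (c : ℝ), 0 < c → IsAlgebraic ℚ c → ∀ (j : ℤ) (A : ℝ), ∀ᶠ n : ℕ in atTop,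
        ∀ p : ℕ, p.Prime → NearPow α c j A l n p → D < p ∧
          ∀ s, IsTriple s → p ∣ s.1 * s.2 * (s.1 + s.2) → 2 * (D.factorial : ℝ) * (p : ℝ) ^ (2 - ε) < rad3 s := by
  have hC : ∀ D : ℕ, (1 : ℝ) ≤ 2 * (D.factorial : ℝ) := by
    intro D
    have : (1 : ℝ) ≤ (D.factorial : ℝ) := by exact_mod_cast D.factorial_pos
    linarith
  obtain ⟨Z, hZ, hg⟩ := pow_alg (ι := ℕ) (fun D => {p | 1 ≤ p ∧ Has (2 * (D.factorial : ℝ)) ε p}) (ex ε) l
    (ex_nonneg hε1) hl (fun D η hη => by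
      obtain ⟨C', hC'⟩ := count (2 * (D.factorial : ℝ)) ε (hC D) hε hε1 η hη
      exact ⟨|C'|, cn_pow (by have := ex_nonneg hε1
                              linarith) hC'⟩)
  refine ⟨Z, hZ, fun α hα hαZ D c hc hca j A => ?_⟩
  filter_upwards [hg α hα hαZ D c hc hca j A, near_large hα hc j A hl ((D : ℝ) + 1)] with n hn hlarge p hp hnear
  refine ⟨by have := hlarge p hnear
             have h2 : ((D + 1 : ℕ) : ℝ) ≤ p := by push_cast; exact this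
             have h3 : D + 1 ≤ p := by exact_mod_cast h2
             omega, fun s hs hps => ?_⟩
  by_contra h
  exact hn p hnear ⟨hp.one_lt.le, hp, s, hs, hps, not_lt.1 h⟩

/-- **Good reduction at a prime which divides only triples of large radical**, if the other bad primes have a small product. -/
theorem good_of {D : ℕ} {ε : ℝ} {p : ℕ} (hp : p.Prime)
    (hfine : ∀ s, IsTriple s → p ∣ s.1 * s.2 * (s.1 + s.2) → 2 * (D.factorial : ℝ) * (p : ℝ) ^ (2 - ε) < rad3 s)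
    {N : ℕ} (hN : 1 ≤ N) (hNp : (N : ℝ) ≤ (p : ℝ) ^ (2 - ε)) {K : Type} [Field K] [NumberField K] {n m : ℕ}
    {z : Fin m → K} (h3 : 3 ≤ m) (hn : 0 < n) (hnD : n ≤ D) (hz : ∃ b : Fin m → ℚ, Function.Injective b ∧ Moeb z b)
    (hgood : ∀ v : HeightOneSpectrum (𝓞 K), ((n * N : ℕ) : 𝓞 K) ∉ v.asIdeal → GoodAt v z)
    (v : HeightOneSpectrum (𝓞 K)) (hv : ((p : ℕ) : 𝓞 K) ∈ v.asIdeal) : GoodAt v z := by
  by_contra hbad
  obtain ⟨b, hb, hzb⟩ := hz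
  have hv' : ∀ n : ℕ, ((n : ℕ) : 𝓞 K) ∈ v.asIdeal ↔ p ∣ n := by
    intro x
    constructor
    · intro hx
      by_contra hlx
      have hco : IsCoprime (p : ℤ) (x : ℤ) := by
        rw [Nat.isCoprime_iff_coprime]
        exact (Nat.Prime.coprime_iff_not_dvd hp).2 hlx
      obtain ⟨u, w, huw⟩ := hco
      apply v.isPrime.ne_top
      rw [Ideal.eq_top_iff_one]
      have e : (1 : 𝓞 K) = (u : 𝓞 K) * ((p : ℕ) : 𝓞 K) + (w : 𝓞 K) * ((x : ℕ) : 𝓞 K) := by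
        have := congrArg (fun n : ℤ => (n : 𝓞 K)) huw
        push_cast at this
        exact this.symm
      rw [e]
      exact Ideal.add_mem _ (Ideal.mul_mem_left _ _ hv) (Ideal.mul_mem_left _ _ hx)
    · rintro ⟨c, rfl⟩
      rw [Nat.cast_mul]
      exact Ideal.mul_mem_right _ _ hv
  obtain ⟨s, hs, hls, hrad⟩ := Pool.Agent.Q84.NX.triple_of_bad h3 hb hzb hgood hv' hp hbad
  have h1 := hfine s hs hls
  have h4 : (rad3 s : ℝ) ≤ 2 * (D.factorial * N) := by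
    have h40 : rad3 s ≤ 2 * (n * N) := Nat.le_of_dvd (by positivity) hrad
    have h41 : 2 * (n * N) ≤ 2 * (D.factorial * N) := by
      have : n ≤ D.factorial := hnD.trans (Nat.self_le_factorial D)
      gcongr
    exact_mod_cast h40.trans h41
  have h8 : (D.factorial : ℝ) * N ≤ D.factorial * (p : ℝ) ^ (2 - ε) := by gcongr
  linarith

end Pool.Agent.Q138.PS.Sz
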