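import Pool.Agent.Q138.PS.YJ
import Pool.Agent.Q231.SH.Main

/-!
Finite lists of hyperelliptic curves with given cross ratios (after helper231), and hyperelliptic curves with bad reduction at
primes near `c n ^ j α ^ n`.
-/

set_option autoImplicit false

namespace Pool.Agent.Q138.PS.Hy

open Polynomial Filter Topology
open Pool.Agent.Q231.SH

/-- a finite list for the curves with cross ratios in a finite set -/
theorem list_of (Λ : Set ℚ) (hΛfin : Λ.Finite) : ∃ L : Set Config, L.Finite ∧ (∀ x ∈ L, Function.Injective x.2) ∧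
    ∀ (g : ℕ) (hg : 1 ≤ g) (a : Fin (2 * g + 2) → ℚ), Function.Injective a →
      (∀ i : Fin (2 * g + 2), 3 ≤ i.1 → cross hg a i ∈ Λ) →
      ∃ b : Fin (2 * g + 2) → ℚ, (⟨g, b⟩ : Config) ∈ L ∧ IsoQbar a b := by
  classical
  set Λ1 : Set ℚ := insert 0 (insert 1 Λ) with hΛ1
  have hΛ1fin : Λ1.Finite := (hΛfin.insert 1).insert 0
  set G : ℕ := Λ.ncard with hG
  set Q : Set Config := {x | ∃ h : 1 ≤ x.1, Function.Injective x.2 ∧
    (∀ i : Fin (2 * x.1 + 2), 3 ≤ i.1 → cross h x.2 i ∈ Λ)} with hQ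
  set Ψ : Config → Config := fun x => ⟨x.1, if h : 1 ≤ x.1 then cross h x.2 else 0⟩ with hΨ
  have hQg : ∀ x ∈ Q, x.1 ≤ G := by
    rintro ⟨g, a⟩ ⟨hg, hinj, hcr⟩
    simp only at hg hinj hcr
    -- the indices from 3 on inject into `Λ`
    have h1 : (Set.range (fun k : Fin (2 * g - 1) =>
        cross hg a ⟨k.1 + 3, by omega⟩)) ⊆ Λ := by
      rintro _ ⟨k, rfl⟩
      exact hcr _ (by simp)
    have h2 : Function.Injective (fun k : Fin (2 * g - 1) =>
        cross hg a ⟨k.1 + 3, by omega⟩) := by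
      intro k l hkl
      have := cross_inj hg hinj (by simp) (by simp) hkl
      rw [Fin.ext_iff] at this ⊢
      simpa using this
    have h3 := Set.ncard_le_ncard h1 hΛfin
    rw [← Set.image_univ, Set.ncard_image_of_injective _ h2, Set.ncard_univ, Nat.card_eq_fintype_card,
      Fintype.card_fin] at h3
    simp only
    omega
  have himg : (Ψ '' Q).Finite := by
    have hsub : Ψ '' Q ⊆ ⋃ g ∈ Set.Iic G, (fun t : Fin (2 * g + 2) → ℚ => (⟨g, t⟩ : Config)) ''
        (Set.univ.pi fun _ => Λ1) := by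
      rintro _ ⟨⟨g, a⟩, hx, rfl⟩
      have hgG := hQg _ hx
      obtain ⟨hg, hinj, hcr⟩ := hx
      simp only at hg hinj hcr hgG
      simp only [Set.mem_iUnion, Set.mem_image, hΨ]
      refine ⟨g, hgG, cross hg a, ?_, by rw [dif_pos hg]⟩
      intro i _
      have hneq : ∀ {i j : Fin (2 * g + 2)}, i ≠ j → a i - a j ≠ 0 :=
        fun h h0 => h (hinj (sub_eq_zero.1 h0))
      by_cases hi : 3 ≤ i.1
      · exact Or.inr (Or.inr (hcr i hi))
      · have : i.1 = 0 ∨ i.1 = 1 ∨ i.1 = 2 := by omega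
        rcases this with h0 | h0 | h0
        · left
          have : i = ⟨0, by omega⟩ := Fin.ext h0
          rw [this]; unfold cross; simp
        · right; left
          have : i = ⟨1, by omega⟩ := Fin.ext h0
          rw [this]; unfold cross
          have n12 : (⟨1, by omega⟩ : Fin (2 * g + 2)) ≠ ⟨2, by omega⟩ := by simp
          have n10 : (⟨1, by omega⟩ : Fin (2 * g + 2)) ≠ ⟨0, by omega⟩ := by simp
          rw [div_eq_one_iff_eq (mul_ne_zero (hneq n12) (hneq n10))]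
          ring
        · left
          have : i = ⟨2, by omega⟩ := Fin.ext h0
          rw [this]; unfold cross; simp
    refine Set.Finite.subset ?_ hsub
    refine (Set.finite_Iic G).biUnion fun g _ => ?_
    exact (Set.Finite.pi' fun _ => hΛ1fin).subset (by
      intro t ht i; exact ht i (Set.mem_univ _)) |>.image _
  obtain ⟨L, hLQ, hbij⟩ := Set.exists_subset_bijOn Q Ψ
  have hLfin : L.Finite := by
    apply Set.Finite.of_finite_image _ hbij.injOn
    rw [hbij.image_eq]; exact himg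
  refine ⟨L, hLfin, fun x hx => (hLQ hx).2.1, fun g hg a ha hcr => ?_⟩
  have hxQ : (⟨g, a⟩ : Config) ∈ Q := ⟨hg, ha, hcr⟩
  obtain ⟨y, hyL, hy⟩ := hbij.surjOn ⟨_, hxQ, rfl⟩
  obtain ⟨g', b⟩ := y
  have hg' : g' = g := congrArg Sigma.fst hy
  subst hg'
  have hcb : cross hg b = cross hg a := by
    simp only [hΨ, dif_pos hg] at hy
    have := (Sigma.mk.inj_iff.1 hy).2
    exact eq_of_heq this
  exact ⟨b, hyL, iso_of_cross hg ha (hLQ hyL).2.1 hcb.symm⟩

/-- the finite lists for the integers `N` -/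
theorem exists_lists : ∃ L : ℕ → Set Config, (∀ N, (L N).Finite ∧ ∀ x ∈ L N, Function.Injective x.2) ∧
    ∀ N : ℕ, 1 ≤ N → ∀ (g : ℕ) (hg : 1 ≤ g) (a : Fin (2 * g + 2) → ℚ), Function.Injective a →
      (∀ i : Fin (2 * g + 2), 3 ≤ i.1 → ∃ s ∈ trip (2 * N), cross hg a i ∈ six s) →
      ∃ b : Fin (2 * g + 2) → ℚ, (⟨g, b⟩ : Config) ∈ L N ∧ IsoQbar a b := by
  have h : ∀ N : ℕ, ∃ L : Set Config, (L.Finite ∧ ∀ x ∈ L, Function.Injective x.2) ∧
      ∀ (g : ℕ) (hg : 1 ≤ g) (a : Fin (2 * g + 2) → ℚ), Function.Injective a →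
        (∀ i : Fin (2 * g + 2), 3 ≤ i.1 → ∃ s ∈ trip (2 * N), cross hg a i ∈ six s) →
        ∃ b : Fin (2 * g + 2) → ℚ, (⟨g, b⟩ : Config) ∈ L ∧ IsoQbar a b := by
    intro N
    obtain ⟨L, h1, h2, h3⟩ := list_of (⋃ s ∈ trip (2 * N), (six s : Set ℚ))
      ((trip_finite _).biUnion fun s _ => Finset.finite_toSet _)
    refine ⟨L, ⟨h1, h2⟩, fun g hg a ha hcr => h3 g hg a ha fun i hi => ?_⟩
    obtain ⟨s, hs, h6⟩ := hcr i hi
    exact Set.mem_biUnion hs h6
  choose L hL using h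
  exact ⟨L, fun N => (hL N).1, fun N _ => (hL N).2⟩

/-- the cross ratios of a curve which is good outside `2 p N`, if `p` divides only triples of large radical -/
theorem cross_of {g : ℕ} (hg : 1 ≤ g) {p N : ℕ} (hp : p.Prime) (hN : 1 ≤ N) {d : ℚ} {a : Fin (2 * g + 2) → ℚ}
    (h : GoodOutside (p * N) d a)
    (hfine : ∀ s, IsTriple s → p ∣ s.1 * s.2 * (s.1 + s.2) → 2 * ((p : ℝ) * N) < rad3 s)
    (i : Fin (2 * g + 2)) (hi : 3 ≤ i.1) :
    ∃ s ∈ trip (2 * N), cross hg a i ∈ six s := by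
  obtain ⟨s, hs, h6, hp'⟩ : ∃ s, IsTriple s ∧ cross hg a i ∈ six s ∧
      ∀ q : ℕ, q.Prime → q ∣ s.1 * s.2 * (s.1 + s.2) → q ∣ 2 * (p * N) := by
    obtain ⟨hd, hinj, hgood⟩ := h
    have hneq : ∀ {i j : Fin (2 * g + 2)}, i ≠ j → a i - a j ≠ 0 :=
      fun h h0 => h (hinj (sub_eq_zero.1 h0))
    set J0 : Fin (2 * g + 2) := ⟨0, by omega⟩ with hJ0
    set J1 : Fin (2 * g + 2) := ⟨1, by omega⟩ with hJ1
    set J2 : Fin (2 * g + 2) := ⟨2, by omega⟩ with hJ2
    have n0 : i ≠ J0 := by rw [hJ0, Ne, Fin.ext_iff]; simp only; omega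
    have n1 : i ≠ J1 := by rw [hJ1, Ne, Fin.ext_iff]; simp only; omega
    have n2 : i ≠ J2 := by rw [hJ2, Ne, Fin.ext_iff]; simp only; omega
    have n01 : J0 ≠ J1 := by rw [hJ0, hJ1, Ne, Fin.ext_iff]; simp
    have n02 : J0 ≠ J2 := by rw [hJ0, hJ2, Ne, Fin.ext_iff]; simp
    have n12 : J1 ≠ J2 := by rw [hJ1, hJ2, Ne, Fin.ext_iff]; simp
    have hc : cross hg a i = (a i - a J0) * (a J1 - a J2) / ((a i - a J2) * (a J1 - a J0)) := rfl
    have hden : (a i - a J2) * (a J1 - a J0) ≠ 0 := mul_ne_zero (hneq n2) (hneq n01.symm)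
    have ht0 : cross hg a i ≠ 0 := by
      rw [hc]
      exact div_ne_zero (mul_ne_zero (hneq n0) (hneq n12)) hden
    have ht1 : cross hg a i ≠ 1 := by
      rw [hc]
      intro h
      rw [div_eq_one_iff_eq hden] at h
      have h2 : (a i - a J1) * (a J0 - a J2) = 0 := by linear_combination h
      exact mul_ne_zero (hneq n1) (hneq n02) h2
    exact exists_triple_of_unit (cross hg a i) ht0 ht1 (p * N) (by
      intro q hq hq2 hqN
      obtain ⟨α, β, γ, δ, e, F, hdet, he, hF, hsq, hdeg⟩ := hgood q hq hq2 hqN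
      rw [hc]
      exact cross_unit hq a α β γ δ _ F hdet hF hsq
        (by rw [Fintype.card_fin]; omega) n0 n1 n01 n2 n02 n12 hinj)
  refine ⟨s, ⟨hs, ?_⟩, h6⟩
  have hnot : ¬ p ∣ s.1 * s.2 * (s.1 + s.2) := by
    intro hdvd
    have h1 := hfine s hs hdvd
    have h2 : (rad3 s : ℝ) ≤ ((2 * (p * N) : ℕ) : ℝ) := by
      exact_mod_cast Nat.le_of_dvd (Nat.mul_pos two_pos (Nat.mul_pos hp.pos hN)) (rad3_dvd hp')
    push_cast at h2
    linarith
  have h3 : rad3 s ∣ 2 * N := rad3_dvd (by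
    intro q hq hqs
    have h4 := hp' q hq hqs
    rw [show 2 * (p * N) = p * (2 * N) by ring] at h4
    rcases (Nat.Prime.dvd_mul hq).1 h4 with h5 | h5
    · exact absurd ((Nat.prime_dvd_prime_iff_eq hq hp).1 h5 ▸ hqs) hnot
    · exact h5)
  have h4 : (rad3 s : ℝ) ≤ ((2 * N : ℕ) : ℝ) := by
    exact_mod_cast Nat.le_of_dvd (by omega) h3
  push_cast at h4
  exact h4

end Pool.Agent.Q138.PS.Hy
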