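import Pool.Agent.Q138.PS.XD

/-!
Large values of a sequence with a given mean square.
-/

set_option autoImplicit false

namespace Pool.Agent.Q138.PS

open Finset

/-- few large values -/
theorem ms_few (a : ℕ → ℝ) (s ε C : ℝ) (hs : 0 ≤ s) (hε : 0 < ε) (hε1 : ε ≤ 1 / 2)
    (h : ∀ X : ℕ, 1 ≤ X → ∑ n ∈ range (X + 1), a n ^ 2 ≤ C * (X : ℝ) ^ (2 * s + 1)) (η : ℝ) (hη : 0 < η) :
    ∃ C' : ℝ, ∀ T : ℝ, 1 ≤ T → (({m | m ∈ {m : ℕ | (m : ℝ) ^ (s + ε) < a m} ∧ (m : ℝ) ≤ T}).ncard : ℝ) ≤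
      C' * T ^ (1 - 2 * ε + η) := by
  refine count_halves _ (1 - 2 * ε + η) (|C| * 2 ^ (2 * s + 2 * ε)) (by linarith) fun T hT => ?_
  have hT1 : (1 : ℝ) ≤ T := by exact_mod_cast hT
  have hT0 : (0 : ℝ) < T := by linarith
  have hfin : {m | m ∈ {m : ℕ | (m : ℝ) ^ (s + ε) < a m} ∧ m ≤ T ∧ T ≤ 2 * m}.Finite :=
    (Set.finite_Iic T).subset fun m hm => hm.2.1
  rw [Set.ncard_eq_toFinset_card _ hfin]
  set F := hfin.toFinset with hF
  have h1 : (F.card : ℝ) * ((T : ℝ) / 2) ^ (2 * s + 2 * ε) ≤ C * (T : ℝ) ^ (2 * s + 1) := by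
    calc (F.card : ℝ) * ((T : ℝ) / 2) ^ (2 * s + 2 * ε) = ∑ _n ∈ F, ((T : ℝ) / 2) ^ (2 * s + 2 * ε) := by
          rw [sum_const, nsmul_eq_mul]
      _ ≤ ∑ n ∈ F, a n ^ 2 := by
          apply sum_le_sum
          intro n hn
          rw [hF, Set.Finite.mem_toFinset] at hn
          obtain ⟨h1, h2, h3⟩ := hn
          have hnT : (T : ℝ) / 2 ≤ n := by
            have : (T : ℝ) ≤ 2 * n := by exact_mod_cast h3
            linarith
          calc ((T : ℝ) / 2) ^ (2 * s + 2 * ε) ≤ (n : ℝ) ^ (2 * s + 2 * ε) :=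
                Real.rpow_le_rpow (by positivity) hnT (by positivity)
            _ = ((n : ℝ) ^ (s + ε)) ^ 2 := by
                rw [← Real.rpow_natCast, ← Real.rpow_mul (Nat.cast_nonneg n)]
                congr 1
                push_cast
                ring
            _ ≤ a n ^ 2 := pow_le_pow_left₀ (by positivity) (show (n : ℝ) ^ (s + ε) < a n from h1).le 2
      _ ≤ ∑ n ∈ range (T + 1), a n ^ 2 := by
          apply sum_le_sum_of_subset_of_nonneg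
          · intro n hn
            rw [hF, Set.Finite.mem_toFinset] at hn
            rw [mem_range]
            have := hn.2.1
            omega
          · intro n _ _
            positivity
      _ ≤ C * (T : ℝ) ^ (2 * s + 1) := h T hT
  have h2 : ((T : ℝ) / 2) ^ (2 * s + 2 * ε) = (T : ℝ) ^ (2 * s + 2 * ε) / 2 ^ (2 * s + 2 * ε) :=
    Real.div_rpow hT0.le (by norm_num) _
  have h3 : (T : ℝ) ^ (2 * s + 1) = (T : ℝ) ^ (1 - 2 * ε) * (T : ℝ) ^ (2 * s + 2 * ε) := by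
    rw [← Real.rpow_add hT0]
    congr 1
    ring
  have h4 : (0 : ℝ) < (T : ℝ) ^ (2 * s + 2 * ε) := by positivity
  have h5 : (0 : ℝ) < (2 : ℝ) ^ (2 * s + 2 * ε) := by positivity
  rw [h2, h3, mul_div_assoc', div_le_iff₀ h5] at h1
  have h6 : (F.card : ℝ) ≤ C * 2 ^ (2 * s + 2 * ε) * (T : ℝ) ^ (1 - 2 * ε) := by
    have : (F.card : ℝ) * (T : ℝ) ^ (2 * s + 2 * ε) ≤ (C * 2 ^ (2 * s + 2 * ε) * (T : ℝ) ^ (1 - 2 * ε)) * (T : ℝ) ^ (2 * s + 2 * ε) := by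
      linarith
    exact le_of_mul_le_mul_right this h4
  refine h6.trans ?_
  have h7 : (T : ℝ) ^ (1 - 2 * ε) ≤ (T : ℝ) ^ (1 - 2 * ε + η) := Real.rpow_le_rpow_of_exponent_le hT1 (by linarith)
  have h8 : C ≤ |C| := le_abs_self C
  calc C * 2 ^ (2 * s + 2 * ε) * (T : ℝ) ^ (1 - 2 * ε) ≤ |C| * 2 ^ (2 * s + 2 * ε) * (T : ℝ) ^ (1 - 2 * ε) := by gcongr
    _ ≤ |C| * 2 ^ (2 * s + 2 * ε) * (T : ℝ) ^ (1 - 2 * ε + η) := by gcongr

end Pool.Agent.Q138.PS
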