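import Pool.Agent.Q138.PS.XG

/-!
Windows around powers of almost all reals: sets with a fixed saving of a power of the logarithm.
-/

set_option autoImplicit false

namespace Pool.Agent.Q138.PS

open Filter Topology MeasureTheory Set

/-- counts for large natural numbers suffice -/
theorem log_large (B : Set ℕ) (δ C : ℝ) (hδ : 0 ≤ δ)
    (h : ∀ᶠ T : ℕ in atTop, (({m | m ∈ B ∧ m ≤ T}).ncard : ℝ) ≤ C * T * (Real.log T) ^ (-δ)) :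
    ∃ C' : ℝ, ∀ T : ℝ, 2 ≤ T → (({m | m ∈ B ∧ (m : ℝ) ≤ T}).ncard : ℝ) ≤ C' * T * (Real.log T) ^ (-δ) := by
  obtain ⟨T₁, hT₁⟩ := eventually_atTop.1 h
  obtain ⟨T₀, hT₀, hT₀3⟩ : ∃ T₀ : ℕ, T₁ ≤ T₀ ∧ 4 ≤ T₀ := ⟨max T₁ 4, le_max_left _ _, le_max_right _ _⟩
  refine ⟨|C| * 2 ^ δ + 2 * Real.log (T₀ + 1) ^ δ, fun T hT => ?_⟩
  have hT0 : (0 : ℝ) < T := by linarith
  have hlT : 0 < Real.log T := Real.log_pos (by linarith)
  have hset : {m | m ∈ B ∧ (m : ℝ) ≤ T} = {m | m ∈ B ∧ m ≤ ⌊T⌋₊} := by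
    ext m
    simp only [Set.mem_ofPred_eq, Nat.le_floor_iff hT0.le]
  rw [hset]
  have hfl : (⌊T⌋₊ : ℝ) ≤ T := Nat.floor_le hT0.le
  have hneg : (Real.log T) ^ (-δ) * (Real.log T) ^ δ = 1 := by
    rw [← Real.rpow_add hlT, neg_add_cancel, Real.rpow_zero]
  have hpos : 0 < (Real.log T) ^ (-δ) := Real.rpow_pos_of_pos hlT _
  rcases le_or_gt ((T₀ : ℝ) + 1) T with h1 | h1
  · have h2 : T₀ ≤ ⌊T⌋₊ := Nat.le_floor (by linarith)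
    have h3 := hT₁ ⌊T⌋₊ (hT₀.trans h2)
    have h4 : (4 : ℝ) ≤ T₀ := by exact_mod_cast hT₀3
    have h5 : T < ⌊T⌋₊ + 1 := Nat.lt_floor_add_one T
    have hY0 : (0 : ℝ) < ⌊T⌋₊ := by linarith
    have h6 : √T ≤ ⌊T⌋₊ := by
      rw [Real.sqrt_le_left hY0.le]
      nlinarith
    have h7 : Real.log T / 2 ≤ Real.log ⌊T⌋₊ := by
      rw [← Real.log_sqrt hT0.le]
      exact Real.log_le_log (Real.sqrt_pos.2 hT0) h6
    have h8 : (Real.log ⌊T⌋₊) ^ (-δ) ≤ 2 ^ δ * (Real.log T) ^ (-δ) := by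
      calc (Real.log ⌊T⌋₊) ^ (-δ) ≤ (Real.log T / 2) ^ (-δ) :=
            Real.rpow_le_rpow_of_nonpos (by positivity) h7 (by linarith)
        _ = 2 ^ δ * (Real.log T) ^ (-δ) := by
            rw [Real.div_rpow hlT.le (by norm_num), Real.rpow_neg (by norm_num : (0 : ℝ) ≤ 2), div_inv_eq_mul, mul_comm]
    calc (({m | m ∈ B ∧ m ≤ ⌊T⌋₊}).ncard : ℝ) ≤ C * ⌊T⌋₊ * (Real.log ⌊T⌋₊) ^ (-δ) := h3
      _ ≤ |C| * T * (2 ^ δ * (Real.log T) ^ (-δ)) := by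
        have h9 : 0 ≤ (Real.log ⌊T⌋₊) ^ (-δ) := Real.rpow_nonneg (by
          have := Real.log_nonneg (show (1 : ℝ) ≤ ⌊T⌋₊ by linarith)
          exact this) _
        have h10 : C * ⌊T⌋₊ ≤ |C| * T := by
          calc C * ⌊T⌋₊ ≤ |C| * ⌊T⌋₊ := mul_le_mul_of_nonneg_right (le_abs_self C) hY0.le
            _ ≤ |C| * T := mul_le_mul_of_nonneg_left hfl (abs_nonneg C)
        have h11 : 0 ≤ |C| * T := by positivity
        exact mul_le_mul h10 h8 h9 h11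
      _ = |C| * 2 ^ δ * T * (Real.log T) ^ (-δ) := by ring
      _ ≤ (|C| * 2 ^ δ + 2 * Real.log (T₀ + 1) ^ δ) * T * (Real.log T) ^ (-δ) := by
        have h12 : 0 ≤ 2 * Real.log (T₀ + 1) ^ δ := by
          have : 0 ≤ Real.log ((T₀ : ℝ) + 1) := Real.log_nonneg (by linarith)
          positivity
        gcongr
        linarith
  · have h2 : (({m | m ∈ B ∧ m ≤ ⌊T⌋₊}).ncard : ℝ) ≤ 2 * T := by
      have h3 : ({m | m ∈ B ∧ m ≤ ⌊T⌋₊}).ncard ≤ (Set.Iic ⌊T⌋₊).ncard :=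
        Set.ncard_le_ncard (fun m hm => hm.2) (Set.finite_Iic _)
      have h4 : (Set.Iic ⌊T⌋₊).ncard = ⌊T⌋₊ + 1 := by
        rw [← Finset.coe_Iic, Set.ncard_coe_finset, Nat.card_Iic]
      rw [h4] at h3
      have h5 : (({m | m ∈ B ∧ m ≤ ⌊T⌋₊}).ncard : ℝ) ≤ ⌊T⌋₊ + 1 := by exact_mod_cast h3
      linarith
    have h6 : (Real.log T) ^ δ ≤ Real.log (T₀ + 1) ^ δ :=
      Real.rpow_le_rpow hlT.le (Real.log_le_log hT0 h1.le) hδ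
    calc (({m | m ∈ B ∧ m ≤ ⌊T⌋₊}).ncard : ℝ) ≤ 2 * T := h2
      _ = 2 * (Real.log T) ^ δ * T * (Real.log T) ^ (-δ) := by
        calc 2 * T = 2 * T * ((Real.log T) ^ (-δ) * (Real.log T) ^ δ) := by rw [hneg, mul_one]
          _ = _ := by ring
      _ ≤ (|C| * 2 ^ δ + 2 * Real.log (T₀ + 1) ^ δ) * T * (Real.log T) ^ (-δ) := by
        have h12 : 0 ≤ |C| * 2 ^ δ := by positivity
        gcongr
        linarith

/-- **No hits for a fixed saving.** -/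
theorem pow_ae_lt {ι : Type} [Countable ι] (B : ι → Set ℕ) (δ : ι → ℝ) (hδ : ∀ i, 0 ≤ δ i)
    (h : ∀ i : ι, ∃ C : ℝ, ∀ T : ℝ, 2 ≤ T → (({m | m ∈ B i ∧ (m : ℝ) ≤ T}).ncard : ℝ) ≤
      C * T * (Real.log T) ^ (-(δ i))) :
    ∀ᵐ α : ℝ, 1 < α → ∀ (i : ι) (c : ℝ), 0 < c → IsAlgebraic ℚ c → ∀ (j : ℤ) (D κ : ℝ), κ + 1 < δ i → ∀ᶠ n : ℕ in atTop,
      ∀ m : ℕ, ClosePow α c j D κ n m → m ∉ B i := by
  have key : ∀ q : ι × AlgInt × ℕ × ℚ, ∀ᵐ α : ℝ, 1 < α → (q.2.2.2 : ℝ) + 1 < δ q.1 → ∀ᶠ n : ℕ in atTop, ∀ m : ℕ,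
      |(m : ℝ) - fac q.2.1.1.1 q.2.1.2 n * α ^ n| ≤ (q.2.2.1 : ℝ) * (n : ℝ) ^ (q.2.2.2 : ℝ) → m ∉ B q.1 := by
    rintro ⟨i, ⟨⟨c, hc, hca⟩, j⟩, d, k⟩
    by_cases hk : (k : ℝ) + 1 < δ i
    · obtain ⟨C, hC⟩ := h i
      filter_upwards [ae_none (B i) C (δ i) hC (fac c j) (fac_pos hc j) (root_tendsto c hc j) d k (Nat.cast_nonneg d)
        (hδ i) hk] with α hα h1 _
      exact hα h1
    · exact Eventually.of_forall fun α _ h2 => absurd h2 hk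
  filter_upwards [ae_all_iff.2 key] with α hα h1 i c hc hca j D κ hκ
  obtain ⟨d, hd⟩ := exists_nat_ge D
  obtain ⟨k, hk1, hk2⟩ := exists_rat_btwn (show κ < δ i - 1 by linarith)
  filter_upwards [hα (i, (⟨c, hc, hca⟩, j), d, k) h1 (by simp only; linarith), eventually_ge_atTop 1] with n h2 h3 m hm
  refine h2 m ?_
  rw [fac_eq c j h3]
  refine (show |(m : ℝ) - c * (n : ℝ) ^ j * α ^ n| ≤ D * (n : ℝ) ^ κ from hm).trans ?_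
  have h4 : (1 : ℝ) ≤ n := by exact_mod_cast h3
  calc D * (n : ℝ) ^ κ ≤ d * (n : ℝ) ^ κ := mul_le_mul_of_nonneg_right hd (by positivity)
    _ ≤ d * (n : ℝ) ^ (k : ℝ) :=
      mul_le_mul_of_nonneg_left (Real.rpow_le_rpow_of_exponent_le h4 hk1.le) (Nat.cast_nonneg d)

end Pool.Agent.Q138.PS
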