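import Pool.Agent.Q138.PS.YM

/-!
Windows around powers of almost all reals: the integers `m` with `m - f(m) ≤ (log m) ^ τ`.
-/

set_option autoImplicit false

namespace Pool.Agent.Q138.PS

open Filter Topology MeasureTheory Set

/-- the `m` with `P` and a loss `m - f(m) ≤ (log m) ^ τ` -/
def Lossy (P : ℕ → Prop) (f : ℕ → ℕ) (τ : ℝ) : Set ℕ := {m | P m ∧ (m : ℝ) ≤ f m + Real.log m ^ τ}

theorem closeCount_mono {B B' : Set ℕ} (h : B ⊆ B') (α c : ℝ) (j : ℤ) (D κ : ℝ) (N : ℕ) :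
    closeCount B α c j D κ N ≤ closeCount B' α c j D κ N := by
  classical
  unfold closeCount
  refine Finset.card_le_card fun n hn => ?_
  rw [Finset.mem_filter] at hn ⊢
  obtain ⟨h1, m, h2, h3⟩ := hn
  exact ⟨h1, m, h h2, h3⟩

theorem log_lt_nat (δ A : ℝ) : ∀ᶠ T : ℕ in atTop, A ≤ T * (Real.log T) ^ (-δ) := by
  have h1 := (isLittleO_log_rpow_rpow_atTop δ (show (0 : ℝ) < 1 by norm_num)).bound
    (show (0 : ℝ) < 1 / (|A| + 1) by positivity)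
  have h2 := tendsto_natCast_atTop_atTop (R := ℝ) |>.eventually h1
  filter_upwards [h2, eventually_ge_atTop 3] with T h3 h4
  have hT : (3 : ℝ) ≤ T := by exact_mod_cast h4
  have hl : 0 < Real.log T := Real.log_pos (by linarith)
  rw [Real.rpow_one, Real.norm_of_nonneg (by positivity), Real.norm_of_nonneg (by positivity)] at h3
  have h5 : (|A| + 1) * (Real.log T) ^ δ ≤ T := by
    rw [div_mul_eq_mul_div, one_mul, le_div_iff₀ (by positivity)] at h3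
    linarith
  have h6 : (Real.log T) ^ δ * (Real.log T) ^ (-δ) = 1 := by
    rw [← Real.rpow_add hl, add_neg_cancel, Real.rpow_zero]
  have h7 : 0 < (Real.log T) ^ (-δ) := Real.rpow_pos_of_pos hl _
  calc A ≤ (|A| + 1) * 1 := by have := le_abs_self A; linarith
    _ = (|A| + 1) * (Real.log T) ^ δ * (Real.log T) ^ (-δ) := by rw [mul_assoc, h6]
    _ ≤ T * (Real.log T) ^ (-δ) := mul_le_mul_of_nonneg_right h5 h7.le

theorem lossy_mono (P : ℕ → Prop) (f : ℕ → ℕ) {τ τ' : ℝ} (h : τ ≤ τ') :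
    Lossy P f τ ⊆ Lossy P f τ' ∪ {m | m < 3} := by
  rintro m ⟨h1, h2⟩
  by_cases h3 : m < 3
  · exact Or.inr h3
  · left
    refine ⟨h1, h2.trans ?_⟩
    have h4 : (3 : ℝ) ≤ m := by exact_mod_cast not_lt.1 h3
    have h5 : 1 ≤ Real.log m := by
      rw [Real.le_log_iff_exp_le (by linarith)]
      linarith [Real.exp_one_lt_d9]
    have := Real.rpow_le_rpow_of_exponent_le h5 h
    linarith

theorem loss_main (P : ℕ → Prop) (f : ℕ → ℕ) (sv : ℝ → ℝ) (t : ℝ) (ht : 0 < t)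
    (hsv : ∀ τ : ℝ, 0 ≤ τ → τ < t → ∀ ε : ℝ, 0 < ε → ∃ τ' : ℚ, τ < τ' ∧ (τ' : ℝ) < t ∧ sv τ - ε < sv τ')
    (hpos : ∀ τ : ℝ, 0 ≤ τ → τ < t → 0 < sv τ)
    (h : ∀ τ : ℝ, 0 ≤ τ → τ < t → ∀ δ : ℝ, 0 ≤ δ → δ < sv τ → ∃ C : ℝ, ∀ᶠ T : ℕ in atTop,
      (({m | m ∈ Lossy P f τ ∧ m ≤ T}).ncard : ℝ) ≤ C * T * (Real.log T) ^ (-δ)) :
    ∀ᵐ α : ℝ, 1 < α → ∀ c : ℝ, 0 < c → IsAlgebraic ℚ c → ∀ (j : ℤ) (D κ τ : ℝ),
      (τ < t → κ + 1 < sv (max τ 0) → ∀ᶠ n : ℕ in atTop, ∀ m : ℕ, ClosePow α c j D κ n m → P m →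
        (f m : ℝ) + Real.log m ^ τ < m) ∧
      (0 ≤ τ → τ < t → ∀ ε : ℝ, 0 < ε → ∀ᶠ N : ℕ in atTop,
        (closeCount (Lossy P f τ) α c j D κ N : ℝ) ≤ (N : ℝ) ^ (max 0 (1 + κ - sv τ) + ε)) := by
  have hc : ∀ i : {q : ℚ × ℚ // 0 ≤ (q.1 : ℝ) ∧ (q.1 : ℝ) < t ∧ 0 ≤ (q.2 : ℝ) ∧ (q.2 : ℝ) < sv q.1}, ∃ C : ℝ, ∀ T : ℝ, 2 ≤ T →
      (({m | m ∈ Lossy P f i.1.1 ∪ {m | m < 3} ∧ (m : ℝ) ≤ T}).ncard : ℝ) ≤ C * T * (Real.log T) ^ (-(i.1.2 : ℝ)) := by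
    rintro ⟨q, h1, h2, h3, h4⟩
    obtain ⟨C, hC⟩ := h q.1 h1 h2 q.2 h3 h4
    refine log_large _ _ (C + 1) h3 ?_
    filter_upwards [hC, log_lt_nat q.2 3] with T h5 h6
    have h7 : {m | m ∈ Lossy P f q.1 ∪ {m | m < 3} ∧ m ≤ T} ⊆ {m | m ∈ Lossy P f q.1 ∧ m ≤ T} ∪ (Finset.range 3 : Set ℕ) := by
      rintro m ⟨h8 | h8, h9⟩
      · exact Or.inl ⟨h8, h9⟩
      · exact Or.inr (by rw [Finset.coe_range]; exact h8)
    have h8 := Set.ncard_le_ncard h7 (((Set.finite_le_nat T).subset fun m hm => hm.2).union (Finset.finite_toSet _))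
    have h9 := Set.ncard_union_le {m | m ∈ Lossy P f q.1 ∧ m ≤ T} (Finset.range 3 : Set ℕ)
    rw [Set.ncard_coe_finset, Finset.card_range] at h9
    have h10 : (({m | m ∈ Lossy P f q.1 ∪ {m | m < 3} ∧ m ≤ T}).ncard : ℝ) ≤ (({m | m ∈ Lossy P f q.1 ∧ m ≤ T}).ncard : ℝ) + 3 := by
      exact_mod_cast h8.trans h9
    calc _ ≤ (({m | m ∈ Lossy P f q.1 ∧ m ≤ T}).ncard : ℝ) + 3 := h10
      _ ≤ C * T * (Real.log T) ^ (-(q.2 : ℝ)) + T * (Real.log T) ^ (-(q.2 : ℝ)) := add_le_add h5 h6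
      _ = (C + 1) * T * (Real.log T) ^ (-(q.2 : ℝ)) := by ring
  have h1 := pow_ae_lt (fun i : {q : ℚ × ℚ // 0 ≤ (q.1 : ℝ) ∧ (q.1 : ℝ) < t ∧ 0 ≤ (q.2 : ℝ) ∧ (q.2 : ℝ) < sv q.1} =>
    Lossy P f i.1.1 ∪ {m | m < 3}) (fun i => (i.1.2 : ℝ)) (fun i => i.2.2.2.1) hc
  have h2 := pow_ae_few (fun i : {q : ℚ × ℚ // 0 ≤ (q.1 : ℝ) ∧ (q.1 : ℝ) < t ∧ 0 ≤ (q.2 : ℝ) ∧ (q.2 : ℝ) < sv q.1} =>
    Lossy P f i.1.1 ∪ {m | m < 3}) (fun i => (i.1.2 : ℝ)) (fun i => i.2.2.2.1) hc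
  filter_upwards [h1, h2] with α g1 g2 hα c hc0 hca j D κ τ
  refine ⟨fun hτ hκ => ?_, fun hτ0 hτ ε hε => ?_⟩
  · have hm0 : max τ 0 < t := max_lt hτ ht
    obtain ⟨τ', e1, e2, e3⟩ := hsv (max τ 0) (le_max_right _ _) hm0 (sv (max τ 0) - (κ + 1)) (by linarith)
    have e0 : 0 ≤ (τ' : ℝ) := (le_max_right τ 0).trans e1.le
    obtain ⟨δ', e4, e5⟩ := exists_rat_btwn (show max (κ + 1) 0 < sv τ' from max_lt (by linarith) (hpos _ e0 e2))
    have e6 : 0 ≤ (δ' : ℝ) := (le_max_right _ _).trans e4.le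
    have e7 : κ + 1 < (δ' : ℝ) := (le_max_left _ _).trans_lt e4
    filter_upwards [g1 hα ⟨(τ', δ'), e0, e2, e6, e5⟩ c hc0 hca j D κ e7] with n hn m hm hP
    have e8 := hn m hm
    by_contra hcon
    apply e8
    have e9 : m ∈ Lossy P f τ := ⟨hP, not_lt.1 hcon⟩
    exact lossy_mono P f ((le_max_left τ 0).trans e1.le) e9
  · obtain ⟨τ', e1, e2, e3⟩ := hsv τ hτ0 hτ (ε / 4) (by linarith)
    have e0 : 0 ≤ (τ' : ℝ) := hτ0.trans e1.le
    obtain ⟨δ', e4, e5⟩ := exists_rat_btwn (show max (sv τ' - ε / 4) 0 < sv τ' from max_lt (by linarith) (hpos _ e0 e2))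
    have e6 : 0 ≤ (δ' : ℝ) := (le_max_right _ _).trans e4.le
    have e7 : sv τ' - ε / 4 < (δ' : ℝ) := (le_max_left _ _).trans_lt e4
    filter_upwards [g2 hα ⟨(τ', δ'), e0, e2, e6, e5⟩ c hc0 hca j D κ (ε / 2) (by linarith), eventually_ge_atTop 1] with N hN hN1
    have hN1' : (1 : ℝ) ≤ N := by exact_mod_cast hN1
    refine (Nat.cast_le.2 (closeCount_mono (lossy_mono P f e1.le) α c j D κ N)).trans (hN.trans ?_)
    refine Real.rpow_le_rpow_of_exponent_le hN1' ?_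
    have e8 : max 0 (1 + κ - (δ' : ℝ)) ≤ max 0 (1 + κ - sv τ) + ε / 2 := by
      refine max_le (by have := le_max_left 0 (1 + κ - sv τ); linarith) ?_
      have := le_max_right 0 (1 + κ - sv τ)
      linarith
    linarith

/-- the sieve bound with a power of `log K / log X` -/
theorem loss_count (P : ℕ → Prop) (f : ℕ → ℕ) (w c₀ C₀ : ℝ) (hw : 0 < w) (hc₀ : 0 < c₀)
    (hs : ∀ X K : ℕ, 2 ≤ X → 2 ≤ K → (K : ℝ) * Real.log K ≤ c₀ * Real.log X ^ 2 →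
      (({m : ℕ | P m ∧ m ≤ f m + K ∧ m ≤ X}).ncard : ℝ) ≤ C₀ * (X * (Real.log K / Real.log X) ^ w))
    (τ : ℝ) (hτ : 0 ≤ τ) (hτ2 : τ < 2) (δ : ℝ) (hδw : δ < w) :
    ∃ C : ℝ, ∀ᶠ T : ℕ in atTop, (({m | m ∈ Lossy P f τ ∧ m ≤ T}).ncard : ℝ) ≤ C * T * (Real.log T) ^ (-δ) := by
  set s : ℝ := (τ + 2) / 2 with hsdef
  have hs0 : τ < s := by rw [hsdef]; linarith
  have hs2 : s < 2 := by rw [hsdef]; linarith
  have hs1 : 0 < s := by linarith
  have hL : Tendsto (fun T : ℕ => Real.log T) atTop atTop := Real.tendsto_log_atTop.comp tendsto_natCast_atTop_atTop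
  -- `L ^ τ + 3 ≤ L ^ s`
  have e1 : ∀ᶠ L : ℝ in atTop, L ^ τ + 3 ≤ L ^ s := by
    filter_upwards [(tendsto_rpow_atTop (show 0 < s - τ by linarith)).eventually_ge_atTop 4, eventually_ge_atTop 1] with L h1 h2
    have h3 : 1 ≤ L ^ τ := Real.one_le_rpow h2 hτ
    have h4 : L ^ s = L ^ τ * L ^ (s - τ) := by
      rw [← Real.rpow_add (by linarith)]
      congr 1
      ring
    rw [h4]
    nlinarith
  have e2 : ∀ᶠ L : ℝ in atTop, L ^ s * (s * Real.log L) ≤ c₀ * L ^ 2 := by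
    have h1 := (isLittleO_log_rpow_atTop (show 0 < 2 - s by linarith)).bound (show 0 < c₀ / s by positivity)
    filter_upwards [h1, eventually_ge_atTop 1] with L h2 h3
    have hL0 : 0 < L := by linarith
    rw [Real.norm_of_nonneg (Real.log_nonneg h3), Real.norm_of_nonneg (by positivity)] at h2
    have h4 : L ^ s * L ^ (2 - s) = L ^ 2 := by
      rw [← Real.rpow_add hL0, show s + (2 - s) = (2 : ℕ) by push_cast; ring, Real.rpow_natCast]
    calc L ^ s * (s * Real.log L) ≤ L ^ s * (s * (c₀ / s * L ^ (2 - s))) := by gcongr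
      _ = c₀ * (L ^ s * L ^ (2 - s)) := by field_simp
      _ = c₀ * L ^ 2 := by rw [h4]
  have e3 : ∀ᶠ L : ℝ in atTop, (s * Real.log L / L) ^ w ≤ L ^ (-δ) := by
    have h1 := (isLittleO_log_rpow_atTop (show 0 < (w - δ) / w by
      have : 0 < w - δ := by linarith
      positivity)).bound (show 0 < 1 / s by positivity)
    filter_upwards [h1, eventually_ge_atTop 1] with L h2 h3
    have hL0 : 0 < L := by linarith
    have hl := Real.log_nonneg h3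
    rw [Real.norm_of_nonneg hl, Real.norm_of_nonneg (by positivity)] at h2
    have h4 : s * Real.log L ≤ L ^ ((w - δ) / w) := by
      calc s * Real.log L ≤ s * (1 / s * L ^ ((w - δ) / w)) := by gcongr
        _ = L ^ ((w - δ) / w) := by field_simp
    have h5 : s * Real.log L / L ≤ L ^ (-δ / w) := by
      rw [div_le_iff₀ hL0]
      refine h4.trans (le_of_eq ?_)
      nth_rewrite 3 [← Real.rpow_one L]
      rw [← Real.rpow_add hL0]
      congr 1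
      field_simp
      ring
    calc (s * Real.log L / L) ^ w ≤ (L ^ (-δ / w)) ^ w := Real.rpow_le_rpow (by positivity) h5 hw.le
      _ = L ^ (-δ) := by
        rw [← Real.rpow_mul hL0.le]
        congr 1
        field_simp
  refine ⟨|C₀|, ?_⟩
  filter_upwards [hL.eventually e1, hL.eventually e2, hL.eventually e3, eventually_ge_atTop 3] with T h1 h2 h3 h4
  have hT : (3 : ℝ) ≤ T := by exact_mod_cast h4
  set L := Real.log T with hLdef
  have hL1 : 1 ≤ L := by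
    rw [hLdef, Real.le_log_iff_exp_le (by linarith)]
    linarith [Real.exp_one_lt_d9]
  have hL0 : 0 < L := by linarith
  obtain ⟨K, hK⟩ : ∃ K : ℕ, K = ⌈L ^ τ⌉₊ + 2 := ⟨_, rfl⟩
  have hK2 : 2 ≤ K := by omega
  have hKL : (K : ℝ) ≤ L ^ s := by
    have h5 := Nat.ceil_lt_add_one (show 0 ≤ L ^ τ by positivity)
    rw [hK]
    push_cast
    linarith
  have hK0 : (2 : ℝ) ≤ K := by exact_mod_cast hK2
  have hlK : Real.log K ≤ s * Real.log L := by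
    rw [← Real.log_rpow hL0]
    exact Real.log_le_log (by linarith) hKL
  have hlK0 : 0 ≤ Real.log K := Real.log_nonneg (by linarith)
  have h5 := hs T K (by omega) hK2 (by
    calc (K : ℝ) * Real.log K ≤ L ^ s * (s * Real.log L) := mul_le_mul hKL hlK hlK0 (by positivity)
      _ ≤ c₀ * L ^ 2 := h2)
  have hsub : {m | m ∈ Lossy P f τ ∧ m ≤ T} ⊆ {m : ℕ | P m ∧ m ≤ f m + K ∧ m ≤ T} := by
    rintro m ⟨⟨h6, h7⟩, h8⟩
    refine ⟨h6, ?_, h8⟩
    have h9 : Real.log m ^ τ ≤ L ^ τ := by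
      rcases Nat.eq_zero_or_pos m with h0 | h0
      · rw [h0, Nat.cast_zero, Real.log_zero]
        rcases hτ.eq_or_lt with h10 | h10
        · rw [← h10, Real.rpow_zero, Real.rpow_zero]
        · rw [Real.zero_rpow h10.ne']
          positivity
      · refine Real.rpow_le_rpow (Real.log_nonneg (by exact_mod_cast h0)) (Real.log_le_log (by exact_mod_cast h0) (by exact_mod_cast h8)) hτ
    have h10 : (m : ℝ) ≤ f m + K := by
      have := Nat.le_ceil (L ^ τ)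
      rw [hK]
      push_cast
      linarith
    exact_mod_cast h10
  have h6 : (({m | m ∈ Lossy P f τ ∧ m ≤ T}).ncard : ℝ) ≤ (({m : ℕ | P m ∧ m ≤ f m + K ∧ m ≤ T}).ncard : ℝ) := by
    exact_mod_cast Set.ncard_le_ncard hsub ((Set.finite_le_nat T).subset fun m hm => hm.2.2)
  refine h6.trans (h5.trans ?_)
  have h7 : (Real.log K / L) ^ w ≤ L ^ (-δ) := by
    refine le_trans (Real.rpow_le_rpow (by positivity) ?_ hw.le) h3
    gcongr
  have h8 : 0 ≤ (Real.log K / L) ^ w := by positivity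
  calc C₀ * (T * (Real.log K / L) ^ w) ≤ |C₀| * (T * (Real.log K / L) ^ w) :=
        mul_le_mul_of_nonneg_right (le_abs_self _) (by positivity)
    _ ≤ |C₀| * (T * L ^ (-δ)) := by gcongr
    _ = |C₀| * T * L ^ (-δ) := by ring

/-- the sieve bound that is linear in `K` -/
theorem loss_count_lin (P : ℕ → Prop) (f : ℕ → ℕ) (w : ℕ) (C₀ : ℝ)
    (hs : ∀ X K : ℕ, 2 ≤ X → (({m : ℕ | P m ∧ m ≤ f m + K ∧ m ≤ X}).ncard : ℝ) ≤ C₀ * (K * (X / Real.log X ^ w)))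
    (τ : ℝ) (hτ : 0 ≤ τ) (δ : ℝ) (hδw : δ ≤ w - τ) :
    ∃ C : ℝ, ∀ᶠ T : ℕ in atTop, (({m | m ∈ Lossy P f τ ∧ m ≤ T}).ncard : ℝ) ≤ C * T * (Real.log T) ^ (-δ) := by
  refine ⟨4 * |C₀|, ?_⟩
  filter_upwards [eventually_ge_atTop 3] with T h4
  have hT : (3 : ℝ) ≤ T := by exact_mod_cast h4
  set L := Real.log T with hLdef
  have hL1 : 1 ≤ L := by
    rw [hLdef, Real.le_log_iff_exp_le (by linarith)]
    linarith [Real.exp_one_lt_d9]
  have hL0 : 0 < L := by linarith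
  have hLτ : 1 ≤ L ^ τ := Real.one_le_rpow hL1 hτ
  obtain ⟨K, hK⟩ : ∃ K : ℕ, K = ⌈L ^ τ⌉₊ + 2 := ⟨_, rfl⟩
  have hKL : (K : ℝ) ≤ 4 * L ^ τ := by
    have h5 := Nat.ceil_lt_add_one (show 0 ≤ L ^ τ by positivity)
    rw [hK]
    push_cast
    linarith
  have h5 := hs T K (by omega)
  have hsub : {m | m ∈ Lossy P f τ ∧ m ≤ T} ⊆ {m : ℕ | P m ∧ m ≤ f m + K ∧ m ≤ T} := by
    rintro m ⟨⟨h6, h7⟩, h8⟩
    refine ⟨h6, ?_, h8⟩
    have h9 : Real.log m ^ τ ≤ L ^ τ := by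
      rcases Nat.eq_zero_or_pos m with h0 | h0
      · rw [h0, Nat.cast_zero, Real.log_zero]
        rcases hτ.eq_or_lt with h10 | h10
        · rw [← h10, Real.rpow_zero, Real.rpow_zero]
        · rw [Real.zero_rpow h10.ne']
          positivity
      · refine Real.rpow_le_rpow (Real.log_nonneg (by exact_mod_cast h0)) (Real.log_le_log (by exact_mod_cast h0) (by exact_mod_cast h8)) hτ
    have h10 : (m : ℝ) ≤ f m + K := by
      have := Nat.le_ceil (L ^ τ)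
      rw [hK]
      push_cast
      linarith
    exact_mod_cast h10
  have h6 : (({m | m ∈ Lossy P f τ ∧ m ≤ T}).ncard : ℝ) ≤ (({m : ℕ | P m ∧ m ≤ f m + K ∧ m ≤ T}).ncard : ℝ) := by
    exact_mod_cast Set.ncard_le_ncard hsub ((Set.finite_le_nat T).subset fun m hm => hm.2.2)
  refine h6.trans (h5.trans ?_)
  have h7 : L ^ τ / L ^ w ≤ L ^ (-δ) := by
    rw [← Real.rpow_natCast, ← Real.rpow_sub hL0]
    exact Real.rpow_le_rpow_of_exponent_le hL1 (by linarith)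
  calc C₀ * (K * (T / L ^ w)) ≤ |C₀| * (K * (T / L ^ w)) := mul_le_mul_of_nonneg_right (le_abs_self _) (by positivity)
    _ ≤ |C₀| * (4 * L ^ τ * (T / L ^ w)) := by gcongr
    _ = 4 * |C₀| * T * (L ^ τ / L ^ w) := by ring
    _ ≤ 4 * |C₀| * T * L ^ (-δ) := by gcongr

end Pool.Agent.Q138.PS
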