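import Mathlib

/-! Vectors of integers near dilated sequences: from the bound `X ^ d / log ^ U X` for exceptional vectors in boxes to all vectors
near `c_j lambda_n ^ d_j`, for almost every `c`. -/

set_option autoImplicit false

namespace Pool.Agent.Q138.PS

open MeasureTheory Filter Topology Finset

/-- the box of the `c` which are near `k` -/
lemma box_vol {s : ℕ} (w : Fin s → ℝ) (hw : ∀ j, 0 < w j) (W : ℝ) (hW : 0 ≤ W) (k : Fin s → ℤ) :
    volume {c : Fin s → ℝ | ∀ j, |(k j : ℝ) - c j * w j| ≤ W} ≤ ENNReal.ofReal ((2 * W) ^ s / ∏ j, w j) := by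
  have h1 : {c : Fin s → ℝ | ∀ j, |(k j : ℝ) - c j * w j| ≤ W} ⊆
      Set.Icc (fun j => ((k j : ℝ) - W) / w j) (fun j => ((k j : ℝ) + W) / w j) := by
    intro c hc
    rw [Set.mem_Icc, Pi.le_def, Pi.le_def]
    refine ⟨fun j => ?_, fun j => ?_⟩
    · have := abs_le.1 (hc j)
      rw [div_le_iff₀ (hw j)]
      linarith
    · have := abs_le.1 (hc j)
      rw [le_div_iff₀ (hw j)]
      linarith
  refine (measure_mono h1).trans (le_of_eq ?_)
  rw [Real.volume_Icc_pi, ← ENNReal.ofReal_prod_of_nonneg]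
  · congr 1
    have e : ∀ j, ((k j : ℝ) + W) / w j - ((k j : ℝ) - W) / w j = (2 * W) / w j := fun j => by ring
    simp only [e]
    rw [prod_div_distrib, prod_const, card_univ, Fintype.card_fin]
  · intro j _
    rw [← sub_div]
    apply div_nonneg _ (hw j).le
    linarith

/-- one scale -/
lemma scale_vol {s : ℕ} (d : Fin s → ℕ) (hd : ∀ j, 1 ≤ d j) (P : (Fin s → ℤ) → Prop) (Bad : Finset (Fin s → ℤ)) (X R D K V : ℕ) (l : ℝ)
    (hl1 : 1 ≤ l) (hX : X = ⌈l⌉₊) (hL : 1 ≤ Real.log l) (hDl : (D : ℝ) * Real.log l ^ K ≤ l)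
    (hB : (#Bad : ℝ) ≤ (∏ j, (X : ℝ) ^ d j) / Real.log X ^ (K * s + V))
    (hk : ∀ k : Fin s → ℤ, (∀ j, |k j| ≤ (((R + 1) * X ^ d j : ℕ) : ℤ)) → k ∉ Bad → P k) :
    volume {c : Fin s → ℝ | (∀ j, |c j| ≤ R) ∧ ∃ k : Fin s → ℤ, (∀ j, |(k j : ℝ) - c j * l ^ d j| ≤ D * Real.log l ^ K) ∧ ¬ P k} ≤
      ENNReal.ofReal (((2 : ℝ) ^ (∑ j, d j) * (2 * D) ^ s) / Real.log l ^ V) := by
  have hlX : l ≤ X := by rw [hX]; exact Nat.le_ceil l
  have hX2 : (X : ℝ) ≤ 2 * l := by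
    rw [hX]
    have := Nat.ceil_lt_add_one (a := l) (by linarith)
    linarith
  have hl0 : 0 < l := by linarith
  have hX0 : (0 : ℝ) < X := by linarith
  have hw : ∀ j, 0 < l ^ d j := fun j => pow_pos hl0 _
  have hW : 0 ≤ (D : ℝ) * Real.log l ^ K := by positivity
  have hsub : {c : Fin s → ℝ | (∀ j, |c j| ≤ R) ∧ ∃ k : Fin s → ℤ, (∀ j, |(k j : ℝ) - c j * l ^ d j| ≤ D * Real.log l ^ K) ∧ ¬ P k} ⊆
      ⋃ k ∈ Bad, {c : Fin s → ℝ | ∀ j, |(k j : ℝ) - c j * l ^ d j| ≤ D * Real.log l ^ K} := by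
    rintro c ⟨hc, k, hk1, hk2⟩
    rw [Set.mem_iUnion₂]
    refine ⟨k, ?_, hk1⟩
    by_contra hkB
    refine hk2 (hk k (fun j => ?_) hkB)
    have h1 : |(k j : ℝ)| ≤ (R + 1) * (X : ℝ) ^ d j := by
      have h2 : |(k j : ℝ)| ≤ |(k j : ℝ) - c j * l ^ d j| + |c j * l ^ d j| := by
        calc |(k j : ℝ)| = |((k j : ℝ) - c j * l ^ d j) + c j * l ^ d j| := by ring_nf
          _ ≤ _ := abs_add_le _ _
      have h3 : |c j * l ^ d j| ≤ R * (X : ℝ) ^ d j := by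
        rw [abs_mul, abs_of_pos (hw j)]
        exact mul_le_mul (hc j) (pow_le_pow_left₀ hl0.le hlX _) (hw j).le (Nat.cast_nonneg _)
      have h4 : l ≤ (X : ℝ) ^ d j := by
        calc l ≤ X := hlX
          _ = (X : ℝ) ^ 1 := (pow_one _).symm
          _ ≤ _ := pow_le_pow_right₀ (by linarith) (hd j)
      have h5 := hk1 j
      linarith
    have h2 : ((|k j| : ℤ) : ℝ) ≤ ((((R + 1) * X ^ d j : ℕ) : ℤ) : ℝ) := by
      push_cast
      exact h1
    exact_mod_cast h2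
  refine (measure_mono hsub).trans ((measure_biUnion_finset_le _ _).trans ?_)
  refine (sum_le_sum fun k _ => box_vol (fun j => l ^ d j) hw _ hW k).trans ?_
  rw [sum_const, nsmul_eq_mul, ← ENNReal.ofReal_natCast, ← ENNReal.ofReal_mul (Nat.cast_nonneg _)]
  apply ENNReal.ofReal_le_ofReal
  have hLX : Real.log l ≤ Real.log X := Real.log_le_log hl0 hlX
  have hL0 : 0 < Real.log l := by linarith
  have hprod : ∏ j, (X : ℝ) ^ d j ≤ 2 ^ (∑ j, d j) * ∏ j, l ^ d j := by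
    rw [prod_pow_eq_pow_sum, prod_pow_eq_pow_sum, ← mul_pow]
    exact pow_le_pow_left₀ hX0.le hX2 _
  have hPl : 0 < ∏ j, l ^ d j := prod_pos fun j _ => hw j
  have h1 : (#Bad : ℝ) ≤ (2 ^ (∑ j, d j) * ∏ j, l ^ d j) / Real.log l ^ (K * s + V) := by
    refine hB.trans ?_
    apply div_le_div₀ (by positivity) hprod (by positivity)
    exact pow_le_pow_left₀ hL0.le hLX _
  have h2 : 0 ≤ (2 * ((D : ℝ) * Real.log l ^ K)) ^ s / ∏ j, l ^ d j := by positivity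
  refine (mul_le_mul_of_nonneg_right h1 h2).trans (le_of_eq ?_)
  rw [mul_comm (2 : ℝ) ((D : ℝ) * Real.log l ^ K), mul_pow, mul_pow, mul_pow, ← pow_mul, pow_add]
  field_simp

/-- **From boxes to sequences.** -/
theorem vec_ae {s : ℕ} (d : Fin s → ℕ) (hd : ∀ j, 1 ≤ d j) (l : ℕ → ℝ) (δ : ℝ) (hδ : 0 < δ)
    (hl : ∀ᶠ n : ℕ in atTop, Real.exp ((n : ℝ) ^ δ) ≤ l n) (P : ℕ → (Fin s → ℤ) → Prop)
    (h : ∀ B U : ℕ, ∃ X0 : ℕ, ∀ X : ℕ, X0 ≤ X → ∃ Bad : Finset (Fin s → ℤ),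
      (#Bad : ℝ) ≤ (∏ j, (X : ℝ) ^ d j) / Real.log X ^ U ∧
      ∀ k : Fin s → ℤ, (∀ j, |k j| ≤ ((B * X ^ d j : ℕ) : ℤ)) → k ∉ Bad → P X k) :
    ∀ᵐ c : Fin s → ℝ, ∀ D κ : ℝ, ∀ᶠ n : ℕ in atTop, ∀ k : Fin s → ℤ,
      (∀ j, |(k j : ℝ) - c j * l n ^ d j| ≤ D * Real.log (l n) ^ κ) → P ⌈l n⌉₊ k := by
  have hnδ : Tendsto (fun n : ℕ => (n : ℝ) ^ δ) atTop atTop := (tendsto_rpow_atTop hδ).comp tendsto_natCast_atTop_atTop
  have hl0 : ∀ᶠ n : ℕ in atTop, 1 ≤ l n ∧ (n : ℝ) ^ δ ≤ Real.log (l n) := by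
    filter_upwards [hl] with n hn
    have h1 : (0 : ℝ) ≤ (n : ℝ) ^ δ := by positivity
    have h2 : 1 ≤ l n := (Real.one_le_exp h1).trans hn
    exact ⟨h2, (Real.le_log_iff_exp_le (by linarith)).2 hn⟩
  have hL : Tendsto (fun n : ℕ => Real.log (l n)) atTop atTop := tendsto_atTop_mono' _ (hl0.mono fun n hn => hn.2) hnδ
  have hlt : Tendsto l atTop atTop := by
    refine tendsto_atTop_mono' _ hl ?_
    exact Real.tendsto_exp_atTop.comp hnδ
  -- natural parameters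
  have key : ∀ D K R : ℕ, ∀ᵐ c : Fin s → ℝ, ∀ᶠ n : ℕ in atTop, (∀ j, |c j| ≤ R) → ∀ k : Fin s → ℤ,
      (∀ j, |(k j : ℝ) - c j * l n ^ d j| ≤ D * Real.log (l n) ^ K) → P ⌈l n⌉₊ k := by
    intro D K R
    obtain ⟨V, hV⟩ := exists_nat_ge (2 / δ)
    have hV2 : 2 ≤ δ * V := by
      rw [div_le_iff₀ hδ] at hV
      linarith
    obtain ⟨X0, hX0⟩ := h (R + 1) (K * s + V)
    obtain ⟨Cst, hC⟩ : ∃ Cst : ℝ, Cst = (2 : ℝ) ^ (∑ j, d j) * (2 * D) ^ s := ⟨_, rfl⟩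
    have hC0 : 0 ≤ Cst := by rw [hC]; positivity
    have hDl : ∀ᶠ n : ℕ in atTop, (D : ℝ) * Real.log (l n) ^ K ≤ l n := by
      have h1 : Tendsto (fun x : ℝ => Real.log x ^ K / x) atTop (𝓝 0) := by
        have := Real.isLittleO_pow_log_id_atTop (n := K)
        exact this.tendsto_div_nhds_zero
      have h2 := (h1.comp hlt).eventually (gt_mem_nhds (show (0 : ℝ) < 1 / (D + 1) by positivity))
      filter_upwards [h2, hl0] with n hn hn1
      have h3 : 0 < l n := by linarith [hn1.1]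
      simp only [Function.comp] at hn
      rw [div_lt_div_iff₀ h3 (by positivity)] at hn
      have h4 : 0 ≤ Real.log (l n) ^ K := by
        have : 0 ≤ Real.log (l n) := Real.log_nonneg hn1.1
        positivity
      nlinarith
    have hXt : ∀ᶠ n : ℕ in atTop, X0 ≤ ⌈l n⌉₊ := by
      filter_upwards [hlt.eventually_ge_atTop (X0 : ℝ)] with n hn
      exact_mod_cast hn.trans (Nat.le_ceil _)
    have hvol : ∀ᶠ n : ℕ in atTop, volume {c : Fin s → ℝ | (∀ j, |c j| ≤ R) ∧ ∃ k : Fin s → ℤ,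
        (∀ j, |(k j : ℝ) - c j * l n ^ d j| ≤ D * Real.log (l n) ^ K) ∧ ¬ P ⌈l n⌉₊ k} ≤ ENNReal.ofReal (Cst / (n : ℝ) ^ 2) := by
      filter_upwards [hDl, hXt, hl0, hL.eventually_ge_atTop 1, eventually_ge_atTop 1] with n h1 h2 h3 h4 h5
      obtain ⟨Bad, hB1, hB2⟩ := hX0 _ h2
      refine (scale_vol d hd (P ⌈l n⌉₊) Bad ⌈l n⌉₊ R D K V (l n) h3.1 rfl h4 h1 hB1 hB2).trans ?_
      apply ENNReal.ofReal_le_ofReal
      rw [← hC]
      have hn1 : (1 : ℝ) ≤ n := by exact_mod_cast h5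
      have h6 : (n : ℝ) ^ 2 ≤ Real.log (l n) ^ V := by
        calc (n : ℝ) ^ 2 = (n : ℝ) ^ (2 : ℝ) := by norm_cast
          _ ≤ (n : ℝ) ^ (δ * V) := Real.rpow_le_rpow_of_exponent_le hn1 hV2
          _ = ((n : ℝ) ^ δ) ^ V := by rw [Real.rpow_mul (by linarith), Real.rpow_natCast]
          _ ≤ _ := pow_le_pow_left₀ (by positivity) h3.2 _
      exact div_le_div_of_nonneg_left hC0 (by positivity) h6
    -- Borel-Cantelli
    obtain ⟨n0, hn0⟩ := eventually_atTop.1 hvol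
    have hsum : ∑' n : ℕ, volume {c : Fin s → ℝ | n0 ≤ n ∧ (∀ j, |c j| ≤ R) ∧ ∃ k : Fin s → ℤ,
        (∀ j, |(k j : ℝ) - c j * l n ^ d j| ≤ D * Real.log (l n) ^ K) ∧ ¬ P ⌈l n⌉₊ k} ≠ ⊤ := by
      have h1 : Summable fun n : ℕ => Cst / (n : ℝ) ^ 2 := by
        have := (Real.summable_one_div_nat_pow (p := 2)).2 (by norm_num)
        refine (this.mul_left Cst).congr fun n => ?_
        ring
      have h2 : ∑' n : ℕ, ENNReal.ofReal (Cst / (n : ℝ) ^ 2) ≠ ⊤ := by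
        rw [← ENNReal.ofReal_tsum_of_nonneg (fun n => by positivity) h1]
        exact ENNReal.ofReal_ne_top
      refine ne_top_of_le_ne_top h2 (ENNReal.tsum_le_tsum fun n => ?_)
      by_cases hn : n0 ≤ n
      · refine le_trans (measure_mono ?_) (hn0 n hn)
        rintro c ⟨-, hc⟩
        exact hc
      · have : {c : Fin s → ℝ | n0 ≤ n ∧ (∀ j, |c j| ≤ R) ∧ ∃ k : Fin s → ℤ,
            (∀ j, |(k j : ℝ) - c j * l n ^ d j| ≤ D * Real.log (l n) ^ K) ∧ ¬ P ⌈l n⌉₊ k} = ∅ := by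
          ext c
          simp [hn]
        rw [this, measure_empty]
        exact zero_le
    have hbc := measure_setOfPred_frequently_eq_zero hsum
    rw [ae_iff]
    refine measure_mono_null ?_ hbc
    intro c hc
    rw [Set.mem_ofPred_eq, not_eventually] at hc
    rw [Set.mem_ofPred_eq]
    refine (hc.and_eventually (eventually_ge_atTop n0)).mono fun n hn => ?_
    obtain ⟨h1, h2⟩ := hn
    push Not at h1
    obtain ⟨h3, k, h4, h5⟩ := h1
    exact ⟨h2, h3, k, h4, h5⟩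
  have key2 : ∀ᵐ c : Fin s → ℝ, ∀ D K R : ℕ, ∀ᶠ n : ℕ in atTop, (∀ j, |c j| ≤ R) → ∀ k : Fin s → ℤ,
      (∀ j, |(k j : ℝ) - c j * l n ^ d j| ≤ D * Real.log (l n) ^ K) → P ⌈l n⌉₊ k := by
    rw [ae_all_iff]
    intro D
    rw [ae_all_iff]
    intro K
    rw [ae_all_iff]
    intro R
    exact key D K R
  filter_upwards [key2] with c hc D κ
  obtain ⟨D', hD'⟩ := exists_nat_ge |D|
  obtain ⟨K', hK'⟩ := exists_nat_ge κ
  obtain ⟨R, hR⟩ := exists_nat_ge (∑ j, |c j|)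
  filter_upwards [hc D' K' R, hL.eventually_ge_atTop 1] with n hn hn1 k hk
  refine hn (fun j => ?_) k fun j => ?_
  · exact (single_le_sum (f := fun j => |c j|) (fun _ _ => abs_nonneg _) (mem_univ j)).trans hR
  · refine (hk j).trans ?_
    calc D * Real.log (l n) ^ κ ≤ |D| * Real.log (l n) ^ κ :=
          mul_le_mul_of_nonneg_right (le_abs_self D) (Real.rpow_nonneg (by linarith) _)
      _ ≤ D' * Real.log (l n) ^ (K' : ℝ) :=
          mul_le_mul hD' (Real.rpow_le_rpow_of_exponent_le hn1 hK') (Real.rpow_nonneg (by linarith) _) (Nat.cast_nonneg _)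
      _ = _ := by rw [Real.rpow_natCast]

end Pool.Agent.Q138.PS
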