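import Pool.Agent.TH669.AD.Fin

/-!
The method of Rankin for the smooth part of an integer: all but at most `C x s ^ 2 (1 + log (x s)) e ^ (-Y)` of the `n ≤ x` are good
degrees with the loss `U = exp (124 Y ^ 2)`.
-/

set_option autoImplicit false

namespace Pool.Agent.Q138.PS

open Finset Real
open Pool.Agent.TH669.AD

/-- the completely multiplicative function `n ^ (σ - 1)` -/
noncomputable def rk (σ : ℝ) : ℕ →* ℝ where
  toFun n := (n : ℝ) ^ (σ - 1)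
  map_one' := by simp
  map_mul' a b := by
    push_cast
    exact Real.mul_rpow (Nat.cast_nonneg a) (Nat.cast_nonneg b)

theorem rk_apply (σ : ℝ) (n : ℕ) : rk σ n = (n : ℝ) ^ (σ - 1) := rfl

theorem sum_inv_primes (y : ℕ) : ∑ p ∈ (y + 1).primesBelow, ((p : ℝ))⁻¹ ≤ 1 + log y := by
  have h := harmonic_le_one_add_log y
  rw [harmonic_eq_sum_Icc] at h
  push_cast at h
  refine le_trans (sum_le_sum_of_subset_of_nonneg ?_ ?_) h
  · intro p hp
    rw [Nat.mem_primesBelow] at hp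
    rw [mem_Icc]
    exact ⟨hp.2.one_lt.le, by omega⟩
  · intro p _ _
    positivity

theorem rk_factor {σ L : ℝ} (hL : 1 ≤ L) (hσ : σ = 1 / (2 * L)) {p : ℕ} (hp : 2 ≤ p) (hpL : log p ≤ L) :
    (1 - rk σ p)⁻¹ ≤ exp (10 * ((p : ℝ))⁻¹) ∧ 0 ≤ (1 - rk σ p)⁻¹ := by
  have hp0 : (0 : ℝ) < p := by
    have : 0 < p := by omega
    exact_mod_cast this
  have hp2 : (2 : ℝ) ≤ p := by exact_mod_cast hp
  have h1 : rk σ p = exp (σ * log p) * (p : ℝ)⁻¹ := by
    rw [rk_apply, Real.rpow_sub_one hp0.ne', Real.rpow_def_of_pos hp0, div_eq_mul_inv, mul_comm (log (p : ℝ)) σ]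
  have h2 : σ * log p ≤ 1 / 2 := by
    rw [hσ, one_div, inv_mul_eq_div, div_le_iff₀ (by linarith)]
    linarith
  have h3 : exp (1 / 2 : ℝ) ≤ 1.65 := by
    have h4 : exp (1 / 2 : ℝ) ^ 2 = exp 1 := by
      rw [← Real.exp_nat_mul]
      norm_num
    have h5 := Real.exp_one_lt_d9
    have h6 := Real.exp_pos (1 / 2 : ℝ)
    nlinarith
  have h4 : exp (σ * log p) ≤ 1.65 := (Real.exp_le_exp.2 h2).trans h3
  set u : ℝ := (p : ℝ)⁻¹ with hu
  have hu0 : 0 < u := by positivity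
  have hu2 : u ≤ 1 / 2 := by
    rw [hu, inv_le_comm₀ hp0 (by norm_num)]
    norm_num
    exact hp
  have ht : rk σ p ≤ 1.65 * u := by
    rw [h1]
    exact mul_le_mul_of_nonneg_right h4 hu0.le
  have hpos : 0 < 1 - rk σ p := by linarith
  refine ⟨?_, (inv_pos.2 hpos).le⟩
  have h5 : (1 - rk σ p)⁻¹ ≤ 1 + 10 * u := by
    rw [inv_le_iff_one_le_mul₀ hpos]
    nlinarith
  have h6 := Real.add_one_le_exp (10 * u)
  linarith

theorem rk_prod {σ : ℝ} {y : ℕ} (hy : 3 ≤ y) (hσ : σ = 1 / (2 * log y)) :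
    ∏ p ∈ (y + 1).primesBelow, (1 - rk σ p)⁻¹ ≤ exp (10 * (1 + log y)) := by
  have hL : 1 ≤ log y := by
    rw [Real.le_log_iff_exp_le (by positivity)]
    have h1 := Real.exp_one_lt_d9
    have h2 : (3 : ℝ) ≤ y := by exact_mod_cast hy
    linarith
  have h1 : ∀ p ∈ (y + 1).primesBelow, (1 - rk σ p)⁻¹ ≤ exp (10 * ((p : ℝ))⁻¹) ∧ 0 ≤ (1 - rk σ p)⁻¹ := by
    intro p hp
    rw [Nat.mem_primesBelow] at hp
    refine rk_factor hL hσ hp.2.two_le (Real.log_le_log (by exact_mod_cast hp.2.pos) ?_)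
    have : p ≤ y := by omega
    exact_mod_cast this
  calc ∏ p ∈ (y + 1).primesBelow, (1 - rk σ p)⁻¹ ≤ ∏ p ∈ (y + 1).primesBelow, exp (10 * ((p : ℝ))⁻¹) :=
        prod_le_prod (fun p hp => (h1 p hp).2) fun p hp => (h1 p hp).1
    _ = exp (10 * ∑ p ∈ (y + 1).primesBelow, ((p : ℝ))⁻¹) := by rw [← Real.exp_sum, ← mul_sum]
    _ ≤ exp (10 * (1 + log y)) := by
        apply Real.exp_le_exp.2
        have := sum_inv_primes y
        linarith

open Classical in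
/-- **Rankin.** -/
theorem rankin (x y : ℕ) (hy : 3 ≤ y) (U : ℝ) (hU : 0 < U) :
    (((Ioc 0 x).filter (fun n => (∀ p : ℕ, p.Prime → y < p → ¬ p ^ 2 ∣ n) ∧
      U * ((∏ p ∈ big y n, p : ℕ) : ℝ) < n)).card : ℝ) ≤ x * exp (10 * (1 + log y) - log U / (2 * log y)) := by
  obtain ⟨σ, hσ⟩ : ∃ σ : ℝ, σ = 1 / (2 * log y) := ⟨_, rfl⟩
  have hy3 : (3 : ℝ) ≤ y := by exact_mod_cast hy
  have hL : 1 ≤ log y := by
    rw [Real.le_log_iff_exp_le (by positivity)]
    have h1 := Real.exp_one_lt_d9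
    linarith
  have hσ0 : 0 < σ := by
    rw [hσ]
    positivity
  have hσ1 : σ < 1 := by
    rw [hσ, div_lt_one (by positivity)]
    linarith
  set S : Finset ℕ := (Ioc 0 x).filter (fun d => d ∈ Nat.smoothNumbers (y + 1) ∧ U < d) with hS
  have hsub : (Ioc 0 x).filter (fun n => (∀ p : ℕ, p.Prime → y < p → ¬ p ^ 2 ∣ n) ∧
      U * ((∏ p ∈ big y n, p : ℕ) : ℝ) < n) ⊆ S.biUnion (fun d => (Ioc 0 x).filter (fun n => d ∣ n)) := by
    intro n hn
    rw [mem_filter, mem_Ioc] at hn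
    obtain ⟨⟨hn0, hnx⟩, hsq, hlt⟩ := hn
    have hn0' : n ≠ 0 := by omega
    set d : ℕ := ∏ p ∈ n.primeFactors.filter (fun p => ¬ y < p), p ^ n.factorization p with hd
    have h1 : ∏ p ∈ n.primeFactors, p ^ n.factorization p = n := by
      have := Nat.prod_factorization_pow_eq_self hn0'
      rw [Finsupp.prod, Nat.support_factorization] at this
      exact this
    have h2 : (∏ p ∈ n.primeFactors.filter (fun p => y < p), p ^ n.factorization p) * d = n := by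
      rw [hd, prod_filter_mul_prod_filter_not]
      exact h1
    have h3 : ∏ p ∈ n.primeFactors.filter (fun p => y < p), p ^ n.factorization p = ∏ p ∈ big y n, p := by
      refine prod_congr rfl fun p hp => ?_
      obtain ⟨hp1, hp2⟩ := mem_filter.1 hp
      have hpp := Nat.prime_of_mem_primeFactors hp1
      have h4 : n.factorization p = 1 := by
        have h5 : 0 < n.factorization p :=
          hpp.factorization_pos_of_dvd hn0' (Nat.dvd_of_mem_primeFactors hp1)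
        have h6 : ¬ 2 ≤ n.factorization p := by
          intro h
          exact hsq p hpp hp2 ((hpp.pow_dvd_iff_le_factorization hn0').2 h)
        omega
      rw [h4, pow_one]
    rw [h3] at h2
    have hdn : d ∣ n := Dvd.intro_left _ h2
    have hd0 : 0 < d := Nat.pos_of_dvd_of_pos hdn hn0
    have hprod : (0 : ℝ) < ((∏ p ∈ big y n, p : ℕ) : ℝ) := by
      have : 0 < ∏ p ∈ big y n, p := prod_pos fun p hp =>
        (Nat.prime_of_mem_primeFactors (mem_filter.1 hp).1).pos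
      exact_mod_cast this
    have hUd : U < d := by
      have h5 : (n : ℝ) = ((∏ p ∈ big y n, p : ℕ) : ℝ) * d := by exact_mod_cast h2.symm
      rw [h5, mul_comm] at hlt
      exact lt_of_mul_lt_mul_left hlt hprod.le
    rw [mem_biUnion]
    refine ⟨d, ?_, ?_⟩
    · rw [hS, mem_filter, mem_Ioc]
      refine ⟨⟨hd0, (Nat.le_of_dvd hn0 hdn).trans hnx⟩, ?_, hUd⟩
      rw [Nat.mem_smoothNumbers']
      intro p hp hpd
      rw [hd] at hpd
      obtain ⟨q, hq, hpq⟩ := (hp.prime.dvd_finsetProd_iff _).1 hpd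
      obtain ⟨hq1, hq2⟩ := mem_filter.1 hq
      have hqq := Nat.prime_of_mem_primeFactors hq1
      have h6 : p = q := (Nat.prime_dvd_prime_iff_eq hp hqq).1 (hp.dvd_of_dvd_pow hpq)
      rw [h6]
      omega
    · rw [mem_filter, mem_Ioc]
      exact ⟨⟨hn0, hnx⟩, hdn⟩
  have hnorm : ∀ {p : ℕ}, p.Prime → ‖rk σ p‖ < 1 := by
    intro p hp
    have hp1 : (1 : ℝ) < p := by exact_mod_cast hp.one_lt
    rw [rk_apply, Real.norm_eq_abs, abs_of_nonneg (by positivity)]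
    exact Real.rpow_lt_one_of_one_lt_of_neg hp1 (by linarith)
  obtain ⟨hsum1, hsum2⟩ := EulerProduct.summable_and_hasSum_smoothNumbers_prod_primesBelow_geometric
    (f := rk σ) hnorm (y + 1)
  have hsumS : ∑ d ∈ S, rk σ d ≤ exp (10 * (1 + log y)) := by
    refine le_trans ?_ (rk_prod hy hσ)
    rw [← hsum2.tsum_eq]
    have h1 : ∑ d ∈ S, rk σ d = ∑ m ∈ S.subtype (fun d => d ∈ Nat.smoothNumbers (y + 1)), rk σ (m : ℕ) := by
      refine (Finset.sum_subtype_of_mem (fun d => rk σ d) ?_).symm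
      intro d hd
      rw [hS, mem_filter] at hd
      exact hd.2.1
    rw [h1]
    refine hsum2.summable.sum_le_tsum _ fun m _ => ?_
    rw [rk_apply]
    positivity
  have hterm : ∀ d ∈ S, (((Ioc 0 x).filter (fun n => d ∣ n)).card : ℝ) ≤ x * U ^ (-σ) * rk σ d := by
    intro d hd
    rw [hS, mem_filter, mem_Ioc] at hd
    have hd0 : (0 : ℝ) < d := by exact_mod_cast hd.1.1
    rw [Nat.Ioc_filter_dvd_card_eq_div]
    refine Nat.cast_div_le.trans ?_
    rw [rk_apply, Real.rpow_sub_one hd0.ne', Real.rpow_neg hU.le]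
    have h1 : U ^ σ ≤ (d : ℝ) ^ σ := Real.rpow_le_rpow hU.le hd.2.2.le hσ0.le
    have h2 : 0 < U ^ σ := Real.rpow_pos_of_pos hU _
    have h3 : 1 ≤ (U ^ σ)⁻¹ * (d : ℝ) ^ σ := by
      rw [inv_mul_eq_div, one_le_div h2]
      exact h1
    calc (x : ℝ) / d = x / d * 1 := by ring
      _ ≤ x / d * ((U ^ σ)⁻¹ * (d : ℝ) ^ σ) := mul_le_mul_of_nonneg_left h3 (by positivity)
      _ = x * (U ^ σ)⁻¹ * ((d : ℝ) ^ σ / d) := by ring
  calc (((Ioc 0 x).filter (fun n => (∀ p : ℕ, p.Prime → y < p → ¬ p ^ 2 ∣ n) ∧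
      U * ((∏ p ∈ big y n, p : ℕ) : ℝ) < n)).card : ℝ)
      ≤ ((∑ d ∈ S, ((Ioc 0 x).filter (fun n => d ∣ n)).card : ℕ) : ℝ) :=
        Nat.cast_le.2 ((card_le_card hsub).trans card_biUnion_le)
    _ = ∑ d ∈ S, (((Ioc 0 x).filter (fun n => d ∣ n)).card : ℝ) := by push_cast; rfl
    _ ≤ ∑ d ∈ S, x * U ^ (-σ) * rk σ d := sum_le_sum hterm
    _ = x * U ^ (-σ) * ∑ d ∈ S, rk σ d := by rw [mul_sum]
    _ ≤ x * U ^ (-σ) * exp (10 * (1 + log y)) := mul_le_mul_of_nonneg_left hsumS (by positivity)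
    _ = x * exp (10 * (1 + log y) - log U / (2 * log y)) := by
        rw [Real.rpow_def_of_pos hU, mul_assoc, ← Real.exp_add]
        congr 2
        rw [hσ]
        ring

/-- few degrees are not good -/
theorem few_bad_rankin (x y s : ℕ) (U : ℝ) (hy : 3 ≤ y) (hs : 0 < s) (hU : 0 < U) :
    ({n : ℕ | 1 ≤ n ∧ n ≤ x ∧ ¬ GoodDeg y s U n}.ncard : ℝ) ≤
      x / y + x * (s : ℝ) ^ 2 * (1 + log (x * s)) / y + x * exp (10 * (1 + log y) - log U / (2 * log y)) := by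
  classical
  set B1 := (Ioc 0 x).filter (fun n => ∃ p : ℕ, p.Prime ∧ y < p ∧ p ^ 2 ∣ n) with hB1
  set B2 := (Ioc 0 x).filter (fun n => ∃ p d₁ d₂ : ℕ, p.Prime ∧ y < p ∧ p * d₁ ∣ n ∧ 1 ≤ d₂ ∧
      d₂ ≤ s ∧ d₁ * d₂ ≡ 1 [MOD p] ∧ d₁ * d₂ ≠ 1) with hB2
  set B3 := (Ioc 0 x).filter (fun n => (∀ p : ℕ, p.Prime → y < p → ¬ p ^ 2 ∣ n) ∧
      U * ((∏ p ∈ big y n, p : ℕ) : ℝ) < n) with hB3
  have hsub : {n : ℕ | 1 ≤ n ∧ n ≤ x ∧ ¬ GoodDeg y s U n} ⊆ ((B1 ∪ B2 ∪ B3 : Finset ℕ) : Set ℕ) := by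
    rintro n ⟨h1, h2, h3⟩
    have hn : n ∈ Ioc 0 x := mem_Ioc.2 ⟨h1, h2⟩
    rw [mem_coe, mem_union, mem_union]
    by_cases hsq : ∀ p : ℕ, p.Prime → y < p → ¬ p ^ 2 ∣ n
    · by_cases hc : ∀ p : ℕ, p.Prime → y < p → ∀ d₁ d₂, p * d₁ ∣ n → 1 ≤ d₂ → d₂ ≤ s →
          d₁ * d₂ ≡ 1 [MOD p] → d₁ * d₂ = 1
      · right
        rw [hB3, mem_filter]
        refine ⟨hn, hsq, ?_⟩
        by_contra hlt
        exact h3 ⟨hsq, hc, not_lt.1 hlt⟩
      · left
        right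
        push Not at hc
        obtain ⟨p, hp, hyp, d₁, d₂, a1, a2, a3, a4, a5⟩ := hc
        rw [hB2, mem_filter]
        exact ⟨hn, p, d₁, d₂, hp, hyp, a1, a2, a3, a4, a5⟩
    · left
      left
      push Not at hsq
      obtain ⟨p, hp, hyp, a1⟩ := hsq
      rw [hB1, mem_filter]
      exact ⟨hn, p, hp, hyp, a1⟩
  have h1 : {n : ℕ | 1 ≤ n ∧ n ≤ x ∧ ¬ GoodDeg y s U n}.ncard ≤ B1.card + B2.card + B3.card := by
    calc {n : ℕ | 1 ≤ n ∧ n ≤ x ∧ ¬ GoodDeg y s U n}.ncard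
        ≤ ((B1 ∪ B2 ∪ B3 : Finset ℕ) : Set ℕ).ncard := Set.ncard_le_ncard hsub (finite_toSet _)
      _ = (B1 ∪ B2 ∪ B3).card := Set.ncard_coe_finset _
      _ ≤ (B1 ∪ B2).card + B3.card := card_union_le _ _
      _ ≤ _ := by
        have := card_union_le B1 B2
        omega
  have h2 : (B1.card : ℝ) ≤ x / y := by
    convert count1 x y (by omega)
  have h3 : (B2.card : ℝ) ≤ x * (s : ℝ) ^ 2 * (1 + log (x * s)) / y := by
    convert count2 x y s (by omega) hs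
  have h4 : (B3.card : ℝ) ≤ x * exp (10 * (1 + log y) - log U / (2 * log y)) := by
    convert rankin x y hy U hU
  calc ({n : ℕ | 1 ≤ n ∧ n ≤ x ∧ ¬ GoodDeg y s U n}.ncard : ℝ)
      ≤ ((B1.card + B2.card + B3.card : ℕ) : ℝ) := by exact_mod_cast h1
    _ = (B1.card : ℝ) + B2.card + B3.card := by push_cast; ring
    _ ≤ _ := by linarith

/-- **Few degrees are not good**, in terms of `Y`. -/
theorem few_bad_Y (x s : ℕ) (Y : ℝ) (hs : 1 ≤ s) (hY : 1 ≤ Y) (hsY : (s : ℝ) ≤ exp Y) :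
    ∃ y : ℕ, s ≤ y ∧ ({n : ℕ | 1 ≤ n ∧ n ≤ x ∧ ¬ GoodDeg y s (exp (124 * Y ^ 2)) n}.ncard : ℝ) ≤
      3 * (x * (s : ℝ) ^ 2 * (1 + log (x * s)) * exp (-Y)) := by
  have he1 : (2.7 : ℝ) < exp Y := by
    have h1 := Real.exp_one_gt_d9
    have h2 := Real.exp_le_exp.2 hY
    linarith
  set y : ℕ := ⌈exp Y⌉₊ with hy
  have hyle : exp Y ≤ y := Nat.le_ceil _
  have hylt : (y : ℝ) < exp Y + 1 := Nat.ceil_lt_add_one (Real.exp_pos _).le
  have hy3 : 3 ≤ y := by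
    have h1 : (2.7 : ℝ) < y := he1.trans_le hyle
    by_contra h2
    have h3 : y ≤ 2 := by omega
    have h4 : (y : ℝ) ≤ 2 := by exact_mod_cast h3
    linarith
  have hy0 : (0 : ℝ) < y := by linarith
  refine ⟨y, by exact_mod_cast hsY.trans hyle, ?_⟩
  have h := few_bad_rankin x y s (exp (124 * Y ^ 2)) hy3 (by omega) (Real.exp_pos _)
  refine h.trans ?_
  rw [Real.log_exp]
  rcases Nat.eq_zero_or_pos x with rfl | hx
  · simp
  have hx1 : (1 : ℝ) ≤ x := by exact_mod_cast hx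
  have hs1 : (1 : ℝ) ≤ s := by exact_mod_cast hs
  have hly1 : Y ≤ log y := by
    rw [Real.le_log_iff_exp_le hy0]
    exact hyle
  have hly2 : log y ≤ 2 * Y := by
    have h1 : (y : ℝ) ≤ exp (2 * Y) := by
      have h2 : exp (2 * Y) = exp Y * exp Y := by rw [← Real.exp_add]; ring_nf
      rw [h2]
      nlinarith
    exact (Real.log_le_iff_le_exp hy0).2 h1
  have hinv : (y : ℝ)⁻¹ ≤ exp (-Y) := by
    rw [Real.exp_neg]
    exact inv_anti₀ (Real.exp_pos _) hyle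
  have hlog : 0 ≤ log ((x : ℝ) * s) := Real.log_nonneg (by nlinarith)
  have hbig : 1 ≤ (s : ℝ) ^ 2 * (1 + log (x * s)) := by
    have h1 : 1 ≤ (s : ℝ) ^ 2 := one_le_pow₀ hs1
    nlinarith
  have hex : 0 < exp (-Y) := Real.exp_pos _
  have ha : (x : ℝ) / y ≤ x * (s : ℝ) ^ 2 * (1 + log (x * s)) * exp (-Y) := by
    calc (x : ℝ) / y = x * 1 * (y : ℝ)⁻¹ := by rw [mul_one, div_eq_mul_inv]
      _ ≤ x * ((s : ℝ) ^ 2 * (1 + log (x * s))) * exp (-Y) := by gcongr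
      _ = _ := by ring
  have hb : (x : ℝ) * (s : ℝ) ^ 2 * (1 + log (x * s)) / y ≤ x * (s : ℝ) ^ 2 * (1 + log (x * s)) * exp (-Y) := by
    rw [div_eq_mul_inv]
    exact mul_le_mul_of_nonneg_left hinv (by positivity)
  have hc : (x : ℝ) * exp (10 * (1 + log y) - 124 * Y ^ 2 / (2 * log y)) ≤
      x * (s : ℝ) ^ 2 * (1 + log (x * s)) * exp (-Y) := by
    have h1 : 10 * (1 + log y) - 124 * Y ^ 2 / (2 * log y) ≤ -Y := by
      have h2 : 31 * Y ≤ 124 * Y ^ 2 / (2 * log y) := by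
        rw [le_div_iff₀ (by linarith)]
        nlinarith
      linarith
    calc (x : ℝ) * exp (10 * (1 + log y) - 124 * Y ^ 2 / (2 * log y)) ≤ x * exp (-Y) :=
          mul_le_mul_of_nonneg_left (Real.exp_le_exp.2 h1) (by linarith)
      _ = x * 1 * exp (-Y) := by ring
      _ ≤ x * ((s : ℝ) ^ 2 * (1 + log (x * s))) * exp (-Y) := by gcongr
      _ = _ := by ring
  linarith

end Pool.Agent.Q138.PS
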