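import Pool.Agent.Q138.PS.ZC

/-!
Multiples of a sequence by almost all real numbers and sets with a number of exceptions that depends on two parameters.
-/

set_option autoImplicit false

namespace Pool.Agent.Q138.PS

open Filter MeasureTheory Topology

/-- **Near multiples of a sequence.** -/
theorem seq_ae (Bad : ℕ → ℕ → ℝ → Prop) (C : ℝ) (hC : 0 ≤ C)
    (h : ∀ (x s : ℕ) (Y : ℝ), 1 ≤ s → 1 ≤ Y → (s : ℝ) ≤ Real.exp Y →
      ({n : ℕ | 1 ≤ n ∧ n ≤ x ∧ Bad n s Y}.ncard : ℝ) ≤ C * (x * (s : ℝ) ^ 2 * (1 + Real.log (x * s)) * Real.exp (-Y)))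
    (l r Y : ℕ → ℝ) (s : ℕ → ℕ) (hl : ∀ᶠ j in atTop, 1 ≤ l j) (hr0 : ∀ᶠ j in atTop, 0 ≤ r j) (hr : ∀ᶠ j in atTop, r j ≤ l j)
    (hs : ∀ᶠ j in atTop, 1 ≤ s j) (hY : ∀ᶠ j in atTop, 1 ≤ Y j) (hsY : ∀ᶠ j in atTop, (s j : ℝ) ≤ Real.exp (Y j))
    (hsum : Summable fun j : ℕ => r j * (s j : ℝ) ^ 2 * (1 + Real.log (l j * s j)) * Real.exp (-(Y j))) :
    ∀ᵐ θ : ℝ, 0 < θ → ∀ᶠ j : ℕ in atTop, ∀ n : ℕ, 1 ≤ n → |(n : ℝ) - θ * l j| ≤ r j → ¬ Bad n (s j) (Y j) := by
  have key : ∀ k : ℕ, ∀ᵐ θ : ℝ, ∀ᶠ j : ℕ in atTop,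
      θ ∉ {θ : ℝ | 0 < θ ∧ θ < k ∧ ∃ n : ℕ, 1 ≤ n ∧ |(n : ℝ) - θ * l j| ≤ r j ∧ Bad n (s j) (Y j)} := by
    intro k
    obtain ⟨K, hK⟩ : ∃ K : ℝ, K = 2 * C * (k + 1) * (1 + Real.log (k + 1)) := ⟨_, rfl⟩
    have hk0 : (0 : ℝ) ≤ k := Nat.cast_nonneg k
    have hlk : 0 ≤ Real.log ((k : ℝ) + 1) := Real.log_nonneg (by linarith)
    have hev : ∀ᶠ j : ℕ in atTop, volume {θ : ℝ | 0 < θ ∧ θ < k ∧ ∃ n : ℕ, 1 ≤ n ∧ |(n : ℝ) - θ * l j| ≤ r j ∧
        Bad n (s j) (Y j)} ≤ ENNReal.ofReal (K * (r j * (s j : ℝ) ^ 2 * (1 + Real.log (l j * s j)) * Real.exp (-(Y j)))) := by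
      filter_upwards [hl, hr0, hr, hs, hY, hsY] with j h1 h2 h3 h4 h5 h6
      have hl0 : 0 < l j := by linarith
      have hs1 : (1 : ℝ) ≤ s j := by exact_mod_cast h4
      obtain ⟨x, hx⟩ : ∃ x : ℕ, x = ⌊(k + 1) * l j⌋₊ := ⟨_, rfl⟩
      have hxle : (x : ℝ) ≤ (k + 1) * l j := by
        rw [hx]
        exact Nat.floor_le (by positivity)
      have hfin : {n : ℕ | 1 ≤ n ∧ n ≤ x ∧ Bad n (s j) (Y j)}.Finite :=
        (Set.finite_Iic x).subset fun n hn => hn.2.1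
      have hsub : {θ : ℝ | 0 < θ ∧ θ < k ∧ ∃ n : ℕ, 1 ≤ n ∧ |(n : ℝ) - θ * l j| ≤ r j ∧ Bad n (s j) (Y j)} ⊆
          ⋃ n ∈ hfin.toFinset, Set.Icc (((n : ℝ) - r j) / l j) (((n : ℝ) + r j) / l j) := by
        rintro θ ⟨a1, a2, n, a3, a4, a5⟩
        have a6 := abs_le.1 a4
        simp only [Set.mem_iUnion]
        refine ⟨n, ?_, ?_⟩
        · rw [Set.Finite.mem_toFinset]
          refine ⟨a3, ?_, a5⟩
          rw [hx]
          apply Nat.le_floor
          have : θ * l j ≤ k * l j := mul_le_mul_of_nonneg_right a2.le hl0.le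
          linarith [a6.2]
        · rw [Set.mem_Icc, div_le_iff₀ hl0, le_div_iff₀ hl0]
          constructor <;> linarith [a6.1, a6.2]
      refine (measure_mono hsub).trans ((measure_biUnion_finset_le _ _).trans ?_)
      have hone : ∀ n ∈ hfin.toFinset, volume (Set.Icc (((n : ℝ) - r j) / l j) (((n : ℝ) + r j) / l j)) ≤
          ENNReal.ofReal (2 * r j / l j) := by
        intro n _
        rw [Real.volume_Icc]
        refine ENNReal.ofReal_le_ofReal (le_of_eq ?_)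
        rw [← sub_div]
        congr 1
        ring
      refine (Finset.sum_le_sum hone).trans ?_
      rw [Finset.sum_const, nsmul_eq_mul, ← Set.ncard_eq_toFinset_card _ hfin, ← ENNReal.ofReal_natCast,
        ← ENNReal.ofReal_mul (Nat.cast_nonneg _)]
      refine ENNReal.ofReal_le_ofReal ?_
      have hcount := h x (s j) (Y j) h4 h5 h6
      have he : 0 < Real.exp (-(Y j)) := Real.exp_pos _
      have hll : 0 ≤ Real.log (l j * s j) := Real.log_nonneg (by nlinarith)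
      have hlog : 1 + Real.log (x * s j) ≤ (1 + Real.log (k + 1)) * (1 + Real.log (l j * s j)) := by
        rcases Nat.eq_zero_or_pos x with h0 | h0
        · rw [h0]
          simp only [Nat.cast_zero, zero_mul, Real.log_zero, add_zero]
          nlinarith
        · have hx0 : (0 : ℝ) < x := by exact_mod_cast h0
          have h7 : Real.log (x * s j) ≤ Real.log (k + 1) + Real.log (l j * s j) := by
            rw [← Real.log_mul (by positivity) (by positivity)]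
            refine Real.log_le_log (by positivity) ?_
            calc (x : ℝ) * s j ≤ (k + 1) * l j * s j := mul_le_mul_of_nonneg_right hxle (by linarith)
              _ = _ := by ring
          nlinarith
      have hmid : (x : ℝ) * (s j : ℝ) ^ 2 * (1 + Real.log (x * s j)) * Real.exp (-(Y j)) ≤
          (k + 1) * l j * (s j : ℝ) ^ 2 * ((1 + Real.log (k + 1)) * (1 + Real.log (l j * s j))) * Real.exp (-(Y j)) := by
        refine mul_le_mul_of_nonneg_right ?_ he.le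
        calc (x : ℝ) * (s j : ℝ) ^ 2 * (1 + Real.log (x * s j))
            ≤ x * (s j : ℝ) ^ 2 * ((1 + Real.log (k + 1)) * (1 + Real.log (l j * s j))) :=
              mul_le_mul_of_nonneg_left hlog (by positivity)
          _ ≤ _ := by
              refine mul_le_mul_of_nonneg_right (mul_le_mul_of_nonneg_right hxle (by positivity)) (by positivity)
      calc ({n : ℕ | 1 ≤ n ∧ n ≤ x ∧ Bad n (s j) (Y j)}.ncard : ℝ) * (2 * r j / l j)
          ≤ C * ((k + 1) * l j * (s j : ℝ) ^ 2 * ((1 + Real.log (k + 1)) * (1 + Real.log (l j * s j))) *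
            Real.exp (-(Y j))) * (2 * r j / l j) :=
            mul_le_mul_of_nonneg_right (hcount.trans (mul_le_mul_of_nonneg_left hmid hC)) (by positivity)
        _ = K * (r j * (s j : ℝ) ^ 2 * (1 + Real.log (l j * s j)) * Real.exp (-(Y j))) := by
            rw [hK]
            field_simp
    obtain ⟨j₀, hj₀⟩ := eventually_atTop.1 hev
    have hs' := ((summable_nat_add_iff j₀).2 (hsum.mul_left K)).tsum_ofReal_ne_top
    have hsum' : ∑' j : ℕ, volume {θ : ℝ | 0 < θ ∧ θ < k ∧ ∃ n : ℕ, 1 ≤ n ∧ |(n : ℝ) - θ * l (j + j₀)| ≤ r (j + j₀) ∧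
        Bad n (s (j + j₀)) (Y (j + j₀))} ≠ ⊤ :=
      ne_top_of_le_ne_top hs' (ENNReal.tsum_le_tsum fun j => hj₀ (j + j₀) (by omega))
    filter_upwards [ae_eventually_notMem hsum'] with θ hθ
    obtain ⟨j₁, hj₁⟩ := eventually_atTop.1 hθ
    refine eventually_atTop.2 ⟨j₁ + j₀, fun j hj => ?_⟩
    have := hj₁ (j - j₀) (by omega)
    rwa [Nat.sub_add_cancel (by omega)] at this
  filter_upwards [ae_all_iff.2 key] with θ hθ h0
  obtain ⟨k, hk⟩ := exists_nat_gt θ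
  filter_upwards [hθ k] with j hj n h1 h2 h3
  exact hj ⟨h0, hk, n, h1, h2, h3⟩

end Pool.Agent.Q138.PS
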