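import Pool.Agent.Q138.PS.ZD

/-!
Multiples of a sequence: choices of the parameters.
-/

set_option autoImplicit false

namespace Pool.Agent.Q138.PS

open Filter MeasureTheory Topology

/-- the integers near `θ l j` are large -/
theorem near_large {θ : ℝ} (hθ : 0 < θ) (l r : ℕ → ℝ) (hl : Tendsto l atTop atTop) (hr : ∀ᶠ j in atTop, r j ≤ √(l j)) :
    ∀ᶠ j : ℕ in atTop, ∀ n : ℕ, |(n : ℝ) - θ * l j| ≤ r j → √(l j) ≤ n := by
  have h1 : Tendsto (fun j => √(l j)) atTop atTop := Real.tendsto_sqrt_atTop.comp hl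
  filter_upwards [hr, h1.eventually_ge_atTop (2 / θ), hl.eventually_gt_atTop 0] with j h2 h3 h4 n hn
  have h5 := abs_le.1 hn
  have h6 : √(l j) * √(l j) = l j := Real.mul_self_sqrt h4.le
  have h7 : 2 ≤ θ * √(l j) := by
    rw [div_le_iff₀ hθ] at h3
    linarith
  have h8 : 0 ≤ √(l j) := Real.sqrt_nonneg _
  have h9 : 2 * √(l j) ≤ θ * l j := by
    calc 2 * √(l j) ≤ θ * √(l j) * √(l j) := mul_le_mul_of_nonneg_right h7 h8
      _ = θ * l j := by rw [mul_assoc, h6]
  linarith [h5.1]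

/-- **First choice of the parameters.** -/
theorem seq_ae_exp (Bad : ℕ → ℕ → ℝ → Prop) (C : ℝ) (hC : 0 ≤ C)
    (h : ∀ (x s : ℕ) (Y : ℝ), 1 ≤ s → 1 ≤ Y → (s : ℝ) ≤ Real.exp Y →
      ({n : ℕ | 1 ≤ n ∧ n ≤ x ∧ Bad n s Y}.ncard : ℝ) ≤ C * (x * (s : ℝ) ^ 2 * (1 + Real.log (x * s)) * Real.exp (-Y)))
    (a : ℝ) (ha : 0 < a) : ∃ c : ℝ, 0 < c ∧ ∀ l : ℕ → ℝ, (∀ᶠ j : ℕ in atTop, Real.exp (Real.log j ^ 2 / c) ≤ l j) →
      Tendsto l atTop atTop ∧ (∀ᶠ j : ℕ in atTop, Real.exp (c * √(Real.log (l j))) ≤ √(l j)) ∧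
      (∀ᶠ j : ℕ in atTop, 1 ≤ Real.exp (c * √(Real.log (l j)))) ∧
      ∀ᵐ θ : ℝ, 0 < θ → ∀ᶠ j : ℕ in atTop, ∀ n : ℕ, 1 ≤ n → |(n : ℝ) - θ * l j| ≤ Real.exp (c * √(Real.log (l j))) →
        ¬ Bad n ⌊Real.exp (c * √(Real.log (l j)))⌋₊ (a * √(Real.log (l j))) := by
  obtain ⟨c, hc⟩ : ∃ c : ℝ, c = min (min (a / 8) (a ^ 2 / 16)) 1 := ⟨_, rfl⟩
  have hc0 : 0 < c := by
    rw [hc]
    positivity
  have hc1 : c ≤ a / 8 := by rw [hc]; exact (min_le_left _ _).trans (min_le_left _ _)
  have hc2 : c ≤ a ^ 2 / 16 := by rw [hc]; exact (min_le_left _ _).trans (min_le_right _ _)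
  have hc3 : c ≤ 1 := by rw [hc]; exact min_le_right _ _
  refine ⟨c, hc0, fun l hl => ?_⟩
  -- the sequence u
  have hlog : Tendsto (fun j : ℕ => Real.log (j : ℝ)) atTop atTop := Real.tendsto_log_atTop.comp tendsto_natCast_atTop_atTop
  have hlog2 : Tendsto (fun j : ℕ => Real.log (j : ℝ) ^ 2 / c) atTop atTop :=
    ((tendsto_pow_atTop (two_ne_zero)).comp hlog).atTop_div_const hc0
  have hlt : Tendsto l atTop atTop :=
    tendsto_atTop_mono' _ hl (Real.tendsto_exp_atTop.comp hlog2)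
  have hL : Tendsto (fun j => Real.log (l j)) atTop atTop := Real.tendsto_log_atTop.comp hlt
  have hu : Tendsto (fun j => √(Real.log (l j))) atTop atTop := Real.tendsto_sqrt_atTop.comp hL
  have hone : ∀ᶠ j : ℕ in atTop, 1 ≤ Real.exp (c * √(Real.log (l j))) :=
    Eventually.of_forall fun j => Real.one_le_exp (by positivity)
  have hsq : ∀ᶠ j : ℕ in atTop, Real.exp (c * √(Real.log (l j))) ≤ √(l j) := by
    filter_upwards [hu.eventually_ge_atTop 2, hlt.eventually_gt_atTop 0, hL.eventually_ge_atTop 0] with j h1 h2 h3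
    have h4 : √(Real.log (l j)) * √(Real.log (l j)) = Real.log (l j) := Real.mul_self_sqrt h3
    have h5 : c * √(Real.log (l j)) ≤ Real.log (l j) / 2 := by nlinarith
    calc Real.exp (c * √(Real.log (l j))) ≤ Real.exp (Real.log (l j) / 2) := Real.exp_le_exp.2 h5
      _ = √(l j) := by
        rw [← Real.log_sqrt h2.le, Real.exp_log (Real.sqrt_pos.2 h2)]
  refine ⟨hlt, hsq, hone, ?_⟩
  refine seq_ae Bad C hC h l (fun j => Real.exp (c * √(Real.log (l j)))) (fun j => a * √(Real.log (l j)))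
    (fun j => ⌊Real.exp (c * √(Real.log (l j)))⌋₊) (hlt.eventually_ge_atTop 1) (Eventually.of_forall fun j => (Real.exp_pos _).le)
    ?_ ?_ ?_ ?_ ?_
  · filter_upwards [hsq, hlt.eventually_ge_atTop 1] with j h1 h2
    refine h1.trans ?_
    rw [Real.sqrt_le_left (by linarith)]
    nlinarith
  · filter_upwards [hone] with j h1
    exact Nat.le_floor (by exact_mod_cast h1)
  · filter_upwards [hu.eventually_ge_atTop (1 / a)] with j h1
    rw [div_le_iff₀ ha] at h1
    linarith
  · filter_upwards [hu.eventually_ge_atTop 0] with j h1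
    refine (Nat.floor_le (Real.exp_pos _).le).trans (Real.exp_le_exp.2 ?_)
    nlinarith
  · -- summability
    have hpoly : Tendsto (fun u : ℝ => (1 + u ^ 2 + c * u) * Real.exp (-((a / 8) * u))) atTop (𝓝 0) := by
      have ha8 : 0 < a / 8 := by positivity
      have h0 := Real.tendsto_pow_mul_exp_neg_atTop_nhds_zero 0
      have e : ∀ k : ℕ, Tendsto (fun u : ℝ => u ^ k * Real.exp (-((a / 8) * u))) atTop (𝓝 0) := by
        intro k
        have h1 := (Real.tendsto_pow_mul_exp_neg_atTop_nhds_zero k).comp (tendsto_id.const_mul_atTop ha8)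
        have h2 := h1.const_mul (((a / 8) ^ k)⁻¹)
        rw [mul_zero] at h2
        refine h2.congr fun u => ?_
        simp only [Function.comp_apply, id]
        rw [mul_pow]
        field_simp
      have h3 := ((e 0).add (e 2)).add ((e 1).const_mul c)
      simp only [add_zero, mul_zero] at h3
      refine h3.congr fun u => ?_
      ring
    have hev : ∀ᶠ j : ℕ in atTop, ‖Real.exp (c * √(Real.log (l j))) * ((⌊Real.exp (c * √(Real.log (l j)))⌋₊ : ℕ) : ℝ) ^ 2 *
        (1 + Real.log (l j * ((⌊Real.exp (c * √(Real.log (l j)))⌋₊ : ℕ) : ℝ))) * Real.exp (-(a * √(Real.log (l j))))‖ ≤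
        (j : ℝ) ^ (-2 : ℝ) := by
      filter_upwards [hl, hu.eventually_ge_atTop 1, hlt.eventually_ge_atTop 1, hone,
        (hpoly.comp hu).eventually_le_const (show (0 : ℝ) < 1 by norm_num), eventually_ge_atTop 1] with j h1 h2 h3 h4 h5 h6
      simp only [Function.comp_apply] at h5
      obtain ⟨u, hu'⟩ : ∃ u : ℝ, u = √(Real.log (l j)) := ⟨_, rfl⟩
      rw [← hu'] at h2 h4 h5 ⊢
      have hj0 : (0 : ℝ) < j := by exact_mod_cast h6
      have hlj : 0 ≤ Real.log (j : ℝ) := Real.log_natCast_nonneg j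
      have hLj : 0 ≤ Real.log (l j) := Real.log_nonneg h3
      have huu : u ^ 2 = Real.log (l j) := by rw [hu', Real.sq_sqrt hLj]
      obtain ⟨S, hS⟩ : ∃ S : ℕ, S = ⌊Real.exp (c * u)⌋₊ := ⟨_, rfl⟩
      rw [← hS]
      have hSle : (S : ℝ) ≤ Real.exp (c * u) := by
        rw [hS]
        exact Nat.floor_le (Real.exp_pos _).le
      have hS1 : (1 : ℝ) ≤ S := by
        have : 1 ≤ S := by
          rw [hS]
          exact Nat.le_floor (by exact_mod_cast h4)
        exact_mod_cast this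
      have hlS : Real.log (S : ℝ) ≤ c * u := by
        rw [Real.log_le_iff_le_exp (by linarith)]
        exact hSle
      have hlog1 : Real.log (l j * S) ≤ u ^ 2 + c * u := by
        rw [Real.log_mul (by linarith) (by linarith), huu]
        linarith
      have hlog0 : 0 ≤ Real.log (l j * S) := Real.log_nonneg (by nlinarith)
      rw [Real.norm_eq_abs, abs_of_nonneg (by positivity)]
      have h7 : Real.log j ^ 2 / c ≤ u ^ 2 := by
        rw [huu, Real.le_log_iff_exp_le (by linarith)]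
        exact h1
      have h8 : 4 / a * Real.log j ≤ u := by
        have h9 : (4 / a * Real.log j) ^ 2 ≤ u ^ 2 := by
          refine le_trans ?_ h7
          rw [le_div_iff₀ hc0]
          calc (4 / a * Real.log j) ^ 2 * c = Real.log j ^ 2 * (16 * c / a ^ 2) := by ring
            _ ≤ Real.log j ^ 2 * 1 := by
                refine mul_le_mul_of_nonneg_left ?_ (by positivity)
                rw [div_le_one (by positivity)]
                linarith
            _ = _ := by ring
        exact (sq_le_sq₀ (by positivity) (by linarith)).1 h9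
      have h9 : 2 * Real.log j ≤ (a / 2) * u := by
        have h10 := mul_le_mul_of_nonneg_left h8 (show 0 ≤ a / 2 by positivity)
        calc 2 * Real.log j = a / 2 * (4 / a * Real.log j) := by field_simp; ring
          _ ≤ _ := h10
      have h11 : Real.exp (c * u) * (S : ℝ) ^ 2 ≤ Real.exp (3 * (c * u)) := by
        have h12 : (S : ℝ) ^ 2 ≤ Real.exp (c * u) ^ 2 := pow_le_pow_left₀ (by linarith) hSle 2
        calc Real.exp (c * u) * (S : ℝ) ^ 2 ≤ Real.exp (c * u) * Real.exp (c * u) ^ 2 :=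
              mul_le_mul_of_nonneg_left h12 (Real.exp_pos _).le
          _ = Real.exp (3 * (c * u)) := by
              rw [← Real.exp_nat_mul, ← Real.exp_add]
              congr 1
              push_cast
              ring
      calc Real.exp (c * u) * (S : ℝ) ^ 2 * (1 + Real.log (l j * S)) * Real.exp (-(a * u))
          ≤ Real.exp (3 * (c * u)) * (1 + u ^ 2 + c * u) * Real.exp (-(a * u)) := by
            refine mul_le_mul_of_nonneg_right ?_ (Real.exp_pos _).le
            exact mul_le_mul h11 (by linarith) (by positivity) (Real.exp_pos _).le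
        _ = ((1 + u ^ 2 + c * u) * Real.exp (-((a / 8) * u))) * Real.exp (3 * (c * u) - (7 * a / 8) * u) := by
            rw [show -(a * u) = -((a / 8) * u) + -((7 * a / 8) * u) by ring, Real.exp_add, sub_eq_add_neg, Real.exp_add]
            ring
        _ ≤ 1 * Real.exp (-(2 * Real.log j)) := by
            refine mul_le_mul h5 (Real.exp_le_exp.2 ?_) (Real.exp_pos _).le zero_le_one
            nlinarith
        _ = (j : ℝ) ^ (-2 : ℝ) := by
            rw [one_mul, Real.rpow_def_of_pos hj0]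
            congr 1
            ring
    exact Summable.of_norm_bounded_eventually_nat (Real.summable_nat_rpow.2 (by norm_num)) hev

/-- **Second choice of the parameters.** -/
theorem seq_ae_log (Bad : ℕ → ℕ → ℝ → Prop) (C : ℝ) (hC : 0 ≤ C)
    (h : ∀ (x s : ℕ) (Y : ℝ), 1 ≤ s → 1 ≤ Y → (s : ℝ) ≤ Real.exp Y →
      ({n : ℕ | 1 ≤ n ∧ n ≤ x ∧ Bad n s Y}.ncard : ℝ) ≤ C * (x * (s : ℝ) ^ 2 * (1 + Real.log (x * s)) * Real.exp (-Y)))
    (δ κ : ℝ) (hδ : 0 < δ) (hκ : 0 < κ) : ∃ A : ℝ, 0 < A ∧ ∀ l : ℕ → ℝ, (∀ᶠ j : ℕ in atTop, Real.exp ((j : ℝ) ^ δ) ≤ l j) →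
      Tendsto l atTop atTop ∧ (∀ᶠ j : ℕ in atTop, Real.log (l j) ^ κ ≤ √(l j)) ∧
      (∀ᶠ j : ℕ in atTop, 1 ≤ Real.log (l j) ^ κ) ∧
      ∀ᵐ θ : ℝ, 0 < θ → ∀ᶠ j : ℕ in atTop, ∀ n : ℕ, 1 ≤ n → |(n : ℝ) - θ * l j| ≤ Real.log (l j) ^ κ →
        ¬ Bad n ⌊Real.log (l j) ^ κ⌋₊ (A * Real.log (Real.log (l j))) := by
  obtain ⟨A, hA⟩ : ∃ A : ℝ, A = 3 * κ + 2 + 2 / δ := ⟨_, rfl⟩
  have hA0 : 0 < A := by
    rw [hA]
    positivity
  refine ⟨A, hA0, fun l hl => ?_⟩
  have hlt : Tendsto l atTop atTop :=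
    tendsto_atTop_mono' _ hl (Real.tendsto_exp_atTop.comp ((tendsto_rpow_atTop hδ).comp tendsto_natCast_atTop_atTop))
  have hL : Tendsto (fun j => Real.log (l j)) atTop atTop := Real.tendsto_log_atTop.comp hlt
  have hLL : Tendsto (fun j => Real.log (Real.log (l j))) atTop atTop := Real.tendsto_log_atTop.comp hL
  have hone : ∀ᶠ j : ℕ in atTop, 1 ≤ Real.log (l j) ^ κ := by
    filter_upwards [hL.eventually_ge_atTop 1] with j h1
    exact Real.one_le_rpow h1 hκ.le
  have hsq : ∀ᶠ j : ℕ in atTop, Real.log (l j) ^ κ ≤ √(l j) := by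
    have h1 := (isLittleO_log_rpow_rpow_atTop κ (show (0 : ℝ) < 1 / 2 by norm_num)).bound (show (0 : ℝ) < 1 by norm_num)
    filter_upwards [hlt.eventually h1, hlt.eventually_gt_atTop 0, hL.eventually_ge_atTop 0] with j h2 h3 h4
    rw [Real.sqrt_eq_rpow]
    rw [one_mul, Real.norm_of_nonneg (by positivity), Real.norm_of_nonneg (by positivity)] at h2
    exact h2
  refine ⟨hlt, hsq, hone, ?_⟩
  refine seq_ae Bad C hC h l (fun j => Real.log (l j) ^ κ) (fun j => A * Real.log (Real.log (l j)))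
    (fun j => ⌊Real.log (l j) ^ κ⌋₊) (hlt.eventually_ge_atTop 1) ?_ ?_ ?_ ?_ ?_ ?_
  · filter_upwards [hone] with j h1
    linarith
  · filter_upwards [hsq, hlt.eventually_ge_atTop 1] with j h1 h2
    refine h1.trans ?_
    rw [Real.sqrt_le_left (by linarith)]
    nlinarith
  · filter_upwards [hone] with j h1
    exact Nat.le_floor (by exact_mod_cast h1)
  · filter_upwards [hLL.eventually_ge_atTop (1 / A)] with j h1
    rw [div_le_iff₀ hA0] at h1
    linarith
  · filter_upwards [hL.eventually_ge_atTop 1] with j h1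
    have h0 : 0 < Real.log (l j) := by linarith
    refine (Nat.floor_le (by positivity)).trans ?_
    rw [Real.rpow_def_of_pos h0]
    apply Real.exp_le_exp.2
    have h2 : 0 ≤ Real.log (Real.log (l j)) := Real.log_nonneg h1
    have h3 : κ ≤ A := by
      rw [hA]
      have : 0 < 2 / δ := by positivity
      linarith
    nlinarith
  · have hev : ∀ᶠ j : ℕ in atTop, ‖Real.log (l j) ^ κ * ((⌊Real.log (l j) ^ κ⌋₊ : ℕ) : ℝ) ^ 2 *
        (1 + Real.log (l j * ((⌊Real.log (l j) ^ κ⌋₊ : ℕ) : ℝ))) * Real.exp (-(A * Real.log (Real.log (l j))))‖ ≤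
        (j : ℝ) ^ (-2 : ℝ) := by
      have hlt2 : ∀ᶠ v : ℝ in atTop, 1 + v + κ * Real.log v ≤ v ^ (2 : ℝ) := by
        have h1 := (Real.isLittleO_log_id_atTop).bound (show (0 : ℝ) < 1 / κ by positivity)
        filter_upwards [h1, eventually_ge_atTop (3 : ℝ)] with v h2 h3
        rw [Real.norm_of_nonneg (Real.log_nonneg (by linarith)), id, Real.norm_of_nonneg (by linarith)] at h2
        have h4 : κ * Real.log v ≤ v := by
          calc κ * Real.log v ≤ κ * (1 / κ * v) := mul_le_mul_of_nonneg_left h2 hκ.le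
            _ = v := by field_simp
        rw [Real.rpow_two]
        nlinarith
      filter_upwards [hl, hL.eventually_ge_atTop 1, hlt.eventually_ge_atTop 1, hone, hL.eventually hlt2,
        eventually_ge_atTop 1] with j h1 h2 h3 h4 h5 h6
      obtain ⟨v, hv⟩ : ∃ v : ℝ, v = Real.log (l j) := ⟨_, rfl⟩
      rw [← hv] at h2 h4 h5 ⊢
      have hv0 : 0 < v := by linarith
      have hj0 : (0 : ℝ) < j := by exact_mod_cast h6
      obtain ⟨S, hS⟩ : ∃ S : ℕ, S = ⌊v ^ κ⌋₊ := ⟨_, rfl⟩
      rw [← hS]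
      have hSle : (S : ℝ) ≤ v ^ κ := by
        rw [hS]
        exact Nat.floor_le (by positivity)
      have hS1 : (1 : ℝ) ≤ S := by
        have : 1 ≤ S := by
          rw [hS]
          exact Nat.le_floor (by exact_mod_cast h4)
        exact_mod_cast this
      have hlS : Real.log (S : ℝ) ≤ κ * Real.log v := by
        rw [← Real.log_rpow hv0]
        exact Real.log_le_log (by linarith) hSle
      have hlog1 : Real.log (l j * S) ≤ v + κ * Real.log v := by
        rw [Real.log_mul (by linarith) (by linarith), ← hv]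
        linarith
      have hlog0 : 0 ≤ Real.log (l j * S) := Real.log_nonneg (by nlinarith)
      rw [Real.norm_eq_abs, abs_of_nonneg (by positivity)]
      have h7 : (j : ℝ) ^ δ ≤ v := by
        rw [hv, Real.le_log_iff_exp_le (by linarith)]
        exact h1
      have h8 : (j : ℝ) ^ (2 : ℝ) ≤ v ^ (2 / δ) := by
        calc (j : ℝ) ^ (2 : ℝ) = ((j : ℝ) ^ δ) ^ (2 / δ) := by
              rw [← Real.rpow_mul hj0.le]
              congr 1
              field_simp
          _ ≤ v ^ (2 / δ) := Real.rpow_le_rpow (by positivity) h7 (by positivity)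
      have h11 : v ^ κ * (S : ℝ) ^ 2 ≤ v ^ (3 * κ) := by
        have h12 : (S : ℝ) ^ 2 ≤ (v ^ κ) ^ 2 := pow_le_pow_left₀ (by linarith) hSle 2
        calc v ^ κ * (S : ℝ) ^ 2 ≤ v ^ κ * (v ^ κ) ^ 2 := mul_le_mul_of_nonneg_left h12 (by positivity)
          _ = v ^ (3 * κ) := by
              rw [← Real.rpow_natCast (v ^ κ) 2, ← Real.rpow_mul hv0.le, ← Real.rpow_add hv0]
              congr 1
              push_cast
              ring
      have h13 : Real.exp (-(A * Real.log v)) = v ^ (-A) := by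
        rw [Real.rpow_def_of_pos hv0]
        congr 1
        ring
      rw [h13]
      calc v ^ κ * (S : ℝ) ^ 2 * (1 + Real.log (l j * S)) * v ^ (-A)
          ≤ v ^ (3 * κ) * v ^ (2 : ℝ) * v ^ (-A) := by
            refine mul_le_mul_of_nonneg_right ?_ (by positivity)
            exact mul_le_mul h11 (by linarith) (by positivity) (by positivity)
        _ = (v ^ (2 / δ))⁻¹ := by
            rw [← Real.rpow_add hv0, ← Real.rpow_add hv0, ← Real.rpow_neg hv0.le]
            congr 1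
            rw [hA]
            ring
        _ ≤ ((j : ℝ) ^ (2 : ℝ))⁻¹ := inv_anti₀ (by positivity) h8
        _ = (j : ℝ) ^ (-2 : ℝ) := by rw [← Real.rpow_neg hj0.le]
    exact Summable.of_norm_bounded_eventually_nat (Real.summable_nat_rpow.2 (by norm_num)) hev

end Pool.Agent.Q138.PS
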