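import Mathlib
import Pool.Agent.Helper602.MK.J5b

/-!
Exponential sums over multiples of a separated sequence of reals by almost all reals.
-/

set_option autoImplicit false

namespace Pool.Agent.Q138.PS

open Finset Filter Topology MeasureTheory
open Pool.Agent.Helper602.MK (ee)
open Pool.Agent.Helper602.MK.N_J5b (ee_add norm_ee ee_zero ee_conj)

theorem ee_cont (c : ℝ) : Continuous fun t : ℝ => ee (t * c) := by
  unfold ee
  fun_prop

theorem int_ee (a b c : ℝ) (hc : c ≠ 0) : ‖∫ t in a..b, ee (t * c)‖ ≤ 1 / |c| := by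
  have hc' : (2 * (Real.pi : ℂ) * Complex.I * c) ≠ 0 := by
    simp [Real.pi_ne_zero, hc]
  have h1 : ∀ t : ℝ, ee (t * c) = Complex.exp (2 * (Real.pi : ℂ) * Complex.I * c * t) := by
    intro t
    unfold ee
    congr 1
    push_cast
    ring
  simp only [h1]
  rw [integral_exp_mul_complex hc', norm_div]
  have h2 : ‖Complex.exp (2 * (Real.pi : ℂ) * Complex.I * c * b) - Complex.exp (2 * (Real.pi : ℂ) * Complex.I * c * a)‖ ≤ 2 := by
    rw [← h1, ← h1]
    refine (norm_sub_le _ _).trans ?_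
    rw [norm_ee, norm_ee]
    norm_num
  have h3 : ‖(2 * (Real.pi : ℂ) * Complex.I * c)‖ = 2 * Real.pi * |c| := by
    rw [norm_mul, norm_mul, norm_mul, Complex.norm_I, Complex.norm_real, Complex.norm_real, Real.norm_eq_abs, Real.norm_eq_abs,
      abs_of_pos Real.pi_pos]
    simp
  rw [h3]
  have hc0 : 0 < |c| := abs_pos.2 hc
  have hpi := Real.pi_gt_three
  rw [div_le_div_iff₀ (by positivity) hc0]
  nlinarith

theorem sum_inv_dist (M i : ℕ) : ∑ j ∈ (Icc 1 M).filter (fun j => j ≠ i), (1 : ℝ) / |(i : ℝ) - j| ≤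
    2 * (1 + Real.log M) + 0 ∨ ¬ i ∈ Icc 1 M := by
  by_cases hi : i ∈ Icc 1 M
  swap
  · exact Or.inr hi
  left
  rw [mem_Icc] at hi
  have hharm : ∑ j ∈ Icc 1 M, (j : ℝ)⁻¹ ≤ 1 + Real.log M := by
    have h := harmonic_le_one_add_log M
    rw [harmonic_eq_sum_Icc] at h
    push_cast at h
    exact h
  have hsplit : (Icc 1 M).filter (fun j => j ≠ i) = (Icc 1 M).filter (fun j => j < i) ∪ (Icc 1 M).filter (fun j => i < j) := by
    ext j
    simp only [mem_filter, mem_union]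
    constructor
    · rintro ⟨h1, h2⟩
      rcases lt_or_gt_of_ne h2 with h | h
      · exact Or.inl ⟨h1, h⟩
      · exact Or.inr ⟨h1, h⟩
    · rintro (⟨h1, h2⟩ | ⟨h1, h2⟩)
      · exact ⟨h1, h2.ne⟩
      · exact ⟨h1, h2.ne'⟩
  have hdisj : Disjoint ((Icc 1 M).filter (fun j => j < i)) ((Icc 1 M).filter (fun j => i < j)) := by
    rw [disjoint_left]
    intro j h1 h2
    rw [mem_filter] at h1 h2
    omega
  rw [hsplit, sum_union hdisj]
  have h1 : ∑ j ∈ (Icc 1 M).filter (fun j => j < i), (1 : ℝ) / |(i : ℝ) - j| ≤ ∑ j ∈ Icc 1 M, (j : ℝ)⁻¹ := by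
    have e : ∑ j ∈ (Icc 1 M).filter (fun j => j < i), (1 : ℝ) / |(i : ℝ) - j| =
        ∑ k ∈ ((Icc 1 M).filter (fun j => j < i)).image (fun j => i - j), (k : ℝ)⁻¹ := by
      rw [sum_image]
      · refine sum_congr rfl fun j hj => ?_
        rw [mem_filter, mem_Icc] at hj
        rw [Nat.cast_sub hj.2.le, one_div, abs_of_pos]
        have : (j : ℝ) < i := by exact_mod_cast hj.2
        linarith
      · intro j hj j' hj' h
        rw [mem_coe, mem_filter, mem_Icc] at hj hj'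
        simp only at h
        omega
    rw [e]
    refine sum_le_sum_of_subset_of_nonneg ?_ fun k _ _ => by positivity
    intro k hk
    rw [mem_image] at hk
    obtain ⟨j, hj, rfl⟩ := hk
    rw [mem_filter, mem_Icc] at hj
    rw [mem_Icc]
    omega
  have h2 : ∑ j ∈ (Icc 1 M).filter (fun j => i < j), (1 : ℝ) / |(i : ℝ) - j| ≤ ∑ j ∈ Icc 1 M, (j : ℝ)⁻¹ := by
    have e : ∑ j ∈ (Icc 1 M).filter (fun j => i < j), (1 : ℝ) / |(i : ℝ) - j| =
        ∑ k ∈ ((Icc 1 M).filter (fun j => i < j)).image (fun j => j - i), (k : ℝ)⁻¹ := by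
      rw [sum_image]
      · refine sum_congr rfl fun j hj => ?_
        rw [mem_filter, mem_Icc] at hj
        rw [Nat.cast_sub hj.2.le, one_div, abs_sub_comm, abs_of_pos]
        have : (i : ℝ) < j := by exact_mod_cast hj.2
        linarith
      · intro j hj j' hj' h
        rw [mem_coe, mem_filter, mem_Icc] at hj hj'
        simp only at h
        omega
    rw [e]
    refine sum_le_sum_of_subset_of_nonneg ?_ fun k _ _ => by positivity
    intro k hk
    rw [mem_image] at hk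
    obtain ⟨j, hj, rfl⟩ := hk
    rw [mem_filter, mem_Icc] at hj
    rw [mem_Icc]
    omega
  linarith

/-- the mean square -/
theorem mean_square (l : ℕ → ℝ) (δ : ℝ) (hδ : 0 < δ) (hl : ∀ i j : ℕ, i < j → δ * ((j : ℝ) - i) ≤ |l j - l i|)
    (A : ℝ) (hA : 0 ≤ A) (M : ℕ) :
    ∫ t in (-A)..A, ‖∑ n ∈ Icc 1 M, ee (t * l n)‖ ^ 2 ≤ M * (2 * A + 2 / δ * (1 + Real.log M)) := by
  have h1 : ∀ t : ℝ, ((‖∑ n ∈ Icc 1 M, ee (t * l n)‖ ^ 2 : ℝ) : ℂ) =
      ∑ i ∈ Icc 1 M, ∑ j ∈ Icc 1 M, ee (t * (l i - l j)) := by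
    intro t
    rw [Complex.ofReal_pow, ← Complex.mul_conj', map_sum, sum_mul_sum]
    refine sum_congr rfl fun i _ => sum_congr rfl fun j _ => ?_
    rw [ee_conj, ← ee_add]
    congr 1
    ring
  have h2 : ((∫ t in (-A)..A, ‖∑ n ∈ Icc 1 M, ee (t * l n)‖ ^ 2 : ℝ) : ℂ) =
      ∑ i ∈ Icc 1 M, ∑ j ∈ Icc 1 M, ∫ t in (-A)..A, ee (t * (l i - l j)) := by
    rw [← intervalIntegral.integral_ofReal]
    simp only [h1]
    rw [intervalIntegral.integral_finsetSum fun i _ => ?_]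
    · refine sum_congr rfl fun i _ => ?_
      rw [intervalIntegral.integral_finsetSum fun j _ => ?_]
      exact (ee_cont _).intervalIntegrable _ _
    · exact (continuous_finsetSum _ fun j _ => ee_cont _).intervalIntegrable _ _
  have h3 : ∫ t in (-A)..A, ‖∑ n ∈ Icc 1 M, ee (t * l n)‖ ^ 2 ≤
      ‖∑ i ∈ Icc 1 M, ∑ j ∈ Icc 1 M, ∫ t in (-A)..A, ee (t * (l i - l j))‖ := by
    rw [← h2, Complex.norm_real]
    exact Real.le_norm_self _
  refine h3.trans ((norm_sum_le _ _).trans ?_)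
  have h4 : ∀ i ∈ Icc 1 M, ‖∑ j ∈ Icc 1 M, ∫ t in (-A)..A, ee (t * (l i - l j))‖ ≤ 2 * A + 2 / δ * (1 + Real.log M) := by
    intro i hi
    refine (norm_sum_le _ _).trans ?_
    rw [← sum_filter_add_sum_filter_not (Icc 1 M) (fun j => j ≠ i)]
    have h5 : ∑ j ∈ (Icc 1 M).filter (fun j => j ≠ i), ‖∫ t in (-A)..A, ee (t * (l i - l j))‖ ≤ 2 / δ * (1 + Real.log M) := by
      have h6 : ∀ j ∈ (Icc 1 M).filter (fun j => j ≠ i), ‖∫ t in (-A)..A, ee (t * (l i - l j))‖ ≤
          1 / δ * (1 / |(i : ℝ) - j|) := by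
        intro j hj
        rw [mem_filter] at hj
        have hpos : 0 < |(i : ℝ) - j| := by
          rw [abs_pos, sub_ne_zero]
          exact_mod_cast hj.2.symm
        have hge : δ * |(i : ℝ) - j| ≤ |l i - l j| := by
          rcases lt_or_gt_of_ne hj.2 with h | h
          · have h7 : (j : ℝ) < i := by exact_mod_cast h
            rw [abs_of_pos (by linarith)]
            exact hl j i h
          · have h7 : (i : ℝ) < j := by exact_mod_cast h
            rw [abs_sub_comm, abs_of_pos (by linarith), abs_sub_comm (l i)]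
            exact hl i j h
        have hne : l i - l j ≠ 0 := by
          rw [← abs_pos]
          exact lt_of_lt_of_le (by positivity) hge
        refine (int_ee _ _ _ hne).trans ?_
        rw [one_div_mul_one_div]
        exact one_div_le_one_div_of_le (by positivity) hge
      refine (sum_le_sum h6).trans ?_
      rw [← mul_sum]
      rcases sum_inv_dist M i with h7 | h7
      · calc 1 / δ * ∑ j ∈ (Icc 1 M).filter (fun j => j ≠ i), (1 : ℝ) / |(i : ℝ) - j| ≤
            1 / δ * (2 * (1 + Real.log M) + 0) := mul_le_mul_of_nonneg_left h7 (by positivity)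
          _ = _ := by ring
      · exact absurd hi h7
    have h6 : ∑ j ∈ (Icc 1 M).filter (fun j => ¬ j ≠ i), ‖∫ t in (-A)..A, ee (t * (l i - l j))‖ ≤ 2 * A := by
      have e : (Icc 1 M).filter (fun j => ¬ j ≠ i) = {i} := by
        ext j
        simp only [mem_filter, mem_singleton, not_not]
        constructor
        · exact fun h => h.2
        · rintro rfl
          exact ⟨hi, rfl⟩
      rw [e, sum_singleton, sub_self]
      simp only [mul_zero, ee_zero, intervalIntegral.integral_const]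
      rw [norm_smul, norm_one, mul_one, Real.norm_eq_abs, abs_of_nonneg (by linarith)]
      linarith
    linarith
  refine (sum_le_sum h4).trans ?_
  rw [sum_const, Nat.card_Icc, nsmul_eq_mul, Nat.add_sub_cancel]

/-- **Weyl sums of separated sequences**, for almost all multiples -/
theorem metric_weyl (l : ℕ → ℝ) (δ : ℝ) (hδ : 0 < δ) (hl : ∀ i j : ℕ, i < j → δ * ((j : ℝ) - i) ≤ |l j - l i|) :
    ∀ᵐ t : ℝ, Tendsto (fun N : ℕ => ‖∑ n ∈ Icc 1 N, ee (t * l n)‖ / N) atTop (𝓝 0) := by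
  obtain ⟨F, hF⟩ : ∃ F : ℕ → ℝ → ℝ, F = fun (n : ℕ) (t : ℝ) => (‖∑ k ∈ Icc 1 ((n + 1) ^ 2), ee (t * l k)‖ / ((n : ℝ) + 1) ^ 2) ^ 2 := ⟨_, rfl⟩
  have hFc : ∀ n, Continuous (F n) := by
    intro n
    rw [hF]
    exact ((continuous_finsetSum _ fun j _ => ee_cont _).norm.div_const _).pow 2
  have hF0 : ∀ n t, 0 ≤ F n t := fun n t => by rw [hF]; positivity
  have hint : ∀ (A : ℕ) (n : ℕ), ∫ t in (-(A : ℝ))..A, F n t ≤ (2 * A + 10 / δ) * ((n : ℝ) + 1) ^ (-(3 / 2) : ℝ) := by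
    intro A n
    have hn0 : (0 : ℝ) < (n : ℝ) + 1 := by positivity
    have h1 := mean_square l δ hδ hl A (Nat.cast_nonneg A) ((n + 1) ^ 2)
    have h2 : ∫ t in (-(A : ℝ))..A, F n t = (∫ t in (-(A : ℝ))..A, ‖∑ k ∈ Icc 1 ((n + 1) ^ 2), ee (t * l k)‖ ^ 2) /
        ((n : ℝ) + 1) ^ 4 := by
      rw [hF, ← intervalIntegral.integral_div]
      congr 1
      ext t
      beta_reduce
      rw [div_pow, ← pow_mul]
    rw [h2, div_le_iff₀ (by positivity)]
    refine h1.trans ?_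
    push_cast
    have hlog : Real.log (((n : ℝ) + 1) ^ 2) ≤ 4 * ((n : ℝ) + 1) ^ (1 / 2 : ℝ) := by
      rw [Real.log_pow]
      have := Real.log_le_rpow_div hn0.le (show (0 : ℝ) < 1 / 2 by norm_num)
      push_cast
      linarith
    have hone : 1 ≤ ((n : ℝ) + 1) ^ (1 / 2 : ℝ) := Real.one_le_rpow (by linarith [Nat.cast_nonneg (α := ℝ) n]) (by norm_num)
    have e1 : ((n : ℝ) + 1) ^ (-(3 / 2) : ℝ) * ((n : ℝ) + 1) ^ 4 = ((n : ℝ) + 1) ^ 2 * ((n : ℝ) + 1) ^ (1 / 2 : ℝ) := by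
      rw [← Real.rpow_natCast _ 4, ← Real.rpow_natCast _ 2, ← Real.rpow_add hn0, ← Real.rpow_add hn0]
      congr 1
      norm_num
    rw [mul_assoc, e1]
    have h3 : 2 * (A : ℝ) + 2 / δ * (1 + Real.log (((n : ℝ) + 1) ^ 2)) ≤ (2 * A + 10 / δ) * ((n : ℝ) + 1) ^ (1 / 2 : ℝ) := by
      have hA0 : (0 : ℝ) ≤ A := Nat.cast_nonneg A
      have h4 : 2 / δ * (1 + Real.log (((n : ℝ) + 1) ^ 2)) ≤ 2 / δ * (5 * ((n : ℝ) + 1) ^ (1 / 2 : ℝ)) :=
        mul_le_mul_of_nonneg_left (by linarith) (by positivity)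
      calc 2 * (A : ℝ) + 2 / δ * (1 + Real.log (((n : ℝ) + 1) ^ 2))
          ≤ 2 * A * ((n : ℝ) + 1) ^ (1 / 2 : ℝ) + 2 / δ * (5 * ((n : ℝ) + 1) ^ (1 / 2 : ℝ)) := by nlinarith
        _ = _ := by ring
    calc ((n : ℝ) + 1) ^ 2 * (2 * (A : ℝ) + 2 / δ * (1 + Real.log (((n : ℝ) + 1) ^ 2)))
        ≤ ((n : ℝ) + 1) ^ 2 * ((2 * A + 10 / δ) * ((n : ℝ) + 1) ^ (1 / 2 : ℝ)) := mul_le_mul_of_nonneg_left h3 (by positivity)
      _ = _ := by ring
  have key : ∀ A : ℕ, ∀ᵐ t : ℝ, t ∈ Set.Ioc (-(A : ℝ)) A → Tendsto (fun n => F n t) atTop (𝓝 0) := by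
    intro A
    rw [← ae_restrict_iff' measurableSet_Ioc]
    have hA : -(A : ℝ) ≤ A := by
      have : (0 : ℝ) ≤ A := Nat.cast_nonneg A
      linarith
    have h1 : ∫⁻ t in Set.Ioc (-(A : ℝ)) A, ∑' n, ENNReal.ofReal (F n t) ≠ ⊤ := by
      rw [lintegral_tsum fun n => (hFc n).measurable.ennreal_ofReal.aemeasurable]
      have h2 : ∀ n, ∫⁻ t in Set.Ioc (-(A : ℝ)) A, ENNReal.ofReal (F n t) ≤
          ENNReal.ofReal ((2 * A + 10 / δ) * ((n : ℝ) + 1) ^ (-(3 / 2) : ℝ)) := by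
        intro n
        rw [← ofReal_integral_eq_lintegral_ofReal]
        · rw [← intervalIntegral.integral_of_le hA]
          exact ENNReal.ofReal_le_ofReal (hint A n)
        · exact ((hFc n).integrableOn_Icc (a := -(A : ℝ)) (b := A)).mono_set Set.Ioc_subset_Icc_self
        · exact ae_of_all _ fun t => hF0 n t
      refine ne_top_of_le_ne_top ?_ (ENNReal.tsum_le_tsum h2)
      refine Summable.tsum_ofReal_ne_top ?_
      refine Summable.mul_left _ ?_
      have h3 : Summable fun n : ℕ => ((n : ℝ)) ^ (-(3 / 2) : ℝ) := Real.summable_nat_rpow.2 (by norm_num)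
      have h4 := (summable_nat_add_iff 1).2 h3
      refine h4.congr fun n => ?_
      push_cast
      rfl
    have h2 := ae_lt_top (Measurable.tsum fun n => (hFc n).measurable.ennreal_ofReal) h1
    filter_upwards [h2] with t ht
    have h3 := ENNReal.tendsto_atTop_zero_of_tsum_ne_top ht.ne
    have h4 := (ENNReal.tendsto_toReal ENNReal.zero_ne_top).comp h3
    simp only [ENNReal.toReal_zero] at h4
    refine h4.congr fun n => ?_
    simp only [Function.comp_apply]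
    exact ENNReal.toReal_ofReal (hF0 n t)
  filter_upwards [ae_all_iff.2 key] with t ht
  obtain ⟨A, hA⟩ := exists_nat_gt |t|
  have h1 := ht A ⟨by linarith [neg_abs_le t], by linarith [le_abs_self t]⟩
  -- the square root
  have h2 : Tendsto (fun n : ℕ => ‖∑ k ∈ Icc 1 ((n + 1) ^ 2), ee (t * l k)‖ / ((n : ℝ) + 1) ^ 2) atTop (𝓝 0) := by
    have h3 := (Real.continuous_sqrt.tendsto 0).comp h1
    rw [Real.sqrt_zero] at h3
    refine h3.congr fun n => ?_
    simp only [Function.comp_apply]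
    rw [hF]
    exact Real.sqrt_sq (by positivity)
  have h3 : Tendsto (fun n : ℕ => ‖∑ k ∈ Icc 1 (n ^ 2), ee (t * l k)‖ / (n : ℝ) ^ 2) atTop (𝓝 0) := by
    rw [← tendsto_add_atTop_iff_nat 1]
    refine h2.congr fun n => ?_
    push_cast
    rfl
  have hsq : Tendsto (fun N : ℕ => Nat.sqrt N) atTop atTop := by
    refine tendsto_atTop.2 fun b => ?_
    filter_upwards [eventually_ge_atTop (b * b)] with N hN
    exact Nat.le_sqrt.2 hN
  have h4 := h3.comp hsq
  have h5 : Tendsto (fun N : ℕ => (2 : ℝ) / (Nat.sqrt N : ℕ)) atTop (𝓝 0) :=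
    tendsto_const_nhds.div_atTop (tendsto_natCast_atTop_atTop.comp hsq)
  have h6 := h4.add h5
  rw [add_zero] at h6
  refine squeeze_zero' (Eventually.of_forall fun N => by positivity) ?_ h6
  filter_upwards [eventually_ge_atTop 1] with N hN
  simp only [Function.comp_apply]
  set m := Nat.sqrt N with hm
  have hm1 : 1 ≤ m := Nat.le_sqrt.2 (by omega)
  have hmN : m ^ 2 ≤ N := by
    have := Nat.sqrt_le N
    rw [← hm] at this
    nlinarith
  have hNm : N ≤ m ^ 2 + 2 * m := by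
    have := Nat.sqrt_le_add N
    rw [← hm] at this
    nlinarith
  have hm0 : (0 : ℝ) < m := by exact_mod_cast hm1
  have hN0 : (0 : ℝ) < N := by exact_mod_cast hN
  have hmN' : (m : ℝ) ^ 2 ≤ N := by exact_mod_cast hmN
  have h7 : ‖∑ n ∈ Icc 1 N, ee (t * l n)‖ ≤ ‖∑ k ∈ Icc 1 (m ^ 2), ee (t * l k)‖ + 2 * m := by
    have e : Icc 1 N = Icc 1 (m ^ 2) ∪ Ioc (m ^ 2) N := by
      ext k
      simp only [mem_Icc, mem_union, mem_Ioc]
      omega
    have hd : Disjoint (Icc 1 (m ^ 2)) (Ioc (m ^ 2) N) := by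
      rw [disjoint_left]
      intro k h8 h9
      rw [mem_Icc] at h8
      rw [mem_Ioc] at h9
      omega
    rw [e, sum_union hd]
    refine (norm_add_le _ _).trans (add_le_add le_rfl ?_)
    refine (norm_sum_le _ _).trans ?_
    simp only [norm_ee, sum_const, Nat.card_Ioc, nsmul_eq_mul, mul_one]
    have : N - m ^ 2 ≤ 2 * m := by omega
    exact_mod_cast this
  calc ‖∑ n ∈ Icc 1 N, ee (t * l n)‖ / N ≤ (‖∑ k ∈ Icc 1 (m ^ 2), ee (t * l k)‖ + 2 * m) / N :=
        div_le_div_of_nonneg_right h7 hN0.le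
    _ ≤ (‖∑ k ∈ Icc 1 (m ^ 2), ee (t * l k)‖ + 2 * m) / (m : ℝ) ^ 2 :=
        div_le_div_of_nonneg_left (by positivity) (by positivity) hmN'
    _ = ‖∑ k ∈ Icc 1 (m ^ 2), ee (t * l k)‖ / (m : ℝ) ^ 2 + 2 / m := by
        rw [add_div]
        congr 1
        field_simp

end Pool.Agent.Q138.PS
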