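import Pool.Agent.Q138.PS.ZF
import Pool.Agent.Q117.HH.B

/-!
Exponential sums over the integer parts of the multiples of a separated sequence.
-/

set_option autoImplicit false

namespace Pool.Agent.Q138.PS

open Finset Filter Topology MeasureTheory
open Pool.Agent.Helper602.MK (ee)
open Pool.Agent.Helper602.MK.N_J5b (ee_add norm_ee ee_zero ee_conj ee_int)
open Pool.Agent.Q117.HH (mu av av_tendsto open_lower arc arc_open box_ge mem_arc int_fourier)
open UnitAddTorus (mFourier)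
open AddCircle (haarAddCircle)

/-- `e(-β x)`, cut off at the ends of the unit interval -/
noncomputable def cut (M β x : ℝ) : ℂ := ((min 1 (M * min x (1 - x)) : ℝ) : ℂ) * ee (-(β * x))

theorem cut_cont (M β : ℝ) : Continuous (cut M β) := by
  unfold cut ee
  fun_prop

theorem cut_zero (M β : ℝ) : cut M β 0 = 0 := by
  unfold cut
  simp

theorem cut_one (M β : ℝ) : cut M β 1 = 0 := by
  unfold cut
  simp

theorem cutC_cont (M β : ℝ) : Continuous (AddCircle.liftIco (1 : ℝ) 0 (cut M β)) := by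
  refine AddCircle.liftIco_continuous ?_ (cut_cont M β).continuousOn
  rw [zero_add, cut_zero, cut_one]

theorem coe_fract (y : ℝ) : ((Int.fract y : ℝ) : UnitAddCircle) = (y : UnitAddCircle) := by
  rw [← sub_eq_zero, ← AddCircle.coe_sub, AddCircle.coe_eq_zero_iff]
  refine ⟨-⌊y⌋, ?_⟩
  rw [Int.fract]
  simp

theorem cutC_apply (M β y : ℝ) : AddCircle.liftIco (1 : ℝ) 0 (cut M β) (y : UnitAddCircle) = cut M β (Int.fract y) := by
  rw [← coe_fract, AddCircle.liftIco_coe_apply]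
  rw [zero_add]
  exact ⟨Int.fract_nonneg y, Int.fract_lt_one y⟩

/-- **Integer parts.** -/
theorem floor_av (l : ℕ → ℝ) (hl0 : ∀ n, 0 ≤ l n) (θ β : ℝ) (hθ : 0 < θ)
    (h : ∀ a b : ℤ, (a ≠ 0 ∨ b ≠ 0) → Tendsto (fun N : ℕ => ‖∑ n ∈ Icc 1 N, ee (θ * ((a + b * β) * l n))‖ / N) atTop (𝓝 0)) :
    Tendsto (fun N : ℕ => ‖∑ n ∈ Icc 1 N, ee (β * (⌊θ * l n⌋₊ : ℕ))‖ / N) atTop (𝓝 0) := by
  classical
  obtain ⟨x, hx⟩ : ∃ x : ℕ → Fin 2 → UnitAddCircle, x = fun n => ![((θ * l n : ℝ) : UnitAddCircle),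
    ((β * (θ * l n) : ℝ) : UnitAddCircle)] := ⟨_, rfl⟩
  have hx0 : ∀ n, x n 0 = ((θ * l n : ℝ) : UnitAddCircle) := fun n => by rw [hx]; rfl
  have hx1 : ∀ n, x n 1 = ((β * (θ * l n) : ℝ) : UnitAddCircle) := fun n => by rw [hx]; rfl
  have hpos : ∀ᶠ N : ℕ in atTop, 0 < ∑ _n ∈ Icc 1 N, (1 : ℝ) := by
    filter_upwards [eventually_ge_atTop 1] with N hN
    rw [sum_const, Nat.card_Icc, nsmul_eq_mul, mul_one]
    have : 0 < N + 1 - 1 := by omega
    exact_mod_cast this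
  have hav : ∀ k : Fin 2 → ℤ, k ≠ 0 → Tendsto (fun N : ℕ => av (Icc 1 N) (fun _ => 1) x (mFourier k)) atTop (𝓝 0) := by
    intro k hk
    have hk' : k 0 ≠ 0 ∨ k 1 ≠ 0 := by
      by_contra hcon
      push Not at hcon
      apply hk
      funext i
      fin_cases i
      · exact hcon.1
      · exact hcon.2
    refine squeeze_zero_norm (fun N => ?_) (h (k 0) (k 1) hk')
    have e : ∀ n, mFourier k (x n) = ee (θ * ((k 0 + k 1 * β) * l n)) := by
      intro n
      have h1 : mFourier k (x n) = ∏ i, fourier (k i) (x n i) := rfl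
      rw [h1, Fin.prod_univ_two, hx0, hx1]
      unfold ee
      simp only [fourier_coe_apply, Complex.ofReal_one, div_one]
      rw [← Complex.exp_add]
      congr 1
      push_cast
      ring
    unfold av
    simp only [e, Complex.ofReal_one, one_mul, sum_const, Nat.card_Icc, Nat.add_sub_cancel, nsmul_eq_mul, mul_one]
    rw [norm_div, Complex.norm_real, Real.norm_of_nonneg (Nat.cast_nonneg N)]
  rw [Metric.tendsto_atTop]
  intro ε hε
  obtain ⟨M, hM⟩ : ∃ M : ℝ, M = 8 / ε + 3 := ⟨_, rfl⟩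
  have hM3 : 3 ≤ M := by
    rw [hM]
    have : 0 < 8 / ε := by positivity
    linarith
  have hM0 : 0 < M := by linarith
  have hMε : 2 / M ≤ ε / 4 := by
    rw [div_le_iff₀ hM0, hM]
    have : ε / 4 * (8 / ε + 3) = 2 + 3 * ε / 4 := by
      field_simp
      ring
    rw [this]
    linarith
  -- the continuous function
  obtain ⟨g, hg⟩ : ∃ g : C(Fin 2 → UnitAddCircle, ℂ), ∀ t, g t = AddCircle.liftIco (1 : ℝ) 0 (cut M β) (t 0) * fourier 1 (t 1) :=
    ⟨⟨fun t => AddCircle.liftIco (1 : ℝ) 0 (cut M β) (t 0) * fourier 1 (t 1),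
      ((cutC_cont M β).comp (continuous_apply 0)).mul ((map_continuous (fourier 1)).comp (continuous_apply 1))⟩, fun t => rfl⟩
  have hint : ∫ t, g t ∂mu (Fin 2) = 0 := by
    obtain ⟨F, hF⟩ : ∃ F : Fin 2 → UnitAddCircle → ℂ, F = ![AddCircle.liftIco (1 : ℝ) 0 (cut M β), fun u => fourier 1 u] := ⟨_, rfl⟩
    have h1 : ∀ t : Fin 2 → UnitAddCircle, g t = ∏ i, F i (t i) := by
      intro t
      rw [hg, Fin.prod_univ_two, hF]
      rfl
    simp only [h1]
    unfold mu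
    rw [integral_fintype_prod_eq_prod, Fin.prod_univ_two]
    have h2 : ∫ u : UnitAddCircle, F 1 u ∂haarAddCircle = 0 := by
      rw [hF]
      exact int_fourier 1 one_ne_zero
    rw [h2, mul_zero]
  have hgt := av_tendsto (fun _ => zero_le_one) x hpos hav g
  rw [hint] at hgt
  -- the good points
  obtain ⟨a, ha⟩ : ∃ a : Fin 2 → ℝ, a = ![1 / M, 0] := ⟨_, rfl⟩
  obtain ⟨b, hb⟩ : ∃ b : Fin 2 → ℝ, b = ![1 - 1 / M, 1] := ⟨_, rfl⟩
  have ha0 : a 0 = 1 / M := by rw [ha]; rfl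
  have ha1 : a 1 = 0 := by rw [ha]; rfl
  have hb0 : b 0 = 1 - 1 / M := by rw [hb]; rfl
  have hb1 : b 1 = 1 := by rw [hb]; rfl
  have hM1 : 1 / M ≤ 1 / 3 := one_div_le_one_div_of_le (by norm_num) hM3
  have hM2 : 0 < 1 / M := by positivity
  obtain ⟨U, hU⟩ : ∃ U : Set (Fin 2 → UnitAddCircle), U = Set.pi Set.univ fun i => arc (a i) (b i) := ⟨_, rfl⟩
  have hUo : IsOpen U := by
    rw [hU]
    exact isOpen_set_pi Set.finite_univ fun i _ => arc_open _ _
  have hUm : 1 - 2 / M ≤ (mu (Fin 2)).real U := by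
    have h1 := box_ge (a := a) (b := b) (by
      intro i
      fin_cases i
      · show a 0 ≤ b 0
        rw [ha0, hb0]
        linarith
      · show a 1 ≤ b 1
        rw [ha1, hb1]
        exact zero_le_one) (by
      intro i
      fin_cases i
      · show b 0 ≤ a 0 + 1
        rw [ha0, hb0]
        linarith
      · show b 1 ≤ a 1 + 1
        rw [ha1, hb1]
        norm_num)
    rw [Fin.prod_univ_two, ha0, ha1, hb0, hb1, ← hU] at h1
    refine le_trans (le_of_eq ?_) h1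
    ring
  have hcnt := open_lower (fun _ => zero_le_one) x hpos hav hUo (c := 1 - 2 / M - ε / 4) (by linarith)
  have h5 : ∀ᶠ N : ℕ in atTop, ‖av (Icc 1 N) (fun _ => 1) x g‖ < ε / 4 := by
    have := hgt.norm
    rw [norm_zero] at this
    exact this.eventually_lt_const (by positivity)
  obtain ⟨N₀, hN₀⟩ := eventually_atTop.1 (hcnt.and (h5.and (eventually_ge_atTop 1)))
  refine ⟨N₀, fun N hN => ?_⟩
  obtain ⟨h6, h7, h8⟩ := hN₀ N hN
  have hN0 : (0 : ℝ) < N := by exact_mod_cast h8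
  simp only [sum_const, Nat.card_Icc, Nat.add_sub_cancel, nsmul_eq_mul, mul_one] at h6
  have h9 : ‖∑ n ∈ Icc 1 N, g (x n)‖ < ε / 4 * N := by
    unfold av at h7
    simp only [Complex.ofReal_one, one_mul, sum_const, Nat.card_Icc, Nat.add_sub_cancel, nsmul_eq_mul, mul_one] at h7
    rw [norm_div, Complex.norm_real, Real.norm_of_nonneg (Nat.cast_nonneg N), div_lt_iff₀ hN0] at h7
    exact h7
  -- the differences
  have hval : ∀ n, g (x n) = ((min 1 (M * min (Int.fract (θ * l n)) (1 - Int.fract (θ * l n))) : ℝ) : ℂ) *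
      ee (β * (⌊θ * l n⌋₊ : ℕ)) := by
    intro n
    have hy0 : 0 ≤ θ * l n := mul_nonneg hθ.le (hl0 n)
    have e1 : fourier 1 (x n 1) = ee (β * (θ * l n)) := by
      rw [hx1]
      unfold ee
      simp only [fourier_coe_apply, Complex.ofReal_one, div_one]
      congr 1
      push_cast
      ring
    rw [hg, hx0, cutC_apply, e1]
    unfold cut
    rw [mul_assoc, ← ee_add]
    congr 2
    have e2 : ((⌊θ * l n⌋₊ : ℕ) : ℝ) = θ * l n - Int.fract (θ * l n) := by
      rw [natCast_floor_eq_intCast_floor hy0]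
      rw [Int.fract]
      ring
    rw [e2]
    ring
  have hdiff : ∀ n, ‖ee (β * (⌊θ * l n⌋₊ : ℕ)) - g (x n)‖ ≤ if x n ∈ U then 0 else 1 := by
    intro n
    rw [hval]
    obtain ⟨c, hc⟩ : ∃ c : ℝ, c = min 1 (M * min (Int.fract (θ * l n)) (1 - Int.fract (θ * l n))) := ⟨_, rfl⟩
    have hf0 := Int.fract_nonneg (θ * l n)
    have hf1 := (Int.fract_lt_one (θ * l n)).le
    have hc0 : 0 ≤ c := by
      rw [hc]
      exact le_min zero_le_one (mul_nonneg hM0.le (le_min hf0 (by linarith)))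
    have hc1 : c ≤ 1 := by rw [hc]; exact min_le_left _ _
    rw [← hc]
    have e : ee (β * (⌊θ * l n⌋₊ : ℕ)) - (c : ℂ) * ee (β * (⌊θ * l n⌋₊ : ℕ)) = ((1 - c : ℝ) : ℂ) * ee (β * (⌊θ * l n⌋₊ : ℕ)) := by
      push_cast
      ring
    rw [e, norm_mul, norm_ee, mul_one, Complex.norm_real, Real.norm_of_nonneg (by linarith)]
    split_ifs with hxU
    · rw [hU] at hxU
      have h10 : x n 0 ∈ arc (a 0) (b 0) := hxU 0 (Set.mem_univ 0)
      rw [hx0, ha0, hb0] at h10
      obtain ⟨j, hj1, hj2⟩ := mem_arc h10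
      have h11 : Int.fract (θ * l n) = θ * l n - j := by
        rw [Int.fract_eq_iff]
        exact ⟨by linarith, by linarith, j, by ring⟩
      have h12 : c = 1 := by
        rw [hc]
        apply min_eq_left
        rw [h11]
        have h13 : 1 / M ≤ min (θ * l n - j) (1 - (θ * l n - j)) := le_min hj1.le (by linarith)
        calc (1 : ℝ) = M * (1 / M) := by field_simp
          _ ≤ _ := mul_le_mul_of_nonneg_left h13 hM0.le
      rw [h12, sub_self]
    · linarith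
  have h10 : ‖∑ n ∈ Icc 1 N, ee (β * (⌊θ * l n⌋₊ : ℕ)) - ∑ n ∈ Icc 1 N, g (x n)‖ ≤ (2 / M + ε / 4) * N := by
    rw [← sum_sub_distrib]
    refine (norm_sum_le _ _).trans ((sum_le_sum fun n _ => hdiff n).trans ?_)
    have h11 : ∑ n ∈ Icc 1 N, (if x n ∈ U then (0 : ℝ) else 1) = N - ((Icc 1 N).filter fun n => x n ∈ U).card := by
      have h12 : ∑ n ∈ Icc 1 N, (if x n ∈ U then (0 : ℝ) else 1) = ∑ n ∈ Icc 1 N, (1 - if x n ∈ U then (1 : ℝ) else 0) := by
        refine sum_congr rfl fun n _ => ?_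
        split_ifs <;> simp
      rw [h12, sum_sub_distrib, ← sum_filter, sum_const, sum_const]
      simp
    rw [h11]
    linarith
  rw [Real.dist_eq, sub_zero, abs_of_nonneg (by positivity), div_lt_iff₀ hN0]
  have h12 : ‖∑ n ∈ Icc 1 N, ee (β * (⌊θ * l n⌋₊ : ℕ))‖ ≤ ‖∑ n ∈ Icc 1 N, g (x n)‖ +
      ‖∑ n ∈ Icc 1 N, ee (β * (⌊θ * l n⌋₊ : ℕ)) - ∑ n ∈ Icc 1 N, g (x n)‖ := by
    have := norm_add_le (∑ n ∈ Icc 1 N, g (x n)) (∑ n ∈ Icc 1 N, ee (β * (⌊θ * l n⌋₊ : ℕ)) - ∑ n ∈ Icc 1 N, g (x n))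
    rwa [add_sub_cancel] at this
  have h13 : (2 / M + ε / 4) * N ≤ (ε / 4 + ε / 4) * N := mul_le_mul_of_nonneg_right (by linarith) hN0.le
  nlinarith

/-- **All algebraic irrational frequencies at once**, for almost all multiples of a separated sequence -/
theorem floor_ae (l : ℕ → ℝ) (hl0 : ∀ n, 0 ≤ l n) (δ : ℝ) (hδ : 0 < δ) (hl : ∀ n, l n + δ ≤ l (n + 1)) :
    ∀ᵐ θ : ℝ, 0 < θ → ∀ β : ℝ, IsAlgebraic ℚ β → Irrational β →
      Tendsto (fun N : ℕ => ‖∑ n ∈ Icc 1 N, ee (β * (⌊θ * l n⌋₊ : ℕ))‖ / N) atTop (𝓝 0) := by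
  have hsep : ∀ i k : ℕ, l i + δ * k ≤ l (i + k) := by
    intro i k
    induction k with
    | zero => simp
    | succ k ih =>
      have := hl (i + k)
      rw [← add_assoc]
      push_cast
      linarith
  have hsep' : ∀ i j : ℕ, i < j → δ * ((j : ℝ) - i) ≤ l j - l i := by
    intro i j hij
    have h1 := hsep i (j - i)
    rw [Nat.add_sub_cancel' hij.le, Nat.cast_sub hij.le] at h1
    linarith
  have hcnt : Countable {β : ℝ // IsAlgebraic ℚ β ∧ Irrational β} :=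
    ((Algebraic.countable ℚ ℝ).mono fun c (hc : IsAlgebraic ℚ c ∧ Irrational c) => hc.1).to_subtype
  have key : ∀ q : {β : ℝ // IsAlgebraic ℚ β ∧ Irrational β} × {p : ℤ × ℤ // p.1 ≠ 0 ∨ p.2 ≠ 0}, ∀ᵐ θ : ℝ,
      Tendsto (fun N : ℕ => ‖∑ n ∈ Icc 1 N, ee (θ * ((q.2.1.1 + q.2.1.2 * q.1.1) * l n))‖ / N) atTop (𝓝 0) := by
    rintro ⟨⟨β, hβ1, hβ2⟩, ⟨⟨a, b⟩, hab⟩⟩
    have hc : (a : ℝ) + b * β ≠ 0 := by
      intro h0
      rcases eq_or_ne b 0 with hb | hb
      · simp only [hb, Int.cast_zero, zero_mul, add_zero, Int.cast_eq_zero] at h0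
        rcases hab with h | h
        · exact h h0
        · exact h hb
      · have hb' : (b : ℝ) ≠ 0 := by exact_mod_cast hb
        apply hβ2
        refine ⟨-(a : ℚ) / b, ?_⟩
        push_cast
        rw [div_eq_iff hb']
        linarith
    have hcp : 0 < |(a : ℝ) + b * β| := abs_pos.2 hc
    refine metric_weyl (fun n => ((a : ℝ) + b * β) * l n) (|(a : ℝ) + b * β| * δ) (by positivity) ?_
    intro i j hij
    have h1 := hsep' i j hij
    have h2 : (0 : ℝ) ≤ (j : ℝ) - i := by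
      have : (i : ℝ) < j := by exact_mod_cast hij
      linarith
    rw [← mul_sub, abs_mul, mul_assoc]
    refine mul_le_mul_of_nonneg_left ?_ hcp.le
    exact h1.trans (le_abs_self _)
  filter_upwards [ae_all_iff.2 key] with θ hθ hθ0 β hβ1 hβ2
  exact floor_av l hl0 θ β hθ0 fun a b hab => hθ ⟨⟨β, hβ1, hβ2⟩, ⟨(a, b), hab⟩⟩

end Pool.Agent.Q138.PS
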