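import Pool.Agent.Q138.PS.ZG
import Pool.Agent.Q117.HH.E

/-!
Windows around `√r (2 m + 1)` for the members of a sequence of natural numbers with small Weyl sums.
-/

set_option autoImplicit false

namespace Pool.Agent.Q138.PS.MS

open Finset Filter Topology MeasureTheory Polynomial
open Pool.Agent.Helper602.MK (ee)
open Pool.Agent.Helper602.MK.N_J5b (ee_add norm_ee)
open Pool.Agent.Q117.HH
open UnitAddTorus (mFourier)

variable {ι : Type} [Fintype ι]

/-- the Weyl sums of the sequence `m` with algebraic irrational frequencies are small -/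
def Weyl (m : ℕ → ℕ) : Prop := ∀ β : ℝ, IsAlgebraic ℚ β → Irrational β →
  Tendsto (fun N : ℕ => ‖∑ n ∈ Icc 1 N, ee (β * (m n : ℕ))‖ / N) atTop (𝓝 0)

theorem Weyl.affine {m : ℕ → ℕ} (h : Weyl m) {A : ℕ} (hA : 1 ≤ A) (C : ℕ) : Weyl fun n => A * m n + C := by
  intro β hβ1 hβ2
  have h1 := h (β * A) (hβ1.mul (isAlgebraic_natCast A)) (by
    have : A ≠ 0 := by omega
    exact hβ2.mul_natCast this)
  refine h1.congr fun N => ?_
  congr 1
  have e : ∀ n, ee (β * ((A * m n + C : ℕ) : ℝ)) = ee (β * A * (m n : ℕ)) * ee (β * C) := by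
    intro n
    rw [← ee_add]
    congr 1
    push_cast
    ring
  simp only [e]
  rw [← sum_mul, norm_mul_ee]

theorem alg_sqrt (r : ℕ) : IsAlgebraic ℚ √(r : ℝ) := by
  refine IsAlgebraic.of_pow (n := 2) (by norm_num) ?_
  rw [Real.sq_sqrt (Nat.cast_nonneg r)]
  exact isAlgebraic_natCast r

open Classical in
/-- **Several windows at once**, along the sequence. -/
theorem master_seq {m : ℕ → ℕ} (hm : Weyl m) {r : ι → ℕ} (hr : ∀ i, ¬ IsSquare (r i))
    (hrr : ∀ i j, i ≠ j → ¬ IsSquare (r i * r j)) {q : ι → ℕ} (hq : ∀ i, 0 < q i) {A B : ι → ℝ}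
    (hAB : ∀ i, A i ≤ B i) (hB : ∀ i, B i ≤ A i + 1) {c : ℝ} (hc : c < ∏ i, (B i - A i)) :
    ∀ᶠ N : ℕ in atTop, c * N ≤ ((Icc 1 N).filter fun k : ℕ => ∀ i, Arc (q i) (A i) (B i) (r i) (m k : ℤ)).card := by
  set θ : ι → ℝ := fun i => ((2 / (q i : ℚ) : ℚ) : ℝ) * √(r i : ℝ) with hθ
  set β : ι → ℝ := fun i => √(r i : ℝ) / q i with hβ
  have hirr : ∀ k : ι → ℤ, k ≠ 0 → Irrational (∑ i, (k i : ℝ) * θ i) := fun k hk =>
    irr_sq hr hrr (fun i => 2 / (q i : ℚ)) (fun i => by have := (hq i).ne'; positivity) k hk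
  have halg : ∀ k : ι → ℤ, IsAlgebraic ℚ (∑ i, (k i : ℝ) * θ i) := by
    intro k
    refine (IsIntegral.sum _ fun i _ => IsAlgebraic.isIntegral ?_).isAlgebraic
    refine (isAlgebraic_intCast (k i)).mul (IsAlgebraic.mul ?_ (alg_sqrt (r i)))
    exact isAlgebraic_algebraMap (A := ℝ) (2 / (q i : ℚ) : ℚ)
  set U : Set (ι → UnitAddCircle) := Set.pi Set.univ fun i => arc (A i) (B i) with hU
  have hUo : IsOpen U := isOpen_set_pi Set.finite_univ fun i _ => arc_open _ _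
  have hpos : ∀ᶠ N : ℕ in atTop, 0 < ∑ _n ∈ Icc 1 N, (1 : ℝ) := by
    filter_upwards [eventually_ge_atTop 1] with N hN
    rw [sum_const, Nat.card_Icc, nsmul_eq_mul, mul_one]
    have : 0 < N + 1 - 1 := by omega
    exact_mod_cast this
  have hav : ∀ k : ι → ℤ, k ≠ 0 → Tendsto (fun N => av (Icc 1 N) (fun _ => 1) (fun n => pt θ β X (m n))
      (mFourier k)) atTop (𝓝 0) := by
    intro k hk
    refine squeeze_zero_norm (fun N => ?_) (hm _ (halg k) (hirr k hk))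
    unfold av
    simp only [mF_pt, Complex.ofReal_one, one_mul, eval_X, sum_const, Nat.card_Icc, nsmul_eq_mul, mul_one,
      Nat.add_sub_cancel, Int.cast_natCast]
    rw [← sum_mul, norm_div, norm_mul_ee, Complex.norm_real, Real.norm_of_nonneg (Nat.cast_nonneg _)]
  have h3 := open_lower (w := fun _ => 1) (fun _ => zero_le_one) (fun n => pt θ β X (m n)) hpos hav hUo
    (hc.trans_le (box_ge hAB hB))
  filter_upwards [h3] with N hN
  simp only [sum_const, Nat.card_Icc, nsmul_eq_mul, mul_one, Nat.add_sub_cancel] at hN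
  refine hN.trans (Nat.cast_le.2 (card_le_card fun k hk => ?_))
  rw [mem_filter] at hk ⊢
  refine ⟨hk.1, fun i => ?_⟩
  have h4 : pt θ β X (m k) i ∈ arc (A i) (B i) := hk.2 i (Set.mem_univ i)
  obtain ⟨j, hj⟩ := mem_arc h4
  have hq0 : (q i : ℝ) ≠ 0 := by exact_mod_cast (hq i).ne'
  have e1 : √(r i : ℝ) * (2 * (((m k : ℕ) : ℤ) : ℝ) + 1) / q i = θ i * (((X : ℤ[X]).eval ((m k : ℕ) : ℤ) : ℤ) : ℝ) + β i := by
    simp only [hθ, hβ, eval_X]
    push_cast
    field_simp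
  refine ⟨j, ?_⟩
  rw [e1]; exact hj

theorem cnt_of {P : ℕ → Prop} [DecidablePred P] {Q : ℕ → Prop} {c c' : ℝ} (hc : c < c')
    (h : ∀ᶠ N : ℕ in atTop, c' * N ≤ ((Icc 1 N).filter P).card) (hPQ : ∀ᶠ n : ℕ in atTop, P n → Q n) :
    ∀ᶠ N : ℕ in atTop, c * N ≤ Set.ncard {n : ℕ | 1 ≤ n ∧ n ≤ N ∧ Q n} := by
  obtain ⟨n₀, hn₀⟩ := eventually_atTop.1 hPQ
  have hcc : 0 < c' - c := by linarith
  filter_upwards [h, tendsto_natCast_atTop_atTop.eventually_ge_atTop ((n₀ : ℝ) / (c' - c))] with N h1 h2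
  rw [div_le_iff₀ hcc] at h2
  have hfin : {n : ℕ | 1 ≤ n ∧ n ≤ N ∧ Q n}.Finite := (Set.finite_Iic N).subset fun n hn => hn.2.1
  have h3 : ((Icc 1 N).filter P).card ≤ Set.ncard {n : ℕ | 1 ≤ n ∧ n ≤ N ∧ Q n} + n₀ := by
    classical
    have h4 : (Icc 1 N).filter P ⊆ hfin.toFinset ∪ range n₀ := by
      intro n hn
      rw [mem_filter, mem_Icc] at hn
      rw [mem_union]
      by_cases hk : n < n₀
      · exact Or.inr (mem_range.2 hk)
      · refine Or.inl ?_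
        rw [Set.Finite.mem_toFinset]
        exact ⟨hn.1.1, hn.1.2, hn₀ n (not_lt.1 hk) hn.2⟩
    have h5 := (card_le_card h4).trans (card_union_le _ _)
    rw [card_range, ← Set.ncard_eq_toFinset_card _ hfin] at h5
    exact h5
  have h4 : (((Icc 1 N).filter P).card : ℝ) ≤ (Set.ncard {n : ℕ | 1 ≤ n ∧ n ≤ N ∧ Q n} : ℝ) + n₀ := by exact_mod_cast h3
  linarith

/-- **All `10 ≤ r ≤ 36` at once.** -/
theorem joint_seq {Q : ℕ → Prop}
    (hQ : ∀ m : ℕ, 0 < m → (∀ r : ℕ, 10 ≤ r → r ≤ 36 → ¬ IsSquare r → ∀ d, ¬ Win r m d) → Q m) {m : ℕ → ℕ} (hm : Weyl m)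
    (hm0 : ∀ᶠ n in atTop, 0 < m n) :
    ∀ᶠ N : ℕ in atTop, kap * N ≤ Set.ncard {n : ℕ | 1 ≤ n ∧ n ≤ N ∧ Q (m n)} := by
  classical
  have h2 : kap < ∏ s : {s // s ∈ SS}, (ub s - ua s) := by
    have := kap_pos
    unfold kap at this ⊢
    linarith
  obtain ⟨c', h3, h4⟩ := exists_between h2
  have hsq1 : ∀ s : ℕ, Squarefree s → IsSquare s → s = 1 := by
    rintro s h1 ⟨t, rfl⟩
    have := h1 t dvd_rfl
    rw [Nat.isUnit_iff] at this
    rw [this]
  have hnsq : ∀ s ∈ SS, s ≠ 1 := by decide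
  have g1 := master_seq hm (ι := {s // s ∈ SS}) (r := fun s => s) (q := fun _ => 2) (A := fun s => ua s)
    (B := fun s => ub s) (fun s h => hnsq s s.2 (hsq1 _ (SS_sf s s.2) h)) SS_pair
    (fun _ => by norm_num) (fun s => (ua_lt s).le) (fun s => ub_le s) h4
  refine cnt_of h3 g1 ?_
  filter_upwards [hm0] with n hn hk
  refine hQ _ hn fun r h3 h4 h5 d => ?_
  have h6 := not_win (z := ((m n : ℕ) : ℤ)) (by exact_mod_cast hn) (all_arcs (fun s hs => hk ⟨s, hs⟩) h3 h4 h5) d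
  simpa using h6

/-- **Several `r` with different squarefree parts.** -/
theorem several_seq {Q : ℕ → Prop} {R T : Finset ℕ} (hR : ∀ r ∈ R, 10 ≤ r) (hsq : ∀ r ∈ R, ¬ IsSquare r)
    (hpair : ∀ r ∈ R, ∀ s ∈ R, r ≠ s → ¬ IsSquare (r * s))
    (hQ : ∀ m : ℕ, 0 < m → (∀ r ∈ R, r ∈ T → ∀ d, ¬ Win3 r m d) → (∀ r ∈ R, r ∉ T → ∀ d, ¬ Win r m d) → Q m)
    {m : ℕ → ℕ} (hm : Weyl m) (hm0 : ∀ᶠ n in atTop, 0 < m n) {ε : ℝ} (hε : 0 < ε) :
    ∀ᶠ N : ℕ in atTop, (∏ r ∈ R, (1 - be T r) - ε) * N ≤ Set.ncard {n : ℕ | 1 ≤ n ∧ n ≤ N ∧ Q (m n)} := by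
  classical
  set q : {r // r ∈ R} → ℕ := fun r => if (r : ℕ) ∈ T then 6 else 2 with hq
  set A : {r // r ∈ R} → ℝ := fun r => if (r : ℕ) ∈ T then 1 / 2 + lo r / 6 else (lo r - 1) / 2 with hA
  set B : {r // r ∈ R} → ℝ := fun r => if (r : ℕ) ∈ T then 3 / 2 else (1 - up r) / 2 with hB
  have hBA : ∀ r, B r - A r = 1 - be T r := by
    intro r
    simp only [hA, hB]
    unfold be
    split_ifs <;> ring
  have hprod : ∏ r, (B r - A r) = ∏ r ∈ R, (1 - be T r) := by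
    rw [← Finset.prod_coe_sort R]
    exact prod_congr rfl fun r _ => hBA r
  have g1 := master_seq hm (ι := {r // r ∈ R}) (r := fun r => r) (q := q) (A := A) (B := B)
    (fun r => hsq r r.2) (fun r s hrs => hpair r r.2 s s.2 fun h => hrs (Subtype.ext h))
    (fun r => by simp only [hq]; split_ifs <;> norm_num)
    (fun r => by have h1 := be_lt (T := T) (hR r r.2); linarith [hBA r])
    (fun r => by have h1 := be_nonneg (T := T) (hR r r.2); linarith [hBA r])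
    (c := ∏ r ∈ R, (1 - be T r) - ε / 2) (by rw [hprod]; linarith)
  refine cnt_of (c' := ∏ r ∈ R, (1 - be T r) - ε / 2) (by linarith) g1 ?_
  filter_upwards [hm0] with n hn hk
  refine hQ _ hn (fun r hr hT d => ?_) fun r hr hT d => ?_
  · have h3 := hk ⟨r, hr⟩
    simp only [hq, hA, hB, if_pos hT] at h3
    have := not_win3 (z := ((m n : ℕ) : ℤ)) (by exact_mod_cast hn) h3 d
    simpa using this
  · have h3 := hk ⟨r, hr⟩
    simp only [hq, hA, hB, if_neg hT] at h3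
    have := not_win (z := ((m n : ℕ) : ℤ)) (by exact_mod_cast hn) h3 d
    simpa using this

/-- **One large `r`.** -/
theorem one_seq {Q : ℕ → Prop} {r : ℕ} (hsq : ¬ IsSquare r) {δ : ℝ} (hδ0 : 0 < δ) (hδ1 : δ < 1)
    (h : ∀ m : ℕ, (∀ d : ℕ, δ ≤ |2 * (d : ℝ) + 3 - √(r : ℝ) * (2 * m + 1)|) → Q m) {m : ℕ → ℕ} (hm : Weyl m)
    {c : ℝ} (hc : c < 1 - δ) : ∀ᶠ N : ℕ in atTop, c * N ≤ Set.ncard {n : ℕ | 1 ≤ n ∧ n ≤ N ∧ Q (m n)} := by
  classical
  obtain ⟨c', h3, h4⟩ := exists_between hc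
  have g1 := master_seq hm (ι := Unit) (r := fun _ => r) (q := fun _ => 2) (A := fun _ => (δ - 1) / 2)
    (B := fun _ => (1 - δ) / 2) (fun _ => hsq) (fun _ _ h => absurd rfl h) (fun _ => by norm_num)
    (fun _ => by linarith) (fun _ => by linarith) (c := c') (by
      rw [Fintype.prod_unique]; linarith)
  refine cnt_of h3 g1 (Eventually.of_forall fun n hk => ?_)
  refine h _ fun d => ?_
  obtain ⟨j, h5, h6⟩ := hk ()
  push_cast at h5 h6
  rcases le_or_gt 0 ((d : ℤ) - j + 1) with h7 | h7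
  · have h8 : (0 : ℝ) ≤ d - j + 1 := by exact_mod_cast h7
    refine le_trans ?_ (le_abs_self _)
    linarith
  · have h8 : (d : ℝ) - j + 1 ≤ -1 := by
      have : (d : ℤ) - j + 1 ≤ -1 := by omega
      exact_mod_cast this
    refine le_trans ?_ (neg_le_abs _)
    linarith

/-- the integer parts of almost all multiples of a separated sequence -/
theorem weyl_ae (l : ℕ → ℝ) (hl0 : ∀ n, 0 ≤ l n) (δ : ℝ) (hδ : 0 < δ) (hl : ∀ n, l n + δ ≤ l (n + 1)) :
    ∀ᵐ θ : ℝ, 0 < θ → (Weyl fun n => ⌊θ * l n⌋₊) ∧ ∀ᶠ n : ℕ in atTop, 0 < ⌊θ * l n⌋₊ := by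
  filter_upwards [floor_ae l hl0 δ hδ hl] with θ hθ h0
  refine ⟨hθ h0, ?_⟩
  have hsep : ∀ k : ℕ, l 0 + δ * k ≤ l k := by
    intro k
    induction k with
    | zero => simp
    | succ k ih =>
      have := hl k
      push_cast
      linarith
  have h1 : Tendsto (fun k : ℕ => δ * (k : ℝ)) atTop atTop := tendsto_natCast_atTop_atTop.const_mul_atTop hδ
  filter_upwards [h1.eventually_ge_atTop (1 / θ)] with n hn
  rw [Nat.floor_pos]
  rw [div_le_iff₀ h0] at hn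
  have h2 := hsep n
  have h3 := hl0 0
  nlinarith

end Pool.Agent.Q138.PS.MS
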