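import Pool.Agent.Q138.PS.UR
import Pool.Agent.Q138.PS.ZD

/-!
Sets of density zero that depend on a parameter: along `⌊α P(m)⌋` and near the numbers `θ l_j`.
-/

set_option autoImplicit false

namespace Pool.Agent.Q138.PS

open Finset Filter MeasureTheory Topology

/-- **Near multiples of a sequence, general form.** -/
theorem seq_bc (B : ℕ → ℕ → Prop) (l r b : ℕ → ℝ) (hl : ∀ᶠ j in atTop, 1 ≤ l j) (hr0 : ∀ᶠ j in atTop, 0 ≤ r j)
    (hr : ∀ᶠ j in atTop, r j ≤ l j)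
    (h : ∀ k : ℕ, ∃ D : ℝ, ∀ᶠ j : ℕ in atTop,
      ({n : ℕ | 1 ≤ n ∧ n ≤ ⌊((k : ℝ) + 1) * l j⌋₊ ∧ B j n}.ncard : ℝ) ≤ D * (l j * b j))
    (hsum : Summable fun j : ℕ => r j * b j) :
    ∀ᵐ θ : ℝ, 0 < θ → ∀ᶠ j : ℕ in atTop, ∀ n : ℕ, 1 ≤ n → |(n : ℝ) - θ * l j| ≤ r j → ¬ B j n := by
  have key : ∀ k : ℕ, ∀ᵐ θ : ℝ, ∀ᶠ j : ℕ in atTop,
      θ ∉ {θ : ℝ | 0 < θ ∧ θ < k ∧ ∃ n : ℕ, 1 ≤ n ∧ |(n : ℝ) - θ * l j| ≤ r j ∧ B j n} := by
    intro k
    obtain ⟨D, hD⟩ := h k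
    have hk0 : (0 : ℝ) ≤ k := Nat.cast_nonneg k
    have hev : ∀ᶠ j : ℕ in atTop, volume {θ : ℝ | 0 < θ ∧ θ < k ∧ ∃ n : ℕ, 1 ≤ n ∧ |(n : ℝ) - θ * l j| ≤ r j ∧
        B j n} ≤ ENNReal.ofReal (2 * D * (r j * b j)) := by
      filter_upwards [hl, hr0, hr, hD] with j h1 h2 h3 hcount
      have hl0 : 0 < l j := by linarith
      have hfin : {n : ℕ | 1 ≤ n ∧ n ≤ ⌊((k : ℝ) + 1) * l j⌋₊ ∧ B j n}.Finite :=
        (Set.finite_Iic ⌊((k : ℝ) + 1) * l j⌋₊).subset fun n hn => hn.2.1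
      have hsub : {θ : ℝ | 0 < θ ∧ θ < k ∧ ∃ n : ℕ, 1 ≤ n ∧ |(n : ℝ) - θ * l j| ≤ r j ∧ B j n} ⊆
          ⋃ n ∈ hfin.toFinset, Set.Icc (((n : ℝ) - r j) / l j) (((n : ℝ) + r j) / l j) := by
        rintro θ ⟨a1, a2, n, a3, a4, a5⟩
        have a6 := abs_le.1 a4
        simp only [Set.mem_iUnion]
        refine ⟨n, ?_, ?_⟩
        · rw [Set.Finite.mem_toFinset]
          refine ⟨a3, ?_, a5⟩
          apply Nat.le_floor
          have : θ * l j ≤ k * l j := mul_le_mul_of_nonneg_right a2.le hl0.le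
          linarith [a6.2]
        · rw [Set.mem_Icc, div_le_iff₀ hl0, le_div_iff₀ hl0]
          constructor <;> linarith [a6.1, a6.2]
      refine (measure_mono hsub).trans ((measure_biUnion_finset_le _ _).trans ?_)
      have hone : ∀ n ∈ hfin.toFinset, volume (Set.Icc (((n : ℝ) - r j) / l j) (((n : ℝ) + r j) / l j)) ≤
          ENNReal.ofReal (2 * r j / l j) := by
        intro n _
        rw [Real.volume_Icc]
        refine ENNReal.ofReal_le_ofReal (le_of_eq ?_)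
        rw [← sub_div]
        congr 1
        ring
      refine (Finset.sum_le_sum hone).trans ?_
      rw [Finset.sum_const, nsmul_eq_mul, ← Set.ncard_eq_toFinset_card _ hfin, ← ENNReal.ofReal_natCast,
        ← ENNReal.ofReal_mul (Nat.cast_nonneg _)]
      refine ENNReal.ofReal_le_ofReal ?_
      calc ({n : ℕ | 1 ≤ n ∧ n ≤ ⌊((k : ℝ) + 1) * l j⌋₊ ∧ B j n}.ncard : ℝ) * (2 * r j / l j)
          ≤ D * (l j * b j) * (2 * r j / l j) := mul_le_mul_of_nonneg_right hcount (by positivity)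
        _ = 2 * D * (r j * b j) := by
            field_simp
    obtain ⟨j₀, hj₀⟩ := eventually_atTop.1 hev
    have hs' := ((summable_nat_add_iff j₀).2 (hsum.mul_left (2 * D))).tsum_ofReal_ne_top
    have hsum' : ∑' j : ℕ, volume {θ : ℝ | 0 < θ ∧ θ < k ∧ ∃ n : ℕ, 1 ≤ n ∧ |(n : ℝ) - θ * l (j + j₀)| ≤ r (j + j₀) ∧
        B (j + j₀) n} ≠ ⊤ :=
      ne_top_of_le_ne_top hs' (ENNReal.tsum_le_tsum fun j => hj₀ (j + j₀) (by omega))
    filter_upwards [ae_eventually_notMem hsum'] with θ hθ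
    obtain ⟨j₁, hj₁⟩ := eventually_atTop.1 hθ
    refine eventually_atTop.2 ⟨j₁ + j₀, fun j hj => ?_⟩
    have := hj₁ (j - j₀) (by omega)
    rwa [Nat.sub_add_cancel (by omega)] at this
  filter_upwards [ae_all_iff.2 key] with θ hθ h0
  obtain ⟨k, hk⟩ := exists_nat_gt θ
  filter_upwards [hθ k] with j hj n h1 h2 h3
  exact hj ⟨h0, hk, n, h1, h2, h3⟩

/-- **exceptional sets of size `K N (log log N) ^ k / log N`, uniformly in `K`** -/
theorem exc_mult (q : ℕ) (hq : 2 ≤ q) (X : ℕ → ℕ → Prop) (k : ℕ) (C : ℝ) (hC : 0 < C)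
    (hX : ∀ K : ℕ, 1 ≤ K → ∀ y : ℕ, 16 ≤ y → cn (X K) y ≤ C * K * Real.log (Real.log y) ^ k / Real.log y * y) :
    ∃ E : Set ℝ, dimH E ≤ ENNReal.ofReal (q / (q + 1 / ((q : ℝ) * 2 ^ (q - 1)))) ∧ ∀ α : ℝ, 0 < α → α ∉ E →
      ∃ η : ℝ, 0 < η ∧ ∀ᶠ N : ℕ in atTop, ∀ P : Polynomial ℤ, P.natDegree = q →
      0 < P.leadingCoeff → (∀ j, |((P.coeff j : ℤ) : ℝ)| ≤ (N : ℝ) ^ η) → ∀ K : ℕ, 1 ≤ K →
      cnP (X K) α P N ≤ 20 * 2 ^ k * C * K * Real.log (Real.log N) ^ k / Real.log N * N := by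
  classical
  obtain ⟨E, hE, hg⟩ := abs_transfer q hq (ι := ℕ) (fun s => ind (X s)) (fun s m => by
      rw [abs_of_nonneg (ind_nonneg _ _)]
      exact ind_le _ _) 2 (by norm_num) (fun η N => range (⌊(N : ℝ) ^ η⌋₊ + 1)) (fun η hη a b hab => by
        refine range_subset_range.2 (Nat.succ_le_succ (Nat.floor_mono ?_))
        exact Real.rpow_le_rpow (Nat.cast_nonneg _) (by exact_mod_cast hab) hη.le) (fun η hη => by
        have ht : Tendsto (fun N : ℕ => (N : ℝ) ^ η) atTop atTop :=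
          (tendsto_rpow_atTop hη).comp tendsto_natCast_atTop_atTop
        filter_upwards [ht.eventually_ge_atTop 2, eventually_ge_atTop 1] with N hN hN1
        rw [card_range]
        push_cast
        have h1 : ((⌊(N : ℝ) ^ η⌋₊ : ℕ) : ℝ) ≤ (N : ℝ) ^ η := Nat.floor_le (by positivity)
        have h2 : (N : ℝ) ^ (2 * η) = (N : ℝ) ^ η * (N : ℝ) ^ η := by
          rw [← Real.rpow_add (by exact_mod_cast hN1)]
          congr 1
          ring
        rw [h2]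
        nlinarith)
  refine ⟨E, hE, fun α hα hαE => ?_⟩
  obtain ⟨η, hη, -, h1⟩ := hg α hα hαE
  refine ⟨η, hη, ?_⟩
  have hlog : Tendsto (fun N : ℕ => Real.log (Real.log N)) atTop atTop :=
    Real.tendsto_log_atTop.comp (Real.tendsto_log_atTop.comp tendsto_natCast_atTop_atTop)
  have hlo : ∀ b : ℝ, 0 < b → ∀ c : ℝ, 0 < c → ∀ᶠ N : ℕ in atTop, Real.log N ≤ c * (N : ℝ) ^ b := by
    intro b hb c hc
    have h2 := (isLittleO_log_rpow_atTop hb).bound hc
    filter_upwards [tendsto_natCast_atTop_atTop.eventually h2, eventually_ge_atTop 1] with N hN hN1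
    have hN1r : (1 : ℝ) ≤ N := by exact_mod_cast hN1
    rw [Real.norm_of_nonneg (Real.log_nonneg hN1r), Real.norm_of_nonneg (by positivity)] at hN
    exact hN
  set D : ℝ := 5 * 2 ^ k * C with hD
  have hD0 : 0 < D := by positivity
  filter_upwards [h1, eventually_ge_atTop 256, hlog.eventually_ge_atTop (Real.log ((q : ℝ) + 1)),
    hlog.eventually_ge_atTop 1, hlo η hη D hD0, hlo (1 / 2) (by norm_num) D hD0] with N hN hN256 hN1 hN2 hN3 hN4
  intro P hdeg hlead hco K hK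
  have hKr : (1 : ℝ) ≤ K := by exact_mod_cast hK
  have hNr : (256 : ℝ) ≤ N := by exact_mod_cast hN256
  have hN0 : (0 : ℝ) < N := by linarith
  have hlN0 : 0 < Real.log N := Real.log_pos (by linarith)
  set L : ℝ := Real.log (Real.log N) with hL
  have hLk : (1 : ℝ) ≤ L ^ k := one_le_pow₀ hN2
  have hKL : (1 : ℝ) ≤ K * L ^ k := one_le_mul_of_one_le_of_one_le hKr hLk
  rcases lt_or_ge ((N : ℝ) ^ η) K with hbig | hsmall
  · refine (cn_le_self' _ _).trans ?_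
    have h5 : Real.log N ≤ 20 * 2 ^ k * C * K * L ^ k := by
      calc Real.log N ≤ D * (N : ℝ) ^ η := hN3
        _ ≤ D * K := by gcongr
        _ ≤ D * K * L ^ k := le_mul_of_one_le_right (by positivity) hLk
        _ ≤ 4 * (D * K * L ^ k) := by
          have : 0 ≤ D * K * L ^ k := by positivity
          linarith
        _ = 20 * 2 ^ k * C * K * L ^ k := by rw [hD]; ring
    exact le_mul_of_one_le_left hN0.le ((one_le_div hlN0).2 h5)
  have h2 := hN K (mem_range.2 (Nat.lt_succ_of_le (Nat.le_floor hsmall))) P hdeg hlead hco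
    (2 * 2 ^ k * (C * K) * L ^ k / Real.log N) √(N : ℝ)
    (by positivity) (Real.sqrt_nonneg _) (fun y hy => by
      rw [cn_sum, abs_of_nonneg (cn_nonneg _ _)]
      exact cn_mid (X K) (by positivity) (hX K hK) hN256 hN1 y hy)
  have e1 : ∑ n ∈ Icc 1 N, ind (X K) ⌊α * ((P.eval (n : ℤ) : ℤ) : ℝ)⌋₊ = cnP (X K) α P N := by
    unfold cnP
    rw [← cn_sum]
    rfl
  rw [e1] at h2
  replace h2 := (le_abs_self _).trans h2
  have h3 : (N : ℝ) ^ (1 - η) ≤ D * (K * L ^ k) / Real.log N * N := by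
    rw [div_mul_eq_mul_div, le_div_iff₀ hlN0]
    calc (N : ℝ) ^ (1 - η) * Real.log N ≤ (N : ℝ) ^ (1 - η) * (D * (N : ℝ) ^ η) := by gcongr
      _ = D * N := by
        rw [mul_left_comm, ← Real.rpow_add hN0]
        norm_num
      _ ≤ D * (K * L ^ k) * N := by
        have : D * 1 ≤ D * (K * L ^ k) := by gcongr
        nlinarith
  have h4 : √(N : ℝ) ≤ D * (K * L ^ k) / Real.log N * N := by
    rw [div_mul_eq_mul_div, le_div_iff₀ hlN0]
    calc √(N : ℝ) * Real.log N ≤ √(N : ℝ) * (D * (N : ℝ) ^ ((1 : ℝ) / 2)) := by gcongr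
      _ = D * N := by
        rw [← Real.sqrt_eq_rpow, mul_left_comm, Real.mul_self_sqrt hN0.le]
      _ ≤ D * (K * L ^ k) * N := by
        have : D * 1 ≤ D * (K * L ^ k) := by gcongr
        nlinarith
  calc cnP (X K) α P N ≤ 5 * (2 * 2 ^ k * (C * K) * L ^ k / Real.log N) * N + √(N : ℝ) + (N : ℝ) ^ (1 - η) := h2
    _ ≤ 5 * (2 * 2 ^ k * (C * K) * L ^ k / Real.log N) * N + D * (K * L ^ k) / Real.log N * N +
      D * (K * L ^ k) / Real.log N * N := by linarith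
    _ = 20 * 2 ^ k * C * K * L ^ k / Real.log N * N := by
      rw [hD]
      ring

end Pool.Agent.Q138.PS
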