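import Pool.Agent.Q138.PS.ZI
import Pool.Agent.Results.MP_61a569_nt.SmallSummands

/-!
The numbers `n` with a small summand `k` for which `q(n, k)` is prime: the starting estimate in the form `cn`.
-/

set_option autoImplicit false

namespace Pool.Agent.Q138.PS.SmallS

open Finset Filter Topology
open Pool.Agent.Q138.PS
open Pool.Agent.Results.MP_61a569_nt.SmallSummands (q exceptions)

theorem cn_eq (S : ℕ → ℕ → Prop)
    (hS : ∀ K n, S K n ↔ ∃ k : ℕ, 1 ≤ k ∧ k + 2 < n ∧ (k ≤ K ∨ n - k ≤ K) ∧ (q n k).Prime) (K y : ℕ) :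
    cn (S K) y = (exceptions y K : ℝ) := by
  classical
  unfold cn exceptions
  refine congrArg _ (congrArg _ ?_)
  ext n
  simp only [mem_filter]
  rw [hS]

theorem rate (S : ℕ → ℕ → Prop)
    (hS : ∀ K n, S K n ↔ ∃ k : ℕ, 1 ≤ k ∧ k + 2 < n ∧ (k ≤ K ∨ n - k ≤ K) ∧ (q n k).Prime) :
    ∃ C : ℝ, 0 < C ∧ ∀ K : ℕ, 1 ≤ K → ∀ y : ℕ, 16 ≤ y →
      cn (S K) y ≤ C * K * Real.log (Real.log y) ^ 6 / Real.log y * y := by
  obtain ⟨C₀, hC₀, X₀, h⟩ := Pool.Agent.Results.MP_61a569_nt.SmallSummands.result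
  refine ⟨max C₀ (Real.log (X₀ + 1)), lt_of_lt_of_le hC₀ (le_max_left _ _), fun K hK y hy => ?_⟩
  have hKr : (1 : ℝ) ≤ K := by exact_mod_cast hK
  have hyr : (16 : ℝ) ≤ y := by exact_mod_cast hy
  have hl16 : Real.exp 1 ≤ Real.log 16 := by
    have h2 : Real.log 16 = 4 * Real.log 2 := by
      rw [show (16 : ℝ) = 2 ^ 4 by norm_num, Real.log_pow]
      norm_num
    have h3 := Real.log_two_gt_d9
    have h4 := Real.exp_one_lt_d9
    linarith
  have hly : Real.exp 1 ≤ Real.log y := hl16.trans (Real.log_le_log (by norm_num) hyr)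
  have hly0 : 0 < Real.log y := lt_of_lt_of_le (Real.exp_pos 1) hly
  have hll : 1 ≤ Real.log (Real.log y) := by
    rw [Real.le_log_iff_exp_le hly0]
    exact hly
  rcases le_or_gt X₀ y with h1 | h1
  · rw [cn_eq S hS]
    refine (h y h1 K).trans ?_
    have h2 : C₀ * K * y * Real.log (Real.log y) ^ 6 / Real.log y = C₀ * K * Real.log (Real.log y) ^ 6 / Real.log y * y := by ring
    rw [h2]
    gcongr
    exact le_max_left _ _
  · refine (cn_le_self' _ _).trans (le_mul_of_one_le_left (by linarith) ((one_le_div hly0).2 ?_))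
    have h2 : Real.log y ≤ Real.log (X₀ + 1) := by
      refine Real.log_le_log (by linarith) ?_
      have : (y : ℝ) ≤ X₀ := by exact_mod_cast h1.le
      linarith
    have h3 : 0 ≤ Real.log ((X₀ : ℝ) + 1) := hly0.le.trans h2
    calc Real.log y ≤ Real.log (X₀ + 1) := h2
      _ ≤ Real.log (X₀ + 1) * (K * Real.log (Real.log y) ^ 6) :=
        le_mul_of_one_le_right h3 (one_le_mul_of_one_le_of_one_le hKr (one_le_pow₀ hll))
      _ ≤ max C₀ (Real.log (X₀ + 1)) * (K * Real.log (Real.log y) ^ 6) := by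
        gcongr
        exact le_max_right _ _
      _ = max C₀ (Real.log (X₀ + 1)) * K * Real.log (Real.log y) ^ 6 := by ring

end Pool.Agent.Q138.PS.SmallS
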