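import Pool.Agent.Q273.CG.Dil
import Pool.Agent.Q273.CG.Two
import Pool.Agent.Q273.CG.PrW

/-!
Prescribed patterns of primes `⌊α x_n⌋ + 1` along the dilates of a sequence: the construction of `Q273.CG.Pat` (helper273) with
the integer part replaced by the next integer.
-/

set_option autoImplicit false

namespace Pool.Agent.Q138.PS.Pat1

open Pool.Agent.Q273.CG
open Set Filter Topology MeasureTheory
open scoped ENNReal NNReal

theorem ceil_core : ∃ C : ℝ, 1 < C ∧ ∀ ε : ℝ, 0 < ε → ε < 1 → ∃ c : ℝ, 0 < c ∧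
    ∀ x : ℕ → ℝ, (∀ n, 0 < x n) → Tendsto x atTop atTop → (∀ᶠ n in atTop, (x n) ^ C ≤ x (n + 1)) →
    ∀ S : Set ℕ, ∀ u v : ℝ, 0 < u → u < v → ENNReal.ofReal (1 - ε) ≤
      dimH {α : ℝ | u < α ∧ α < v ∧ ∀ᶠ n in atTop, (n ∈ S → (⌊α * x n⌋₊ + 1).Prime) ∧
        (n ∉ S → Far (c * f (x n)) (α * x n))} := by
  classical
  obtain ⟨δ, hδ0, hδ1, hpw⟩ := prime_window
  have hC8 : 8 ≤ 4 / δ := by rw [le_div_iff₀ hδ0]; linarith
  refine ⟨4 / δ, by linarith, fun ε h0 h1 => ?_⟩
  set θ : ℝ := ε / 4 with hθ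
  set κ : ℝ := ε * δ / 8 with hκ
  have hθ0 : 0 < θ := by positivity
  have hθ1 : θ < 1 / 4 := by rw [hθ]; linarith
  have hκ0 : 0 < κ := by positivity
  have hκ1 : κ ≤ ε / 16 := by rw [hκ]; nlinarith
  have hεδ : 0 < ε * δ := by positivity
  obtain ⟨c, hc, hw⟩ := windows θ hθ0 (by linarith) 0
  refine ⟨c, hc, fun x hx hxt hxC S u v hu huv => ?_⟩
  set a : ℝ := (3 * u + v) / 4 with ha
  set b : ℝ := (u + 3 * v) / 4 with hb
  have hvu : 0 < v - u := by linarith
  have hba : b - a = (v - u) / 2 := by rw [ha, hb]; ring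
  have ha0 : 0 < a := by rw [ha]; linarith
  -- thresholds
  have hthr : ∀ᶠ y : ℝ in atTop, (16 ≤ y ^ θ ∧ 16 ≤ y ^ (2 * θ - κ)) ∧
      ((8 ≤ y ^ (3 * δ / 4) ∧ 16 ≤ y ^ (1 - θ - δ / 4)) ∧ (1 ≤ y ∧ 4 / (v - u) ≤ y)) ∧
      2 ≤ y ^ (1 - δ - κ) := by
    refine ((((tendsto_rpow_atTop hθ0).eventually_ge_atTop _).and
      ((tendsto_rpow_atTop (by rw [hθ]; linarith)).eventually_ge_atTop _))).and ((((
      (tendsto_rpow_atTop (by positivity)).eventually_ge_atTop _).and
      ((tendsto_rpow_atTop (by linarith)).eventually_ge_atTop _)).and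
      ((eventually_ge_atTop _).and (eventually_ge_atTop _))).and
      ((tendsto_rpow_atTop (by linarith)).eventually_ge_atTop _))
  obtain ⟨N0, hN0⟩ := eventually_atTop.1 ((hxt.eventually (hw.and ((hpw κ hκ0 u v hu huv).and
    hthr))).and hxC)
  set y : ℕ → ℝ := fun k => x (N0 + k) with hy
  have hypos : ∀ k, 0 < y k := fun k => hx _
  have hthr' : ∀ k, _ := fun k => (hN0 (N0 + k) (by omega)).1.2.2
  have hy1 : ∀ k, 1 ≤ y k := fun k => (hthr' k).2.1.2.1
  -- `y k ≤ (y (k+1))^(δ/4)`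
  have hyδ : ∀ k, y k ≤ (y (k + 1)) ^ (δ / 4) := by
    intro k
    have h2 : (y k) ^ (4 / δ) ≤ y (k + 1) := (hN0 (N0 + k) (by omega)).2
    have h3 := Real.rpow_le_rpow (Real.rpow_nonneg (hypos k).le _) h2 (show 0 ≤ δ / 4 by positivity)
    rw [← Real.rpow_mul (hypos k).le] at h3
    have h4 : 4 / δ * (δ / 4) = 1 := by field_simp
    rwa [h4, Real.rpow_one] at h3
  set P : ℕ → Prop := fun k => N0 + (k + 1) ∈ S with hP
  set ℓ : ℕ → ℝ := fun k => 1 / (2 * y k) with hℓ
  set W : ℕ → ℝ := fun k => if P k then (y (k + 1)) ^ (-δ) else 2 * (y (k + 1)) ^ (θ - 1) with hW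
  set τ : ℕ → ℝ := fun k => if P k then 1 / (2 * y (k + 1)) else W k with hτ
  set T : ℕ → ℕ := fun k => ⌊ℓ k / (2 * W k)⌋₊ with hT
  set K : ℕ → ℕ := fun k => if P k then ⌊(y (k + 1)) ^ (1 - δ - κ)⌋₊ else 1 with hK
  have hypow : ∀ (k : ℕ) (z : ℝ), 0 < (y k) ^ z := fun k z => Real.rpow_pos_of_pos (hypos k) z
  have hℓpos : ∀ n, 0 < ℓ n := fun n => by have := hypos n; simp only [hℓ]; positivity
  have hWpos : ∀ n, 0 < W n := fun n => by
    simp only [hW]
    split_ifs
    · exact hypow _ _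
    · have := hypow (n + 1) (θ - 1)
      positivity
  have hτpos : ∀ n, 0 < τ n := fun n => by
    simp only [hτ]
    split_ifs
    · have := hypos (n + 1)
      positivity
    · exact hWpos n
  -- `y W ≤ (y (k+1))^(-...)`
  have hyW : ∀ k, 8 * (y k * W k) ≤ 1 := by
    intro k
    have e0 := hyδ k
    obtain ⟨-, ⟨⟨e1, e2⟩, -⟩, -⟩ := hthr' (k + 1)
    simp only [hW]
    split_ifs with hp
    · have e3 : y k * (y (k + 1)) ^ (-δ) ≤ (y (k + 1)) ^ (-(3 * δ / 4)) := by
        calc y k * (y (k + 1)) ^ (-δ) ≤ (y (k + 1)) ^ (δ / 4) * (y (k + 1)) ^ (-δ) :=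
              mul_le_mul_of_nonneg_right e0 (hypow _ _).le
          _ = _ := by
              rw [← Real.rpow_add (hypos _)]
              congr 1
              ring
      have e4 : (y (k + 1)) ^ (-(3 * δ / 4)) * (y (k + 1)) ^ (3 * δ / 4) = 1 := by
        rw [← Real.rpow_add (hypos _)]
        simp
      have e5 := hypow (k + 1) (-(3 * δ / 4))
      have e1' : 8 ≤ (y (k + 1)) ^ (3 * δ / 4) := e1
      calc 8 * (y k * (y (k + 1)) ^ (-δ)) ≤ 8 * (y (k + 1)) ^ (-(3 * δ / 4)) := by linarith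
        _ ≤ (y (k + 1)) ^ (3 * δ / 4) * (y (k + 1)) ^ (-(3 * δ / 4)) :=
            mul_le_mul_of_nonneg_right e1' e5.le
        _ = 1 := by rw [mul_comm]; exact e4
    · have e3 : y k * (2 * (y (k + 1)) ^ (θ - 1)) ≤ 2 * (y (k + 1)) ^ (-(1 - θ - δ / 4)) := by
        calc y k * (2 * (y (k + 1)) ^ (θ - 1)) = 2 * (y k * (y (k + 1)) ^ (θ - 1)) := by ring
          _ ≤ 2 * ((y (k + 1)) ^ (δ / 4) * (y (k + 1)) ^ (θ - 1)) := by
              apply mul_le_mul_of_nonneg_left _ (by norm_num)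
              exact mul_le_mul_of_nonneg_right e0 (hypow _ _).le
          _ = _ := by
              rw [← Real.rpow_add (hypos _)]
              congr 2
              ring
      have e4 : (y (k + 1)) ^ (-(1 - θ - δ / 4)) * (y (k + 1)) ^ (1 - θ - δ / 4) = 1 := by
        rw [← Real.rpow_add (hypos _)]
        simp
      have e5 := hypow (k + 1) (-(1 - θ - δ / 4))
      have e2' : 16 ≤ (y (k + 1)) ^ (1 - θ - δ / 4) := e2
      calc 8 * (y k * (2 * (y (k + 1)) ^ (θ - 1))) ≤ 16 * (y (k + 1)) ^ (-(1 - θ - δ / 4)) := by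
            linarith
        _ ≤ (y (k + 1)) ^ (1 - θ - δ / 4) * (y (k + 1)) ^ (-(1 - θ - δ / 4)) :=
            mul_le_mul_of_nonneg_right e2' e5.le
        _ = 1 := by rw [mul_comm]; exact e4
  have hTy : ∀ k, 1 / (8 * (y k * W k)) ≤ T k ∧ (T k : ℝ) ≤ ℓ k / (2 * W k) ∧ 0 < T k := by
    intro k
    have e0 := hyW k
    have e1 := hypos k
    have e2 := hWpos k
    have e3 : ℓ k / (2 * W k) = 2 * (1 / (8 * (y k * W k))) := by
      simp only [hℓ]
      field_simp
      norm_num
    have e4 : 1 ≤ 1 / (8 * (y k * W k)) := by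
      rw [le_div_iff₀ (by positivity)]
      linarith
    have e5 : (T k : ℝ) ≤ ℓ k / (2 * W k) := Nat.floor_le (by rw [e3]; linarith)
    have e6 : ℓ k / (2 * W k) < T k + 1 := Nat.lt_floor_add_one _
    have e7 : 1 / (8 * (y k * W k)) ≤ T k := by linarith
    refine ⟨e7, e5, ?_⟩
    have : (0 : ℝ) < T k := by linarith
    exact_mod_cast this
  have hKP : ∀ k, P k → (y (k + 1)) ^ (1 - δ - κ) / 2 ≤ K k := by
    intro k hp
    simp only [hK, if_pos hp]
    have e1 : 2 ≤ (y (k + 1)) ^ (1 - δ - κ) := (hthr' (k + 1)).2.2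
    have e2 : (y (k + 1)) ^ (1 - δ - κ) < ⌊(y (k + 1)) ^ (1 - δ - κ)⌋₊ + 1 := Nat.lt_floor_add_one _
    linarith
  have hKpos : ∀ k, 0 < K k := by
    intro k
    by_cases hp : P k
    · have e1 := hKP k hp
      have e2 : 2 ≤ (y (k + 1)) ^ (1 - δ - κ) := (hthr' (k + 1)).2.2
      have : (0 : ℝ) < K k := by linarith
      exact_mod_cast this
    · simp only [hK, if_neg hp]
      norm_num
  set s : ℝ≥0 := ⟨1 - ε, by linarith⟩ with hs
  have hsr : (s : ℝ) = 1 - ε := rfl
  have hs0 : 0 < s := by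
    have : (0 : ℝ) < (s : ℝ) := by rw [hsr]; linarith
    exact_mod_cast this
  set Q : ℕ → ℝ := fun k => ∏ i ∈ Finset.range k, ((T i : ℝ) * K i) with hQ
  have hstep : ∀ k, (y (k + 1)) ^ (1 - 2 * θ) / y k ≤ (T k : ℝ) * K k := by
    intro k
    obtain ⟨⟨e1, e2⟩, -⟩ := hthr' (k + 1)
    have e1' : 16 ≤ (y (k + 1)) ^ θ := e1
    have e2' : 16 ≤ (y (k + 1)) ^ (2 * θ - κ) := e2
    have e3 := (hTy k).1
    have e4 := hypos k
    have e5 := hypos (k + 1)
    by_cases hp : P k
    · have e6 := hKP k hp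
      have e7 : W k = (y (k + 1)) ^ (-δ) := by simp only [hW, if_pos hp]
      have e8 : 1 / (8 * (y k * W k)) = (y (k + 1)) ^ δ / (8 * y k) := by
        rw [e7, Real.rpow_neg e5.le]
        have := (hypow (k + 1) δ).ne'
        field_simp
      rw [e8] at e3
      have e9 : (y (k + 1)) ^ (1 - 2 * θ) * 16 ≤ (y (k + 1)) ^ δ * (y (k + 1)) ^ (1 - δ - κ) := by
        calc (y (k + 1)) ^ (1 - 2 * θ) * 16 ≤ (y (k + 1)) ^ (1 - 2 * θ) * (y (k + 1)) ^ (2 * θ - κ) :=
              mul_le_mul_of_nonneg_left e2' (hypow _ _).le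
          _ = (y (k + 1)) ^ δ * (y (k + 1)) ^ (1 - δ - κ) := by
              rw [← Real.rpow_add e5, ← Real.rpow_add e5]
              congr 1
              ring
      calc (y (k + 1)) ^ (1 - 2 * θ) / y k = (y (k + 1)) ^ (1 - 2 * θ) * 16 / (16 * y k) := by
            field_simp
        _ ≤ (y (k + 1)) ^ δ * (y (k + 1)) ^ (1 - δ - κ) / (16 * y k) :=
            div_le_div_of_nonneg_right e9 (by positivity)
        _ = (y (k + 1)) ^ δ / (8 * y k) * ((y (k + 1)) ^ (1 - δ - κ) / 2) := by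
            field_simp
            norm_num
        _ ≤ (T k : ℝ) * K k :=
            mul_le_mul e3 e6 (by have := hypow (k + 1) (1 - δ - κ); positivity) (Nat.cast_nonneg _)
    · have e6 : K k = 1 := by simp only [hK, if_neg hp]
      have e7 : W k = 2 * (y (k + 1)) ^ (θ - 1) := by simp only [hW, if_neg hp]
      have e8 : 1 / (8 * (y k * W k)) = (y (k + 1)) ^ (1 - θ) / (16 * y k) := by
        rw [e7, show θ - 1 = -(1 - θ) by ring, Real.rpow_neg e5.le]
        have := (hypow (k + 1) (1 - θ)).ne'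
        field_simp
        norm_num
      rw [e8] at e3
      rw [e6, Nat.cast_one, mul_one]
      refine le_trans ?_ e3
      have e9 : (y (k + 1)) ^ (1 - 2 * θ) * 16 ≤ (y (k + 1)) ^ (1 - θ) := by
        calc (y (k + 1)) ^ (1 - 2 * θ) * 16 ≤ (y (k + 1)) ^ (1 - 2 * θ) * (y (k + 1)) ^ θ :=
              mul_le_mul_of_nonneg_left e1' (hypow _ _).le
          _ = (y (k + 1)) ^ (1 - θ) := by
              rw [← Real.rpow_add e5]
              congr 1
              ring
      rw [div_le_div_iff₀ e4 (by positivity)]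
      calc (y (k + 1)) ^ (1 - 2 * θ) * (16 * y k) = (y (k + 1)) ^ (1 - 2 * θ) * 16 * y k := by ring
        _ ≤ _ := mul_le_mul_of_nonneg_right e9 e4.le
  have hQge : ∀ k, (y 0) ^ (-(1 - ε)) * (y k) ^ (1 - ε) ≤ Q k := by
    intro k
    induction k with
    | zero =>
      simp only [hQ, Finset.range_zero, Finset.prod_empty]
      rw [← Real.rpow_add (hypos 0)]
      simp
    | succ k ih =>
      simp only [hQ] at ih ⊢
      rw [Finset.prod_range_succ]
      have e4 := hypos k
      have e5 := hypos (k + 1)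
      have e6 : (y (k + 1)) ^ (1 - ε) ≤ (y k) ^ (1 - ε) * ((y (k + 1)) ^ (1 - 2 * θ) / y k) := by
        have e7 : (y k) ^ ε ≤ (y (k + 1)) ^ (ε / 2) := by
          have e8 : y k ≤ (y (k + 1)) ^ (1 / 2 : ℝ) := (hyδ k).trans
            (Real.rpow_le_rpow_of_exponent_le (hy1 _) (by linarith))
          have e9 := Real.rpow_le_rpow e4.le e8 h0.le
          rw [← Real.rpow_mul e5.le] at e9
          convert e9 using 2
          ring
        have e8 : (y k) ^ (1 - ε) = y k / (y k) ^ ε := by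
          rw [Real.rpow_sub e4, Real.rpow_one]
        have e9 : (y (k + 1)) ^ (1 - 2 * θ) = (y (k + 1)) ^ (1 - ε) * (y (k + 1)) ^ (ε / 2) := by
          rw [← Real.rpow_add e5]
          congr 1
          rw [hθ]
          ring
        have e10 := hypow k ε
        have e11 := hypow (k + 1) (1 - ε)
        have e12 : (y k) ^ (1 - ε) * ((y (k + 1)) ^ (1 - 2 * θ) / y k) =
            (y (k + 1)) ^ (1 - ε) * ((y (k + 1)) ^ (ε / 2) / (y k) ^ ε) := by
          rw [e8, e9]
          field_simp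
        rw [e12]
        apply le_mul_of_one_le_right e11.le
        rw [le_div_iff₀ e10]
        linarith
      have e13 := hypow 0 (-(1 - ε))
      calc (y 0) ^ (-(1 - ε)) * (y (k + 1)) ^ (1 - ε)
          ≤ (y 0) ^ (-(1 - ε)) * ((y k) ^ (1 - ε) * ((y (k + 1)) ^ (1 - 2 * θ) / y k)) :=
            mul_le_mul_of_nonneg_left e6 e13.le
        _ = ((y 0) ^ (-(1 - ε)) * (y k) ^ (1 - ε)) * ((y (k + 1)) ^ (1 - 2 * θ) / y k) := by ring
        _ ≤ _ := mul_le_mul ih (hstep k) (div_nonneg (hypow _ _).le e4.le)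
            (Finset.prod_nonneg fun i _ => by positivity)
  have hyt : Tendsto y atTop atTop := by
    have := (tendsto_add_atTop_iff_nat N0).2 hxt
    refine this.congr fun k => ?_
    simp only [hy]
    rw [add_comm]
  set c1 : ℝ := (y 0) ^ (-(1 - ε)) with hc1
  have hc1pos : 0 < c1 := hypow 0 _
  have key := le_dimH_two (a := a) (b := b) (c := c1 / 32) (s := s) hs0
    (by rw [hsr]; linarith) (by positivity) ℓ W τ T K
    (fun k => {α | (N0 + (k + 1) ∈ S → (⌊α * y (k + 1)⌋₊ + 1).Prime) ∧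
      (N0 + (k + 1) ∉ S → Far (c * f (y (k + 1))) (α * y (k + 1)))}) hℓpos ?_ ?_ hWpos hτpos
      (fun k => (hTy k).2.2) hKpos ?_ ?_ ?_ ?_ ?_
  · have h2 : ENNReal.ofReal (1 - ε) = (s : ℝ≥0∞) := by
      rw [← hsr]
      exact ENNReal.ofReal_coe_nnreal
    rw [h2]
    refine key.trans (dimH_mono ?_)
    rintro α ⟨hα1, hα2, hα3⟩
    refine ⟨by linarith, by linarith, ?_⟩
    rw [eventually_atTop]
    refine ⟨N0 + 1, fun n hn => ?_⟩
    obtain ⟨k, rfl⟩ := Nat.exists_eq_add_of_le hn
    rw [show N0 + 1 + k = N0 + (k + 1) by ring]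
    exact hα3 k
  · -- `ℓ → 0`
    have h3 : Tendsto (fun k => (y k)⁻¹) atTop (𝓝 0) := hyt.inv_tendsto_atTop
    refine squeeze_zero (fun k => (hℓpos k).le) (fun k => ?_) h3
    simp only [hℓ]
    rw [inv_eq_one_div]
    apply one_div_le_one_div_of_le (hypos k)
    linarith [hypos k]
  · -- `ℓ 0 ≤ b - a`
    have h2 : 4 / (v - u) ≤ y 0 := (hthr' 0).2.1.2.2
    rw [hba]
    simp only [hℓ]
    rw [div_le_iff₀ hvu] at h2
    rw [div_le_iff₀ (by have := hypos 0; positivity)]
    linarith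
  · intro k
    have h2 := (hTy k).2.1
    rw [le_div_iff₀ (by have := hWpos k; positivity)] at h2
    linarith
  · -- products tend to infinity
    have h2 : Tendsto (fun k => c1 * (y k) ^ (1 - ε)) atTop atTop :=
      ((tendsto_rpow_atTop (by linarith)).comp hyt).const_mul_atTop hc1pos
    exact tendsto_atTop_mono hQge h2
  · -- first dimension condition
    intro k
    have e1 := hQge k
    have e2 := (hTy k).1
    have e3 := hWpos k
    have e4 := hypos k
    have e5 : 1 / (8 * y k) ≤ T k * W k := by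
      calc 1 / (8 * y k) = 1 / (8 * (y k * W k)) * W k := by field_simp
        _ ≤ _ := mul_le_mul_of_nonneg_right e2 e3.le
    have e6 : (1 / (8 * y k)) ^ (1 - ε) ≤ (T k * W k) ^ (s : ℝ) := by
      rw [hsr]
      exact Real.rpow_le_rpow (by positivity) e5 (by linarith)
    have e7 : (1 / (8 * y k)) ^ (1 - ε) = (8 : ℝ) ^ (-(1 - ε)) * ((y k) ^ (1 - ε))⁻¹ := by
      rw [one_div, Real.inv_rpow (by positivity), Real.mul_rpow (by norm_num) e4.le, mul_inv,
        Real.rpow_neg (by norm_num)]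
    have e8 : (1 : ℝ) / 8 ≤ (8 : ℝ) ^ (-(1 - ε)) := by
      calc (1 : ℝ) / 8 = (8 : ℝ) ^ (-1 : ℝ) := by rw [Real.rpow_neg_one]; norm_num
        _ ≤ _ := Real.rpow_le_rpow_of_exponent_le (by norm_num) (by linarith)
    have e9 := hypow k (1 - ε)
    calc c1 / 32 ≤ c1 * (1 / 8) := by linarith
      _ ≤ c1 * (8 : ℝ) ^ (-(1 - ε)) := mul_le_mul_of_nonneg_left e8 hc1pos.le
      _ = (c1 * (y k) ^ (1 - ε)) * ((8 : ℝ) ^ (-(1 - ε)) * ((y k) ^ (1 - ε))⁻¹) := by
          field_simp
      _ = (c1 * (y k) ^ (1 - ε)) * (1 / (8 * y k)) ^ (1 - ε) := by rw [e7]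
      _ ≤ Q k * (T k * W k) ^ (s : ℝ) :=
          mul_le_mul e1 e6 (Real.rpow_nonneg (by positivity) _)
            (le_trans (by positivity) e1)
  · -- second dimension condition
    intro k
    have e1 := hQge k
    have e2 := (hTy k).1
    have e3 := hWpos k
    have e4 := hypos k
    have e5 := hypos (k + 1)
    have e9 := hypow k (1 - ε)
    have e0 := hyW k
    have hQpos : 0 < Q k := lt_of_lt_of_le (by positivity) e1
    -- `K τ ≥ W λ / 4` with `λ = (y (k+1))^(-κ)` or `1`, `(y W)^(-ε) λ ≥ 1`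
    obtain ⟨lam, hl0, hl1, hl2⟩ : ∃ lam : ℝ, 0 < lam ∧ W k * lam / 4 ≤ K k * τ k ∧
        (y k * W k) ^ ε ≤ lam := by
      by_cases hp : P k
      · have e6 := hKP k hp
        have e7 : W k = (y (k + 1)) ^ (-δ) := by simp only [hW, if_pos hp]
        have e8 : τ k = 1 / (2 * y (k + 1)) := by simp only [hτ, if_pos hp]
        refine ⟨(y (k + 1)) ^ (-κ), hypow _ _, ?_, ?_⟩
        · rw [e7, e8]
          calc (y (k + 1)) ^ (-δ) * (y (k + 1)) ^ (-κ) / 4
              = (y (k + 1)) ^ (1 - δ - κ) / 2 * (1 / (2 * y (k + 1))) := by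
                rw [show 1 - δ - κ = -δ + -κ + 1 by ring, Real.rpow_add e5, Real.rpow_add e5,
                  Real.rpow_one]
                field_simp
                norm_num
            _ ≤ _ := mul_le_mul_of_nonneg_right e6 (by positivity)
        · have e10 : y k * W k ≤ (y (k + 1)) ^ (-(3 * δ / 4)) := by
            rw [e7]
            calc y k * (y (k + 1)) ^ (-δ) ≤ (y (k + 1)) ^ (δ / 4) * (y (k + 1)) ^ (-δ) :=
                  mul_le_mul_of_nonneg_right (hyδ k) (hypow _ _).le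
              _ = _ := by
                  rw [← Real.rpow_add (hypos _)]
                  congr 1
                  ring
          calc (y k * W k) ^ ε ≤ ((y (k + 1)) ^ (-(3 * δ / 4))) ^ ε :=
                Real.rpow_le_rpow (by positivity) e10 h0.le
            _ = (y (k + 1)) ^ (-(3 * δ / 4) * ε) := (Real.rpow_mul e5.le _ _).symm
            _ ≤ (y (k + 1)) ^ (-κ) := by
                apply Real.rpow_le_rpow_of_exponent_le (hy1 _)
                rw [hκ]
                nlinarith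
      · have e6 : K k = 1 := by simp only [hK, if_neg hp]
        have e8 : τ k = W k := by simp only [hτ, if_neg hp]
        refine ⟨1, one_pos, ?_, ?_⟩
        · rw [e6, e8, Nat.cast_one]
          linarith
        · apply Real.rpow_le_one (by positivity) _ h0.le
          linarith
    have e10 : (W k * lam / 4) ^ (1 - ε) ≤ (K k * τ k) ^ (s : ℝ) := by
      rw [hsr]
      exact Real.rpow_le_rpow (by positivity) hl1 (by linarith)
    have e11 : (W k * lam / 4) ^ (1 - ε) = (W k) ^ (1 - ε) * lam ^ (1 - ε) / (4 : ℝ) ^ (1 - ε) := by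
      rw [Real.div_rpow (by positivity) (by norm_num), Real.mul_rpow e3.le hl0.le]
    have e12 : (4 : ℝ) ^ (1 - ε) ≤ 4 := by
      calc (4 : ℝ) ^ (1 - ε) ≤ (4 : ℝ) ^ (1 : ℝ) :=
            Real.rpow_le_rpow_of_exponent_le (by norm_num) (by linarith)
        _ = 4 := Real.rpow_one 4
    -- `lam ^ (1 - ε) ≥ (y W)^ε` if `lam ≤ 1`, in general `lam^(1-ε) ≥ (yW)^(ε)`
    have hyW1 : y k * W k ≤ 1 := by
      have : 0 < y k * W k := by positivity
      linarith
    have e13 : (y k * W k) ^ ε ≤ lam ^ (1 - ε) := by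
      rcases le_or_gt lam 1 with hlam | hlam
      · refine hl2.trans ?_
        calc lam = lam ^ (1 : ℝ) := (Real.rpow_one _).symm
          _ ≤ lam ^ (1 - ε) := Real.rpow_le_rpow_of_exponent_ge hl0 hlam (by linarith)
      · calc (y k * W k) ^ ε ≤ 1 := Real.rpow_le_one (by positivity) hyW1 h0.le
          _ ≤ lam ^ (1 - ε) := Real.one_le_rpow hlam.le (by linarith)
    have e14 : (y k) ^ (1 - ε) * (1 / (8 * (y k * W k))) * ((W k) ^ (1 - ε) * (y k * W k) ^ ε) = 1 / 8 := by
      have e15 : (y k) ^ (1 - ε) * (W k) ^ (1 - ε) = (y k * W k) ^ (1 - ε) :=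
        (Real.mul_rpow e4.le e3.le).symm
      have e16 : (y k * W k) ^ (1 - ε) * (y k * W k) ^ ε = y k * W k := by
        rw [← Real.rpow_add (by positivity)]
        norm_num
      calc (y k) ^ (1 - ε) * (1 / (8 * (y k * W k))) * ((W k) ^ (1 - ε) * (y k * W k) ^ ε)
          = ((y k) ^ (1 - ε) * (W k) ^ (1 - ε)) * (y k * W k) ^ ε / (8 * (y k * W k)) := by ring
        _ = 1 / 8 := by
            rw [e15, e16]
            field_simp
    have e17 := Real.rpow_pos_of_pos e3 (1 - ε)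
    have e18 : 0 < (y k * W k) ^ ε := Real.rpow_pos_of_pos (by positivity) _
    calc c1 / 32 = c1 * (1 / 8) * (1 / 4) := by ring
      _ = (c1 * (y k) ^ (1 - ε)) * (1 / (8 * (y k * W k))) *
            ((W k) ^ (1 - ε) * (y k * W k) ^ ε / 4) := by rw [← e14]; ring
      _ ≤ Q k * T k * ((W k) ^ (1 - ε) * lam ^ (1 - ε) / (4 : ℝ) ^ (1 - ε)) := by
          apply mul_le_mul
          · exact mul_le_mul e1 e2 (by positivity) hQpos.le
          · apply div_le_div₀ (by positivity) _ (by positivity) e12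
            exact mul_le_mul_of_nonneg_left e13 e17.le
          · positivity
          · positivity
      _ ≤ Q k * T k * (K k * τ k) ^ (s : ℝ) := by
          rw [← e11]
          exact mul_le_mul_of_nonneg_left e10 (by positivity)
  · -- the children
    intro k w hw1 hw2
    obtain ⟨⟨h3, h4, -⟩, -⟩ := hN0 (N0 + (k + 1)) (by omega)
    have hXeq : x (N0 + (k + 1)) = y (k + 1) := rfl
    rw [hXeq] at h3 h4
    set X : ℝ := y (k + 1) with hX
    have hX0 : 0 < X := hypos _
    have hw0 : 0 < w := by linarith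
    have hWk := hWpos k
    have hwv : w ≤ v := by
      have : b ≤ v := by rw [hb]; linarith
      linarith
    have huw : u ≤ w := by
      have : u ≤ a := by rw [ha]; linarith
      linarith
    have hℓk : ℓ (k + 1) * X = 1 / 2 := by
      simp only [hℓ]
      rw [← hX]
      field_simp
    by_cases hp : P k
    · have hv4 : 4 / (v - u) ≤ X := (hthr' (k + 1)).2.1.2.2
      have hwX : w + 1 / X ≤ v := by
        have g1 : 1 / X ≤ (v - u) / 4 := by
          rw [div_le_iff₀ hvu] at hv4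
          rw [div_le_iff₀ hX0]
          linarith
        have g2 : w ≤ b := by linarith
        have g3 : v - b = (v - u) / 4 := by rw [hb]; ring
        linarith
      obtain ⟨φ, hφ1, hφ2⟩ := h4 (w + 1 / X) (by have : 0 < 1 / X := by positivity
                                                 linarith) hwX
      have hsh : (w + 1 / X) * X = w * X + 1 := by field_simp
      rw [hsh] at hφ1
      have e6 : K k = ⌊X ^ (1 - δ - κ)⌋₊ := by simp only [hK, if_pos hp]; rfl
      have e7 : W k = X ^ (-δ) := by simp only [hW, if_pos hp]; rfl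
      have e8 : τ k = 1 / (2 * X) := by simp only [hτ, if_pos hp]; rfl
      rw [e6, e7, e8]
      refine ⟨fun j => ((φ j : ℝ) - 1) / X, fun j hj => ?_, fun i j hij hj => ?_⟩
      · obtain ⟨g1, g2, g3⟩ := hφ1 j hj
        have g4 : ((φ j : ℝ) - 1) / X * X = (φ j : ℝ) - 1 := by field_simp
        have hφ0 : 1 ≤ φ j := g1.one_lt.le
        refine ⟨?_, ?_, ?_⟩
        · rw [le_div_iff₀ hX0]
          linarith
        · have g5 : (((φ j : ℝ) - 1) / X + ℓ (k + 1)) * X ≤ (w + X ^ (-δ)) * X := by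
            rw [add_mul, add_mul, g4, hℓk]
            have g6 : X ^ (-δ) * X = X ^ (1 - δ) := by
              rw [show 1 - δ = -δ + 1 by ring, Real.rpow_add hX0, Real.rpow_one]
            rw [g6]
            linarith
          exact le_of_mul_le_mul_right g5 hX0
        · rintro α ⟨hα1, hα2⟩
          have g5 : (φ j : ℝ) - 1 ≤ α * X := by
            rw [div_le_iff₀ hX0] at hα1
            exact hα1
          have g6 : α * X < φ j := by
            have g7 : α * X ≤ (((φ j : ℝ) - 1) / X + ℓ (k + 1)) * X := mul_le_mul_of_nonneg_right hα2 hX0.le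
            rw [add_mul, g4, hℓk] at g7
            linarith
          have g9 : ((φ j - 1 : ℕ) : ℝ) = (φ j : ℝ) - 1 := by
            rw [Nat.cast_sub hφ0, Nat.cast_one]
          have g8 : ⌊α * X⌋₊ = φ j - 1 := by
            rw [Nat.floor_eq_iff (by
              have : (1 : ℝ) ≤ φ j := by exact_mod_cast hφ0
              linarith)]
            rw [g9]
            exact ⟨g5, by linarith⟩
          refine ⟨fun _ => by rw [g8, Nat.sub_add_cancel hφ0]; exact g1, fun h => absurd hp h⟩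
      · have g1 := hφ2 i j hij hj
        have g2 : (φ i : ℝ) + ((j : ℝ) - i) ≤ φ j := by
          have : ((φ i + (j - i) : ℕ) : ℝ) ≤ (φ j : ℝ) := by exact_mod_cast g1
          push_cast [Nat.cast_sub hij.le] at this
          linarith
        have g3 : (1 : ℝ) ≤ (j : ℝ) - i := by
          have : ((i + 1 : ℕ) : ℝ) ≤ (j : ℝ) := by exact_mod_cast hij
          push_cast at this
          linarith
        have g4 : (((φ i : ℝ) - 1) / X + ℓ (k + 1) + ((j : ℝ) - i) * (1 / (2 * X))) * X ≤ ((φ j : ℝ) - 1) / X * X := by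
          have g5 : ((φ j : ℝ) - 1) / X * X = (φ j : ℝ) - 1 := by field_simp
          have g6 : ((φ i : ℝ) - 1) / X * X = (φ i : ℝ) - 1 := by field_simp
          have g7 : ((j : ℝ) - i) * (1 / (2 * X)) * X = ((j : ℝ) - i) / 2 := by field_simp
          rw [add_mul, add_mul, g5, g6, g7, hℓk]
          linarith
        exact le_of_mul_le_mul_right g4 hX0
    · obtain ⟨n, -, hn2, hn3, hn4⟩ := h3 1 0 le_rfl
        (fun p hp hp1 => absurd (Nat.dvd_one.1 hp1) hp.one_lt.ne')
        (by simpa using Real.one_le_rpow (hy1 (k + 1)) (by positivity : 0 ≤ θ / 2))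
        (w * X) (by positivity)
      have e6 : K k = 1 := by simp only [hK, if_neg hp]
      have e7 : W k = 2 * X ^ (θ - 1) := by simp only [hW, if_neg hp]; rfl
      rw [e6]
      have g4 : (n : ℝ) / X * X = n := by field_simp
      refine ⟨fun _ => n / X, fun j hj => ⟨?_, ?_, ?_⟩, fun i j hij hj => by omega⟩
      · rw [le_div_iff₀ hX0]
        exact hn2.le
      · have g5 : (n / X + ℓ (k + 1)) * X ≤ (w + W k) * X := by
          rw [add_mul, add_mul, g4, hℓk, e7]
          have g6 : 2 * X ^ (θ - 1) * X = 2 * X ^ θ := by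
            rw [mul_assoc, show X ^ θ = X ^ (θ - 1 + 1) by ring_nf, Real.rpow_add hX0, Real.rpow_one]
          rw [g6]
          have g7 : 16 ≤ X ^ θ := (hthr' (k + 1)).1.1
          linarith
        exact le_of_mul_le_mul_right g5 hX0
      · rintro α ⟨hα1, hα2⟩
        have g5 : (n : ℝ) ≤ α * X := by
          rw [div_le_iff₀ hX0] at hα1
          exact hα1
        have g6 : α * X < n + 1 := by
          have g7 : α * X ≤ (n / X + ℓ (k + 1)) * X := mul_le_mul_of_nonneg_right hα2 hX0.le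
          rw [add_mul, g4, hℓk] at g7
          linarith
        exact ⟨fun h => absurd h hp, fun _ => hn4 _ g5 g6⟩


theorem ceil_one : ∃ C : ℝ, 1 < C ∧ ∀ x : ℕ → ℝ, (∀ n, 0 < x n) → Tendsto x atTop atTop →
    (∀ᶠ n in atTop, (x n) ^ C ≤ x (n + 1)) → ∀ S : Set ℕ, ∀ u v : ℝ, 0 < u → u < v →
      dimH {α : ℝ | u < α ∧ α < v ∧ ∃ c : ℝ, 0 < c ∧ ∀ᶠ n in atTop, (n ∈ S → (⌊α * x n⌋₊ + 1).Prime) ∧
        (n ∉ S → Far (c * f (x n)) (α * x n))} = 1 := by
  obtain ⟨C, hC, hcore⟩ := ceil_core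
  refine ⟨C, hC, fun x hx hxt hxC S u v hu huv => ?_⟩
  apply le_antisymm
  · calc dimH _ ≤ dimH (univ : Set ℝ) := dimH_mono (subset_univ _)
      _ = 1 := Real.dimH_univ
  · apply le_of_forall_lt
    intro y hy
    obtain ⟨z, hz1, hz2⟩ := exists_between hy
    have hzt : z ≠ ∞ := (hz2.trans_le le_top).ne
    lift z to ℝ≥0 using hzt
    have hz0 : 0 < z := by
      have := lt_of_le_of_lt zero_le hz1
      exact_mod_cast this
    have hz3 : (z : ℝ) < 1 := by exact_mod_cast hz2
    have hz4 : (0 : ℝ) < z := by exact_mod_cast hz0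
    obtain ⟨c, hc, h⟩ := hcore (1 - z) (by linarith) (by linarith)
    have h2 := h x hx hxt hxC S u v hu huv
    have h3 : ENNReal.ofReal (1 - (1 - (z : ℝ))) = z := by
      rw [sub_sub_cancel]
      exact ENNReal.ofReal_coe_nnreal
    rw [h3] at h2
    refine lt_of_lt_of_le hz1 (h2.trans (dimH_mono ?_))
    rintro α ⟨h4, h5, h6⟩
    exact ⟨h4, h5, c, hc, h6⟩

end Pool.Agent.Q138.PS.Pat1
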