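import Pool.Agent.H469R2.NK.KL

/-!
Words in the digits of the values of polynomials: counting in arcs, blocks of digits, and the choice of the place.
-/

set_option autoImplicit false

namespace Pool.Agent.Q138.PS.PW

open Finset Filter Real
open Pool.Agent.H469R2.NK (e norm_e e_add)

theorem e_nat (n : ℤ) : e (n : ℝ) = 1 := by
  unfold e
  rw [show ((2 * Real.pi * (n : ℝ) : ℝ) : ℂ) * Complex.I = (n : ℂ) * (2 * Real.pi * Complex.I) by push_cast; ring]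
  exact Complex.exp_int_mul_two_pi_mul_I n

theorem e_neg (x : ℝ) : e (-x) = (starRingEnd ℂ) (e x) := by
  unfold e
  rw [← Complex.exp_conj, map_mul, Complex.conj_ofReal, Complex.conj_I]
  congr 1
  push_cast
  ring

theorem e_re (x : ℝ) : (e x).re = cos (2 * π * x) := by
  unfold e
  rw [Complex.exp_ofReal_mul_I_re]

open Classical in
/-- the number of points of a sequence in a short arc -/
theorem arc (I : Finset ℕ) (z : ℕ → ℝ) (N : ℕ) (hN : 1 ≤ N) (t M : ℝ) (hM0 : 0 ≤ M)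
    (hM : ∀ h : ℕ, 1 ≤ h → h < N → ‖∑ m ∈ I, e (h * z m)‖ ≤ M) :
    ((I.filter fun m => ∃ a : ℤ, |z m - t - a| * N ≤ 1 / 8).card : ℝ) ≤ 4 * (I.card / N + M) := by
  have hN0 : (0 : ℝ) < N := by exact_mod_cast hN
  have hlow : ∀ x : ℝ, (∃ a : ℤ, |x - a| * N ≤ 1 / 8) → (N : ℝ) ^ 2 / 4 ≤ ‖∑ k ∈ range N, e (k * x)‖ ^ 2 := by
    rintro x ⟨a, ha⟩
    have h1 : (N : ℝ) / 2 ≤ (∑ k ∈ range N, e (k * x)).re := by
      rw [Complex.re_sum]
      have h2 : ∀ k ∈ range N, (1 / 2 : ℝ) ≤ (e (k * x)).re := by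
        intro k hk
        have h3 : (k : ℝ) ≤ N := by exact_mod_cast (mem_range.1 hk).le
        have h4 : e (k * x) = e (k * (x - a)) := by
          rw [show (k : ℝ) * x = k * (x - a) + ((k * a : ℤ) : ℝ) by push_cast; ring, e_add, e_nat, mul_one]
        rw [h4, e_re]
        have h5 : |(k : ℝ) * (x - a)| ≤ 1 / 8 := by
          rw [abs_mul, Nat.abs_cast]
          calc (k : ℝ) * |x - a| ≤ N * |x - a| := by gcongr
            _ ≤ 1 / 8 := by rw [mul_comm]; exact ha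
        have h6 := Real.one_sub_sq_div_two_le_cos (x := 2 * π * (k * (x - a)))
        have h7 : (k * (x - a)) ^ 2 ≤ (1 / 8 : ℝ) ^ 2 := by
          rw [← sq_abs]
          gcongr
        have h8 : π ^ 2 ≤ 10 := by
          have := Real.pi_lt_d2
          have := Real.pi_pos
          nlinarith
        have h9 : (2 * π * (k * (x - a))) ^ 2 ≤ 1 := by
          calc (2 * π * (k * (x - a))) ^ 2 = 4 * π ^ 2 * (k * (x - a)) ^ 2 := by ring
            _ ≤ 4 * 10 * (1 / 8) ^ 2 := by gcongr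
            _ ≤ 1 := by norm_num
        linarith
      refine le_trans (le_of_eq ?_) (Finset.sum_le_sum h2)
      rw [sum_const, card_range, nsmul_eq_mul]
      ring
    have h2 := (Complex.re_le_norm _).trans' h1
    calc (N : ℝ) ^ 2 / 4 = ((N : ℝ) / 2) ^ 2 := by ring
      _ ≤ _ := pow_le_pow_left₀ (by positivity) h2 2
  have hsq : ∀ x : ℝ, ((‖∑ k ∈ range N, e (k * x)‖ ^ 2 : ℝ) : ℂ) =
      ∑ k ∈ range N, ∑ l ∈ range N, e (((k : ℝ) - l) * x) := by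
    intro x
    rw [← Complex.normSq_eq_norm_sq, ← Complex.mul_conj, map_sum, Finset.sum_mul_sum]
    refine Finset.sum_congr rfl fun k _ => Finset.sum_congr rfl fun l _ => ?_
    rw [← e_neg, ← e_add]
    congr 1
    ring
  have hee : ∀ k ∈ range N, ∀ l ∈ range N, ‖∑ m ∈ I, e (((k : ℝ) - l) * z m)‖ ≤ if k = l then (I.card : ℝ) else M := by
    intro k hk l hl
    rw [mem_range] at hk hl
    rcases lt_trichotomy k l with h | h | h
    · rw [if_neg h.ne]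
      have h1 : ∀ m, e (((k : ℝ) - l) * z m) = (starRingEnd ℂ) (e (((l - k : ℕ) : ℝ) * z m)) := by
        intro m
        rw [← e_neg, Nat.cast_sub h.le]
        congr 1
        ring
      simp_rw [h1]
      rw [← map_sum, Complex.norm_conj]
      exact hM _ (by omega) (by omega)
    · rw [if_pos h, h]
      have h1 : ∀ m, e (((l : ℝ) - l) * z m) = 1 := by
        intro m
        rw [sub_self, zero_mul]
        have := e_nat 0
        simpa using this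
      simp_rw [h1]
      simp
    · rw [if_neg h.ne']
      have h1 : ∀ m, e (((k : ℝ) - l) * z m) = e (((k - l : ℕ) : ℝ) * z m) := by
        intro m
        rw [Nat.cast_sub h.le]
      simp_rw [h1]
      exact hM _ (by omega) (by omega)
  have hsum : ∑ m ∈ I, ‖∑ k ∈ range N, e (k * (z m - t))‖ ^ 2 ≤ N * I.card + N ^ 2 * M := by
    have h1 : ((∑ m ∈ I, ‖∑ k ∈ range N, e (k * (z m - t))‖ ^ 2 : ℝ) : ℂ) =
        ∑ k ∈ range N, ∑ l ∈ range N, e (-(((k : ℝ) - l) * t)) * ∑ m ∈ I, e (((k : ℝ) - l) * z m) := by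
      rw [Complex.ofReal_sum]
      simp_rw [hsq]
      rw [Finset.sum_comm]
      refine Finset.sum_congr rfl fun k _ => ?_
      rw [Finset.sum_comm]
      refine Finset.sum_congr rfl fun l _ => ?_
      rw [mul_sum]
      refine Finset.sum_congr rfl fun m _ => ?_
      rw [← e_add]
      congr 1
      ring
    have h2 : ∑ m ∈ I, ‖∑ k ∈ range N, e (k * (z m - t))‖ ^ 2 ≤
        ‖((∑ m ∈ I, ‖∑ k ∈ range N, e (k * (z m - t))‖ ^ 2 : ℝ) : ℂ)‖ := by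
      rw [Complex.norm_real, Real.norm_eq_abs]
      exact le_abs_self _
    refine h2.trans ?_
    rw [h1]
    calc ‖∑ k ∈ range N, ∑ l ∈ range N, e (-(((k : ℝ) - l) * t)) * ∑ m ∈ I, e (((k : ℝ) - l) * z m)‖
        ≤ ∑ k ∈ range N, ∑ l ∈ range N, (if k = l then (I.card : ℝ) else M) := by
          refine (norm_sum_le _ _).trans (Finset.sum_le_sum fun k hk => ?_)
          refine (norm_sum_le _ _).trans (Finset.sum_le_sum fun l hl => ?_)
          rw [norm_mul, norm_e, one_mul]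
          exact hee k hk l hl
      _ ≤ ∑ k ∈ range N, (I.card + N * M) := by
          refine Finset.sum_le_sum fun k hk => ?_
          calc ∑ l ∈ range N, (if k = l then (I.card : ℝ) else M)
              ≤ ∑ l ∈ range N, ((if k = l then (I.card : ℝ) else 0) + M) := by
                refine Finset.sum_le_sum fun l _ => ?_
                split_ifs <;> linarith
            _ = I.card + N * M := by
                rw [sum_add_distrib, sum_ite_eq, if_pos hk, sum_const, card_range, nsmul_eq_mul]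
      _ = N * I.card + N ^ 2 * M := by
          rw [sum_const, card_range, nsmul_eq_mul]
          ring
  have hcount : ((I.filter fun m => ∃ a : ℤ, |z m - t - a| * N ≤ 1 / 8).card : ℝ) * ((N : ℝ) ^ 2 / 4) ≤
      ∑ m ∈ I, ‖∑ k ∈ range N, e (k * (z m - t))‖ ^ 2 := by
    calc ((I.filter fun m => ∃ a : ℤ, |z m - t - a| * N ≤ 1 / 8).card : ℝ) * ((N : ℝ) ^ 2 / 4)
        = ∑ m ∈ I.filter (fun m => ∃ a : ℤ, |z m - t - a| * N ≤ 1 / 8), ((N : ℝ) ^ 2 / 4) := by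
          rw [sum_const, nsmul_eq_mul]
      _ ≤ ∑ m ∈ I.filter (fun m => ∃ a : ℤ, |z m - t - a| * N ≤ 1 / 8), ‖∑ k ∈ range N, e (k * (z m - t))‖ ^ 2 := by
          refine Finset.sum_le_sum fun m hm => hlow _ (mem_filter.1 hm).2
      _ ≤ _ := Finset.sum_le_sum_of_subset_of_nonneg (filter_subset _ _) (fun _ _ _ => by positivity)
  have h1 := hcount.trans hsum
  have h2 : 4 * (I.card / N + M) = (N * I.card + N ^ 2 * M) / ((N : ℝ) ^ 2 / 4) := by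
    field_simp
  rw [h2, le_div_iff₀ (by positivity)]
  exact h1

theorem floor_step (c : ℕ) (hc : 1 ≤ c) (x : ℝ) : ⌊x * c⌋ = c * ⌊x⌋ + ⌊x * c⌋ % (c : ℤ) := by
  have hc0 : (c : ℝ) ≠ 0 := by exact_mod_cast (by omega : c ≠ 0)
  have h1 : ⌊x⌋ = ⌊x * c⌋ / (c : ℤ) := by
    rw [← Int.floor_div_natCast, mul_div_cancel_right₀ _ hc0]
  rw [h1]
  exact (Int.mul_ediv_add_emod _ _).symm

/-- numbers with the same blocks of digits are close modulo one -/
theorem same_digits (c : ℕ) (hc : 1 ≤ c) (y y' : ℝ) (l : ℕ)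
    (h : ∀ j < l, ⌊y * (c : ℝ) ^ (j + 1)⌋ % (c : ℤ) = ⌊y' * (c : ℝ) ^ (j + 1)⌋ % (c : ℤ)) :
    ∃ a : ℤ, |y - y' - a| * (c : ℝ) ^ l < 1 := by
  have hc0 : (0 : ℝ) < c := by exact_mod_cast hc
  have key : ∀ n ≤ l, ⌊y * (c : ℝ) ^ n⌋ - ⌊y' * (c : ℝ) ^ n⌋ = (⌊y⌋ - ⌊y'⌋) * (c : ℤ) ^ n := by
    intro n
    induction n with
    | zero => intro _; simp
    | succ n ih =>
      intro hn
      have h1 := ih (by omega)
      have h2 := floor_step c hc (y * (c : ℝ) ^ n)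
      have h3 := floor_step c hc (y' * (c : ℝ) ^ n)
      have h4 := h n (by omega)
      rw [mul_assoc, ← pow_succ] at h2 h3
      rw [h2, h3, h4, pow_succ]
      linear_combination (c : ℤ) * h1
  refine ⟨⌊y⌋ - ⌊y'⌋, ?_⟩
  have hcl : (0 : ℝ) < (c : ℝ) ^ l := by positivity
  have h1 : ((⌊y * (c : ℝ) ^ l⌋ : ℝ) - ⌊y' * (c : ℝ) ^ l⌋) = ((⌊y⌋ : ℝ) - ⌊y'⌋) * (c : ℝ) ^ l := by
    exact_mod_cast key l le_rfl
  have h2 := Int.floor_le (y * (c : ℝ) ^ l)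
  have h3 := Int.lt_floor_add_one (y * (c : ℝ) ^ l)
  have h4 := Int.floor_le (y' * (c : ℝ) ^ l)
  have h5 := Int.lt_floor_add_one (y' * (c : ℝ) ^ l)
  have h6 : |y - y' - ((⌊y⌋ - ⌊y'⌋ : ℤ) : ℝ)| * (c : ℝ) ^ l = |(y - y' - ((⌊y⌋ - ⌊y'⌋ : ℤ) : ℝ)) * (c : ℝ) ^ l| := by
    rw [abs_mul, abs_of_pos hcl]
  rw [h6, abs_lt]
  push_cast
  constructor <;> nlinarith

/-- **the choice of the place**: some `b ^ n α` is not close to rational numbers with small denominators -/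
theorem scale (b : ℕ) (hb : 2 ≤ b) (A : ℝ) (hA : 2 * (b : ℝ) < A) (α : ℝ) (hα : Irrational α) (n₀ : ℕ) :
    ∃ n, n₀ ≤ n ∧ ∀ t : ℕ, 1 ≤ t → (t : ℝ) ≤ A → ∀ a : ℤ, 1 / A ^ 4 < |t * ((b : ℝ) ^ n * α) - a| := by
  by_contra hcon
  push Not at hcon
  have hbr : (2 : ℝ) ≤ b := by exact_mod_cast hb
  have hA4 : 4 < A := by linarith
  have hA0 : 0 < A := by linarith
  obtain ⟨r, hr1, hrA, a, ha⟩ := hcon n₀ le_rfl
  obtain ⟨δ, hδ⟩ : ∃ δ : ℝ, δ = |r * ((b : ℝ) ^ n₀ * α) - a| := ⟨_, rfl⟩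
  have hr0 : (0 : ℝ) < r := by exact_mod_cast hr1
  have hδ0 : 0 < δ := by
    rw [hδ, abs_pos, sub_ne_zero]
    intro h
    have h1 : Irrational ((r : ℝ) * ((b : ℝ) ^ n₀ * α)) := by
      have h2 := hα.natCast_mul (m := r * b ^ n₀) (by positivity)
      have h3 : ((r * b ^ n₀ : ℕ) : ℝ) * α = (r : ℝ) * ((b : ℝ) ^ n₀ * α) := by push_cast; ring
      rwa [h3] at h2
    exact h1.ne_int a h
  rw [← hδ] at ha
  have hex : ∃ j : ℕ, 1 / A ^ 2 < (b : ℝ) ^ j * δ := by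
    obtain ⟨j, hj⟩ := pow_unbounded_of_one_lt (1 / A ^ 2 / δ) (by linarith : (1 : ℝ) < b)
    exact ⟨j, (div_lt_iff₀ hδ0).1 hj⟩
  classical
  obtain ⟨j, hj⟩ : ∃ j, j = Nat.find hex := ⟨_, rfl⟩
  have hj1 : 1 / A ^ 2 < (b : ℝ) ^ j * δ := by
    rw [hj]
    exact Nat.find_spec hex
  have hA42 : 1 / A ^ 4 ≤ 1 / A ^ 2 := by
    apply one_div_le_one_div_of_le (by positivity)
    exact pow_le_pow_right₀ (by linarith) (by norm_num)
  have hj0 : j ≠ 0 := by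
    rintro h0
    rw [h0, pow_zero, one_mul] at hj1
    linarith
  have hj2 : (b : ℝ) ^ j * δ ≤ b / A ^ 2 := by
    have h1 := Nat.find_min hex (m := j - 1) (by omega)
    rw [not_lt] at h1
    have h2 : (b : ℝ) ^ j = b * (b : ℝ) ^ (j - 1) := by
      rw [← pow_succ']
      congr 1
      omega
    rw [h2, mul_assoc]
    calc (b : ℝ) * ((b : ℝ) ^ (j - 1) * δ) ≤ b * (1 / A ^ 2) := by gcongr
      _ = b / A ^ 2 := by ring
  obtain ⟨r', hr'1, hr'A, a', ha'⟩ := hcon (n₀ + j) (by omega)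
  have hr'0 : (1 : ℝ) ≤ r' := by exact_mod_cast hr'1
  obtain ⟨K, hK⟩ : ∃ K : ℤ, K = r * a' - r' * (b : ℤ) ^ j * a := ⟨_, rfl⟩
  have hKr : (K : ℝ) = r' * ((b : ℝ) ^ j * (r * ((b : ℝ) ^ n₀ * α) - a)) -
      r * (r' * ((b : ℝ) ^ (n₀ + j) * α) - a') := by
    rw [hK]
    push_cast
    ring
  have e1 : |(r' : ℝ) * ((b : ℝ) ^ j * (r * ((b : ℝ) ^ n₀ * α) - a))| = r' * ((b : ℝ) ^ j * δ) := by
    rw [abs_mul, abs_mul, ← hδ, abs_of_pos (by linarith : (0 : ℝ) < r'), abs_of_pos (by positivity : (0 : ℝ) < (b : ℝ) ^ j)]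
  have e2 : |(r : ℝ) * (r' * ((b : ℝ) ^ (n₀ + j) * α) - a')| ≤ A * (1 / A ^ 4) := by
    rw [abs_mul, abs_of_pos hr0]
    exact mul_le_mul hrA ha' (abs_nonneg _) hA0.le
  have e3 : A * (1 / A ^ 4) = 1 / A ^ 3 := by field_simp
  have e4 : 1 / A ^ 3 ≤ 1 / A ^ 2 * (1 / 4) := by
    rw [one_div_mul_one_div, one_div_le_one_div (by positivity) (by positivity)]
    nlinarith [sq_nonneg A, mul_pos hA0 hA0]
  have e5 : 1 / A ^ 2 * (1 / 4) ≤ 1 / 4 := by
    have : 1 / A ^ 2 ≤ 1 := by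
      rw [div_le_one (by positivity)]
      nlinarith
    linarith
  have hKabs : |(K : ℝ)| < 1 := by
    rw [hKr]
    refine (abs_sub _ _).trans_lt ?_
    rw [e1]
    have e6 : (r' : ℝ) * ((b : ℝ) ^ j * δ) ≤ 1 / 2 := by
      calc (r' : ℝ) * ((b : ℝ) ^ j * δ) ≤ A * (b / A ^ 2) := mul_le_mul hr'A hj2 (by positivity) hA0.le
        _ = b / A := by field_simp
        _ ≤ 1 / 2 := by
          rw [div_le_div_iff₀ hA0 (by norm_num)]
          linarith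
    linarith
  have hK0 : K = 0 := by
    have : |K| < 1 := by exact_mod_cast hKabs
    exact Int.abs_lt_one_iff.1 this
  rw [hK0, Int.cast_zero] at hKr
  have e7 : (r' : ℝ) * ((b : ℝ) ^ j * δ) ≤ 1 / A ^ 3 := by
    rw [← e1, ← e3]
    refine le_trans (le_of_eq ?_) e2
    congr 1
    linarith
  have e8 : (b : ℝ) ^ j * δ ≤ r' * ((b : ℝ) ^ j * δ) := le_mul_of_one_le_left (by positivity) hr'0
  have e9 : 0 < 1 / A ^ 2 := by positivity
  linarith

/-- the choice of the place, with a bound -/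
theorem scale_core (b : ℕ) (hb : 2 ≤ b) (A : ℝ) (hA : 2 * (b : ℝ) < A) (α : ℝ) (n₀ J : ℕ)
    (hJ : ∀ r : ℕ, 1 ≤ r → (r : ℝ) ≤ A → ∀ a : ℤ, 1 / A ^ 2 < (b : ℝ) ^ J * |r * ((b : ℝ) ^ n₀ * α) - a|) :
    ∃ n, n₀ ≤ n ∧ n ≤ n₀ + J ∧ ∀ t : ℕ, 1 ≤ t → (t : ℝ) ≤ A → ∀ a : ℤ, 1 / A ^ 4 < |t * ((b : ℝ) ^ n * α) - a| := by
  by_contra hcon
  push Not at hcon
  have hbr : (2 : ℝ) ≤ b := by exact_mod_cast hb
  have hA4 : 4 < A := by linarith
  have hA0 : 0 < A := by linarith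
  obtain ⟨r, hr1, hrA, a, ha⟩ := hcon n₀ le_rfl (by omega)
  obtain ⟨δ, hδ⟩ : ∃ δ : ℝ, δ = |r * ((b : ℝ) ^ n₀ * α) - a| := ⟨_, rfl⟩
  have hr0 : (0 : ℝ) < r := by exact_mod_cast hr1
  have hδ0 : 0 ≤ δ := by rw [hδ]; exact abs_nonneg _
  rw [← hδ] at ha
  have hJδ : 1 / A ^ 2 < (b : ℝ) ^ J * δ := by rw [hδ]; exact hJ r hr1 hrA a
  have hex : ∃ j : ℕ, 1 / A ^ 2 < (b : ℝ) ^ j * δ := ⟨J, hJδ⟩
  classical
  obtain ⟨j, hj⟩ : ∃ j, j = Nat.find hex := ⟨_, rfl⟩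
  have hjJ : j ≤ J := by
    rw [hj]
    exact Nat.find_min' hex hJδ
  have hj1 : 1 / A ^ 2 < (b : ℝ) ^ j * δ := by
    rw [hj]
    exact Nat.find_spec hex
  have hA42 : 1 / A ^ 4 ≤ 1 / A ^ 2 := by
    apply one_div_le_one_div_of_le (by positivity)
    exact pow_le_pow_right₀ (by linarith) (by norm_num)
  have hj0 : j ≠ 0 := by
    rintro h0
    rw [h0, pow_zero, one_mul] at hj1
    linarith
  have hj2 : (b : ℝ) ^ j * δ ≤ b / A ^ 2 := by
    have h1 := Nat.find_min hex (m := j - 1) (by omega)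
    rw [not_lt] at h1
    have h2 : (b : ℝ) ^ j = b * (b : ℝ) ^ (j - 1) := by
      rw [← pow_succ']
      congr 1
      omega
    rw [h2, mul_assoc]
    calc (b : ℝ) * ((b : ℝ) ^ (j - 1) * δ) ≤ b * (1 / A ^ 2) := by gcongr
      _ = b / A ^ 2 := by ring
  obtain ⟨r', hr'1, hr'A, a', ha'⟩ := hcon (n₀ + j) (by omega) (by omega)
  have hr'0 : (1 : ℝ) ≤ r' := by exact_mod_cast hr'1
  obtain ⟨K, hK⟩ : ∃ K : ℤ, K = r * a' - r' * (b : ℤ) ^ j * a := ⟨_, rfl⟩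
  have hKr : (K : ℝ) = r' * ((b : ℝ) ^ j * (r * ((b : ℝ) ^ n₀ * α) - a)) -
      r * (r' * ((b : ℝ) ^ (n₀ + j) * α) - a') := by
    rw [hK]
    push_cast
    ring
  have e1 : |(r' : ℝ) * ((b : ℝ) ^ j * (r * ((b : ℝ) ^ n₀ * α) - a))| = r' * ((b : ℝ) ^ j * δ) := by
    rw [abs_mul, abs_mul, ← hδ, abs_of_pos (by linarith : (0 : ℝ) < r'), abs_of_pos (by positivity : (0 : ℝ) < (b : ℝ) ^ j)]
  have e2 : |(r : ℝ) * (r' * ((b : ℝ) ^ (n₀ + j) * α) - a')| ≤ A * (1 / A ^ 4) := by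
    rw [abs_mul, abs_of_pos hr0]
    exact mul_le_mul hrA ha' (abs_nonneg _) hA0.le
  have e3 : A * (1 / A ^ 4) = 1 / A ^ 3 := by field_simp
  have e4 : 1 / A ^ 3 ≤ 1 / A ^ 2 * (1 / 4) := by
    rw [one_div_mul_one_div, one_div_le_one_div (by positivity) (by positivity)]
    nlinarith [sq_nonneg A, mul_pos hA0 hA0]
  have e5 : 1 / A ^ 2 * (1 / 4) ≤ 1 / 4 := by
    have : 1 / A ^ 2 ≤ 1 := by
      rw [div_le_one (by positivity)]
      nlinarith
    linarith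
  have hKabs : |(K : ℝ)| < 1 := by
    rw [hKr]
    refine (abs_sub _ _).trans_lt ?_
    rw [e1]
    have e6 : (r' : ℝ) * ((b : ℝ) ^ j * δ) ≤ 1 / 2 := by
      calc (r' : ℝ) * ((b : ℝ) ^ j * δ) ≤ A * (b / A ^ 2) := mul_le_mul hr'A hj2 (by positivity) hA0.le
        _ = b / A := by field_simp
        _ ≤ 1 / 2 := by
          rw [div_le_div_iff₀ hA0 (by norm_num)]
          linarith
    linarith
  have hK0 : K = 0 := by
    have : |K| < 1 := by exact_mod_cast hKabs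
    exact Int.abs_lt_one_iff.1 this
  rw [hK0, Int.cast_zero] at hKr
  have e7 : (r' : ℝ) * ((b : ℝ) ^ j * δ) ≤ 1 / A ^ 3 := by
    rw [← e1, ← e3]
    refine le_trans (le_of_eq ?_) e2
    congr 1
    linarith
  have e8 : (b : ℝ) ^ j * δ ≤ r' * ((b : ℝ) ^ j * δ) := le_mul_of_one_le_left (by positivity) hr'0
  have e9 : 0 < 1 / A ^ 2 := by positivity
  linarith

/-- the choice of the place for numbers which are not Liouville numbers -/
theorem scale_dio (b : ℕ) (hb : 2 ≤ b) (p : ℕ) (α c : ℝ) (hc : 1 ≤ c)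
    (hdio : ∀ q : ℕ, 1 ≤ q → ∀ a : ℤ, 1 / (c * q) ^ p ≤ |q * α - a|)
    (A : ℝ) (hA : 2 * (b : ℝ) < A) (n₀ : ℕ) (hn : c * A ≤ (b : ℝ) ^ n₀) :
    ∃ n, n₀ ≤ n ∧ n ≤ (2 * p + 1) * n₀ ∧
      ∀ t : ℕ, 1 ≤ t → (t : ℝ) ≤ A → ∀ a : ℤ, 1 / A ^ 4 < |t * ((b : ℝ) ^ n * α) - a| := by
  have hbr : (2 : ℝ) ≤ b := by exact_mod_cast hb
  have hb0 : (0 : ℝ) < b := by linarith
  have hA0 : 4 < A := by linarith
  obtain ⟨n, h1, h2, h3⟩ := scale_core b hb A hA α n₀ (2 * p * n₀) (fun r hr hrA a => by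
    have hr0 : (1 : ℝ) ≤ r := by exact_mod_cast hr
    have h1 := hdio (r * b ^ n₀) (Nat.one_le_iff_ne_zero.2 (by positivity)) a
    have e1 : ((r * b ^ n₀ : ℕ) : ℝ) * α - a = (r : ℝ) * ((b : ℝ) ^ n₀ * α) - a := by push_cast; ring
    rw [e1] at h1
    have h2 : (c * ((r * b ^ n₀ : ℕ) : ℝ)) ^ p ≤ (b : ℝ) ^ (2 * p * n₀) := by
      have h3 : c * ((r * b ^ n₀ : ℕ) : ℝ) ≤ ((b : ℝ) ^ n₀) ^ 2 := by
        push_cast
        calc c * ((r : ℝ) * (b : ℝ) ^ n₀) = (c * r) * (b : ℝ) ^ n₀ := by ring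
          _ ≤ (b : ℝ) ^ n₀ * (b : ℝ) ^ n₀ := by
            have : c * r ≤ (b : ℝ) ^ n₀ := (mul_le_mul_of_nonneg_left hrA (by linarith)).trans hn
            gcongr
          _ = ((b : ℝ) ^ n₀) ^ 2 := by ring
      calc (c * ((r * b ^ n₀ : ℕ) : ℝ)) ^ p ≤ (((b : ℝ) ^ n₀) ^ 2) ^ p := pow_le_pow_left₀ (by positivity) h3 p
        _ = (b : ℝ) ^ (2 * p * n₀) := by
          rw [← pow_mul, ← pow_mul]
          congr 1
          ring
    have h4 : 0 < (c * ((r * b ^ n₀ : ℕ) : ℝ)) ^ p := by positivity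
    have h5 : 1 ≤ (b : ℝ) ^ (2 * p * n₀) * |(r : ℝ) * ((b : ℝ) ^ n₀ * α) - a| := by
      calc (1 : ℝ) = (c * ((r * b ^ n₀ : ℕ) : ℝ)) ^ p * (1 / (c * ((r * b ^ n₀ : ℕ) : ℝ)) ^ p) := by field_simp
        _ ≤ (b : ℝ) ^ (2 * p * n₀) * |(r : ℝ) * ((b : ℝ) ^ n₀ * α) - a| := by gcongr
    have h6 : 1 / A ^ 2 < 1 := by
      rw [div_lt_one (by positivity)]
      nlinarith
    linarith)
  refine ⟨n, h1, h2.trans (le_of_eq (by ring)), h3⟩

/-- multiples of irrational numbers which are not Liouville numbers -/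
theorem dio_of {x : ℝ} (hx : Irrational x) (hL : ¬ Liouville x) :
    ∃ p : ℕ, ∀ s : ℤ, s ≠ 0 → ∀ q : ℕ, 1 ≤ q → ∀ a : ℤ, 1 / (2 * |(s : ℝ)| * q) ^ p ≤ |q * (x * s) - a| := by
  unfold Liouville at hL
  push Not at hL
  obtain ⟨p, hp⟩ := hL
  refine ⟨p, ?_⟩
  intro s hs q hq a
  have hq1 : (1 : ℝ) ≤ q := by exact_mod_cast hq
  have hs1 : (1 : ℝ) ≤ |(s : ℝ)| := by
    rw [← Int.cast_abs]
    exact_mod_cast Int.one_le_abs hs
  obtain ⟨ε, hε, hεs⟩ : ∃ ε : ℤ, |(ε : ℝ)| = 1 ∧ (ε : ℝ) * s = |(s : ℝ)| := by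
    rcases le_or_gt 0 s with h | h
    · refine ⟨1, by norm_num, ?_⟩
      have : (0 : ℝ) ≤ s := by exact_mod_cast h
      rw [abs_of_nonneg this]
      push_cast
      ring
    · refine ⟨-1, by norm_num, ?_⟩
      have : (s : ℝ) < 0 := by exact_mod_cast h
      rw [abs_of_neg this]
      push_cast
      ring
  have hB : (1 : ℤ) < 2 * |s| * q := by
    have h1 : 1 ≤ |s| := Int.one_le_abs hs
    have h2 : (1 : ℤ) ≤ q := by exact_mod_cast hq
    nlinarith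
  have h3 := hp (2 * (ε * a)) (2 * |s| * q) hB (by
    intro h
    apply hx
    refine ⟨(2 * (ε * a) : ℤ) / (2 * |s| * q : ℤ), ?_⟩
    rw [h]
    push_cast
    ring)
  have hBr : ((2 * |s| * (q : ℤ) : ℤ) : ℝ) = 2 * |(s : ℝ)| * q := by push_cast; ring
  rw [hBr] at h3
  refine h3.trans ?_
  have hD : 0 < |(s : ℝ)| * q := by positivity
  have e1 : x - ((2 * (ε * a) : ℤ) : ℝ) / (2 * |(s : ℝ)| * q) = (ε * (q * (x * s) - a)) / (|(s : ℝ)| * q) := by
    rw [eq_div_iff hD.ne']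
    push_cast
    field_simp
    rw [← hεs]
    ring
  rw [e1, abs_div, abs_mul, hε, one_mul, abs_of_pos hD]
  apply div_le_self (abs_nonneg _)
  nlinarith

end Pool.Agent.Q138.PS.PW
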