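import Pool.Agent.Q138.PS.ZL
import Pool.Agent.Q270.PX.Comb

/-!
Words in the digits of the values of a real polynomial with an irrational coefficient, at almost all integers or primes.
-/

set_option autoImplicit false

namespace Pool.Agent.Q138.PS.PW

open Finset Filter Real
open Pool.Agent.H469R2.NK (e norm_e e_add)
open Pool.Agent.Q270.PX (WeylI Far poly_sum)

/-- the word of length `k` with value `W` stands in the base `b` expansion of `z` right after the `i`-th place -/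
def Occ (b k W : ℕ) (z : ℝ) (i : ℕ) : Prop := ⌊z * (b : ℝ) ^ (i + k)⌋ % ((b : ℤ) ^ k) = (W : ℤ)

open Classical in
/-- the counting step -/
theorem count_bad (I : Finset ℕ) (b k W l n N : ℕ) (hb : 2 ≤ b) (hW : W < b ^ k) (F : ℕ → ℝ) (X M : ℝ)
    (hIX : (I.card : ℝ) ≤ X) (hN : 1 ≤ N) (hN1 : (N : ℝ) ≤ ((b : ℝ) ^ k) ^ l / 8) (hN2 : ((b : ℝ) ^ k) ^ l / 16 ≤ N)
    (hM0 : 0 ≤ M) (hMX : M ≤ X / ((b : ℝ) ^ k) ^ l)
    (hM : ∀ h : ℕ, 1 ≤ h → h < N → ‖∑ m ∈ I, e (h * (F m * (b : ℝ) ^ n))‖ ≤ M) :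
    ((I.filter fun m : ℕ => ∀ i, n ≤ i → i + k ≤ n + k * l → ¬ Occ b k W (F m) i).card : ℝ) ≤
      68 * X * (1 - 1 / (b : ℝ) ^ k) ^ l := by
  have hb0 : (0 : ℝ) < b := by exact_mod_cast (by omega : 0 < b)
  obtain ⟨c, hc⟩ : ∃ c : ℕ, c = b ^ k := ⟨_, rfl⟩
  have hc1 : 1 ≤ c := by rw [hc]; exact Nat.one_le_pow _ _ (by omega)
  have hc0 : (0 : ℝ) < c := by exact_mod_cast hc1
  have hcr : (b : ℝ) ^ k = c := by rw [hc]; push_cast; rfl
  have hcz : ((b : ℤ) ^ k) = c := by rw [hc]; push_cast; rfl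
  rw [hcr] at hN1 hN2 hMX ⊢
  have hcl : (0 : ℝ) < (c : ℝ) ^ l := by positivity
  have hX0 : 0 ≤ X := (Nat.cast_nonneg _).trans hIX
  obtain ⟨S, hS⟩ : ∃ S : Finset ℕ, S = I.filter fun m : ℕ => ∀ i, n ≤ i → i + k ≤ n + k * l →
      ¬ Occ b k W (F m) i := ⟨_, rfl⟩
  rw [← hS]
  obtain ⟨y, hy⟩ : ∃ y : ℕ → ℝ, y = fun m => F m * (b : ℝ) ^ n := ⟨_, rfl⟩
  obtain ⟨f, hf⟩ : ∃ f : ℕ → (Fin l → ℕ), f = fun m (j : Fin l) => (⌊y m * (c : ℝ) ^ ((j : ℕ) + 1)⌋ % (c : ℤ)).toNat := ⟨_, rfl⟩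
  obtain ⟨T, hT⟩ : ∃ T : Finset (Fin l → ℕ), T = Fintype.piFinset fun _ => (range c).erase W := ⟨_, rfl⟩
  have hcz0 : (0 : ℤ) < c := by exact_mod_cast hc1
  have hfT : ∀ m ∈ S, f m ∈ T := by
    intro m hm
    rw [hS, mem_filter] at hm
    rw [hT, Fintype.mem_piFinset]
    intro j
    have h1 := Int.emod_nonneg ⌊y m * (c : ℝ) ^ ((j : ℕ) + 1)⌋ hcz0.ne'
    have h2 := Int.emod_lt_of_pos ⌊y m * (c : ℝ) ^ ((j : ℕ) + 1)⌋ hcz0
    rw [mem_erase, mem_range, hf]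
    refine ⟨?_, ?_⟩
    · intro h3
      refine hm.2 (n + k * j) (by omega) (by
        have hj1 : (j : ℕ) + 1 ≤ l := j.2
        calc n + k * j + k = n + k * (j + 1) := by ring
          _ ≤ n + k * l := by gcongr) ?_
      unfold Occ
      rw [hcz]
      have h4 : F m * (b : ℝ) ^ (n + k * j + k) = y m * (c : ℝ) ^ ((j : ℕ) + 1) := by
        rw [hy, ← hcr, ← pow_mul]
        ring
      rw [h4, ← h3]
      exact (Int.toNat_of_nonneg h1).symm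
    · simp only
      omega
  have hfib : ∀ v ∈ T, ((S.filter fun m : ℕ => f m = v).card : ℝ) ≤ 68 * X / (c : ℝ) ^ l := by
    intro v _
    rcases (S.filter fun m : ℕ => f m = v).eq_empty_or_nonempty with h0 | ⟨m₀, hm₀⟩
    · rw [h0, card_empty, Nat.cast_zero]
      positivity
    have h1 : (S.filter fun m : ℕ => f m = v) ⊆ I.filter fun m : ℕ => ∃ a : ℤ, |y m - y m₀ - a| * N ≤ 1 / 8 := by
      intro m hm
      rw [mem_filter] at hm hm₀ ⊢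
      refine ⟨?_, ?_⟩
      · have := hm.1
        rw [hS, mem_filter] at this
        exact this.1
      · obtain ⟨a, ha⟩ := same_digits c hc1 (y m) (y m₀) l (fun j hj => by
          have h2 : f m ⟨j, hj⟩ = f m₀ ⟨j, hj⟩ := by rw [hm.2, hm₀.2]
          rw [hf] at h2
          have h3 := Int.emod_nonneg ⌊y m * (c : ℝ) ^ (j + 1)⌋ hcz0.ne'
          have h4 := Int.emod_nonneg ⌊y m₀ * (c : ℝ) ^ (j + 1)⌋ hcz0.ne'
          simp only at h2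
          omega)
        refine ⟨a, ?_⟩
        calc |y m - y m₀ - a| * N ≤ |y m - y m₀ - a| * ((c : ℝ) ^ l / 8) := by gcongr
          _ = |y m - y m₀ - a| * (c : ℝ) ^ l / 8 := by ring
          _ ≤ 1 / 8 := by linarith
    have h2 := arc I y N hN (y m₀) M hM0 (fun h h1 h2 => by
      rw [hy]
      exact hM h h1 h2)
    have h3 : ((S.filter fun m : ℕ => f m = v).card : ℝ) ≤
        ((I.filter fun m : ℕ => ∃ a : ℤ, |y m - y m₀ - a| * N ≤ 1 / 8).card : ℝ) := by exact_mod_cast card_le_card h1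
    refine h3.trans (h2.trans ?_)
    have h4 : (I.card : ℝ) / N ≤ 16 * X / (c : ℝ) ^ l := by
      have hN0 : (0 : ℝ) < N := by exact_mod_cast hN
      rw [div_le_div_iff₀ hN0 hcl]
      calc (I.card : ℝ) * (c : ℝ) ^ l ≤ X * (16 * N) := by
            have h5 : (c : ℝ) ^ l ≤ 16 * N := by linarith
            exact mul_le_mul hIX h5 hcl.le hX0
        _ = 16 * X * N := by ring
    calc 4 * ((I.card : ℝ) / N + M) ≤ 4 * (16 * X / (c : ℝ) ^ l + X / (c : ℝ) ^ l) := by gcongr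
      _ = 68 * X / (c : ℝ) ^ l := by ring
  have hTc : (T.card : ℝ) = ((c : ℝ) - 1) ^ l := by
    rw [hT, Fintype.card_piFinset, prod_const, card_fin, card_erase_of_mem (mem_range.2 (hc ▸ hW)), card_range]
    push_cast [Nat.cast_sub hc1]
    rfl
  rw [card_eq_sum_card_fiberwise hfT]
  push_cast
  calc ∑ v ∈ T, ((S.filter fun m : ℕ => f m = v).card : ℝ) ≤ ∑ v ∈ T, 68 * X / (c : ℝ) ^ l := sum_le_sum hfib
    _ = T.card * (68 * X / (c : ℝ) ^ l) := by rw [sum_const, nsmul_eq_mul]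
    _ = 68 * X * (1 - 1 / (c : ℝ)) ^ l := by
      rw [hTc, one_sub_div hc0.ne', div_pow]
      ring

open Classical in
/-- **The main estimate.** -/
theorem core {I : ℕ → Finset ℕ} (hI : WeylI I) (hIX : ∀ X, (I X).card ≤ X) (b D Q : ℕ) (hb : 2 ≤ b) (hQ : 1 ≤ Q) :
    ∃ κ : ℝ, 0 < κ ∧ κ * Real.log b ≤ 1 ∧ ∃ X₀ : ℕ, ∀ X : ℕ, X₀ ≤ X → 2 * (b : ℝ) < (X : ℝ) ^ (1 / 32 : ℝ) ∧ 1 ≤ X ∧
      ∀ (F : Polynomial ℝ) (d n : ℕ), F.natDegree ≤ D → 1 ≤ d → d ≤ D →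
      (∀ t : ℕ, 1 ≤ t → (t : ℝ) ≤ (X : ℝ) ^ (1 / 32 : ℝ) → ∀ a : ℤ,
        1 / ((X : ℝ) ^ (1 / 32 : ℝ)) ^ 4 < |t * ((b : ℝ) ^ n * F.coeff d) - a|) →
      (∀ j, d < j → ∃ a : ℤ, (Q : ℝ) * F.coeff j = a) →
      ∀ k W : ℕ, 1 ≤ k → W < b ^ k →
      (((I X).filter fun m : ℕ => ∀ i, n ≤ i → i + k ≤ n + k * ⌊κ * Real.log X / k⌋₊ →
          ¬ Occ b k W (F.eval (m : ℝ)) i).card : ℝ) ≤
        68 * X * (1 - 1 / (b : ℝ) ^ k) ^ ⌊κ * Real.log X / k⌋₊ := by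
  obtain ⟨τ, hτ, x₀, hx₀⟩ := poly_sum hI D Q hQ (1 / 64) (by norm_num)
  have hbr : (2 : ℝ) ≤ b := by exact_mod_cast hb
  have hb0 : (0 : ℝ) < b := by linarith
  have hlb : 0 < Real.log b := Real.log_pos (by linarith)
  obtain ⟨σ, hσ⟩ : ∃ σ : ℝ, σ = min τ (1 / 64) := ⟨_, rfl⟩
  have hσ0 : 0 < σ := by rw [hσ]; exact lt_min hτ (by norm_num)
  have hσ1 : σ ≤ τ := by rw [hσ]; exact min_le_left _ _
  have hσ2 : σ ≤ 1 / 64 := by rw [hσ]; exact min_le_right _ _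
  have hev : ∀ᶠ X : ℕ in atTop, 2 * (b : ℝ) < (X : ℝ) ^ (1 / 32 : ℝ) ∧ 1 ≤ X :=
    (((tendsto_rpow_atTop (by norm_num : (0 : ℝ) < 1 / 32)).comp tendsto_natCast_atTop_atTop).eventually_gt_atTop _).and
      (eventually_ge_atTop 1)
  obtain ⟨x₁, hx₁⟩ := eventually_atTop.1 hev
  refine ⟨σ / Real.log b, by positivity, by rw [div_mul_cancel₀ _ hlb.ne']; linarith, max x₀ x₁, ?_⟩
  intro X hX
  obtain ⟨hA, hX1⟩ := hx₁ X (le_of_max_le_right hX)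
  refine ⟨hA, hX1, ?_⟩
  intro F d n hdeg hd1 hdD hfar hQF k W hk hW
  have hXr : (1 : ℝ) ≤ X := by exact_mod_cast hX1
  have hX0 : (0 : ℝ) < X := by linarith
  have hkr : (1 : ℝ) ≤ k := by exact_mod_cast hk
  have hlogX : 0 ≤ Real.log X := Real.log_nonneg hXr
  obtain ⟨l, hl⟩ : ∃ l : ℕ, l = ⌊σ / Real.log b * Real.log X / k⌋₊ := ⟨_, rfl⟩
  rw [← hl]
  have hl1 : (l : ℝ) ≤ σ / Real.log b * Real.log X / k := by
    rw [hl]
    exact Nat.floor_le (by positivity)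
  obtain ⟨Y, hY⟩ : ∃ Y : ℕ, Y = (b ^ k) ^ l := ⟨_, rfl⟩
  have hYr : (Y : ℝ) = ((b : ℝ) ^ k) ^ l := by rw [hY]; push_cast; rfl
  have hY1 : 1 ≤ Y := by rw [hY]; exact Nat.one_le_pow _ _ (Nat.pos_of_ne_zero (by positivity))
  have hYσ : (Y : ℝ) ≤ (X : ℝ) ^ σ := by
    rw [hYr, ← pow_mul, ← Real.rpow_natCast, Real.rpow_def_of_pos hb0, Real.rpow_def_of_pos hX0]
    apply Real.exp_le_exp.2
    push_cast
    rw [le_div_iff₀ (by linarith : (0 : ℝ) < k), div_mul_eq_mul_div, le_div_iff₀ hlb] at hl1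
    linarith
  have hfrac : 1 / 2 ≤ 1 - 1 / (b : ℝ) ^ k := by
    have h1 : (2 : ℝ) ≤ (b : ℝ) ^ k := by
      calc (2 : ℝ) ≤ b := hbr
        _ = (b : ℝ) ^ 1 := (pow_one _).symm
        _ ≤ (b : ℝ) ^ k := pow_le_pow_right₀ (by linarith) hk
    have h2 : 1 / (b : ℝ) ^ k ≤ 1 / 2 := one_div_le_one_div_of_le (by norm_num) h1
    linarith
  rcases Nat.lt_or_ge Y 8 with hY8 | hY8
  · -- trivial range
    have h1 : (((I X).filter fun m : ℕ => ∀ i, n ≤ i → i + k ≤ n + k * l → ¬ Occ b k W (F.eval (m : ℝ)) i).card : ℝ) ≤ X := by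
      exact_mod_cast (card_filter_le _ _).trans (hIX X)
    have h2 : l ≤ 2 := by
      by_contra h
      have h3 : 2 ^ 3 ≤ Y := by
        rw [hY]
        calc 2 ^ 3 ≤ 2 ^ l := Nat.pow_le_pow_right (by norm_num) (by omega)
          _ ≤ (b ^ k) ^ l := Nat.pow_le_pow_left (hb.trans (Nat.le_self_pow (by omega) b)) l
      omega
    have h3 : (1 / 4 : ℝ) ≤ (1 - 1 / (b : ℝ) ^ k) ^ l := by
      calc (1 / 4 : ℝ) = (1 / 2) ^ 2 := by norm_num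
        _ ≤ (1 / 2) ^ l := pow_le_pow_of_le_one (by norm_num) (by norm_num) h2
        _ ≤ _ := pow_le_pow_left₀ (by norm_num) hfrac l
    nlinarith
  have hA4 : ((X : ℝ) ^ (1 / 32 : ℝ)) ^ 4 = (X : ℝ) ^ (1 / 8 : ℝ) := by
    rw [← Real.rpow_natCast, ← Real.rpow_mul hX0.le]
    norm_num
  rw [hA4] at hfar
  have hN8 : (Y : ℝ) / 16 ≤ ((Y / 8 : ℕ) : ℝ) := by
    have h1 : Y ≤ 16 * (Y / 8) := by omega
    have h2 : (Y : ℝ) ≤ 16 * ((Y / 8 : ℕ) : ℝ) := by exact_mod_cast h1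
    linarith
  have hN8' : ((Y / 8 : ℕ) : ℝ) ≤ (Y : ℝ) / 8 := by
    have := Nat.cast_div_le (α := ℝ) (m := Y) (n := 8)
    simpa using this
  have hXτ : (X : ℝ) ^ (1 - τ) ≤ X / Y := by
    have hY0 : (0 : ℝ) < Y := by exact_mod_cast hY1
    rw [Real.rpow_sub hX0, Real.rpow_one]
    apply div_le_div_of_nonneg_left hX0.le hY0
    exact hYσ.trans (Real.rpow_le_rpow_of_exponent_le hXr hσ1)
  refine count_bad (I X) b k W l n (Y / 8) hb hW (fun m : ℕ => F.eval (m : ℝ)) X ((X : ℝ) ^ (1 - τ))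
    (by exact_mod_cast hIX X) (by omega) (by rw [← hYr]; exact hN8') (by rw [← hYr]; exact hN8)
    (Real.rpow_nonneg hX0.le _) (by rw [← hYr]; exact hXτ) ?_
  intro h hh1 hhN
  have hhr : (h : ℝ) ≤ (X : ℝ) ^ (1 / 64 : ℝ) := by
    have h1 : (h : ℝ) ≤ Y := by
      have : h ≤ Y := by omega
      exact_mod_cast this
    exact h1.trans (hYσ.trans (Real.rpow_le_rpow_of_exponent_le hXr hσ2))
  have hpoly := hx₀ X (le_of_max_le_left hX) (fun j => (h : ℝ) * (F.coeff j * (b : ℝ) ^ n)) 0 d hd1 hdD (by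
    intro t ht1 htX a
    have h1 := hfar (t * h) (Nat.one_le_iff_ne_zero.2 (by positivity)) (by
      push_cast
      calc (t : ℝ) * h ≤ (X : ℝ) ^ (1 / 64 : ℝ) * (X : ℝ) ^ (1 / 64 : ℝ) := by gcongr
        _ = (X : ℝ) ^ (1 / 32 : ℝ) := by
          rw [← Real.rpow_add hX0]
          norm_num) a
    rw [Real.rpow_neg hX0.le, ← one_div]
    refine h1.trans_le (le_of_eq ?_)
    push_cast
    congr 1
    ring) (by
    intro j hj _
    obtain ⟨a, ha⟩ := hQF j hj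
    refine ⟨(h : ℤ) * (b : ℤ) ^ n * a, ?_⟩
    push_cast
    rw [← ha]
    ring)
  refine le_trans (le_of_eq ?_) hpoly
  congr 1
  refine sum_congr rfl fun m _ => ?_
  congr 1
  rw [Polynomial.eval_eq_sum_range' (Nat.lt_succ_of_le hdeg), add_zero, sum_mul, mul_sum]
  refine sum_congr rfl fun j _ => ?_
  ring

open Classical in
/-- words which stand only finitely often -/
theorem main {I : ℕ → Finset ℕ} (hI : WeylI I) (hIX : ∀ X, (I X).card ≤ X) (b D Q : ℕ) (hb : 2 ≤ b) (hQ : 1 ≤ Q) :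
    ∃ κ : ℝ, 0 < κ ∧ ∃ X₀ : ℕ, ∀ X : ℕ, X₀ ≤ X → ∀ (F : Polynomial ℝ) (d : ℕ), F.natDegree ≤ D → 1 ≤ d →
      Irrational (F.coeff d) → (∀ j, d < j → ∃ a : ℤ, (Q : ℝ) * F.coeff j = a) →
      ∀ k W : ℕ, 1 ≤ k → W < b ^ k →
      (((I X).filter fun m : ℕ => {i : ℕ | Occ b k W (F.eval (m : ℝ)) i}.Finite).card : ℝ) ≤
        68 * X * (1 - 1 / (b : ℝ) ^ k) ^ ⌊κ * Real.log X / k⌋₊ := by
  obtain ⟨κ, hκ, _, X₀, hX₀⟩ := core hI hIX b D Q hb hQ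
  refine ⟨κ, hκ, X₀, ?_⟩
  intro X hX F d hdeg hd1 hirr hQF k W hk hW
  obtain ⟨hA, hX1, hcore⟩ := hX₀ X hX
  have hdD : d ≤ D := by
    by_contra h
    have h1 : F.coeff d = 0 := Polynomial.coeff_eq_zero_of_natDegree_lt (by omega)
    rw [h1] at hirr
    exact hirr.ne_zero rfl
  obtain ⟨S, hS⟩ : ∃ S : Finset ℕ, S = (I X).filter fun m : ℕ => {i : ℕ | Occ b k W (F.eval (m : ℝ)) i}.Finite := ⟨_, rfl⟩
  rw [← hS]
  obtain ⟨n₀, hn₀⟩ : ∃ n₀ : ℕ, ∀ m ∈ S, ∀ i, n₀ ≤ i → ¬ Occ b k W (F.eval (m : ℝ)) i := by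
    have h1 : (⋃ m ∈ S, {i : ℕ | Occ b k W (F.eval (m : ℝ)) i}).Finite := by
      refine Set.Finite.biUnion S.finite_toSet fun m hm => ?_
      rw [Finset.mem_coe, hS] at hm
      exact (mem_filter.1 hm).2
    obtain ⟨n₀, hn₀⟩ := h1.bddAbove
    refine ⟨n₀ + 1, fun m hm i hi h2 => ?_⟩
    have h3 := hn₀ (Set.mem_biUnion (by exact_mod_cast hm) h2)
    omega
  obtain ⟨n, hn, hfar⟩ := scale b hb ((X : ℝ) ^ (1 / 32 : ℝ)) hA (F.coeff d) hirr n₀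
  refine le_trans ?_ (hcore F d n hdeg hd1 hdD hfar hQF k W hk hW)
  have hsub : S ⊆ (I X).filter fun m : ℕ => ∀ i, n ≤ i → i + k ≤ n + k * ⌊κ * Real.log X / k⌋₊ →
      ¬ Occ b k W (F.eval (m : ℝ)) i := by
    intro m hm
    rw [mem_filter]
    refine ⟨?_, fun i hi _ => hn₀ m hm i (hn.trans hi)⟩
    rw [hS] at hm
    exact (mem_filter.1 hm).1
  exact_mod_cast card_le_card hsub

open Classical in
/-- words in all long windows, for polynomials whose leading coefficient is an integer multiple of `x` -/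
theorem windows {I : ℕ → Finset ℕ} (hI : WeylI I) (hIX : ∀ X, (I X).card ≤ X) {x : ℝ} {p : ℕ}
    (hx : ∀ s : ℤ, s ≠ 0 → ∀ q : ℕ, 1 ≤ q → ∀ a : ℤ, 1 / (2 * |(s : ℝ)| * q) ^ p ≤ |q * (x * s) - a|)
    (b D : ℕ) (hb : 2 ≤ b) :
    ∃ κ : ℝ, 0 < κ ∧ ∃ X₀ : ℕ, ∀ X : ℕ, X₀ ≤ X → ∀ (F : Polynomial ℝ) (s : ℤ), s ≠ 0 → F.leadingCoeff = x * s →
      1 ≤ F.natDegree → F.natDegree ≤ D →
      ∀ u : ℕ, (X : ℝ) * |(s : ℝ)| ≤ (b : ℝ) ^ u → ∀ k W : ℕ, 1 ≤ k → W < b ^ k →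
      (((I X).filter fun m : ℕ => ∀ i, u ≤ i → i + k ≤ (2 * p + 2) * u →
        ¬ Occ b k W (F.eval (m : ℝ)) i).card : ℝ) ≤
        68 * X * (1 - 1 / (b : ℝ) ^ k) ^ ⌊κ * Real.log X / k⌋₊ := by
  obtain ⟨κ, hκ, hκb, X₀, hX₀⟩ := core hI hIX b D 1 hb le_rfl
  refine ⟨κ, hκ, X₀, ?_⟩
  intro X hX F s hs0 hFs hF1 hFD u hu k W hk hW
  obtain ⟨hA, hX1, hcore⟩ := hX₀ X hX
  have hbr : (2 : ℝ) ≤ b := by exact_mod_cast hb
  have hb0 : (0 : ℝ) < b := by linarith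
  have hlb : 0 < Real.log b := Real.log_pos (by linarith)
  have hXr : (1 : ℝ) ≤ X := by exact_mod_cast hX1
  have hX0 : (0 : ℝ) < X := by linarith
  have hs1 : (1 : ℝ) ≤ |(s : ℝ)| := by
    rw [← Int.cast_abs]
    exact_mod_cast Int.one_le_abs hs0
  obtain ⟨A, hAd⟩ : ∃ A : ℝ, A = (X : ℝ) ^ (1 / 32 : ℝ) := ⟨_, rfl⟩
  rw [← hAd] at hA hcore
  have hA4 : 4 < A := by linarith
  have hXA : 2 * A ≤ X := by
    have h1 : A ^ 32 = X := by
      rw [hAd, ← Real.rpow_natCast, ← Real.rpow_mul hX0.le]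
      norm_num
    calc 2 * A ≤ A * A := by nlinarith
      _ = A ^ 2 := by ring
      _ ≤ A ^ 32 := pow_le_pow_right₀ (by linarith) (by norm_num)
      _ = X := h1
  obtain ⟨n, hn1, hn2, hfar⟩ := scale_dio b hb p (x * (s : ℝ)) (2 * |(s : ℝ)|)
    (by linarith) (hx _ hs0) A hA u (by
      calc 2 * |(s : ℝ)| * A = (2 * A) * |(s : ℝ)| := by ring
        _ ≤ X * |(s : ℝ)| := by gcongr
        _ ≤ (b : ℝ) ^ u := hu)
  have hlX : 0 ≤ Real.log X := Real.log_nonneg hXr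
  have hlu : Real.log X ≤ u * Real.log b := by
    rw [← Real.log_pow]
    apply Real.log_le_log hX0
    calc (X : ℝ) = X * 1 := (mul_one _).symm
      _ ≤ X * |(s : ℝ)| := by gcongr
      _ ≤ _ := hu
  have hkl : k * ⌊κ * Real.log X / k⌋₊ ≤ u := by
    have hkr : (0 : ℝ) < k := by exact_mod_cast hk
    have h1 : (⌊κ * Real.log X / k⌋₊ : ℝ) ≤ κ * Real.log X / k := Nat.floor_le (by positivity)
    have h2 : (k : ℝ) * ⌊κ * Real.log X / k⌋₊ ≤ κ * Real.log X := by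
      calc (k : ℝ) * ⌊κ * Real.log X / k⌋₊ ≤ k * (κ * Real.log X / k) := by gcongr
        _ = κ * Real.log X := by field_simp
    have h3 : κ * Real.log X ≤ u := by
      calc κ * Real.log X ≤ κ * (u * Real.log b) := by gcongr
        _ = (κ * Real.log b) * u := by ring
        _ ≤ 1 * u := by gcongr
        _ = u := one_mul _
    have h4 : ((k * ⌊κ * Real.log X / k⌋₊ : ℕ) : ℝ) ≤ (u : ℝ) := by
      push_cast
      exact h2.trans h3
    exact_mod_cast h4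
  refine le_trans ?_ (hcore F F.natDegree n hFD hF1 hFD (by
    rw [Polynomial.coeff_natDegree, hFs]
    exact hfar) (fun j hj => ⟨0, by
      rw [Polynomial.coeff_eq_zero_of_natDegree_lt hj]
      simp⟩) k W hk hW)
  have hsub : ((I X).filter fun m : ℕ => ∀ i, u ≤ i → i + k ≤ (2 * p + 2) * u →
        ¬ Occ b k W (F.eval (m : ℝ)) i) ⊆
      (I X).filter fun m : ℕ => ∀ i, n ≤ i → i + k ≤ n + k * ⌊κ * Real.log X / k⌋₊ →
      ¬ Occ b k W (F.eval (m : ℝ)) i := by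
    intro m hm
    rw [mem_filter] at hm ⊢
    refine ⟨hm.1, fun i hi hik => ?_⟩
    refine hm.2 i (hn1.trans hi) ?_
    have h5 : (2 * p + 2) * u = (2 * p + 1) * u + u := by ring
    omega
  exact_mod_cast card_le_card hsub

end Pool.Agent.Q138.PS.PW
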