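import Pool.Agent.Q138.PS.ZM
import Pool.Agent.Y933.KE.NormW
import Pool.Agent.Q270.SP.PrimeFam

/-!
Blocks of digits in which all words have the right frequency, in every long window.
-/

set_option autoImplicit false

namespace Pool.Agent.Q138.PS.PW

open Finset Filter Real MeasureTheory
open Pool.Agent.H469R2.NK (e norm_e e_add)
open Pool.Agent.Q270.PX (WeylI poly_sum)
open Pool.Agent.Y933.KD (wd WS ci WS_ci unif unif_prob integral_unif real_unif hat)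
open Pool.Agent.Y933.KE (TW GoodQ normal_TW)

/-- the exponential sums at a good place -/
theorem expo {I : ℕ → Finset ℕ} (hI : WeylI I) (b D : ℕ) :
    ∃ σ : ℝ, 0 < σ ∧ ∃ X₀ : ℕ, ∀ X : ℕ, X₀ ≤ X → 2 * (b : ℝ) < (X : ℝ) ^ (1 / 32 : ℝ) ∧ 1 ≤ X ∧
      ∀ (F : Polynomial ℝ) (d n : ℕ), F.natDegree ≤ D → 1 ≤ d → d ≤ D →
      (∀ t : ℕ, 1 ≤ t → (t : ℝ) ≤ (X : ℝ) ^ (1 / 32 : ℝ) → ∀ a : ℤ,
        1 / ((X : ℝ) ^ (1 / 32 : ℝ)) ^ 4 < |t * ((b : ℝ) ^ n * F.coeff d) - a|) →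
      (∀ j, d < j → ∃ a : ℤ, F.coeff j = a) →
      ∀ h : ℕ, 1 ≤ h → (h : ℝ) ≤ (X : ℝ) ^ σ →
        ‖∑ m ∈ I X, e (h * (F.eval (m : ℝ) * (b : ℝ) ^ n))‖ ≤ (X : ℝ) ^ (1 - σ) := by
  obtain ⟨τ, hτ, x₀, hx₀⟩ := poly_sum hI D 1 le_rfl (1 / 64) (by norm_num)
  obtain ⟨σ, hσ⟩ : ∃ σ : ℝ, σ = min τ (1 / 64) := ⟨_, rfl⟩
  have hσ0 : 0 < σ := by rw [hσ]; exact lt_min hτ (by norm_num)
  have hσ1 : σ ≤ τ := by rw [hσ]; exact min_le_left _ _
  have hσ2 : σ ≤ 1 / 64 := by rw [hσ]; exact min_le_right _ _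
  have hev : ∀ᶠ X : ℕ in atTop, 2 * (b : ℝ) < (X : ℝ) ^ (1 / 32 : ℝ) ∧ 1 ≤ X :=
    (((tendsto_rpow_atTop (by norm_num : (0 : ℝ) < 1 / 32)).comp tendsto_natCast_atTop_atTop).eventually_gt_atTop _).and
      (eventually_ge_atTop 1)
  obtain ⟨x₁, hx₁⟩ := eventually_atTop.1 hev
  refine ⟨σ, hσ0, max x₀ x₁, ?_⟩
  intro X hX
  obtain ⟨hA, hX1⟩ := hx₁ X (le_of_max_le_right hX)
  refine ⟨hA, hX1, ?_⟩
  intro F d n hdeg hd1 hdD hfar hQF h hh1 hhX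
  have hXr : (1 : ℝ) ≤ X := by exact_mod_cast hX1
  have hX0 : (0 : ℝ) < X := by linarith
  have hA4 : ((X : ℝ) ^ (1 / 32 : ℝ)) ^ 4 = (X : ℝ) ^ (1 / 8 : ℝ) := by
    rw [← Real.rpow_natCast, ← Real.rpow_mul hX0.le]
    norm_num
  rw [hA4] at hfar
  have hhr : (h : ℝ) ≤ (X : ℝ) ^ (1 / 64 : ℝ) := hhX.trans (Real.rpow_le_rpow_of_exponent_le hXr hσ2)
  have hpoly := hx₀ X (le_of_max_le_left hX) (fun j => (h : ℝ) * (F.coeff j * (b : ℝ) ^ n)) 0 d hd1 hdD (by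
    intro t ht1 htX a
    have h1 := hfar (t * h) (Nat.one_le_iff_ne_zero.2 (by positivity)) (by
      push_cast
      calc (t : ℝ) * h ≤ (X : ℝ) ^ (1 / 64 : ℝ) * (X : ℝ) ^ (1 / 64 : ℝ) := by gcongr
        _ = (X : ℝ) ^ (1 / 32 : ℝ) := by
          rw [← Real.rpow_add hX0]
          norm_num) a
    rw [Real.rpow_neg hX0.le, ← one_div]
    refine h1.trans_le (le_of_eq ?_)
    push_cast
    congr 1
    ring) (by
    intro j hj _
    obtain ⟨a, ha⟩ := hQF j hj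
    refine ⟨(h : ℤ) * (b : ℤ) ^ n * a, ?_⟩
    push_cast
    rw [← ha]
    ring)
  refine le_trans (le_of_eq ?_) (hpoly.trans (Real.rpow_le_rpow_of_exponent_le hXr (by linarith)))
  congr 1
  refine sum_congr rfl fun m _ => ?_
  congr 1
  rw [Polynomial.eval_eq_sum_range' (Nat.lt_succ_of_le hdeg), add_zero, sum_mul, mul_sum]
  refine sum_congr rfl fun j _ => ?_
  ring

/-- the distributions of finite sequences with small exponential sums -/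
def SF (I : ℕ → Finset ℕ) (σ θ : ℝ) (M : ℕ) : Set (Measure ℝ) :=
  {P | ∃ (X : ℕ) (y : ℕ → ℝ), 1 ≤ X ∧ (M : ℝ) ≤ (X : ℝ) ^ θ ∧ (X : ℝ) ^ (1 - σ / 2) ≤ ((I X).card : ℝ) ∧
    (∀ h : ℕ, 1 ≤ h → (h : ℝ) ≤ (X : ℝ) ^ σ → ‖∑ m ∈ I X, e (h * y m)‖ ≤ (X : ℝ) ^ (1 - σ)) ∧ P = unif (I X) y}

theorem SF_ne {I : ℕ → Finset ℕ} {σ : ℝ} {X : ℕ} (hX : 1 ≤ X) (hc : (X : ℝ) ^ (1 - σ / 2) ≤ ((I X).card : ℝ)) :
    (I X).Nonempty := by
  rw [← Finset.card_pos]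
  have h1 : (0 : ℝ) < (X : ℝ) ^ (1 - σ / 2) := Real.rpow_pos_of_pos (by exact_mod_cast hX) _
  exact_mod_cast h1.trans_le hc

theorem SF_prob (I : ℕ → Finset ℕ) (σ θ : ℝ) (M : ℕ) (_hM : 1 ≤ M) (P : Measure ℝ) (hP : P ∈ SF I σ θ M) :
    IsProbabilityMeasure P := by
  obtain ⟨X, y, hX, _, hc, _, rfl⟩ := hP
  exact unif_prob (SF_ne hX hc) y

theorem SF_good (I : ℕ → Finset ℕ) (b : ℕ) (hb : 2 ≤ b) {σ θ A : ℝ} (hA : 0 ≤ A)
    (h1 : θ * (1 + A * Real.log b) ≤ σ) (h2 : θ ≤ σ / 2) : GoodQ b 1 A (SF I σ θ) := by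
  refine ⟨1, one_pos, 1, ?_⟩
  rintro M hM P ⟨X, y, hX, hMX, hc, hs, rfl⟩ n h hn hh hne
  have hbr : (2 : ℝ) ≤ b := by exact_mod_cast hb
  have hb0 : (0 : ℝ) < b := by linarith
  have hlb : 0 < Real.log b := Real.log_pos (by linarith)
  have hXr : (1 : ℝ) ≤ X := by exact_mod_cast hX
  have hX0 : (0 : ℝ) < X := by linarith
  have hMr : (1 : ℝ) ≤ M := by exact_mod_cast hM
  have hM0 : (0 : ℝ) < M := by linarith
  obtain ⟨l, hl⟩ : ∃ l : ℤ, l = ∑ i, h i * (b : ℤ) ^ n i := ⟨_, rfl⟩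
  rw [← hl] at hne ⊢
  have hl' : l = h 0 * (b : ℤ) ^ (n 0) := by rw [hl]; simp
  have hsize : ((l.natAbs : ℕ) : ℝ) ≤ (X : ℝ) ^ σ := by
    have e1 : ((l.natAbs : ℕ) : ℝ) = |(h 0 : ℝ)| * (b : ℝ) ^ (n 0) := by
      rw [Nat.cast_natAbs, hl', Int.cast_abs]
      push_cast
      rw [abs_mul, abs_of_pos (by positivity : (0 : ℝ) < (b : ℝ) ^ (n 0))]
    have e2 : (b : ℝ) ^ (n 0) ≤ (M : ℝ) ^ (A * Real.log b) := by
      rw [← Real.rpow_natCast, Real.rpow_def_of_pos hb0, Real.rpow_def_of_pos hM0]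
      apply Real.exp_le_exp.2
      calc Real.log b * ((n 0 : ℕ) : ℝ) ≤ Real.log b * (A * Real.log M) := by
            have := hn 0
            gcongr
        _ = Real.log M * (A * Real.log b) := by ring
    rw [e1]
    calc |(h 0 : ℝ)| * (b : ℝ) ^ (n 0) ≤ (M : ℝ) ^ (1 : ℝ) * (M : ℝ) ^ (A * Real.log b) := by
          have := hh 0
          gcongr
      _ = (M : ℝ) ^ (1 + A * Real.log b) := by rw [← Real.rpow_add hM0]
      _ ≤ ((X : ℝ) ^ θ) ^ (1 + A * Real.log b) := Real.rpow_le_rpow hM0.le hMX (by positivity)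
      _ = (X : ℝ) ^ (θ * (1 + A * Real.log b)) := by rw [← Real.rpow_mul hX0.le]
      _ ≤ (X : ℝ) ^ σ := Real.rpow_le_rpow_of_exponent_le hXr h1
  have hsum := hs l.natAbs (Int.natAbs_pos.2 hne) hsize
  have hsum' : ‖∑ m ∈ I X, e (l * y m)‖ ≤ (X : ℝ) ^ (1 - σ) := by
    refine le_trans (le_of_eq ?_) hsum
    rcases Int.natAbs_eq l with h3 | h3
    · congr 1
      refine sum_congr rfl fun m _ => ?_
      congr 2
      rw [h3]
      simp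
    · have h4 : ∀ m : ℕ, e (l * y m) = (starRingEnd ℂ) (e ((l.natAbs : ℕ) * y m)) := by
        intro m
        rw [← e_neg]
        congr 1
        have h5 : (l : ℝ) = -((l.natAbs : ℕ) : ℝ) := by
          exact_mod_cast h3
        rw [h5]
        simp
      rw [sum_congr rfl fun m _ => h4 m, ← map_sum, Complex.norm_conj]
  have hcp : (0 : ℝ) < (X : ℝ) ^ (1 - σ / 2) := Real.rpow_pos_of_pos hX0 _
  have h4 : ‖(1 / ((I X).card : ℂ))‖ ≤ 1 / (X : ℝ) ^ (1 - σ / 2) := by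
    rw [norm_div, norm_one, Complex.norm_natCast]
    exact one_div_le_one_div_of_le hcp hc
  unfold hat
  rw [integral_unif, norm_mul]
  have h5 : ∀ m : ℕ, Pool.Agent.Y933.KD.e (l * y m) = e (l * y m) := fun m => rfl
  rw [sum_congr rfl fun m _ => h5 m]
  calc ‖(1 / ((I X).card : ℂ))‖ * ‖∑ m ∈ I X, e (l * y m)‖
      ≤ 1 / (X : ℝ) ^ (1 - σ / 2) * (X : ℝ) ^ (1 - σ) := by gcongr
    _ = (X : ℝ) ^ (-(σ / 2)) := by
        rw [one_div, ← Real.rpow_neg hX0.le, ← Real.rpow_add hX0]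
        congr 1
        ring
    _ ≤ (X : ℝ) ^ (-θ) := Real.rpow_le_rpow_of_exponent_le hXr (by linarith)
    _ = ((X : ℝ) ^ θ)⁻¹ := Real.rpow_neg hX0.le _
    _ ≤ (M : ℝ)⁻¹ := inv_anti₀ hM0 hMX
    _ = (M : ℝ) ^ (-1 : ℝ) := by rw [Real.rpow_neg hM0.le, Real.rpow_one]

/-- In the first `L` digits of `z` behind the point all words of at most `w` digits have the right frequency in all
subwindows, up to `E`. -/
def Blk (b w : ℕ) (L E z : ℝ) : Prop :=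
  ∀ k j s N : ℕ, 1 ≤ k → k ≤ w → j < b ^ k → (s : ℝ) + N ≤ L →
    |(((range N).filter fun i : ℕ => ⌊z * (b : ℝ) ^ (s + i + k)⌋ % ((b : ℤ) ^ k) = (j : ℤ)).card : ℝ) -
      N / (b : ℝ) ^ k| ≤ E

theorem wd_iff {b : ℕ} (hb : 1 ≤ b) (k n j : ℕ) (z : ℝ) :
    wd b k n z = j ↔ ⌊z * (b : ℝ) ^ (n + k)⌋ % ((b : ℤ) ^ k) = (j : ℤ) := by
  have hb0 : (0 : ℝ) < b := by exact_mod_cast hb
  have hbk : (0 : ℤ) < (b : ℤ) ^ k := by
    have : (0 : ℤ) < b := by exact_mod_cast hb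
    positivity
  have h1 : ⌊z * (b : ℝ) ^ (n + k)⌋ = (b : ℤ) ^ k * ⌊(b : ℝ) ^ n * z⌋ + (wd b k n z : ℤ) := by
    have h2 : (0 : ℝ) ≤ (b : ℝ) ^ k * Int.fract ((b : ℝ) ^ n * z) := mul_nonneg (by positivity) (Int.fract_nonneg _)
    have h3 : (wd b k n z : ℤ) = ⌊(b : ℝ) ^ k * Int.fract ((b : ℝ) ^ n * z)⌋ := by
      unfold wd
      exact Int.natCast_floor_eq_floor h2
    rw [h3]
    have h4 : z * (b : ℝ) ^ (n + k) = (b : ℝ) ^ k * Int.fract ((b : ℝ) ^ n * z) +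
        (((b : ℤ) ^ k * ⌊(b : ℝ) ^ n * z⌋ : ℤ) : ℝ) := by
      have h5 := Int.fract_add_floor ((b : ℝ) ^ n * z)
      push_cast
      calc z * (b : ℝ) ^ (n + k) = (b : ℝ) ^ k * ((b : ℝ) ^ n * z) := by ring
        _ = (b : ℝ) ^ k * (Int.fract ((b : ℝ) ^ n * z) + ⌊(b : ℝ) ^ n * z⌋) := by rw [h5]
        _ = _ := by ring
    rw [h4, Int.floor_add_intCast]
    ring
  rw [h1, Int.mul_add_emod_self_left]
  have h6 : (wd b k n z : ℤ) % (b : ℤ) ^ k = (wd b k n z : ℤ) := by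
    apply Int.emod_eq_of_lt (by positivity)
    exact_mod_cast Pool.Agent.Y933.KD.wd_lt hb k n z
  rw [h6]
  exact ⟨fun h => by rw [h], fun h => by exact_mod_cast h⟩

open Classical in
/-- normal blocks for sequences with small exponential sums -/
theorem block_norm (I : ℕ → Finset ℕ) (b w : ℕ) (hb : 2 ≤ b) (hw : 1 ≤ w) {σ ε : ℝ} (hσ : 0 < σ) (hε : 0 < ε)
    (hcard : ∀ᶠ N : ℕ in atTop, (N : ℝ) ^ (1 - σ / 2) ≤ ((I N).card : ℝ)) :
    ∃ κ : ℝ, 0 < κ ∧ κ * Real.log b ≤ 1 ∧ ∃ c : ℝ, 0 < c ∧ ∃ X₀ : ℕ, ∀ X : ℕ, X₀ ≤ X → ∀ y : ℕ → ℝ,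
      (∀ h : ℕ, 1 ≤ h → (h : ℝ) ≤ (X : ℝ) ^ σ → ‖∑ m ∈ I X, e (h * y m)‖ ≤ (X : ℝ) ^ (1 - σ)) →
      (((I X).filter fun m : ℕ => ¬ Blk b w (κ * Real.log X) (ε * (κ * Real.log X)) (y m)).card : ℝ) ≤
        (X : ℝ) ^ (-c) * (I X).card := by
  have hbr : (2 : ℝ) ≤ b := by exact_mod_cast hb
  have hb0 : (0 : ℝ) < b := by linarith
  have hlb : 0 < Real.log b := Real.log_pos (by linarith)
  obtain ⟨θ, hθ⟩ : ∃ θ : ℝ, θ = min (σ / (1 + 2 * Real.log b)) (min (σ / 2) (1 / Real.log b)) := ⟨_, rfl⟩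
  have hθ0 : 0 < θ := by rw [hθ]; exact lt_min (by positivity) (lt_min (by positivity) (by positivity))
  have hθ1 : θ * (1 + 2 * Real.log b) ≤ σ := by
    have : θ ≤ σ / (1 + 2 * Real.log b) := by rw [hθ]; exact min_le_left _ _
    rwa [le_div_iff₀ (by positivity)] at this
  have hθ2 : θ ≤ σ / 2 := by rw [hθ]; exact (min_le_right _ _).trans (min_le_left _ _)
  have hθ3 : θ * Real.log b ≤ 1 := by
    have : θ ≤ 1 / Real.log b := by rw [hθ]; exact (min_le_right _ _).trans (min_le_right _ _)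
    rwa [le_div_iff₀ hlb] at this
  have hT : TW b 1 ((1 : ℝ) + 1) (SF I σ θ) := by
    refine TW.of_goodQ (by omega) (SF_prob I σ θ) ?_
    refine SF_good I b hb (by norm_num) ?_ hθ2
    have e1 : (1 : ℝ) + 1 = 2 := by norm_num
    rw [e1]
    exact hθ1
  obtain ⟨c, hc, M₀, hM₀⟩ := normal_TW (b := b) (w := w) hb hw (A := 1) (ε := ε / 2) (by positivity) (SF_prob I σ θ) hT
  have hlog : Tendsto (fun X : ℕ => θ * Real.log (X : ℝ)) atTop atTop :=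
    (Real.tendsto_log_atTop.comp tendsto_natCast_atTop_atTop).const_mul_atTop hθ0
  have hpow : Tendsto (fun X : ℕ => (X : ℝ) ^ θ) atTop atTop :=
    (tendsto_rpow_atTop hθ0).comp tendsto_natCast_atTop_atTop
  have hpow2 : Tendsto (fun X : ℕ => (X : ℝ) ^ (θ * c / 2)) atTop atTop :=
    (tendsto_rpow_atTop (by positivity)).comp tendsto_natCast_atTop_atTop
  obtain ⟨X₀, hX₀⟩ := eventually_atTop.1 ((hcard.and (hlog.eventually_ge_atTop 2)).and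
    ((hpow.eventually_ge_atTop ((M₀ : ℝ) + 2)).and ((hpow2.eventually_ge_atTop ((2 : ℝ) ^ c)).and (eventually_ge_atTop 1))))
  refine ⟨θ / 2, by positivity, by nlinarith, θ * c / 2, by positivity, X₀, ?_⟩
  intro X hX y hy
  obtain ⟨⟨hcX, hl2⟩, hpM, hp2, hX1⟩ := hX₀ X hX
  have hXr : (1 : ℝ) ≤ X := by exact_mod_cast hX1
  have hX0 : (0 : ℝ) < X := by linarith
  obtain ⟨M, hM⟩ : ∃ M : ℕ, M = ⌊(X : ℝ) ^ θ⌋₊ := ⟨_, rfl⟩
  have hXθ : (0 : ℝ) ≤ (X : ℝ) ^ θ := Real.rpow_nonneg hX0.le _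
  have hM1 : (M : ℝ) ≤ (X : ℝ) ^ θ := by rw [hM]; exact Nat.floor_le hXθ
  have hM2 : (X : ℝ) ^ θ < M + 1 := by rw [hM]; exact Nat.lt_floor_add_one _
  have hMM : M₀ ≤ M := by
    have : (M₀ : ℝ) ≤ M := by linarith
    exact_mod_cast this
  have hMr : (1 : ℝ) ≤ M := by
    have : (0 : ℝ) ≤ M₀ := Nat.cast_nonneg _
    linarith
  have hM0 : (0 : ℝ) < M := by linarith
  have hM3 : (X : ℝ) ^ θ / 2 ≤ M := by linarith
  obtain ⟨U, hU, hPU, hgood⟩ := hM₀ M hMM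
  have hmem : unif (I X) y ∈ SF I σ θ M := ⟨X, y, hX1, hM1, hcX, hy, rfl⟩
  have h1 := hPU _ hmem
  rw [real_unif (I X) y hU] at h1
  have hcpos : (0 : ℝ) < (I X).card := by exact_mod_cast Finset.card_pos.2 (SF_ne hX1 hcX)
  rw [div_le_iff₀ hcpos] at h1
  have hlM1 : θ / 2 * Real.log X ≤ Real.log M := by
    have h3 : Real.log ((X : ℝ) ^ θ / 2) ≤ Real.log M := Real.log_le_log (by positivity) hM3
    rw [Real.log_div (by positivity) (by norm_num), Real.log_rpow hX0] at h3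
    have := Real.log_two_lt_d9
    linarith
  have hlM2 : Real.log M ≤ θ * Real.log X := by
    rw [← Real.log_rpow hX0]
    exact Real.log_le_log hM0 hM1
  have hsub : ((I X).filter fun m : ℕ => ¬ Blk b w (θ / 2 * Real.log X) (ε * (θ / 2 * Real.log X)) (y m)) ⊆
      (I X).filter fun m => y m ∈ U := by
    intro m hm
    rw [mem_filter] at hm ⊢
    refine ⟨hm.1, ?_⟩
    by_contra hmU
    apply hm.2
    intro k j s N hk hkw hj hsN
    have h4 := hgood (y m) hmU k j s N hk hkw hj (by linarith)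
    rw [WS_ci (by omega)] at h4
    have h5 : ((range N).filter fun i : ℕ => ⌊y m * (b : ℝ) ^ (s + i + k)⌋ % ((b : ℤ) ^ k) = (j : ℤ)) =
        (range N).filter (fun i => wd b k (s + i) (y m) = j) := by
      apply Finset.filter_congr
      intro i _
      exact (wd_iff (by omega) k (s + i) j (y m)).symm
    rw [h5]
    refine h4.trans ?_
    nlinarith
  have h6 : (((I X).filter fun m : ℕ => ¬ Blk b w (θ / 2 * Real.log X) (ε * (θ / 2 * Real.log X)) (y m)).card : ℝ) ≤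
      (((I X).filter fun m => y m ∈ U).card : ℝ) := by exact_mod_cast card_le_card hsub
  refine h6.trans (h1.trans ?_)
  gcongr
  calc (M : ℝ) ^ (-c) ≤ ((X : ℝ) ^ θ / 2) ^ (-c) :=
        Real.rpow_le_rpow_of_nonpos (by positivity) hM3 (by linarith)
    _ = (2 : ℝ) ^ c * (X : ℝ) ^ (-(θ * c)) := by
        rw [Real.rpow_neg (by positivity), Real.div_rpow (by positivity) (by norm_num), inv_div, Real.rpow_neg hX0.le,
          Real.rpow_mul hX0.le]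
        ring
    _ ≤ (X : ℝ) ^ (θ * c / 2) * (X : ℝ) ^ (-(θ * c)) := by gcongr
    _ = (X : ℝ) ^ (-(θ * c / 2)) := by
        rw [← Real.rpow_add hX0]
        congr 1
        ring

open Classical in
/-- **Normal blocks in every long window.** -/
theorem normal_windows {I : ℕ → Finset ℕ} (hI : WeylI I)
    (hcard : ∀ ι : ℝ, 0 < ι → ∀ᶠ N : ℕ in atTop, (N : ℝ) ^ (1 - ι) ≤ ((I N).card : ℝ)) {x : ℝ} {p : ℕ}
    (hx : ∀ s : ℤ, s ≠ 0 → ∀ q : ℕ, 1 ≤ q → ∀ a : ℤ, 1 / (2 * |(s : ℝ)| * q) ^ p ≤ |q * (x * s) - a|)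
    (b D w : ℕ) (hb : 2 ≤ b) (hw : 1 ≤ w) {ε : ℝ} (hε : 0 < ε) :
    ∃ κ : ℝ, 0 < κ ∧ ∃ c : ℝ, 0 < c ∧ ∃ X₀ : ℕ, ∀ X : ℕ, X₀ ≤ X → ∀ s : ℤ, s ≠ 0 → ∃ n : ℕ → ℕ,
      (∀ v : ℕ, (X : ℝ) * |(s : ℝ)| ≤ (b : ℝ) ^ v →
        v ≤ n v ∧ (n v : ℝ) + κ * Real.log X ≤ (2 * p + 2) ^ 2 * v) ∧
      ∀ F : Polynomial ℝ, F.leadingCoeff = x * s → 1 ≤ F.natDegree → F.natDegree ≤ D →
      (((I X).filter fun m : ℕ => ¬ ∀ v : ℕ, (X : ℝ) * |(s : ℝ)| ≤ (b : ℝ) ^ v →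
        (v : ℝ) ≤ Real.exp ((X : ℝ) ^ c) →
        Blk b w (κ * Real.log X) (ε * (κ * Real.log X)) (F.eval (m : ℝ) * (b : ℝ) ^ n v)).card : ℝ) ≤
        (X : ℝ) ^ (-c) * (I X).card := by
  obtain ⟨σ, hσ, X₁, hX₁⟩ := expo hI b D
  obtain ⟨κ, hκ, hκb, c₀, hc₀, X₂, hX₂⟩ := block_norm I b w hb hw hσ hε (hcard (σ / 2) (by positivity))
  have hbr : (2 : ℝ) ≤ b := by exact_mod_cast hb
  have hb0 : (0 : ℝ) < b := by linarith
  have hlb : 0 < Real.log b := Real.log_pos (by linarith)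
  obtain ⟨c, hc⟩ : ∃ c : ℝ, c = c₀ / 3 := ⟨_, rfl⟩
  have hc0 : 0 < c := by rw [hc]; positivity
  have hev : ∀ᶠ X : ℕ in atTop, 4 ≤ (X : ℝ) ^ c ∧ 2 ≤ X :=
    (((tendsto_rpow_atTop hc0).comp tendsto_natCast_atTop_atTop).eventually_ge_atTop _).and
      (eventually_ge_atTop 2)
  obtain ⟨X₃, hX₃⟩ := eventually_atTop.1 hev
  refine ⟨κ, hκ, c, hc0, max X₁ (max X₂ X₃), ?_⟩
  intro X hX s hs0
  obtain ⟨hA, hX1, hexpo⟩ := hX₁ X (le_of_max_le_left hX)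
  have hblk := hX₂ X (le_of_max_le_left (le_of_max_le_right hX))
  obtain ⟨hXc, hX2⟩ := hX₃ X (le_of_max_le_right (le_of_max_le_right hX))
  have hXr : (2 : ℝ) ≤ X := by exact_mod_cast hX2
  have hX0 : (0 : ℝ) < X := by linarith
  have hlX : 0 ≤ Real.log X := Real.log_nonneg (by linarith)
  have hs1 : (1 : ℝ) ≤ |(s : ℝ)| := by
    rw [← Int.cast_abs]
    exact_mod_cast Int.one_le_abs hs0
  obtain ⟨A, hAd⟩ : ∃ A : ℝ, A = (X : ℝ) ^ (1 / 32 : ℝ) := ⟨_, rfl⟩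
  rw [← hAd] at hA hexpo
  have hA4 : 4 < A := by linarith
  have hXA : 2 * A ≤ X := by
    have h1 : A ^ 32 = X := by
      rw [hAd, ← Real.rpow_natCast, ← Real.rpow_mul hX0.le]
      norm_num
    calc 2 * A ≤ A * A := by nlinarith
      _ = A ^ 2 := by ring
      _ ≤ A ^ 32 := pow_le_pow_right₀ (by linarith) (by norm_num)
      _ = X := h1
  have hex : ∃ u : ℕ, (X : ℝ) * |(s : ℝ)| ≤ (b : ℝ) ^ u := by
    obtain ⟨u, hu⟩ := pow_unbounded_of_one_lt ((X : ℝ) * |(s : ℝ)|) (by linarith : (1 : ℝ) < b)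
    exact ⟨u, hu.le⟩
  obtain ⟨u, hud⟩ : ∃ u : ℕ, u = Nat.find hex := ⟨_, rfl⟩
  have hu : (X : ℝ) * |(s : ℝ)| ≤ (b : ℝ) ^ u := by
    rw [hud]
    exact Nat.find_spec hex
  have hu1 : 1 ≤ u := by
    by_contra h
    have h0 : u = 0 := by omega
    rw [h0, pow_zero] at hu
    nlinarith
  obtain ⟨C, hC⟩ : ∃ C : ℕ, C = 2 * p + 2 := ⟨_, rfl⟩
  have hC2 : 2 ≤ C := by omega
  obtain ⟨R, hR⟩ : ∃ R : ℕ, R = ⌈2 * (X : ℝ) ^ c⌉₊ := ⟨_, rfl⟩
  have hR1 : 2 * (X : ℝ) ^ c ≤ R := by rw [hR]; exact Nat.le_ceil _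
  have hR2 : (R : ℝ) + 1 ≤ 4 * (X : ℝ) ^ c := by
    have : (R : ℝ) < 2 * (X : ℝ) ^ c + 1 := by rw [hR]; exact Nat.ceil_lt_add_one (by positivity)
    linarith
  -- the places
  have hpl : ∀ j : ℕ, ∃ n, C ^ j * u ≤ n ∧ n ≤ (2 * p + 1) * (C ^ j * u) ∧
      ∀ t : ℕ, 1 ≤ t → (t : ℝ) ≤ A → ∀ a : ℤ, 1 / A ^ 4 < |t * ((b : ℝ) ^ n * (x * (s : ℝ))) - a| := by
    intro j
    refine scale_dio b hb p (x * (s : ℝ)) (2 * |(s : ℝ)|)
      (by linarith) (hx _ hs0) A hA (C ^ j * u) ?_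
    calc 2 * |(s : ℝ)| * A = (2 * A) * |(s : ℝ)| := by ring
      _ ≤ X * |(s : ℝ)| := by gcongr
      _ ≤ (b : ℝ) ^ u := hu
      _ ≤ (b : ℝ) ^ (C ^ j * u) := by
        apply pow_le_pow_right₀ (by linarith)
        exact Nat.le_mul_of_pos_left _ (Nat.pos_of_ne_zero (by positivity))
  choose nj hnj1 hnj2 hnj3 using hpl
  have hjv : ∀ v : ℕ, (X : ℝ) * |(s : ℝ)| ≤ (b : ℝ) ^ v → ∃ j : ℕ, v ≤ C ^ j * u ∧ C ^ j * u ≤ C * v ∧
      ((v : ℝ) ≤ Real.exp ((X : ℝ) ^ c) → j ≤ R) := by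
    intro v hv1
    have huv : u ≤ v := by
      rw [hud]
      exact Nat.find_min' hex hv1
    have hex2 : ∃ j : ℕ, v ≤ C ^ j * u := by
      refine ⟨v, ?_⟩
      have h1 : v < C ^ v := Nat.lt_pow_self (by omega)
      exact h1.le.trans (Nat.le_mul_of_pos_right _ (by omega))
    obtain ⟨j, hj⟩ : ∃ j : ℕ, j = Nat.find hex2 := ⟨_, rfl⟩
    refine ⟨j, ?_, ?_, ?_⟩
    · rw [hj]
      exact Nat.find_spec hex2
    · rcases Nat.eq_zero_or_pos j with h0 | h0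
      · rw [h0, pow_zero, one_mul]
        exact huv.trans (Nat.le_mul_of_pos_left _ (by omega))
      · have h1 := Nat.find_min hex2 (m := j - 1) (by omega)
        rw [not_le] at h1
        have h2 : C ^ j = C * C ^ (j - 1) := by
          rw [← pow_succ']
          congr 1
          omega
        rw [h2, mul_assoc]
        exact Nat.mul_le_mul_left _ h1.le
    · intro hv2
      rw [hj]
      apply Nat.find_min' hex2
      have h1 : (v : ℝ) ≤ (C : ℝ) ^ R := by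
        calc (v : ℝ) ≤ Real.exp ((X : ℝ) ^ c) := hv2
          _ ≤ Real.exp (Real.log 2 * R) := by
            apply Real.exp_le_exp.2
            have := Real.log_two_gt_d9
            nlinarith
          _ = (2 : ℝ) ^ R := by
            rw [← Real.rpow_natCast, Real.rpow_def_of_pos (by norm_num : (0 : ℝ) < 2)]
          _ ≤ (C : ℝ) ^ R := by
            gcongr
            exact_mod_cast hC2
      have h2 : v ≤ C ^ R := by exact_mod_cast h1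
      exact h2.trans (Nat.le_mul_of_pos_right _ (by omega))
  choose! jv hjv1 hjv2 hjv3 using hjv
  refine ⟨fun v => nj (jv v), ?_, ?_⟩
  · intro v hv
    refine ⟨(hjv1 v hv).trans (hnj1 _), ?_⟩
    have h1 : (nj (jv v) : ℝ) ≤ (2 * p + 1) * ((2 * p + 2) * v) := by
      have h2 : nj (jv v) ≤ (2 * p + 1) * (C * v) :=
        (hnj2 _).trans (Nat.mul_le_mul_left _ (hjv2 v hv))
      rw [hC] at h2
      exact_mod_cast h2
    have h3 : κ * Real.log X ≤ v := by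
      have hlu : Real.log X ≤ v * Real.log b := by
        rw [← Real.log_pow]
        apply Real.log_le_log hX0
        calc (X : ℝ) = X * 1 := (mul_one _).symm
          _ ≤ X * |(s : ℝ)| := by gcongr
          _ ≤ _ := hv
      calc κ * Real.log X ≤ κ * (v * Real.log b) := by gcongr
        _ = (κ * Real.log b) * v := by ring
        _ ≤ 1 * v := by gcongr
        _ = v := one_mul _
    have hv0 : (0 : ℝ) ≤ v := Nat.cast_nonneg v
    have hp0 : (0 : ℝ) ≤ p := Nat.cast_nonneg p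
    have h4 : (v : ℝ) ≤ (2 * p + 2) * v := by nlinarith
    calc (nj (jv v) : ℝ) + κ * Real.log X ≤ (2 * p + 1) * ((2 * p + 2) * v) + (2 * p + 2) * v := by linarith
      _ = (2 * p + 2) ^ 2 * v := by ring
  intro F hFs hF1 hFD
  have hone : ∀ j : ℕ, (((I X).filter fun m : ℕ => ¬ Blk b w (κ * Real.log X) (ε * (κ * Real.log X))
      (F.eval (m : ℝ) * (b : ℝ) ^ nj j)).card : ℝ) ≤ (X : ℝ) ^ (-c₀) * (I X).card := by
    intro j
    refine hblk (fun m : ℕ => F.eval (m : ℝ) * (b : ℝ) ^ nj j) ?_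
    intro h hh1 hhX
    exact hexpo F F.natDegree (nj j) hFD hF1 hFD (by
      rw [Polynomial.coeff_natDegree, hFs]
      exact hnj3 j) (fun i hi => ⟨0, by
        rw [Polynomial.coeff_eq_zero_of_natDegree_lt hi]
        simp⟩) h hh1 hhX
  have hsub : ((I X).filter fun m : ℕ => ¬ ∀ v : ℕ, (X : ℝ) * |(s : ℝ)| ≤ (b : ℝ) ^ v →
        (v : ℝ) ≤ Real.exp ((X : ℝ) ^ c) →
        Blk b w (κ * Real.log X) (ε * (κ * Real.log X)) (F.eval (m : ℝ) * (b : ℝ) ^ nj (jv v))) ⊆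
      (range (R + 1)).biUnion fun j => (I X).filter fun m : ℕ => ¬ Blk b w (κ * Real.log X) (ε * (κ * Real.log X))
        (F.eval (m : ℝ) * (b : ℝ) ^ nj j) := by
    intro m hm
    rw [mem_filter] at hm
    obtain ⟨hmI, hm⟩ := hm
    push Not at hm
    obtain ⟨v, hv1, hv2, hm⟩ := hm
    rw [mem_biUnion]
    refine ⟨jv v, mem_range.2 ?_, ?_⟩
    · have := hjv3 v hv1 hv2
      omega
    · rw [mem_filter]
      exact ⟨hmI, hm⟩
  have hcb : (((I X).filter fun m : ℕ => ¬ ∀ v : ℕ, (X : ℝ) * |(s : ℝ)| ≤ (b : ℝ) ^ v →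
        (v : ℝ) ≤ Real.exp ((X : ℝ) ^ c) →
        Blk b w (κ * Real.log X) (ε * (κ * Real.log X)) (F.eval (m : ℝ) * (b : ℝ) ^ nj (jv v))).card : ℝ) ≤
      ∑ j ∈ range (R + 1), (((I X).filter fun m : ℕ => ¬ Blk b w (κ * Real.log X) (ε * (κ * Real.log X))
        (F.eval (m : ℝ) * (b : ℝ) ^ nj j)).card : ℝ) := by
    exact_mod_cast (card_le_card hsub).trans card_biUnion_le
  refine hcb.trans ?_
  calc ∑ j ∈ range (R + 1), (((I X).filter fun m : ℕ => ¬ Blk b w (κ * Real.log X) (ε * (κ * Real.log X))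
        (F.eval (m : ℝ) * (b : ℝ) ^ nj j)).card : ℝ)
      ≤ ∑ _j ∈ range (R + 1), (X : ℝ) ^ (-c₀) * (I X).card := sum_le_sum fun j _ => hone j
    _ = ((R : ℝ) + 1) * ((X : ℝ) ^ (-c₀) * (I X).card) := by
        rw [sum_const, card_range, nsmul_eq_mul]
        push_cast
        ring
    _ ≤ (4 * (X : ℝ) ^ c) * ((X : ℝ) ^ (-c₀) * (I X).card) := by gcongr
    _ ≤ ((X : ℝ) ^ c * (X : ℝ) ^ c) * ((X : ℝ) ^ (-c₀) * (I X).card) := by gcongr
    _ = ((X : ℝ) ^ c * (X : ℝ) ^ c * (X : ℝ) ^ (-c₀)) * (I X).card := by ring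
    _ = (X : ℝ) ^ (-c) * (I X).card := by
        rw [← Real.rpow_add hX0, ← Real.rpow_add hX0]
        congr 2
        rw [hc]
        ring

end Pool.Agent.Q138.PS.PW
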